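import Pool.Agent.MP_f3836a_nt.GV.SpecC2

/-! Row Ann: the stabiliser of a residue. -/

set_option autoImplicit false

namespace Pool.Agent.MP_f3836a_nt.GV.C

open NumberField

theorem rAnn : OfAnn := by
  classical
  rintro hB hI n r _ o Q m n' I β ok hQ hI1 hm hβ ⟨k, hk⟩ hn hc
  obtain ⟨-, -, -, h0, hnat, hadj, hcong, -, hrep, -, -, -, hcard⟩ := hB n r o ok
  obtain ⟨b, hb⟩ := hI n r o I ok hI1
  have := ok.inj.isDomain
  have hne : ∀ a : ℕ, a ≠ 0 → (a : o.A) ≠ 0 := fun a ha e =>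
    pow_ne_zero n ha (by rw [← hnat, e, h0])
  have hm0 : m ≠ 0 := hm ▸ hI1.1
  have hq : Q / m = m * k := by
    rw [hk, sq, mul_assoc, Nat.mul_div_cancel_left _ (Nat.pos_of_ne_zero hm0)]
  have h1 : ∀ s : o.A, (Q : o.A) ∣ (s - 1) * β → ((m * k : ℕ) : o.A) ∣ s - 1 := fun s hs => by
    obtain ⟨a, ha⟩ := hadj β
    have h := hs.mul_right a
    rw [mul_assoc, ha, hn, Nat.cast_mul, ← mul_assoc] at h
    have h' := (hc.symm.cast (R := o.A)).dvd_of_dvd_mul_right h
    rwa [hk, sq, mul_assoc, Nat.cast_mul, mul_comm (s - 1), mul_dvd_mul_iff_left (hne m hm0)] at h'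
  have h2 : ∀ s : o.A, (Q : o.A) ∣ (s - 1) * β → o.Cp Q s := fun s hs => by
    have h := hcong _ _ _ (h1 s hs)
    rw [o.nm_one] at h
    refine ((Nat.coprime_of_mul_modEq_one 1 (by rwa [mul_one])).pow_right 2).coprime_dvd_right
      ⟨k, by rw [hk]; ring⟩
  obtain ⟨π, hπ⟩ : ∃ π, π = Ideal.Quotient.mk (Ideal.span {(Q : o.A)}) := ⟨_, rfl⟩
  have hs : Function.Surjective π := hπ ▸ Ideal.Quotient.mk_surjective
  have he : ∀ x y, π x = π y ↔ (Q : o.A) ∣ x - y := fun x y => by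
    rw [hπ, Ideal.Quotient.eq, Ideal.mem_span_singleton]
  have hG : Nat.card (o.A ⧸ Ideal.span {(Q : o.A)}) = Q ^ n := by rw [hcard _ (hne Q hQ.ne'), hnat]
  have : Finite (o.A ⧸ Ideal.span {(Q : o.A)}) :=
    Nat.finite_of_card_ne_zero (hG ▸ pow_ne_zero n hQ.ne')
  obtain ⟨φ, hφ⟩ : ∃ φ, φ = AddMonoidHom.mulRight (π β) := ⟨_, rfl⟩
  have hk0 : ∀ s, π s - 1 ∈ φ.ker ↔ (Q : o.A) ∣ (s - 1) * β := fun s => by
    rw [hφ, AddMonoidHom.mem_ker, AddMonoidHom.mulRight_apply, ← map_one π, ← map_sub, ← map_mul,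
      ← map_zero π, he, sub_zero]
  have h3 : Nat.card φ.ker = m := by
    have e : (φ.range.comap π.toAddMonoidHom).index = φ.range.index :=
      AddSubgroup.index_comap_of_surjective _ hs
    rw [← AddSubgroup.index_range]
    refine Nat.dvd_antisymm ?_ ?_
    · refine Nat.Coprime.dvd_of_dvd_mul_right (n := n')
        ((hc.symm.pow_left n).coprime_dvd_left (hG ▸ φ.range.index_dvd_card)) ?_
      rw [← hn, ← e]
      rcases eq_or_ne β 0 with rfl | h
      · rw [h0]; exact dvd_zero _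
      · rw [← hcard β h]
        refine AddSubgroup.index_dvd_of_le (H := (Ideal.span {β}).toAddSubgroup) fun x hx => ?_
        obtain ⟨y, rfl⟩ := Ideal.mem_span_singleton'.1 hx
        exact ⟨π y, by simp [hφ]⟩
    · rw [← e, ← hm, ← hb.idx]
      refine AddSubgroup.index_dvd_of_le ?_
      rintro x ⟨y, hy⟩
      obtain ⟨y, rfl⟩ := hs y
      obtain ⟨z, hz⟩ := (he x (y * β)).1 (by simpa [hφ] using hy.symm)
      rw [← hb.mem, sub_eq_iff_eq_add.1 hz, map_add, map_mul, map_mul, map_natCast, hk, sq,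
        mul_assoc, Nat.cast_mul, mul_assoc, ← hm]
      exact I.add_mem (I.mul_mem_right _ I.absNorm_mem) (I.mul_mem_left _ hβ)
  have h4 : ∀ t : φ.ker, ∃ u, π u - 1 = t ∧ o.Pm Q u := fun t => by
    obtain ⟨s, hs⟩ := hs (t + 1)
    obtain ⟨u, hu, hu'⟩ := hrep Q s hQ (h2 s ((hk0 s).1 (by simp [hs])))
    exact ⟨u, by rw [(he _ _).2 hu, hs, add_sub_cancel_right], hu'⟩
  choose u hu hu' using h4
  have := Fintype.ofFinite φ.ker
  have h5 : ∀ t t', π (u t) = π (u t') → t = t' := fun t t' h =>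
    Subtype.ext (by rw [← hu, ← hu, h])
  refine ⟨Finset.univ.image u, ?_, ?_, ?_, fun s hs => ?_⟩
  · rw [Finset.card_image_of_injective _ fun t t' h => h5 t t' (congrArg π h), Finset.card_univ,
      ← h3, Nat.card_eq_fintype_card]
  · simp only [Finset.mem_image, Finset.mem_univ, true_and, forall_exists_index,
      forall_apply_eq_imp_iff, hq]
    exact fun t => have h := (hk0 _).1 (hu t ▸ t.2); ⟨hu' t, h, h1 _ h⟩
  · simp only [Finset.mem_image, Finset.mem_univ, true_and, forall_exists_index,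
      forall_apply_eq_imp_iff]
    exact fun t t' h => congrArg u (h5 _ _ ((he _ _).2 h))
  · exact ⟨u ⟨_, (hk0 s).2 hs⟩, Finset.mem_image_of_mem _ (Finset.mem_univ _),
      (he _ _).1 (sub_left_injective (hu ⟨_, (hk0 s).2 hs⟩)).symm⟩

end Pool.Agent.MP_f3836a_nt.GV.C
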