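import Pool.Agent.MP_f3836a_nt.GV.SpecC2

/-! Row `Baa`: facts on the ring. -/

set_option autoImplicit false

namespace Pool.Agent.MP_f3836a_nt.GV.C

open Finset NumberField VE

namespace GCBaa

variable {n r : ℕ} (o : Od n r)

theorem co_apply (β : Fin n → ℤ) : o.co β = ∑ i, β i • o.y i :=
  o.y.equivFun_symm_apply β

theorem co_repr (a : o.A) : o.co (o.y.repr a) = a := by
  rw [co_apply]; exact o.y.sum_repr a

theorem repr_co (β : Fin n → ℤ) : (o.y.repr (o.co β) : Fin n → ℤ) = β :=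
  o.co.injective (co_repr o _)

theorem mx (β : Fin n → ℤ) : Mx o.M β = Algebra.leftMulMatrix o.y (o.co β) := by
  rw [co_apply, map_sum, Mx]
  exact sum_congr rfl fun i _ => by rw [map_zsmul]; rfl

theorem co_smul (q : ℕ) (δ : Fin n → ℤ) : o.co ((q : ℤ) • δ) = q * o.co δ := by
  rw [map_zsmul, zsmul_eq_mul, Int.cast_natCast]

variable [NeZero n] {o}

theorem nm_det (h : o.Ok) (a : o.A) : (o.nm a : ℤ) = (Algebra.leftMulMatrix o.y a).det := by
  have := h.nmM (o.y.repr a)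
  rwa [Nm, mx, co_repr] at this

theorem repr_one (h : o.Ok) : (o.y.repr 1 : Fin n → ℤ) = Pi.single 0 1 := by
  rw [← h.one, o.y.repr_self, Finsupp.single_eq_pi_single]

theorem adj (h : o.Ok) (a : o.A) : ∃ a', a * a' = o.nm a := by
  refine ⟨o.co ((Algebra.leftMulMatrix o.y a).adjugate.mulVec (Pi.single 0 1)), ?_⟩
  have h1 := Algebra.leftMulMatrix_mulVec_repr o.y a
    (o.co ((Algebra.leftMulMatrix o.y a).adjugate.mulVec (Pi.single 0 1)))
  rw [repr_co, Matrix.mulVec_mulVec, Matrix.mul_adjugate, Matrix.smul_mulVec, Matrix.one_mulVec,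
    ← nm_det h] at h1
  rw [← co_repr o (a * _), ← h1, co_smul, ← repr_one h, co_repr, mul_one]

theorem cong (h : o.Ok) (q : ℕ) (c c' : o.A) (hd : (q : o.A) ∣ c' - c) :
    o.nm c' ≡ o.nm c [MOD q] := by
  obtain ⟨d, hd⟩ := hd
  have e : c' = c + (q : ℤ) • d := by rw [zsmul_eq_mul, Int.cast_natCast, ← hd]; ring
  rw [← ZMod.natCast_eq_natCast_iff, ← Int.cast_natCast (R := ZMod q) (o.nm c'),
    ← Int.cast_natCast (R := ZMod q) (o.nm c), nm_det h, nm_det h]
  have k := fun M : Matrix (Fin n) (Fin n) ℤ => RingHom.map_det (Int.castRingHom (ZMod q)) M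
  simp only [eq_intCast] at k
  rw [k, k, e, map_add, map_zsmul, map_add, map_zsmul, natCast_zsmul]
  congr 1
  ext i j
  simp

theorem cp_iff (h : o.Ok) (q : ℕ) (c : o.A) : o.Cp q c ↔ ∃ c', (q : o.A) ∣ c * c' - 1 := by
  constructor
  · intro hc
    obtain ⟨u, v, e⟩ := Nat.isCoprime_iff_coprime.2 hc
    obtain ⟨a', ha⟩ := adj h c
    have e' := congrArg (Int.cast : ℤ → o.A) e
    push_cast at e'
    exact ⟨a' * u, -v, by rw [← mul_assoc, ha, ← e']; ring⟩
  · rintro ⟨c', hc⟩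
    have := cong h q _ _ hc
    rw [o.nm_mul, o.nm_one] at this
    exact Nat.coprime_of_mul_modEq_one _ this

theorem rep (h : o.Ok) (Q : ℕ) (c : o.A) (hc : o.Cp Q c) :
    ∃ c', (Q : o.A) ∣ c' - c ∧ o.Pm Q c' := by
  by_cases h1 : o.D * Q = 1
  · refine ⟨1, ?_, o.pm_one Q⟩
    rw [Nat.eq_one_of_mul_eq_one_left h1, Nat.cast_one]
    exact one_dvd _
  set D' := ∏ p ∈ o.D.primeFactors.filter fun p => ¬p ∣ Q, p with hD
  have cop : D'.Coprime Q := Nat.Coprime.prod_left fun p hp =>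
    (Nat.Prime.coprime_iff_not_dvd (Nat.prime_of_mem_primeFactors (mem_filter.1 hp).1)).2
      (mem_filter.1 hp).2
  obtain ⟨u, v, e⟩ := Nat.isCoprime_iff_coprime.2 cop
  have e' := congrArg (Int.cast : ℤ → o.A) e
  push_cast at e'
  have d1 : (Q : o.A) ∣ c + Q * v * (1 - c) - c := ⟨v * (1 - c), by ring⟩
  have d2 : (D' : o.A) ∣ c + Q * v * (1 - c) - 1 :=
    ⟨-u * (1 - c), by linear_combination (1 - c) * e'⟩
  have c1 : (o.nm (c + Q * v * (1 - c))).Coprime Q := by
    rw [Nat.Coprime, (cong h Q _ _ d1).gcd_eq]; exact hc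
  have c2 : (o.nm (c + Q * v * (1 - c))).Coprime D' := by
    rw [Nat.Coprime, (cong h D' _ _ d2).gcd_eq, o.nm_one, Nat.gcd_one_left]
  have c3 : (o.nm (c + Q * v * (1 - c))).Coprime (o.D * Q) := by
    refine Nat.Coprime.mul_right (Nat.coprime_of_dvd fun p hp h2 h3 => ?_) c1
    by_cases hq : p ∣ Q
    · exact hp.one_lt.ne' (Nat.eq_one_of_dvd_coprimes c1 h2 hq)
    · exact hp.one_lt.ne' (Nat.eq_one_of_dvd_coprimes c2 h2 (dvd_prod_of_mem _
        (mem_filter.2 ⟨Nat.mem_primeFactors.2 ⟨hp, h3, h.dne⟩, hq⟩)))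
  refine ⟨_, d1, fun h0 => h1 ?_, c3⟩
  change o.nm _ = 0 at h0
  rwa [h0, Nat.coprime_zero_left] at c3

theorem card (h : o.Ok) (a : o.A) (ha : a ≠ 0) : Nat.card (o.A ⧸ Ideal.span {a}) = o.nm a := by
  haveI : IsDomain o.A := h.inj.isDomain _
  haveI := Module.Free.of_basis o.y
  haveI := Module.Finite.of_basis o.y
  have h1 := Submodule.natAbs_det_equiv ((Ideal.span {a}).restrictScalars ℤ)
    (o.y.equiv (Ideal.basisSpanSingleton o.y ha) (Equiv.refl _))
  refine h1.symm.trans ?_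
  rw [← Int.natAbs_natCast (o.nm a), nm_det h, ← Algebra.norm_eq_matrix_det, Algebra.norm_apply]
  congr 2
  refine o.y.ext fun i => ?_
  have := congrArg Subtype.val
    (o.y.equiv_apply i (Ideal.basisSpanSingleton o.y ha) (Equiv.refl _))
  rw [Ideal.basisSpanSingleton_apply] at this
  exact this

end GCBaa

open GCBaa in
theorem rBaa : BaaS := by
  intro n r _ o h
  have hr : 1 ≤ r := by
    have := NeZero.ne n
    have := h.two
    omega
  have hw : ∀ a w, o.em a w = 0 → a = 0 := fun a w e =>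
    h.inj (by
      rw [map_zero]
      exact RingOfIntegers.coe_injective (by rw [map_zero]; exact (map_eq_zero (o.σ w)).1 e))
  refine ⟨hr, (injective_iff_map_eq_zero _).2 fun a e => hw a ⟨0, hr⟩ (congrFun e _),
    fun a ha => ⟨fun e => ha ?_, fun w e => ha (hw a w e)⟩, by simp [Od.nm, Od.pr], fun m => ?_,
    adj h, cong h, cp_iff h, fun Q c _ => rep h Q c, fun q β => ⟨?_, fun hq => ?_⟩, fun β w => ?_,
    fun γ N => ?_, card h⟩
  · rw [Od.nm, Ideal.absNorm_eq_zero_iff, Od.pr, Ideal.span_singleton_eq_bot] at e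
    exact h.inj (by rw [e, map_zero])
  · rw [Od.nm, Od.pr, map_natCast, Ideal.absNorm_span_natCast, RingOfIntegers.rank, h.rank]
  · rintro ⟨d, hd⟩ i
    rw [← co_repr o d, ← co_smul] at hd
    exact ⟨_, congrFun (o.co.injective hd) i⟩
  · choose δ hδ using hq
    exact ⟨o.co δ, by rw [← co_smul]; exact congrArg _ (funext hδ)⟩
  · rw [co_apply, map_sum, Finset.sum_apply, emb]
    exact sum_congr rfl fun i _ => by rw [map_zsmul]; simp [Od.Φ]
  · rw [pwr, mx, ← map_pow, ← repr_one h, Algebra.leftMulMatrix_mulVec_repr, co_repr, mul_one]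

end Pool.Agent.MP_f3836a_nt.GV.C
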