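import Pool.Agent.MP_f3836a_nt.GV.SpecC2

/-! Facts on ray classes. -/

set_option autoImplicit false

namespace Pool.Agent.MP_f3836a_nt.GV.C

open NumberField

namespace GCBab

variable {n r : ℕ} [NeZero n] {o : Od n r} {Q : ℕ}

/-- descent to the order -/
theorem desc (ho : o.Ok) (hc : ∀ (q : ℕ) (c : o.A), o.Cp q c ↔ ∃ c', (q : o.A) ∣ c * c' - 1)
    (x : 𝓞 o.L) (a b : o.A) (ha : o.Pm Q a) (h : o.inc a * x = o.inc b) :
    ∃ β, o.inc β = x ∧ ∀ c, (Q : o.A) ∣ b - a * c → (Q : o.A) ∣ β - c := by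
  obtain ⟨a', t, ht⟩ := (hc (o.D * Q) a).1 ha.2
  obtain ⟨e, he⟩ := ho.cond x
  rw [Nat.cast_mul] at ht
  refine ⟨a' * b - Q * t * e, ?_, fun c ⟨s, hs⟩ => ⟨a' * s + o.D * t * c - t * e, ?_⟩⟩
  · have := congrArg o.inc ht
    simp only [map_sub, map_mul, map_natCast, map_one] at this ⊢
    rw [he, ← h]
    linear_combination x * this
  · linear_combination a' * hs + c * ht

omit [NeZero n] in
theorem cp {c : o.A} (h : o.Pm Q c) : o.Cp Q c := h.2.coprime_mul_left_right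

omit [NeZero n] in
/-- the class of a residue is the class of any good representative -/
theorem io_eq (hc : ∀ (q : ℕ) (c : o.A), o.Cp q c ↔ ∃ c', (q : o.A) ∣ c * c' - 1)
    (hl : ∀ c, o.Cp Q c → ∃ c', (Q : o.A) ∣ c' - c ∧ o.Pm Q c') {c d : o.A}
    (h : (Q : o.A) ∣ d - c) (hd : o.Pm Q d) : o.io Q c = o.cI Q (o.pr d) := by
  have ex : ∃ c', (Q : o.A) ∣ c' - c ∧ o.Pm Q c' := ⟨d, h, hd⟩
  rw [Od.io, dif_pos ex]
  obtain ⟨⟨s', h'⟩, hd'⟩ := ex.choose_spec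
  generalize ex.choose = d' at h' hd'
  obtain ⟨s, h⟩ := h
  obtain ⟨e, t, ht⟩ := (hc Q d).1 (cp hd)
  obtain ⟨e', ⟨w, hw⟩, he'⟩ := hl e ((hc Q e).2 ⟨d, t, by rw [mul_comm, ht]⟩)
  refine (o.cI_eq hd' hd).2 ⟨d * e', d' * e', hd.mul o he', hd'.mul o he', ⟨t + d * w, ?_⟩,
    ⟨t + d * w + (s' - s) * e', ?_⟩, ?_⟩
  · linear_combination ht + d * hw
  · linear_combination ht + d * hw + e' * h' - e' * h
  · rw [o.pr_mul, o.pr_mul, mul_right_comm, mul_comm (o.pr d), mul_right_comm]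

end GCBab

open GCBab in
theorem rBab : OfBab := by
  intro hA n r _ o Q ho hQ
  obtain ⟨-, -, -, -, -, -, -, hc, hl0, -⟩ := hA n r o ho
  have hl := fun c => hl0 Q c hQ
  refine ⟨desc ho hc, fun c h => ⟨cp h, io_eq hc hl (by simp) h⟩, fun c c' h h' => ?_,
    fun c c' h h' => ?_, fun I hI c h => ?_, fun a b ha h => ?_⟩
  · obtain ⟨d, h1, h2⟩ := hl c h
    obtain ⟨e, he⟩ := (hc Q c).1 h
    refine ⟨(hc Q c').2 ⟨e, ?_⟩, ?_⟩
    · convert dvd_add he (h'.mul_right e) using 1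
      ring
    · rw [io_eq hc hl h1 h2, io_eq hc hl (by simpa using dvd_sub h1 h') h2]
  · obtain ⟨d, h1, h2⟩ := hl c h
    obtain ⟨d', h3, h4⟩ := hl c' h'
    refine ⟨by rw [Od.Cp, o.nm_mul]; exact h.mul_left h', ?_⟩
    rw [io_eq hc hl h1 h2, io_eq hc hl h3 h4, ← o.cI_mul h2 h4, ← o.pr_mul]
    refine io_eq hc hl ?_ (h2.mul o h4)
    convert dvd_add (h1.mul_right d') (h3.mul_left c) using 1
    ring
  · refine ⟨fun e => ?_, ?_⟩
    · obtain ⟨d, h1, h2⟩ := hl c h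
      rw [io_eq hc hl h1 h2] at e
      obtain ⟨a, b, ha, -, a1, b1, e⟩ := (o.cI_eq hI h2).1 e
      rw [← o.pr_mul] at e
      obtain ⟨x, -, hx⟩ := Ideal.mem_span_singleton_mul.1
        (e.ge (Ideal.mem_span_singleton_self _))
      obtain ⟨β, h3, h4⟩ := desc ho hc x a (b * d) ha hx
      refine ⟨β, h4 c ?_, ?_⟩
      · convert dvd_sub (dvd_add (b1.mul_right d) h1) (a1.mul_right c) using 1
        ring
      · have a0 : o.pr a ≠ 0 := fun z => ha.1 (by rw [z, map_zero])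
        refine mul_left_cancel₀ a0 ?_
        rw [e, ← o.pr_mul, Od.pr, Od.pr, map_mul o.inc a, h3, hx]
    · rintro ⟨β, h1, rfl⟩
      exact (io_eq hc hl h1 hI).symm
  · obtain ⟨u, hu⟩ := Ideal.span_singleton_eq_span_singleton.1 h
    obtain ⟨β, h1, -⟩ := desc ho hc u a b ha hu
    obtain ⟨β', h2, -⟩ := desc (Q := Q) ho hc (u⁻¹ : (𝓞 o.L)ˣ) b a (by rwa [Od.Pm, ← h])
      (by rw [← hu, Units.mul_inv_cancel_right])
    refine ⟨Units.mkOfMulEqOne β β' (ho.inj ?_), ho.inj ?_⟩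
    · rw [map_mul, h1, h2, Units.mul_inv, map_one]
    · rw [map_mul, Units.val_mkOfMulEqOne, h1, ← hu, mul_comm]

end Pool.Agent.MP_f3836a_nt.GV.C
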