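import Pool.Agent.MP_f3836a_nt.GV.SpecC2

/-! Change of level for the class number times the regulator. -/

set_option autoImplicit false

namespace Pool.Agent.MP_f3836a_nt.GV.C

open Finset VE

namespace GCCard

theorem anti {n r : ℕ} (o : Od n r) {W Q : ℕ} (h : W ∣ Q) : o.LQ Q ≤ o.LQ W :=
  fun _ ⟨ε, h1, h2⟩ => ⟨ε, (Nat.cast_dvd_cast h).trans h1, h2⟩

end GCCard

theorem rCard : OfCard := by
  intro hE hF hP hΦ hU hK hN n r _ o W Q ho hW hWQ hQ
  have hr : 1 ≤ r := by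
    have h1 := ho.two
    have h2 := NeZero.ne n
    omega
  have hQ2 : 2 ≤ Q := hW.trans (Nat.le_of_dvd hQ hWQ)
  obtain ⟨π, hπ⟩ := hP n r o W Q ho hWQ hQ
  obtain ⟨R, hR⟩ := hU n r o Q ho hQ2
  obtain ⟨R', hR'⟩ := hU n r o W ho hW
  obtain ⟨h0, -, h3⟩ := hE r _ 1 R hr one_pos hR
  obtain ⟨-, h4⟩ := h3 _ 1 R' one_pos hR' (GCCard.anti o hWQ)
  have hfin := hF n r o Q ho hQ
  have hc : 0 < Nat.card (o.RC Q) := Nat.card_pos
  have hk := hK n r o W Q π ho hWQ hQ hπ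
  have hf := hΦ n r o W Q ho hWQ hQ
  have hcard : Nat.card (o.RC Q) = Nat.card (o.RC W) * Nat.card π.ker := by
    rw [AddSubgroup.card_eq_card_quotient_mul_card_addSubgroup π.ker,
      Nat.card_congr (QuotientAddGroup.quotientKerEquivOfSurjective π hπ.surj).toEquiv]
  have hl : ∀ l ∈ Q.primeFactors.filter fun l => ¬l ∣ W, l.Prime := fun l hl =>
    Nat.prime_of_mem_primeFactors (mem_filter.1 hl).1
  have e : sd (nuG o.M) (Q.primeFactors.filter fun l => ¬l ∣ W) * ratG o.M W Q = 1 := by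
    rw [sd, ratG, ← prod_mul_distrib]
    exact prod_eq_one fun l h => mul_inv_cancel₀ (hN n r o l ho (hl l h)).2.2.1.ne'
  refine ⟨hfin, h0, mul_pos (by exact_mod_cast hc) h0, ?_, ?_⟩
  · refine prod_induction _ (fun x : ℝ => 1 ≤ x) (fun _ _ => one_le_mul_of_one_le_of_one_le) le_rfl
      fun l h => ?_
    obtain ⟨h1, -, h2, -⟩ := hN n r o l ho (hl l h)
    exact (one_le_inv₀ h2).2 (by linarith)
  · have hk' : (Nat.card π.ker : ℝ) * ((o.LQ Q).relIndex (o.LQ W) : ℝ) = (o.US W Q).card := by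
      exact_mod_cast hk
    unfold Od.hR
    rw [hcard, h4, Nat.cast_mul]
    linear_combination (Nat.card (o.RC W) : ℝ) * Rg (o.LQ W) * ratG o.M W Q * (W : ℝ) ^ n * hk'
      + (Nat.card (o.RC W) : ℝ) * Rg (o.LQ W) * ratG o.M W Q * hf
      + (Nat.card (o.RC W) : ℝ) * Rg (o.LQ W) * (Q : ℝ) ^ n * e

end Pool.Agent.MP_f3836a_nt.GV.C
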