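import Pool.Agent.MP_f3836a_nt.GV.SpecC1
import Pool.Agent.MP_f3836a_nt.VE.CCell

/-! Row GCCell: the mass of a cell. -/

set_option autoImplicit false

namespace Pool.Agent.MP_f3836a_nt.GV.C

open Finset MeasureTheory Metric VE
open scoped Pointwise

namespace GCCell

variable {r : ℕ} {F : Set (E r)} {Λ : AddSubgroup (E r)} {T : Type} [AddCommGroup T] {pt : T → E r}

theorem add_mem (h : Convex ℝ F) {a b : ℝ} (ha : 0 ≤ a) (hb : 0 ≤ b) {x y : E r} (hx : x ∈ a • F)
    (hy : y ∈ b • F) : x + y ∈ (a + b) • F := by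
  rw [h.add_smul ha hb]
  exact Set.add_mem_add hx hy

theorem sum_mem (h : Convex ℝ F) (h0 : 0 ∈ F) {ι : Type} (s : Finset ι) (z : ι → E r)
    (hz : ∀ i, z i ∈ (3 : ℝ) • F) : ∑ i ∈ s, z i ∈ (3 * s.card : ℝ) • F := by
  classical
  induction s using Finset.induction_on with
  | empty => exact ⟨0, h0, by simp⟩
  | insert a s ha ih =>
    rw [sum_insert ha, card_insert_of_notMem ha, Nat.cast_succ, mul_add, mul_one, add_comm _ (3 : ℝ)]
    exact add_mem h (by norm_num) (by positivity) (hz a) ih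

theorem pt_sum (h : ∀ t t', pt (t + t') - pt t - pt t' ∈ Λ) {ι : Type} (s : Finset ι) (t : ι → T) :
    pt (∑ i ∈ s, t i) - ∑ i ∈ s, pt (t i) ∈ Λ := by
  classical
  induction s using Finset.induction_on with
  | empty => simpa using h 0 0
  | insert a s ha ih =>
    rw [sum_insert ha, sum_insert ha]
    exact Set.mem_of_eq_of_mem (by abel) (Λ.add_mem (h (t a) (∑ i ∈ s, t i)) ih)

theorem one {η ρ c : ℝ} (hr : 1 ≤ r) (G : Gr Λ η ρ pt F) (z : E r) (h1 : c ≤ Lg z)
    (h2 : Lg z ≤ c + η) : ∃ t, ∃ y ∈ Λ, z - c • e0 r - pt t - y ∈ (3 : ℝ) • F ∧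
      ‖z - c • e0 r - pt t - y‖ ≤ ρ + η := by
  obtain ⟨t, y, hy, a, b⟩ := G.cov (z - Lg z • e0 r) (by rw [Lg_sub, Lg_smul, Lg_e0 hr]; ring)
  have r1 : (1 : ℝ) ≤ r := by exact_mod_cast hr
  have e : z - c • e0 r - pt t - y = z - Lg z • e0 r - pt t - y + (Lg z - c) • e0 r := by
    rw [sub_smul]
    abel
  have n : ∀ θ : ℝ, 0 ≤ θ → ‖θ • e0 r‖ = θ / (2 * r) := fun θ h => by
    rw [norm_smul, norm_e0 hr, Real.norm_of_nonneg h, mul_one_div]
  refine ⟨t, y, hy, ?_, ?_⟩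
  · rw [e, show (3 : ℝ) = 1 + 2 by norm_num]
    refine add_mem G.cvx.1 zero_le_one zero_le_two (by rwa [one_smul])
      ⟨((Lg z - c) / 2) • e0 r, G.cvx.2.2.2 ?_, ?_⟩
    · rw [mem_closedBall_zero_iff, n _ (by linarith), div_div, ← mul_assoc]
      exact div_le_div₀ (by linarith) (by linarith) (by linarith) (by linarith)
    · beta_reduce
      rw [smul_smul, mul_div_cancel₀ _ two_ne_zero]
  · rw [e]
    refine (norm_add_le _ _).trans (add_le_add b ?_)
    rw [n _ (by linarith)]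
    exact (div_le_self (by linarith) (by linarith)).trans (by linarith)

end GCCell

open GCCell VE.BC in
theorem rCell : OfCell := by
  intro hT _ r ι G T _ _ _ _ μ x lam u Λ pt F k J L η ρ D hr hμ hJ hη Γ hC hD
  choose th y hy h3 hn using fun i => one (c := L + η * u i) hr Γ (lam i) (by linarith [(hC i).1])
    (by linarith [(hC i).2])
  refine ⟨th, fun i => ⟨y i, hy i, hn i⟩, ?_⟩
  rintro ⟨v, t, g⟩
  refine CCell.avg μ k J hJ _ _ fun a => ?_
  obtain ⟨c, hc⟩ : ∃ c, c = (k * L + η * (v - ∑ i, ((a i : ℕ) : ℤ) : ℤ)) • e0 r + pt t := ⟨_, rfl⟩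
  have k0 : (0 : ℝ) < 3 * k + 1 := by positivity
  have vol : volume ((· - c) ⁻¹' ((3 * k + 1 : ℝ) • F)) =
      ENNReal.ofReal ((3 * k + 1) ^ (2 * r)) * volume F := by
    simp only [sub_eq_add_neg]
    rw [measure_preimage_add_right, Measure.addHaar_smul, finrank_E, abs_of_pos (pow_pos k0 _)]
  refine le_trans ((hT ι μ).2.2.2.2.1 hμ.1 k _ _ fun s => CCell.ind_mono fun h => ?_)
    ((hD.2 g ((· - c) ⁻¹' ((3 * k : ℝ) • F)) ((· - c) ⁻¹' ((3 * k + 1 : ℝ) • F))
      ⟨(Γ.cvx.2.2.1.const_smul_of_ne_zero k0.ne').preimage (measurable_sub_const c),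
        vol ▸ ENNReal.mul_ne_top ENNReal.ofReal_ne_top Γ.vol.1, fun p hp q hq => ?_⟩).trans
      (mul_le_mul_of_nonneg_left ?_ hD.1))
  · have h1 := congrArg Prod.fst h
    have h2 := congrArg (fun p => p.2.1) h
    have h4 := congrArg (fun p => p.2.2) h
    simp only [tri, su, Prod.fst_sum, Prod.snd_sum, sum_add_distrib] at h1 h2 h4
    refine ⟨h4, _, Λ.sub_mem (Λ.sum_mem fun i (_ : i ∈ univ) => hy (s i))
      (pt_sum Γ.add univ fun i => th (s i)), ?_⟩
    have := sum_mem Γ.cvx.1 (Γ.cvx.2.2.2 (mem_closedBall_self (by positivity))) univ _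
      fun i => h3 (s i)
    rw [card_univ, Fintype.card_fin] at this
    refine Set.mem_preimage.2 (Set.mem_of_eq_of_mem ?_ this)
    rw [hc, h2, ← eq_sub_of_add_eq h1]
    simp only [sum_sub_distrib, ← sum_smul, sum_add_distrib, sum_const, card_univ, Fintype.card_fin,
      nsmul_eq_mul, ← mul_sum]
    push_cast
    abel
  · rw [Set.mem_preimage, ← sub_add_sub_cancel' p c q]
    refine add_mem Γ.cvx.1 (by positivity) zero_le_one hp ?_
    rw [one_smul]
    exact Γ.cvx.2.2.2 (mem_closedBall_zero_iff.2 (mem_closedBall_iff_norm.1 hq))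
  · have : (0 : ℝ) < Nat.card T := by exact_mod_cast Nat.card_pos
    rw [Measure.real, vol, ENNReal.toReal_mul, ENNReal.toReal_ofReal (pow_pos k0 _).le, mul_assoc,
      mul_div_assoc]
    refine mul_le_mul_of_nonneg_left ((le_div_iff₀' this).2 Γ.vol.2) (pow_pos k0 _).le

end Pool.Agent.MP_f3836a_nt.GV.C
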