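import Pool.Agent.MP_f3836a_nt.GV.SpecC1
import Pool.Agent.MP_f3836a_nt.VE.BCls

/-! Block C: classification of the large characters. -/

set_option autoImplicit false

namespace Pool.Agent.MP_f3836a_nt.GV.C

open Finset
open VE.BC (tm law Sb ex ee sm su TupS PowS BesS SmS AcS)

open VE.BC.BCls in
theorem rCls : OfCls := by
  intro hT hP hB hS hA k C hk
  obtain ⟨J0, cA, c0, c1, hA⟩ := hA k C hk
  set M := ⌈4 * k * C⌉₊ with hM
  have k1 : (1 : ℝ) ≤ k := by exact_mod_cast hk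
  have M0 : (0 : ℝ) ≤ M := M.cast_nonneg
  set c := cA / (1024 * k * (M + 1) ^ 2) with hc
  obtain ⟨c5, c2⟩ : c ≤ _ ∧ c ≤ _ := cle c1 k1 M0
  have c3 : 0 < c := by positivity
  refine ⟨J0 + 2 * M + 1, c, c3, by linarith, fun ι G T _ _ _ _ _ μ u th x U J d hJ hU hN hμ hu hl
    d0 d1 α ψ hα h => ?_⟩
  obtain ⟨s1, -, s3, -⟩ := hS ι μ u J (fun i => ψ (th i, x i)) α hμ (by omega)
  have s4 := (hS ι μ u J (fun i => ψ (th i, x i)) α hμ (by omega)).2.2.2
    (fun i => (ψ.norm_apply _).le) hα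
  have hX : ∀ p, 0 ≤ su u J p ∧ su u J p < (2 * U : ℕ) := fun p => by
    have := hu p.1; have := p.2.2; unfold su; omega
  have U0 : (0 : ℝ) < U := by exact_mod_cast (by omega : 0 < U)
  have N0 : (0 : ℝ) < Nat.card T := by exact_mod_cast Nat.card_pos
  have G0 : (0 : ℝ) < Nat.card G := by exact_mod_cast Nat.card_pos
  have hcard : (Nat.card (T × G) : ℝ) = Nat.card T * Nat.card G := by
    rw [Nat.card_prod, Nat.cast_mul]
  have c4 : c * d ^ 2 ≤ c := mul_le_of_le_one_right c3.le (pow_le_one₀ d0.le d1)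
  obtain ⟨j, j1, jM, hj⟩ := (hB _ (T × G) (sm μ J) (su u J)
    (fun p => (th p.1, x p.1)) k (2 * U) M _ s1 hk (by omega) hX hl (by
      rw [hcard]
      refine le_trans (le_of_eq ?_) (Nat.le_ceil _)
      push_cast; field_simp; ring)).2 ψ α (by linarith)
  have ht : ∀ t, ψ (t, 0) = 1 := fun t => by
    have a1 : ψ (t, 0) ^ Nat.card T = 1 := by
      rw [← AddChar.map_nsmul_eq_pow, Prod.smul_mk, smul_zero, card_nsmul_eq_zero']
      exact ψ.map_zero_eq_one
    have a2 := pow_gcd_eq_one.2 ⟨a1, hj (t, 0)⟩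
    rwa [hN j j1 (by omega), pow_one] at a2
  have hψ : ∀ t g, ψ (t, g) = ψ (0, g) := fun t g => by
    rw [← one_mul (ψ (0, g)), ← ht t, ← AddChar.map_add_eq_mul]; simp
  refine ⟨ψ.compAddMonoidHom (AddMonoidHom.inr _ _), hψ, ?_⟩
  have j1' : (1 : ℝ) ≤ j := by exact_mod_cast j1
  have jM' : (j : ℝ) ≤ M := by exact_mod_cast jM
  have a1 : |j * α| ≤ 1 / 2 := by
    rcases eq_or_ne α 0 with rfl | h0
    · simp
    have b0 := abs_pos.2 h0
    have b1 : (2 * M + 1 : ℝ) ≤ J := by exact_mod_cast (by omega : 2 * M + 1 ≤ J)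
    have b2 : 1 / 2 < 1 / (2 * J * |α|) := by linarith [s4 h0]
    rw [div_lt_div_iff₀ two_pos (mul_pos (by linarith) b0)] at b2
    rw [abs_mul, Nat.abs_cast]
    linarith [mul_le_mul_of_nonneg_right b1 b0.le, mul_le_mul_of_nonneg_right jM' b0.le]
  have a2 := hA ι μ u U J (by omega) hU hμ hu (fun v => by
    refine (marg hT _ _ _ k _ hl v).trans (le_of_eq ?_)
    rw [hcard]; field_simp) (j * α) a1
  have a3 := (hP _ (sm μ J) _ (c * d ^ 2) s1
    (fun p => by rw [norm_mul, ee_norm, ψ.norm_apply, mul_one]) h.le).2 j j1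
  simp only [mul_pow, hj, mul_one, ee_pow, ← mul_assoc] at a3
  have a6 := num (a := α * U) c0 k1 j1' jM' d0 d1 hc (by rw [← mul_assoc, ← mul_assoc]; linarith)
  rw [abs_mul, Nat.abs_cast] at a6
  have a7 := near s1 (su u J) (fun p => ψ (th p.1, x p.1)) (fun p => ψ.norm_apply _)
    (fun p => ⟨(hX p).1, by exact_mod_cast (hX p).2.le⟩) d0.le a6
  have a8 : c * d ^ 2 ≤ 1 / 2 * d := by
    have : d ^ 2 ≤ d := pow_le_of_le_one d0.le d1 two_ne_zero
    gcongr
  rw [s3] at a7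
  simp only [hψ (th _)] at a7 h
  change _ < ‖ex μ fun i => ψ (0, x i)‖
  linarith

end Pool.Agent.MP_f3836a_nt.GV.C
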