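import Pool.Agent.MP_f3836a_nt.GV.SpecC2

/-! Rough elements of a coset in a ball. -/

set_option autoImplicit false

namespace Pool.Agent.MP_f3836a_nt.GV.C

open Finset

theorem rCni : OfCni := by
  classical
  intro hC hB hG hS n r
  obtain ⟨C, C0, h⟩ := hC r n
  refine ⟨C, C0, fun o Y B s R Q I b0 c P S hY ok sz hQ hI hs hn hR hρ hP hSS => ?_⟩
  obtain ⟨b, hb⟩ := hB n r o I ok hI
  have key := h n P (o.Zf b0 Q b) (nuG o.M) Y (o.gI Q b) _ _ R (c - o.em b0)
    (S.preimage b hb.inj.injOn) hY (hS n r o Y Q I b b0 P ok hb hP)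
    (hG n r o B s Q I b ok sz hQ hI hb hs hn) hR hρ fun x hx => by
      obtain ⟨-, h1, h2⟩ := hSS _ (mem_preimage.1 hx)
      refine ⟨?_, h2⟩
      rw [map_add] at h1
      rw [Od.gI_apply]
      convert h1 using 2
      ring
  rw [card_preimage, filter_true_of_mem (p := fun x => x ∈ Set.range b)
    fun γ hγ => (hb.mem γ).1 (hSS γ hγ).1, ← ok.two] at key
  exact key

end Pool.Agent.MP_f3836a_nt.GV.C
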