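import Pool.Agent.MP_f3836a_nt.GV.SpecC1

/-! Row Cnt: sifted points in a ball. -/

set_option autoImplicit false

namespace Pool.Agent.MP_f3836a_nt.GV.C

open Finset

theorem rCnt : OfCnt := by
  intro h1 h2 r B
  obtain ⟨C, hC, h⟩ := h2 r B
  refine ⟨2 * (C * 2 ^ (2 * r)), by positivity, fun n P Z ν Y g V ρ R c S hY hS hL hR hρ hx => ?_⟩
  obtain ⟨a1, -, a3⟩ := h n P Z ν Y hY hS
  have h3 := a3 g V ρ (2 * R) c S hL (by positivity) (by linarith)
  have h4 : S.card • (1 / 2 : ℝ) ≤ ∑ x ∈ S, tn ((2 * R)⁻¹ • (g x - c)) * Lw P Z ν Y x :=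
    card_nsmul_le_sum _ _ _ fun x m => by
      rw [a1 x (hx x m).2, mul_one, tn, norm_smul, Real.norm_of_nonneg (by positivity)]
      have : (2 * R)⁻¹ * ‖g x - c‖ ≤ 1 / 2 := by
        rw [inv_mul_le_iff₀ (by positivity)]
        linarith [(hx x m).1]
      exact le_max_of_le_right (by linarith)
  rw [nsmul_eq_mul] at h4
  rw [mul_pow] at h3
  linarith [mul_le_mul_of_nonneg_left h4 (h1 r _ g V ρ hL).1.le]

end Pool.Agent.MP_f3836a_nt.GV.C
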