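import Pool.Agent.MP_f3836a_nt.GV.SpecC1

/-! Means of periodic functions. -/

set_option autoImplicit false

namespace Pool.Agent.MP_f3836a_nt.GV.C

open Finset

namespace GCCrt

variable {n q a b : ℕ} {f g : (Fin n → ℤ) → ℂ}

theorem mem {x : Fin n → ℤ} : x ∈ box n q ↔ ∀ i, 0 ≤ x i ∧ x i < q := by simp [box]

theorem mod_mem (hq : 0 < q) (x : Fin n → ℤ) : (fun i => x i % q) ∈ box n q := mem.2 fun _ =>
  ⟨Int.emod_nonneg _ (by omega), Int.emod_lt_of_pos _ (by omega)⟩

theorem aff (hq : 0 < q) (hf : Pd q f) {m : ℕ} (hm : m.Coprime q) (t : Fin n → ℤ)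
    {C C' : (Fin n → ℤ) →+ (Fin n → ℤ)} (h : ∀ x, C' (C x) = (m : ℤ) • x) :
    ∑ x ∈ box n q, f (t + C x) = ∑ x ∈ box n q, f x := by
  have i : Set.InjOn (fun x i => (t + C x) i % q) (box n q : Set (Fin n → ℤ)) := fun x hx y hy e => by
    choose z hz using fun i => Int.ModEq.dvd (congrFun e i)
    have e1 : C (y - x) = (q : ℤ) • z := funext fun i => by simpa using hz i
    have e2 := h (y - x)
    rw [e1, map_zsmul] at e2
    funext i
    have e3 : (q : ℤ) ∣ y i - x i := (Nat.isCoprime_iff_coprime.2 hm.symm).dvd_of_dvd_mul_left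
      ⟨C' z i, (congrFun e2 i).symm⟩
    have := mem.1 hx i
    have := mem.1 hy i
    have := Int.eq_zero_of_abs_lt_dvd e3 (abs_lt.2 ⟨by omega, by omega⟩)
    omega
  refine sum_nbij _ (fun x _ => mod_mem hq _) i
    (surjOn_of_injOn_of_card_le _ (fun x _ => mod_mem hq _) i le_rfl) fun x _ => ?_
  rw [← hf (fun i => (t + C x) i % q) fun i => (t + C x) i / q]
  exact congrArg f (funext fun i => (Int.emod_add_mul_ediv _ _).symm)

theorem split (ha : 0 < a) (f : (Fin n → ℤ) → ℂ) :
    ∑ x ∈ box n (a * b), f x = ∑ x ∈ box n a, ∑ y ∈ box n b, f (x + (a : ℤ) • y) := by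
  have a0 : (0 : ℤ) < a := by omega
  rw [← sum_product']
  refine (sum_nbij' (fun p => p.1 + (a : ℤ) • p.2)
    (fun x => (fun i => x i % (a : ℤ), fun i => x i / (a : ℤ)))
    (fun p h => mem.2 fun i => ?_) (fun x h => mem_product.2 ⟨mod_mem ha x, mem.2 fun i => ?_⟩)
    (fun p h => ?_) (fun x _ => funext fun i => Int.emod_add_mul_ediv _ _) fun _ _ => rfl).symm
  · have h1 := mem.1 (mem_product.1 h).1 i
    have h2 := mem.1 (mem_product.1 h).2 i
    simp only [Pi.add_apply, Pi.smul_apply, smul_eq_mul, Nat.cast_mul]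
    constructor <;> nlinarith
  · have h1 := mem.1 h i
    exact ⟨Int.ediv_nonneg h1.1 a0.le, Int.ediv_lt_of_lt_mul a0 (by push_cast at h1; linarith)⟩
  · have h1 := mem.1 (mem_product.1 h).1
    ext i
    · simpa using Int.emod_eq_of_lt (h1 i).1 (h1 i).2
    · simp [Int.add_mul_ediv_left _ _ a0.ne', Int.ediv_eq_zero_of_lt (h1 i).1 (h1 i).2]

theorem two (ha : 0 < a) (hb : 0 < b) (h : a.Coprime b) (hf : Pd a f) (hg : Pd b g) :
    mean (a * b) (fun x => f x * g x) = mean a f * mean b g := by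
  rw [mean, mean, mean, split ha, div_mul_div_comm, sum_mul, Nat.cast_mul, mul_pow]
  refine congrArg (· / _) (sum_congr rfl fun x _ => ?_)
  simp only [hf x, ← mul_sum]
  exact congrArg _ (aff hb hg h x (C := (a : ℤ) • AddMonoidHom.id _) (C' := AddMonoidHom.id _)
    fun _ => rfl)

theorem pd_mul (hf : Pd a f) (h : a ∣ q) : Pd q f := fun x y => by
  obtain ⟨c, rfl⟩ := h
  rw [Nat.cast_mul, mul_smul, hf]

end GCCrt

open GCCrt in
theorem rCrt : CrtS := by
  refine fun n => ⟨fun a b f ha hb hf => ?_, fun P f h => ?_,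
    fun q m f t C C' hq hf hm h => congrArg (· / _) (aff hq hf hm t h)⟩
  · have : (b : ℂ) ≠ 0 := Nat.cast_ne_zero.2 hb.ne'
    simp only [mean, split ha, hf _, sum_const, ← smul_sum]
    simp [box, mul_pow, mul_comm (a ^ n : ℂ), mul_div_mul_left _ _ (pow_ne_zero n this)]
  · induction P using Finset.induction_on with
    | empty => simp [mean, box]
    | insert l P hl ih =>
      rw [forall_mem_insert] at h
      simp only [prod_insert hl]
      rw [two h.1.1.pos (prod_pos fun p hp => (h.2 p hp).1.pos) (Nat.Coprime.prod_right fun p hp =>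
        (Nat.coprime_primes h.1.1 (h.2 p hp).1).2 (ne_of_mem_of_not_mem hp hl).symm) h.1.2
        fun x y => prod_congr rfl fun p hp => pd_mul (h.2 p hp).2 (dvd_prod_of_mem id hp) x y,
        ih h.2]

end Pool.Agent.MP_f3836a_nt.GV.C
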