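import Pool.Agent.MP_f3836a_nt.GV.SpecC2

/-! The density bound. -/

set_option autoImplicit false

namespace Pool.Agent.MP_f3836a_nt.GV.C

open Finset NumberField Metric VE
open VE.BC (tm cop TupS)

namespace GCDens

lemma ind_nonneg (p : Prop) : 0 ≤ ind p := by
  unfold ind
  split_ifs <;> norm_num

lemma sd_nonneg {ν : ℕ → ℝ} {P : Finset ℕ} (h : ∀ l : ℕ, l.Prime → 0 ≤ ν l ∧ 0 < 1 - ν l)
    (hP : ∀ l ∈ P, l.Prime) : 0 ≤ sd ν P := prod_nonneg fun l hl => (h l (hP l hl)).2.le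

lemma sd_le {ν : ℕ → ℝ} {P F : Finset ℕ} {Q : ℕ} (h : ∀ l : ℕ, l.Prime → 0 ≤ ν l ∧ 0 < 1 - ν l)
    (hP : ∀ l ∈ P, l.Prime) (hF : ∀ l ∈ F, l.Prime) (hs : ∀ l ∈ P, l ∣ Q → l ∈ F) :
    sd ν (P.filter fun l => ¬l ∣ Q) ≤ (∏ l ∈ F, (1 - ν l)⁻¹) * sd ν P := by
  rw [prod_inv_distrib, ← div_eq_inv_mul, le_div_iff₀ (prod_pos fun l hl => (h l (hF l hl)).2),
    mul_comm]
  conv_rhs => rw [sd, ← prod_filter_mul_prod_filter_not P fun l => l ∣ Q]
  refine mul_le_mul_of_nonneg_right (prod_le_prod_of_subset_of_le_one (fun l hl => ?_)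
    (fun l hl => (h l (hF l hl)).2.le) fun l hl _ => ?_)
    (sd_nonneg h fun l hl => hP l (mem_filter.1 hl).1)
  · exact hs l (mem_filter.1 hl).1 (mem_filter.1 hl).2
  · linarith [(h l (hF l hl)).1]

lemma near {r m : ℕ} {ξ a : E r} {δ : ℝ} (hδ : 8 * δ ≤ 1) (h : ‖ξ‖ ≤ 2 * δ)
    (e : ∀ w, m * Complex.exp (ξ w) = a w) :
    ‖a - fun _ => (m : ℂ)‖ ≤ 4 * δ * m ∧ ((m : ℝ) / 2) ^ (2 * r) ≤ ∏ w, ‖a w‖ ^ 2 := by
  have d0 : 0 ≤ δ := by linarith [norm_nonneg ξ]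
  have m0 : (0 : ℝ) ≤ m := Nat.cast_nonneg m
  have k : ∀ w, ‖a w - m‖ ≤ 4 * δ * m := fun w => by
    have h1 : ‖ξ w‖ ≤ 2 * δ := (norm_le_pi_norm ξ w).trans h
    have h2 := Complex.norm_exp_sub_one_le (x := ξ w) (by linarith)
    rw [← e, ← mul_sub_one, norm_mul, Complex.norm_natCast, mul_comm]
    exact mul_le_mul_of_nonneg_right (by linarith) m0
  refine ⟨(pi_norm_le_iff_of_nonneg (by positivity)).2 k, ?_⟩
  rw [pow_mul, ← Fin.prod_const]
  refine prod_le_prod (fun _ _ => by positivity) fun w _ => pow_le_pow_left₀ (by positivity) ?_ 2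
  have h3 := norm_sub_norm_le (m : ℂ) (a w)
  rw [Complex.norm_natCast, norm_sub_rev] at h3
  nlinarith [k w]

lemma big {n E0 E1 : ℕ} {Y Q m : ℝ} (hY : 1 ≤ Y) (hn : (n : ℝ) ^ 2 ≤ Y) (hQ : Q ≤ Y ^ E0)
    (hm : 0 ≤ m) : Y ^ 3 * (Q * (3 * n ^ 2 * (Y ^ E0) ^ 2 * (m / Y ^ (E1 + 3 * E0 + 5)))) ≤
      4 * (1 / Y ^ (E1 + 1)) * m := by
  have y0 : 0 < Y := by linarith
  calc _ ≤ Y ^ 3 * (Y ^ E0 * (4 * Y * (Y ^ E0) ^ 2 * (m / Y ^ (E1 + 3 * E0 + 5)))) := by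
        gcongr
        linarith
    _ = _ := by field_simp; ring

lemma rt {n b : ℕ} {Y m : ℝ} (hY : 1 ≤ Y) (hm : Y ^ ((n + 1) * b + 1) ≤ m) :
    m ^ n ≤ (m / Y ^ b) ^ (n + 1) := by
  have y0 : 0 < Y := by linarith
  have m0 : 0 ≤ m := le_trans (by positivity) hm
  rw [div_pow, le_div_iff₀ (by positivity), ← pow_mul, pow_succ m]
  refine mul_le_mul_of_nonneg_left (le_trans (pow_le_pow_right₀ hY ?_) hm) (by positivity)
  rw [mul_comm]; omega

lemma fin {n : ℕ} {t b C Cm Ch h hW L s s2 ρ q w V δ m : ℝ} (hm : 0 < m) (hq : 0 < q) (hw : 0 < w)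
    (hV : 0 < V) (hC : 0 ≤ C) (hCm : 0 ≤ Cm) (hh : 0 < h) (hL : 0 < L) (hδ : 0 ≤ δ)
    (e1 : t ≤ b * (2 ^ (n + 1) * Cm / m))
    (e2 : q * m ^ n * V * b ≤ C * (4 * δ * m) ^ (n + 1) * s) (e3 : s ≤ ρ * s2)
    (e4 : h * ρ * w = hW * q) (e5 : hW * L * s2 ≤ Ch * (w * V)) :
    t ≤ 8 ^ (n + 1) * Cm * C * |Ch| / (h * L) * δ ^ (n + 1) := by
  have f1 : h * L * s ≤ |Ch| * (q * V) := le_of_mul_le_mul_right (by
    calc h * L * s * w ≤ h * L * (ρ * s2) * w := by gcongr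
      _ = h * ρ * w * (L * s2) := by ring
      _ = q * (hW * L * s2) := by rw [e4]; ring
      _ ≤ q * (|Ch| * (w * V)) := mul_le_mul_of_nonneg_left
          (e5.trans (mul_le_mul_of_nonneg_right (le_abs_self _) (by positivity))) hq.le
      _ = _ := by ring) hw
  have f2 : b * (h * L) ≤ C * (4 * δ) ^ (n + 1) * m * |Ch| := le_of_mul_le_mul_right (by
    calc b * (h * L) * (q * m ^ n * V) = q * m ^ n * V * b * (h * L) := by ring
      _ ≤ C * (4 * δ * m) ^ (n + 1) * s * (h * L) := by gcongr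
      _ = C * (4 * δ * m) ^ (n + 1) * (h * L * s) := by ring
      _ ≤ C * (4 * δ * m) ^ (n + 1) * (|Ch| * (q * V)) := by gcongr
      _ = _ := by ring) (by positivity : 0 < q * m ^ n * V)
  rw [div_mul_eq_mul_div, le_div_iff₀ (mul_pos hh hL)]
  calc t * (h * L) ≤ b * (2 ^ (n + 1) * Cm / m) * (h * L) := by gcongr
    _ = b * (h * L) * (2 ^ (n + 1) * Cm / m) := by ring
    _ ≤ C * (4 * δ) ^ (n + 1) * m * |Ch| * (2 ^ (n + 1) * Cm / m) := by gcongr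
    _ = _ := by
        rw [show (8 : ℝ) = 4 * 2 by norm_num, mul_pow, mul_pow]
        field_simp

end GCDens

open GCDens in
theorem rDens : OfDens := by
  classical
  intro hT hF hM hR hO hN hCa hLs hU hC hSt n r E0 E1 C1 Ch
  obtain ⟨C, C0, hC⟩ := hC n r
  set k := n * (E1 + 3 * E0 + 5) + 1 with hk
  set Cm := ((k : ℝ) * n * |C1|) ^ k with hCm
  have Cm0 : 0 ≤ Cm := by positivity
  refine ⟨k, 8 ^ n * Cm * C * |Ch|, n ^ 2 + 8, by omega, by positivity, ?_⟩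
  intro _ o ss Val St S μ W Q Y lam hY hB hW Q0 hQ hL hS
  have Y8 : 8 ≤ Y := by linarith [sq_nonneg (n : ℝ)]
  have y1 : 1 < Y := by linarith
  have ok := hB.ok
  have lg : 0 < Real.log Y := Real.log_pos y1
  obtain ⟨v1, -, v2, -⟩ := hSt n r o ss Val St μ W E0 C1 Y y1 hB.bh
  have st : ∀ x ∈ S, x ∈ St ∧ (nT x).Coprime Q := fun x hx => mem_filter.1 (hS hx)
  have ps : ∀ x : S, 0 ≤ μ x := fun x => hB.bh.pos _ (st _ x.2).1
  set δ := 1 / Y ^ (E1 + 1) with hδ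
  have d0 : 0 < δ := by positivity
  have d8 : 8 * δ ≤ 1 := by
    rw [hδ, mul_one_div, div_le_one (by positivity)]
    exact Y8.trans (le_self_pow₀ y1.le (by omega))
  obtain ⟨-, -, c1, -, c2⟩ := hCa n r o W Q ok (by linarith [hB.five]) hW Q0
  have V0 := (hR r _ _ _ _ (hO n r o _ ok hB.bh.size.1)).1
  refine hF r _ _ _ _ _ _ _ _ _ ps d0 fun g ζ => ?_
  have tp := fun s : Fin k → S => hLs n r o ss Q k lam (fun i => (s i).1) ok hL fun i =>
    ⟨fun z hz => (v1 z ((v2 _ (st _ (s i).2).1).2.1 z hz)).1, (st _ (s i).2).2⟩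
  have ro : ∀ (s : Fin k → S) (l : ℕ), l.Prime → (l : ℝ) < Y → ¬l ∣ nT (∑ i, (s i).1) :=
    fun s l hl h e => by
      rw [(tp s).2.2.1] at e
      obtain ⟨i, -, e⟩ := hl.prime.exists_mem_finset_dvd e
      obtain ⟨-, -, a, -, b, -⟩ := v2 _ (st _ (s i).2).1
      rw [(Nat.prime_dvd_prime_iff_eq hl a).1 e] at h
      exact h.not_ge b
  have mono := (hT S fun x => μ x).2.2.2.2.1 ps k
  set Ev : (Fin k → S) → Prop := fun s => Ev (o.LQ Q) (fun x : S => o.cM Q ss x)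
    (fun x : S => lam (o.IM ss x)) g (closedBall ζ δ) s with hEv
  change tm _ k (fun s => ind (Ev s)) ≤ _
  by_cases ex : ∃ s, Ev s
  swap
  · refine le_trans (le_of_eq (sum_eq_zero fun s _ => ?_)) (by positivity)
    simp only [ind, if_neg fun e => ex ⟨s, e⟩, mul_zero]
  obtain ⟨s0, e0, y0, hy0, e0'⟩ := ex
  obtain ⟨J, -, hJ⟩ := hU n r o Q lam _ ok Q0 hL (tp s0).1
  rw [(tp s0).2.1] at hJ
  set m := nT (∑ i, (s0 i).1) with hm
  have mb : Y ^ k ≤ m := by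
    rw [hm, (tp s0).2.2.1, Nat.cast_prod, ← Fin.prod_const]
    exact prod_le_prod (fun _ _ => by positivity) fun i _ => (v2 _ (st _ (s0 i).2).1).2.2.2.2.1
  have m0 : (0 : ℝ) < m := lt_of_lt_of_le (by positivity) mb
  have m0' : 0 < m := by exact_mod_cast m0
  obtain ⟨n', rfl⟩ := Nat.exists_eq_succ_of_ne_zero (NeZero.ne n)
  have nJ : Ideal.absNorm J = m ^ n' := hJ.nrm.2
  have ky : ∀ s, Ev s → ∃ γ, o.inc γ ∈ J ∧ o.nm (m + Q * γ) = nT (∑ i, (s i).1) * m ^ n' ∧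
      ‖o.em (m + Q * γ) - fun _ => (m : ℂ)‖ ≤ 4 * δ * m ∧
      (m : ℝ) ≤ 2 ^ (n' + 1) * nT (∑ i, (s i).1) := by
    rintro s ⟨e, y, hy, e'⟩
    obtain ⟨γ, a1, a2, a3⟩ := hJ.fwd _ (tp s).1 (by
      rw [(tp s).2.2.2.1, (tp s0).2.2.2.1]; exact e.trans e0.symm)
      ((∑ i, lam (o.IM ss (s i)) - y) - (∑ i, lam (o.IM ss (s0 i)) - y0)) (by
        have := add_mem (sub_mem (tp s).2.2.2.2.2 (tp s0).2.2.2.2.2) (sub_mem hy hy0)
        convert this using 1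
        abel)
    obtain ⟨b1, b2⟩ := near d8 (by
      have := dist_triangle_right (∑ i, lam (o.IM ss (s i)) - y) (∑ i, lam (o.IM ss (s0 i)) - y0) ζ
      rw [dist_eq_norm] at this
      linarith [mem_closedBall.1 e', mem_closedBall.1 e0']) a3
    have b3 : o.nm (m + Q * γ) = nT (∑ i, (s i).1) * m ^ n' := by
      rw [Od.nm, ← a2, map_mul, (tp s).2.1, nJ]
    refine ⟨γ, a1, b3, b1, ?_⟩
    rw [← ok.nrm, b3, ← ok.two, div_pow, div_le_iff₀ (by positivity), Nat.succ_eq_add_one,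
      pow_succ' (m : ℝ)] at b2
    push_cast at b2
    exact le_of_mul_le_mul_right (b2.trans_eq (by ring)) (pow_pos m0 n')
  choose! γ hγ using ky
  set B := (univ.filter Ev).image γ with hBd
  have dv : ∀ s, Ev s → o.nm (m + Q * γ s) / m ^ n' = nT (∑ i, (s i).1) := fun s e => by
    rw [(hγ s e).2.1, Nat.mul_div_cancel _ (pow_pos m0' _)]
  have m1 : tm (fun x : S => μ x) k (fun s => ind (Ev s)) ≤ B.card * (2 ^ (n' + 1) * Cm / m) := by
    calc _ ≤ tm (fun x : S => μ x) k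
          (fun s => ∑ b ∈ B, ind (nT (∑ i, (s i).1) = o.nm (m + Q * b) / m ^ n')) :=
          mono _ _ fun s => by
          by_cases e : Ev s
          · refine le_trans ?_ (single_le_sum (fun b _ => ind_nonneg _)
              (mem_image_of_mem γ (mem_filter.2 ⟨mem_univ s, e⟩)))
            rw [ind, ind, if_pos e, if_pos (dv s e).symm]
          · rw [ind, if_neg e]
            exact sum_nonneg fun b _ => ind_nonneg _
      _ = ∑ b ∈ B, tm (fun x : S => μ x) k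
          (fun s => ind (nT (∑ i, (s i).1) = o.nm (m + Q * b) / m ^ n')) := by
          simp only [tm, mul_sum]
          exact sum_comm
      _ ≤ _ := by
          rw [← nsmul_eq_mul]
          refine sum_le_card_nsmul _ _ _ fun b hb => ?_
          obtain ⟨s, hs, rfl⟩ := mem_image.1 hb
          have e := (mem_filter.1 hs).2
          have a := hM Val S μ _ k (nT (∑ i, (s i).1)) C1 hB.bh.few fun x hx => by
            obtain ⟨z, z1, z2, -⟩ := hB.bh.stp x (st x hx).1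
            exact ⟨⟨z, z1, z2, (v1 z z2).1.1⟩, hB.bh.pos x (st x hx).1, hB.bh.wt x (st x hx).1⟩
          have z := mono (fun _ => 0) _ fun s' => ind_nonneg (nT (∑ i, (s' i).1) = nT (∑ i, (s i).1))
          rw [(hT S fun x => μ x).2.2.2.1, mul_zero] at z
          rw [dv s e, le_div_iff₀ m0]
          refine (mul_le_mul_of_nonneg_left (hγ s e).2.2.2 z).trans ?_
          rw [mul_left_comm, mul_comm _ (nT _ : ℝ)]
          exact mul_le_mul_of_nonneg_left a (by positivity)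
  have pp : ∀ l ∈ o.Pr W Y, l.Prime ∧ (l : ℝ) < Y ∧ ¬l ∣ W := fun l hl => by
    obtain ⟨a, b, c⟩ := mem_filter.1 hl
    exact ⟨b, Nat.lt_ceil.1 (mem_range.1 a), fun e => c (e.mul_left _)⟩
  have m2 := hC o Y (Y ^ E0) (m / Y ^ (E1 + 3 * E0 + 5)) (4 * δ * m) Q J m (fun _ => (m : ℂ))
    ((o.Pr W Y).filter fun l => ¬l ∣ Q) B (by linarith) ok hB.bh.size.1 Q0
    (o.MQ_anti (one_dvd Q) hJ.mem.1) (by positivity)
    (by rw [nJ, Nat.cast_pow]; exact rt y1.le mb) (by positivity)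
    (big y1.le (by linarith) hQ m0.le) (fun l hl => by
      obtain ⟨l1, l2⟩ := mem_filter.1 hl
      obtain ⟨a, b, c⟩ := pp l l1
      refine ⟨a, b, le_of_not_gt fun e => c (hB.small l a e.le), fun e => ?_⟩
      rw [nJ] at e
      exact (a.dvd_mul.1 e).elim l2 fun e => ro s0 l a b (a.dvd_of_dvd_pow e)) fun b hb => by
      obtain ⟨s, hs, rfl⟩ := mem_image.1 hb
      obtain ⟨a1, a2, a3, -⟩ := hγ s (mem_filter.1 hs).2
      refine ⟨a1, a3, fun l hl d => ?_⟩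
      obtain ⟨a, b, -⟩ := pp l (mem_filter.1 hl).1
      rw [a2] at d
      exact (a.dvd_mul.1 d).elim (ro s l a b) fun e => ro s0 l a b (a.dvd_of_dvd_pow e)
  rw [nJ, Nat.cast_pow] at m2
  rw [← ok.two]
  have nu : ∀ l : ℕ, l.Prime → 0 ≤ nuG o.M l ∧ 0 < 1 - nuG o.M l := fun l hl =>
    ⟨(hN _ r o l ok hl).1, (hN _ r o l ok hl).2.2.1⟩
  have W0 : (0 : ℝ) < W := by exact_mod_cast (by linarith [hB.five] : 0 < W)
  exact fin m0 (by positivity) (by positivity) V0 C0 Cm0 c1 lg d0.le m1 m2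
    (sd_le nu (fun l hl => (pp l hl).1)
      (fun l hl => Nat.prime_of_mem_primeFactors (mem_filter.1 hl).1) fun l hl e =>
      mem_filter.2 ⟨Nat.mem_primeFactors.2 ⟨(pp l hl).1, e, Q0.ne'⟩, (pp l hl).2.2⟩) c2 hB.hb

end Pool.Agent.MP_f3836a_nt.GV.C
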