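import Pool.Agent.MP_f3836a_nt.GV.SpecC2
import Pool.Agent.MP_f3836a_nt.VE.CDich

/-! Block C: the dichotomy at level `Q`. -/

set_option autoImplicit false

namespace Pool.Agent.MP_f3836a_nt.GV.C

open Finset VE
open VE.BC (Sb cop ee)

open VE.BC.CDich in
theorem rDich : OfDich := by
  intro hBes hPt hFin hHens n r _ o W Q M k0 ss St St2 μ π B D d d4 Bq hA hW hWQ hQ hBq hπ hSt h1
    hcop hk0 hlaw hM hd hdk hd4 hVio hB hsub hm2
  classical
  have : Finite (o.RC Q) := hFin n r o Q hA hQ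
  have : Finite (o.RC W) := Finite.of_surjective π hπ.surj
  have hinj := AddChar.compAddMonoidHom_injective_left (M := ℂ) π hπ.surj
  refine ⟨B.image fun χ' => χ'.compAddMonoidHom π, card_image_of_injective _ hinj, ?_, ?_⟩
  · intro χ hχ
    obtain ⟨χ', h, rfl⟩ := mem_image.1 hχ
    exact ⟨χ', h, fun _ => rfl⟩
  intro χ hχ
  by_contra hbig
  push Not at hbig
  have hμ : ∀ x ∈ St, 0 ≤ μ x := fun x hx => (hSt x hx).1
  have hcs : cop St Q ⊆ St := filter_subset _ _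
  have hd1 : d ≤ 1 := by
    refine hdk.trans ?_
    have h2 : (1 : ℝ) ≤ k0 := by exact_mod_cast hk0
    have h3 : (0 : ℝ) ≤ M := Nat.cast_nonneg M
    rw [div_le_one (by positivity)]
    nlinarith [sq_nonneg (M : ℝ)]
  set m2 := ∑ x ∈ St2, μ x with hm2d
  have hm0 : 0 < m2 := by linarith
  have hf : ∀ x, ‖χ (o.cM Q ss x)‖ ≤ 1 := fun x => (χ.norm_apply _).le
  have e1 : o.mch Q ss St μ χ = ∑ x ∈ cop St Q, (μ x : ℂ) * χ (o.cM Q ss x) :=
    ex_coe _ μ fun x => χ (o.cM Q ss x)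
  have e2 : o.mch Q ss St2 (nzG St2 μ) χ
      = (∑ x ∈ cop St2 Q, (μ x : ℂ) * χ (o.cM Q ss x)) / (m2 : ℂ) := by
    rw [Od.mch, ex_coe _ (nzG St2 μ) fun x => χ (o.cM Q ss x), sum_div]
    refine sum_congr rfl fun x _ => ?_
    rw [nzG, ← hm2d]
    push_cast
    ring
  rw [e2, norm_div, Complex.norm_real, Real.norm_of_nonneg hm0.le, lt_div_iff₀ hm0] at hbig
  have hc2 : cop St2 Q ⊆ cop St Q := filter_subset_filter _ hsub
  have h3 := sub_le _ _ hc2 μ _ (fun x hx => hμ x (hcs hx)) hf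
  have h4 : ∑ x ∈ cop St Q, μ x - ∑ x ∈ cop St2 Q, μ x ≤ 1 - m2 := by
    rw [← h1, hm2d, ← sum_sdiff hc2, ← sum_sdiff hsub, add_sub_cancel_right, add_sub_cancel_right]
    refine sum_le_sum_of_subset_of_nonneg (fun x hx => ?_) fun x hx _ => hμ x (mem_sdiff.1 hx).1
    obtain ⟨hx1, hx2⟩ := mem_sdiff.1 hx
    exact mem_sdiff.2 ⟨hcs hx1, fun h => hx2 (mem_filter.2 ⟨h, (mem_filter.1 hx1).2⟩)⟩
  have h5 : 1 - d / 2 < ‖o.mch Q ss St μ χ‖ := by
    rw [e1]
    nlinarith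
  have hSb : Sb fun x : cop St Q => μ x := by
    refine ⟨fun x => hμ x (hcs x.2), ?_⟩
    rw [sum_coe_sort (cop St Q) μ, ← h1]
    exact sum_le_sum_of_subset_of_nonneg hcs fun x hx _ => hμ x hx
  obtain ⟨j, hj1, hjM, hj⟩ := (hBes (cop St Q) (o.RC Q) (fun x => μ x) (fun _ => 0)
    (fun x => o.cM Q ss x) k0 1 M D hSb hk0 le_rfl (fun _ => by simp)
    (fun y => (law_pair _ _ _ hSb.1 y).trans (hlaw _)) (by simpa using hM)).2 χ 0 (by
      have : (fun i : cop St Q => ee (0 * ((0 : ℤ) : ℝ)) * χ (o.cM Q ss i))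
          = fun i : cop St Q => χ (o.cM Q ss i) := by
        funext i
        simp [ee]
      rw [this]
      unfold Od.mch at h5
      linarith)
  obtain ⟨χ', hχ'⟩ := hHens n r o M.factorial W Q π χ hA hW hWQ hQ hπ
    (fun g => by
      obtain ⟨t, ht⟩ := Nat.dvd_factorial hj1 hjM
      rw [ht, pow_mul, hj, one_pow])
    (fun l c hl hlW hc hdv => by
      by_contra hne
      exact hVio l χ ⟨hWQ, hQ, hBq, hl, hlW, by linarith, c, hc, hdv, hne⟩)
  refine hχ (mem_image.2 ⟨χ', ?_, AddChar.ext _ _ fun g => (hχ' g).symm⟩)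
  by_contra hnB
  have h6 := hB χ' hnB
  rw [ex_coe St μ fun x => χ' (o.cM W ss x)] at h6
  have h7 := sub_le _ _ hcs μ (fun x => χ' (o.cM W ss x)) hμ fun x => (χ'.norm_apply _).le
  have h8 : ∑ x ∈ cop St Q, (μ x : ℂ) * χ' (o.cM W ss x) = o.mch Q ss St μ χ := by
    rw [e1]
    refine sum_congr rfl fun x hx => ?_
    have hG := ((hPt n r o ss hA).2 x (hSt x (hcs hx)).2).2.2.1
    have hco : (nT x).Coprime Q := (mem_filter.1 hx).2
    rw [hχ', (hG Q hco).2, hπ.cl _ (hG Q hco).1, (hG W (hco.coprime_dvd_right hWQ)).2]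
  rw [h8, h1] at h7
  linarith

end Pool.Agent.MP_f3836a_nt.GV.C
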