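import Pool.Agent.MP_f3836a_nt.GV.SpecC1

/-! The extended lattices. -/

set_option autoImplicit false

namespace Pool.Agent.MP_f3836a_nt.GV.C

open MeasureTheory Metric

namespace GCExt

variable {r : ℕ} {Λ : AddSubgroup (E r)} {a R t : ℝ}

theorem zl (Γ : AddSubgroup (E r)) (ha : 0 < a) (hs : ∀ x ∈ Γ, x ≠ 0 → a ≤ ‖x‖)
    (hc : ∀ x, ∃ y ∈ Γ, ‖x - y‖ ≤ R) : ∃ _ : DiscreteTopology (AddSubgroup.toIntSubmodule Γ),
      IsZLattice ℝ (AddSubgroup.toIntSubmodule Γ) := by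
  have e : ({0} : Set (AddSubgroup.toIntSubmodule Γ)) = ball 0 a := Set.ext fun x => by
    rw [mem_ball_zero_iff, Set.mem_singleton_iff]
    exact ⟨fun e => by simpa [e] using ha, fun h => by_contra fun e =>
      (hs x x.2 fun e' => e (Subtype.ext e')).not_gt h⟩
  have := discreteTopology_of_isOpen_singleton_zero (e ▸ isOpen_ball)
  refine ⟨this, ⟨eq_top_iff.2 fun x _ => ?_⟩⟩
  · refine (Submodule.closed_of_finiteDimensional _).closure_subset (Metric.mem_closure_iff.2 ?_)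
    intro ε hε
    have hs : 0 < (|R| + 1) / ε := by positivity
    obtain ⟨y, hy, e⟩ := hc (((|R| + 1) / ε) • x)
    refine ⟨((|R| + 1) / ε)⁻¹ • y, Submodule.smul_mem _ _ (Submodule.subset_span hy), ?_⟩
    rw [dist_eq_norm, ← inv_smul_smul₀ hs.ne' x, ← smul_sub, norm_smul, Real.norm_of_nonneg
      (by positivity), inv_mul_lt_iff₀ hs, div_mul_cancel₀ _ hε.ne']
    linarith [le_abs_self R]

theorem scale (L : Submodule ℤ (E r)) [DiscreteTopology L] [IsZLattice ℝ L] (e : E r ≃L[ℝ] E r) :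
    ZLattice.covolume L volume = |LinearMap.det e.toLinearMap| *
      ZLattice.covolume (ZLattice.comap ℝ L e.toLinearMap) volume := by
  let b := Module.Free.chooseBasis ℤ L
  rw [ZLattice.covolume_eq_det_mul_measureReal L volume b (b.ofZLatticeBasis ℝ L),
    ZLattice.covolume_eq_det_mul_measureReal _ volume (b.ofZLatticeComap ℝ L e.toLinearEquiv)
      (b.ofZLatticeBasis ℝ L), ← mul_assoc, ← abs_mul, ← Module.Basis.det_comp]
  congr 3
  ext1 i
  simp

theorem mem {x : E r} : x ∈ ext Λ t ↔ ∃ y ∈ Λ, ∃ v : ℤ, y + (v * t) • e0 r = x := by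
  simp only [ext, AddSubgroup.mem_sup, AddSubgroup.mem_zmultiples_iff, exists_exists_eq_and,
    mul_smul, Int.cast_smul_eq_zsmul]

theorem lg (hr : 1 ≤ r) {y : E r} (hy : Lg y = 0) (s : ℝ) : Lg (y + s • e0 r) = s := by
  rw [Lg_add, Lg_smul, Lg_e0 hr, hy, zero_add, mul_one]

theorem sep (hr : 1 ≤ r) (h : UL Λ a R) (ht : 0 < t) :
    ∀ x ∈ ext Λ t, x ≠ 0 → min a (t / (2 * r)) ≤ ‖x‖ := fun x hx h0 => by
  obtain ⟨y, hy, v, rfl⟩ := mem.1 hx
  by_cases hv : v = 0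
  · simp only [hv, Int.cast_zero, zero_mul, zero_smul, add_zero] at h0 ⊢
    exact min_le_of_left_le (h.sep y hy h0)
  · have := abs_Lg (y + (v * t) • e0 r)
    rw [lg hr (h.ker y hy), abs_mul, abs_of_pos ht] at this
    have h1 : (1 : ℝ) ≤ |(v : ℝ)| := by exact_mod_cast Int.one_le_abs hv
    refine min_le_of_right_le ((div_le_iff₀' (by positivity)).2 ?_)
    nlinarith

theorem cov (hr : 1 ≤ r) (h : UL Λ a R) (ht : 0 < t) (x : E r) :
    ∃ y ∈ ext Λ t, ‖x - y‖ ≤ R + t := by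
  obtain ⟨y, hy, e⟩ := h.cov (x - Lg x • e0 r) (by rw [Lg_sub, Lg_smul, Lg_e0 hr]; ring)
  refine ⟨_, mem.2 ⟨y, hy, ⌊Lg x / t⌋, rfl⟩, ?_⟩
  rw [show x - (y + (⌊Lg x / t⌋ * t) • e0 r) = x - Lg x • e0 r - y + (Lg x - ⌊Lg x / t⌋ * t) • e0 r by
    rw [sub_smul]; abel]
  refine (norm_add_le _ _).trans (add_le_add e ?_)
  have r1 : (1 : ℝ) ≤ r := by exact_mod_cast hr
  rw [norm_smul, norm_e0 hr, Real.norm_of_nonneg (Int.sub_floor_div_mul_nonneg _ ht)]
  exact (mul_le_of_le_one_right (Int.sub_floor_div_mul_nonneg _ ht)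
    ((div_le_one (by positivity)).2 (by linarith))).trans (Int.sub_floor_div_mul_lt _ ht).le

theorem vol (hr : 1 ≤ r) (ha : 0 < a) (h : UL Λ a R) (ht : 0 < t) :
    0 < cvl (ext Λ t) ∧ cvl (ext Λ t) = t * Rg Λ := by
  obtain ⟨_, _⟩ := zl _ (lt_min ha (by positivity)) (sep hr h ht) (cov hr h ht)
  refine ⟨ZLattice.covolume_pos _ _, ?_⟩
  let φ : Module.Dual ℝ (E r) := ⟨⟨Lg, Lg_add⟩, Lg_smul⟩
  have h1 : 1 + φ ((t - 1) • e0 r) = t := by
    change 1 + Lg _ = t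
    rw [Lg_smul, Lg_e0 hr]; ring
  let e := LinearEquiv.dilatransvection (f := φ) (v := (t - 1) • e0 r) (by rw [h1]; exact ht.ne'.isUnit)
  have h2 : ∀ y ∈ Λ, ∀ v : ℤ, e (y + (v * 1 : ℝ) • e0 r) = y + (v * t) • e0 r := fun y hy v => by
    rw [LinearEquiv.dilatransvection.apply]
    change _ + Lg _ • _ = _
    rw [lg hr (h.ker y hy), add_assoc, smul_smul, ← add_smul]
    congr 2; ring
  rw [cvl, scale _ e.toContinuousLinearEquiv, Rg, cvl]
  congr 2
  · change |LinearMap.det (LinearMap.transvection φ _)| = t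
    rw [LinearMap.transvection.det, h1, abs_of_pos ht]
  · ext x
    change e x ∈ ext Λ t ↔ x ∈ ext Λ 1
    simp only [mem]
    exact exists_congr fun y => and_congr_right fun hy => exists_congr fun v => by
      rw [← h2 y hy, e.injective.eq_iff]

theorem lt (hr : 1 ≤ r) (ha : 0 < a) (h : UL Λ a R) (ht : 0 < t) :
    Lt (ext Λ t).subtype (t * Rg Λ) (R + t) :=
  ⟨⟨_, lt_min ha (by positivity), fun v hv => sep hr h ht v v.2 fun e => hv (Subtype.ext e)⟩,
    fun x => (cov hr h ht x).elim fun y hy => ⟨⟨y, hy.1⟩, hy.2⟩,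
    by rw [AddSubgroup.range_subtype, (vol hr ha h ht).2]⟩

end GCExt

open GCExt in
theorem rExt : OfExt := by
  intro hS r Λ a R hr ha h
  refine ⟨(vol hr ha h one_pos).1, fun t ht => lt hr ha h ht, fun Λ' a' R' ha' h' hle => ?_⟩
  have h1 : ext Λ 1 ≤ ext Λ' 1 := sup_le_sup_right hle _
  obtain ⟨h2, h3⟩ := hS r _ _ _ (AddSubgroup.inclusion h1) _ _ _ (lt hr ha' h' one_pos)
    (AddSubgroup.inclusion_injective h1) (lt hr ha h one_pos).cov
  have h4 : ext Λ 1 ⊓ Λ' = Λ := le_antisymm (fun x hx => by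
    obtain ⟨y, hy, v, rfl⟩ := mem.1 hx.1
    have := h'.ker _ hx.2
    rw [lg hr (h.ker y hy)] at this
    simpa [this] using hy) (le_inf le_sup_left hle)
  have h5 : (AddSubgroup.inclusion h1).range.index = Λ.relIndex Λ' := by
    rw [AddSubgroup.inclusion_range]
    change (ext Λ 1).relIndex _ = _
    rw [show ext Λ' 1 = Λ' ⊔ ext Λ 1 by rw [ext, ext, ← sup_assoc, sup_eq_left.2 hle],
      AddSubgroup.relIndex_sup_right, ← AddSubgroup.inf_relIndex_right, h4]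
  rw [h5] at h2 h3
  refine ⟨h2, ?_⟩
  rw [← one_mul (Rg Λ'), ← h3.vol, AddSubgroup.subtype_comp_inclusion, AddSubgroup.range_subtype, Rg]

end Pool.Agent.MP_f3836a_nt.GV.C
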