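import Pool.Agent.MP_f3836a_nt.GV.SpecC2

/-! Row GCFin: the ray class group is finite. -/

set_option autoImplicit false

namespace Pool.Agent.MP_f3836a_nt.GV.C

open Finset NumberField VE nonZeroDivisors

namespace GCFin

variable {n r : ℕ} (o : Od n r)

theorem nz {Q : ℕ} (I : o.MQ Q) : I.1 ∈ (Ideal (𝓞 o.L))⁰ :=
  mem_nonZeroDivisors_of_ne_zero fun h => I.2.1 (by rw [h, map_zero])

/-- congruent generators give the same class -/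
theorem key {Q : ℕ} (hc : ∀ x : 𝓞 o.L, ∃ a, o.inc a = o.D * x) (hq : 0 < o.D * Q)
    {α α' : 𝓞 o.L} (h : Ideal.span {α} ∈ o.MQ Q) (h' : Ideal.span {α'} ∈ o.MQ Q)
    (hd : ((o.D * Q : ℕ) : 𝓞 o.L) ∣ α' - α) :
    o.cI Q (Ideal.span {α}) = o.cI Q (Ideal.span {α'}) := by
  obtain ⟨N, hN⟩ : ∃ N, N = Ideal.absNorm (Ideal.span {α}) := ⟨_, rfl⟩
  obtain ⟨β, hβ⟩ : α ∣ (N : 𝓞 o.L) := Ideal.mem_span_singleton.1 (hN ▸ Ideal.absNorm_mem _)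
  have hN0 : N ≠ 0 := hN ▸ h.1
  have hN1 : N.Coprime (o.D * Q) := hN ▸ h.2
  obtain ⟨k, hk⟩ : ∃ k : ℕ, (Q : ℤ) ∣ (N ^ (k + 1) : ℕ) - 1 := by
    have hQ : 0 < Q := Nat.pos_of_mul_pos_left hq
    refine ⟨Q.totient - 1, ?_⟩
    rw [Nat.sub_add_cancel (Nat.totient_pos.2 hQ)]
    exact_mod_cast (Nat.ModEq.pow_totient hN1.coprime_mul_left_right).symm.dvd
  have hb : o.Pm Q (N ^ (k + 1) : ℕ) := o.pm_nat (pow_ne_zero _ hN0) (hN1.pow_left _)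
  have hb1 : (Q : o.A) ∣ (N ^ (k + 1) : ℕ) - 1 := by
    simpa using map_dvd (Int.castRingHom o.A) hk
  obtain ⟨t, ht⟩ := hd
  obtain ⟨a, ha⟩ := hc (t * (β * N ^ k))
  have e1 : o.inc (N ^ (k + 1) : ℕ) = α * (β * N ^ k) := by
    rw [map_natCast, Nat.cast_pow, pow_succ', ← mul_assoc, ← hβ]
  have e2 : o.inc ((N ^ (k + 1) : ℕ) + Q * a) = α' * (β * N ^ k) := by
    rw [map_add, e1, map_mul, ha, map_natCast, sub_eq_iff_eq_add.1 ht]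
    push_cast
    ring
  have hs : Ideal.span {β * N ^ k} ∈ o.MQ Q := by
    rw [Od.Pm, Od.pr, e1, ← Ideal.span_singleton_mul_span_singleton, o.mem_MQ, map_mul] at hb
    exact ⟨right_ne_zero_of_mul hb.1, hb.2.coprime_mul_left⟩
  refine (o.cI_eq h h').2 ⟨(N ^ (k + 1) : ℕ) + Q * a, (N ^ (k + 1) : ℕ), ?_, hb, ?_, hb1, ?_⟩
  · rw [Od.Pm, Od.pr, e2, ← Ideal.span_singleton_mul_span_singleton]
    exact mul_mem h' hs
  · rw [add_sub_right_comm]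
    exact hb1.add (dvd_mul_right _ _)
  · rw [Od.pr, Od.pr, e1, e2, Ideal.span_singleton_mul_span_singleton,
      Ideal.span_singleton_mul_span_singleton]
    congr 2
    ring

end GCFin

open GCFin in
theorem rFin : OfFin := by
  intro _ _ n r _ o Q ok hQ
  have hq : 0 < o.D * Q := Nat.mul_pos (Nat.pos_of_ne_zero ok.dne) hQ
  have hf : Finite (𝓞 o.L ⧸ Ideal.span {((o.D * Q : ℕ) : 𝓞 o.L)}) :=
    Ideal.finiteQuotientOfFreeOfNeBot _ (by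
      rw [Ne, Ideal.span_singleton_eq_bot]
      exact_mod_cast hq.ne')
  have h1 : ∀ C : ClassGroup (𝓞 o.L), ∃ J : o.MQ Q, ∀ J' : o.MQ Q,
      ClassGroup.mk0 ⟨J'.1, nz o J'⟩ = C → ClassGroup.mk0 ⟨J.1, nz o J⟩ = C := by
    intro C
    by_cases h : ∃ J' : o.MQ Q, ClassGroup.mk0 ⟨J'.1, nz o J'⟩ = C
    · obtain ⟨J, hJ⟩ := h
      exact ⟨J, fun _ _ => hJ⟩
    · exact ⟨1, fun J' hJ => absurd ⟨J', hJ⟩ h⟩
  choose J hJ using h1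
  have h2 : ∀ g : o.RC Q, ∃ (C : ClassGroup (𝓞 o.L)) (α : 𝓞 o.L), Ideal.span {α} ∈ o.MQ Q ∧
      g + o.cI Q (J C).1 = o.cI Q (Ideal.span {α}) := by
    intro g
    obtain ⟨I, hI, rfl⟩ := o.cI_surj g
    obtain ⟨J0, hJ0, e⟩ := o.exists_mul_eq Q hI
    have e1 : ClassGroup.mk0 ⟨I, nz o ⟨I, hI⟩⟩ = (ClassGroup.mk0 ⟨J0, nz o ⟨J0, hJ0⟩⟩)⁻¹ :=
      ClassGroup.mk0_eq_mk0_inv_iff.2 ⟨_, by
        rw [map_natCast]
        exact_mod_cast hI.1, e⟩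
    rw [← hJ _ ⟨J0, hJ0⟩ rfl] at e1
    obtain ⟨α, -, hα⟩ := ClassGroup.mk0_eq_mk0_inv_iff.1 e1
    refine ⟨ClassGroup.mk0 ⟨J0, nz o ⟨J0, hJ0⟩⟩, α, ?_, ?_⟩
    · rw [← hα]
      exact mul_mem hI (J _).2
    · rw [← hα]
      exact (o.cI_mul hI (J _).2).symm
  choose C α hα he using h2
  refine Finite.of_injective
    (fun g => (C g, Ideal.Quotient.mk (Ideal.span {((o.D * Q : ℕ) : 𝓞 o.L)}) (α g))) ?_
  intro g g' h
  obtain ⟨e1, e2⟩ := Prod.mk.inj h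
  have h3 := key o ok.cond hq (hα g') (hα g) (Ideal.mem_span_singleton.1 (Ideal.Quotient.eq.1 e2))
  rw [← he, ← he, e1] at h3
  exact (add_right_cancel h3).symm

end Pool.Agent.MP_f3836a_nt.GV.C
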