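import Pool.Agent.MP_f3836a_nt.GV.SpecC1

/-! A well rounded superlattice of prime power index. -/

set_option autoImplicit false

namespace Pool.Agent.MP_f3836a_nt.GV.C

open Finset Metric

namespace GCFine

variable {r : ℕ} {Λ : AddSubgroup (E r)} {a R η : ℝ}

theorem bdd (h : UL Λ a R) (hη : 0 < η) : ∃ B : ℕ, ∀ Λ' : AddSubgroup (E r), Λ ≤ Λ' →
    (∀ x ∈ Λ', Lg x = 0) → (∀ x ∈ Λ', x ≠ 0 → η ≤ ‖x‖) → Λ.relIndex Λ' ≤ B := by
  obtain ⟨t, -, ht, hc⟩ := finite_cover_balls_of_compact (isCompact_closedBall (0 : E r) R)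
    (half_pos hη)
  have := ht.to_subtype
  refine ⟨Nat.card t, fun Λ' le h1 h2 => ?_⟩
  have key : ∀ q : Λ' ⧸ Λ.addSubgroupOf Λ', ∃ (y : Λ') (c : t), (y : Λ' ⧸ Λ.addSubgroupOf Λ') = q ∧
      dist (y : E r) c < η / 2 := fun q => by
    obtain ⟨y, rfl⟩ := QuotientAddGroup.mk_surjective q
    obtain ⟨z, hz, e⟩ := h.cov y (h1 y y.2)
    obtain ⟨c, c1, c2⟩ := Set.mem_iUnion₂.1 (hc (mem_closedBall_zero_iff.2 e))
    refine ⟨y - ⟨z, le hz⟩, ⟨c, c1⟩, QuotientAddGroup.eq.2 ?_, ?_⟩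
    · simpa [AddSubgroup.mem_addSubgroupOf] using hz
    · exact c2
  choose y c h3 h4 using key
  rw [AddSubgroup.relIndex, AddSubgroup.index]
  refine Nat.card_le_card_of_injective c fun q q' e => ?_
  suffices e : (y q : E r) = y q' by rw [← h3 q, Subtype.ext e, h3]
  by_contra n
  have k := h4 q'
  rw [← e] at k
  linarith [h4 q, h2 _ (sub_mem (y q).2 (y q').2) (sub_ne_zero.2 n),
    dist_triangle_right (y q : E r) (y q') (c q), dist_eq_norm (y q : E r) (y q')]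

theorem rnd {S : Set (E r)} {b : ℝ} (hb : 0 ≤ b) (hS : ∀ s ∈ S, s ∈ Λ ∧ ‖s‖ ≤ b) {x : E r}
    (hx : x ∈ Submodule.span ℝ S) : ∃ y ∈ Λ, ‖x - y‖ ≤ r * b := by
  obtain ⟨κ, e, -, h1, h2⟩ := exists_linearIndependent' ℝ ((↑) : S → E r)
  have := h2.finite
  have := Fintype.ofFinite κ
  rw [← Subtype.range_coe (s := S), ← h1] at hx
  obtain ⟨c, rfl⟩ := (Submodule.mem_span_range_iff_exists_fun ℝ).1 hx
  refine ⟨∑ i, round (c i) • (e i : E r), sum_mem fun i _ => zsmul_mem (hS _ (e i).2).1 _, ?_⟩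
  rw [← sum_sub_distrib]
  refine (norm_sum_le _ _).trans ((sum_le_card_nsmul _ _ (1 / 2 * b) fun i _ => ?_).trans ?_)
  · rw [← Int.cast_smul_eq_zsmul ℝ, Function.comp_apply, ← sub_smul, norm_smul]
    exact mul_le_mul (abs_sub_round _) (hS _ (e i).2).2 (norm_nonneg _) (by norm_num)
  · have : (Fintype.card κ : ℝ) ≤ 2 * r := by
      exact_mod_cast h2.fintype_card_le_finrank.trans_eq finrank_E
    rw [card_univ, nsmul_eq_mul]
    nlinarith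

theorem idx {p : ℕ} (hp : p.Prime) {v : E r} (h : (p : ℤ) • v ∈ Λ) (h' : v ∉ Λ) :
    Λ.relIndex (AddSubgroup.zmultiples v ⊔ Λ) = p := by
  rw [AddSubgroup.relIndex_sup_right, ← AddSubgroup.range_zmultiplesHom, ← AddSubgroup.index_comap]
  refine ((Nat.dvd_prime hp).1 ?_).resolve_left fun e => h' ?_
  · exact (AddSubgroup.index_dvd_of_le (H := AddSubgroup.zmultiples (p : ℤ))
      (AddSubgroup.zmultiples_le_of_mem h)).trans (by simp [Int.index_zmultiples])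
  · simpa using (AddSubgroup.index_eq_one.1 e ▸ AddSubgroup.mem_top (1 : ℤ) :
      (1 : ℤ) ∈ Λ.comap (zmultiplesHom _ v))

theorem step {p : ℕ} (hp : p.Prime) (h1 : ∀ x ∈ Λ, x ≠ 0 → η ≤ ‖x‖) {v : E r}
    (h : (p : ℝ) • v ∈ Λ) (h2 : ¬∀ x ∈ AddSubgroup.zmultiples v ⊔ Λ, x ≠ 0 → η ≤ ‖x‖) :
    ∃ y ∈ Λ, v - y ∈ Submodule.span ℝ {s | s ∈ Λ ∧ ‖s‖ ≤ p * η} := by
  have p0 : (0 : ℝ) < p := Nat.cast_pos.2 hp.pos
  push Not at h2
  obtain ⟨z, hz, z0, z1⟩ := h2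
  obtain ⟨_, ⟨j, rfl⟩, y, hy, rfl⟩ := AddSubgroup.mem_sup.1 hz
  have h' : (p : ℤ) • v ∈ Λ := by rwa [← Int.cast_smul_eq_zsmul ℝ, Int.cast_natCast]
  have n : ¬(p : ℤ) ∣ j := by
    rintro ⟨i, rfl⟩
    exact (h1 _ (add_mem (by simpa only [mul_comm _ i, mul_smul] using zsmul_mem h' i) hy)
      z0).not_gt z1
  obtain ⟨b, c, e⟩ := (Nat.prime_iff_prime_int.1 hp).coprime_iff_not_dvd.2 n
  have m : (p : ℝ) • (j • v + y) ∈ Submodule.span ℝ {s | s ∈ Λ ∧ ‖s‖ ≤ p * η} := by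
    refine Submodule.subset_span ⟨?_, ?_⟩
    · rw [smul_add, smul_comm, Nat.cast_smul_eq_nsmul ℝ p y]
      exact add_mem (zsmul_mem h j) (nsmul_mem hy p)
    · rw [norm_smul, Real.norm_of_nonneg p0.le]
      exact mul_le_mul_of_nonneg_left z1.le p0.le
  refine ⟨b • (p : ℤ) • v - c • y, sub_mem (zsmul_mem h' b) (zsmul_mem hy c), ?_⟩
  have e' : v - (b • (p : ℤ) • v - c • y) = ((c : ℝ) / p) • (p : ℝ) • (j • v + y) := by
    rw [smul_smul (_ / _), div_mul_cancel₀ _ p0.ne', Int.cast_smul_eq_zsmul]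
    nth_rw 1 [← one_smul ℤ v, ← e]
    module
  exact e' ▸ Submodule.smul_mem _ _ m

end GCFine

open GCFine in
theorem rFine : FineS := by
  intro r p Λ a R η hr hp hη ha h
  have p0 : (0 : ℝ) < p := Nat.cast_pos.2 hp.pos
  obtain ⟨B, hB⟩ := bdd h hη
  let s : Set ℕ := {k | ∃ Λ' : AddSubgroup (E r), Λ ≤ Λ' ∧ (∀ x ∈ Λ', Lg x = 0) ∧
    (∀ x ∈ Λ', x ≠ 0 → η ≤ ‖x‖) ∧ Λ.relIndex Λ' = p ^ k}
  have bd : BddAbove s := ⟨B, fun k ⟨Λ', a1, a2, a3, a4⟩ =>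
    (Nat.lt_pow_self hp.one_lt).le.trans (a4 ▸ hB Λ' a1 a2 a3)⟩
  obtain ⟨Λ', a1, a2, a3, a4⟩ := Nat.sSup_mem (s := s) ⟨0, Λ, le_rfl, h.ker,
    fun x hx x0 => ha.trans (h.sep x hx x0), AddSubgroup.relIndex_self Λ⟩ bd
  refine ⟨Λ', a1, ⟨a2, a3, fun x hx => ?_⟩, _, a4⟩
  set H := Submodule.span ℝ {s | s ∈ Λ' ∧ ‖s‖ ≤ p * η}
  have k1 : ∀ v, (p : ℝ) • v ∈ Λ' → ∃ y ∈ Λ', v - y ∈ H := fun v hv => by
    by_cases e : v ∈ Λ'
    · exact ⟨v, e, by simp⟩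
    refine step hp a3 hv fun b => (Nat.lt_succ_self _).not_ge (le_csSup bd
      ⟨_, a1.trans le_sup_right, fun z hz => ?_, b, ?_⟩)
    · obtain ⟨_, ⟨j, rfl⟩, y, hy, rfl⟩ := AddSubgroup.mem_sup.1 hz
      have := a2 _ hv
      rw [Lg_smul, mul_eq_zero, or_iff_right p0.ne'] at this
      simp only [Lg_add, a2 y hy, ← Int.cast_smul_eq_zsmul ℝ, Lg_smul, this, mul_zero, add_zero]
    · rw [← AddSubgroup.relIndex_mul_relIndex _ _ _ a1 le_sup_right, a4, pow_succ,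
        idx hp (by rwa [← Int.cast_smul_eq_zsmul ℝ, Int.cast_natCast]) e]
  have k2 : ∀ (n : ℕ) (x : E r), Lg x = 0 → ∃ y ∈ Λ', ∃ z ∈ H, ‖x - y - z‖ ≤ R / p ^ n := by
    intro n
    induction n with
    | zero =>
      exact fun x hx => (h.cov x hx).imp fun y k => ⟨a1 k.1, 0, zero_mem _, by simpa using k.2⟩
    | succ n ih =>
      intro x hx
      obtain ⟨y, y1, z, z1, e⟩ := ih ((p : ℝ) • x) (by rw [Lg_smul, hx, mul_zero])
      obtain ⟨y', y2, y3⟩ := k1 ((p : ℝ)⁻¹ • y) (by rwa [smul_inv_smul₀ p0.ne'])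
      refine ⟨y', y2, _, add_mem y3 (H.smul_mem (p : ℝ)⁻¹ z1), ?_⟩
      have : x - y' - ((p : ℝ)⁻¹ • y - y' + (p : ℝ)⁻¹ • z) = (p : ℝ)⁻¹ • ((p : ℝ) • x - y - z) := by
        rw [smul_sub, smul_sub, inv_smul_smul₀ p0.ne']
        abel
      rw [this, norm_smul, Real.norm_of_nonneg (inv_pos.2 p0).le, pow_succ', ← div_div,
        div_right_comm, inv_mul_eq_div]
      exact div_le_div_of_nonneg_right e p0.le
  have c0 : 0 < r * (p * η) := by positivity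
  obtain ⟨n, hn⟩ := pow_unbounded_of_one_lt (R / (r * (p * η)))
    (Nat.one_lt_cast.2 hp.one_lt : (1 : ℝ) < p)
  obtain ⟨y, y1, z, z1, e⟩ := k2 n x hx
  obtain ⟨y', y2, e'⟩ := rnd (by positivity) (fun s k => k) z1
  refine ⟨y + y', add_mem y1 y2, ?_⟩
  rw [div_lt_comm₀ c0 (by positivity)] at hn
  have := norm_add_le (x - y - z) (z - y')
  rw [sub_add_sub_cancel, sub_sub] at this
  linarith

end Pool.Agent.MP_f3836a_nt.GV.C
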