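import Pool.Agent.MP_f3836a_nt.GV.SpecC1

/-! Block C: from small balls to neighbourhoods, by averaging over the centre. -/

set_option autoImplicit false

namespace Pool.Agent.MP_f3836a_nt.GV.C

open Finset MeasureTheory Metric VE
open VE.BC (tm)

namespace GCFub

theorem ind_nonneg (p : Prop) : 0 ≤ ind p := by
  unfold ind; split_ifs <;> norm_num

theorem exB {r : ℕ} {ι G : Type} [AddCommGroup G] (Λ : AddSubgroup (E r)) (x : ι → G)
    (lam : ι → E r) (g : G) {A K : Set (E r)} {δ0 : ℝ} (h0 : 0 < δ0) (hN : Nb A K δ0) {j : ℕ}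
    (s : Fin j → ι) : ∃ B : Set (E r), MeasurableSet B ∧ B ⊆ K ∧
      volume.real B = ind (Ev Λ x lam g A s) * vb r δ0 ∧
      ∀ ζ ∈ B, Ev Λ x lam g (closedBall ζ δ0) s := by
  by_cases h : Ev Λ x lam g A s
  · have e : ind (Ev Λ x lam g A s) = 1 := if_pos h
    obtain ⟨h1, y, hy, ha⟩ := h
    refine ⟨closedBall _ δ0, measurableSet_closedBall, hN.2.2 _ ha, ?_, fun ζ hζ => ?_⟩
    · rw [e, one_mul, vol_ball _ h0.le]
    · exact ⟨h1, y, hy, mem_closedBall_comm.1 hζ⟩
  · have e : ind (Ev Λ x lam g A s) = 0 := if_neg h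
    exact ⟨∅, MeasurableSet.empty, Set.empty_subset _, by simp [e], fun ζ hζ => hζ.elim⟩

end GCFub

theorem rFub : FubS := by
  intro r ι G _ _ μ x lam Λ k δ0 D hμ h0 hB
  have hw : ∀ s : Fin k → ι, 0 ≤ ∏ i, μ (s i) := fun s => prod_nonneg fun i _ => hμ _
  have hp : 0 < δ0 ^ (2 * r) := by positivity
  have hD : 0 ≤ D := by
    refine le_of_mul_le_mul_right ?_ hp
    rw [zero_mul]
    exact (sum_nonneg fun s _ => mul_nonneg (hw s) (GCFub.ind_nonneg _)).trans (hB 0 0)
  refine ⟨hD, fun g A K hN => ?_⟩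
  choose B hm hK hv hE using fun s : Fin k → ι => GCFub.exB Λ x lam g h0 hN s
  have hfin : ∀ s, volume (B s) ≠ ⊤ := fun s => measure_ne_top_of_subset (hK s) hN.2.1
  have hi : ∀ s : Fin k → ι, Integrable ((B s).indicator fun _ => ∏ i, μ (s i)) volume :=
    fun s => (integrable_indicator_iff (hm s)).2 (integrableOn_const (hfin s))
  have hiK : Integrable (K.indicator fun _ => D * δ0 ^ (2 * r)) volume :=
    (integrable_indicator_iff hN.1).2 (integrableOn_const hN.2.1)
  have h1 := integral_mono (integrable_finsetSum univ fun s _ => hi s) hiK fun ζ => by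
    by_cases hζ : ζ ∈ K
    · rw [Set.indicator_of_mem hζ]
      refine le_trans (sum_le_sum fun s _ => ?_) (hB g ζ)
      by_cases hs : ζ ∈ B s
      · have e : ind (Ev Λ x lam g (closedBall ζ δ0) s) = 1 := if_pos (hE s ζ hs)
        simp only [Set.indicator_of_mem hs, e, mul_one, le_refl]
      · rw [Set.indicator_of_notMem hs]
        exact mul_nonneg (hw s) (GCFub.ind_nonneg _)
    · rw [Set.indicator_of_notMem hζ]
      exact (sum_eq_zero fun s _ => Set.indicator_of_notMem (fun c => hζ (hK s c)) _).le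
  rw [integral_finsetSum univ fun s _ => hi s, integral_indicator_const _ hN.1] at h1
  simp only [integral_indicator_const _ (hm _), hv, smul_eq_mul] at h1
  have hv1 : δ0 ^ (2 * r) ≤ vb r δ0 := by
    rw [vb, pow_mul]
    refine pow_le_pow_left₀ (by positivity) ?_ r
    nlinarith [Real.pi_gt_three, sq_pos_of_pos h0]
  refine le_of_mul_le_mul_right ?_ (hp.trans_le hv1)
  have h2 : volume.real K * (D * δ0 ^ (2 * r)) ≤ D * volume.real K * vb r δ0 := by
    have := mul_le_mul_of_nonneg_left hv1 (mul_nonneg hD (measureReal_nonneg (μ := volume) (s := K)))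
    linarith
  refine le_trans (le_of_eq ?_) (h1.trans h2)
  rw [tm, sum_mul]
  exact sum_congr rfl fun s _ => by ring

end Pool.Agent.MP_f3836a_nt.GV.C
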