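import Pool.Agent.MP_f3836a_nt.GV.GCGc
import Pool.Agent.MP_f3836a_nt.VE.CGd

/-! Assembly of block C. -/

set_option autoImplicit false

namespace Pool.Agent.MP_f3836a_nt.GV.C.CG

open Finset Filter NumberField VE
open VE.BC (tm law Sb ex cop MgS RegS cv_eq)
open VE.BC.CG (ev_sqrt log_le ch_pts)

theorem ev_lin (a : ℝ) {b : ℝ} (hb : 0 < b) : ∀ᶠ Y : ℝ in atTop, a ≤ b * Y :=
  (tendsto_id.const_mul_atTop hb).eventually_ge_atTop a

theorem rho_low {Y e K a G b : ℝ} (hY : 0 < Y) (hG : 0 < G) (hb : 1 ≤ b) (ha : 0 < a)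
    (h1 : G ≤ Y ^ (e / 2) * a) (h2 : K ≤ Y ^ (e / 2)) : K ≤ Y ^ e * (b * a / G) := by
  have h3 : 0 < Y ^ (e / 2) := Real.rpow_pos_of_pos hY _
  rw [← mul_div_assoc, le_div_iff₀ hG, ← add_halves e, Real.rpow_add hY]
  calc _ ≤ Y ^ (e / 2) * (Y ^ (e / 2) * a) := mul_le_mul h2 h1 hG.le h3.le
    _ ≤ Y ^ (e / 2) * (Y ^ (e / 2) * a) * b := le_mul_of_one_le_right (by positivity) hb
    _ = _ := by ring

theorem sfg_mono {n W : ℕ} {M : Tab ℤ n} {ss : Pt → Fin n → ℤ} {S : Finset (Multiset Pt)}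
    {w : Multiset Pt → ℝ} {ρ Qm V ε K ε' K' : ℝ} {LL : Finset ℕ} {ad : Multiset Pt → ℕ → Prop}
    {fm : Multiset Pt → ℕ → ℝ} {Sh : (Fin n → ℤ) → Prop}
    (hr : ∀ Q, W ∣ Q → 0 < Q → 1 ≤ ratG M W Q) (h : SFG M ss W S w ρ LL ad fm Sh Qm V ε K)
    (hρ : 0 < ρ) (hf : ∀ T j, ad T j → 0 ≤ fm T j) (h1 : ε ≤ ε') (h2 : K ≤ K') :
    SFG M ss W S w ρ LL ad fm Sh Qm V ε' K' := fun Q a b c => by
  obtain ⟨Vs, ω, h3, h4, h5, h6⟩ := h Q a b c
  refine ⟨Vs, ω, h3, h4, h5, fun T j β n' t0 t1 t2 t3 t4 t5 => ?_⟩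
  obtain ⟨h7, h8⟩ := h6 T j β n' t0 t1 t2 t3 t4 t5
  have : 0 ≤ ρ * fm T j * ratG M W Q :=
    mul_nonneg (mul_nonneg hρ.le (hf T j t0)) (zero_le_one.trans (hr Q a b))
  exact ⟨h7.trans (mul_le_mul_of_nonneg_right h2 this),
    fun c => (h8 c).trans (mul_le_mul_of_nonneg_right h1 this)⟩

theorem cMain_of (hSua : SuaS) (hSub : SubbS) (hSuc : SucS) (hBa : BaaS) (hBb : BabS) (hPt : PtS)
    (hPar : ParS) (hSum : SumS) (hLoc : LocS) (hOm : OmS) (hMg : MgS) (hPi : PiS) (hCard : CardS)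
    (hLam : LamS) (hUn : UnS) (hLin : LinS) (hTn : TnS) (hMul : MulS) (hDens : DensS)
    (hMgz : MgzS) (hLsb : LsbS) (hLsg : LsgS) (hDich : DichS) (hRho : RhoS) (hAn : AnS)
    (hReg : RegS) (hRs : RsS) (hOrd : OrdS) (hCoo : CooS) (hHb : HbS) (hStp : StpS) : CMain := by
  classical
  intro n r E0 _ C1 hE0
  have n0 : 1 ≤ n := Nat.pos_of_ne_zero (NeZero.ne n)
  rcases Nat.eq_zero_or_pos r with rfl | r1
  · exact ⟨1, 0, 0, 0, 1, one_pos, one_pos, fun _ => ⟨1, 0, 1, 1, le_rfl, le_rfl, one_pos, le_rfl,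
      fun _ _ _ _ _ _ _ _ _ => ⟨0, fun _ _ _ _ _ _ _ _ _ _ h => absurd h.two (by omega)⟩⟩⟩
  obtain ⟨Ch, Y1, hH⟩ := hHb n r E0 C1
  obtain ⟨k0, C0, Y2, hk0, hC0, hM⟩ := hMgz n r E0 C1 Ch
  obtain ⟨M1, d4, Y3, hd4, hLs⟩ := hLsb n r E0 C1 Ch
  obtain ⟨a1, Y4, hCo⟩ := hCoo n E0
  set M0 := ⌈2 * k0 * C0⌉₊ with hM0
  refine ⟨M0.factorial, n * M0, M1, 2 * a1 + 2 * E0 + 1, min d4 (1 / (4 * k0 * (M0 + 1) ^ 2)),
    M0.factorial_pos, by positivity, fun E1 => ?_⟩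
  obtain ⟨k', Cd0, Y5, hk', hCd0, hD⟩ := hDens n r E0 E1 C1 Ch
  have hc := (hTn r).1
  set Cd := 2 ^ k' * Cd0 with hCd
  have Cdp : 0 ≤ Cd := by positivity
  obtain ⟨J0, c, C', hJ0, cp, c1, hC', hA⟩ := hAn r k' Cd r1 hk' Cdp
  have p0 := vb_nonneg r 2
  have e1 : 0 ≤ 1 + 2 * (17 ^ (2 * r) * (5 * C' + vb r 2 * Cd)) / cτ r := by positivity
  have e2 : 0 ≤ 2 * (17 ^ (2 * r) * (2 * (vb r 2 * Cd))) / cτ r := by positivity
  refine ⟨k', J0, C' + (1 + 2 * (17 ^ (2 * r) * (5 * C' + vb r 2 * Cd)) / cτ r) +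
    2 * (17 ^ (2 * r) * (2 * (vb r 2 * Cd))) / cτ r, c / 16, hk', by linarith,
    by positivity, by linarith, fun d J k ε0 hd hd0 hd1 hJ hε => ?_⟩
  obtain ⟨δ1, hδ, hA⟩ := hA J k hJ
  obtain ⟨Y6, hR⟩ := hRho n Ch (ε0 / 2) (by linarith)
  obtain ⟨Y00, hY⟩ := eventually_atTop.1 ((eventually_ge_atTop Y1).and
    ((eventually_ge_atTop Y2).and ((eventually_ge_atTop Y3).and ((eventually_ge_atTop Y4).and
    ((eventually_ge_atTop Y5).and ((eventually_ge_atTop Y6).and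
    ((eventually_ge_atTop (J : ℝ)).and ((eventually_ge_atTop (24 * r : ℝ)).and ((ev_lin 6 hδ).and
    ((ev_lin (6 + k * J * 6 + ((17 + 4 * r) * 6 + 4 * k ^ 2 * (n * C1)) +
      k * (2 * E0 * (n * C1)) * C') (pow_pos hε 2)).and
    ((ev_lin (2 * (vb r 3 * n)) (mul_pos hc hε)).and ((ev_lin (4 * (E0 * (n * C1))) (hd0 M0)).and
    ((ev_sqrt 2 hδ).and ((tendsto_rpow_atTop (half_pos hε)).eventually_ge_atTop
      ((k * n * |2 * C1| + 1) ^ k)))))))))))))))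
  refine ⟨Y00, fun Y W M Φ ss Val St μ hY0 hW hb => ?_⟩
  obtain ⟨y1, y2, y3, y4, y5, y6, y7, y8, y9, y10, y11, y12, y13, y14⟩ := hY Y hY0
  obtain ⟨o, ok0, rfl, rfl⟩ := hSua n r M Φ hb.two hb.rng hb.fld hb.em
  have ok : o.Ok :=
    have ⟨a, b, c, d⟩ := hSub n r o ok0
    ⟨ok0, a, b, c, d, (hSuc n r o ok0).1, (hSuc n r o ok0).2⟩
  have r1' : (1 : ℝ) ≤ r := by exact_mod_cast r1
  have hY1 : 1 < Y := by linarith
  have hY0' : 0 < Y := by linarith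
  have hlog := Real.log_pos hY1
  have h := sp_of hStp hY1 hb
  have hW2 : 2 ≤ W := by have := hW.1; omega
  have hW0 : 0 < W := by omega
  have hH' := hH o W Y y1 ok hb.size.1 (by
    rw [Od.D, Nat.cast_natAbs, Int.cast_abs]; exact hb.size.2.1) hb.size.2.2 hW2 hW.2.1 hb.sig
  have bs : o.Bs ss Val St μ W E0 C1 Ch Y := ⟨ok, hb, hW.1, hW.2.1, hH'⟩
  have hV0 : 0 < o.V0 := (hRs r _ _ _ _ (hOrd n r o _ ok hb.size.1)).1
  have hcd := fun Q => hCard n r o W Q ok hW2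
  have hcnt : ∀ Q, W ∣ Q → 0 < Q →
      2 * k0 * Nat.card (o.RC Q) * (C0 / Nat.card (o.RC Q)) ≤ (M0 : ℝ) := fun Q a b => by
    have := (hcd Q a b).1
    have : (0 : ℝ) < Nat.card (o.RC Q) := by exact_mod_cast Nat.card_pos
    rw [mul_assoc, mul_div_cancel₀ _ this.ne']; exact Nat.le_ceil _
  have := (hcd W dvd_rfl hW0).1
  have hcW : St ⊆ cop St W := fun x hx => mem_filter.2 ⟨hx, (h.stp x hx).2.2.2.1⟩
  obtain ⟨i, B, cc, S, q1, q2, q3, q4, q5, q6, q7⟩ := hReg St (o.RC W) (fun x => μ x)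
    (fun x => o.cM W ss x) (Equiv.refl _) k0 M0 _ d (fun x => hb.pos _ x.2)
    ((sum_coe_sort St μ).trans hb.tot) (fun x => rfl) hk0
    (hM o ss Val St St μ W W Y y2 bs dvd_rfl hW0 hb.size.2.2 hcW) (hcnt W dvd_rfl hW0) hd hd0
    (hd1.trans (min_le_right _ _))
  obtain ⟨LL, l1, l2, l3⟩ := hLsg n r o W M1 ss St μ (Y ^ E0) d4 (hLs o ss Val St μ W Y y3 bs)
  have hB : (1 : ℝ) ≤ B.card := by exact_mod_cast q2
  have hA0 : (0 : ℝ) < W ^ n * o.V0 := by positivity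
  have hG := mul_pos (hcd W dvd_rfl hW0).2.2.1 hlog
  have hρ : 0 < B.card * (W ^ n * o.V0) / (o.hR W * Real.log Y) := by positivity
  have di : d i ≤ min d4 (1 / (4 * k0 * (M0 + 1) ^ 2)) := (hd (Nat.zero_le i)).trans hd1
  have di1 : d i ≤ 1 := (di.trans (min_le_right _ _)).trans ((div_le_one (by positivity)).2 (by
    have h1 : (1 : ℝ) ≤ k0 := by exact_mod_cast hk0
    have h2 : (1 : ℝ) ≤ (M0 + 1) ^ 2 := one_le_pow₀ (le_add_of_nonneg_left (Nat.cast_nonneg _))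
    nlinarith only [h1, h2]))
  refine ⟨i, St.filter fun x => ∀ x' ∈ St, nT x' = nT x → ∀ χ ∈ B, χ (o.cM W ss x') = cc χ, LL, _,
    q1.trans (Nat.le_mul_of_pos_left _ n0), filter_subset _ _, fun x hx x' hx' e => mem_filter.2
      ⟨hx', fun y hy e' => (mem_filter.1 hx).2 y hy (e'.trans e)⟩, ?_, l1, l2, hρ,
    fun St2 hS2 hm2 => ?_⟩
  · have h1 : ∑ x ∈ St.filter fun x => ¬∀ x' ∈ St, nT x' = nT x → ∀ χ ∈ B,
        χ (o.cM W ss x') = cc χ, μ x ≤ n * ∑ x ∈ St.filter fun x => ¬∀ χ ∈ B,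
        χ (o.cM W ss x) = cc χ, μ x := by
      convert sat_le h fun x => ∀ χ ∈ B, χ (o.cM W ss x) = cc χ
    have h2 : ∑ s ∈ S, μ s = ∑ x ∈ St.filter fun x => ∀ χ ∈ B, χ (o.cM W ss x) = cc χ, μ x := by
      rw [sum_filter, ← sum_coe_sort St, ← sum_filter]
      exact sum_congr (Finset.ext fun s => by rw [q5, mem_filter]; simp) fun _ _ => rfl
    have h3 := sum_filter_add_sum_filter_not St (fun x => ∀ χ ∈ B, χ (o.cM W ss x) = cc χ) μ
    have h4 := sum_filter_add_sum_filter_not St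
      (fun x => ∀ x' ∈ St, nT x' = nT x → ∀ χ ∈ B, χ (o.cM W ss x') = cc χ) μ
    rw [hb.tot] at h3 h4
    have h5 : (1 : ℝ) ≤ n := by exact_mod_cast n0
    have h6 : 0 ≤ (M0 : ℝ) ^ 3 * d (i + 1) := mul_nonneg (by positivity) (hd0 _).le
    have h7 := mul_le_mul_of_nonneg_right (le_self_pow₀ h5 (n := 3) (by norm_num)) h6
    have h8 := mul_le_mul_of_nonneg_left (show ∑ x ∈ St.filter fun x =>
      ¬∀ χ ∈ B, χ (o.cM W ss x) = cc χ, μ x ≤ (M0 : ℝ) ^ 3 * d (i + 1) by linarith) (by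
        positivity : (0 : ℝ) ≤ n)
    rw [Nat.cast_mul, mul_pow, mul_assoc]
    linarith only [h1, h4, h7, h8]
  have hS : St2 ⊆ St := hS2.trans (filter_subset _ _)
  have hm : 1 / 2 ≤ ∑ x ∈ St2, μ x := by linarith
  have hcc : ∀ χ ∈ B, ∀ x ∈ St.filter fun x => ∀ x' ∈ St, nT x' = nT x →
      ∀ χ ∈ B, χ (o.cM W ss x') = cc χ, χ (o.cM W ss x) = cc χ := fun χ hχ x hx =>
    (mem_filter.1 hx).2 x (mem_filter.1 hx).1 rfl χ hχ
  refine ⟨fun T j β hj hT => (rw_le hMul h hS hm hT j β).trans (le_trans ?_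
    (rho_low hY0' hG hB hA0 (hR r o W Y y6 ok hW2 hW.2.1 hH' hV0) y14)), fun U u1 u2 => ?_⟩
  · refine le_trans (pow_le_pow_left₀ (by positivity) ?_ j) (pow_le_pow_right₀
      (le_add_of_nonneg_left (by positivity)) hj)
    refine le_trans ?_ (le_add_of_nonneg_right zero_le_one)
    gcongr
  have hU' : (0 : ℝ) < U := by linarith
  have hU : 0 < U := by exact_mod_cast hU'
  have hJU : J ≤ U := by exact_mod_cast y7.trans u1
  have hη : Real.log Y / U ≤ δ1 := by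
    rw [div_le_iff₀ hU']
    have h1 := mul_le_mul_of_nonneg_right y13 (Real.sqrt_nonneg Y)
    rw [mul_assoc δ1, Real.mul_self_sqrt hY0'.le] at h1
    linarith [log_le hY0', mul_le_mul_of_nonneg_left u1 hδ.le]
  have hDH : ∀ (Q : ℕ) (lam : Ideal (𝓞 o.L) → E r), W ∣ Q → 0 < Q → (Q : ℝ) ≤ Y ^ E0 →
      o.Lam Q lam → DH (fun x : cop St2 Q => nzG St2 μ x) (fun x : cop St2 Q => o.cM Q ss x)
        (fun x : cop St2 Q => lam (o.IM ss x)) (o.LQ Q) k' (Real.log Y / U / (4 * r))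
        (Cd / (Nat.card (o.RC Q) * Rg (o.LQ Q) * (U * (Real.log Y / U)))) := fun Q lam a b c e => by
    have h1 := dh_scale (δ1 := Real.log Y / U / (4 * r))
      (fun x : cop St2 Q => (nz_le hm (hb.pos _ (hS (filter_subset _ _ x.2)))).1)
      (fun x => (nz_le hm (hb.pos _ (hS (filter_subset _ _ x.2)))).2) (by
        have h2 : 1 ≤ Real.log Y := (Real.le_log_iff_exp_le hY0').2
          (Real.exp_one_lt_d9.le.trans (by linarith))
        rw [div_div, pow_succ]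
        exact div_le_div₀ hlog.le h2 (by positivity)
          (mul_le_mul u2 (by linarith) (by positivity) (by positivity)))
      (hD o ss Val St (cop St2 Q) μ W Q Y lam y5 bs a b c e (filter_subset_filter _ hS))
    rwa [mul_div_cancel₀ _ hU'.ne', hCd, mul_div_assoc]
  have hcv : ∀ v, cv St2 (nzG St2 μ) (uG Y U) J k' v ≤ C' / U := fun v => by
    obtain ⟨lam, hl⟩ := hLam n r o W ok hW0
    obtain ⟨R1, hul⟩ := hUn n r o W ok hW2
    have e : cop St2 W = St2 := filter_true_of_mem fun x hx => (h.stp x (hS hx)).2.2.2.1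
    have h1 := (hA _ _ _ _ _ _ U _ _ R1 _ (sb_cop h hS (filter_subset _ _) hm) hJU
      (fun x => (uu_spec h hY1 hU (hS (filter_subset _ _ x.2))).1) (div_pos hlog hU') hη hul
      (cel hPt ok h hY1 hU hl hS) (hDH W lam dvd_rfl hW0 hb.size.2.2 hl)).1 v
    rw [← cv_eq] at h1
    unfold cop at e
    rwa [e] at h1
  refine ⟨fun x hx => (uu_spec h hY1 hU hx).1, fun v => (hcv v).trans
    (div_le_div_of_nonneg_right (by linarith) hU'.le),
    fun ad fm X V Qm ε Λ ε' K a1 a2 a3 a4 a5 a6 a7 a8 a9 a10 had => ?_⟩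
  refine sfg_mono (fun Q a b => (hcd Q a b).2.2.2.1) (sfe_all hBa hPt hPar hSum hLoc hOm hMg hPi
    hCard hLam hUn hLin (d := d i / 4) (cc := cc) hc Cdp hC' hA ok h hS hm hW2 (hJ0.trans hJ) hJU hη
    hV0 (hCo r o Y y4 ok hb.size.1) hDH hcv q2 (by linarith [hd0 i]) (by linarith)
    (fun Q π t1 t2 t3 t4 t5 => ?_) (fun χ hχ x hx => hcc χ hχ x (hS2 hx)) (fun T j hT => ?_) hε a1
    a2 a3 a4 a5 a6 a7 a8 y8 y9 y10 y11) hρ
    (fun T j hT => le_trans (by positivity) (had T j hT).2.2.2.1)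
    (le_trans (mul_le_mul_of_nonneg_right (by linarith) (by linarith)) a9)
    (le_trans (mul_le_mul_of_nonneg_right (by linarith) (by linarith)) a10)
  · refine hDich n r o W Q M0 k0 ss St St2 μ π B _ (d i) d4 _ ok hW t1 t2 t3 t4
      (fun x hx => ⟨hb.pos x hx, fun z hz => h.gd hx hz⟩) hb.tot ?_ hk0
      (hM o ss Val St _ μ W Q Y y2 bs t1 t2 t3 Subset.rfl) (hcnt Q t1 t2) (hd0 i)
      (di.trans (min_le_right _ _)) (di.trans (min_le_left _ _)) (fun l χ => l3 Q l χ t5) q7 hS hm2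
    have h1 := h.rem Q E0 St t2 t3 Subset.rfl
    have h2 := sum_sdiff (f := μ) (filter_subset (fun x => (nT x).Coprime Q) St)
    have h3 : E0 * (n * C1) / Y ≤ d i / 4 := by
      rw [div_le_div_iff₀ hY0' four_pos]
      linarith [mul_le_mul_of_nonneg_right (hd q1) hY0'.le]
    rw [hb.tot] at h2
    unfold cop at h1 ⊢
    linarith
  · obtain ⟨t1, t3, t4, t5, t6, t7, t8, t9⟩ := had T j hT
    refine ⟨t1, fun z hz => (h.stp _ (filter_subset _ _ (t7 z hz))).2.1 z (Multiset.mem_singleton_self z),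
      t3, t4, t5, by convert t6 using 4; ring, fun χ hχ β hβ g hg => ?_, t9⟩
    obtain ⟨x, hx⟩ := nonempty_of_sum_ne_zero (show ∑ x ∈ St2, μ x ≠ 0 by linarith)
    refine ch_target χ hg (ch_shp hBa hBb ok hW0 hβ χ (q4 χ hχ)) ?_ ?_ t8
    · exact ch_pts χ _ _ T fun z hz => by simpa [Od.cM] using hcc χ hχ _ (t7 z hz)
    · rw [← hcc χ hχ x (hS2 hx)]; exact q4 χ hχ _

end Pool.Agent.MP_f3836a_nt.GV.C.CG
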