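import Pool.Agent.MP_f3836a_nt.GV.SpecC1
import Pool.Agent.MP_f3836a_nt.VE.CGl

/-! Lower bound for the denominator of the sieve, in any dimension. -/

set_option autoImplicit false

namespace Pool.Agent.MP_f3836a_nt.GV.C

open Finset Pool.Agent.MP_c481b3_nt.H63

theorem rGl : OfGl := by
  rintro ⟨C, hC, h⟩ B₀
  have sub : ∀ (x : ℝ) (Q : Finset ℕ), 1 ≤ x → (∀ l ∈ Q, l.Prime ∧ (l : ℝ) ≤ x) →
      ∑ l ∈ Q, Real.log l / l ≤ C * Real.log x := fun x Q hx hQ =>
    le_trans (sum_le_sum_of_subset_of_nonneg (fun l hl => mem_filter.2 ⟨mem_range.2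
      (Nat.lt_succ_of_le (Nat.le_floor (hQ l hl).2)), (hQ l hl).1⟩)
      fun l _ _ => div_nonneg (Real.log_natCast_nonneg l) l.cast_nonneg) (h x hx)
  obtain ⟨B, B0, hB⟩ : ∃ B, 0 < B ∧ B₀ ≤ B :=
    ⟨max B₀ 1, lt_max_of_lt_right one_pos, le_max_left _ _⟩
  refine ⟨Real.exp (-(4 * B ^ 2 * C ^ 2)) / 2, by positivity, fun Y P g hY hP => ?_⟩
  have hg : ∀ l ∈ P, g l ≤ B / l := fun l hl =>
    (hP l hl).2.2.2.trans (div_le_div_of_nonneg_right hB l.cast_nonneg)
  have hL : 0 < Real.log Y := Real.log_pos (by linarith)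
  set t := Real.log Y / (4 * B * C) with ht
  have t0 : 0 < t := by positivity
  have h1 := VE.BC.CGl.half g P (P.filter fun l => Real.log l ≤ t) Y hY (filter_subset _ _)
    (fun l hl => ⟨(hP l hl).1, (hP l hl).2.2.1⟩) (by
      have := sub (Real.exp t) (P.filter fun l => Real.log l ≤ t) (Real.one_le_exp t0.le)
        fun l hl => ⟨(hP l (mem_filter.1 hl).1).1, (Real.log_le_iff_le_exp
          (Nat.cast_pos.2 (hP l (mem_filter.1 hl).1).1.pos)).1 (mem_filter.1 hl).2⟩
      rw [Real.log_exp] at this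
      calc _ ≤ ∑ l ∈ P.filter fun l : ℕ => Real.log l ≤ t, B * (Real.log l / l) :=
            sum_le_sum fun l hl => by
              rw [← mul_div_assoc, mul_div_right_comm]
              exact mul_le_mul_of_nonneg_right (hg l (mem_filter.1 hl).1)
                (Real.log_natCast_nonneg l)
        _ ≤ B * (C * t) := by rw [← mul_sum]; exact mul_le_mul_of_nonneg_left this B0.le
        _ = _ := by rw [ht]; field_simp)
  have h2 : ∏ l ∈ P.filter fun l : ℕ => ¬Real.log l ≤ t, (1 + g l) ≤
      Real.exp (4 * B ^ 2 * C ^ 2) := by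
    have := sub Y (P.filter fun l => ¬Real.log l ≤ t) (by linarith)
      fun l hl => ⟨(hP l (mem_filter.1 hl).1).1, (hP l (mem_filter.1 hl).1).2.1.le⟩
    calc _ ≤ ∏ l ∈ P.filter fun l : ℕ => ¬Real.log l ≤ t, Real.exp (B / t * (Real.log l / l)) :=
          prod_le_prod (fun l hl => add_nonneg zero_le_one (hP l (mem_filter.1 hl).1).2.2.1)
            fun l hl => by
              obtain ⟨a, b⟩ := mem_filter.1 hl
              refine le_trans ?_ (Real.add_one_le_exp _)
              rw [add_comm]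
              refine add_le_add_left ((hg l a).trans ?_) _
              rw [← mul_div_assoc]
              refine div_le_div_of_nonneg_right ?_ l.cast_nonneg
              rw [div_mul_eq_mul_div, le_div_iff₀ t0]
              exact mul_le_mul_of_nonneg_left (not_le.1 b).le B0.le
      _ ≤ _ := by
          rw [← Real.exp_sum, ← mul_sum]
          refine Real.exp_le_exp.2 ((mul_le_mul_of_nonneg_left this (by positivity)).trans_eq ?_)
          rw [ht]; field_simp
  refine le_trans ?_ h1
  rw [← prod_filter_mul_prod_filter_not P (fun l => Real.log l ≤ t), Real.exp_neg]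
  have h3 : 0 ≤ ∏ l ∈ P.filter fun l : ℕ => Real.log l ≤ t, (1 + g l) :=
    prod_nonneg fun l hl => add_nonneg zero_le_one (hP l (mem_filter.1 hl).1).2.2.1
  have h4 := Real.exp_pos (4 * B ^ 2 * C ^ 2)
  rw [div_mul_eq_mul_div, inv_mul_eq_div]
  refine div_le_div_of_nonneg_right ?_ zero_le_two
  rw [div_le_iff₀ h4]
  exact mul_le_mul_of_nonneg_left h2 h3

end Pool.Agent.MP_f3836a_nt.GV.C
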