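import Pool.Agent.MP_f3836a_nt.GV.SpecC1

/-! Existence of grids. -/

set_option autoImplicit false

namespace Pool.Agent.MP_f3836a_nt.GV.C

open Finset MeasureTheory Metric VE

namespace GCGrid

variable {r : ℕ} {Λ Λ' : AddSubgroup (E r)} {T : Type} {η : ℝ} {σ : T → Λ'}

/-- the sum over the grid is a sum over the extended lattice -/
theorem sum_eq (hr : 1 ≤ r) (hη : 0 < η) (le : Λ ≤ Λ') (h1 : ∀ x ∈ Λ, x ≠ 0 → 1 ≤ ‖x‖)
    (ker : ∀ x ∈ Λ', Lg x = 0) (inj : ∀ t t', (σ t : E r) - σ t' ∈ Λ → t = t')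
    (sur : ∀ x ∈ Λ', ∃ t, x - σ t ∈ Λ) {Φ : E r → ℝ} (hΦ : ∀ x, Φ x ≠ 0 → ‖x‖ ≤ 1 / 3) (ζ : E r)
    {S : Finset (ℤ × T)} {S' : Finset (ext Λ' η)}
    (hS : ∀ p, per Λ Φ (gp η (fun t => (σ t : E r)) p - ζ) ≠ 0 → p ∈ S)
    (hS' : ∀ v : ext Λ' η, Φ (v - ζ) ≠ 0 → v ∈ S') :
    ∑ v ∈ S', Φ (v - ζ) = ∑ p ∈ S, per Λ Φ (gp η (fun t => (σ t : E r)) p - ζ) := by
  have ex : ∀ v : ext Λ' η, ∃ p, gp η (fun t => (σ t : E r)) p - v ∈ Λ := fun v => by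
    obtain ⟨x, hx, z, hz, e⟩ := AddSubgroup.mem_sup.1 v.2
    obtain ⟨m, rfl⟩ := AddSubgroup.mem_zmultiples_iff.1 hz
    obtain ⟨t, ht⟩ := sur x hx
    refine ⟨(m, t), ?_⟩
    convert neg_mem ht using 1
    rw [← e, gp, ← Int.cast_smul_eq_zsmul ℝ, smul_smul, mul_comm]
    abel
  choose f hf using ex
  have k : ∀ v : ext Λ' η, Φ (v - ζ) ≠ 0 →
      Φ (v - ζ) = per Λ Φ (gp η (fun t => (σ t : E r)) (f v) - ζ) := fun v hv => by
    have e : ∀ a : E r, a - ζ - (a - v) = v - ζ := fun a => by abel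
    rw [per_eq h1 hΦ (hf v) (by rw [e]; linarith [hΦ _ hv]), e]
  refine sum_bij_ne_zero (fun v _ _ => f v) (fun v _ hv => hS _ (k v hv ▸ hv))
    (fun v _ hv v' _ hv' e => ?_) (fun p _ hp => ?_) fun v _ hv => k v hv
  · have h2 : (v : E r) - v' ∈ Λ := by
      convert sub_mem (hf v') (hf v) using 1
      rw [show f v = f v' from e]; abel
    refine Subtype.ext (sub_eq_zero.1 (by_contra fun c => ?_))
    have h3 := norm_sub_le ((v : E r) - ζ) (v' - ζ)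
    rw [sub_sub_sub_cancel_right] at h3
    linarith [h1 _ h2 c, hΦ _ hv, hΦ _ hv']
  · obtain ⟨y, hy, c⟩ := per_ne hp
    have m : gp η (fun t => (σ t : E r)) p - y ∈ ext Λ' η := by
      refine sub_mem (add_mem (AddSubgroup.mem_sup_right (AddSubgroup.mem_zmultiples_iff.2
        ⟨p.1, ?_⟩)) (AddSubgroup.mem_sup_left (σ p.2).2)) (AddSubgroup.mem_sup_left (le hy))
      rw [← Int.cast_smul_eq_zsmul ℝ, smul_smul, mul_comm]
    rw [sub_right_comm] at c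
    refine ⟨⟨_, m⟩, hS' _ c, c, ?_⟩
    have h2 := sub_mem (hf ⟨_, m⟩) hy
    generalize f ⟨_, m⟩ = q at h2
    have h3 : gp η (fun t => (σ t : E r)) q - gp η (fun t => (σ t : E r)) p ∈ Λ := by
      convert h2 using 1; dsimp only; abel
    have h4 := ker _ (le h3)
    simp only [gp, Lg_sub, Lg_add, Lg_smul, Lg_e0 hr, ker _ (σ _).2] at h4
    have h5 : q.1 = p.1 := Int.cast_injective (α := ℝ) (mul_left_cancel₀ hη.ne' (by linarith))
    refine Prod.ext h5 (inj _ _ ?_)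
    convert h3 using 1
    rw [gp, gp, h5]; abel

end GCGrid

theorem rGrid : OfGrid := by
  intro hRs hMk hEx hFi hVo r p Λ R η hr hp hη h1 hΛ
  obtain ⟨Λ', le, hΛ', k, hk⟩ := hFi r p Λ 1 R η hr hp hη h1 hΛ
  obtain ⟨F, c1, c2, c3, c4, c5, c6⟩ := hVo r Λ' η _ hr hη hΛ'
  obtain ⟨pos, -, e3⟩ := hEx r Λ 1 R hr one_pos hΛ
  obtain ⟨i0, eR⟩ := e3 Λ' η _ hη hΛ' le
  have L0 := (hEx r Λ' η _ hr hη hΛ').2.1 η hη
  have r1 : (1 : ℝ) ≤ r := by exact_mod_cast hr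
  have L : Lt (ext Λ' η).subtype (η * Rg Λ') (2 * r ^ 2 * p * η + η) :=
    ⟨L0.sep, fun x => (L0.cov x).imp fun v hv => hv.trans (by
      have : (0 : ℝ) ≤ 2 * r * p * η * (r - 1) := by
        have := sub_nonneg.2 r1
        positivity
      linarith), L0.vol⟩
  obtain ⟨-, a2, a3, -, a5, a6⟩ := hRs r _ _ _ _ L
  obtain ⟨v1, v2⟩ := (hMk r _ _ _ _ L).1 F c1 c2 fun v hv => Subtype.ext (c5 v v.2 hv)
  let T := Λ' ⧸ Λ.addSubgroupOf Λ'
  have cT : Nat.card T = Λ.relIndex Λ' := rfl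
  have fin : Finite T := Nat.finite_of_card_ne_zero i0
  have c0 : (0 : ℝ) < Nat.card T := by exact_mod_cast Nat.pos_of_ne_zero i0
  rw [← cT] at eR
  have q : ∀ a b : Λ', (a : T) = b ↔ (a : E r) - b ∈ Λ := fun a b =>
    QuotientAddGroup.eq_iff_sub_mem
  have o : ∀ t : T, ((t.out : Λ') : T) = t := fun t => QuotientAddGroup.out_eq' t
  have inj : ∀ t t' : T, ((t.out : Λ') : E r) - (t'.out : Λ') ∈ Λ → t = t' := fun t t' h => by
    rw [← o t, ← o t', q]; exact h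
  have sur : ∀ x ∈ Λ', ∃ t : T, x - (t.out : Λ') ∈ Λ := fun x hx =>
    ⟨((⟨x, hx⟩ : Λ') : T), (q ⟨x, hx⟩ _).1 (o _).symm⟩
  refine ⟨T, inferInstance, fin, fun t => (t.out : Λ'), F, ⟨⟨pos, by positivity⟩, fun t t' => ?_,
    fun t => hΛ'.ker _ (Subtype.prop _), fun t t' y hy h => inj _ _ ?_, fun x hx => ?_,
    ⟨c1, c2, c3, c4⟩, ⟨v1, ?_⟩, ?_, fun Φ K R ζ S hΦ hR hS => ?_⟩, k, hk⟩
  · rw [sub_sub]
    exact (q (t + t').out (t.out + t'.out)).1 (by rw [QuotientAddGroup.mk_add, o, o, o])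
  · rwa [sub_eq_zero.1 (by_contra fun c => (hΛ'.sep _
      (sub_mem (sub_mem (Subtype.prop _) (Subtype.prop _)) (le hy)) c).not_gt h)]
  · obtain ⟨y, hy, h⟩ := c6 x hx
    obtain ⟨t, ht⟩ := sur y hy
    refine ⟨t, _, ht, ?_⟩
    rw [sub_sub, add_sub_cancel]
    exact ⟨h.1, h.2.trans_eq (by ring)⟩
  · rw [eR]
    linarith [mul_le_mul_of_nonneg_left v2 c0.le]
  · rw [eR]
    linarith [mul_le_mul_of_nonneg_left a3 c0.le]
  · obtain ⟨S', hS', -⟩ := a5 ζ R hΦ.pos.2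
    have s : ∀ x, Φ x ≠ 0 → ‖x‖ ≤ R := fun x hx => by simpa using hΦ.sup x hx
    have m : ∀ v : ext Λ' η, Φ (v - ζ) ≠ 0 → v ∈ S' := fun v hv =>
      (hS' v).2 ((s _ hv).trans (le_add_of_nonneg_right a2))
    have := a6 (fun x => Φ (x - ζ)) K R ζ S' ⟨hΦ.pos, fun x y => by
      simpa using hΦ.lip (x - ζ) (y - ζ), fun x hx => s _ hx⟩ m
    rw [integral_sub_right_eq_self] at this
    rw [← GCGrid.sum_eq hr hη le hΛ.sep hΛ'.ker inj sur (fun x hx => (s x hx).trans hR) ζ hS m, eR]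
    rwa [show η * (Nat.card T * Rg Λ') / Nat.card T = η * Rg Λ' by field_simp]

end Pool.Agent.MP_f3836a_nt.GV.C
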