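import Pool.Agent.MP_f3836a_nt.GV.SpecC2

/-! Block C: the bound for the class number. -/

set_option autoImplicit false

namespace Pool.Agent.MP_f3836a_nt.GV.C

open Finset NumberField VE

theorem rHb : OfHb := by
  intro _ _ hN hC hU hL n r E0 C1
  obtain ⟨Cl, l0, hl⟩ := hL n r
  obtain ⟨Cu, u0, hu⟩ := hU n (n * (4 * E0 + 1) + 1)
  refine ⟨Real.exp (2 * n * C1) * (Cl * (Cu * 3)), max Cl 3, fun o W Y hY ok sz hD hW w2 sm sg => ?_⟩
  have y3 : 3 ≤ Y := (le_max_right _ _).trans hY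
  have d0 := Nat.pos_of_ne_zero ok.dne
  have q0 : 0 < W * o.D := Nat.mul_pos (by omega) d0
  have x1 : Y ≤ Y ^ (n * (4 * E0 + 1)) :=
    le_self_pow₀ (by linarith) (mul_ne_zero (NeZero.ne n) (by omega))
  have h1 := hl o (W * o.D) (Y ^ E0) (Y ^ (n * (4 * E0 + 1))) ok sz (by nlinarith)
    (dvd_mul_left _ _) (by positivity) (by
      rw [mul_comm n, pow_mul]
      refine pow_le_pow_left₀ (by positivity) ?_ n
      rw [show Y ^ (4 * E0 + 1) = Y * (Y ^ E0 * Y ^ E0) * (Y ^ E0) ^ 2 by ring, Nat.cast_mul]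
      gcongr
      exact (le_max_left _ _).trans hY)
  have f1 := Nat.floor_le (show 0 ≤ 3 * Y ^ (n * (4 * E0 + 1)) by positivity)
  have h2 := hu r o (W * o.D) ⌊3 * Y ^ (n * (4 * E0 + 1))⌋₊ Y ok
    (fun l a b => (sm l a b).mul_right _) (by linarith)
    (by linarith [Nat.lt_floor_add_one (3 * Y ^ (n * (4 * E0 + 1)))])
    (f1.trans (by rw [pow_succ']; gcongr))
  have e : o.Pr (W * o.D) Y = o.Pr W Y := filter_congr fun l _ => and_congr_right fun p => by
    simp only [p.dvd_mul]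
    tauto
  obtain ⟨-, -, c1, -, c2⟩ := hC n r o W (W * o.D) ok w2 (dvd_mul_right _ _) q0
  have h3 : ratG o.M W (W * o.D) ≤ Real.exp (2 * n * C1) := by
    have e2 : (W * o.D).primeFactors.filter (fun l => ¬l ∣ W) =
        o.D.primeFactors.filter fun l => ¬l ∣ W := by
      rw [Nat.primeFactors_mul (by omega) ok.dne, filter_union, filter_false_of_mem fun l h =>
        not_not.2 (Nat.dvd_of_mem_primeFactors h), empty_union]
    refine le_trans ?_ (Real.exp_le_exp.2 (mul_le_mul_of_nonneg_left sg (by positivity)))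
    rw [ratG, e2, sig, mul_sum, Real.exp_sum]
    refine prod_le_prod (fun l h => ?_) fun l h => ?_ <;>
      have p := Nat.prime_of_mem_primeFactors (mem_filter.1 h).1
    · exact inv_nonneg.2 (hN n r o l ok p).2.2.1.le
    · rw [mul_one_div]
      exact ((hN n r o l ok p).2.2.2 (le_of_not_ge fun c => (mem_filter.1 h).2 (sm l p c))).2
  have s0 : 0 ≤ Real.log Y * sd (nuG o.M) (o.Pr W Y) := mul_nonneg (Real.log_nonneg (by linarith))
    (prod_nonneg fun l h => (hN n r o l ok (mem_filter.1 h).2.1).2.2.1.le)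
  have v0 : 0 ≤ o.V0 := ENNReal.toReal_nonneg
  rw [e, mul_assoc] at h2
  rw [Od.Hb, mul_assoc]
  generalize Real.log Y * sd (nuG o.M) (o.Pr W Y) = s at *
  have x0 : 0 < Y ^ (n * (4 * E0 + 1)) := by positivity
  have qn : (0 : ℝ) < (W * o.D : ℕ) ^ n := by positivity
  have h4 : o.hR (W * o.D) * s ≤ Cl * (Cu * 3) * ((W * o.D : ℕ) ^ n * o.V0) := by
    refine le_of_mul_le_mul_right ?_ x0
    have a := mul_le_mul_of_nonneg_right h1 s0
    have b := mul_le_mul_of_nonneg_left (h2.trans (mul_le_mul_of_nonneg_left f1 u0))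
      (show 0 ≤ Cl * ((W * o.D : ℕ) ^ n * o.V0) by positivity)
    linarith
  refine le_of_mul_le_mul_right ?_ qn
  have a := mul_le_mul_of_nonneg_right (mul_le_mul h3 h4 (mul_nonneg c1.le s0) (Real.exp_pos _).le)
    (show (0 : ℝ) ≤ W ^ n by positivity)
  rw [mul_right_comm, ← c2]
  linarith

end Pool.Agent.MP_f3836a_nt.GV.C
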