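import Pool.Agent.MP_f3836a_nt.GV.SpecC2

/-! Block C: every class has an ideal in every direction. -/

set_option autoImplicit false

namespace Pool.Agent.MP_f3836a_nt.GV.C

open Finset NumberField

namespace GCHba

theorem near {x b : ℂ} {K ε u : ℝ} (h0 : 0 < ε) (h1 : ε ≤ 1 / 2) (hu : K / ε ≤ (x + u).re)
    (h : ‖b - Complex.exp (x + u)‖ ≤ K) :
    b ≠ 0 ∧ ‖Complex.log (b / Complex.exp (x + u))‖ ≤ 3 / 2 * ε := by
  have hx := Complex.exp_ne_zero (x + u)
  have hn : 0 < ‖Complex.exp (x + u)‖ := norm_pos_iff.2 hx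
  have h2 : K ≤ ε * ‖Complex.exp (x + u)‖ := by
    rw [Complex.norm_exp]
    rw [div_le_iff₀ h0] at hu
    nlinarith [Real.add_one_le_exp (x + u).re]
  have h3 : ‖b / Complex.exp (x + u) - 1‖ ≤ ε := by
    rw [div_sub_one hx, norm_div, div_le_iff₀ hn]
    exact h.trans h2
  refine ⟨fun e => ?_, ?_⟩
  · rw [e, zero_div, zero_sub, norm_neg, norm_one] at h3
    linarith
  · have h4 := Complex.norm_log_one_add_half_le_self (h3.trans h1)
    rw [add_sub_cancel] at h4
    linarith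

end GCHba

theorem rHba : OfHba := by
  intro hA _ hO n r _ o Q lam g ζ δ ok hQ hD hl hδ
  obtain ⟨hr, -, -, -, -, -, hmod, -⟩ := hA n r o ok
  obtain ⟨J, hJ, rfl⟩ := o.cI_surj g
  have hL := hO n r o ‖o.Φ‖ ok fun w i => (norm_le_pi_norm _ i).trans (norm_le_pi_norm _ w)
  set ρ : ℝ := n * ‖o.Φ‖
  set η : E r := ζ - lam J with hη
  set ε : ℝ := min (2 / 3 * δ) (1 / 2)
  have hε : 0 < ε := lt_min (by positivity) (by norm_num)
  set u : ℝ := ‖η‖ + Q * ρ / ε
  have hQ0 : (0 : ℝ) < Q := by positivity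
  have hQc : (Q : ℂ) ≠ 0 := by exact_mod_cast hQ0.ne'
  obtain ⟨v, hv⟩ := hL.cov fun w => (Complex.exp (η w + u) - 1) / Q
  have key : ∀ w, o.em (1 + Q * v) w ≠ 0 ∧
      ‖Complex.log (o.em (1 + Q * v) w / Complex.exp (η w + u))‖ ≤ 3 / 2 * ε := fun w => by
    refine GCHba.near (K := Q * ρ) hε (min_le_right _ _) ?_ ?_
    · have h1 := (abs_le.1 ((Complex.abs_re_le_norm (η w)).trans (norm_le_pi_norm η w))).1
      simp only [Complex.add_re, Complex.ofReal_re, u]
      linarith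
    · have h1 : ‖(Complex.exp (η w + u) - 1) / Q - o.em v w‖ ≤ ρ :=
        (norm_le_pi_norm _ w).trans hv
      have e : o.em (1 + Q * v) w - Complex.exp (η w + u) =
          -(Q : ℂ) * ((Complex.exp (η w + u) - 1) / Q - o.em v w) := by
        simp only [map_add, map_mul, map_one, map_natCast, Pi.add_apply, Pi.mul_apply,
          Pi.one_apply, Pi.natCast_apply]
        field_simp
        ring
      rw [e, norm_mul, norm_neg, Complex.norm_natCast]
      exact mul_le_mul_of_nonneg_left h1 hQ0.le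
  have hd : (Q : o.A) ∣ 1 + Q * v - 1 := ⟨v, by ring⟩
  have hm := hmod Q 1 _ hd
  rw [o.nm_one] at hm
  have hc : (o.nm (1 + Q * v)).Coprime Q := by
    have := Nat.ModEq.gcd_eq hm
    rwa [Nat.gcd_one_left] at this
  have hP : o.Pm Q (1 + Q * v) := by
    refine ⟨fun e => ?_, (hc.coprime_dvd_right hD).mul_right hc⟩
    have e' : o.nm (1 + Q * v) = 0 := e
    rw [e', Nat.coprime_zero_left] at hc
    omega
  have hI := mul_mem hJ hP
  set ξ : E r := fun w => η w + u + Complex.log (o.em (1 + Q * v) w / Complex.exp (η w + u))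
  have h1 := hl.add J hJ _ hP
  have h2 := hl.rel 1 (1 + Q * v) ξ (o.pm_one Q) hP hd fun w => by
    have hx := Complex.exp_ne_zero (η w + u)
    simp only [ξ, map_one, Pi.one_apply, one_mul]
    rw [Complex.exp_add, Complex.exp_log (div_ne_zero (key w).1 hx), mul_div_cancel₀ _ hx]
  have h3 := neg_mem (hl.add 1 (one_mem _) 1 (one_mem _))
  rw [o.pr_one] at h2
  rw [mul_one] at h3
  refine ⟨_, hI, 2 * r * u, (o.cI_eq hI hJ).2 ⟨1, 1 + Q * v, o.pm_one Q, hP, by simp, hd, by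
    rw [o.pr_one, one_mul, mul_comm]⟩, _, add_mem (add_mem h1 h2) h3, ?_⟩
  refine (pi_norm_le_iff_of_nonneg hδ.le).2 fun w => ?_
  have hr' : (r : ℂ) ≠ 0 := by exact_mod_cast (by omega : r ≠ 0)
  have e : (lam (J * o.pr (1 + Q * v)) - ζ - (2 * r * u) • e0 r -
      (lam (J * o.pr (1 + Q * v)) - lam J - lam (o.pr (1 + Q * v)) +
        (lam (o.pr (1 + Q * v)) - lam 1 - ξ) + -(lam 1 - lam 1 - lam 1))) w =
      Complex.log (o.em (1 + Q * v) w / Complex.exp (η w + u)) := by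
    simp only [ξ, hη, e0, Pi.sub_apply, Pi.add_apply, Pi.neg_apply, Pi.smul_apply,
      Complex.real_smul]
    push_cast
    field_simp
    ring
  rw [e]
  linarith [(key w).2, min_le_left (2 / 3 * δ) (1 / 2)]

end Pool.Agent.MP_f3836a_nt.GV.C
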