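import Pool.Agent.MP_f3836a_nt.GV.SpecC2

/-! Many ideals in a class and a ball. -/

set_option autoImplicit false

namespace Pool.Agent.MP_f3836a_nt.GV.C

open Finset NumberField

namespace GCHbb

theorem exp_pow {n : ℕ} (hn : n ≠ 0) (x : ℝ) : Real.exp (x / n) ^ n = Real.exp x := by
  have : (n : ℝ) ≠ 0 := by exact_mod_cast hn
  rw [← Real.exp_nat_mul]; congr 1; field_simp

theorem num {n : ℕ} (hn : n ≠ 0) {m L t θ δ : ℝ} (hm : 0 < m) (h : Real.log m = L + t + θ)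
    (hθ : |θ| ≤ n * (δ / 4)) (h0 : 0 < δ) (h1 : δ ≤ 1 / 4) :
    m ^ (n - 1) ≤ (2 * (m * Real.exp (-t / n)) / Real.exp (L / n)) ^ n ∧
      (δ / 16) ^ n * Real.exp L * m ^ (n - 1) ≤ (δ * (m * Real.exp (-t / n)) / 8) ^ n := by
  have hn' : (0 : ℝ) < n := by exact_mod_cast Nat.pos_of_ne_zero hn
  have hu : 1 ≤ 2 * Real.exp (θ / n) := by
    have a1 := Real.add_one_le_exp (θ / n)
    have a2 : -(δ / 4) ≤ θ / n := by
      rw [le_div_iff₀ hn']; linarith [(abs_le.1 hθ).1]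
    linarith
  have hu' : 1 ≤ 2 ^ n * Real.exp θ := by
    rw [← exp_pow hn θ, ← mul_pow]; exact one_le_pow₀ hu
  have e1 : m = Real.exp L * Real.exp t * Real.exp θ := by
    rw [← Real.exp_add, ← Real.exp_add, ← h, Real.exp_log hm]
  have e2 : (m * Real.exp (-t / n)) ^ n = m ^ (n - 1) * Real.exp L * Real.exp θ := by
    have a1 : m ^ n = m ^ (n - 1) * m := by
      rw [← pow_succ, Nat.sub_add_cancel (Nat.pos_of_ne_zero hn)]
    have a2 : m * Real.exp (-t) = Real.exp L * Real.exp θ := by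
      rw [e1, Real.exp_neg]; field_simp
    rw [mul_pow, exp_pow hn, a1, mul_assoc, a2, mul_assoc]
  have hp : 0 < m ^ (n - 1) := by positivity
  constructor
  · have a1 : (2 * (m * Real.exp (-t / n)) / Real.exp (L / n)) ^ n =
        m ^ (n - 1) * (2 ^ n * Real.exp θ) := by
      rw [div_pow, mul_pow, e2, exp_pow hn]; field_simp
    rw [a1]; exact le_mul_of_one_le_right hp.le hu'
  · have a1 : (δ * (m * Real.exp (-t / n)) / 8) ^ n =
        (δ / 16) ^ n * Real.exp L * m ^ (n - 1) * (2 ^ n * Real.exp θ) := by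
      rw [show δ * (m * Real.exp (-t / n)) / 8 = δ / 16 * 2 * (m * Real.exp (-t / n)) by ring,
        mul_pow, mul_pow, e2]; ring
    rw [a1]; exact le_mul_of_one_le_right (by positivity) hu'

theorem pow_le_vb (r : ℕ) (R : ℝ) : R ^ (2 * r) ≤ vb r R := by
  rw [vb, pow_mul]
  exact pow_le_pow_left₀ (by positivity)
    (le_mul_of_one_le_left (by positivity) (by linarith [Real.pi_gt_three])) r

theorem lg1 {z : ℂ} {t δ : ℝ} (ht : 0 < t) (h1 : δ ≤ 1 / 4) (h : ‖z - t‖ ≤ δ * t / 4) :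
    ‖Complex.log (z / t)‖ ≤ 3 * δ / 8 ∧ t * Complex.exp (Complex.log (z / t)) = z := by
  have ht' : (t : ℂ) ≠ 0 := by exact_mod_cast ht.ne'
  have e : z / t = 1 + (z - t) / t := by field_simp; ring
  have a1 : ‖(z - t) / t‖ ≤ δ / 4 := by
    rw [norm_div, Complex.norm_real, Real.norm_of_nonneg ht.le, div_le_iff₀ ht]; linarith
  have a2 := Complex.norm_log_one_add_half_le_self (z := (z - t) / t) (by linarith)
  have a3 : z / t ≠ 0 := by
    intro c
    have : (z - t) / t = -1 := by rw [e] at c; linear_combination c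
    rw [this, norm_neg, norm_one] at a1
    linarith
  refine ⟨by rw [e]; linarith, ?_⟩
  rw [Complex.exp_log a3]; field_simp

theorem pm {n r : ℕ} [NeZero n] (o : Od n r) (hB : BaaS) (ho : o.Ok) {Q m : ℕ} (h2 : 2 ≤ Q)
    (hD : o.D ∣ Q) (hm : m.Coprime Q) (γ : o.A) : o.Pm Q (m + Q * γ) := by
  obtain ⟨-, -, -, -, b5, -, b7, -⟩ := hB n r o ho
  have a1 := b7 Q m (m + Q * γ) (by simp)
  rw [b5] at a1
  have a2 : (o.nm (m + Q * γ)).Coprime Q := by
    rw [Nat.Coprime, a1.gcd_eq]; exact hm.pow_left n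
  refine o.mem_MQ.2 ⟨fun c => ?_, Nat.Coprime.mul_right (a2.coprime_dvd_right hD) a2⟩
  have a3 : o.nm (m + Q * γ) = 0 := c
  rw [a3, Nat.coprime_zero_left] at a2
  omega

end GCHbb

open GCHbb in
theorem rHbb : OfHbb := by
  classical
  intro hRs hB hUn hUnf hIdb hIdg hHba n r _ o Q lam g ζ B δ ho hSz h2 hD hl h0 h1 hX
  have hQ : 0 < Q := by omega
  have hr := (hB n r o ho).1
  have hn : n = 2 * r := ho.two
  have hnr : (n : ℝ) = 2 * r := by exact_mod_cast hn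
  obtain ⟨I0, hI0, t, hg, y, hy, hη⟩ := hHba n r o Q lam g ζ (δ / 4) ho h2 hD hl (by positivity)
  obtain ⟨R, hU⟩ := hUn n r o Q ho h2
  obtain ⟨J, -, hJ⟩ := hUnf n r o Q lam I0 ho hQ hl hI0
  have hJ1 : J ∈ o.MQ 1 := o.MQ_anti (one_dvd Q) hJ.mem.1
  obtain ⟨b, hb⟩ := hIdb n r o J ho hJ1
  obtain ⟨m, hm⟩ : ∃ m, m = Ideal.absNorm I0 := ⟨_, rfl⟩
  rw [← hm] at hJ
  have hm0 : (0 : ℝ) < m := by rw [hm]; exact_mod_cast Nat.pos_of_ne_zero hI0.1
  have hmc : m.Coprime Q := by rw [hm]; exact hI0.2.coprime_mul_left_right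
  have hθ := abs_Lg (lam I0 - ζ - t • e0 r - y)
  have hlog : Real.log m = Lg ζ + t + Lg (lam I0 - ζ - t • e0 r - y) := by
    rw [Lg_sub, Lg_sub, Lg_sub, Lg_smul, Lg_e0 hr, hU.ker y hy, hl.nrm I0 hI0, hm]; ring
  obtain ⟨n1, n2⟩ := num (NeZero.ne n) hm0 hlog
    (hθ.trans (by rw [hnr]; exact mul_le_mul_of_nonneg_left hη (by positivity))) h0 h1
  obtain ⟨t', ht'⟩ : ∃ t', t' = m * Real.exp (-t / n) := ⟨_, rfl⟩
  rw [← ht'] at n1 n2
  have hp : 0 < t' := by rw [ht']; positivity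
  have hx := Real.exp_pos (Lg ζ / n)
  have hNJ : (Ideal.absNorm J : ℝ) = m ^ (n - 1) := by rw [hJ.nrm.2]; push_cast; rfl
  have hL := hIdg n r o B (2 * t' / Real.exp (Lg ζ / n)) Q J b ho hSz hQ hJ1 hb (by positivity)
    (hNJ.trans_le n1)
  have hρ : Q * (3 * n ^ 2 * B ^ 2 * (2 * t' / Real.exp (Lg ζ / n))) ≤ δ * t' / 8 := by
    have a1 : Q * (3 * n ^ 2 * B ^ 2 * (2 * t' / Real.exp (Lg ζ / n))) =
        Q * (100 * n ^ 2 * B ^ 2) * (6 / 100 * t') / Real.exp (Lg ζ / n) := by ring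
    rw [a1, div_le_iff₀ hx]
    have a2 := mul_le_mul_of_nonneg_right hX (by positivity : 0 ≤ 6 / 100 * t')
    have a3 : 0 ≤ δ * t' * Real.exp (Lg ζ / n) := by positivity
    nlinarith
  obtain ⟨S0, hS, hc⟩ := (hRs r _ _ _ _ hL).2.2.2.2.1 (fun _ => (t' : ℂ) - m) (δ * t' / 8)
    (by positivity)
  obtain ⟨ℓ, hℓ⟩ : ∃ ℓ : (Fin n → ℤ) → E r, ℓ = fun x w =>
    Complex.log (o.em (m + Q * b x) w / t') := ⟨_, rfl⟩
  have hem : ∀ x w, o.em (m + Q * b x) w = m + o.gI Q b x w := fun x w => by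
    rw [map_add, map_natCast, o.gI_apply]; rfl
  have k1 : ∀ x ∈ S0, ‖ℓ x‖ ≤ 3 * δ / 8 ∧
      ∀ w, m * Complex.exp ((-t • e0 r + ℓ x) w) = o.em (m + Q * b x) w := by
    intro x hx
    have a1 : ∀ w, ‖o.em (m + Q * b x) w - t'‖ ≤ δ * t' / 4 := fun w => by
      have a2 := (norm_le_pi_norm _ w).trans ((hS x).1 hx)
      rw [Pi.sub_apply] at a2
      rw [hem, show (m : ℂ) + o.gI Q b x w - t' = o.gI Q b x w - (t' - m) by ring]
      linarith
    refine ⟨(pi_norm_le_iff_of_nonneg (by positivity)).2 fun w => ?_, fun w => ?_⟩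
    · rw [hℓ]; exact (lg1 hp h1 (a1 w)).1
    · have a2 : (-t • e0 r) w = ((-t / n : ℝ) : ℂ) := by
        rw [Pi.smul_apply, e0, Complex.real_smul, ← Complex.ofReal_mul, hnr, mul_one_div]
      rw [Pi.add_apply, Complex.exp_add, a2, ← Complex.ofReal_exp, ← mul_assoc,
        ← (lg1 hp h1 (a1 w)).2, hℓ, ht']
      push_cast; rfl
  have k2 : ∀ x ∈ S0, ∃ I, I ∈ o.MQ Q ∧ o.cI Q I = g ∧
      lam I - lam I0 - (-t • e0 r + ℓ x) ∈ o.LQ Q := by
    intro x hx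
    obtain ⟨I, c1, -, c3, c4⟩ := hJ.bwd (b x) ((hb.mem _).2 ⟨x, rfl⟩) (pm o hB ho h2 hD hmc _)
    exact ⟨I, c1, c3.trans hg, c4 _ (k1 x hx).2⟩
  choose! I hI using k2
  have inj : Set.InjOn I S0 := by
    intro x hx x' hx' e
    have a1 := sub_mem (hI x' hx').2.2 (hI x hx).2.2
    rw [e, show lam (I x') - lam I0 - (-t • e0 r + ℓ x') - (lam (I x') - lam I0 -
      (-t • e0 r + ℓ x)) = ℓ x - ℓ x' by abel] at a1
    have a2 : ℓ x = ℓ x' := by
      by_contra c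
      have a3 := hU.sep _ a1 (sub_ne_zero.2 c)
      linarith [norm_sub_le (ℓ x) (ℓ x'), (k1 x hx).1, (k1 x' hx').1]
    have a3 : o.gI Q b (x - x') = 0 := by
      funext w
      have a4 := (k1 x hx).2 w
      rw [a2, (k1 x' hx').2 w, hem, hem] at a4
      rw [map_sub, Pi.sub_apply, Pi.zero_apply]
      linear_combination -a4
    obtain ⟨a, ha, hs⟩ := hL.sep
    by_contra c
    have a4 := hs _ (sub_ne_zero.2 c)
    rw [a3, norm_zero] at a4
    linarith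
  refine ⟨S0.image I, ?_, fun I' hI' => ?_⟩
  · rw [card_image_of_injOn inj]
    have a1 := pow_le_vb r (δ * t' / 8)
    rw [← hn] at a1
    have a2 := n2.trans (a1.trans hc)
    rw [hNJ] at a2
    refine le_of_mul_le_mul_right (a2.trans (le_of_eq (by ring))) (by positivity : 0 < (m : ℝ) ^ (n - 1))
  · obtain ⟨x, hx, rfl⟩ := mem_image.1 hI'
    refine ⟨(hI x hx).1, (hI x hx).2.1, _, add_mem hy (hI x hx).2.2, ?_⟩
    rw [show lam (I x) - ζ - (y + (lam (I x) - lam I0 - (-t • e0 r + ℓ x))) =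
      lam I0 - ζ - t • e0 r - y + ℓ x by rw [neg_smul]; abel]
    linarith [norm_add_le (lam I0 - ζ - t • e0 r - y) (ℓ x), (k1 x hx).1]

end Pool.Agent.MP_f3836a_nt.GV.C
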