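import Pool.Agent.MP_f3836a_nt.GV.SpecC2

/-! Block C: an upper bound for the number of ideals of bounded norm. -/

set_option autoImplicit false

namespace Pool.Agent.MP_f3836a_nt.GV.C

open Finset

namespace GCHbu

theorem loc (n : ℕ) : ∃ c : ℝ, 0 ≤ c ∧ ∀ (f : ℕ → ℝ) (l K : ℕ) (T : ℝ), 2 ≤ l → (∀ m, 0 ≤ f m) →
    f 1 = 1 → (∀ j : ℕ, f (l ^ j) ≤ ((j : ℝ) + 1) ^ n) → 1 + f l / l ≤ T →
    ∑ j ∈ range K, f (l ^ j) / (l : ℝ) ^ j ≤ Real.exp (c * ((l : ℝ) ^ 2)⁻¹) * T := by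
  have hs : Summable fun j : ℕ => ((j + 3 : ℕ) : ℝ) ^ n * (1 / 2 : ℝ) ^ (j + 3) :=
    (summable_nat_add_iff (f := fun j : ℕ => (j : ℝ) ^ n * (1 / 2 : ℝ) ^ j) 3).2
      (summable_pow_mul_geometric_of_norm_lt_one n (by norm_num))
  have h0 : 0 ≤ ∑' j : ℕ, ((j + 3 : ℕ) : ℝ) ^ n * (1 / 2 : ℝ) ^ (j + 3) :=
    tsum_nonneg fun _ => by positivity
  have hK := fun K => hs.sum_le_tsum (range K) fun _ _ => by positivity
  generalize ∑' j : ℕ, ((j + 3 : ℕ) : ℝ) ^ n * (1 / 2 : ℝ) ^ (j + 3) = s at h0 hK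
  refine ⟨8 * s, by positivity, fun f l K T hl f0 f1 hf hT => ?_⟩
  have l2 : (2 : ℝ) ≤ l := by exact_mod_cast hl
  have h1 : ∑ j ∈ range K, f (l ^ (j + 1 + 1)) / (l : ℝ) ^ (j + 1 + 1) ≤ 8 * s * ((l : ℝ) ^ 2)⁻¹ := by
    refine le_trans ?_ (mul_le_mul_of_nonneg_right (mul_le_mul_of_nonneg_left (hK K) (by norm_num))
      (by positivity))
    rw [mul_sum, sum_mul]
    refine sum_le_sum fun j _ => ?_
    have e1 := hf (j + 1 + 1)
    have e2 : (2 : ℝ) ^ j ≤ (l : ℝ) ^ j := pow_le_pow_left₀ zero_le_two l2 j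
    calc f (l ^ (j + 1 + 1)) / (l : ℝ) ^ (j + 1 + 1)
        ≤ (((j + 1 + 1 : ℕ) : ℝ) + 1) ^ n / (2 ^ j * (l : ℝ) ^ 2) := by
          rw [show (l : ℝ) ^ (j + 1 + 1) = (l : ℝ) ^ j * (l : ℝ) ^ 2 by ring]
          gcongr
      _ = _ := by
          rw [show (((j + 1 + 1 : ℕ) : ℝ) + 1) = ((j + 3 : ℕ) : ℝ) by push_cast; ring, one_div,
            inv_pow, pow_add]
          field_simp
          norm_num
  have h2 : ∑ j ∈ range K, f (l ^ j) / (l : ℝ) ^ j ≤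
      ∑ j ∈ range (K + 1 + 1), f (l ^ j) / (l : ℝ) ^ j :=
    sum_le_sum_of_subset_of_nonneg (range_subset_range.2 (by omega)) fun _ _ _ =>
      div_nonneg (f0 _) (by positivity)
  rw [sum_range_succ', sum_range_succ'] at h2
  simp only [zero_add, pow_one, pow_zero, f1, div_one] at h2
  have h3 : 0 ≤ f l / l := div_nonneg (f0 _) (by positivity)
  have h4 : 0 ≤ 8 * s * ((l : ℝ) ^ 2)⁻¹ := by positivity
  have h5 := Real.add_one_le_exp (8 * s * ((l : ℝ) ^ 2)⁻¹)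
  generalize 8 * s * ((l : ℝ) ^ 2)⁻¹ = t at h1 h4 h5 ⊢
  nlinarith [mul_le_mul_of_nonneg_right h5 (show 0 ≤ T by linarith),
    mul_le_mul_of_nonneg_left (show 1 ≤ T by linarith) h4]

end GCHbu

open GCHbu in
theorem rHbu : OfHbu := by
  intro hChe hB hH hN hR hRn n a
  obtain ⟨C, C1, hC⟩ := hChe
  obtain ⟨H, H0, hH⟩ := hH n
  obtain ⟨c, c0, hc⟩ := loc n
  refine ⟨H * Real.exp (c * 2 + 2 * n * (C * a)), by positivity,
    fun r _ o W X Y ok hW y2 yX xY => ?_⟩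
  have x3 : 2 ≤ X := by exact_mod_cast y2.trans yX
  have ly : 0 < Real.log Y := Real.log_pos (by linarith)
  have l1 : Real.log Y ≤ Real.log X := Real.log_le_log (by linarith) yX
  have l2 : Real.log X ≤ a * Real.log Y := by
    have := Real.log_le_log (by linarith) xY
    rwa [Real.log_pow] at this
  obtain ⟨r1, r2, r3⟩ := hR n r o W ok
  have m1 : ∀ a b : ℕ, a.Coprime b → (o.rr W (a * b) : ℝ) ≤ o.rr W a * o.rr W b := fun a b h => by
    exact_mod_cast r2 a b h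
  have m2 : ∀ l j : ℕ, l.Prime → (o.rr W (l ^ j) : ℝ) ≤ ((j : ℝ) + 1) ^ n := fun l j h => by
    exact_mod_cast r3 l j h
  have h2 := hH (fun m => o.rr W m) X x3 (fun _ => by positivity) m1 m2
  have pP : ∀ l ∈ o.Pr W Y, l.Prime := fun l hl => (mem_filter.1 hl).2.1
  have n1 : ∀ l : ℕ, l.Prime → 0 < 1 - nuG o.M l := fun l hl => (hN n r o l ok hl).2.2.1
  have n2 : ∀ l : ℕ, l.Prime → 1 + (o.rr W l : ℝ) / l ≤ (1 - nuG o.M l)⁻¹ := fun l hl => by
    rw [← one_div, le_div_iff₀' (n1 l hl)]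
    exact hRn n r o W l ok hl
  have s0 : 0 < sd (nuG o.M) (o.Pr W Y) := prod_pos fun l hl => n1 l (pP l hl)
  have t0 : ∀ l : ℕ, 0 ≤ Real.log l / l := fun l =>
    div_nonneg (Real.log_natCast_nonneg l) l.cast_nonneg
  have h3 := hB (fun m => o.rr W m) (fun l => Real.exp (c * ((l : ℝ) ^ 2)⁻¹ +
    2 * n * (Real.log l / l / Real.log Y)) * if l ∈ o.Pr W Y then (1 - nuG o.M l)⁻¹ else 1) X
    (fun _ => by positivity) (by simp [r1]) m1 fun l K hl _ => by
      have t1 : 0 ≤ 2 * n * (Real.log l / l / Real.log Y) :=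
        mul_nonneg (by positivity) (div_nonneg (t0 l) ly.le)
      rw [Real.exp_add, mul_assoc]
      refine hc (fun m => o.rr W m) l K _ hl.two_le (fun _ => by positivity) (by simp [r1])
        (fun j => m2 l j hl) ?_
      by_cases p : l ∈ o.Pr W Y
      · rw [if_pos p]
        exact (n2 l hl).trans (le_mul_of_one_le_left (inv_pos.2 (n1 l hl)).le (Real.one_le_exp t1))
      rw [if_neg p, mul_one]
      by_cases q : l ∣ o.D * W
      · have e : o.rr W l = 0 := if_neg fun h => (hl.coprime_iff_not_dvd.1 h) q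
        simp only [e, Nat.cast_zero, zero_div, add_zero]
        exact Real.one_le_exp t1
      · have t2 : Y ≤ l := Nat.ceil_le.1 (not_lt.1 fun e => p (mem_filter.2 ⟨mem_range.2 e, hl, q⟩))
        have t3 : 2 * n ≤ l := le_of_not_ge fun e => q ((hW l hl e).mul_left _)
        refine (n2 l hl).trans (((hN n r o l ok hl).2.2.2 t3).2.trans (Real.exp_le_exp.2 ?_))
        rw [div_right_comm, ← mul_div_assoc]
        have := (one_le_div ly).2 (Real.log_le_log (by linarith) t2)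
        exact div_le_div_of_nonneg_right (le_mul_of_one_le_right (by positivity) this)
          l.cast_nonneg
  rw [prod_mul_distrib, ← Real.exp_sum, sum_add_distrib, ← mul_sum, ← mul_sum, ← sum_div,
    ← prod_filter] at h3
  have h4 : ∏ l ∈ ((range (X + 1)).filter Nat.Prime).filter (· ∈ o.Pr W Y), (1 - nuG o.M l)⁻¹ ≤
      (sd (nuG o.M) (o.Pr W Y))⁻¹ := by
    rw [sd, ← prod_inv_distrib]
    exact prod_le_prod_of_subset_of_one_le (fun l hl => (mem_filter.1 hl).2)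
      (fun l hl => (inv_pos.2 (n1 l (pP l (mem_filter.1 hl).2))).le) fun l hl _ =>
      (one_le_inv₀ (n1 l (pP l hl))).2 (sub_le_self _ (hN n r o l ok (pP l hl)).1)
  have h5 : ∑ l ∈ (range (X + 1)).filter Nat.Prime, ((l : ℝ) ^ 2)⁻¹ ≤ 2 :=
    (sum_le_sum_of_subset_of_nonneg (t := Ioo 0 (X + 1)) (fun l hl => mem_Ioo.2
      ⟨(mem_filter.1 hl).2.pos, mem_range.1 (mem_filter.1 hl).1⟩) fun _ _ _ => by positivity).trans
      ((sum_Ioo_inv_sq_le 0 (X + 1)).trans (by simp))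
  have h6 := hC X (by linarith)
  rw [Nat.floor_natCast] at h6
  have h7 := (div_le_iff₀ ly).2 (h6.trans ((mul_le_mul_of_nonneg_left l2 (by linarith)).trans_eq
    (mul_assoc _ _ _).symm))
  have h8 := h3.trans (mul_le_mul (Real.exp_le_exp.2 (add_le_add
    (mul_le_mul_of_nonneg_left h5 c0) (mul_le_mul_of_nonneg_left h7 (by positivity)))) h4
    (prod_nonneg fun l hl => (inv_pos.2 (n1 l (pP l (mem_filter.1 hl).2))).le)
    (Real.exp_pos _).le)
  rw [← le_div_iff₀ s0]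
  calc _ ≤ (∑ m ∈ Icc 1 X, (o.rr W m : ℝ)) * Real.log X := by gcongr
    _ ≤ H * X * ∑ m ∈ Icc 1 X, (o.rr W m : ℝ) / m := h2
    _ ≤ H * X * (Real.exp (c * 2 + 2 * n * (C * a)) * (sd (nuG o.M) (o.Pr W Y))⁻¹) := by gcongr
    _ = _ := by ring

end Pool.Agent.MP_f3836a_nt.GV.C
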