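import Pool.Agent.MP_f3836a_nt.GV.SpecC2

/-! Row GCHens: characters which come from level `W`. -/

set_option autoImplicit false

namespace Pool.Agent.MP_f3836a_nt.GV.C

open Finset

namespace GCHens

theorem pow_exp {R : Type} [CommRing R] (x : R) (n : ℕ) :
    ∃ y, (1 + x) ^ n = 1 + n * x + x ^ 2 * y := by
  induction n with
  | zero => exact ⟨0, by simp⟩
  | succ n ih =>
    obtain ⟨y, hy⟩ := ih
    exact ⟨y + n + x * y, by rw [pow_succ, hy]; push_cast; ring⟩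

variable {n r : ℕ} [NeZero n] {o : Od n r}

omit [NeZero n] in
theorem cp_one (Q : ℕ) : o.Cp Q 1 := by simp [Od.Cp, o.nm_one]

theorem cp_of (hA : BaaS) (ho : o.Ok) {Q m : ℕ} {c : o.A} (h : (m : o.A) ∣ c - 1)
    (hm : ∀ l : ℕ, l.Prime → l ∣ Q → l ∣ m) : o.Cp Q c := by
  refine Nat.coprime_of_dvd fun l hl h1 h2 => ?_
  have h3 := ((hA n r o ho).2.2.2.2.2.2.1 m 1 c h).of_dvd (hm l hl h2)
  rw [o.nm_one] at h3
  exact hl.not_dvd_one ((h3.dvd_iff dvd_rfl).1 h1)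

/-- the character is trivial on the elements which are `1` modulo `W m` -/
def PP {Q : ℕ} (χ : AddChar (o.RC Q) ℂ) (W m : ℕ) : Prop :=
  ∀ c : o.A, o.Cp Q c → ((W * m : ℕ) : o.A) ∣ c - 1 → χ (o.io Q c) = 1

variable {Q W : ℕ} {χ : AddChar (o.RC Q) ℂ} (hA : BaaS) (hB : BabS) (ho : o.Ok) (hQ : 0 < Q)
include hB ho hQ

theorem io_one : o.io Q 1 = 0 := by
  rw [((hB n r o Q ho hQ).2.1 1 (o.pm_one Q)).2, o.pr_one, o.cI_one]

theorem chi_pow {d : o.A} (hd : o.Cp Q d) (k : ℕ) :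
    o.Cp Q (d ^ k) ∧ χ (o.io Q (d ^ k)) = χ (o.io Q d) ^ k := by
  induction k with
  | zero => exact ⟨by simpa using cp_one Q, by simp [io_one hB ho hQ]⟩
  | succ k ih =>
    obtain ⟨h1, h2⟩ := (hB n r o Q ho hQ).2.2.2.1 _ _ ih.1 hd
    rw [pow_succ, h2, AddChar.map_add_eq_mul, ih.2, pow_succ]
    exact ⟨h1, rfl⟩

theorem base {m : ℕ} (h : Q ∣ W * m) : PP χ W m := fun c _ hc => by
  rw [((hB n r o Q ho hQ).2.2.1 1 c (cp_one Q) ((Nat.cast_dvd_cast h).trans hc)).2]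
  simp [io_one hB ho hQ]

theorem drop {l m : ℕ} (hl : l.Prime)
    (h0 : ∀ c : o.A, o.Cp Q c → ((ordCompl[l] Q : ℕ) : o.A) ∣ c - 1 → χ (o.io Q c) = 1)
    (h : PP χ W (ordProj[l] Q * m)) : PP χ W m := by
  rintro c hc ⟨s, hs⟩
  obtain ⟨a, b, hab⟩ := Nat.Coprime.cast (R := o.A)
    ((Nat.coprime_ordCompl hl hQ.ne').pow_left (Q.factorization l))
  have hQ' : (Q : o.A) = (ordProj[l] Q : ℕ) * (ordCompl[l] Q : ℕ) := by
    rw [← Nat.cast_mul, Nat.ordProj_mul_ordCompl_eq_self]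
  generalize ordCompl[l] Q = v at *
  generalize ordProj[l] Q = u at *
  obtain ⟨h1, h2⟩ := (hB n r o Q ho hQ).2.2.1 c
    ((1 + (c - 1) * (b * v)) * (1 + (c - 1) * (a * u))) hc ⟨(c - 1) ^ 2 * a * b, by
      rw [hQ']
      linear_combination (c - 1) * hab⟩
  have h3 := h1
  rw [Od.Cp, o.nm_mul, Nat.coprime_mul_iff_left] at h3
  rw [← h2, ((hB n r o Q ho hQ).2.2.2.1 _ _ h3.1 h3.2).2, AddChar.map_add_eq_mul,
    h0 _ h3.1 ⟨(c - 1) * b, by ring⟩, h _ h3.2 ⟨s * a, by rw [hs]; push_cast; ring⟩, mul_one]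

include hA

theorem lift {N W1 m : ℕ} (hW : W = N ^ 2 * W1) (hN : ∀ g, χ g ^ N = 1)
    (hm : ∀ l : ℕ, l.Prime → l ∣ Q → l ∣ W1 * m) (h : PP χ W (W1 * m)) : PP χ W m := by
  rintro c hc ⟨s, hs⟩
  rw [sub_eq_iff_eq_add] at hs
  obtain ⟨h1, h2⟩ := chi_pow (χ := χ) hB ho hQ (cp_of hA ho
    (c := 1 + -((N : o.A) * (W1 : o.A) * (m : o.A) * s)) ⟨-(N * s), by push_cast; ring⟩ hm) N
  obtain ⟨h3, h4⟩ := (hB n r o Q ho hQ).2.2.2.1 _ _ hc h1
  obtain ⟨y, hy⟩ := pow_exp (-((N : o.A) * W1 * m * s)) N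
  have h5 := h _ h3 ⟨c * m * s ^ 2 * y - N ^ 2 * m * s ^ 2, by
    rw [hy, hs, hW]
    push_cast
    ring⟩
  rwa [h4, AddChar.map_add_eq_mul, h2, hN, mul_one] at h5

theorem key {N : ℕ} (hW : HWn n N W) (hN : ∀ g, χ g ^ N = 1)
    (h0 : ∀ (l : ℕ) (c : o.A), l.Prime → ¬l ∣ W → o.Cp Q c →
      ((ordCompl[l] Q : ℕ) : o.A) ∣ c - 1 → χ (o.io Q c) = 1) : PP χ W 1 := by
  obtain ⟨-, -, W1, hW, hr⟩ := hW
  have h1 : ∀ s : Finset ℕ, (∀ l ∈ s, l.Prime ∧ ¬l ∣ W) → PP χ W (∏ l ∈ s, ordProj[l] Q) →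
      PP χ W 1 := fun s => by
    induction s using Finset.induction_on with
    | empty => simp
    | insert l s hl ih =>
      intro hs h
      rw [prod_insert hl] at h
      obtain ⟨h2, h3⟩ := hs l (mem_insert_self _ _)
      exact ih (fun l hl => hs l (mem_insert_of_mem hl))
        (drop hB ho hQ h2 (fun c => h0 l c h2 h3) h)
  refine h1 (Q.primeFactors.filter fun l => ¬l ∣ W)
    (fun l hl => ⟨Nat.prime_of_mem_primeFactors (mem_filter.1 hl).1, (mem_filter.1 hl).2⟩) ?_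
  have h2 : ∀ l k : ℕ, l.Prime → ¬l ∣ W → l ^ k ∣ Q →
      l ^ k ∣ ∏ l ∈ Q.primeFactors.filter fun l => ¬l ∣ W, ordProj[l] Q := fun l k hl h h' => by
    rcases Nat.eq_zero_or_pos k with rfl | hk
    · simp
    exact ((hl.pow_dvd_iff_dvd_ordProj hQ.ne').1 h').trans (dvd_prod_of_mem _ (mem_filter.2
      ⟨Nat.mem_primeFactors.2 ⟨hl, (dvd_pow_self l hk.ne').trans h', hQ.ne'⟩, h⟩))
  generalize ∏ l ∈ Q.primeFactors.filter fun l => ¬l ∣ W, ordProj[l] Q = m at h2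
  have h3 : ∀ i : ℕ, PP χ W (W1 ^ i * m) → PP χ W m := fun i => by
    induction i with
    | zero => simp
    | succ i ih =>
      intro h
      rw [pow_succ', mul_assoc] at h
      refine ih (lift hA hB ho hQ hW hN (fun l hl hq => ?_) h)
      by_cases h4 : l ∣ W
      · exact (hr l hl h4).mul_right _
      · exact (((pow_one l).symm.dvd.trans (h2 l 1 hl h4 (by simpa))).mul_left _).mul_left _
  refine h3 Q (base hB ho hQ ((Nat.dvd_iff_prime_pow_dvd_dvd _ _).2 fun l k hl h => ?_))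
  by_cases h4 : l ∣ W
  · exact ((pow_dvd_pow_of_dvd_of_le (hr l hl h4)
      ((Nat.lt_pow_self hl.one_lt).le.trans (Nat.le_of_dvd hQ h))).mul_right _).mul_left _
  · exact ((h2 l k hl h4 h).mul_left _).mul_left _

end GCHens

theorem rHens : OfHens := by
  classical
  intro hA hB n r _ o N W Q π χ ho hW _ hQ hπ hN h0
  have h1 : ∀ g g', π g = π g' → χ g = χ g' := fun g g' h => by
    obtain ⟨c, h2, h3, e⟩ := (hπ.ker (g - g')).1 (by rw [map_sub, h, sub_self])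
    rw [← sub_add_cancel g g', AddChar.map_add_eq_mul, e,
      GCHens.key hA hB ho hQ hW hN h0 c h3 (by rwa [mul_one]), one_mul]
  refine ⟨⟨fun g => χ (Function.surjInv hπ.surj g), ?_, fun a b => ?_⟩, fun g => h1 _ _ ?_⟩
  · exact (h1 _ 0 (by rw [Function.surjInv_eq hπ.surj, map_zero])).trans χ.map_zero_eq_one
  · rw [← AddChar.map_add_eq_mul]
    exact h1 _ _ (by simp only [map_add, Function.surjInv_eq])
  · exact (Function.surjInv_eq hπ.surj _).symm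

end Pool.Agent.MP_f3836a_nt.GV.C
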