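import Pool.Agent.MP_f3836a_nt.GV.SpecC1

/-! The inequality of Hall and Tenenbaum with polynomial growth at prime powers. -/

set_option autoImplicit false

namespace Pool.Agent.MP_f3836a_nt.GV.C

open Finset

namespace GCHt

theorem bnd (n : ℕ) : ∃ B : ℝ, 0 ≤ B ∧ ∀ l j : ℕ, 2 ≤ l →
    ((j : ℝ) + 1) ^ n ≤ B * (2 * (l : ℝ) ^ (j / 2)) := by
  have lp : 0 < Real.log 2 := Real.log_pos one_lt_two
  refine ⟨(2 / Real.log 2) ^ n * n.factorial, by positivity, fun l j hl => ?_⟩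
  have a := Real.pow_div_factorial_le_exp ((((j / 2 + 1 : ℕ)) : ℝ) * Real.log 2) (by positivity) n
  rw [Real.exp_nat_mul, Real.exp_log two_pos, div_le_iff₀ (by positivity)] at a
  have b : (2 : ℝ) ^ (j / 2 + 1) ≤ 2 * (l : ℝ) ^ (j / 2) := by
    rw [pow_succ']
    have : (2 : ℝ) ≤ l := by exact_mod_cast hl
    gcongr
  have c : (j : ℝ) + 1 ≤ 2 / Real.log 2 * (((j / 2 + 1 : ℕ) : ℝ) * Real.log 2) := by
    have : ((j + 1 : ℕ) : ℝ) ≤ ((2 * (j / 2 + 1) : ℕ) : ℝ) := Nat.cast_le.2 (by omega)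
    rw [Nat.cast_mul, Nat.cast_add j 1] at this
    have e : 2 / Real.log 2 * (((j / 2 + 1 : ℕ) : ℝ) * Real.log 2) =
        2 * ((j / 2 + 1 : ℕ) : ℝ) := by field_simp
    rw [e]
    simpa using this
  calc ((j : ℝ) + 1) ^ n ≤ (2 / Real.log 2 * (((j / 2 + 1 : ℕ) : ℝ) * Real.log 2)) ^ n := by
        gcongr
    _ = (2 / Real.log 2) ^ n * (((j / 2 + 1 : ℕ) : ℝ) * Real.log 2) ^ n := mul_pow _ _ _
    _ ≤ (2 / Real.log 2) ^ n * (2 * (l : ℝ) ^ (j / 2) * n.factorial) := by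
        gcongr
        exact a.trans (by gcongr)
    _ = _ := by ring

end GCHt

theorem rHt : OfHt := by
  rintro ⟨C, C0, hC⟩ n₀
  obtain ⟨B, B0, hB⟩ := GCHt.bnd n₀
  refine ⟨B * C + 1, by positivity, fun r X hX r0 hm hp₀ => ?_⟩
  have hp : ∀ l j : ℕ, l.Prime → r (l ^ j) ≤ B * (2 * (l : ℝ) ^ (j / 2)) := fun l j pl =>
    (hp₀ l j pl).trans (hB l j pl.two_le)
  let w : ℕ → ℕ → ℝ := fun l j => B * (2 * (l : ℝ) ^ (j / 2) * (j * Real.log l))
  let T : Finset (Σ _ : ℕ, Σ _ : ℕ, ℕ) := (Icc 1 X).sigma fun m =>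
    ((range (X / m + 1)).filter Nat.Prime).sigma fun l =>
      (Icc 1 (X / m)).filter fun j => l ^ j ≤ X / m
  let φ : (Σ _ : ℕ, ℕ) → Σ _ : ℕ, Σ _ : ℕ, ℕ := fun p =>
    ⟨ordCompl[p.2] p.1, p.2, p.1.factorization p.2⟩
  have inj : Function.Injective φ := by
    rintro ⟨n, l⟩ ⟨n', l'⟩ h
    simp only [φ, Sigma.mk.injEq, heq_eq_eq] at h
    obtain ⟨h1, rfl, h2⟩ := h
    rw [← Nat.ordProj_mul_ordCompl_eq_self n l, h1, h2, Nat.ordProj_mul_ordCompl_eq_self]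
  have h1 : ∑ n ∈ Icc 1 X, r n * Real.log n ≤
      ∑ p ∈ (Icc 1 X).sigma Nat.primeFactors, r (φ p).1 * w (φ p).2.1 (φ p).2.2 := by
    rw [sum_sigma]
    refine sum_le_sum fun n hn => ?_
    rw [Real.log_nat_eq_sum_factorization, Finsupp.sum, Nat.support_factorization, mul_sum]
    refine sum_le_sum fun l hl => ?_
    have pl := Nat.prime_of_mem_primeFactors hl
    have a := hm _ _ ((Nat.coprime_ordCompl pl (Nat.one_le_iff_ne_zero.1 (mem_Icc.1 hn).1)).pow_left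
      (n.factorization l))
    rw [Nat.ordProj_mul_ordCompl_eq_self] at a
    have b := a.trans (mul_le_mul_of_nonneg_right (hp l _ pl) (r0 _))
    have c : 0 ≤ (n.factorization l : ℝ) * Real.log l := by positivity
    simp only [φ, w]
    nlinarith [mul_le_mul_of_nonneg_right b c]
  have h2 : ∑ p ∈ (Icc 1 X).sigma Nat.primeFactors, r (φ p).1 * w (φ p).2.1 (φ p).2.2 ≤
      ∑ q ∈ T, r q.1 * w q.2.1 q.2.2 := by
    rw [← sum_image (f := fun q : Σ _ : ℕ, Σ _ : ℕ, ℕ => r q.1 * w q.2.1 q.2.2) inj.injOn]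
    refine sum_le_sum_of_subset_of_nonneg (fun q hq => ?_) fun q _ _ =>
      mul_nonneg (r0 _) (by positivity)
    obtain ⟨⟨n, l⟩, hp, rfl⟩ := mem_image.1 hq
    simp only [mem_sigma, mem_Icc, Nat.mem_primeFactors] at hp
    obtain ⟨⟨n1, n2⟩, pl, dl, n0⟩ := hp
    have m0 := Nat.ordCompl_pos l n0
    have j0 := pl.factorization_pos_of_dvd n0 dl
    have k : l ^ n.factorization l ≤ X / ordCompl[l] n := by
      rw [Nat.le_div_iff_mul_le m0, Nat.ordProj_mul_ordCompl_eq_self]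
      exact n2
    simp only [T, φ, mem_sigma, mem_Icc, mem_filter, mem_range]
    exact ⟨⟨m0, (Nat.ordCompl_le n l).trans n2⟩,
      ⟨Nat.lt_succ_of_le ((Nat.le_self_pow j0.ne' l).trans k), pl⟩,
      ⟨j0, (Nat.lt_pow_self pl.one_lt).le.trans k⟩, k⟩
  have h3 : ∑ q ∈ T, r q.1 * w q.2.1 q.2.2 ≤ B * C * X * ∑ n ∈ Icc 1 X, r n / n := by
    rw [sum_sigma, mul_sum]
    refine sum_le_sum fun m _ => ?_
    simp only [w, ← mul_sum]
    rw [sum_sigma]
    have a := (hC (X / m)).trans (mul_le_mul_of_nonneg_left Nat.cast_div_le C0)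
    refine (mul_le_mul_of_nonneg_left (mul_le_mul_of_nonneg_left a B0) (r0 m)).trans_eq ?_
    ring
  have h4 : (∑ n ∈ Icc 1 X, r n) * Real.log X ≤
      ∑ n ∈ Icc 1 X, r n * Real.log n + X * ∑ n ∈ Icc 1 X, r n / n := by
    rw [sum_mul, mul_sum, ← sum_add_distrib]
    refine sum_le_sum fun n hn => ?_
    have n0 : (0 : ℝ) < n := Nat.cast_pos.2 (mem_Icc.1 hn).1
    have X0 : (0 : ℝ) < X := Nat.cast_pos.2 (by omega)
    have a := Real.log_le_self (div_pos X0 n0).le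
    rw [Real.log_div X0.ne' n0.ne'] at a
    have b := mul_le_mul_of_nonneg_left a (r0 n)
    rw [mul_div_left_comm]
    linarith
  linarith

end Pool.Agent.MP_f3836a_nt.GV.C
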