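import Pool.Agent.MP_f3836a_nt.GV.SpecC2

set_option autoImplicit false

namespace Pool.Agent.MP_f3836a_nt.GV.C

open NumberField

theorem rIdb : IdbS := by
  intro n r _ o I ho hI
  have := Module.Free.of_basis o.y
  have := Module.Finite.of_basis o.y
  let f : o.A →+ 𝓞 o.L ⧸ I := ((Ideal.Quotient.mk I).comp o.inc).toAddMonoidHom
  have hf : Function.Surjective f := by
    intro x
    obtain ⟨x, rfl⟩ := Ideal.Quotient.mk_surjective x
    obtain ⟨a, ha⟩ := ho.cond x
    obtain ⟨u, v, h⟩ := Nat.isCoprime_iff_coprime.2 (by simpa using hI.2 :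
      (Ideal.absNorm I).Coprime o.D)
    have h1 := congrArg (Int.cast : ℤ → 𝓞 o.L) h
    push_cast at h1
    refine ⟨v * a, Ideal.Quotient.eq.2 ?_⟩
    have h2 : o.inc (v * a) - x = -(u * x) * Ideal.absNorm I := by
      rw [map_mul, map_intCast, ha]
      linear_combination x * h1
    rw [h2]
    exact I.mul_mem_left _ (Ideal.absNorm_mem I)
  have hi : f.ker.index = Ideal.absNorm I := by
    rw [AddSubgroup.index_ker, AddMonoidHom.range_eq_top.2 hf, AddSubgroup.card_top,
      Ideal.absNorm_apply, Submodule.cardQuot_apply]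
  have hr : Module.finrank ℤ f.ker.toIntSubmodule = n := by
    have : Finite (o.A ⧸ f.ker.toIntSubmodule) :=
      Nat.finite_of_card_ne_zero (show f.ker.index ≠ 0 from hi ▸ hI.1)
    rw [(Submodule.finiteQuotient_iff _).1 this, Module.finrank_eq_card_basis o.y, Fintype.card_fin]
  let b := f.ker.toIntSubmodule.subtype.comp
    (Module.finBasisOfFinrankEq ℤ _ hr).equivFun.symm.toLinearMap
  have hb : b.toAddMonoidHom.range = f.ker := by
    ext a
    refine ⟨?_, fun h => ⟨(Module.finBasisOfFinrankEq ℤ _ hr).equivFun ⟨a, h⟩, by simp [b]⟩⟩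
    rintro ⟨x, rfl⟩
    exact ((Module.finBasisOfFinrankEq ℤ _ hr).equivFun.symm x).2
  refine ⟨b.toAddMonoidHom, Subtype.val_injective.comp (LinearEquiv.injective _), fun γ => ?_,
    hb ▸ hi⟩
  rw [hb]
  exact Ideal.Quotient.eq_zero_iff_mem.symm

end Pool.Agent.MP_f3836a_nt.GV.C
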