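import Pool.Agent.MP_f3836a_nt.GV.SpecC1

/-! Block C: Riemann sums with a periodic factor. -/

set_option autoImplicit false

namespace Pool.Agent.MP_f3836a_nt.GV.C

open Finset MeasureTheory

namespace GCRsq

variable {n r q : ℕ}

/-- the residue -/
def md (q : ℕ) (v : Fin n → ℤ) : Fin n → ℤ := fun i => v i % q

/-- the quotient -/
def dv (q : ℕ) (v : Fin n → ℤ) : Fin n → ℤ := fun i => v i / q

theorem split (v : Fin n → ℤ) : md q v + (q : ℤ) • dv q v = v :=
  funext fun i => Int.emod_add_mul_ediv (v i) q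

theorem md_mem (hq : 0 < q) (v : Fin n → ℤ) : md q v ∈ box n q :=
  Fintype.mem_piFinset.2 fun i => mem_Ico.2
    ⟨Int.emod_nonneg _ (by positivity), Int.emod_lt_of_pos _ (by positivity)⟩

theorem uniq (hq : 0 < q) {x : Fin n → ℤ} (hx : x ∈ box n q) (y : Fin n → ℤ) :
    md q (x + (q : ℤ) • y) = x ∧ dv q (x + (q : ℤ) • y) = y := by
  have h := fun i => mem_Ico.1 (Fintype.mem_piFinset.1 hx i)
  have := fun i => (Int.ediv_emod_unique (a := x i + q * y i) (r := x i) (q := y i)
    (by positivity : (0 : ℤ) < q)).2 ⟨rfl, (h i).1, (h i).2⟩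
  exact ⟨funext fun i => (this i).2, funext fun i => (this i).1⟩

theorem sub (hS : SubS) {g : (Fin n → ℤ) →+ E r} {V ρ : ℝ} (hg : Lt g V ρ)
    (hq : 0 < q) : Lt (g.comp (nsmulAddMonoidHom q)) (q ^ n * V) (q * ρ) := by
  have q0 : (0 : ℝ) < q := by positivity
  have := (hS r _ _ g (nsmulAddMonoidHom q) V ρ (q * ρ) hg
    (nsmul_right_injective hq.ne') fun x => ?_).2
  · simpa [AddSubgroup.index_range_nsmul] using this
  · obtain ⟨v, hv⟩ := hg.cov ((q : ℝ)⁻¹ • x)
    refine ⟨v, ?_⟩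
    have e : x - g (nsmulAddMonoidHom q v) = (q : ℝ) • ((q : ℝ)⁻¹ • x - g v) := by
      rw [smul_sub, smul_inv_smul₀ q0.ne', nsmulAddMonoidHom_apply, map_nsmul,
        Nat.cast_smul_eq_nsmul]
    rw [e, norm_smul, Real.norm_of_nonneg q0.le]
    gcongr

end GCRsq

open GCRsq in
theorem rRsq : OfRsq := by
  classical
  intro hR hS n r q g V ρ K R c Φ f S hg hq hf f1 hΦ hs
  have q0 : (0 : ℝ) < (q : ℝ) ^ n := by positivity
  have q1 : (q : ℂ) ^ n ≠ 0 := by exact_mod_cast q0.ne'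
  have key : ∀ x ∈ box n q, |q ^ n * V * ∑ v ∈ S with md q v = x, Φ (g v) - ∫ y, Φ y| ≤
      K * (q * ρ) * vb r (R + 2 * (q * ρ)) := by
    intro x hx
    have := (hR r _ _ _ _ (sub hS hg hq)).2.2.2.2.2 (fun y => Φ (g x + y)) K R (c - g x)
      ((S.filter fun v => md q v = x).image (dv q))
      ⟨hΦ.pos, fun y z => by simpa using hΦ.lip (g x + y) (g x + z), fun y hy => by
        have := hΦ.sup _ hy
        rwa [show y - (c - g x) = g x + y - c by abel]⟩ fun y hy => ?_
    · rw [integral_add_left_eq_self, sum_image fun v hv w hw e => by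
        rw [← split (q := q) v, ← split (q := q) w, e, (mem_filter.1 hv).2,
          (mem_filter.1 hw).2]] at this
      rw [← sum_congr rfl fun v hv => ?_]
      · exact this
      · rw [← (mem_filter.1 hv).2, AddMonoidHom.comp_apply, nsmulAddMonoidHom_apply, ← map_add,
          ← natCast_zsmul, split]
    · rw [AddMonoidHom.comp_apply, nsmulAddMonoidHom_apply, ← map_add, ← natCast_zsmul] at hy
      exact mem_image.2 ⟨_, mem_filter.2 ⟨hs _ hy, (uniq hq hx y).1⟩, (uniq hq hx y).2⟩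
  have e : V * ∑ v ∈ S, Φ (g v) * f v - mean q f * (∫ x, Φ x : ℝ) = (∑ x ∈ box n q, f x *
      (q ^ n * V * ∑ v ∈ S with md q v = x, Φ (g v) - ∫ y, Φ y : ℝ)) / (q : ℂ) ^ n := by
    rw [← sum_fiberwise_of_maps_to (fun v _ => md_mem hq v : ∀ v ∈ S, md q v ∈ box n q), mean,
      mul_sum, sum_div, sum_mul, ← sum_sub_distrib, sum_div]
    refine sum_congr rfl fun x _ => ?_
    rw [sum_congr rfl fun v hv => (?_ : Φ (g v) * f v = Φ (g v) * f x), ← sum_mul]
    · push_cast
      field_simp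
    · rw [← (mem_filter.1 hv).2, ← hf (md q v) (dv q v), split]
  rw [e, norm_div, norm_pow, Complex.norm_natCast, div_le_iff₀ q0]
  refine (norm_sum_le _ _).trans ((sum_le_card_nsmul _ _ (K * (q * ρ) * vb r (R + 2 * (q * ρ)))
    fun x hx => ?_).trans_eq ?_)
  · rw [norm_mul, Complex.norm_real, Real.norm_eq_abs]
    exact (mul_le_of_le_one_left (abs_nonneg _) (f1 x)).trans (key x hx)
  · simp [box, mul_comm]

end Pool.Agent.MP_f3836a_nt.GV.C
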