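import Pool.Agent.MP_f3836a_nt.GV.SpecC2
import Pool.Agent.MP_f3836a_nt.GV.GCRsq

/-! Block C: ideal lattices are well rounded. -/

set_option autoImplicit false

namespace Pool.Agent.MP_f3836a_nt.GV.C

open NumberField

namespace GCIdg

theorem cov (hS : SubS) {n r : ℕ} {o : Od n r} {I : Ideal (𝓞 o.L)} {b : (Fin n → ℤ) →+ o.A}
    {ρ t : ℝ} (h : Lt o.em.toAddMonoidHom o.V0 ρ) (hb : o.IsB I b) {α : o.A} (h1 : o.inc α ∈ I)
    (h2 : ∀ w, o.em α w ≠ 0) (h3 : ‖o.em α‖ ≤ t) :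
    Lt (o.em.toAddMonoidHom.comp b) (Ideal.absNorm I * o.V0) (t * ρ) := by
  refine hb.idx ▸ (hS r _ _ _ b _ _ _ h hb.inj fun x => ?_).2
  obtain ⟨a, ha⟩ := h.cov fun w => x w / o.em α w
  obtain ⟨v, hv⟩ := (hb.mem (α * a)).1 (by rw [map_mul]; exact I.mul_mem_right _ h1)
  refine ⟨v, ?_⟩
  have e : x - o.em.toAddMonoidHom (b v) =
      o.em α * ((fun w => x w / o.em α w) - o.em.toAddMonoidHom a) := by
    funext w
    simp [hv, mul_sub, mul_div_cancel₀ _ (h2 w)]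
  rw [e]
  exact (norm_mul_le _ _).trans (mul_le_mul h3 ha (norm_nonneg _) ((norm_nonneg _).trans h3))

end GCIdg

open GCIdg in
theorem rIdg : OfIdg := by
  intro hR hM hS hB hO n r _ o B s Q I b ok sz hQ hI hb s0 hs
  have L0 := hO n r o B ok sz
  obtain ⟨v0, b0, v1, -⟩ := hR r _ _ _ _ L0
  obtain ⟨r1, -, ne, -⟩ := hB n r o ok
  have N0 : (0 : ℝ) < Ideal.absNorm I := Nat.cast_pos.2 (Nat.pos_of_ne_zero hI.1)
  have L1 := cov hS L0 hb (α := Ideal.absNorm I) (by rw [map_natCast]; exact I.absNorm_mem)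
    (fun w => by simpa using hI.1) le_rfl
  obtain ⟨v, hv, h⟩ := (hM r _ _ _ _ L1).2 (3 * (n * B) * s) (by positivity) (by
    have e : vb r (3 * (n * B) * s) = 9 ^ r * (s ^ n * vb r (n * B)) := by
      have : s ^ n = (s ^ 2) ^ r := by rw [← pow_mul, ← ok.two]
      rw [this, vb, vb, ← mul_pow, ← mul_pow]
      congr 1
      ring
    rw [e]
    exact mul_lt_mul (pow_lt_pow_left₀ (by norm_num) (by norm_num) (by omega))
      (mul_le_mul hs v1 v0.le (N0.le.trans hs)) (by positivity) (by positivity))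
  have L2 := GCRsq.sub hS (cov hS L0 hb ((hb.mem _).2 ⟨v, rfl⟩)
    (ne _ fun e => hv (hb.inj (e.trans b.map_zero.symm))).2 h) hQ
  convert L2 using 1
  · exact AddMonoidHom.ext fun x => congrArg o.em (by
      rw [nsmulAddMonoidHom_apply, map_nsmul, nsmul_eq_mul]; rfl)
  · ring
  · ring

end Pool.Agent.MP_f3836a_nt.GV.C
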