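import Pool.Agent.MP_f3836a_nt.GV.SpecC2

/-! The kernel of the change of level. -/

set_option autoImplicit false

namespace Pool.Agent.MP_f3836a_nt.GV.C

open Finset NumberField VE

namespace GCKer

theorem cnt {G A B : Type} [AddCommGroup G] [AddCommGroup A] [AddCommGroup B] (H : AddSubgroup G)
    (f : G →+ A) (φ : B →+ G) (h : φ.range = f.ker ⊓ H) :
    Nat.card (H.map f) * φ.ker.index = Nat.card H := by
  rw [AddSubgroup.index_ker, h, ← AddSubgroup.relIndex_ker, ← AddSubgroup.inf_relIndex_right,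
    ← Nat.card_congr (AddSubgroup.addSubgroupOfEquivOfLe (inf_le_right : f.ker ⊓ H ≤ H)).toEquiv]
  exact AddSubgroup.index_mul_card _

end GCKer

theorem rKer : OfKer := by
  intro hA hB n r _ o W Q π ok hW hQ hπ
  classical
  obtain ⟨-, inj, -, -, -, -, -, cp, -, dv, -⟩ := hA n r o ok
  obtain ⟨-, -, b3, b4, b5, b6⟩ := hB n r o Q ok hQ
  have hW' : (W : o.A) ∣ Q := Nat.cast_dvd_cast hW
  obtain ⟨mk, hmk⟩ : ∃ mk, mk = Ideal.Quotient.mk (Ideal.span {(Q : o.A)}) := ⟨_, rfl⟩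
  have mq : ∀ a b, mk a = mk b ↔ (Q : o.A) ∣ a - b := fun a b => by
    rw [hmk, Ideal.Quotient.eq, Ideal.mem_span_singleton]
  have ms : Function.Surjective mk := hmk ▸ Ideal.Quotient.mk_surjective
  choose s hs using id ms
  have un : ∀ c, o.Cp Q c ↔ IsUnit (mk c) := fun c => by
    rw [cp, isUnit_iff_exists_inv, ms.exists]
    exact exists_congr fun d => by rw [← mq, map_mul, map_one]
  have cs : ∀ u : (o.A ⧸ Ideal.span {(Q : o.A)})ˣ, o.Cp Q (s u) := fun u =>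
    (un _).2 (by rw [hs]; exact u.isUnit)
  have io1 : ∀ (u : (o.A ⧸ Ideal.span {(Q : o.A)})ˣ) c, mk c = u → o.io Q (s u) = o.io Q c :=
    fun u c h => (b3 _ _ (cs u) ((mq _ _).1 (by rw [hs, h]))).2.symm
  let f : Additive (o.A ⧸ Ideal.span {(Q : o.A)})ˣ →+ o.RC Q :=
    AddMonoidHom.mk' (fun u => o.io Q (s (u.toMul : (o.A ⧸ Ideal.span {(Q : o.A)})ˣ))) fun u v => by
      rw [← (b4 _ _ (cs _) (cs _)).2]
      exact io1 _ _ (by rw [map_mul, hs, hs, toMul_add, Units.val_mul])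
  have hf : ∀ (u : Additive (o.A ⧸ Ideal.span {(Q : o.A)})ˣ) c, mk c = u.toMul → f u = o.io Q c :=
    fun u c h => io1 _ c h
  have le : Ideal.span {(Q : o.A)} ≤ Ideal.span {(W : o.A)} :=
    Ideal.span_singleton_le_span_singleton.2 hW'
  let H : AddSubgroup (Additive (o.A ⧸ Ideal.span {(Q : o.A)})ˣ) :=
    Subgroup.toAddSubgroup (Units.map (Ideal.Quotient.factor le).toMonoidHom).ker
  have hH : ∀ (u : Additive (o.A ⧸ Ideal.span {(Q : o.A)})ˣ) c, mk c = u.toMul →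
      (u ∈ H ↔ (W : o.A) ∣ c - 1) := fun u c h => by
    rw [← Ideal.mem_span_singleton, ← Ideal.Quotient.eq, map_one, ← Ideal.Quotient.factor_mk le,
      ← hmk, h]
    exact Units.ext_iff
  have ex : ∀ ξ : o.LQ W, ∃ ε : o.Aˣ, (W : o.A) ∣ ε - 1 ∧
    ∀ w, Complex.exp (ξ.1 w) = o.em ε w := fun ξ => ξ.2
  choose e e1 e2 using ex
  have eu : ∀ (ξ : o.LQ W) (ε : o.Aˣ), (∀ w, Complex.exp (ξ.1 w) = o.em ε w) → e ξ = ε :=
    fun ξ ε h => Units.ext (inj (funext fun w => (e2 ξ w).symm.trans (h w)))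
  let φ : o.LQ W →+ Additive (o.A ⧸ Ideal.span {(Q : o.A)})ˣ :=
    AddMonoidHom.mk' (fun ξ => Additive.ofMul (Units.map mk.toMonoidHom (e ξ))) fun a b => by
      rw [← ofMul_mul, ← map_mul, eu (a + b) (e a * e b) fun w => ?_]
      rw [AddSubgroup.coe_add, Pi.add_apply, Complex.exp_add, e2, e2, Units.val_mul, map_mul,
        Pi.mul_apply]
  have hφ : ∀ ξ, mk (e ξ) = (φ ξ).toMul := fun ξ => rfl
  have k1 : H.map f = π.ker := by
    ext g
    rw [AddMonoidHom.mem_ker, hπ.ker]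
    refine ⟨fun ⟨u, hu, h⟩ => ⟨s _, (hH u _ (hs _)).1 hu, cs _, h.symm⟩, fun ⟨c, h1, h2, h⟩ => ?_⟩
    obtain ⟨u, hu⟩ := (un c).1 h2
    exact ⟨.ofMul u, (hH _ c hu.symm).2 h1, (hf _ c hu.symm).trans h.symm⟩
  have k2 : φ.ker = (o.LQ Q).addSubgroupOf (o.LQ W) := by
    ext ξ
    have : φ ξ = 0 ↔ (Q : o.A) ∣ e ξ - 1 := by
      rw [← mq, map_one, hφ]
      exact Units.ext_iff
    rw [AddMonoidHom.mem_ker, this, AddSubgroup.mem_addSubgroupOf]
    exact ⟨fun h => ⟨_, h, e2 ξ⟩, fun ⟨ε, h, h'⟩ => by rwa [eu ξ ε h']⟩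
  have k3 : φ.range = f.ker ⊓ H := by
    ext u
    constructor
    · rintro ⟨ξ, rfl⟩
      refine ⟨?_, (hH _ _ (hφ ξ)).2 (e1 ξ)⟩
      have := (b5 1 (one_mem _) (e ξ) ((un _).2 ((e ξ).isUnit.map mk))).2 ⟨e ξ, by simp, by
        rw [Od.pr, Ideal.span_singleton_eq_top.2 ((e ξ).isUnit.map o.inc), Ideal.one_eq_top]⟩
      exact (hf _ _ (hφ ξ)).trans (this.symm.trans (o.cI_one Q))
    · rintro ⟨h1, h2⟩
      obtain ⟨β, hβ, h⟩ := (b5 1 (one_mem _) _ (cs u.toMul)).1 ((o.cI_one Q).trans (Eq.symm h1))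
      obtain ⟨ε, rfl⟩ := b6 1 β (o.pm_one Q) (o.pr_one.trans h)
      rw [mul_one] at hβ
      have hx : ∀ w, Complex.exp (Complex.log (o.em ε w)) = o.em ε w := fun w =>
        Complex.exp_log (ε.isUnit.map ((Pi.evalRingHom _ w).comp o.em)).ne_zero
      refine ⟨⟨fun w => Complex.log (o.em ε w), ε, ?_, hx⟩, Additive.toMul.injective (Units.ext ?_)⟩
      · simpa using (hW'.trans hβ).add ((hH u _ (hs _)).1 h2)
      · rw [← hφ, eu _ ε hx, (mq _ _).2 hβ, hs]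
  have k4 : (o.US W Q : Set (Fin n → ℤ)).ncard = Set.ncard (SetLike.coe H) := by
    have mu : ∀ v, v ∈ (o.US W Q : Set (Fin n → ℤ)) ↔ (∀ i, 0 ≤ v i ∧ v i < Q) ∧
        (W : o.A) ∣ o.co v - 1 ∧ o.Cp Q (o.co v) := fun v => by simp [Od.US, box]
    refine Set.ncard_congr (fun v hv => .ofMul ((un _).1 ((mu v).1 hv).2.2).unit)
      (fun v hv => (hH _ _ rfl).2 ((mu v).1 hv).2.1) (fun v v' hv hv' h => ?_) fun u hu => ?_
    · have h1 : mk (o.co v) = mk (o.co v') := congrArg (fun u => (Additive.toMul u).val) h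
      rw [mq, ← map_sub, dv] at h1
      refine funext fun i => sub_eq_zero.1 (Int.eq_zero_of_abs_lt_dvd (h1 i) ?_)
      have := ((mu v).1 hv).1 i
      have := ((mu v').1 hv').1 i
      rw [abs_lt]
      omega
    · obtain ⟨β, hβ⟩ := o.co.surjective (s u.toMul)
      have h1 : mk (o.co fun i => β i % Q) = u.toMul := by
        rw [← hs u.toMul, ← hβ, mq, ← map_sub, dv]
        exact fun i => (Int.mod_modEq _ _).symm.dvd
      exact ⟨fun i => β i % Q, (mu _).2 ⟨fun i => ⟨Int.emod_nonneg _ (by omega),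
        Int.emod_lt_of_pos _ (by omega)⟩, (hH u _ h1).1 hu, (un _).2 (h1 ▸ Units.isUnit _)⟩,
        Additive.toMul.injective (Units.ext h1)⟩
  rw [← k1, AddSubgroup.relIndex, ← k2, GCKer.cnt H f φ k3, ← Set.ncard_coe_finset, k4]
  rfl

end Pool.Agent.MP_f3836a_nt.GV.C
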