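import Pool.Agent.MP_f3836a_nt.GV.SpecC2

/-! Existence of logarithms of ideals. -/

set_option autoImplicit false

namespace Pool.Agent.MP_f3836a_nt.GV.C

open Finset NumberField VE Algebra.GrothendieckGroup
open VE.BC (dvd_mul_sub)

namespace GCLam

variable {D : Type} [AddCommGroup D] [DivisibleBy D ℤ]

theorem extG {G H : Type} [CommGroup G] [CommGroup H] (i : G →* H) (f : G →* Multiplicative D)
    (hi : i.ker ≤ f.ker) : ∃ g : H →* Multiplicative D, ∀ a, g (i a) = f a := by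
  obtain ⟨g, hg⟩ := (Module.Baer.of_divisible D).extension_property_addMonoidHom
    (MonoidHom.toAdditive (QuotientGroup.kerLift i)) (QuotientGroup.kerLift_injective i)
    (MonoidHom.toAdditiveLeft (QuotientGroup.lift i.ker f hi))
  exact ⟨MonoidHom.toAdditiveLeft.symm g, fun a =>
    DFunLike.congr_fun hg (.ofMul (QuotientGroup.mk a))⟩

theorem extM {P M : Type} [CommMonoid P] [CommMonoid M] (i : P →* M) (f : P →* Multiplicative D)
    (hi : ∀ a b c, c * i a = c * i b → f a = f b) :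
    ∃ g : M →* Multiplicative D, ∀ a, g (i a) = f a := by
  obtain ⟨g, hg⟩ := extG (lift (of.comp i)) (lift f) fun x hx => by
    rw [MonoidHom.mem_ker, lift_apply, div_eq_one] at hx ⊢
    obtain ⟨c, hc⟩ := ((Localization.monoidOf ⊤).eq_iff_exists).1 hx
    exact hi _ _ _ hc
  have e : ∀ {G : Type} [CommGroup G] (φ : P →* G) (a : P), lift φ (of a) = φ a := fun φ =>
    DFunLike.congr_fun (lift.symm_apply_apply φ)
  exact ⟨g.comp of, fun a => by rw [← e f, ← hg, e]; rfl⟩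

variable {n r : ℕ} (o : Od n r)

/-- elements which are one modulo `Q` -/
def PQ (Q : ℕ) : Submonoid o.A where
  carrier := {a | o.Pm Q a ∧ (Q : o.A) ∣ a - 1}
  mul_mem' h h' := ⟨h.1.mul o h'.1, dvd_mul_sub h.2 h'.2⟩
  one_mem' := ⟨o.pm_one Q, by simp⟩

/-- the logarithm of an element -/
noncomputable def lg (a : o.A) : E r := fun w => Complex.log (o.em a w)

theorem nm_exp [NeZero n] (h : o.Ok) {a b : o.A} {ξ : E r}
    (e : ∀ w, o.em a w * Complex.exp (ξ w) = o.em b w) :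
    (o.nm b : ℝ) = o.nm a * Real.exp (Lg ξ) := by
  rw [h.nrm, h.nrm, Lg, mul_sum, Real.exp_sum, ← prod_mul_distrib]
  refine prod_congr rfl fun w _ => ?_
  rw [← e, norm_mul, Complex.norm_exp, mul_pow, two_mul, Real.exp_add, sq (Real.exp _)]

theorem lg_LQ [NeZero n] (h : o.Ok) {Q : ℕ} {ξ : E r} (e : ξ ∈ o.LQ Q) : Lg ξ = 0 := by
  obtain ⟨ε, -, e⟩ := e
  have h1 := nm_exp o h (a := 1) (b := ε) (ξ := ξ) fun w => by simp [e]
  have h2 := o.nm_mul ε (ε⁻¹ : o.Aˣ)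
  rw [Units.mul_inv, o.nm_one] at h2
  rw [o.nm_one, Nat.eq_one_of_mul_eq_one_right h2.symm, Nat.cast_one, one_mul] at h1
  exact Real.exp_eq_one_iff _ |>.1 h1.symm

theorem key {x y z : E r} {s t u : ℝ} (h : Lg (x - y - z) = 0) (h' : s = t + u) :
    x + (s - Lg x) • e0 r - (y + (t - Lg y) • e0 r) - (z + (u - Lg z) • e0 r) = x - y - z := by
  rw [Lg_sub, Lg_sub, sub_sub, sub_eq_zero] at h
  rw [h, h']
  module

end GCLam

open GCLam in
theorem rLam : OfLam := by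
  classical
  intro hA hB n r _ o Q h hQ
  obtain ⟨r1, -, a3, a4, -, -, -, a8, a9, -⟩ := hA n r o h
  obtain ⟨-, b2, -, -, -, b6⟩ := hB n r o Q h hQ
  have e0' : ∀ a, o.Pm Q a → ∀ w, o.em a w ≠ 0 := fun a ha =>
    (a3 a fun e => ha.1 (by subst e; exact a4)).2
  have el : ∀ a, o.Pm Q a → ∀ w, Complex.exp (lg o a w) = o.em a w := fun a ha w =>
    Complex.exp_log (e0' a ha w)
  have : DivisibleBy (E r ⧸ o.LQ Q) ℤ := divisibleByOfSMulRightSurj _ _ fun {k} hk a => by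
    obtain ⟨x, rfl⟩ := QuotientAddGroup.mk_surjective a
    refine ⟨QuotientAddGroup.mk ((k : ℂ)⁻¹ • x), ?_⟩
    simp only
    rw [← QuotientAddGroup.mk_zsmul, ← Int.cast_smul_eq_zsmul ℂ, smul_inv_smul₀ (by simpa)]
  let i : PQ o Q →* o.MQ Q :=
    { toFun := fun a => ⟨o.pr a, a.2.1⟩
      map_one' := Subtype.ext o.pr_one
      map_mul' := fun a b => Subtype.ext (o.pr_mul a b) }
  let f : PQ o Q →* Multiplicative (E r ⧸ o.LQ Q) :=
    { toFun := fun a => .ofAdd (QuotientAddGroup.mk (lg o a))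
      map_one' := (QuotientAddGroup.eq_zero_iff _).2 ⟨1, by simp, fun w => el 1 (o.pm_one Q) w⟩
      map_mul' := fun a b => QuotientAddGroup.eq_iff_sub_mem.2 ⟨1, by simp, fun w => by
        simp [Complex.exp_sub, Complex.exp_add, el _ (a * b).2.1, el _ a.2.1, el _ b.2.1,
          el _ (a.2.1.mul o b.2.1), e0' _ a.2.1, e0' _ b.2.1]⟩ }
  obtain ⟨g, hg⟩ := extM i f fun a b c e => by
    obtain ⟨ε, hε⟩ := b6 a b a.2.1
      (mul_left_cancel₀ (fun e => c.2.1 (by simp [e])) (congrArg Subtype.val e))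
    refine (QuotientAddGroup.eq_iff_sub_mem.2 ⟨ε, ?_, fun w => ?_⟩ : f b = f a).symm
    · have := (hε ▸ b.2.2 : (Q : o.A) ∣ ε * a - 1).sub (a.2.2.mul_left ε)
      rwa [show (ε * a - 1 - ε * (a - 1) : o.A) = ε - 1 by ring] at this
    · rw [Pi.sub_apply, Complex.exp_sub, el _ a.2.1, el _ b.2.1, hε, map_mul, Pi.mul_apply,
        mul_div_cancel_right₀ _ (e0' _ a.2.1 w)]
  let l : Ideal (𝓞 o.L) → E r := fun I => if h : I ∈ o.MQ Q then (g ⟨I, h⟩).toAdd.out else 0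
  have hl : ∀ I (h : I ∈ o.MQ Q), (l I : E r ⧸ o.LQ Q) = (g ⟨I, h⟩).toAdd := fun I h => by
    simp only [l, dif_pos h, QuotientAddGroup.out_eq']
  have ha : ∀ I ∈ o.MQ Q, ∀ J ∈ o.MQ Q, l (I * J) - l I - l J ∈ o.LQ Q := fun I hI J hJ => by
    rw [sub_sub, ← QuotientAddGroup.eq_iff_sub_mem, QuotientAddGroup.mk_add, hl _ hI, hl _ hJ,
      hl _ (mul_mem hI hJ), ← toAdd_mul, ← map_mul]
    rfl
  have hp : ∀ a : PQ o Q, l (o.pr a) - lg o a ∈ o.LQ Q := fun a =>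
    QuotientAddGroup.eq_iff_sub_mem.1 ((hl _ a.2.1).trans (congrArg Multiplicative.toAdd (hg a)))
  refine ⟨fun I => l I + (Real.log (Ideal.absNorm I) - Lg (l I)) • e0 r, fun I hI J hJ => ?_,
    fun I _ => by rw [Lg_add, Lg_smul, Lg_e0 r1]; ring, fun a b ξ pa pb d e => ?_⟩
  · rw [key (lg_LQ o h (ha I hI J hJ)) (by
      rw [map_mul, Nat.cast_mul, Real.log_mul (Nat.cast_ne_zero.2 hI.1) (Nat.cast_ne_zero.2 hJ.1)])]
    exact ha I hI J hJ
  obtain ⟨c', hc'⟩ := (a8 Q a).1 (b2 a pa).1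
  obtain ⟨c, hc, pc⟩ := a9 Q c' hQ ((a8 Q c').2 ⟨a, mul_comm a c' ▸ hc'⟩)
  have h1 : (Q : o.A) ∣ a * c - 1 := by
    have := hc'.add (hc.mul_left a)
    rwa [show a * c' - 1 + a * (c - c') = a * c - 1 by ring] at this
  have h2 : (Q : o.A) ∣ b * c - 1 := by
    have := h1.add (d.mul_right c)
    rwa [show a * c - 1 + (b - a) * c = b * c - 1 by ring] at this
  have h3 : lg o (b * c) - lg o (a * c) - ξ ∈ o.LQ Q := ⟨1, by simp, fun w => by
    simp [Complex.exp_sub, el _ (pa.mul o pc), el _ (pb.mul o pc), ← e, e0' _ pa, e0' _ pc,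
      mul_div_mul_right]⟩
  have h4 := add_mem (sub_mem (sub_mem (hp ⟨_, pb.mul o pc, h2⟩) (hp ⟨_, pa.mul o pc, h1⟩))
    (sub_mem (ha _ pb _ pc) (ha _ pa _ pc))) h3
  have h5 : l (o.pr b) - l (o.pr a) - ξ ∈ o.LQ Q := by
    convert h4 using 1
    simp only [o.pr_mul]
    abel
  have h6 := key (s := Real.log (o.nm b)) (t := Real.log (o.nm a)) (u := Lg ξ) (lg_LQ o h h5) (by
    rw [nm_exp o h e, Real.log_mul (x := o.nm a) (Nat.cast_ne_zero.2 pa.1) (Real.exp_pos _).ne',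
      Real.log_exp])
  rw [sub_self, zero_smul, add_zero] at h6
  exact h6 ▸ h5

end Pool.Agent.MP_f3836a_nt.GV.C
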