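import Pool.Agent.MP_f3836a_nt.GV.SpecC1

/-! Block C: the tent function in logarithmic coordinates. -/

set_option autoImplicit false

namespace Pool.Agent.MP_f3836a_nt.GV.C

open Finset MeasureTheory

namespace GCLin

variable {r : ℕ} {z v : E r} {δ : ℝ}

theorem tn_mem (x : E r) : 0 ≤ tn x ∧ tn x ≤ 1 :=
  ⟨le_max_left _ _, max_le zero_le_one (sub_le_self _ (norm_nonneg _))⟩

theorem tn_lip (x y : E r) : |tn x - tn y| ≤ ‖x - y‖ := by
  rw [tn, tn, max_comm 0, max_comm 0]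
  refine (abs_max_sub_max_le_abs _ _ _).trans ?_
  rw [sub_sub_sub_cancel_left, abs_sub_comm]
  exact abs_norm_sub_norm_le x y

theorem small (hδ : 0 < δ) (hz : ∀ w, 2 ≤ δ * ‖z w‖) (h : tn (z * v) ≠ 0) (w : Fin r) :
    ‖v w‖ ≤ δ / 2 := by
  have h1 : ‖z * v‖ < 1 := by
    by_contra c
    exact h (max_eq_left (by linarith))
  have h2 := norm_le_pi_norm (z * v) w
  rw [Pi.mul_apply, norm_mul] at h2
  nlinarith [hz w, norm_nonneg (v w), mul_le_mul_of_nonneg_right (hz w) (norm_nonneg (v w))]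

theorem lip (hδ : 0 < δ) (hz : ∀ w, δ * ‖z w‖ ≤ 17) (a b : E r) :
    |tn (z * a) - tn (z * b)| ≤ 17 / δ * ‖a - b‖ := by
  refine (tn_lip _ _).trans ?_
  rw [← mul_sub]
  refine (norm_mul_le _ _).trans (mul_le_mul_of_nonneg_right ?_ (norm_nonneg _))
  exact (pi_norm_le_iff_of_nonneg (by positivity)).2 fun w => by
    rw [le_div_iff₀' hδ]; exact hz w

/-- the tent function after the exponential map -/
noncomputable def ps (z ξ : E r) : ℝ :=
  if ‖ξ‖ ≤ 1 / 3 then Real.exp (Lg ξ) * tn (z * fun w => Complex.exp (ξ w) - 1) else 0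

theorem ps_sup (hδ : 0 < δ) (hz : ∀ w, 2 ≤ δ * ‖z w‖) (h : ps z v ≠ 0) : ‖v‖ ≤ δ := by
  unfold ps at h
  split_ifs at h with c
  · refine (pi_norm_le_iff_of_nonneg hδ.le).2 fun w => ?_
    have h1 := small hδ hz (right_ne_zero_of_mul h) w
    have h2 := (norm_le_pi_norm v w).trans c
    have h3 := Complex.norm_exp_sub_one_sub_id_le (h2.trans (by norm_num))
    have h4 := norm_sub_le (Complex.exp (v w) - 1) (Complex.exp (v w) - 1 - v w)
    rw [sub_sub_cancel] at h4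
    nlinarith [norm_nonneg (v w)]
  · exact (h rfl).elim

theorem ps_all (hr : 1 ≤ r) (hδ : 0 < δ) (h4 : 4 * r * δ ≤ 1)
    (hz : ∀ w, 2 ≤ δ * ‖z w‖ ∧ δ * ‖z w‖ ≤ 17) (ξ : E r) : 0 ≤ ps z ξ ∧ ps z ξ ≤ 2 ∧
    (ps z ξ ≠ 0 → ‖ξ‖ ≤ δ) ∧ |ps z ξ - tn (z * ξ)| ≤ (17 + 4 * r) * δ := by
  have hr' : (1 : ℝ) ≤ r := by exact_mod_cast hr
  by_cases c : ‖ξ‖ ≤ δ
  · have h1 : |Lg ξ| ≤ 2 * r * δ := (abs_Lg ξ).trans (by gcongr)
    have h2 := abs_le.1 ((Real.abs_exp_sub_one_le (x := Lg ξ) (by linarith)).trans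
      (mul_le_mul_of_nonneg_left h1 zero_le_two))
    have h3 : ‖(fun w => Complex.exp (ξ w) - 1 : E r) - ξ‖ ≤ δ ^ 2 :=
      (pi_norm_le_iff_of_nonneg (by positivity)).2 fun w => by
        have := (norm_le_pi_norm ξ w).trans c
        exact (Complex.norm_exp_sub_one_sub_id_le (by nlinarith)).trans (by gcongr)
    have h5 := (lip hδ (fun w => (hz w).2) _ _).trans (mul_le_mul_of_nonneg_left h3 (by positivity))
    rw [show 17 / δ * δ ^ 2 = 17 * δ by field_simp, abs_le] at h5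
    obtain ⟨a, b⟩ := tn_mem (z * fun w => Complex.exp (ξ w) - 1)
    have h6 := Real.exp_pos (Lg ξ)
    rw [ps, if_pos (by nlinarith)]
    refine ⟨by positivity, by nlinarith, fun _ => c, abs_le.2 ⟨?_, ?_⟩⟩ <;> nlinarith
  · have h1 : ps z ξ = 0 := by_contra fun e => c (ps_sup hδ (fun w => (hz w).1) e)
    have h2 : tn (z * ξ) = 0 := by_contra fun e => c ((pi_norm_le_iff_of_nonneg hδ.le).2 fun w =>
      (small hδ (fun w => (hz w).1) e w).trans (by linarith))
    rw [h1, h2, sub_self, abs_zero]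
    exact ⟨le_rfl, zero_le_two, fun e => (e rfl).elim, by positivity⟩

end GCLin

open GCLin

theorem rLin : OfLin := by
  intro hT r y X R δ hr hR hd h4 hy
  have hr' : (1 : ℝ) ≤ r := by exact_mod_cast hr
  have hδ : 0 < δ := hd ▸ by positivity
  have n : ∀ w, ‖(R⁻¹ • y) w‖ = ‖y w‖ / R := fun w => by
    rw [Pi.smul_apply, norm_smul, Real.norm_of_nonneg (by positivity), inv_mul_eq_div]
  have hz : ∀ w, 2 ≤ δ * ‖(R⁻¹ • y) w‖ ∧ δ * ‖(R⁻¹ • y) w‖ ≤ 17 := fun w => by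
    have e : δ * ‖(R⁻¹ • y) w‖ = 6 * Real.exp (Real.log ‖y w‖ - X) := by
      rw [n, hd, Real.exp_sub, Real.exp_log (norm_pos_iff.2 (hy w).1)]
      field_simp
    have a := abs_le.1 (hy w).2
    have b := Real.exp_le_exp.2 a.1
    have c := Real.exp_le_exp.2 a.2
    have d : Real.exp (-1) * Real.exp 1 = 1 := by rw [← Real.exp_add]; simp
    rw [e]
    constructor <;> nlinarith [Real.exp_one_lt_d9, Real.exp_pos (-1)]
  have p : 0 < ∏ w, ‖y w‖ ^ 2 := prod_pos fun w _ => pow_pos (norm_pos_iff.2 (hy w).1) 2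
  have q : ∀ t : ℝ, t ^ (2 * r) = ∏ _w : Fin r, t ^ 2 := fun t => by simp [pow_mul]
  refine ⟨?_, ps (R⁻¹ • y), fun ξ => tn (R⁻¹ • y * ξ), ⟨⟨by positivity, hδ.le⟩,
    lip hδ fun w => (hz w).2, fun ξ e => ?_⟩, fun ξ => tn_mem _, ?_, ps_all hr hδ h4 hz,
    fun x hx => ?_⟩
  · rw [← mul_pow, q, q, ← prod_mul_distrib]
    refine prod_le_prod (fun w _ => by positivity) fun w _ => ?_
    have := (hz w).2
    rw [n, ← mul_div_assoc, div_le_iff₀ hR] at this
    rw [← mul_pow]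
    gcongr
  · rw [sub_zero]
    exact (pi_norm_le_iff_of_nonneg hδ.le).2 fun w =>
      (small hδ (fun w => (hz w).1) e w).trans (by linarith)
  · have := (hT r).2.2.1 (R⁻¹ • y) 0 fun w => smul_ne_zero (inv_ne_zero hR.ne') (hy w).1
    simp only [sub_zero, n, div_pow, prod_div_distrib, ← q] at this
    rw [this]
    field_simp
  · have o : ∀ w, x w / y w ≠ 0 := fun w => div_ne_zero (hx w) (hy w).1
    have e : R⁻¹ • (x - y) = R⁻¹ • y * fun w => x w / y w - 1 := funext fun w => by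
      simp only [Pi.smul_apply, Pi.mul_apply, Pi.sub_apply, smul_mul_assoc]
      rw [mul_sub, mul_div_cancel₀ _ (hy w).1, mul_one]
    rw [ps, e]
    split_ifs with c
    · have g : Real.exp (Lg (lq x y)) = (∏ w, ‖x w‖ ^ 2) / ∏ w, ‖y w‖ ^ 2 := by
        rw [Lg, mul_sum, Real.exp_sum, ← prod_div_distrib]
        refine prod_congr rfl fun w _ => ?_
        rw [lq, Complex.log_re, two_mul, Real.exp_add, Real.exp_log (norm_pos_iff.2 (o w)),
          norm_div, ← div_pow, sq]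
      simp only [g, lq, Complex.exp_log (o _)]
      field_simp
    · rw [zero_mul, mul_eq_zero]
      refine .inl (by_contra fun k => c ((pi_norm_le_iff_of_nonneg (by norm_num)).2 fun w => ?_))
      have a : ‖x w / y w - 1‖ ≤ δ / 2 := small hδ (fun w => (hz w).1) k w
      have b := Complex.norm_log_one_add_half_le_self (z := x w / y w - 1) (by nlinarith)
      rw [add_sub_cancel] at b
      exact b.trans (by nlinarith)

end Pool.Agent.MP_f3836a_nt.GV.C
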