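import Pool.Agent.MP_f3836a_nt.GV.SpecC1
import Pool.Agent.MP_f3836a_nt.VE.BLlt

/-! The local limit theorem. -/

set_option autoImplicit false

namespace Pool.Agent.MP_f3836a_nt.GV.C

open Finset VE
open VE.BC hiding OfLlt tri

open BLlt in
theorem rLlt : OfLlt := by
  intro tup sms inv cls k' C hk
  obtain ⟨J0, c, c0, c1, H⟩ := cls k' C hk
  refine ⟨max J0 1, c, c0, c1, fun ι G T _ _ _ _ _ μ u th x U J d hJ hU hN sb hu hl d0 d1 B cc j g
    hB hB' hj hg v t => ?_⟩
  classical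
  have J1 : 1 ≤ J := (le_max_right _ _).trans hJ
  have sb' : Sb (sm μ J) := (sms ι μ u J (fun _ => 0) 0 sb J1).1
  obtain ⟨N, hNd⟩ : ∃ N : ℕ, N = 2 * U * j + v.natAbs + 1 := ⟨_, rfl⟩
  have : NeZero N := ⟨by omega⟩
  have rng : ∀ (m : ℕ) (s : Fin m → ι × Fin J), m ≤ j →
      0 ≤ ∑ i, su u J (s i) ∧ ∑ i, su u J (s i) ≤ ((2 * U * j : ℕ) : ℤ) := fun m s hm => by
    refine ⟨sum_nonneg fun i _ => by unfold su; positivity, ?_⟩
    refine (sum_le_card_nsmul _ _ ((2 * U : ℕ) : ℤ) fun i _ => ?_).trans ?_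
    · have := hu (s i).1
      have := (s i).2.2
      unfold su
      omega
    · rw [card_univ, Fintype.card_fin, nsmul_eq_mul, mul_comm]
      exact_mod_cast Nat.mul_le_mul_left _ hm
  have rv : ∀ s : Fin j → ι × Fin J, |v - ∑ i, su u J (s i)| < N := fun s => by
    have := rng j s le_rfl
    rw [abs_lt]
    omega
  have i1 := inv _ (ZMod N) (sm μ J) (fun p => (su u J p : ZMod N)) 0 j 1 0 univ sb' (fun y => by
    obtain ⟨-, -, -, t4, t5, -⟩ := tup _ (sm μ J)
    refine (t5 sb'.1 0 _ (fun _ => 1) fun s => ?_).trans (by rw [t4, pow_zero, mul_one])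
    unfold ind
    split_ifs <;> norm_num) le_rfl (fun ξ h => absurd (mem_univ ξ) h) (by omega) v
  rw [zero_pow (by omega), zero_mul, norm_le_zero_iff, sub_eq_zero, law_red _ _ _ _ _ rv,
    Nat.card_zmod, eq_div_iff (Nat.cast_ne_zero.2 (NeZero.ne N))] at i1
  have i2 := inv _ (ZMod N × T × G) (sm μ J)
    (fun p => (((tri u J th x p).1 : ZMod N), (tri u J th x p).2)) k' j
    (C / (U * Nat.card T * Nat.card G)) (1 - c * d ^ 2) ((univ ×ˢ B).image (BLlt.emb (ZMod N) T G)) sb'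
    (fun y => by
      have e : y = (((y.1.val : ℤ) : ZMod N), y.2) := by simp
      rw [e, law_red2 _ _ _ _ _ _ fun s => ?_]
      · exact hl _
      · have a1 := rng k' s (by omega)
        have a2 := ZMod.val_lt y.1
        change |_ - ∑ i, su u J (s i)| < _
        rw [abs_lt]
        omega)
    (sub_nonneg.2 (mul_le_one₀ c1 (by positivity) (pow_le_one₀ d0.le d1)))
    (fun ξ hξ => by
      by_contra hn
      obtain ⟨α, a1, a2⟩ := exists_ee (ξ.compAddMonoidHom (AddMonoidHom.inl _ _))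
      have sp : ∀ y, ξ y = ξ.compAddMonoidHom (AddMonoidHom.inl _ _) y.1 *
          ξ.compAddMonoidHom (AddMonoidHom.inr _ _) y.2 := fun y => by
        simp [← AddChar.map_add_eq_mul]
      obtain ⟨χ, b1, b2⟩ := H ι G T μ u th x U J d ((le_max_left _ _).trans hJ) hU
        (fun i h1 h2 => hN i h1 (h2.trans (le_max_left _ _))) sb hu hl d0 d1 α (ξ.compAddMonoidHom (AddMonoidHom.inr _ _)) a1
        (by
          refine (not_le.1 hn).trans_eq ?_
          congr 2
          funext p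
          rw [sp, a2]
          rfl)
      refine hξ (mem_image.2 ⟨(ξ.compAddMonoidHom (AddMonoidHom.inl _ _), χ),
        mem_product.2 ⟨mem_univ _, by_contra fun h => (hB' χ h).not_gt b2⟩, ?_⟩)
      refine AddChar.ext _ _ fun y => ?_
      rw [emb_apply, sp y, ← b1 y.2.1 y.2.2])
    hj ((v : ZMod N), t, g)
  rw [law_red2 _ (tri u J th x) N j v _ rv, sum_image (emb_inj _ _ _).injOn, sum_product] at i2
  have e1 : ∀ φ : AddChar (ZMod N) ℂ, ∀ χ ∈ B,
      (ex (sm μ J) fun p => BLlt.emb (ZMod N) T G (φ, χ)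
        (((tri u J th x p).1 : ZMod N), (tri u J th x p).2)) ^ j *
        BLlt.emb (ZMod N) T G (φ, χ) (-((v : ZMod N), t, g)) =
      (ex (sm μ J) fun p => φ (su u J p : ZMod N)) ^ j * φ (-(v : ZMod N)) := fun φ χ hχ => by
    have a1 : χ g * χ (-g) = 1 := by
      rw [← AddChar.map_add_eq_mul, add_neg_cancel, AddChar.map_zero_eq_one]
    simp only [emb_apply, tri, hB χ hχ, ex_mul, Prod.fst_neg, Prod.snd_neg]
    rw [mul_pow, ← hg χ hχ, mul_mul_mul_comm, a1, mul_one]
  rw [sum_congr rfl fun φ _ => sum_congr rfl (e1 φ)] at i2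
  simp only [sum_const, nsmul_eq_mul] at i2
  rw [← mul_sum, ← i1, Nat.card_prod, Nat.card_prod, Nat.card_zmod] at i2
  refine le_of_eq_of_le ?_ i2
  rw [← Real.norm_eq_abs, ← Complex.norm_real]
  congr 1
  have n0 : (N : ℂ) ≠ 0 := Nat.cast_ne_zero.2 (NeZero.ne N)
  push_cast
  rw [← mul_assoc, mul_comm (N : ℂ), mul_div_mul_right _ _ n0]
  ring

end Pool.Agent.MP_f3836a_nt.GV.C
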