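import Pool.Agent.MP_f3836a_nt.GV.SpecC2

/-! Block C: sums of steps. -/

set_option autoImplicit false

namespace Pool.Agent.MP_f3836a_nt.GV.C

open Finset NumberField VE

theorem rLs : OfLs := by
  intro pt n r _ o ss Q j lam x ok hl hx
  have p2 := (pt n r o ss ok).2
  have m1 : ∀ i, o.IM ss (x i) ∈ o.MQ Q := fun i => ((p2 _ (hx i).1).2.2.1 Q (hx i).2).1
  have key : ∀ s : Finset (Fin j), o.IM ss (∑ i ∈ s, x i) ∈ o.MQ Q ∧
      nT (∑ i ∈ s, x i) = ∏ i ∈ s, nT (x i) ∧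
      o.cM Q ss (∑ i ∈ s, x i) = ∑ i ∈ s, o.cM Q ss (x i) ∧
      lam (o.IM ss (∑ i ∈ s, x i)) - ∑ i ∈ s, lam (o.IM ss (x i)) ∈ o.LQ Q := fun s => by
    induction s using Finset.induction_on with
    | empty =>
      have e : o.IM ss 0 = 1 := by simp [Od.IM]
      have a := neg_mem (hl.add 1 (one_mem _) 1 (one_mem _))
      rw [mul_one, sub_self, zero_sub, neg_neg] at a
      simp only [sum_empty, prod_empty, e, sub_zero]
      exact ⟨one_mem _, by simp [nT], by simp [Od.cM], a⟩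
    | insert a s ha ih =>
      simp only [sum_insert ha, prod_insert ha, o.IM_add, o.cM_add]
      refine ⟨mul_mem (m1 a) ih.1, by rw [← ih.2.1]; simp [nT], by rw [ih.2.2.1], ?_⟩
      convert add_mem (hl.add _ (m1 a) _ ih.1) ih.2.2.2 using 1
      abel
  obtain ⟨a, b, c, d⟩ := key univ
  have g : ∀ z ∈ ∑ i, x i, o.Gd ss z := fun z hz => by
    obtain ⟨i, -, hi⟩ := Multiset.mem_sum.1 hz
    exact (hx i).1 z hi
  refine ⟨a, (p2 _ g).1, b, ?_, c, d⟩
  rw [← c, ((p2 _ g).2.2.1 Q (b ▸ Nat.Coprime.prod_left fun i _ => (hx i).2)).2]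

end Pool.Agent.MP_f3836a_nt.GV.C
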