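import Pool.Agent.MP_f3836a_nt.GV.SpecC1

/-! The large sieve for sifted points in a ball. -/

set_option autoImplicit false

namespace Pool.Agent.MP_f3836a_nt.GV.C

open Finset

namespace GCLsa

/-- expansion of the square -/
theorem expand {ι : Type} (T : Finset ι) {M : ℕ} (L : ι → ℝ) (ψ : Fin M → ι → ℂ) (α : Fin M → ℂ)
    (D E : ℝ) (hL : ∀ v, 0 ≤ L v) (hψ : ∀ i v, ‖ψ i v‖ ≤ 1) (hα : ∀ i, ‖α i‖ ≤ 1)
    (hD : ∑ v ∈ T, L v ≤ D) (hE0 : 0 ≤ E)
    (hE : ∀ i j, i < j → ‖∑ v ∈ T, (L v : ℂ) * (ψ i v * (starRingEnd ℂ) (ψ j v))‖ ≤ E) :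
    ∑ v ∈ T, L v * ‖∑ i, α i * ψ i v‖ ^ 2 ≤ M * D + M ^ 2 * E := by
  have e : ((∑ v ∈ T, L v * ‖∑ i, α i * ψ i v‖ ^ 2 : ℝ) : ℂ) = ∑ i, ∑ j,
      α i * (starRingEnd ℂ) (α j) * ∑ v ∈ T, (L v : ℂ) * (ψ i v * (starRingEnd ℂ) (ψ j v)) := by
    simp only [mul_sum]
    rw [sum_congr rfl fun i _ => sum_comm, sum_comm]
    push_cast
    refine sum_congr rfl fun v _ => ?_
    rw [← Complex.mul_conj', map_sum, sum_mul_sum, mul_sum]
    refine sum_congr rfl fun i _ => ?_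
    rw [mul_sum]
    exact sum_congr rfl fun j _ => by rw [map_mul]; ring
  have b : ∀ i j, ‖∑ v ∈ T, (L v : ℂ) * (ψ i v * (starRingEnd ℂ) (ψ j v))‖ ≤
      (if i = j then D else 0) + E := fun i j => by
    rcases lt_trichotomy i j with h | rfl | h
    · rw [if_neg h.ne, zero_add]; exact hE i j h
    · rw [if_pos rfl]
      refine (norm_sum_le _ _).trans ((sum_le_sum fun v _ => ?_).trans (hD.trans (by linarith)))
      rw [norm_mul, norm_mul, Complex.norm_conj, Complex.norm_real, Real.norm_of_nonneg (hL v)]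
      exact mul_le_of_le_one_right (hL v) (mul_le_one₀ (hψ i v) (norm_nonneg _) (hψ i v))
    · rw [if_neg h.ne', zero_add, ← Complex.norm_conj, map_sum]
      refine le_of_eq_of_le (congrArg _ (sum_congr rfl fun v _ => ?_)) (hE j i h)
      simp [mul_comm]
  refine (le_abs_self _).trans ?_
  rw [← Real.norm_eq_abs, ← Complex.norm_real, e]
  refine (norm_sum_le _ _).trans ((sum_le_sum fun i _ => (norm_sum_le _ _).trans
    (sum_le_sum fun j _ => (?_ : _ ≤ (if i = j then D else 0) + E))).trans (le_of_eq ?_))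
  · rw [norm_mul, norm_mul, Complex.norm_conj]
    exact (mul_le_of_le_one_left (norm_nonneg _)
      (mul_le_one₀ (hα i) (norm_nonneg _) (hα j))).trans (b i j)
  · simp [sum_add_distrib]
    ring

theorem nrm {r : ℕ} {R : ℝ} (h : 0 < R) (x : E r) : ‖R⁻¹ • x‖ = ‖x‖ / R := by
  rw [norm_smul, norm_inv, Real.norm_of_nonneg h.le, inv_mul_eq_div]

end GCLsa

open GCLsa in
theorem rLsa : OfLsa := by
  intro hr hd ho r B
  obtain ⟨C, hC, hd⟩ := hd r B
  refine ⟨C * (2 * 2 ^ (2 * r) + (36 * Real.pi) ^ r), by positivity, ?_⟩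
  intro n M P Z ν Y q g V ρ R c S ψ α hY hS hL hR hq hM hψ hα hosc hx
  rcases Nat.eq_zero_or_pos M with rfl | M0
  · simp
  obtain ⟨V0, ρ0, -, -, hlow, -⟩ := hr r _ g V ρ hL
  obtain ⟨d1, d2, d3⟩ := hd n P Z ν Y hY hS
  have R2 : 0 < 2 * R := by positivity
  obtain ⟨S', hS', -⟩ := hlow c (2 * R) R2.le
  have M1 : (1 : ℝ) ≤ M := by exact_mod_cast M0
  have Y0 : 0 < Y := by linarith
  have a1 : q * Y ^ 3 * ρ ≤ R := le_trans (by
    rw [mul_assoc (M : ℝ), mul_assoc (M : ℝ)]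
    exact le_mul_of_one_le_left (by positivity) M1) hM
  have a2 : Y ^ 3 * ρ ≤ R := le_trans (by
    rw [mul_assoc q]; exact le_mul_of_one_le_left (by positivity) hq) a1
  have a3 : q * Y * ρ ≤ R := le_trans (by
    gcongr; exact le_self_pow₀ (by linarith) (by norm_num)) a1
  have L0 : ∀ x, 0 ≤ V * (tn ((2 * R)⁻¹ • (g x - c)) * Lw P Z ν Y x) := fun x =>
    mul_nonneg V0.le (mul_nonneg (le_max_left _ _) (sq_nonneg _))
  have v0 : 0 ≤ vb r (3 * (2 * R)) := by unfold vb; positivity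
  have key := expand S' _ ψ α _ (q * Y ^ 2 * (ρ / (2 * R)) * vb r (3 * (2 * R))) L0 hψ hα
    ((mul_sum _ _ _).symm.le.trans (d3 g V ρ (2 * R) c S' hL R2 (by linarith))) (by positivity)
    fun i j hij => by
      obtain ⟨q', h1, h2⟩ := hosc i j hij
      have := ho n r q' P Z ν B Y _ g V ρ (2 * R) c S' hY hS h2 hL R2
        (le_trans (by gcongr) (a3.trans (by linarith))) fun x h => (hS' x).2 (by
          have h3 : 0 < 1 - ‖(2 * R)⁻¹ • (g x - c)‖ := not_le.1 fun e => h (max_eq_left e)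
          rw [nrm R2, sub_pos, div_lt_one R2] at h3
          linarith)
      rw [mul_sum] at this
      refine le_trans (le_of_eq (congrArg _ (sum_congr rfl fun x _ => ?_)))
        (this.trans (by gcongr))
      push_cast
      ring
  have k2 : V * ∑ x ∈ S, ‖∑ i, α i * ψ i x‖ ^ 2 ≤ 2 * ∑ x ∈ S',
      V * (tn ((2 * R)⁻¹ • (g x - c)) * Lw P Z ν Y x) * ‖∑ i, α i * ψ i x‖ ^ 2 := by
    rw [mul_sum, mul_sum]
    refine (sum_le_sum fun x h => ?_).trans (sum_le_sum_of_subset_of_nonneg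
      (fun x h => (hS' x).2 (by linarith [(hx x h).1])) fun x _ _ =>
        mul_nonneg zero_le_two (mul_nonneg (L0 x) (sq_nonneg _)))
    have h1 : ‖g x - c‖ / (2 * R) ≤ 1 / 2 := by rw [div_le_iff₀ R2]; linarith [(hx x h).1]
    have h2 : 1 - ‖(2 * R)⁻¹ • (g x - c)‖ ≤ tn ((2 * R)⁻¹ • (g x - c)) := le_max_right _ _
    rw [nrm R2] at h2
    rw [d1 x (hx x h).2]
    nlinarith [mul_nonneg V0.le (sq_nonneg ‖∑ i, α i * ψ i x‖)]
  have k3 : M * q * Y ^ 2 * (ρ / R) ≤ C * sd ν P := by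
    refine le_of_mul_le_mul_right (le_trans ?_ (d2.trans_eq (by ring))) Y0
    rw [show M * q * Y ^ 2 * (ρ / R) * Y = M * q * Y ^ 3 * ρ / R by ring, div_le_one hR]
    exact hM
  have k4 : vb r (3 * (2 * R)) = (36 * Real.pi) ^ r * R ^ (2 * r) := by
    rw [vb, pow_mul, ← mul_pow]; congr 1; ring
  have k5 := mul_le_mul_of_nonneg_right k3 (mul_nonneg (by positivity : (0 : ℝ) ≤ M) v0)
  have k6 : (M : ℝ) ^ 2 * (q * Y ^ 2 * (ρ / (2 * R)) * vb r (3 * (2 * R))) * 2 =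
      M * q * Y ^ 2 * (ρ / R) * (M * vb r (3 * (2 * R))) := by field_simp
  rw [mul_pow 2 R] at key
  rw [k4] at k5 k6 key
  linarith

end Pool.Agent.MP_f3836a_nt.GV.C
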