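import Pool.Agent.MP_f3836a_nt.GV.SpecC2

/-! Few independent large characters. -/

set_option autoImplicit false

namespace Pool.Agent.MP_f3836a_nt.GV.C

open Finset NumberField VE
open VE.BC (ex cop)

namespace GCLsb

theorem sub_ge {ι : Type} [DecidableEq ι] (S T : Finset ι) (h : S ⊆ T) (μ : ι → ℝ) (f : ι → ℂ)
    (hμ : ∀ x ∈ T, 0 ≤ μ x) (hf : ∀ x, ‖f x‖ ≤ 1) :
    ‖ex (fun x : T => μ x) fun x => f x‖ ≤
      ∑ x ∈ T \ S, μ x + ‖ex (fun x : S => μ x) fun x => f x‖ := by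
  unfold ex
  rw [sum_coe_sort T fun x => (μ x : ℂ) * f x, sum_coe_sort S fun x => (μ x : ℂ) * f x,
    ← sum_sdiff h]
  refine (norm_add_le _ _).trans (add_le_add_left ((norm_sum_le _ _).trans
    (sum_le_sum fun x hx => ?_)) _)
  have h0 := hμ x (mem_sdiff.1 hx).1
  rw [norm_mul, Complex.norm_real, Real.norm_of_nonneg h0]
  exact mul_le_of_le_one_right h0 (hf x)

theorem cs {ι : Type} (S : Finset ι) (ω : ι → ℝ) (F : ι → ℂ) (K : ℝ)
    (h : ∀ β ∈ S, 0 ≤ ω β ∧ ω β ≤ K) :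
    ‖∑ β ∈ S, (ω β : ℂ) * F β‖ ^ 2 ≤ (∑ β ∈ S, ω β) * (K * ∑ β ∈ S, ‖F β‖ ^ 2) := by
  refine (pow_le_pow_left₀ (norm_nonneg _) (norm_sum_le _ _) 2).trans ?_
  rw [mul_sum]
  refine sum_sq_le_sum_mul_sum_of_sq_le_mul _ (fun β hβ => (h β hβ).1) (fun β hβ => ?_)
    fun β hβ => ?_
  · exact mul_nonneg ((h β hβ).1.trans (h β hβ).2) (sq_nonneg _)
  · obtain ⟨a, b⟩ := h β hβ
    rw [norm_mul, Complex.norm_real, Real.norm_of_nonneg a, mul_pow, sq, mul_assoc]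
    exact mul_le_mul_of_nonneg_left (mul_le_mul_of_nonneg_right b (sq_nonneg _)) a

theorem big {ι : Type} {M : ℕ} (S : Finset ι) (ω : ι → ℝ) (F : Fin M → ι → ℂ) {T : ℝ} (h0 : 0 ≤ T)
    (h : ∀ i, ‖∑ β ∈ S, (ω β : ℂ) * F i β - T‖ ≤ T / 2) :
    M * T / 2 ≤ ‖∑ β ∈ S, (ω β : ℂ) * ∑ i, F i β‖ := by
  have e : (M * T : ℝ) = (∑ β ∈ S, (ω β : ℂ) * ∑ i, F i β) -
      ∑ i, (∑ β ∈ S, (ω β : ℂ) * F i β - T) := by
    simp only [sum_sub_distrib, mul_sum]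
    rw [sum_comm]
    simp
  have n1 := (norm_sum_le _ _).trans (sum_le_sum fun i (_ : i ∈ univ) => h i)
  have n2 := (congrArg norm e).trans_le (norm_sub_le _ _)
  rw [Complex.norm_real, Real.norm_of_nonneg (by positivity)] at n2
  simp only [sum_const, card_univ, Fintype.card_fin, nsmul_eq_mul] at n1
  linarith

theorem num {M T C CL H k c m S V σ P : ℝ} (M0 : 0 < M) (c0 : 0 < c) (k0 : 0 < k) (m0 : 0 < m)
    (C0 : 0 ≤ C) (L0 : 0 ≤ CL) (V0 : 0 < V) (P0 : 0 < P) (h1 : c / k ≤ T)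
    (h2 : (M * T / 2) ^ 2 ≤ T * (C / m * S)) (h3 : V * P * S ≤ CL * M * (P * m) * σ)
    (h4 : k * σ ≤ H * V) : M ≤ 4 * C * CL * H / c := by
  have T0 : 0 < T := (div_pos c0 k0).trans_le h1
  have a1 : σ ≤ H * V / k := by rw [le_div_iff₀' k0]; exact h4
  have a2 : S ≤ CL * M * m * H / k := by
    refine le_of_mul_le_mul_left ((h3.trans (mul_le_mul_of_nonneg_left a1 (by positivity))).trans_eq
      (by ring)) (mul_pos V0 P0)
  have a3 : M * T * (M * T) ≤ M * T * (4 * C * CL * H / k) := by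
    have := h2.trans (mul_le_mul_of_nonneg_left
      (mul_le_mul_of_nonneg_left a2 (div_nonneg C0 m0.le)) T0.le)
    rw [show T * (C / m * (CL * M * m * H / k)) = M * T * (4 * C * CL * H / k) / 4 by
      field_simp] at this
    linarith
  have a4 := (mul_le_mul_of_nonneg_left h1 M0.le).trans
    (le_of_mul_le_mul_left a3 (mul_pos M0 T0))
  rw [← mul_div_assoc, div_le_div_iff_of_pos_right k0] at a4
  rwa [le_div_iff₀ c0]

end GCLsb

open GCLsb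

theorem rLsb : OfLsb := by
  classical
  intro hRs hA hOrd hC hIb hIg hSv hOs hSt hL n r E0 C1 Ch
  obtain ⟨c, C, Y1, c0, C0, HL⟩ := hL n r E0 (n * (5 * E0 + 5)) C1 Ch
  obtain ⟨CL, L0, HA⟩ := hA r n
  obtain ⟨τ, hτ⟩ : ∃ τ : ℝ, τ = c / (2 * (C + 1)) := ⟨_, rfl⟩
  have t0 : 0 < τ := by rw [hτ]; positivity
  have t1 : C * τ ≤ c / 2 := by
    have : τ * (2 * (C + 1)) = c := by rw [hτ]; field_simp
    linarith
  obtain ⟨M1, hM1⟩ : ∃ M1, M1 = ⌈4 * C * CL * |Ch| / c⌉₊ := ⟨_, rfl⟩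
  obtain ⟨u, hu⟩ : ∃ u : ℝ, u = (E0 * (M1 + 1) : ℕ) * (n * C1) := ⟨_, rfl⟩
  refine ⟨M1, τ ^ 2 / 4, max (max Y1 2) (max (max (u / (τ ^ 2 / 4)) (u ^ 2))
    (3 * n ^ 2 * (M1 + 1 : ℕ))), by positivity, ?_⟩
  intro _ o ss Val St μ W Y hY bs
  simp only [max_le_iff] at hY
  obtain ⟨⟨y1, y2⟩, ⟨y3, y4⟩, y5⟩ := hY
  suffices H : ∀ (Q l : Fin (M1 + 1) → ℕ) (χ : ∀ i, AddChar (o.RC (Q i)) ℂ),
      (∀ i, o.Vio ss St μ W (Y ^ E0) (τ ^ 2 / 4) (Q i) (l i) (χ i)) →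
      (∀ i j, i < j → ¬l i ∣ Q j) → False by
    intro M Q l χ hV hij
    by_contra h
    have h' : M1 + 1 ≤ M := by omega
    exact H (fun i => Q (i.castLE h')) (fun i => l (i.castLE h')) (fun i => χ (i.castLE h'))
      (fun i => hV _) fun i j e => hij _ _ e
  intro Q l χ hV hij
  have Y0 : 0 < Y := by linarith
  have Y1' : 1 ≤ Y := by linarith
  have W2 : 2 ≤ W := by linarith [bs.five]
  have ok := bs.ok
  have fin : ∀ i, Finite (o.RC (Q i)) := fun i => (hC n r o W (Q i) ok W2 (hV i).dvd (hV i).pos).1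
  have k0 : 0 < o.hR W * Real.log Y :=
    mul_pos (hC n r o W W ok W2 dvd_rfl (by omega)).2.2.1 (Real.log_pos (by linarith))
  have V0 : 0 < o.V0 := (hRs r _ _ _ _ (hOrd n r o _ ok bs.bh.size.1)).1
  have dq : ∀ i, Q i ∣ ∏ i, Q i := fun i => dvd_prod_of_mem _ (mem_univ i)
  have rem : ∑ x ∈ St \ cop St (∏ i, Q i), μ x ≤ u / Y := by
    rw [hu]
    refine (hSt n r o ss Val St μ W E0 C1 Y (by linarith) bs.bh).2.2.2.2 _ _ St
      (prod_pos fun i _ => (hV i).pos) ?_ Subset.rfl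
    rw [Nat.cast_prod, pow_mul]
    refine (prod_le_prod (fun i _ => Nat.cast_nonneg _) fun i _ => (hV i).le).trans_eq ?_
    rw [prod_const, card_univ, Fintype.card_fin]
  have r1 : u / Y ≤ τ ^ 2 / 4 := by
    rw [div_le_iff₀ (by positivity)] at y3
    rw [div_le_iff₀' Y0]
    exact y3
  have r2 : u / Y ≤ 1 / √Y := by
    have s0 := Real.sqrt_pos.2 Y0
    rw [div_le_div_iff₀ Y0 s0, one_mul]
    exact (mul_le_mul_of_nonneg_right (Real.le_sqrt_of_sq_le y4) s0.le).trans_eq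
      (Real.mul_self_sqrt Y0.le)
  have sub : ∀ q, cop St q ⊆ St := fun q => filter_subset _ _
  obtain ⟨I, m, S, ω, i1, i2, i3, m1, m2, s1, s2, s3⟩ := HL o ss Val St μ W (∏ i, Q i) Y y1 bs
    ((hV 0).dvd.trans (dq 0)) (by
      have := sum_sdiff (sub (∏ i, Q i)) (f := μ)
      linarith [bs.bh.tot])
  choose α a1 a2 using fun i => s3 (Q i) (χ i) (τ ^ 2 / 2) (hV i).pos (dq i) (by
    have := fin i
    have g1 := sub_ge (cop St (∏ i, Q i)) (cop St (Q i))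
      (fun x hx => mem_filter.2 ⟨sub _ hx, (mem_filter.1 hx).2.coprime_dvd_right (dq i)⟩) μ
      (fun x => χ i (o.cM (Q i) ss x)) (fun x hx => bs.bh.pos x (sub _ hx))
      fun x => ((χ i).norm_apply _).le
    have g2 : ∑ x ∈ cop St (Q i) \ cop St (∏ i, Q i), μ x ≤ ∑ x ∈ St \ cop St (∏ i, Q i), μ x :=
      sum_le_sum_of_subset_of_nonneg (sdiff_subset_sdiff (sub _) Subset.rfl)
        fun x hx _ => bs.bh.pos x (mem_sdiff.1 hx).1
    have g3 := (hV i).big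
    unfold Od.mch at g3
    linarith)
  have I1 : I ∈ o.MQ 1 := o.MQ_anti (one_dvd _) i1
  obtain ⟨b, hb⟩ := hIb n r o I ok I1
  have m0 : (0 : ℝ) < m := (pow_pos Y0 _).trans_le m1
  have en : (m : ℝ) ^ n = m ^ (n - 1) * m := by
    rw [← pow_succ, Nat.sub_add_cancel (Nat.pos_of_ne_zero (NeZero.ne n))]
  have pr : ∀ p ∈ o.Pr W Y, p.Prime ∧ (p : ℝ) < Y ∧ ¬p ∣ W := fun p hp => by
    obtain ⟨h1, h2, h3⟩ := mem_filter.1 hp
    exact ⟨h2, Nat.lt_ceil.1 (mem_range.1 h1), fun e => h3 (e.mul_left _)⟩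
  have lt := hIg n r o (Y ^ E0) (m / Y ^ (5 * E0 + 5)) W I b ok bs.bh.size.1 (by omega) I1 hb
    (by positivity) (by
      rw [i3, div_pow, le_div_iff₀ (by positivity), ← pow_mul, mul_comm _ n, en, Nat.cast_pow]
      exact mul_le_mul_of_nonneg_left m1 (by positivity))
  have la := HA n (M1 + 1) (o.Pr W Y) (o.Zf m W b) (nuG o.M) Y (Y ^ (2 * E0)) (o.gI W b) _ _ m 0
    (S.preimage b hb.inj.injOn) (fun i x => o.chO (Q i) (χ i) (m + W * b x)) α y2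
    (hSv n r o Y W I b m _ ok hb fun p hp => by
      obtain ⟨h1, h2, h3⟩ := pr p hp
      refine ⟨h1, h2, le_of_not_ge fun e => h3 (bs.small p h1 e), fun e => ?_⟩
      rw [i3] at e
      exact (h1.dvd_mul.1 e).elim h3 fun e => m2 p h1 h2 (h1.dvd_of_dvd_pow e))
    lt m0 (one_le_pow₀ Y1') (by
      have w := bs.bh.size.2.2
      have y6 : 3 * n ^ 2 * ((M1 + 1 : ℕ) : ℝ) ≤ Y ^ 2 := y5.trans (by nlinarith)
      calc _ = 3 * n ^ 2 * ((M1 + 1 : ℕ) : ℝ) * W * (Y ^ (4 * E0 + 3) * (m / Y ^ (5 * E0 + 5))) := by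
            ring
        _ ≤ Y ^ 2 * Y ^ E0 * (Y ^ (4 * E0 + 3) * (m / Y ^ (5 * E0 + 5))) := by gcongr
        _ = m := by field_simp; ring)
    (fun i x => by
      have := fin i
      unfold Od.chO
      split_ifs
      · exact ((χ i).norm_apply _).le
      · simp) (fun i => (a1 i).le)
    (fun i j h => by
      obtain ⟨z, z1, z2, z3⟩ := (hV i).ne
      refine ⟨Q i * Q j, ?_, hOs n r o W _ _ _ m I b _ _ z _ ok hb i2 (hV i).pos (hV j).pos
        (hV j).dvd (hV i).prime (hij i j h) z1 z2 z3 fun p hp => (pr p hp).1⟩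
      rw [two_mul, pow_add, Nat.cast_mul]
      exact mul_le_mul (hV i).le (hV j).le (by positivity) (by positivity))
    fun x hx => by
      obtain ⟨-, -, -, g1, -, g2⟩ := s2 _ (mem_preimage.1 hx)
      exact ⟨by rwa [sub_zero], fun p hp => g2 p (pr p hp).1 (pr p hp).2.1⟩
  rw [sum_preimage b S hb.inj.injOn (fun γ => ‖∑ i, α i * o.chO (Q i) (χ i) (m + W * γ)‖ ^ 2)
    fun γ h1 h2 => absurd ((hb.mem γ).1 (s2 γ h1).1) h2, i3, ← ok.two, en, Nat.cast_pow,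
    mul_right_comm _ _ o.V0] at la
  have T0 : 0 ≤ ∑ γ ∈ S, ω γ := sum_nonneg fun γ h => (s2 γ h).2.1
  have a4 := big S ω (fun i γ => α i * o.chO (Q i) (χ i) (m + W * γ)) T0 fun i => by
    refine (a2 i).trans ?_
    rw [show 2 * (τ ^ 2 / 2) = τ ^ 2 by ring, Real.sqrt_sq t0.le]
    refine (div_le_div_of_nonneg_right t1 k0.le).trans ?_
    rw [div_right_comm]
    linarith
  have c1 := cs S ω (fun γ => ∑ i, α i * o.chO (Q i) (χ i) (m + W * γ)) (C / m) fun γ h =>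
    ⟨(s2 γ h).2.1, (le_div_iff₀ m0).2 (s2 γ h).2.2.1⟩
  have W0 : (0 : ℝ) < (W : ℝ) ^ n * o.V0 := by
    have : (0 : ℝ) < W := by exact_mod_cast (by omega : 0 < W)
    positivity
  have e := num (by positivity) c0 k0 m0 C0 L0 W0 (pow_pos m0 _) s1
    ((pow_le_pow_left₀ (by positivity) a4 2).trans c1) la
    (bs.hb.trans (mul_le_mul_of_nonneg_right (le_abs_self _) W0.le))
  have := e.trans (Nat.le_ceil _)
  rw [← hM1, Nat.cast_le] at this
  omega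

end Pool.Agent.MP_f3836a_nt.GV.C
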