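import Pool.Agent.MP_f3836a_nt.GV.SpecC2
import Pool.Agent.MP_f3836a_nt.VE.CLsg

/-! The exceptional primes come from a maximal sequence of violations. -/

set_option autoImplicit false

namespace Pool.Agent.MP_f3836a_nt.GV.C

open Finset

theorem rLsg : LsgS := by
  intro n r o W M1 ss St μ B d h
  obtain ⟨M, s, a, b, c⟩ := VE.BC.CLsg.maxi (T := ℕ × Σ Q : ℕ, AddChar (o.RC Q) ℂ)
    (fun t => o.Vio ss St μ W B d t.2.1 t.1 t.2.2) (fun t t' => ¬t.1 ∣ t'.2.1) M1
    fun M s a b => h M (fun i => (s i).2.1) (fun i => (s i).1) (fun i => (s i).2.2) a b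
  refine ⟨univ.image fun i => (s i).1, card_image_le.trans (by simpa using a), fun l hl => ?_,
    fun Q l χ u w => c (l, ⟨Q, χ⟩) (fun i => u _ (mem_image_of_mem _ (mem_univ i))) w⟩
  obtain ⟨i, -, rfl⟩ := mem_image.1 hl
  exact ⟨(b i).prime, (b i).nw⟩

end Pool.Agent.MP_f3836a_nt.GV.C
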