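import Pool.Agent.MP_f3836a_nt.GV.SpecC2

/-! Row Lsm: the tuples in one class and one ball. -/

set_option autoImplicit false

namespace Pool.Agent.MP_f3836a_nt.GV.C

open Finset NumberField VE Metric MeasureTheory
open VE.BC (tm law Sb ex cop TupS PowS)

namespace GCLsm

theorem filt {ι : Type} [Fintype ι] {μ : ι → ℝ} {n : ℕ} (P : (Fin n → ι) → Prop) [DecidablePred P]
    (F : (Fin n → ι) → ℝ) :
    ∑ s ∈ univ.filter P, (∏ i, μ (s i)) * F s = tm μ n fun s => F s * ind (P s) := by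
  rw [sum_filter]
  refine sum_congr rfl fun s _ => ?_
  by_cases h : P s <;> simp [ind, h]

theorem prod_sub {κ : Type} (s : Finset κ) (f : κ → ℂ) (c : ℂ) (hf : ∀ i, ‖f i‖ = 1)
    (hc : ‖c‖ = 1) : ‖∏ i ∈ s, f i - c ^ s.card‖ ≤ ∑ i ∈ s, ‖f i - c‖ := by
  induction s using Finset.cons_induction with
  | empty => simp
  | cons a s ha ih =>
    rw [prod_cons, sum_cons, card_cons, show f a * ∏ i ∈ s, f i - c ^ (s.card + 1) =
      (f a - c) * c ^ s.card + f a * (∏ i ∈ s, f i - c ^ s.card) by ring]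
    refine (norm_add_le _ _).trans (add_le_add (by simp [hc]) ?_)
    rwa [norm_mul, hf, one_mul]

theorem chi_sum {κ G : Type} [AddCommGroup G] (χ : AddChar G ℂ) (s : Finset κ) (f : κ → G) :
    χ (∑ i ∈ s, f i) = ∏ i ∈ s, χ (f i) := by
  induction s using Finset.cons_induction with
  | empty => simp
  | cons a s ha ih => rw [sum_cons, prod_cons, AddChar.map_add_eq_mul, ih]

theorem fib {σ A : Type} [DecidableEq A] (T : Finset σ) (w : σ → ℝ) (gen : σ → A) (F : A → ℂ)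
    (h : σ → ℝ) (w0 : ∀ s, 0 ≤ w s) (hF : ∀ s ∈ T, ‖F (gen s) - 1‖ ≤ h s) :
    ‖∑ γ ∈ T.image gen, ((∑ s ∈ T with gen s = γ, w s : ℝ) : ℂ) * F γ -
      (∑ γ ∈ T.image gen, ∑ s ∈ T with gen s = γ, w s : ℝ)‖ ≤ ∑ s ∈ T, w s * h s := by
  have e : ∑ γ ∈ T.image gen, ((∑ s ∈ T with gen s = γ, w s : ℝ) : ℂ) * F γ -
      (∑ γ ∈ T.image gen, ∑ s ∈ T with gen s = γ, w s : ℝ) = ∑ s ∈ T, w s * (F (gen s) - 1) := by
    rw [← sum_fiberwise_of_maps_to (fun _ => mem_image_of_mem gen), Complex.ofReal_sum,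
      ← sum_sub_distrib]
    refine sum_congr rfl fun β _ => ?_
    rw [Complex.ofReal_sum, sum_mul, ← sum_sub_distrib]
    exact sum_congr rfl fun s hs => by rw [← (mem_filter.1 hs).2, mul_sub, mul_one]
  rw [e]
  refine (norm_sum_le _ _).trans (sum_le_sum fun s hs => ?_)
  rw [norm_mul, Complex.norm_real, Real.norm_of_nonneg (w0 s)]
  exact mul_le_mul_of_nonneg_left (hF s hs) (w0 s)

theorem rough {k : ℕ} {Y : ℝ} (hY : 0 ≤ Y) (p : Fin k → ℕ) (h : ∀ i, (p i).Prime ∧ Y ≤ p i) :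
    Y ^ k ≤ (∏ i, p i : ℕ) ∧ ∀ l : ℕ, l.Prime → (l : ℝ) < Y → ¬l ∣ ∏ i, p i := by
  refine ⟨?_, fun l hl hy hd => ?_⟩
  · rw [Nat.cast_prod]
    simpa using prod_le_prod (s := univ) (f := fun _ => Y) (fun _ _ => hY) fun i _ => (h i).2
  · obtain ⟨i, -, hi⟩ := (hl.prime.dvd_finsetProd_iff _).1 hd
    rw [(Nat.prime_dvd_prime_iff_eq hl (h i).1).1 hi] at hy
    exact absurd (h i).2 (not_le.2 hy)

theorem mass {k : ℕ} {Y t Cp H P : ℝ} (hY : 4 * (k : ℝ) ^ 2 + 4 ≤ Y) (ht : 1 - 1 / √Y ≤ t)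
    (hC : 0 < Cp) (hH : 0 < H) (hP : 0 ≤ P) (h : t ^ k ≤ Cp * ((k * Real.log Y + 1) * H) * P) :
    1 / (2 * Cp * (k + 1)) / (H * Real.log Y) ≤ P := by
  have k0 : (0 : ℝ) ≤ k := k.cast_nonneg
  have h1 : 1 ≤ Real.log Y := by
    rw [Real.le_log_iff_exp_le (by nlinarith)]
    nlinarith [Real.exp_one_lt_d9]
  have h2 : 2 * (k : ℝ) ≤ √Y := Real.le_sqrt_of_sq_le (by nlinarith)
  have h3 : 1 ≤ √Y := Real.le_sqrt_of_sq_le (by nlinarith)
  have h4 : 1 / √Y ≤ 1 := (div_le_one (by linarith)).2 h3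
  have h5 := one_add_mul_le_pow (a := -(1 / √Y)) (by linarith) k
  have h6 : k * (1 / √Y) ≤ 1 / 2 := by
    rw [mul_one_div, div_le_iff₀ (by linarith)]
    linarith
  have h7 := pow_le_pow_left₀ (by linarith) (show 1 + -(1 / √Y) ≤ t by linarith) k
  have h8 : Cp * ((k * Real.log Y + 1) * H) * P ≤ Cp * (((k + 1) * Real.log Y) * H) * P := by
    gcongr
    linarith
  rw [div_div, div_le_iff₀ (by positivity)]
  linarith

variable {n r : ℕ} {o : Od n r}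

theorem cI_pow {Q : ℕ} {I : Ideal (𝓞 o.L)} (h : I ∈ o.MQ Q) (N : ℕ) :
    o.cI Q (I ^ N) = N • o.cI Q I := by
  induction N with
  | zero => rw [pow_zero, o.cI_one, zero_nsmul]
  | succ N ih => rw [pow_succ, o.cI_mul (pow_mem h N) h, ih, succ_nsmul]

theorem norm_chi {Q Q' : ℕ} [Finite (o.RC Q')] (hd : Q ∣ Q') (χ : AddChar (o.RC Q) ℂ)
    {I : Ideal (𝓞 o.L)} (h : I ∈ o.MQ Q') : ‖χ (o.cI Q I)‖ = 1 := by
  have h1 : o.cI Q' (I ^ Nat.card (o.RC Q')) = o.cI Q' 1 := by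
    rw [cI_pow h, card_nsmul_eq_zero', o.cI_one]
  obtain ⟨a, b, h2, h3, h4, h5, h6⟩ := (o.cI_eq (pow_mem h _) (one_mem _)).1 h1
  have h7 := (o.cI_eq (pow_mem (o.MQ_anti hd h) _) (one_mem _)).2 ⟨a, b, o.MQ_anti hd h2,
    o.MQ_anti hd h3, (Nat.cast_dvd_cast hd).trans h4, (Nat.cast_dvd_cast hd).trans h5, h6⟩
  rw [cI_pow (o.MQ_anti hd h), o.cI_one] at h7
  refine Complex.norm_eq_one_of_pow_eq_one ?_ (Nat.card_pos (α := o.RC Q')).ne'
  rw [← AddChar.map_nsmul_eq_pow, h7, AddChar.map_zero_eq_one]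

theorem one {W m : ℕ} {lam : Ideal (𝓞 o.L) → E r} {I0 J I : Ideal (𝓞 o.L)} {ζ u u0 : E r}
    (hU : o.Unf W lam I0 J m) (hL : o.Lam W lam) (hk : ∀ x ∈ o.LQ W, Lg x = 0) (hI : I ∈ o.MQ W)
    (h0 : I0 ∈ o.MQ W) (hc : o.cI W I = o.cI W I0) (hu : lam I - u ∈ o.LQ W)
    (hu0 : lam I0 - u0 ∈ o.LQ W) (e : ∃ y ∈ o.LQ W, u - y ∈ closedBall ζ (1 / 4))
    (e0 : ∃ y ∈ o.LQ W, u0 - y ∈ closedBall ζ (1 / 4)) :
    ∃ γ, o.inc γ ∈ J ∧ I * J = o.pr (m + W * γ) ∧ ‖o.em (W * γ)‖ ≤ m ∧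
      (m : ℝ) ≤ Real.exp r * Ideal.absNorm I := by
  obtain ⟨y, hy, e⟩ := e
  obtain ⟨y0, hy0, e0⟩ := e0
  have h1 : ‖u - y - (u0 - y0)‖ ≤ 1 / 2 := by
    rw [← dist_eq_norm]
    linarith [dist_triangle_right (u - y) (u0 - y0) ζ, mem_closedBall.1 e, mem_closedBall.1 e0]
  have h2 : lam I - lam I0 - (u - y - (u0 - y0)) ∈ o.LQ W := by
    rw [show lam I - lam I0 - (u - y - (u0 - y0)) = lam I - u - (lam I0 - u0) + (y - y0) by abel]
    exact add_mem (sub_mem hu hu0) (sub_mem hy hy0)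
  generalize u - y - (u0 - y0) = ξ at h1 h2
  obtain ⟨γ, g1, g2, g3⟩ := hU.fwd I hI hc ξ h2
  refine ⟨γ, g1, g2, (pi_norm_le_iff_of_nonneg m.cast_nonneg).2 fun w => ?_, ?_⟩
  · have h3 : o.em (W * γ) w = m * (Complex.exp (ξ w) - 1) := by
      rw [mul_sub, g3, map_add, map_natCast]
      simp
    have h4 := (norm_le_pi_norm ξ w).trans h1
    rw [h3, norm_mul, Complex.norm_natCast]
    exact mul_le_of_le_one_right m.cast_nonneg
      ((Complex.norm_exp_sub_one_le (by linarith)).trans (by linarith))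
  · have h3 := hk _ h2
    rw [Lg_sub, Lg_sub, hL.nrm I hI, hL.nrm I0 h0, ← hU.nrm.1] at h3
    have h4 := (abs_le.1 ((abs_Lg ξ).trans (mul_le_mul_of_nonneg_left h1 (by positivity)))).1
    have h5 : (0 : ℝ) < m := by exact_mod_cast hU.nrm.1 ▸ Nat.pos_of_ne_zero h0.1
    have h6 : (0 : ℝ) < Ideal.absNorm I := by exact_mod_cast Nat.pos_of_ne_zero hI.1
    rw [← Real.exp_log h5, ← Real.exp_log h6, ← Real.exp_add]
    exact Real.exp_le_exp.2 (by linarith)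

end GCLsm

open GCLsm in
theorem rLsm : OfLsm := by
  classical
  intro tup pw up pig mul baa bab pt ls un card lamS unf stp dens n r E0 a C1 Ch
  rcases Nat.eq_zero_or_pos r with rfl | hr
  · exact ⟨1, 0, 0, one_pos, le_rfl, fun o _ _ _ _ _ _ _ _ h => absurd (baa n 0 o h.ok).1 (by simp)⟩
  obtain ⟨k', Cd, Yd, -, hCd, dens⟩ := dens n r E0 0 C1 Ch
  obtain ⟨Cp, hCp, pig⟩ := pig r hr
  obtain ⟨k, hk⟩ : ∃ k, k = a + k' + 1 := ⟨_, rfl⟩
  have v0 : 0 ≤ vb r (1 / 2) := by unfold vb; positivity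
  have c1 : 0 ≤ Real.exp r * (k * n * |C1|) ^ k := by positivity
  have c2 : 0 ≤ k * Cd * vb r (1 / 2) := by positivity
  refine ⟨1 / (2 * Cp * (k + 1)), Real.exp r * (k * n * |C1|) ^ k + k * Cd * vb r (1 / 2),
    max Yd (4 * (k : ℝ) ^ 2 + 4), by positivity, add_nonneg c1 c2, ?_⟩
  intro _ o ss Val St μ W Qs Y hY h hW hm
  obtain ⟨hYd, hY⟩ := max_le_iff.1 hY
  have Y4 : 4 ≤ Y := by nlinarith
  have W2 : 2 ≤ W := by linarith [h.five]
  have W0 : 0 < W := by omega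
  obtain ⟨s1, -, s2, -⟩ := stp n r o ss Val St μ W E0 C1 Y (by linarith) h.bh
  have ms : ∀ x : cop St Qs, x.1 ∈ St := fun x => (mem_filter.1 x.2).1
  have gd : ∀ x : cop St Qs, ∀ z ∈ x.1, o.Gd ss z := fun x z hz => (s1 z ((s2 _ (ms x)).2.1 z hz)).1
  have cp : ∀ (x : cop St Qs) Q, Q ∣ Qs → (nT x.1).Coprime Q := fun x Q hQ =>
    (mem_filter.1 x.2).2.coprime_dvd_right hQ
  have m0 : ∀ x : cop St Qs, 0 ≤ μ x := fun x => h.bh.pos _ (ms x)
  have tot : ∑ x : cop St Qs, μ x = ∑ x ∈ cop St Qs, μ x := sum_coe_sort _ μ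
  have sb : Sb fun x : cop St Qs => μ x := ⟨m0, by
    rw [tot, ← h.bh.tot]
    exact sum_le_sum_of_subset_of_nonneg (filter_subset _ _) fun x hx _ => h.bh.pos x hx⟩
  obtain ⟨lam, hL⟩ := lamS n r o W h.ok W0
  obtain ⟨R, hR⟩ := un n r o W h.ok W2
  obtain ⟨fin, -, hr0, -⟩ := card n r o W W h.ok W2 dvd_rfl W0
  have dh := dens o ss Val St (cop St Qs) μ W W Y lam hYd h dvd_rfl W0 h.bh.size.2.2 hL
    fun x hx => mem_filter.2 ⟨ms ⟨x, hx⟩, cp ⟨x, hx⟩ W hW⟩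
  have l0 : 0 < Real.log Y := Real.log_pos (by linarith)
  obtain ⟨g, ζ, hg⟩ := pig (cop St Qs) (o.RC W) (fun x => μ x) (fun x => o.cM W ss x)
    (fun x => lam (o.IM ss x)) (o.LQ W) k R (Real.log Y) (Real.log Y) m0 hR l0.le fun x => by
      obtain ⟨p1, -, p2, -⟩ := (pt n r o ss h.ok).2 x.1 (gd x)
      obtain ⟨-, -, -, -, -, p3, p4⟩ := s2 _ (ms x)
      rw [hL.nrm _ (p2 W (cp x W hW)).1, p1]
      exact ⟨p3, by linarith⟩
  set P := fun s : Fin k → cop St Qs => Ev (o.LQ W) (fun x : cop St Qs => o.cM W ss x)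
    (fun x => lam (o.IM ss x)) g (closedBall ζ (1 / 4)) s with hP
  have w0 : ∀ s : Fin k → cop St Qs, 0 ≤ ∏ i, μ (s i) := fun s => prod_nonneg fun i _ => m0 _
  have eT := filt (μ := fun x : cop St Qs => μ x) P fun _ => 1
  simp only [mul_one, one_mul] at eT
  rw [tot, ← eT] at hg
  have low := mass hY hm hCp hr0 (sum_nonneg fun s _ => w0 s) hg
  obtain ⟨s0, hs0⟩ : (univ.filter P).Nonempty := nonempty_of_sum_ne_zero
    (lt_of_lt_of_le (by positivity) low).ne'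
  have lw := fun s : Fin k → cop St Qs =>
    ls n r o ss W k lam (fun i => (s i).1) h.ok hL fun i => ⟨gd _, cp _ W hW⟩
  have rg := fun s : Fin k → cop St Qs => rough (Y := Y) (by linarith) (fun i => nT (s i).1)
    fun i => ⟨(s2 _ (ms _)).2.2.1, (s2 _ (ms _)).2.2.2.2.1⟩
  have mq : ∀ s : Fin k → cop St Qs, o.IM ss (∑ i, (s i).1) ∈ o.MQ Qs := fun s =>
    (((pt n r o ss h.ok).2 _ fun z hz => let ⟨i, _, hi⟩ := Multiset.mem_sum.1 hz
      gd _ z hi).2.2.1 Qs (by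
        rw [(lw s).2.2.1]; exact Nat.Coprime.prod_left fun i _ => cp _ Qs dvd_rfl)).1
  obtain ⟨J, -, hU⟩ := unf n r o W lam _ h.ok W0 hL (lw s0).1
  have hJ : J ∈ o.MQ Qs := by
    rw [o.mem_MQ, hU.nrm.2]
    exact ⟨pow_ne_zero _ (mq s0).1, (mq s0).2.pow_left _⟩
  have rm := rg s0
  rw [← (lw s0).2.2.1, ← (lw s0).2.1] at rm
  have mz := (mq s0).1
  generalize Ideal.absNorm (o.IM ss (∑ i, (s0 i).1)) = m at hU rm mz
  have ex : ∀ s, ∃ γ : o.A, s ∈ univ.filter P → o.inc γ ∈ J ∧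
      o.IM ss (∑ i, (s i).1) * J = o.pr (m + W * γ) ∧ ‖o.em (W * γ)‖ ≤ m ∧
      (m : ℝ) ≤ Real.exp r * Ideal.absNorm (o.IM ss (∑ i, (s i).1)) := fun s => by
    by_cases hs : s ∈ univ.filter P
    · obtain ⟨e1, e2⟩ := (mem_filter.1 hs).2
      obtain ⟨e3, e4⟩ := (mem_filter.1 hs0).2
      obtain ⟨γ, hγ⟩ := one hU hL hR.ker (lw s).1 (lw s0).1
        (by rw [(lw s).2.2.2.1, (lw s0).2.2.2.1, e1, e3]) (lw s).2.2.2.2.2 (lw s0).2.2.2.2.2 e2 e4
      exact ⟨γ, fun _ => hγ⟩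
    · exact ⟨0, fun a => absurd a hs⟩
  choose gen hgen using ex
  have nrm : ∀ s ∈ univ.filter P, o.nm (m + W * gen s) = nT (∑ i, (s i).1) * m ^ (n - 1) :=
    fun s hs => by rw [Od.nm, ← (hgen s hs).2.1, map_mul, (lw s).2.1, hU.nrm.2]
  have pm : ∀ s ∈ univ.filter P, o.Pm Qs (m + W * gen s) := fun s hs => by
    rw [Od.Pm, ← (hgen s hs).2.1]
    exact mul_mem (mq s) hJ
  refine ⟨J, m, (univ.filter P).image gen, fun γ => ∑ s ∈ univ.filter P with gen s = γ, ∏ i, μ (s i),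
    hJ, hU.mem.2, hU.nrm.2, (pow_le_pow_right₀ (by linarith) (by omega)).trans rm.1, rm.2, ?_,
    fun γ hγ => ?_, fun Q χ d hQ hd hχ => ?_⟩
  · rwa [sum_fiberwise_of_maps_to fun _ => mem_image_of_mem gen]
  · obtain ⟨s, hs, rfl⟩ := mem_image.1 hγ
    obtain ⟨g1, -, g2, g3⟩ := hgen s hs
    refine ⟨g1, sum_nonneg fun s _ => w0 s, ?_, g2, pm s hs, fun l hl hy hd => ?_⟩
    · have e1 := mul Val (cop St Qs) μ n k (nT (∑ i, (s i).1)) C1 h.bh.few fun x hx => by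
        obtain ⟨z, z1, z2, -⟩ := h.bh.stp x (ms ⟨x, hx⟩)
        exact ⟨⟨z, z1, z2, (h.bh.val z z2).1⟩, m0 ⟨x, hx⟩, h.bh.wt x (ms ⟨x, hx⟩)⟩
      have e2 := filt (μ := fun x : cop St Qs => μ x)
        (fun t : Fin k → cop St Qs => nT (∑ i, (t i).1) = nT (∑ i, (s i).1)) fun _ => 1
      simp only [mul_one, one_mul] at e2
      rw [← e2] at e1
      rw [(lw s).2.1] at g3
      refine le_trans ?_ (le_add_of_le_of_nonneg
        (mul_le_mul_of_nonneg_left e1 (Real.exp_pos r).le) c2)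
      rw [← mul_assoc, mul_comm]
      refine mul_le_mul g3 (sum_le_sum_of_subset_of_nonneg (fun t ht => ?_) fun t _ _ => w0 t)
        (sum_nonneg fun s _ => w0 s) (by positivity)
      obtain ⟨r1, r2⟩ := mem_filter.1 ht
      exact mem_filter.2 ⟨mem_univ _, mul_right_cancel₀ (pow_ne_zero (n - 1) mz)
        (by rw [← nrm t r1, r2, nrm s hs])⟩
    · rw [nrm s hs, (lw s).2.2.1] at hd
      exact (hl.dvd_mul.1 hd).elim ((rg s).2 l hl hy) fun e => rm.2 l hl hy (hl.dvd_of_dvd_pow e)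
  · have d1 := Nat.lcm_dvd hd hW
    have fin := (card n r o W _ h.ok W2 (Nat.dvd_lcm_right Q W) (Nat.lcm_pos hQ W0)).1
    have nc : ∀ I ∈ o.MQ Qs, ‖χ (o.cI Q I)‖ = 1 := fun I hI =>
      norm_chi (Nat.dvd_lcm_left Q W) χ (o.MQ_anti d1 hI)
    have nf : ∀ x : cop St Qs, ‖χ (o.cM Q ss x)‖ = 1 := fun x => by
      have p2 := ((pt n r o ss h.ok).2 x.1 (gd x)).2.2.1
      rw [(p2 Q (cp x Q hd)).2]
      exact nc _ (p2 Qs (cp x Qs dvd_rfl)).1
    obtain ⟨⟨c, e1, -, e2⟩, -⟩ := pw (cop St Qs) _ _ d sb nf hχ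
    obtain ⟨lq, hq⟩ := lamS n r o Q h.ok hQ
    have na : ‖c ^ k * χ (o.cI Q J)‖ = 1 := by rw [norm_mul, norm_pow, e1, nc J hJ]; simp
    have nb : Nb (closedBall ζ (1 / 4)) (closedBall ζ (1 / 2)) (1 / Y ^ (0 + 1)) :=
      ⟨measurableSet_closedBall, measure_closedBall_lt_top.ne, fun y hy =>
        closedBall_subset_closedBall' (by
          have := one_div_le_one_div_of_le (by norm_num) Y4
          rw [zero_add, pow_one]
          linarith [mem_closedBall.1 hy])⟩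
    have e3 := ((up r _ _ _ _ _ _ k' k _ _ sb dh).2 g _ _ _ nb (Real.sqrt_nonneg _)).1
      (fun x => ‖χ (o.cM Q ss x) - c‖) (by omega) (fun _ => norm_nonneg _) e2
    rw [vol_ball _ (by norm_num), ← filt (μ := fun x : cop St Qs => μ x) P] at e3
    refine ⟨(c ^ k * χ (o.cI Q J))⁻¹, by rw [norm_inv, na, inv_one], (fib _ _ gen
      (fun γ => (c ^ k * χ (o.cI Q J))⁻¹ * o.chO Q χ (m + W * γ)) _ w0 fun s hs => ?_).trans
      (e3.trans ?_)⟩
    · obtain ⟨b1, b2⟩ := (bab n r o Q h.ok hQ).2.1 _ (o.MQ_anti hd (pm s hs))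
      have e4 := prod_sub univ (fun i => χ (o.cM Q ss (s i))) c (fun i => nf _) e1
      have z : c ^ k * χ (o.cI Q J) ≠ 0 := norm_ne_zero_iff.1 (by rw [na]; exact one_ne_zero)
      rw [card_univ, Fintype.card_fin] at e4
      rw [Od.chO, if_pos b1, b2, ← (hgen s hs).2.1, o.cI_mul (o.MQ_anti hd (mq s)) (o.MQ_anti hd hJ),
        (ls n r o ss Q k lq (fun i => (s i).1) h.ok hq fun i => ⟨gd _, cp _ Q hd⟩).2.2.2.1,
        AddChar.map_add_eq_mul, chi_sum, ← inv_mul_cancel₀ z, ← mul_sub, ← sub_mul, norm_mul,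
        norm_mul, norm_inv, na, nc J hJ, inv_one, one_mul, mul_one]
      exact e4
    · rw [add_mul, add_div]
      exact le_add_of_nonneg_of_le (by positivity) (le_of_eq (by ring))

end Pool.Agent.MP_f3836a_nt.GV.C
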