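import Pool.Agent.MP_f3836a_nt.GV.SpecC1

/-! Block C: the mass of a class. -/

set_option autoImplicit false

namespace Pool.Agent.MP_f3836a_nt.GV.C

open Finset MeasureTheory Metric VE
open VE.BC (tm law)

namespace GCMga

variable {r : ℕ} {F : Set (E r)}

theorem vol (c : E r) : volume {z : E r | (1 / 4 : ℝ) • (z - c) ∈ F} =
    ENNReal.ofReal (16 ^ r) * volume F := by
  have e := Measure.addHaar_preimage_smul (volume : Measure (E r)) (r := 1 / 4) (by norm_num) F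
  rw [← measure_preimage_add_right _ (-c), finrank_E, pow_mul, ← inv_pow,
    abs_of_nonneg (by positivity)] at e
  simp only [sub_eq_add_neg]
  exact e.trans (by norm_num)

theorem nb (hr : 1 ≤ r) (h1 : Convex ℝ F) (h2 : MeasurableSet F) (h3 : volume F ≠ ⊤)
    (h4 : closedBall 0 (1 / (4 * r)) ⊆ F) (c : E r) :
    Nb {z | ∃ θ : ℝ, 0 ≤ θ ∧ θ ≤ 1 ∧ z - c - θ • e0 r ∈ F} {z | (1 / 4 : ℝ) • (z - c) ∈ F}
      (1 / (4 * r)) := by
  refine ⟨h2.preimage (f := fun z : E r => (1 / 4 : ℝ) • (z - c)) (by fun_prop),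
    vol c ▸ ENNReal.mul_ne_top ENNReal.ofReal_ne_top h3, fun a ⟨θ, t0, t1, ha⟩ z hz => ?_⟩
  have b : (θ / 2) • e0 r ∈ F := h4 (by
    rw [mem_closedBall_zero_iff, norm_smul, norm_e0 hr, Real.norm_of_nonneg (by positivity)]
    exact (mul_le_mul_of_nonneg_right (show θ / 2 ≤ 1 / 2 by linarith) (by positivity)).trans_eq
      (by ring))
  have d : z - a ∈ F := h4 (mem_closedBall_zero_iff.2 (mem_closedBall_iff_norm.1 hz))
  have t : (0 : ℝ) ≤ 1 / 2 := by norm_num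
  refine Set.mem_of_eq_of_mem (s := F) ?_ (h1 (h1 ha d t t (add_halves 1)) b t t (add_halves 1))
  module

end GCMga

theorem rMga : OfMga := by
  intro _ hM hE hV r ι G _ _ μ x lam Λ k R L H D hr hμ hΛ hD hH hl g
  obtain ⟨F, f1, f2, f3, f4, f5, f6⟩ := hV r Λ 1 R hr one_pos hΛ
  obtain ⟨e1, e2, -⟩ := hE r Λ 1 R hr one_pos hΛ
  obtain ⟨v1, v2⟩ := (hM r _ _ _ _ (e2 1 one_pos)).1 F f1 f2 fun v hv =>
    Subtype.ext (f5 _ v.2 hv)
  have b : ∀ m : ℤ, tm μ k (fun s => ind (Ev Λ x lam g {z | ∃ θ : ℝ, 0 ≤ θ ∧ θ ≤ 1 ∧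
      z - (m : ℝ) • e0 r - θ • e0 r ∈ F} s)) ≤ D * (64 ^ r * Rg Λ) := fun m => by
    refine (hD.2 g _ _ (GCMga.nb hr f1 f3 v1 f4 _)).trans (mul_le_mul_of_nonneg_left ?_ hD.1)
    rw [Measure.real, GCMga.vol, ENNReal.toReal_mul, ENNReal.toReal_ofReal (by positivity)]
    refine (mul_le_mul_of_nonneg_left v2 (by positivity)).trans_eq ?_
    rw [one_mul, ← mul_assoc, ← mul_pow]
    norm_num
  have c : (#(Icc ⌊k * L⌋ ⌊k * L + k * H⌋) : ℝ) ≤ k * H + 2 := by
    have := Int.card_Icc_of_le ⌊k * L⌋ ⌊k * L + k * H⌋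
      ((Int.floor_mono (le_add_of_nonneg_right (by positivity))).trans (lt_add_one _).le)
    rw [← Int.cast_natCast, this]
    push_cast
    linarith [Int.floor_le (k * L + k * H), Int.lt_floor_add_one (k * L)]
  have i0 : ∀ p, 0 ≤ ind p := fun p => by by_cases h : p <;> simp [ind, h]
  refine le_trans ?_ ((sum_le_card_nsmul _ _ _ fun m _ => b m).trans
    ((nsmul_eq_mul _ _).trans_le ((mul_le_mul_of_nonneg_right c
      (mul_nonneg hD.1 (by positivity))).trans_eq (by ring))))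
  simp only [law, tm]
  rw [sum_comm]
  refine sum_le_sum fun s _ => ?_
  rw [← mul_sum]
  refine mul_le_mul_of_nonneg_left ?_ (prod_nonneg fun i _ => hμ _)
  by_cases h : ∑ i, x (s i) = g
  · obtain ⟨y, hy, a, -⟩ := f6 (∑ i, lam (s i) - Lg (∑ i, lam (s i)) • e0 r) (by
      rw [Lg_sub, Lg_smul, Lg_e0 hr, mul_one, sub_self])
    have l1 : k * L ≤ Lg (∑ i, lam (s i)) := by
      simpa [Lg_sum] using card_nsmul_le_sum univ _ L fun i _ => (hl (s i)).1
    have l2 : Lg (∑ i, lam (s i)) ≤ k * L + k * H := by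
      simpa [Lg_sum, mul_add] using sum_le_card_nsmul univ _ _ fun i _ => (hl (s i)).2
    refine le_trans (le_of_eq ?_) (single_le_sum (fun _ _ => i0 _)
      (mem_Icc.2 ⟨Int.floor_mono l1, Int.floor_mono l2⟩))
    refine (if_pos h).trans (if_pos ⟨h, y, hy, _, Int.fract_nonneg (Lg (∑ i, lam (s i))),
      (Int.fract_lt_one _).le, Set.mem_of_eq_of_mem ?_ a⟩).symm
    rw [Int.fract]
    module
  · exact (if_neg h).trans_le (sum_nonneg fun _ _ => i0 _)

end Pool.Agent.MP_f3836a_nt.GV.C
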