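import Pool.Agent.MP_f3836a_nt.GV.SpecC2

/-! The bound for classes. -/

set_option autoImplicit false

namespace Pool.Agent.MP_f3836a_nt.GV.C

open Finset NumberField VE
open VE.BC (law cop)

theorem rMgz : OfMgz := by
  intro mga pt un card lam stp dens n r E0 C1 Ch
  obtain ⟨k, C, Y1, hk, hC, H⟩ := dens n r E0 0 C1 Ch
  refine ⟨k, 1 + C * ((k + 2) * 64 ^ r), max Y1 (max (4 * r) 3), hk,
    le_add_of_nonneg_right (by positivity), ?_⟩
  intro _ o ss Val St S μ W Q Y hY hB hW hQ hQY hS g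
  have hY1 : Y1 ≤ Y := (le_max_left _ _).trans hY
  have hY2 : 4 * (r : ℝ) ≤ Y := (le_max_left _ _).trans ((le_max_right _ _).trans hY)
  have hY3 : (3 : ℝ) ≤ Y := (le_max_right _ _).trans ((le_max_right _ _).trans hY)
  have hr : 1 ≤ r := by
    have := hB.ok.two
    have := NeZero.ne n
    omega
  have hr' : (0 : ℝ) < r := by exact_mod_cast hr
  have hL : 1 ≤ Real.log Y := by
    rw [Real.le_log_iff_exp_le (by linarith)]
    linarith [Real.exp_one_lt_three]
  have hW2 : 2 ≤ W := by linarith [hB.five]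
  obtain ⟨la, hla⟩ := lam n r o Q hB.ok hQ
  obtain ⟨R, hR⟩ := un n r o Q hB.ok (hW2.trans (Nat.le_of_dvd hQ hW))
  obtain ⟨-, c1, c2, -⟩ := card n r o W Q hB.ok hW2 hW hQ
  obtain ⟨s1, -, s2, -⟩ := stp n r o ss Val St μ W E0 C1 Y (by linarith) hB.bh
  obtain ⟨d1, d2⟩ := H o ss Val St S μ W Q Y la hY1 hB hW hQ hQY hla hS
  have h1 := mga r S (o.RC Q) (fun x : S => μ x) (fun x : S => o.cM Q ss x)
    (fun x : S => la (o.IM ss x)) (o.LQ Q) k R (Real.log Y) (Real.log Y) _ hr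
    (fun x => hB.bh.pos _ (mem_filter.1 (hS x.2)).1) hR
    ⟨d1, fun g A K h => d2 g A K ⟨h.1, h.2.1, fun a ha =>
      (Metric.closedBall_subset_closedBall (by
        rw [zero_add, pow_one]
        exact one_div_le_one_div_of_le (by positivity) hY2)).trans (h.2.2 a ha)⟩⟩
    (by linarith) (fun x => by
      obtain ⟨g1, g2⟩ := mem_filter.1 (hS x.2)
      obtain ⟨-, g3, -, -, -, g4, g5⟩ := s2 x g1
      obtain ⟨g6, -, g7, -⟩ := (pt n r o ss hB.ok).2 x fun z hz => (s1 z (g3 z hz)).1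
      rw [hla.nrm _ (g7 Q g2).1, g6]
      exact ⟨g4, by linarith⟩) g
  refine h1.trans ?_
  rw [Od.hR] at c2 ⊢
  have c3 : (0 : ℝ) < Nat.card (o.RC Q) := (mul_pos_iff_of_pos_right c1).1 c2
  rw [div_mul_eq_mul_div, div_le_div_iff₀ (by positivity) c3]
  have h2 : (k * Real.log Y + 2) * 64 ^ r ≤ (k + 2) * 64 ^ r * Real.log Y := by
    rw [mul_right_comm]
    exact mul_le_mul_of_nonneg_right (by linarith) (by positivity)
  have h3 := mul_le_mul_of_nonneg_right (mul_le_mul_of_nonneg_left h2 hC) c2.le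
  have h4 : 0 ≤ Nat.card (o.RC Q) * Rg (o.LQ Q) * Real.log Y := by positivity
  linarith

end Pool.Agent.MP_f3836a_nt.GV.C
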