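import Pool.Agent.MP_f3836a_nt.GV.SpecC1

/-! Block C, row `Mink`: the theorem of Minkowski for lattices in `ℂ ^ r`. -/

set_option autoImplicit false

namespace Pool.Agent.MP_f3836a_nt.GV.C

open MeasureTheory Metric

namespace GCMink

variable {r : ℕ} {A : Type} [AddCommGroup A] {g : A →+ E r} {V ρ : ℝ}

theorem disc (h : Lt g V ρ) : DiscreteTopology (AddSubgroup.toIntSubmodule g.range) := by
  obtain ⟨a, ha, hs⟩ := h.sep
  refine discreteTopology_of_isOpen_singleton_zero (Metric.isOpen_singleton_iff.2 ⟨a, ha, ?_⟩)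
  rintro ⟨_, v, rfl⟩ hy
  by_cases hv : v = 0
  · exact Subtype.ext (by simp [hv])
  · rw [Subtype.dist_eq] at hy
    exact absurd (hs v hv) (by simpa using hy)

theorem spn (h : Lt g V ρ) :
    Submodule.span ℝ (AddSubgroup.toIntSubmodule g.range : Set (E r)) = ⊤ := by
  set W := Submodule.span ℝ (AddSubgroup.toIntSubmodule g.range : Set (E r))
  refine eq_top_iff.2 fun x _ => ?_
  have hc : IsClosed (W : Set (E r)) := W.closed_of_finiteDimensional
  refine hc.closure_subset (Metric.mem_closure_iff.2 fun ε hε => ?_)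
  have ht : 0 < (|ρ| + 1) / ε := by positivity
  obtain ⟨v, hv⟩ := h.cov (((|ρ| + 1) / ε) • x)
  refine ⟨((|ρ| + 1) / ε)⁻¹ • g v, W.smul_mem _ (Submodule.subset_span ⟨v, rfl⟩), ?_⟩
  have h1 : x - ((|ρ| + 1) / ε)⁻¹ • g v = ((|ρ| + 1) / ε)⁻¹ • (((|ρ| + 1) / ε) • x - g v) := by
    rw [smul_sub, inv_smul_smul₀ ht.ne']
  rw [dist_eq_norm, h1, norm_smul, Real.norm_of_nonneg (inv_pos.2 ht).le, inv_mul_lt_iff₀ ht,
    div_mul_cancel₀ _ hε.ne']
  linarith [le_abs_self ρ]

theorem main (h : Lt g V ρ) (F : Set (E r)) (hc : Convex ℝ F) (hs : ∀ x ∈ F, -x ∈ F)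
    (h0 : ∀ v, g v ∈ F → v = 0) : volume F ≠ ⊤ ∧ volume.real F ≤ 4 ^ r * V := by
  have := disc h
  have : IsZLattice ℝ (AddSubgroup.toIntSubmodule g.range) := ⟨spn h⟩
  have fund := ZLattice.isAddFundamentalDomain
    (Module.Free.chooseBasis ℤ (AddSubgroup.toIntSubmodule g.range)) (volume : Measure (E r))
  set F0 := ZSpan.fundamentalDomain (Module.Basis.ofZLatticeBasis ℝ _
    (Module.Free.chooseBasis ℤ (AddSubgroup.toIntSubmodule g.range)))
  have hV : V = volume.real F0 := by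
    rw [← h.vol, cvl, ZLattice.covolume_eq_measure_fundamentalDomain _ _ fund]
  have hfin : volume F0 ≠ ⊤ := (ZSpan.fundamentalDomain_isBounded _).measure_lt_top.ne
  have : Countable g.range :=
    (inferInstance : Countable (AddSubgroup.toIntSubmodule g.range))
  have hle : volume F ≤ volume F0 * 2 ^ Module.finrank ℝ (E r) := by
    refine not_lt.1 fun hlt => ?_
    obtain ⟨⟨_, v, rfl⟩, hx, hm⟩ :=
      exists_ne_zero_mem_lattice_of_measure_mul_two_pow_lt_measure (L := g.range) fund hs hc hlt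
    exact hx (Subtype.ext (by simp [h0 v hm]))
  have hne : volume F0 * 2 ^ Module.finrank ℝ (E r) ≠ ⊤ := by finiteness
  refine ⟨ne_top_of_le_ne_top hne hle, (ENNReal.toReal_mono hne hle).trans_eq ?_⟩
  rw [finrank_E, pow_mul, hV, ENNReal.toReal_mul, mul_comm, Measure.real]
  norm_num

end GCMink

theorem rMink : MinkS := by
  intro r A _ g V ρ h
  refine ⟨GCMink.main h, fun s hs hlt => by_contra fun hn => ?_⟩
  have h1 := (GCMink.main h (closedBall 0 s) (convex_closedBall _ _) (fun x hx => by simpa using hx)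
    fun v hv => by_contra fun h0 => hn ⟨v, h0, by simpa using hv⟩).2
  rw [vol_ball _ hs] at h1
  exact absurd hlt (not_lt.2 h1)

end Pool.Agent.MP_f3836a_nt.GV.C
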