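import Pool.Agent.MP_f3836a_nt.GV.SpecC1
import Pool.Agent.MP_f3836a_nt.VE.CMul

/-! Tuples of single points with a given norm. -/

set_option autoImplicit false

namespace Pool.Agent.MP_f3836a_nt.GV.C

open Finset VE
open VE.BC (tm)
open VE.BC.CMul (nT_sum pf_card)

theorem rMul : MulS := by
  classical
  intro Val S μ n j m C1 h2 hS
  obtain ⟨G, hG⟩ : ∃ G : Finset (Fin j → S), ∀ s, s ∈ G ↔ nT (∑ i, (s i).1) = m :=
    ⟨univ.filter fun s => nT (∑ i, (s i).1) = m, fun s => by simp⟩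
  have e1 : m * tm (fun x : S => μ x) j (fun s => ind (nT (∑ i, (s i).1) = m))
      = ∑ s ∈ G, ∏ i, (μ (s i) * nT (s i).1) := by
    rw [tm, mul_sum, ← sum_subset (subset_univ G)]
    · refine sum_congr rfl fun s hs => ?_
      have := (hG s).1 hs
      rw [ind, if_pos this, ← this, nT_sum, prod_mul_distrib]
      push_cast
      ring
    · intro s _ hs
      rw [ind, if_neg fun h => hs ((hG s).2 h)]
      simp
  rw [e1]
  have e2 : ∑ s ∈ G, ∏ i, (μ (s i) * nT (s i).1) ≤ G.card • |C1| ^ j := by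
    refine sum_le_card_nsmul _ _ _ fun s _ => ?_
    refine (prod_le_prod (g := fun _ => |C1|) (fun i _ => mul_nonneg (hS _ (s i).2).2.1
      (Nat.cast_nonneg _)) fun i _ => (hS _ (s i).2).2.2.trans (le_abs_self _)).trans ?_
    simp
  refine e2.trans ?_
  rw [nsmul_eq_mul, mul_pow]
  refine mul_le_mul_of_nonneg_right ?_ (by positivity)
  have : G.card ≤ (j * n) ^ j := by
    rcases G.eq_empty_or_nonempty with h | ⟨s0, hs0⟩
    · rw [h]; simp
    have : Nonempty Pt := ⟨⟨0, 0, 0⟩⟩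
    choose! pt hpt using fun x (hx : x ∈ S) => (hS x hx).1
    obtain ⟨hn, hc⟩ := pf_card (∑ i, (s0 i).1) fun z hz => by
      obtain ⟨i, -, hi⟩ := Multiset.mem_sum.1 hz
      rw [(hpt _ (s0 i).2).1, Multiset.mem_singleton] at hi
      exact hi ▸ (hpt _ (s0 i).2).2.2
    rw [(hG s0).1 hs0] at hn hc
    have hc1 : ∀ i, (s0 i).1.card = 1 := fun i => by
      rw [(hpt _ (s0 i).2).1, Multiset.card_singleton]
    rw [Multiset.card_sum, sum_congr rfl fun i _ => hc1 i] at hc
    simp only [sum_const, card_univ, Fintype.card_fin, smul_eq_mul, mul_one] at hc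
    obtain ⟨Z, hZ⟩ : ∃ Z : Finset Pt, ∀ z, z ∈ Z ↔ (∃ x ∈ S, pt x = z) ∧ z.p ∣ m :=
      ⟨(S.image pt).filter fun z => z.p ∣ m, fun z => by simp⟩
    have hZc : Z.card ≤ n * m.primeFactors.card := by
      refine card_le_mul_card_image_of_maps_to (f := Pt.p) (fun z hz => ?_) n fun b _ =>
        h2 b _ fun z hz => ?_
      · obtain ⟨⟨x, hx, rfl⟩, hd⟩ := (hZ z).1 hz
        exact Nat.mem_primeFactors.2 ⟨(hpt x hx).2.2, hd, hn⟩
      · obtain ⟨⟨x, hx, rfl⟩, -⟩ := (hZ z).1 (mem_filter.1 hz).1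
        exact ⟨(hpt x hx).2.1, (mem_filter.1 hz).2⟩
    have h3 : G.card ≤ (Fintype.piFinset fun _ : Fin j => Z).card := by
      refine card_le_card_of_injOn (fun s i => pt (s i).1) (fun s hs => ?_) ?_
      · rw [mem_coe, Fintype.mem_piFinset]
        intro i
        refine (hZ _).2 ⟨⟨_, (s i).2, rfl⟩, ?_⟩
        rw [← (hG s).1 hs, nT_sum]
        refine Dvd.dvd.trans ?_ (dvd_prod_of_mem (fun i => nT (s i).1) (mem_univ i))
        conv_rhs => rw [(hpt _ (s i).2).1]
        simp [nT]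
      · intro s _ s' _ h
        funext i
        refine Subtype.ext ?_
        rw [(hpt _ (s i).2).1, (hpt _ (s' i).2).1]
        exact congrArg _ (congrFun h i)
    refine h3.trans ?_
    rw [Fintype.card_piFinset, prod_const, card_univ, Fintype.card_fin]
    exact Nat.pow_le_pow_left (by nlinarith) j
  exact_mod_cast this

end Pool.Agent.MP_f3836a_nt.GV.C
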