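import Pool.Agent.MP_f3836a_nt.GV.SpecD
import Pool.Agent.MP_f3836a_nt.VE.DShift

/-! Averaging over short shifts and bounds for the unit correction. -/

set_option autoImplicit false

namespace Pool.Agent.MP_f3836a_nt.GV

open Polynomial Finset VE

namespace GDShift

theorem fib {n : ℕ} (M : Tab ℤ (n + 1)) (hM : M 0 = 1) (l : ℕ) (hl : l.Prime) (w : Fin n → ℤ)
    (S : Finset (Fin (n + 1) → ℤ))
    (hS : ∀ v ∈ S, v 0 ∈ Ico (0 : ℤ) l ∧ (l : ℤ) ∣ Nm M v ∧ Fin.tail v = w) : S.card ≤ n + 1 := by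
  classical
  have := Fact.mk hl
  let N : Matrix (Fin (n + 1)) (Fin (n + 1)) (ZMod l) :=
    -(Int.castRingHom (ZMod l)).mapMatrix (∑ i, w i • M i.succ)
  refine le_trans (card_le_card_of_injOn (t := N.charpoly.roots.toFinset)
    (fun v => (v 0 : ZMod l)) (fun v hv => ?_) fun v hv v' hv' e => ?_)
    ((Multiset.toFinset_card_le _).trans ((card_roots' _).trans_eq ?_))
  · obtain ⟨-, h2, rfl⟩ := hS v hv
    have h := (ZMod.intCast_zmod_eq_zero_iff_dvd _ _).2 h2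
    rw [mem_coe, Multiset.mem_toFinset, mem_roots N.charpoly_monic.ne_zero, IsRoot,
      Matrix.eval_charpoly, ← h, Nm, Mx, Fin.sum_univ_succ, hM, ← eq_intCast (Int.castRingHom _),
      RingHom.map_det, map_add, sub_neg_eq_add]
    congr 2
    ext i j
    by_cases e : i = j <;> simp [e]
  · obtain ⟨h1, -, h2⟩ := hS v hv
    obtain ⟨h3, -, h4⟩ := hS v' hv'
    rw [mem_Ico] at h1 h3
    have h5 : v 0 = v' 0 := by
      have := (ZMod.intCast_eq_intCast_iff' _ _ _).1 e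
      rwa [Int.emod_eq_of_lt h1.1 h1.2, Int.emod_eq_of_lt h3.1 h3.2] at this
    rw [← Fin.cons_self_tail v, ← Fin.cons_self_tail v', h2, h4, h5]
  · rw [Matrix.charpoly_natDegree_eq_dim, Fintype.card_fin]

theorem nu_le {n : ℕ} (M : Tab ℤ (n + 1)) (hM : M 0 = 1) (l : ℕ) (hl : l.Prime) :
    0 ≤ nuG M l ∧ nuG M l ≤ (n + 1 : ℕ) * (1 / l) := by
  have h0 : (0 : ℝ) < l := Nat.cast_pos.2 hl.pos
  have h1 := card_le_mul_card_image_of_maps_to
    (s := (Fintype.piFinset fun _ : Fin (n + 1) => Ico (0 : ℤ) l).filter fun v => (l : ℤ) ∣ Nm M v)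
    (t := Fintype.piFinset fun _ : Fin n => Ico (0 : ℤ) l) (f := Fin.tail)
    (fun v hv => Fintype.mem_piFinset.2 fun i => Fintype.mem_piFinset.1 (mem_filter.1 hv).1 _)
    (n + 1) fun w _ => fib M hM l hl w _ fun v hv => by
      rw [mem_filter, mem_filter, Fintype.mem_piFinset] at hv
      exact ⟨hv.1.1 0, hv.1.2, hv.2⟩
  rw [Fintype.card_piFinset, prod_const, card_univ, Fintype.card_fin, Int.card_Ico, sub_zero,
    Int.toNat_natCast] at h1
  refine ⟨by unfold nuG; positivity, ?_⟩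
  rw [nuG, div_le_iff₀ (by positivity)]
  refine (Nat.cast_le.2 h1).trans_eq ?_
  push_cast
  field_simp
  ring

theorem one {ν t : ℝ} (h1 : 0 ≤ ν) (h2 : ν ≤ t) (h3 : t ≤ 1 / 2) :
    1 ≤ (1 - ν)⁻¹ ∧ (1 - ν)⁻¹ ≤ Real.exp (2 * t) := by
  have h7 : 0 < 1 - ν := by linarith
  refine ⟨(one_le_inv₀ h7).2 (by linarith), le_trans ?_ (Real.add_one_le_exp _)⟩
  rw [inv_eq_one_div, div_le_iff₀ h7]
  nlinarith

end GDShift

theorem rShift : GV.ShiftS := by
  intro ι _ _ lo H1 F M s κ Vs ω σ h1 hF hω hω1 hs hσ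
  have hM : 0 ≤ M := (abs_nonneg _).trans (hF 0)
  have hH : (0 : ℝ) < H1 := by exact_mod_cast h1
  have hc : ∀ j, (Ico (lo j) (lo j + H1)).card = H1 := fun j => by simp
  have hB : (0 : ℝ) < (box lo H1).card := by
    rw [box, Fintype.card_piFinset]
    exact_mod_cast prod_pos fun j _ => (hc j).symm ▸ h1
  unfold Eb
  rw [← sub_div, abs_div, abs_of_pos hB, div_le_iff₀ hB, sum_comm]
  have e1 : ∑ x ∈ box lo H1, F x - ∑ v ∈ Vs, ∑ x ∈ box lo H1, ω v * F (x + σ v)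
      = ∑ v ∈ Vs, ω v * (∑ x ∈ box lo H1, F x - ∑ x ∈ box lo H1, F (x + σ v)) := by
    simp only [mul_sub, sum_sub_distrib, ← sum_mul, hω1, one_mul, ← mul_sum]
  rw [e1]
  have e2 : ∀ v ∈ Vs, |ω v * (∑ x ∈ box lo H1, F x - ∑ x ∈ box lo H1, F (x + σ v))|
      ≤ ω v * (2 * Fintype.card ι * M * s / H1 * (box lo H1).card) := by
    intro v hv
    rw [abs_mul, abs_of_nonneg (hω v)]
    refine mul_le_mul_of_nonneg_left ?_ (hω v)
    have h4 := DShift.card_bad (fun j => Ico (lo j) (lo j + H1)) (σ v) (s / H1) fun j => by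
      rw [hc, div_mul_cancel₀ _ hH.ne']
      exact (DShift.card_ico _ _ _).trans (hσ v hv j)
    refine (DShift.shift_one (box lo H1) F M (σ v) hF).trans
      ((mul_le_mul_of_nonneg_left h4 (by positivity : 0 ≤ 2 * M)).trans_eq ?_)
    unfold box
    ring
  refine (abs_sum_le_sum_abs _ _).trans ((sum_le_sum e2).trans_eq ?_)
  rw [← sum_mul, hω1, one_mul]

theorem rRat : GV.RatS := by
  intro n _ M W Q hM hW
  obtain ⟨n, rfl⟩ := Nat.exists_eq_succ_of_ne_zero (NeZero.ne n)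
  have h : ∀ l ∈ Q.primeFactors.filter fun l => ¬l ∣ W,
      1 ≤ (1 - nuG M l)⁻¹ ∧ (1 - nuG M l)⁻¹ ≤ Real.exp (2 * ((n + 1 : ℕ) * (1 / l))) := fun l hl => by
    have h4 := Nat.prime_of_mem_primeFactors (mem_filter.1 hl).1
    have h5 : 2 * (n + 1) ≤ l := (not_le.1 fun e => (mem_filter.1 hl).2 (hW l h4 e)).le
    obtain ⟨h6, h7⟩ := GDShift.nu_le M hM l h4
    refine GDShift.one h6 h7 ?_
    rw [mul_one_div, div_le_div_iff₀ (Nat.cast_pos.2 h4.pos) two_pos, one_mul, mul_comm]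
    exact_mod_cast h5
  refine ⟨prod_const_one.symm.trans_le
    (prod_le_prod (fun _ _ => zero_le_one) fun l hl => (h l hl).1), ?_⟩
  rw [ratG, sig, Int.natAbs_natCast, mul_sum, Real.exp_sum]
  exact prod_le_prod (fun l hl => zero_le_one.trans (h l hl).1) fun l hl =>
    (h l hl).2.trans_eq (by rw [mul_assoc])

end Pool.Agent.MP_f3836a_nt.GV
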