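import Pool.Agent.MP_f3836a_nt.GV.SpecC2
import Pool.Agent.MP_f3836a_nt.GV.GDShift

/-! The density of the zeros of the norm form. -/

set_option autoImplicit false

namespace Pool.Agent.MP_f3836a_nt.GV.C

open Finset VE

namespace GCNu

theorem lt_one {n : ℕ} [NeZero n] (M : Tab ℤ n) (hM : M 0 = 1) (l : ℕ) (hl : l.Prime) :
    nuG M l < 1 := by
  have h0 : (0 : ℝ) < l := Nat.cast_pos.2 hl.pos
  have h1 : (1 : ℤ) < l := by exact_mod_cast hl.one_lt
  have h2 : Nm M (Pi.single 0 1) = 1 := by simp [Nm, Mx, Pi.single_apply, hM]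
  have h3 := card_lt_card (filter_ssubset.2 ⟨Pi.single 0 1, Fintype.mem_piFinset.2 fun i => by
      rw [mem_Ico, Pi.single_apply]
      split_ifs <;> omega, by
      rw [h2]
      exact fun h => (Int.le_of_dvd one_pos h).not_gt h1⟩ :
    ((Fintype.piFinset fun _ : Fin n => Ico (0 : ℤ) l).filter fun v => (l : ℤ) ∣ Nm M v) ⊂ _)
  rw [Fintype.card_piFinset, prod_const, card_univ, Fintype.card_fin, Int.card_Ico, sub_zero,
    Int.toNat_natCast] at h3
  rw [nuG, div_lt_one (by positivity)]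
  exact_mod_cast h3

end GCNu

theorem rNu : NuS := by
  intro n r _ o l h hl
  have hM : o.M 0 = 1 := by rw [Od.M, h.one, map_one]
  have h1 := GCNu.lt_one o.M hM l hl
  obtain ⟨n, rfl⟩ := Nat.exists_eq_succ_of_ne_zero (NeZero.ne n)
  obtain ⟨h2, h3⟩ := GDShift.nu_le o.M hM l hl
  rw [mul_one_div] at h3
  refine ⟨h2, h3, sub_pos.2 h1, fun h4 => ?_⟩
  have h5 : ((n + 1 : ℕ) : ℝ) / l ≤ 1 / 2 := by
    rw [div_le_div_iff₀ (Nat.cast_pos.2 hl.pos) two_pos, one_mul, mul_comm]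
    exact_mod_cast h4
  exact ⟨h3.trans h5, (GDShift.one h2 h3 h5).2.trans_eq (by rw [mul_div_assoc])⟩

end Pool.Agent.MP_f3836a_nt.GV.C
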