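import Pool.Agent.MP_f3836a_nt.GV.SpecC2

/-! The shifts. -/

set_option autoImplicit false

namespace Pool.Agent.MP_f3836a_nt.GV.C

open Finset VE

namespace GCOm

theorem em_mul {n r : ℕ} (o : Od n r) (Q : ℕ) (a : o.A) : o.em (Q * a) = (Q : ℝ) • o.em a := by
  rw [map_mul, map_natCast]
  ext w
  simp

theorem vb_le (r : ℕ) {R ρ : ℝ} (h0 : 0 ≤ ρ) (h : ρ ≤ R) :
    vb r (R + 2 * ρ) ≤ vb r 3 * R ^ (2 * r) := by
  unfold vb
  rw [pow_mul, ← mul_pow]
  refine pow_le_pow_left₀ (by positivity) ?_ r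
  rw [mul_assoc]
  refine mul_le_mul_of_nonneg_left ?_ Real.pi_pos.le
  nlinarith

end GCOm

open Classical in
theorem rOm : OfOm := by
  intro hRs hTn hSub hBa hOrd n r _ o B R Q ho hB hQ hR hQR
  obtain ⟨-, hinj, -, h0, hnm, -, -, -, -, -, -, -, hcard⟩ := hBa n r o ho
  have hL := hOrd n r o B ho hB
  have hQ0 : (0 : ℝ) < Q := by exact_mod_cast hQ
  have hQ1 : (1 : ℝ) ≤ Q := by exact_mod_cast hQ
  set h : (Fin n → ℤ) →+ o.A := (AddMonoidHom.mulLeft (Q : o.A)).comp o.co.toAddMonoidHom with hh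
  have hap : ∀ v, h v = Q * o.co v := fun _ => rfl
  have hi : Function.Injective h := by
    intro v v' e
    have e' := congrArg o.em e
    rw [hap, hap, GCOm.em_mul, GCOm.em_mul] at e'
    exact o.co.injective (hinj (smul_right_injective _ hQ0.ne' e'))
  have hc : ∀ x, ∃ v, ‖x - o.em.toAddMonoidHom (h v)‖ ≤ Q * (n * B) := by
    intro x
    obtain ⟨a, ha⟩ := hL.cov ((Q : ℝ)⁻¹ • x)
    refine ⟨o.co.symm a, ?_⟩
    have e : x - o.em.toAddMonoidHom (h (o.co.symm a))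
        = (Q : ℝ) • ((Q : ℝ)⁻¹ • x - o.em.toAddMonoidHom a) := by
      rw [smul_sub, smul_inv_smul₀ hQ0.ne', hap, AddEquiv.apply_symm_apply]
      exact congrArg _ (GCOm.em_mul o Q a)
    rw [e, norm_smul, Real.norm_of_nonneg hQ0.le]
    exact mul_le_mul_of_nonneg_left ha hQ0.le
  have hQA : (Q : o.A) ≠ 0 := by
    intro e
    have := hnm Q
    rw [e, h0] at this
    exact pow_ne_zero n hQ.ne' this.symm
  have hidx : h.range.index = Q ^ n := by
    have e : h.range = (Ideal.span {(Q : o.A)}).toAddSubgroup := by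
      ext a
      rw [Submodule.mem_toAddSubgroup, Ideal.mem_span_singleton, AddMonoidHom.mem_range]
      exact ⟨fun ⟨v, hv⟩ => ⟨_, hv.symm⟩, fun ⟨c, hc⟩ =>
        ⟨o.co.symm c, by rw [hap, AddEquiv.apply_symm_apply, hc]⟩⟩
    rw [e, ← hnm Q, ← hcard _ hQA]
    rfl
  have hL' := (hSub r _ _ _ h _ _ _ hL hi hc).2
  rw [hidx] at hL'
  obtain ⟨-, hρ, -, -, hS, hI⟩ := hRs r _ _ _ _ hL'
  obtain ⟨S, hS, -⟩ := hS 0 R hR.le
  obtain ⟨hT, hint⟩ := (hTn r).2.2.2 R 0 hR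
  simp only [sub_zero] at hT hint hS
  have hsup : ∀ v, tn (R⁻¹ • o.em (Q * o.co v)) ≠ 0 → ‖o.em (Q * o.co v)‖ ≤ R := fun v hv => by
    simpa using hT.sup _ hv
  have hV : ∀ v, v ∈ S.filter (fun v => tn (R⁻¹ • o.em (Q * o.co v)) ≠ 0) ↔
      tn (R⁻¹ • o.em (Q * o.co v)) ≠ 0 := fun v =>
    ⟨fun hv => (mem_filter.1 hv).2, fun hv => mem_filter.2
      ⟨(hS v).2 ((hsup v hv).trans (le_add_of_nonneg_right hρ)), hv⟩⟩
  refine ⟨_, hV, fun v hv => ?_, ?_⟩
  · have := hsup v ((hV v).1 hv)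
    rw [GCOm.em_mul, norm_smul, Real.norm_of_nonneg hQ0.le] at this
    nlinarith [norm_nonneg (o.em (o.co v))]
  · have h1 := hI _ _ _ _ _ hT fun v hv => (hV v).2 hv
    rw [hint, ← ho.two] at h1
    have h2 := GCOm.vb_le r hρ hQR
    rw [← ho.two] at h2
    have hRn : 0 < R ^ n := by positivity
    have h3 := h1.trans (mul_le_mul_of_nonneg_left h2 (mul_nonneg (by positivity) hρ))
    change |(Q ^ n : ℕ) * o.V0 * ∑ v ∈ _, tn (R⁻¹ • o.em (Q * o.co v)) - _| ≤ _ at h3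
    rw [Nat.cast_pow] at h3
    refine le_of_mul_le_mul_right ?_ hRn
    rw [← abs_of_pos hRn, ← abs_mul, abs_of_pos hRn, sub_mul]
    rw [mul_right_comm (_ / _), div_mul_cancel₀ _ hRn.ne']
    exact h3.trans (le_of_eq (by ring))

end Pool.Agent.MP_f3836a_nt.GV.C
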