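import Pool.Agent.MP_f3836a_nt.GV.SpecC2

/-! The order is a lattice. -/

set_option autoImplicit false

namespace Pool.Agent.MP_f3836a_nt.GV.C

open Finset

theorem rOrd2 : OfOrd := by
  intro hB n r _ o B ok hS
  obtain ⟨r1, -, b1, -, -, -, -, -, -, -, b2, -⟩ := hB n r o ok
  refine ⟨⟨1, one_pos, fun a ha => by_contra fun c => ?_⟩, fun x => ?_, rfl⟩
  · have h1 : (1 : ℝ) ≤ o.nm a := by exact_mod_cast Nat.pos_of_ne_zero (b1 a ha).1
    have : Nonempty (Fin r) := ⟨⟨0, r1⟩⟩
    have h2 : ∏ w, ‖o.em a w‖ ^ 2 < ∏ _w : Fin r, (1 : ℝ) :=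
      prod_lt_prod_of_nonempty (fun w _ => pow_pos (norm_pos_iff.2 ((b1 a ha).2 w)) 2)
        (fun w _ => pow_lt_one₀ (norm_nonneg _) ((norm_le_pi_norm _ w).trans_lt (not_le.1 c))
          two_ne_zero) univ_nonempty
    rw [← ok.nrm, prod_const_one] at h2
    linarith
  · let f : (Fin n → ℝ) →ₗ[ℝ] E r :=
      { toFun := fun β w => emb (o.Φ w) β
        map_add' := fun a b => funext fun w => by simp [emb, add_mul, sum_add_distrib]
        map_smul' := fun a b => funext fun w => by simp [emb, mul_sum, mul_assoc] }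
    have hf : Function.Surjective f := (LinearMap.injective_iff_surjective_of_finrank_eq_finrank
      (by rw [finrank_E, ← ok.two]; simp)).1 ((injective_iff_map_eq_zero f).2 fun β h =>
        ok.emb.inj β fun w => congrFun h w)
    obtain ⟨t, rfl⟩ := hf x
    have B0 : 0 ≤ B := (norm_nonneg _).trans (hS ⟨0, r1⟩ 0)
    refine ⟨o.co fun i => ⌊t i⌋, (pi_norm_le_iff_of_nonneg (by positivity)).2 fun w => ?_⟩
    have e : (f t - o.em.toAddMonoidHom (o.co fun i => ⌊t i⌋)) w
        = ∑ i, (Int.fract (t i) : ℝ) * o.Φ w i := by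
      rw [Pi.sub_apply, RingHom.toAddMonoidHom_eq_coe, AddMonoidHom.coe_coe, b2]
      change emb _ t - _ = _
      rw [emb, emb, ← sum_sub_distrib]
      exact sum_congr rfl fun i _ => by rw [← sub_mul, Int.fract, Complex.ofReal_sub]
    rw [e]
    refine (norm_sum_le _ _).trans ((sum_le_card_nsmul _ _ B fun i _ => ?_).trans (by simp))
    rw [norm_mul, Complex.norm_real, Real.norm_of_nonneg (Int.fract_nonneg _)]
    exact (mul_le_of_le_one_left (norm_nonneg _) (Int.fract_lt_one _).le).trans (hS w i)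

end Pool.Agent.MP_f3836a_nt.GV.C
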