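import Pool.Agent.MP_f3836a_nt.GV.SpecC2

/-! Block C: oscillation of a product of two characters. -/

set_option autoImplicit false

namespace Pool.Agent.MP_f3836a_nt.GV.C

open Finset NumberField VE

namespace GCOsc

variable {n r : ℕ} [NeZero n] {o : Od n r} {Q : ℕ}

theorem io_one (bab : BabS) (ok : o.Ok) (hQ : 0 < Q) : o.Cp Q 1 ∧ o.io Q 1 = 0 := by
  have a := (bab n r o Q ok hQ).2.1 1 (o.pm_one Q)
  rwa [o.pr_one, o.cI_one] at a

theorem ch_congr (bab : BabS) (ok : o.Ok) (hQ : 0 < Q) (χ : AddChar (o.RC Q) ℂ) {a b : o.A}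
    (h : (Q : o.A) ∣ b - a) : o.chO Q χ b = o.chO Q χ a := by
  have k := (bab n r o Q ok hQ).2.2.1
  unfold Od.chO
  by_cases c : o.Cp Q a
  · rw [if_pos c, if_pos (k a b c h).1, (k a b c h).2]
  · rw [if_neg c, if_neg fun d => c (k b a d (dvd_sub_comm.1 h)).1]

theorem ch_mul (bab : BabS) (ok : o.Ok) (hQ : 0 < Q) (χ : AddChar (o.RC Q) ℂ) {a : o.A}
    (h : o.Cp Q a) (b : o.A) : o.chO Q χ (a * b) = χ (o.io Q a) * o.chO Q χ b := by
  have k := (bab n r o Q ok hQ).2.2.2.1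
  unfold Od.chO
  by_cases c : o.Cp Q b
  · rw [if_pos c, if_pos (k a b h c).1, (k a b h c).2, AddChar.map_add_eq_mul]
  · rw [if_neg c, if_neg, mul_zero]
    intro d
    rw [Od.Cp, o.nm_mul] at d
    exact c d.coprime_mul_left

theorem ch_le (baa : BaaS) (bab : BabS) (ok : o.Ok) (hQ : 0 < Q) (χ : AddChar (o.RC Q) ℂ)
    (a : o.A) : ‖o.chO Q χ a‖ ≤ 1 := by
  unfold Od.chO
  split_ifs with c
  swap
  · simp
  obtain ⟨-, -, -, n0, nn, -, -, cp, -, -, -, -, cd⟩ := baa n r o ok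
  have q0 : o.nm Q ≠ 0 := by rw [nn]; positivity
  have : Finite (o.A ⧸ Ideal.span {(Q : o.A)}) :=
    Nat.finite_of_card_ne_zero (by rw [cd _ fun e => q0 (by rw [e, n0])]; exact q0)
  obtain ⟨a', ha⟩ := (cp Q a).1 c
  have u : IsUnit (Ideal.Quotient.mk (Ideal.span {(Q : o.A)}) a) :=
    IsUnit.of_mul_eq_one (Ideal.Quotient.mk _ a') (by
      rw [← map_mul, ← map_one (Ideal.Quotient.mk _), Ideal.Quotient.eq, Ideal.mem_span_singleton]
      exact ha)
  obtain ⟨k, k0, hk⟩ := isOfFinOrder_iff_pow_eq_one.1 u.isOfFinOrder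
  rw [← map_pow, ← map_one (Ideal.Quotient.mk _), Ideal.Quotient.eq, Ideal.mem_span_singleton] at hk
  have pw : ∀ j : ℕ, o.Cp Q (a ^ j) ∧ o.io Q (a ^ j) = j • o.io Q a := fun j => by
    induction j with
    | zero => simpa using io_one bab ok hQ
    | succ j ih =>
      have := (bab n r o Q ok hQ).2.2.2.1 _ _ ih.1 c
      rw [pow_succ, succ_nsmul, ← ih.2]
      exact this
  have e := ((bab n r o Q ok hQ).2.2.1 1 _ (io_one bab ok hQ).1 hk).2
  rw [(pw k).2, (io_one bab ok hQ).2] at e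
  have e' : χ (o.io Q a) ^ k = 1 := by rw [← AddChar.map_nsmul_eq_pow, e, AddChar.map_zero_eq_one]
  exact (Complex.norm_eq_one_of_pow_eq_one e' k0.ne').le

omit [NeZero n] in
theorem exists_mul {I : Ideal (𝓞 o.L)} {b : (Fin n → ℤ) →+ o.A} (hb : o.IsB I b) (a : o.A) :
    ∃ C : (Fin n → ℤ) →+ (Fin n → ℤ), ∀ x, b (C x) = a * b x := by
  have h : ∀ x, ∃ y, b y = a * b x := fun x => (hb.mem _).1 (by
    rw [map_mul]
    exact I.mul_mem_left _ ((hb.mem _).2 ⟨x, rfl⟩))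
  choose f hf using h
  exact ⟨AddMonoidHom.mk' f fun x y => hb.inj (by rw [map_add, hf, hf, hf, map_add, mul_add]), hf⟩

end GCOsc

open GCOsc in
theorem rOsc : OfOsc := by
  intro baa bab n r _ o W Q Q' l m I b χ χ' c P ok hb hm hQ hQ' hW hl hlQ' hc hc1 hχ hP
  obtain ⟨-, -, -, -, -, adj, md, -⟩ := baa n r o ok
  have k3 := fun q hq => (bab n r o q ok hq).2.2.1
  have lQ : l ∣ Q := by
    by_contra e
    rw [Nat.factorization_eq_zero_of_not_dvd e, pow_zero, Nat.div_one] at hc1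
    rw [(k3 Q hQ 1 c (io_one bab ok hQ).1 hc1).2, (io_one bab ok hQ).2] at hχ
    exact hχ χ.map_zero_eq_one
  obtain ⟨B, hB⟩ : ∃ B, B = Q' * ∏ p ∈ P.erase l, p := ⟨_, rfl⟩
  have cop : (ordProj[l] Q).Coprime B := by
    rw [hB]
    refine Nat.Coprime.pow_left _ (Nat.Coprime.mul_right ((hl.coprime_iff_not_dvd).2 hlQ')
      (Nat.Coprime.prod_right fun p hp => ?_))
    exact (Nat.coprime_primes hl (hP p (mem_of_mem_erase hp))).2 (ne_of_mem_erase hp).symm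
  obtain ⟨u, v, huv⟩ := (Nat.isCoprime_iff_coprime.2 cop).map (Int.castRingHom o.A)
  simp only [map_natCast] at huv
  obtain ⟨c', hc'⟩ : ∃ c', c' = 1 + v * B * (c - 1) := ⟨_, rfl⟩
  have d1 : (B : o.A) ∣ c' - 1 := ⟨v * (c - 1), by rw [hc']; ring⟩
  have d2 : (Q : o.A) ∣ c' - c := by
    obtain ⟨y, hy⟩ := hc1
    refine ⟨-(u * y), ?_⟩
    conv_rhs => rw [← Nat.ordProj_mul_ordCompl_eq_self Q l, Nat.cast_mul]
    linear_combination hc' + (c - 1) * huv - u * ((ordProj[l] Q : ℕ) : o.A) * hy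
  have d3 : (Q' : o.A) ∣ c' - 1 := (Nat.cast_dvd_cast (hB ▸ dvd_mul_right _ _)).trans d1
  obtain ⟨cq, eq⟩ := k3 Q hQ c c' hc d2
  have cq' := (k3 Q' hQ' 1 c' (io_one bab ok hQ').1 d3).1
  have np : ∀ p ∈ P, ¬p ∣ o.nm c' := fun p hp e => by
    by_cases h : p = l
    · exact (hP p hp).ne_one (Nat.eq_one_of_dvd_coprimes cq e (h ▸ lQ))
    · have := md p 1 c' ((Nat.cast_dvd_cast (hB ▸ Dvd.dvd.mul_left
        (dvd_prod_of_mem (fun p => p) (mem_erase.2 ⟨h, hp⟩)) _)).trans d1)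
      rw [o.nm_one] at this
      exact (hP p hp).ne_one (Nat.dvd_one.1 ((this.dvd_iff dvd_rfl).1 e))
  obtain ⟨t0, ht0⟩ := (Nat.cast_dvd_cast hW).trans d3
  obtain ⟨t, ht⟩ := (hb.mem (m * t0)).1 (by
    rw [map_mul, map_natCast]
    exact I.mul_mem_right _ hm)
  obtain ⟨a', ha'⟩ := adj c'
  obtain ⟨C, hC⟩ := exists_mul hb c'
  obtain ⟨C', hC'⟩ := exists_mul hb a'
  have key : ∀ x, (m : o.A) + W * b (t + C x) = c' * (m + W * b x) := fun x => by
    rw [map_add, ht, hC]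
    linear_combination (-m : o.A) * ht0
  refine ⟨Nat.mul_pos hQ hQ', fun x y => ?_, fun x => ?_, t, C, C', o.nm c', χ (o.io Q c),
    Nat.Coprime.mul_right cq cq', np, fun x => hb.inj ?_, hχ, fun x => ⟨?_, fun p hp => ?_⟩⟩
  · have e : (m : o.A) + W * b (x + ((Q * Q' : ℕ) : ℤ) • y) - (m + W * b x)
        = Q * (Q' * (W * b y)) := by
      rw [map_add, map_zsmul, zsmul_eq_mul]
      push_cast
      ring
    rw [ch_congr bab ok hQ χ ⟨_, e⟩, ch_congr bab ok hQ' χ' ⟨_, e.trans (mul_left_comm _ _ _)⟩]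
  · rw [norm_mul, Complex.norm_conj]
    exact mul_le_one₀ (ch_le baa bab ok hQ χ _) (norm_nonneg _) (ch_le baa bab ok hQ' χ' _)
  · rw [hC', hC, map_zsmul, zsmul_eq_mul, Int.cast_natCast, ← ha']
    ring
  · rw [key, ch_mul bab ok hQ χ cq, eq, mul_assoc, ch_congr bab ok hQ' χ' (a := m + W * b x)
      (by rw [← sub_one_mul]; exact d3.mul_right _)]
  · rw [Od.Zf, Od.Zf, key, o.nm_mul, (hP p hp).dvd_mul, or_iff_right (np p hp)]

end Pool.Agent.MP_f3836a_nt.GV.C
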