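import Pool.Agent.MP_f3836a_nt.GV.SpecC2

/-! The generators in a residue class. -/

set_option autoImplicit false

namespace Pool.Agent.MP_f3836a_nt.GV.C

open Finset NumberField VE
open VE.BC (dvd_mul_sub)

namespace GCPaa

theorem cop {Q m n' c : ℕ} (h0 : m ≠ 0) (h : m ^ 2 ∣ Q) (hn : n'.Coprime Q)
    (e : m * c ≡ m * n' [MOD Q]) : c.Coprime Q := by
  obtain ⟨k, rfl⟩ := h
  rw [pow_two, mul_assoc] at e hn ⊢
  have h1 : c.Coprime (m * k) := by
    rw [Nat.Coprime, (e.mul_left_cancel' h0).gcd_eq]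
    exact hn.coprime_mul_left_right
  exact h1.coprime_mul_right_right.mul_right h1

theorem crt (D Q : ℕ) (hD : D ≠ 0) : ∃ (D' : ℕ) (a b : ℤ), a * Q + b * D' = 1 ∧
    ∀ x : ℕ, x.Coprime Q → x.Coprime D' → x.Coprime (D * Q) := by
  obtain ⟨a, b, h⟩ : IsCoprime (Q : ℤ) ((∏ p ∈ D.primeFactors.filter (¬ · ∣ Q), p : ℕ) : ℤ) := by
    rw [Nat.isCoprime_iff_coprime]
    refine Nat.Coprime.prod_right fun p hp => ?_
    rw [mem_filter] at hp
    exact ((Nat.prime_of_mem_primeFactors hp.1).coprime_iff_not_dvd.2 hp.2).symm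
  refine ⟨_, a, b, h, fun x h1 h2 => Nat.Coprime.mul_right ?_ h1⟩
  refine Nat.coprime_of_dvd fun p hp px pD => ?_
  by_cases c : p ∣ Q
  · exact hp.one_lt.ne' (Nat.eq_one_of_dvd_coprimes h1 px c)
  · exact hp.one_lt.ne' (Nat.eq_one_of_dvd_coprimes h2 px (dvd_prod_of_mem _
      (mem_filter.2 ⟨Nat.mem_primeFactors.2 ⟨hp, pD, hD⟩, c⟩)))

variable {n r : ℕ} {o : Od n r}

theorem dv {Q : ℕ} {I J : Ideal (𝓞 o.L)} (h : I * J ∈ o.MQ Q) : J ∈ o.MQ Q := by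
  rw [Od.mem_MQ, map_mul] at h
  exact ⟨right_ne_zero_of_mul h.1, h.2.coprime_mul_left⟩

theorem ne0 {Q : ℕ} {I : Ideal (𝓞 o.L)} (h : I ∈ o.MQ Q) : I ≠ 0 := fun e =>
  h.1 (by rw [e, map_zero])

theorem pd {a b : o.A} (h : o.pr a ∣ o.pr b) : o.inc a ∣ o.inc b :=
  Ideal.span_singleton_le_span_singleton.1 (Ideal.le_of_dvd h)

theorem lg [NeZero n] (hk : o.Ok) {a b : o.A} {ξ : E r} (ha : o.nm a ≠ 0)
    (h : ∀ w, o.em a w * Complex.exp (ξ w) = o.em b w) :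
    Lg ξ = Real.log (o.nm b) - Real.log (o.nm a) := by
  have : (o.nm b : ℝ) = o.nm a * Real.exp (Lg ξ) := by
    rw [hk.nrm, hk.nrm, Lg, mul_sum, Real.exp_sum, ← prod_mul_distrib]
    refine prod_congr rfl fun w _ => ?_
    rw [← h, norm_mul, Complex.norm_exp, mul_pow, ← Real.exp_nat_mul, Nat.cast_ofNat]
  rw [this, Real.log_mul (by exact_mod_cast ha) (Real.exp_ne_zero _), Real.log_exp]
  ring

theorem ex_lq {x y : E r} (hx : ∀ w, x w ≠ 0) (hy : ∀ w, y w ≠ 0) (w : Fin r) :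
    y w * Complex.exp (lq x y w) = x w := by
  rw [lq, Complex.exp_log (div_ne_zero (hx w) (hy w)), mul_div_cancel₀ _ (hy w)]

/-- the relation between a generator and a residue -/
def Rl (o : Od n r) (Q : ℕ) (β0 x u : o.A) : Prop := ∃ a a', o.Pm Q a ∧ o.Pm Q a' ∧
  (Q : o.A) ∣ a - 1 ∧ (Q : o.A) ∣ a' - 1 ∧ a * x = a' * u * β0

theorem fr {Q : ℕ} {lam : Ideal (𝓞 o.L) → E r} (hl : o.Lam Q lam) {I b c : Ideal (𝓞 o.L)}
    {β β0 x u : o.A} (hI : I ≠ 0) (hβ : ∀ w, o.em β w ≠ 0) (e0 : o.pr β0 = I * c)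
    (e1 : o.pr x = I * b) (hb : b ∈ o.MQ Q) (hc : o.pr u * c ∈ o.MQ Q) (h : Rl o Q β0 x u)
    {ξ1 : E r} (h1 : ∀ w, o.em β w * Complex.exp (ξ1 w) = o.em (u * β0) w) :
    o.cI Q b = o.cI Q (o.pr u * c) ∧ ∀ ξ : E r, (∀ w, o.em β w * Complex.exp (ξ w) = o.em x w) →
      lam b - (lam (o.pr u * c) - ξ1) - ξ ∈ o.LQ Q := by
  obtain ⟨a, a', pa, pa', da, da', e⟩ := h
  have e2 : o.pr a * b = o.pr a' * (o.pr u * c) := mul_left_cancel₀ hI (by
    rw [mul_left_comm, ← e1, ← o.pr_mul, e, o.pr_mul, o.pr_mul, e0]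
    ring)
  refine ⟨(o.cI_eq hb hc).2 ⟨a, a', pa, pa', da, da', e2⟩, fun ξ hξ => ?_⟩
  have r1 := hl.rel a a' (ξ - ξ1) pa pa' (by simpa using dvd_sub da' da) fun w => by
    have := congrArg (fun z => o.em z w) e
    simp only [mul_assoc, map_mul o.em a, map_mul o.em a', Pi.mul_apply, ← h1, ← hξ] at this
    rw [Pi.sub_apply, Complex.exp_sub, ← mul_div_assoc, div_eq_iff (Complex.exp_ne_zero _)]
    exact mul_left_cancel₀ (hβ w) (by linear_combination this)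
  have r2 := hl.add _ pa _ hb
  rw [e2] at r2
  convert add_mem (sub_mem (hl.add _ pa' _ hc) r2) r1 using 1
  abel

end GCPaa

open GCPaa in
theorem rPaa : OfPaa := by
  classical
  intro hA hB hN n r _ o W Q m n' lam π I β hk hW hWQ hQ hl hπ hI hm hβ hmQ hn hc
  obtain ⟨-, -, a3, a4, -, -, a7, a8, a9, -⟩ := hA n r o hk
  obtain ⟨b1, b2, -⟩ := hB n r o Q hk hQ
  obtain ⟨-, w2, w3, -⟩ := hB n r o W hk (by omega)
  have c1 := (hB n r o 1 hk one_pos).1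
  have := hk.inj.isDomain o.inc
  have Q2 : 2 ≤ Q := hW.trans (Nat.le_of_dvd hQ hWQ)
  have m0 : m ≠ 0 := hm ▸ hI.1
  have z0 : ∀ x : ℕ, x.Coprime Q → x ≠ 0 := by
    rintro _ h rfl
    rw [Nat.coprime_zero_left] at h
    omega
  have ne : ∀ {a : o.A}, o.nm a ≠ 0 → ∀ w, o.em a w ≠ 0 := fun {a} h =>
    (a3 a fun e => h (e ▸ a4)).2
  have nβ : o.nm β ≠ 0 := hn ▸ mul_ne_zero m0 (z0 _ hc)
  have cp : ∀ {x b}, (Q : o.A) ∣ x - β → o.pr x = I * b → (Ideal.absNorm b).Coprime Q :=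
    fun {x b} h e => cop m0 hmQ hc (by
      have := a7 Q _ _ h
      rwa [hn, Od.nm, e, map_mul, hm] at this)
  obtain ⟨K, k1, k2, k3, k4⟩ := hN n r o Q m n' I β hk hQ (o.MQ_anti (one_dvd _) hI) hm hβ hmQ hn hc
  obtain ⟨D', s, t, hst, hD⟩ := crt o.D Q hk.dne
  obtain ⟨β0, d0, d1⟩ : ∃ β0, (Q : o.A) ∣ β0 - β ∧ (D' : o.A) ∣ β0 - 1 := by
    have : (s : o.A) * Q + t * D' = 1 := by exact_mod_cast congrArg (Int.cast : ℤ → o.A) hst
    exact ⟨β + Q * (s * (1 - β)), by simp, t * (β - 1), by linear_combination (1 - β) * this⟩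
  obtain ⟨c, e0⟩ : I ∣ o.pr β0 := by
    obtain ⟨v, hv⟩ := d0
    obtain ⟨k, hk⟩ := (dvd_pow_self m two_ne_zero).trans hmQ
    rw [Ideal.dvd_iff_le, Od.pr, Ideal.span_singleton_le_iff_mem, eq_add_of_sub_eq hv, map_add,
      map_mul, map_natCast, hk, Nat.cast_mul, mul_assoc, ← hm]
    exact add_mem (I.mul_mem_right _ I.absNorm_mem) hβ
  have cQ : c ∈ o.MQ Q := by
    refine ⟨z0 _ (cp d0 e0), hD _ (cp d0 e0) ?_⟩
    have := (a7 D' _ _ d1).gcd_eq
    rw [o.nm_one, Nat.gcd_one_left, Od.nm, e0, map_mul] at this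
    exact Nat.Coprime.coprime_mul_left this
  have pW : o.Pm W β0 := by
    rw [Od.Pm, e0]
    exact mul_mem hI (o.MQ_anti hWQ cQ)
  have β0n : β0 ≠ 0 := fun e => pW.1 (by rw [e]; exact a4)
  have du : ∀ u ∈ K, (Q : o.A) ∣ u * β0 - β := fun u hu => by
    convert dvd_add (d0.mul_left u) (k2 u hu).2.1 using 1
    ring
  have pu : ∀ u ∈ K, o.Pm W (u * β0) := fun u hu => Od.Pm.mul o (o.MQ_anti hWQ (k2 u hu).1) pW
  have h1 := fun u (hu : u ∈ K) => ex_lq (ne (pu u hu).1) (ne nβ)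
  have uq : ∀ {x u u'}, u ∈ K → u' ∈ K → Rl o Q β0 x u → Rl o Q β0 x u' → u' = u := by
    rintro x u u' hu hu' ⟨a, a', -, -, da, da', e⟩ ⟨b, b', -, -, db, db', e'⟩
    have : a * b' * u' = b * a' * u := mul_right_cancel₀ β0n (by linear_combination b * e - a * e')
    refine k3 u hu u' hu' ?_
    convert dvd_sub ((dvd_mul_sub db da').mul_right u) ((dvd_mul_sub da db').mul_right u') using 1
    linear_combination this
  have sp : ∀ {x u}, u ∈ K → Rl o Q β0 x u →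
      Classical.epsilon (fun u => u ∈ K ∧ Rl o Q β0 x u) = u := fun {x u} hu h =>
    have := Classical.epsilon_spec (p := fun u => u ∈ K ∧ Rl o Q β0 x u) ⟨u, hu, h⟩
    uq hu this.1 h this.2
  have F := fun {b x u} (hu : u ∈ K) (e1 : o.pr x = I * b) (hb : b ∈ o.MQ Q) h =>
    fr hl (ne0 hI) (ne nβ) e0 e1 hb (mul_mem (k2 u hu).1 cQ) h (h1 u hu)
  refine ⟨K, fun u => o.cI Q (o.pr u * c), fun u => lam (o.pr u * c) - lq (o.em (u * β0)) (o.em β),
    fun v => Classical.epsilon fun u => u ∈ K ∧ Rl o Q β0 (β + Q * v) u, k1, fun u hu => ?_,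
    fun b hb => ⟨fun v e1 => ?_, fun bQ u hu e ξ hξ => ?_⟩⟩
  · have hJ := mul_mem (k2 u hu).1 cQ
    have e : o.pr (u * β0) = o.pr u * c * I := by rw [o.pr_mul, e0]; ring
    refine ⟨?_, ?_⟩
    · rw [Lg_sub, hl.nrm _ hJ, lg hk nβ (h1 u hu), Od.nm, e, map_mul _ _ I, hm,
        Nat.cast_mul, Real.log_mul (by exact_mod_cast hJ.1) (by exact_mod_cast m0)]
      ring
    · rw [hπ.cl _ hJ, ← o.cI_mul (o.MQ_anti hWQ hJ) hI, ← e, ← (w2 _ (pu u hu)).2]
      exact ((w3 _ _ (w2 _ (pu u hu)).1 (dvd_sub_comm.1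
        ((Nat.cast_dvd_cast hWQ).trans (du u hu)))).2).symm
  · have dx : (Q : o.A) ∣ β + Q * v - β := by simp
    have bQ : b ∈ o.MQ Q := ⟨hb.1, (by simpa using hb.2 : (Ideal.absNorm b).Coprime o.D).mul_right
      (cp dx e1)⟩
    dsimp only
    generalize β + Q * v = x at dx e1 ⊢
    obtain ⟨k, hk1⟩ : ∃ k, Q.totient = k + 1 :=
      Nat.exists_eq_add_one_of_ne_zero (Nat.totient_pos.2 hQ).ne'
    have p1 := o.pm_nat (pow_ne_zero (k + 1) cQ.1) (cQ.2.pow_left _)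
    have q1 : (Q : o.A) ∣ (Ideal.absNorm c ^ (k + 1) : ℕ) - 1 := by
      have := (Nat.ModEq.pow_totient cQ.2.coprime_mul_left_right).symm.dvd
      rw [hk1] at this
      simpa using map_dvd (Int.castRingHom o.A) this
    have r1 : c ∣ o.pr (Ideal.absNorm c ^ (k + 1) : ℕ) := by
      rw [Ideal.dvd_iff_le, Od.pr, Ideal.span_singleton_le_iff_mem, map_natCast, pow_succ,
        Nat.cast_mul]
      exact c.mul_mem_left _ c.absNorm_mem
    generalize ((Ideal.absNorm c ^ (k + 1) : ℕ) : o.A) = m1 at p1 q1 r1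
    obtain ⟨s0, hs⟩ := pd (a := β0) (b := m1 * x) (by
      rw [o.pr_mul, e0, e1, mul_left_comm]
      exact mul_dvd_mul_left _ (r1.mul_right _))
    obtain ⟨s, rfl, -⟩ := c1 s0 β0 _ (o.MQ_anti (one_dvd _) pW) hs.symm
    have es : m1 * x = β0 * s := hk.inj (by rw [hs, map_mul])
    obtain ⟨u, hu, ds⟩ := k4 s (by
      convert dvd_sub (dvd_add (q1.mul_right β) (dx.mul_left m1)) (d0.mul_left s) using 1
      linear_combination -es)
    have ps : o.Pm Q s := dv (I := c) (by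
      have : c * o.pr s = o.pr m1 * b := mul_left_cancel₀ (ne0 hI) (by
        rw [← mul_assoc, ← e0, ← o.pr_mul, ← es, o.pr_mul, e1, mul_left_comm])
      rw [this]
      exact mul_mem p1 bQ)
    obtain ⟨u1, hu1⟩ := (a8 Q u).1 (b2 u (k2 u hu).1).1
    obtain ⟨u2, hu2, p2⟩ := a9 Q u1 hQ ((a8 Q u1).2 ⟨u, by rwa [mul_comm]⟩)
    have q2 : (Q : o.A) ∣ u * u2 - 1 := by
      convert dvd_add (hu2.mul_left u) hu1 using 1
      ring
    have R : Rl o Q β0 x u := ⟨m1 * (u * u2), s * u2, p1.mul o ((k2 u hu).1.mul o p2), ps.mul o p2,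
      dvd_mul_sub q1 q2, by
        convert dvd_add (ds.mul_right u2) q2 using 1
        ring, by linear_combination u * u2 * es⟩
    rw [sp hu R]
    exact ⟨bQ, hu, F hu e1 bQ R⟩
  · obtain ⟨a, a', pa, pa', da, da', e2⟩ := (o.cI_eq bQ (mul_mem (k2 u hu).1 cQ)).1 e
    have e3 : o.pr (a' * u * β0) = o.pr a * (I * b) := by
      rw [mul_left_comm, e2, o.pr_mul, o.pr_mul, e0]
      ring
    obtain ⟨x0, hx⟩ := pd ⟨_, e3⟩
    obtain ⟨x, rfl, dx⟩ := b1 x0 a _ pa hx.symm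
    have ex : a * x = a' * u * β0 := hk.inj (by rw [hx, map_mul])
    replace dx := dx β (by
      convert dvd_sub (dvd_add (da'.mul_right (u * β0)) (du u hu)) (da.mul_right β) using 1
      ring)
    have e1 : o.pr x = I * b := mul_left_cancel₀ (ne0 pa) (by rw [← o.pr_mul, ex, e3])
    have l0 := ex_lq (ne (a := x) (by
      rw [Od.nm, e1, map_mul]
      exact mul_ne_zero hI.1 hb.1)) (ne nβ)
    obtain ⟨ε, dε, hε⟩ := sub_mem ((F hu e1 bQ ⟨a, a', pa, pa', da, da', ex⟩).2 _ l0) hξ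
    have pε : o.pr ε = 1 := by
      rw [Od.pr, Ideal.one_eq_top, Ideal.span_singleton_eq_top]
      exact ε.isUnit.map _
    obtain ⟨v, hv⟩ : (Q : o.A) ∣ ε * x - β := by
      convert dvd_add (dε.mul_right x) dx using 1
      ring
    refine ⟨v, ?_⟩
    dsimp only
    rw [← sub_eq_iff_eq_add'.1 hv]
    refine ⟨by rw [o.pr_mul, pε, one_mul, e1], sp hu ⟨a, a' * ε, pa, pa'.mul o (by
      rw [Od.Pm, pε]; exact one_mem _), da, dvd_mul_sub da' dε, by linear_combination ε * ex⟩,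
      fun w => ?_⟩
    rw [map_mul, Pi.mul_apply, ← hε, ← l0, mul_left_comm, ← Complex.exp_add]
    simp

end Pool.Agent.MP_f3836a_nt.GV.C
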