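import Pool.Agent.MP_f3836a_nt.GV.SpecC2

/-! Parametrisation of the events in a residue class. -/

set_option autoImplicit false

namespace Pool.Agent.MP_f3836a_nt.GV.C

open Finset NumberField VE

namespace GCPar

theorem exp_lq {r : ℕ} {x y : E r} (hx : ∀ w, x w ≠ 0) (hy : ∀ w, y w ≠ 0) (w : Fin r) :
    y w * Complex.exp (lq x y w) = x w := by
  rw [lq, Complex.exp_log (div_ne_zero (hx w) (hy w)), mul_div_cancel₀ _ (hy w)]

theorem lq_eq {r : ℕ} {x y ξ : E r} (hy : ∀ w, y w ≠ 0) (h : ∀ w, y w * Complex.exp (ξ w) = x w)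
    (hξ : ‖ξ‖ ≤ 1 / 3) : lq x y = ξ := by
  funext w
  have h1 := abs_le.1 ((Complex.abs_im_le_norm (ξ w)).trans ((norm_le_pi_norm ξ w).trans hξ))
  rw [lq, ← h w, mul_div_cancel_left₀ _ (hy w), Complex.log_exp] <;> linarith [Real.two_le_pi]

/-- the sum over the events -/
theorem core {r : ℕ} {V U : Type} (Λ : AddSubgroup (E r)) (sep : ∀ x ∈ Λ, x ≠ 0 → 1 ≤ ‖x‖)
    (Ψ : E r → ℝ) (hΨ : ∀ ξ, Ψ ξ ≠ 0 → ‖ξ‖ ≤ 1 / 3) (Vs : Finset V) (K : Finset U) (P : V → Prop)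
    (L : V → E r) (uu : V → U) (c : U → Prop) (z : U → E r)
    (h1 : ∀ v, P v → uu v ∈ K ∧ c (uu v) ∧ z (uu v) - L v ∈ Λ)
    (h2 : ∀ v v', P v → P v' → L v = L v' → v = v')
    (h3 : ∀ u ∈ K, c u → ∀ ξ, Ψ ξ ≠ 0 → z u - ξ ∈ Λ → ∃ v ∈ Vs, P v ∧ uu v = u ∧ L v = ξ) :
    ∑ v ∈ Vs, Ψ (L v) * ind (P v) = ∑ u ∈ K, ind (c u) * per Λ Ψ (z u) := by
  classical
  have e : ∀ v ∈ Vs, Ψ (L v) * ind (P v) = ∑ u ∈ K, if uu v = u ∧ P v then Ψ (L v) else 0 := by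
    intro v _
    by_cases h : P v <;> simp [ind, h]
    exact fun h' => absurd (h1 v h).1 h'
  rw [sum_congr rfl e, sum_comm]
  refine sum_congr rfl fun u hu => ?_
  by_cases hex : ∃ v ∈ Vs, (uu v = u ∧ P v) ∧ Ψ (L v) ≠ 0
  · obtain ⟨v, hv, ⟨rfl, hP⟩, h0⟩ := hex
    obtain ⟨-, a1, a2⟩ := h1 v hP
    rw [sum_eq_single_of_mem v hv, if_pos ⟨rfl, hP⟩, ind, if_pos a1, one_mul,
      per_eq sep hΨ a2 (by rw [sub_sub_cancel]; linarith [hΨ _ h0]), sub_sub_cancel]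
    intro v' _ hne
    refine ite_eq_right_iff.2 fun h => by_contra fun h0' => hne (h2 _ _ h.2 hP ?_)
    have a3 := sub_mem a2 (h.1 ▸ (h1 v' h.2).2.2)
    rw [sub_sub_sub_cancel_left] at a3
    by_contra a4
    linarith [sep _ a3 (sub_ne_zero.2 a4), norm_sub_le (L v') (L v), hΨ _ h0, hΨ _ h0']
  · rw [sum_eq_zero fun v hv => ite_eq_right_iff.2 fun h => by_contra fun h0 => hex ⟨v, hv, h, h0⟩]
    by_cases a1 : c u
    · by_contra a2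
      obtain ⟨y, hy, a3⟩ := per_ne (right_ne_zero_of_mul (Ne.symm a2))
      obtain ⟨v, hv, b1, b2, b3⟩ := h3 u hu a1 _ a3 (by rwa [sub_sub_cancel])
      exact hex ⟨v, hv, ⟨b2, b1⟩, b3 ▸ a3⟩
    · rw [ind, if_neg a1, zero_mul]

end GCPar

open GCPar in
theorem rPar : OfPar := by
  intro hB hP hU hA n r _ o W Q n' ss lam π T β ok hW hWQ hQ hl hπ hT hG hTW hn2 hN hc
  obtain ⟨-, inj, hne, nm0, -⟩ := hB n r o ok
  obtain ⟨-, pT⟩ := hP n r o ss ok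
  have hG' : ∀ z ∈ T, o.Gd ss z := fun z hz => (hG z hz).1
  obtain ⟨t1, -, t3, -, t5⟩ := pT T hG'
  obtain ⟨t6, t7⟩ := t3 W hTW
  have hQ2 : 2 ≤ Q := hW.trans (Nat.le_of_dvd hQ hWQ)
  obtain ⟨R, hR⟩ := hU n r o Q ok hQ2
  obtain ⟨K, g, κ, uu, hK, hg, hAB⟩ := hA n r o W Q (nT T) n' lam π _ _ ok hW hWQ hQ hl hπ t6 t1
    (t5 hT β fun z hz => (hG z hz).2) hn2 hN hc
  refine ⟨K, g, κ, hK, fun u hu => t7 ▸ hg u hu, fun M Vs Ψ hM hΨ hV => ?_⟩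
  obtain ⟨m1, m2, m3, -, -⟩ := pT M hM
  obtain ⟨A1, A2⟩ := hAB _ m2
  have co : ∀ v, o.co (β + (Q : ℤ) • v) = o.co β + Q * o.co v := fun v => by
    rw [map_add, map_zsmul, zsmul_eq_mul, Int.cast_natCast]
  have ev : ∀ v, EvG o.M ss (β + (Q : ℤ) • v) (T + M) ↔
      Nd (T + M) ∧ o.pr (o.co β + Q * o.co v) = o.IM ss T * o.IM ss M := fun v => by
    rw [(pT _ fun z hz => (Multiset.mem_add.1 hz).elim (hG' z) (hM z)).2.2.2.1, o.IM_add, co]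
  have nd : Nd (T + M) ↔ Nd M ∧ Disjoint (T.map Pt.p) (M.map Pt.p) := by
    unfold Nd at hT ⊢
    rw [Multiset.map_add, Multiset.nodup_add]
    exact ⟨fun h => h.2, fun h => ⟨hT, h⟩⟩
  by_cases h0 : Nd M ∧ (nT M).Coprime Q
  swap
  · rw [ind, if_neg h0, zero_mul]
    refine sum_eq_zero fun v _ => ?_
    rw [ind, if_neg, mul_zero]
    rw [ev]
    exact fun h => h0 ⟨(nd.1 h.1).1, m1 ▸ (A1 _ h.2).1.2.coprime_mul_left_right⟩
  have hd : Nd (T + M) := nd.2 ⟨h0.1, Multiset.disjoint_left.2 fun {p} hp hp' => by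
    obtain ⟨z, hz, rfl⟩ := Multiset.mem_map.1 hp
    exact (hG' z hz).1.one_lt.ne' (Nat.eq_one_of_dvd_coprimes h0.2 (Multiset.dvd_prod hp')
      (((Multiset.dvd_prod hp).trans (dvd_pow_self _ two_ne_zero)).trans hn2))⟩
  obtain ⟨m4, m5⟩ := m3 Q h0.2
  have b0 : ∀ w, o.em (o.co β) w ≠ 0 := (hne _ fun h => by
    rw [h, nm0] at hN
    rcases mul_eq_zero.1 hN.symm with e | rfl
    · exact t6.1 (t1.trans e)
    · rw [Nat.coprime_zero_left] at hc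
      omega).2
  have b1 : ∀ a, o.pr a = o.IM ss T * o.IM ss M → a ≠ 0 := fun a h e => by
    have : o.nm a ≠ 0 := by
      rw [Od.nm, h, map_mul]
      exact mul_ne_zero t6.1 m4.1
    exact this (e ▸ nm0)
  have b2 := fun a h => exp_lq (hne a (b1 a h)).2 b0
  simp only [ev, hd, true_and, co, m5] at hV ⊢
  rw [ind, if_pos h0, one_mul]
  refine core _ hR.sep Ψ hΨ Vs K _ _ (fun v => uu (o.co v)) _ (fun u => lam (o.IM ss M) - κ u)
    (fun v h => ⟨(A1 _ h).2.1, (A1 _ h).2.2.1, (A1 _ h).2.2.2 _ (b2 _ h)⟩) (fun v v' h h' e => ?_)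
    fun u hu h ξ h1 h2 => ?_
  · have e1 : o.em (o.co β + Q * o.co v) = o.em (o.co β + Q * o.co v') :=
      funext fun w => by rw [← b2 _ h, ← b2 _ h', e]
    have e2 := congrArg o.inc (add_left_cancel (inj e1))
    rw [map_mul, map_mul, map_natCast, mul_right_inj' (Nat.cast_ne_zero.2 hQ.ne')] at e2
    exact o.co.injective (ok.inj e2)
  · obtain ⟨v0, a1, a2, a3⟩ := A2 m4 u hu h ξ h2
    obtain ⟨v, rfl⟩ := o.co.surjective v0
    have a4 := lq_eq b0 a3 (hΨ ξ h1)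
    exact ⟨v, hV v (b1 _ a1) (a4 ▸ h1), a1, a2, a4⟩

end Pool.Agent.MP_f3836a_nt.GV.C
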