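import Pool.Agent.MP_f3836a_nt.GV.SpecC2
import Pool.Agent.MP_f3836a_nt.GV.GCCrt

/-! The number of residues which are `1` modulo `W` and prime to `Q`. -/

set_option autoImplicit false

namespace Pool.Agent.MP_f3836a_nt.GV.C

open Finset

namespace GCPhi

variable {n r : ℕ} (o : Od n r)

theorem co_add (q : ℕ) (x y : Fin n → ℤ) : o.co (x + (q : ℤ) • y) = o.co x + q * o.co y := by
  rw [map_add, map_zsmul, zsmul_eq_mul, Int.cast_natCast]

open Classical in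
/-- the first factor -/
noncomputable def f1 (W : ℕ) (v : Fin n → ℤ) : ℂ := if (W : o.A) ∣ o.co v - 1 then 1 else 0

/-- the local factors -/
noncomputable def f2 (l : ℕ) (v : Fin n → ℤ) : ℂ := if l ∣ o.nm (o.co v) then 0 else 1

theorem pd1 (W : ℕ) : Pd W (f1 o W) := fun x y => by
  classical
  unfold f1
  rw [co_add, add_sub_right_comm]
  exact if_congr (dvd_add_left (dvd_mul_right _ _)) rfl rfl

theorem mean1 {W : ℕ} (hW : 0 < W)
    (h : ∀ β : Fin n → ℤ, (W : o.A) ∣ o.co β ↔ ∀ i, (W : ℤ) ∣ β i) :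
    mean W (f1 o W) = 1 / (W : ℂ) ^ n := by
  have k : ∀ v, (W : o.A) ∣ o.co v - 1 ↔ ∀ i, (W : ℤ) ∣ v i - o.co.symm 1 i := fun v => by
    have := h (v - o.co.symm 1)
    rwa [map_sub, AddEquiv.apply_symm_apply] at this
  refine congrArg (· / _) ((sum_eq_single_of_mem _ (GCCrt.mod_mem hW (o.co.symm 1))
    fun v hv hne => if_neg fun c => hne (funext fun i => ?_)).trans (if_pos ((k _).2 fun i => ?_)))
  · have := GCCrt.mem.1 hv i
    rw [← Int.emod_eq_of_lt this.1 this.2]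
    exact (Int.modEq_iff_dvd.2 ((k v).1 c i)).symm
  · exact Int.modEq_iff_dvd.1 (Int.mod_modEq _ _).symm

theorem mean2 {l : ℕ} (hl : 0 < l) (h : ∀ β, (o.nm (o.co β) : ℤ) = Nm o.M β) :
    mean l (f2 o l) = ((1 - nuG o.M l : ℝ) : ℂ) := by
  have l0 : (l : ℂ) ^ n ≠ 0 := pow_ne_zero _ (Nat.cast_ne_zero.2 hl.ne')
  have e : ∀ v, f2 o l v = 1 - if (l : ℤ) ∣ Nm o.M v then 1 else 0 := fun v => by
    rw [f2, ← h]
    simp only [Int.natCast_dvd_natCast]
    split_ifs <;> simp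
  simp only [mean, e, sum_sub_distrib, sum_boole, nuG, box]
  push_cast
  rw [sub_div]
  simp [l0]

end GCPhi

open GCPhi in
theorem rPhi : OfPhi := by
  classical
  intro baa crt n r _ o W Q ok hWQ hQ
  obtain ⟨-, -, -, -, -, -, cg, -, -, co, -⟩ := baa n r o ok
  have hW : 0 < W := Nat.pos_of_dvd_of_pos hWQ hQ
  set P := Q.primeFactors.filter fun l => ¬l ∣ W with hP
  have pr : ∀ l ∈ P, l.Prime ∧ l ∣ Q ∧ ¬l ∣ W := fun l hl =>
    ⟨Nat.prime_of_mem_primeFactors (mem_filter.1 hl).1,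
      Nat.dvd_of_mem_primeFactors (mem_filter.1 hl).1, (mem_filter.1 hl).2⟩
  have pd2 : ∀ l, Pd l (f2 o l) := fun l x y => if_congr
    ((cg l (o.co x) _ (by rw [co_add, add_sub_cancel_left]; exact dvd_mul_right _ _)).dvd_iff
      dvd_rfl) rfl rfl
  have cp : W.Coprime (∏ l ∈ P, l) := Nat.Coprime.prod_right fun l hl =>
    ((Nat.Prime.coprime_iff_not_dvd (pr l hl).1).2 (pr l hl).2.2).symm
  have R0 : 0 < ∏ l ∈ P, l := prod_pos fun l hl => (pr l hl).1.pos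
  have pd3 : Pd (∏ l ∈ P, l) fun x => ∏ l ∈ P, f2 o l x := fun x y =>
    prod_congr rfl fun l hl => GCCrt.pd_mul (pd2 l) (dvd_prod_of_mem id hl) x y
  obtain ⟨b, hb⟩ : W * ∏ l ∈ P, l ∣ Q := cp.mul_dvd_of_dvd_of_dvd hWQ
    ((prod_dvd_prod_of_subset _ _ _ (filter_subset _ _)).trans (Nat.prod_primeFactors_dvd Q))
  have b0 : 0 < b := Nat.pos_of_mul_pos_left (hb ▸ hQ)
  have m1 := (crt n).1 _ b (fun x => f1 o W x * ∏ l ∈ P, f2 o l x) (mul_pos hW R0) b0
    fun x y => congrArg₂ (· * ·) (GCCrt.pd_mul (pd1 o W) (dvd_mul_right _ _) x y)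
      (GCCrt.pd_mul pd3 (dvd_mul_left _ _) x y)
  rw [← hb, GCCrt.two hW R0 cp (pd1 o W) pd3, mean1 o hW (co W),
    (crt n).2.1 P _ fun l hl => ⟨(pr l hl).1, pd2 l⟩,
    prod_congr rfl fun l hl => mean2 o (pr l hl).1.pos ok.nmM] at m1
  have e : ∀ v, f1 o W v * ∏ l ∈ P, f2 o l v
      = if (W : o.A) ∣ o.co v - 1 ∧ o.Cp Q (o.co v) then 1 else 0 := fun v => by
    unfold f1
    by_cases c : (W : o.A) ∣ o.co v - 1
    · have c1 : (o.nm (o.co v)).Coprime W := by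
        have := (cg W 1 _ c).gcd_eq
        rwa [o.nm_one, Nat.gcd_one_left] at this
      simp only [c, if_true, true_and, one_mul]
      split_ifs with c2
      · exact prod_eq_one fun l hl => if_neg fun d =>
          (pr l hl).1.one_lt.ne' (Nat.eq_one_of_dvd_coprimes c2 d (pr l hl).2.1)
      · obtain ⟨l, h1, h2, h3⟩ := Nat.Prime.not_coprime_iff_dvd.1 c2
        exact prod_eq_zero (mem_filter.2 ⟨Nat.mem_primeFactors.2 ⟨h1, h3, hQ.ne'⟩,
          fun d => h1.one_lt.ne' (Nat.eq_one_of_dvd_coprimes c1 h2 d)⟩) (if_pos h2)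
    · simp [c]
  have w0 : (W : ℂ) ^ n ≠ 0 := pow_ne_zero _ (Nat.cast_ne_zero.2 hW.ne')
  have q0 : (Q : ℂ) ^ n ≠ 0 := pow_ne_zero _ (Nat.cast_ne_zero.2 hQ.ne')
  simp only [mean, e, sum_boole] at m1
  rw [div_eq_iff q0] at m1
  refine Complex.ofReal_injective ?_
  rw [Complex.ofReal_mul, Complex.ofReal_mul, sd, Complex.ofReal_prod, Complex.ofReal_natCast,
    Od.US, m1]
  push_cast
  field_simp

end Pool.Agent.MP_f3836a_nt.GV.C
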