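import Pool.Agent.MP_f3836a_nt.GV.SpecC1

/-! A class and a ball of large mass. -/

set_option autoImplicit false

namespace Pool.Agent.MP_f3836a_nt.GV.C

open Finset MeasureTheory Metric VE
open VE.BC (tm TupS)

namespace GCPig

theorem ind_nn (p : Prop) : 0 ≤ ind p := by
  unfold ind
  split_ifs <;> norm_num

theorem cardV (a b : ℝ) (h : a ≤ b) : ((Icc ⌊a⌋ ⌊b⌋).card : ℝ) ≤ b - a + 2 := by
  have h1 := Int.floor_mono h
  have e : ((Icc ⌊a⌋ ⌊b⌋).card : ℤ) = ⌊b⌋ + 1 - ⌊a⌋ := Int.card_Icc_of_le _ _ (by omega)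
  have e' : ((Icc ⌊a⌋ ⌊b⌋).card : ℝ) = ⌊b⌋ + 1 - ⌊a⌋ := by exact_mod_cast e
  linarith [Int.floor_le b, Int.lt_floor_add_one a]

theorem near {r : ℕ} {Λ : AddSubgroup (E r)} {η ρ : ℝ} {T : Type} [AddCommGroup T] {pt : T → E r}
    {F : Set (E r)} (hr : 1 ≤ r) (h0 : 0 < η) (h : Gr Λ η ρ pt F) (ξ : E r) :
    ∃ t, ∃ y ∈ Λ, ξ - y ∈ closedBall (gp η pt (⌊Lg ξ / η⌋, t)) (ρ + η) := by
  obtain ⟨t, y, hy, -, e⟩ := h.cov (ξ - Lg ξ • e0 r) (by rw [Lg_sub, Lg_smul, Lg_e0 hr]; ring)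
  refine ⟨t, y, hy, ?_⟩
  rw [mem_closedBall, dist_eq_norm, show ξ - y - gp η pt (⌊Lg ξ / η⌋, t) =
    (ξ - Lg ξ • e0 r - pt t - y) + (Lg ξ - η * (⌊Lg ξ / η⌋ : ℤ)) • e0 r by
      rw [gp, sub_smul]; abel]
  refine (norm_add_le _ _).trans (add_le_add e ?_)
  have a1 := (le_div_iff₀ h0).1 (Int.floor_le (Lg ξ / η))
  have a2 := (div_lt_iff₀ h0).1 (Int.lt_floor_add_one (Lg ξ / η))
  have r1 : (1 : ℝ) ≤ r := by exact_mod_cast hr
  rw [norm_smul, norm_e0 hr, Real.norm_of_nonneg (by linarith), mul_one_div,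
    div_le_iff₀ (by linarith)]
  nlinarith

end GCPig

open GCPig

theorem rPig : OfPig := by
  classical
  intro hT hG r hr
  have r1 : (1 : ℝ) ≤ r := by exact_mod_cast hr
  obtain ⟨η, hη⟩ : ∃ η : ℝ, η = 1 / (20 * r ^ 2) := ⟨_, rfl⟩
  have h0 : 0 < η := by rw [hη]; positivity
  have h1 : r ^ 2 * η = 1 / 20 := by rw [hη]; field_simp
  have h2 : η ≤ 1 / 20 := by nlinarith [one_le_pow₀ (n := 2) r1]
  have b0 : 0 < vb r (η / (4 * r)) := by unfold vb; positivity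
  refine ⟨4 ^ r / vb r (η / (4 * r)), by positivity, ?_⟩
  intro ι G _ _ _ μ x lam Λ k R L H m0 hU H0 hL
  obtain ⟨T, _, _, pt, F, g, -⟩ := hG r 2 Λ R η hr Nat.prime_two h0 (by linarith) hU
  have := Fintype.ofFinite T
  have := Fintype.ofFinite G
  obtain ⟨-, -, -, t1, t2, -⟩ := hT ι μ
  have k0 : (0 : ℝ) ≤ k * H := by positivity
  have ab : k * L / η ≤ (k * L + k * H) / η := div_le_div_of_nonneg_right (by linarith) h0.le
  obtain ⟨S, hS⟩ : ∃ S : Finset ((ℤ × T) × G),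
      S = (Icc ⌊k * L / η⌋ ⌊(k * L + k * H) / η⌋ ×ˢ univ) ×ˢ univ := ⟨_, rfl⟩
  obtain ⟨c, -, hc⟩ := exists_max_image S
    (fun c => tm μ k fun s => ind (Ev Λ x lam c.2 (closedBall (gp η pt c.1) (1 / 4)) s))
    ⟨((⌊k * L / η⌋, 0), 0), by simp [hS, Int.floor_mono ab]⟩
  refine ⟨c.2, gp η pt c.1, ?_⟩
  have e1 : (∑ i, μ i) ^ k ≤ ∑ c ∈ S,
      tm μ k fun s => ind (Ev Λ x lam c.2 (closedBall (gp η pt c.1) (1 / 4)) s) := by
    rw [← mul_one (_ ^ k), ← t1]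
    refine (t2 m0 k _ (fun s => ∑ c ∈ S,
      ind (Ev Λ x lam c.2 (closedBall (gp η pt c.1) (1 / 4)) s)) fun s => ?_).trans_eq ?_
    · obtain ⟨t, y, hy, e⟩ := near hr h0 g (∑ i, lam (s i))
      have l1 : k * L ≤ Lg (∑ i, lam (s i)) := by
        rw [Lg_sum]
        simpa using card_nsmul_le_sum univ (fun i => Lg (lam (s i))) L fun i _ => (hL _).1
      have l2 : Lg (∑ i, lam (s i)) ≤ k * L + k * H := by
        rw [Lg_sum]
        simpa using sum_le_card_nsmul univ (fun i => Lg (lam (s i))) (L + H) fun i _ => (hL _).2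
      refine le_trans ?_ (single_le_sum (fun c _ => ind_nn _)
        (show ((⌊Lg (∑ i, lam (s i)) / η⌋, t), ∑ i, x (s i)) ∈ S by
          simp only [hS, mem_product, mem_Icc, mem_univ, and_true]
          exact ⟨Int.floor_mono (div_le_div_of_nonneg_right l1 h0.le),
            Int.floor_mono (div_le_div_of_nonneg_right l2 h0.le)⟩))
      rw [ind, if_pos]
      exact ⟨rfl, y, hy, closedBall_subset_closedBall (by push_cast; linarith) e⟩
    · simp only [tm, mul_sum]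
      exact sum_comm
  refine e1.trans ((sum_le_card_nsmul _ _ _ hc).trans ?_)
  rw [nsmul_eq_mul]
  refine mul_le_mul_of_nonneg_right ?_
    (sum_nonneg fun s _ => mul_nonneg (prod_nonneg fun i _ => m0 _) (ind_nn _))
  have v1 : vb r (η / (4 * r)) ≤ volume.real F := by
    rw [← vol_ball 0 (by positivity)]
    exact measureReal_mono g.cvx.2.2.2 g.vol.1
  have v2 : (Nat.card T : ℝ) ≤ 4 ^ r / vb r (η / (4 * r)) * (η * Rg Λ) := by
    rw [div_mul_eq_mul_div, le_div_iff₀ b0]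
    exact (mul_le_mul_of_nonneg_left v1 (Nat.cast_nonneg _)).trans g.vol.2
  have v3 : ((Icc ⌊k * L / η⌋ ⌊(k * L + k * H) / η⌋).card : ℝ) ≤ (k * H + 1) / η := by
    refine (cardV _ _ ab).trans ?_
    rw [← sub_div, le_div_iff₀ h0, add_mul, div_mul_cancel₀ _ h0.ne']
    linarith
  rw [hS, card_product, card_product, card_univ, card_univ, ← Nat.card_eq_fintype_card,
    ← Nat.card_eq_fintype_card, Nat.cast_mul, Nat.cast_mul]
  refine (mul_le_mul_of_nonneg_right (mul_le_mul v3 v2 (Nat.cast_nonneg _) (by positivity))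
    (Nat.cast_nonneg _)).trans_eq ?_
  field_simp

end Pool.Agent.MP_f3836a_nt.GV.C
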