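import Pool.Agent.MP_f3836a_nt.GV.SpecC2

/-! Points give primes of degree one. -/

set_option autoImplicit false

namespace Pool.Agent.MP_f3836a_nt.GV.C

open Finset NumberField VE

namespace GCPt

variable {n r : ℕ} [NeZero n] {o : Od n r} {ss : Pt → Fin n → ℤ} {z : Pt}

omit [NeZero n] in
theorem co_eq (β : Fin n → ℤ) : o.co β = ∑ i, β i • o.y i := o.y.equivFun_symm_apply β

theorem exists_phi (ok : o.Ok) (h : o.Gd ss z) :
    ∃ φ : o.A →+* ZMod z.p, ∀ i, φ (o.y i) = ss z i := by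
  let f : o.A →ₗ[ℤ] ZMod z.p := o.y.constr ℤ fun i => (ss z i : ZMod z.p)
  have e : ∀ i, f (o.y i) = ss z i := fun i => o.y.constr_basis ℤ _ i
  refine ⟨(AlgHom.ofLinearMap f (by rw [← ok.one, e]; exact h.2.2.1) (f.map_mul_iff.2
    (o.y.ext fun i => o.y.ext fun j => ?_))).toRingHom, e⟩
  change f (o.y i * o.y j) = f (o.y i) * f (o.y j)
  rw [e, e, h.2.2.2 i j, Module.Basis.constr_apply_fintype]
  simp [Od.M, Algebra.leftMulMatrix_eq_repr_mul]

theorem mem_of_coprime {R : Type} [CommRing R] {I : Ideal R} {a b : ℕ} (h : a.Coprime b) {x : R}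
    (h1 : a * x ∈ I) (h2 : b * x ∈ I) : x ∈ I := by
  obtain ⟨u, v, e⟩ := (Nat.isCoprime_iff_coprime.2 h).map (Int.castRingHom R)
  convert add_mem (I.mul_mem_left u h1) (I.mul_mem_left v h2) using 1
  simp only [map_natCast] at e
  linear_combination -x * e

theorem exists_psi (ok : o.Ok) (h : o.Gd ss z) : ∃ ψ : 𝓞 o.L →+* ZMod z.p,
    RingHom.ker ψ = o.Jz ss z ∧ ∀ β, ψ (o.inc (o.co β)) = (∑ i, β i * ss z i : ℤ) := by
  have := Fact.mk h.1
  obtain ⟨φ, hφ⟩ := exists_phi ok h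
  choose a ha using ok.cond
  have hD : (o.D : ZMod z.p) ≠ 0 := mt (ZMod.natCast_eq_zero_iff _ _).1 h.2.1
  have e0 : ∀ b, φ (a (o.inc b)) * (o.D : ZMod z.p)⁻¹ = φ b := fun b => by
    rw [show a (o.inc b) = o.D * b from ok.inj (by rw [ha, map_mul, map_natCast]), map_mul,
      map_natCast, mul_comm, inv_mul_cancel_left₀ hD]
  let ψ : 𝓞 o.L →+* ZMod z.p :=
    { toFun := fun x => φ (a x) * (o.D : ZMod z.p)⁻¹
      map_one' := by simpa using e0 1
      map_zero' := by simpa using e0 0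
      map_add' := fun x y => by
        rw [← add_mul, ← map_add,
          show a (x + y) = a x + a y from ok.inj (by rw [map_add, ha, ha, ha, mul_add])]
      map_mul' := fun x y => by
        have := congrArg φ (show o.D * a (x * y) = a x * a y from ok.inj (by
          rw [map_mul, map_mul, ha, ha, ha, map_natCast]; ring))
        rw [map_mul, map_mul, map_natCast] at this
        field_simp
        linear_combination this }
  have e1 : ∀ β, φ (o.co β) = (∑ i, β i * ss z i : ℤ) := fun β => by simp [co_eq, hφ]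
  have hp : (z.p : 𝓞 o.L) ∈ o.Jz ss z := Ideal.subset_span (Set.mem_insert _ _)
  refine ⟨ψ, le_antisymm (fun x hx => ?_) (Ideal.span_le.2 ?_), fun β => (e0 _).trans (e1 β)⟩
  · obtain ⟨β, hβ⟩ := o.co.surjective (a x)
    have h1 : φ (a x) = 0 := (mul_eq_zero.1 hx).resolve_right (inv_ne_zero hD)
    rw [← hβ, e1, ZMod.intCast_zmod_eq_zero_iff_dvd] at h1
    obtain ⟨k, hk⟩ := h1
    refine mem_of_coprime ((Nat.Prime.coprime_iff_not_dvd h.1).2 h.2.1)
      (Ideal.mul_mem_right _ _ hp) ?_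
    have h2 := congrArg (Int.cast : ℤ → 𝓞 o.L) hk
    have h3 : ∑ i, (β i : 𝓞 o.L) * (o.inc (o.y i) - ss z i) ∈ o.Jz ss z :=
      sum_mem fun i _ => Ideal.mul_mem_left _ _
        (Ideal.subset_span (Set.mem_insert_of_mem _ ⟨i, rfl⟩))
    convert add_mem h3 (Ideal.mul_mem_right (k : 𝓞 o.L) _ hp) using 1
    push_cast at h2
    simp [← ha, ← hβ, co_eq, ← h2, mul_sub]
  · rintro _ (rfl | ⟨i, rfl⟩)
    · simp
    · exact (map_sub ψ _ _).trans (sub_eq_zero.2 ((e0 _).trans ((hφ i).trans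
        (map_intCast ψ _).symm)))

theorem pt (ok : o.Ok) (h : o.Gd ss z) : Ideal.absNorm (o.Jz ss z) = z.p ∧
    ∀ β, o.inc (o.co β) ∈ o.Jz ss z ↔ InG ss β z := by
  obtain ⟨ψ, h1, h2⟩ := exists_psi ok h
  rw [← h1]
  refine ⟨?_, fun β => by rw [RingHom.mem_ker, h2, ZMod.intCast_zmod_eq_zero_iff_dvd, InG]⟩
  rw [Ideal.absNorm_apply, Submodule.cardQuot_apply,
    Nat.card_congr (RingHom.quotientKerEquivOfSurjective (ZMod.ringHom_surjective ψ)).toEquiv,
    Nat.card_zmod]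

variable {T : Multiset Pt}

omit [NeZero n] in
theorem IM_cons (z : Pt) (T : Multiset Pt) : o.IM ss (z ::ₘ T) = o.Jz ss z * o.IM ss T := by
  simp [Od.IM]

theorem nT_cons (z : Pt) (T : Multiset Pt) : nT (z ::ₘ T) = z.p * nT T := by simp [nT]

theorem nrm (ok : o.Ok) (h : ∀ z ∈ T, o.Gd ss z) : Ideal.absNorm (o.IM ss T) = nT T := by
  rw [Od.IM, map_multiset_prod, Multiset.map_map, nT]
  exact congrArg _ (Multiset.map_congr rfl fun z hz => (pt ok (h z hz)).1)

theorem cls (ok : o.Ok) (h : ∀ z ∈ T, o.Gd ss z) {Q : ℕ} (hQ : (nT T).Coprime Q) :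
    o.IM ss T ∈ o.MQ Q ∧ o.cM Q ss T = o.cI Q (o.IM ss T) := by
  induction T using Multiset.induction_on with
  | empty => exact ⟨one_mem _, (o.cI_one Q).symm⟩
  | cons z T ih =>
    rw [nT_cons] at hQ
    have hz := h z (Multiset.mem_cons_self _ _)
    obtain ⟨a1, a2⟩ := ih (fun y hy => h y (Multiset.mem_cons_of_mem hy)) hQ.coprime_mul_left
    have a3 : o.Jz ss z ∈ o.MQ Q := by
      rw [Od.mem_MQ, (pt ok hz).1]
      exact ⟨hz.1.ne_zero, ((Nat.Prime.coprime_iff_not_dvd hz.1).2 hz.2.1).mul_right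
        hQ.coprime_mul_right⟩
    rw [IM_cons, o.cI_mul a3 a1, ← a2]
    exact ⟨mul_mem a3 a1, by simp [Od.cM]⟩

theorem mem (ok : o.Ok) (h : ∀ z ∈ T, o.Gd ss z) (hn : Nd T) (β : Fin n → ℤ)
    (hβ : ∀ z ∈ T, InG ss β z) : o.inc (o.co β) ∈ o.IM ss T := by
  induction T using Multiset.induction_on with
  | empty => simp [Od.IM]
  | cons z T ih =>
    rw [Nd, Multiset.map_cons, Multiset.nodup_cons] at hn
    have hz := h z (Multiset.mem_cons_self _ _)
    have h' := fun y hy => h y (Multiset.mem_cons_of_mem hy)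
    have a1 := ih h' hn.2 fun y hy => hβ y (Multiset.mem_cons_of_mem hy)
    have a2 := ((pt ok hz).2 β).2 (hβ z (Multiset.mem_cons_self _ _))
    have a3 : z.p.Coprime (nT T) := Nat.coprime_multiset_prod_right_iff.2 fun q hq => by
      obtain ⟨y, hy, rfl⟩ := Multiset.mem_map.1 hq
      exact (Nat.coprime_primes hz.1 (h' y hy).1).2 fun e => hn.1 (e ▸ hq)
    rw [IM_cons]
    refine mem_of_coprime a3 (Ideal.mul_mem_mul ?_ a1) (mul_comm (o.inc _) _ ▸
      Ideal.mul_mem_mul a2 ?_)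
    · exact (pt ok hz).1 ▸ Ideal.absNorm_mem _
    · exact nrm ok h' ▸ Ideal.absNorm_mem _

end GCPt

open GCPt in
theorem rPt : OfPt := by
  intro _ n r _ o ss ok
  refine ⟨fun z => pt ok, fun T h => ?_⟩
  have h1 := (cls ok h (Nat.coprime_one_right _)).1
  refine ⟨nrm ok h, h1, fun Q => cls ok h, fun β => ⟨fun ⟨a1, a2, a3⟩ => ⟨a1, ?_⟩,
    fun ⟨a1, a2⟩ => ⟨a1, fun z hz => ((pt ok (h z hz)).2 β).1 ?_, ?_⟩⟩, mem ok h⟩
  · obtain ⟨J, e⟩ := Ideal.dvd_iff_le.2 ((Ideal.span_singleton_le_iff_mem _).2 (mem ok h a1 β a2))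
    have a4 : o.nm (o.co β) = Ideal.absNorm (o.IM ss T) := by
      rw [nrm ok h]
      exact_mod_cast (ok.nmM β).trans a3.symm
    rw [Od.nm, Od.pr, e, map_mul, mul_eq_left₀ h1.1, Ideal.absNorm_eq_one_iff] at a4
    rw [Od.pr, e, a4, Ideal.mul_top]
  · obtain ⟨T', rfl⟩ := Multiset.exists_cons_of_mem hz
    rw [IM_cons, Od.pr] at a2
    exact (Ideal.span_singleton_le_iff_mem _).1 (Ideal.le_of_dvd ⟨_, a2⟩)
  · rw [← ok.nmM, Od.nm, a2, nrm ok h]

end Pool.Agent.MP_f3836a_nt.GV.C
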