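import Pool.Agent.MP_f3836a_nt.GV.SpecC2
import Pool.Agent.MP_f3836a_nt.VE.CRho

/-! Class number times regulator is not too large. -/

set_option autoImplicit false

namespace Pool.Agent.MP_f3836a_nt.GV.C

open Finset Filter VE

theorem rRho : OfRho := by
  rintro ⟨C, hC1, hC⟩ hn hc n C1 γ hγ
  set L : ℝ := 4 * (n + 1) * C / γ with hL
  have L0 : 0 < L := by positivity
  obtain ⟨Y1, hY1⟩ := eventually_atTop.1 (((tendsto_rpow_atTop (half_pos hγ)).eventually_ge_atTop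
    (C1 * Real.exp (2 * n * ⌈Real.exp L⌉₊))).and (eventually_ge_atTop 1))
  refine ⟨Y1, fun r _ o W Y hY ho hW hs hb hV => ?_⟩
  obtain ⟨y1, y2⟩ := hY1 Y hY
  have y0 : 0 < Y := by linarith
  have lY := Real.log_nonneg y2
  have h0 := (hc n r o W W ho hW dvd_rfl (by omega)).2.2.1
  have hP : o.Pr W Y ⊆ (range (⌊Y⌋₊ + 1)).filter Nat.Prime := fun l hl => by
    obtain ⟨a, b, -⟩ := mem_filter.1 hl
    exact mem_filter.2 ⟨mem_range.2 ((mem_range.1 a).trans_le (Nat.ceil_le_floor_add_one Y)), b⟩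
  have h1 := fun l hl => hn n r o l ho (mem_filter.1 (hP hl)).2
  have h2 : 1 ≤ sd (nuG o.M) (o.Pr W Y) * Real.exp (2 * n * ∑ l ∈ o.Pr W Y, (1 : ℝ) / l) := by
    rw [mul_sum, Real.exp_sum, sd, ← prod_mul_distrib]
    refine le_trans (prod_const_one (s := o.Pr W Y)).ge
      (prod_le_prod (fun _ _ => zero_le_one) fun l hl => ?_)
    obtain ⟨-, b, c⟩ := mem_filter.1 hl
    have := mul_le_mul_of_nonneg_left
      ((h1 l hl).2.2.2 (le_of_not_ge fun e => c ((hs l b e).mul_left _))).2 (h1 l hl).2.2.1.le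
    rwa [mul_inv_cancel₀ (h1 l hl).2.2.1.ne', div_eq_mul_one_div] at this
  have h3 := mul_le_mul_of_nonneg_left (BC.CRho.sum_le L0 _ hP (hC Y y2))
    (by positivity : (0 : ℝ) ≤ 2 * n)
  have h4 : Real.exp (2 * n * ∑ l ∈ o.Pr W Y, (1 : ℝ) / l)
      ≤ Real.exp (2 * n * ⌈Real.exp L⌉₊) * Y ^ (γ / 2) := by
    rw [Real.rpow_def_of_pos y0, ← Real.exp_add]
    refine Real.exp_le_exp.2 ?_
    have : 2 * (n + 1) * (C * Real.log Y / L) = Real.log Y * (γ / 2) := by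
      rw [hL]
      field_simp
      ring
    have : 0 ≤ C * Real.log Y / L := by positivity
    linarith
  have e : Y ^ γ = Y ^ (γ / 2) * Y ^ (γ / 2) := by rw [← Real.rpow_add y0, add_halves]
  have hb' : o.hR W * Real.log Y * sd (nuG o.M) (o.Pr W Y) ≤ C1 * (W ^ n * o.V0) := hb
  calc o.hR W * Real.log Y ≤ o.hR W * Real.log Y
          * (sd (nuG o.M) (o.Pr W Y) * Real.exp (2 * n * ∑ l ∈ o.Pr W Y, (1 : ℝ) / l)) :=
        le_mul_of_one_le_right (by positivity) h2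
    _ ≤ C1 * (W ^ n * o.V0) * Real.exp (2 * n * ∑ l ∈ o.Pr W Y, (1 : ℝ) / l) := by
        rw [← mul_assoc]
        exact mul_le_mul_of_nonneg_right hb' (Real.exp_pos _).le
    _ ≤ C1 * (W ^ n * o.V0) * (Real.exp (2 * n * ⌈Real.exp L⌉₊) * Y ^ (γ / 2)) := by
        refine mul_le_mul_of_nonneg_left h4 (le_trans ?_ hb')
        have : 0 < sd (nuG o.M) (o.Pr W Y) := prod_pos fun l hl => (h1 l hl).2.2.1
        positivity
    _ = C1 * Real.exp (2 * n * ⌈Real.exp L⌉₊) * (Y ^ (γ / 2) * (W ^ n * o.V0)) := by ring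
    _ ≤ Y ^ (γ / 2) * (Y ^ (γ / 2) * (W ^ n * o.V0)) :=
        mul_le_mul_of_nonneg_right y1 (by positivity)
    _ = _ := by rw [e, mul_assoc]

end Pool.Agent.MP_f3836a_nt.GV.C
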