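import Pool.Agent.MP_f3836a_nt.GV.SpecC1
import Pool.Agent.MP_f3836a_nt.VE.CRia

/-! Discretisation of the local sum in `ℂ ^ r`. -/

set_option autoImplicit false

namespace Pool.Agent.MP_f3836a_nt.GV.C

open Finset MeasureTheory Metric VE
open VE.BC (tm sm su)
open VE.BC.CRia (tm_sm tm_abs)

namespace GCRia

variable {r : ℕ} {Λ : AddSubgroup (E r)}

theorem pw (hΛ : ∀ y ∈ Λ, y ≠ 0 → 1 ≤ ‖y‖) {Φ : E r → ℝ} {K δ ε : ℝ} (hΦ : Tf Φ K δ 0)
    {a b y : E r} (hy : y ∈ Λ) (he : ‖a - b - y‖ ≤ ε) (h1 : ε ≤ δ) (h2 : δ ≤ 1 / 6) :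
    |per Λ Φ a - per Λ Φ b| ≤ K * ε * ind (∃ z ∈ Λ, ‖a - z‖ ≤ 2 * δ) := by
  have s : ∀ x, Φ x ≠ 0 → ‖x‖ ≤ δ := fun x h => by simpa using hΦ.sup x h
  have s' : ∀ x, Φ x ≠ 0 → ‖x‖ ≤ 1 / 3 := fun x h => (s x h).trans (by linarith)
  have d0 := hΦ.pos.2
  by_cases k : ∃ z ∈ Λ, ‖a - z‖ ≤ 2 * δ
  · rw [ind, if_pos k, mul_one]
    obtain ⟨z, hz, k⟩ := k
    have e : a - z - (b - (z - y)) = a - b - y := by abel
    have n := norm_sub_le (a - z) (a - b - y)
    rw [← e, sub_sub_cancel, e] at n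
    rw [per_eq hΛ s' hz (by linarith), per_eq hΛ s' (sub_mem hz hy) (by linarith)]
    exact (hΦ.lip _ _).trans (mul_le_mul_of_nonneg_left (e ▸ he) hΦ.pos.1)
  · have a0 : per Λ Φ a = 0 := by_contra fun c =>
      let ⟨z, hz, e⟩ := per_ne c
      k ⟨z, hz, (s _ e).trans (by linarith)⟩
    have b0 : per Λ Φ b = 0 := by_contra fun c => by
      obtain ⟨z, hz, e⟩ := per_ne c
      refine k ⟨z + y, add_mem hz hy, ?_⟩
      rw [show a - (z + y) = b - z + (a - b - y) by abel]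
      exact (norm_add_le _ _).trans (by linarith [s _ e])
    rw [ind, if_neg k, a0, b0, sub_self, abs_zero, mul_zero]

theorem pt_sum {T ι : Type} [AddCommGroup T] {pt : T → E r}
    (h : ∀ t t', pt (t + t') - pt t - pt t' ∈ Λ) (t : ι → T) (s : Finset ι) :
    pt (∑ i ∈ s, t i) - ∑ i ∈ s, pt (t i) ∈ Λ := by
  classical
  induction s using Finset.induction_on with
  | empty => simpa using h 0 0
  | insert i s hi ih =>
    rw [sum_insert hi, sum_insert hi]
    convert add_mem (h (t i) (∑ i ∈ s, t i)) ih using 1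
    abel

end GCRia

open GCRia in
theorem rRia : OfRia := by
  intro _ hS hU r ι G T _ _ _ μ x lam u th Λ pt k j J L η e δ0 D K δ g ζ Φ hr hμ hJ η0 e1 hΛ ha hR
    hD hk hΦ h0 h1 h2
  choose y y1 y2 using hR
  have d0 := hΦ.pos.2
  have U := ((hU r ι G μ x lam Λ k j δ0 D hμ hD).1 hk).2 g (closedBall ζ (2 * δ))
    (closedBall ζ (3 * δ)) ⟨measurableSet_closedBall, measure_closedBall_lt_top.ne,
      fun a h => closedBall_subset_closedBall' (by linarith [mem_closedBall.1 h])⟩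
  rw [vol_ball ζ (by positivity), ← tm_sm μ hJ] at U
  rw [Sl, ← tm_sm μ hJ]
  refine (tm_abs (hS ι μ u J 0 0 hμ hJ).1.1 fun s => ?_).trans
    (mul_le_mul_of_nonneg_left U (mul_nonneg hΦ.pos.1 (by positivity)))
  by_cases hg : ∑ i, x (s i).1 = g
  swap
  · simp [ind, Ev, hg]
  have f1 : ‖∑ i, (lam (s i).1 - (L + η * u (s i).1) • e0 r - pt (th (s i).1) - y (s i).1 -
      (η * ((s i).2 : ℕ)) • e0 r)‖ ≤ j * (e + J * η) := by
    refine (norm_sum_le_of_le _ fun i _ => (norm_sub_le _ _).trans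
      (add_le_add (y2 _) (?_ : _ ≤ J * η))).trans (by simp [mul_add])
    have : (((s i).2 : ℕ) : ℝ) ≤ J := by exact_mod_cast (s i).2.2.le
    have : (1 : ℝ) ≤ r := by exact_mod_cast hr
    rw [norm_smul, norm_e0 hr, Real.norm_of_nonneg (by positivity), mul_one_div, mul_comm (J : ℝ)]
    exact (div_le_self (by positivity) (by linarith)).trans (by gcongr)
  have f2 := pw hΛ hΦ (a := ∑ i, lam (s i).1 - ζ)
    (b := gp η pt (∑ i, su u J (s i), ∑ i, th (s i).1) - (ζ - (j * L) • e0 r))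
    (sub_mem (sum_mem (t := univ) fun i _ => y1 (s i).1)
      (pt_sum ha (fun i => th (s i).1) univ)) (f1.trans_eq' (by
        congr 1
        simp only [gp, su, sum_sub_distrib, ← sum_smul, sum_add_distrib, ← mul_sum, sum_const,
          card_fin, nsmul_eq_mul, Int.cast_add, Int.cast_sum, Int.cast_natCast]
        module)) h1 h2
  simp only [Ev, hg, true_and, mem_closedBall_iff_norm]
  rw [ind, if_pos trivial, one_mul, one_mul]
  simpa only [sub_right_comm _ ζ] using f2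

end Pool.Agent.MP_f3836a_nt.GV.C
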