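import Pool.Agent.MP_f3836a_nt.GV.SpecC1

/-! The sum over the grid. -/

set_option autoImplicit false

namespace Pool.Agent.MP_f3836a_nt.GV.C

open Finset MeasureTheory Metric

namespace GCRib

theorem vb_mono (r : ℕ) {a b : ℝ} (h0 : 0 ≤ a) (h : a ≤ b) : vb r a ≤ vb r b := by
  unfold vb
  gcongr

theorem int_le {r : ℕ} {Φ : E r → ℝ} {K δ : ℝ} (h : Tf Φ K δ 0) (h1 : ∀ ξ, 0 ≤ Φ ξ ∧ Φ ξ ≤ 1) :
    ∫ ξ, Φ ξ ≤ vb r δ := by
  rw [← vol_ball 0 h.pos.2, ← integral_indicator_one measurableSet_closedBall]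
  refine integral_mono_of_nonneg (ae_of_all _ fun ξ => (h1 ξ).1)
    ((integrable_indicator_iff measurableSet_closedBall).2
      (integrableOn_const measure_closedBall_lt_top.ne)) (ae_of_all _ fun ξ => ?_)
  by_cases c : Φ ξ = 0
  · rw [c]
    exact Set.indicator_nonneg (fun _ _ => zero_le_one) _
  · rw [Set.indicator_of_mem (mem_closedBall_iff_norm.2 (h.sup ξ c))]
    exact (h1 ξ).2

end GCRib

open GCRib in
theorem rRib : RibS := by
  intro r T _ _ Λ pt F η ρ K δ ζ Φ hr hη hΛ hG hΦ h01 h3 h2 hρ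
  have := Fintype.ofFinite T
  have near : ∀ p, per Λ Φ (gp η pt p - ζ) ≠ 0 → |η * p.1 - Lg ζ| ≤ 1 := fun p hp => by
    obtain ⟨y, hy, e⟩ := per_ne hp
    have h4 := hΦ.sup _ e
    have h5 := abs_Lg (gp η pt p - ζ - y)
    rw [Lg_sub, Lg_sub, gp, Lg_add, Lg_smul, Lg_e0 hr, hG.ker, hΛ y hy, mul_one, add_zero,
      sub_zero] at h5
    rw [sub_zero, gp] at h4
    exact h5.trans ((mul_le_mul_of_nonneg_left h4 (by positivity)).trans h2)
  have hS : ∀ p, per Λ Φ (gp η pt p - ζ) ≠ 0 →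
      p ∈ Icc ⌊(Lg ζ - 1) / η⌋ ⌈(Lg ζ + 1) / η⌉ ×ˢ (univ : Finset T) := fun p hp => by
    obtain ⟨h4, h5⟩ := abs_le.1 (near p hp)
    refine mem_product.2 ⟨mem_Icc.2 ⟨Int.cast_le.1 ((Int.floor_le _).trans ?_),
      Int.cast_le.1 (le_trans ?_ (Int.le_ceil _))⟩, mem_univ _⟩
    · rw [div_le_iff₀' hη]
      linarith
    · rw [le_div_iff₀' hη]
      linarith
  refine ⟨_, hS, fun P m e hm he hP => ?_⟩
  have rs := hG.rs Φ K δ ζ _ hΦ h3 hS
  generalize Icc ⌊(Lg ζ - 1) / η⌋ ⌈(Lg ζ + 1) / η⌉ ×ˢ (univ : Finset T) = S at rs ⊢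
  have p0 : ∀ p, 0 ≤ per Λ Φ (gp η pt p - ζ) := fun p => tsum_nonneg fun _ => (h01 _).1
  have e1 : |∑ p ∈ S, P p * per Λ Φ (gp η pt p - ζ) - m * ∑ p ∈ S, per Λ Φ (gp η pt p - ζ)| ≤
      e * ∑ p ∈ S, per Λ Φ (gp η pt p - ζ) := by
    rw [mul_sum, mul_sum, ← sum_sub_distrib]
    refine (abs_sum_le_sum_abs _ _).trans (sum_le_sum fun p _ => ?_)
    rw [← sub_mul, abs_mul, abs_of_nonneg (p0 p)]
    by_cases c : per Λ Φ (gp η pt p - ζ) = 0
    · rw [c, mul_zero, mul_zero]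
    · exact mul_le_mul_of_nonneg_right (hP p (near p c)) (p0 p)
  have r0 := hG.pos.1
  have ρ0 := hG.pos.2
  have K0 : 0 ≤ K * (ρ + η) := mul_nonneg hΦ.pos.1 (by linarith)
  have c0 : (0 : ℝ) < Nat.card T := Nat.cast_pos.2 Nat.card_pos
  have W0 : 0 < Nat.card T / (η * Rg Λ) := by positivity
  have e2 := mul_le_mul_of_nonneg_left (rs.trans (mul_le_mul_of_nonneg_left
    (vb_mono r (b := 3 * δ) (by linarith) (by linarith)) K0)) W0.le
  rw [← abs_of_pos W0, ← abs_mul, abs_of_pos W0, mul_sub, ← mul_assoc,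
    show Nat.card T / (η * Rg Λ) * (η * Rg Λ / Nat.card T) = 1 by field_simp, one_mul] at e2
  have e3 := mul_le_mul_of_nonneg_left
    ((int_le hΦ h01).trans (vb_mono r (b := 3 * δ) hΦ.pos.2 (by linarith))) W0.le
  generalize Nat.card T / (η * Rg Λ) = W at e2 e3 ⊢
  obtain ⟨a1, a2⟩ := abs_le.1 e1
  obtain ⟨a3, a4⟩ := abs_le.1 e2
  have a5 := mul_le_mul_of_nonneg_left a3 hm
  have a6 := mul_le_mul_of_nonneg_left a4 hm
  have a7 := mul_le_mul_of_nonneg_left a4 he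
  have a8 := mul_le_mul_of_nonneg_left e3 he
  rw [abs_le]
  constructor <;> linarith

end Pool.Agent.MP_f3836a_nt.GV.C
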