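import Pool.Agent.MP_f3836a_nt.GV.SpecC2

/-! Ideals of prime norm and the density of the zeros of the norm form. -/

set_option autoImplicit false

namespace Pool.Agent.MP_f3836a_nt.GV.C

open Finset NumberField VE

namespace GCRn

theorem fib {G H : Type} [AddCommGroup G] [Fintype G] [AddCommGroup H] [Fintype H] [DecidableEq H]
    (φ : G →+ H) (hs : Function.Surjective φ) (S : Finset G) (T : Finset H)
    (h : ∀ v ∈ S, φ v ∈ T) : S.card * Fintype.card H ≤ T.card * Fintype.card G := by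
  classical
  have e : ∀ t : H, (univ.filter fun g => φ g = t).card = (univ.filter fun g => φ g = 0).card :=
    fun t => AddMonoidHom.card_fiber_eq_of_mem_range φ (hs t) (hs 0)
  have e1 : Fintype.card G = Fintype.card H * (univ.filter fun g => φ g = 0).card := by
    rw [← card_univ, card_eq_sum_card_fiberwise (f := φ) (t := univ) fun _ _ => mem_univ _]
    simp only [e, sum_const, smul_eq_mul, card_univ]
  have e2 : S.card ≤ T.card * (univ.filter fun g => φ g = 0).card := by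
    rw [card_eq_sum_card_fiberwise (f := φ) (t := T) h, ← smul_eq_mul]
    exact sum_le_card_nsmul _ _ _ fun t _ =>
      (card_le_card (filter_subset_filter _ (subset_univ S))).trans (e t).le
  rw [e1, mul_left_comm, mul_comm]
  exact Nat.mul_le_mul_left _ e2

theorem cnt {n l : ℕ} [NeZero l] {H : Type} [AddCommGroup H] [Fintype H] [DecidableEq H]
    (ψ : (Fin n → ℤ) →+ H) (hs : Function.Surjective ψ) (hl : ∀ h : H, (l : ℤ) • h = 0)
    (S : Finset (Fin n → ℤ)) (hS : S ⊆ box n l) (T : Finset H) (h : ∀ v ∈ S, ψ v ∈ T) :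
    S.card * Fintype.card H ≤ T.card * l ^ n := by
  classical
  have h0 : ∀ i, (ψ.comp (AddMonoidHom.single (fun _ : Fin n => ℤ) i)) l = 0 := fun i => by
    rw [← mul_one (l : ℤ), ← smul_eq_mul, map_zsmul, hl]
  let φ : (Fin n → ZMod l) →+ H := ∑ i, (ZMod.lift l
    ⟨ψ.comp (AddMonoidHom.single (fun _ : Fin n => ℤ) i), h0 i⟩).comp
      (Pi.evalAddMonoidHom (fun _ : Fin n => ZMod l) i)
  have e : ∀ v : Fin n → ℤ, φ (fun i => (v i : ZMod l)) = ψ v := fun v => by
    simp only [φ, AddMonoidHom.finsetSum_apply, AddMonoidHom.comp_apply,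
      Pi.evalAddMonoidHom_apply, ZMod.lift_coe, AddMonoidHom.single_apply]
    rw [← map_sum, univ_sum_single]
  have hi : Set.InjOn (fun (v : Fin n → ℤ) i => (v i : ZMod l)) S := fun v hv w hw hvw => by
    funext i
    have a1 := mem_Ico.1 (Fintype.mem_piFinset.1 (hS hv) i)
    have a2 := mem_Ico.1 (Fintype.mem_piFinset.1 (hS hw) i)
    have a3 := (ZMod.intCast_eq_intCast_iff' _ _ _).1 (congrFun hvw i)
    rwa [Int.emod_eq_of_lt a1.1 a1.2, Int.emod_eq_of_lt a2.1 a2.2] at a3
  have key := fib φ (fun t => by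
    obtain ⟨v, rfl⟩ := hs t
    exact ⟨_, e v⟩) (S.image fun v i => (v i : ZMod l)) T fun x hx => by
      obtain ⟨v, hv, rfl⟩ := mem_image.1 hx
      rw [e]
      exact h v hv
  rwa [card_image_of_injOn hi, Fintype.card_fun, ZMod.card, Fintype.card_fin] at key

theorem rng {n l : ℕ} [NeZero l] {R ι : Type} [CommRing R] [Finite ι] (P : ι → Ideal R)
    (hP : ∀ i j, i ≠ j → IsCoprime (P i) (P j)) (hc : ∀ i, Nat.card (R ⧸ P i) = l)
    (hl : ∀ i, (l : R) ∈ P i) (f : (Fin n → ℤ) →+ R) (hf : ∀ x, ∃ v y, f v = x - l * y)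
    (S : Finset (Fin n → ℤ)) (hS : S ⊆ box n l) (h : ∀ v ∈ S, ∀ i, f v ∉ P i) :
    S.card * l ^ Nat.card ι ≤ (l - 1) ^ Nat.card ι * l ^ n := by
  classical
  have := Fintype.ofFinite ι
  have f1 : ∀ i, Fintype (R ⧸ P i) := fun i =>
    @Fintype.ofFinite _ (Nat.finite_of_card_ne_zero (by rw [hc]; exact NeZero.ne l))
  have c2 : ∀ i, Fintype.card (R ⧸ P i) = l := fun i => by rw [← Nat.card_eq_fintype_card, hc]
  have z1 : ∀ i, Ideal.Quotient.mk (P i) (l : R) = 0 := fun i =>
    Ideal.Quotient.eq_zero_iff_mem.2 (hl i)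
  let ψ : (Fin n → ℤ) →+ ∀ i, R ⧸ P i :=
    (RingHom.pi fun i => Ideal.Quotient.mk (P i)).toAddMonoidHom.comp f
  have hψ : ∀ v i, ψ v i = Ideal.Quotient.mk (P i) (f v) := fun _ _ => rfl
  have s1 : Function.Surjective ψ := fun t => by
    obtain ⟨x, hx⟩ := Ideal.pi_quotient_surjective (I := P) hP t
    obtain ⟨v, y, e⟩ := hf x
    refine ⟨v, funext fun i => ?_⟩
    rw [hψ, e, map_sub, map_mul, z1, zero_mul, sub_zero]
    exact hx i
  have s2 : ∀ t : ∀ i, R ⧸ P i, (l : ℤ) • t = 0 := fun t => funext fun i => by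
    rw [Pi.smul_apply, zsmul_eq_mul, Int.cast_natCast, ← map_natCast (Ideal.Quotient.mk (P i)), z1,
      zero_mul, Pi.zero_apply]
  have key := cnt ψ s1 s2 S hS (Fintype.piFinset fun _ => univ.erase 0) fun v hv =>
    Fintype.mem_piFinset.2 fun i =>
      mem_erase.2 ⟨fun e => h v hv i (Ideal.Quotient.eq_zero_iff_mem.1 e), mem_univ _⟩
  simpa only [Fintype.card_pi, Fintype.card_piFinset, card_erase_of_mem (mem_univ _), card_univ, c2,
    prod_const, Nat.card_eq_fintype_card] using key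

theorem num {a N l : ℝ} {k : ℕ} (hl : 1 ≤ l) (hN : 0 < N) (h : a * l ^ k ≤ (l - 1) ^ k * N) :
    a / N * (1 + k / l) ≤ 1 := by
  have l0 : 0 < l := by linarith
  have h0 : 0 ≤ 1 / l := by positivity
  have h1 : a / N ≤ (1 - 1 / l) ^ k := by
    rw [show 1 - 1 / l = (l - 1) / l by field_simp, div_pow, div_le_div_iff₀ hN (by positivity)]
    exact h
  have h2 : 1 + k / l ≤ (1 + 1 / l) ^ k := by
    rw [div_eq_mul_one_div]
    exact one_add_mul_le_pow (by linarith) k
  have h3 : 1 / l ≤ 1 := by rwa [div_le_one l0]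
  refine (mul_le_mul h1 h2 (by positivity) (pow_nonneg (by linarith) _)).trans ?_
  rw [← mul_pow]
  exact pow_le_one₀ (mul_nonneg (by linarith) (by linarith)) (by nlinarith)

end GCRn

open GCRn in
theorem rRn : OfRn := by
  classical
  intro _ n r _ o W l ho hl
  have l1 : (1 : ℝ) ≤ l := by exact_mod_cast hl.one_le
  have hN : (0 : ℝ) < (l : ℝ) ^ n := by positivity
  have e0 : 1 - nuG o.M l = (((box n l).filter fun v => ¬(l : ℤ) ∣ Nm o.M v).card : ℝ) / l ^ n := by
    have h1 := card_filter_add_card_filter_not (s := box n l) fun v => (l : ℤ) ∣ Nm o.M v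
    have h2 : (box n l).card = l ^ n := by simp [box]
    rw [h2] at h1
    have h3 := congrArg (Nat.cast : ℕ → ℝ) h1
    push_cast at h3
    rw [eq_div_iff hN.ne', sub_mul, nuG, div_mul_cancel₀ _ hN.ne']
    exact (eq_sub_of_add_eq' (h3.trans (one_mul _).symm)).symm
  rw [e0]
  refine num l1 hN ?_
  have : NeZero l := ⟨hl.ne_zero⟩
  suffices h : ((box n l).filter fun v => ¬(l : ℤ) ∣ Nm o.M v).card * l ^ o.rr W l
      ≤ (l - 1) ^ o.rr W l * l ^ n by
    have h' := (Nat.cast_le (α := ℝ)).2 h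
    push_cast [Nat.cast_sub hl.one_le] at h'
    exact h'
  rw [Od.rr]
  split_ifs with hc
  swap
  · simpa [box] using card_filter_le (box n l) fun v => ¬(l : ℤ) ∣ Nm o.M v
  have fi : Finite {I : Ideal (𝓞 o.L) // Ideal.absNorm I = l} :=
    (Ideal.finite_setOfPred_absNorm_eq (S := 𝓞 o.L) l).to_subtype
  have mx : ∀ I : {I : Ideal (𝓞 o.L) // Ideal.absNorm I = l}, I.1.IsMaximal := fun I =>
    (Ideal.isPrime_of_irreducible_absNorm (by rw [I.2]; exact hl)).isMaximal fun e =>
      hl.ne_zero (by rw [← I.2, e, Ideal.absNorm_bot])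
  refine rng (fun I : {I : Ideal (𝓞 o.L) // Ideal.absNorm I = l} => I.1) (fun I J hIJ => ?_)
    (fun I => I.2) (fun I => ?_) (o.inc.toAddMonoidHom.comp o.co.toAddMonoidHom) (fun x => ?_) _
    (filter_subset _ _) fun v hv I e => (mem_filter.1 hv).2 ?_
  · have := mx I
    have := mx J
    exact Ideal.isCoprime_of_isMaximal fun e => hIJ (Subtype.ext e)
  · have := Ideal.absNorm_mem I.1
    rwa [I.2] at this
  · obtain ⟨u, w, huw⟩ := Nat.isCoprime_iff_coprime.2 hc.coprime_mul_right_right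
    obtain ⟨a, ha⟩ := ho.cond (w * x)
    refine ⟨o.co.symm a, u * x, ?_⟩
    have h1 := congrArg (Int.cast : ℤ → 𝓞 o.L) huw
    push_cast at h1
    show o.inc (o.co (o.co.symm a)) = _
    rw [AddEquiv.apply_symm_apply, ha]
    linear_combination x * h1
  · rw [← ho.nmM, ← I.2]
    exact Int.natCast_dvd_natCast.2 (Ideal.absNorm_dvd_absNorm_of_le
      ((Ideal.span_singleton_le_iff_mem _).2 e))

end Pool.Agent.MP_f3836a_nt.GV.C
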