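import Pool.Agent.MP_f3836a_nt.GV.SpecC2

/-! The number of ideals of given norm. -/

set_option autoImplicit false

namespace Pool.Agent.MP_f3836a_nt.GV.C

open NumberField UniqueFactorizationMonoid

namespace GCRr

variable {L : Type} [Field L] [NumberField L]

theorem one : Nat.card {I : Ideal (𝓞 L) // Ideal.absNorm I = 1} = 1 := by
  rw [Nat.card_eq_one_iff_exists]
  exact ⟨⟨⊤, by simp⟩, fun I => Subtype.ext (Ideal.absNorm_eq_one_iff.1 I.2)⟩

theorem fin (m : ℕ) (h : m ≠ 0) : Finite {I : Ideal (𝓞 L) // Ideal.absNorm I = m} :=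
  (Ideal.finite_setOf_absNorm_eq (S := 𝓞 L) m).to_subtype

theorem prod_eq {a b : ℕ} (h : a.Coprime b) {I : Ideal (𝓞 L)} (hI : Ideal.absNorm I = a * b) :
    (I ⊔ Ideal.span {(a : 𝓞 L)}) * (I ⊔ Ideal.span {(b : 𝓞 L)}) = I := by
  have hm : ((a : 𝓞 L) * b) ∈ I := by
    have := Ideal.absNorm_mem I
    rwa [hI, Nat.cast_mul] at this
  apply le_antisymm
  · rw [Ideal.sup_mul, Ideal.mul_sup (Ideal.span _), Ideal.span_singleton_mul_span_singleton]
    exact sup_le Ideal.mul_le_left (sup_le Ideal.mul_le_right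
      ((Ideal.span_singleton_le_iff_mem _).2 hm))
  · intro x hx
    obtain ⟨u, v, huv⟩ : IsCoprime (a : 𝓞 L) b := Nat.Coprime.cast h
    have e : x = (u * a) * x + x * (v * b) := by linear_combination (-x) * huv
    rw [e]
    refine add_mem (Ideal.mul_mem_mul ?_ (Ideal.mem_sup_left hx))
      (Ideal.mul_mem_mul (Ideal.mem_sup_left hx) ?_)
    · exact Ideal.mem_sup_right (Ideal.mul_mem_left _ _ (Ideal.mem_span_singleton_self _))
    · exact Ideal.mem_sup_right (Ideal.mul_mem_left _ _ (Ideal.mem_span_singleton_self _))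

theorem dvd_left {a b : ℕ} (h : a.Coprime b) {I : Ideal (𝓞 L)} (hI : Ideal.absNorm I = a * b) :
    Ideal.absNorm (I ⊔ Ideal.span {(a : 𝓞 L)}) ∣ a := by
  have h1 : Ideal.absNorm (I ⊔ Ideal.span {(a : 𝓞 L)}) ∣ a * b :=
    hI ▸ Ideal.absNorm_dvd_absNorm_of_le le_sup_left
  have h2 := Ideal.absNorm_dvd_absNorm_of_le
    (le_sup_right : Ideal.span {(a : 𝓞 L)} ≤ I ⊔ Ideal.span {(a : 𝓞 L)})
  rw [Ideal.absNorm_span_natCast] at h2
  exact ((h.pow_left _).coprime_dvd_left h2).dvd_of_dvd_mul_right h1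

theorem mul {a b : ℕ} (h : a.Coprime b) (ha : a ≠ 0) (hb : b ≠ 0) :
    Nat.card {I : Ideal (𝓞 L) // Ideal.absNorm I = a * b} ≤
      Nat.card {I : Ideal (𝓞 L) // Ideal.absNorm I = a} *
        Nat.card {I : Ideal (𝓞 L) // Ideal.absNorm I = b} := by
  have := fin (L := L) a ha
  have := fin (L := L) b hb
  have key : ∀ I : Ideal (𝓞 L), Ideal.absNorm I = a * b →
      Ideal.absNorm (I ⊔ Ideal.span {(a : 𝓞 L)}) = a ∧
        Ideal.absNorm (I ⊔ Ideal.span {(b : 𝓞 L)}) = b := by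
    intro I hI
    have h1 := dvd_left h hI
    have h2 := dvd_left h.symm (hI.trans (mul_comm a b))
    have h3 := congrArg Ideal.absNorm (prod_eq h hI)
    rw [map_mul, hI] at h3
    have l1 := Nat.le_of_dvd (Nat.pos_of_ne_zero ha) h1
    have l2 := Nat.le_of_dvd (Nat.pos_of_ne_zero hb) h2
    have p1 := Nat.pos_of_ne_zero ha
    have p2 := Nat.pos_of_ne_zero hb
    constructor <;> nlinarith
  rw [← Nat.card_prod]
  refine Nat.card_le_card_of_injective (fun I => (⟨_, (key I.1 I.2).1⟩, ⟨_, (key I.1 I.2).2⟩)) ?_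
  intro I J e
  simp only [Prod.mk.injEq, Subtype.mk.injEq] at e
  exact Subtype.ext (by rw [← prod_eq h I.2, e.1, e.2, prod_eq h J.2])

theorem fac {l j : ℕ} (hl : l.Prime) {I : Ideal (𝓞 L)} (hI : Ideal.absNorm I = l ^ j)
    {P : Ideal (𝓞 L)} (hP : P ∈ normalizedFactors I) :
    l ∣ Ideal.absNorm P ∧ P ∈ Ideal.primesOver (Ideal.span {(l : ℤ)}) (𝓞 L) := by
  have hp : Prime P := prime_of_normalized_factor P hP
  have hp' : P.IsPrime := Ideal.isPrime_of_prime hp
  have hd : P ∣ I := dvd_of_mem_normalizedFactors hP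
  have h1 : Ideal.absNorm P ∣ l ^ j := hI ▸ map_dvd Ideal.absNorm hd
  obtain ⟨f, -, hf⟩ := (Nat.dvd_prime_pow hl).1 h1
  have f0 : f ≠ 0 := by
    rintro rfl
    exact hp'.ne_top (Ideal.absNorm_eq_one_iff.1 (by simpa using hf))
  refine ⟨hf ▸ dvd_pow_self l f0, hp', ?_⟩
  have hm : (l : 𝓞 L) ∈ P := by
    have := Ideal.absNorm_mem P
    rw [hf, Nat.cast_pow] at this
    exact hp'.mem_of_pow_mem _ this
  exact (Ideal.liesOver_span_iff hp'.ne_top (Nat.prime_iff_prime_int.1 hl)).2 (by simpa using hm)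

theorem card_le {l j : ℕ} (hl : l.Prime) {I : Ideal (𝓞 L)} (hI : Ideal.absNorm I = l ^ j) :
    (normalizedFactors I).card ≤ j := by
  have h0 : I ≠ 0 := by
    rintro rfl
    exact pow_ne_zero j hl.ne_zero (by simpa using hI.symm)
  have h1 : ∀ s : Multiset (Ideal (𝓞 L)), (∀ P ∈ s, l ∣ Ideal.absNorm P) →
      l ^ s.card ∣ Ideal.absNorm s.prod := by
    intro s
    refine Multiset.induction_on s (by simp) fun P s ih hs => ?_
    rw [Multiset.prod_cons, Multiset.card_cons, map_mul, pow_succ']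
    exact mul_dvd_mul (hs P (Multiset.mem_cons_self _ _))
      (ih fun Q hQ => hs Q (Multiset.mem_cons_of_mem hQ))
  have h2 := h1 _ fun P hP => (fac hl hI hP).1
  rw [prod_normalizedFactors_eq_self h0, hI] at h2
  exact (Nat.pow_dvd_pow_iff_le_right hl.one_lt).1 h2

theorem pow {l : ℕ} (hl : l.Prime) (j : ℕ) :
    Nat.card {I : Ideal (𝓞 L) // Ideal.absNorm I = l ^ j} ≤ (j + 1) ^ Module.finrank ℚ L := by
  classical
  have hp : Prime (l : ℤ) := Nat.prime_iff_prime_int.1 hl
  have h0 : Ideal.span {(l : ℤ)} ≠ ⊥ := by simpa using hl.ne_zero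
  have : (Ideal.span {(l : ℤ)}).IsMaximal :=
    ((Ideal.span_singleton_prime hp.ne_zero).2 hp).isMaximal h0
  have hc := Ideal.card_primesOverFinset_le_finrank (𝓞 L) ℚ L h0
  set T := IsDedekindDomain.primesOverFinset (Ideal.span {(l : ℤ)}) (𝓞 L)
  have : Nat.card {I : Ideal (𝓞 L) // Ideal.absNorm I = l ^ j} ≤ Nat.card (T → Fin (j + 1)) := by
    refine Nat.card_le_card_of_injective (fun I P => ⟨(normalizedFactors I.1).count P.1,
      Nat.lt_succ_of_le ((Multiset.count_le_card _ _).trans (card_le hl I.2))⟩) ?_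
    intro I J e
    have z : ∀ K : {I : Ideal (𝓞 L) // Ideal.absNorm I = l ^ j}, K.1 ≠ 0 := by
      rintro ⟨K, hK⟩ rfl
      exact pow_ne_zero j hl.ne_zero (by simpa using hK.symm)
    have e' : normalizedFactors I.1 = normalizedFactors J.1 := by
      ext P
      by_cases hP : P ∈ T
      · exact congrArg Fin.val (congrFun e ⟨P, hP⟩)
      · have u : ∀ K : {I : Ideal (𝓞 L) // Ideal.absNorm I = l ^ j},
            (normalizedFactors K.1).count P = 0 := fun K => Multiset.count_eq_zero.2 fun h =>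
          hP ((IsDedekindDomain.mem_primesOverFinset_iff h0 _).2 (fac hl K.2 h).2)
        rw [u, u]
    exact Subtype.ext (by
      rw [← prod_normalizedFactors_eq_self (z I), e', prod_normalizedFactors_eq_self (z J)])
  refine this.trans ?_
  rw [Nat.card_fun, Nat.card_eq_fintype_card, Nat.card_eq_fintype_card, Fintype.card_fin,
    Fintype.card_coe]
  exact Nat.pow_le_pow_right j.succ_pos hc

end GCRr

theorem rRr : RrS := by
  intro n r _ o W ho
  have h1 : o.rr W 1 = 1 := by rw [Od.rr, if_pos (Nat.coprime_one_left _), GCRr.one]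
  refine ⟨h1, fun a b h => ?_, fun l j hl => ?_⟩
  · rcases eq_or_ne a 0 with rfl | ha
    · rw [(Nat.coprime_zero_left _).1 h, h1, mul_one, mul_one]
    rcases eq_or_ne b 0 with rfl | hb
    · rw [(Nat.coprime_zero_right _).1 h, h1, one_mul, one_mul]
    by_cases hc : (a * b).Coprime (o.D * W)
    · rw [Od.rr, Od.rr, Od.rr, if_pos hc, if_pos hc.coprime_mul_right,
        if_pos hc.coprime_mul_left]
      exact GCRr.mul h ha hb
    · rw [Od.rr, if_neg hc]; exact Nat.zero_le _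
  · rw [Od.rr]
    split_ifs
    · have h := GCRr.pow (L := o.L) hl j
      rwa [ho.rank] at h
    · exact Nat.zero_le _

end Pool.Agent.MP_f3836a_nt.GV.C
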