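import Pool.Agent.MP_f3836a_nt.GV.SpecC1

/-! Counting lattice points and Riemann sums, by a tiling with small tiles. -/

set_option autoImplicit false

namespace Pool.Agent.MP_f3836a_nt.GV.C

open Finset MeasureTheory Metric

namespace GCRs

variable {r : ℕ} {A : Type} [AddCommGroup A] {g : A →+ E r} {V ρ : ℝ}

theorem rho_nonneg (h : Lt g V ρ) : 0 ≤ ρ := (h.cov 0).elim fun _ a => (norm_nonneg _).trans a

theorem inj (h : Lt g V ρ) : Function.Injective g := by
  obtain ⟨a, a0, ha⟩ := h.sep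
  refine (injective_iff_map_eq_zero g).2 fun v hv => by_contra fun c => ?_
  have := ha v c
  rw [hv, norm_zero] at this
  exact this.not_gt a0

theorem disc (h : Lt g V ρ) : DiscreteTopology (AddSubgroup.toIntSubmodule g.range) := by
  obtain ⟨a, a0, ha⟩ := h.sep
  refine discreteTopology_of_isOpen_singleton_zero (Metric.isOpen_singleton_iff.2 ⟨a, a0, ?_⟩)
  rintro ⟨_, v, rfl⟩ hv
  rw [dist_zero_right] at hv
  obtain rfl : v = 0 := by_contra fun c => (ha v c).not_gt hv
  exact Subtype.ext (map_zero g)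

theorem span_top (h : Lt g V ρ) :
    Submodule.span ℝ (AddSubgroup.toIntSubmodule g.range : Set (E r)) = ⊤ := by
  have h0 := rho_nonneg h
  refine Submodule.eq_top_iff'.2 fun x => ?_
  refine (Submodule.closed_of_finiteDimensional _).closure_subset
    (Metric.mem_closure_iff.2 fun ε e0 => ?_)
  obtain ⟨v, hv⟩ := h.cov (((ρ + 1) / ε) • x)
  refine ⟨(ε / (ρ + 1)) • g v, Submodule.smul_mem _ _ (Submodule.subset_span ⟨v, rfl⟩), ?_⟩
  have e : x - (ε / (ρ + 1)) • g v = (ε / (ρ + 1)) • (((ρ + 1) / ε) • x - g v) := by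
    rw [smul_sub, smul_smul, show ε / (ρ + 1) * ((ρ + 1) / ε) = 1 by field_simp, one_smul]
  rw [dist_eq_norm, e, norm_smul, Real.norm_of_nonneg (by positivity), div_mul_eq_mul_div,
    div_lt_iff₀ (by positivity)]
  exact mul_lt_mul_of_pos_left (by linarith) e0

theorem tile (h : Lt g V ρ) : 0 < V ∧ ∃ T : A → Set (E r), (∀ v, MeasurableSet (T v)) ∧
    (∀ v, volume.real (T v) = V) ∧ (∀ v, T v ⊆ closedBall (g v) ρ) ∧ ∀ x, ∃! v, x ∈ T v := by
  classical
  have := disc h
  have : IsZLattice ℝ (AddSubgroup.toIntSubmodule g.range) := ⟨span_top h⟩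
  let b := Module.Free.chooseBasis ℤ (AddSubgroup.toIntSubmodule g.range)
  let e : A ≃ AddSubgroup.toIntSubmodule g.range := (AddMonoidHom.ofInjective (inj h)).toEquiv
  have : Countable A := e.countable_iff.2 inferInstance
  obtain ⟨q, hq⟩ := exists_surjective_nat A
  have hc : ∀ y, ∃ k, ‖y - g (q k)‖ ≤ ρ := fun y => hq.exists.1 (h.cov y)
  have hm : Measurable fun y => Nat.find (hc y) :=
    measurable_find hc fun k => measurableSet_le (by fun_prop) measurable_const
  have u0 : ∀ x, ∃! v, g v + x ∈ ZSpan.fundamentalDomain (b.ofZLatticeBasis ℝ) := fun x => by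
    have := ZSpan.exist_unique_vadd_mem_fundamentalDomain (b.ofZLatticeBasis ℝ) x
    rw [b.ofZLatticeBasis_span ℝ] at this
    exact (e.existsUnique_congr fun _ => Iff.rfl).2 this
  let F : Set (E r) := ⋃ v, (g v + ·) ⁻¹' (ZSpan.fundamentalDomain (b.ofZLatticeBasis ℝ) ∩
    (fun y => Nat.find (hc y)) ⁻¹' {k | q k = v})
  have mF : MeasurableSet F := MeasurableSet.iUnion fun v => measurable_const_add _
    ((ZSpan.fundamentalDomain_measurableSet _).inter (hm trivial))
  have u1 : ∀ x, ∃! v, g v + x ∈ F := fun x => by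
    obtain ⟨l, l1, l2⟩ := u0 x
    refine ⟨l - q (Nat.find (hc (g l + x))), Set.mem_iUnion.2 ⟨q (Nat.find (hc (g l + x))), ?_⟩,
      fun w hw => ?_⟩
    · rw [Set.mem_preimage, ← add_assoc, ← map_add, add_sub_cancel]
      exact ⟨l1, rfl⟩
    · obtain ⟨v, hv⟩ := Set.mem_iUnion.1 hw
      rw [Set.mem_preimage, ← add_assoc, ← map_add] at hv
      obtain rfl := l2 _ hv.1
      rw [show q (Nat.find (hc (g (v + w) + x))) = v from hv.2, add_sub_cancel_left]
  have vF : volume.real F = V := by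
    rw [← h.vol, cvl, ZLattice.covolume_eq_measure_fundamentalDomain _ volume
      (IsAddFundamentalDomain.mk' mF.nullMeasurableSet fun x =>
        (e.existsUnique_congr fun _ => Iff.rfl).1 (u1 x))]
  refine ⟨h.vol ▸ ZLattice.covolume_pos _ volume, fun v => (g (-v) + ·) ⁻¹' F,
    fun v => measurable_const_add _ mF, fun v => by
      rw [Measure.real, measure_preimage_add, ← vF, Measure.real], fun v x hx => ?_,
    fun x => ((Equiv.neg A).existsUnique_congr fun _ => Iff.rfl).2 (u1 x)⟩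
  obtain ⟨w, -, hw⟩ := Set.mem_iUnion.1 hx
  have := Nat.find_spec (hc (g w + (g (-v) + x)))
  rw [show q _ = w from hw, add_sub_cancel_left, map_neg, neg_add_eq_sub] at this
  exact mem_closedBall_iff_norm.2 this

end GCRs

open GCRs in
theorem rRs : RsS := by
  classical
  intro r A _ g V ρ h
  have h0 := rho_nonneg h
  obtain ⟨V0, T, t1, t2, t3, t4⟩ := tile h
  have fin : ∀ v, volume (T v) < ⊤ := fun v =>
    (measure_mono (t3 v)).trans_lt (isCompact_closedBall _ _).measure_lt_top
  have dis : ∀ S : Finset A, (S : Set A).PairwiseDisjoint T := fun S v _ w _ c =>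
    Set.disjoint_left.2 fun x a b => c ((t4 x).unique a b)
  have vol : ∀ S : Finset A, volume.real (⋃ v ∈ S, T v) = V * S.card := fun S => by
    rw [measureReal_biUnion_finset (dis S) (fun v _ => t1 v) fun v _ => (fin v).ne]
    simp [t2, mul_comm]
  have up : ∀ (c : E r) (R : ℝ) (S : Finset A), 0 ≤ R → (∀ v ∈ S, ‖g v - c‖ ≤ R) →
      V * S.card ≤ vb r (R + ρ) := fun c R S R0 hS => by
    rw [← vol, ← vol_ball c (add_nonneg R0 h0)]
    refine measureReal_mono (Set.iUnion₂_subset fun v hv => (t3 v).trans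
      (closedBall_subset_closedBall' ?_)) (isCompact_closedBall _ _).measure_lt_top.ne
    rw [dist_eq_norm, add_comm]
    exact add_le_add_left (hS v hv) _
  have ex : ∀ (c : E r) (R : ℝ), 0 ≤ R → ∃ S : Finset A, (∀ v, v ∈ S ↔ ‖g v - c‖ ≤ R + ρ) ∧
      closedBall c R ⊆ ⋃ v ∈ S, T v := fun c R R0 => by
    have f : {v | ‖g v - c‖ ≤ R + ρ}.Finite := by_contra fun i => by
      obtain ⟨n, hn⟩ := exists_nat_gt (vb r (R + ρ + ρ) / V)
      obtain ⟨S, s1, rfl⟩ := Set.Infinite.exists_subset_card_eq i n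
      exact (up c _ S (add_nonneg R0 h0) fun v hv => s1 hv).not_gt ((div_lt_iff₀' V0).1 hn)
    refine ⟨f.toFinset, fun v => f.mem_toFinset, fun x hx => ?_⟩
    obtain ⟨v, hv, -⟩ := t4 x
    refine Set.mem_biUnion (f.mem_toFinset.2 ?_) hv
    have := dist_triangle_left (g v) c x
    rw [dist_eq_norm] at this
    exact this.trans (by linarith [mem_closedBall.1 hx, mem_closedBall.1 (t3 v hv)])
  refine ⟨V0, h0, by simpa using up 0 0 {0} le_rfl (by simp), up, fun c R R0 => ?_,
    fun Φ K R c S hΦ hS => ?_⟩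
  · obtain ⟨S, s1, s2⟩ := ex c R R0
    refine ⟨S, s1, ?_⟩
    rw [← vol, ← vol_ball c R0]
    exact measureReal_mono s2 (measure_biUnion_lt_top S.finite_toSet fun v _ => fin v).ne
  obtain ⟨S0, s1, s2⟩ := ex c R hΦ.pos.2
  have ct : Continuous Φ := (LipschitzWith.of_dist_le_mul (K := ⟨K, hΦ.pos.1⟩) fun x y => by
    rw [dist_eq_norm x]
    exact hΦ.lip x y).continuous
  have it : ∀ v, IntegrableOn Φ (T v) := fun v =>
    (ct.continuousOn.integrableOn_compact (isCompact_closedBall _ _)).mono_set (t3 v)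
  have e1 : ∑ v ∈ S, Φ (g v) = ∑ v ∈ S0, Φ (g v) :=
    sum_congr_of_eq_on_inter
      (fun v _ n => by_contra fun k => n ((s1 v).2 ((hΦ.sup _ k).trans (by linarith))))
      (fun v _ n => by_contra fun k => n (hS v k)) fun _ _ _ => rfl
  rw [e1, ← setIntegral_eq_integral_of_forall_compl_eq_zero (s := ⋃ v ∈ S0, T v)
    fun x n => by_contra fun k => n (s2 (mem_closedBall_iff_norm.2 (hΦ.sup x k))),
    integral_biUnion_finset S0 (fun v _ => t1 v) (dis S0) fun v _ => it v, mul_sum,
    ← sum_sub_distrib]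
  have k0 := mul_nonneg hΦ.pos.1 h0
  refine (abs_sum_le_sum_abs _ _).trans ((sum_le_card_nsmul _ _ (K * ρ * V) fun v _ => ?_).trans ?_)
  · have := norm_setIntegral_le_of_norm_le_const (f := fun x => Φ (g v) - Φ x) (C := K * ρ) (fin v)
      fun x hx => (hΦ.lip _ _).trans (mul_le_mul_of_nonneg_left
        (mem_closedBall_iff_norm'.1 (t3 v hx)) hΦ.pos.1)
    rwa [integral_sub (integrableOn_const (C := Φ (g v)) (fin v).ne) (it v), setIntegral_const,
      t2] at this
  · rw [nsmul_eq_mul, mul_comm, mul_assoc, two_mul, ← add_assoc]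
    exact mul_le_mul_of_nonneg_left
      (up c _ S0 (add_nonneg hΦ.pos.2 h0) fun v hv => (s1 v).1 hv) k0

end Pool.Agent.MP_f3836a_nt.GV.C
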