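import Pool.Agent.MP_f3836a_nt.GV.SpecC2

/-! Elementary facts on the steps. -/

set_option autoImplicit false

namespace Pool.Agent.MP_f3836a_nt.GV.C

open Finset VE
open VE.BC (cop)

theorem rStp : StpS := by
  intro n r _ o ss Val St μ W E0 C1 Y hY h
  have a1 : ∀ z, Val z → o.Gd ss z ∧ z.p.Coprime W := fun z hz => by
    obtain ⟨h1, h2, h3⟩ := h.val z hz
    exact ⟨⟨h1, fun c => h2 ((Int.natCast_dvd.2 c).mul_right _), h3⟩,
      h1.coprime_iff_not_dvd.2 fun c => h2 ((Int.natCast_dvd_natCast.2 c).mul_left _)⟩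
  have a3 : ∀ x ∈ St, Nd x ∧ (∀ z ∈ x, Val z) ∧ (nT x).Prime ∧ (nT x).Coprime W ∧ Y ≤ nT x ∧
      Real.log Y ≤ Real.log (nT x) ∧ Real.log (nT x) < 2 * Real.log Y := fun x hx => by
    obtain ⟨z, rfl, h1, h2, h3⟩ := h.stp x hx
    have e : nT {z} = z.p := by simp [nT]
    rw [e]
    refine ⟨by simp [Nd], by simpa using h1, (a1 z h1).1.1, (a1 z h1).2, h2,
      Real.log_le_log (by linarith) h2, ?_⟩
    simpa using Real.log_lt_log (by linarith) h3
  have a2 : 0 < C1 := by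
    obtain ⟨x, hx, h1⟩ := exists_ne_zero_of_sum_ne_zero (h.tot.trans_ne one_ne_zero)
    exact (mul_pos ((h.pos x hx).lt_of_ne' h1) (by linarith [(a3 x hx).2.2.2.2.1])).trans_le
      (h.wt x hx)
  have a4 : ∀ p : ℕ, ∑ x ∈ St.filter fun x => nT x = p, μ x ≤ n * C1 / Y := fun p => by
    have c : (St.filter fun x => nT x = p).card ≤ n := by
      have : Nonempty Pt := ⟨⟨0, 0, 0⟩⟩
      choose! f hf using h.stp
      rw [← card_image_of_injOn (f := f) fun x hx y hy e => by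
        rw [(hf x (mem_filter.1 hx).1).1, e, ← (hf y (mem_filter.1 hy).1).1]]
      refine h.few p _ fun z hz => ?_
      obtain ⟨x, hx, rfl⟩ := mem_image.1 hz
      obtain ⟨h1, h2⟩ := mem_filter.1 hx
      rw [(hf x h1).1] at h2
      exact ⟨(hf x h1).2.1, by simpa [nT] using h2⟩
    refine (sum_le_card_nsmul _ _ (C1 / Y) fun x hx => ?_).trans ?_
    · have h1 := (mem_filter.1 hx).1
      rw [le_div_iff₀ (by linarith)]
      exact (mul_le_mul_of_nonneg_left (a3 x h1).2.2.2.2.1 (h.pos x h1)).trans (h.wt x h1)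
    · rw [nsmul_eq_mul, mul_div_assoc]
      gcongr
  refine ⟨a1, a2, a3, a4, fun Q a S hQ hQ' hS => ?_⟩
  set P := Q.primeFactors.filter fun p : ℕ => Y ≤ p with hP
  have h1 : P.card ≤ a := by
    have h2 : ((∏ p ∈ P, p : ℕ) : ℝ) ≤ Q := by
      exact_mod_cast Nat.le_of_dvd hQ ((prod_dvd_prod_of_subset _ _ _ (filter_subset _ _)).trans
        (Nat.prod_primeFactors_dvd Q))
    have h3 : Y ^ P.card ≤ ((∏ p ∈ P, p : ℕ) : ℝ) := by
      rw [Nat.cast_prod, ← prod_const]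
      exact prod_le_prod (fun _ _ => by linarith) fun p hp => (mem_filter.1 hp).2
    exact (pow_le_pow_iff_right₀ hY).1 (h3.trans (h2.trans hQ'))
  calc ∑ x ∈ S \ cop S Q, μ x ≤ ∑ x ∈ St.filter fun x => nT x ∈ P, μ x := by
        refine sum_le_sum_of_subset_of_nonneg (fun x hx => ?_) fun x hx _ =>
          h.pos x (mem_filter.1 hx).1
        obtain ⟨hx, h2⟩ := mem_sdiff.1 hx
        obtain ⟨-, -, h3, -, h4, -⟩ := a3 x (hS hx)
        refine mem_filter.2 ⟨hS hx, mem_filter.2 ⟨Nat.mem_primeFactors.2 ⟨h3, ?_, hQ.ne'⟩, h4⟩⟩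
        exact h3.dvd_iff_not_coprime.2 fun c => h2 (mem_filter.2 ⟨hx, c⟩)
    _ = ∑ p ∈ P, ∑ x ∈ St.filter fun x => nT x = p, μ x := (sum_fiberwise_eq_sum_filter _ _ _ _).symm
    _ ≤ P.card • (n * C1 / Y) := sum_le_card_nsmul _ _ _ fun p _ => a4 p
    _ ≤ _ := by
        rw [nsmul_eq_mul, mul_div_assoc (a : ℝ)]
        gcongr

end Pool.Agent.MP_f3836a_nt.GV.C
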