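import Pool.Agent.MP_f3836a_nt.GV.SpecC2

/-! Block C, row `Sua`: the order attached to a multiplication table. -/

set_option autoImplicit false

namespace Pool.Agent.MP_f3836a_nt.GV.C

open Finset NumberField

namespace GCSua

variable {n : ℕ} {A : Type} [CommRing A] (y : Module.Basis (Fin n) ℤ A)

theorem mx (a : A) :
    Mx (fun i => Algebra.leftMulMatrix y (y i)) (y.repr a) = Algebra.leftMulMatrix y a := by
  conv_rhs => rw [← y.sum_repr a, map_sum]
  exact sum_congr rfl fun i _ => (map_smul _ _ _).symm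

theorem dom [NeZero n] (h : ∀ β, β ≠ 0 → Nm (fun i => Algebra.leftMulMatrix y (y i)) β ≠ 0) :
    IsDomain A := by
  have : Nontrivial A := nontrivial_of_ne _ _ (y.ne_zero 0)
  have : NoZeroDivisors A := ⟨fun {a b} e => or_iff_not_imp_left.2 fun a0 => by
    have h1 := h (y.repr a) fun k => a0 (y.repr.map_eq_zero_iff.1 (DFunLike.coe_injective k))
    rw [Nm, mx] at h1
    have h2 := Matrix.eq_zero_of_mulVec_eq_zero h1 (v := y.repr b) (by
      rw [Algebra.leftMulMatrix_mulVec_repr, e, map_zero, Finsupp.coe_zero])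
    exact y.repr.map_eq_zero_iff.1 (DFunLike.coe_injective h2)⟩
  exact NoZeroDivisors.to_isDomain A

theorem hom [NeZero n] (h0 : y 0 = 1) (s : Fin n → ℂ)
    (h : Hm (fun i => ((Algebra.leftMulMatrix y (y i)).map (Int.cast : ℤ → ℝ)).map
      Complex.ofReal) s) : ∃ φ : A →+* ℂ, ∀ i, φ (y i) = s i := by
  let f : A →ₗ[ℤ] ℂ := y.constr ℤ s
  have f1 : ∀ i, f (y i) = s i := fun i => y.constr_basis ℤ s i
  have f2 : (LinearMap.mul ℤ A).compr₂ f = (LinearMap.mul ℤ ℂ).compl₁₂ f f := by
    refine LinearMap.ext_basis y y fun i j => ?_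
    simp only [LinearMap.compr₂_apply, LinearMap.compl₁₂_apply, LinearMap.mul_apply', f1]
    rw [h.2, ← y.sum_repr (y i * y j), map_sum]
    refine sum_congr rfl fun l _ => ?_
    rw [map_smul, f1]
    simp only [zsmul_eq_mul, Matrix.map_apply, Algebra.leftMulMatrix_eq_repr_mul,
      Complex.ofReal_intCast]
  exact ⟨{ toFun := f, map_one' := by rw [← h0, f1, h.1], map_zero' := map_zero f
           map_mul' := fun a b => LinearMap.congr_fun₂ f2 a b, map_add' := map_add f }, f1⟩

theorem nmc (M : Tab ℤ n) (β : Fin n → ℤ) :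
    Nm (fun i => (M i).map (Int.cast : ℤ → ℝ)) (fun i => β i) = (Nm M β : ℤ) := by
  rw [Nm, Nm, ← eq_intCast (Int.castRingHom ℝ), RingHom.map_det]
  congr 1
  ext i j
  simp only [Mx, Matrix.sum_apply, Matrix.smul_apply, smul_eq_mul, Matrix.map_apply,
    RingHom.mapMatrix_apply, eq_intCast, Int.cast_sum, Int.cast_mul]

end GCSua

theorem rSua : SuaS := by
  intro n r _ M Φ h2 ⟨A, _, inst, y, h0, hy⟩ hf hE
  obtain rfl : inst = Ring.toIntAlgebra A := Subsingleton.elim _ _
  obtain rfl : M = fun i => Algebra.leftMulMatrix y (y i) := funext hy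
  have := GCSua.dom y hf
  have := Module.Free.of_basis y
  have := Module.Finite.of_basis y
  have : CharZero A := charZero_of_injective_algebraMap (FaithfulSMul.algebraMap_injective ℤ A)
  obtain ⟨L, _, _, _⟩ : ∃ (L : Type) (_ : Field L) (_ : Algebra A L), IsFractionRing A L :=
    ⟨FractionRing A, inferInstance, inferInstance, inferInstance⟩
  have : CharZero L := charZero_of_injective_algebraMap (IsFractionRing.injective A _)
  have hr : Module.finrank ℚ L = n := by
    rw [IsFractionRing.finrank_eq ℤ ℚ A L, Module.finrank_eq_card_basis y,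
      Fintype.card_fin]
  have : NumberField L :=
    { to_finiteDimensional := Module.finite_of_finrank_pos (hr ▸ NeZero.pos n) }
  choose φ hφ using fun w => GCSua.hom y h0 (Φ w) (hE.hom w)
  have hi : ∀ w, Function.Injective (φ w) := fun w => (injective_iff_map_eq_zero _).2 fun a ha => by
    by_contra a0
    have h1 := hf (y.repr a) fun k => a0 (y.repr.map_eq_zero_iff.1 (DFunLike.coe_injective k))
    have h3 := hE.nrm fun i => y.repr a i
    have h4 : emb (Φ w) (fun i => y.repr a i) = 0 := by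
      rw [← ha, emb]
      conv_rhs => rw [← y.sum_repr a, map_sum]
      exact sum_congr rfl fun i _ => by rw [map_zsmul, hφ, zsmul_eq_mul, Complex.ofReal_intCast]
    rw [GCSua.nmc, prod_eq_zero (mem_univ w) (by rw [h4, norm_zero, zero_pow two_ne_zero])] at h3
    exact h1 (Int.cast_eq_zero.1 h3)
  let o : Od n r := ⟨A, L, (IsIntegralClosure.lift ℤ (𝓞 L) L : A →ₐ[ℤ] 𝓞 L), y,
    fun w => IsFractionRing.lift (hi w)⟩
  have hl : ∀ a, algebraMap (𝓞 L) L (o.inc a) = algebraMap A L a :=
    IsIntegralClosure.algebraMap_lift ℤ (𝓞 L) L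
  have hΦ : o.Φ = Φ := by
    funext w i
    exact ((congrArg (o.σ w) (hl _)).trans (IsFractionRing.lift_algebraMap (hi w) _)).trans (hφ w i)
  exact ⟨o, ⟨h2, fun a b e => IsFractionRing.injective A L (by rw [← hl, ← hl, e]),
    h0, hr, hΦ ▸ hE⟩, rfl, hΦ⟩

end Pool.Agent.MP_f3836a_nt.GV.C
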