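import Pool.Agent.MP_f3836a_nt.GV.SpecC1

/-! The covolume of a sublattice. -/

set_option autoImplicit false

namespace Pool.Agent.MP_f3836a_nt.GV.C

open MeasureTheory Module Submodule

namespace GCSub

variable {r : ℕ} {A : Type} [AddCommGroup A] {g : A →+ E r} {a ρ : ℝ}

theorem disc (ha : 0 < a) (h : ∀ v, v ≠ 0 → a ≤ ‖g v‖) :
    DiscreteTopology (AddSubgroup.toIntSubmodule g.range) := by
  refine .of_forall_le_dist ha ?_
  rintro ⟨_, v, rfl⟩ ⟨_, w, rfl⟩ e
  rw [Subtype.dist_eq, dist_eq_norm, ← map_sub]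
  exact h _ fun e' => e (Subtype.ext (congrArg g (sub_eq_zero.1 e')))

theorem lat [DiscreteTopology (AddSubgroup.toIntSubmodule g.range)] (h : ∀ x, ∃ v, ‖x - g v‖ ≤ ρ) :
    IsZLattice ℝ (AddSubgroup.toIntSubmodule g.range) := by
  refine ⟨eq_top_iff.2 fun x _ => (closed_of_finiteDimensional _).closure_subset
    (Metric.mem_closure_iff.2 fun ε hε => ?_)⟩
  have h1 : 0 < (|ρ| + 1) / ε := by positivity
  obtain ⟨v, hv⟩ := h (((|ρ| + 1) / ε) • x)
  refine ⟨((|ρ| + 1) / ε)⁻¹ • g v, smul_mem _ _ (subset_span ⟨v, rfl⟩), ?_⟩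
  rw [dist_eq_norm, ← inv_smul_smul₀ h1.ne' x, ← smul_sub, norm_smul,
    Real.norm_of_nonneg (inv_pos.2 h1).le, inv_mul_lt_iff₀ h1, div_mul_cancel₀ _ hε.ne']
  linarith [le_abs_self ρ]

theorem ratio (L L' : Submodule ℤ (E r)) [DiscreteTopology L] [IsZLattice ℝ L] [DiscreteTopology L']
    [IsZLattice ℝ L'] (h : L ≤ L') : ZLattice.covolume L volume =
      L.toAddSubgroup.relIndex L'.toAddSubgroup * ZLattice.covolume L' volume := by
  let b := finBasisOfFinrankEq ℤ L (ZLattice.rank ℝ L)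
  let b' := finBasisOfFinrankEq ℤ L' (ZLattice.rank ℝ L')
  rw [AddSubgroup.relIndex_eq_natAbs_det L.toAddSubgroup L'.toAddSubgroup h b b', Nat.cast_natAbs,
    Int.cast_abs, ZLattice.covolume_eq_det_mul_measureReal L volume b (b'.ofZLatticeBasis ℝ),
    ZLattice.covolume_eq_measure_fundamentalDomain L' volume
      (ZLattice.isAddFundamentalDomain b' volume), Basis.det_apply, Basis.det_apply, Int.cast_det]
  congr; ext i j
  rw [Matrix.map_apply, Basis.toMatrix_apply, Basis.toMatrix_apply]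
  exact b'.ofZLatticeBasis_repr_apply ℝ L' ⟨b j, h (coe_mem _)⟩ i

end GCSub

theorem rSub : SubS := by
  intro r A A' _ _ g h V ρ ρ' ⟨⟨a, ha, h1⟩, h2, h3⟩ hi h4
  have h5 : ∀ v, v ≠ 0 → a ≤ ‖g.comp h v‖ := fun v hv => h1 _ ((map_ne_zero_iff h hi).2 hv)
  have := GCSub.disc ha h1
  have := GCSub.disc ha h5
  have := GCSub.lat h2
  have := GCSub.lat (g := g.comp h) h4
  have h6 : (g.comp h).range.relIndex g.range = h.range.index := by
    rw [← AddMonoidHom.map_range, g.range_eq_map, AddSubgroup.relIndex_map_map_of_injective _ _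
      ((injective_iff_map_eq_zero g).2 fun v e => by_contra fun hv => by
        simpa [e, ha.not_ge] using h1 v hv), AddSubgroup.relIndex_top_right]
  have h7 : cvl (g.comp h).range = h.range.index * V := by
    rw [← h3, ← h6]
    exact GCSub.ratio (AddSubgroup.toIntSubmodule (g.comp h).range)
      (AddSubgroup.toIntSubmodule g.range) fun _ ⟨v, e⟩ => ⟨h v, e⟩
  exact ⟨fun e => ZLattice.covolume_ne_zero (AddSubgroup.toIntSubmodule (g.comp h).range) volume
    (h7.trans (by rw [e, Nat.cast_zero, zero_mul])), ⟨a, ha, h5⟩, h4, h7⟩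

end Pool.Agent.MP_f3836a_nt.GV.C
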