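import Pool.Agent.MP_f3836a_nt.GV.SpecC2

/-! Discriminant, conductor and norm of an order. -/

set_option autoImplicit false

namespace Pool.Agent.MP_f3836a_nt.GV.C

open Finset NumberField VE

namespace GCSubb

variable {n r : ℕ} (o : Od n r)

theorem co_eq (β : Fin n → ℤ) : o.co β = ∑ i, β i • o.y i := o.y.equivFun_symm_apply β

theorem mx (β : Fin n → ℤ) : Mx o.M β = Algebra.leftMulMatrix o.y (o.co β) := by
  simp only [co_eq, map_sum, map_zsmul, Mx, Od.M]

variable {o} {b : Module.Basis (Fin n) ℚ o.L} (hb : ∀ i, b i = o.inc (o.y i))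

include hb

theorem rep (β : Fin n → ℤ) : b.equivFun (o.inc (o.co β)) = fun i => (β i : ℚ) := by
  rw [← LinearEquiv.eq_symm_apply, b.equivFun_symm_apply, co_eq]
  change algebraMap (𝓞 o.L) o.L _ = _
  simp only [map_sum, map_zsmul, hb, Int.cast_smul_eq_zsmul]

theorem mat (a : o.A) : Algebra.leftMulMatrix b (o.inc a : o.L) =
    (Int.castRingHom ℚ).mapMatrix (Algebra.leftMulMatrix o.y a) := by
  ext i j
  have := congrFun (rep hb (o.co.symm (a * o.y j))) i
  rw [AddEquiv.apply_symm_apply, map_mul] at this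
  rw [Algebra.leftMulMatrix_eq_repr_mul, hb, RingHom.mapMatrix_apply, Matrix.map_apply,
    Algebra.leftMulMatrix_eq_repr_mul]
  exact this

theorem gram : Algebra.traceMatrix ℚ b =
    (Int.castRingHom ℚ).mapMatrix (Matrix.of fun i j => (o.M i * o.M j).trace) := by
  ext i j
  have := mat hb (o.y i * o.y j)
  rw [map_mul, map_mul (Algebra.leftMulMatrix o.y)] at this
  rw [Algebra.traceMatrix_apply, Algebra.traceForm_apply, Algebra.trace_eq_matrix_trace b, hb, hb]
  exact (congrArg _ this).trans (AddMonoidHom.map_trace (Int.castRingHom ℚ) _).symm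

theorem nrm (β : Fin n → ℤ) : Algebra.norm ℤ (o.inc (o.co β)) = Nm o.M β := by
  refine Int.cast_injective (α := ℚ) ?_
  rw [Algebra.coe_norm_int, Algebra.norm_eq_matrix_det b, mat hb, ← RingHom.map_det, Nm, mx]
  rfl

end GCSubb

open GCSubb in
theorem rSubb : SubbS := by
  intro n r _ o h
  have li : LinearIndependent ℚ fun i => (o.inc (o.y i) : o.L) :=
    (LinearIndependent.iff_fractionRing ℤ ℚ).1 (o.y.linearIndependent.map'
      ((algebraMap (𝓞 o.L) o.L).comp o.inc).toAddMonoidHom.toIntLinearMap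
      (LinearMap.ker_eq_bot.2 (RingOfIntegers.coe_injective.comp h.inj)))
  obtain ⟨b, hb⟩ : ∃ b : Module.Basis (Fin n) ℚ o.L, ∀ i, b i = o.inc (o.y i) :=
    ⟨basisOfLinearIndependentOfCardEqFinrank li (by simp [h.rank]), by simp⟩
  have k : ∀ β, ((Nm o.M β : ℤ) : ℝ) = ∏ w, ‖o.em (o.co β) w‖ ^ 2 := fun β => by
    have := h.emb.nrm fun i => β i
    have e : (Mx (fun i => (o.M i).map (Int.cast : ℤ → ℝ)) fun i => β i) =
        (Int.castRingHom ℝ).mapMatrix (Mx o.M β) := by
      ext i j
      simp [Mx, Matrix.sum_apply, -zsmul_eq_mul]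
    rw [Nm, e, ← RingHom.map_det] at this
    refine this.trans (prod_congr rfl fun w _ => ?_)
    simp [emb, co_eq, Od.Φ]
  have k' : ∀ β, (o.nm (o.co β) : ℤ) = Nm o.M β := fun β => by
    rw [Od.nm, Od.pr, Ideal.absNorm_span_singleton, nrm hb, Int.natAbs_of_nonneg]
    have : (0 : ℝ) ≤ (Nm o.M β : ℤ) := k β ▸ prod_nonneg fun w _ => sq_nonneg _
    exact_mod_cast this
  refine ⟨Int.natAbs_ne_zero.2 fun e => Algebra.discr_not_zero_of_basis ℚ b ?_, fun x => ?_, k',
    fun a => ?_⟩
  · rw [Algebra.discr_def, gram hb, ← RingHom.map_det]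
    exact congrArg _ e
  · let G := Matrix.of fun i j => (o.M i * o.M j).trace
    let t : Fin n → ℤ := fun i => Algebra.trace ℤ _ (x * o.inc (o.y i))
    have e : o.inc (o.co (G.adjugate.mulVec t)) = disc o.M * x := by
      refine RingOfIntegers.coe_injective (b.equivFun.injective ((rep hb _).trans ?_))
      have e1 : (Int.castRingHom ℚ) ∘ t = (Algebra.traceMatrix ℚ b).mulVec (b.equivFun x) := by
        rw [Algebra.traceMatrix_of_basis_mulVec]
        exact funext fun i => (Algebra.coe_trace_int _).trans (by rw [hb]; rfl)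
      have e2 : algebraMap (𝓞 o.L) o.L (disc o.M * x) = (Int.castRingHom ℚ G.det) • (x : o.L) := by
        rw [map_mul, map_intCast, ← zsmul_eq_mul, ← Int.cast_smul_eq_zsmul ℚ]
        rfl
      refine (funext fun i => (Int.castRingHom ℚ).map_mulVec G.adjugate t i).trans ?_
      rw [e1, e2, gram hb, ← RingHom.mapMatrix_apply, RingHom.map_adjugate, Matrix.mulVec_mulVec,
        Matrix.adjugate_mul, RingHom.map_det, map_smul, Matrix.smul_mulVec, Matrix.one_mulVec]
    refine ⟨(disc o.M).sign * o.co (G.adjugate.mulVec t), ?_⟩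
    rw [map_mul, e, map_intCast, ← mul_assoc, ← Int.cast_mul, Int.sign_mul_self_eq_natAbs,
      Int.cast_natCast, Od.D]
  · obtain ⟨β, rfl⟩ := o.co.surjective a
    rw [← k, ← k', Int.cast_natCast]

end Pool.Agent.MP_f3836a_nt.GV.C
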