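import Pool.Agent.MP_f3836a_nt.GV.SpecC2

/-! Block C: the embeddings of an order represent the infinite places. -/

set_option autoImplicit false

namespace Pool.Agent.MP_f3836a_nt.GV.C

open Finset NumberField NumberField.InfinitePlace

namespace GCSuc

variable {n r : ℕ}

theorem surj (Φ : Fin r → Fin n → ℂ) (h2 : n = 2 * r) (h : ∀ β, (∀ w, emb (Φ w) β = 0) → β = 0)
    (x : E r) : ∃ β, ∀ w, emb (Φ w) β = x w := by
  let f : (Fin n → ℝ) →ₗ[ℝ] E r :=
    { toFun := fun β w => emb (Φ w) β
      map_add' := fun a b => funext fun w => by simp [emb, add_mul, sum_add_distrib]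
      map_smul' := fun c a => funext fun w => by simp [emb, mul_sum, mul_assoc] }
  obtain ⟨β, e⟩ := (LinearMap.injective_iff_surjective_of_finrank_eq_finrank (f := f)
    (by rw [finrank_E, ← h2]; simp)).1
    ((injective_iff_map_eq_zero f).2 fun β e => h β (congrFun e)) x
  exact ⟨β, congrFun e⟩

theorem conj (o : Od n r) {w w' : Fin r} (h : ComplexEmbedding.conjugate (o.σ w) = o.σ w')
    (β : Fin n → ℝ) : emb (o.Φ w') β = (starRingEnd ℂ) (emb (o.Φ w) β) := by
  simp [emb, Od.Φ, Od.em, ← h]

end GCSuc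

theorem rSuc : SucS := by
  classical
  intro n r _ o H
  have s := GCSuc.surj o.Φ H.two H.emb.inj
  have c : ∀ w, ¬ComplexEmbedding.IsReal (o.σ w) := fun w h => by
    obtain ⟨β, e⟩ := s fun _ => Complex.I
    have := congrArg Complex.im (GCSuc.conj o (ComplexEmbedding.isReal_iff.1 h) β)
    norm_num [e] at this
  have j : Function.Injective fun w => InfinitePlace.mk (o.σ w) := fun w w' h => by
    by_contra ne
    obtain ⟨β, e⟩ := s (Pi.single w' 1)
    have e1 := e w'
    rcases mk_eq_iff.1 h with k | k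
    · have : o.Φ w' = o.Φ w := funext fun i => by simp [Od.Φ, Od.em, k]
      simp [this, e, ne] at e1
    · simp [GCSuc.conj o k, e, ne] at e1
  refine ⟨(Fintype.bijective_iff_injective_and_card _).2 ⟨j, ?_⟩, c⟩
  have h1 := Fintype.card_le_of_injective (β := {w : InfinitePlace o.L // IsComplex w})
    (fun w => ⟨_, isComplex_mk_iff.2 (c w)⟩) fun w w' h => j (congrArg Subtype.val h)
  have h2 := (card_add_two_mul_card_eq_rank o.L).trans (H.rank.trans H.two)
  rw [card_eq_nrRealPlaces_add_nrComplexPlaces]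
  rw [Fintype.card_fin] at h1 ⊢
  change r ≤ nrComplexPlaces o.L at h1
  omega

end Pool.Agent.MP_f3836a_nt.GV.C
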