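import Pool.Agent.MP_f3836a_nt.GV.SpecC2

/-! The data for the sieve on a coset of an ideal. -/

set_option autoImplicit false

namespace Pool.Agent.MP_f3836a_nt.GV.C

open Finset NumberField VE

namespace GCSvi

theorem dvd_iff {l a b : ℕ} (h : a ≡ b [MOD l]) : l ∣ a ↔ l ∣ b := by
  rw [← Nat.modEq_zero_iff_dvd, ← Nat.modEq_zero_iff_dvd]
  exact ⟨fun k => h.symm.trans k, fun k => h.trans k⟩

theorem inv {n r : ℕ} (o : Od n r) (I : Ideal (𝓞 o.L)) (b : (Fin n → ℤ) →+ o.A) (hb : o.IsB I b) :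
    ∃ C' : (Fin n → ℤ) →+ (Fin n → ℤ), ∀ v, b (C' v) = Ideal.absNorm I • o.co v := by
  have h : ∀ v, ((nsmulAddMonoidHom (Ideal.absNorm I)).comp o.co.toAddMonoidHom) v ∈ b.range :=
    fun v => by
      rw [← hb.idx]
      exact AddSubgroup.nsmul_index_mem _ _
  refine ⟨(AddMonoidHom.ofInjective hb.inj).symm.toAddMonoidHom.comp
    (AddMonoidHom.codRestrict _ _ h), fun v => ?_⟩
  exact congrArg Subtype.val ((AddMonoidHom.ofInjective hb.inj).apply_symm_apply ⟨_, h v⟩)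

end GCSvi

theorem rSvi : OfSvi := by
  classical
  intro crt baa nu n r _ o Y Q I b b0 P ok hb hP
  obtain ⟨-, -, -, -, -, -, hc, -⟩ := baa n r o ok
  refine ⟨fun l hl => ?_, fun l _ x y => propext (GCSvi.dvd_iff (hc l _ _ ⟨Q * b y, ?_⟩)),
    fun l hl => ?_⟩
  · obtain ⟨h1, h2, h3, -⟩ := hP l hl
    obtain ⟨a, a', -, a''⟩ := nu n r o l ok h1
    exact ⟨h1, h2, a, (a'' h3).1, a'⟩
  · rw [map_add, map_zsmul, zsmul_eq_mul]; push_cast; ring
  · obtain ⟨h1, -, -, h4⟩ := hP l hl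
    obtain ⟨C', hC⟩ := GCSvi.inv o I b hb
    have h0 : (l : ℝ) ^ n ≠ 0 := pow_ne_zero _ (Nat.cast_ne_zero.2 h1.ne_zero)
    have h0' : (l : ℂ) ^ n ≠ 0 := pow_ne_zero _ (Nat.cast_ne_zero.2 h1.ne_zero)
    have h := (crt n).2.2 l (Q * Ideal.absNorm I) (fun v => if l ∣ o.nm (o.co v) then 1 else 0)
      (o.co.symm b0) (o.co.symm.toAddMonoidHom.comp ((AddMonoidHom.mulLeft (Q : o.A)).comp b)) C'
      h1.pos (fun x y => if_congr (GCSvi.dvd_iff (hc l _ _ ⟨o.co y, by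
        rw [map_add, map_zsmul, zsmul_eq_mul]; push_cast; ring⟩)) rfl rfl)
      ((Nat.Prime.coprime_iff_not_dvd h1).2 h4).symm fun x => hb.inj (by
        rw [hC, map_zsmul, zsmul_eq_mul, nsmul_eq_mul]
        simp only [AddMonoidHom.coe_comp, AddEquiv.toAddMonoidHom_eq_coe, AddMonoidHom.coe_coe,
          Function.comp, AddMonoidHom.coe_mulLeft, AddEquiv.apply_symm_apply]
        push_cast; ring)
    unfold mean at h
    rw [div_left_inj' h0', sum_boole, sum_boole, Nat.cast_inj] at h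
    rw [nuG, div_mul_cancel₀ _ h0, Nat.cast_inj]
    refine Eq.trans (congrArg card (filter_congr fun x _ => ?_))
      (h.trans (congrArg card (filter_congr fun x _ => ?_)))
    · simp [Od.Zf]
    · rw [← ok.nmM, Int.natCast_dvd_natCast]

end Pool.Agent.MP_f3836a_nt.GV.C
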