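import Pool.Agent.MP_f3836a_nt.GV.SpecC1

/-! The diagonal bound for the sieve weight. -/

set_option autoImplicit false

namespace Pool.Agent.MP_f3836a_nt.GV.C

open Finset MeasureTheory Metric VE
open Pool.Agent.MP_c481b3_nt.H63 (Ds Gs mem_Ds card_Ds one_le_Gs)

namespace GCSwd

variable {n r : ℕ} {P : Finset ℕ} {Z : ℕ → (Fin n → ℤ) → Prop} {ν : ℕ → ℝ} {B Y : ℝ} {l : ℕ}

open Classical in
theorem mean_ite (h : Sv P Z ν B Y) (hl : l ∈ P) (α β : ℝ) :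
    mean l (fun x => ((if Z l x then α else β : ℝ) : ℂ)) = (ν l * α + (1 - ν l) * β : ℝ) := by
  have h0 : (l : ℝ) ≠ 0 := by exact_mod_cast (h.pr l hl).1.ne_zero
  have h1 := congrArg (Nat.cast : ℕ → ℝ) (card_filter_add_card_filter_not (s := box n l) (Z l))
  have h2 : (box n l).card = l ^ n := by simp [box, Fintype.card_piFinset]
  rw [h2] at h1
  push_cast at h1
  rw [h.den l hl] at h1
  rw [mean, ← Complex.ofReal_sum, ← Complex.ofReal_natCast, ← Complex.ofReal_pow,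
    ← Complex.ofReal_div, sum_ite, sum_const, sum_const, nsmul_eq_mul, nsmul_eq_mul, h.den l hl,
    eq_sub_of_add_eq' h1]
  congr 1
  field_simp

theorem gl (h : Sv P Z ν B Y) (hl : l ∈ P) :
    0 ≤ ν l / (1 - ν l) ∧ ν l / (1 - ν l) ≤ 2 * ν l ∧ 0 < 1 - ν l := by
  obtain ⟨-, -, a, b, -⟩ := h.pr l hl
  have c : 0 < 1 - ν l := by linarith
  exact ⟨div_nonneg a c.le, (div_le_iff₀ c).2 (by nlinarith), c⟩

theorem abs_ph (h : Sv P Z ν B Y) (hl : l ∈ P) (x : Fin n → ℤ) : |ph Z ν l x| ≤ 1 := by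
  unfold ph
  split_ifs
  · simp
  · rw [abs_of_nonneg (gl h hl).1]
    linarith [(gl h hl).2.1, (h.pr l hl).2.2.2.1]

theorem vb_mono {a b : ℝ} (h0 : 0 ≤ a) (h : a ≤ b) : vb r a ≤ vb r b := by
  unfold vb
  gcongr

theorem pair (hC : CrtS) (hQ : RsqS) (h : Sv P Z ν B Y) {z : ℕ} (hz : (z : ℝ) * z ≤ Y)
    {D D' : Finset ℕ} (hD : D ∈ Ds P z) (hE : D' ∈ Ds P z) {g : (Fin n → ℤ) →+ E r} {V ρ K R : ℝ}
    {c : E r} {Φ : E r → ℝ} {S : Finset (Fin n → ℤ)} (lt : Lt g V ρ) (ρ0 : 0 ≤ ρ) (tf : Tf Φ K R c)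
    (hS : ∀ v, Φ (g v) ≠ 0 → v ∈ S) :
    V * ∑ x ∈ S, Φ (g x) * ((∏ l ∈ D, ph Z ν l x) * ∏ l ∈ D', ph Z ν l x)
      ≤ (if D = D' then ∏ l ∈ D, ν l / (1 - ν l) else 0) * (∫ x, Φ x)
        + K * (Y * ρ) * vb r (R + 2 * (Y * ρ)) := by
  obtain ⟨hD1, hD2⟩ := mem_Ds.1 hD
  obtain ⟨hE1, hE2⟩ := mem_Ds.1 hE
  obtain ⟨u, hu⟩ : ∃ u : ℕ → (Fin n → ℤ) → ℝ, u = fun l x => (if l ∈ D then ph Z ν l x else 1) *
    (if l ∈ D' then ph Z ν l x else 1) := ⟨_, rfl⟩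
  have hT : ∀ l ∈ D ∪ D', l ∈ P := fun l hl => (mem_union.1 hl).elim (@hD1 l) (@hE1 l)
  have up : ∀ l ∈ D ∪ D', Pd l fun x => (u l x : ℂ) := fun l hl x y => by
    have e : ph Z ν l (x + (l : ℤ) • y) = ph Z ν l x := by
      unfold ph
      rw [h.per l (hT l hl) x y]
    simp only [hu, e]
  have he : ∀ x, ∏ l ∈ D ∪ D', u l x = (∏ l ∈ D, ph Z ν l x) * ∏ l ∈ D', ph Z ν l x := fun x => by
    simp only [hu, prod_mul_distrib, prod_ite_mem]
    rw [inter_eq_right.2 subset_union_left, inter_eq_right.2 subset_union_right]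
  have hb : ∀ F : Finset ℕ, F ⊆ P → ∀ x, |∏ l ∈ F, ph Z ν l x| ≤ 1 := fun F a x => by
    rw [abs_prod]
    exact prod_le_one (fun _ _ => abs_nonneg _) fun l hl => abs_ph h (a hl) x
  have hM : ((∏ l ∈ D ∪ D', l : ℕ) : ℝ) ≤ Y := by
    refine le_trans ?_ hz
    norm_cast
    refine le_trans ?_ (Nat.mul_le_mul hD2 hE2)
    rw [← prod_union_inter]
    exact Nat.le_mul_of_pos_right _ (prod_pos fun l hl => (h.pr l (hE1 (mem_inter.1 hl).2)).1.pos)
  have h1 := hQ n r (∏ l ∈ D ∪ D', l) g V ρ K R c Φ (fun x => ∏ l ∈ D ∪ D', (u l x : ℂ)) S lt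
    (prod_pos fun l hl => (h.pr l (hT l hl)).1.pos) (fun x y => prod_congr rfl fun l hl => by
      obtain ⟨m, e⟩ := dvd_prod_of_mem (fun l : ℕ => l) hl
      rw [e, Nat.cast_mul, mul_smul]
      exact up l hl x _) (fun x => by
      rw [← Complex.ofReal_prod, Complex.norm_real, he, Real.norm_eq_abs, abs_mul]
      exact mul_le_one₀ (hb D hD1 x) (abs_nonneg _) (hb D' hE1 x)) tf hS
  have m1 : ∀ l ∈ P, mean l (fun x => (ph Z ν l x : ℂ)) = 0 := fun l hl => by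
    refine (mean_ite h hl _ _).trans (Complex.ofReal_eq_zero.2 ?_)
    have := (gl h hl).2.2
    field_simp
    ring
  have h2 : ∏ l ∈ D ∪ D', mean l (fun x => (u l x : ℂ))
      = (if D = D' then ∏ l ∈ D, ν l / (1 - ν l) else 0 : ℝ) := by
    split_ifs with e
    · subst e
      rw [union_self, Complex.ofReal_prod]
      refine prod_congr rfl fun l hl => Eq.trans (congrArg (mean l) (funext fun x => ?_))
        ((mean_ite h (hD1 hl) 1 ((ν l / (1 - ν l)) ^ 2)).trans (congrArg _ ?_))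
      · simp only [hu, if_pos hl, ph]
        split_ifs <;> simp [sq]
      · have := (gl h (hD1 hl)).2.2
        field_simp
        ring
    · have h3 : ∃ l, (l ∈ D ∧ l ∉ D') ∨ (l ∉ D ∧ l ∈ D') := by
        by_contra h4
        refine e (Finset.ext fun l => ?_)
        have := not_exists.1 h4 l
        tauto
      obtain ⟨l, h4 | h4⟩ := h3
      · refine prod_eq_zero (mem_union_left _ h4.1) ?_
        simpa only [hu, if_pos h4.1, if_neg h4.2, mul_one] using m1 l (hD1 h4.1)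
      · refine prod_eq_zero (mem_union_right _ h4.2) ?_
        simpa only [hu, if_pos h4.2, if_neg h4.1, one_mul] using m1 l (hE1 h4.2)
  rw [(hC n).2.1 _ _ fun l hl => ⟨(h.pr l (hT l hl)).1, up l hl⟩, h2] at h1
  simp only [← Complex.ofReal_prod, he, ← Complex.ofReal_mul, ← Complex.ofReal_sum,
    ← Complex.ofReal_sub, Complex.norm_real, Real.norm_eq_abs] at h1
  have h4 := mul_le_mul_of_nonneg_right hM ρ0
  have h5 := tf.pos
  have h6 := h5.2
  refine (sub_le_iff_le_add'.1 (abs_le.1 h1).2).trans (add_le_add le_rfl ?_)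
  exact mul_le_mul (mul_le_mul_of_nonneg_left h4 h5.1) (vb_mono (by positivity) (by linarith))
    (by unfold vb; positivity) (mul_nonneg h5.1 (le_trans (by positivity) h4))

end GCSwd

open GCSwd in
theorem rSwd : OfSwd := fun hR hT hC hQ hG r B => by
  obtain ⟨c, hc, hG⟩ := hG (2 * B)
  obtain ⟨t0, -, -, hT⟩ := hT r
  have π0 := Real.pi_pos
  refine ⟨(1 + cτ r + (Real.pi * 9) ^ r) / c, by positivity, fun n P Z ν Y hY h => ?_⟩
  have hp : ∀ l ∈ P, l.Prime := fun l hl => (h.pr l hl).1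
  have Y0 : 0 < Y := by linarith
  have hz : 1 ≤ ⌊√Y⌋₊ := Nat.le_floor (by simpa using Real.one_le_sqrt.2 (by linarith))
  have z1 : (1 : ℝ) ≤ ⌊√Y⌋₊ := by exact_mod_cast hz
  have z2 : (⌊√Y⌋₊ : ℝ) * ⌊√Y⌋₊ ≤ Y :=
    (mul_self_le_mul_self (Nat.cast_nonneg _) (Nat.floor_le (Real.sqrt_nonneg Y))).trans_eq
      (Real.mul_self_sqrt Y0.le)
  have G1 := one_le_Gs (fun l hl => (gl h hl).1) hz
  have G2 := hG Y P (fun l => ν l / (1 - ν l)) hY fun l hl => ⟨hp l hl, (h.pr l hl).2.1,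
    (gl h hl).1, (gl h hl).2.1.trans (by rw [mul_div_assoc]; linarith [(h.pr l hl).2.2.2.2])⟩
  have cd : ((Ds P ⌊√Y⌋₊).card : ℝ) ≤ ⌊√Y⌋₊ := by exact_mod_cast card_Ds hp _
  have G3 : Gs (fun l => ν l / (1 - ν l)) P ⌊√Y⌋₊ ≤ Y := by
    refine (sum_le_card_nsmul _ _ 1 fun D hD => prod_le_one (fun l hl => (gl h
      ((mem_Ds.1 hD).1 hl)).1) fun l hl => ?_).trans ?_
    · have := (mem_Ds.1 hD).1 hl
      linarith [(gl h this).2.1, (h.pr l this).2.2.2.1]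
    · rw [nsmul_eq_mul]
      nlinarith
  have s0 : 0 < sd ν P := prod_pos fun l hl => (gl h hl).2.2
  have e4 : ∏ l ∈ P, (1 + ν l / (1 - ν l)) = 1 / sd ν P := by
    rw [sd, one_div, ← prod_inv_distrib]
    refine prod_congr rfl fun l hl => ?_
    have := (gl h hl).2.2
    field_simp
    ring
  rw [e4, mul_one_div, div_le_iff₀ s0] at G2
  unfold Lw
  obtain ⟨G, hG'⟩ : ∃ G, G = Gs (fun l => ν l / (1 - ν l)) P ⌊√Y⌋₊ := ⟨_, rfl⟩
  rw [← hG'] at G1 G2 G3 ⊢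
  have G4 : c ≤ Y * sd ν P := G2.trans (mul_le_mul_of_nonneg_right G3 s0.le)
  refine ⟨fun x hx => ?_, ?_, fun g V ρ R a S lt R0 hρ => ?_⟩
  · have : ∑ D ∈ Ds P ⌊√Y⌋₊, ∏ l ∈ D, ph Z ν l x = G := hG' ▸
      sum_congr rfl fun D hD => prod_congr rfl fun l hl => if_neg (hx l ((mem_Ds.1 hD).1 hl))
    rw [this, div_self (by linarith), one_pow]
  · calc (1 : ℝ) = 1 / c * c := by field_simp
      _ ≤ (1 + cτ r + (Real.pi * 9) ^ r) / c * (Y * sd ν P) := by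
          gcongr
          linarith [pow_pos (mul_pos π0 (by norm_num : (0 : ℝ) < 9)) r]
      _ = _ := by ring
  obtain ⟨V0, ρ0, -, -, lo, -⟩ := hR r _ g V ρ lt
  obtain ⟨S', hS, -⟩ := lo a R R0.le
  obtain ⟨tf, I⟩ := hT R a R0
  have sup : ∀ v, tn (R⁻¹ • (g v - a)) ≠ 0 → v ∈ S' := fun v e =>
    (hS v).2 ((tf.sup _ e).trans (by linarith))
  have b1 : ∑ x ∈ S, tn (R⁻¹ • (g x - a)) * ((∑ D ∈ Ds P ⌊√Y⌋₊, ∏ l ∈ D, ph Z ν l x) / G) ^ 2
      ≤ ∑ x ∈ S', tn (R⁻¹ • (g x - a)) * ((∑ D ∈ Ds P ⌊√Y⌋₊, ∏ l ∈ D, ph Z ν l x) / G) ^ 2 :=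
    (sum_filter_ne_zero S).symm.trans_le (sum_le_sum_of_subset_of_nonneg
      (fun x e => sup x (left_ne_zero_of_mul (mem_filter.1 e).2))
      fun x _ _ => mul_nonneg (le_max_left _ _) (sq_nonneg _))
  have y1 : Y * ρ * Y ^ 2 ≤ R := by linarith
  have y2 : Y * ρ ≤ R := (le_mul_of_one_le_right (by positivity) (by nlinarith)).trans y1
  have er : 1 / R * (Y * ρ) * vb r (R + 2 * (Y * ρ))
      ≤ 1 / Y ^ 2 * ((Real.pi * 9) ^ r * R ^ (2 * r)) := by
    refine mul_le_mul ?_ ((vb_mono (b := 3 * R) (by positivity) (by linarith)).trans_eq ?_)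
      (by unfold vb; positivity) (by positivity)
    · rwa [one_div_mul_eq_div, div_le_div_iff₀ R0 (by positivity), one_mul]
    · rw [vb, pow_mul, ← mul_pow]
      ring_nf
  have b2 : V * ∑ x ∈ S', tn (R⁻¹ • (g x - a)) * (∑ D ∈ Ds P ⌊√Y⌋₊, ∏ l ∈ D, ph Z ν l x) ^ 2
      ≤ G * (cτ r * R ^ (2 * r)) + Y * (1 / Y ^ 2 * ((Real.pi * 9) ^ r * R ^ (2 * r))) := by
    simp only [sq (∑ D ∈ _, _), sum_mul_sum]
    simp only [mul_sum (Ds P _)]
    rw [sum_comm]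
    simp only [sum_comm (s := S'), mul_sum (Ds P _)]
    refine (sum_le_sum fun D hD => sum_le_sum fun D' hE =>
      (pair hC hQ h z2 hD hE lt ρ0 tf sup).trans (add_le_add le_rfl er)).trans ?_
    simp only [sum_add_distrib, ← sum_mul, sum_ite_eq, sum_const, nsmul_eq_mul, I]
    rw [sum_congr rfl fun D hD => if_pos hD, hG', mul_assoc _ (1 / Y ^ 2)]
    refine add_le_add le_rfl (mul_le_mul_of_nonneg_right ?_ (by positivity))
    exact (mul_self_le_mul_self (Nat.cast_nonneg _) cd).trans z2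
  refine (mul_le_mul_of_nonneg_left b1 V0.le).trans ?_
  simp only [div_pow, ← mul_div_assoc, ← sum_div]
  rw [div_le_iff₀ (by positivity)]
  refine b2.trans ?_
  have b3 : G * (cτ r * R ^ (2 * r)) ≤ cτ r / c * R ^ (2 * r) * sd ν P * G ^ 2 := by
    calc _ = cτ r / c * R ^ (2 * r) * G * c := by field_simp
      _ ≤ cτ r / c * R ^ (2 * r) * G * (G * sd ν P) := by gcongr
      _ = _ := by ring
  have b4 : Y * (1 / Y ^ 2 * ((Real.pi * 9) ^ r * R ^ (2 * r)))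
      ≤ (1 + (Real.pi * 9) ^ r) / c * R ^ (2 * r) * sd ν P * G ^ 2 := by
    calc _ = (Real.pi * 9) ^ r / c * R ^ (2 * r) / Y * c * 1 := by field_simp
      _ ≤ (1 + (Real.pi * 9) ^ r) / c * R ^ (2 * r) / Y * (Y * sd ν P) * G ^ 2 := by
          gcongr
          · linarith
          · exact one_le_pow₀ G1
      _ = _ := by field_simp
  refine (add_le_add b3 b4).trans_eq ?_
  ring

end Pool.Agent.MP_f3836a_nt.GV.C
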