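import Pool.Agent.MP_f3836a_nt.GV.SpecC1

/-! Row GCTn: the tent function. -/

set_option autoImplicit false

namespace Pool.Agent.MP_f3836a_nt.GV.C

open Finset MeasureTheory Metric VE

namespace GCTn

variable {r : ℕ}

theorem ct : Continuous (tn : E r → ℝ) := by unfold tn; fun_prop

theorem sup {x : E r} (h : tn x ≠ 0) : ‖x‖ ≤ 1 :=
  by_contra fun e => h (max_eq_left (by linarith [not_le.1 e]))

theorem cs : HasCompactSupport (tn : E r → ℝ) :=
  HasCompactSupport.intro (isCompact_closedBall 0 1) fun _ h =>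
    by_contra fun e => h (mem_closedBall_zero_iff.2 (sup e))

theorem lip (x y : E r) : |tn x - tn y| ≤ ‖x - y‖ := by
  unfold tn
  rw [max_comm, max_comm 0]
  refine (abs_max_sub_max_le_abs _ _ _).trans ?_
  rw [sub_sub_sub_cancel_left, abs_sub_comm]
  exact abs_norm_sub_norm_le x y

end GCTn

open GCTn in
theorem rTn : TnS := by
  intro r
  refine ⟨ct.integral_pos_of_hasCompactSupport_nonneg_nonzero cs (fun _ => le_max_left _ _)
    (x := 0) (by simp [tn]), ?_, fun y c hy => ?_, fun R c hR => ⟨⟨⟨by positivity, hR.le⟩,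
      fun x y => (lip _ _).trans_eq ?_, fun x h => ?_⟩, ?_⟩⟩
  · rw [← vol_ball 0 zero_le_one, ← integral_indicator_one measurableSet_closedBall]
    refine integral_mono (ct.integrable_of_hasCompactSupport cs)
      ((integrable_indicator_iff measurableSet_closedBall).2
        (integrableOn_const measure_closedBall_lt_top.ne)) fun x => ?_
    by_cases h : tn x = 0
    · exact h.trans_le (Set.indicator_nonneg (fun _ _ => zero_le_one) x)
    · rw [Set.indicator_of_mem (mem_closedBall_zero_iff.2 (sup h))]
      exact max_le zero_le_one (sub_le_self _ (norm_nonneg x))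
  · let f : E r →ₗ[ℝ] E r := LinearMap.pi fun w => (LinearMap.mul ℝ ℂ (y w)).comp (LinearMap.proj w)
    have h1 : LinearMap.det f = ∏ w, ‖y w‖ ^ 2 := by
      rw [LinearMap.det_pi]
      exact prod_congr rfl fun w _ =>
        (Algebra.norm_complex_apply (y w)).trans (Complex.normSq_eq_norm_sq _)
    have h2 : 0 < ∏ w, ‖y w‖ ^ 2 := prod_pos fun w _ => pow_pos (norm_pos_iff.2 (hy w)) 2
    have h3 := integral_map (μ := volume) f.continuous_of_finiteDimensional.aemeasurable
      (ct (r := r)).aestronglyMeasurable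
    rw [Measure.map_linearMap_addHaar_eq_smul_addHaar _ (h1 ▸ h2.ne'), integral_smul_measure,
      ENNReal.toReal_ofReal (abs_nonneg _), h1, abs_of_pos (inv_pos.2 h2)] at h3
    rw [integral_sub_right_eq_self (fun x => tn (y * x)) c, div_eq_inv_mul]
    exact h3.symm
  · rw [← smul_sub, sub_sub_sub_cancel_right, norm_smul, one_div, Real.norm_of_nonneg (inv_pos.2 hR).le]
  · have := sup h
    rwa [norm_smul, Real.norm_of_nonneg (inv_pos.2 hR).le, inv_mul_le_iff₀ hR, mul_one] at this
  · rw [integral_sub_right_eq_self (fun x => tn (R⁻¹ • x)) c,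
      Measure.integral_comp_inv_smul_of_nonneg _ _ hR.le, finrank_E, mul_comm (cτ r)]
    rfl

end Pool.Agent.MP_f3836a_nt.GV.C
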