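import Pool.Agent.MP_f3836a_nt.GV.SpecC2

/-! The logarithms of the units which are `1` modulo `Q` form a lattice. -/

set_option autoImplicit false

namespace Pool.Agent.MP_f3836a_nt.GV.C

open Finset NumberField NumberField.Units NumberField.Units.dirichletUnitTheorem

namespace GCUn

theorem near_span {r : ℕ} (Λ : AddSubgroup (E r)) :
    ∃ R, ∀ x ∈ Submodule.span ℝ (Λ : Set (E r)), ∃ y ∈ Λ, ‖x - y‖ ≤ R := by
  obtain ⟨t, ht, e⟩ := (Submodule.fg_span_iff_fg_span_finset_subset (R := ℝ) (Λ : Set (E r))).1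
    (IsNoetherian.noetherian _)
  refine ⟨∑ v ∈ t, ‖v‖, fun x hx => ?_⟩
  obtain ⟨f, -, rfl⟩ := Submodule.mem_span_finset.1 (e ▸ hx)
  refine ⟨∑ v ∈ t, ⌊f v⌋ • v, sum_mem fun v hv => zsmul_mem (ht hv) _, ?_⟩
  rw [← sum_sub_distrib]
  refine norm_sum_le_of_le _ fun v _ => ?_
  rw [← Int.cast_smul_eq_zsmul ℝ, ← sub_smul, norm_smul, Int.self_sub_floor,
    Real.norm_of_nonneg (Int.fract_nonneg _)]
  exact mul_le_of_le_one_left (norm_nonneg _) (Int.fract_lt_one _).le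

variable {n r : ℕ} [NeZero n] {o : Od n r} {Q : ℕ}

theorem ker (h : o.Ok) {ξ : E r} (hξ : ξ ∈ o.LQ Q) : Lg ξ = 0 := by
  obtain ⟨ε, -, h2⟩ := hξ
  have h1 : o.nm ε = 1 :=
    Nat.eq_one_of_mul_eq_one_right (by rw [← o.nm_mul, Units.mul_inv, o.nm_one])
  have h3 := h.nrm ε
  simp only [h1, ← h2, Complex.norm_exp, ← Real.exp_sum, ← Real.exp_nat_mul] at h3
  exact Real.exp_eq_one_iff _ |>.1 (by rw [Lg, mul_sum]; exact_mod_cast h3.symm)

theorem sep (hA : BaaS) (h : o.Ok) (hQ : 2 ≤ Q) {ξ : E r} (hξ : ξ ∈ o.LQ Q) (h0 : ξ ≠ 0) :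
    1 ≤ ‖ξ‖ := by
  obtain ⟨ε, ⟨a, ha⟩, h2⟩ := hξ
  obtain ⟨hr, -, hn, -⟩ := hA n r o h
  by_contra c
  have hw : ∀ w, ‖ξ w‖ < 1 := fun w => (norm_le_pi_norm ξ w).trans_lt (not_le.1 c)
  have he : ∀ w, Complex.exp (ξ w) - 1 = Q * o.em a w := fun w => by
    have := congrFun (congrArg o.em ha) w
    simpa [h2] using this
  have h1 : ∀ w, ‖o.em a w‖ < 1 := fun w => by
    have h3 := Complex.norm_exp_sub_one_le (hw w).le
    rw [he, norm_mul, Complex.norm_natCast] at h3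
    have : (2 : ℝ) ≤ Q := by exact_mod_cast hQ
    nlinarith [hw w, norm_nonneg (o.em a w)]
  have h4 : (o.nm a : ℝ) < 1 := by
    rw [h.nrm, ← mul_prod_erase univ _ (mem_univ (⟨0, hr⟩ : Fin r))]
    exact mul_lt_one_of_nonneg_of_lt_one_left (by positivity)
      (pow_lt_one₀ (norm_nonneg _) (h1 _) two_ne_zero)
      (prod_le_one (fun _ _ => by positivity) fun w _ => pow_le_one₀ (norm_nonneg _) (h1 w).le)
  have h5 : a = 0 := by_contra fun e => (hn a e).1 (Nat.lt_one_iff.1 (by exact_mod_cast h4))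
  refine h0 (funext fun w => ?_)
  obtain ⟨k, hk⟩ := Complex.exp_eq_one_iff.1 (sub_eq_zero.1 ((he w).trans (by simp [h5])))
  have h6 := hw w
  rw [hk] at h6 ⊢
  rcases eq_or_ne k 0 with rfl | hk0
  · simp
  · have h7 : (1 : ℝ) ≤ |(k : ℝ)| := by exact_mod_cast Int.one_le_abs hk0
    simp only [norm_mul, Complex.norm_intCast, Complex.norm_ofNat, Complex.norm_real,
      Complex.norm_I, Real.norm_of_nonneg Real.pi_pos.le] at h6
    nlinarith [Real.pi_gt_three]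

omit [NeZero n] in
theorem im_mem {x : E r} (hx : ∀ w, (x w).re = 0) :
    x ∈ Submodule.span ℝ (o.LQ Q : Set (E r)) := by
  rw [← univ_sum_single x]
  refine sum_mem fun w _ => ?_
  have h1 : (Pi.single w (2 * Real.pi * Complex.I) : E r) ∈ o.LQ Q := ⟨1, by simp, fun v => by
    by_cases e : v = w
    · simp [e]
    · simp [e]⟩
  have h2 : (Pi.single w (x w) : E r) =
      ((x w).im / (2 * Real.pi)) • (Pi.single w (2 * Real.pi * Complex.I) : E r) := by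
    rw [← Pi.single_smul]
    congr 1
    have : (Real.pi : ℂ) ≠ 0 := by simp
    conv_lhs => rw [← Complex.re_add_im (x w), hx]
    simp only [Complex.real_smul]
    push_cast
    field_simp
    ring
  rw [h2]
  exact Submodule.smul_mem _ _ (Submodule.subset_span h1)

theorem lift (h : o.Ok) {v : 𝓞 o.L} (hv : ((o.D * Q : ℕ) : 𝓞 o.L) ∣ v - 1) :
    ∃ b : o.A, o.inc b = v ∧ (Q : o.A) ∣ b - 1 := by
  obtain ⟨x, hx⟩ := hv
  obtain ⟨a, ha⟩ := h.cond x
  refine ⟨1 + Q * a, ?_, by simp⟩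
  rw [map_add, map_mul, ha, map_one, map_natCast, eq_add_of_sub_eq' hx]
  push_cast; ring

theorem unit_pow (h : o.Ok) (hQ : 2 ≤ Q) (u : (𝓞 o.L)ˣ) :
    ∃ k, 0 < k ∧ ∃ ε : o.Aˣ, (Q : o.A) ∣ ε - 1 ∧ o.inc ε = u ^ k := by
  have h0 : ((o.D * Q : ℕ) : 𝓞 o.L) ≠ 0 := Nat.cast_ne_zero.2 (mul_ne_zero h.dne (by omega))
  have := Ideal.finiteQuotientOfFreeOfNeBot (Ideal.span {((o.D * Q : ℕ) : 𝓞 o.L)})
    (by rwa [Ne, Ideal.span_singleton_eq_bot])
  let f := Units.map (Ideal.Quotient.mk (Ideal.span {((o.D * Q : ℕ) : 𝓞 o.L)})).toMonoidHom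
  obtain ⟨k, hk, e⟩ := isOfFinOrder_iff_pow_eq_one.1 (isOfFinOrder_of_finite (f u))
  have key : ∀ v : (𝓞 o.L)ˣ, f v = 1 → ∃ b : o.A, o.inc b = v ∧ (Q : o.A) ∣ b - 1 := fun v hv =>
    lift h (Ideal.mem_span_singleton.1 (Ideal.Quotient.eq.1 (congrArg Units.val hv)))
  rw [← map_pow] at e
  obtain ⟨b, hb, hb'⟩ := key _ e
  obtain ⟨c, hc, -⟩ := key (u ^ k)⁻¹ (by rw [map_inv, e, inv_one])
  have e1 : b * c = 1 := h.inj (by rw [map_mul, hb, hc, Units.mul_inv, map_one])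
  exact ⟨k, hk, ⟨b, c, e1, (mul_comm _ _).trans e1⟩, hb', hb.trans (Units.val_pow_eq_pow_val _ _)⟩

theorem log_mem (h : o.Ok) (hQ : 2 ≤ Q) (u : (𝓞 o.L)ˣ) :
    ∃ y ∈ Submodule.span ℝ (o.LQ Q : Set (E r)),
      ∀ w, (y w).re = Real.log (InfinitePlace.mk (o.σ w) (u : o.L)) := by
  obtain ⟨k, hk, ε, h1, h2⟩ := unit_pow h hQ u
  have h3 : ∀ w, o.em ε w = o.σ w (u : o.L) ^ k := fun w => by
    change o.σ w (algebraMap _ _ (o.inc ε)) = _
    rw [h2, map_pow, map_pow]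
  have h4 : ∀ w, o.em ε w ≠ 0 := fun w => by
    rw [h3]; exact pow_ne_zero _ ((map_ne_zero _).2 (coe_ne_zero u))
  refine ⟨(k : ℝ)⁻¹ • fun w => Complex.log (o.em ε w), Submodule.smul_mem _ _
    (Submodule.subset_span ⟨ε, h1, fun w => Complex.exp_log (h4 w)⟩), fun w => ?_⟩
  rw [Pi.smul_apply, Complex.smul_re, Complex.log_re, h3, norm_pow, Real.log_pow, smul_eq_mul,
    inv_mul_cancel_left₀ (by positivity), InfinitePlace.apply]

theorem span_ker (h : o.Ok) (hQ : 2 ≤ Q) {x : E r} (hx : Lg x = 0) :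
    x ∈ Submodule.span ℝ (o.LQ Q : Set (E r)) := by
  let e := Equiv.ofBijective _ h.bij
  let ψ : E r →ₗ[ℝ] logSpace o.L :=
    { toFun := fun x w => 2 * (x (e.symm w.1)).re
      map_add' := fun x y => by funext w; simp [mul_add]
      map_smul' := fun c x => by funext w; simp; ring }
  have h1 : (Submodule.span ℝ (o.LQ Q : Set (E r))).map ψ = ⊤ := by
    rw [eq_top_iff, ← unitLattice_span_eq_top, Submodule.span_le]
    rintro _ ⟨u, -, rfl⟩
    obtain ⟨y, hy, hy'⟩ := log_mem h hQ u.toMul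
    refine ⟨y, hy, funext fun w => ?_⟩
    have h2 : InfinitePlace.mk (o.σ (e.symm w.1)) = w.1 := e.apply_symm_apply w.1
    have h3 : InfinitePlace.mult w.1 = 2 :=
      if_neg (h2 ▸ InfinitePlace.isReal_mk_iff.not.2 (h.cpx _))
    change 2 * (y (e.symm w.1)).re = InfinitePlace.mult w.1 * Real.log (w.1 (u.toMul : o.L))
    rw [hy', h2, h3, Nat.cast_ofNat]
  obtain ⟨y, hy, e1⟩ : ψ x ∈ (Submodule.span ℝ (o.LQ Q : Set (E r))).map ψ := h1 ▸ trivial
  have h2 : Lg y = 0 := by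
    clear e1
    induction hy using Submodule.span_induction with
    | mem _ h' => exact ker h h'
    | zero => exact Lg_zero
    | add _ _ _ _ a b => rw [Lg_add, a, b, add_zero]
    | smul _ _ _ a => rw [Lg_smul, a, mul_zero]
  have h3 : ∀ w, w ≠ e.symm w₀ → ((x - y) w).re = 0 := fun w hw => by
    have := congrFun e1 ⟨e w, fun c => hw (by rw [← c, e.symm_apply_apply])⟩
    simp only [ψ, LinearMap.coe_mk, AddHom.coe_mk, e.symm_apply_apply] at this
    rw [Pi.sub_apply, Complex.sub_re]; linarith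
  have h4 : Lg (x - y) = 0 := by rw [Lg_sub, hx, h2, sub_zero]
  rw [Lg, sum_eq_single (e.symm w₀) (fun w _ hw => h3 w hw) (by simp)] at h4
  rw [← sub_add_cancel x y]
  refine add_mem (im_mem fun w => ?_) hy
  by_cases c : w = e.symm w₀
  · rw [c]; linarith
  · exact h3 w c

end GCUn

open GCUn in
theorem rUn : OfUn := by
  intro hA _ n r _ o Q h hQ
  obtain ⟨R, hR⟩ := near_span (o.LQ Q)
  exact ⟨R, fun _ => ker h, fun _ => sep hA h hQ, fun x hx => hR x (span_ker h hQ hx)⟩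

end Pool.Agent.MP_f3836a_nt.GV.C
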