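import Pool.Agent.MP_f3836a_nt.GV.SpecC2

/-! Block C: unfolding at an ideal. -/

set_option autoImplicit false

namespace Pool.Agent.MP_f3836a_nt.GV.C

open Finset NumberField VE

theorem rUnf : OfUnf := by
  intro hA hB n r _ o Q lam I0 ok hQ hl hI
  obtain ⟨-, -, a3, a4, a5, -⟩ := hA n r o ok
  obtain ⟨-, b2, -, -, b5, -⟩ := hB n r o Q ok hQ
  obtain ⟨J, hJ, e⟩ := o.exists_mul_eq Q hI
  refine ⟨J, e, ?_⟩
  obtain ⟨m, hm⟩ : ∃ m, m = Ideal.absNorm I0 := ⟨_, rfl⟩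
  have m0 : m ≠ 0 := hm ▸ hI.1
  have mc : m.Coprime (o.D * Q) := hm ▸ hI.2
  rw [← hm] at e ⊢
  have pm := o.pm_nat m0 mc
  have le : ∀ {I : Ideal (𝓞 o.L)} {β : o.A}, I * J = o.pr β → o.inc β ∈ J := fun h =>
    Ideal.mul_le_right (h.ge (Ideal.mem_span_singleton_self _))
  have mJ : (m : 𝓞 o.L) ∈ J := map_natCast o.inc m ▸ le e
  have em : ∀ w, o.em m w = m := fun w => by rw [map_natCast]; rfl
  have cl : ∀ I ∈ o.MQ Q, o.cI Q I = o.cI Q I0 ↔ ∃ β, (Q : o.A) ∣ β - m ∧ I * J = o.pr β :=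
    fun I h => by
      rw [← b5 _ (mul_mem h hJ) _ (b2 _ pm).1, (b2 _ pm).2, ← e, o.cI_mul h hJ, o.cI_mul hI hJ,
        add_left_inj]
  have key : ∀ I ∈ o.MQ Q, ∀ β, (Q : o.A) ∣ β - m → I * J = o.pr β → ∀ ξ : E r,
      (∀ w, m * Complex.exp (ξ w) = o.em β w) → lam I - lam I0 - ξ ∈ o.LQ Q :=
    fun I h β d eβ ξ hξ => by
      have k := hl.rel m β ξ pm (eβ ▸ mul_mem h hJ : o.pr β ∈ _) d fun w => by rw [em, hξ]
      rw [← e, ← eβ] at k
      convert add_mem (sub_mem k (hl.add I h J hJ)) (hl.add I0 hI J hJ) using 1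
      abel
  refine ⟨⟨hm, mul_left_cancel₀ m0 ?_⟩, ⟨hJ, mJ⟩, fun I h c ξ hξ => ?_, fun γ hγ p => ?_⟩
  · rw [← pow_succ', Nat.sub_add_cancel NeZero.one_le, ← a5, Od.nm, ← e, map_mul, ← hm]
  · obtain ⟨β, d, eβ⟩ := (cl I h).1 c
    have β0 : β ≠ 0 := fun z => (mul_mem h hJ).1 (by rw [eβ, z]; exact a4)
    have m0' : (m : ℂ) ≠ 0 := Nat.cast_ne_zero.2 m0
    have x0 : ∀ w, m * Complex.exp (Complex.log (o.em β w / m)) = o.em β w := fun w => by
      rw [Complex.exp_log (div_ne_zero ((a3 β β0).2 w) m0'), mul_div_cancel₀ _ m0']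
    obtain ⟨ε, d', hε⟩ := sub_mem (key I h β d eβ _ x0) hξ
    obtain ⟨γ, hγ⟩ := (d'.mul_right β).add d
    have eγ : m + Q * γ = ε * β := by linear_combination -hγ
    have eI : I * J = o.pr (m + Q * γ) := by
      rw [eγ, o.pr_mul, eβ, show o.pr ε = ⊤ from
        Ideal.span_singleton_eq_top.2 (ε.isUnit.map o.inc), Ideal.top_mul]
    refine ⟨γ, ?_, eI, fun w => ?_⟩
    · have k := sub_mem (le eI) mJ
      rw [map_add, map_mul, map_natCast, map_natCast, add_sub_cancel_left] at k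
      obtain ⟨a, b, ab⟩ := (Nat.Coprime.cast (R := 𝓞 o.L) mc.coprime_mul_left_right)
      convert add_mem (J.mul_mem_left (a * o.inc γ) mJ) (J.mul_mem_left b k) using 1
      linear_combination -o.inc γ * ab
    · rw [eγ, map_mul, Pi.mul_apply, ← hε, ← x0 w, mul_left_comm, ← Complex.exp_add]
      simp
  · obtain ⟨I, eI⟩ : J ∣ o.pr (m + Q * γ) := Ideal.dvd_span_singleton.2 (by
      rw [map_add, map_mul, map_natCast]
      exact add_mem mJ (J.mul_mem_left _ hγ))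
    have h : I ∈ o.MQ Q := by
      rw [Od.Pm, eI, Od.mem_MQ, map_mul] at p
      exact ⟨right_ne_zero_of_mul p.1, p.2.coprime_mul_left⟩
    have d : (Q : o.A) ∣ m + Q * γ - m := ⟨γ, by ring⟩
    rw [mul_comm J] at eI
    exact ⟨I, h, eI.symm, (cl I h).2 ⟨_, d, eI.symm⟩, key I h _ d eI.symm⟩

end Pool.Agent.MP_f3836a_nt.GV.C
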