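import Pool.Agent.MP_f3836a_nt.GV.SpecC1
import Pool.Agent.MP_f3836a_nt.VE.CUp

/-! Upper bounds for longer tuples. -/

set_option autoImplicit false

namespace Pool.Agent.MP_f3836a_nt.GV.C

open Finset MeasureTheory VE
open VE.BC (tm Sb TupS)
open VE.BC.CUp (ind0 tm_mul)

namespace GCUp

variable {r : ℕ} {ι G : Type} [Fintype ι] [AddCommGroup G] {μ : ι → ℝ} {x : ι → G} {lam : ι → E r}
  {Λ : AddSubgroup (E r)} {δ0 D : ℝ} {A K : Set (E r)}

theorem step (hT : TupS) (h0 : ∀ i, 0 ≤ μ i) {a b : ℕ} (h : DH μ x lam Λ b δ0 D) (hA : Nb A K δ0)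
    (w : (Fin a → ι) → ℝ) (hw : ∀ s, 0 ≤ w s) (g : G) {f : Fin a → Fin (a + b)}
    (hf : Function.Injective f) :
    tm μ (a + b) (fun s => w (fun i => s (f i)) * ind (Ev Λ x lam g A s)) ≤
      tm μ a w * (D * volume.real K) := by
  obtain ⟨σ, hσ⟩ := Equiv.Perm.exists_extending_pair f _ hf (Fin.castAdd_injective a b)
  rw [← (hT ι μ).2.2.1 _ σ, (hT ι μ).2.1, mul_comm, ← tm_mul]
  refine (hT ι μ).2.2.2.2.1 h0 _ _ _ fun s => ?_
  have := h.2 (g - ∑ i, x (s i)) ((· + ∑ i, lam (s i)) ⁻¹' A) ((· + ∑ i, lam (s i)) ⁻¹' K)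
    ⟨hA.1.preimage (measurable_add_const _), by rw [measure_preimage_add_right]; exact hA.2.1,
      fun c hc z hz => hA.2.2 _ hc (by simpa using hz)⟩
  rw [Measure.real, measure_preimage_add_right] at this
  have e : ∀ t : Fin b → ι, Ev Λ x lam g A (Fin.append s t ∘ σ) =
      Ev Λ x lam (g - ∑ i, x (s i)) ((· + ∑ i, lam (s i)) ⁻¹' A) t := fun t => by
    simp only [Ev, Function.comp, Equiv.sum_comp σ fun i => x (Fin.append s t i),
      Equiv.sum_comp σ fun i => lam (Fin.append s t i), Fin.sum_univ_add, Fin.append_left,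
      Fin.append_right, Set.mem_preimage, eq_sub_iff_add_eq', sub_add_eq_add_sub,
      add_comm (∑ i, lam (s i))]
  simp only [e]
  simp only [Function.comp, hσ, Fin.append_left, tm_mul]
  rw [mul_comm (D * _)]
  exact mul_le_mul_of_nonneg_left this (hw s)

end GCUp

open GCUp in
theorem rUp : OfUp := by
  intro hT r ι G _ _ μ x lam Λ k j δ0 D hμ hD
  obtain ⟨-, -, -, hc, hm, -⟩ := hT ι μ
  have one : ∀ j, k ≤ j → DH μ x lam Λ j δ0 D := fun j hj => ⟨hD.1, fun g A K hA => by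
    obtain ⟨a, rfl⟩ := Nat.exists_eq_add_of_le' hj
    have := step hT hμ.1 hD hA (fun _ => 1) (fun _ => zero_le_one) g (Fin.castAdd_injective a k)
    simp only [one_mul, hc, mul_one] at this
    exact this.trans (mul_le_of_le_one_left (mul_nonneg hD.1 measureReal_nonneg)
      (pow_le_one₀ (sum_nonneg fun i _ => hμ.1 i) hμ.2))⟩
  refine ⟨one j, fun g A K t hA t0 => ⟨fun h hj h0 ht => ?_, fun Bd hj ht => ?_⟩⟩ <;>
    have B0 : 0 ≤ D * volume.real K := mul_nonneg hD.1 measureReal_nonneg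
  · obtain ⟨b, rfl, hb⟩ : ∃ b, j = 1 + b ∧ k ≤ b := ⟨j - 1, by omega, by omega⟩
    have e : tm μ 1 (fun s => h (s 0)) ≤ t := by
      rwa [tm, Fintype.sum_equiv (Equiv.funUnique (Fin 1) ι) _ (fun i => μ i * h i) fun s => by simp]
    have k1 : ∀ p : Fin (1 + b), tm μ (1 + b) (fun s => h (s p) * ind (Ev Λ x lam g A s)) ≤
        t * (D * volume.real K) := fun p =>
      (step hT hμ.1 (one b hb) hA (fun s => h (s 0)) (fun _ => h0 _) g (f := fun _ => p)
        (Function.injective_of_subsingleton _)).trans (mul_le_mul_of_nonneg_right e B0)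
    simp only [tm, sum_mul, mul_sum] at k1 ⊢
    rw [sum_comm]
    refine (sum_le_card_nsmul _ _ _ fun p _ => k1 p).trans (le_of_eq ?_)
    simp [mul_assoc]
  obtain ⟨b, rfl, hb⟩ : ∃ b, j = 2 + b ∧ k ≤ b := ⟨j - 2, by omega, by omega⟩
  have two : tm μ 2 (fun s => ind (Bd (s 0) (s 1))) ≤ t := by
    rw [tm, Fintype.sum_equiv (piFinTwoEquiv fun _ => ι) _
      (fun p => μ p.1 * (μ p.2 * ind (Bd p.1 p.2))) fun s => by simp [mul_assoc],
      Fintype.sum_prod_type]
    simp only [← mul_sum]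
    refine (sum_le_sum fun i _ => mul_le_mul_of_nonneg_left (ht i) (hμ.1 i)).trans ?_
    rw [← sum_mul]
    exact mul_le_of_le_one_left t0 hμ.2
  have pair : ∀ p : Fin (2 + b) × Fin (2 + b), tm μ (2 + b) (fun s => ind (p.1 ≠ p.2 ∧
      Bd (s p.1) (s p.2)) * ind (Ev Λ x lam g A s)) ≤ t * (D * volume.real K) := by
    rintro ⟨p, q⟩
    rcases eq_or_ne p q with rfl | e
    · simpa [ind, tm] using mul_nonneg t0 B0
    · simpa [e] using (step hT hμ.1 (one b hb) hA (fun s => ind (Bd (s 0) (s 1))) (fun _ => ind0 _)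
        g (injective_pair_iff_ne.2 e)).trans (mul_le_mul_of_nonneg_right two B0)
  refine le_trans (hm hμ.1 _ _ (fun s => ∑ p : Fin (2 + b) × Fin (2 + b), ind (p.1 ≠ p.2 ∧
      Bd (s p.1) (s p.2)) * ind (Ev Λ x lam g A s)) fun s => ?_) ?_
  · by_cases e : (∃ a b, a ≠ b ∧ Bd (s a) (s b)) ∧ Ev Λ x lam g A s
    · obtain ⟨p, q, h⟩ := e.1
      refine le_trans ?_ (single_le_sum (fun p _ => mul_nonneg (ind0 _) (ind0 _)) (mem_univ (p, q)))
      rw [ind, ind, ind, if_pos e, if_pos h, if_pos e.2, one_mul]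
    · rw [ind, if_neg e]
      exact sum_nonneg fun p _ => mul_nonneg (ind0 _) (ind0 _)
  · simp only [tm, mul_sum] at pair ⊢
    rw [sum_comm]
    refine (sum_le_card_nsmul _ _ _ fun p _ => pair p).trans (le_of_eq ?_)
    simp [sq, mul_assoc]

end Pool.Agent.MP_f3836a_nt.GV.C
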