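import Pool.Agent.MP_f3836a_nt.GV.SpecC1

/-! The cell of Voronoi, cut by a slab. -/

set_option autoImplicit false

namespace Pool.Agent.MP_f3836a_nt.GV.C

open Finset MeasureTheory Metric

namespace GCVor

variable {r : ℕ}

/-- the real scalar product -/
def ip (x y : E r) : ℝ := ∑ w, ((x w).re * (y w).re + (x w).im * (y w).im)

theorem ip_self (x : E r) : ip x x = ∑ w, ‖x w‖ ^ 2 :=
  sum_congr rfl fun w _ => by rw [Complex.sq_norm, Complex.normSq_apply]

theorem le_q (x : E r) : ‖x‖ ^ 2 ≤ ip x x := by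
  rw [ip_self]
  refine (sq_le_sq₀ (norm_nonneg _) (Real.sqrt_nonneg (∑ w, ‖x w‖ ^ 2))).2 ?_ |>.trans
    (Real.sq_sqrt (sum_nonneg fun _ _ => sq_nonneg _)).le
  refine (pi_norm_le_iff_of_nonneg (Real.sqrt_nonneg _)).2 fun w => Real.le_sqrt_of_sq_le ?_
  exact single_le_sum (f := fun w => ‖x w‖ ^ 2) (fun _ _ => sq_nonneg _) (mem_univ w)

theorem ip_le (x y : E r) : ip x y ≤ r * (‖x‖ * ‖y‖) := by
  refine (sum_le_card_nsmul _ _ (‖x‖ * ‖y‖) fun w _ => ?_).trans (by simp)
  have h := Complex.re_le_norm (x w * (starRingEnd ℂ) (y w))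
  rw [norm_mul, Complex.norm_conj, Complex.mul_re, Complex.conj_re, Complex.conj_im] at h
  have := mul_le_mul (norm_le_pi_norm x w) (norm_le_pi_norm y w) (norm_nonneg _) (norm_nonneg _)
  linarith

theorem ip_sub (x y : E r) : ip (x - y) (x - y) = ip x x - 2 * ip x y + ip y y := by
  simp only [ip, mul_sum, ← sum_sub_distrib, ← sum_add_distrib, Pi.sub_apply, Complex.sub_re,
    Complex.sub_im]
  exact sum_congr rfl fun w _ => by ring

theorem ip_neg (x y : E r) : ip (-x) y = ip x (-y) := by simp [ip]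

theorem ip_neg_neg (x : E r) : ip (-x) (-x) = ip x x := by simp [ip]

theorem ip_comb (a b : ℝ) (x x' y : E r) : ip (a • x + b • x') y = a * ip x y + b * ip x' y := by
  simp only [ip, mul_sum, ← sum_add_distrib, Pi.add_apply, Pi.smul_apply, Complex.add_re,
    Complex.add_im, Complex.smul_re, Complex.smul_im, smul_eq_mul]
  exact sum_congr rfl fun w _ => by ring

theorem cont (y : E r) : Continuous fun x : E r => ip x y := by
  unfold ip
  fun_prop

end GCVor

open GCVor in
theorem rVor : VorS := by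
  intro r Λ η R hr hη hΛ
  have hr1 : (1 : ℝ) ≤ r := by exact_mod_cast hr
  refine ⟨{x | |Lg x| ≤ η / 2 ∧ ∀ y ∈ Λ, 2 * ip x y ≤ ip y y}, ?_, ?_, ?_, ?_, ?_, ?_⟩
  · rintro x ⟨h1, h2⟩ x' ⟨h1', h2'⟩ a b ha hb hab
    refine ⟨?_, fun y hy => ?_⟩
    · rw [Lg_add, Lg_smul, Lg_smul]
      rw [abs_le] at h1 h1' ⊢
      constructor <;> nlinarith [h1.1, h1.2, h1'.1, h1'.2]
    · rw [ip_comb]
      have e : ip y y = a * ip y y + b * ip y y := by rw [← add_mul, hab, one_mul]
      nlinarith [h2 y hy, h2' y hy]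
  · rintro x ⟨h1, h2⟩
    refine ⟨by rwa [Lg_neg, abs_neg], fun y hy => ?_⟩
    rw [ip_neg, ← ip_neg_neg y]
    exact h2 _ (neg_mem hy)
  · have h1 : IsClosed {x : E r | |Lg x| ≤ η / 2} :=
      isClosed_le (by unfold Lg; fun_prop) continuous_const
    have h2 : IsClosed {x : E r | ∀ y ∈ Λ, 2 * ip x y ≤ ip y y} := by
      simp only [Set.ofPred_forall]
      exact isClosed_iInter fun y => isClosed_iInter fun _ =>
        isClosed_le (continuous_const.mul (cont y)) continuous_const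
    exact (h1.inter h2).measurableSet
  · intro x hx
    rw [mem_closedBall_zero_iff, le_div_iff₀ (by positivity)] at hx
    refine ⟨by linarith [abs_Lg x], fun y hy => ?_⟩
    by_cases h0 : y = 0
    · simp [h0, ip]
    have h1 := hΛ.sep y hy h0
    nlinarith [ip_le x y, le_q y, norm_nonneg y]
  · rintro x hx ⟨h1, h2⟩
    obtain ⟨y, hy, z, hz, rfl⟩ := AddSubgroup.mem_sup.1 hx
    obtain ⟨v, rfl⟩ := AddSubgroup.mem_zmultiples_iff.1 hz
    rw [← Int.cast_smul_eq_zsmul ℝ, Lg_add, Lg_smul, Lg_smul, Lg_e0 hr, hΛ.ker y hy, zero_add,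
      mul_one, abs_mul, abs_of_pos hη] at h1
    have h3 : |(v : ℝ)| < 1 := by nlinarith
    obtain rfl : v = 0 := Int.abs_lt_one_iff.1 (by exact_mod_cast h3)
    rw [zero_smul, add_zero] at h2 ⊢
    have h4 := h2 y hy
    exact norm_eq_zero.1 (pow_eq_zero_iff two_ne_zero |>.1
      (le_antisymm (by linarith [le_q y]) (sq_nonneg _)))
  · intro x hx
    obtain ⟨y0, hy0, h0⟩ := hΛ.cov x hx
    have hR : 0 ≤ R := (norm_nonneg _).trans h0
    have hc : IsClosed (Λ : Set (E r)) := isClosed_of_pairwise_le_dist hη fun a ha b hb hab => by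
      simpa only [dist_eq_norm] using hΛ.sep _ (sub_mem ha hb) (sub_ne_zero.2 hab)
    have hm : y0 ∈ closedBall x (r * R) ∩ Λ :=
      ⟨by rw [mem_closedBall, dist_comm, dist_eq_norm]; nlinarith, hy0⟩
    obtain ⟨y, hy, hmin⟩ := ((isCompact_closedBall x (r * R)).inter_right hc).exists_isMinOn ⟨_, hm⟩
      (f := fun y => ip (x - y) (x - y)) (by unfold ip; fun_prop)
    have hb : ‖x - y‖ ≤ r * R := by simpa [mem_closedBall, dist_comm y, dist_eq_norm] using hy.1
    refine ⟨y, hy.2, ⟨?_, fun z hz => ?_⟩, hb⟩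
    · rw [Lg_sub, hx, hΛ.ker y hy.2, sub_zero, abs_zero]
      positivity
    have key : ip (x - y) (x - y) ≤ ip (x - (y + z)) (x - (y + z)) := by
      by_cases h : y + z ∈ closedBall x (r * R)
      · exact hmin ⟨h, add_mem hy.2 hz⟩
      rw [mem_closedBall, dist_comm, dist_eq_norm, not_le] at h
      have h1 : ip (x - y) (x - y) ≤ ip (x - y0) (x - y0) := hmin hm
      have h2 := ip_le (x - y0) (x - y0)
      have h3 := le_q (x - (y + z))
      have h4 := mul_self_le_mul_self (norm_nonneg _) h0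
      have h5 := mul_self_le_mul_self (by positivity) h.le
      have h6 : (r : ℝ) * (R * R) ≤ r * R * (r * R) := by nlinarith [mul_self_nonneg R]
      nlinarith
    rw [← sub_sub, ip_sub (x - y) z] at key
    linarith

end Pool.Agent.MP_f3836a_nt.GV.C
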