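import Pool.Agent.MP_f3836a_nt.VE.BTup
import Pool.Agent.MP_f3836a_nt.VE.BSm
import Pool.Agent.MP_f3836a_nt.VE.BAc
import Pool.Agent.MP_f3836a_nt.VE.BInv
import Pool.Agent.MP_f3836a_nt.VE.BPow
import Pool.Agent.MP_f3836a_nt.VE.BBes
import Pool.Agent.MP_f3836a_nt.VE.BReg
import Pool.Agent.MP_f3836a_nt.VE.CChe
import Pool.Agent.MP_f3836a_nt.VE.CHta
import Pool.Agent.MP_f3836a_nt.VE.CHtb
import Pool.Agent.MP_f3836a_nt.VE.CMg
import Pool.Agent.MP_f3836a_nt.GV.GCAn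
import Pool.Agent.MP_f3836a_nt.GV.GCGrid
import Pool.Agent.MP_f3836a_nt.GV.GCFine
import Pool.Agent.MP_f3836a_nt.GV.GCRs
import Pool.Agent.MP_f3836a_nt.GV.GCSub
import Pool.Agent.MP_f3836a_nt.GV.GCMink
import Pool.Agent.MP_f3836a_nt.GV.GCExt
import Pool.Agent.MP_f3836a_nt.GV.GCVor
import Pool.Agent.MP_f3836a_nt.GV.GCTn
import Pool.Agent.MP_f3836a_nt.GV.GCLin
import Pool.Agent.MP_f3836a_nt.GV.GCFub
import Pool.Agent.MP_f3836a_nt.GV.GCUp
import Pool.Agent.MP_f3836a_nt.GV.GCLoc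
import Pool.Agent.MP_f3836a_nt.GV.GCCell
import Pool.Agent.MP_f3836a_nt.GV.GCRia
import Pool.Agent.MP_f3836a_nt.GV.GCRib
import Pool.Agent.MP_f3836a_nt.GV.GCCls
import Pool.Agent.MP_f3836a_nt.GV.GCLlt
import Pool.Agent.MP_f3836a_nt.GV.GCMga
import Pool.Agent.MP_f3836a_nt.GV.GCPig
import Pool.Agent.MP_f3836a_nt.GV.GCRsq
import Pool.Agent.MP_f3836a_nt.GV.GCCrt
import Pool.Agent.MP_f3836a_nt.GV.GCGl
import Pool.Agent.MP_f3836a_nt.GV.GCSwd
import Pool.Agent.MP_f3836a_nt.GV.GCSwo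
import Pool.Agent.MP_f3836a_nt.GV.GCCnt
import Pool.Agent.MP_f3836a_nt.GV.GCLsa
import Pool.Agent.MP_f3836a_nt.GV.GCHt
import Pool.Agent.MP_f3836a_nt.GV.GCMul
import Pool.Agent.MP_f3836a_nt.GV.GCDens
import Pool.Agent.MP_f3836a_nt.GV.GCLsm
import Pool.Agent.MP_f3836a_nt.GV.GCLsb
import Pool.Agent.MP_f3836a_nt.GV.GCPaa
import Pool.Agent.MP_f3836a_nt.GV.GCPar
import Pool.Agent.MP_f3836a_nt.GV.GCHbb
import Pool.Agent.MP_f3836a_nt.GV.GCHbu
import Pool.Agent.MP_f3836a_nt.GV.GCHbl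
import Pool.Agent.MP_f3836a_nt.GV.GCHba
import Pool.Agent.MP_f3836a_nt.GV.GCHb
import Pool.Agent.MP_f3836a_nt.GV.GCRho
import Pool.Agent.MP_f3836a_nt.GV.GCSua
import Pool.Agent.MP_f3836a_nt.GV.GCSubb
import Pool.Agent.MP_f3836a_nt.GV.GCSuc
import Pool.Agent.MP_f3836a_nt.GV.GCBaa
import Pool.Agent.MP_f3836a_nt.GV.GCBab
import Pool.Agent.MP_f3836a_nt.GV.GCPt
import Pool.Agent.MP_f3836a_nt.GV.GCLs
import Pool.Agent.MP_f3836a_nt.GV.GCFin
import Pool.Agent.MP_f3836a_nt.GV.GCPi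
import Pool.Agent.MP_f3836a_nt.GV.GCPhi
import Pool.Agent.MP_f3836a_nt.GV.GCUn
import Pool.Agent.MP_f3836a_nt.GV.GCKer
import Pool.Agent.MP_f3836a_nt.GV.GCNu
import Pool.Agent.MP_f3836a_nt.GV.GCCard
import Pool.Agent.MP_f3836a_nt.GV.GCLam
import Pool.Agent.MP_f3836a_nt.GV.GCUnf
import Pool.Agent.MP_f3836a_nt.GV.GCAnn
import Pool.Agent.MP_f3836a_nt.GV.GCHens
import Pool.Agent.MP_f3836a_nt.GV.GCIdb
import Pool.Agent.MP_f3836a_nt.GV.GCOrd2
import Pool.Agent.MP_f3836a_nt.GV.GCCoo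
import Pool.Agent.MP_f3836a_nt.GV.GCIdg
import Pool.Agent.MP_f3836a_nt.GV.GCSvi
import Pool.Agent.MP_f3836a_nt.GV.GCCni
import Pool.Agent.MP_f3836a_nt.GV.GCOsc
import Pool.Agent.MP_f3836a_nt.GV.GCOm
import Pool.Agent.MP_f3836a_nt.GV.GCRr
import Pool.Agent.MP_f3836a_nt.GV.GCRn
import Pool.Agent.MP_f3836a_nt.GV.GCStp
import Pool.Agent.MP_f3836a_nt.GV.GCMgz
import Pool.Agent.MP_f3836a_nt.GV.GCLsg
import Pool.Agent.MP_f3836a_nt.GV.GCDich
import Pool.Agent.MP_f3836a_nt.GV.GCSum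
import Pool.Agent.MP_f3836a_nt.GV.GCGd

/-! The export of block C. -/

set_option autoImplicit false

namespace Pool.Agent.MP_f3836a_nt.GV.C

open VE.BC (rTup rSm rAc rInv rPow rBes rReg rChe rHta rHtb rMg BesS)

theorem extS : ExtS := rExt rSub

theorem gridS : GridS := rGrid rRs rMink extS rFine rVor

theorem upS : UpS := rUp rTup

theorem besS : BesS := rBes rTup rPow

theorem rsqS : RsqS := rRsq rRs rSub

theorem swdS : SwdS := rSwd rRs rTn rCrt rsqS (rGl rChe)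

theorem babS : BabS := rBab rBaa

theorem ptS : PtS := rPt rBaa

theorem lsS : LsS := rLs ptS

theorem finS : FinS := rFin rBaa babS

theorem piS : PiS := rPi rBaa babS

theorem unS : UnS := rUn rBaa babS

theorem cardS : CardS := rCard extS finS piS (rPhi rBaa rCrt) unS (rKer rBaa babS) rNu

theorem lamS : LamS := rLam rBaa babS

theorem unfS : UnfS := rUnf rBaa babS

theorem ordS : OrdS := rOrd2 rBaa

theorem idgS : IdgS := rIdg rRs rMink rSub rBaa ordS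

theorem sviS : SviS := rSvi rCrt rBaa rNu

theorem densS : DensS :=
  rDens rTup rFub rMul rRs ordS rNu cardS lsS unfS (rCni (rCnt rRs swdS) rIdb idgS sviS) rStp

theorem hbS : HbS :=
  rHb rRs ordS rNu cardS (rHbu rChe rHtb (rHt rHta) rNu rRr (rRn rBaa))
    (rHbl gridS finS unS lamS (rHbb rRs rBaa unS unfS rIdb idgS (rHba rBaa babS ordS)))

theorem lsbS : LsbS :=
  rLsb rRs (rLsa rRs swdS (rSwo rRs rTn rCrt rsqS)) ordS cardS rIdb idgS sviS (rOsc rBaa babS) rStp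
    (rLsm rTup rPow upS (rPig rTup gridS) rMul rBaa babS ptS lsS unS cardS lamS unfS rStp densS)

theorem anS : AnS :=
  rAn rTup rSm upS gridS (rLlt rTup rSm (rInv rTup) (rCls rTup rPow besS rSm (rAc rTup rSm)))
    (rCell rTup rSm) (rRia rTup rSm upS) rRib

/-- **equidistribution in one order** -/
theorem cMain : CMain :=
  CG.cMain_of rSua rSubb rSuc rBaa babS ptS
    (rPar rBaa ptS unS (rPaa rBaa babS (rAnn rBaa rIdb))) (rSum rBaa lsS) (rLoc rTup upS)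
    (rOm rRs rTn rSub rBaa ordS) (rMg rTup rSm) piS cardS lamS unS (rLin rTn) rTn rMul densS
    (rMgz (rMga rTup rMink extS rVor) ptS unS cardS lamS rStp densS) lsbS rLsg
    (rDich besS ptS finS (rHens rBaa babS)) (rRho rChe rNu cardS) anS (rReg rPow besS) rRs ordS
    (rCoo rBaa) hbS rStp

end Pool.Agent.MP_f3836a_nt.GV.C
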