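import Pool.Agent.MP_f3836a_nt.GV.SpecE0

/-! Archimedean rigidity relative to a model. -/

set_option autoImplicit false

namespace Pool.Agent.MP_f3836a_nt.GV

open Polynomial Finset VE

namespace GEAr

theorem key {t0 H : ℝ} (P Q : ℝ[X]) (hH : 0 < H)
    (hb : ∀ t ∈ Set.Icc t0 (t0 + 1), H ≤ Q.eval t ∧ Q.eval t ≤ 12 * H) :
    ∃ S : ℝ, 0 ≤ S ∧ (∀ t ∈ Set.Icc t0 (t0 + 1), |P.eval t / Q.eval t| ≤ S ∧
      |(C H⁻¹ * P).eval t| ≤ 12 * |P.eval t / Q.eval t|) ∧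
      (∃ t ∈ Set.Icc t0 (t0 + 1), S ≤ |(C H⁻¹ * P).eval t|) ∧ (S = 0 → P = 0) := by
  obtain ⟨x, x1, x2⟩ := isCompact_Icc.exists_isMaxOn (Set.nonempty_Icc.2 (by linarith : t0 ≤ t0 + 1))
    (f := fun t => |P.eval t|) P.continuous.abs.continuousOn
  have he : ∀ t, |(C H⁻¹ * P).eval t| = |P.eval t| / H := fun t => by
    rw [eval_mul, eval_C, abs_mul, abs_of_pos (inv_pos.2 hH), div_eq_inv_mul]
  refine ⟨|P.eval x| / H, by positivity, fun t ht => ⟨?_, ?_⟩, ⟨x, x1, (he x).ge⟩, fun e => ?_⟩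
  · rw [abs_div, abs_of_pos (hH.trans_le (hb t ht).1)]
    exact div_le_div₀ (abs_nonneg _) (x2 ht) hH (hb t ht).1
  · have a := hH.trans_le (hb t ht).1
    rw [he, abs_div, abs_of_pos a, ← mul_div_assoc, div_le_div_iff₀ hH a]
    nlinarith [mul_le_mul_of_nonneg_left (hb t ht).2 (abs_nonneg (P.eval t))]
  · refine eq_zero_of_infinite_isRoot P ((Set.Icc_infinite (by linarith : t0 < t0 + 1)).mono
      fun t ht => abs_nonpos_iff.1 ((x2 ht).trans_eq ?_))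
    exact (div_eq_zero_iff.1 e).resolve_right hH.ne'

theorem prim {t0 : ℝ} (P Q : ℝ[X]) (hQ : ∀ t ∈ Set.Icc t0 (t0 + 1), Q.eval t ≠ 0) (y : ℝ) :
    ∃ f : ℝ → ℝ, f t0 = y ∧ ∀ t ∈ Set.Icc t0 (t0 + 1), HasDerivAt f (P.eval t / Q.eval t) t := by
  have hc : ∀ t ∈ Set.Icc t0 (t0 + 1), ContinuousAt (fun x => P.eval x / Q.eval x) t :=
    fun t ht => P.continuous.continuousAt.div Q.continuous.continuousAt (hQ t ht)
  refine ⟨fun t => y + ∫ x in t0..t, P.eval x / Q.eval x, by simp, fun t ht => ?_⟩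
  refine (intervalIntegral.integral_hasDerivAt_right (ContinuousOn.intervalIntegrable
    fun x hx => (hc x ?_).continuousWithinAt) (P.continuous.measurable.div
      Q.continuous.measurable).stronglyMeasurable.stronglyMeasurableAtFilter (hc t ht)).const_add y
  rw [Set.uIcc_of_le ht.1] at hx
  exact ⟨hx.1, hx.2.trans ht.2⟩

theorem cmp {p a b ε : ℝ} (ha : 0 < a) (h0 : 0 ≤ ε) (h1 : ε ≤ 1 / 2) (h : |b - a| ≤ ε * a) :
    0 < b ∧ |p / b - p / a| ≤ 2 * ε * |p / a| := by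
  have h2 : a ≤ 2 * b := by nlinarith [(abs_le.1 h).1]
  have hb : 0 < b := by linarith
  refine ⟨hb, ?_⟩
  rw [show p / b - p / a = -((b - a) / b * (p / a)) by field_simp; ring, abs_neg, abs_mul, abs_div,
    abs_of_pos hb]
  refine mul_le_mul_of_nonneg_right ((div_le_iff₀ hb).2 (h.trans ?_)) (abs_nonneg _)
  nlinarith

end GEAr

theorem rArG : OfArG := by
  intro hD hL n D
  obtain ⟨J0, Λ, hΛ, h⟩ := hL n D
  refine ⟨J0, Λ, hΛ, fun J hJ t0 H0 Hs ε s N c Q P0 f0 hN hn h0 hc hH hs e0 e1 d0 hb => ?_⟩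
  obtain ⟨P, p1, p2, p3⟩ := hD N c s hN (hn ▸ h0)
  have hb' := fun t ht => And.intro (hb t ht).1 (hb t ht).2.1
  have hQ : ∀ t ∈ Set.Icc t0 (t0 + 1), 0 < Q.eval t := fun t ht => hH.trans_le (hb t ht).1
  have d1 : (C Hs⁻¹ * P - P0).natDegree < n := (natDegree_sub_le _ _).trans_lt
    (max_lt ((natDegree_C_mul_le _ _).trans_lt (hn ▸ p1)) d0)
  obtain ⟨S, s1, s2, s3, s4⟩ := GEAr.key (C Hs⁻¹ * P - P0) Q hH hb'
  obtain ⟨S0, r1, r2, r3, r4⟩ := GEAr.key P0 Q hH hb'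
  obtain ⟨f, f1, f2⟩ := GEAr.prim (C Hs⁻¹ * P - P0) Q (fun t ht => (hQ t ht).ne')
    (BC.va N c s t0 - f0 t0)
  refine ⟨S, S0, f, _, s1, r1, d1, fun t ht => ⟨f2 t ht, ?_, fun t' ht' => ?_⟩,
    fun m tc e a1 a2 a3 => ⟨h J t0 S f _ _ hJ ((natDegree_C_mul_le _ _).trans_lt d1)
      (fun t ht => ⟨f2 t ht, (s2 t ht).2⟩) s3 s1 m tc e a1 a2 a3,
      h J t0 S0 f0 _ _ hJ ((natDegree_C_mul_le _ _).trans_lt d0)
      (fun t ht => ⟨(hb t ht).2.2.2, (r2 t ht).2⟩) r3 r1 m tc e a1 a2 a3⟩,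
    fun z z0 => (p3 ?_ hc).2⟩
  · have k := fun y hy => GEAr.cmp (p := P.eval y) (mul_pos hs (hQ y hy)) e0 e1 (hb y hy).2.2.1
    have := (convex_Icc t0 (t0 + 1)).norm_image_sub_le_of_norm_hasDerivWithin_le
      (f := fun y => BC.va N c s y - f0 y - f y) (C := 2 * ε * (S + S0))
      (fun y hy => (((p2 y (k y hy).1).sub (hb y hy).2.2.2).sub (f2 y hy)).hasDerivWithinAt)
      (fun y hy => ?_) (Set.left_mem_Icc.2 (by linarith)) ht
    · rw [f1, sub_self, sub_zero, Real.norm_eq_abs, Real.norm_eq_abs] at this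
      refine this.trans (mul_le_of_le_one_right (by positivity) (abs_le.2 ⟨?_, ?_⟩)) <;>
        linarith [ht.1, ht.2]
    · have e : P.eval y / (Hs * Q.eval y)
          = (C Hs⁻¹ * P - P0).eval y / Q.eval y + P0.eval y / Q.eval y := by
        rw [eval_sub, eval_mul, eval_C, ← add_div, sub_add_cancel, div_mul_eq_div_div,
          div_eq_inv_mul (P.eval y) Hs]
      rw [Real.norm_eq_abs, sub_sub, add_comm, ← e]
      refine (k y hy).2.trans (mul_le_mul_of_nonneg_left ?_ (by positivity))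
      rw [e]
      exact (abs_add_le _ _).trans (add_le_add (s2 y hy).1 (r2 y hy).1)
  · exact (convex_Icc t0 (t0 + 1)).norm_image_sub_le_of_norm_hasDerivWithin_le
      (fun y hy => (f2 y hy).hasDerivWithinAt) (fun y hy => (s2 y hy).1) ht' ht
  · have := s4 z
    rw [r4 z0, sub_zero] at this
    exact (mul_eq_zero.1 this).resolve_left (C_ne_zero.2 (inv_ne_zero hs.ne'))

end Pool.Agent.MP_f3836a_nt.GV
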