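import Pool.Agent.MP_f3836a_nt.GV.SpecE0

/-! The big curves of a small box are close to the shape. -/

set_option autoImplicit false

namespace Pool.Agent.MP_f3836a_nt.GV

open Polynomial Finset VE Filter Topology

namespace GEBox

variable {n m : ℕ}

theorem nm_map {R S : Type} [CommRing R] [CommRing S] (f : R →+* S) (M : Tab R n) (β : Fin n → R) :
    f (Nm M β) = Nm (fun i => (M i).map f) fun i => f (β i) := by
  rw [Nm, RingHom.map_det, Nm]
  congr 1
  ext i j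
  simp [Mx, Matrix.sum_apply]

theorem nm_smul (M : Tab ℝ n) (c : ℝ) (β : Fin n → ℝ) :
    (Nm M fun i => c * β i) = c ^ n * Nm M β := by
  have : (Mx M fun i => c * β i) = c • Mx M β := by simp only [Mx, smul_sum, mul_smul]
  rw [Nm, this, Matrix.det_smul, Fintype.card_fin, Nm]

theorem emb_smul (s : Fin n → ℂ) (c : ℝ) (β : Fin n → ℝ) :
    ‖emb s fun i => c * β i‖ = |c| * ‖emb s β‖ := by
  rw [← Real.norm_eq_abs, ← Complex.norm_real, ← norm_mul]
  simp only [emb, mul_sum, Complex.ofReal_mul, mul_assoc]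

/-- the rescaled values -/
noncomputable def G {e : Fin n → ℕ} (t1 : ℤ) (As : Fin n → ℤ[X]) (z : (ℝ × (Ix e m → ℝ)) × ℝ)
    (i : Fin n) : ℝ :=
  z.1.1 * aeval z.2 (As i) + (z.2 - t1) * ∑ j : Fin (m - max (e i) 1), z.1.2 ⟨i, j⟩ * z.2 ^ (j : ℕ)

theorem cont_G {e : Fin n → ℕ} (t1 : ℤ) (As : Fin n → ℤ[X]) (i : Fin n) :
    Continuous fun z : (ℝ × (Ix e m → ℝ)) × ℝ => G t1 As z i := by
  have := (As i).continuous_aeval (A := ℝ)
  unfold G
  fun_prop

theorem cont_emb {e : Fin n → ℕ} (t1 : ℤ) (As : Fin n → ℤ[X]) {Y : ℝ → Fin n → ℂ}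
    (z : (ℝ × (Ix e m → ℝ)) × ℝ) (h : ∀ i, ContinuousAt (fun t => Y t i) z.2) :
    ContinuousAt (fun z : (ℝ × (Ix e m → ℝ)) × ℝ => ‖emb (Y z.2) (G t1 As z)‖) z := by
  refine ContinuousAt.norm (tendsto_finsetSum _ fun i _ => ContinuousAt.mul ?_ ?_)
  · exact (Complex.continuous_ofReal.comp (cont_G t1 As i)).continuousAt
  · exact (h i).comp continuousAt_snd

theorem G_zero {e : Fin n → ℕ} (t1 : ℤ) (As : Fin n → ℤ[X]) (v : Ix e m → ℝ) (t : ℝ) :
    G t1 As ((0, v), t) = fun i => (t - t1) * aeval t (vP v i) := by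
  ext i
  simp [G, vP]

end GEBox

open GEBox in
theorem rBox : BoxS := by
  intro n r _ T B t1 m As vs ε hn _ hB hS hε
  have lt : ∀ t ∈ Set.Icc (B.t0 : ℝ) (B.t0 + 1), 0 < (t1 : ℝ) - t := fun t ht => by
    have h1 : (B.t0 : ℝ) + 1 + 2 * n ≤ t1 := by exact_mod_cast hB.far
    have h2 : (0 : ℝ) < n := Nat.cast_pos.2 (NeZero.pos n)
    linarith [ht.2]
  have sub : B.I ⊆ Set.Icc (B.t0 : ℝ) (B.t0 + 1) :=
    Set.Icc_subset_Icc_right (by linarith [hB.rho.2])
  have e0 : ∀ t : ℝ, (N0 T t1 vs).eval t = Nm (T.fib t) (G t1 As ((0, vs), t)) := fun t => by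
    rw [G_zero, nm_smul, N0, eval_mul, eval_pow, eval_sub, eval_X, eval_C, NR, ← coe_evalRingHom,
      nm_map]
    congr 2
    ext i a b
    exact eval_map_algebraMap _ _
  have c1 : Continuous fun z : (ℝ × (Ix T.e m → ℝ)) × ℝ => Nm (T.fib z.2) (G t1 As z) :=
    Continuous.matrix_det (continuous_finsetSum _ fun i _ => (cont_G t1 As i).smul
      (continuous_matrix fun a b => (T.M i a b).continuous_aeval.comp continuous_snd))
  have h1 := isCompact_Icc.eventually_forall_of_forall_eventually (x₀ := ((0 : ℝ), vs))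
    (P := fun p t => |Nm (T.fib t) (G t1 As (p, t)) - (N0 T t1 vs).eval t| < ε * (N0 T t1 vs).eval t)
    (K := Set.Icc (B.t0 : ℝ) (B.t0 + 1)) fun t ht => by
      have c2 : Continuous fun z : (ℝ × (Ix T.e m → ℝ)) × ℝ => (N0 T t1 vs).eval z.2 :=
        (N0 T t1 vs).continuous.comp continuous_snd
      refine ContinuousAt.eventually_lt (c1.sub c2).abs.continuousAt
        (continuous_const.mul c2).continuousAt ?_
      simp only [← e0, sub_self, abs_zero]
      rw [N0, eval_mul, eval_pow, eval_sub, eval_X, eval_C]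
      exact mul_pos hε (mul_pos (Even.pow_pos ⟨r, by omega⟩ (sub_neg.2 (sub_pos.1 (lt t ht))).ne)
        (by linarith [(abs_le.1 (hS.1 t ht)).1]))
  have e1 : ∀ w, ∀ t ∈ B.I, ‖emb (B.Y w t) (G t1 As ((0, vs), t))‖ =
      (t1 - t) * ‖B.ev (vP vs) w t‖ := fun w t ht => by
    rw [G_zero, emb_smul, abs_sub_comm, abs_of_pos (lt t (sub ht)), Br.ev]
  have ne : ∀ w, ∀ t ∈ B.I, ‖B.ev (vP vs) w t‖ ≠ 0 := fun w t ht e => by
    have := hS.2 w t ht
    rw [norm_eq_zero.1 e] at this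
    norm_num at this
  have h2 := eventually_all.2 fun w => isCompact_Icc.eventually_forall_of_forall_eventually
    (x₀ := ((0 : ℝ), vs)) (P := fun p t => ‖emb (B.Y w t) (G t1 As (p, t))‖ ≠ 0 ∧
      |Real.log ‖emb (B.Y w t) (G t1 As (p, t))‖ -
        Real.log ‖emb (B.Y w t) (G t1 As ((0, vs), t))‖| < ε) (K := B.I) fun t ht => by
      have c2 : ContinuousAt (fun z : (ℝ × (Ix T.e m → ℝ)) × ℝ =>
          ‖emb (B.Y w z.2) (G t1 As z)‖) ((0, vs), t) :=
        cont_emb t1 As _ fun i => (hB.ana w i t ht).continuousAt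
      have k : ‖emb (B.Y w t) (G t1 As ((0, vs), t))‖ ≠ 0 :=
        e1 w t ht ▸ mul_ne_zero (lt t (sub ht)).ne' (ne w t ht)
      have c3 := ContinuousAt.comp (f := fun z : (ℝ × (Ix T.e m → ℝ)) × ℝ => (((0 : ℝ), vs), z.2))
        (x := ((0, vs), t)) (c2.log k) (continuousAt_const.prodMk continuousAt_snd)
      exact (c2.eventually_ne k).and (ContinuousAt.eventually_lt ((c2.log k).sub c3).abs
        continuousAt_const (by simpa using hε))
  obtain ⟨δ, hδ, hp⟩ := Metric.eventually_nhds_iff.1 (h1.and h2)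
  refine ⟨2 / δ, fun P W W' k H H1 hW hH1 hH x hx => ?_⟩
  have w1 : (1 : ℝ) ≤ W' := by exact_mod_cast hW
  have w2 : (1 : ℝ) ≤ H1 := by exact_mod_cast hH1
  rw [div_mul_eq_mul_div, div_le_iff₀ hδ] at hH
  have w3 : (0 : ℝ) < H := by
    by_contra! a
    nlinarith
  have w4 : (0 : ℝ) < W' * H := by positivity
  obtain ⟨a1, a2⟩ := @hp (((W' : ℝ) * H)⁻¹, fun j => (x j : ℝ) / H) (by
    rw [Prod.dist_eq, max_lt_iff, dist_pi_lt_iff hδ, Real.dist_eq, sub_zero, abs_of_pos (inv_pos.2 w4),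
      inv_lt_iff_one_lt_mul₀' w4]
    refine ⟨by nlinarith, fun j => ?_⟩
    obtain ⟨b1, b2⟩ := mem_Ico.1 (Fintype.mem_piFinset.1 hx j)
    have b3 : ((⌊(H : ℝ) * vs j⌋ : ℤ) : ℝ) ≤ x j := by exact_mod_cast b1
    have b4 : (x j : ℝ) < (⌊(H : ℝ) * vs j⌋ : ℤ) + H1 := by exact_mod_cast b2
    have b5 := Int.floor_le ((H : ℝ) * vs j)
    have b6 := Int.lt_floor_add_one ((H : ℝ) * vs j)
    rw [Real.dist_eq, abs_sub_lt_iff, sub_lt_iff_lt_add, div_lt_iff₀ w3, sub_lt_comm, lt_div_iff₀ w3]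
    constructor <;> nlinarith)
  have e2 : ∀ t : ℝ, (fun i => aeval t (As i + C (W' : ℤ) * (X - C t1) * vP x i)) = fun i =>
      (W' * H : ℝ) * G t1 As ((((W' : ℝ) * H)⁻¹, fun j => (x j : ℝ) / H), t) i := fun t => by
    ext i
    simp only [G, vP, map_add, map_mul, map_sub, map_sum, aeval_X, aeval_monomial,
      eq_intCast, div_mul_eq_mul_div, ← sum_div, map_intCast, map_natCast]
    field_simp
  refine ⟨fun t ht => ?_, fun w t ht => ?_⟩
  · have : aeval t (T.N fun i => As i + C (W' : ℤ) * (X - C t1) * vP x i) = _ :=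
      (nm_map (aeval t : ℤ[X] →ₐ[ℤ] ℝ).toRingHom _ _).trans
        ((congrArg _ (e2 t)).trans (nm_smul _ _ _))
    refine (congrArg (|· - _|) this).trans_le ?_
    rw [← mul_sub, abs_mul, abs_of_pos (pow_pos w4 n), mul_left_comm]
    exact mul_le_mul_of_nonneg_left (a1 t ht).le (pow_pos w4 n).le
  · have : ‖B.ev (fun i => As i + C (W' : ℤ) * (X - C t1) * vP x i) w t‖ = _ :=
      (congrArg (‖emb _ ·‖) (e2 t)).trans (emb_smul _ _ _)
    obtain ⟨b1, b2⟩ := a2 w t ht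
    rw [e1 w t ht, Real.log_mul (lt t (sub ht)).ne' (ne w t ht)] at b2
    refine (congrArg (|Real.log · - _ - _|) this).trans_le ?_
    rw [abs_of_pos w4, Real.log_mul w4.ne' b1, Real.log_mul w4.ne' (lt t (sub ht)).ne']
    refine le_of_eq_of_le (congrArg _ ?_) b2.le
    ring

end Pool.Agent.MP_f3836a_nt.GV
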