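import Pool.Agent.MP_f3836a_nt.GV.SpecE0

/-! Part E: the embeddings of the order of a small curve. -/

set_option autoImplicit false

namespace Pool.Agent.MP_f3836a_nt.GV

open Polynomial Finset VE

namespace GEEm

variable {n r : ℕ} {M M' : Tab ℝ n} {d : Fin n → ℝ}

theorem disc_map {R S : Type} [CommRing R] [CommRing S] (f : R →+* S) (M : Tab R n) :
    disc (fun i => (M i).map f) = f (disc M) := by
  rw [disc, disc, f.map_det]
  congr 1
  ext i j
  simp [Matrix.trace, Matrix.mul_apply]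

theorem emb_sc (s : Fin n → ℂ) (β : Fin n → ℝ) :
    emb (fun i => (d i : ℂ) * s i) β = emb s fun i => β i * d i :=
  sum_congr rfl fun i _ => by push_cast; ring

theorem em_sc [NeZero n] {Φ : Fin r → Fin n → ℂ} (hd : ∀ i, d i ≠ 0) (h0 : d 0 = 1)
    (h : ∀ i l j, M' i l j * d l = d i * d j * M i l j) (hE : Em M Φ) :
    Em M' fun w i => (d i : ℂ) * Φ w i := by
  refine ⟨fun w => ⟨by simp [h0, (hE.hom w).1], fun i j => ?_⟩, fun β => ?_, fun β hβ => ?_⟩
  · rw [mul_mul_mul_comm, (hE.hom w).2, mul_sum]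
    refine sum_congr rfl fun l _ => ?_
    have := congrArg Complex.ofReal (h i l j)
    simp only [Matrix.map_apply, Complex.ofReal_mul] at this ⊢
    rw [← mul_assoc, ← mul_assoc, this]
  · simp only [emb_sc, ← hE.nrm]
    have e : Matrix.diagonal d * Mx M' β = Mx M (fun i => β i * d i) * Matrix.diagonal d := by
      ext l j
      simp only [Matrix.diagonal_mul, Matrix.mul_diagonal, Mx, Matrix.sum_apply,
        Matrix.smul_apply, smul_eq_mul, mul_sum, sum_mul]
      exact sum_congr rfl fun i _ => by linear_combination β i * h i l j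
    have := congrArg Matrix.det e
    rw [Matrix.det_mul, Matrix.det_mul, mul_comm, Matrix.det_diagonal] at this
    exact mul_right_cancel₀ (prod_ne_zero_iff.2 fun i _ => hd i) this
  · simp only [emb_sc] at hβ
    exact funext fun i => (mul_eq_zero.1 (congrFun (hE.inj _ hβ) i)).resolve_right (hd i)

theorem disc_sc (hd : ∀ i, d i ≠ 0) (h : ∀ i l j, M' i l j * d l = d i * d j * M i l j) :
    disc M' = (∏ i, d i) ^ 2 * disc M := by
  have e : (Matrix.of fun i j => (M' i * M' j).trace) =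
      Matrix.diagonal d * (Matrix.of fun i j => (M i * M j).trace) * Matrix.diagonal d := by
    ext i j
    rw [Matrix.mul_diagonal, Matrix.diagonal_mul]
    simp only [Matrix.of_apply, Matrix.trace, Matrix.diag_apply, Matrix.mul_apply, mul_sum, sum_mul]
    refine sum_congr rfl fun l _ => sum_congr rfl fun q _ =>
      mul_right_cancel₀ (mul_ne_zero (hd l) (hd q)) ?_
    linear_combination (M' j q l * d q) * h i l q + (d i * d q * M i l q) * h j q l
  rw [disc, e, Matrix.det_mul, Matrix.det_mul, Matrix.det_diagonal, disc]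
  ring

end GEEm

open GEEm in
theorem rEm : OfEm := by
  intro tb n r _ T B t1 hT hB
  have key := fun (k : ℕ) (a : ℤ) (hk : 0 < k) =>
    (tb n T a ((k : ℤ) ^ 2) hT).1 ℝ ((a : ℝ) / (k : ℝ) ^ 2) (by
      have : (k : ℝ) ≠ 0 := Nat.cast_ne_zero.2 hk.ne'
      push_cast
      field_simp)
  have hd : ∀ k : ℕ, 0 < k → ∀ i, ((k : ℝ) ^ 2) ^ T.e i ≠ 0 := fun k hk i => by positivity
  have h1 : ∀ (k : ℕ) (a : ℤ), 0 < k → ∀ i l j,
      (T.Mh a ((k : ℤ) ^ 2) i).map (Int.cast : ℤ → ℝ) l j * ((k : ℝ) ^ 2) ^ T.e l =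
        ((k : ℝ) ^ 2) ^ T.e i * ((k : ℝ) ^ 2) ^ T.e j * T.fib ((a : ℝ) / (k : ℝ) ^ 2) i l j :=
    fun k a hk i l j => by
      simpa only [Int.cast_pow, Int.cast_natCast, pow_add, Matrix.map_apply] using
        (key k a hk).1 i l j
  refine ⟨fun k a hk ha => ⟨?_, fun m A hA w => ?_⟩, ?_⟩
  · have := em_sc (hd k hk) (by rw [hT.e0, pow_zero]) (h1 k a hk) (hB.em _ ha)
    simp only [Complex.ofReal_pow, Complex.ofReal_natCast] at this
    exact this
  · rw [Br.ev, emb, emb, mul_sum]
    refine sum_congr rfl fun i _ => ?_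
    rw [((key k a hk).2 m A hA).1 i, Br.Ph]
    by_cases hi : T.e i ≤ m
    · obtain ⟨c, rfl⟩ := Nat.exists_eq_add_of_le hi
      rw [Nat.add_sub_cancel_left]
      push_cast
      ring
    · have : A i = 0 := Polynomial.ext fun c => hA.2.2 i (fun e => hi (by rw [e, hT.e0]; omega)) c
        (by omega)
      simp [this]
  obtain ⟨C1, c1⟩ := (isCompact_Icc : IsCompact B.I).exists_bound_of_continuousOn
    (f := fun t w i => B.Y w t i)
    (continuousOn_pi.2 fun w => continuousOn_pi.2 fun i => (hB.ana w i).continuousOn)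
  obtain ⟨C2, c2⟩ := (isCompact_Icc : IsCompact B.I).exists_bound_of_continuousOn
    (f := fun t : ℝ => aeval t (disc T.M)) (disc T.M).continuous_aeval.continuousOn
  refine ⟨max 1 (max C1 C2), le_max_left _ _, fun k a hk ha => ⟨fun w i => ?_, ?_⟩⟩
  · rw [Br.Ph, norm_mul, norm_pow, norm_pow, Complex.norm_natCast, mul_comm]
    exact mul_le_mul_of_nonneg_right ((((norm_le_pi_norm _ i).trans
      (norm_le_pi_norm (fun w => B.Y w _) w)).trans (c1 _ ha)).trans
        ((le_max_left _ _).trans (le_max_right _ _))) (by positivity)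
  · have e := disc_sc (hd k hk) (h1 k a hk)
    have e1 := disc_map (Int.castRingHom ℝ) (T.Mh a ((k : ℤ) ^ 2))
    have e2 := disc_map (aeval ((a : ℝ) / (k : ℝ) ^ 2) : ℤ[X] →ₐ[ℤ] ℝ).toRingHom T.M
    rw [show ((disc (T.Mh a ((k : ℤ) ^ 2)) : ℤ) : ℝ) = _ from e1.symm.trans (e.trans
      (congrArg _ e2)), prod_pow_eq_pow_sum, ← pow_mul, mul_comm _ 2, abs_mul, mul_comm,
      abs_of_nonneg (a := (_ : ℝ) ^ _) (by positivity)]
    exact mul_le_mul_of_nonneg_right ((c2 _ ha).trans
      ((le_max_right _ _).trans (le_max_right _ _))) (by positivity)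

end Pool.Agent.MP_f3836a_nt.GV
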