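import Pool.Agent.MP_f3836a_nt.GV.SpecE0
import Pool.Agent.MP_f3836a_nt.VE.EMass

/-! Row Mass: the masses of the coarse cells. -/

set_option autoImplicit false

namespace Pool.Agent.MP_f3836a_nt.GV

open Polynomial Finset VE

namespace GEMass

theorem sum_pts (hF : FyS) {n : ℕ} [NeZero n] {T : Tb n} {t1 : ℤ} {P : Ps n} (hA : P.Alg T t1)
    (lo hi : ℝ) (g : ℕ → ℝ) : ∑ z ∈ P.pts lo hi, g z.p
      = ∑ p ∈ (range ⌈hi⌉₊).filter fun p : ℕ => lo ≤ p, n * (P.sp p).card * g p := by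
  have h1 : ∀ p, (n : ℝ) * (P.sp p).card * g p = ∑ _v ∈ P.sp p ×ˢ Fy P.r p, g p := fun p => by
    rw [sum_const, card_product, nsmul_eq_mul]
    rcases (P.sp p).eq_empty_or_nonempty with h | ⟨τ, h⟩
    · simp [h]
    · rw [(hF _ _ (hA.bas p τ h).2.2.1).1, ← hA.two]
      push_cast
      ring
  rw [sum_congr rfl fun p _ => h1 p, sum_sigma']
  refine sum_bij' (fun z _ => ⟨z.p, z.t, z.y⟩) (fun x _ => ⟨x.1, x.2.1, x.2.2⟩) ?_ ?_ ?_ ?_ ?_
  · intro z hz
    obtain ⟨h2, h3, h4⟩ := P.mem_pts.1 hz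
    simp only [mem_sigma, mem_filter, mem_range, mem_product, Nat.lt_ceil]
    exact ⟨⟨h4, h3⟩, h2⟩
  · intro x hx
    simp only [mem_sigma, mem_filter, mem_range, mem_product, Nat.lt_ceil] at hx
    exact P.mem_pts.2 ⟨hx.2, hx.1.2, hx.1.1⟩
  · intro z _; rfl
  · intro x _; rfl
  · intro z _; rfl

end GEMass

open EMass GEMass in
theorem rMass : GV.OfMass := by
  intro hF n _ T t1 P hA hW K' δ hK hδ
  have K1 : (0 : ℝ) < K' := Nat.cast_pos.2 hK
  obtain ⟨η, η0, η1, η2⟩ : ∃ η : ℝ, 0 < η ∧ η ≤ 1 ∧ K' * η ≤ δ / 2 :=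
    ⟨min 1 (δ / 2 / K'), lt_min one_pos (by positivity), min_le_left _ _, by
      rw [← le_div_iff₀' K1]; exact min_le_right _ _⟩
  obtain ⟨Y1, h⟩ := hW.win (η / 2) (by positivity)
  refine ⟨max Y1 (Real.exp (2 * K' / δ + 1)), fun Y U hY hU => ?_⟩
  obtain ⟨y1, y2⟩ := max_le_iff.1 hY
  have y0 := (Real.exp_pos _).trans_le y2
  have y3 := (Real.le_log_iff_exp_le y0).2 y2
  have y4 : 0 ≤ 2 * K' / δ := by positivity
  have y5 : Real.log Y ≤ U := (Real.log_le_self y0.le).trans hU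
  obtain ⟨L, rfl⟩ : ∃ L, Y = Real.exp L := ⟨_, (Real.exp_log y0).symm⟩
  rw [Real.log_exp] at y3 y5
  have L0 : 0 < L := by linarith
  have U0 : (0 : ℝ) < U := L0.trans_le y5
  have U1 : 0 < U := Nat.cast_pos.1 U0
  have e1 : Real.exp L ^ 2 = Real.exp (L + U * (L / U)) := by
    rw [mul_div_cancel₀ _ U0.ne', Real.exp_add, sq]
  have m1 : ∀ {a b : ℕ}, a ≤ b → Real.exp (L + a * (L / U)) ≤ Real.exp (L + b * (L / U)) :=
    fun k => by gcongr
  have m0 : ∀ a : ℕ, Real.exp L ≤ Real.exp (L + a * (L / U)) := fun a => by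
    simpa using m1 a.zero_le
  have key : ∀ a b : ℕ, a ≤ b → b ≤ U → |∑ z ∈ P.pts (Real.exp (L + a * (L / U)))
      (Real.exp (L + b * (L / U))), P.nu (Real.exp L) z / z.p - (b - a) / U| ≤ η :=
    fun a b hab hb => by
    have h1 := h _ _ (y1.trans (m0 a)) (m1 hab)
    rw [Real.log_exp, Real.log_exp] at h1
    have h2 : L + b * (L / U) ≤ 2 * L := by
      have : (b : ℝ) * (L / U) ≤ U * (L / U) := by gcongr
      rw [mul_div_cancel₀ _ U0.ne'] at this
      linarith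
    have h3 := h1.trans (mul_le_mul_of_nonneg_left h2 (by positivity))
    have h4 := sum_pts hF hA (Real.exp (L + a * (L / U))) (Real.exp (L + b * (L / U)))
      fun p => P.lw p / (p : ℝ) ^ 2
    rw [sum_congr rfl fun p _ => mul_div_assoc _ _ _, ← h4] at h3
    refine le_of_mul_le_mul_right ?_ L0
    rw [← abs_of_pos L0, ← abs_mul, abs_of_pos L0, sub_mul, sum_mul]
    refine (congrArg abs (congrArg₂ _ (sum_congr rfl fun z _ => ?_) ?_)).trans_le
      (h3.trans_eq (by ring))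
    · rw [Ps.nu, Real.log_exp]
      field_simp
    · ring
  have p1 : ∀ z ∈ P.pts (Real.exp L) (Real.exp L ^ 2), pos L (L / U) z.p < U := fun z hz =>
    not_le.1 (mt (le_pos L0 U1 (P.mem_pts.1 hz).2.1 U).1 (e1 ▸ not_le.2 (P.mem_pts.1 hz).2.2))
  refine ⟨fun z hz => ?_, ?_, ?_⟩
  · rw [cz, Real.log_exp, Nat.div_lt_iff_lt_mul U1]
    exact ⟨p1 z hz, Nat.mul_lt_mul_of_pos_left (p1 z hz) hK⟩
  · have := (abs_le.1 (key 0 U U1.le le_rfl)).2
    rw [← e1, Nat.cast_zero, zero_mul, add_zero, sub_zero, div_self U0.ne'] at this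
    linarith
  · refine (sum_le_card_nsmul _ _ (1 / L + η) fun d hd => ?_).trans ?_
    · have a1 : ⌈((d + 1 : ℕ) * U / K' : ℝ)⌉₊ ≤ U := (le_cell U1 hK _ _).1
        (by rw [Nat.mul_div_cancel _ U1]; exact mem_range.1 hd)
      have a2 := key ⌈(d * U / K' : ℝ)⌉₊ ⌈((d + 1 : ℕ) * U / K' : ℝ)⌉₊
        (Nat.ceil_mono (by gcongr; omega)) a1
      have a3 : ∀ n : ℕ, |(⌈(n * U / K' : ℝ)⌉₊ : ℝ) / U - (n / K' + 1 / 2 / U)| ≤ 1 / 2 / U :=
        fun n => by
          have b1 := Nat.le_ceil (n * U / K' : ℝ)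
          have b2 := Nat.ceil_lt_add_one (by positivity : (0 : ℝ) ≤ n * U / K')
          rw [show (n / K' + 1 / 2 / U : ℝ) = (n * U / K' + 1 / 2) / U by field_simp, ← sub_div,
            abs_div, abs_of_pos U0, div_le_div_iff_of_pos_right U0, abs_le]
          constructor <;> linarith
      have a4 : (P.pts (Real.exp L) (Real.exp L ^ 2)).filter
          (fun z => cz (Real.exp L) U K' z = d) =
          P.pts (Real.exp (L + ⌈(d * U / K' : ℝ)⌉₊ * (L / U)))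
            (Real.exp (L + ⌈((d + 1 : ℕ) * U / K' : ℝ)⌉₊ * (L / U))) := by
        ext z
        rw [mem_filter, P.mem_pts, P.mem_pts, cz, Real.log_exp, eq_comm, le_antisymm_iff,
          ← Nat.lt_succ_iff (m := _ / _), ← not_le (a := d.succ), le_cell U1 hK, le_cell U1 hK]
        refine ⟨fun ⟨⟨b1, b2, _⟩, b4, b5⟩ => ⟨b1, (le_pos L0 U1 b2 _).1 b4,
          not_le.1 (mt (le_pos L0 U1 b2 _).2 b5)⟩, fun ⟨b1, b2, b3⟩ => ?_⟩
        have b4 := (m0 _).trans b2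
        exact ⟨⟨b1, b4, e1 ▸ b3.trans_le (m1 a1)⟩, (le_pos L0 U1 b4 _).2 b2,
          mt (le_pos L0 U1 b4 _).1 (not_le.2 b3)⟩
      have a5 := abs_le.1 (a3 d)
      have a6 := abs_le.1 (a3 (d + 1))
      have a7 := one_div_le_one_div_of_le L0 y5
      have a8 : (1 / 2 / U : ℝ) = 1 / U / 2 := by ring
      rw [sub_div, abs_le] at a2
      rw [Nat.cast_succ d, add_div (d : ℝ)] at a6
      rw [Nat.cast_succ d] at a2 a4
      rw [a4, abs_le]
      constructor <;> linarith [a2.1, a2.2, a5.1, a5.2, a6.1, a6.2]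
    · have b1 : (K' : ℝ) * (1 / L) ≤ δ / 2 := by
        rw [mul_one_div, div_le_iff₀ L0]
        have : 2 * K' ≤ L * δ := by rw [← div_le_iff₀ hδ]; linarith
        linarith
      rw [card_range, nsmul_eq_mul, mul_add]
      linarith

end Pool.Agent.MP_f3836a_nt.GV
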