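import Pool.Agent.MP_f3836a_nt.GV.SpecE0

/-! Orthogonal projection on the primitives. -/

set_option autoImplicit false

namespace Pool.Agent.MP_f3836a_nt.GV

open Polynomial Finset VE

namespace GEPrj

theorem proj (V : Submodule ℝ (ℝ → ℝ)) (H : Finset ℤ) (t d : ℤ → ℝ) :
    ∃ f0 ∈ V, ∀ f ∈ V, ∑ h ∈ H, f (t h) * (d h - f0 (t h)) = 0 := by
  let L : (ℝ → ℝ) →ₗ[ℝ] EuclideanSpace ℝ H :=
    (WithLp.linearEquiv 2 ℝ (H → ℝ)).symm.toLinearMap ∘ₗ LinearMap.funLeft ℝ ℝ fun h : H => t h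
  obtain ⟨_, ⟨f0, h0, rfl⟩, z, hz, e⟩ :=
    (V.map L).exists_add_mem_mem_orthogonal (WithLp.toLp 2 fun h : H => d h)
  refine ⟨f0, h0, fun f hf => ?_⟩
  rw [← sum_coe_sort, ← hz _ ⟨f, hf, rfl⟩, PiLp.inner_apply]
  refine sum_congr rfl fun h _ => ?_
  have : d h = f0 (t h) + z h := congrArg (fun v : EuclideanSpace ℝ H => v h) e
  rw [this, add_sub_cancel_left, mul_comm]
  rfl

end GEPrj

theorem rPrj : PrjS := by
  intro n m t0 t1 N hn H t d
  have hc : ∀ c : ℝ, Nc n m t0 t1 N fun _ => c := fun c =>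
    ⟨0, by simpa using hn, fun s _ => by simpa using hasDerivAt_const s c⟩
  let V : Submodule ℝ (ℝ → ℝ) :=
    { carrier := {f | Nc n m t0 t1 N f}
      add_mem' := fun ⟨P, a, b⟩ ⟨Q, a', b'⟩ => ⟨P + Q, (natDegree_add_le _ _).trans_lt (max_lt a a'),
        fun s hs => by rw [eval_add, add_div]; exact (b s hs).add (b' s hs)⟩
      zero_mem' := hc 0
      smul_mem' := fun c _ ⟨P, a, b⟩ => ⟨c • P, (natDegree_smul_le _ _).trans_lt a,
        fun s hs => by rw [eval_smul, smul_eq_mul, mul_div_assoc]; exact (b s hs).const_mul c⟩ }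
  obtain ⟨f0, h0, h⟩ := GEPrj.proj V H t d
  refine ⟨f0, h0, h, by simpa using h _ (hc 1), ?_⟩
  have e : ∑ h ∈ H, d h ^ 2 = ∑ h ∈ H, f0 (t h) ^ 2 + ∑ h ∈ H, (d h - f0 (t h)) ^ 2 +
      2 * ∑ h ∈ H, f0 (t h) * (d h - f0 (t h)) := by
    rw [mul_sum, ← sum_add_distrib, ← sum_add_distrib]
    exact sum_congr rfl fun _ _ => by ring
  rw [e, h f0 h0, mul_zero, add_zero]
  exact le_add_of_nonneg_right (sum_nonneg fun _ _ => sq_nonneg _)

end Pool.Agent.MP_f3836a_nt.GV
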