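import Pool.Agent.MP_f3836a_nt.GV.SpecE0

/-! Powers in a table. -/

set_option autoImplicit false

namespace Pool.Agent.MP_f3836a_nt.GV

open Polynomial Finset VE

namespace GEPw

variable {n : ℕ} [NeZero n]

theorem mx {R : Type} [CommRing R] {M : Tab R n} (h : Rng M) (β : Fin n → R) (N : ℕ) :
    Mx M (pwr M β N) = Mx M β ^ N := by
  obtain ⟨A, _, _, y, h0, h⟩ := h
  have k : ∀ β, Mx M β = Algebra.leftMulMatrix y (y.equivFun.symm β) := fun β => by
    simp only [Mx, h, Module.Basis.equivFun_symm_apply, map_sum, map_smul]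
  have e : (Pi.single 0 1 : Fin n → R) = y.repr 1 := by
    rw [← h0, y.repr_self, Finsupp.single_eq_pi_single]
  rw [pwr, k, k β, ← map_pow, e, Algebra.leftMulMatrix_mulVec_repr, mul_one]
  exact congrArg _ (y.equivFun.symm_apply_apply _)

theorem succ {R : Type} [CommRing R] (M : Tab R n) (β : Fin n → R) (N : ℕ) (l : Fin n) :
    pwr M β (N + 1) l = ∑ j, ∑ i, β i * M i l j * pwr M β N j := by
  rw [pwr, pow_succ', ← Matrix.mulVec_mulVec]
  simp only [Matrix.mulVec, dotProduct, Mx, Matrix.sum_apply, Matrix.smul_apply, smul_eq_mul,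
    sum_mul]
  rfl

theorem zero {R : Type} [CommRing R] (M : Tab R n) (β : Fin n → R) :
    pwr M β 0 = Pi.single 0 1 := by rw [pwr, pow_zero, Matrix.one_mulVec]

/-- degree at most `a - e` -/
def Dg (a e : ℕ) (P : ℤ[X]) : Prop := ∀ d, a < d + e → P.coeff d = 0

theorem Dg.mul {a e a' e' : ℕ} {P Q : ℤ[X]} (h : Dg a e P) (h' : Dg a' e' Q) :
    Dg (a + a') (e + e') (P * Q) := fun d hd => by
  rw [coeff_mul]
  refine sum_eq_zero fun x hx => ?_
  rw [HasAntidiagonal.mem_antidiagonal] at hx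
  by_cases k : a < x.1 + e
  · rw [h _ k, zero_mul]
  · rw [h' _ (by omega), mul_zero]

theorem dg {T : Tb n} (h : T.Ok) {m : ℕ} {A : Fin n → ℤ[X]} (hA : T.Mon m A) (i : Fin n) :
    Dg m (T.e i) (A i) := fun d hd => by
  by_cases k : i = 0
  · subst k
    rw [h.e0, add_zero, ← hA.2.1] at hd
    exact coeff_eq_zero_of_natDegree_lt hd
  · exact hA.2.2 i k d hd

theorem mon {T : Tb n} (h : T.Ok) (h1 : T.M 0 = 1) {m m' : ℕ} {A A' : Fin n → ℤ[X]}
    (hA : T.Mon m A) (hA' : T.Mon m' A') :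
    T.Mon (m' + m) fun l => ∑ j, ∑ i, A i * T.M i l j * A' j := by
  have k : ∀ l, Dg (m' + m) (T.e l) (∑ j, ∑ i, A i * T.M i l j * A' j) := fun l d hd => by
    simp only [finsetSum_coeff]
    exact sum_eq_zero fun j _ => sum_eq_zero fun i _ =>
      ((dg h hA i).mul (h.deg i l j)).mul (dg h hA' j) d (by omega)
  have z : ∀ i j, ¬(i = 0 ∧ j = 0) → Dg (T.e i + T.e j) 1 (T.M i 0 j) := fun i j hij d hd => by
    by_cases hi : i = 0
    · subst hi
      rw [h1, Matrix.one_apply_ne fun e => hij ⟨rfl, e.symm⟩, coeff_zero]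
    by_cases hj : j = 0
    · obtain ⟨B, _, _, y, h0, e⟩ := h.rng
      rw [hj, e, Algebra.leftMulMatrix_eq_repr_mul, h0, mul_one, y.repr_self,
        Finsupp.single_eq_of_ne' hi, coeff_zero]
    by_cases e : d = T.e i + T.e j
    · exact e ▸ h.deg0 i j hi hj
    · exact h.deg i 0 j d (by omega)
  have t : (∑ j, ∑ i, A i * T.M i 0 j * A' j).coeff (m' + m) = 1 := by
    simp only [finsetSum_coeff]
    rw [sum_eq_single 0 (fun j _ hj => sum_eq_zero fun i _ =>
        ((dg h hA i).mul (z i j fun e => hj e.2)).mul (dg h hA' j) _ (by omega)) (by simp),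
      sum_eq_single 0 (fun i _ hi =>
        ((dg h hA i).mul (z i 0 fun e => hi e.1)).mul (dg h hA' 0) _ (by omega)) (by simp),
      h1, Matrix.one_apply_eq, mul_one, ← hA.2.1, ← hA'.2.1, add_comm,
      ← hA.1.natDegree_mul hA'.1]
    exact hA.1.mul hA'.1
  have u : (∑ j, ∑ i, A i * T.M i 0 j * A' j).natDegree ≤ m' + m :=
    natDegree_le_iff_coeff_eq_zero.2 fun d hd => k 0 d (by omega)
  exact ⟨monic_of_natDegree_le_of_coeff_eq_one _ u t,
    natDegree_eq_of_le_of_coeff_ne_zero u (t ▸ one_ne_zero), fun i _ => k i⟩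

end GEPw

open GEPw in
theorem rPw : OfPw := by
  intro tb n _
  refine ⟨fun R _ M β u N h => ⟨by rw [Nm, mx h, Matrix.det_pow, Nm],
    by rw [pwr, mx h, ← pow_mul, pwr]⟩, fun T m G N h hG => ?_⟩
  have k : ∀ N, T.Mon (N * m) (pwr T.M G N) := fun N => by
    induction N with
    | zero =>
      rw [zero]
      exact ⟨by simp, by simp, fun i hi d _ => by simp [hi]⟩
    | succ N ih =>
      rw [funext (succ T.M G N), add_one_mul]
      exact mon h (tb n T 0 0 h).2.2.1 hG ih
  refine ⟨k N, fun a b hb => ?_⟩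
  have b0 : (b : ℚ) ≠ 0 := Int.cast_ne_zero.2 hb
  obtain ⟨h1, h2⟩ := (tb n T a b h).1 ℚ (a / b) (by field_simp)
  have v : ∀ m A, T.Mon m A → ∀ i, (T.val m A a b i : ℚ) * (b : ℚ) ^ T.e i
      = (b : ℚ) ^ m * aeval ((a : ℚ) / b) (A i) := fun m A hA i => by
    rw [(h2 m A hA).1 i]
    by_cases e : T.e i ≤ m
    · rw [mul_right_comm, ← pow_add, Nat.sub_add_cancel e]
    · rw [show A i = 0 from Polynomial.ext fun d => dg h hA i d (by omega)]
      simp
  induction N with
  | zero =>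
    funext i
    rw [zero, zero]
    by_cases hi : i = 0 <;> simp [Tb.val, hv, hi]
  | succ N ih =>
    funext l
    refine Int.cast_injective (α := ℚ) (mul_right_cancel₀ (pow_ne_zero (T.e l) b0) ?_)
    rw [v _ _ (k _), succ, succ, ← ih]
    simp only [map_sum, map_mul, mul_sum, sum_mul, Int.cast_sum, Int.cast_mul]
    refine sum_congr rfl fun j _ => sum_congr rfl fun i _ => ?_
    have e1 := h1 i l j
    have e2 := v _ _ hG i
    have e3 := v _ _ (k N) j
    rw [Tb.fib, Matrix.map_apply] at e1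
    rw [add_one_mul, pow_add]
    rw [pow_add] at e1
    generalize aeval ((a : ℚ) / b) (T.M i l j) = x at *
    generalize (T.val m G a b i : ℚ) = g at *
    generalize (T.val (N * m) (pwr T.M G N) a b j : ℚ) = w at *
    linear_combination (-(g * w)) * e1 - x * (b : ℚ) ^ T.e j * w * e2
      - x * (b : ℚ) ^ m * aeval ((a : ℚ) / b) (G i) * e3

end Pool.Agent.MP_f3836a_nt.GV
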