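import Pool.Agent.MP_f3836a_nt.GV.SpecE0
import Pool.Agent.MP_f3836a_nt.VE.DApi

/-! The homogenised table is the table of a ring; its discriminant. -/

set_option autoImplicit false

namespace Pool.Agent.MP_f3836a_nt.GV

open Polynomial Finset VE

namespace GERng

variable {R : Type} [CommRing R] {n : ℕ} [NeZero n] {M : Tab R n}

theorem crit (h0 : M 0 = 1) (h1 : ∀ i l j, M i l j = M j l i)
    (h2 : ∀ i j, M i * M j = ∑ l, M i l j • M l) : Rng M := by
  have hc : ∀ a ∈ Set.range M, ∀ b ∈ Set.range M, a * b = b * a := by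
    rintro _ ⟨i, rfl⟩ _ ⟨j, rfl⟩
    simp only [h2, h1 i]
  let v : Fin n → Algebra.adjoin R (Set.range M) := fun i => ⟨M i, Algebra.subset_adjoin ⟨i, rfl⟩⟩
  have e0 : v 0 = 1 := Subtype.ext h0
  have e : ∀ i j, v i * v j = ∑ l, M i l j • v l := fun i j => Subtype.ext (by simp [v, h2])
  have hi : LinearIndependent R v := Fintype.linearIndependent_iff.2 fun g h l => by
    simpa [v, Matrix.sum_apply, fun i => h1 i l 0, h0, Matrix.one_apply] using
      congrArg (fun x : Algebra.adjoin R (Set.range M) => x.1 l 0) h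
  have hs : ⊤ ≤ Submodule.span R (Set.range v) := by
    rintro ⟨x, hx⟩ -
    induction hx using Algebra.adjoin_induction with
    | mem x hx =>
      obtain ⟨i, rfl⟩ := hx
      exact Submodule.subset_span ⟨i, rfl⟩
    | algebraMap r =>
      have := Submodule.smul_mem _ r (Submodule.subset_span (R := R) (Set.mem_range_self (f := v) 0))
      rwa [e0, ← Algebra.algebraMap_eq_smul_one] at this
    | add x y _ _ hx hy => exact add_mem hx hy
    | mul x y _ _ hx hy =>
      have := Submodule.mul_mem_mul hx hy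
      rw [Submodule.span_mul_span] at this
      refine Submodule.span_le.2 ?_ this
      rintro _ ⟨_, ⟨i, rfl⟩, _, ⟨j, rfl⟩, rfl⟩
      simp only [e]
      exact sum_mem fun l _ => Submodule.smul_mem _ _ (Submodule.subset_span ⟨l, rfl⟩)
  refine ⟨_, ⟨(Algebra.isMulCommutative_adjoin R hc).is_comm.comm⟩, Subalgebra.algebra _,
    Module.Basis.mk hi hs, (Module.Basis.mk_apply _ _ _).trans e0, fun i => Matrix.ext fun l j => ?_⟩
  have := congrFun ((Module.Basis.mk hi hs).repr_sum_self fun l => M i l j) l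
  simp only [Module.Basis.mk_apply, ← e] at this
  rw [Algebra.leftMulMatrix_eq_repr_mul, Module.Basis.mk_apply, Module.Basis.mk_apply]
  exact this.symm

theorem of_rng (h : Rng M) :
    (∀ i l j, M i l j = M j l i) ∧ ∀ i j, M i * M j = ∑ l, M i l j • M l := by
  obtain ⟨A, _, _, y, -, h⟩ := h
  refine ⟨fun i l j => by simp only [h, Algebra.leftMulMatrix_eq_repr_mul, mul_comm], fun i j => ?_⟩
  simp only [h, Algebra.leftMulMatrix_eq_repr_mul, ← map_smul, ← map_sum, ← map_mul, y.sum_repr]

end GERng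

open GERng in
theorem rRng : OfRng := by
  intro hT n _ T a b hO hb
  have b0 : (b : ℚ) ≠ 0 := Int.cast_ne_zero.2 hb
  have ht : (a : ℚ) = b * (a / b) := (mul_div_cancel₀ _ b0).symm
  obtain ⟨h1, h2, -⟩ := hT n T a b hO
  obtain ⟨k1, k2⟩ := of_rng hO.rng
  have e : ∀ i l j, (T.Mh a b i l j : ℚ) =
      b ^ T.e i * b ^ T.e j / b ^ T.e l * aeval (a / b : ℚ) (T.M i l j) := fun i l j => by
    rw [div_mul_eq_mul_div, eq_div_iff (pow_ne_zero _ b0), (h1 ℚ _ ht).1, pow_add]
    rfl
  refine ⟨crit h2 (fun i l j => ?_) fun i j => Matrix.ext fun p q => Int.cast_injective (α := ℚ) ?_,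
    Int.cast_injective (α := ℚ) ?_⟩
  · simp only [Tb.Mh, Matrix.of_apply, k1 i, add_comm]
  · have := congrArg (fun x => (b : ℚ) ^ T.e i * b ^ T.e j * b ^ T.e q / b ^ T.e p *
      aeval (a / b : ℚ) (x p q)) (k2 i j)
    simp only [Matrix.mul_apply, Matrix.sum_apply, Matrix.smul_apply, smul_eq_mul, map_sum, map_mul,
      mul_sum, Int.cast_sum, Int.cast_mul, e] at this ⊢
    convert this using 2 <;> field_simp
  · have e1 : ((Matrix.of fun i j => (T.Mh a b i * T.Mh a b j).trace).map (Int.castRingHom ℚ)) =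
        Matrix.of fun i j => (b : ℚ) ^ T.e i * Matrix.of (fun i j => (b : ℚ) ^ T.e j *
          (Matrix.of fun i j => (T.M i * T.M j).trace).map (aeval (a / b : ℚ)) i j) i j := by
      ext i j
      simp only [Matrix.map_apply, Matrix.of_apply, Matrix.trace, Matrix.diag, Matrix.mul_apply,
        map_sum, map_mul, eq_intCast, e, mul_sum]
      refine sum_congr rfl fun p _ => sum_congr rfl fun q _ => ?_
      field_simp
    rw [DApi.hv_cast _ _ a b _ (Nat.le_add_right _ _) ht, Int.cast_mul, disc, disc,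
      ← eq_intCast (Int.castRingHom ℚ), RingHom.map_det, RingHom.mapMatrix_apply, e1,
      Matrix.det_mul_column, Matrix.det_mul_row, AlgHom.map_det, prod_pow_eq_pow_sum]
    push_cast
    rw [AlgHom.mapMatrix_apply]
    ring

end Pool.Agent.MP_f3836a_nt.GV
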