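import Pool.Agent.MP_f3836a_nt.GV.SpecE0

/-! Row Scl: the level of the congruences and the scales. -/

set_option autoImplicit false

namespace Pool.Agent.MP_f3836a_nt.GV

open Polynomial Finset VE

namespace GEScl

theorem key {W Nx k0 : ℕ} {u : ℝ} (hW : 2 ≤ W) (hd : W ∣ k0)
    (hr : ∀ l : ℕ, l.Prime → l ∣ k0 → l ∣ W) (hn : ¬Nx ∣ k0.factorization 2) (hu : u ^ 200 = k0)
    (h1 : (W : ℝ) ≤ u) (h0 : 421 ≤ u) : Scl W Nx k0 ((u ^ 2) ^ 10) (u ^ 2) := by
  have h2 : u < u ^ 2 := by nlinarith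
  have h3 : 1 < u ^ 2 := by linarith
  have h4 : u ^ 2 ≤ (u ^ 2) ^ 10 := le_self_pow₀ h3.le (by norm_num)
  refine ⟨⟨hW, hd, hr, by rw [← hu]; ring, by linarith⟩, hn, ⟨rfl, h3, h4, ?_⟩, fun ε h => ?_,
    fun K E hK hE h => ?_⟩
  · rw [Real.log_mul two_ne_zero (by positivity)]
    simp only [Real.log_pow]
    have a1 := Real.log_le_sub_one_of_pos two_pos
    have a2 := Real.log_le_self (show 0 ≤ u by linarith)
    push_cast
    nlinarith
  · rw [← Real.rpow_natCast_mul (by linarith)]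
    refine (Real.rpow_le_rpow_of_exponent_le h3.le ?_).trans (Real.rpow_one _).le
    push_cast
    linarith
  · generalize (u ^ 2) ^ 10 = Y at h h4
    have a1 : 1 ≤ Y ^ E := one_le_pow₀ (by linarith)
    have a2 := Nat.le_ceil (Y ^ E)
    have a3 := (Nat.ceil_lt_add_one (show 0 ≤ Y ^ E by linarith)).le
    have a4 : 0 < ⌈Y ^ E⌉₊ := Nat.ceil_pos.2 (by linarith)
    have a5 : (1 : ℝ) ≤ K := by exact_mod_cast hK
    refine ⟨2 * ⌈Y ^ E⌉₊, by omega, dvd_mul_right _ _, ?_, ?_⟩ <;> push_cast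
    · nlinarith
    · calc _ ≤ (K : ℝ) * (2 * (Y ^ E + Y ^ E)) := by gcongr; linarith
        _ = Y ^ E * (4 * K) := by ring
        _ ≤ _ := by rw [pow_succ]; gcongr

theorem two {W Nx : ℕ} (j : ℕ) (hW : 2 ≤ W) (h2 : 2 ∣ W) (hN : 2 ≤ Nx) :
    ∃ k0 : ℕ, W ^ j ≤ k0 ∧ W ^ j ∣ k0 ∧ (∀ l : ℕ, l.Prime → l ∣ k0 → l ∣ W) ∧
      ¬Nx ∣ k0.factorization 2 := by
  by_cases h : Nx ∣ (W ^ j).factorization 2
  · refine ⟨2 * W ^ j, by omega, dvd_mul_left _ _, fun l a b => ?_, fun e => ?_⟩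
    · exact ((Nat.Prime.dvd_mul a).1 b).elim (fun c => c.trans h2) a.dvd_of_dvd_pow
    · rw [Nat.factorization_mul two_ne_zero (by positivity), Finsupp.add_apply,
        Nat.prime_two.factorization_self] at e
      have := Nat.le_of_dvd one_pos ((Nat.dvd_add_left h).1 e)
      omega
  · exact ⟨W ^ j, le_rfl, dvd_rfl, fun l a b => a.dvd_of_dvd_pow b, h⟩

end GEScl

open GEScl

theorem rW : WG := by
  intro n N W0 w hN hW
  have h : ∀ l : ℕ, l.Prime → l ≤ w + 2 * n + 5 → l ∣ N * W0 * (w + 2 * n + 5).factorial :=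
    fun l a b => (Nat.dvd_factorial a.pos b).mul_left _
  have h0 : 0 < N ^ 2 * (N * W0 * (w + 2 * n + 5).factorial) := by positivity
  refine ⟨N ^ 2 * (N * W0 * (w + 2 * n + 5).factorial), ⟨?_, fun l a b => ?_, _, rfl,
    fun l a b => ?_⟩, ?_, fun l a b => (h l a (by omega)).mul_left _⟩
  · exact Nat.le_of_dvd h0 ((h 5 (by norm_num) (by omega)).mul_left _)
  · exact (h l a (by omega)).mul_left _
  · exact ((Nat.Prime.dvd_mul a).1 b).elim
      (fun c => ((a.dvd_of_dvd_pow c).mul_right _).mul_right _) id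
  · exact ((dvd_mul_left _ _).mul_right _).mul_left _

theorem rScl : SclG := by
  intro W Nx Y1 hW h2 hN
  have hW' : (2 : ℝ) ≤ W := by exact_mod_cast hW
  obtain ⟨s, hs⟩ := pow_unbounded_of_one_lt (|Y1| + 421) (show (1 : ℝ) < W by linarith)
  have h0 := abs_nonneg Y1
  have hs0 : s ≠ 0 := by
    rintro rfl
    rw [pow_zero] at hs
    linarith
  have h1 : (W : ℝ) ≤ W ^ s := le_self_pow₀ (by linarith) hs0
  obtain ⟨k0, a, b, c, e⟩ := two (s * 200) hW h2 hN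
  obtain ⟨u, hu0, hu⟩ : ∃ u : ℝ, 0 ≤ u ∧ u ^ 200 = k0 :=
    ⟨_, Real.rpow_nonneg (Nat.cast_nonneg _) _,
      Real.rpow_inv_natCast_pow (Nat.cast_nonneg _) (by norm_num)⟩
  have h3 : (W : ℝ) ^ s ≤ u := by
    refine le_of_pow_le_pow_left₀ (n := 200) (by norm_num) hu0 ?_
    rw [hu, ← pow_mul]
    exact_mod_cast a
  refine ⟨k0, _, _, ?_, key hW ((dvd_pow_self W (by omega)).trans b) c e hu (by linarith)
    (by linarith)⟩
  nlinarith [le_abs_self Y1]

end Pool.Agent.MP_f3836a_nt.GV
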