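import Pool.Agent.MP_f3836a_nt.GV.SpecE0
import Pool.Agent.MP_f3836a_nt.VE.DApi

/-! Few small primes divide the values of a form on most small curves. -/

set_option autoImplicit false

namespace Pool.Agent.MP_f3836a_nt.GV

open Polynomial Finset VE

namespace GESig

lemma size (f : ℤ[X]) (D : ℕ) (t0 : ℤ) : ∃ Cf : ℝ, ∀ a b : ℤ, 0 < b → t0 * b ≤ a →
    a ≤ (t0 + 1) * b → |((hv f D a b : ℤ) : ℝ)| ≤ Cf * (b : ℝ) ^ D := by
  refine ⟨∑ i ∈ range (D + 1), |(f.coeff i : ℝ)| * (|(t0 : ℝ)| + 1) ^ i, fun a b hb h1 h2 => ?_⟩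
  have b0 : (0 : ℝ) < b := by exact_mod_cast hb
  have g1 : (t0 : ℝ) * b ≤ a := by exact_mod_cast h1
  have g2 : (a : ℝ) ≤ (t0 + 1) * b := by exact_mod_cast h2
  have g3 : |(a : ℝ)| ≤ (|(t0 : ℝ)| + 1) * b := by
    have e1 := mul_le_mul_of_nonneg_right (le_abs_self (t0 : ℝ)) b0.le
    have e2 := mul_le_mul_of_nonneg_right (neg_abs_le (t0 : ℝ)) b0.le
    rw [abs_le]
    constructor <;> nlinarith
  rw [hv, sum_mul]
  push_cast
  refine (abs_sum_le_sum_abs _ _).trans (sum_le_sum fun i hi => ?_)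
  obtain ⟨j, rfl⟩ := Nat.exists_eq_add_of_le (Nat.lt_succ_iff.1 (mem_range.1 hi))
  rw [Nat.add_sub_cancel_left, abs_mul, abs_mul, abs_pow, abs_pow, abs_of_pos b0, pow_add]
  have g4 := pow_le_pow_left₀ (abs_nonneg _) g3 i
  rw [mul_pow] at g4
  calc _ ≤ |(f.coeff i : ℝ)| * ((|(t0 : ℝ)| + 1) ^ i * (b : ℝ) ^ i) * (b : ℝ) ^ j := by gcongr
    _ = _ := by ring

lemma cls {f : ℤ[X]} {D : ℕ} (h3 : f.natDegree ≤ D) {l : ℕ} (hl : l.Prime)
    (h1 : ¬(l : ℤ) ∣ f.leadingCoeff) {b : ℤ} (hb : ¬(l : ℤ) ∣ b)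
    (H : Finset ℤ) {B : ℝ} (hB : 0 ≤ B)
    (h : ∀ r : ℤ, ((H.filter fun a => (l : ℤ) ∣ a - r).card : ℝ) ≤ B) :
    ((H.filter fun a => (l : ℤ) ∣ hv f D a b).card : ℝ) ≤ D * B := by
  have := Fact.mk hl
  set q := f.map (Int.castRingHom (ZMod l)) with hq
  have m : q ≠ 0 := fun e => h1 (by
    have := congrArg (fun p => coeff p f.natDegree) e
    simp only [hq, coeff_map, coeff_zero, eq_intCast] at this
    exact (ZMod.intCast_zmod_eq_zero_iff_dvd _ _).1 this)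
  have hb' : (b : ZMod l) ≠ 0 := fun e => hb ((ZMod.intCast_zmod_eq_zero_iff_dvd _ _).1 e)
  have c : q.roots.toFinset.card ≤ D := (Multiset.toFinset_card_le _).trans ((card_roots' q).trans
    (natDegree_map_le.trans h3))
  have s : (H.filter fun a => (l : ℤ) ∣ hv f D a b) ⊆
      q.roots.toFinset.biUnion fun r => H.filter fun a => (l : ℤ) ∣ a - b * (r.val : ℤ) := by
    intro a ha
    obtain ⟨a1, a2⟩ := mem_filter.1 ha
    have e0 : (a : ZMod l) = b * ((a : ZMod l) / b) := by field_simp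
    refine mem_biUnion.2 ⟨(a : ZMod l) / b, ?_, mem_filter.2 ⟨a1, ?_⟩⟩
    · have e := DApi.hv_cast f D a b _ h3 e0
      rw [(ZMod.intCast_zmod_eq_zero_iff_dvd _ _).2 a2] at e
      rw [Multiset.mem_toFinset, mem_roots m, IsRoot, hq, eval_map, ← algebraMap_int_eq,
        ← aeval_def]
      exact (mul_eq_zero.1 e.symm).resolve_left (pow_ne_zero _ hb')
    · rw [← ZMod.intCast_zmod_eq_zero_iff_dvd]
      push_cast
      rw [ZMod.natCast_zmod_val, ← e0, sub_self]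
  calc _ ≤ ((∑ r ∈ q.roots.toFinset,
        (H.filter fun a => (l : ℤ) ∣ a - b * (r.val : ℤ)).card : ℕ) : ℝ) := by
        exact_mod_cast (card_le_card s).trans card_biUnion_le
    _ ≤ q.roots.toFinset.card • B := by
        rw [Nat.cast_sum]; exact sum_le_card_nsmul _ _ _ fun r _ => h _
    _ ≤ D * B := by
        rw [nsmul_eq_mul]; exact mul_le_mul_of_nonneg_right (by exact_mod_cast c) hB

lemma big {A E : ℕ} {Y : ℝ} (hA : 0 < A) (hE : 1 ≤ E) (hY : 2 * (E : ℝ) ≤ Y) (h : (A : ℝ) ≤ Y ^ E) :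
    ∑ l ∈ A.primeFactors.filter fun l : ℕ => ¬(l : ℝ) ≤ Y, (1 : ℝ) / l ≤ 1 / 2 := by
  set S := A.primeFactors.filter fun l : ℕ => ¬(l : ℝ) ≤ Y
  have hE' : (1 : ℝ) ≤ E := by exact_mod_cast hE
  have h1 : Y ^ S.card ≤ Y ^ E := by
    calc Y ^ S.card = ∏ _l ∈ S, Y := (prod_const Y).symm
      _ ≤ ∏ l ∈ S, (l : ℝ) :=
          prod_le_prod (fun _ _ => by linarith) fun l hl => (not_le.1 (mem_filter.1 hl).2).le
      _ ≤ A := by
          rw [← Nat.cast_prod]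
          exact Nat.cast_le.2 (Nat.le_of_dvd hA
            ((prod_dvd_prod_of_subset _ _ _ (filter_subset _ _)).trans A.prod_primeFactors_dvd))
      _ ≤ _ := h
  have h2 : (S.card : ℝ) ≤ E := by
    exact_mod_cast (pow_le_pow_iff_right₀ (by linarith)).1 h1
  have h3 : (0 : ℝ) < 2 * E := by linarith
  refine (sum_le_card_nsmul S (fun l : ℕ => (1 : ℝ) / l) (1 / (2 * (E : ℝ))) fun l hl =>
    one_div_le_one_div_of_le h3 (hY.trans (not_le.1 (mem_filter.1 hl).2).le)).trans ?_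
  rw [nsmul_eq_mul, mul_one_div, div_le_div_iff₀ (by linarith) (by norm_num)]
  linarith

end GESig

open GESig in
theorem rSig : GV.OfSig := by
  intro hC hS f D t0 δ f0 fD hδ
  obtain ⟨Cf, hf⟩ := size f D t0
  set c : ℝ := 4 * (D + 1) / δ with hc
  refine ⟨max ⌈c⌉₊ f.leadingCoeff.natAbs, max Cf (max (2 * ((20 * D + 1 : ℕ) : ℝ)) c),
    fun W k Y hY sc hw => ?_⟩
  simp only [max_le_iff] at hY
  obtain ⟨y1, y2, y3⟩ := hY
  obtain ⟨y4, k0, l1, -, l2, -, l3, l4, -⟩ := hS W k Y sc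
  have W0 : 0 < W := by have := sc.two; omega
  have y0 : 0 < Y := by linarith
  have L0 : 0 < Lc W k := (pow_pos y0 _).trans_le l1
  have w0 : 0 < c := by positivity
  have w1 : c ≤ ((max ⌈c⌉₊ f.leadingCoeff.natAbs : ℕ) : ℝ) :=
    (Nat.le_ceil _).trans (Nat.cast_le.2 (le_max_left _ _))
  have w2 : f.leadingCoeff.natAbs ≤ max ⌈c⌉₊ f.leadingCoeff.natAbs := le_max_right _ _
  have w3 : 0 < f.leadingCoeff.natAbs := Int.natAbs_pos.2 (leadingCoeff_ne_zero.2 f0)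
  generalize max ⌈c⌉₊ f.leadingCoeff.natAbs = w at hw w1 w2
  set P := (Ioc w ⌊Y⌋₊).filter fun l => l.Prime ∧ ¬l ∣ W with hP
  set H := HH0 t0 W k
  have key : ∀ a ∈ H, 1 < sig W (hv f D a ((k : ℤ) ^ 2)) →
      1 / 2 ≤ ∑ l ∈ P, if (l : ℤ) ∣ hv f D a ((k : ℤ) ^ 2) then (1 : ℝ) / l else 0 := fun a ha h => by
    obtain ⟨a1, a2⟩ := l4 t0 a ha
    have a3 := hf a ((k : ℤ) ^ 2) (by positivity) a1.le a2.le
    generalize hv f D a ((k : ℤ) ^ 2) = r at h a3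
    have a0 : 0 < r.natAbs := Nat.pos_of_ne_zero fun e => by
      rw [sig, e] at h
      simp at h
      linarith
    have a4 : (r.natAbs : ℝ) ≤ Y ^ (20 * D + 1) := by
      rw [Nat.cast_natAbs, Int.cast_abs]
      push_cast at a3
      rw [l2, ← pow_mul] at a3
      exact a3.trans (by rw [pow_succ' Y (20 * D)]; gcongr)
    have a6 := big a0 (by omega) y2 a4
    rw [sig, ← sum_filter_add_sum_filter_not _ fun l : ℕ => (l : ℝ) ≤ Y] at h
    have a7 : ∑ l ∈ (r.natAbs.primeFactors.filter fun l => ¬l ∣ W).filter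
        fun l : ℕ => ¬(l : ℝ) ≤ Y, (1 : ℝ) / l ≤
        ∑ l ∈ r.natAbs.primeFactors.filter fun l : ℕ => ¬(l : ℝ) ≤ Y, (1 : ℝ) / l :=
      sum_le_sum_of_subset_of_nonneg (filter_subset_filter _ (filter_subset _ _))
        fun _ _ _ => by positivity
    rw [← sum_filter]
    refine le_trans (by linarith) (sum_le_sum_of_subset_of_nonneg
      (s := (r.natAbs.primeFactors.filter fun l => ¬l ∣ W).filter fun l : ℕ => (l : ℝ) ≤ Y)
      (fun l hl => ?_) fun _ _ _ => by positivity)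
    obtain ⟨b1, b2⟩ := mem_filter.1 hl
    obtain ⟨b1, b5⟩ := mem_filter.1 b1
    have b3 := Nat.prime_of_mem_primeFactors b1
    have b4 : (l : ℤ) ∣ r := Int.natCast_dvd.2 (Nat.dvd_of_mem_primeFactors b1)
    exact mem_filter.2 ⟨mem_filter.2 ⟨mem_Ioc.2 ⟨not_le.1 fun e => b5 (hw l b3 e),
      Nat.le_floor b2⟩, b3, b5⟩, b4⟩
  have s1 : ∑ l ∈ Ioc w ⌊Y⌋₊, ((l : ℝ) ^ 2)⁻¹ ≤ c⁻¹ := by
    by_cases e : w ≤ ⌊Y⌋₊
    · refine (sum_Ioc_inv_sq_le_sub (by omega) e).trans ?_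
      have : (w : ℝ)⁻¹ ≤ c⁻¹ := inv_anti₀ w0 w1
      have : (0 : ℝ) ≤ (⌊Y⌋₊ : ℝ)⁻¹ := by positivity
      linarith
    · rw [Ioc_eq_empty (by omega), sum_empty]; positivity
  have D0 : (0 : ℝ) ≤ D := Nat.cast_nonneg _
  have s3 : (D : ℝ) * c⁻¹ ≤ δ / 4 := by
    rw [hc, inv_div, ← mul_div_assoc, div_le_div_iff₀ (by positivity) (by norm_num)]
    nlinarith
  have s2 : 4 * (D * Y) ≤ δ * Lc W k := by
    rw [hc, div_le_iff₀ hδ] at y3
    have h1 : Y ^ 2 ≤ Y ^ 19 := pow_le_pow_right₀ (by linarith) (by norm_num)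
    have h2 := mul_le_mul_of_nonneg_left y3 y0.le
    have h3 := mul_le_mul_of_nonneg_left (h1.trans l1) hδ.le
    nlinarith
  have main : (((H.filter fun a => 1 < sig W (hv f D a ((k : ℤ) ^ 2))).card : ℕ) : ℝ) * (1 / 2)
      ≤ δ * Lc W k / 2 := by
    calc _ = ∑ _a ∈ H.filter fun a => 1 < sig W (hv f D a ((k : ℤ) ^ 2)), (1 / 2 : ℝ) := by simp
    _ ≤ ∑ a ∈ H, ∑ l ∈ P, if (l : ℤ) ∣ hv f D a ((k : ℤ) ^ 2) then (1 : ℝ) / l else 0 :=
        (sum_le_sum fun a ha => key a (mem_filter.1 ha).1 (mem_filter.1 ha).2).trans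
          (sum_le_sum_of_subset_of_nonneg (filter_subset _ _) fun _ _ _ => by positivity)
    _ ≤ ∑ l ∈ P, (D * Lc W k * ((l : ℝ) ^ 2)⁻¹ + D) := by
        rw [sum_comm]
        refine sum_le_sum fun l hl => ?_
        obtain ⟨b0, b1, b2⟩ := mem_filter.1 hl
        have b3 : (1 : ℝ) ≤ l := by exact_mod_cast b1.one_le
        have b5 : ¬(l : ℤ) ∣ f.leadingCoeff := fun e => by
          have := Nat.le_of_dvd w3 (Int.natCast_dvd.1 e)
          have := (mem_Ioc.1 b0).1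
          omega
        have b4 := cls fD b1 b5 (l3 l b1 b2) H (B := Lc W k / l + 1) (by positivity)
          fun r => by
            have := ((hC.1 t0 W k W0 sc.dvd).2 l r b1.pos (b1.coprime_iff_not_dvd.2 b2))
            linarith [(abs_le.1 this).2]
        rw [← sum_filter, sum_const, nsmul_eq_mul]
        refine (mul_le_mul_of_nonneg_right b4 (by positivity)).trans ?_
        have h1 : 1 / (l : ℝ) ≤ 1 := by rw [div_le_one (by linarith)]; exact b3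
        have e : D * (Lc W k / l + 1) * (1 / l) = D * Lc W k * ((l : ℝ) ^ 2)⁻¹ + D * (1 / l) := by
          ring
        have h2 := mul_le_mul_of_nonneg_left h1 D0
        linarith
    _ ≤ ∑ l ∈ Ioc w ⌊Y⌋₊, (D * Lc W k * ((l : ℝ) ^ 2)⁻¹ + D) :=
        sum_le_sum_of_subset_of_nonneg (filter_subset _ _) fun _ _ _ => by positivity
    _ ≤ δ * Lc W k / 2 := by
        rw [sum_add_distrib, ← mul_sum, sum_const, nsmul_eq_mul, Nat.card_Ioc]
        have h1 : ((⌊Y⌋₊ - w : ℕ) : ℝ) ≤ Y :=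
          (Nat.cast_le.2 (Nat.sub_le _ _)).trans (Nat.floor_le y0.le)
        have h2 := mul_le_mul_of_nonneg_right h1 D0
        have h3 := mul_le_mul_of_nonneg_left s1 (mul_nonneg D0 L0.le)
        have h4 := mul_le_mul_of_nonneg_left s3 L0.le
        nlinarith
  linarith

end Pool.Agent.MP_f3836a_nt.GV
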