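import Pool.Agent.MP_f3836a_nt.GV.SpecD
import Pool.Agent.MP_f3836a_nt.VE.DBad

/-! The degenerate classes are rare: a union bound. -/

set_option autoImplicit false

namespace Pool.Agent.MP_f3836a_nt.GV

open Finset VE

namespace GDBad

lemma E_le2 {n : ℕ} (Γ : GV.Gf n) (P : Γ.I → Prop) (s : Finset Pt) (t : Finset ℕ)
    (P1 : Pt → Γ.I → Prop) (P2 : ℕ → Γ.I → Prop)
    (h : ∀ x, P x → (∃ i ∈ s, P1 i x) ∨ ∃ i ∈ t, P2 i x) :
    Γ.E (fun x => ind (P x)) ≤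
      ∑ i ∈ s, Γ.E (fun x => ind (P1 i x)) + ∑ i ∈ t, Γ.E (fun x => ind (P2 i x)) := by
  unfold GV.Gf.E GV.Eb
  rw [← sum_div, ← sum_div, ← add_div]
  refine div_le_div_of_nonneg_right ?_ (Nat.cast_nonneg _)
  rw [sum_comm (s := s), sum_comm (s := t), ← sum_add_distrib]
  refine sum_le_sum fun x _ => ?_
  have h1 : 0 ≤ ∑ i ∈ s, ind (P1 i x) := sum_nonneg fun i _ => DBad.ind_nonneg _
  have h2 : 0 ≤ ∑ i ∈ t, ind (P2 i x) := sum_nonneg fun i _ => DBad.ind_nonneg _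
  by_cases hP : P x
  · rw [DBad.ind_true hP]
    rcases h x hP with ⟨i, hi, hp⟩ | ⟨i, hi, hp⟩
    · have := single_le_sum (f := fun i => ind (P1 i x)) (fun i _ => DBad.ind_nonneg _) hi
      simp only [DBad.ind_true hp] at this
      linarith
    · have := single_le_sum (f := fun i => ind (P2 i x)) (fun i _ => DBad.ind_nonneg _) hi
      simp only [DBad.ind_true hp] at this
      linarith
  · have : ind (P x) = 0 := by unfold ind; rw [if_neg hP]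
    linarith

lemma res_le {n : ℕ} {B : ℝ} {c c' : ℤ} {Γ : GV.Gf n} (h : Γ.Ht B c) (h' : Γ.Ht B c') :
    ((Γ.res c c').natAbs : ℝ) ≤ (2 * B) ^ 2 := by
  have e : ((Γ.res c c').natAbs : ℝ) = |(c : ℝ) * (Γ.b : ℝ) - (c' : ℝ) * (Γ.b : ℝ)| := by
    rw [Nat.cast_natAbs, Int.cast_abs]; simp [GV.Gf.res]
  have hB : 0 ≤ B := (abs_nonneg _).trans h.1
  have hb : (0 : ℝ) ≤ (Γ.b : ℝ) := by
    have : (0 : ℤ) ≤ Γ.b := sq_nonneg _
    exact_mod_cast this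
  have h1 : |(c : ℝ) * (Γ.b : ℝ)| ≤ B * B := by
    rw [abs_mul, abs_of_nonneg hb]
    exact mul_le_mul h.1 h.2.1 hb hB
  have h2 : |(c' : ℝ) * (Γ.b : ℝ)| ≤ B * B := by
    rw [abs_mul, abs_of_nonneg hb]
    exact mul_le_mul h'.1 h.2.1 hb hB
  rw [e]
  have := abs_sub ((c : ℝ) * (Γ.b : ℝ)) ((c' : ℝ) * (Γ.b : ℝ))
  nlinarith

end GDBad

open GDBad in
theorem rBad : GV.OfBad := by
  intro hB n inst C Φ Γ B V Λ Ym q0 Pm ε K Tm a l T hΓ hΦ hC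
  classical
  obtain ⟨hB2, hV, hΛ, hYm, hq0, hPm, hε, -, -⟩ := hΦ.num
  obtain ⟨had, hle, hoff⟩ := hC.ad a (List.mem_cons_self ..)
  have hVp : ∀ z ∈ T, Γ.Vp z := fun z hz => (hC.pt z hz).1
  obtain ⟨p1, p2⟩ := hB n Γ (Φ.cu a.1) T hΓ hC.nd hVp
  have hn : (0 : ℝ) < n := by exact_mod_cast Nat.pos_of_ne_zero (NeZero.ne n)
  set R : ℕ := (l.map fun b => (Γ.res (Φ.cu a.1) (Φ.cu b.1)).natAbs).prod with hRdef
  have hR0 : R ≠ 0 := by
    rw [hRdef]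
    refine List.prod_ne_zero fun h => ?_
    obtain ⟨b, hb, h0⟩ := List.mem_map.1 h
    have hnd := hC.nodup
    rw [List.map_cons, List.nodup_cons] at hnd
    have h1 : Φ.cu a.1 * Γ.b - Φ.cu b.1 * Γ.b = 0 := Int.natAbs_eq_zero.1 h0
    have hk : Γ.b ≠ 0 := pow_ne_zero 2 (by exact_mod_cast hΓ.pos.2.2.1.ne')
    have h2 : a.1 = b.1 := hΦ.inj (mul_right_cancel₀ hk (sub_eq_zero.1 h1))
    exact hnd.1 (h2 ▸ List.mem_map_of_mem hb)
  have hRy : (R : ℝ) ≤ (2 * B) ^ 4 := by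
    have hl : l.length ≤ 2 := by have := hC.len; simp at this; omega
    have := DBad.prod_le l (fun b => (Γ.res (Φ.cu a.1) (Φ.cu b.1)).natAbs) ((2 * B) ^ 2)
      (one_le_pow₀ (by linarith)) hl (fun b _ => res_le (hΦ.cu a.1).2 (hΦ.cu b.1).2)
    calc (R : ℝ) ≤ ((2 * B) ^ 2) ^ 2 := this
      _ = _ := by ring
  set t : Finset ℕ := R.primeFactors.filter fun q => q0 ≤ q ∧ ¬q ∣ Γ.lev (Φ.cu a.1) ∧
    ∀ z ∈ a.2.1, z.p ≠ q with htdef
  have hnT : 0 < nT T := by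
    unfold nT
    refine Multiset.prod_pos fun p hp => ?_
    obtain ⟨z, hz, rfl⟩ := Multiset.mem_map.1 hp
    exact (hΓ.alg.bas z.p z.t (hVp z hz).1.1).1.pos
  have hnT' : (0 : ℝ) < nT T := by exact_mod_cast hnT
  have hPT : 1 / Pm ≤ PT T := one_div_le_one_div_of_le hnT' hC.size
  have hPT0 : 0 ≤ PT T := le_trans (by positivity) hPT
  have hH : (0 : ℝ) < Γ.H1 := by exact_mod_cast hΓ.pos.2.2.2
  have hcard : (T.card : ℝ) ≤ Tm := by exact_mod_cast hC.card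
  have hsize := hC.size
  have hE := E_le2 Γ (Φ.Bad Γ q0 a l T) a.2.1.toFinset t
    (fun z0 x => (∀ z ∈ T, Γ.zr x z) ∧ (z0.p : ℤ) ^ 2 ∣ Γ.nm (Φ.cu a.1) x)
    (fun q x => (∀ z ∈ T, Γ.zr x z) ∧ (q : ℤ) ∣ Γ.nm (Φ.cu a.1) x) (by
      rintro x ⟨h1, ⟨z, hz, h2⟩ | ⟨b, hb, q, hq, h2, h3, h4, h5, h6⟩⟩
      · exact Or.inl ⟨z, Multiset.mem_toFinset.2 hz, h1, h2⟩
      · refine Or.inr ⟨q, mem_filter.2 ⟨Nat.mem_primeFactors.2 ⟨hq, ?_, hR0⟩, h2, h3, h5⟩, h1, h6⟩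
        exact (Int.natCast_dvd.1 h4).trans (List.dvd_prod (List.mem_map_of_mem
          (f := fun b : C × Multiset Pt × ℕ => (Γ.res (Φ.cu a.1) (Φ.cu b.1)).natAbs) hb)))
  have s1 := sum_le_card_nsmul a.2.1.toFinset (fun z0 : Pt => Γ.E fun x =>
      ind ((∀ z ∈ T, Γ.zr x z) ∧ (z0.p : ℤ) ^ 2 ∣ Γ.nm (Φ.cu a.1) x))
    (2 * n / q0 * PT T + 64 * n ^ 2 * Γ.m * (Tm + 1) * Pm ^ 4 / Γ.H1) (fun z0 hz0 => by
      have hz := Multiset.mem_toFinset.1 hz0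
      have hzT := Multiset.mem_of_le hle hz
      have h1 := (hC.pt z0 hzT).2
      refine (p2 z0 hzT (((hΦ.ad _ _ _ had).1 z0 hz).1)).trans ?_
      gcongr)
  have s2 := sum_le_card_nsmul t (fun q : ℕ => Γ.E fun x =>
      ind ((∀ z ∈ T, Γ.zr x z) ∧ (q : ℤ) ∣ Γ.nm (Φ.cu a.1) x))
    (2 * n / q0 * PT T + 64 * n ^ 2 * Γ.m * (Tm + 1) * (Pm * (2 * B) ^ 4) ^ 2 / Γ.H1)
    (fun q hq => by
      obtain ⟨h1, h2, h3, h4⟩ := mem_filter.1 hq
      have h5 : (q : ℝ) ≤ (2 * B) ^ 4 :=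
        le_trans (by exact_mod_cast Nat.le_of_mem_primeFactors h1) hRy
      refine (p1 q (Nat.prime_of_mem_primeFactors h1) h3 fun z hz e =>
        (hoff z hz).resolve_left fun hz' => h4 z hz' e).trans ?_
      gcongr)
  rw [nsmul_eq_mul] at s1 s2
  have hlog : 1 ≤ Real.log (2 * B) := by
    rw [Real.le_log_iff_exp_le (by linarith)]
    linarith [Real.exp_one_lt_d9]
  have e1 : (2 : ℝ) * n / q0 = 2 / (q0 / n) := by rw [div_div_eq_mul_div]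
  have e2 : (64 : ℝ) * n ^ 2 * Γ.m = 64 * (n ^ 2 * Γ.m) := by ring
  rw [e1, e2] at s1 s2
  have h5 : 5 ≤ Γ.m := le_trans (Nat.le_add_left _ _) (hΓ.five 0)
  refine DBad.numeric _ (PT T) (Real.log (2 * B)) (2 * B) ((Ym * Λ) ^ 3) (n ^ 2 * Γ.m) Tm Γ.W V Pm
    Γ.H1 (q0 / n) ε a.2.1.toFinset.card t.card Γ.m hPT hPm (by linarith) hlog
    ((Real.log_le_sub_one_of_pos (by linarith)).trans (by linarith)) (by positivity)
    (by positivity) (Nat.cast_nonneg _) (by exact_mod_cast hΓ.pos.1) hV hH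
    (div_pos (by linarith) hn) hε h5 ?_ ?_ ?_ ?_ (hE.trans (add_le_add s1 s2))
  · exact_mod_cast (Multiset.toFinset_card_le _).trans ((Multiset.card_le_card hle).trans hC.card)
  · refine DBad.card_le R hR0 t (filter_subset _ _) (fun q hq => ?_) (2 * B) (by linarith) hRy
    have := (mem_filter.1 hq).2.1
    exact_mod_cast hq0.trans this
  · rw [← mul_div_assoc, le_div_iff₀ hn]
    have := hΦ.deg
    linarith
  · have := hΦ.bdy
    linarith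

end Pool.Agent.MP_f3836a_nt.GV
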