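import Pool.Agent.MP_f3836a_nt.GV.SpecD
import Pool.Agent.MP_f3836a_nt.VE.DEq

/-! Equidistribution in the big curve, by induction on the list of small curves. -/

set_option autoImplicit false

namespace Pool.Agent.MP_f3836a_nt.GV

open Finset VE

namespace GDEq

open VE.DEq (prod_ge prod_le le_prod pp_ge PT_add PT_cons PT_nonneg)

variable {n : ℕ} [NeZero n] {C : Type} {Φ : Fam n C} {Γ : Gf n} {B V Λ Ym q0 Pm ε K : ℝ} {Tm : ℕ}
  {l : List (C × Multiset Pt × ℕ)} {T : Multiset Pt}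

theorem vp_prime (hΓ : Γ.Ok) {z : Pt} (h : Γ.Vp z) : z.p.Prime := (hΓ.alg.bas _ _ h.1.1).1

theorem nT_pos (hΓ : Γ.Ok) (h : ∀ z ∈ T, Γ.Vp z) : 0 < nT T :=
  Multiset.prod_pos fun x hx => by
    obtain ⟨z, hz, rfl⟩ := Multiset.mem_map.1 hx
    exact (vp_prime hΓ (h z hz)).pos

theorem nT_mono (hΓ : Γ.Ok) {T' : Multiset Pt} (h : ∀ z ∈ T, Γ.Vp z) (e : T' ≤ T) :
    nT T' ≤ nT T :=
  Nat.le_of_dvd (nT_pos hΓ h) (Multiset.prod_dvd_prod_of_le (Multiset.map_le_map e))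

theorem eta_ge (h : 2 ≤ K) (c c' : C) : 1 ≤ 1 + Φ.eta Γ K c c' ∧
    ((∃ q ∈ Φ.LL c, (q : ℤ) ∣ Γ.res (Φ.cu c) (Φ.cu c')) → 2 ≤ 1 + Φ.eta Γ K c c') := by
  have h1 : 1 ≤ Real.exp (4 * sig Γ.W (Γ.res (Φ.cu c) (Φ.cu c'))) :=
    Real.one_le_exp (mul_nonneg (by norm_num) (sum_nonneg fun _ _ => by positivity))
  rw [Fam.eta, add_sub_cancel]
  have h2 : 1 ≤ et1 Γ.W (Φ.LL c) K (Γ.res (Φ.cu c) (Φ.cu c')) := by
    unfold et1
    split_ifs with e <;> nlinarith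
  refine ⟨one_le_pow₀ h2, fun e => le_trans ?_ (le_self_pow₀ h2 (NeZero.ne n))⟩
  unfold et1
  rw [if_pos e]
  nlinarith

theorem xi_bd (hΦ : Φ.Ok Γ B V Λ Ym q0 Pm ε K Tm) (hc : Φ.Cf Γ q0 Pm Tm l T) (x : Γ.I) :
    0 ≤ (l.map fun a => Φ.Y Γ a.1 a.2.1 a.2.2 x).prod ∧
      (l.map fun a => Φ.Y Γ a.1 a.2.1 a.2.2 x).prod ≤ Ym ^ 3 := by
  obtain ⟨h1, h2⟩ := prod_le (l.map fun a => Φ.Y Γ a.1 a.2.1 a.2.2 x) (M := Ym) fun y hy => by
    obtain ⟨a, ha, rfl⟩ := List.mem_map.1 hy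
    refine ⟨div_nonneg (sum_nonneg fun s _ => mul_nonneg
      (prod_nonneg fun i _ => (hΦ.st _ _ (s i).2).1) ?_) (hΦ.rho _).le,
      (hΦ.ad _ _ _ (hc.ad a ha).1).2.2.2 x⟩
    unfold ind
    split_ifs <;> norm_num
  exact ⟨h1, h2.trans (pow_le_pow_right₀ hΦ.num.2.2.2.1 (by simpa using hc.len))⟩

theorem ey_nonneg (hΦ : Φ.Ok Γ B V Λ Ym q0 Pm ε K Tm) (hc : Φ.Cf Γ q0 Pm Tm l T) :
    0 ≤ Φ.EY Γ l T :=
  div_nonneg (sum_nonneg fun x _ => mul_nonneg (by unfold ind; split_ifs <;> norm_num)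
    (xi_bd hΦ hc x).1) (Nat.cast_nonneg _)

theorem my_ge (hΓ : Γ.Ok) (hΦ : Φ.Ok Γ B V Λ Ym q0 Pm ε K Tm) (hc : Φ.Cf Γ q0 Pm Tm l T) :
    1 / Pm * (1 / Λ) ^ 3 ≤ Φ.MY l T := by
  have hΛ := hΦ.num.2.2.1
  have h0 : 0 ≤ 1 / Λ := by positivity
  have h1 := le_prod (l.map fun a => Φ.fm a.1 a.2.1 a.2.2) h0 fun y hy => by
    obtain ⟨a, ha, rfl⟩ := List.mem_map.1 hy
    exact (hΦ.ad _ _ _ (hc.ad a ha).1).2.1
  refine mul_le_mul (one_div_le_one_div_of_le ?_ hc.size) ((pow_le_pow_of_le_one h0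
    ((div_le_one (by linarith)).2 hΛ) (by simpa using hc.len)).trans h1) (by positivity)
    (PT_nonneg T)
  exact_mod_cast nT_pos hΓ fun z hz => (hc.pt z hz).1

theorem cf_sub (hΓ : Γ.Ok) (hc : Φ.Cf Γ q0 Pm Tm l T) {T' : Multiset Pt} (e : T' ≤ T)
    (h : ∀ a ∈ l, a.2.1 ≤ T') : Φ.Cf Γ q0 Pm Tm l T' where
  len := hc.len
  nodup := hc.nodup
  nd := Multiset.nodup_of_le (Multiset.map_le_map e) hc.nd
  card := (Multiset.card_le_card e).trans hc.card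
  size := le_trans (by exact_mod_cast nT_mono hΓ (fun z hz => (hc.pt z hz).1) e) hc.size
  pt z hz := hc.pt z (Multiset.mem_of_le e hz)
  ad a ha := ⟨(hc.ad a ha).1, h a ha, fun z hz => (hc.ad a ha).2.2 z (Multiset.mem_of_le e hz)⟩

omit [NeZero n] in
theorem cf_tail {a : C × Multiset Pt × ℕ} (hc : Φ.Cf Γ q0 Pm Tm (a :: l) T) :
    Φ.Cf Γ q0 Pm Tm l T where
  len := (Nat.le_succ _).trans hc.len
  nodup := (List.nodup_cons.1 hc.nodup).2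
  nd := hc.nd
  card := hc.card
  size := hc.size
  pt := hc.pt
  ad b hb := hc.ad b (List.mem_cons_of_mem _ hb)

theorem rem (hP : GV.MvPS) (hΓ : Γ.Ok) (hΦ : Φ.Ok Γ B V Λ Ym q0 Pm ε K Tm)
    (hT : ∀ a ∈ l, a.2.1 ≤ T) (S : Multiset Pt) (hc : Φ.Cf Γ q0 Pm Tm l (S + T))
    (hS : ∀ z ∈ S, ∀ a ∈ l, z ∉ a.2.1) : |Φ.EY Γ l (S + T) - PT S * Φ.EY Γ l T| ≤
      S.card * (2 * n * Γ.m * Ym ^ 3 * (Pm * (2 * B) ^ 3) / Γ.H1) := by
  induction S using Multiset.induction_on with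
  | empty => simp [PT, nT]
  | cons z S ih =>
    rw [Multiset.cons_add] at hc ⊢
    have hB := hΦ.num.1
    have hY := hΦ.num.2.2.2.1
    have h1 := ih (cf_sub hΓ hc (Multiset.le_cons_self _ _) fun a ha =>
      (hT a ha).trans (Multiset.le_add_left _ _)) fun y hy => hS y (Multiset.mem_cons_of_mem hy)
    have h2 := hP n Γ (l.map fun a => Φ.cu a.1) (S + T) z B (Ym ^ 3)
      (fun x => (l.map fun a => Φ.Y Γ a.1 a.2.1 a.2.2 x).prod) hΓ (by simpa using hc.len)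
      (fun c h => by
        obtain ⟨a, ha, rfl⟩ := List.mem_map.1 h
        exact ⟨(hΦ.cu _).2,
          ((hc.ad a ha).2.2 z (Multiset.mem_cons_self _ _)).resolve_left
            (hS z (Multiset.mem_cons_self _ _) a ha)⟩) hB hc.nd (fun y hy => (hc.pt y hy).1)
      (fun x => by
        obtain ⟨a1, a2⟩ := xi_bd hΦ hc x
        exact (abs_of_nonneg a1).trans_le a2) fun x y h => congrArg List.prod (List.map_congr_left fun a ha => by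
          rw [Fam.Y, Fam.Y, h _ (List.mem_map_of_mem ha)])
    have h3 : 2 * n * Γ.m * Ym ^ 3 * ((nT (z ::ₘ (S + T)) : ℝ) * (2 * B) ^ 3) / Γ.H1 ≤
        2 * n * Γ.m * Ym ^ 3 * (Pm * (2 * B) ^ 3) / Γ.H1 := by
      gcongr
      exact hc.size
    have h4 : 1 / (z.p : ℝ) ≤ 1 := by
      have := (vp_prime hΓ (hc.pt z (Multiset.mem_cons_self _ _)).1).one_le
      exact (div_le_one (by exact_mod_cast this)).2 (by exact_mod_cast this)
    have h5 : |1 / (z.p : ℝ) * (Φ.EY Γ l (S + T) - PT S * Φ.EY Γ l T)| ≤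
        |Φ.EY Γ l (S + T) - PT S * Φ.EY Γ l T| := by
      rw [abs_mul, abs_of_nonneg (by positivity)]
      exact mul_le_of_le_one_left (abs_nonneg _) h4
    change |Φ.EY Γ l (z ::ₘ (S + T)) - 1 / (z.p : ℝ) * Φ.EY Γ l (S + T)| ≤ _ at h2
    rw [Multiset.card_cons, PT_cons, Nat.cast_succ, add_one_mul]
    have h6 := abs_le.1 (h2.trans h3)
    have h7 := abs_le.1 (h5.trans h1)
    exact abs_le.2 ⟨by linarith [h6.1, h7.1], by linarith [h6.2, h7.2]⟩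

theorem rem' (hP : GV.MvPS) (hΓ : Γ.Ok) (hΦ : Φ.Ok Γ B V Λ Ym q0 Pm ε K Tm)
    (hc : Φ.Cf Γ q0 Pm Tm l T) : ∃ (t : ℝ) (T' : Multiset Pt), 0 ≤ t ∧ Φ.Cf Γ q0 Pm Tm l T' ∧
      (∀ z ∈ T', ∃ b ∈ l, z ∈ b.2.1) ∧ Φ.MY l T = t * Φ.MY l T' ∧
      |Φ.EY Γ l T - t * Φ.EY Γ l T'| ≤ ε * Φ.MY l T := by
  classical
  have e := Multiset.filter_add_not (fun z => ∃ b ∈ l, z ∈ b.2.1) T
  rw [add_comm] at e
  set T' := T.filter fun z => ∃ b ∈ l, z ∈ b.2.1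
  set S := T.filter fun z => ¬∃ b ∈ l, z ∈ b.2.1
  have hT : ∀ a ∈ l, a.2.1 ≤ T' := fun a ha =>
    Multiset.le_filter.2 ⟨(hc.ad a ha).2.1, fun z hz => ⟨a, ha, hz⟩⟩
  refine ⟨PT S, T', PT_nonneg _, cf_sub hΓ hc (Multiset.filter_le _ _) hT,
    fun z hz => (Multiset.mem_filter.1 hz).2, by rw [← e, Fam.MY, PT_add, mul_assoc, Fam.MY], ?_⟩
  have h1 := rem hP hΓ hΦ hT S (e.symm ▸ hc) fun z hz a ha q =>
    (Multiset.mem_filter.1 hz).2 ⟨a, ha, q⟩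
  rw [e] at h1
  obtain ⟨hB, hV, hΛ, hY, -, hP, hε, -⟩ := hΦ.num
  refine h1.trans (le_trans ?_ (mul_le_mul_of_nonneg_left (my_ge hΓ hΦ hc) hε.le))
  have h2 : (S.card : ℝ) ≤ (Tm + 1) ^ 2 := by
    have : (S.card : ℝ) ≤ Tm := by
      exact_mod_cast (Multiset.card_le_card (Multiset.filter_le _ _)).trans hc.card
    nlinarith [(Nat.cast_nonneg Tm : (0 : ℝ) ≤ _)]
  have h3 : (0 : ℝ) < Γ.H1 := by exact_mod_cast hΓ.pos.2.2.2
  have h4 : (1 : ℝ) ≤ Γ.W := by exact_mod_cast hΓ.pos.1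
  have h5 : 2 * n * Γ.m * S.card * (Ym * Λ) ^ 3 * 1 * 1 * Pm ^ 2 * (2 * B) ^ 3 ≤ ε * Γ.H1 := by
    refine le_trans ?_ hΦ.bdy
    have h6 : (n : ℝ) ≤ n ^ 2 := by exact_mod_cast Nat.le_self_pow (by norm_num) n
    gcongr <;> linarith
  rw [← mul_div_assoc, div_le_iff₀ h3]
  calc _ = 2 * n * Γ.m * S.card * (Ym * Λ) ^ 3 * 1 * 1 * Pm ^ 2 * (2 * B) ^ 3 *
        (1 / Pm * (1 / Λ) ^ 3) := by field_simp
    _ ≤ ε * Γ.H1 * (1 / Pm * (1 / Λ) ^ 3) := by gcongr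
    _ = _ := by ring

theorem main (hA : GV.ApiS) (hP : GV.MvPS) (hM : GV.MvCS) (hΓ : Γ.Ok)
    (hΦ : Φ.Ok Γ B V Λ Ym q0 Pm ε K Tm) (hc : Φ.Cf Γ q0 Pm Tm l T) :
    Φ.EY Γ l T ≤ (1 + ε) ^ (1 + 4 * l.length) * pp (Φ.eta Γ K) (l.map Prod.fst) * Φ.MY l T ∧
      ((1 - (1 + 3 * l.length) * ε) * Φ.MY l T ≤ Φ.EY Γ l T ∨
        2 ≤ pp (Φ.eta Γ K) (l.map Prod.fst)) := by
  obtain ⟨-, -, hΛ, -, -, hPm, hε, hε', hK⟩ := hΦ.num
  induction l generalizing T with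
  | nil =>
    obtain ⟨t, T', -, -, h1, h2, h3⟩ := rem' hP hΓ hΦ hc
    obtain rfl : T' = 0 := Multiset.eq_zero_of_forall_notMem fun z hz => by simpa using h1 z hz
    have h4 : Φ.EY Γ [] 0 = Φ.MY [] 0 := by simp [Fam.EY, Fam.MY, ind, PT, nT, (hA n Γ hΓ).2.1]
    rw [h4, ← h2, abs_le] at h3
    simp only [List.length_nil, List.map_nil, pp]
    exact ⟨by norm_num; linarith, Or.inl (by norm_num; linarith)⟩
  | cons a l ih =>
    obtain ⟨t, T', t0, hc', h1, h2, h3⟩ := rem' hP hΓ hΦ hc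
    obtain ⟨u1, u2⟩ := hM n Φ Γ B V Λ Ym q0 Pm ε K Tm a l T' hΓ hΦ hc' h1
    obtain ⟨i1, i2⟩ := ih (cf_tail hc')
    obtain ⟨p1, p2⟩ := prod_ge (l.map fun b => 1 + Φ.eta Γ K a.1 b.1) fun x hx => by
      obtain ⟨b, -, rfl⟩ := List.mem_map.1 hx
      exact (eta_ge hK _ _).1
    have p3 := pp_ge (fun c c' => (eta_ge (Φ := Φ) (Γ := Γ) hK c c').1) (l.map Prod.fst)
    have f0 : 0 ≤ Φ.fm a.1 a.2.1 a.2.2 :=
      le_trans (by positivity) (hΦ.ad _ _ _ (hc.ad a List.mem_cons_self).1).2.1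
    have m0 : 0 ≤ Φ.MY (a :: l) T' := le_trans (by positivity) (my_ge hΓ hΦ hc')
    have m1 : Φ.MY (a :: l) T' = Φ.fm a.1 a.2.1 a.2.2 * Φ.MY l T' := by
      simp only [Fam.MY, List.map_cons, List.prod_cons, mul_left_comm]
    have e : pp (Φ.eta Γ K) ((a :: l).map Prod.fst) =
        (l.map fun b => 1 + Φ.eta Γ K a.1 b.1).prod * pp (Φ.eta Γ K) (l.map Prod.fst) := by
      rw [List.map_cons, pp, List.map_map]
      rfl
    rw [e, List.length_cons, h2]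
    rw [h2, abs_le] at h3
    set P := (l.map fun b => 1 + Φ.eta Γ K a.1 b.1).prod
    set Q := pp (Φ.eta Γ K) (l.map Prod.fst)
    set M := Φ.MY (a :: l) T'
    have tM := mul_nonneg t0 m0
    constructor
    · have v0 : 1 ≤ (1 + ε) ^ (3 + 4 * l.length) * (P * Q) :=
        one_le_mul_of_one_le_of_one_le (one_le_pow₀ (by linarith))
          (one_le_mul_of_one_le_of_one_le p1 p3)
      have v1 : (1 + ε) ^ 2 * P * (Φ.fm a.1 a.2.1 a.2.2 * Φ.EY Γ l T') ≤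
          (1 + ε) ^ (3 + 4 * l.length) * (P * Q) * M :=
        calc _ ≤ (1 + ε) ^ 2 * P * (Φ.fm a.1 a.2.1 a.2.2 *
              ((1 + ε) ^ (1 + 4 * l.length) * Q * Φ.MY l T')) := by gcongr
          _ = _ := by rw [m1]; ring
      have v2 := mul_le_mul_of_nonneg_left (u1.trans (add_le_add v1 le_rfl)) t0
      have v3 : (1 + ε) ^ (1 + 4 * (l.length + 1)) * (P * Q) =
          (1 + ε) ^ 2 * ((1 + ε) ^ (3 + 4 * l.length) * (P * Q)) := by ring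
      rw [v3]
      set u := (1 + ε) ^ (3 + 4 * l.length) * (P * Q)
      have v4 : u + 2 * ε ≤ (1 + ε) ^ 2 * u := by
        nlinarith [mul_nonneg (sq_nonneg ε) (zero_le_one.trans v0)]
      nlinarith [mul_le_mul_of_nonneg_right v4 tM]
    · by_cases hx : ∃ b ∈ l, ∃ q ∈ Φ.LL a.1, (q : ℤ) ∣ Γ.res (Φ.cu a.1) (Φ.cu b.1)
      · obtain ⟨b, hb, hq⟩ := hx
        have := ((eta_ge hK _ _).2 hq).trans (p2 _ (List.mem_map_of_mem hb))
        exact Or.inr (by nlinarith)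
      rcases i2 with i2 | i2
      · have v1 := mul_le_mul_of_nonneg_left (mul_le_mul_of_nonneg_left i2 f0)
          (show 0 ≤ 1 - ε by linarith)
        rw [mul_left_comm (Φ.fm a.1 a.2.1 a.2.2), ← m1] at v1
        have v2 := mul_le_mul_of_nonneg_left ((sub_le_sub_right v1 (ε * M)).trans
          (u2 fun b hb q hq d => hx ⟨b, hb, q, hq, d⟩)) t0
        have v3 : 0 ≤ (1 + 3 * (l.length : ℝ)) * ε * ε * (t * M) := by positivity
        push_cast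
        exact Or.inl (by nlinarith)
      · exact Or.inr (by nlinarith)

end GDEq

open GDEq in open VE.DEq (pp_ge) in
theorem rEq : GV.OfEq := by
  intro hA hP hM n _ C Φ Γ B V Λ Ym q0 Pm ε K Tm l T hΓ hΦ hc
  obtain ⟨h1, h2⟩ := main hA hP hM hΓ hΦ hc
  obtain ⟨-, -, hΛ, -, -, hPm, hε, -, hK⟩ := hΦ.num
  have p3 := pp_ge (fun c c' => (eta_ge (Φ := Φ) (Γ := Γ) hK c c').1) (l.map Prod.fst)
  have m0 : 0 ≤ Φ.MY l T := le_trans (by positivity) (my_ge hΓ hΦ hc)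
  have e0 := ey_nonneg hΦ hc
  have hl := hc.len
  have b1 : 1 + 20 * ε ≤ (1 + ε) ^ 20 := by
    simpa using one_add_mul_le_pow (show -2 ≤ ε by linarith) 20
  set Q := pp (Φ.eta Γ K) (l.map Prod.fst)
  refine abs_le.2 ⟨?_, ?_⟩
  · rcases h2 with h2 | h2
    · have b2 : (1 + 3 * (l.length : ℝ)) * ε ≤ (1 + ε) ^ 20 * Q - 1 := by
        have : (l.length : ℝ) ≤ 3 := by exact_mod_cast hl
        nlinarith
      nlinarith [mul_le_mul_of_nonneg_right b2 m0]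
    · have b2 : 1 ≤ (1 + ε) ^ 20 * Q - 1 := by nlinarith
      nlinarith [mul_le_mul_of_nonneg_right b2 m0]
  · have b2 : (1 + ε) ^ (1 + 4 * l.length) * Q * Φ.MY l T ≤ (1 + ε) ^ 20 * Q * Φ.MY l T := by
      gcongr
      · linarith
      · omega
    linarith

end Pool.Agent.MP_f3836a_nt.GV
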