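import Pool.Agent.MP_f3836a_nt.GV.SpecD
import Pool.Agent.MP_f3836a_nt.VE.DLag

/-! Row Lag: Lagrange shifts in rank `n`. -/

set_option autoImplicit false

namespace Pool.Agent.MP_f3836a_nt.GV

open Polynomial Finset VE VE.DLag

namespace GDLag

/-- the interpolating form -/
theorem interp {a b : ℤ} {l : List ℤ} {B : ℝ} (hc : IsCoprime a b) (hb : 0 < b)
    (ha : |(a : ℝ)| ≤ B) (hbB : (b : ℝ) ≤ B) (hl : ∀ a' ∈ l, |(a' : ℝ)| ≤ B) (s : ℤ) {d : ℕ}
    (hd : l.length ≤ d) :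
    ∃ P : ℤ[X], P.natDegree ≤ d ∧ (∀ i, |(P.coeff i : ℝ)| ≤ |(s : ℝ)| * (2 * B) ^ d) ∧
      hv P d a b = s * (l.map fun a' => a * b - a' * b).prod ∧ ∀ a' ∈ l, hv P d a' b = 0 := by
  obtain ⟨u, v, huv, hB⟩ := bezout (B := B) hc hb ha hbB
  have hb' : (0 : ℝ) ≤ b := by exact_mod_cast hb.le
  obtain ⟨P, h1, h2, h3⟩ := prod_lin s (N := 2 * B)
    ((l.map fun a' => (b, -a')) ++ List.replicate (d - l.length) (u, v)) fun q hq => by
      rcases List.mem_append.1 hq with h | h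
      · obtain ⟨a', ha', rfl⟩ := List.mem_map.1 h
        have := hl a' ha'
        push_cast
        rw [abs_neg, abs_of_nonneg hb']
        linarith
      · rw [List.eq_of_mem_replicate h]
        exact hB
  rw [List.length_append, List.length_map, List.length_replicate, Nat.add_sub_cancel' hd]
    at h1 h2 h3
  simp only [List.map_append, List.prod_append, List.map_map, List.map_replicate,
    List.prod_replicate] at h3
  refine ⟨P, h1, h2, ?_, fun a' ha' => ?_⟩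
  · rw [h3, huv, one_pow, mul_one]
    congr 2
    refine List.map_congr_left fun a' _ => ?_
    simp only [Function.comp]
    ring
  · rw [h3, List.prod_eq_zero (List.mem_map.2 ⟨a', ha', ?_⟩), zero_mul, mul_zero]
    simp only [Function.comp]
    ring

theorem hv_lin {P : ℤ[X]} {d : ℕ} (h : P.natDegree ≤ d) (t a b : ℤ) :
    hv ((X - C t) * P) (d + 1) a b = (a - t * b) * hv P d a b := by
  have e : (X - C t) * P = X * P + C (-t) * P := by
    rw [C_neg]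
    ring
  rw [e, hv_add, hv_X_mul, hv_C_mul, hv_succ h]
  ring

theorem deg_lin {P : ℤ[X]} {d : ℕ} (h : P.natDegree ≤ d) (t : ℤ) :
    ((X - C t) * P).natDegree ≤ d + 1 := by
  refine natDegree_mul_le.trans ?_
  rw [natDegree_X_sub_C]
  omega

/-- the shift with given coefficients -/
def sg {n : ℕ} (e : Fin n → ℕ) (m : ℕ) (P : Fin n → ℤ[X]) : Ix e m → ℤ :=
  fun j => (P j.1).coeff j.2

theorem vP_add {n : ℕ} {e : Fin n → ℕ} {m : ℕ} (x : Ix e m → ℤ) {P : Fin n → ℤ[X]} (i : Fin n)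
    (h : (P i).natDegree < m - max (e i) 1) : vP (x + sg e m P) i = vP x i + P i := by
  have e1 : P i = ∑ j : Fin (m - max (e i) 1), monomial j ((P i).coeff j) := by
    rw [Fin.sum_univ_eq_sum_range (fun j => monomial j ((P i).coeff j)) (m - max (e i) 1)]
    exact (P i).as_sum_range' _ h
  conv_rhs => rw [e1]
  simp only [vP, sg, Pi.add_apply, map_add, sum_add_distrib]

theorem gam_shift {n : ℕ} (Γ : Gf n) (a : ℤ) (x : Γ.I) {P : Fin n → ℤ[X]} (i : Fin n)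
    (h5 : Γ.T.e i + 5 ≤ Γ.m) (h : (P i).natDegree ≤ Γ.m - max (Γ.T.e i) 1 - 1) :
    Γ.gam a (x + sg Γ.T.e Γ.m P) i = Γ.gam a x i + Γ.W' * ((if Γ.T.e i = 0 then Γ.b else 1) *
      ((a - Γ.t1 * Γ.b) * hv (P i) (Γ.m - max (Γ.T.e i) 1 - 1) a Γ.b)) := by
  have e1 : Γ.gA (x + sg Γ.T.e Γ.m P) i =
      Γ.gA x i + C (Γ.W' : ℤ) * ((X - C Γ.t1) * P i) := by
    rw [Gf.gA, Gf.gA, vP_add x i (by omega)]
    ring
  have e2 := hv_lin h Γ.t1 a Γ.b
  rw [Gf.gam, Gf.gam, Tb.val, Tb.val, e1, hv_add, hv_C_mul, ← e2]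
  split_ifs with h0
  · have e3 := hv_succ (deg_lin h Γ.t1) a Γ.b
    rw [← e3, show Γ.m - max (Γ.T.e i) 1 - 1 + 1 + 1 = Γ.m - Γ.T.e i by omega]
  · rw [one_mul, show Γ.m - max (Γ.T.e i) 1 - 1 + 1 = Γ.m - Γ.T.e i by omega]

theorem sgn (r : ℤ) : ∃ ε : ℤ, |(ε : ℝ)| = 1 ∧ ε * r = (r.natAbs : ℕ) := by
  rw [Int.natCast_natAbs]
  rcases le_total 0 r with h | h
  · exact ⟨1, by simp, by rw [one_mul, abs_of_nonneg h]⟩
  · exact ⟨-1, by simp, by rw [neg_one_mul, abs_of_nonpos h]⟩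

end GDLag

open GDLag in
theorem rLag : GV.LagS := by
  intro n _ Γ a l N B V hΓ hc hl2 hl hH hB hV v hv'
  obtain ⟨ε, hε1, hε⟩ := sgn (l.map fun a' => a * Γ.b - a' * Γ.b).prod
  obtain ⟨η, hη1, hη⟩ := sgn (a - Γ.t1 * Γ.b)
  have e : (l.map fun a' => (Γ.res a a').natAbs).prod =
      (l.map fun a' => a * Γ.b - a' * Γ.b).prod.natAbs := by
    rw [← Int.natAbsHom_apply, map_list_prod, List.map_map]
    rfl
  have hk : (0 : ℤ) < Γ.k := by exact_mod_cast hΓ.pos.2.2.1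
  have hb : 0 < Γ.b := pow_pos hk 2
  have hb' : (0 : ℝ) ≤ Γ.b := by exact_mod_cast hb.le
  have hex := fun i : Fin n => interp (B := B) (hc.cop.pow_right (n := 2)) hb hH.1 hH.2.1
    (fun a' h => (hl a' h).1)
    (ε * η * (Γ.W * N ^ 2 * v i * if Γ.T.e i = 0 then 1 else Γ.b))
    (d := Γ.m - max (Γ.T.e i) 1 - 1) (by have := hΓ.five i; omega)
  choose P hP1 hP2 hP3 hP4 using hex
  have h0 : (0 : ℝ) ≤ Γ.W * N ^ 2 * V := by positivity
  have h2B : (1 : ℝ) ≤ 2 * B := by linarith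
  refine ⟨sg Γ.T.e Γ.m P, ?_, fun x => ⟨?_, fun a' ha' => ?_⟩⟩
  · rintro ⟨i, j⟩
    refine (hP2 i j).trans ?_
    have h1 : |((if Γ.T.e i = 0 then 1 else Γ.b : ℤ) : ℝ)| ≤ 2 * B := by
      split_ifs
      · simpa using h2B
      · rw [abs_of_nonneg hb']
        linarith [hH.2.1]
    have h2 : |(Γ.W : ℝ) * N ^ 2 * v i| ≤ Γ.W * N ^ 2 * V := by
      rw [abs_mul, abs_of_nonneg (by positivity : (0 : ℝ) ≤ Γ.W * N ^ 2)]
      exact mul_le_mul_of_nonneg_left (hv' i) (by positivity)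
    rw [Int.cast_mul, Int.cast_mul, abs_mul, abs_mul, hε1, hη1, one_mul, one_mul, Int.cast_mul,
      abs_mul]
    push_cast at h1 h2 ⊢
    refine (mul_le_mul_of_nonneg_right (mul_le_mul h2 h1 (abs_nonneg _) h0)
      (by positivity)).trans ?_
    rw [mul_assoc _ (2 * B), ← pow_succ']
    exact mul_le_mul_of_nonneg_left (pow_le_pow_right₀ h2B (by omega)) h0
  · funext i
    have h3 : hv (P i) (Γ.m - max (Γ.T.e i) 1 - 1) a Γ.b = _ := hP3 i
    rw [gam_shift Γ a x i (hΓ.five i) (hP1 i), h3, Pi.add_apply, Pi.smul_apply, smul_eq_mul,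
      Gf.modQ, Gf.lev, e]
    push_cast at hε hη ⊢
    rw [← hε, ← hη]
    have e2 : (Γ.k : ℤ) ^ 2 = Γ.b := rfl
    rw [e2]
    split_ifs <;> ring
  · funext i
    have h4 : hv (P i) (Γ.m - max (Γ.T.e i) 1 - 1) a' Γ.b = 0 := hP4 i a' ha'
    rw [gam_shift Γ a' x i (hΓ.five i) (hP1 i), h4]
    simp

end Pool.Agent.MP_f3836a_nt.GV
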