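import Pool.Agent.MP_f3836a_nt.GV.SpecD
import Pool.Agent.MP_f3836a_nt.VE.DMvC

/-! Row MvC: removing the first curve. -/

set_option autoImplicit false

namespace Pool.Agent.MP_f3836a_nt.GV

open Polynomial Finset VE
open VE.DMvC (ind_nonneg ind_le ind_pos ind_neg prod_le prod_ge le_prod exp_sum sig_nonneg sig_mono
  sig_mul sig_list sig_nT dvd_nT nT_pos of_dvd_nT nT_dvd)

namespace GDMvC

section
variable {ι : Type} [Fintype ι] [DecidableEq ι] {lo : ι → ℤ} {H1 : ℕ}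

theorem Eb_mono {F G : (ι → ℤ) → ℝ} (h : ∀ x ∈ box lo H1, F x ≤ G x) : Eb lo H1 F ≤ Eb lo H1 G :=
  div_le_div_of_nonneg_right (sum_le_sum h) (Nat.cast_nonneg _)

theorem Eb_lin (s t : ℝ) (F G : (ι → ℤ) → ℝ) :
    Eb lo H1 (fun x => s * F x + t * G x) = s * Eb lo H1 F + t * Eb lo H1 G := by
  simp only [Eb, sum_add_distrib, ← mul_sum]
  ring

end

theorem prod_pow {α : Type} (f : α → ℝ) (n : ℕ) (l : List α) :
    (l.map fun b => f b ^ n).prod = (l.map f).prod ^ n := by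
  induction l with
  | nil => simp
  | cons b l ih => simp only [List.map_cons, List.prod_cons, mul_pow, ih]

theorem sig_anti {W W' : ℕ} (h : W ∣ W') (r : ℤ) : sig W' r ≤ sig W r := by
  refine sum_le_sum_of_subset_of_nonneg (fun q hq => ?_) fun _ _ _ => by positivity
  rw [mem_filter] at hq ⊢
  exact ⟨hq.1, fun e => hq.2 (e.trans h)⟩

variable {n : ℕ}

theorem In_shift {ss : Pt → Fin n → ℤ} (β v : Fin n → ℤ) {z : Pt} {Q : ℕ} (h : z.p ∣ Q) :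
    InG ss (β + (Q : ℤ) • v) z ↔ InG ss β z := by
  have : ∑ i, (β + (Q : ℤ) • v) i * ss z i = ∑ i, β i * ss z i + Q * ∑ i, v i * ss z i := by
    simp only [Pi.add_apply, Pi.smul_apply, smul_eq_mul, add_mul, sum_add_distrib, mul_sum,
      mul_assoc]
  rw [InG, this]
  exact dvd_add_left ((Int.natCast_dvd_natCast.2 h).mul_right _)

theorem W_dvd (Γ : Gf n) (a : ℤ) : Γ.W ∣ Γ.lev a := Dvd.intro _ rfl

theorem res_le {Γ : Gf n} {B : ℝ} {c c' : ℤ} (h : Γ.Ht B c) (h' : Γ.Ht B c') :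
    ((Γ.res c c').natAbs : ℝ) ≤ 2 * B ^ 2 := by
  rw [Nat.cast_natAbs, Gf.res]
  push_cast
  have hB : 0 ≤ B := (abs_nonneg _).trans h.1
  have hb : (0 : ℝ) ≤ Γ.b := Int.cast_nonneg (sq_nonneg _)
  refine (abs_sub _ _).trans ?_
  rw [abs_mul, abs_mul, abs_of_nonneg hb]
  have h1 := mul_le_mul h.1 h.2.1 hb hB
  have h2 := mul_le_mul h'.1 h.2.1 hb hB
  linarith

theorem Q_le {Γ : Gf n} {B Pm : ℝ} {c : ℤ} (hB : 2 ≤ B) (hc : Γ.Ht B c) (L : List ℤ)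
    (hL : L.length ≤ 2) (h : ∀ c' ∈ L, Γ.Ht B c') (N : ℕ) (hn : (N : ℝ) ≤ Pm) :
    (Γ.modQ c L N : ℝ) ≤ Γ.W * Γ.W' * (2 * B) ^ 6 * Pm ^ 2 := by
  have h1 : (((L.map fun c' => (Γ.res c c').natAbs).prod : ℕ) : ℝ) ≤ (2 * B ^ 2) ^ 2 := by
    rw [Nat.cast_list_prod, List.map_map]
    exact (prod_le _ _ L fun c' hc' => ⟨Nat.cast_nonneg _, res_le hc (h c' hc')⟩).2.trans
      (pow_le_pow_right₀ (by nlinarith) hL)
  have h2 : (Γ.k : ℝ) ^ 2 ≤ B := by simpa [Gf.b] using hc.2.1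
  have h3 : (((c - Γ.t1 * Γ.b).natAbs : ℕ) : ℝ) ≤ B := by
    rw [Nat.cast_natAbs, Int.cast_abs]
    exact hc.2.2
  have h4 : 0 ≤ B := by linarith
  rw [Gf.modQ, Gf.lev, Nat.cast_mul, Nat.cast_mul, Nat.cast_mul, Nat.cast_mul, Nat.cast_mul,
    Nat.cast_pow, Nat.cast_pow]
  calc _ ≤ (Γ.W : ℝ) * B * Γ.W' * B * (2 * B ^ 2) ^ 2 * Pm ^ 2 := by gcongr
    _ = Γ.W * Γ.W' * (4 * B ^ 6) * Pm ^ 2 := by ring
    _ ≤ _ := by
      gcongr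
      nlinarith [pow_nonneg h4 6]

variable [NeZero n]

theorem Q_prime {Γ : Gf n} {c : ℤ} (hΓ : Γ.Ok) (L : List ℤ) (N q : ℕ) (hq : q.Prime)
    (hW : ¬q ∣ Γ.lev c) (h : q ∣ Γ.modQ c L N) :
    q ∣ (L.map fun c' => (Γ.res c c').natAbs).prod ∨ q ∣ N := by
  simp only [Gf.modQ, hq.dvd_mul] at h
  rcases h with (((h | h) | h) | h) | h
  · exact absurd h hW
  · exact absurd ((hΓ.rad q hq (Or.inl h)).trans (W_dvd Γ c)) hW
  · exact absurd ((hΓ.rad q hq (Or.inr (Or.inl (hq.dvd_of_dvd_pow h)))).trans (W_dvd Γ c)) hW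
  · exact Or.inl h
  · exact Or.inr (hq.dvd_of_dvd_pow h)

theorem Vp_prime {Γ : Gf n} (hΓ : Γ.Ok) {z : Pt} (h : Γ.Vp z) : z.p.Prime :=
  (hΓ.alg.bas _ _ h.1.1).1

section Main

variable {C : Type} {Φ : Fam n C} {Γ : Gf n} {B V Λ Ym q0 Pm ε K : ℝ} {Tm : ℕ}
  {a : C × Multiset Pt × ℕ} {l : List (C × Multiset Pt × ℕ)} {T : Multiset Pt}

omit [NeZero n] in
theorem Y_nonneg (hΦ : Φ.Ok Γ B V Λ Ym q0 Pm ε K Tm) (h : C) (T : Multiset Pt) (j : ℕ)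
    (x : Γ.I) : 0 ≤ Φ.Y Γ h T j x :=
  div_nonneg (sum_nonneg fun s _ => mul_nonneg
    (prod_nonneg fun i _ => (hΦ.st h _ (s i).2).1) (ind_nonneg _)) (hΦ.rho h).le

omit [NeZero n] in
theorem Y_ne {h : C} {T : Multiset Pt} {j : ℕ} {x : Γ.I} (hY : Φ.Y Γ h T j x ≠ 0) :
    ∃ S : Multiset Pt, EvG (Γ.Mh (Φ.cu h)) Γ.ss (Γ.gam (Φ.cu h) x) (T + S) ∧
      ∀ z ∈ S, ∃ s ∈ Φ.St h, z ∈ s := by
  obtain ⟨s, -, hs⟩ := exists_ne_zero_of_sum_ne_zero (div_ne_zero_iff.1 hY).1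
  refine ⟨_, of_not_not fun hn => hs (by rw [ind_neg hn, mul_zero]), fun z hz => ?_⟩
  obtain ⟨i, -, hi⟩ := Multiset.mem_sum.1 hz
  exact ⟨_, (s i).2, hi⟩

/-- the product of the other weights -/
noncomputable def Xi (Φ : Fam n C) (Γ : Gf n) (l : List (C × Multiset Pt × ℕ)) (x : Γ.I) : ℝ :=
  (l.map fun a => Φ.Y Γ a.1 a.2.1 a.2.2 x).prod

omit [NeZero n] in
theorem Xi_ne {x : Γ.I} (h : Xi Φ Γ l x ≠ 0) :
    ∀ b ∈ l, Φ.Y Γ b.1 b.2.1 b.2.2 x ≠ 0 := fun _ hb h0 =>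
  h (List.prod_eq_zero (h0 ▸ List.mem_map_of_mem hb))

/-- the modulus -/
def QQ (Φ : Fam n C) (Γ : Gf n) (a : C × Multiset Pt × ℕ) (l : List (C × Multiset Pt × ℕ)) : ℕ :=
  Γ.modQ (Φ.cu a.1) (l.map fun b => Φ.cu b.1) (nT a.2.1)

omit [NeZero n] in
theorem sq_dvd : nT a.2.1 ^ 2 ∣ QQ Φ Γ a l := Dvd.intro_left _ rfl

omit [NeZero n] in
theorem nT_dvd_Q : nT a.2.1 ∣ QQ Φ Γ a l := (dvd_pow_self _ two_ne_zero).trans sq_dvd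

theorem QQ_prime (hΓ : Γ.Ok) {q : ℕ} (hq : q.Prime) (hW : ¬q ∣ Γ.lev (Φ.cu a.1))
    (h : q ∣ QQ Φ Γ a l) :
    (∃ b ∈ l, (q : ℤ) ∣ Γ.res (Φ.cu a.1) (Φ.cu b.1)) ∨ q ∣ nT a.2.1 := by
  refine (Q_prime hΓ _ _ q hq hW h).imp_left fun h => ?_
  obtain ⟨r, hr, h1⟩ := (hq.prime.dvd_prod_iff).1 h
  simp only [List.mem_map] at hr
  obtain ⟨_, ⟨b, hb, rfl⟩, rfl⟩ := hr
  exact ⟨b, hb, Int.natCast_dvd.2 h1⟩

variable (hA : ApiS) (hΓ : Γ.Ok) (hΦ : Φ.Ok Γ B V Λ Ym q0 Pm ε K Tm)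
  (hC : Φ.Cf Γ q0 Pm Tm (a :: l) T)

omit [NeZero n] in
include hΦ hC in
theorem pts {b : C × Multiset Pt × ℕ} (hb : b ∈ a :: l) {z : Pt} (hz : z ∈ b.2.1) :
    z ∈ T ∧ Γ.Vp z ∧ q0 ≤ z.p ∧ Γ.on (Φ.cu b.1) z ∧ z.p ∉ Φ.LL b.1 :=
  have h1 := Multiset.mem_of_le (hC.ad b hb).2.1 hz
  ⟨h1, (hC.pt z h1).1, (hC.pt z h1).2, (hΦ.ad _ _ _ (hC.ad b hb).1).1 z hz⟩

include hA hΓ hΦ hC in
theorem inv (hT : ∀ z ∈ T, ∃ b ∈ a :: l, z ∈ b.2.1) (x y : Γ.I) (v)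
    (h1 : Γ.gam (Φ.cu a.1) y = Γ.gam (Φ.cu a.1) x + (QQ Φ Γ a l : ℤ) • v)
    (h3 : ∀ b ∈ l, Γ.gam (Φ.cu b.1) y = Γ.gam (Φ.cu b.1) x) :
    ind (∀ z ∈ T, Γ.zr y z) * Xi Φ Γ l y = ind (∀ z ∈ T, Γ.zr x z) * Xi Φ Γ l x := by
  have h4 : Xi Φ Γ l y = Xi Φ Γ l x :=
    congrArg List.prod (List.map_congr_left fun b hb => by rw [Fam.Y, h3 b hb, Fam.Y])
  rw [h4]
  congr 2
  refine propext (forall₂_congr fun z hz => ?_)
  obtain ⟨b, hb, hzb⟩ := hT z hz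
  obtain ⟨-, h5, -, h6, -⟩ := pts hΦ hC hb hzb
  have h7 := ((hA n Γ hΓ).2.2.2.2.2.1 _ z h5 h6).2.2.1
  rw [← h7 x, ← h7 y]
  rcases List.mem_cons.1 hb with rfl | hb
  · rw [h1, In_shift _ _ ((dvd_nT hzb).trans nT_dvd_Q)]
  · rw [h3 b hb]

include hA hΓ hΦ hC in
theorem good (x : Γ.I) (h0 : 0 < Γ.nm (Φ.cu a.1) x)
    (h1 : ∀ z ∈ T, Γ.zr x z) (h2 : Xi Φ Γ l x ≠ 0) (h3 : ¬Φ.Bad Γ q0 a l T x) :
    (∀ z ∈ a.2.1, InG Γ.ss (Γ.gam (Φ.cu a.1) x) z) ∧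
    ∃ n' : ℕ, Γ.nm (Φ.cu a.1) x = (nT a.2.1 * n' : ℕ) ∧ n'.Coprime (QQ Φ Γ a l) := by
  obtain ⟨-, -, -, -, -, a4, a7⟩ := hA n Γ hΓ
  have hP := fun z hz => pts hΦ hC (b := a) (z := z) List.mem_cons_self hz
  have hI : ∀ z ∈ a.2.1, InG Γ.ss (Γ.gam (Φ.cu a.1) x) z := fun z hz =>
    ((a4 _ z (hP z hz).2.1 (hP z hz).2.2.2.1).2.2.1 x).2 (h1 z (hP z hz).1)
  have hpr : ∀ z ∈ a.2.1, z.p.Prime := fun z hz => Vp_prime hΓ (hP z hz).2.1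
  obtain ⟨n', hn⟩ := nT_dvd (N := (Γ.nm (Φ.cu a.1) x).natAbs)
    (Multiset.nodup_of_le (Multiset.map_le_map (hC.ad a List.mem_cons_self).2.1) hC.nd) hpr
    fun z hz => Int.natCast_dvd.1
      ((a4 _ z (hP z hz).2.1 (hP z hz).2.2.2.1).2.2.2.2.1 _ (hI z hz))
  have hN : Γ.nm (Φ.cu a.1) x = (nT a.2.1 * n' : ℕ) := by
    rw [← hn, Int.natAbs_of_nonneg h0.le]
  refine ⟨hI, n', hN, Nat.Coprime.symm (Nat.coprime_of_dvd fun q hq hQ hn' => ?_)⟩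
  have hqN : (q : ℤ) ∣ Γ.nm (Φ.cu a.1) x := hN ▸ Int.natCast_dvd_natCast.2 (hn'.mul_left _)
  have hW : ¬q ∣ Γ.lev (Φ.cu a.1) := fun hW => hq.one_lt.ne'
    (Nat.eq_one_of_dvd_coprimes ((hΦ.cu a.1).1.cong x) (Int.natCast_dvd.1 hqN) hW)
  have hz : ∀ z ∈ a.2.1, z.p ≠ q := fun z hz h => h3 ⟨h1, Or.inl ⟨z, hz, by
    rw [hN, ← Nat.cast_pow, Int.natCast_dvd_natCast, pow_two]
    exact mul_dvd_mul (dvd_nT hz) (h ▸ hn')⟩⟩
  rcases QQ_prime hΓ hq hW hQ with ⟨b, hb, h4⟩ | h4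
  · refine h3 ⟨h1, Or.inr ⟨b, hb, q, hq, ?_, hW, h4, hz, hqN⟩⟩
    obtain ⟨S, hS, hS'⟩ := Y_ne (Xi_ne h2 b hb)
    have h5 := (a7 _ _ q x hq (fun e => hW (e.trans (W_dvd Γ _))) h4).1 hqN
    rw [Gf.nm, ← hS.2.2, Int.natCast_dvd_natCast] at h5
    have h6 : ∀ z ∈ b.2.1 + S, z.p.Prime ∧ q0 ≤ z.p := fun z hz => by
      rcases Multiset.mem_add.1 hz with hz | hz
      · have := pts hΦ hC (List.mem_cons_of_mem _ hb) hz
        exact ⟨Vp_prime hΓ this.2.1, this.2.2.1⟩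
      · obtain ⟨s, hs, hz⟩ := hS' z hz
        exact (hΦ.st _ s hs).2 z hz
    obtain ⟨z, hz', rfl⟩ := of_dvd_nT (fun z hz => (h6 z hz).1) hq h5
    exact (h6 z hz').2
  · obtain ⟨z, hz', h5⟩ := of_dvd_nT hpr hq h4
    exact hz z hz' h5

include hΓ hΦ hC in
theorem QQ_pos : 0 < QQ Φ Γ a l := by
  have h1 := nT_pos fun z hz => Vp_prime hΓ (pts hΦ hC (b := a) (z := z) List.mem_cons_self hz).2.1
  have h2 : 0 < (Φ.cu a.1 - Γ.t1 * Γ.b).natAbs := Int.natAbs_pos.2 (hΦ.cu a.1).1.ne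
  obtain ⟨h4, h5, h6, -⟩ := hΓ.pos
  have h3 : 0 < ((l.map fun b => Φ.cu b.1).map fun c' => (Γ.res (Φ.cu a.1) c').natAbs).prod := by
    refine List.prod_pos fun r hr => ?_
    simp only [List.mem_map] at hr
    obtain ⟨_, ⟨b, hb, rfl⟩, rfl⟩ := hr
    refine Int.natAbs_pos.2 fun h => (List.nodup_cons.1 hC.nodup).1 ?_
    rw [hΦ.inj (mul_right_cancel₀ (pow_ne_zero 2 (Nat.cast_ne_zero.2 h6.ne')) (sub_eq_zero.1 h))]
    exact List.mem_map_of_mem hb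
  unfold QQ Gf.modQ Gf.lev
  positivity

include hA hΓ in
theorem rat_bd (hR : RatS) (c : ℤ) (Q : ℕ) :
    1 ≤ ratG (Γ.Mh c) (Γ.lev c) Q ∧
      ratG (Γ.Mh c) (Γ.lev c) Q ≤ Real.exp (2 * n * sig (Γ.lev c) Q) :=
  hR n _ _ _ ((hA n Γ hΓ).2.2.2.1 c) fun q hq h =>
    (hΓ.rad q hq (Or.inr (Or.inr h))).trans (W_dvd Γ c)

include hA hΓ hΦ hC in
theorem rat_le (hR : RatS) : ratG (Γ.Mh (Φ.cu a.1)) (Γ.lev (Φ.cu a.1)) (QQ Φ Γ a l) ≤ (1 + ε) *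
    (l.map fun b => Real.exp (4 * sig Γ.W (Γ.res (Φ.cu a.1) (Φ.cu b.1)))).prod ^ n := by
  obtain ⟨n1, -, n3, n4, n5, -, n7, n8, -⟩ := hΦ.num
  have hP := fun z hz => pts hΦ hC (b := a) (z := z) List.mem_cons_self hz
  have hQ := QQ_pos hΓ hΦ hC
  have h1 := sig_mono (Γ.lev (Φ.cu a.1)) (QQ Φ Γ a l) (nT a.2.1 *
      ((l.map fun b => Φ.cu b.1).map fun c' => (Γ.res (Φ.cu a.1) c').natAbs).prod)
    (fun h => hQ.ne' (by
      unfold QQ Gf.modQ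
      rcases mul_eq_zero.1 h with h | h
      · rw [h, zero_pow two_ne_zero, mul_zero]
      · rw [h, mul_zero, zero_mul])) fun q hq hW h =>
      (Q_prime hΓ _ _ q hq hW h).elim (fun h => h.mul_left _) fun h => h.mul_right _
  have h2 := sig_nT Γ.W q0 (by linarith) a.2.1 fun z hz =>
    ⟨Vp_prime hΓ (hP z hz).2.1, (hP z hz).2.2.1⟩
  have h3 : (a.2.1.card : ℝ) ≤ Tm :=
    Nat.cast_le.2 ((Multiset.card_le_card (hC.ad a List.mem_cons_self).2.1).trans hC.card)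
  have h4 : 1 ≤ Real.log (2 * B) := by
    rw [Real.le_log_iff_exp_le (by linarith)]
    linarith [Real.exp_one_lt_d9]
  have h5 : 100 * n * ((Tm : ℝ) + 1) ≤ ε * q0 := by
    refine le_trans ?_ hΦ.deg
    rw [mul_assoc _ (Real.log _)]
    exact le_mul_of_one_le_right (by positivity) (one_le_mul_of_one_le_of_one_le h4
      (one_le_pow₀ (one_le_mul_of_one_le_of_one_le n4 n3)))
  have h6 : n * ((a.2.1.card : ℝ) / q0) ≤ ε / 100 := by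
    rw [← mul_div_assoc, div_le_div_iff₀ (by linarith) (by norm_num)]
    nlinarith [Nat.cast_nonneg (α := ℝ) n]
  have h7 : Real.exp (4 * (ε / 100)) ≤ 1 + ε := by
    refine (Real.exp_bound_div_one_sub_of_interval (by positivity) (by linarith)).trans ?_
    rw [div_le_iff₀ (by linarith)]
    nlinarith
  have h8 := sig_list Γ.W (fun b : C × Multiset Pt × ℕ => Γ.res (Φ.cu a.1) (Φ.cu b.1)) l
  rw [List.map_map] at h1
  rw [← exp_sum]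
  refine (rat_bd hA hΓ hR _ _).2.trans (le_trans ?_
    (mul_le_mul_of_nonneg_right h7 (pow_pos (Real.exp_pos _) n).le))
  rw [← Real.exp_nat_mul, ← Real.exp_add]
  have h9 := mul_le_mul_of_nonneg_left (h1.trans ((sig_anti (W_dvd Γ _) _).trans
    ((sig_mul _ _ _).trans (add_le_add h2 h8)))) (Nat.cast_nonneg (α := ℝ) n)
  have h10 := mul_nonneg (Nat.cast_nonneg (α := ℝ) n) (sig_nonneg (Γ.lev (Φ.cu a.1)) (QQ Φ Γ a l))
  exact Real.exp_le_exp.2 (by linarith)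

include hΓ hΦ hC in
theorem shift_le : 2 * (n * Γ.m) * Ym ^ 3 *
    (Γ.W * (nT a.2.1 : ℝ) ^ 2 * V * (2 * B) ^ (Γ.m + 8)) / Γ.H1 ≤ ε / 2 * (PT T / Λ ^ 3) := by
  obtain ⟨n1, n2, n3, n4, -, n6, n7, -⟩ := hΦ.num
  have h0 := nT_pos fun z hz => Vp_prime hΓ (hC.pt z hz).1
  have h1 : (nT a.2.1 : ℝ) ≤ Pm := le_trans (Nat.cast_le.2 (Nat.le_of_dvd h0
    (Multiset.prod_dvd_prod_of_le (Multiset.map_le_map (hC.ad a List.mem_cons_self).2.1)))) hC.size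
  have h2 : (0 : ℝ) < Γ.H1 := Nat.cast_pos.2 hΓ.pos.2.2.2
  have h3 : (0 : ℝ) < nT T := Nat.cast_pos.2 h0
  have h4 : (nT a.2.1 : ℝ) ^ 2 * nT T ≤ Pm ^ 5 :=
    calc _ ≤ Pm ^ 2 * Pm := by gcongr; exact hC.size
      _ = Pm ^ 3 := by ring
      _ ≤ _ := pow_le_pow_right₀ n6 (by norm_num)
  have hn : (1 : ℝ) ≤ n := Nat.one_le_cast.2 NeZero.one_le
  have h5 : (4 : ℝ) ≤ 1000 * (n * (Tm + 1) ^ 2) := by
    have : (1 : ℝ) ≤ n * (Tm + 1) ^ 2 := one_le_mul_of_one_le_of_one_le hn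
      (one_le_pow₀ (by linarith [Nat.cast_nonneg (α := ℝ) Tm]))
    linarith
  have h6 : (2 * B) ^ (Γ.m + 8) ≤ (2 * B) ^ (Γ.m + 12) :=
    pow_le_pow_right₀ (by linarith) (by omega)
  have h7 : 4 * (n * Γ.m * (Ym * Λ) ^ 3 * Γ.W) * V * ((nT a.2.1 : ℝ) ^ 2 * nT T) *
      (2 * B) ^ (Γ.m + 8) ≤ 1000 * (n * (Tm + 1) ^ 2) * (n * Γ.m * (Ym * Λ) ^ 3 * Γ.W) * (V + 1) *
        Pm ^ 5 * (2 * B) ^ (Γ.m + 12) := by
    gcongr
    linarith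
  have h8 := hΦ.bdy
  rw [PT, div_le_iff₀ h2, div_div, mul_one_div, div_mul_eq_mul_div, le_div_iff₀ (by positivity)]
  nlinarith

theorem main (hA : ApiS) (hS : ShiftS) (hL : LagS) (hB : BadS) (hR : RatS) (hΓ : Γ.Ok)
    (hΦ : Φ.Ok Γ B V Λ Ym q0 Pm ε K Tm) (hC : Φ.Cf Γ q0 Pm Tm (a :: l) T)
    (hT : ∀ z ∈ T, ∃ b ∈ a :: l, z ∈ b.2.1) :
    Φ.EY Γ (a :: l) T ≤ (1 + ε) ^ 2 * (l.map fun b => 1 + Φ.eta Γ K a.1 b.1).prod
      * (Φ.fm a.1 a.2.1 a.2.2 * Φ.EY Γ l T) + ε * Φ.MY (a :: l) T ∧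
    ((∀ b ∈ l, ∀ q ∈ Φ.LL a.1, ¬(q : ℤ) ∣ Γ.res (Φ.cu a.1) (Φ.cu b.1)) →
      (1 - ε) * (Φ.fm a.1 a.2.1 a.2.2 * Φ.EY Γ l T) - ε * Φ.MY (a :: l) T ≤ Φ.EY Γ (a :: l) T) := by
  classical
  obtain ⟨n1, n2, n3, n4, n5, n6, n7, n8, n9⟩ := hΦ.num
  have hlen : l.length ≤ 2 := by
    have := hC.len
    rw [List.length_cons] at this
    omega
  have hlen' : (l.map fun b => Φ.cu b.1).length ≤ 2 := by rwa [List.length_map]
  have hcu : ∀ c' ∈ l.map fun b => Φ.cu b.1, Γ.Ht B c' := fun c' hc' => by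
    obtain ⟨b, -, rfl⟩ := List.mem_map.1 hc'
    exact (hΦ.cu b.1).2
  have h0 := nT_pos fun z hz => Vp_prime hΓ (hC.pt z hz).1
  have hada := hC.ad a List.mem_cons_self
  obtain ⟨-, f1, -, hY1⟩ := hΦ.ad _ _ _ hada.1
  have hn : (nT a.2.1 : ℝ) ≤ Pm := le_trans (Nat.cast_le.2 (Nat.le_of_dvd h0
    (Multiset.prod_dvd_prod_of_le (Multiset.map_le_map hada.2.1)))) hC.size
  obtain ⟨Vs, ω, hω, hω1, hV, hSF⟩ := hΦ.sfe a.1 (QQ Φ Γ a l)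
    (by unfold QQ Gf.modQ; simp only [mul_assoc]; exact Dvd.intro _ rfl) (QQ_pos hΓ hΦ hC)
    (Q_le n1 (hΦ.cu a.1).2 _ hlen' hcu _ hn)
  choose! σ hσ1 hσ2 using fun v (hv : v ∈ Vs) => hL n Γ (Φ.cu a.1) _ (nT a.2.1) B V hΓ
    (hΦ.cu a.1).1 hlen' hcu (hΦ.cu a.1).2 n1 n2 v (hV v hv)
  set fm := Φ.fm a.1 a.2.1 a.2.2
  set U := (l.map fun b => 1 + Φ.eta Γ K a.1 b.1).prod with hU
  let G : Γ.I → ℝ := fun x => ind (∀ z ∈ T, Γ.zr x z) * Xi Φ Γ l x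
  let Y1 : Γ.I → ℝ := Φ.Y Γ a.1 a.2.1 a.2.2
  let Av : Γ.I → ℝ := fun x => ∑ v ∈ Vs, ω v * Y1 (x + σ v)
  let Bd : Γ.I → ℝ := fun x => ind (Φ.Bad Γ q0 a l T x)
  have hΛ : 0 < Λ := by linarith
  have hfm : 0 < fm := lt_of_lt_of_le (by positivity) f1
  have hG : ∀ x, 0 ≤ G x ∧ G x ≤ Ym ^ 2 := fun x => by
    obtain ⟨h1, h2⟩ := prod_le (fun b : C × Multiset Pt × ℕ => Φ.Y Γ b.1 b.2.1 b.2.2 x) Ym l
      fun b hb => ⟨Y_nonneg hΦ _ _ _ _,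
        (hΦ.ad _ _ _ (hC.ad b (List.mem_cons_of_mem _ hb)).1).2.2.2 x⟩
    exact ⟨mul_nonneg (ind_nonneg _) h1, (mul_le_of_le_one_left h1 (ind_le _)).trans
      (h2.trans (pow_le_pow_right₀ n4 hlen))⟩
  have hAv : ∀ x, 0 ≤ Av x ∧ Av x ≤ Ym := fun x =>
    ⟨sum_nonneg fun v _ => mul_nonneg (hω v) (Y_nonneg hΦ _ _ _ _), by
      refine (sum_le_sum fun v _ => mul_le_mul_of_nonneg_left (hY1 _) (hω v)).trans ?_
      rw [← sum_mul, hω1, one_mul]⟩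
  have hE1 : Φ.EY Γ (a :: l) T = Eb Γ.lo Γ.H1 fun x => G x * Y1 x :=
    congrArg (Eb Γ.lo Γ.H1) (funext fun x => by
      simp only [List.map_cons, List.prod_cons, G, Y1, Xi]
      ring)
  have hE2 : Φ.EY Γ l T = Eb Γ.lo Γ.H1 G := rfl
  have hsh := hS Γ.lo Γ.H1 (fun x => G x * Y1 x) (Ym ^ 3) _ Vs ω σ hΓ.pos.2.2.2
    (fun x => by
      rw [abs_of_nonneg (mul_nonneg (hG x).1 (Y_nonneg hΦ _ _ _ _)), pow_succ]
      exact mul_le_mul (hG x).2 (hY1 x) (Y_nonneg hΦ _ _ _ _) (by positivity))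
    hω hω1 (by positivity) hσ1
  have hGA : (fun x => ∑ v ∈ Vs, ω v * (G (x + σ v) * Y1 (x + σ v))) = fun x => G x * Av x := by
    funext x
    rw [mul_sum]
    refine sum_congr rfl fun v hv => ?_
    rw [show G (x + σ v) = G x from inv hA hΓ hΦ hC hT x _ v (hσ2 v hv x).1 fun b hb =>
      (hσ2 v hv x).2 _ (List.mem_map_of_mem hb), mul_left_comm]
  rw [hGA, ← hE1] at hsh
  have hcard : (Fintype.card (Ix Γ.T.e Γ.m) : ℝ) ≤ n * Γ.m := by exact_mod_cast (hA n Γ hΓ).1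
  replace hsh := abs_le.1 (hsh.trans (le_trans (by gcongr) (shift_le hΓ hΦ hC)))
  have hbad : Eb Γ.lo Γ.H1 Bd * (Ym * Λ) ^ 3 ≤ ε / 2 * PT T :=
    hB n Φ Γ B V Λ Ym q0 Pm ε K Tm a l T hΓ hΦ hC
  have hP : 0 < PT T := one_div_pos.2 (Nat.cast_pos.2 h0)
  have hM1 : fm * (PT T / Λ ^ 2) ≤ Φ.MY (a :: l) T := by
    have h1 := prod_ge (fun b : C × Multiset Pt × ℕ => Φ.fm b.1 b.2.1 b.2.2) (1 / Λ)
      (by positivity) l fun b hb => (hΦ.ad _ _ _ (hC.ad b (List.mem_cons_of_mem _ hb)).1).2.1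
    have h2 : (1 / Λ) ^ 2 ≤ (1 / Λ) ^ l.length :=
      pow_le_pow_of_le_one (by positivity) ((div_le_one hΛ).2 n3) hlen
    rw [Fam.MY, List.map_cons, List.prod_cons]
    calc _ = PT T * (fm * (1 / Λ) ^ 2) := by ring
      _ ≤ _ := by gcongr; exact h2.trans h1
  have hM2 : PT T / Λ ^ 3 ≤ Φ.MY (a :: l) T :=
    calc _ = 1 / Λ * (PT T / Λ ^ 2) := by ring
      _ ≤ fm * (PT T / Λ ^ 2) := by gcongr
      _ ≤ _ := hM1
  have hb1 : Ym ^ 3 * Eb Γ.lo Γ.H1 Bd ≤ ε / 2 * (PT T / Λ ^ 3) := by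
    rw [← mul_div_assoc, le_div_iff₀ (by positivity)]
    linarith only [hbad]
  have hE0 : 0 ≤ Eb Γ.lo Γ.H1 Bd :=
    div_nonneg (sum_nonneg fun _ _ => ind_nonneg _) (Nat.cast_nonneg _)
  have hb2 : Ym ^ 2 * Eb Γ.lo Γ.H1 Bd ≤ ε / 2 * (PT T / Λ ^ 2) :=
    calc _ ≤ Ym ^ 3 * Eb Γ.lo Γ.H1 Bd := by gcongr; norm_num
      _ ≤ _ := hb1
      _ ≤ _ := by gcongr; norm_num
  have hκ : ∀ b ∈ l, (1 : ℝ) ≤
      if ∃ q ∈ Φ.LL a.1, (q : ℤ) ∣ Γ.res (Φ.cu a.1) (Φ.cu b.1) then K else 1 := fun b _ => by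
    split_ifs <;> linarith
  have hκ0 := prod_ge _ 1 zero_le_one l hκ
  rw [one_pow] at hκ0
  have hκ1 := one_le_pow₀ (n := n) hκ0
  have hκ2 := fun b hb => (le_prod _ l hκ b hb).trans (le_self_pow₀ hκ0 (NeZero.ne n))
  clear hκ0
  have hrat := rat_le hA hΓ hΦ hC hR
  have hrat1 := (rat_bd hA hΓ hR (Φ.cu a.1) (QQ Φ Γ a l)).1
  have hU' : U = (l.map fun b => Real.exp (4 * sig Γ.W (Γ.res (Φ.cu a.1) (Φ.cu b.1)))).prod ^ n *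
      (l.map fun b => if ∃ q ∈ Φ.LL a.1, (q : ℤ) ∣ Γ.res (Φ.cu a.1) (Φ.cu b.1)
        then K else 1).prod ^ n := by
    rw [hU, ← mul_pow, ← List.prod_map_mul, ← prod_pow]
    exact congrArg List.prod (List.map_congr_left fun b _ => by rw [Fam.eta, add_sub_cancel, et1])
  have hLL : ∀ q ∈ Φ.LL a.1, q ∣ QQ Φ Γ a l → ∃ b ∈ l, (q : ℤ) ∣ Γ.res (Φ.cu a.1) (Φ.cu b.1) :=
    fun q hq h => (QQ_prime hΓ (hΦ.ll _ q hq).1 (hΦ.ll _ q hq).2 h).resolve_right fun h => by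
      obtain ⟨z, hz, rfl⟩ := of_dvd_nT
        (fun z hz => Vp_prime hΓ (pts hΦ hC List.mem_cons_self hz).2.1) (hΦ.ll _ q hq).1 h
      exact (pts hΦ hC List.mem_cons_self hz).2.2.2.2 hq
  generalize (l.map fun b => Real.exp (4 * sig Γ.W (Γ.res (Φ.cu a.1) (Φ.cu b.1)))).prod ^ n = e at *
  generalize (l.map fun b => if ∃ q ∈ Φ.LL a.1, (q : ℤ) ∣ Γ.res (Φ.cu a.1) (Φ.cu b.1)
    then K else 1).prod ^ n = κ at *
  have he : 0 ≤ (1 + ε) * e := by linarith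
  have hU0 : 0 ≤ (1 + ε) ^ 2 * U := by
    rw [hU']
    calc (0 : ℝ) ≤ (1 + ε) * κ * ((1 + ε) * e) := by positivity
      _ = _ := by ring
  have hgood : ∀ x ∈ box Γ.lo Γ.H1, G x ≠ 0 → ¬Φ.Bad Γ q0 a l T x →
      Av x ≤ (1 + ε) ^ 2 * U * fm ∧ ((∀ q ∈ Φ.LL a.1, ¬q ∣ QQ Φ Γ a l) → (1 - ε) * fm ≤ Av x) := by
    intro x hx h1 h2
    obtain ⟨h3, n', h4, h5⟩ := good hA hΓ hΦ hC x (hΦ.sh _ x hx).2
      (of_not_not fun h => left_ne_zero_of_mul h1 (ind_neg h)) (right_ne_zero_of_mul h1) h2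
    obtain ⟨h6, h7⟩ := hSF _ _ _ n' hada.1 sq_dvd (hΦ.sh _ x hx).1 h3 h4 h5
    have hρ := hΦ.rho a.1
    have h8 : ∑ v ∈ Vs, ω v * RwG (Γ.Mh (Φ.cu a.1)) Γ.ss (Φ.St a.1) (Φ.w a.1) a.2.1 a.2.2
        (Γ.gam (Φ.cu a.1) x + (QQ Φ Γ a l : ℤ) • v) = Φ.ρ a.1 * Av x := by
      rw [mul_sum]
      refine sum_congr rfl fun v hv => ?_
      rw [mul_left_comm, show Y1 _ = _ / _ from rfl, mul_div_cancel₀ _ hρ.ne', (hσ2 v hv x).1]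
      rfl
    rw [h8] at h6 h7
    generalize ratG (Γ.Mh (Φ.cu a.1)) (Γ.lev (Φ.cu a.1)) (QQ Φ Γ a l) = r at *
    have h9 : (∀ q ∈ Φ.LL a.1, ¬q ∣ QQ Φ Γ a l) →
        (1 - ε) * (fm * r) ≤ Av x ∧ Av x ≤ (1 + ε) * (fm * r) := fun h => by
      obtain ⟨h10, h11⟩ := abs_le.1 (h7 h)
      constructor <;> refine le_of_mul_le_mul_left ?_ hρ <;> linarith
    refine ⟨?_, fun h => le_trans ?_ (h9 h).1⟩
    · have h10 : Av x ≤ (1 + ε) * κ * (fm * r) := by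
        by_cases h : ∀ q ∈ Φ.LL a.1, ¬q ∣ QQ Φ Γ a l
        · refine (h9 h).2.trans ?_
          gcongr
          exact le_mul_of_one_le_right (by linarith) hκ1
        · push Not at h
          obtain ⟨q, hq, h⟩ := h
          obtain ⟨b, hb, h⟩ := hLL q hq h
          have h11 := hκ2 b hb
          rw [if_pos ⟨q, hq, h⟩] at h11
          have h12 : Av x ≤ K * (fm * r) := le_of_mul_le_mul_left (by linarith) hρ
          refine h12.trans ?_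
          gcongr
          exact h11.trans (le_mul_of_one_le_left (by linarith) (by linarith))
      calc _ ≤ _ := h10
        _ ≤ (1 + ε) * κ * (fm * ((1 + ε) * e)) := by gcongr
        _ = _ := by rw [hU']; ring
    · have : 0 ≤ 1 - ε := by linarith
      gcongr
      exact le_mul_of_one_le_right hfm.le hrat1
  constructor
  · have h1 : Eb Γ.lo Γ.H1 (fun x => G x * Av x) ≤ _ :=
      (Eb_mono fun x hx => ?_).trans (Eb_lin ((1 + ε) ^ 2 * U * fm) (Ym ^ 3) G Bd).le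
    · rw [hE2]
      linarith only [h1, hsh.2, hb1, mul_le_mul_of_nonneg_left hM2 n7.le]
    obtain ⟨g1, g2⟩ := hG x
    obtain ⟨g3, g4⟩ := hAv x
    by_cases h2 : Φ.Bad Γ q0 a l T x
    · rw [show Bd x = 1 from ind_pos h2, mul_one, pow_succ Ym]
      exact le_add_of_nonneg_of_le (by positivity) (mul_le_mul g2 g4 g3 (by positivity))
    · rw [show Bd x = 0 from ind_neg h2, mul_zero, add_zero, mul_comm]
      by_cases h3 : G x = 0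
      · rw [h3, mul_zero, mul_zero]
      · exact mul_le_mul_of_nonneg_right (hgood x hx h3 h2).1 g1
  · intro h
    have h1 : _ ≤ Eb Γ.lo Γ.H1 (fun x => G x * Av x) :=
      (Eb_lin ((1 - ε) * fm) (-(fm * Ym ^ 2)) G Bd).ge.trans (Eb_mono fun x hx => ?_)
    · rw [hE2]
      linarith only [h1, hsh.1, mul_le_mul_of_nonneg_left hb2 hfm.le,
        mul_le_mul_of_nonneg_left hM1 n7.le, mul_le_mul_of_nonneg_left hM2 n7.le]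
    obtain ⟨g1, g2⟩ := hG x
    obtain ⟨g3, g4⟩ := hAv x
    by_cases h2 : Φ.Bad Γ q0 a l T x
    · rw [show Bd x = 1 from ind_pos h2, mul_one]
      linarith only [mul_nonneg g1 g3, mul_le_mul_of_nonneg_left g2 hfm.le,
        mul_nonneg (mul_nonneg n7.le hfm.le) g1]
    · rw [show Bd x = 0 from ind_neg h2, mul_zero, add_zero, mul_comm]
      by_cases h3 : G x = 0
      · rw [h3, zero_mul, zero_mul]
      · exact mul_le_mul_of_nonneg_left ((hgood x hx h3 h2).2 fun q hq hd => by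
          obtain ⟨b, hb, h4⟩ := hLL q hq hd
          exact h b hb q hq h4) g1

end Main

end GDMvC

theorem rMvC : OfMvC := fun hA hS hL hB hR _ _ _ _ _ _ _ _ _ _ _ _ _ _ _ _ _ hΓ hΦ hC hT =>
  GDMvC.main hA hS hL hB hR hΓ hΦ hC hT

end Pool.Agent.MP_f3836a_nt.GV
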