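import Pool.Agent.MP_f3836a_nt.GV.SpecD
import Pool.Agent.MP_f3836a_nt.VE.DMvP

/-! Removing a point which lies on no curve. -/

set_option autoImplicit false

namespace Pool.Agent.MP_f3836a_nt.GV

open Polynomial Finset VE

open DMvP in
theorem rMvP : GV.OfMvP := by
  intro hA hS n _ Γ l T z B M Ξ hΓ hl hc hB hN hV hM hΞ
  have pr0 := fun z' h => hΓ.alg.bas _ _ (hV z' h).1.1
  obtain ⟨hp, -, -, ht⟩ := pr0 z (Multiset.mem_cons_self _ _)
  obtain ⟨hz, hW⟩ := hV z (Multiset.mem_cons_self _ _)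
  have p0 : (0 : ℝ) < z.p := Nat.cast_pos.2 hp.pos
  have five := hΓ.five
  let L : List Cu := l.map fun a => ⟨a, Γ.k, 0, 0, 0, 0⟩
  have hL : L.length ≤ 3 := by simpa [L] using hl
  let σ : ℕ → Γ.I := fun c j => if j.1 = 0 then c * nT T * (pr L).coeff j.2 else 0
  have gA : ∀ x (c : ℕ) i, Γ.gA (x + σ c) i = Γ.gA x i +
      C (if i = 0 then (Γ.W' : ℤ) * (c * nT T) else 0) * pr (⟨Γ.t1, 1, 0, 0, 0, 0⟩ :: L) :=
    fun x c i => by
      split_ifs with h
      · rw [pr_cons]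
        conv_rhs => rw [as_sum_range' (pr L) (Γ.m - max (Γ.T.e i) 1) ((pr_deg L).trans_lt (by
          have := five i; omega)), ← Fin.sum_univ_eq_sum_range (fun i => monomial i ((pr L).coeff i))]
        simp only [Gf.gA, vP, σ, Pi.add_apply, if_pos h, map_add, sum_add_distrib,
          ← C_mul_monomial, ← mul_sum, map_mul, one_pow, map_one]
        ring
      · simp [Gf.gA, vP, σ, h]
  have zr : ∀ x (c : ℕ) z', Γ.zr (x + σ c) z' ↔ (z'.p : ℤ) ∣
      ∑ i, (Γ.gA x i).eval (z'.t : ℤ) * Γ.P.sv z' i + c * (Γ.W' * nT T *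
        ((z'.t - Γ.t1) * (pr L).eval (z'.t : ℤ) * Γ.P.sv z' 0)) := fun x c z' => by
    simp only [Gf.zr, Ps.Zr, InG, gA, eval_add, eval_mul, eval_C, add_mul, sum_add_distrib, ite_mul,
      zero_mul, sum_ite_eq', mem_univ, if_true, pr_cons, eval_sub, eval_X]
    congr! 2
    ring
  have hpz : Prime (z.p : ℤ) := Nat.prime_iff_prime_int.1 hp
  have hu : ¬(z.p : ℤ) ∣ Γ.W' * nT T * ((z.t - Γ.t1) * (pr L).eval (z.t : ℤ) * Γ.P.sv z 0) :=
    hpz.not_dvd_mul (hpz.not_dvd_mul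
      (fun h => hW (hΓ.rad _ hp (.inl (Int.natCast_dvd_natCast.1 h)))) fun h => by
        obtain ⟨q, hq, h⟩ := hp.prime.exists_mem_multiset_dvd (Int.natCast_dvd_natCast.1 h)
        obtain ⟨z', hz, rfl⟩ := Multiset.mem_map.1 hq
        rw [Nd, Multiset.map_cons, Multiset.nodup_cons] at hN
        exact hN.1 ((Nat.prime_dvd_prime_iff_eq hp
          (pr0 z' (Multiset.mem_cons_of_mem hz)).1).1 h ▸ hq))
      (hpz.not_dvd_mul (hpz.not_dvd_mul ht fun h => by
        rw [pr, eval_list_prod, List.map_map, List.map_map] at h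
        obtain ⟨q, hq, h⟩ := hpz.dvd_prod_iff.1 h
        obtain ⟨c, hcl, rfl⟩ := List.mem_map.1 hq
        exact (hc c hcl).2 (by simpa [Gf.on, On, Gf.b] using h)) fun h => by
          have := Fact.mk hp
          exact zero_ne_one (((ZMod.intCast_zmod_eq_zero_iff_dvd _ _).2 h).symm.trans
            (hΓ.alg.hom z hz).1))
  have key := hS Γ.lo Γ.H1 (fun x => ind (∀ z' ∈ z ::ₘ T, Γ.zr x z') * Ξ x) M
    ((nT (z ::ₘ T) : ℝ) * (2 * B) ^ 3) (range z.p) (fun _ => 1 / (z.p : ℝ)) σ hΓ.pos.2.2.2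
    (fun x => by
      rw [abs_mul]
      refine (mul_le_of_le_one_left (abs_nonneg _) ?_).trans (hM x)
      unfold ind
      split_ifs <;> simp) (fun _ => by positivity) (by simp [p0.ne']) (by positivity)
    fun c hcp i => by
      have h1 := (pr_bd (B := B) (by linarith) L (List.forall_mem_map.2 fun a h =>
        ⟨(hc a h).1.1, by exact_mod_cast (hc a h).1.2.1⟩) i.2).trans
        (pow_le_pow_right₀ (by linarith) hL)
      have h2 : (c : ℝ) ≤ z.p := Nat.cast_le.2 (mem_range.1 hcp).le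
      have hn : nT (z ::ₘ T) = z.p * nT T := by simp [nT]
      rw [hn]
      simp only [σ]
      split_ifs
      · push_cast
        rw [abs_mul, abs_of_nonneg (by positivity)]
        gcongr
      · rw [Int.cast_zero, abs_zero]
        positivity
  suffices e2 : (1 / (z.p : ℝ)) * Γ.E (fun x => ind (∀ z' ∈ T, Γ.zr x z') * Ξ x) =
      Eb Γ.lo Γ.H1 fun x => ∑ v ∈ range z.p, 1 / (z.p : ℝ) *
        (ind (∀ z' ∈ z ::ₘ T, Γ.zr (x + σ v) z') * Ξ (x + σ v)) by
    have h0 := (abs_nonneg _).trans (hM 0)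
    have h1 : (Fintype.card (Ix Γ.T.e Γ.m) : ℝ) ≤ n * Γ.m := by exact_mod_cast (hA n Γ hΓ).1
    rw [e2, mul_assoc 2]
    refine key.trans ?_
    gcongr
  unfold Gf.E Eb
  rw [← mul_div_assoc, mul_sum]
  refine congrArg (· / _) (sum_congr rfl fun x _ => ?_)
  have e : ∀ c : ℕ, ind (∀ z' ∈ z ::ₘ T, Γ.zr (x + σ c) z') * Ξ (x + σ c) =
      ind (Γ.zr (x + σ c) z) * (ind (∀ z' ∈ T, Γ.zr x z') * Ξ x) := fun c => by
    rw [Multiset.forall_mem_cons, ind_and, mul_assoc, hΞ (x + σ c) x fun d hd => funext fun i => by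
      have h := hv_pr (l := ⟨Γ.t1, 1, 0, 0, 0, 0⟩ :: L) (m := Γ.m - Γ.T.e i)
        (List.mem_cons_of_mem _ (List.mem_map_of_mem hd)) (Int.natCast_ne_zero.2 hΓ.pos.2.2.1.ne')
        (by have := five i; rw [List.length_cons]; omega)
      simp only [Gf.gam, Tb.val]
      rw [gA, hv_add, Gf.b, h, mul_zero, add_zero]]
    refine congrArg (fun t => _ * (ind t * _)) (propext (forall₂_congr fun z' hz => ?_))
    have d : (z'.p : ℤ) ∣ nT T :=
      Int.natCast_dvd_natCast.2 (Multiset.dvd_prod (Multiset.mem_map_of_mem _ hz))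
    rw [zr]
    exact dvd_add_left (((d.mul_left _).mul_right _).mul_left _)
  simp only [e]
  simp only [zr]
  rw [← mul_sum, ← sum_mul, one hp _ hu, one_mul]

end Pool.Agent.MP_f3836a_nt.GV
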