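import Pool.Agent.MP_f3836a_nt.GV.SpecD
import Pool.Agent.MP_f3836a_nt.VE.DPcA

/-! Row PcA: probability of containing a set with at most two points over each prime. -/

set_option autoImplicit false

namespace Pool.Agent.MP_f3836a_nt.GV

open Polynomial Finset VE VE.DPcA

namespace GDPcA

variable {n : ℕ} {Γ : Gf n}

/-- the linear part of the value -/
noncomputable def L (Γ : Gf n) (σ : Γ.I) (z : Pt) : ℤ :=
  ∑ i, (vP σ i).eval (z.t : ℤ) * Γ.P.sv z i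

/-- the value -/
noncomputable def val (Γ : Gf n) (x : Γ.I) (z : Pt) : ℤ :=
  ∑ i, (Γ.gA x i).eval (z.t : ℤ) * Γ.P.sv z i

theorem val_add (x τ : Γ.I) (c : ℤ) (z : Pt) :
    val Γ (x + c • τ) z = val Γ x z + c * (Γ.W' * (z.t - Γ.t1) * L Γ τ z) := by
  simp only [val, L, mul_sum, ← sum_add_distrib]
  refine sum_congr rfl fun i _ => ?_
  have : (vP (x + c • τ) i).eval (z.t : ℤ) = (vP x i).eval (z.t : ℤ) + c * (vP τ i).eval (z.t : ℤ) := by
    simp only [vP, eval_finsetSum, eval_monomial, Pi.add_apply, Pi.smul_apply, smul_eq_mul, add_mul,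
      sum_add_distrib, mul_sum, mul_assoc]
  simp only [Gf.gA, eval_add, eval_mul, eval_sub, eval_C, eval_X, this]
  ring

theorem dir (hm : ∀ i, Γ.T.e i + 5 ≤ Γ.m) (β γ : Fin n → ℤ) (s : ℕ) (hb : ∀ i, |β i| ≤ s)
    (hc : ∀ i, |γ i| ≤ s) : ∃ τ : Γ.I, (∀ j, |τ j| ≤ s) ∧
      ∀ z, L Γ τ z = ∑ i, (β i + γ i * z.t) * Γ.P.sv z i := by
  refine ⟨fun j => if (j.2 : ℕ) = 0 then β j.1 else if (j.2 : ℕ) = 1 then γ j.1 else 0,
    fun j => ?_, fun z => sum_congr rfl fun i _ => ?_⟩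
  · dsimp only
    split_ifs
    exacts [hb _, hc _, by simp]
  · congr 1
    simp only [vP, eval_finsetSum, eval_monomial]
    obtain ⟨k, e⟩ : ∃ k, Γ.m - max (Γ.T.e i) 1 = k + 2 :=
      ⟨Γ.m - max (Γ.T.e i) 1 - 2, by have := hm i; omega⟩
    rw [Fin.sum_univ_eq_sum_range (fun j => (if j = 0 then β i else if j = 1 then γ i else 0) *
      (z.t : ℤ) ^ j), e, sum_range_succ', sum_range_succ']
    simp [add_comm]

variable [NeZero n]

theorem sep (sp : SplS) (fy : FyS) (ok : Γ.Ok) {z : Pt} (hz : Γ.P.Is z) : ∃ β : Fin n → ℕ,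
    (∀ i, β i ≤ z.p) ∧ ∀ y ∈ Fy Γ.P.r z.p,
      ((z.p : ℤ) ∣ ∑ i, (β i : ℤ) * Γ.P.sv ⟨z.p, z.t, y⟩ i ↔ y ≠ z.y) := by
  obtain ⟨hp, -, h2, -⟩ := ok.alg.bas _ _ hz.1
  have := Fact.mk hp
  have k : ∀ (β : Fin n → ZMod z.p) (w : Pt), ((z.p : ℤ) ∣ ∑ i, ((β i).val : ℤ) * Γ.P.sv w i ↔
      ∑ i, β i * (Γ.P.sv w i : ZMod z.p) = 0) := fun β w => by
    rw [← ZMod.intCast_zmod_eq_zero_iff_dvd]
    simp
  obtain ⟨β, h⟩ := ((sp n (ZMod z.p) (Γ.T.fib (z.t : ZMod z.p))).2 (Fy Γ.P.r z.p)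
    (fun y i => (Γ.P.sv ⟨z.p, z.t, y⟩ i : ZMod z.p)) ((fy _ _ h2).1.trans ok.alg.two.symm)
    (fun y hy => ok.alg.hom ⟨z.p, z.t, y⟩ ⟨hz.1, hy⟩) fun β h => funext fun i => by
      have := (ZMod.intCast_zmod_eq_zero_iff_dvd _ _).2
        (ok.alg.inj _ _ hz.1 (fun i => (β i).val) (fun y hy => (k β _).2 (h y hy)) i)
      simpa using this).2.2 z.y hz.2
  exact ⟨fun i => (β i).val, fun i => (ZMod.val_lt _).le, fun y hy => by rw [k, h y hy]; simp⟩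

/-- a direction that moves `z` and fixes the other points -/
theorem move (sp : SplS) (fy : FyS) (ok : Γ.Ok) {z : Pt} {T : Multiset Pt} (hn : z ∉ T)
    (hz : Γ.P.Is z) (hT : ∀ z' ∈ T, Γ.P.Is z') (hc : (T.map Pt.p).count z.p ≤ 1) :
    ∃ τ : Γ.I, (∀ i, |τ i| ≤ (nT T : ℤ)) ∧ ¬(z.p : ℤ) ∣ L Γ τ z ∧
      ∀ z' ∈ T, (z'.p : ℤ) ∣ L Γ τ z' := by
  have b := ok.alg.bas _ _ hz.1
  have hp := Nat.prime_iff_prime_int.1 b.1
  have h0 : ¬(z.p : ℤ) ∣ Γ.P.sv z 0 := fun h => by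
    have := Fact.mk b.1
    exact one_ne_zero ((ok.alg.hom z hz).1.symm.trans
      ((ZMod.intCast_zmod_eq_zero_iff_dvd _ _).2 h))
  have d0 : ∀ (a c : ℤ) (s : ℕ), |a| ≤ s → |c| ≤ s → ∃ τ : Γ.I, (∀ j, |τ j| ≤ s) ∧
      ∀ w, L Γ τ w = (a + c * w.t) * Γ.P.sv w 0 := fun a c s ha hc => by
    have e : ∀ a : ℤ, |a| ≤ s → ∀ i, |(Pi.single 0 a : Fin n → ℤ) i| ≤ s := fun a ha i => by
      rw [Pi.single_apply]
      split_ifs
      exacts [ha, by simp]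
    obtain ⟨τ, t1, t2⟩ := dir ok.five _ _ s (e a ha) (e c hc)
    exact ⟨τ, t1, fun w => by simp [t2, Pi.single_apply, add_mul, sum_add_distrib]⟩
  by_cases h : ∃ z' ∈ T, z'.p = z.p
  · obtain ⟨z', h1, h2⟩ := h
    obtain ⟨T', rfl⟩ := Multiset.exists_cons_of_mem h1
    have h3 : ¬(z.p : ℤ) ∣ nT T' := not_dvd_nT b.1 fun w hw =>
      ⟨(ok.alg.bas _ _ (hT w (Multiset.mem_cons_of_mem hw)).1).1, fun e => by
        rw [Multiset.map_cons, h2, Multiset.count_cons_self] at hc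
        have := Multiset.count_pos.2 (e ▸ Multiset.mem_map_of_mem Pt.p hw)
        omega⟩
    have h4 := ok.alg.bas _ _ (hT z' h1).1
    have h5 : ∀ a : ℕ, a ≤ z'.p → |(nT T' : ℤ) * a| ≤ nT (z' ::ₘ T') := fun a ha => by
      rw [nT_cons, abs_of_nonneg (by positivity), mul_comm]
      exact_mod_cast Nat.mul_le_mul_right _ ha
    by_cases ht : z.t = z'.t
    · obtain ⟨β, b1, b2⟩ := sep sp fy ok hz
      obtain ⟨τ, t1, t2⟩ := dir ok.five (fun i => nT T' * β i) 0 _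
        (fun i => h5 _ (h2 ▸ b1 i)) fun _ => by simp
      have t3 : ∀ w : Pt, L Γ τ w = nT T' * ∑ i, (β i : ℤ) * Γ.P.sv w i := fun w => by
        simp [t2, mul_sum, mul_assoc]
      refine ⟨τ, t1, fun hd => (hp.dvd_or_dvd (t3 z ▸ hd)).elim h3 fun e => (b2 _ hz.2).1 e rfl,
        fun w hw => ?_⟩
      rw [t3]
      rcases Multiset.mem_cons.1 hw with rfl | hw
      · have e : w = ⟨z.p, z.t, w.y⟩ := by rw [← h2, ht]
        have := (b2 w.y (h2 ▸ (hT w h1).2)).2 fun e' => hn (by rw [e'] at e; exact e ▸ h1)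
        rw [← e, ← h2] at this
        exact this.mul_left _
      · exact (dvd_nT hw).mul_right _
    · obtain ⟨τ, t1, t2⟩ := d0 _ _ _ ((abs_neg _).trans_le (h5 _ h4.2.1.le))
        (by simpa using h5 1 h4.1.pos : |(nT T' : ℤ)| ≤ nT (z' ::ₘ T'))
      have t3 : ∀ w : Pt, L Γ τ w = nT T' * (((w.t : ℤ) - z'.t) * Γ.P.sv w 0) := fun w => by
        rw [t2]; ring
      refine ⟨τ, t1, fun hd => ?_, fun w hw => ?_⟩
      · exact (hp.dvd_or_dvd (t3 z ▸ hd)).elim h3 fun e =>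
          (hp.dvd_or_dvd e).elim (not_dvd_sub b.2.1 (h2 ▸ h4.2.1) ht) h0
      · rw [t3]
        rcases Multiset.mem_cons.1 hw with rfl | hw
        · simp
        · exact (dvd_nT hw).mul_right _
  · obtain ⟨τ, t1, t2⟩ := d0 (nT T) 0 (nT T) (by simp) (by simp)
    have t3 : ∀ w : Pt, L Γ τ w = nT T * Γ.P.sv w 0 := fun w => by rw [t2]; ring
    exact ⟨τ, t1, fun hd => (hp.dvd_or_dvd (t3 z ▸ hd)).elim (not_dvd_nT b.1 fun w hw =>
      ⟨(ok.alg.bas _ _ (hT w hw).1).1, fun e => h ⟨w, hw, e⟩⟩) h0,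
      fun w hw => t3 w ▸ (dvd_nT hw).mul_right _⟩

theorem step (ap : ApiS) (sh : ShiftS) (sp : SplS) (fy : FyS) (ok : Γ.Ok) {z : Pt}
    {T : Multiset Pt} (hn : z ∉ T) (hz : Γ.Vp z) (hT : ∀ z' ∈ T, Γ.Vp z')
    (hc : (T.map Pt.p).count z.p ≤ 1) :
    Γ.E (fun x => ind (∀ w ∈ z ::ₘ T, Γ.zr x w)) ≤
      1 / z.p * Γ.E (fun x => ind (∀ w ∈ T, Γ.zr x w)) + 2 * (n * Γ.m) * 1 * (z.p * nT T) / Γ.H1 := by
  obtain ⟨τ, t1, t2, t3⟩ := move sp fy ok hn hz.1 (fun w hw => (hT w hw).1) hc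
  have b := ok.alg.bas _ _ hz.1.1
  have hq := Nat.prime_iff_prime_int.1 b.1
  have hp : (0 : ℝ) < z.p := Nat.cast_pos.2 b.1.pos
  have hu : ¬(z.p : ℤ) ∣ Γ.W' * (z.t - Γ.t1) * L Γ τ z := fun h =>
    (hq.dvd_or_dvd h).elim (fun h => (hq.dvd_or_dvd h).elim
      (fun h' => hz.2 (ok.rad _ b.1 (.inl (Int.natCast_dvd_natCast.1 h')))) b.2.2.2) t2
  have h1 := sh Γ.lo Γ.H1 (fun x => ind (∀ w ∈ z ::ₘ T, Γ.zr x w)) 1 (z.p * nT T)
    (range z.p) (fun _ => 1 / z.p) (fun c => (c : ℤ) • τ) ok.pos.2.2.2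
    (fun x => abs_le.2 ⟨by linarith [(ind_le (∀ w ∈ z ::ₘ T, Γ.zr x w)).1], (ind_le _).2⟩)
    (fun _ => by positivity) (by simp [hp.ne']) (by positivity) fun c hc i => by
      rw [Pi.smul_apply, smul_eq_mul, Int.cast_mul, abs_mul, Int.cast_natCast, Nat.abs_cast]
      exact mul_le_mul (Nat.cast_le.2 (mem_range.1 hc).le) (by exact_mod_cast t1 i)
        (abs_nonneg _) hp.le
  refine (sub_le_iff_le_add'.1 (abs_le.1 h1).2).trans (add_le_add ?_ (by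
    gcongr
    exact_mod_cast (ap n Γ ok).1))
  rw [Gf.E, Eb, Eb, ← mul_div_assoc, mul_sum]
  refine div_le_div_of_nonneg_right (sum_le_sum fun x _ => ?_) (Nat.cast_nonneg _)
  rw [← mul_sum]
  refine mul_le_mul_of_nonneg_left (le_trans (le_of_eq (sum_congr rfl fun c _ => ?_))
    (sum_le b.1 (v := val Γ x z) hu _)) (by positivity)
  refine congrArg ind (propext ?_)
  rw [Multiset.forall_mem_cons, ← val_add]
  refine and_congr Iff.rfl (forall₂_congr fun w hw => ?_)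
  show (w.p : ℤ) ∣ val Γ _ w ↔ (w.p : ℤ) ∣ val Γ x w
  rw [val_add]
  exact dvd_add_left (((t3 w hw).mul_left _).mul_left _)

end GDPcA

open GDPcA in
theorem rPcA : GV.OfPcA := by
  intro ap sh sp fy n _ Γ T ok
  induction T using Multiset.induction_on with
  | empty =>
    intro _ _ _
    simp [Gf.E, Eb, PT, nT, ind, div_self_le_one]
  | cons z T ih =>
    intro hn hv hc
    rw [Multiset.nodup_cons] at hn
    have hz := hv z (Multiset.mem_cons_self _ _)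
    have hT : ∀ w ∈ T, Γ.Vp w := fun w hw => hv w (Multiset.mem_cons_of_mem hw)
    have h1 := step ap sh sp fy ok hn.1 hz hT (by
      have := hc z.p
      rw [Multiset.map_cons, Multiset.count_cons_self] at this
      omega)
    have h2 := ih hn.2 hT fun p => le_trans (by
      rw [Multiset.map_cons]
      exact Multiset.count_le_count_cons _ _ _) (hc p)
    have hp : (2 : ℝ) ≤ z.p := by exact_mod_cast (ok.alg.bas _ _ hz.1.1).1.two_le
    have hN : (1 : ℝ) ≤ nT T := by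
      exact_mod_cast nT_pos fun w hw => (ok.alg.bas _ _ (hT w hw).1.1).1
    have hH : (0 : ℝ) < Γ.H1 := Nat.cast_pos.2 ok.pos.2.2.2
    have h3 : 1 / (z.p : ℝ) * PT T = PT (z ::ₘ T) := by
      rw [PT, PT, nT_cons, Nat.cast_mul, one_div_mul_one_div]
    have h4 : 1 / (z.p : ℝ) * (4 * n * Γ.m * T.card * (nT T : ℝ) ^ 2 / Γ.H1) ≤
        4 * n * Γ.m * T.card * (z.p * nT T : ℝ) ^ 2 / Γ.H1 := by
      refine (mul_le_of_le_one_left (by positivity)
        ((div_le_one (by linarith)).2 (by linarith))).trans ?_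
      gcongr
      exact le_mul_of_one_le_left (by linarith) (by linarith)
    have h5 : 2 * (n * Γ.m) * 1 * ((z.p : ℝ) * nT T) / Γ.H1 ≤
        4 * n * Γ.m * (z.p * nT T : ℝ) ^ 2 / Γ.H1 := by
      refine div_le_div_of_nonneg_right ?_ hH.le
      have a : (1 : ℝ) ≤ z.p * nT T := by nlinarith
      have b : (0 : ℝ) ≤ n * Γ.m * (z.p * nT T) := by positivity
      nlinarith [mul_le_mul_of_nonneg_left a b]
    have h6 := mul_le_mul_of_nonneg_left h2 (show (0 : ℝ) ≤ 1 / z.p by positivity)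
    rw [mul_add, h3] at h6
    rw [nT_cons, Multiset.card_cons]
    push_cast
    rw [show 4 * (n : ℝ) * Γ.m * (T.card + 1) * (z.p * nT T : ℝ) ^ 2 / Γ.H1 =
      4 * n * Γ.m * T.card * (z.p * nT T : ℝ) ^ 2 / Γ.H1
        + 4 * n * Γ.m * (z.p * nT T : ℝ) ^ 2 / Γ.H1 by ring]
    linarith

end Pool.Agent.MP_f3836a_nt.GV
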