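import Pool.Agent.MP_f3836a_nt.GV.SpecD
import Pool.Agent.MP_f3836a_nt.VE.DPcB

/-! The degenerate classes. -/

set_option autoImplicit false

namespace Pool.Agent.MP_f3836a_nt.GV

open Polynomial Finset VE

namespace GDPcB

variable {n : ℕ} [NeZero n] {Γ : Gf n}

/-- the shift of the two lowest coefficients of the first component -/
def sh (Γ : Gf n) (u0 u1 : ℤ) : Γ.I := fun j =>
  if j.1 = 0 then (if (j.2 : ℕ) = 0 then u0 else if (j.2 : ℕ) = 1 then u1 else 0) else 0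

theorem vP_sh (h : Γ.Ok) (u0 u1 : ℤ) (i : Fin n) :
    vP (sh Γ u0 u1) i = if i = 0 then monomial 0 u0 + monomial 1 u1 else 0 := by
  split_ifs with hi
  · subst hi
    obtain ⟨k, hk⟩ : ∃ k, Γ.m - max (Γ.T.e 0) 1 = k + 1 + 1 :=
      ⟨Γ.m - 3, by have := h.five 0; have := h.tb.e0; omega⟩
    simp only [vP, sh, if_true]
    rw [Fin.sum_univ_eq_sum_range (fun i => monomial i
      (if i = 0 then u0 else if i = 1 then u1 else 0)), hk, sum_range_succ', sum_range_succ']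
    simp [add_comm]
  · simp [vP, sh, hi]

theorem gA_sh (h : Γ.Ok) (x : Γ.I) (u0 u1 : ℤ) (i : Fin n) : Γ.gA (x + sh Γ u0 u1) i =
    Γ.gA x i + if i = 0 then C (Γ.W' : ℤ) * (X - C Γ.t1) * (monomial 0 u0 + monomial 1 u1)
      else 0 := by
  have e : vP (x + sh Γ u0 u1) i = vP x i + vP (sh Γ u0 u1) i := by
    simp only [vP, Pi.add_apply, map_add, sum_add_distrib]
  rw [Gf.gA, Gf.gA, e, vP_sh h, mul_add, add_assoc]
  split_ifs <;> simp

theorem zr_sh (h : Γ.Ok) (x : Γ.I) {u0 u1 : ℤ} (v : ℤ) {z : Pt}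
    (hz : (z.p : ℤ) ∣ u0 + u1 * z.t) : Γ.zr (x + sh Γ (v * u0) (v * u1)) z ↔ Γ.zr x z := by
  simp only [Gf.zr, Ps.Zr, InG, gA_sh h, eval_add, add_mul, sum_add_distrib]
  refine dvd_add_left (dvd_sum fun i _ => Dvd.dvd.mul_right ?_ _)
  split_ifs
  · convert hz.mul_left (Γ.W' * (z.t - Γ.t1) * v) using 1
    simp only [eval_add, eval_mul, eval_sub, eval_monomial, eval_C, eval_X]
    ring
  · simp

theorem gam_sh (h : Γ.Ok) (a : ℤ) (x : Γ.I) (u0 u1 : ℤ) : Γ.gam a (x + sh Γ u0 u1) =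
    Γ.gam a x + Pi.single 0 (Γ.W' * (a - Γ.t1 * Γ.b) * Γ.b ^ (Γ.m - 2) * (u0 * Γ.b + u1 * a)) := by
  funext i
  simp only [Gf.gam, Tb.val, gA_sh h, DPcB.hv_add, Pi.add_apply, Pi.single_apply]
  congr 1
  split_ifs with hi
  · subst hi
    obtain ⟨k, hk⟩ : ∃ k, Γ.m = k + 2 := ⟨Γ.m - 2, by have := h.five 0; omega⟩
    have e : C (Γ.W' : ℤ) * (X - C Γ.t1) * (monomial 0 u0 + monomial 1 u1) =
        monomial 0 (-(Γ.W' * Γ.t1 * u0)) + monomial 1 (Γ.W' * (u0 - Γ.t1 * u1)) +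
          monomial 2 (Γ.W' * u1) := by
      simp only [← C_mul_X_pow_eq_monomial, map_mul, map_neg, map_sub]
      ring
    rw [e, h.tb.e0, hk, DPcB.hv_add, DPcB.hv_add, DPcB.hv_mon (by omega), DPcB.hv_mon (by omega),
      DPcB.hv_mon (by omega)]
    simp only [Nat.sub_zero, Nat.add_sub_cancel, show k + 2 - 1 = k + 1 from rfl]
    ring
  · simp [hv]

theorem nm_single {R : Type} [CommRing R] {M : Tab R n} (h0 : M 0 = 1) (β : Fin n → R) (U : R) :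
    Nm M (β + Pi.single 0 U) = (Mx M (-β)).charpoly.eval U := by
  rw [Matrix.eval_charpoly, Nm]
  congr 1
  simp only [Mx, Pi.add_apply, add_smul, sum_add_distrib, Pi.neg_apply, neg_smul, sum_neg_distrib,
    sub_neg_eq_add, Pi.single_apply, ite_smul, zero_smul, sum_ite_eq', mem_univ, if_true, h0]
  rw [add_comm, Matrix.scalar_apply, Matrix.smul_one_eq_diagonal]

theorem nm_sh (hA : ApiS) (h : Γ.Ok) (a : ℤ) (x : Γ.I) (u0 u1 v : ℤ) :
    Γ.nm a (x + sh Γ (v * u0) (v * u1)) = (Mx (Γ.Mh a) (-Γ.gam a x)).charpoly.eval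
      (v * (Γ.W' * (a - Γ.t1 * Γ.b) * Γ.b ^ (Γ.m - 2) * (u0 * Γ.b + u1 * a))) := by
  rw [Gf.nm, gam_sh h, nm_single ((hA n Γ h).2.2.2.1 a)]
  congr 1
  ring

omit [NeZero n] in
theorem E_mono {F G : Γ.I → ℝ} (h : ∀ x, F x ≤ G x) : Γ.E F ≤ Γ.E G :=
  div_le_div_of_nonneg_right (sum_le_sum fun x _ => h x) (Nat.cast_nonneg _)

omit [NeZero n] in
theorem E_add (F G : Γ.I → ℝ) : Γ.E (fun x => F x + G x) = Γ.E F + Γ.E G := by
  simp only [Gf.E, Eb, sum_add_distrib, add_div]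

omit [NeZero n] in
theorem E_mul (a : ℝ) (F : Γ.I → ℝ) : Γ.E (fun x => a * F x) = a * Γ.E F := by
  simp only [Gf.E, Eb, ← mul_sum, mul_div_assoc]

omit [NeZero n] in
theorem E_sum (S : Finset ℕ) (F : ℕ → Γ.I → ℝ) :
    Γ.E (fun x => ∑ y ∈ S, F y x) = ∑ y ∈ S, Γ.E (F y) := by
  simp only [Gf.E, Eb, ← sum_div]
  rw [sum_comm]

open Classical in
/-- conditioning by a shift -/
theorem cond (hA : ApiS) (hS : ShiftS) (h : Γ.Ok) {l N r : ℕ} (hl : 0 < l) {u0 u1 : ℤ}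
    (h0 : |u0| ≤ N) (h1 : |u1| ≤ N) (P Q : Γ.I → Prop)
    (hP : ∀ x (v : ℕ), Q (x + sh Γ (v * u0) (v * u1)) → P x)
    (hr : ∀ x (s : Finset ℕ), (∀ v ∈ s, v ∈ range l ∧ Q (x + sh Γ (v * u0) (v * u1))) →
      s.card ≤ r) :
    Γ.E (fun x => ind (Q x)) ≤ r / l * Γ.E (fun x => ind (P x)) +
      2 * n * Γ.m * (l * N) / Γ.H1 := by
  have l0 : (0 : ℝ) < l := by exact_mod_cast hl
  have hb : ∀ v ∈ range l, ∀ u : ℤ, |u| ≤ N → |((v * u : ℤ) : ℝ)| ≤ l * N := fun v hv u hu => by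
    have : |(v : ℤ) * u| ≤ l * N := by
      rw [abs_mul, Nat.abs_cast]
      exact mul_le_mul (by exact_mod_cast (mem_range.1 hv).le) hu (abs_nonneg _) (by positivity)
    exact_mod_cast this
  have e := (abs_le.1 (hS Γ.lo Γ.H1 (fun x => ind (Q x)) 1 (l * N) (range l) (fun _ => 1 / l)
    (fun v => sh Γ (v * u0) (v * u1)) h.pos.2.2.2
    (fun x => by unfold ind; split_ifs <;> simp) (fun _ => by positivity)
    (by rw [sum_const, card_range, nsmul_eq_mul, mul_one_div_cancel l0.ne']) (by positivity)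
    fun v hv i => by
      simp only [sh]
      split_ifs
      exacts [hb v hv _ h0, hb v hv _ h1, by simp; positivity, by simp; positivity])).2
  have e2 : Γ.E (fun x => ∑ v ∈ range l, 1 / (l : ℝ) * ind (Q (x + sh Γ (v * u0) (v * u1)))) ≤
      r / l * Γ.E (fun x => ind (P x)) := by
    rw [← E_mul]
    refine E_mono fun x => ?_
    rw [← mul_sum]
    by_cases hx : P x
    · simp only [ind, sum_boole, if_pos hx, mul_one]
      rw [one_div_mul_eq_div]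
      exact div_le_div_of_nonneg_right (by exact_mod_cast hr x _ fun v => mem_filter.1) l0.le
    · simp only [ind]
      rw [sum_eq_zero fun v _ => if_neg (mt (hP x v) hx), if_neg hx, mul_zero, mul_zero]
  have e3 : (Fintype.card (Ix Γ.T.e Γ.m) : ℝ) ≤ n * Γ.m := by exact_mod_cast (hA n Γ h).1
  have e4 : 2 * (Fintype.card (Ix Γ.T.e Γ.m) : ℝ) * 1 * (l * N) / Γ.H1 ≤
      2 * n * Γ.m * (l * N) / Γ.H1 := by
    rw [mul_one, mul_assoc 2 (n : ℝ)]
    gcongr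
  unfold Gf.E at e2 ⊢
  linarith

omit [NeZero n] in
theorem few {l : ℕ} (hl : l.Prime) {U : ℤ} (hU : ¬(l : ℤ) ∣ U) (A : Matrix (Fin n) (Fin n) ℤ)
    (s : Finset ℕ) (hs : ∀ v ∈ s, v ∈ range l ∧ (l : ℤ) ∣ A.charpoly.eval (v * U)) :
    s.card ≤ n := by
  classical
  have := Fact.mk hl
  have hp := Nat.prime_iff_prime_int.1 hl
  have hm : (A.charpoly.map (Int.castRingHom (ZMod l))).Monic := A.charpoly_monic.map _
  have hd : (A.charpoly.map (Int.castRingHom (ZMod l))).natDegree = n := by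
    rw [A.charpoly_monic.natDegree_map, Matrix.charpoly_natDegree_eq_dim, Fintype.card_fin]
  refine (card_le_card_of_injOn (t := (A.charpoly.map (Int.castRingHom (ZMod l))).roots.toFinset)
    (fun v : ℕ => ((v * U : ℤ) : ZMod l)) (fun v hv => ?_) fun v hv w hw e => ?_).trans
    ((Multiset.toFinset_card_le _).trans ((card_roots' _).trans hd.le))
  · rw [mem_coe, Multiset.mem_toFinset, mem_roots hm.ne_zero, IsRoot.def]
    have := (ZMod.intCast_zmod_eq_zero_iff_dvd _ l).2 (hs v hv).2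
    rwa [← eq_intCast (Int.castRingHom (ZMod l)), ← eval₂_hom, ← eval_map] at this
  · have e2 : (l : ℤ) ∣ (v - w) * U := by
      rw [← ZMod.intCast_zmod_eq_zero_iff_dvd, sub_mul, Int.cast_sub]
      exact sub_eq_zero.2 e
    exact DPcB.eq_of_dvd (hs v hv).1 (hs w hw).1 ((hp.dvd_or_dvd e2).resolve_right hU)

theorem one {l : ℕ} (hl : l.Prime) {U : ℤ} (hU : ¬(l : ℤ) ∣ U) (f : ℤ[X]) (s : Finset ℕ)
    (hs : ∀ v ∈ s, v ∈ range l ∧ ¬(l : ℤ) ∣ f.coeff 1 ∧ (l : ℤ) ^ 2 ∣ f.eval (v * (l * U))) :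
    s.card ≤ 1 := by
  have hp := Nat.prime_iff_prime_int.1 hl
  refine card_le_one.2 fun v hv w hw => DPcB.eq_of_dvd (hs v hv).1 (hs w hw).1 ?_
  have hd : f.derivative.eval 0 = f.coeff 1 := by
    rw [← coeff_zero_eq_eval_zero, coeff_derivative]
    simp
  obtain ⟨c, hc⟩ := f.binomExpansion 0 (v * (l * U))
  obtain ⟨d, hd'⟩ := f.binomExpansion 0 (w * (l * U))
  have h1 := (hs v hv).2.2
  have h2 := (hs w hw).2.2
  rw [zero_add, hd] at hc hd'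
  rw [hc] at h1
  rw [hd'] at h2
  have e : (l : ℤ) * l ∣ l * ((v - w) * U * f.coeff 1) := by
    rw [← sq]
    exact (dvd_sub (dvd_sub h1 h2) (dvd_mul_right _ ((c * v ^ 2 - d * w ^ 2) * U ^ 2))).trans
      (dvd_of_eq (by ring))
  exact (hp.dvd_or_dvd ((hp.dvd_or_dvd ((mul_dvd_mul_iff_left hp.ne_zero).1 e)).resolve_right
    (hs v hv).2.1)).resolve_right hU

theorem unit (h : Γ.Ok) {a : ℤ} {l : ℕ} (hl : l.Prime) (hW : ¬l ∣ Γ.lev a) :
    ¬l ∣ Γ.W ∧ ¬(l : ℤ) ∣ Γ.b ∧ ¬(l : ℤ) ∣ Γ.W' * (a - Γ.t1 * Γ.b) * Γ.b ^ (Γ.m - 2) := by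
  have hp := Nat.prime_iff_prime_int.1 hl
  have h1 : ¬l ∣ Γ.W := fun e => hW (e.mul_right _)
  have h2 : ¬(l : ℤ) ∣ Γ.b := fun e =>
    h1 (h.rad l hl (.inr (.inl (Int.natCast_dvd_natCast.1 (hp.dvd_of_dvd_pow e)))))
  refine ⟨h1, h2, fun e => (hp.dvd_or_dvd e).elim (fun e => (hp.dvd_or_dvd e).elim
    (fun e => h1 (h.rad l hl (.inl (Int.natCast_dvd_natCast.1 e))))
    fun e => hW ((Int.natCast_dvd.1 e).mul_left _)) fun e => h2 (hp.dvd_of_dvd_pow e)⟩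

/-- a simple zero -/
theorem simple (hA : ApiS) (hSp : SplS) (hF : FyS) (h : Γ.Ok) {a : ℤ} {z : Pt} (hz : Γ.Vp z)
    (hon : Γ.on a z) {x : Γ.I} (h0 : Γ.zr x z)
    (h1 : ∀ y ∈ (Fy Γ.P.r z.p).erase z.y, ¬Γ.zr x ⟨z.p, z.t, y⟩) :
    ¬(z.p : ℤ) ∣ (Mx (Γ.Mh a) (-Γ.gam a x)).charpoly.coeff 1 := by
  have A := fun y (hy : y ∈ Fy Γ.P.r z.p) =>
    (hA n Γ h).2.2.2.2.2.1 a ⟨z.p, z.t, y⟩ ⟨⟨hz.1.1, hy⟩, hz.2⟩ hon
  have A0 := A z.y hz.1.2
  have := Fact.mk A0.1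
  have hin : ∀ (β : Fin n → ℤ) (y : ℕ), InG Γ.ss β ⟨z.p, z.t, y⟩ ↔
      ∑ i, (β i : ZMod z.p) * (Γ.ss ⟨z.p, z.t, y⟩ i : ZMod z.p) = 0 := fun β y => by
    rw [InG, ← ZMod.intCast_zmod_eq_zero_iff_dvd]
    push_cast
    rfl
  have e := (((hSp n (ZMod z.p) fun i => (Γ.Mh a i).map (Int.cast : ℤ → ZMod z.p)).2
    (Fy Γ.P.r z.p) (fun y i => (Γ.ss ⟨z.p, z.t, y⟩ i : ZMod z.p))
    (((hF _ _ (h.alg.bas _ _ hz.1.1).2.2.1).1).trans h.alg.two.symm)
    (fun y hy => (A y hy).2.2.2.1) fun β hβ => by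
      choose γ hγ using fun i => ZMod.intCast_surjective (β i)
      funext i
      rw [← hγ i]
      refine (ZMod.intCast_zmod_eq_zero_iff_dvd _ _).2 (A0.2.2.2.2.2.2 γ (fun y hy => ?_) i)
      rw [hin]
      simp only [hγ]
      exact hβ y hy).1 fun i => ((-Γ.gam a x) i : ZMod z.p)).2
  have e2 : (Mx (fun i => (Γ.Mh a i).map (Int.cast : ℤ → ZMod z.p))
      fun i => ((-Γ.gam a x) i : ZMod z.p)) =
      (Mx (Γ.Mh a) (-Γ.gam a x)).map (Int.castRingHom (ZMod z.p)) := by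
    ext i j
    simp only [Mx, Matrix.sum_apply, Matrix.map_apply, Matrix.smul_apply, smul_eq_mul, map_sum,
      map_mul, eq_intCast]
  rw [← ZMod.intCast_zmod_eq_zero_iff_dvd, ← eq_intCast (Int.castRingHom (ZMod z.p)), ← coeff_map,
    ← Matrix.charpoly_map, ← e2, e, ← mul_prod_erase _ _ hz.1.2]
  simp only [Pi.neg_apply, Int.cast_neg, neg_mul, sum_neg_distrib]
  rw [(hin _ _).1 ((A0.2.2.1 x).2 h0), neg_zero, C_0, sub_zero, coeff_X_mul,
    coeff_zero_eq_eval_zero, eval_prod]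
  refine prod_ne_zero_iff.2 fun y hy => ?_
  rw [eval_sub, eval_X, eval_C, zero_sub, neg_neg]
  exact fun e3 => h1 y hy (((A y (mem_of_mem_erase hy)).2.2.1 x).1 ((hin _ _).2 e3))

end GDPcB

open GDPcB in
theorem rPcB : OfPcB := by
  intro hA hS hSp hF hP n _ Γ a T h hT hV
  classical
  have hpr : ∀ z ∈ T, z.p.Prime := fun z hz => (h.alg.bas _ _ (hV z hz).1.1).1
  have n1 : (1 : ℝ) ≤ nT T := by exact_mod_cast DPcB.nT_pos hpr
  have N1 : (1 : ℝ) ≤ n := by exact_mod_cast NeZero.one_le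
  have H0 : (0 : ℝ) < Γ.H1 := by exact_mod_cast h.pos.2.2.2
  have hc1 := Multiset.nodup_iff_count_le_one.1 hT
  have hE := hP n Γ T h (Multiset.Nodup.of_map _ hT) hV fun p => (hc1 p).trans one_le_two
  obtain ⟨D, hD⟩ : ∃ D : ℝ, D = n * Γ.m / Γ.H1 := ⟨_, rfl⟩
  have D0 : 0 ≤ D := by rw [hD]; positivity
  have eD : ∀ a b : ℝ, a * n * Γ.m * b / Γ.H1 = a * b * D := fun a b => by rw [hD]; ring
  have eD2 : ∀ b c : ℝ, 64 * n ^ 2 * Γ.m * b * c / Γ.H1 = 64 * (n * (b * c * D)) :=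
    fun a b => by rw [hD]; ring
  have k0 : (0 : ℝ) ≤ T.card := Nat.cast_nonneg _
  have P0 : 0 ≤ PT T := by unfold PT; positivity
  rw [mul_assoc (4 * _ * _), eD] at hE
  refine ⟨fun l hl hW hon => ?_, fun z0 hz hon => ?_⟩
  · have hp := Nat.prime_iff_prime_int.1 hl
    obtain ⟨u1W, u1b, u1U⟩ := unit h hl hW
    obtain ⟨u0, u1, h0, h1, h2, h3⟩ : ∃ u0 u1 : ℤ, |u0| ≤ nT T ∧ |u1| ≤ nT T ∧
        (∀ z ∈ T, (z.p : ℤ) ∣ u0 + u1 * z.t) ∧ ¬(l : ℤ) ∣ u0 * Γ.b + u1 * a := by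
      by_cases hz : ∃ z ∈ T, z.p = l
      · obtain ⟨z, hz, rfl⟩ := hz
        obtain ⟨T0, rfl⟩ := Multiset.exists_cons_of_mem hz
        rw [Nd, Multiset.map_cons, Multiset.nodup_cons] at hT
        have h4 := (h.alg.bas _ _ (hV z hz).1.1).2.1
        refine ⟨z.t * nT T0, -nT T0, ?_, ?_, fun z' hz' => ?_, fun e => ?_⟩
        · rw [DPcB.nT_cons, abs_of_nonneg (by positivity)]
          exact_mod_cast Nat.mul_le_mul_right _ h4.le
        · rw [DPcB.nT_cons, abs_neg, Nat.abs_cast]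
          exact_mod_cast Nat.le_mul_of_pos_left _ hl.pos
        · rcases Multiset.mem_cons.1 hz' with rfl | h5
          · exact ⟨0, by ring⟩
          · exact ((Int.natCast_dvd_natCast.2 (DPcB.dvd_nT h5)).mul_right
              ((z.t : ℤ) - z'.t)).trans (dvd_of_eq (by ring))
        · have e2 : (z.p : ℤ) ∣ nT T0 * (Γ.b * z.t - a) := e.trans (dvd_of_eq (by ring))
          exact (hp.dvd_or_dvd e2).elim (DPcB.not_dvd
            (fun w hw => hpr w (Multiset.mem_cons_of_mem hw))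
            hl fun w hw e3 => hT.1 (Multiset.mem_map.2 ⟨w, hw, e3⟩)) (hon z hz rfl)
      · refine ⟨nT T, 0, (Nat.abs_cast _).le, by simp, fun z hz => ?_, fun e => ?_⟩
        · simpa using Int.natCast_dvd_natCast.2 (DPcB.dvd_nT hz)
        · rw [zero_mul, add_zero] at e
          exact (hp.dvd_or_dvd e).elim (DPcB.not_dvd hpr hl fun w hw e3 => hz ⟨w, hw, e3⟩) u1b
    have e := cond (r := n) hA hS h hl.pos h0 h1 (fun x => ∀ z ∈ T, Γ.zr x z)
      (fun x => (∀ z ∈ T, Γ.zr x z) ∧ (l : ℤ) ∣ Γ.nm a x)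
      (fun x v hx z hz => (zr_sh h x v (h2 z hz)).1 (hx.1 z hz)) fun x s hs =>
        few hl (fun e => (hp.dvd_or_dvd e).elim u1U h3) (Mx (Γ.Mh a) (-Γ.gam a x)) s
          fun v hv => ⟨(hs v hv).1, by
            have := (hs v hv).2.2
            rwa [nm_sh hA h] at this⟩
    have l2 : (2 * n : ℝ) ≤ l := by
      exact_mod_cast (not_le.1 fun e => u1W (h.rad l hl (.inr (.inr e)))).le
    have a1 : (n : ℝ) / l ≤ 1 := (div_le_one (by linarith)).2 (by linarith)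
    have a2 := mul_le_mul_of_nonneg_left hE (show (0 : ℝ) ≤ n / l by positivity)
    have a3 : (nT T : ℝ) ≤ nT T * l := le_mul_of_one_le_right (by linarith) (by linarith)
    have a4 : (nT T : ℝ) ^ 2 ≤ (nT T * l) ^ 2 := pow_le_pow_left₀ (by linarith) a3 2
    have a5 : (l : ℝ) * nT T ≤ (nT T * l) ^ 2 := by nlinarith
    have a6 := mul_le_of_le_one_left (show 0 ≤ 4 * (T.card * (nT T : ℝ) ^ 2) * D by positivity) a1
    have a7 := mul_le_mul_of_nonneg_right (mul_le_mul_of_nonneg_left a4 k0) D0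
    have a8 := mul_le_mul_of_nonneg_right a5 D0
    have a9 : 0 ≤ T.card * ((nT T : ℝ) * l) ^ 2 * D := by positivity
    have a10 : 0 ≤ ((nT T : ℝ) * l) ^ 2 * D := by positivity
    have a11 := le_mul_of_one_le_left
      (show 0 ≤ (T.card + 1) * ((nT T : ℝ) * l) ^ 2 * D by positivity) N1
    have a12 : 0 ≤ (n : ℝ) / l * PT T := by positivity
    rw [eD] at e
    rw [eD2, mul_div_assoc]
    linarith
  · obtain ⟨hl, hW, -⟩ := (hA n Γ h).2.2.2.2.2.1 a z0 (hV z0 hz) hon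
    have hp := Nat.prime_iff_prime_int.1 hl
    obtain ⟨-, u1b, u1U⟩ := unit h hl hW
    have l1 : (1 : ℝ) ≤ z0.p := by exact_mod_cast hl.pos
    have l2 : (z0.p : ℝ) ≤ nT T := by
      exact_mod_cast Nat.le_of_dvd (DPcB.nT_pos hpr) (DPcB.dvd_nT hz)
    have a3 : (z0.p : ℝ) * nT T ≤ nT T ^ 2 := by nlinarith
    have a4 : (nT T : ℝ) ^ 2 ≤ nT T ^ 4 := pow_le_pow_right₀ n1 (by norm_num)
    have a5 : ((z0.p : ℝ) * nT T) ^ 2 ≤ nT T ^ 4 :=
      (pow_le_pow_left₀ (by positivity) a3 2).trans_eq (by ring)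
    have a9 := mul_le_mul_of_nonneg_right (mul_le_mul_of_nonneg_left a5
      (show (0 : ℝ) ≤ T.card + 1 by linarith)) D0
    have e1 : ∀ y ∈ (Fy Γ.P.r z0.p).erase z0.y,
        Γ.E (fun x => ind (∀ z ∈ (⟨z0.p, z0.t, y⟩ : Pt) ::ₘ T, Γ.zr x z)) ≤
          1 / z0.p * PT T + 4 * ((T.card + 1) * (nT T : ℝ) ^ 4 * D) := fun y hy => by
      have e1 := hP n Γ (⟨z0.p, z0.t, y⟩ ::ₘ T) h (Multiset.nodup_cons.2 ⟨fun hm =>
        ne_of_mem_erase hy (congrArg Pt.y (Multiset.inj_on_of_nodup_map hT _ hm _ hz rfl)),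
        Multiset.Nodup.of_map _ hT⟩) (fun z hz' => by
          rcases Multiset.mem_cons.1 hz' with rfl | h5
          · exact ⟨⟨(hV z0 hz).1.1, mem_of_mem_erase hy⟩, (hV z0 hz).2⟩
          · exact hV z h5) fun p => by
          rw [Multiset.map_cons, Multiset.count_cons]
          have := hc1 p
          split_ifs <;> omega
      have e4 : PT (⟨z0.p, z0.t, y⟩ ::ₘ T) = 1 / z0.p * PT T := by
        rw [PT, PT, DPcB.nT_cons, one_div_mul_one_div, Nat.cast_mul]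
      rw [e4, mul_assoc (4 * _ * _), eD, Multiset.card_cons, DPcB.nT_cons] at e1
      push_cast at e1
      linarith
    obtain ⟨n', hn⟩ := DPcB.dvd_nT hz
    have hn' : ¬(z0.p : ℤ) ∣ n' := by
      obtain ⟨T0, rfl⟩ := Multiset.exists_cons_of_mem hz
      rw [Nd, Multiset.map_cons, Multiset.nodup_cons] at hT
      rw [DPcB.nT_cons] at hn
      rw [← Nat.eq_of_mul_eq_mul_left hl.pos hn]
      exact DPcB.not_dvd (fun w hw => hpr w (Multiset.mem_cons_of_mem hw)) hl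
        fun w hw e3 => hT.1 (Multiset.mem_map.2 ⟨w, hw, e3⟩)
    have h2 : ∀ z ∈ T, ∀ t : ℤ, (z.p : ℤ) ∣ nT T + 0 * t := fun z hz t => by
      simpa using Int.natCast_dvd_natCast.2 (DPcB.dvd_nT hz)
    have e2 := cond (r := 1) (u0 := nT T) (u1 := 0) hA hS h hl.pos (Nat.abs_cast _).le (by simp)
      (fun x => ∀ z ∈ T, Γ.zr x z)
      (fun x => (∀ z ∈ T, Γ.zr x z) ∧
        (∀ y ∈ (Fy Γ.P.r z0.p).erase z0.y, ¬Γ.zr x ⟨z0.p, z0.t, y⟩) ∧ (z0.p : ℤ) ^ 2 ∣ Γ.nm a x)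
      (fun x v hx z hz => (zr_sh h x v (h2 z hz _)).1 (hx.1 z hz)) fun x s hs =>
        one (U := Γ.W' * (a - Γ.t1 * Γ.b) * Γ.b ^ (Γ.m - 2) * (n' * Γ.b)) hl
          (fun e => (hp.dvd_or_dvd e).elim u1U fun e => (hp.dvd_or_dvd e).elim hn' u1b)
          (Mx (Γ.Mh a) (-Γ.gam a x)).charpoly s fun v hw => by
            obtain ⟨h3, h4, h5, h6⟩ := hs v hw
            refine ⟨h3, simple hA hSp hF h (hV z0 hz) hon
              ((zr_sh h x v (h2 z0 hz _)).1 (h4 z0 hz)) fun y hy e =>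
                h5 y hy ((zr_sh h x v (z := ⟨z0.p, z0.t, y⟩) (h2 z0 hz _)).2 e), ?_⟩
            rw [nm_sh hA h, hn] at h6
            refine h6.trans (dvd_of_eq (congrArg (eval · _) ?_))
            push_cast
            ring
    have e3 : Γ.E (fun x => ind ((∀ z ∈ T, Γ.zr x z) ∧ (z0.p : ℤ) ^ 2 ∣ Γ.nm a x)) ≤
        ∑ y ∈ (Fy Γ.P.r z0.p).erase z0.y,
          Γ.E (fun x => ind (∀ z ∈ (⟨z0.p, z0.t, y⟩ : Pt) ::ₘ T, Γ.zr x z)) + Γ.E fun x =>
          ind ((∀ z ∈ T, Γ.zr x z) ∧ (∀ y ∈ (Fy Γ.P.r z0.p).erase z0.y,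
            ¬Γ.zr x ⟨z0.p, z0.t, y⟩) ∧ (z0.p : ℤ) ^ 2 ∣ Γ.nm a x) := by
      rw [← E_sum, ← E_add]
      refine E_mono fun x => ?_
      have i0 : ∀ p : Prop, 0 ≤ ind p := fun p => by unfold ind; split_ifs <;> simp
      by_cases hx : ∃ y ∈ (Fy Γ.P.r z0.p).erase z0.y, Γ.zr x ⟨z0.p, z0.t, y⟩
      · obtain ⟨y, hy, hx⟩ := hx
        exact le_add_of_le_of_nonneg ((DPcB.ind_le fun e =>
          Multiset.forall_mem_cons.2 ⟨hx, e.1⟩).trans (single_le_sum (f := fun y =>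
            ind (∀ z ∈ (⟨z0.p, z0.t, y⟩ : Pt) ::ₘ T, Γ.zr x z)) (fun _ _ => i0 _) hy)) (i0 _)
      · exact le_add_of_nonneg_of_le (sum_nonneg fun _ _ => i0 _)
          (DPcB.ind_le fun e => ⟨e.1, fun y hy e' => hx ⟨y, hy, e'⟩, e.2⟩)
    have e5 := sum_le_card_nsmul _ _ _ e1
    have e6 : (((Fy Γ.P.r z0.p).erase z0.y).card : ℝ) ≤ n := by
      exact_mod_cast (card_erase_le.trans
        (((hF _ _ (h.alg.bas _ _ (hV z0 hz).1.1).2.2.1).1).trans h.alg.two.symm).le)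
    have e7 := mul_le_mul_of_nonneg_right e6 (show
      0 ≤ 1 / z0.p * PT T + 4 * ((T.card + 1) * (nT T : ℝ) ^ 4 * D) by positivity)
    have a1 : (1 : ℝ) / z0.p ≤ 1 := (div_le_one (by linarith)).2 l1
    have a2 := mul_le_mul_of_nonneg_left hE (show (0 : ℝ) ≤ 1 / z0.p by positivity)
    have a6 := mul_le_of_le_one_left (show 0 ≤ 4 * (T.card * (nT T : ℝ) ^ 2) * D by positivity) a1
    have a7 := mul_le_mul_of_nonneg_right (mul_le_mul_of_nonneg_left a4 k0) D0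
    have a8 := mul_le_mul_of_nonneg_right (a3.trans a4) D0
    have a10 : 0 ≤ T.card * (nT T : ℝ) ^ 4 * D := by positivity
    have a11 : 0 ≤ (nT T : ℝ) ^ 4 * D := by positivity
    have a12 := le_mul_of_one_le_left
      (show 0 ≤ (T.card + 1) * (nT T : ℝ) ^ 4 * D by positivity) N1
    have a13 := le_mul_of_one_le_left (show 0 ≤ 1 / z0.p * PT T by positivity) N1
    rw [nsmul_eq_mul] at e5
    rw [eD, Nat.cast_one] at e2
    rw [eD2, show (2 * n : ℝ) / z0.p * PT T = 2 * (n * (1 / z0.p * PT T)) by ring]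
    linarith

end Pool.Agent.MP_f3836a_nt.GV
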