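import Pool.Agent.MP_f3836a_nt.GV.SpecD

/-! Totally split tables over a field. -/

set_option autoImplicit false

namespace Pool.Agent.MP_f3836a_nt.GV

open Polynomial Finset VE

namespace GDSpl

variable {n : ℕ} [NeZero n] {F : Type} [Field F] {M : Tab F n}

theorem row {s : Fin n → F} (h : Hm M s) (β : Fin n → F) (j : Fin n) :
    ∑ l, s l * Mx M β l j = (∑ i, β i * s i) * s j := by
  simp only [Mx, Matrix.sum_apply, Matrix.smul_apply, smul_eq_mul, mul_sum, sum_mul]
  rw [sum_comm]
  refine sum_congr rfl fun i _ => ?_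
  rw [mul_assoc, h.2 i j, mul_sum]
  exact sum_congr rfl fun l _ => by ring

theorem conj {P : Matrix (Fin n) (Fin n) F} (h : ∀ y, Hm M (P y)) (u : IsUnit P.det)
    (β : Fin n → F) : Mx M β = P⁻¹ * (Matrix.diagonal (fun y => ∑ i, β i * P y i) * P) := by
  have e : P * Mx M β = Matrix.diagonal (fun y => ∑ i, β i * P y i) * P := by
    ext y j
    rw [Matrix.mul_apply, Matrix.diagonal_mul, row (h y)]
  rw [← e, Matrix.nonsing_inv_mul_cancel_left _ _ u]

omit [NeZero n] in
theorem mx_single (i : Fin n) : Mx M (Pi.single i 1) = M i := by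
  simp [Mx, Pi.single_apply]

theorem disc_ne {P : Matrix (Fin n) (Fin n) F} (h : ∀ y, Hm M (P y)) (u : IsUnit P.det) :
    disc M ≠ 0 := by
  have e : (Matrix.of fun i j => (M i * M j).trace) = P.transpose * P := by
    ext i j
    rw [Matrix.of_apply, ← mx_single (M := M) i, ← mx_single (M := M) j, conj h u, conj h u,
      Matrix.mul_assoc, Matrix.mul_assoc, Matrix.mul_nonsing_inv_cancel_left _ _ u,
      Matrix.trace_mul_comm, ← Matrix.mul_assoc, Matrix.mul_nonsing_inv_cancel_right _ _ u,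
      Matrix.diagonal_mul_diagonal, Matrix.trace_diagonal, Matrix.mul_apply]
    simp [Pi.single_apply]
  rw [disc, e, Matrix.det_mul, Matrix.det_transpose]
  exact mul_ne_zero u.ne_zero u.ne_zero

end GDSpl

open GDSpl in
theorem rSpl : SplS := by
  intro n _ F _ M
  refine ⟨fun s β h e => Matrix.exists_vecMul_eq_zero_iff.1 ⟨s, fun z => ?_, funext fun j => ?_⟩,
    fun S s hS h hi => ?_⟩
  · exact one_ne_zero (h.1.symm.trans (congrFun z 0))
  · exact (row h β j).trans (by rw [e, zero_mul, Pi.zero_apply])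
  let e := (S.equivFinOfCardEq hS).symm
  let P : Matrix (Fin n) (Fin n) F := Matrix.of fun y i => s (e y) i
  have hP : ∀ y, Hm M (P y) := fun y => h _ (e y).2
  have mv : ∀ β y, P.mulVec β y = ∑ i, β i * s (e y) i := fun β y => by
    simp only [P, Matrix.mulVec, dotProduct, Matrix.of_apply, mul_comm]
  have u : IsUnit P := Matrix.mulVec_injective_iff_isUnit.1
    ((injective_iff_map_eq_zero P.mulVecLin).2 fun β hβ => hi β fun y hy => by
      have := congrFun hβ (e.symm ⟨y, hy⟩)
      rwa [Matrix.mulVecLin_apply, mv, e.apply_symm_apply] at this)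
  have u' := (Matrix.isUnit_iff_isUnit_det P).1 u
  have pr : ∀ {A : Type} [CommMonoid A] (f : ℕ → A), ∏ y, f (e y) = ∏ y ∈ S, f y := fun f =>
    (e.prod_comp fun y => f y).trans (prod_coe_sort S f)
  refine ⟨fun β => ⟨?_, ?_⟩, disc_ne hP u', fun y0 _ => ?_⟩
  · rw [Nm, conj hP u', Matrix.det_mul_comm, Matrix.mul_nonsing_inv_cancel_right _ _ u',
      Matrix.det_diagonal]
    exact pr fun y => ∑ i, β i * s y i
  · rw [conj hP u', Matrix.charpoly_mul_comm, Matrix.mul_nonsing_inv_cancel_right _ _ u',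
      Matrix.charpoly_diagonal]
    exact pr fun y => X - C (∑ i, β i * s y i)
  · obtain ⟨β, hβ⟩ := Matrix.mulVec_surjective_iff_isUnit.2 u fun y => if e y = y0 then 1 else 0
    refine ⟨β, fun y hy => ?_⟩
    have := congrFun hβ (e.symm ⟨y, hy⟩)
    rwa [mv, e.apply_symm_apply] at this

end Pool.Agent.MP_f3836a_nt.GV
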