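import Pool.Agent.MP_f3836a_nt.GV.SpecD
import Pool.Agent.MP_f3836a_nt.VE.DApi

/-! Row Tb: homogenised tables and labels of points. -/

set_option autoImplicit false

namespace Pool.Agent.MP_f3836a_nt.GV

open Polynomial Finset VE

namespace GDTb

variable {n : ℕ} [NeZero n] {T : Tb n}

theorem mh {R : Type} [CommRing R] (h : T.Ok) {a b : ℤ} {t : R} (ht : (a : R) = b * t)
    (i l j : Fin n) :
    (T.Mh a b i l j : R) * (b : R) ^ T.e l = (b : R) ^ (T.e i + T.e j) * T.fib t i l j := by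
  have hd : (T.M i l j).natDegree ≤ T.e i + T.e j - T.e l :=
    natDegree_le_iff_coeff_eq_zero.2 fun d hd => h.deg i l j d (by omega)
  have e : (T.Mh a b i l j : R) = (b : R) ^ (T.e i + T.e j - T.e l) * T.fib t i l j :=
    DApi.hv_cast _ _ a b t hd ht
  rw [e]
  rcases le_or_gt (T.e l) (T.e i + T.e j) with h1 | h1
  · rw [mul_right_comm, ← pow_add, Nat.sub_add_cancel h1]
  · have h0 : T.M i l j = 0 := Polynomial.ext fun d => h.deg i l j d (by omega)
    have h2 : T.fib t i l j = 0 := by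
      change aeval t (T.M i l j) = 0
      rw [h0, map_zero]
    rw [h2, mul_zero, mul_zero, zero_mul]

theorem vl {R : Type} [CommRing R] (h : T.Ok) {a b : ℤ} {t : R} (ht : (a : R) = b * t) {m : ℕ}
    {A : Fin n → ℤ[X]} (hA : T.Mon m A) (i : Fin n) :
    (T.val m A a b i : R) = (b : R) ^ (m - T.e i) * aeval t (A i) := by
  refine DApi.hv_cast _ _ a b t ?_ ht
  by_cases hi : i = 0
  · rw [hi, h.e0, hA.2.1, Nat.sub_zero]
  · exact natDegree_le_iff_coeff_eq_zero.2 fun d hd => hA.2.2 i hi d (by omega)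

theorem nm {R : Type} [CommRing R] (h : T.Ok) {a b : ℤ} {t : R} (ht : (a : R) = b * t) {m : ℕ}
    {A : Fin n → ℤ[X]} (hA : T.Mon m A) :
    (hv (T.N A) (n * m) a b : R) = (b : R) ^ (n * m) * Nm (T.fib t) fun i => aeval t (A i) := by
  rw [DApi.hv_cast _ _ a b t (h.det m A hA).2.le ht, Tb.N, Nm, Nm, AlgHom.map_det]
  congr 2
  ext l j
  simp [Mx, Tb.fib, Matrix.sum_apply]

theorem m0 (h : T.Ok) : T.M 0 = 1 := by
  obtain ⟨A, _, _, y, h0, h1⟩ := h.rng
  rw [h1, h0, map_one]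

theorem mh0 (h : T.Ok) (a b : ℤ) : T.Mh a b 0 = 1 := by
  ext l j
  rw [Tb.Mh, Matrix.of_apply, m0 h, h.e0]
  by_cases hl : l = j
  · subst hl
    simp [hv]
  · simp [Matrix.one_apply_ne hl, hv]

theorem nmh (h : T.Ok) {a b : ℤ} (hb : b ≠ 0) {m : ℕ} {A : Fin n → ℤ[X]} (hA : T.Mon m A) :
    Nm (T.Mh a b) (T.val m A a b) = hv (T.N A) (n * m) a b := by
  have hb' : (b : ℚ) ≠ 0 := Int.cast_ne_zero.2 hb
  have ht : (a : ℚ) = b * (a / b) := (mul_div_cancel₀ _ hb').symm
  have e : Matrix.diagonal (fun i => (b : ℚ) ^ T.e i) *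
      (Mx (T.Mh a b) (T.val m A a b)).map (Int.cast : ℤ → ℚ) = (b : ℚ) ^ m •
      (Mx (T.fib ((a : ℚ) / b)) (fun i => aeval ((a : ℚ) / b) (A i)) *
        Matrix.diagonal fun i => (b : ℚ) ^ T.e i) := by
    ext l j
    rw [Matrix.diagonal_mul, Matrix.smul_apply, Matrix.mul_diagonal, Matrix.map_apply, Mx, Mx,
      Matrix.sum_apply, Matrix.sum_apply, Int.cast_sum, Finset.mul_sum, Finset.sum_mul, smul_eq_mul,
      Finset.mul_sum]
    refine Finset.sum_congr rfl fun i _ => ?_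
    rw [Matrix.smul_apply, Matrix.smul_apply, smul_eq_mul, smul_eq_mul, Int.cast_mul, vl h ht hA,
      mul_comm, mul_assoc, mh h ht]
    rcases le_or_gt (T.e i) m with h1 | h1
    · obtain ⟨k, rfl⟩ := Nat.exists_eq_add_of_le h1
      rw [Nat.add_sub_cancel_left]
      ring
    · have hi : i ≠ 0 := fun h2 => by
        rw [h2, h.e0] at h1
        omega
      have h0 : A i = 0 := Polynomial.ext fun d => hA.2.2 i hi d (by omega)
      simp [h0]
  have e1 := congrArg Matrix.det e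
  have hD : (Matrix.diagonal fun i => (b : ℚ) ^ T.e i).det ≠ 0 := by
    rw [Matrix.det_diagonal]
    exact Finset.prod_ne_zero_iff.2 fun i _ => pow_ne_zero _ hb'
  rw [Matrix.det_mul, Matrix.det_smul, Matrix.det_mul, ← mul_assoc, mul_comm, ← Int.cast_det,
    Fintype.card_fin, ← pow_mul, mul_comm m n] at e1
  exact Int.cast_injective (α := ℚ) ((mul_right_cancel₀ hD e1).trans (nm h ht hA).symm)

end GDTb

theorem rTb : TbS := fun _ _ _ a b h =>
  ⟨fun _ _ _ ht => ⟨GDTb.mh h ht, fun _ _ hA => ⟨GDTb.vl h ht hA, GDTb.nm h ht hA⟩⟩,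
    GDTb.mh0 h a b, GDTb.m0 h, fun hb _ _ hA => GDTb.nmh h hb hA⟩

theorem rFy : FyS := by
  intro r p h
  refine ⟨?_, fun y hy => ?_⟩
  · rw [Fy, card_union_of_disjoint, Nat.card_Icc, Nat.card_Ico]
    · omega
    · rw [disjoint_left]
      intro y h1 h2
      rw [mem_Icc] at h1
      rw [mem_Ico] at h2
      omega
  · simp only [Fy, mem_union, mem_Icc, mem_Ico] at hy ⊢
    omega

end Pool.Agent.MP_f3836a_nt.GV
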