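import Pool.Agent.MP_f3836a_nt.GV.GDApi
import Pool.Agent.MP_f3836a_nt.GV.GDBad
import Pool.Agent.MP_f3836a_nt.GV.GDEq
import Pool.Agent.MP_f3836a_nt.GV.GDLag
import Pool.Agent.MP_f3836a_nt.GV.GDMvC
import Pool.Agent.MP_f3836a_nt.GV.GDMvP
import Pool.Agent.MP_f3836a_nt.GV.GDPcA
import Pool.Agent.MP_f3836a_nt.GV.GDPcB
import Pool.Agent.MP_f3836a_nt.GV.GDShift
import Pool.Agent.MP_f3836a_nt.GV.GDSpl
import Pool.Agent.MP_f3836a_nt.GV.GDTb

/-! Part D assembled. -/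

set_option autoImplicit false

namespace Pool.Agent.MP_f3836a_nt.GV

theorem api : ApiS := rApi rTb rSpl rFy

theorem pcA : PcAS := rPcA api rShift rSpl rFy

theorem eqS : EqS :=
  rEq api (rMvP api rShift) (rMvC api rShift rLag (rBad (rPcB api rShift rSpl rFy pcA)) rRat)

end Pool.Agent.MP_f3836a_nt.GV
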