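import Pool.Agent.MP_f3836a_nt.GV.SpecE0
import Pool.Agent.MP_f3836a_nt.VE.EGram

/-! The rows of the Gram matrix inside a class. -/

set_option autoImplicit false

namespace Pool.Agent.MP_f3836a_nt.GV

open Polynomial Finset VE

open EGram in
theorem rGram : GV.OfGram := by
  intro hC hS hP S0 ν K t0 W k Y q r pw sc hY hq hc hqY z hz hzq
  obtain ⟨-, -, l1, -, -, l2, -⟩ := hS W k Y sc
  have K1 := pw.one
  have hW : 0 < W := by have := sc.two; omega
  have q0 : (0 : ℝ) < q := Nat.cast_pos.2 hq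
  have Y0 : 0 < Y := by linarith
  set M := Lc W k / q with hM
  have hM1 : Y ^ 17 ≤ M := by
    rw [hM, le_div_iff₀ q0]
    calc _ ≤ Y ^ 17 * Y ^ 2 := by gcongr
      _ ≤ _ := by rw [← pow_add]; exact l1
  have M0 : 0 ≤ M := le_trans (by positivity) hM1
  set C := (HH0 t0 W k).filter fun a => (q : ℤ) ∣ a - r
  set S := S0.filter fun z' => ¬z'.p ∣ q
  have on : ∀ (a : ℤ) (x : Pt), On a ((k : ℤ) ^ 2) x ↔ (x.p : ℤ) ∣ a - (k : ℤ) ^ 2 * x.t :=
    fun a x => dvd_sub_comm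
  have c0 : |(C.card : ℝ) - M| ≤ 1 := (hC.1 t0 W k hW sc.dvd).2 q r hq hc
  have fa : ∀ x ∈ S, x.p.Prime ∧ x.t < x.p ∧ Y ≤ x.p ∧ (x.p : ℝ) < Y ^ 2 ∧ q.Coprime x.p ∧
      x.p.Coprime W ∧ ¬(x.p : ℤ) ∣ (k : ℤ) ^ 2 ∧
      |∑ a ∈ C, ind (On a ((k : ℤ) ^ 2) x) - M / x.p| ≤ 1 := fun x hx => by
    obtain ⟨a, b⟩ := mem_filter.1 hx
    obtain ⟨u, v, a2, a3, -⟩ := pw.pt x a
    have c := ((Nat.Prime.coprime_iff_not_dvd u).2 b).symm
    refine ⟨u, v, a2, a3, c, (l2 _ u a2).2.2, (l2 _ u a2).2.1, ?_⟩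
    simp only [on]
    exact cnt hC hW sc.dvd hq hc _ u.pos c (l2 _ u a2).2.2 _
  obtain ⟨u1, u2, u3, u4, u5, u6, u7, u8⟩ := fa z (mem_filter.2 ⟨hz, hzq⟩)
  have p0 : (0 : ℝ) < z.p := Nat.cast_pos.2 u1.pos
  have key : ∀ x ∈ S, |∑ a ∈ C, Xz ((k : ℤ) ^ 2) z a * Xz ((k : ℤ) ^ 2) x a| ≤
      z.p * M * ind (x.p = z.p ∧ x.t = z.t) + M * ind (x.p = z.p) + 4 * (Y ^ 2) ^ 2 := by
    intro x hx
    obtain ⟨v1, v2, v3, v4, v5, v6, -, v8⟩ := fa x hx
    have p1 : (0 : ℝ) < x.p := Nat.cast_pos.2 v1.pos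
    have e : ∑ a ∈ C, Xz ((k : ℤ) ^ 2) z a * Xz ((k : ℤ) ^ 2) x a =
        z.p * x.p * ∑ a ∈ C, ind (On a ((k : ℤ) ^ 2) z ∧ On a ((k : ℤ) ^ 2) x)
          - z.p * ∑ a ∈ C, ind (On a ((k : ℤ) ^ 2) z) - x.p * ∑ a ∈ C, ind (On a ((k : ℤ) ^ 2) x)
          + C.card := by
      rw [card_eq_sum_ones, Nat.cast_sum, mul_sum, mul_sum, mul_sum, ← sum_sub_distrib,
        ← sum_sub_distrib, ← sum_add_distrib]
      refine sum_congr rfl fun a _ => ?_
      rw [← ind_and, Xz, Xz]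
      push_cast
      ring
    rw [e]
    refine arith p0 p1 u4.le v4.le (by nlinarith) c0 u8 v8 ?_
    have b2 : (z.p : ℝ) * x.p ≤ (Y ^ 2) ^ 2 := by rw [sq (Y ^ 2)]; gcongr
    by_cases hp : x.p = z.p
    · by_cases ht : x.t = z.t
      · have : ∀ a, (On a ((k : ℤ) ^ 2) z ∧ On a ((k : ℤ) ^ 2) x) ↔ On a ((k : ℤ) ^ 2) z :=
          fun a => by simp only [On, hp, ht, and_self]
        have n0 : 0 ≤ ∑ a ∈ C, ind (On a ((k : ℤ) ^ 2) z) := sum_nonneg fun a _ => ind_nonneg _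
        simp only [this, hp, ht, and_self, show ind True = 1 by simp [ind], mul_one] at b2 ⊢
        have := mul_le_mul_of_nonneg_left (abs_le.1 u8).2 (mul_pos p0 p0).le
        rw [mul_sub, show (z.p : ℝ) * z.p * (M / z.p) = z.p * M by field_simp] at this
        rw [abs_le]
        constructor <;> nlinarith [mul_nonneg (mul_pos p0 p0).le n0, mul_nonneg p0.le M0]
      · have : ∀ a, ¬(On a ((k : ℤ) ^ 2) z ∧ On a ((k : ℤ) ^ 2) x) := fun a ⟨a1, a2⟩ => by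
          rw [On, hp] at a2
          have a3 := dvd_sub a1 a2
          rw [sub_sub_sub_cancel_right, ← mul_sub] at a3
          have a4 := ((Nat.prime_iff_prime_int.1 u1).dvd_or_dvd a3).resolve_left u7
          have := Int.eq_zero_of_abs_lt_dvd a4 (by rw [abs_lt]; constructor <;> omega)
          omega
        simp only [this, hp, ht, and_false, show ind True = 1 by simp [ind],
          show ind False = 0 by simp [ind], sum_const_zero, mul_zero, zero_sub, abs_neg,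
          abs_of_nonneg M0, zero_add, mul_one]
        exact le_add_of_nonneg_right (by positivity)
    · have cp := (Nat.coprime_primes u1 v1).2 (Ne.symm hp)
      obtain ⟨s, hs⟩ := hC.2.1 z.p x.p ((k : ℤ) ^ 2 * z.t) ((k : ℤ) ^ 2 * x.t) cp
      have := cnt hC (t0 := t0) (r := r) hW sc.dvd hq hc (z.p * x.p) (Nat.mul_pos u1.pos v1.pos)
        (Nat.Coprime.mul_right u5 v5) (Nat.Coprime.mul_left u6 v6) s
      simp only [on, hs, hp, false_and, show ind False = 0 by simp [ind], mul_zero, zero_add]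
      rw [Nat.cast_mul (α := ℝ)] at this
      rw [show ∀ n : ℝ, z.p * x.p * n - M = z.p * x.p * (n - M / (z.p * x.p)) from
        fun n => by field_simp, abs_mul, abs_of_pos (mul_pos p0 p1)]
      exact (mul_le_of_le_one_right (mul_pos p0 p1).le this).trans b2
  have sgb : ∀ x ∈ S, 0 < ν x / x.p ∧ ν x / x.p ≤ K / (x.p : ℝ) ^ 2 := fun x hx => by
    obtain ⟨u, -, -, -, a, -, b⟩ := pw.pt x (mem_filter.1 hx).1
    have p1 : (0 : ℝ) < x.p := Nat.cast_pos.2 u.pos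
    exact ⟨div_pos a p1, by rw [sq, ← div_div]; gcongr⟩
  have w1 := fun p => (hP.2 S0 ν Y K pw p).1
  have gen : ∀ (Q : Pt → Prop) [DecidablePred Q] (N : ℝ), (∀ x, Q x → x.p = z.p) →
      ((S0.filter Q).card : ℝ) ≤ N → ∑ x ∈ S, ν x / x.p * ind (Q x) ≤ K / (z.p : ℝ) ^ 2 * N := by
    intro Q _ N a b
    calc _ ≤ ∑ x ∈ S, K / (z.p : ℝ) ^ 2 * ind (Q x) := sum_le_sum fun x hx => by
          by_cases e : Q x
          · exact mul_le_mul_of_nonneg_right (a x e ▸ (sgb x hx).2) (ind_nonneg _)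
          · simp [ind, e]
      _ ≤ _ := by
          rw [← mul_sum, sum_ind]
          refine mul_le_mul_of_nonneg_left (le_trans (Nat.cast_le.2 (card_le_card fun x hx => ?_)) b)
            (by positivity)
          simp only [S, mem_filter] at hx ⊢
          exact ⟨hx.1.1, hx.2⟩
  have g1 := gen (fun x => x.p = z.p ∧ x.t = z.t) K (fun x e => e.1) (pw.fib z.p z.t)
  have g2 := gen (fun x => x.p = z.p) (K * z.p) (fun x e => e) (by convert w1 z.p)
  have g3 : ∑ x ∈ S, ν x / x.p ≤ 2 * Y ^ 2 * (K * Y ^ 2) * K := by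
    have a : ((⌈Y ^ 2⌉₊ : ℕ) : ℝ) ≤ 2 * Y ^ 2 :=
      (Nat.ceil_lt_add_one (by positivity)).le.trans (by nlinarith)
    have b : (S0.card : ℝ) ≤ (range ⌈Y ^ 2⌉₊).card • (K * Y ^ 2) := by
      rw [card_eq_sum_card_fiberwise (f := Pt.p) (t := range ⌈Y ^ 2⌉₊) fun x hx =>
        mem_coe.2 (mem_range.2 (Nat.lt_ceil.2 (pw.pt x hx).2.2.2.1)), Nat.cast_sum]
      refine sum_le_card_nsmul _ _ _ fun p hp => le_trans (by convert w1 p) ?_
      have := (Nat.lt_ceil.1 (mem_range.1 hp)).le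
      gcongr
    rw [card_range, nsmul_eq_mul] at b
    calc _ ≤ S.card • K := sum_le_card_nsmul _ _ _ fun x hx => (sgb x hx).2.trans (by
          have := (fa x hx).2.2.1
          exact div_le_self (by linarith) (by nlinarith))
      _ ≤ S0.card * K := by rw [nsmul_eq_mul]; gcongr; exact filter_subset _ _
      _ ≤ _ := by gcongr; exact b.trans (by gcongr)
  have g4 : M / z.p ≤ M / Y := by gcongr
  have g5 : Y ^ 16 ≤ M / Y := by rw [le_div_iff₀ Y0, ← pow_succ]; exact hM1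
  have g6 : Y ^ 8 ≤ Y ^ 16 := pow_le_pow_right₀ (by linarith) (by norm_num)
  calc _ ≤ ∑ x ∈ S, ν x / x.p * (z.p * M * ind (x.p = z.p ∧ x.t = z.t) + M * ind (x.p = z.p)
        + 4 * (Y ^ 2) ^ 2) := sum_le_sum fun x hx =>
          mul_le_mul_of_nonneg_left (key x hx) (sgb x hx).1.le
    _ = z.p * M * ∑ x ∈ S, ν x / x.p * ind (x.p = z.p ∧ x.t = z.t) +
        M * ∑ x ∈ S, ν x / x.p * ind (x.p = z.p) + 4 * Y ^ 4 * ∑ x ∈ S, ν x / x.p := by
          rw [mul_sum, mul_sum, mul_sum, ← sum_add_distrib, ← sum_add_distrib]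
          exact sum_congr rfl fun x _ => by ring
    _ ≤ z.p * M * (K / (z.p : ℝ) ^ 2 * K) + M * (K / (z.p : ℝ) ^ 2 * (K * z.p))
        + 4 * Y ^ 4 * (2 * Y ^ 2 * (K * Y ^ 2) * K) := by gcongr
    _ = K ^ 2 * (2 * (M / z.p) + 8 * Y ^ 8) := by field_simp; ring
    _ ≤ K ^ 2 * (20 * (M / Y)) := by gcongr; linarith [pow_pos Y0 8]
    _ = _ := by rw [hM]; field_simp

end Pool.Agent.MP_f3836a_nt.GV
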