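import Pool.Agent.MP_f3836a_nt.GV.SpecE0
import Pool.Agent.MP_f3836a_nt.VE.ESchur

/-! The large sieve; most small curves are equidistributed in the coarse cells. -/

set_option autoImplicit false

namespace Pool.Agent.MP_f3836a_nt.GV

open Polynomial Finset VE

open ESchur in
theorem rLsv : GV.OfLsv := by
  intro hC hS hL hSch hD hG P ν C t0 W k Y hP sc Y10
  obtain ⟨-, -, L0, -, -, hp, -⟩ := hS W k Y sc
  have Y0 : 0 < Y := by linarith
  replace L0 : 0 < Lc W k := lt_of_lt_of_le (by positivity) L0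
  have cd := (hC.1 t0 W k (by linarith [sc.two]) sc.dvd).1
  have s0 : ∀ z ∈ P, 0 ≤ ν z / z.p := fun z hz =>
    div_nonneg (hP.pt z hz).2.2.2.2.1.le (Nat.cast_nonneg _)
  have pr : ∀ z ∈ P, z.p.Prime := fun z hz => (hP.pt z hz).1
  have lnk : ∀ z ∈ P,
      z.p * ((lk (HH0 t0 W k) ((k : ℤ) ^ 2) {z}).card : ℝ) ≤ 2 * Lc W k := fun z hz => by
    obtain ⟨-, -, a, b, -⟩ := hP.pt z hz
    have p0 : (0 : ℝ) < z.p := by linarith
    have := (hL t0 ((k : ℤ) ^ 2) W k Y {z} sc (by simp [Nd])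
      (by simpa using ⟨pr z hz, (hp _ (pr z hz) a).1⟩) (by
        simpa [nT] using b.le.trans (pow_le_pow_right₀ (by linarith) (by norm_num)))).2
    rw [show PT {z} = 1 / z.p by simp [PT, nT], mul_one_div, ← mul_div_assoc, le_div_iff₀' p0] at this
    exact this
  have g := fun z hz => by
    have := hG P ν C t0 W k Y 1 0 hP sc Y10 one_pos (by simp) (by push_cast; nlinarith) z hz
      (pr z hz).not_dvd_one
    rw [filter_true_of_mem fun z hz => (pr z hz).not_dvd_one,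
      filter_true_of_mem fun a _ => by simp, Nat.cast_one, one_mul] at this
    exact this
  obtain ⟨a1, a2⟩ := hSch P _ _ (fun z => ν z / z.p) _ (by positivity) s0 g
  refine ⟨⟨fun S hS => ?_, fun z0 h0 S hS on => ?_, cd.le, lnk⟩, a1,
    hD P _ _ (fun z => ν z / z.p) _ (by positivity) s0 g⟩
  · have := a2 S hS
    have c : (S.card : ℝ) ≤ Lc W k := cd ▸ Nat.cast_le.2 (card_le_card hS)
    simp only [sum_Xz] at this
    simp only [div_pow, ← mul_div_assoc, ← sum_div]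
    rw [div_le_iff₀ (by positivity)]
    refine this.trans ((mul_le_mul_of_nonneg_left c (by positivity)).trans ?_)
    have : 0 ≤ C ^ 2 * Lc W k ^ 2 / Y := by positivity
    linarith [show 20 * C ^ 2 * Lc W k / Y * Lc W k = 20 * (C ^ 2 * Lc W k ^ 2 / Y) by ring,
      show 40 * C ^ 2 / Y * Lc W k ^ 2 = 40 * (C ^ 2 * Lc W k ^ 2 / Y) by ring]
  · obtain ⟨-, -, a, b, -⟩ := hP.pt z0 h0
    have p0 : (0 : ℝ) < z0.p := by linarith
    have e : P.filter (fun z => ¬z.p ∣ z0.p) =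
        P.filter fun z => z.p ≠ z0.p :=
      filter_congr fun z hz => (Nat.prime_dvd_prime_iff_eq (pr z hz) (pr z0 h0)).not
    have := (hSch (P.filter fun z => ¬z.p ∣ z0.p)
      ((HH0 t0 W k).filter fun a => (z0.p : ℤ) ∣ a - (k : ℤ) ^ 2 * z0.t) (Xz ((k : ℤ) ^ 2))
      (fun z => ν z / z.p) (20 * C ^ 2 * Lc W k / (z0.p * Y)) (by positivity) (fun z hz => s0 z (mem_filter.1 hz).1)
      fun z hz => hG P ν C t0 W k Y z0.p _ hP sc Y10 (pr z0 h0).pos (hp _ (pr z0 h0) a).2.2 b.le z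
        (mem_filter.1 hz).1 (mem_filter.1 hz).2).2 S
      fun a ha => mem_filter.2 ⟨hS ha, dvd_sub_comm.1 (on a ha)⟩
    have c : (S.card : ℝ) ≤ 2 * Lc W k / z0.p := by
      rw [le_div_iff₀' p0]
      refine le_trans (mul_le_mul_of_nonneg_left (Nat.cast_le.2 (card_le_card fun a ha => ?_)) p0.le)
        (lnk z0 h0)
      simp only [lk, mem_filter, Multiset.mem_singleton, forall_eq]
      exact ⟨hS ha, on a ha⟩
    simp only [sum_Xz, e] at this
    simp only [div_pow, mul_pow, ← mul_div_assoc, ← sum_div, mul_left_comm (ν _ / _), ← mul_sum]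
    rw [div_le_iff₀ (by positivity)]
    refine (mul_le_mul_of_nonneg_left
      (this.trans (mul_le_mul_of_nonneg_left c (by positivity))) (sq_nonneg _)).trans_eq ?_
    field_simp
    ring

namespace GELsv

variable {n : ℕ}

theorem eqd {P : Ps n} {k U K' : ℕ} {Y δ : ℝ} {a : ℤ} (hK : 0 < K')
    (hc : ∀ z ∈ P.pts Y (Y ^ 2), cz Y U K' z < K')
    (h : ∑ d ∈ range K', |∑ z ∈ (P.pon Y k a).filter fun z =>
      cz Y U K' z = d, P.nu Y z - 1 / K'| ≤ δ) : P.Eqd k Y U K' δ a := by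
  classical
  refine ⟨le_trans (le_of_eq ?_) ((abs_sum_le_sum_abs _ _).trans h), h⟩
  have m : ∀ z ∈ P.pon Y k a, cz Y U K' z ∈ range K' := fun z hz =>
    mem_range.2 (hc z (mem_filter.1 hz).1)
  rw [sum_sub_distrib, sum_fiberwise_of_maps_to m,
    sum_const, card_range, nsmul_eq_mul, mul_one_div_cancel (Nat.cast_ne_zero.2 hK.ne')]

theorem dev_eq (P : Ps n) (U K' d k : ℕ) {Y : ℝ} (hY : 0 < Y) (a : ℤ) :
    ∑ z ∈ P.pts Y (Y ^ 2), (if cz Y U K' z = d then P.nu Y z / z.p else 0) * Xz ((k : ℤ) ^ 2) z a =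
      ∑ z ∈ (P.pon Y k a).filter fun z => cz Y U K' z = d, P.nu Y z -
        ∑ z ∈ (P.pts Y (Y ^ 2)).filter fun z => cz Y U K' z = d, P.nu Y z / z.p := by
  rw [Ps.pon, sum_filter, sum_filter, sum_filter, ← sum_sub_distrib]
  refine sum_congr rfl fun z hz => ?_
  have p0 : (z.p : ℝ) ≠ 0 := (hY.trans_le (P.mem_pts.1 hz).2.1).ne'
  unfold Xz ind
  split_ifs <;> simp [mul_sub, div_mul_cancel₀ _ p0]

end GELsv

open GELsv in
theorem rGood : GV.OfGood := by
  intro pt lsv mass n _ T t1 P al wi K' δ hK hδ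
  classical
  obtain ⟨Y1, hM⟩ := mass n T t1 P al wi K' (δ / 2) hK (half_pos hδ)
  refine ⟨max Y1 (max 10 (160 * P.K ^ 2 * K' ^ 3 / δ ^ 3)), fun t0 W k Y U hY s hU => ?_⟩
  rw [max_le_iff, max_le_iff] at hY
  obtain ⟨y1, y2, y3⟩ := hY
  obtain ⟨m1, m2, m3⟩ := hM Y U y1 hU
  have w := (pt.1 n T t1 P Y al wi (by linarith)).1
  have Y0 : 0 < Y := by linarith
  have K0 : (0 : ℝ) < K' := Nat.cast_pos.2 hK
  have L0 : 0 ≤ Lc W k := by unfold Lc; positivity
  obtain ⟨dev, hd⟩ : ∃ dev : ℕ → ℤ → ℝ, ∀ d a, dev d a =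
      ∑ z ∈ (P.pon Y k a).filter fun z => cz Y U K' z = d, P.nu Y z -
        ∑ z ∈ (P.pts Y (Y ^ 2)).filter fun z => cz Y U K' z = d, P.nu Y z / z.p := ⟨_, fun _ _ => rfl⟩
  have v : ∀ d, ∑ a ∈ HH0 t0 W k, dev d a ^ 2 ≤ 20 * P.K ^ 2 * Lc W k / Y * 2 := fun d => by
    have b : ∀ z ∈ P.pts Y (Y ^ 2),
        |if cz Y U K' z = d then P.nu Y z / z.p else 0| ≤ P.nu Y z / z.p := fun z hz => by
      have : 0 < P.nu Y z / z.p :=
        div_pos (w.pt z hz).2.2.2.2.1 (Y0.trans_le (w.pt z hz).2.2.1)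
      split_ifs
      · exact (abs_of_pos this).le
      · simpa using this.le
    have := (lsv _ _ _ t0 W k Y w s y2).2.1 _ b
    simp only [dev_eq P U K' d k Y0, ← hd] at this
    exact this.trans (mul_le_mul_of_nonneg_left ((sum_le_sum b).trans m2) (by positivity))
  have bad : ∀ a, ¬P.Eqd k Y U K' δ a → (δ / (2 * K')) ^ 2 ≤ ∑ d ∈ range K', dev d a ^ 2 :=
    fun a ha => by
      by_contra hn
      refine ha (eqd hK (fun z hz => (m1 z hz).2) ?_)
      have t : ∀ d ∈ range K', |dev d a| ≤ δ / (2 * K') := fun d hd' =>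
        abs_le_of_sq_le_sq' ((single_le_sum (f := fun d => dev d a ^ 2) (fun _ _ => sq_nonneg _)
          hd').trans (not_le.1 hn).le) (by positivity) |> abs_le.2
      refine (sum_le_sum fun d hd' => (abs_sub_le _ _ _).trans
        (add_le_add_left (hd d a ▸ t d hd') _)).trans ?_
      rw [sum_add_distrib, sum_const, card_range, nsmul_eq_mul]
      have : (K' : ℝ) * (δ / (2 * K')) = δ / 2 := by field_simp
      linarith
  have c1 : (((HH0 t0 W k).filter fun a => ¬P.Eqd k Y U K' δ a).card : ℝ) * (δ / (2 * K')) ^ 2 ≤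
      K' * (20 * P.K ^ 2 * Lc W k / Y * 2) := by
    rw [← nsmul_eq_mul]
    refine (card_nsmul_le_sum _ _ _ fun a ha => bad a (mem_filter.1 ha).2).trans
      ((sum_le_sum_of_subset_of_nonneg (filter_subset _ _) fun a _ _ =>
        sum_nonneg fun _ _ => sq_nonneg _).trans ?_)
    rw [sum_comm]
    refine (sum_le_sum fun d _ => v d).trans ?_
    rw [sum_const, card_range, nsmul_eq_mul]
  refine le_of_mul_le_mul_right (c1.trans ?_) (show 0 < (δ / (2 * K')) ^ 2 by positivity)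
  rw [div_le_iff₀ (by positivity)] at y3
  have e1 : (K' : ℝ) * (20 * P.K ^ 2 * Lc W k / Y * 2) = Lc W k / (4 * K' ^ 2 * Y) * 
      (160 * P.K ^ 2 * K' ^ 3) := by
    field_simp
    ring
  have e2 : δ * Lc W k * (δ / (2 * K')) ^ 2 = Lc W k / (4 * K' ^ 2 * Y) * (Y * δ ^ 3) := by
    field_simp
    ring
  rw [e1, e2]
  exact mul_le_mul_of_nonneg_left y3 (by positivity)

end Pool.Agent.MP_f3836a_nt.GV
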