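import Pool.Agent.MP_f3836a_nt.GV.SpecE0
import Pool.Agent.MP_f3836a_nt.VE.ESchur

/-! The points of the main window and the dual test of Schur. -/

set_option autoImplicit false

namespace Pool.Agent.MP_f3836a_nt.GV

open Polynomial Finset VE

namespace GEPt

theorem wts {Y C K l : ℝ} {p : ℕ} (hY : 1 < Y) (h1 : Y ≤ p) (h2 : (p : ℝ) < Y ^ 2) (hC : 1 ≤ C)
    (hK : 2 * C ≤ K) (a : Real.log p ≤ C * l) (b : l ≤ C * Real.log p) :
    0 < l / (p * Real.log Y) ∧ 1 / (p : ℝ) ≤ K * (l / (p * Real.log Y)) ∧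
      l / (p * Real.log Y) ≤ K / p := by
  have Y0 : 0 < Y := by linarith
  have p0 : (0 : ℝ) < p := by linarith
  have L0 : 0 < Real.log Y := Real.log_pos hY
  have e1 : Real.log Y ≤ Real.log p := Real.log_le_log Y0 h1
  have e2 : Real.log p ≤ 2 * Real.log Y := by
    have := Real.log_le_log p0 h2.le
    rwa [Real.log_pow, Nat.cast_ofNat] at this
  have l0 : 0 < l := by
    by_contra u
    nlinarith [not_lt.1 u]
  refine ⟨by positivity, ?_, ?_⟩
  · rw [← mul_div_assoc, div_le_div_iff₀ p0 (by positivity)]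
    have : Real.log Y ≤ K * l := by nlinarith
    nlinarith
  · rw [div_le_div_iff₀ (by positivity) p0]
    have : l ≤ K * Real.log Y := by nlinarith
    nlinarith

theorem fix {a b : ℤ} {p : ℕ} {z z' : Pt} (hp : p.Prime) (hb : ¬(p : ℤ) ∣ b) (e : z.p = p)
    (e' : z'.p = p) (h : z.t < z.p) (h' : z'.t < z'.p) (o : On a b z) (o' : On a b z') :
    z.t = z'.t := by
  unfold On at o o'
  rw [e] at o h
  rw [e'] at o' h'
  have d : (p : ℤ) ∣ b * ((z.t : ℤ) - z'.t) := by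
    have := dvd_sub o o'
    rwa [show b * (z.t : ℤ) - a - (b * z'.t - a) = b * ((z.t : ℤ) - z'.t) by ring] at this
  have d' := ((Nat.prime_iff_prime_int.1 hp).dvd_or_dvd d).resolve_left hb
  have := Int.eq_zero_of_abs_lt_dvd d' (by rw [abs_lt]; omega)
  omega

end GEPt

open GEPt

theorem rPt : GV.OfPt := by
  classical
  intro hF
  refine ⟨fun n _ T t1 P Y hA hW hY => ⟨⟨?_, fun z hz => ?_, fun p t => ?_⟩, fun z hz => ?_⟩,
    fun S ν Y C h p => ⟨?_, fun a b hb => ?_⟩⟩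
  · unfold Ps.K
    linarith [hW.one, (Nat.cast_nonneg n : (0 : ℝ) ≤ n)]
  · obtain ⟨⟨i1, -⟩, h1, h2⟩ := (P.mem_pts).1 hz
    obtain ⟨b1, b2, -⟩ := hA.bas _ _ i1
    obtain ⟨w1, w2⟩ := hW.lw z.p ⟨_, i1⟩
    exact ⟨b1, b2, h1, h2, wts hY h1 h2 hW.one
      (by unfold Ps.K; linarith [(Nat.cast_nonneg n : (0 : ℝ) ≤ n)]) w1 w2⟩
  · have k : (n : ℝ) ≤ P.K := by
      unfold Ps.K
      linarith [hW.one]
    refine le_trans (Nat.cast_le.2 ?_) k
    rcases ((P.pts Y (Y ^ 2)).filter fun z => z.p = p ∧ z.t = t).eq_empty_or_nonempty with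
      e | ⟨z0, h0⟩
    · rw [e, card_empty]
      exact Nat.zero_le _
    · obtain ⟨m0, e0, -⟩ := mem_filter.1 h0
      have r0 : 2 * P.r < p := e0 ▸ (hA.bas _ _ ((P.mem_pts).1 m0).1.1).2.2.1
      refine le_trans (card_le_card_of_injOn (t := Fy P.r p) (fun z => z.y) ?_ ?_)
        (((hF _ _ r0).1.trans hA.two.symm).le)
      · intro z hz
        obtain ⟨m, e, -⟩ := mem_filter.1 (mem_coe.1 hz)
        exact mem_coe.2 (e ▸ ((P.mem_pts).1 m).1.2)
      · intro z hz z' hz' e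
        obtain ⟨-, a1, a2⟩ := mem_filter.1 (mem_coe.1 hz)
        obtain ⟨-, b1, b2⟩ := mem_filter.1 (mem_coe.1 hz')
        cases z
        cases z'
        simp_all
  · obtain ⟨⟨i1, i2⟩, h1, h2⟩ := (P.mem_pts).1 hz
    obtain ⟨-, y1, y2⟩ := (hF _ _ (hA.bas _ _ i1).2.2.1).2 _ i2
    refine ⟨(P.mem_pts).2 ⟨⟨i1, y2⟩, h1, h2⟩, ?_⟩
    cases z
    simp only [Pt.cj, Pt.mk.injEq, true_and] at y1 ⊢
    omega
  · have s : (S.filter fun z => z.p = p) ⊆
        (range p).biUnion fun t => S.filter fun z => z.p = p ∧ z.t = t := fun z hz => by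
      obtain ⟨m, e⟩ := mem_filter.1 hz
      exact mem_biUnion.2 ⟨z.t, mem_range.2 (e ▸ (h.pt z m).2.1), mem_filter.2 ⟨m, e, rfl⟩⟩
    refine le_trans (Nat.cast_le.2 ((card_le_card s).trans card_biUnion_le)) ?_
    rw [Nat.cast_sum]
    refine (sum_le_card_nsmul _ _ C fun t _ => h.fib p t).trans_eq ?_
    rw [card_range, nsmul_eq_mul, mul_comm]
  · rcases (S.filter fun z => z.p = p ∧ On a b z).eq_empty_or_nonempty with e | ⟨z0, h0⟩
    · rw [e, card_empty, Nat.cast_zero]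
      linarith [h.one]
    · obtain ⟨m0, e0, o0⟩ := mem_filter.1 h0
      refine le_trans (Nat.cast_le.2 (card_le_card fun z hz => ?_)) (h.fib p z0.t)
      obtain ⟨m, e, o⟩ := mem_filter.1 hz
      exact mem_filter.2 ⟨m, e, fix (e ▸ (h.pt z m).1) hb e e0 (h.pt z m).2.1 (h.pt z0 m0).2.1 o o0⟩

theorem rSchur : SchurG := by
  intro ι κ I N X μ δ d0 h0 h x
  have e := ESchur.quad h0 h fun i => ∑ n ∈ N, x n * X i n
  have e1 : ∑ i ∈ I, μ i * (∑ n ∈ N, x n * X i n) ^ 2 =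
      ∑ m ∈ N, x m * ∑ i ∈ I, μ i * (∑ n ∈ N, x n * X i n) * X i m := by
    simp only [mul_sum I]
    rw [sum_comm]
    refine sum_congr rfl fun i _ => ?_
    rw [sq, ← mul_assoc, mul_sum N]
    exact sum_congr rfl fun m _ => by ring
  have e2 := (sum_mul_sq_le_sq_mul_sq N x
    fun m => ∑ i ∈ I, μ i * (∑ n ∈ N, x n * X i n) * X i m).trans
      (mul_le_mul_of_nonneg_left e (sum_nonneg fun _ _ => sq_nonneg _))
  rw [← e1] at e2
  by_contra u
  have v : 0 ≤ δ * ∑ n ∈ N, x n ^ 2 := mul_nonneg d0 (sum_nonneg fun _ _ => sq_nonneg _)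
  nlinarith [not_le.1 u]

end Pool.Agent.MP_f3836a_nt.GV
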