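import Pool.Agent.MP_f3836a_nt.GV.SpecE0

/-! Shapes close to the constant one. -/

set_option autoImplicit false

namespace Pool.Agent.MP_f3836a_nt.GV

open Polynomial Finset VE Filter Topology

namespace GESp

variable {n m : ℕ}

theorem vP_one [NeZero n] {e : Fin n → ℕ} (h0 : e 0 = 0) (hm : 2 ≤ m) :
    vP (oneX : Ix e m → ℝ) = Pi.single 0 1 := by
  funext i
  by_cases hi : i = 0
  · subst hi
    rw [vP, sum_eq_single ⟨0, by rw [h0]; omega⟩ (fun j _ hj => ?_) (by simp)]
    · simp [oneX]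
    · have : (j : ℕ) ≠ 0 := fun h => hj (Fin.ext h)
      simp [oneX, this]
  · simp [vP, oneX, hi]

theorem cont_vP {e : Fin n → ℕ} (i : Fin n) :
    Continuous fun z : (Ix e m → ℝ) × ℝ => (vP z.1 i).eval z.2 := by
  simp only [vP, eval_finsetSum, eval_monomial]
  fun_prop

theorem cont_NR (T : Tb n) :
    Continuous fun z : (Ix T.e m → ℝ) × ℝ => (NR T (vP z.1)).eval z.2 := by
  have e : ∀ (A : Fin n → ℝ[X]) (t : ℝ), (NR T A).eval t = (Matrix.of fun l j =>
      ∑ i, (A i).eval t * ((T.M i l j).map (Int.castRingHom ℝ)).eval t).det := by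
    intro A t
    refine ((evalRingHom t).map_det _).trans (congrArg _ ?_)
    ext l j
    simp [Mx, Matrix.sum_apply]
  simp only [e]
  refine Continuous.matrix_det (continuous_matrix fun l j => ?_)
  simp only [Matrix.of_apply]
  exact continuous_finsetSum _ fun i _ =>
    (cont_vP i).mul ((Polynomial.continuous _).comp continuous_snd)

theorem NR_one [NeZero n] {T : Tb n} (h : T.Ok) : NR T (Pi.single 0 1) = 1 := by
  obtain ⟨A, _, _, y, y0, hy⟩ := h.rng
  rw [NR, Nm, Mx, sum_eq_single 0 (fun i _ hi => by simp [hi]) (by simp), hy, y0, map_one,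
    Matrix.map_one _ (Polynomial.map_zero _) (Polynomial.map_one _)]
  simp

theorem half {L : ℝ} (hL : 2 * n ≤ L) (h0 : 0 < L) : (L + 1) ^ n ≤ 2 * L ^ n := by
  have h1 := one_add_mul_le_pow (a := -(L + 1)⁻¹) (by
    have : (L + 1)⁻¹ ≤ 1 := inv_le_one_of_one_le₀ (by linarith)
    linarith) n
  have h2 : (n : ℝ) * (L + 1)⁻¹ ≤ 1 / 2 := by
    rw [← div_eq_mul_inv, div_le_iff₀ (by linarith)]; linarith
  have h3 : L ^ n = (L + 1) ^ n * (1 + -(L + 1)⁻¹) ^ n := by
    rw [← mul_pow]; congr 1; field_simp; ring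
  have h4 : 0 < (L + 1) ^ n := by positivity
  nlinarith

end GESp

open GESp

theorem rSp : OfSp := by
  intro _ n r _ T B t1 m hT hB hm
  have h1 : ∀ᶠ vs in 𝓝 (oneX : Ix T.e m → ℝ), ∀ t ∈ Set.Icc (B.t0 : ℝ) (B.t0 + 1),
      |(NR T (vP vs)).eval t - 1| ≤ 1 / 4 :=
    isCompact_Icc.eventually_forall_of_forall_eventually fun t _ =>
      (((cont_NR T).sub continuous_const).abs.continuousAt.eventually_lt continuousAt_const
        (by simp [vP_one hT.e0 hm, NR_one hT])).mono fun _ h => h.le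
  have h2 : ∀ w, ∀ᶠ vs in 𝓝 (oneX : Ix T.e m → ℝ), ∀ t ∈ B.I, ‖B.ev (vP vs) w t - 1‖ ≤ 1 / 5 :=
    fun w => isCompact_Icc.eventually_forall_of_forall_eventually fun t ht => by
      have c : ContinuousAt (fun z : (Ix T.e m → ℝ) × ℝ => B.ev (vP z.1) w z.2) (oneX, t) := by
        simp only [Br.ev, emb, coe_aeval_eq_eval]
        exact tendsto_finsetSum _ fun i _ =>
          (Complex.continuous_ofReal.comp (cont_vP i)).continuousAt.mul
          ((hB.ana w i t ht).continuousAt.comp_of_eq (continuousAt_snd (p := (oneX, t))) rfl)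
      refine ((c.sub continuousAt_const).norm.eventually_lt continuousAt_const ?_).mono
        fun _ h => h.le
      have e : B.ev (vP (oneX : Ix T.e m → ℝ)) w t = 1 := by
        rw [vP_one hT.e0 hm, Br.ev, emb, sum_eq_single 0 (fun i _ hi => by simp [hi]) (by simp),
          ((hB.em t ht).hom w).1]
        simp
      simp [e]
  obtain ⟨ε, hε, h⟩ := Metric.nhds_basis_closedBall.eventually_iff.1 (h1.and (eventually_all.2 h2))
  exact ⟨ε, hε, fun vs hv => h ((dist_pi_le_iff hε.le).2 hv)⟩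

theorem rN0 : N0S := by
  intro n r _ T B t1 m vs hn hf hS
  have h4 : (2 : ℝ) ≤ n := by
    have := NeZero.ne n
    exact_mod_cast (by omega : 2 ≤ n)
  have hf' : (B.t0 : ℝ) + 1 + 2 * n ≤ t1 := by exact_mod_cast hf
  refine ⟨⟨3 / 4 * (t1 - B.t0 - 1 : ℝ) ^ n, by
    have : (0 : ℝ) < t1 - B.t0 - 1 := by linarith
    positivity, fun t ht => ?_⟩, fun t ht => ?_, fun w t ht => ?_⟩
  · have e : (N0 T t1 vs).eval t = (t1 - t) ^ n * (NR T (vP vs)).eval t := by
      rw [N0, eval_mul, eval_pow, eval_sub, eval_X, eval_C,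
        ← Even.neg_pow ⟨r, by omega⟩ (t - t1), neg_sub]
    obtain ⟨a, b⟩ := abs_le.1 (hS.1 t ht)
    have c : (t1 - B.t0 - 1 : ℝ) ^ n ≤ (t1 - t) ^ n :=
      pow_le_pow_left₀ (by linarith) (by linarith [ht.2]) n
    have d : (t1 - t : ℝ) ^ n ≤ (t1 - B.t0 - 1 + 1) ^ n :=
      pow_le_pow_left₀ (by linarith [ht.2]) (by linarith [ht.1]) n
    have f := half (n := n) (L := t1 - B.t0 - 1) (by linarith) (by linarith)
    have g : 0 ≤ (t1 - B.t0 - 1 : ℝ) ^ n := pow_nonneg (by linarith) n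
    rw [e]
    constructor <;> nlinarith
  · have a : (4 : ℝ) ≤ t1 - t := by linarith [ht.2]
    have b := Real.log_le_log (by linarith) (by linarith [ht.1] : (t1 - t : ℝ) ≤ t1 - B.t0)
    have c := Real.log_le_sub_one_of_pos (div_pos (by linarith : (0 : ℝ) < t1 - B.t0)
      (by linarith : (0 : ℝ) < t1 - t))
    have d : (t1 - B.t0 : ℝ) / (t1 - t) ≤ 5 / 4 := by
      rw [div_le_iff₀ (by linarith)]; linarith [ht.2]
    rw [Real.log_div (by linarith) (by linarith)] at c
    exact ⟨by linarith, abs_le.2 ⟨by linarith, by linarith⟩⟩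
  · obtain ⟨a, b⟩ := abs_le.1 ((abs_norm_sub_norm_le _ _).trans (hS.2 w t ht))
    rw [norm_one] at a b
    have c : 0 < ‖B.ev (vP vs) w t‖ := by linarith
    have d := Real.log_le_sub_one_of_pos c
    have e := Real.one_sub_inv_le_log_of_pos c
    have f : ‖B.ev (vP vs) w t‖⁻¹ ≤ 5 / 4 := by
      rw [inv_le_comm₀ c (by norm_num)]; linarith
    exact abs_le.2 ⟨by linarith, by linarith⟩

end Pool.Agent.MP_f3836a_nt.GV
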