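import Pool.Agent.MP_f3836a_nt.GV.SpecF

/-! Row Aex: the unpruned sums are small in mean square. -/

set_option autoImplicit false

namespace Pool.Agent.MP_f3836a_nt.GV.F

open Finset VE VE.F

section

variable {G H Cl : Type} [Fintype H] [Fintype Cl] {S : Sys G H Cl} {X : Ex G H}
  {a : H → Pt → ℝ} {A : ℕ}

theorem GFAex_fm (hS : S.Ok) (h : H) (z : Pt) (T : Multiset Pt) (j : ℕ) :
    S.fm (some h) (z ::ₘ T) j = S.fm (some h) (⟨z.p, 0, 0⟩ ::ₘ T) j :=
  hS.fmp _ _ _ _ (by simp)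

theorem GFAex_a (hB : BilC A) (hS : S.Ok) {z : Pt} (hz : z ∈ S.P1) (b : H → ℝ) :
    S.E (fun g => (S.σ * ∑ h, S.wz h z * (a h z + b h) * (S.Y (some h) {z} (S.k + 1) g -
        S.fm (some h) {z} (S.k + 1) * S.I {z} g)) ^ 2)
      ≤ 2 * S.Λ ^ (A + 1) * S.θ ^ 2 / z.p *
        (S.σ * ∑ h, (S.wz h z / z.p * b h ^ 2 + S.wz h z / z.p * a h z ^ 2)) := by
  have hl := hS.lam_pos
  have h1 : ∑ h, S.wz h z * (a h z + b h) ^ 2 ≤
      ∑ h, 2 * (S.wz h z * b h ^ 2 + S.wz h z * a h z ^ 2) := sum_le_sum fun h _ => by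
    nlinarith [mul_nonneg (hS.wz_nonneg h z) (sq_nonneg (a h z - b h))]
  refine (hB S hS {z} (S.k + 1) (fun h => S.wz h z) (fun h => a h z + b h) S.Λ (Nd_single z)
    (hS.Sm_mono (by norm_num) (hS.Sm_single hz)) (fun h => ⟨hS.wz_nonneg h z, hS.wz_le h z⟩)
    fun h => hS.ad_single).trans ((mul_le_mul_of_nonneg_left
      (mul_le_mul_of_nonneg_left h1 hS.sig_pos.le) (by positivity)).trans (le_of_eq ?_))
  simp only [PT_single, div_mul_eq_mul_div (S.wz _ z), ← add_div, ← sum_div, ← mul_sum]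
  ring

theorem GFAex_b (hB : Bil1S A) (hS : S.Ok) (ha : Zs S a) {z : Pt} (hz : z ∈ S.P1) :
    S.E (fun g => (S.σ * ∑ h, ∑ z' ∈ S.P1,
        S.wz h z * S.wz h z' * a h z' * S.Y (some h) (z' ::ₘ {z}) S.k g) ^ 2)
      ≤ S.Λ ^ (A + 2) * S.θ ^ 2 / z.p *
        (S.σ * ∑ h, S.wz h z / z.p * ∑ z' ∈ S.P1, S.wz h z' / z'.p * a h z' ^ 2) := by
  have hl := hS.lam_pos
  have h1 := hB S hS {z} S.k (fun h z' => S.wz h z * S.wz h z' * ind (z.p ≠ z'.p)) a
    (S.Λ ^ 2) (Nd_single z) (hS.Sm_mono (by norm_num) (hS.Sm_single hz)) (fun h z' => by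
      have h2 := mul_nonneg (hS.wz_nonneg h z) (hS.wz_nonneg h z')
      refine ⟨mul_nonneg h2 (ind_nonneg _), (mul_le_of_le_one_right h2 (ind_le_one _)).trans ?_⟩
      rw [sq]
      exact mul_le_mul (hS.wz_le h z) (hS.wz_le h z') (hS.wz_nonneg h z') hl.le)
    (fun h z' _ h2 => by
      have h3 := ind_ne (right_ne_zero_of_mul h2)
      have h4 := left_ne_zero_of_mul h2
      exact ⟨hS.ad_pair (left_ne_zero_of_mul h4) (right_ne_zero_of_mul h4) h3,
        Nd_cons.2 ⟨by simpa using h3, Nd_single z⟩⟩)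
    (sum_eq_zero fun h _ => Eq.trans (sum_congr rfl fun z' _ => by
      rw [GFAex_fm hS h z']
      ring) (ha h fun p => S.wz h z * ind (z.p ≠ p) * S.fm (some h) (⟨p, 0, 0⟩ ::ₘ {z}) S.k / p))
  refine le_trans (le_of_eq (S.E_congr fun g _ => ?_)) (h1.trans ?_)
  · congr 2
    refine sum_congr rfl fun h _ => sum_congr rfl fun z' _ => ?_
    by_cases hY : S.Y (some h) (z' ::ₘ {z}) S.k g = 0
    · rw [hY, mul_zero, mul_zero]
    · rw [ind_pos ((Nd_cons.1 (hS.Y_nd hY)).1 z (by simp)), mul_one]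
  · have h2 : ∑ h, ∑ z' ∈ S.P1, S.wz h z * S.wz h z' * ind (z.p ≠ z'.p) / z'.p * a h z' ^ 2
        ≤ ∑ h, S.wz h z * ∑ z' ∈ S.P1, S.wz h z' / z'.p * a h z' ^ 2 := by
      refine sum_le_sum fun h _ => ?_
      rw [mul_sum]
      refine sum_le_sum fun z' _ => ?_
      rw [← mul_assoc, ← mul_div_assoc]
      exact mul_le_mul_of_nonneg_right (div_le_div_of_nonneg_right (mul_le_of_le_one_right
        (mul_nonneg (hS.wz_nonneg h z) (hS.wz_nonneg h z')) (ind_le_one _)) (Nat.cast_nonneg _))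
        (sq_nonneg _)
    refine (mul_le_mul_of_nonneg_left (mul_le_mul_of_nonneg_left h2 hS.sig_pos.le)
      (by positivity)).trans (le_of_eq ?_)
    simp only [PT_single, div_mul_eq_mul_div (S.wz _ z), ← sum_div]
    ring

theorem GFAex_c (hB : Bil1S A) (hS : S.Ok) (ha : Zs S a) (c : Cl) :
    S.E (fun g => (S.σ * ∑ h, ∑ z ∈ S.P1,
      ind (S.cell h = c) * S.wz h z * a h z * S.Y (some h) {z} (S.k + 1) g) ^ 2) ≤
      S.Λ ^ (A + 1) * S.θ ^ 2 *
      (S.σ * ∑ h, ind (S.cell h = c) * ∑ z ∈ S.P1, S.wz h z / z.p * a h z ^ 2) := by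
  refine (hB S hS 0 (S.k + 1) (fun h z => ind (S.cell h = c) * S.wz h z) a S.Λ Nd_zero
    (hS.Sm_mono (by norm_num) S.Sm_zero) (fun h z => ⟨mul_nonneg (ind_nonneg _) (hS.wz_nonneg h z),
      (mul_le_of_le_one_left (hS.wz_nonneg h z) (ind_le_one _)).trans (hS.wz_le h z)⟩)
    (fun h z _ h2 => ⟨hS.ad_single (right_ne_zero_of_mul h2), Nd_single z⟩)
    (sum_eq_zero fun h _ => Eq.trans (sum_congr rfl fun z _ => by
      rw [GFAex_fm hS h z]
      ring) (ha h fun p => ind (S.cell h = c) * S.fm (some h) (⟨p, 0, 0⟩ ::ₘ 0) (S.k + 1) / p))).trans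
    (le_of_eq ?_)
  simp only [PT_zero, mul_div_assoc, mul_assoc (ind _), ← mul_sum]
  ring

theorem GFAex_d (hB : BilC A) (hS : S.Ok) (hX : X.Ok S) (c : Cl) :
    S.E (fun g => (S.σ * ∑ h, ind (S.cell h = c) * X.dp h *
      (S.Y (some h) 0 (S.k + 2) g - X.f0)) ^ 2) ≤
      S.Λ ^ A * S.θ ^ 2 * (S.σ * ∑ h, ind (S.cell h = c) * X.dp h ^ 2) := by
  have h1 := hB S hS 0 (S.k + 2) (fun h => ind (S.cell h = c)) X.dp 1 Nd_zero
    (hS.Sm_mono (by norm_num) S.Sm_zero) (fun h => ⟨ind_nonneg _, ind_le_one _⟩)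
    fun h _ => (hX.ad0 h).1
  have h2 : ∀ g, S.I 0 g = 1 := fun g => ind_pos (by simp)
  simpa only [h2, (hX.ad0 _).2, mul_one, one_mul, PT_zero, one_pow] using h1

theorem GFAex_sz (hS : S.Ok) {z : Pt} (h0 : ∑ h, S.wz h z * a h z = 0) (g : G) :
    S.σ * ∑ h, S.wz h z * (a h z + X.dp h) * S.Y (some h) {z} (S.k + 1) g =
      S.σ * ∑ h, S.wz h z * (a h z + X.dp h) * (S.Y (some h) {z} (S.k + 1) g -
        S.fm (some h) {z} (S.k + 1) * S.I {z} g) +
      S.f1 z * S.I {z} g * (S.σ * ∑ h, S.wz h z * X.dp h) := by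
  rw [← zero_add (∑ h, S.wz h z * X.dp h), ← h0, ← sum_add_distrib, mul_left_comm, ← mul_add,
    mul_sum univ _ (S.f1 z * S.I {z} g), ← sum_add_distrib]
  refine congrArg _ (sum_congr rfl fun h _ => ?_)
  by_cases hw : S.wz h z = 0
  · simp [hw]
  · rw [hS.fm1 h z (S.wz_mem hw)]
    ring

end

theorem rAex : OfAex := by
  refine fun A1 A2 h1 h2 => ⟨A1 + A2 + 6, fun {G H Cl} _ _ S X hS hX a ha h0 => ?_⟩
  have hl := hS.lam_pos
  have hP : 0 ≤ S.θ ^ 2 * (S.σ * ∑ h, X.dp h ^ 2) :=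
    mul_nonneg (sq_nonneg _) (mul_nonneg hS.sig_pos.le (sum_nonneg fun h _ => sq_nonneg _))
  have hQ : 0 ≤ S.θ ^ 2 * (S.σ * ∑ h, ∑ z ∈ S.P1, S.wz h z / z.p * a h z ^ 2) :=
    mul_nonneg (sq_nonneg _) (mul_nonneg hS.sig_pos.le (sum_nonneg fun h _ => sum_nonneg fun z _ =>
      mul_nonneg (div_nonneg (hS.wz_nonneg h z) (Nat.cast_nonneg _)) (sq_nonneg _)))
  have h5 : ((S.k : ℝ) + 1) ^ 2 ≤ S.Λ ^ 2 :=
    pow_le_pow_left₀ (by positivity) (by linarith [hS.nat.2.1]) 2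
  have h5' : ((S.k : ℝ) + 2) ^ 2 ≤ S.Λ ^ 2 := pow_le_pow_left₀ (by positivity) hS.nat.2.1 2
  have h6 : 15 * S.Λ ^ (A1 + A2 + 5) ≤ S.Λ ^ (A1 + A2 + 6) := by
    rw [pow_succ' _ (A1 + A2 + 5)]
    exact mul_le_mul_of_nonneg_right (by linarith [hS.num.1]) (by positivity)
  have h7 := hS.pow_mono (show A1 + 2 ≤ A1 + A2 + 5 by omega)
  have h8 := hS.pow_mono (show A2 + 5 ≤ A1 + A2 + 5 by omega)
  have h9 := one_le_pow₀ (n := A1 + A2 + 5) hS.one_le
  rw [nrm, sum_add_distrib, mul_add S.σ]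
  constructor
  · have h3 : ∀ z ∈ S.P1, S.E (fun g => SZ S X a g z ^ 2 / S.n0 z) ≤
        6 * S.Λ ^ (A1 + 2) * S.θ ^ 2 *
          (S.σ * ∑ h, (S.wz h z / z.p * X.dp h ^ 2 + S.wz h z / z.p * a h z ^ 2)) +
        6 * ((S.σ * ∑ h, S.wz h z * X.dp h) ^ 2 / (S.n0 z * z.p)) +
        3 * S.Λ ^ (A2 + 5) * S.θ ^ 2 * (S.σ * ∑ h, S.wz h z / z.p *
          ∑ z' ∈ S.P1, S.wz h z' / z'.p * a h z' ^ 2) := fun z hz => by
      have hp := hS.p_pos (hS.p1 z hz).1
      have hn := hS.n0_pos hz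
      have h4 : 1 / S.n0 z ≤ S.Λ * z.p := by
        have := (hS.p1 z hz).2.2.2.1
        rw [div_le_iff₀ hp] at this
        rw [div_le_iff₀ hn]
        linarith
      refine (S.E_mono fun g _ => ?_).trans (((S.E_add _ _).trans (congrArg₂ (· + ·)
        ((S.E_add _ _).trans (congrArg₂ (· + ·) (S.E_mul (3 * S.Λ * z.p) _)
          (S.E_mul (3 * (S.σ * ∑ h, S.wz h z * X.dp h) ^ 2 / S.n0 z) _)))
        (S.E_mul (3 * S.Λ ^ 3 * z.p) _))).le.trans ((add_le_add (add_le_add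
          (mul_le_mul_of_nonneg_left (GFAex_a (a := a) h1 hS hz X.dp) (by positivity))
          (mul_le_mul_of_nonneg_left (hS.tb1 (Nd_single z)
            (hS.Sm_mono (by norm_num) (hS.Sm_single hz))) (by positivity)))
          (mul_le_mul_of_nonneg_left (GFAex_b h2 hS ha hz) (by positivity))).trans (le_of_eq ?_)))
      · rw [SZ, GFAex_sz hS (h0 z hz)]
        generalize S.σ * ∑ h, S.wz h z * (a h z + X.dp h) * (S.Y (some h) {z} (S.k + 1) g -
          S.fm (some h) {z} (S.k + 1) * S.I {z} g) = x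
        generalize S.σ * ∑ h, ∑ z' ∈ S.P1,
          S.wz h z * S.wz h z' * a h z' * S.Y (some h) (z' ::ₘ {z}) S.k g = y
        generalize S.σ * ∑ h, S.wz h z * X.dp h = w
        have e1 : (S.f1 z * S.I {z} g) ^ 2 ≤ S.I {z} g := by
          have i0 := S.I_nonneg {z} g
          have i1 := mul_le_of_le_one_left i0 (hS.f1_bd z).2
          exact (pow_le_pow_left₀ (mul_nonneg (hS.f1_bd z).1 i0) i1 2).trans
            (by nlinarith [S.I_le_one {z} g])
        generalize S.f1 z * S.I {z} g = u at e1 ⊢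
        have e2 : (x + u * w + (S.k + 1) * y) ^ 2 ≤
            (3 * x ^ 2 + 3 * S.Λ ^ 2 * y ^ 2) + 3 * w ^ 2 * S.I {z} g := by
          nlinarith [sq_nonneg (x - (S.k + 1) * y), sq_nonneg (x - u * w),
            sq_nonneg (u * w - (S.k + 1) * y), mul_le_mul_of_nonneg_right h5 (sq_nonneg y),
            mul_le_mul_of_nonneg_right e1 (sq_nonneg w)]
        refine (div_le_div_of_nonneg_right e2 hn.le).trans ?_
        rw [add_div, div_eq_mul_one_div]
        refine (add_le_add (mul_le_mul_of_nonneg_left h4 (by positivity)) le_rfl).trans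
          (le_of_eq ?_)
        ring
      · rw [PT_single]
        field_simp
        ring
    rw [S.E_sum]
    refine (sum_le_sum h3).trans ?_
    rw [sum_add_distrib, sum_add_distrib, ← mul_sum, ← mul_sum, ← mul_sum, ← mul_sum, ← mul_sum,
      sum_comm, sum_comm (s := S.P1)]
    simp only [sum_add_distrib, ← sum_mul, hS.sum_wz, one_mul]
    nlinarith [hX.lso]
  · have h3 : ∀ c, S.E (fun g => SC S X a g c ^ 2) ≤ 2 * S.Λ ^ (A2 + 3) * S.θ ^ 2 *
        (S.σ * ∑ h, ind (S.cell h = c) * ∑ z ∈ S.P1, S.wz h z / z.p * a h z ^ 2) +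
        2 * S.Λ ^ A1 * S.θ ^ 2 * (S.σ * ∑ h, ind (S.cell h = c) * X.dp h ^ 2) := fun c => by
      refine (S.E_mono fun g _ => ?_).trans (((S.E_add _ _).trans (congrArg₂ (· + ·)
        (S.E_mul (2 * S.Λ ^ 2) _) (S.E_mul 2 _))).le.trans ((add_le_add
          (mul_le_mul_of_nonneg_left (GFAex_c h2 hS ha c) (by positivity))
          (mul_le_mul_of_nonneg_left (GFAex_d h1 hS hX c) (by positivity))).trans (le_of_eq ?_)))
      · rw [SC]
        generalize S.σ * ∑ h, ∑ z ∈ S.P1,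
          ind (S.cell h = c) * S.wz h z * a h z * S.Y (some h) {z} (S.k + 1) g = x
        generalize S.σ * ∑ h, ind (S.cell h = c) * X.dp h * (S.Y (some h) 0 (S.k + 2) g - X.f0) = y
        nlinarith [sq_nonneg ((S.k + 2) * x - y), mul_le_mul_of_nonneg_right h5' (sq_nonneg x)]
      · ring
    have h4 : ∀ h, ∑ c, ind (S.cell h = c) = 1 := fun h => by
      rw [sum_eq_single (S.cell h) (fun c _ hc => ind_neg hc.symm) (by simp), ind_pos rfl]
    rw [S.E_sum]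
    refine (sum_le_sum fun c _ => h3 c).trans ?_
    rw [sum_add_distrib, ← mul_sum, ← mul_sum, ← mul_sum, ← mul_sum, sum_comm,
      sum_comm (s := (univ : Finset Cl))]
    simp only [← sum_mul, h4, one_mul]
    nlinarith [hS.pow_mono (show A1 ≤ A1 + A2 + 5 by omega),
      hS.pow_mono (show A2 + 3 ≤ A1 + A2 + 5 by omega)]

end Pool.Agent.MP_f3836a_nt.GV.F
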