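import Pool.Agent.MP_f3836a_nt.GV.SpecF

/-! The optimal centring and the existence of good curves. -/

set_option autoImplicit false

namespace Pool.Agent.MP_f3836a_nt.GV.F

open Finset VE VE.F

theorem GFAl.fib (P : Finset Pt) (F : Pt → ℝ)
    (h : ∀ z ∈ P, ∑ z' ∈ P, ind (z'.p = z.p ∧ z'.t = z.t) * F z' = 0) : ∑ z ∈ P, F z = 0 := by
  classical
  rw [← sum_fiberwise_of_maps_to (g := fun z : Pt => (z.p, z.t))
    fun z hz => mem_image_of_mem _ hz]
  refine sum_eq_zero fun y hy => ?_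
  obtain ⟨z, hz, rfl⟩ := mem_image.1 hy
  rw [← h z hz, sum_filter]
  refine sum_congr rfl fun z' _ => ?_
  split_ifs with a
  · rw [ind_pos (Prod.ext_iff.1 a), one_mul]
  · rw [ind_neg fun b => a (Prod.ext b.1 b.2), zero_mul]

theorem rAl : AlG := by
  intro G H Cl _ _ S X hS hX
  refine ⟨fun z => (∑ h, S.wz h z * X.ψ h z) / ∑ h, S.wz h z, fun h f => GFAl.fib _ _
    fun z hz => ?_, fun z _ => ?_⟩
  · have k : ∀ h, S.wz h z * ∑ z' ∈ S.P1, ind (z'.p = z.p ∧ z'.t = z.t) * X.ψ h z' = 0 :=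
      fun h => by
        by_cases a : S.wz h z = 0
        · rw [a, zero_mul]
        · rw [hX.fz h z hz a, mul_zero]
    rw [sum_congr rfl fun z' hz' => show _ = f z.p *
      (S.wz h z * (ind (z'.p = z.p ∧ z'.t = z.t) * X.ψ h z') - S.wz h z / (∑ h, S.wz h z) *
        ∑ h', S.wz h' z * (ind (z'.p = z.p ∧ z'.t = z.t) * X.ψ h' z')) from ?_]
    · rw [← mul_sum, sum_sub_distrib, ← mul_sum, ← mul_sum, k, sum_comm]
      simp only [← mul_sum, k, sum_const_zero, mul_zero, sub_zero]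
    · by_cases a : z'.p = z.p ∧ z'.t = z.t
      · rw [ind_pos a]
        simp only [aa, one_mul, fun h => hX.sat h z' hz' z hz a.1 a.2, a.1]
        ring
      · simp only [ind_neg a, zero_mul, mul_zero, sum_const_zero, sub_zero]
  · by_cases e0 : ∑ h, S.wz h z = 0
    · exact sum_eq_zero fun h hh => by
        rw [(sum_eq_zero_iff_of_nonneg fun h _ => hS.wz_nonneg h z).1 e0 h hh, zero_mul]
    · simp only [aa, mul_sub, sum_sub_distrib, ← sum_mul]
      rw [mul_div_cancel₀ _ e0, sub_self]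

theorem rGd : OfGd := by
  intro A hB
  refine ⟨A + 2, fun {G H Cl} _ _ S hS e hP => ?_⟩
  by_contra hn
  obtain ⟨h⟩ := hS.nonempty
  obtain ⟨x, hx, -⟩ := exists_ne_zero_of_sum_ne_zero ((hS.nrm (some h)).trans_ne one_ne_zero)
  obtain ⟨z, hz, rfl⟩ := (hS.st1 h x hx).2
  obtain ⟨-, e1, -, s2, s3⟩ := hS.par_small hP
  have ha := hS.ad1 _ _ hx
  have hs := hS.Sm_single hz
  have h1 := (hB S hS e _ _ _ hP.1 e1 ⟨ha, Nd_single z, hS.Sm_mono (by norm_num) hs⟩).1 z hz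
    (Multiset.mem_singleton_self z)
  rw [S.E_congr (F' := S.Y _ _ _) fun g hg => by
    rw [ind_pos (show S.b1 e g z from .inl fun a => hn ⟨g, hg, a⟩), mul_one]] at h1
  have h2 := (abs_le.1 (hS.eq1_self (Nd_single z) (hS.Sm_mono (by norm_num) hs) ha)).1
  have h3 := (hS.ad0 _ _ _ ha).2.1
  have h4 := hS.PT_pos hs
  have L := hS.num.1
  have t1 := hS.th_sq
  have t0 := hS.th_pos
  have h5 : S.Λ ≤ S.Λ ^ (A + 2) := le_self_pow₀ hS.one_le (by omega)
  have h6 : S.θ ^ 2 ≤ 1 / 2 := by nlinarith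
  rw [div_le_iff₀ hS.lam_pos] at h3
  rw [show S.M * S.Λ ^ (A + 2) * S.θ / e ^ 2 = S.M * S.Λ ^ A * S.θ / e ^ 2 * S.Λ ^ 2 by ring] at s3
  generalize S.M * S.Λ ^ A * S.θ / e ^ 2 = q at h1 s3
  have h7 := hS.fm_pos ha
  generalize S.fm (some h) {z} (S.kk (some h) + 1) = m at h2 h3 h7
  have h8 : m / 2 ≤ q := le_of_mul_le_mul_right (by nlinarith [mul_pos h4 h7]) h4
  nlinarith [mul_le_mul_of_nonneg_right h8 (sq_nonneg S.Λ)]

end Pool.Agent.MP_f3836a_nt.GV.F
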