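import Pool.Agent.MP_f3836a_nt.GV.SpecF
import Pool.Agent.MP_f3836a_nt.VE.FBil0

/-! The centred bilinear bound over curves. -/

set_option autoImplicit false

namespace Pool.Agent.MP_f3836a_nt.GV.F

open Finset VE VE.F

theorem rBilC : GV.F.OfBilC := by
  refine ⟨4, fun {G H Cl} _ _ S hS T j r a B hn hT hr had => ?_⟩
  classical
  have hP := PT_nonneg T
  have hσ := hS.sig_pos
  have hΛ := hS.num.1
  have hY := hS.num.2.1
  have hθ := sq_nonneg S.θ
  set K : H → H → ℝ := fun h h' => S.E (fun g => S.Y (some h) T j g * S.Y (some h') T j g) -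
    PT T * (S.fm (some h) T j * S.fm (some h') T j) with hK
  set D : H → H → ℝ := fun h h' => S.Λ ^ 2 * PT T * (S.θ ^ 2 * ind (S.Lk T h') +
    ind (S.Lk T h' ∧ some h' ≠ some h) * ((1 + S.et (some h) (some h')) ^ 3 - 1)) +
    if h' = h then 3 * S.Ym ^ 2 * PT T else 0 with hD
  set K' : H → H → ℝ := fun h h' => S.E fun g =>
    (S.Y (some h) T j g - S.fm (some h) T j * S.I T g) *
      (S.Y (some h') T j g - S.fm (some h') T j * S.I T g) with hK'
  set D' : H → H → ℝ := fun h h' =>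
    D h h' + 3 * (S.Λ ^ 2 * PT T * S.θ ^ 2) * ind (S.Lk T h') with hD'
  have het : ∀ c c', 3 * S.et c c' ≤ (1 + S.et c c') ^ 3 - 1 := fun c c' => by
    have := hS.eta c c'
    nlinarith [mul_nonneg this this, mul_nonneg this (mul_nonneg this this)]
  have hA : ∀ h h', 0 ≤ S.Λ ^ 2 * PT T * (S.θ ^ 2 * ind (S.Lk T h') +
      ind (S.Lk T h' ∧ some h' ≠ some h) * ((1 + S.et (some h) (some h')) ^ 3 - 1)) := fun h h' =>
    mul_nonneg (by positivity) (add_nonneg (mul_nonneg hθ (ind_nonneg _))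
      (mul_nonneg (ind_nonneg _) (by linarith [het (some h) (some h'), hS.eta (some h) (some h')])))
  have hD0 : ∀ h h', 0 ≤ D h h' := fun h h' =>
    add_nonneg (hA h h') (by split_ifs <;> positivity)
  have hKD : ∀ h h', r h ≠ 0 → r h' ≠ 0 → |K h h'| ≤ D h h' := fun h h' e e' => by
    have a1 := had h e
    have a2 := had h' e'
    have f0 := mul_pos (hS.fm_pos a1) (hS.fm_pos a2)
    have f1 : S.fm (some h) T j * S.fm (some h') T j ≤ S.Λ ^ 2 := by
      rw [sq]
      exact mul_le_mul (hS.fm_le a1) (hS.fm_le a2) (hS.fm_pos a2).le (by linarith)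
    have f2 := mul_le_mul_of_nonneg_left f1 hP
    have f3 := mul_nonneg hP f0.le
    have eI : S.E (fun g => S.Y (some h) T j g * S.Y (some h') T j g) =
        S.E fun g => S.I T g * (S.Y (some h) T j g * S.Y (some h') T j g) :=
      S.E_congr fun g hg => by rw [← mul_assoc, hS.I_Y hg a1 hT]
    by_cases hh : h' = h
    · have b1 : S.E (fun g => S.Y (some h) T j g * S.Y (some h') T j g) ≤
          S.E fun g => S.Ym ^ 2 * S.I T g := by
        rw [eI]
        refine S.E_mono fun g hg => ?_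
        rw [mul_comm, sq]
        exact mul_le_mul_of_nonneg_right (mul_le_mul (hS.Y_le hg a1) (hS.Y_le hg a2)
          (hS.Y_nonneg _ _ _ _) (by linarith)) (S.I_nonneg _ _)
      have b2 := S.E_nonneg (F := fun g => S.Y (some h) T j g * S.Y (some h') T j g) fun g _ =>
        mul_nonneg (hS.Y_nonneg _ _ _ _) (hS.Y_nonneg _ _ _ _)
      rw [S.E_mul] at b1
      have b3 := mul_le_mul_of_nonneg_left (hS.tb1 hn hT) (sq_nonneg S.Ym)
      have b4 := mul_le_mul_of_nonneg_left (pow_le_pow_left₀ (by linarith) hY 2) hP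
      have b5 := hA h h'
      simp only [hK, hD, if_pos hh]
      rw [abs_le]
      constructor <;> nlinarith
    · have l : S.Lk T h' := (hS.ad0 _ _ _ a2).1
      have ne : some h' ≠ some h := fun x => hh (Option.some.inj x)
      have b := hS.eq2 hn hT ne.symm (S.Cf_self a1) (S.Cf_self a2)
      simp only [hK, hD, if_neg hh, ind_pos l, ind_pos (⟨l, ne⟩ : S.Lk T h' ∧ some h' ≠ some h)]
      rw [eI]
      refine b.trans ?_
      have c1 := hS.eta (some h) (some h')
      have c2 := het (some h) (some h')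
      have c3 : S.θ ^ 2 * S.et (some h) (some h') ≤ 1 * S.et (some h) (some h') :=
        mul_le_mul_of_nonneg_right (hS.th_sq.trans hS.th_le) c1
      rw [add_zero, mul_comm (S.Λ ^ 2 * PT T), mul_comm (S.Λ ^ 2)]
      exact mul_le_mul (by linarith) f2 f3 (by linarith)
  have hKD' : ∀ h h', r h ≠ 0 → r h' ≠ 0 → |K' h h'| ≤ D' h h' := fun h h' e e' => by
    have a1 := had h e
    have a2 := had h' e'
    have p1 := hS.fm_pos a1
    have p2 := hS.fm_pos a2
    have f1 : S.fm (some h) T j * S.fm (some h') T j ≤ S.Λ ^ 2 := by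
      rw [sq]
      exact mul_le_mul (hS.fm_le a1) (hS.fm_le a2) p2.le (by linarith)
    have f2 := mul_le_mul_of_nonneg_left f1 (mul_nonneg hP hθ)
    have k0 : |S.E (S.I T) - PT T| ≤ S.θ ^ 2 * PT T := by
      simpa [pp] using hS.eq [] T (by simp) (by simp) hn hT (by simp)
    have k1 := abs_le.1 (hS.eq1_self hn hT a1)
    have k2 := abs_le.1 (hS.eq1_self hn hT a2)
    have k3 := abs_le.1 (hKD h h' e e')
    have k4 : K' h h' = S.E (fun g => S.Y (some h) T j g * S.Y (some h') T j g) -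
        S.fm (some h') T j * S.E (S.Y (some h) T j) - S.fm (some h) T j * S.E (S.Y (some h') T j) +
        S.fm (some h) T j * S.fm (some h') T j * S.E (S.I T) := by
      simp only [hK', ← S.E_mul, ← S.E_sub, ← S.E_add]
      refine S.E_congr fun g hg => ?_
      have i0 : S.I T g * S.I T g = S.I T g := by rw [Sys.I, ← ind_and, and_self]
      linear_combination S.fm (some h) T j * S.fm (some h') T j * i0 -
        S.fm (some h') T j * hS.I_Y hg a1 hT - S.fm (some h) T j * hS.I_Y hg a2 hT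
    rw [abs_le] at k0
    simp only [hK] at k3
    simp only [hD', ind_pos (hS.ad0 _ _ _ a2).1, k4, Sys.Lk]
    rw [abs_le]
    constructor <;> linarith [mul_le_mul_of_nonneg_left k1.1 p2.le,
      mul_le_mul_of_nonneg_left k1.2 p2.le, mul_le_mul_of_nonneg_left k2.1 p1.le,
      mul_le_mul_of_nonneg_left k2.2 p1.le, mul_le_mul_of_nonneg_left k0.1 (mul_pos p1 p2).le,
      mul_le_mul_of_nonneg_left k0.2 (mul_pos p1 p2).le]
  have hrow : ∀ h, r h ≠ 0 →
      S.σ * ∑ h', r h' * D' h h' ≤ B * S.Λ ^ 4 * S.θ ^ 2 * PT T ^ 2 := fun h e => by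
    have hB : 0 ≤ B := (hr h).1.trans (hr h).2
    have b1 : ∑ h', r h' * D' h h' ≤ B * ∑ h', D' h h' := by
      rw [mul_sum]
      exact sum_le_sum fun h' _ => mul_le_mul_of_nonneg_right (hr h').2
        (add_nonneg (hD0 h h') (mul_nonneg (by positivity) (ind_nonneg _)))
    have b2 := hS.lk T hn hT
    have b3 := hS.row (some h) T j T (had h e) hn hT fun z hz => Or.inl hz
    have b4 : S.σ * S.Ym ^ 2 ≤ S.θ ^ 2 * PT T :=
      (mul_le_mul_of_nonneg_left (pow_le_pow_right₀ hS.ym_one (by omega)) hσ.le).trans (hS.atom' hT)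
    have b5 : S.σ * ∑ h', D' h h' ≤ S.Λ ^ 4 * S.θ ^ 2 * PT T ^ 2 := by
      simp only [hD', hD, sum_add_distrib, ← mul_sum, sum_ite_eq', mem_univ, if_true]
      have c1 := mul_le_mul_of_nonneg_left b2 (by positivity : 0 ≤ S.Λ ^ 2 * PT T * S.θ ^ 2)
      have c2 := mul_le_mul_of_nonneg_left b3 (by positivity : 0 ≤ S.Λ ^ 2 * PT T)
      have c3 := mul_le_mul_of_nonneg_left b4 (by positivity : 0 ≤ 3 * PT T)
      have c4 : 4 * S.Λ ^ 3 + S.Λ ^ 2 + 3 ≤ S.Λ ^ 4 := by
        have : 0 ≤ S.Λ ^ 2 := by positivity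
        nlinarith [mul_le_mul_of_nonneg_left hΛ this, mul_le_mul_of_nonneg_left hΛ
          (by positivity : 0 ≤ S.Λ ^ 3)]
      have c5 := mul_le_mul_of_nonneg_right c4 (by positivity : 0 ≤ S.θ ^ 2 * PT T ^ 2)
      linarith
    have b6 := mul_le_mul_of_nonneg_left b1 hσ.le
    have b7 := mul_le_mul_of_nonneg_left b5 hB
    linarith
  have e1 : S.E (fun g => (S.σ * ∑ h, r h * a h *
      (S.Y (some h) T j g - S.fm (some h) T j * S.I T g)) ^ 2) =
      S.σ ^ 2 * ∑ h, ∑ h', r h * a h * (r h' * a h') * K' h h' := by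
    simp only [hK', ← S.E_mul, ← S.E_sum]
    refine S.E_congr fun g _ => ?_
    rw [mul_pow, sq (∑ h, _), sum_mul_sum]
    congr 1
    exact sum_congr rfl fun h _ => sum_congr rfl fun h' _ => by ring
  rw [e1]
  refine (mul_le_mul_of_nonneg_left (bil0_schur r a K' D' (fun h => (hr h).1) (fun h h' =>
    S.E_congr fun g _ => mul_comm _ _) hKD') (sq_nonneg _)).trans ?_
  have e3 : S.σ * ∑ h, r h * a h ^ 2 * ∑ h', r h' * D' h h' ≤
      B * S.Λ ^ 4 * S.θ ^ 2 * PT T ^ 2 * ∑ h, r h * a h ^ 2 := by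
    rw [mul_sum, mul_sum]
    refine sum_le_sum fun h _ => ?_
    by_cases e : r h = 0
    · simp [e]
    · rw [mul_left_comm, mul_comm _ (r h * a h ^ 2)]
      exact mul_le_mul_of_nonneg_left (hrow h e) (mul_nonneg (hr h).1 (sq_nonneg _))
  linarith [mul_le_mul_of_nonneg_left e3 hσ.le]

end Pool.Agent.MP_f3836a_nt.GV.F
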