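import Pool.Agent.MP_f3836a_nt.GV.SpecF
import Pool.Agent.MP_f3836a_nt.VE.FLnk

set_option autoImplicit false

namespace Pool.Agent.MP_f3836a_nt.GV.F

open Finset VE VE.F

theorem GFLnk_cell {G H Cl : Type} [Fintype H] [Fintype Cl] (S : Sys G H Cl) (X : Ex G H)
    (U : Cl → ℝ) : ∑ c, U c * SM S X c = X.f0 * (S.σ * ∑ h, U (S.cell h) * X.dp h) := by
  have h1 : ∀ h, U (S.cell h) * X.dp h = ∑ c, U c * (ind (S.cell h = c) * X.dp h) := fun h => by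
    rw [sum_eq_single (S.cell h) (fun c _ hc => by rw [ind_neg hc.symm]; simp)
      fun h => absurd (mem_univ _) h, ind_pos rfl, one_mul]
  simp only [h1, SM, mul_sum]
  rw [sum_comm]
  exact sum_congr rfl fun h _ => sum_congr rfl fun c _ => by ring

theorem GFLnk_cs {H : Type} [Fintype H] (σ : ℝ) (h0 : 0 ≤ σ) (h1 : σ * Fintype.card H = 1)
    (x : H → ℝ) : (σ * ∑ h, |x h|) ^ 2 ≤ σ * ∑ h, x h ^ 2 := by
  have h2 := sq_sum_le_card_mul_sum_sq (s := (univ : Finset H)) (f := fun h => |x h|)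
  simp only [sq_abs, card_univ] at h2
  calc (σ * ∑ h, |x h|) ^ 2 = σ ^ 2 * (∑ h, |x h|) ^ 2 := mul_pow _ _ _
    _ ≤ σ ^ 2 * (Fintype.card H * ∑ h, x h ^ 2) := mul_le_mul_of_nonneg_left h2 (sq_nonneg _)
    _ = σ * (σ * Fintype.card H) * ∑ h, x h ^ 2 := by ring
    _ = _ := by rw [h1, mul_one]

theorem GFLnk_fin {L P a a' b c c' t u D W : ℝ} (hL : 1 ≤ L) (hP : 0 ≤ P) (ha : a ≤ a')
    (hc : c ≤ c') (ha' : 0 ≤ a') (hb : 0 ≤ b) (hc' : 0 ≤ c') (ht : 0 ≤ t) (hu : 0 ≤ u)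
    (hD : D ^ 2 ≤ W) : P * (a + b + c + t * (u + (L * D) ^ 2))
      ≤ P * L ^ 2 * (a' + b + c' + t * (u + W)) := by
  have h1 : 1 ≤ L ^ 2 := one_le_pow₀ hL
  rw [mul_assoc]
  refine mul_le_mul_of_nonneg_left ?_ hP
  have h2 := mul_le_mul_of_nonneg_left hD (mul_nonneg ht (sq_nonneg L))
  have h3 := mul_le_mul_of_nonneg_right h1 (show 0 ≤ a' + b + c' + t * u by positivity)
  nlinarith

theorem rLnk : GV.F.OfLnk := by
  intro hM hMG hB A1 A2 hA hG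
  refine ⟨A1 * A2 + 2, @fun G H Cl _ _ S X hS hX e hP g hg hgd α => ?_⟩
  classical
  obtain ⟨m1, m2, -, -, m5, m6⟩ := hM S hS g hg α
  obtain ⟨g1, g2, g3⟩ := hMG S X hS hX g hg α
  have hP' : S.Par (A1 * A2) e := hS.par_mono (Nat.le_add_right _ _) hP
  have hK : 0 < S.K := Nat.pos_of_mul_pos_right hS.U_pos
  have hr : 0 < S.r := Nat.pos_of_mul_pos_left hS.U_pos
  have md := hA S.K S.r S.k S.v S.Λ hS.num.1 hK hS.cel.1 hS.nat.1 hS.nat.2.1 hS.mdl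
  have L1 : (1 : ℝ) ≤ S.Λ ^ A1 := one_le_pow₀ hS.one_le
  have L2 : S.Λ ≤ S.Λ ^ A1 := le_self_pow₀ hS.one_le fun h => by
    have := md.big
    rw [h] at this
    norm_num at this
  have hη := hS.num.2.2.2.2.2.2.1
  have hl := hS.num.2.2.2.2.2.2.2
  have K0 : (0 : ℝ) < S.K := by exact_mod_cast hK
  have K2 : 2 / (S.K : ℝ) ≤ S.η := (div_le_iff₀ K0).2 hS.cel.2.1
  have K1 : 1 / (S.K : ℝ) ≤ S.η := le_trans (by gcongr; norm_num) K2
  obtain ⟨h0⟩ := hS.nonempty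
  have f0 : 0 < X.f0 := (hX.ad0 h0).2 ▸ hS.fm_pos (hX.ad0 h0).1
  have f1 : X.f0 ≤ S.Λ := (hX.ad0 h0).2 ▸ hS.fm_le (hX.ad0 h0).1
  have hD : 0 ≤ S.σ * ∑ h, |X.dp h| :=
    mul_nonneg hS.sig_pos.le (sum_nonneg fun h _ => abs_nonneg _)
  set ZZ := S.P1.filter (S.zr g) with hZ
  have hz : ∀ z ∈ ZZ, z ∈ S.P1 := fun z h => (mem_filter.1 h).1
  have gt : Gt (S.mo g) S.Zo (fun ω => S.cell ω.1) ZZ S.n0 S.f1 S.f2 S.d S.K (G1 S.K S.r S.k S.v)
      (G2 S.K S.r S.k S.v) S.mc (S.dev1 g) (S.Λ ^ A1) S.η e :=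
    { md := md
      tp := ⟨m5, fun ω h i => mem_filter.2 ⟨((m6 ω h).1 i).1, ((m6 ω h).1 i).2.1⟩, hS.mc0.1,
        hS.mc0.2⟩
      pos := fun z h => hS.n0_pos (hz z h)
      lt := fun z h => hS.d_lt (hz z h)
      c1 := fun z _ => ⟨(hS.f1_bd z).1, (hS.f1_bd z).2.trans L1,
        (hB S.K S.r S.k S.v (S.u z) 0 hK hr hS.nat.1).1.trans K1⟩
      c2 := fun z _ z' _ => ⟨(hS.f2_bd z z').1, (hS.f2_bd z z').2.trans L1,
        (hB S.K S.r S.k S.v (S.u z) (S.u z') hK hr hS.nat.1).2.trans K2⟩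
      dv := fun i j hij z h => by
        refine add_le_add (by simp only [m1 i z (hz z h)]; exact le_rfl) ?_
        rw [sum_congr rfl fun z' h' => by rw [m2 i j hij z (hz z h) z' (hz z' h')], lnk_sum]
        exact le_rfl
      tot := (lnk_sum _ _ _).trans_le hgd.1
      eq := by simp only [hZ, lnk_sum]; exact hgd.2
      sm := ⟨hP'.1, (hS.par_small hP').2.1, hη.le⟩ }
  obtain ⟨c1, c2⟩ := hG _ _ _ _ _ _ _ _ _ _ _ _ _ _ _ _ (fun z => X.φ g z - α z)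
    (fun z => Real.log z.p) (SZ S X (aa X α) g) (SC S X (aa X α) g) (SM S X) (Fo S X (aa X α))
    (fun ω => X.uu g ω.1) (fun ω => S.la g ω.1) (fun ω => X.ce ω.1) S.L1 (S.lam * S.r) S.M
    (S.Λ * (S.σ * ∑ h, |X.dp h|)) ((∀ h, X.ce h = 0) → X.Pg g) gt hS.cel.2.2.1 hS.cel.2.2.2
    (by rw [← pow_mul]; exact hP'.2.1) (by rw [← pow_mul]; exact hP'.2.2.1) (by positivity)
    (fun z h => by
      have a1 := abs_le.1 (hS.p1 z (hz z h)).2.2.2.2.2.2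
      have a2 : (S.u z : ℝ) = S.r * S.d z + (S.u z % S.r : ℕ) := by
        exact_mod_cast (Nat.div_add_mod _ _).symm
      have a3 : ((S.u z % S.r : ℕ) : ℝ) + 1 ≤ S.r := by exact_mod_cast Nat.mod_lt _ hr
      have a4 := mul_le_mul_of_nonneg_left a3 hl.le
      have a5 := mul_nonneg hl.le (S.u z % S.r).cast_nonneg
      rw [a2] at a1
      exact abs_le.2 ⟨by linarith [a1.1], by linarith [a1.2]⟩)
    (fun ω h => ⟨g3 ω h, (m6 ω h).2.2⟩)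
    (fun s => by
      obtain ⟨R, U, a1, a2, a3, a4, a5, a6⟩ := hX.arh g hg s
      refine ⟨R, U, a1, fun ω => a2 ω.1, a3, fun x => (a4 x).trans (mul_le_mul_of_nonneg_right L2
        (sum_nonneg fun c _ => mul_nonneg (hS.mc0.1 c) (sq_nonneg _))), ?_, a6⟩
      rw [GFLnk_cell, abs_mul, abs_of_pos f0]
      refine (mul_le_mul f1 a5 (abs_nonneg _) hS.lam_pos.le).trans_eq ?_
      ring)
    (fun i z h => g1 i z (hz z h)) g2
    (by simpa [hX.dz] using GFLnk_cell S X fun _ => 1)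
  refine ⟨c1.trans ?_, fun h hce => c2 (fun ω h0 => ⟨h ω h0, hce _⟩) hce⟩
  rw [← pow_mul, pow_add]
  refine GFLnk_fin hS.one_le (pow_nonneg hS.lam_pos.le _) ?_ ?_ ?_ ?_ ?_ (sq_nonneg _) ?_
    (GFLnk_cs _ hS.sig_pos.le hS.sig _)
  · exact sum_le_sum_of_subset_of_nonneg (filter_subset _ _) fun z h _ =>
      div_nonneg (sq_nonneg _) (hS.n0_pos h).le
  · exact sum_le_sum fun ω _ => mul_le_mul_of_nonneg_right (mul_le_mul_of_nonneg_left
      (ind_mono fun ⟨i, h⟩ => ⟨i, Or.inr h⟩) (m5 ω)) (sq_nonneg _)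
  · exact sum_nonneg fun z h => div_nonneg (sq_nonneg _) (hS.n0_pos h).le
  · exact mul_nonneg (K0.le.trans hS.cel.2.2.1) (sum_nonneg fun c _ => sq_nonneg _)
  · exact sum_nonneg fun ω _ => mul_nonneg (mul_nonneg (m5 ω) (ind_nonneg _)) (sq_nonneg _)
  · exact sum_nonneg fun ω _ => mul_nonneg (m5 ω) (sq_nonneg _)

end Pool.Agent.MP_f3836a_nt.GV.F
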