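import Pool.Agent.MP_f3836a_nt.GV.SpecF
import Pool.Agent.MP_f3836a_nt.VE.FLr

/-! Part F with a defect: the lower bound and the removed part, summed over the small curves. -/

set_option autoImplicit false

namespace Pool.Agent.MP_f3836a_nt.GV.F

open Finset VE VE.F

theorem GFLr_nrm {G H Cl : Type} [Fintype H] [Fintype Cl] {S : Sys G H Cl} (hS : S.Ok)
    (X : Ex G H) (a : H → Pt → ℝ) : nrm S X a = S.σ * ∑ h,
    (X.dp h ^ 2 + ∑ x ∈ S.St (some h), S.w (some h) x * PT x * a h (pt x) ^ 2) := by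
  unfold nrm
  congr 1
  refine sum_congr rfl fun h _ => ?_
  simp only [mul_assoc]
  rw [hS.sum_st h fun x => PT x * a h (pt x) ^ 2]
  refine congrArg _ (sum_congr rfl fun z _ => ?_)
  rw [PT_single, pt_single]
  ring

theorem rLr : GV.F.OfLr := by
  intro hR A1 A2 hL hB
  refine ⟨A1 + (A2 + 4), fun {G H Cl} _ _ S X hS hX e hP a ha => ⟨?_, ?_, ?_⟩⟩
  · have h1 := (hS.par_small (hS.par_mono (Nat.le_add_right _ _) hP)).2.2.2.1
    rw [lr_om, GFLr_nrm hS, mul_div_assoc, sum_div]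
    refine mul_le_mul_of_nonneg_left (sum_le_sum fun h _ => ?_) hS.sig_pos.le
    refine (hL S hS h1 (some h) (X.dp h) (fun x => a h (pt x)) fun f => ?_).trans_eq ?_
    · simp only [mul_assoc]
      rw [hS.sum_st h fun x => a h (pt x) * f (x.map Pt.p)]
      simpa only [pt_single, Multiset.map_singleton, mul_assoc] using ha h fun p => f {p}
    · simp only [add_comm (X.dp h)]
      rfl
  · have e1 := (hS.par_small hP).2.1
    have hM : 0 ≤ S.M := by linarith [hS.num.2.2.1]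
    have l0 := hS.lam_pos
    have t0 := hS.th_pos
    have e0 : 0 ≤ S.M * S.Λ ^ A2 * S.θ / e ^ 2 := by positivity
    have n0 : 0 ≤ nrm S X a := mul_nonneg hS.sig_pos.le (sum_nonneg fun h _ =>
      add_nonneg (sq_nonneg _) (sum_nonneg
        fun z _ => mul_nonneg (div_nonneg (hS.wz_nonneg h z) (Nat.cast_nonneg _)) (sq_nonneg _)))
    have le : 2 * S.Λ ^ 3 * (S.M * S.Λ ^ A2 * S.θ / e ^ 2)
        ≤ S.M * S.Λ ^ (A1 + (A2 + 4)) * S.θ / e ^ 2 := by
      have h1 : 2 * S.Λ ^ (A2 + 3) ≤ S.Λ ^ (A1 + (A2 + 4)) := by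
        refine le_trans ?_ (hS.pow_mono (Nat.le_add_left _ _))
        rw [pow_succ' _ (A2 + 3)]
        exact mul_le_mul_of_nonneg_right (by linarith [hS.num.1]) (by positivity)
      calc _ = S.M * (2 * S.Λ ^ (A2 + 3)) * S.θ / e ^ 2 := by ring
        _ ≤ _ := by gcongr
    refine le_trans ?_ (mul_le_mul_of_nonneg_right le n0)
    simp only [mul_assoc (S.mo _ _)]
    rw [lr_om, GFLr_nrm hS, mul_left_comm]
    refine mul_le_mul_of_nonneg_left ?_ hS.sig_pos.le
    rw [mul_sum]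
    refine sum_le_sum fun h _ => ?_
    refine le_trans (le_of_eq ?_) (hR S hS (some h) (X.dp h) _ (fun x => a h (pt x))
      (fun g x => S.b1 e g (pt x)) e0 (fun x hx => ?_) fun x hx x' hx' hn => ?_)
    · simp only [add_comm (X.dp h)]
      rfl
    · have hs := hS.st _ x hx
      have := (hB S hS e (some h) x _ hP.1 e1
        ⟨hS.ad1 _ x hx, hs.1, hS.Sm_mono one_le_two hs.2.1⟩).1
      obtain ⟨z, hz, rfl⟩ := (hS.st1 h x hx).2
      rw [pt_single]
      exact this z hz (by simp)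
    · have := (hB S hS e (some h) (x + x') _ hP.1 e1
        ⟨hS.ad2 _ x hx x' hx' hn, hn, S.Sm_add (hS.st _ x hx).2.1 (hS.st _ x' hx').2.1⟩).1
      obtain ⟨z, hz, rfl⟩ := (hS.st1 h x' hx').2
      rw [pt_single]
      exact this z hz (by simp)
  · rw [lr_om, mul_left_comm, mul_sum _ _ (2 * S.Λ)]
    refine mul_le_mul_of_nonneg_left (sum_le_sum fun h _ => ?_) hS.sig_pos.le
    have := hS.eq1_le Nd_zero (hS.Sm_mono (Nat.zero_le 8) S.Sm_zero) (S.Cf_self (hX.ad0 h).1)
    rw [PT_zero, mul_one, S.E_congr fun g hg => hS.I_Y hg (hX.ad0 h).1 S.Sm_zero] at this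
    refine le_trans (le_of_eq ?_) (mul_le_mul_of_nonneg_right this (sq_nonneg _))
    rw [mul_comm, ← S.E_mul]
    exact S.E_congr fun g _ => by rw [← S.TY_one, ← S.TY_mul]; simp only [mul_one]

end Pool.Agent.MP_f3836a_nt.GV.F
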