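import Pool.Agent.MP_f3836a_nt.GV.SpecF

/-! Part F with an archimedean defect: the conclusion. -/

set_option autoImplicit false

namespace Pool.Agent.MP_f3836a_nt.GV.F

open Finset VE VE.F

theorem rMain : GV.F.OfMain := by
  intro hM hA A1 A2 A3 A4 h1 h2 h3 h4
  obtain ⟨A, hA'⟩ : ∃ A, A = A1 + A2 + A3 + A4 + 3 := ⟨_, rfl⟩
  refine ⟨3 * A, fun {G H Cl} _ _ S X hS hX i1 i2 => ?_⟩
  obtain ⟨a, -, b, -, -, -, c, -⟩ := hS.num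
  have L0 := hS.lam_pos
  have M0 : 0 < S.M := by linarith
  obtain ⟨e, hP⟩ : ∃ e, S.Par A e := by
    refine ⟨S.η / (S.M * S.Λ ^ A), by positivity,
      (mul_le_mul_of_nonneg_left (hS.pow_mono (by omega)) c.le).trans i1, le_of_eq ?_, ?_⟩
    · field_simp
    · rw [div_pow, le_div_iff₀ (by positivity)]
      exact le_of_eq_of_le (by ring) i2
  obtain ⟨α, a1, a2⟩ := hA S X hS hX
  have l1 := h1 S X hS hX e (hS.par_mono (by omega) hP)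
  obtain ⟨b1, b2⟩ := h2 S X hS hX _ a1 a2
  obtain ⟨c1, c2, c3⟩ := h3 S X hS hX e (hS.par_mono (by omega) hP) _ a1
  have σ0 := hS.sig_pos
  have t0 : ∀ h, ∀ z ∈ S.P1, 0 ≤ S.wz h z / z.p * aa X α h z ^ 2 := fun h z _ =>
    mul_nonneg (div_nonneg (hS.wz_nonneg h z) (Nat.cast_nonneg _)) (sq_nonneg _)
  have D0 : 0 ≤ S.σ * ∑ h, X.dp h ^ 2 := by positivity
  have C0 : 0 ≤ S.σ * ∑ h, X.ce h ^ 2 := by positivity
  have DN : S.σ * ∑ h, X.dp h ^ 2 ≤ nrm S X (aa X α) := mul_le_mul_of_nonneg_left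
    (sum_le_sum fun h _ => le_add_of_nonneg_right (sum_nonneg (t0 h))) σ0.le
  have N0 := D0.trans DN
  have key := c1.trans (S.E_mono (F' := fun g => S.Λ ^ A1 *
      (∑ z ∈ S.P1, SZ S X (aa X α) g z ^ 2 / S.n0 z + S.M * ∑ c, SC S X (aa X α) g c ^ 2
      + ∑ ω, S.mo g ω * ind (∃ i, S.b1 e g (S.Zo ω i)) * Fo S X (aa X α) ω ^ 2
      + S.η ^ 2 * (∑ ω, S.mo g ω * X.ce ω.1 ^ 2 + S.σ * ∑ h, X.dp h ^ 2))) fun g hg => by
    by_cases gd : S.good e g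
    · exact (l1 g hg gd α).1
    · have e1 : ∀ ω : S.Om, ind (∃ i, S.b1 e g (S.Zo ω i)) = 1 :=
        fun ω => ind_pos ⟨0, Or.inl gd⟩
      simp only [e1, mul_one]
      have m0 := (hM S hS g hg α).2.2.2.2.1
      have p1 : 0 ≤ ∑ ω, S.mo g ω * Fo S X (aa X α) ω ^ 2 := sum_nonneg fun ω _ =>
        mul_nonneg (m0 ω) (sq_nonneg _)
      have p2 : 0 ≤ ∑ z ∈ S.P1, SZ S X (aa X α) g z ^ 2 / S.n0 z :=
        sum_nonneg fun z hz => div_nonneg (sq_nonneg _) (hS.n0_pos hz).le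
      have p3 : 0 ≤ S.M * ∑ c, SC S X (aa X α) g c ^ 2 := by positivity
      have p4 : 0 ≤ S.η ^ 2 * (∑ ω, S.mo g ω * X.ce ω.1 ^ 2 + S.σ * ∑ h, X.dp h ^ 2) :=
        mul_nonneg (sq_nonneg _) (add_nonneg (sum_nonneg fun ω _ =>
          mul_nonneg (m0 ω) (sq_nonneg _)) D0)
      exact le_trans (by linarith) (le_mul_of_one_le_left (by linarith) (one_le_pow₀ hS.one_le)))
  have ec : ∀ x : ℝ, S.E (fun _ => x) = x := fun x => by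
    rw [Sys.E, sum_const, nsmul_eq_mul,
      mul_div_cancel_left₀ _ (Nat.cast_ne_zero.2 hS.gs.card_pos.ne')]
  rw [S.E_mul, S.E_add, S.E_add, S.E_add, S.E_mul, S.E_mul, S.E_add, ec] at key
  obtain ⟨-, -, s1, s2, s3⟩ := hS.par_small hP
  have q1 : S.Λ ^ A1 * S.Λ ^ A2 * S.Λ ^ 2 ≤ S.Λ ^ A := by
    rw [← pow_add, ← pow_add]; exact hS.pow_mono (by omega)
  have q2 : S.Λ ^ A1 * S.Λ ^ A3 * S.Λ ^ 2 ≤ S.Λ ^ A := by
    rw [← pow_add, ← pow_add]; exact hS.pow_mono (by omega)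
  have q3 : S.Λ ^ A1 * S.Λ ^ 2 ≤ S.Λ ^ A := by
    rw [← pow_add]; exact hS.pow_mono (by omega)
  have q4 : S.Λ ^ A1 * S.Λ ^ 3 ≤ S.Λ ^ (3 * A) := by
    rw [← pow_add]; exact hS.pow_mono (by omega)
  have T0 := hS.th_pos
  have r1 : S.Λ ^ A1 * (S.Λ ^ A2 * S.θ ^ 2) * S.Λ ^ 2 ≤ 1 :=
    calc _ = S.θ ^ 2 * (S.Λ ^ A1 * S.Λ ^ A2 * S.Λ ^ 2) := by ring
      _ ≤ S.θ * S.Λ ^ A := mul_le_mul hS.th_sq q1 (by positivity) T0.le
      _ ≤ 1 := s2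
  have r2 : S.Λ ^ A1 * (S.M * (S.Λ ^ A2 * S.θ ^ 2)) * S.Λ ^ 2 ≤ 1 :=
    calc _ = S.θ ^ 2 * S.M * (S.Λ ^ A1 * S.Λ ^ A2 * S.Λ ^ 2) := by ring
      _ ≤ S.θ * S.M * S.Λ ^ A :=
          mul_le_mul (mul_le_mul_of_nonneg_right hS.th_sq M0.le) q1 (by positivity) (by positivity)
      _ ≤ 1 := s1
  have r3 : S.Λ ^ A1 * (S.M * S.Λ ^ A3 * S.θ / e ^ 2) * S.Λ ^ 2 ≤ 1 :=
    calc _ = S.M * (S.Λ ^ A1 * S.Λ ^ A3 * S.Λ ^ 2) * S.θ / e ^ 2 := by ring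
      _ ≤ S.M * S.Λ ^ A * S.θ / e ^ 2 := by gcongr
      _ ≤ 1 := s3
  have r4 : S.Λ ^ A1 * S.η ^ 2 * S.Λ ^ 2 ≤ 1 :=
    calc _ = S.η * (S.η * (S.Λ ^ A1 * S.Λ ^ 2)) := by ring
      _ ≤ S.η * S.Λ ^ A * (S.η * S.Λ ^ A) := mul_le_mul
          (le_mul_of_one_le_right c.le (one_le_pow₀ hS.one_le)) (by gcongr) (by positivity)
          (by positivity)
      _ ≤ 1 := mul_le_one₀ hP.2.1 (by positivity) hP.2.1
  have k2 : nrm S X (aa X α) / (2 * S.Λ) * S.Λ ^ 2 ≤ 4 * nrm S X (aa X α) +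
      2 * (S.Λ ^ A1 * S.Λ ^ 3 * S.η ^ 2 * (S.σ * ∑ h, X.ce h ^ 2)) := by
    refine (mul_le_mul_of_nonneg_right (key.trans (mul_le_mul_of_nonneg_left
      (add_le_add (add_le_add (add_le_add b1 (mul_le_mul_of_nonneg_left b2 M0.le)) c2)
        (mul_le_mul_of_nonneg_left (add_le_add c3 DN) (sq_nonneg _))) (by positivity)))
      (by positivity)).trans ?_
    linarith [mul_le_mul_of_nonneg_right r1 N0, mul_le_mul_of_nonneg_right r2 N0,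
      mul_le_mul_of_nonneg_right r3 N0, mul_le_mul_of_nonneg_right r4 N0]
  rw [show nrm S X (aa X α) / (2 * S.Λ) * S.Λ ^ 2 = S.Λ * nrm S X (aa X α) / 2 by field_simp] at k2
  have k3 : nrm S X (aa X α) ≤ S.Λ ^ (3 * A) * S.η ^ 2 * (S.σ * ∑ h, X.ce h ^ 2) := by
    linarith [mul_le_mul_of_nonneg_right a N0,
      mul_le_mul_of_nonneg_right (mul_le_mul_of_nonneg_right q4 (sq_nonneg S.η)) C0]
  refine ⟨DN.trans k3, fun hc => ?_⟩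
  obtain ⟨g, hg, gd⟩ := h4 S hS e (hS.par_mono (by omega) hP)
  refine ⟨g, hg, (l1 g hg gd α).2 (fun ω hω => ?_) hc⟩
  have z0 : nrm S X (aa X α) = 0 := le_antisymm (by simpa [hc] using k3) N0
  have u1 := (add_eq_zero_iff_of_nonneg (sq_nonneg _) (sum_nonneg (t0 ω.1))).1
    ((sum_eq_zero_iff_of_nonneg fun h _ => add_nonneg (sq_nonneg _) (sum_nonneg (t0 h))).1
      ((mul_eq_zero.1 z0).resolve_left σ0.ne') ω.1 (mem_univ _))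
  rw [Fo, (pow_eq_zero_iff two_ne_zero).1 u1.1, add_zero]
  refine sum_eq_zero fun i _ => ?_
  obtain ⟨hz, -, hw⟩ := ((hM S hS g hg α).2.2.2.2.2 ω hω).1 i
  exact (pow_eq_zero_iff two_ne_zero).1 ((mul_eq_zero.1 ((sum_eq_zero_iff_of_nonneg (t0 _)).1 u1.2
    _ hz)).resolve_left (div_ne_zero hw (hS.p_pos (hS.p1 _ hz).1).ne'))

end Pool.Agent.MP_f3836a_nt.GV.F
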