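import Pool.Agent.MP_f3836a_nt.GV.SpecF
import Pool.Agent.MP_f3836a_nt.VE.FMar

/-! Part F with a defect: marginals of the events of the first kind. -/

set_option autoImplicit false

namespace Pool.Agent.MP_f3836a_nt.GV.F

open Finset VE VE.F

variable {G H Cl : Type} [Fintype H] [Fintype Cl] {S : Sys G H Cl}

theorem GFMarPt (hS : S.Ok) (X : Ex G H) (a : H → Pt → ℝ) (g : G) (i : Fin (S.k + 2)) {z : Pt}
    (hz : z ∈ S.P1) : ∑ ω, S.mo g ω * ind (S.Zo ω i = z) * Fo S X a ω = SZ S X a g z := by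
  simp only [mul_assoc]
  rw [mar_om]
  unfold SZ
  rw [mul_left_comm, ← mul_add, mul_sum _ _ ((S.k : ℝ) + 1), ← sum_add_distrib]
  refine congrArg _ (sum_congr rfl fun h _ => ?_)
  simp only [Fo, mul_add, mul_sum]
  rw [S.TY_add, S.TY_sum, Fin.sum_univ_succAbove _ i]
  have e0 : ∀ r : Pt → ℝ, (S.TY (some h) 0 (S.k + 2) g fun s =>
      ind (S.Zo ⟨h, s⟩ i = z) * r (S.Zo ⟨h, s⟩ i))
      = S.wz h z * r z * S.Y (some h) {z} (S.k + 1) g := by
    intro r
    refine (mar_one hS g h i fun y => ind (y = z) * r y).trans ?_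
    simp only [mul_assoc]
    rw [mar_pick hz fun y => r y * (S.wz h y * S.Y (some h) {y} (S.k + 1) g)]
    ring
  have e : ∀ m : Fin (S.k + 1), (S.TY (some h) 0 (S.k + 2) g fun s =>
      ind (S.Zo ⟨h, s⟩ i = z) * a h (S.Zo ⟨h, s⟩ (i.succAbove m)))
      = ∑ z' ∈ S.P1, S.wz h z * S.wz h z' * a h z' * S.Y (some h) (z' ::ₘ {z}) S.k g := by
    intro m
    refine (mar_two hS g h (Fin.succAbove_ne i m).symm
      fun y y' => ind (y = z) * a h y').trans ?_
    simp only [mul_assoc (ind _), ← mul_sum]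
    rw [mar_pick hz fun y => ∑ y' ∈ S.P1,
      a h y' * (S.wz h y * S.wz h y' * S.Y (some h) (y' ::ₘ {y}) S.k g)]
    exact sum_congr rfl fun y _ => by ring
  rw [e0 (a h), e0 fun _ => X.dp h, sum_congr rfl fun m _ => e m, sum_const, card_univ,
    Fintype.card_fin, nsmul_eq_mul, ← mul_sum]
  push_cast
  ring

theorem GFMarCell (hS : S.Ok) (X : Ex G H) (a : H → Pt → ℝ) (g : G) (c : Cl) :
    ∑ ω, S.mo g ω * ind (S.cell ω.1 = c) * Fo S X a ω = SC S X a g c + SM S X c := by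
  simp only [mul_assoc]
  rw [mar_om]
  unfold SC SM
  rw [mul_left_comm, mul_left_comm X.f0, ← mul_add, ← mul_add, mul_sum _ _ ((S.k : ℝ) + 2),
    mul_sum _ _ X.f0, ← sum_add_distrib, ← sum_add_distrib]
  refine congrArg _ (sum_congr rfl fun h _ => ?_)
  have e : ∀ m : Fin (S.k + 2), (S.TY (some h) 0 (S.k + 2) g fun s =>
      ind (S.cell h = c) * a h (S.Zo ⟨h, s⟩ m))
      = ∑ z ∈ S.P1, ind (S.cell h = c) * S.wz h z * a h z * S.Y (some h) {z} (S.k + 1) g := by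
    intro m
    refine (mar_one hS g h m fun y => ind (S.cell h = c) * a h y).trans ?_
    exact sum_congr rfl fun y _ => by ring
  have e1 := S.TY_mul (some h) 0 (S.k + 2) g (ind (S.cell h = c) * X.dp h) fun _ => 1
  simp only [mul_one, S.TY_one] at e1
  simp only [Fo, mul_add, mul_sum univ]
  rw [S.TY_add, S.TY_sum, sum_congr rfl fun m _ => e m, sum_const, card_univ, Fintype.card_fin,
    nsmul_eq_mul, e1]
  push_cast
  ring

theorem rMar : GV.F.MarG := by
  intro G H Cl _ _ S X hS hX g hg α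
  refine ⟨fun i z hz => GFMarPt hS X _ g i hz, GFMarCell hS X _ g, fun ω hω => ?_⟩
  obtain ⟨hev, -⟩ := Sys.Ok.mw_ne (right_ne_zero_of_mul hω)
  have hM : (0 : Multiset Pt) + ∑ i, (ω.2 i).1 = univ.val.map (S.Zo ω) := by
    rw [zero_add, ← mar_single]
    exact sum_congr rfl fun i _ => (mar_pt hS ω i).2
  rw [hM] at hev
  have h1 := hX.idh g hg _ _ hev fun z hz => by
    obtain ⟨i, -, rfl⟩ := Multiset.mem_map.1 hz
    exact (((VE.F.rMar S hS g hg α).2.2.2.2.2 ω hω).1 i).2.2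
  rw [Multiset.map_map, Multiset.map_map] at h1
  have h2 : ∑ i, X.ψ ω.1 (S.Zo ω i) + X.dp ω.1 = ∑ i, X.φ g (S.Zo ω i) + X.uu g ω.1 := h1
  simp only [Fo, aa, sum_sub_distrib]
  linarith

end Pool.Agent.MP_f3836a_nt.GV.F
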