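import Pool.Agent.MP_f3836a_nt.GV.SpecF
import Pool.Agent.MP_f3836a_nt.VE.FSg

/-! The main inequality for one big curve, with errors. -/

set_option autoImplicit false

namespace Pool.Agent.MP_f3836a_nt.GV.F

open Finset VE VE.F

/-- the duality step -/
theorem GFSg_dual {Ω ι Cl : Type} [Fintype Ω] [Fintype Cl] {κ : ℕ} (m : Ω → ℝ)
    (Z : Ω → Fin κ → ι) (cl : Ω → Cl) (ZZ : Finset ι) (n bt Sz : ι → ℝ) (V Sc Sm : Cl → ℝ)
    (F : Ω → ℝ) (bad : Ω → Prop) (Λ T L M : ℝ) (hΛ : 100 ≤ Λ) (hκ : (κ : ℝ) ≤ Λ) (hL : 0 < L)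
    (hM : 1 ≤ M) (hC : (Fintype.card Cl : ℝ) ≤ M) (m0 : ∀ ω, 0 ≤ m ω)
    (sup : ∀ ω, m ω ≠ 0 → ∀ i, Z ω i ∈ ZZ) (n0 : ∀ z ∈ ZZ, 0 < n z) (mt : ∑ ω, m ω ≤ 3 * Λ)
    (m1 : ∀ i, ∀ z ∈ ZZ, bt z ≠ 0 → ∑ ω, m ω * ind (Z ω i = z) ≤ 2 * Λ * n z)
    (hX : ∑ z ∈ ZZ, n z * bt z ^ 2 ≤ T) (hV : ∀ c, V c ^ 2 ≤ T)
    (hz : ∀ i, ∀ z ∈ ZZ, ∑ ω, m ω * ind (Z ω i = z) * F ω = Sz z)
    (hc : ∀ c, ∑ ω, m ω * ind (cl ω = c) * F ω = Sc c + Sm c) :
    ∑ ω, m ω * (1 - ind (bad ω)) * F ω * (∑ i, bt (Z ω i) + V (cl ω))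
      ≤ 3 * Λ ^ 3 * (T / L) + Λ * L / 2 * (∑ z ∈ ZZ, Sz z ^ 2 / n z + M * ∑ c, Sc c ^ 2
        + ∑ ω, m ω * ind (bad ω) * F ω ^ 2) + ∑ c, V c * Sm c := by
  have T0 : 0 ≤ T := (sum_nonneg fun z hz => mul_nonneg (n0 z hz).le (sq_nonneg _)).trans hX
  have a0 : 0 ≤ ∑ z ∈ ZZ, Sz z ^ 2 / n z :=
    sum_nonneg fun z hz => div_nonneg (sq_nonneg _) (n0 z hz).le
  have c0 : 0 ≤ M * ∑ c, Sc c ^ 2 := by positivity
  have r0 : 0 ≤ ∑ ω, m ω * ind (bad ω) * F ω ^ 2 := sum_nonneg fun ω _ => by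
    have := m0 ω
    rcases Sg_ind (bad ω) with h | h <;> rw [h.1] <;> positivity
  have e1 : ∀ i, ∑ ω, m ω * F ω * bt (Z ω i) = ∑ z ∈ ZZ, bt z * Sz z := fun i => by
    rw [Sg_fib (fun ω => m ω * F ω) (fun ω => Z ω i) ZZ bt
      fun ω h => sup ω (left_ne_zero_of_mul h) i]
    refine sum_congr rfl fun z h => ?_
    rw [← hz i z h]
    congr 1
    exact sum_congr rfl fun ω _ => by ring
  have e2 : ∑ ω, m ω * F ω * V (cl ω) = ∑ c, V c * Sc c + ∑ c, V c * Sm c := by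
    rw [Sg_fib (fun ω => m ω * F ω) cl univ V fun ω _ => mem_univ _, ← sum_add_distrib]
    refine sum_congr rfl fun c _ => ?_
    rw [← mul_add, ← hc c]
    congr 1
    exact sum_congr rfl fun ω _ => by ring
  have e3 : ∑ ω, m ω * F ω * (∑ i, bt (Z ω i) + V (cl ω))
      = κ * ∑ z ∈ ZZ, bt z * Sz z + (∑ c, V c * Sc c + ∑ c, V c * Sm c) := by
    simp only [mul_add, sum_add_distrib, e2, mul_sum univ]
    rw [sum_comm]
    simp [e1]
  have b1 : ∑ z ∈ ZZ, bt z * Sz z ≤ T / L / 2 + L / 2 * ∑ z ∈ ZZ, Sz z ^ 2 / n z := by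
    calc _ ≤ ∑ z ∈ ZZ, (n z * bt z ^ 2 / L / 2 + L / 2 * (Sz z ^ 2 / n z)) := by
          refine sum_le_sum fun z h => (Sg_am _ _ (L / n z) (div_pos hL (n0 z h))).trans_eq ?_
          have := n0 z h
          field_simp
      _ ≤ _ := by
          rw [sum_add_distrib, ← sum_div, ← sum_div, ← mul_sum]
          gcongr
  have b2 : ∑ c, V c * Sc c ≤ T / L / 2 + L / 2 * (M * ∑ c, Sc c ^ 2) := by
    calc _ ≤ ∑ c, (T / L / 2 / M + L / 2 * (M * Sc c ^ 2)) := by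
          refine sum_le_sum fun c _ => (Sg_am _ _ (L * M) (by positivity)).trans ?_
          have h1 : V c ^ 2 / (2 * (L * M)) ≤ T / (2 * (L * M)) := by
            have := hV c
            gcongr
          have h2 : T / (2 * (L * M)) = T / L / 2 / M := by field_simp
          linarith
      _ = Fintype.card Cl * (T / L / 2 / M) + L / 2 * (M * ∑ c, Sc c ^ 2) := by
          rw [sum_add_distrib, ← mul_sum, ← mul_sum, sum_const, card_univ, nsmul_eq_mul]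
      _ ≤ M * (T / L / 2 / M) + L / 2 * (M * ∑ c, Sc c ^ 2) := by gcongr
      _ = _ := by field_simp
  have b3 : ∀ i, ∑ ω, m ω * bt (Z ω i) ^ 2 ≤ 2 * Λ * T := fun i => by
    rw [Sg_fib m (fun ω => Z ω i) ZZ (fun z => bt z ^ 2) fun ω h => sup ω h i]
    calc _ ≤ ∑ z ∈ ZZ, 2 * Λ * (n z * bt z ^ 2) := by
          refine sum_le_sum fun z h => ?_
          by_cases e : bt z = 0
          · simp [e]
          · exact (mul_le_mul_of_nonneg_left (m1 i z h e) (sq_nonneg _)).trans_eq (by ring)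
      _ ≤ _ := by
          rw [← mul_sum]
          gcongr
  have b4 : ∑ ω, m ω * (∑ i, bt (Z ω i) + V (cl ω)) ^ 2 ≤ 5 * Λ ^ 3 * T - Λ * T - T := by
    calc _ ≤ ∑ ω, (2 * κ * ∑ i, m ω * bt (Z ω i) ^ 2 + 2 * T * m ω) := by
          refine sum_le_sum fun ω _ => ?_
          have h1 := sq_sum_le_card_mul_sum_sq (s := univ) (f := fun i => bt (Z ω i))
          rw [card_univ, Fintype.card_fin] at h1
          have h2 : (∑ i, bt (Z ω i) + V (cl ω)) ^ 2 ≤ 2 * (κ * ∑ i, bt (Z ω i) ^ 2) + 2 * T := by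
            linarith [hV (cl ω), sq_nonneg (∑ i, bt (Z ω i) - V (cl ω))]
          rw [← mul_sum]
          exact (mul_le_mul_of_nonneg_left h2 (m0 ω)).trans_eq (by ring)
      _ = 2 * κ * ∑ i, ∑ ω, m ω * bt (Z ω i) ^ 2 + 2 * T * ∑ ω, m ω := by
          rw [sum_add_distrib, ← mul_sum, ← mul_sum, sum_comm]
      _ ≤ 2 * κ * ∑ _i : Fin κ, 2 * Λ * T + 2 * T * (3 * Λ) := by
          gcongr with i
          exact b3 i
      _ = 4 * (κ * κ) * Λ * T + 6 * Λ * T := by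
          rw [sum_const, card_univ, Fintype.card_fin, nsmul_eq_mul]
          ring
      _ ≤ 4 * (Λ * Λ) * Λ * T + 6 * Λ * T := by gcongr
      _ ≤ _ := by
          have h0 : 8 ≤ Λ ^ 2 := by linarith [mul_le_mul hΛ hΛ (by norm_num) (by linarith)]
          have h1 : 8 * Λ ≤ Λ ^ 3 := by linarith [mul_le_mul_of_nonneg_right h0 (by linarith : 0 ≤ Λ)]
          linarith [mul_le_mul_of_nonneg_right h1 T0, mul_le_mul_of_nonneg_right hΛ T0]
  have b5 : ∑ ω, m ω * (1 - ind (bad ω)) * F ω * (∑ i, bt (Z ω i) + V (cl ω))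
      ≤ ∑ ω, m ω * F ω * (∑ i, bt (Z ω i) + V (cl ω))
        + (∑ ω, m ω * (∑ i, bt (Z ω i) + V (cl ω)) ^ 2) / L / 2
        + L / 2 * ∑ ω, m ω * ind (bad ω) * F ω ^ 2 := by
    rw [sum_div, sum_div, mul_sum, ← sum_add_distrib, ← sum_add_distrib]
    refine sum_le_sum fun ω _ => ?_
    have h0 := m0 ω
    generalize ∑ i, bt (Z ω i) + V (cl ω) = R
    rcases Sg_ind (bad ω) with h | h <;> rw [h.1]
    · have : 0 ≤ m ω * R ^ 2 / L / 2 := by positivity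
      linarith
    · have h1 := mul_le_mul_of_nonneg_left (Sg_am R (-F ω) L hL) h0
      have h2 : m ω * (R ^ 2 / (2 * L) + L * (-F ω) ^ 2 / 2)
          = m ω * R ^ 2 / L / 2 + L / 2 * (m ω * 1 * F ω ^ 2) := by field_simp
      linarith
  have b6 : (∑ ω, m ω * (∑ i, bt (Z ω i) + V (cl ω)) ^ 2) / L / 2
      ≤ (5 * Λ ^ 3 * (T / L) - Λ * (T / L) - T / L) / 2 := by
    calc _ ≤ (5 * Λ ^ 3 * T - Λ * T - T) / L / 2 := by gcongr
      _ = _ := by ring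
  have b7 : κ * ∑ z ∈ ZZ, bt z * Sz z ≤ Λ * (T / L / 2 + L / 2 * ∑ z ∈ ZZ, Sz z ^ 2 / n z) :=
    (mul_le_mul_of_nonneg_left b1 (Nat.cast_nonneg κ)).trans
      (mul_le_mul_of_nonneg_right hκ (by positivity))
  have b8 : 0 ≤ Λ ^ 3 * (T / L) := by positivity
  have b9 : L / 2 * 1 ≤ Λ * L / 2 := by linarith [mul_le_mul_of_nonneg_right hΛ hL.le]
  rw [e3] at b5
  linarith [mul_le_mul_of_nonneg_right b9 c0, mul_le_mul_of_nonneg_right b9 r0]

theorem rSg : GV.F.OfSg := by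
  intro hL hP A hF
  refine ⟨A + 6, ?_⟩
  intro Ω ι Cl _ _ κ m Z cl ZZ n f1 f2 d K F1 F2 mc D Λ η e b lq Sz Sc Sm F uu la er L lam M D0 P
    gt hK hC hη he hlam hlq hFe hS hz hc hSm
  obtain ⟨p1, p2, p3, p4⟩ := hP m Z cl ZZ n f1 f2 d K F1 F2 mc D Λ η e gt
  have hΛ := gt.md.big
  have Λ1 : (1 : ℝ) ≤ Λ := by linarith
  have K1 : (1 : ℝ) ≤ K := by exact_mod_cast gt.md.pos
  have M1 : 1 ≤ M := K1.trans hK
  obtain ⟨e0, -, η0⟩ := gt.sm
  have m0 := gt.tp.nn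
  have pw : ∀ j, j ≤ A + 6 → Λ ^ j ≤ Λ ^ (A + 6) := fun j h => pow_le_pow_right₀ Λ1 h
  have pA : 1 ≤ Λ ^ A := one_le_pow₀ Λ1
  have η1 : η * (Λ ^ A * Λ) ≤ 1 := by
    rw [← pow_succ]
    exact (mul_le_mul_of_nonneg_left (pw _ (by omega)) η0).trans hη
  have η2 : η ≤ 1 / 100 := by
    have h1 : η * (1 * 100) ≤ η * (Λ ^ A * Λ) := by gcongr
    linarith
  set ZZ' := ZZ.filter fun z => D z ≤ e * n z with hZZ'
  set m' := fun ω => m ω * ind (∀ i, D (Z ω i) ≤ e * n (Z ω i)) with hm'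
  have sub : ∀ z ∈ ZZ', z ∈ ZZ := fun z h => (mem_filter.1 h).1
  have mm : ∀ ω, m' ω = 0 ∧ ind (∃ i, e * n (Z ω i) < D (Z ω i)) = 1 ∨ m' ω = m ω ∧
      ind (∃ i, e * n (Z ω i) < D (Z ω i)) = 0 ∧ ∀ i, D (Z ω i) ≤ e * n (Z ω i) := fun ω => by
    by_cases h : ∀ i, D (Z ω i) ≤ e * n (Z ω i)
    · exact Or.inr ⟨by simp [hm', ind, h], by simp [ind, h], h⟩
    · exact Or.inl ⟨by simp only [hm', ind, if_neg h, mul_zero], by simpa [ind] using h⟩
  have m'0 : ∀ ω, 0 ≤ m' ω ∧ m' ω ≤ m ω := fun ω => by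
    rcases mm ω with h | h <;> rw [h.1] <;> simp [m0 ω]
  have mt : ∑ ω, m' ω ≤ 3 * Λ := (sum_le_sum fun ω _ => (m'0 ω).2).trans p3
  obtain ⟨a0, s0, hM⟩ := hL ZZ' n b lq fun z h => (gt.pos z (sub z h)).le
  obtain ⟨S, U, S0, herr, hU, hvar, hD, hfin⟩ := hS s0
  set b' := fun z => b z - a0 - s0 * lq z with hb'
  set V := fun c => U c + κ * a0 with hV
  obtain ⟨q1, q2, q3⟩ := hF m' Z cl ZZ' n b' lq d K F1 F2 mc V Λ L lam (4 * η) S gt.md
    ⟨fun z h => (gt.pos z (sub z h)).le, fun z h => gt.lt z (sub z h), fun i hi => by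
      refine (p2 i hi).trans ((le_div_iff₀ (by linarith)).2 ?_)
      have h1 : e * K ≤ e * M * Λ ^ (A + 6) :=
        (mul_le_mul_of_nonneg_left hK e0.le).trans
          (le_mul_of_one_le_right (by positivity) (one_le_pow₀ Λ1))
      linarith, hlam, fun z h => hlq z (sub z h)⟩
    ⟨fun ω => (m'0 ω).1, fun ω h i => by
      rcases mm ω with h' | h'
      · exact absurd h'.1 h
      · exact mem_filter.2 ⟨gt.tp.sup ω (h'.1 ▸ h) i, h'.2.2 i⟩, gt.tp.mc0, gt.tp.mc1⟩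
    hM (by linarith) (by
      have g := mul_nonneg η0 (zero_le_one.trans pA)
      linarith [mul_le_mul_of_nonneg_left hΛ g])
    (fun i j hij z h => by
      refine (p1 i j hij z h).trans (mul_le_mul_of_nonneg_right ?_ (gt.pos z (sub z h)).le)
      have h1 : e * 1 * Λ ^ 3 ≤ e * M * Λ ^ (A + 6) := by
        have := pw 3 (by omega)
        gcongr
      linarith)
    (fun c c' => by simpa [hV] using hU c c')
    (fun x => by
      refine (hvar (x - κ * a0)).trans_eq ?_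
      simp only [hV]
      congr 1
      exact sum_congr rfl fun c _ => by ring)
  have hR : ∀ ω, m ω ≠ 0 → (F ω - (∑ i, b' (Z ω i) + V (cl ω))) ^ 2
      ≤ 2 * (η * S) ^ 2 + 2 * (η ^ 2 * er ω ^ 2) := fun ω h => by
    have h1 : F ω - (∑ i, b' (Z ω i) + V (cl ω)) = uu ω + s0 * la ω - U (cl ω) := by
      rw [(hFe ω h).1, (hFe ω h).2]
      simp only [hb', hV, sum_sub_distrib, ← mul_sum, sum_const, card_univ, Fintype.card_fin,
        nsmul_eq_mul]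
      ring
    rw [h1]
    refine (sq_le_sq' (abs_le.1 (herr ω)).1 (abs_le.1 (herr ω)).2).trans ?_
    linarith [sq_nonneg (η * S - η * er ω)]
  set W := ∑ ω, m' ω * F ω ^ 2 with hW
  set Q := Qt m' Z cl b' V with hQ
  set Er := ∑ ω, m ω * er ω ^ 2 with hEr
  have Er0 : 0 ≤ η ^ 2 * Er :=
    mul_nonneg (sq_nonneg _) (sum_nonneg fun ω _ => mul_nonneg (m0 ω) (sq_nonneg _))
  have hE' : ∑ ω, m' ω * (2 * (η * S) ^ 2 + 2 * (η ^ 2 * er ω ^ 2))
      ≤ 2 * ((η * S) ^ 2 * ∑ ω, m' ω) + 2 * (η ^ 2 * Er) := by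
    rw [hEr, mul_sum, mul_sum, mul_sum, mul_sum, ← sum_add_distrib]
    refine sum_le_sum fun ω _ => ?_
    linarith [mul_le_mul_of_nonneg_right (m'0 ω).2 (mul_nonneg (sq_nonneg η) (sq_nonneg (er ω)))]
  have W0 : 0 ≤ W := sum_nonneg fun ω _ => mul_nonneg (m'0 ω).1 (sq_nonneg _)
  have Q0 : 0 ≤ Q := sum_nonneg fun ω _ => mul_nonneg (m'0 ω).1 (sq_nonneg _)
  have hE : (η * S) ^ 2 * ∑ ω, m' ω ≤ 3 / 100 * Q := by
    calc _ ≤ η ^ 2 * (Λ ^ A * Q) * (3 * Λ) := by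
          rw [mul_pow]
          gcongr
          exact sum_nonneg fun ω _ => (m'0 ω).1
      _ = 3 * η * (η * (Λ ^ A * Λ)) * Q := by ring
      _ ≤ 3 * (1 / 100) * 1 * Q := by gcongr
      _ = _ := by ring
  have hQW : Q ≤ 4 * W + 8 * (η ^ 2 * Er) := by
    have h1 : Q ≤ 2 * W + 2 * ∑ ω, m' ω * (2 * (η * S) ^ 2 + 2 * (η ^ 2 * er ω ^ 2)) := by
      rw [hQ, Qt, hW, mul_sum, mul_sum, ← sum_add_distrib]
      refine sum_le_sum fun ω _ => ?_
      by_cases h : m ω = 0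
      · simp [hm', h]
      · have h2 := hR ω h
        generalize ∑ i, b' (Z ω i) + V (cl ω) = R at h2 ⊢
        generalize 2 * (η * S) ^ 2 + 2 * (η ^ 2 * er ω ^ 2) = X at h2 ⊢
        have h3 : R ^ 2 ≤ 2 * F ω ^ 2 + 2 * X := by linarith [sq_nonneg (2 * F ω - R)]
        exact (mul_le_mul_of_nonneg_left h3 (m'0 ω).1).trans_eq (by ring)
    linarith
  have hT : Λ ^ A * Q ≤ Λ ^ A * (4 * W + 8 * (η ^ 2 * Er)) :=
    mul_le_mul_of_nonneg_left hQW (by linarith)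
  refine ⟨?_, fun h0 => ?_⟩
  · set bt := fun z => if D z ≤ e * n z then b' z else 0 with hbt
    have h1 := GFSg_dual m Z cl ZZ n bt Sz V Sc Sm F (fun ω => ∃ i, e * n (Z ω i) < D (Z ω i)) Λ
      (Λ ^ A * (4 * W + 8 * (η ^ 2 * Er))) (Λ ^ A * Λ ^ 4) M hΛ gt.md.kap.2 (by positivity) M1 hC m0 gt.tp.sup gt.pos
      p3 (fun i z h h' => p4 i z h (by_contra fun a => h' (if_neg a)))
      (by
        refine le_trans (le_of_eq ?_) (q1.trans hT)
        rw [hZZ', sum_filter]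
        refine sum_congr rfl fun z _ => ?_
        simp only [hbt]
        split_ifs <;> simp)
      (fun c => (q3 c).trans hT) hz hc
    have h2 : W ≤ ∑ ω, m ω * (1 - ind (∃ i, e * n (Z ω i) < D (Z ω i))) * F ω
        * (∑ i, bt (Z ω i) + V (cl ω)) + W / 4
        + ∑ ω, m' ω * (2 * (η * S) ^ 2 + 2 * (η ^ 2 * er ω ^ 2)) := by
      rw [hW, sum_div, ← sum_add_distrib, ← sum_add_distrib]
      refine sum_le_sum fun ω _ => ?_
      by_cases h : m ω = 0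
      · simp [hm', h]
      rcases mm ω with h' | h'
      · simp [h'.1, h'.2]
      · have h2 := hR ω h
        have h4 : ∑ i, bt (Z ω i) = ∑ i, b' (Z ω i) := sum_congr rfl fun i _ => if_pos (h'.2.2 i)
        rw [h'.1, h'.2.1, h4]
        generalize ∑ i, b' (Z ω i) + V (cl ω) = R at h2 ⊢
        generalize 2 * (η * S) ^ 2 + 2 * (η ^ 2 * er ω ^ 2) = X at h2 ⊢
        have h3 : F ω ^ 2 ≤ F ω * R + F ω ^ 2 / 4 + X := by
          linarith [sq_nonneg (F ω / 2 - (F ω - R))]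
        exact (mul_le_mul_of_nonneg_left h3 (m0 ω)).trans_eq (by ring)
    have h3 : ∑ ω, m ω * F ω ^ 2
        = W + ∑ ω, m ω * ind (∃ i, e * n (Z ω i) < D (Z ω i)) * F ω ^ 2 := by
      rw [hW, ← sum_add_distrib]
      refine sum_congr rfl fun ω _ => ?_
      rcases mm ω with h' | h'
      · simp [h'.1, h'.2]
      · simp [h'.1, h'.2.1]
    have a1 : 0 ≤ ∑ z ∈ ZZ, Sz z ^ 2 / n z :=
      sum_nonneg fun z hz => div_nonneg (sq_nonneg _) (gt.pos z hz).le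
    have c1 : 0 ≤ M * ∑ c, Sc c ^ 2 := by positivity
    have r1 : 0 ≤ ∑ ω, m ω * ind (∃ i, e * n (Z ω i) < D (Z ω i)) * F ω ^ 2 :=
      sum_nonneg fun ω _ => by
        have := m0 ω
        rcases mm ω with h | h
        · rw [h.2]
          positivity
        · simp [h.2.1]
    have h4 : 3 * Λ ^ 3 * (Λ ^ A * (4 * W + 8 * (η ^ 2 * Er)) / (Λ ^ A * Λ ^ 4))
        ≤ 3 / 100 * (4 * W + 8 * (η ^ 2 * Er)) := by
      calc _ = 3 / Λ * (4 * W + 8 * (η ^ 2 * Er)) := by field_simp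
        _ ≤ _ := by gcongr
    have h9 : ∑ c, V c * Sm c ≤ 1 / 100 * (4 * W + 8 * (η ^ 2 * Er))
        + Λ * (Λ ^ A * Λ ^ 4) / 2 * (η ^ 2 * D0 ^ 2) := by
      have g1 : ∑ c, V c * Sm c = ∑ c, U c * Sm c := by
        simp only [hV, add_mul, sum_add_distrib, ← mul_sum, hSm, mul_zero, add_zero]
      have g2 := Sg_am S (η * D0) (Λ * Λ ^ A) (by positivity)
      have g3 : S ^ 2 / (2 * (Λ * Λ ^ A)) ≤ 1 / 100 * (4 * W + 8 * (η ^ 2 * Er)) := by
        calc _ ≤ Λ ^ A * (4 * W + 8 * (η ^ 2 * Er)) / (2 * (Λ * Λ ^ A)) := by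
              have := q2.trans hT
              gcongr
          _ = 1 / (2 * Λ) * (4 * W + 8 * (η ^ 2 * Er)) := by field_simp
          _ ≤ _ := by gcongr; linarith
      have g4 : Λ * Λ ^ A * (η * D0) ^ 2 / 2 ≤ Λ * (Λ ^ A * Λ ^ 4) / 2 * (η ^ 2 * D0 ^ 2) := by
        calc _ = Λ * (Λ ^ A * 1) / 2 * (η ^ 2 * D0 ^ 2) := by ring
          _ ≤ _ := by gcongr; exact one_le_pow₀ Λ1
      have g5 := (le_abs_self _).trans hD
      rw [g1]
      linarith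
    have d0 : 0 ≤ η ^ 2 * D0 ^ 2 := by positivity
    rw [h3, mul_add (η ^ 2)]
    generalize ∑ ω, m ω * ind (∃ i, e * n (Z ω i) < D (Z ω i)) * F ω ^ 2 = r at *
    generalize hB : ∑ z ∈ ZZ, Sz z ^ 2 / n z + M * ∑ c, Sc c ^ 2 + r = B at *
    have rB : r ≤ B := by linarith
    have h5 : 100 ≤ Λ * (Λ ^ A * Λ ^ 4) := hΛ.trans (le_mul_of_one_le_right (by linarith)
      (one_le_mul_of_one_le_of_one_le pA (one_le_pow₀ Λ1)))
    have h6 : Λ ^ (A + 6) = Λ * (Λ * (Λ ^ A * Λ ^ 4)) := by ring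
    rw [h6]
    generalize Λ * (Λ ^ A * Λ ^ 4) = Y at *
    generalize η ^ 2 * Er = x at *
    generalize η ^ 2 * D0 ^ 2 = y at *
    have B0 : 0 ≤ B := r1.trans rB
    have h7 : 100 * x ≤ Y * x := mul_le_mul_of_nonneg_right h5 Er0
    have h8 : 100 * B ≤ Y * B := mul_le_mul_of_nonneg_right h5 B0
    have h10 : 100 * y ≤ Y * y := mul_le_mul_of_nonneg_right h5 d0
    have h11 : 100 * (Y * (B + (x + y))) ≤ Λ * (Y * (B + (x + y))) :=
      mul_le_mul_of_nonneg_right hΛ (mul_nonneg (by linarith) (by linarith))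
    linarith
  · have hW0 : W = 0 := sum_eq_zero fun ω _ => by
      by_cases h : m ω = 0
      · simp [hm', h]
      · simp [(h0 ω h).1]
    have hE0 : Er = 0 := sum_eq_zero fun ω _ => by
      by_cases h : m ω = 0
      · simp [h]
      · simp [(h0 ω h).2]
    rw [hW0, hE0, mul_zero, mul_zero, mul_zero, add_zero, mul_zero] at hT
    exact hfin (pow_eq_zero_iff two_ne_zero |>.1 (le_antisymm (q2.trans hT) (sq_nonneg S)))

end Pool.Agent.MP_f3836a_nt.GV.F
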