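import Pool.Agent.MP_f3836a_nt.VE.FHu
import Pool.Agent.MP_f3836a_nt.VE.FPex
import Pool.Agent.MP_f3836a_nt.VE.FModX
import Pool.Agent.MP_f3836a_nt.VE.FModA
import Pool.Agent.MP_f3836a_nt.VE.FModB
import Pool.Agent.MP_f3836a_nt.VE.FLsq
import Pool.Agent.MP_f3836a_nt.VE.FQc
import Pool.Agent.MP_f3836a_nt.VE.FQx
import Pool.Agent.MP_f3836a_nt.VE.FFr
import Pool.Agent.MP_f3836a_nt.VE.FPru
import Pool.Agent.MP_f3836a_nt.VE.FVar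
import Pool.Agent.MP_f3836a_nt.VE.FBil1
import Pool.Agent.MP_f3836a_nt.VE.FDeg
import Pool.Agent.MP_f3836a_nt.VE.FCru
import Pool.Agent.MP_f3836a_nt.VE.FDva
import Pool.Agent.MP_f3836a_nt.VE.FDvb
import Pool.Agent.MP_f3836a_nt.VE.FDv2
import Pool.Agent.MP_f3836a_nt.VE.FDg1
import Pool.Agent.MP_f3836a_nt.VE.FDg0
import Pool.Agent.MP_f3836a_nt.VE.FBad
import Pool.Agent.MP_f3836a_nt.VE.FRem
import Pool.Agent.MP_f3836a_nt.VE.FMar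
import Pool.Agent.MP_f3836a_nt.GV.GFSg
import Pool.Agent.MP_f3836a_nt.GV.GFBil
import Pool.Agent.MP_f3836a_nt.GV.GFLow
import Pool.Agent.MP_f3836a_nt.GV.GFAl
import Pool.Agent.MP_f3836a_nt.GV.GFMar
import Pool.Agent.MP_f3836a_nt.GV.GFLnk
import Pool.Agent.MP_f3836a_nt.GV.GFAex
import Pool.Agent.MP_f3836a_nt.GV.GFLr
import Pool.Agent.MP_f3836a_nt.GV.GFMain

/-! Part F with a defect: assembly. -/

set_option autoImplicit false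

namespace Pool.Agent.MP_f3836a_nt.GV.F

open VE.F in
theorem fMain : GV.F.FMain := by
  obtain ⟨C, hPex⟩ := rPex rHu
  obtain ⟨_, hModA⟩ := rModA rModX C hPex
  obtain ⟨_, hQc⟩ := rQc
  obtain ⟨_, hFr⟩ := rFr rQx _ hQc
  obtain ⟨_, hSg⟩ := GV.F.rSg rLsq rPru _ hFr
  obtain ⟨_, hVar⟩ := rVar
  obtain ⟨_, hB0⟩ := GV.F.rBilC
  obtain ⟨_, hB1⟩ := rBil1
  obtain ⟨_, hDeg⟩ := rDeg
  obtain ⟨_, hCru⟩ := rCru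
  obtain ⟨_, hDva⟩ := rDva _ hVar
  obtain ⟨_, hDvb⟩ := rDvb _ _ _ hVar hDeg hCru
  obtain ⟨_, hDv2⟩ := rDv2 _ _ hVar hDeg
  obtain ⟨_, hDg1⟩ := rDg1 _ _ _ _ hDva hDvb hDeg hCru
  obtain ⟨_, hDg0⟩ := rDg0 _ hDeg
  obtain ⟨_, hBad⟩ := VE.F.rBad _ _ _ _ _ hDva hDvb hDv2 hDg1 hDg0
  obtain ⟨_, hLow⟩ := GV.F.rLow
  obtain ⟨_, hLnk⟩ := GV.F.rLnk VE.F.rMar GV.F.rMar rModB _ _ hModA hSg
  obtain ⟨_, hAex⟩ := GV.F.rAex _ _ hB0 hB1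
  obtain ⟨_, hLr⟩ := GV.F.rLr rRem _ _ hLow hBad
  obtain ⟨_, hGd⟩ := GV.F.rGd _ hBad
  exact GV.F.rMain VE.F.rMar GV.F.rAl _ _ _ _ hLnk hAex hLr hGd

end Pool.Agent.MP_f3836a_nt.GV.F
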