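import Pool.Agent.MP_f3836a_nt.GV.SpecE1

/-! Part E: archimedean rigidity for the concrete system. -/

set_option autoImplicit false

namespace Pool.Agent.MP_f3836a_nt.GV

open Polynomial Finset VE

theorem sAr : GV.SAr := by
  intro nr cel bas n r m _ G D h g hg s
  obtain ⟨-, -, -, -, C0, -, -, -, -, ce, -, -, mc⟩ := bas n r m G D h
  obtain ⟨hm, hd, h0, ⟨H0, hH, hb⟩, hl⟩ := nr n r m G D h g hg
  obtain ⟨-, c2⟩ := cel G.B.t0 D.W D.k0 (D.J1 + 1) (by have := h.sc.two; omega) h.sc.dvd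
    D.J1.succ_pos
  obtain ⟨S, S0, lip, var, zer⟩ := h.ar.1 G.B.t0 H0 s _ (fun _ => 0) hm hd h0 hH hb (by simp)
  have J0 : (0 : ℝ) < (D.J1 + 1 : ℕ) := by positivity
  have mem : ∀ a : Fin (D.J1 + 1), (G.B.t0 : ℝ) + (a : ℕ) / (D.J1 + 1 : ℕ) ∈
      Set.Icc (G.B.t0 : ℝ) (G.B.t0 + 1) := fun a =>
    ⟨le_add_of_nonneg_right (by positivity),
      add_le_add_right ((div_le_one J0).2 (Nat.cast_le.2 a.2.le)) _⟩
  refine ⟨S, fun a => BC.va (G.T.N (D.Γ.gA g)) (fun _ => 0) s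
    (G.B.t0 + (a : ℕ) / (D.J1 + 1 : ℕ)) + s * ((n * m : ℕ) * Real.log ((D.k0 : ℝ) ^ 2)), S0,
    fun a => ?_, fun a a' => ?_, fun x => ?_, fun e => ⟨(zer e).1, fun _ => rfl⟩⟩
  · obtain ⟨-, a1, a2⟩ := c2 a (h.hh.1 a.2)
    obtain ⟨b, e⟩ := hl a a.2
    have l := lip (D.t a) b _ (mem (D.cell a))
    rw [← ce a a.2] at a1 a2
    have u : |D.t a - (G.B.t0 + (D.cell a : ℕ) / (D.J1 + 1 : ℕ))| ≤ D.η := by
      have : 1 / ((D.J1 + 1 : ℕ) : ℝ) ≤ D.η := by
        push_cast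
        linarith [h.eb.2.1, h.eb.2.2.2]
      unfold Dat.t
      rw [abs_of_nonneg (by linarith)]
      rw [add_div] at a2
      linarith
    refine le_trans (le_of_eq ?_)
      (l.trans ((mul_le_mul_of_nonneg_left u S0).trans_eq (mul_comm _ _)))
    congr 1
    change 0 + s * Real.log (D.Γ.nm a g) - (_ + _) = _
    rw [e]
    simp only [BC.va, ug, zero_mul, sum_const_zero, Dat.sys]
    ring
  · rw [add_sub_add_right_eq_sub]
    refine (lip _ (mem a) _ (mem a')).trans (mul_le_of_le_one_right S0 (abs_le.2 ⟨?_, ?_⟩)) <;>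
      linarith [(mem a).1, (mem a).2, (mem a').1, (mem a').2]
  · have := var D.sys.mc (fun a => G.B.t0 + (a : ℕ) / (D.J1 + 1 : ℕ))
      (x - s * ((n * m : ℕ) * Real.log ((D.k0 : ℝ) ^ 2))) mc ?_
      fun a => ⟨le_rfl, by gcongr; linarith⟩
    · refine this.trans_eq ?_
      congr 1
      refine sum_congr rfl fun a _ => ?_
      ring
    · simp only [Dat.sys]
      rw [← sum_div, ← Nat.cast_sum, ← card_eq_sum_card_fiberwise fun _ _ => mem_univ _,
        div_self C0.ne']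

end Pool.Agent.MP_f3836a_nt.GV
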