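import Pool.Agent.MP_f3836a_nt.GV.SpecE1

/-! Basic facts about the concrete system. -/

set_option autoImplicit false

namespace Pool.Agent.MP_f3836a_nt.GV

open Polynomial Finset VE

namespace GSBas

open Classical in
theorem wz_eq {n r m : ℕ} [NeZero n] {G : Geo n r} (D : Dat G m) (h : D.HH) (z : Pt) :
    D.sys.wz h z = if z ∈ D.Z h then
      G.P.lw z.p / (Real.log D.Y * ∑ z' ∈ D.Z h, G.P.nu D.Y z') else 0 := by
  have e : ({z} : Multiset Pt) ∈ D.sys.St (some h) ↔ z ∈ D.Z h := by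
    change _ ∈ sing _ ↔ _
    simp [sing]
  unfold VE.F.Sys.wz
  simp only [e]
  congr 1
  change G.P.wG _ _ _ = _
  simp [Ps.wG, nT]

end GSBas

theorem rBas : OfBas := by
  intro cnt scs cel ptg n r m _ G D R
  classical
  obtain ⟨y2, -, l1, -, -, l2, -⟩ := scs _ _ _ R.sc
  obtain ⟨n1, n2, n3, n4, n5, n6, -⟩ := R.num
  have W0 : 0 < D.W := by have := R.sc.two; omega
  have t2 : D.θ ^ 2 ≤ 1 := pow_le_one₀ n3.le n4
  have y1 : (1 : ℝ) ≤ D.Y := by linarith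
  have L0 : 0 < Lc D.W D.k0 := (pow_pos (by linarith) _).trans_le l1
  have c0 : (0 : ℝ) < D.HH.card := pos_of_mul_pos_right (L0.trans_le R.hh.2) (by linarith)
  obtain ⟨pw, cj⟩ := ptg.1 n G.T G.t1 G.P D.Y R.geo.alg R.geo.win (by linarith)
  obtain ⟨c1, c2⟩ := cel G.B.t0 D.W D.k0 (D.J1 + 1) W0 R.sc.dvd D.J1.succ_pos
  have ce : ∀ a ∈ D.HH, (D.cell a : ℕ) = cellOf G.B.t0 D.k0 (D.J1 + 1) a := fun a ha =>
    min_eq_left (Nat.lt_succ_iff.1 (c2 a (R.hh.1 ha)).1)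
  refine ⟨?_, Real.log_pos (by linarith), Nat.pos_of_ne_zero fun e => ?_, L0, c0, ?_, ?_, pw,
    fun z hz => ?_, ce, fun h z hz => ?_, fun h z hz => ?_, fun c => ⟨by
      change 0 ≤ _ / _
      positivity, ?_⟩⟩
  · have := one_le_pow₀ (n := 3) (show (1 : ℝ) ≤ D.Ym by linarith)
    nlinarith [R.win]
  · have := R.cel.2.1
    rw [e, Nat.cast_zero, mul_zero] at this
    linarith
  · rw [← (cnt.1 G.B.t0 D.W D.k0 W0 R.sc.dvd).1]
    exact_mod_cast card_le_card R.hh.1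
  · have := R.ed.1
    refine le_trans ?_ (R.ed.2.trans t2)
    refine mul_le_mul_of_nonneg_right ?_ this
    have : (0 : ℝ) ≤ D.J1 := Nat.cast_nonneg _
    nlinarith
  · obtain ⟨a, b, -⟩ := l2 z.p (pw.pt z hz).1 (pw.pt z hz).2.2.1
    exact ⟨⟨(G.P.mem_pts.1 hz).1, a⟩, fun e => b (dvd_pow (Int.natCast_dvd_natCast.2 e) two_ne_zero),
      cj z hz⟩
  · have p0 : (z.p : ℝ) ≠ 0 := Nat.cast_ne_zero.2 (pw.pt z (R.p1.1 hz)).1.ne_zero
    have e : z ∈ D.Z h ↔ On h ((D.k0 : ℤ) ^ 2) z ∧ D.Gd h z.p := by simp [Dat.Z, hz]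
    rw [GSBas.wz_eq, if_congr e rfl rfl, ← div_div, Ps.nu, ← mul_div_assoc, mul_div_mul_left _ _ p0]
  · rw [GSBas.wz_eq] at hz
    exact by_contra fun e => hz (if_neg e)
  · have J0 : (0 : ℝ) < (D.J1 + 1 : ℕ) := Nat.cast_pos.2 D.J1.succ_pos
    have a1 : ((D.HH.filter fun a => D.cell a = c).card : ℝ) ≤ _ := le_trans (Nat.cast_le.2
      (card_le_card fun a ha => mem_filter.2 ⟨R.hh.1 (mem_filter.1 ha).1,
        (ce a (mem_filter.1 ha).1).symm.trans (congrArg _ (mem_filter.1 ha).2)⟩)) (c1 c)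
    have a2 : 1 ≤ Lc D.W D.k0 / (D.J1 + 1 : ℕ) := (one_le_div J0).2 (by
      push_cast
      exact R.cel.2.2.2.2.trans ((le_self_pow₀ y1 (by norm_num)).trans l1))
    have a3 := div_le_div_of_nonneg_right R.hh.2 J0.le
    change _ / _ ≤ _
    rw [div_le_iff₀ c0, div_mul_eq_mul_div, mul_assoc, mul_div_assoc]
    linarith

end Pool.Agent.MP_f3836a_nt.GV
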