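import Pool.Agent.MP_f3836a_nt.GV.SpecE1

/-! The identities on events for the concrete system. -/

set_option autoImplicit false

namespace Pool.Agent.MP_f3836a_nt.GV

open Polynomial Finset VE

theorem sId : GV.SId := by
  intro hA hB n r m _ G D hR
  obtain ⟨-, -, -, -, -, -, -, hPW, hV, -, hw, hZ, -⟩ := hB n r m G D hR
  obtain ⟨-, -, hMon, -, hnm, hz, -⟩ := hA n D.Γ hR.gok
  have hzr : ∀ (g : D.Γ.I) (h : D.HH) (M : Multiset Pt), D.sys.Ev g (some h) M → ∀ z ∈ M,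
      z ∈ G.P.pts D.Y (D.Y ^ 2) → D.Γ.on h z → D.Γ.zr g z := fun g h M hE z hM ok on =>
    ((hz h z (hV z ok).1 on).2.2.1 g).1 (hE.2.1 z hM)
  have hZ' : ∀ (h : D.HH) z, D.sys.wz h z ≠ 0 →
      z ∈ G.P.pts D.Y (D.Y ^ 2) ∧ On h ((D.k0 : ℤ) ^ 2) z := fun h z e => by
    have := hZ h z e
    simp only [Dat.Z, mem_filter] at this
    exact ⟨hR.p1.1 this.1, this.2.1⟩
  refine ⟨⟨?_, fun g _ h M hE => ?_, fun g _ h M _ _ => by simp [Dat.sys],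
    fun g _ M _ _ => by simp [Dat.sys], fun z ok => ⟨(hV z ok).2.2.2, ?_, fun _ => neg_zero.symm⟩⟩,
    fun h z h1 z' h2 e1 e2 => ?_, fun h z h1 h2 => ?_, fun g _ h M hE hM => ?_⟩
  · rintro g - (_ | h) M hE z hM ok on
    · exact on.elim
    · exact hzr g h M hE z hM ok on
  · have e : (nT M : ℤ) = D.Γ.nm h g := hE.2.2
    change _ = Real.log (D.Γ.nm h g)
    rw [← e, Int.cast_natCast]
  · obtain ⟨n1, n2, -⟩ := hR.num
    have h1 : 1 * D.Ym ^ 3 ≤ D.Λ * D.Ym ^ 3 :=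
      mul_le_mul_of_nonneg_right (by linarith) (pow_nonneg (by linarith) 3)
    have h2 := mul_le_mul_of_nonneg_left (hPW.pt z ok).2.2.1 (sq_nonneg D.θ)
    change D.Ym ^ 3 ≤ D.θ ^ 2 * z.p
    linarith [hR.win]
  · rw [hw h z h1, hw h z' h2]
    classical exact if_congr (by rw [On, On, e1, e2]) (by rw [Ps.nu, Ps.nu, e1]) rfl
  · obtain ⟨z1, z2⟩ := hZ' h z h2
    have z3 := Ps.mem_pts G.P |>.1 z1
    rw [← hR.ids.fz h D.k0 z.p z.t z3.1.1 (hR.adm h h.2) z2 (hV z z1).2.1]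
    simp only [ind, ite_mul, one_mul, zero_mul]
    rw [← sum_filter]
    refine sum_nbij' Pt.y (fun y => ⟨z.p, z.t, y⟩) (fun a ha => ?_) (fun y hy => ?_)
      (fun a ha => ?_) (fun _ _ => rfl) fun a ha => ?_
    · rw [mem_filter] at ha
      exact ha.2.1 ▸ ((Ps.mem_pts G.P).1 (hR.p1.1 ha.1)).1.2
    · exact mem_filter.2 ⟨hR.p1.2.1 z h1 _ ((Ps.mem_pts G.P).2 ⟨⟨z3.1.1, hy⟩, z3.2⟩) rfl rfl,
        rfl, rfl⟩
    · rw [mem_filter] at ha
      rw [← ha.2.1, ← ha.2.2]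
    · rw [mem_filter] at ha
      rw [← ha.2.1, ← ha.2.2]
      rfl
  · have := hR.ids.idh m (D.Γ.gA g) h D.k0 M (hMon g) (hR.adm h h.2) hE.1 (fun z hz => by
      obtain ⟨z1, z2⟩ := hZ' h z (hM z hz)
      exact ⟨(hV z z1).1.1, z2, hzr g h M hE z hz z1 z2, (hV z z1).2.1⟩) (hE.2.2.trans (hnm h g))
    simp only [Dat.ex, Dat.dp, Dat.d0, Dat.t, mul_sub, sum_sub_distrib]
    linarith

end Pool.Agent.MP_f3836a_nt.GV
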