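import Pool.Agent.MP_f3836a_nt.GV.SpecE1
import Pool.Agent.MP_f3836a_nt.VE.SLk

/-! Links in the concrete system. -/

set_option autoImplicit false

namespace Pool.Agent.MP_f3836a_nt.GV

open Finset VE

open VE.SLk Classical in
theorem sLk : GV.SLk := by
  intro hS hL hB n r m _ G D R
  obtain ⟨y2, k0, -, -, -, pw, -⟩ := hS _ _ _ R.sc
  obtain ⟨-, -, -, L0, h0, h2, -⟩ := hB n r m G D R
  obtain ⟨n1, -, -, -, -, n2, n3, -⟩ := R.num
  have h1 := R.hh.2
  have p0 : ∀ T, 0 ≤ PT T := fun T => by unfold PT; positivity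
  have sm : ∀ T, D.sys.Sm 8 T → (∀ z ∈ T, z.p.Prime ∧ ¬z.p ∣ D.W ∧ D.Y ≤ z.p) ∧
      (nT T : ℝ) ≤ D.Y ^ 16 := fun T h => by
    refine ⟨fun z hz => ?_, h.2.1.trans_eq (by show (D.Y ^ 2) ^ 8 = _; ring)⟩
    obtain ⟨-, -, -, -, -, -, -, P, -⟩ := hB n r m G D R
    obtain ⟨a, -, b, -⟩ := P.pt z (h.2.2 z hz)
    exact ⟨a, (pw _ a b).1, b⟩
  refine ⟨fun T hT h => ?_, fun c Ta j T ha hT h hz => ?_, fun T hT => ?_⟩
  · obtain ⟨a, b⟩ := sm T h
    have e := (hL G.B.t0 ((D.k0 : ℤ) ^ 2) _ _ _ T R.sc hT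
      (fun z k => ⟨(a z k).1, (a z k).2.1⟩) b).2
    have e' : ((lk D.HH ((D.k0 : ℤ) ^ 2) T).card : ℝ) ≤ _ :=
      Nat.cast_le.2 (card_le_card (filter_subset_filter _ R.hh.1))
    show 1 / (D.HH.card : ℝ) * ∑ x : D.HH, ind (∀ z ∈ T, On x ((D.k0 : ℤ) ^ 2) z) ≤ D.Λ * PT T
    rw [card_sub D.HH fun x => ∀ z ∈ T, On x ((D.k0 : ℤ) ^ 2) z, one_div, inv_mul_le_iff₀ h0]
    refine (e'.trans e).trans ?_
    nlinarith [mul_le_mul_of_nonneg_right h1 (p0 T), mul_nonneg (mul_nonneg h0.le (p0 T))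
      (sub_nonneg.2 n3)]
  · cases c with
    | none =>
      show _ * ∑ x : D.HH, _ * ((1 + (0 : ℝ)) ^ 3 - 1) ≤ D.θ ^ 2 * PT T
      simp only [add_zero, one_pow, sub_self, mul_zero, sum_const_zero]
      exact mul_nonneg (sq_nonneg _) (p0 T)
    | some c =>
      obtain ⟨a, b⟩ := sm T h
      obtain ⟨-, c2, c3, -⟩ := R.fam.cu c
      have e := R.eta c ((D.k0 : ℤ) ^ 2) T (D.HH.filter fun x =>
        (∀ z ∈ T, On x ((D.k0 : ℤ) ^ 2) z) ∧ x ≠ c)
        (fun l k d => R.sc.rad l k (Int.natCast_dvd_natCast.1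
          ((Nat.prime_iff_prime_int.1 k).dvd_of_dvd_pow d))) hT h.1 a b
        (fun x k => mem_filter.2 ⟨R.hh.1 (mem_filter.1 k).1, (mem_filter.1 k).2.1⟩)
        (fun x k => ?_) (D.LL c) (R.llc _ c.2)
        (fun l k => ⟨(R.fam.ll c l k).1, fun d => (R.fam.ll c l k).2 (d.mul_right _)⟩)
        fun z k d => (hz z k).resolve_left fun k' => ((R.fam.ad c Ta j ha).1 z k').2 d
      · rw [← sum_sub] at e
        have e' : ∑ x : D.HH, ind (D.sys.Lk T x ∧ some x ≠ some c) *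
            ((1 + D.sys.et (some c) (some x)) ^ 3 - 1) ≤ _ :=
          (sum_congr rfl fun x _ => ?_).trans_le e
        · show 1 / (D.HH.card : ℝ) * _ ≤ D.θ ^ 2 * PT T
          rw [one_div, inv_mul_le_iff₀ h0]
          refine e'.trans ?_
          rw [div_mul_eq_mul_div, div_le_iff₀ (by linarith)]
          nlinarith [mul_le_mul_of_nonneg_right h1 (mul_nonneg (p0 T) (sq_nonneg D.θ))]
        · congr 2
          · exact propext (and_congr Iff.rfl
              ((Option.some_injective _).ne_iff.trans Subtype.val_injective.ne_iff.symm))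
          · show (1 + (et1 D.W (D.LL c) D.Kx
              (c * (D.k0 : ℤ) ^ 2 - x * (D.k0 : ℤ) ^ 2) ^ n - 1)) ^ 3 = _
            rw [add_sub_cancel, ← pow_mul, mul_comm n]
      · obtain ⟨k1, -, k2⟩ := mem_filter.1 k
        obtain ⟨-, d2, -⟩ := R.fam.cu ⟨x, k1⟩
        refine ⟨by rw [← sub_mul]; exact mul_ne_zero (sub_ne_zero.2 k2.symm) (by positivity), ?_⟩
        change |(x : ℝ)| ≤ _ at d2
        change |((c : ℤ) : ℝ)| ≤ _ at c2
        change (((D.k0 : ℤ) ^ 2 : ℤ) : ℝ) ≤ _ at c3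
        have q : (0 : ℝ) ≤ D.Y ^ 21 := by positivity
        push_cast at c3 ⊢
        refine (abs_sub _ _).trans ?_
        rw [abs_mul, abs_mul, abs_sq]
        have := mul_le_mul c2 c3 (sq_nonneg _) q
        have := mul_le_mul d2 c3 (sq_nonneg _) q
        have : D.Y ^ 42 * 2 ≤ D.Y ^ 42 * D.Y ^ 3 :=
          mul_le_mul_of_nonneg_left (by nlinarith [sq_nonneg D.Y]) (by positivity)
        nlinarith
  · obtain rfl : T = 0 := mem_singleton.1 hT
    show PT 0 ≤ D.Λ * (1 / (D.HH.card : ℝ) * ∑ _x : D.HH, ind True)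
    simp only [PT, nT, ind, Multiset.map_zero, Multiset.prod_zero, Nat.cast_one, if_true,
      sum_const, card_univ, Fintype.card_coe, nsmul_eq_mul, mul_one, one_div,
      inv_mul_cancel₀ h0.ne', inv_one]
    linarith

end Pool.Agent.MP_f3836a_nt.GV
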