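import Pool.Agent.MP_f3836a_nt.GV.SpecE1
import Pool.Agent.MP_f3836a_nt.VE.SLn

/-! Lines, fibres, zeros and cell masses of the concrete system. -/

set_option autoImplicit false

namespace Pool.Agent.MP_f3836a_nt.GV

open Polynomial Finset VE VE.SLn
open scoped Classical

namespace GSLn

theorem win_sum {n r m : ℕ} [NeZero n] {G : Geo n r} {D : Dat G m} (R : D.Raw) {ν : Pt → ℝ}
    {K : ℝ} (pw : PW (G.P.pts D.Y (D.Y ^ 2)) ν D.Y K) (S : Finset Pt) (hS : S ⊆ D.P1) {C : ℝ}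
    (h0 : 0 ≤ C) (h : ∀ p, p.Prime → (∃ z ∈ S, z.p = p) →
      ((S.filter fun z => z.p = p).card : ℝ) ≤ C) : ∑ z ∈ S, 1 / (z.p : ℝ) ≤ 2 * C := by
  have h1 := R.mer (S.image Pt.p) fun p hp => by
    obtain ⟨z, hz, rfl⟩ := mem_image.1 hp
    obtain ⟨a, -, b, c, -⟩ := pw.pt z (R.p1.1 (hS hz))
    exact ⟨a, b, c⟩
  rw [sum_comp (fun p : ℕ => 1 / (p : ℝ)) Pt.p, mul_comm]
  refine le_trans ?_ (mul_le_mul_of_nonneg_left h1 h0)
  rw [mul_sum]
  refine sum_le_sum fun p hp => ?_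
  obtain ⟨z, hz, rfl⟩ := mem_image.1 hp
  rw [nsmul_eq_mul]
  exact mul_le_mul_of_nonneg_right (h _ (pw.pt z (R.p1.1 (hS hz))).1 ⟨z, hz, rfl⟩) (by positivity)

end GSLn

open GSLn in
theorem sLn : GV.SLn := by
  intro api ptg zer bas n r m _ G D R
  obtain ⟨-, -, hK, -, hH, -, -, pw, hv, -⟩ := bas n r m G D R
  obtain ⟨n1, -, -, -, -, -, -, n8, n9⟩ := R.num
  have k1 := pw.one
  refine ⟨fun c => ?_, fun p => ?_, fun g _ => ?_, ⟨fun c => ?_, ?_⟩, ?_⟩
  · obtain _ | h := c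
    · change ∑ z ∈ D.P1, ind False / (z.p : ℝ) ≤ D.Λ
      rw [sum_eq_zero fun z _ => by simp [ind]]
      linarith
    change ∑ z ∈ D.P1, ind (On h ((D.k0 : ℤ) ^ 2) z) / (z.p : ℝ) ≤ D.Λ
    rw [ind_div]
    refine (win_sum R pw _ (filter_subset _ _) (by linarith) fun p hp ⟨z, hz, e⟩ => ?_).trans n8
    refine le_trans (Nat.cast_le.2 (card_le_card fun w hw => ?_))
      ((ptg.2 _ _ _ _ pw p).2 h ((D.k0 : ℤ) ^ 2) fun hd => ?_)
    · simp only [mem_filter] at hw ⊢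
      exact ⟨R.p1.1 hw.1.1, hw.2, hw.1.2⟩
    · exact (hv z (R.p1.1 (mem_filter.1 hz).1)).2.1 (e ▸ Int.natCast_dvd_natCast.1
        ((Nat.prime_iff_prime_int.1 hp).dvd_of_dvd_pow hd))
  · change ∑ z ∈ D.P1, ind (z.p = p) / (z.p : ℝ) ≤ D.Λ
    rw [ind_div, sum_congr rfl (g := fun _ => 1 / (p : ℝ)) fun z hz => by rw [(mem_filter.1 hz).2],
      sum_const, nsmul_eq_mul]
    have h : ((D.P1.filter fun z => z.p = p).card : ℝ) ≤ G.P.K * p :=
      le_trans (Nat.cast_le.2 (card_le_card (filter_subset_filter _ R.p1.1)))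
        (ptg.2 _ _ _ _ pw p).1
    have h2 : (G.P.K * p : ℝ) * (1 / p) ≤ G.P.K := by
      rw [mul_assoc, mul_one_div]
      exact mul_le_of_le_one_right (by linarith) (div_self_le_one _)
    exact (mul_le_mul_of_nonneg_right h (by positivity)).trans (h2.trans (by linarith))
  · change ∑ z ∈ D.P1, ind (D.Γ.zr g z) / (z.p : ℝ) ≤ D.Λ
    rw [ind_div]
    refine (win_sum R pw _ (filter_subset (D.Γ.zr g) D.P1) (C := (n : ℝ) ^ 2 * m) (by positivity)
      fun p _ _ => ?_).trans (by linarith)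
    exact_mod_cast zer n G.T G.t1 G.P m p _ _ R.geo.tb R.geo.alg ((api n D.Γ R.gok).2.2.1 g)
      fun z hz => ⟨(hv z (R.p1.1 (mem_filter.1 (mem_filter.1 hz).1).1)).1.1, (mem_filter.1 hz).2,
        (mem_filter.1 (mem_filter.1 hz).1).2⟩
  · change (0 : ℝ) ≤ ((D.HH.filter fun a => D.cell a = c).card : ℝ) / D.HH.card
    positivity
  · change ∑ c, ((D.HH.filter fun a => D.cell a = c).card : ℝ) / D.HH.card = 1
    rw [← sum_div, div_eq_one_iff_eq hH.ne']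
    exact_mod_cast (card_eq_sum_card_fiberwise (f := D.cell) (s := D.HH) (t := univ)
      fun _ _ => mem_coe.2 (mem_univ _)).symm
  · refine le_trans (le_of_eq (sum_congr rfl fun i _ => ?_)) R.r0
    rw [← ind_sum]
    refine congrArg (fun x : ℝ => |x - 1 / (D.K : ℝ)|) (sum_congr rfl fun z _ => ?_)
    rw [show cz D.Y (D.K * D.s) D.K z = D.sys.d z from Nat.mul_div_mul_left _ _ hK, mul_div_assoc]
    rfl

end Pool.Agent.MP_f3836a_nt.GV
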