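import Pool.Agent.MP_f3836a_nt.GV.SpecE1
import Pool.Agent.MP_f3836a_nt.VE.SR1

/-! The one point regularity of the concrete system. -/

set_option autoImplicit false

namespace Pool.Agent.MP_f3836a_nt.GV

open Finset VE

open VE.SR1 in
theorem sR1 : GV.SR1 := by
  classical
  intro hLk hB n r m _ G D R z hz
  have hz : z ∈ D.P1 := hz
  obtain ⟨hY, hl, -, hL0, hH, -, he3, hPW, hV, hcel, hwz, -, -⟩ := hB n r m G D R
  have hzP := R.p1.1 hz
  obtain ⟨hpr, -, hlo, hhi, hn, -, -⟩ := hPW.pt z hzP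
  have hp0 : (0 : ℝ) < z.p := by linarith
  obtain ⟨-, -, hθ, hθ1, -, hΛ, -⟩ := R.num
  obtain ⟨he, he1⟩ := R.ed
  have hJ : (0 : ℝ) ≤ D.J1 := Nat.cast_nonneg _
  have he2 : D.ed ≤ 1 / 80 := by linarith
  have hce : ∀ a ∈ D.HH, ∀ c : Fin (D.J1 + 1),
      D.cell a = c ↔ cellOf G.B.t0 D.k0 (D.J1 + 1) a = c := fun a ha c => by
    rw [Fin.ext_iff, hcel a ha]
  set b : ℤ := (D.k0 : ℤ) ^ 2 with hb
  set A : ℕ → Finset ℤ := fun c => D.HH.filter fun a =>
    cellOf G.B.t0 D.k0 (D.J1 + 1) a = c ∧ On a b z ∧ D.Gd a z.p with hA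
  set B : ℕ → ℝ := fun c => (D.HH.filter fun a => cellOf G.B.t0 D.k0 (D.J1 + 1) a = c).card
    with hB'
  set ν := G.P.nu D.Y z with hnd
  have h13 : ∑ c ∈ range (D.J1 + 1), |z.p * ((A c).card : ℝ) - B c|
      ≤ ((D.J1 + 1 : ℕ) + 3) * D.ed * Lc D.W D.k0 := by
    refine le_of_eq_of_le (sum_congr rfl fun c _ => ?_) (R.del.r13 z hz)
    rw [hA, hB']
  have hlk : ∑ c ∈ range (D.J1 + 1), z.p * ((A c).card : ℝ) ≤ 2 * Lc D.W D.k0 := by
    have h1 := (hLk G.B.t0 b _ _ D.Y {z} R.sc (by simp [Nd])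
      (by simpa using ⟨hpr, (hV z hzP).1.2⟩) (by
        simp only [nT, Multiset.map_singleton, Multiset.prod_singleton]
        exact hhi.le.trans (pow_le_pow_right₀ (by linarith) (by norm_num)))).2
    have h2 : ∑ c ∈ range (D.J1 + 1), (A c).card ≤ (lk (HH0 G.B.t0 D.W D.k0) b {z}).card := by
      rw [← card_biUnion]
      · refine card_le_card fun a ha => ?_
        obtain ⟨c, -, hc⟩ := mem_biUnion.1 ha
        obtain ⟨h3, -, h4, -⟩ := mem_filter.1 hc
        simpa [lk] using ⟨R.hh.1 h3, h4⟩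
      · intro c _ c' _ hne
        refine disjoint_left.2 fun a h3 h4 => hne ?_
        rw [← (mem_filter.1 h3).2.1, ← (mem_filter.1 h4).2.1]
    have h3 : ((∑ c ∈ range (D.J1 + 1), (A c).card : ℕ) : ℝ) ≤ _ := (Nat.cast_le.2 h2).trans h1
    rw [← mul_sum, ← Nat.cast_sum]
    refine (mul_le_mul_of_nonneg_left h3 hp0.le).trans (le_of_eq ?_)
    simp only [PT, nT, Multiset.map_singleton, Multiset.prod_singleton]
    field_simp
  have key : ∀ c : Fin (D.J1 + 1),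
      |D.sys.σ * ∑ h : D.HH, ind (D.sys.cell h = c) * D.sys.wz h z - D.sys.n0 z * D.sys.mc c|
      ≤ 1 / D.HH.card * ν * (6 * D.ed * (z.p * (A c).card) + |z.p * ((A c).card : ℝ) - B c|) := by
    intro c
    have e1 : ∑ h : D.HH, ind (D.sys.cell h = c) * D.sys.wz h z
        = ∑ a ∈ A c, z.p * ν / ∑ z' ∈ D.Z a, G.P.nu D.Y z' := by
      rw [hA, sum_filter, ← sum_coe_sort D.HH]
      refine sum_congr rfl fun h _ => ?_
      have : D.sys.cell h = c ↔ _ := hce h h.2 c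
      rw [hwz h z hz, ind]
      simp only [this]
      by_cases h1 : cellOf G.B.t0 D.k0 (D.J1 + 1) h = c <;>
        by_cases h2 : On h b z ∧ D.Gd h z.p <;> simp [h1, h2, ← hnd]
    have e2 : D.sys.mc c = B c * (1 / D.HH.card) := by
      rw [mul_one_div, hB']
      show ((D.HH.filter fun a => D.cell a = c).card : ℝ) / D.HH.card = _
      rw [filter_congr fun a ha => hce a ha c]
    rw [e1, e2]
    refine cel _ _ (one_div_pos.2 hH).le hn.le fun a ha => ?_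
    have := quo (x := ν * z.p) one_pos he he2 (by positivity)
      ((R.zm a (mem_filter.1 ha).1).1.trans_eq (mul_one _).symm)
    rwa [mul_one, mul_comm ν, show z.p * ν / _ - z.p * ν = z.p * ν / _ - ν * z.p by
      rw [mul_comm ν], show 6 * D.ed * (z.p * ν) = 6 * D.ed * (ν * z.p) by rw [mul_comm ν]] at this
  refine (sum_le_sum fun c _ => key c).trans ?_
  rw [Fin.sum_univ_eq_sum_range (fun c => 1 / (D.HH.card : ℝ) * ν *
    (6 * D.ed * (z.p * (A c).card) + |z.p * ((A c).card : ℝ) - B c|)), ← mul_sum, sum_add_distrib,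
    ← mul_sum]
  show _ ≤ D.θ ^ 2 * ν
  have h1 : 1 / (D.HH.card : ℝ) * Lc D.W D.k0 ≤ D.Λ1 := by
    rw [one_div_mul_eq_div, div_le_iff₀ hH]; exact R.hh.2
  calc _ ≤ 1 / (D.HH.card : ℝ) * ν * (6 * D.ed * (2 * Lc D.W D.k0) +
        ((D.J1 + 1 : ℕ) + 3) * D.ed * Lc D.W D.k0) := by gcongr
    _ = 1 / (D.HH.card : ℝ) * Lc D.W D.k0 * (D.J1 + 16) * D.ed * ν := by push_cast; ring
    _ ≤ D.Λ1 * (2 * (D.J1 + 1) + 80) * D.ed * ν := by
        have : (D.J1 : ℝ) + 16 ≤ 2 * (D.J1 + 1) + 80 := by linarith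
        gcongr
    _ ≤ _ := by gcongr

end Pool.Agent.MP_f3836a_nt.GV
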