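import Pool.Agent.MP_f3836a_nt.GV.SpecE1
import Pool.Agent.MP_f3836a_nt.VE.SR2

/-! Regularity of pairs of points in the concrete system. -/

set_option autoImplicit false

namespace Pool.Agent.MP_f3836a_nt.GV

open Finset VE

theorem sR2 : GV.SR2 := by
  intro hL hB n r m _ G D hD z hz
  classical
  obtain ⟨hY, -, -, hL0, hN, -, h80, hW, hV, -, hwz, -⟩ := hB n r m G D hD
  obtain ⟨-, -, hθ, hθ1, -, hΛ1, -⟩ := hD.num
  obtain ⟨he, he'⟩ := hD.ed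
  have hP : ∀ z ∈ D.P1, z.p.Prime ∧ ¬z.p ∣ D.W ∧ (z.p : ℝ) ≤ D.Y ^ 2 ∧ 0 < G.P.nu D.Y z := by
    intro z hz
    have h0 := hD.p1.1 hz
    obtain ⟨h1, -, -, h3, h4, -⟩ := hW.pt z h0
    exact ⟨h1, (hV z h0).1.2, h3.le, h4⟩
  obtain ⟨a1, a2, a3, a4⟩ := hP z hz
  have key : ∀ z' ∈ D.P1.filter fun z' => z'.p ≠ z.p,
      1 / (z'.p : ℝ) * |D.sys.σ * ∑ h, D.sys.wz h z * D.sys.wz h z' - D.sys.n0 z * D.sys.n0 z'| ≤
      1 / D.HH.card * G.P.nu D.Y z * (36 * D.ed * Lc D.W D.k0 * (G.P.nu D.Y z' / z'.p) +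
        G.P.nu D.Y z' / z'.p *
        |z.p * z'.p * ((D.HH.filter fun a => (On a ((D.k0 : ℤ) ^ 2) z ∧ D.Gd a z.p) ∧
          On a ((D.k0 : ℤ) ^ 2) z' ∧ D.Gd a z'.p).card : ℝ) - D.HH.card|) := by
    intro z' hz'
    obtain ⟨hz', hne⟩ := mem_filter.1 hz'
    obtain ⟨b1, b2, b3, b4⟩ := hP z' hz'
    set S := D.HH.filter fun a => (On a ((D.k0 : ℤ) ^ 2) z ∧ D.Gd a z.p) ∧
      On a ((D.k0 : ℤ) ^ 2) z' ∧ D.Gd a z'.p with hSd
    have e1 : ∑ h, D.sys.wz h z * D.sys.wz h z' = ∑ a ∈ S, (z.p * z'.p : ℝ) *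
        (G.P.nu D.Y z * G.P.nu D.Y z') * (1 / ∑ y ∈ D.Z a, G.P.nu D.Y y) ^ 2 := by
      rw [hSd, sum_filter, ← sum_coe_sort D.HH]
      refine sum_congr rfl fun h _ => ?_
      rw [hwz h z hz, hwz h z' hz', ite_zero_mul_ite_zero]
      split_ifs
      · ring
      · rfl
    have p1 : (0 : ℝ) < z.p := by exact_mod_cast a1.pos
    have p2 : (0 : ℝ) < z'.p := by exact_mod_cast b1.pos
    have e2 : (z.p * z'.p : ℝ) * S.card ≤ 2 * Lc D.W D.k0 := by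
      have h1 := (hL G.B.t0 ((D.k0 : ℤ) ^ 2) _ _ _ (z' ::ₘ {z}) hD.sc (by simpa [Nd] using hne)
        (by simp [a1, a2, b1, b2]) (by
          simp only [nT, Multiset.map_cons, Multiset.map_singleton, Multiset.prod_cons,
            Multiset.prod_singleton, Nat.cast_mul]
          calc _ ≤ D.Y ^ 2 * D.Y ^ 2 := mul_le_mul b3 a3 p1.le (by positivity)
            _ = D.Y ^ 4 := by ring
            _ ≤ _ := pow_le_pow_right₀ (by linarith) (by norm_num))).2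
      have h2 : S ⊆ lk (HH0 G.B.t0 D.W D.k0) ((D.k0 : ℤ) ^ 2) (z' ::ₘ {z}) := by
        intro a ha
        obtain ⟨c1, c2, c3⟩ := mem_filter.1 ha
        unfold lk
        exact mem_filter.2 ⟨hD.hh.1 c1, by simp [c2.1, c3.1]⟩
      have h3 : (S.card : ℝ) ≤ 2 * (Lc D.W D.k0 * (1 / (z'.p * z.p))) := by
        refine le_trans (by exact_mod_cast card_le_card h2) (h1.trans (le_of_eq ?_))
        simp [PT, nT]
      refine (mul_le_mul_of_nonneg_left h3 (by positivity)).trans (le_of_eq ?_)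
      field_simp
    have e3 := VE.SR2.est S (fun a => (1 / ∑ y ∈ D.Z a, G.P.nu D.Y y) ^ 2) hN (by positivity)
      (mul_pos a4 b4).le (by positivity : 0 ≤ 18 * D.ed)
      (fun a ha => VE.SR2.kap one_pos he h80
        (by simpa using (hD.zm a (mem_filter.1 ha).1).1)) e2
    rw [e1]
    refine (mul_le_mul_of_nonneg_left e3 (by positivity)).trans (le_of_eq ?_)
    ring
  have e4 : ∑ z' ∈ D.sys.P1, ind (z'.p ≠ z.p) / z'.p *
      |D.sys.σ * ∑ h, D.sys.wz h z * D.sys.wz h z' - D.sys.n0 z * D.sys.n0 z'| =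
      ∑ z' ∈ D.P1.filter fun z' => z'.p ≠ z.p, 1 / (z'.p : ℝ) *
      |D.sys.σ * ∑ h, D.sys.wz h z * D.sys.wz h z' - D.sys.n0 z * D.sys.n0 z'| := by
    rw [sum_filter]
    refine sum_congr rfl fun z' _ => ?_
    by_cases h : z'.p ≠ z.p
    · rw [if_pos h, ind, if_pos h]
    · rw [if_neg h, ind, if_neg h, zero_div, zero_mul]
  have e5 := hD.del.r2 z hz
  have e6 : ∑ z' ∈ D.P1.filter fun z' => z'.p ≠ z.p, G.P.nu D.Y z' / z'.p ≤ 2 :=
    (sum_le_sum_of_subset_of_nonneg (filter_subset _ _) fun z' hz' _ =>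
      div_nonneg (hP z' hz').2.2.2.le (Nat.cast_nonneg _)).trans hD.p1.2.2
  rw [e4]
  refine (sum_le_sum key).trans ?_
  rw [← mul_sum, sum_add_distrib, ← mul_sum]
  push_cast at e5
  have e7 : 1 / (D.HH.card : ℝ) * Lc D.W D.k0 ≤ D.Λ1 := by
    rw [one_div_mul_eq_div, div_le_iff₀ hN]
    exact hD.hh.2
  calc _ ≤ 1 / D.HH.card * G.P.nu D.Y z * (36 * D.ed * Lc D.W D.k0 * 2 +
        (2 * (D.J1 + 1) + 8) * D.ed * Lc D.W D.k0) := by gcongr
    _ = 1 / D.HH.card * Lc D.W D.k0 * (2 * (D.J1 + 1) + 80) * D.ed * G.P.nu D.Y z := by ring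
    _ ≤ D.Λ1 * (2 * (D.J1 + 1) + 80) * D.ed * G.P.nu D.Y z := by gcongr
    _ ≤ D.θ ^ 2 * G.P.nu D.Y z := by gcongr

end Pool.Agent.MP_f3836a_nt.GV
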