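import Pool.Agent.MP_f3836a_nt.GV.SpecE1

set_option autoImplicit false

namespace Pool.Agent.MP_f3836a_nt.GV

open Polynomial Finset VE

namespace GSRig

theorem sq_le {r : ℕ} (c : Fin r → ℝ) (Λ C : ℝ) (hC : 0 ≤ C) :
    (∑ w, |c w| + Λ * √C) ^ 2 ≤ 2 * r * ∑ w, c w ^ 2 + 2 * Λ ^ 2 * C := by
  have h1 : (∑ w, |c w|) ^ 2 ≤ r * ∑ w, c w ^ 2 := by
    simpa using sq_sum_le_card_mul_sum_sq (s := univ) (f := fun w => |c w|)
  have h2 : (Λ * √C) ^ 2 = Λ ^ 2 * C := by rw [mul_pow, Real.sq_sqrt hC]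
  nlinarith [sq_nonneg (∑ w, |c w| - Λ * √C)]

theorem num {Λ η P d e C r : ℝ} (hΛ : 100 ≤ Λ) (hη : 0 < η) (hP : 1 ≤ P) (hC : 0 ≤ C)
    (hr : r ≤ Λ) (h1 : η * (P * Λ ^ 2) ≤ 1) (h2 : d ≤ P * η ^ 2 * e)
    (h3 : e ≤ 2 * r * C + 2 * Λ ^ 2 * C) : Λ * d ≤ C / 2 := by
  have a1 : e ≤ 4 * Λ ^ 2 * C := by
    nlinarith [mul_nonneg hC (show 0 ≤ Λ ^ 2 - r by nlinarith)]
  have a2 : η * Λ ^ 2 ≤ 1 := by
    nlinarith [mul_nonneg (sub_nonneg.2 hP) (show 0 ≤ η * Λ ^ 2 by positivity)]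
  have a3 : η * Λ ≤ 1 / 100 := by
    nlinarith [mul_nonneg (sub_nonneg.2 hΛ) (show 0 ≤ η * Λ by positivity)]
  have a4 : d ≤ η * (P * Λ ^ 2) * (4 * η * C) :=
    h2.trans ((mul_le_mul_of_nonneg_left a1 (by positivity)).trans_eq (by ring))
  have a5 : d ≤ 4 * η * C :=
    a4.trans (by simpa using mul_le_mul_of_nonneg_right h1 (show 0 ≤ 4 * η * C by positivity))
  have a6 := mul_le_mul_of_nonneg_left a5 (show 0 ≤ Λ by positivity)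
  nlinarith [mul_le_mul_of_nonneg_right a3 hC]

end GSRig

open GSRig in
theorem rRig : OfRig := by
  rintro ⟨A, hA⟩ hB hD
  refine ⟨A + 2, fun n r m _ G D R h1 h2 => ?_⟩
  obtain ⟨hS, ⟨x1, x2, x3⟩, x4, x5⟩ := hD n r m G D R
  obtain ⟨-, -, -, -, hc, -⟩ := hB n r m G D R
  obtain ⟨hΛ, -, hθ, -, hη, -, -, -, hn⟩ := R.num
  have hM : 1 ≤ D.M := hS.num.2.2.1
  have hP : 1 ≤ D.Λ ^ A := one_le_pow₀ (by linarith)
  have hle : D.Λ ^ A ≤ D.Λ ^ (A + 2) := pow_le_pow_right₀ (by linarith) (by omega)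
  have hX : D.ex.Ok D.sys :=
    ⟨fun h => ⟨Or.inr ⟨rfl, rfl⟩, rfl⟩, x1, x2, x3,
      (sum_coe_sort D.HH D.dp).trans R.prj.2.2.1, x4, x5⟩
  obtain ⟨k1, k2⟩ := hA D.sys D.ex hS hX ((mul_le_mul_of_nonneg_left hle hη.le).trans h1)
    ((mul_le_mul_of_nonneg_left hle (show 0 ≤ D.θ * D.M ^ 3 by positivity)).trans h2)
  have hC : 0 ≤ D.C2 := div_nonneg (sum_nonneg fun _ _ => sum_nonneg fun _ _ => sq_nonneg _) hc.le
  have hr : (r : ℝ) ≤ D.Λ := by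
    have e1 : (5 : ℝ) ≤ m := by exact_mod_cast le_of_add_le_right (R.gok.five 0)
    have e2 : (n : ℝ) = 2 * r := by exact_mod_cast R.geo.two
    have e3 : (1 : ℝ) ≤ n := by exact_mod_cast NeZero.one_le
    nlinarith [mul_nonneg (sq_nonneg (n : ℝ)) (sub_nonneg.2 e1)]
  refine ⟨?_, fun h0 => k2 fun h => ?_⟩
  · refine num (P := D.Λ ^ A) (e := D.sys.σ * ∑ h, D.ex.ce h ^ 2) hΛ hη hP hC hr
      (by rw [← pow_add]; exact h1) ?_ ?_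
    · refine le_of_eq_of_le ?_ k1
      rw [← sum_coe_sort D.HH fun a => D.dp a ^ 2, div_eq_inv_mul, ← one_div]
      rfl
    · have s1 : ∑ h, D.ex.ce h ^ 2
          ≤ ∑ a ∈ D.HH, (2 * r * ∑ w, D.c a D.k0 w ^ 2 + 2 * D.Λ ^ 2 * D.C2) := by
        rw [← sum_coe_sort D.HH]
        exact sum_le_sum fun h _ => sq_le _ _ _ hC
      rw [sum_add_distrib, ← mul_sum, sum_const, nsmul_eq_mul] at s1
      have s2 : ∑ a ∈ D.HH, ∑ w, D.c a D.k0 w ^ 2 = D.HH.card * D.C2 :=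
        (mul_div_cancel₀ _ hc.ne').symm
      rw [s2] at s1
      change 1 / (D.HH.card : ℝ) * _ ≤ _
      rw [one_div, inv_mul_le_iff₀ hc]
      linarith
  · have s1 : ∑ a ∈ D.HH, ∑ w, D.c a D.k0 w ^ 2 = 0 := (div_eq_zero_iff.1 h0).resolve_right hc.ne'
    have s2 := (sum_eq_zero_iff_of_nonneg fun _ _ => sum_nonneg fun _ _ => sq_nonneg _).1 s1 h h.2
    have s3 := (sum_eq_zero_iff_of_nonneg fun _ _ => sq_nonneg _).1 s2
    change ∑ w, |D.c h D.k0 w| + D.Λ * √D.C2 = 0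
    rw [h0, Real.sqrt_zero, mul_zero, add_zero]
    exact sum_eq_zero fun w hw => abs_eq_zero.2 (pow_eq_zero_iff two_ne_zero |>.1 (s3 w hw))

end Pool.Agent.MP_f3836a_nt.GV
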