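import Pool.Agent.MP_f3836a_nt.GV.SpecE1
import Pool.Agent.MP_f3836a_nt.VE.SSt
import Pool.Agent.MP_f3836a_nt.VE.SOk

/-! The steps of the concrete system, and the hypotheses of part F. -/

set_option autoImplicit false

namespace Pool.Agent.MP_f3836a_nt.GV

open Polynomial Finset VE VE.SSt

namespace GSSt

theorem wG_one {n : ℕ} (P : Ps n) (Y : ℝ) (S : Finset Pt) {z : Pt} (h : (z.p : ℝ) ≠ 0) :
    P.wG Y S {z} = z.p * P.nu Y z / ∑ z ∈ S, P.nu Y z := by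
  rw [Ps.wG, nT_one, ← div_div, Ps.nu, ← mul_div_assoc, mul_div_mul_left _ _ h]

theorem sum_sing {n : ℕ} (P : Ps n) (Y : ℝ) (S : Finset Pt) (h : ∑ z ∈ S, P.nu Y z ≠ 0) :
    ∑ x ∈ sing S, P.wG Y S x * PT x = 1 := by
  rw [sing, sum_image fun a _ b _ h => Multiset.singleton_inj.1 h]
  refine Eq.trans ?_ (div_self h)
  rw [sum_div]
  refine sum_congr rfl fun z _ => ?_
  rw [Ps.wG, PT, nT_one, Ps.nu]
  ring

theorem ut_eq {n r m : ℕ} [NeZero n] {G : Geo n r} (D : Dat G m) (hR : D.Raw) {a : ℤ} {z : Pt}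
    (h : ({z} : Multiset Pt) ∈ sing (D.Z a)) : ut D.Y (D.K * D.s) z.p = D.sys.u z := by
  classical
  have h1 : z ∈ D.P1 := by
    have := VE.SOk.mem_sing h
    unfold Dat.Z at this
    exact (mem_filter.1 this).1
  unfold ut
  rw [if_pos (G.P.mem_pts.1 (hR.p1.1 h1)).2.1]
  rfl

end GSSt

open GSSt in
theorem sSt : GV.SSt := by
  intro hB n r m _ G D R
  obtain ⟨hY, l0, hK, -, -, -, e1, hW, hc, -⟩ := hB n r m G D R
  obtain ⟨n1, -, -, -, -, -, -, n8, -⟩ := R.num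
  obtain ⟨p1, p2, -⟩ := R.p1
  have k1 := hW.one
  have hU : 0 < D.K * D.s := Nat.mul_pos hK (by have := R.cel.1; omega)
  have zm : ∀ a ∈ D.HH, 1 / 2 ≤ ∑ z ∈ D.Z a, G.P.nu D.Y z := fun a ha => by
    linarith [(abs_le.1 (R.zm a ha).1).1]
  have hZ : ∀ a z, z ∈ D.Z a ↔ z ∈ D.P1 ∧ On a ((D.k0 : ℤ) ^ 2) z ∧ D.Gd a z.p := fun a z => by
    simp only [Dat.Z, mem_filter]
  have cj : ∀ z ∈ D.P1, z.cj ∈ D.P1 := fun z hz => p2 z hz _ (hc z (p1 hz)).2.2.1 rfl rfl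
  refine ⟨fun z hz => ?_, fun c x hx => ?_, fun h x hx => ?_, fun c => ?_, fun T h z _ z' hz' => ?_⟩
  · have hz' : z ∈ D.P1 := hz
    obtain ⟨-, -, a1, a2, b1, b2, b3⟩ := hW.pt z (p1 hz')
    obtain ⟨d1, d2⟩ := pos_bd (by linarith) hU a1 a2
    exact ⟨p1 hz', a2.le, cj z hz', b2.trans (mul_le_mul_of_nonneg_right
      (show G.P.K ≤ D.Λ by linarith) b1.le), b3.trans (div_le_div_of_nonneg_right
      (show G.P.K ≤ D.Λ by linarith) (Nat.cast_nonneg _)), d1, d2⟩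
  · rcases c with _ | h
    · obtain rfl : x = 0 := mem_singleton.1 hx
      refine ⟨by simp [Nd], ⟨by simp, ?_, by simp⟩, zero_le_one, mem_singleton.2 rfl, rfl⟩
      show ((nT 0 : ℕ) : ℝ) ≤ (D.Y ^ 2) ^ 1
      simp only [nT, Multiset.map_zero, Multiset.prod_zero, Nat.cast_one]
      nlinarith
    · have w0 : 0 ≤ D.sys.w (some h) x := (R.fam.st h x hx).1
      obtain ⟨z, hz, rfl⟩ := mem_sing.1 (show x ∈ sing (D.Z h) from hx)
      obtain ⟨a1, a2, a3⟩ := (hZ _ _).1 hz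
      refine ⟨by simp [Nd], ⟨le_rfl, ?_, fun z' hz' => ?_⟩, w0,
        mem_sing.2 ⟨z.cj, (hZ _ _).2 ⟨cj z a1, a2, a3⟩, rfl⟩, ?_⟩
      · rw [nT_one]
        exact (hW.pt z (p1 a1)).2.2.2.1.le.trans_eq (pow_one _).symm
      · rw [Multiset.mem_singleton.1 hz']
        exact p1 a1
      · show G.P.wG D.Y (D.Z h) {z.cj} = G.P.wG D.Y (D.Z h) {z}
        simp only [Ps.wG, nT_one]
        rfl
  · obtain ⟨z, hz, rfl⟩ := mem_sing.1 (show x ∈ sing (D.Z h) from hx)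
    have a1 := ((hZ _ _).1 hz).1
    obtain ⟨-, -, b1, -, -, -, b3⟩ := hW.pt z (p1 a1)
    have p0 : (0 : ℝ) < z.p := by linarith
    have a3 := zm h h.2
    refine ⟨?_, z, a1, rfl⟩
    show G.P.wG D.Y (D.Z h) {z} ≤ D.Λ
    rw [wG_one _ _ _ p0.ne', div_le_iff₀ (by linarith)]
    rw [le_div_iff₀ p0] at b3
    nlinarith
  · rcases c with _ | h
    · show ∑ x ∈ ({0} : Finset (Multiset Pt)), 1 * PT x = 1
      simp [PT, nT]
    · exact GSSt.sum_sing _ _ _ (by linarith [zm h h.2] : 0 < ∑ z ∈ D.Z h, G.P.nu D.Y z).ne'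
  · obtain rfl : T = 0 := mem_singleton.1 h
    exact absurd hz' (Multiset.notMem_zero _)

open GSSt in
theorem sOk : GV.SOk := by
  intro hSc hB n r m _ G D hR hEq hLk hLn hR1 hR2 hAr hId hSt
  obtain ⟨-, -, hL, -⟩ := hSc _ _ _ hR.sc
  obtain ⟨hY, l0, hK, -, hc, -⟩ := hB n r m G D hR
  obtain ⟨n1, n2, n3, n4, n5, n6, n7, -⟩ := hR.num
  obtain ⟨c1, c2, c3, c4, -⟩ := hR.cel
  have w4 := hR.win
  refine
    { num := ⟨n1, n2, ?_, ?_, n3, n4, n5, ?_⟩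
      nat := ⟨hR.nat.1, hR.nat.2, ?_, le_rfl, ?_⟩
      cel := ⟨c1, c2, c3, ?_⟩
      gs := ?_
      sig := ?_
      atom := ?_
      rho := fun c => ?_
      okp := hId.2.2.2.2
      p1 := hSt.1
      st := hSt.2.1
      st1 := hSt.2.2.1
      nrm := hSt.2.2.2.1
      win := hSt.2.2.2.2
      evn := fun _ c M h => ?_
      evz := hId.1
      evl := hId.2.1
      idh := hId.2.2.1
      id0 := hId.2.2.2.1
      ad0 := hEq.2.2.1
      ad1 := fun c x hx => ?_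
      ad2 := fun c x hx x' hx' hn => ?_
      ad3 := fun h T hT _ => ?_
      fmp := fun c T T' j e => ?_
      fm1 := fun h z hz => ?_
      fm2 := fun h z z' hz hz' _ => ?_
      mdl := hR.mdl
      eta := hEq.2.2.2
      eq := hEq.1
      tb := hEq.2.1
      lk := hLk.1
      row := hLk.2.1
      line := hLn.1
      fib := hLn.2.1
      zer := hLn.2.2.1
      mc0 := hLn.2.2.2.1
      r0 := hLn.2.2.2.2
      r1 := hR1
      r2 := hR2
      r5 := hLk.2.2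
      arh := hAr }
  · show 1 ≤ D.M
    linarith [(Nat.cast_nonneg D.J1 : (0 : ℝ) ≤ _)]
  · show 1 ≤ D.Y ^ 2
    nlinarith
  · exact div_pos l0 (Nat.cast_pos.2 (Nat.mul_pos hK (by omega)))
  · show ((0 : ℕ) : ℝ) + 2 ≤ D.Λ
    push_cast
    linarith
  · show ((1 : ℕ) : ℝ) ≤ D.Λ
    push_cast
    linarith
  · show ((Fintype.card (Fin (D.J1 + 1)) : ℕ) : ℝ) ≤ D.M
    rw [Fintype.card_fin]
    push_cast
    exact c4
  · refine Fintype.piFinset_nonempty.2 fun j => nonempty_Ico.2 ?_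
    have : 0 < D.H1 := hR.gok.pos.2.2.2
    omega
  · show 1 / (D.HH.card : ℝ) * (Fintype.card D.HH : ℕ) = 1
    rw [Fintype.card_coe]
    field_simp
  · show 1 / (D.HH.card : ℝ) * D.Ym ^ 3 * (D.Y ^ 2) ^ 8 ≤ D.θ ^ 2
    have hm : 0 ≤ D.Ym ^ 3 := pow_nonneg (by linarith) 3
    have ht : 0 ≤ D.θ ^ 2 := sq_nonneg _
    have h1 : D.Λ1 * D.Ym ^ 3 ≤ D.θ ^ 2 * D.Y ^ 3 :=
      ((mul_le_mul_of_nonneg_right (by linarith) hm).trans w4).trans
        (mul_le_mul_of_nonneg_left (le_self_pow₀ (by linarith) three_ne_zero) ht)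
    have h2 : D.Y ^ 19 ≤ D.Λ1 * D.HH.card := hL.trans hR.hh.2
    rw [mul_assoc, one_div, inv_mul_le_iff₀ hc, mul_comm (D.HH.card : ℝ)]
    refine le_of_mul_le_mul_left ?_ (by linarith : 0 < D.Λ1)
    calc D.Λ1 * (D.Ym ^ 3 * (D.Y ^ 2) ^ 8) = D.Λ1 * D.Ym ^ 3 * (D.Y ^ 2) ^ 8 := by ring
      _ ≤ D.θ ^ 2 * D.Y ^ 3 * (D.Y ^ 2) ^ 8 := mul_le_mul_of_nonneg_right h1 (by positivity)
      _ = D.θ ^ 2 * D.Y ^ 19 := by ring
      _ ≤ D.θ ^ 2 * (D.Λ1 * D.HH.card) := mul_le_mul_of_nonneg_left h2 ht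
      _ = D.Λ1 * (D.θ ^ 2 * D.HH.card) := by ring
  · rcases c with _ | h
    · exact zero_lt_one
    · exact hR.fam.rho h
  · rcases c with _ | h'
    · obtain rfl : M = 0 := h
      simp [Nd]
    · exact h.1
  · rcases c with _ | h
    · exact mem_singleton.1 hx
    · exact Or.inl (Or.inl ⟨hx, rfl⟩)
  · rcases c with _ | h
    · obtain rfl : x = 0 := mem_singleton.1 hx
      obtain rfl : x' = 0 := mem_singleton.1 hx'
      exact add_zero (0 : Multiset Pt)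
    · exact Or.inl (Or.inr ⟨x, hx, x', hx', rfl, hn, rfl⟩)
  · obtain rfl : T = 0 := mem_singleton.1 hT
    exact ⟨trivial, Or.inr ⟨rfl, rfl⟩, fun x hx => Or.inl (Or.inl ⟨(add_zero x).symm ▸ hx, rfl⟩)⟩
  · rcases c with _ | h
    · rfl
    · show Fu (D.K * D.s) j (D.v - tot D.Y (D.K * D.s) T)
        = Fu (D.K * D.s) j (D.v - tot D.Y (D.K * D.s) T')
      rw [VE.SOk.tot_congr _ _ e]
  · show Fu (D.K * D.s) (D.k + 1) (D.v - tot D.Y (D.K * D.s) {z})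
      = Fu (D.K * D.s) (D.k + 1) (D.v - D.sys.u z)
    rw [← ut_eq D hR hz]
    simp [tot]
  · show Fu (D.K * D.s) D.k (D.v - tot D.Y (D.K * D.s) (z' ::ₘ {z}))
      = Fu (D.K * D.s) D.k (D.v - D.sys.u z - D.sys.u z')
    rw [← ut_eq D hR hz, ← ut_eq D hR hz']
    congr 1
    simp only [tot, Multiset.map_cons, Multiset.map_singleton, Multiset.sum_cons,
      Multiset.sum_singleton]
    push_cast
    ring

end Pool.Agent.MP_f3836a_nt.GV
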