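import Pool.Agent.MP_f3836a_nt.GV.SpecE1

/-! Part E: relative archimedean rigidity for the concrete system. -/

set_option autoImplicit false

namespace Pool.Agent.MP_f3836a_nt.GV

open Polynomial Finset VE

namespace GSXAr

/-- a point of each cell which is below the mean -/
theorem pick {J : ℕ} (HH : Finset ℤ) (cell : ℤ → Fin J) (t : ℤ → ℝ) (lo hi : Fin J → ℝ)
    (F : ℝ → ℝ) (h0 : ∀ c, lo c ≤ hi c)
    (h1 : ∀ a ∈ HH, lo (cell a) ≤ t a ∧ t a ≤ hi (cell a)) :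
    ∃ tc : Fin J → ℝ, (∀ c, lo c ≤ tc c ∧ tc c ≤ hi c) ∧
      ∑ c, ((HH.filter fun a => cell a = c).card : ℝ) * F (tc c) ≤ ∑ a ∈ HH, F (t a) := by
  have key : ∀ c, ∃ u, (lo c ≤ u ∧ u ≤ hi c) ∧ ((HH.filter fun a => cell a = c).card : ℝ) * F u
      ≤ ∑ a ∈ HH.filter fun a => cell a = c, F (t a) := by
    intro c
    rcases (HH.filter fun a => cell a = c).eq_empty_or_nonempty with e | e
    · exact ⟨lo c, ⟨le_rfl, h0 c⟩, by simp [e]⟩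
    · obtain ⟨a, ha, hm⟩ := exists_min_image _ (fun a => F (t a)) e
      obtain ⟨a1, a2⟩ := mem_filter.1 ha
      refine ⟨t a, a2 ▸ h1 a a1, ?_⟩
      rw [← nsmul_eq_mul]
      exact card_nsmul_le_sum _ _ _ hm
  choose tc h2 h3 using key
  exact ⟨tc, h2, (sum_le_sum fun c _ => h3 c).trans_eq (sum_fiberwise _ _ _)⟩

/-- Cauchy and Schwarz -/
theorem cs {r : ℕ} (c l : Fin r → ℝ) (L : ℝ) (hl : ∀ w, |l w| ≤ 1 / 4) (hr : (r : ℝ) ≤ L) :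
    (∑ w, c w * l w) ^ 2 ≤ L * ∑ w, c w ^ 2 := by
  refine (sum_mul_sq_le_sq_mul_sq _ _ _).trans ?_
  rw [mul_comm]
  refine mul_le_mul_of_nonneg_right ?_ (sum_nonneg fun _ _ => sq_nonneg _)
  refine le_trans (sum_le_sum (g := fun _ => (1 : ℝ)) fun w _ => ?_) (by simpa using hr)
  have := hl w
  rw [← sq_abs]
  nlinarith [abs_nonneg (l w)]

/-- a weighted sum with total weight zero -/
theorem zs {r : ℕ} (c l : Fin r → ℝ) (u e : ℝ) (hc : ∑ w, c w = 0) (hl : ∀ w, |l w - u| ≤ e) :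
    |∑ w, c w * l w| ≤ e * ∑ w, |c w| := by
  have : ∑ w, c w * l w = ∑ w, c w * (l w - u) := by
    simp only [mul_sub, sum_sub_distrib, ← sum_mul, hc, zero_mul, sub_zero]
  rw [this, mul_sum]
  refine (abs_sum_le_sum_abs _ _).trans (sum_le_sum fun w _ => ?_)
  rw [abs_mul, mul_comm]
  exact mul_le_mul_of_nonneg_right (hl w) (abs_nonneg _)

theorem fin (A B C S S0 K c e j η : ℝ) (hA : |A| ≤ 2 * e * (S + S0)) (hB : |B| ≤ S * j)
    (hC : |C| ≤ e * c) (h0 : 0 ≤ S) (h1 : 0 ≤ S0) (h2 : S0 ≤ K) (h3 : 0 ≤ c) (h4 : 0 ≤ e)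
    (h5 : 0 ≤ j) (h6 : 2 * e + j ≤ η) : |A + B - C| ≤ η * (S + (c + K)) := by
  have a1 := abs_sub (A + B) C
  have a2 := abs_add_le A B
  have a3 : (2 * e + j) * (S + (c + K)) ≤ η * (S + (c + K)) :=
    mul_le_mul_of_nonneg_right h6 (by linarith)
  nlinarith [mul_nonneg h4 h3, mul_nonneg h5 h3, mul_nonneg h5 (h1.trans h2),
    mul_nonneg h4 (sub_nonneg.2 h2)]

end GSXAr

open GSXAr in
theorem sXAr : SXAr := by
  intro api nrm n0 cel bas n r m _ G D h x hx s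
  obtain ⟨-, -, -, -, C0, -, -, -, -, ce, -, -, mc⟩ := bas n r m G D h
  obtain ⟨hm, hd, nm0, -, lg⟩ := nrm n r m G D h x hx
  obtain ⟨⟨H0, H1, H2⟩, -, lv⟩ := n0 n r G.T G.B G.t1 m D.vs h.geo.two h.geo.br.far h.sp
  have mon := (api n D.Γ h.gok).2.2.1 x
  obtain ⟨-, c2⟩ := cel G.B.t0 D.W D.k0 (D.J1 + 1) h.gok.pos.1 h.sc.dvd D.J1.succ_pos
  have W0 : (0 : ℝ) < D.W' := Nat.cast_pos.2 h.gok.pos.2.1
  have Hp : (0 : ℝ) < D.H := Nat.cast_pos.2 h.eb.1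
  obtain ⟨⟨P0, p1, p2⟩, or1, or2, or3⟩ := h.prj
  obtain ⟨nr1, nr2⟩ := h.nr x hx
  have ev : ∀ t : ℝ, (N0 G.T G.t1 D.vs).eval t
      = (t - G.t1) ^ n * (NR G.T (vP D.vs)).eval t := fun t => by simp [N0]
  obtain ⟨S, S0, f, P1, s0, s1, q1, lip, var, zer⟩ := h.ar.2 G.B.t0 H0
    (((D.W' : ℝ) * D.H) ^ n) D.εb s _ (D.cθ (D.Γ.gA x)) (N0 G.T G.t1 D.vs) P0 D.f0 hm hd nm0
    (h.ids.sum m _ mon) H1 (by positivity) h.eb.2.1 (by linarith [h.eb.2.2.1]) p1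
    fun t ht => ⟨(H2 t ht).1, by linarith [(H2 t ht).2], nr1 t ht, ev t ▸ p2 t ht⟩
  have J0 : (0 : ℝ) < (D.J1 + 1 : ℕ) := by positivity
  have mem : ∀ a : Fin (D.J1 + 1), (G.B.t0 : ℝ) + (a : ℕ) / (D.J1 + 1 : ℕ) ∈
      Set.Icc (G.B.t0 : ℝ) (G.B.t0 + 1) := fun a =>
    ⟨le_add_of_nonneg_right (by positivity),
      add_le_add_right ((div_le_one J0).2 (Nat.cast_le.2 a.2.le)) _⟩
  have inc : ∀ a ∈ D.HH, (G.B.t0 : ℝ) + (D.cell a : ℕ) / (D.J1 + 1 : ℕ) ≤ D.t a ∧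
      D.t a ≤ G.B.t0 + ((D.cell a : ℕ) + 1) / (D.J1 + 1 : ℕ) := fun a ha => by
    rw [ce a ha]
    exact (c2 a (h.hh.1 ha)).2
  have lft : ∀ a : Fin (D.J1 + 1), (G.B.t0 : ℝ) + (a : ℕ) / (D.J1 + 1 : ℕ)
      ≤ G.B.t0 + ((a : ℕ) + 1) / (D.J1 + 1 : ℕ) := fun a => by gcongr; linarith
  have one : ∑ c, D.sys.mc c = 1 := by
    simp only [Dat.sys]
    rw [← sum_div, ← Nat.cast_sum, ← card_eq_sum_card_fiberwise fun _ _ => mem_univ _,
      div_self C0.ne']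
  have L0 : 0 ≤ D.Λ := by linarith [h.num.1]
  have rL : (r : ℝ) ≤ D.Λ := by
    refine le_trans ?_ h.num.2.2.2.2.2.2.2.2
    have h1 : r ≤ 2 * n ^ 2 * m := by
      have := h.geo.two
      have h2 : n ≤ n * (n * m) := Nat.le_mul_of_pos_right _ nm0
      nlinarith
    exact_mod_cast h1
  have hS0 : S0 ≤ D.Λ * √D.C2 := by
    obtain ⟨tc, t1, t2⟩ := pick D.HH D.cell D.t _ _ (fun u => D.f0 u ^ 2) lft inc
    have v := (var D.sys.mc tc 0 mc one t1).2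
    have v2 : ∑ a, D.sys.mc a * (D.f0 (tc a) - 0) ^ 2 ≤ D.Λ * D.C2 := by
      simp only [Dat.sys, sub_zero, div_mul_eq_mul_div, ← sum_div, Dat.C2, ← mul_div_assoc]
      refine div_le_div_of_nonneg_right (t2.trans (or3.trans ?_)) C0.le
      rw [mul_sum]
      exact sum_le_sum fun a ha => cs _ _ _ (fun w => lv w _ (h.adm a ha).mem) rL
    have c0 : 0 ≤ D.C2 := div_nonneg (sum_nonneg fun _ _ => sum_nonneg fun _ _ => sq_nonneg _) C0.le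
    refine le_of_sq_le_sq ?_ (by positivity)
    rw [mul_pow, Real.sq_sqrt c0, sq D.Λ, mul_assoc]
    exact v.trans (mul_le_mul_of_nonneg_left v2 L0)
  have jj : 2 * D.εb + 1 / ((D.J1 + 1 : ℕ) : ℝ) ≤ D.η := by
    push_cast
    exact h.eb.2.2.2
  have lp : ∀ a ∈ D.HH, |f (D.t a) - f (G.B.t0 + (D.cell a : ℕ) / (D.J1 + 1 : ℕ))|
      ≤ S * (1 / ((D.J1 + 1 : ℕ) : ℝ)) := fun a ha => by
    refine ((lip _ (lg a ha).1).2.2 _ (mem _)).trans (mul_le_mul_of_nonneg_left ?_ s0)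
    obtain ⟨a1, a2⟩ := inc a ha
    rw [add_div] at a2
    rw [abs_of_nonneg (by linarith)]
    linarith
  refine ⟨S, fun a => f (G.B.t0 + (a : ℕ) / (D.J1 + 1 : ℕ))
    + s * ((n * m : ℕ) * Real.log ((D.k0 : ℝ) ^ 2)), s0,
    fun a => ?_, fun a a' => ?_, fun y => ?_, ?_, fun e1 e2 => zer e1 ?_⟩
  · have a1 := h.adm a a.2
    refine le_trans (le_of_eq ?_) (fin _ _ _ S S0 _ _ _ _ _ (lip _ (lg a a.2).1).2.1 (lp a a.2)
      (zs _ _ _ _ (h.geo.sum _ (h.ids.c0 _ _ a1)) fun w => nr2 w _ a1.mem) s0 s1 hS0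
      (sum_nonneg fun _ _ => abs_nonneg _) h.eb.2.1 (by positivity) jj)
    refine congrArg abs ?_
    simp only [Dat.sys, Dat.ex, (lg a a.2).2, BC.va, Dat.t]
    ring
  · rw [add_sub_add_right_eq_sub]
    refine ((lip _ (mem a)).2.2 _ (mem a')).trans
      (mul_le_of_le_one_right s0 (abs_le.2 ⟨?_, ?_⟩)) <;>
      linarith [(mem a).1, (mem a).2, (mem a').1, (mem a').2]
  · refine (var D.sys.mc _ (y - s * ((n * m : ℕ) * Real.log ((D.k0 : ℝ) ^ 2))) mc one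
      fun a => ⟨le_rfl, lft a⟩).1.trans_eq (congrArg (D.Λ * ·) (sum_congr rfl fun a _ => ?_))
    ring
  · have o1 := or1 f ⟨P1, q1, fun t ht => ev t ▸ (lip t ht).1⟩
    have σ0 : (0 : ℝ) ≤ 1 / (D.HH.card : ℝ) := by positivity
    change |1 / (D.HH.card : ℝ) * ∑ a : D.HH, (f (G.B.t0 + (D.cell a : ℕ) / (D.J1 + 1 : ℕ))
      + s * ((n * m : ℕ) * Real.log ((D.k0 : ℝ) ^ 2))) * D.dp a|
      ≤ D.η * S * (1 / (D.HH.card : ℝ) * ∑ a : D.HH, |D.dp a|)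
    rw [sum_coe_sort D.HH fun a => (f (G.B.t0 + (D.cell a : ℕ) / (D.J1 + 1 : ℕ))
      + s * ((n * m : ℕ) * Real.log ((D.k0 : ℝ) ^ 2))) * D.dp a,
      sum_coe_sort D.HH fun a => |D.dp a|, abs_mul, abs_of_nonneg σ0, mul_left_comm (D.η * S)]
    refine mul_le_mul_of_nonneg_left ?_ σ0
    have e : ∑ a ∈ D.HH, (f (G.B.t0 + (D.cell a : ℕ) / (D.J1 + 1 : ℕ))
        + s * ((n * m : ℕ) * Real.log ((D.k0 : ℝ) ^ 2))) * D.dp a
        = -∑ a ∈ D.HH, (f (D.t a) - f (G.B.t0 + (D.cell a : ℕ) / (D.J1 + 1 : ℕ))) * D.dp a := by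
      simp only [add_mul, sub_mul, sum_add_distrib, sum_sub_distrib, ← mul_sum, o1, or2]
      ring
    rw [e, abs_neg, mul_sum]
    refine (abs_sum_le_sum_abs _ _).trans (sum_le_sum fun a ha => ?_)
    rw [abs_mul]
    refine mul_le_mul_of_nonneg_right ((lp a ha).trans ?_) (abs_nonneg _)
    rw [mul_comm]
    exact mul_le_mul_of_nonneg_right (by linarith [h.eb.2.1]) s0
  · obtain ⟨a, ha⟩ := card_pos.1 (Nat.cast_pos.1 C0)
    have e3 : ∑ w, |D.c a D.k0 w| + D.Λ * √D.C2 = 0 := e2 ⟨a, ha⟩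
    have e4 : 0 ≤ ∑ w, |D.c a D.k0 w| := sum_nonneg fun _ _ => abs_nonneg _
    linarith

end Pool.Agent.MP_f3836a_nt.GV
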