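import Pool.Agent.MP_f3836a_nt.GV.SpecE1

/-! Part E: the large sieve bound for the defect. -/

set_option autoImplicit false

namespace Pool.Agent.MP_f3836a_nt.GV

open Finset VE

namespace GSXLs

theorem sq3 (A B C : ℝ) : (A + B - C) ^ 2 ≤ 3 * (A ^ 2 + B ^ 2 + C ^ 2) := by
  nlinarith [sq_nonneg (A - B), sq_nonneg (A + C), sq_nonneg (B + C)]

theorem xsq (s d e : ℝ) (hs : |s - 1| ≤ 3 * e) (h80 : 80 * e ≤ 1) :
    (d / s) ^ 2 ≤ 4 * d ^ 2 ∧ (d / s - d) ^ 2 ≤ 36 * e ^ 2 * d ^ 2 := by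
  obtain ⟨h1, h2⟩ := abs_le.1 hs
  have hs0 : 1 / 2 ≤ s := by linarith
  have hp : 0 < s := by linarith
  have hx : (d / s) ^ 2 ≤ 4 * d ^ 2 := by
    rw [div_pow, div_le_iff₀ (by positivity)]
    have : 1 ≤ 4 * s ^ 2 := by nlinarith
    nlinarith [sq_nonneg d]
  refine ⟨hx, ?_⟩
  have e1 : d / s - d = d / s * (1 - s) := by field_simp
  have e2 : (1 - s) ^ 2 ≤ 9 * e ^ 2 := by nlinarith
  rw [e1, mul_pow]
  calc (d / s) ^ 2 * (1 - s) ^ 2 ≤ 4 * d ^ 2 * (9 * e ^ 2) :=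
        mul_le_mul hx e2 (sq_nonneg _) (by positivity)
    _ = _ := by ring

open Classical in
theorem core (S P1 : Finset Pt) (H0 HH : Finset ℤ) (b : ℤ) (ν : Pt → ℝ) (Gd : ℤ → ℕ → Prop)
    (s d : ℤ → ℝ) (γ L e : ℝ) (hHH : HH ⊆ H0) (hP : P1 ⊆ S)
    (hν : ∀ z ∈ S, 0 < ν z ∧ (0 : ℝ) < z.p) (hγ : 0 ≤ γ) (hL : 0 ≤ L)
    (hls : ∀ x : ℤ → ℝ, ∑ z ∈ S, ν z / z.p * (∑ a ∈ H0, x a * Xz b z a) ^ 2
      ≤ γ * ∑ a ∈ H0, x a ^ 2)
    (hs : ∀ a ∈ HH, |s a - 1| ≤ 3 * e) (he : 0 ≤ e) (h80 : 80 * e ≤ 1)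
    (hd : ∑ a ∈ HH, d a = 0) (h2 : ∑ z ∈ P1, ν z / z.p ≤ 2)
    (hon : ∀ a ∈ HH, ∑ z ∈ S.filter (On a b), ν z ≤ 2)
    (hshg : ∀ z ∈ P1, z.p * ((HH.filter fun a => On a b z ∧ ¬Gd a z.p).card : ℝ) ≤ e * L) :
    ∑ z ∈ P1, ν z / z.p * (∑ a ∈ HH, (if On a b z ∧ Gd a z.p then z.p / s a else 0) * d a) ^ 2
      ≤ (12 * γ + 216 * e ^ 2 * HH.card + 24 * e * L) * ∑ a ∈ HH, d a ^ 2 := by
  set Q := ∑ a ∈ HH, d a ^ 2 with hQ
  have hQ0 : 0 ≤ Q := sum_nonneg fun a _ => sq_nonneg _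
  set x : ℤ → ℝ := fun a => d a / s a with hx
  have hx2 : ∑ a ∈ HH, x a ^ 2 ≤ 4 * Q := by
    rw [hQ, mul_sum]
    exact sum_le_sum fun a ha => (xsq _ _ _ (hs a ha) h80).1
  have hw : ∀ z ∈ P1, 0 ≤ ν z / z.p := fun z hz =>
    (div_pos (hν z (hP hz)).1 (hν z (hP hz)).2).le
  -- the three parts
  set A : Pt → ℝ := fun z => ∑ a ∈ HH, x a * Xz b z a with hA
  set B : ℝ := ∑ a ∈ HH, x a with hB
  set C : Pt → ℝ := fun z => z.p * ∑ a ∈ HH.filter fun a => On a b z ∧ ¬Gd a z.p, x a with hC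
  have hdec : ∀ z : Pt, ∑ a ∈ HH, (if On a b z ∧ Gd a z.p then z.p / s a else 0) * d a
      = A z + B - C z := by
    intro z
    simp only [hA, hB, hC]
    rw [sum_filter, mul_sum, ← sum_add_distrib, ← sum_sub_distrib]
    refine sum_congr rfl fun a _ => ?_
    simp only [hx, Xz, ind]
    by_cases h1 : On a b z <;> by_cases h2 : Gd a z.p <;> simp [h1, h2] <;> ring
  have hAs : ∑ z ∈ P1, ν z / z.p * A z ^ 2 ≤ γ * (4 * Q) := by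
    have h := hls fun a => if a ∈ HH then x a else 0
    have e1 : ∀ z, ∑ a ∈ H0, (if a ∈ HH then x a else 0) * Xz b z a = A z := by
      intro z
      simp only [hA, ite_mul, zero_mul]
      rw [← sum_filter, filter_mem_eq_inter, inter_eq_right.2 hHH]
    have e2 : ∑ a ∈ H0, (if a ∈ HH then x a else 0) ^ 2 = ∑ a ∈ HH, x a ^ 2 := by
      simp only [ite_pow, ne_eq, OfNat.ofNat_ne_zero, not_false_eq_true, zero_pow]
      rw [← sum_filter, filter_mem_eq_inter, inter_eq_right.2 hHH]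
    simp only [e1, e2] at h
    calc ∑ z ∈ P1, ν z / z.p * A z ^ 2 ≤ ∑ z ∈ S, ν z / z.p * A z ^ 2 :=
          sum_le_sum_of_subset_of_nonneg hP fun z hz _ =>
            mul_nonneg (div_pos (hν z hz).1 (hν z hz).2).le (sq_nonneg _)
      _ ≤ _ := h
      _ ≤ _ := mul_le_mul_of_nonneg_left hx2 hγ
  have hBs : B ^ 2 ≤ HH.card * (36 * e ^ 2 * Q) := by
    have e1 : B = ∑ a ∈ HH, (x a - d a) := by rw [sum_sub_distrib, hd, sub_zero]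
    rw [e1]
    refine sq_sum_le_card_mul_sum_sq.trans (mul_le_mul_of_nonneg_left ?_ (Nat.cast_nonneg _))
    rw [hQ, mul_sum]
    exact sum_le_sum fun a ha => (xsq _ _ _ (hs a ha) h80).2
  have hCz : ∀ z ∈ P1, ν z / z.p * C z ^ 2
      ≤ e * L * ∑ a ∈ HH, if On a b z then x a ^ 2 * ν z else 0 := by
    intro z hz
    obtain ⟨hn, hp⟩ := hν z (hP hz)
    set F := HH.filter fun a => On a b z ∧ ¬Gd a z.p with hF
    have h1 : (∑ a ∈ F, x a) ^ 2 ≤ F.card * ∑ a ∈ F, x a ^ 2 := sq_sum_le_card_mul_sum_sq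
    have h3 : ν z * ∑ a ∈ F, x a ^ 2 ≤ ∑ a ∈ HH, if On a b z then x a ^ 2 * ν z else 0 := by
      rw [hF, sum_filter, mul_sum]
      refine sum_le_sum fun a _ => ?_
      have := mul_nonneg (sq_nonneg (x a)) hn.le
      by_cases h1 : On a b z <;> by_cases h2 : Gd a z.p <;> simp [h1, h2, mul_comm, this]
      exact mul_nonneg hn.le (sq_nonneg _)
    have h4 : 0 ≤ ν z * ∑ a ∈ F, x a ^ 2 :=
      mul_nonneg hn.le (sum_nonneg fun a _ => sq_nonneg _)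
    calc ν z / z.p * C z ^ 2 = ν z * z.p * (∑ a ∈ F, x a) ^ 2 := by
          simp only [hC]
          rw [← hF]
          field_simp
      _ ≤ ν z * z.p * (F.card * ∑ a ∈ F, x a ^ 2) :=
          mul_le_mul_of_nonneg_left h1 (mul_pos hn hp).le
      _ = z.p * F.card * (ν z * ∑ a ∈ F, x a ^ 2) := by ring
      _ ≤ e * L * (ν z * ∑ a ∈ F, x a ^ 2) := mul_le_mul_of_nonneg_right (hshg z hz) h4
      _ ≤ _ := mul_le_mul_of_nonneg_left h3 (mul_nonneg he hL)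
  have hCs : ∑ z ∈ P1, ν z / z.p * C z ^ 2 ≤ e * L * (2 * (4 * Q)) := by
    refine (sum_le_sum hCz).trans ?_
    rw [← mul_sum]
    refine mul_le_mul_of_nonneg_left ?_ (mul_nonneg he hL)
    rw [sum_comm]
    calc ∑ a ∈ HH, ∑ z ∈ P1, (if On a b z then x a ^ 2 * ν z else 0)
        ≤ ∑ a ∈ HH, 2 * x a ^ 2 := by
          refine sum_le_sum fun a ha => ?_
          rw [← sum_filter, ← mul_sum, mul_comm 2]
          refine mul_le_mul_of_nonneg_left (le_trans ?_ (hon a ha)) (sq_nonneg _)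
          exact sum_le_sum_of_subset_of_nonneg (filter_subset_filter _ hP)
            fun z hz _ => (hν z (mem_filter.1 hz).1).1.le
      _ ≤ _ := by rw [← mul_sum]; linarith
  have hBs2 : ∑ z ∈ P1, ν z / z.p * B ^ 2 ≤ 2 * (HH.card * (36 * e ^ 2 * Q)) := by
    rw [← sum_mul]
    exact mul_le_mul h2 hBs (sq_nonneg _) (by norm_num)
  calc ∑ z ∈ P1, ν z / z.p
        * (∑ a ∈ HH, (if On a b z ∧ Gd a z.p then z.p / s a else 0) * d a) ^ 2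
      ≤ ∑ z ∈ P1, 3 * (ν z / z.p * A z ^ 2 + ν z / z.p * B ^ 2 + ν z / z.p * C z ^ 2) := by
        refine sum_le_sum fun z hz => ?_
        rw [hdec z]
        have := mul_le_mul_of_nonneg_left (sq3 (A z) B (C z)) (hw z hz)
        linarith
    _ = 3 * (∑ z ∈ P1, ν z / z.p * A z ^ 2 + ∑ z ∈ P1, ν z / z.p * B ^ 2
        + ∑ z ∈ P1, ν z / z.p * C z ^ 2) := by
        rw [← mul_sum, sum_add_distrib, sum_add_distrib]
    _ ≤ _ := by nlinarith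

theorem nums (K L N Y Λ Λ1 Ym θ e J : ℝ) (hΛ : 100 ≤ Λ) (hYm : Λ ≤ Ym) (h1 : 1 ≤ Λ1)
    (h2 : 2 * Λ1 ≤ Λ) (hK1 : 1 ≤ K) (hK : 2 * K ≤ Λ) (hY : 10 ≤ Y) (hN : 0 < N)
    (hL : L ≤ Λ1 * N) (hw : Λ * Ym ^ 3 ≤ θ ^ 2 * Y) (he : 0 ≤ e) (h80 : 80 * e ≤ 1) (hJ : 0 ≤ J)
    (hed : Λ1 * (2 * (J + 1) + 80) * e ≤ θ ^ 2) :
    12 * (20 * K ^ 2 * L / Y) + 216 * e ^ 2 * N + 24 * e * L ≤ θ ^ 2 * N := by
  have a1 : 82 * (Λ1 * e) ≤ θ ^ 2 := by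
    have : 0 ≤ Λ1 * e * J := by positivity
    nlinarith
  have a2 : e ≤ Λ1 * e := by nlinarith
  have a3 : 24 * e * L ≤ 24 * (Λ1 * e) * N := by nlinarith
  have a4 : 216 * e ^ 2 * N ≤ 3 * (Λ1 * e) * N := by
    refine mul_le_mul_of_nonneg_right ?_ hN.le
    nlinarith
  have a5 : 100 * Λ ^ 3 ≤ θ ^ 2 * Y := by
    have : Λ ^ 3 ≤ Ym ^ 3 := pow_le_pow_left₀ (by linarith) hYm 3
    have h0 : 0 ≤ Λ ^ 3 := by positivity
    nlinarith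
  have a6 : K ^ 2 * Λ1 * 8 ≤ Λ ^ 3 := by
    have b1 : (2 * K) ^ 2 ≤ Λ ^ 2 := pow_le_pow_left₀ (by linarith) hK 2
    have b2 : (2 * K) ^ 2 * (2 * Λ1) ≤ Λ ^ 2 * Λ :=
      mul_le_mul b1 h2 (by linarith) (by positivity)
    nlinarith
  have a7 : 20 * K ^ 2 * L / Y ≤ θ ^ 2 * N / 40 := by
    rw [div_le_iff₀ (by linarith)]
    have b1 : K ^ 2 * L ≤ K ^ 2 * (Λ1 * N) := mul_le_mul_of_nonneg_left hL (by positivity)
    have b2 : 800 * (K ^ 2 * Λ1) * N ≤ θ ^ 2 * Y * N :=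
      mul_le_mul_of_nonneg_right (by linarith) hN.le
    nlinarith
  have a8 : 82 * (Λ1 * e) * N ≤ θ ^ 2 * N := mul_le_mul_of_nonneg_right a1 hN.le
  have a9 : 0 ≤ θ ^ 2 * N := by positivity
  nlinarith

end GSXLs

open Classical in
theorem sXLs : SXLs := by
  intro hls hbas n r m _ G D hR
  obtain ⟨hY, -, -, hL, hN, -, h80, hpw, -, -, hwz, -, -⟩ := hbas n r m G D hR
  have hν : ∀ z ∈ G.P.pts D.Y (D.Y ^ 2), 0 < G.P.nu D.Y z ∧ (0 : ℝ) < z.p := fun z hz =>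
    ⟨(hpw.pt z hz).2.2.2.2.1, by have := (hpw.pt z hz).2.2.1; linarith⟩
  have hK := hpw.one
  have hc := GSXLs.core (G.P.pts D.Y (D.Y ^ 2)) D.P1 (HH0 G.B.t0 D.W D.k0) D.HH ((D.k0 : ℤ) ^ 2)
    (G.P.nu D.Y) D.Gd (fun a => ∑ z ∈ D.Z a, G.P.nu D.Y z) D.dp
    (20 * G.P.K ^ 2 * Lc D.W D.k0 / D.Y) (Lc D.W D.k0) D.ed hR.hh.1 hR.p1.1 hν
    (by positivity) hL.le (hls _ _ _ _ _ _ _ hpw hR.sc hY).2.2 (fun a ha => (hR.zm a ha).1)
    hR.ed.1 h80 hR.prj.2.2.1 hR.p1.2.2 (fun a ha => (hR.zm a ha).2) hR.shg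
  obtain ⟨n1, n2, -, -, -, n6, n7, n8, -⟩ := hR.num
  have hn := GSXLs.nums G.P.K (Lc D.W D.k0) D.HH.card D.Y D.Λ D.Λ1 D.Ym D.θ D.ed D.J1 n1 n2 n6 n7
    hK n8 hY hN hR.hh.2 hR.win hR.ed.1 h80 (Nat.cast_nonneg _) hR.ed.2
  have hQ : 0 ≤ ∑ a ∈ D.HH, D.dp a ^ 2 := sum_nonneg fun a _ => sq_nonneg _
  have hc2 := hc.trans (mul_le_mul_of_nonneg_right hn hQ)
  have e2 : ∑ h : D.HH, D.ex.dp h ^ 2 = ∑ a ∈ D.HH, D.dp a ^ 2 :=
    sum_coe_sort D.HH fun a => D.dp a ^ 2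
  have e1 : ∀ z ∈ D.P1, (D.sys.σ * ∑ h, D.sys.wz h z * D.ex.dp h) ^ 2 / (D.sys.n0 z * z.p)
      = (1 / (D.HH.card : ℝ)) ^ 2 * (G.P.nu D.Y z / z.p * (∑ a ∈ D.HH,
        (if On a ((D.k0 : ℤ) ^ 2) z ∧ D.Gd a z.p then z.p / ∑ z ∈ D.Z a, G.P.nu D.Y z else 0)
          * D.dp a) ^ 2) := by
    intro z hz
    obtain ⟨h1, h2⟩ := hν z (hR.p1.1 hz)
    have e3 : ∑ h, D.sys.wz h z * D.ex.dp h = G.P.nu D.Y z * ∑ a ∈ D.HH,
        (if On a ((D.k0 : ℤ) ^ 2) z ∧ D.Gd a z.p then z.p / ∑ z ∈ D.Z a, G.P.nu D.Y z else 0)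
          * D.dp a := by
      rw [mul_sum, ← sum_coe_sort D.HH]
      refine sum_congr rfl fun h _ => ?_
      rw [hwz h z hz]
      change _ * D.dp h = _
      split_ifs
      · ring
      · simp
    rw [e3]
    change (1 / (D.HH.card : ℝ) * _) ^ 2 / (G.P.nu D.Y z * z.p) = _
    field_simp
  unfold XLs
  rw [e2]
  change ∑ z ∈ D.P1, _ ≤ D.θ ^ 2 * (1 / (D.HH.card : ℝ) * _)
  rw [sum_congr rfl e1, ← mul_sum]
  refine (mul_le_mul_of_nonneg_left hc2 (sq_nonneg _)).trans (le_of_eq ?_)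
  field_simp

end Pool.Agent.MP_f3836a_nt.GV
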