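import Pool.Agent.MP_f3836a_nt.GV.SpecE1
import Pool.Agent.MP_f3836a_nt.VE.DApi

/-! Row Zer: zeros over one prime and the norm on the interval. -/

set_option autoImplicit false

namespace Pool.Agent.MP_f3836a_nt.GV

open Polynomial Finset VE

theorem rZer : GV.OfZer := by
  intro hT hS hF n _ T t1 P m p A S h1 h2 h3 h4
  rcases S.eq_empty_or_nonempty with rfl | ⟨z0, h0⟩
  · simp
  obtain ⟨hp, -, hr, -⟩ := h2.bas _ _ (h4 z0 h0).1.1
  rw [(h4 z0 h0).2.1] at hp hr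
  have := Fact.mk hp
  have hm := (h1.det m A h3).1.map (Int.castRingHom (ZMod p))
  have hc : S.card ≤ (((T.N A).map (Int.castRingHom (ZMod p))).roots.toFinset ×ˢ Fy P.r p).card := by
    refine card_le_card_of_injOn (fun z => ((z.t : ZMod p), z.y)) (fun z hz => ?_)
      fun z hz z' hz' e => ?_
    · obtain ⟨k1, rfl, k3⟩ := h4 z hz
      refine mem_coe.2 (mem_product.2 ⟨?_, k1.2⟩)
      have ht : ((z.t : ℤ) : ZMod z.p) = (1 : ℤ) * (z.t : ZMod z.p) := by simp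
      have e1 := (((hT n T z.t 1 h1).1 _ _ ht).2 m A h3).2
      rw [DApi.hv_cast _ _ _ _ _ (h1.det m A h3).2.le ht,
        (hS n _ _).1 _ _ (h2.hom z k1), mul_zero, Int.cast_one, one_pow, one_mul] at e1
      · rw [Multiset.mem_toFinset, mem_roots hm.ne_zero, IsRoot, eval_map]
        exact e1
      · have e2 := (ZMod.intCast_zmod_eq_zero_iff_dvd _ _).2 k3
        rw [Int.cast_sum] at e2
        refine (sum_congr rfl fun i _ => ?_).trans e2
        rw [Int.cast_mul, ← DApi.aeval_int, Int.cast_natCast]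
    · obtain ⟨k1, k2, -⟩ := h4 z hz
      obtain ⟨k1', k2', -⟩ := h4 z' hz'
      have a := (h2.bas _ _ k1.1).2.1
      have a' := (h2.bas _ _ k1'.1).2.1
      rw [Prod.mk.injEq, ZMod.natCast_eq_natCast_iff', Nat.mod_eq_of_lt (k2 ▸ a),
        Nat.mod_eq_of_lt (k2' ▸ a')] at e
      cases z
      cases z'
      simp_all
  rw [card_product, (hF _ _ hr).1, ← h2.two] at hc
  refine hc.trans ?_
  rw [sq, mul_right_comm]
  refine Nat.mul_le_mul_right n ((Multiset.toFinset_card_le _).trans ((card_roots' _).trans ?_))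
  exact natDegree_map_le.trans (h1.det m A h3).2.le

theorem rNrm : OfNrm := by
  intro hA _ hN n r m _ G D h x hx
  obtain ⟨-, -, h1, -, h2, -⟩ := hA n D.Γ h.gok
  have hd := h.geo.tb.det m _ (h1 x)
  obtain ⟨⟨H0, h3, h4⟩, -⟩ := hN n r G.T G.B G.t1 m D.vs h.geo.two h.geo.br.far h.sp
  have hc : (0 : ℝ) < ((D.W' : ℝ) * D.H) ^ n :=
    pow_pos (mul_pos (Nat.cast_pos.2 h.gok.pos.2.1) (Nat.cast_pos.2 h.eb.1)) n
  have key : ∀ t ∈ Set.Icc (G.B.t0 : ℝ) (G.B.t0 + 1),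
      3 / 4 * (((D.W' : ℝ) * D.H) ^ n * H0) ≤ aeval t (G.T.N (D.Γ.gA x)) ∧
      aeval t (G.T.N (D.Γ.gA x)) ≤ 12 * (3 / 4 * (((D.W' : ℝ) * D.H) ^ n * H0)) := fun t ht => by
    have a := abs_le.1 ((h.nr x hx).1 t ht)
    have b := mul_le_mul_of_nonneg_left (h4 t ht).1 hc.le
    have c := mul_le_mul_of_nonneg_left (h4 t ht).2 hc.le
    have d := mul_pos hc h3
    have e := mul_le_mul_of_nonneg_right h.eb.2.2.1 (d.le.trans b)
    exact ⟨by linarith [a.1], by linarith [a.2]⟩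
  have h5 : 0 + 5 ≤ m := le_trans (Nat.add_le_add_right (Nat.zero_le _) 5) (h.gok.five 0)
  have h6 : 0 < 3 / 4 * (((D.W' : ℝ) * D.H) ^ n * H0) := by positivity
  refine ⟨hd.1, hd.2, Nat.mul_pos (NeZero.pos n) (by omega), ⟨_, h6, key⟩, fun a ha => ?_⟩
  have hk : (0 : ℝ) < (D.k0 : ℝ) ^ 2 := pow_pos (Nat.cast_pos.2 (h.adm a ha).pos) 2
  have hm : D.t a ∈ Set.Icc (G.B.t0 : ℝ) (G.B.t0 + 1) :=
    Set.Icc_subset_Icc_right (by linarith [h.geo.br.rho.2]) (h.adm a ha).mem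
  have hb : ((D.Γ.b : ℤ) : ℝ) = (D.k0 : ℝ) ^ 2 := by simp [Gf.b]
  refine ⟨hm, ?_⟩
  rw [h2 a x, DApi.hv_cast _ _ a _ (D.t a) hd.2.le (by rw [hb, Dat.t, mul_div_cancel₀ _ hk.ne']), hb,
    Real.log_mul (pow_pos hk _).ne' (h6.trans_le (key _ hm).1).ne', Real.log_pow]

end Pool.Agent.MP_f3836a_nt.GV
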