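import Pool.Agent.MP_f3836a_nt.VE.ECnt
import Pool.Agent.MP_f3836a_nt.VE.ESc
import Pool.Agent.MP_f3836a_nt.VE.ESchur
import Pool.Agent.MP_f3836a_nt.GV.GDMain
import Pool.Agent.MP_f3836a_nt.GV.GFAll
import Pool.Agent.MP_f3836a_nt.GV.GEGram
import Pool.Agent.MP_f3836a_nt.GV.GELsv
import Pool.Agent.MP_f3836a_nt.GV.GEPt
import Pool.Agent.MP_f3836a_nt.GV.GESp
import Pool.Agent.MP_f3836a_nt.GV.GSAr
import Pool.Agent.MP_f3836a_nt.GV.GSBas
import Pool.Agent.MP_f3836a_nt.GV.GSEq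
import Pool.Agent.MP_f3836a_nt.GV.GSId
import Pool.Agent.MP_f3836a_nt.GV.GSLk
import Pool.Agent.MP_f3836a_nt.GV.GSLn
import Pool.Agent.MP_f3836a_nt.GV.GSR1
import Pool.Agent.MP_f3836a_nt.GV.GSR2
import Pool.Agent.MP_f3836a_nt.GV.GSRig
import Pool.Agent.MP_f3836a_nt.GV.GSSt
import Pool.Agent.MP_f3836a_nt.GV.GSXAr
import Pool.Agent.MP_f3836a_nt.GV.GSXLs
import Pool.Agent.MP_f3836a_nt.GV.GSZer

/-! The concrete system is rigid. -/

set_option autoImplicit false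

namespace Pool.Agent.MP_f3836a_nt.GV

theorem lkS : VE.LkS := VE.rLk VE.rCnt VE.rSc

theorem ptG : PtG := rPt rFy

theorem lsvG : LsvG := rLsv VE.rCnt VE.rSc lkS VE.rSchur rSchur (rGram VE.rCnt VE.rSc ptG)

theorem bas : BasS := rBas VE.rCnt VE.rSc VE.rCel ptG

theorem nrm : NrmS := rNrm api rTb rN0

theorem rigC : ∃ AF, RigC AF :=
  rRig F.fMain bas fun n r m _ G D h =>
    ⟨sOk VE.rSc bas n r m G D h (sEq eqS pcA bas n r m G D h) (sLk VE.rSc lkS bas n r m G D h)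
      (sLn api ptG (rZer rTb rSpl rFy) bas n r m G D h) (sR1 lkS bas n r m G D h)
      (sR2 lkS bas n r m G D h) (sAr nrm VE.rCel bas n r m G D h) (sId api bas n r m G D h).1
      (sSt bas n r m G D h), (sId api bas n r m G D h).2,
      sXAr api nrm rN0 VE.rCel bas n r m G D h, sXLs lsvG bas n r m G D h⟩

end Pool.Agent.MP_f3836a_nt.GV
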