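import Pool.Agent.MP_f3836a_nt.GV.SpecE2
import Pool.Agent.MP_f3836a_nt.GV.GDTb
import Pool.Agent.MP_f3836a_nt.VE.XBH1

/-! Part E: heights and the base hypotheses for a small curve. -/

set_option autoImplicit false

namespace Pool.Agent.MP_f3836a_nt.GV

open Polynomial Finset VE

theorem rHtG : HtG := by
  intro n r _ G hG
  refine ⟨|(G.B.t0 : ℝ)| + 1 + |(G.t1 : ℝ)|, fun W k Y a hY sc ha => ?_⟩
  have w2 : (2 : ℝ) ≤ W := by exact_mod_cast sc.two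
  have y2 : 2 < Y := w2.trans_lt sc.big
  have e : (k : ℝ) ^ 2 = Y ^ 20 := by rw [← sc.pow, ← pow_mul]
  have p0 : 0 < Y ^ 20 := by positivity
  obtain ⟨h1, h2⟩ := ha
  rw [e] at h1 h2
  have h3 := hG.br.rho.2
  have n1 : (1 : ℝ) ≤ n := by exact_mod_cast Nat.one_le_iff_ne_zero.2 (NeZero.ne n)
  have h4 : (G.B.t0 : ℝ) + 1 + 2 * n ≤ G.t1 := by exact_mod_cast hG.br.far
  set t := (a : ℝ) / Y ^ 20 with ht
  have ea : (a : ℝ) = t * Y ^ 20 := by rw [ht, div_mul_cancel₀ _ p0.ne']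
  have b1 := le_abs_self (G.B.t0 : ℝ)
  have b2 := neg_abs_le (G.B.t0 : ℝ)
  have b3 := le_abs_self (G.t1 : ℝ)
  have b4 := neg_abs_le (G.t1 : ℝ)
  have b5 := abs_nonneg (G.t1 : ℝ)
  have key : ∀ s : ℝ, |s| ≤ Y → |s * Y ^ 20| ≤ Y ^ 21 := fun s hs => by
    rw [abs_mul, abs_of_pos p0, pow_succ' Y 20]
    exact mul_le_mul_of_nonneg_right hs p0.le
  have e2 : ((a - G.t1 * (k : ℤ) ^ 2 : ℤ) : ℝ) = (t - G.t1) * Y ^ 20 := by
    push_cast
    rw [e, ea]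
    ring
  refine ⟨?_, ?_, ?_, fun h => ?_⟩
  · rw [ea]
    exact key t (abs_le.2 ⟨by linarith, by linarith⟩)
  · push_cast
    rw [e]
    exact pow_le_pow_right₀ (by linarith) (by norm_num)
  · rw [e2]
    exact key _ (abs_le.2 ⟨by linarith, by linarith⟩)
  · rw [h, Int.cast_zero] at e2
    rcases mul_eq_zero.1 e2.symm with h | h
    · linarith
    · exact p0.ne' h

namespace GXBH

theorem mu_one {n : ℕ} (P : Ps n) (Y : ℝ) (S : Finset Pt) (z : Pt) :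
    P.mu Y S {z} = P.nu Y z / ∑ z ∈ S, P.nu Y z := by
  have : nT {z} = z.p := by simp [nT]
  rw [Ps.mu, Ps.wG, PT, this, Ps.nu]
  ring

open Classical in
theorem mem_pon {n : ℕ} {P : Ps n} {Y : ℝ} {k : ℕ} {a : ℤ} {z : Pt} :
    z ∈ P.pon Y k a ↔ z ∈ P.pts Y (Y ^ 2) ∧ On a ((k : ℤ) ^ 2) z := mem_filter

theorem sig_le {W W' : ℕ} {r r' : ℤ} (h : W ∣ W') (h' : r ∣ r') (h0 : r' = 0 → r = 0) :
    sig W' r ≤ sig W r' := by
  by_cases c : r' = 0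
  · simp [sig, c, h0 c]
  refine sum_le_sum_of_subset_of_nonneg (fun l hl => ?_) fun _ _ _ => by positivity
  rw [mem_filter] at hl ⊢
  exact ⟨Nat.primeFactors_mono (Int.natAbs_dvd_natAbs.2 h') (Int.natAbs_ne_zero.2 c) hl.1,
    fun e => hl.2 (e.trans h)⟩

end GXBH

open GXBH XBH1 in
theorem rBH : OfBH := by
  classical
  intro hA hR hE hP hS hH n r _ G hG
  obtain ⟨Y1, h1⟩ := hH n r G hG
  obtain ⟨hE1, Cf, -, hE2⟩ := hE n r G.T G.B G.t1 hG.tb hG.br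
  refine ⟨max Y1 Cf, fun N W k Y a hY hW sc cv => ?_⟩
  obtain ⟨y2, k0, -, -, ek, s1, s2, -⟩ := hS W k Y sc
  have Y0 : 0 < Y := by linarith
  have Y1' : 1 ≤ Y := by linarith
  have yC : Cf ≤ Y := (le_max_right _ _).trans hY
  obtain ⟨-, -, t3, t4⟩ := h1 W k Y a ((le_max_left _ _).trans hY) sc cv.adm.mem
  have d0 : 0 < (a - G.t1 * (k : ℤ) ^ 2).natAbs := Int.natAbs_pos.2 t4
  let Γ : Gf n := ⟨G.T, G.P, G.t1, 5 + ∑ i, G.T.e i, W, 1, k,
    Pi.single 0 (X ^ (5 + ∑ i, G.T.e i)), fun _ => 0, 1⟩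
  have gk : Γ.Ok := ⟨hG.tb, hG.alg, fun i => by
      have := single_le_sum (f := G.T.e) (fun _ _ => Nat.zero_le _) (mem_univ i)
      show G.T.e i + 5 ≤ 5 + ∑ i, G.T.e i
      omega,
    ⟨by simp [Γ, monic_X_pow], by simp [Γ], fun i hi d _ => by simp [Γ, hi]⟩,
    ⟨by have := sc.two; show 0 < W; omega, one_pos, k0, one_pos⟩,
    fun l hl h => h.elim (fun h => absurd (Nat.dvd_one.1 h) hl.ne_one)
      fun h => h.elim (sc.rad l hl) (hW.2.1 l hl)⟩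
  have api := (hA n Γ gk).2.2.2.2.2.1 a
  have b0 : ((k : ℤ) ^ 2) ≠ 0 := by positivity
  obtain ⟨r1, r2⟩ := hR n G.T a _ hG.tb b0
  obtain ⟨pw, -⟩ := hP.1 n G.T G.t1 G.P Y hG.alg hG.win (by linarith)
  obtain ⟨z1, -⟩ := abs_le.1 cv.tot
  set S := G.P.pon Y k a
  have z0 : 0 < ∑ z ∈ S, G.P.nu Y z := by linarith
  have K1 := pw.one
  have up : ∀ j : ℕ, j ≤ 2 * ∑ i, G.T.e i →
      Cf * ((k : ℝ) ^ 2) ^ j ≤ Y ^ (200 + 41 * ∑ i, G.T.e i) := fun j hj => by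
    rw [ek, ← pow_mul]
    refine (mul_le_mul_of_nonneg_right yC (by positivity)).trans ?_
    rw [← pow_succ']
    exact pow_le_pow_right₀ Y1' (by omega)
  refine ⟨⟨hW.1.trans (Nat.le_mul_of_pos_right _ d0), fun l hl h => (hW.2.1 l hl h).mul_right _, ?_⟩,
    ⟨hG.two, r1, cv.adm.fld, (hE1 k a k0 cv.adm.mem).1, ⟨fun w i => ?_, ?_, ?_⟩, ?_,
      fun z hz => ?_, fun p Z hZ => ?_, fun x hx => ?_, fun x hx => ?_, ?_,
      fun x _ x' _ e => by simp only [Ps.mu, Ps.wG, PT, e], fun x hx => ?_⟩,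
    fun z hz => (pw.pt z (mem_pon.1 hz).1).2.2.2.2.1, fun p => ?_⟩
  · obtain ⟨W1, e, h⟩ := hW.2.2
    refine ⟨W1 * (a - G.t1 * (k : ℤ) ^ 2).natAbs, by rw [Geo.lev, ← mul_assoc, ← e],
      fun l hl hd => ?_⟩
    exact ((Nat.Prime.dvd_mul hl).1 hd).elim (fun c => (h l hl c).mul_right _)
      fun c => c.mul_left _
  · have := single_le_sum (f := G.T.e) (fun _ _ => Nat.zero_le _) (mem_univ i)
    exact ((hE2 k a k0 cv.adm.mem).1 w i).trans (up _ (by omega))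
  · exact (hE2 k a k0 cv.adm.mem).2.trans (up _ le_rfl)
  · rw [Geo.lev, Nat.cast_mul, Nat.cast_natAbs, Int.cast_abs]
    refine (mul_le_mul sc.big.le t3 (abs_nonneg _) Y0.le).trans ?_
    rw [← pow_succ']
    exact pow_le_pow_right₀ Y1' (by omega)
  · refine (sig_le (dvd_mul_right W _) (Dvd.intro _ r2) fun h => ?_).trans
      (cv.sg.trans (by linarith))
    rw [h] at r2
    exact (mul_eq_zero.1 r2).resolve_right (pow_ne_zero _ b0)
  · obtain ⟨b1, b2, -, b3, -, b4, -⟩ := api z hz.1 hz.2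
    refine ⟨b1, fun h => ?_, b3⟩
    exact ((Nat.prime_iff_prime_int.1 b1).dvd_or_dvd h).elim b4
      fun c => b2 (Int.natCast_dvd_natCast.1 c)
  · rcases Z.eq_empty_or_nonempty with rfl | ⟨z0, hz0⟩
    · simp
    obtain ⟨⟨⟨⟨a1, -⟩, a2⟩, -⟩, a3⟩ := hZ z0 hz0
    rw [a3] at a1 a2
    obtain ⟨hp, -, a4, -⟩ := hG.alg.bas p _ a1
    rw [hG.alg.two, ← (rFy _ p a4).1]
    refine card_le_card_of_injOn Pt.y (fun z hz => ?_) fun z hz z' hz' e => ?_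
    · obtain ⟨⟨⟨⟨-, c⟩, -⟩, -⟩, c'⟩ := hZ z hz
      rwa [c'] at c
    · obtain ⟨⟨⟨⟨c1, -⟩, -⟩, c2⟩, c3⟩ := hZ z hz
      obtain ⟨⟨⟨⟨c4, -⟩, -⟩, c5⟩, c6⟩ := hZ z' hz'
      rw [On, c3] at c2
      rw [On, c6] at c5
      have l1 := (hG.alg.bas _ _ c1).2.1
      have l2 := (hG.alg.bas _ _ c4).2.1
      have : (p : ℤ) ∣ (k : ℤ) ^ 2 * (z.t - z'.t) := by
        have := dvd_sub c2 c5
        rwa [sub_sub_sub_cancel_right, ← mul_sub] at this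
      have := Int.eq_zero_of_abs_lt_dvd
        (((Nat.prime_iff_prime_int.1 hp).dvd_or_dvd this).resolve_left (s2 p hp a2))
        (abs_lt.2 ⟨by omega, by omega⟩)
      cases z
      cases z'
      simp only [Pt.mk.injEq] at *
      omega
  · obtain ⟨z, hz, rfl⟩ := mem_sing.1 hx
    obtain ⟨b1, b4⟩ := mem_pon.1 hz
    obtain ⟨c1, -, c2, c3, -⟩ := pw.pt z b1
    exact ⟨z, rfl, ⟨⟨(G.P.mem_pts.1 b1).1, (s1 _ c1 c2).1⟩, b4⟩, c2, c3⟩
  · obtain ⟨z, hz, rfl⟩ := mem_sing.1 hx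
    rw [mu_one]
    exact div_nonneg (pw.pt z (mem_pon.1 hz).1).2.2.2.2.1.le z0.le
  · rw [sum_sing]
    simp only [mu_one]
    rw [← sum_div]
    exact div_self z0.ne'
  · obtain ⟨z, hz, rfl⟩ := mem_sing.1 hx
    obtain ⟨-, -, c2, -, -, -, c3⟩ := pw.pt z (mem_pon.1 hz).1
    rw [le_div_iff₀ (Y0.trans_le c2)] at c3
    rw [mu_one, show nT {z} = z.p by simp [nT], div_mul_eq_mul_div, div_le_iff₀ z0]
    nlinarith
  · rcases (S.filter fun z => z.p = p).eq_empty_or_nonempty with h | ⟨z0, hz0⟩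
    · rw [h, sum_empty]
      positivity
    obtain ⟨c1, -, c2, -⟩ := pw.pt z0 (mem_pon.1 (mem_filter.1 hz0).1).1
    rw [(mem_filter.1 hz0).2] at c1 c2
    have c3 := (hP.2 _ _ Y _ pw p).2 a _ (s1 p c1 c2).2.1
    have c4 : ((S.filter fun z => z.p = p).card : ℝ) ≤ G.P.K := by
      refine le_trans (Nat.cast_le.2 (card_le_card fun z hz => ?_)) c3
      rw [mem_filter] at hz ⊢
      exact ⟨(mem_pon.1 hz.1).1, hz.2, (mem_pon.1 hz.1).2⟩
    refine (sum_le_card_nsmul _ _ (G.P.K / Y) fun z hz => ?_).trans ?_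
    · obtain ⟨-, -, c5, -, -, -, c6⟩ := pw.pt z (mem_pon.1 (mem_filter.1 hz).1).1
      exact c6.trans (div_le_div_of_nonneg_left (by linarith) Y0 c5)
    · rw [nsmul_eq_mul, sq, mul_div_assoc]
      exact mul_le_mul_of_nonneg_right c4 (by positivity)

end Pool.Agent.MP_f3836a_nt.GV
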