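import Pool.Agent.MP_f3836a_nt.GV.SpecD
import Pool.Agent.MP_f3836a_nt.VE.DApi

/-! The dictionary between the big curve and its values on a small curve. -/

set_option autoImplicit false

namespace Pool.Agent.MP_f3836a_nt.GV

open Polynomial Finset VE

namespace GDApi

variable {n : ℕ}

theorem nm_map {R S : Type} [CommRing R] [CommRing S] (f : R →+* S) (M : Tab R n) (β : Fin n → R) :
    Nm (fun i => (M i).map f) (fun i => f (β i)) = f (Nm M β) := by
  rw [Nm, Nm, RingHom.map_det]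
  congr 1
  ext i j
  simp [Mx, Matrix.sum_apply]

theorem disc_map {R S : Type} [CommRing R] [CommRing S] (f : R →+* S) (M : Tab R n) :
    disc (fun i => (M i).map f) = f (disc M) := by
  rw [disc, disc, RingHom.map_det]
  congr 1
  ext i j
  simp [Matrix.trace, Matrix.mul_apply]

variable [NeZero n] {Γ : Gf n}

theorem deg (h : Γ.Ok) (x : Γ.I) (i : Fin n) :
    (C (Γ.W' : ℤ) * (X - C Γ.t1) * vP x i).natDegree ≤ Γ.m - max (Γ.T.e i) 1 := by
  have h1 : (vP x i).natDegree ≤ Γ.m - max (Γ.T.e i) 1 - 1 :=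
    natDegree_sum_le_of_forall_le _ _ fun j _ =>
      (natDegree_monomial_le _).trans (Nat.le_sub_one_of_lt j.2)
  have h2 : (C (Γ.W' : ℤ) * (X - C Γ.t1)).natDegree ≤ 1 :=
    (natDegree_C_mul_le _ _).trans (natDegree_X_sub_C_le _)
  have := h.five i
  exact natDegree_mul_le.trans (by omega)

theorem mon (h : Γ.Ok) (x : Γ.I) : Γ.T.Mon Γ.m (Γ.gA x) := by
  obtain ⟨h1, h2, h3⟩ := h.mon
  have h4 : (C (Γ.W' : ℤ) * (X - C Γ.t1) * vP x 0).natDegree < (Γ.As 0).natDegree := by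
    have := deg h x 0
    have := h.five 0
    omega
  refine ⟨h1.add_of_left (degree_lt_degree h4),
    (natDegree_add_eq_left_of_natDegree_lt h4).trans h2, fun i hi d hd => ?_⟩
  have := deg h x i
  have := h.five i
  have := h.tb.epos i hi
  rw [Gf.gA, coeff_add, h3 i hi d hd, coeff_eq_zero_of_natDegree_lt (by omega), add_zero]

theorem b_ne (h : Γ.Ok) {l : ℕ} (hl : l.Prime) (hW : ¬l ∣ Γ.W) : (Γ.b : ZMod l) ≠ 0 := by
  have := Fact.mk hl
  rw [Gf.b, Int.cast_pow, Int.cast_natCast]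
  exact pow_ne_zero _ fun e => hW (h.rad l hl (.inr (.inl ((ZMod.natCast_eq_zero_iff _ _).1 e))))

theorem hm (hT : TbS) (h : Γ.Ok) {a : ℤ} {p t y : ℕ} (hz : Γ.P.Is ⟨p, t, y⟩)
    (ht : (a : ZMod p) = Γ.b * (t : ZMod p)) :
    Hm (fun i => (Γ.Mh a i).map (Int.cast : ℤ → ZMod p)) fun i => (Γ.ss ⟨p, t, y⟩ i : ZMod p) := by
  obtain ⟨h1, h2⟩ := h.alg.hom _ hz
  have h3 := ((hT n Γ.T a Γ.b h.tb).1 _ _ ht).1
  simp only [Hm, Gf.ss, Gf.Mh, Int.cast_mul, Int.cast_pow, Matrix.map_apply] at h1 h2 ⊢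
  refine ⟨by rw [h.tb.e0, h1, pow_zero, mul_one], fun i j => ?_⟩
  simp only [← mul_assoc, h3]
  simp only [mul_assoc, ← mul_sum, ← h2]
  ring

end GDApi

open GDApi in
theorem rApi : GV.OfApi := by
  intro hT hS hF n _ Γ h
  have e5 : ∀ a x, Γ.nm a x = hv (Γ.T.N (Γ.gA x)) (n * Γ.m) a Γ.b := fun a x =>
    (hT n Γ.T a Γ.b h.tb).2.2.2 (pow_ne_zero _ (Int.natCast_ne_zero.2 h.pos.2.2.1.ne')) _ _ (mon h x)
  refine ⟨?_, ?_, mon h, fun a => (hT n Γ.T a Γ.b h.tb).2.1, e5, fun a z hz ho => ?_,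
    fun a a' l x hl hW hr => ?_⟩
  · rw [Fintype.card_sigma]
    refine (sum_le_card_nsmul _ _ Γ.m fun i _ => ?_).trans_eq (by simp)
    rw [Fintype.card_fin]
    exact Nat.sub_le _ _
  · have : (box Γ.lo Γ.H1).Nonempty := ⟨Γ.lo, Fintype.mem_piFinset.2 fun j => mem_Ico.2
      ⟨le_rfl, lt_add_of_pos_right _ (Int.natCast_pos.2 h.pos.2.2.2)⟩⟩
    rw [Gf.E, Eb, sum_const, nsmul_one, div_self (Nat.cast_ne_zero.2 this.card_pos.ne')]
  · obtain ⟨hp, -, hr, ht1⟩ := h.alg.bas _ _ hz.1.1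
    have := Fact.mk hp
    have hb := b_ne h hp hz.2
    have ht : (a : ZMod z.p) = Γ.b * (z.t : ZMod z.p) := by
      have := (ZMod.intCast_zmod_eq_zero_iff_dvd _ _).2 ho
      push_cast at this
      exact (sub_eq_zero.1 this).symm
    have inj : ∀ β : Fin n → ℤ, (∀ y ∈ Fy Γ.P.r z.p, InG Γ.ss β ⟨z.p, z.t, y⟩) →
        ∀ i, (z.p : ℤ) ∣ β i := fun β hβ i => by
      have := h.alg.inj _ _ hz.1.1 (fun i => β i * Γ.b ^ Γ.T.e i)
        (fun y hy => by simpa only [InG, Gf.ss, mul_assoc] using hβ y hy) i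
      rw [← ZMod.intCast_zmod_eq_zero_iff_dvd] at this ⊢
      rw [Int.cast_mul, Int.cast_pow] at this
      exact (mul_eq_zero.1 this).resolve_right (pow_ne_zero _ hb)
    obtain ⟨s1, s2⟩ := hS n (ZMod z.p) fun i => (Γ.Mh a i).map (Int.castRingHom (ZMod z.p))
    refine ⟨hp, fun e => ?_, fun x => ?_, hm hT h (y := z.y) hz.1 ht, fun β hβ => ?_, fun e => ?_, inj⟩
    · refine ht1 ((ZMod.intCast_zmod_eq_zero_iff_dvd _ _).1 (mul_left_cancel₀ hb ?_))
      have := (ZMod.intCast_zmod_eq_zero_iff_dvd _ _).2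
        (Int.natCast_dvd.2 ((hp.dvd_mul.1 e).resolve_left hz.2))
      push_cast at this ⊢
      linear_combination this - ht
    · have e := (((hT n Γ.T a Γ.b h.tb).1 _ _ ht).2 _ _ (mon h x)).1
      have e' : ((∑ i, Γ.gam a x i * Γ.ss z i : ℤ) : ZMod z.p) = (Γ.b : ZMod z.p) ^ Γ.m *
          ((∑ i, (Γ.gA x i).eval (z.t : ℤ) * Γ.P.sv z i : ℤ) : ZMod z.p) := by
        simp only [Int.cast_sum, Int.cast_mul, Gf.gam, Gf.ss, e, mul_sum, ← DApi.aeval_int,
          Int.cast_natCast, Int.cast_pow]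
        refine sum_congr rfl fun i _ => ?_
        rw [← Nat.sub_add_cancel (le_of_add_le_left (h.five i)), Nat.add_sub_cancel]
        ring
      simp only [InG, Gf.zr, Ps.Zr, ← ZMod.intCast_zmod_eq_zero_iff_dvd, e']
      exact mul_eq_zero_iff_left (pow_ne_zero _ hb)
    · rw [← ZMod.intCast_zmod_eq_zero_iff_dvd]
      have k := s1 _ (fun i => Int.castRingHom (ZMod z.p) (β i)) (hm hT h (y := z.y) hz.1 ht)
        (by simpa using (ZMod.intCast_zmod_eq_zero_iff_dvd _ _).2 hβ)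
      rwa [nm_map] at k
    · refine (s2 (Fy Γ.P.r z.p) (fun y i => (Γ.ss ⟨z.p, z.t, y⟩ i : ZMod z.p))
        ((hF _ _ hr).1.trans h.alg.two.symm)
        (fun y hy => hm hT h ⟨hz.1.1, hy⟩ ht) fun β hβ => ?_).2.1
        ((disc_map _ _).trans ((ZMod.intCast_zmod_eq_zero_iff_dvd _ _).2 e))
      choose β' e' using fun i => ZMod.intCast_surjective (β i)
      funext i
      rw [← e']
      refine (ZMod.intCast_zmod_eq_zero_iff_dvd _ _).2 (inj β' (fun y hy =>
        (ZMod.intCast_zmod_eq_zero_iff_dvd _ z.p).1 ?_) i)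
      simpa only [Int.cast_sum, Int.cast_mul, e'] using hβ y hy
  · have := Fact.mk hl
    have e : (a : ZMod l) = a' := by
      have := (ZMod.intCast_zmod_eq_zero_iff_dvd _ _).2 hr
      rw [Gf.res, Int.cast_sub, Int.cast_mul, Int.cast_mul, sub_eq_zero] at this
      exact mul_right_cancel₀ (b_ne h hl hW) this
    simp only [e5, ← ZMod.intCast_zmod_eq_zero_iff_dvd, hv, Int.cast_sum, Int.cast_mul,
      Int.cast_pow, e]

end Pool.Agent.MP_f3836a_nt.GV
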