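import Pool.Agent.MP_f3836a_nt.GV.SpecE2
import Pool.Agent.MP_f3836a_nt.GV.GDApi
import Pool.Agent.MP_f3836a_nt.GV.GDLag

/-! The congruence conditions for the values of the big curves. -/

set_option autoImplicit false

namespace Pool.Agent.MP_f3836a_nt.GV

open Polynomial Finset VE

namespace GXCg

theorem hv_monic {P : ℤ[X]} {d : ℕ} (h : P.Monic) (hd : P.natDegree = d) (a b : ℤ) :
    b ∣ hv P d a b - a ^ d := by
  rw [hv, sum_range_succ, ← hd, h.coeff_natDegree, Nat.sub_self, pow_zero, one_mul, mul_one,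
    add_sub_cancel_right]
  refine dvd_sum fun i hi => Dvd.dvd.mul_left (dvd_pow_self b ?_) _
  have := mem_range.1 hi
  omega

theorem cop {P : ℤ[X]} {d W k p0 : ℕ} {a t : ℤ} (h : P.Monic) (hd : P.natDegree = d) (hW : W ∣ k)
    (hp : p0 ∣ W) (h0 : ∀ l : ℕ, l.Prime → (l : ℤ) ∣ P.eval t → l = p0) (ha : IsCoprime a (k : ℤ)) :
    (hv P d a ((k : ℤ) ^ 2)).natAbs.Coprime (W * (a - t * (k : ℤ) ^ 2).natAbs) := by
  refine Nat.Coprime.symm (Nat.coprime_of_dvd fun l hl h1 h2 => ?_)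
  have h3 : (l : ℤ) ∣ hv P d a ((k : ℤ) ^ 2) := Int.natCast_dvd.2 h2
  have hl' := Nat.prime_iff_prime_int.1 hl
  by_cases hk : l ∣ k
  · have h4 : (l : ℤ) ∣ k := Int.natCast_dvd_natCast.2 hk
    have h5 := (dvd_pow h4 two_ne_zero).trans (hv_monic h hd a _)
    exact hl'.not_isUnit (ha.isUnit_of_dvd' (hl'.dvd_of_dvd_pow ((dvd_sub_right h3).1 h5)) h4)
  · have := Fact.mk hl
    have h4 := (ZMod.intCast_zmod_eq_zero_iff_dvd _ _).2
      (Int.natCast_dvd.2 ((hl.dvd_mul.1 h1).resolve_left fun e => hk (e.trans hW)))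
    have h5 := DApi.hv_cast P d a ((k : ℤ) ^ 2) (t : ZMod l) hd.le (by
      push_cast at h4 ⊢
      linear_combination h4)
    rw [(ZMod.intCast_zmod_eq_zero_iff_dvd _ _).2 h3, DApi.aeval_int, ← Int.cast_pow,
      ← Int.cast_mul, eq_comm, ZMod.intCast_zmod_eq_zero_iff_dvd] at h5
    rcases hl'.dvd_or_dvd h5 with e | e
    · exact hk (Int.natCast_dvd_natCast.1 (hl'.dvd_of_dvd_pow (hl'.dvd_of_dvd_pow e)))
    · exact hk (h0 l hl e ▸ hp.trans hW)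

theorem gam {n : ℕ} [NeZero n] {Γ : Gf n} (h : Γ.Ok) (a : ℤ) (x : Γ.I) (i : Fin n) :
    (Γ.W' : ℤ) * (a - Γ.t1 * Γ.b) ∣ Γ.gam a x i - Γ.T.val Γ.m Γ.As a Γ.b i := by
  have h5 := h.five i
  have h1 : (vP x i).natDegree ≤ Γ.m - Γ.T.e i - 1 :=
    natDegree_sum_le_of_forall_le _ _ fun j _ => (natDegree_monomial_le _).trans (by
      have := j.2
      omega)
  rw [Gf.gam, Tb.val, Tb.val, Gf.gA, mul_assoc, DLag.hv_add, DLag.hv_C_mul, add_sub_cancel_left,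
    show Γ.m - Γ.T.e i = Γ.m - Γ.T.e i - 1 + 1 by omega, GDLag.hv_lin h1, ← mul_assoc]
  exact dvd_mul_right _ _

end GXCg

theorem rCg : OfCg := by
  intro hT hR hP n _ Γ N m1 p0 G1 h hk hW hp hG hm hA h0 a ha x
  have hb : Γ.b ≠ 0 := pow_ne_zero _ (Int.natCast_ne_zero.2 h.pos.2.2.1.ne')
  have h1 : (Nm (Γ.Mh a) (Γ.T.val m1 G1 a Γ.b)).natAbs.Coprime (Γ.lev a) := by
    rw [Gf.Mh, (hT n Γ.T a Γ.b h.tb).2.2.2 hb _ _ hG]
    exact GXCg.cop (h.tb.det _ _ hG).1 (h.tb.det _ _ hG).2 hk hp h0 ha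
  have h2 : ∀ i, (Γ.lev a : ℤ) ∣ Γ.gam a x i - pwr (Γ.Mh a) (Γ.T.val m1 G1 a Γ.b) N i := fun i => by
    rw [Gf.Mh, ← ((hP n).2 Γ.T m1 G1 N h.tb hG).2 a _ hb, ← hA, ← hm, Gf.lev, Nat.cast_mul]
    exact (mul_dvd_mul (Int.natCast_dvd_natCast.2 hW) (Int.natAbs_dvd.2 dvd_rfl)).trans
      (GXCg.gam h a x i)
  refine ⟨?_, _, h1, h2⟩
  have h3 : (Γ.lev a : ℤ) ∣ Γ.nm a x - Nm (Γ.Mh a) (Γ.T.val m1 G1 a Γ.b) ^ N := by
    rw [← ((hP n).1 ℤ (Γ.Mh a) _ 0 N (hR n Γ.T a Γ.b h.tb hb).1).1,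
      ← ZMod.intCast_eq_intCast_iff_dvd_sub]
    have e := GDApi.nm_map (Int.castRingHom (ZMod (Γ.lev a))) (Γ.Mh a)
    have e' : (fun i => Int.castRingHom (ZMod (Γ.lev a))
        (pwr (Γ.Mh a) (Γ.T.val m1 G1 a Γ.b) N i)) = fun i => Int.castRingHom _ (Γ.gam a x i) :=
      funext fun i => (ZMod.intCast_eq_intCast_iff_dvd_sub _ _ _).2 (h2 i)
    exact (e _).symm.trans ((congrArg _ e').trans (e (Γ.gam a x)))
  obtain ⟨c, hc⟩ := h3
  rw [← Int.natAbs_natCast (Γ.lev a), ← Int.isCoprime_iff_nat_coprime] at h1 ⊢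
  rw [sub_eq_iff_eq_add'.1 hc]
  exact h1.pow_left.add_mul_left_left c

end Pool.Agent.MP_f3836a_nt.GV
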