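import Pool.Agent.MP_f3836a_nt.GV.SpecE2
import Pool.Agent.MP_f3836a_nt.VE.XCore

/-! The order of the constants in rank `n`. -/

set_option autoImplicit false

namespace Pool.Agent.MP_f3836a_nt.GV

open Polynomial Finset VE VE.XCore

namespace GXCore

theorem up {J : ℕ} {m g : Fin J → ℝ} {S Λ Λ' : ℝ} (hm : ∀ a, 0 ≤ m a) (h : Λ ≤ Λ')
    (h1 : S ≤ Λ * ∑ a, m a * g a ^ 2) : S ≤ Λ' * ∑ a, m a * g a ^ 2 :=
  h1.trans (mul_le_mul_of_nonneg_right h (sum_nonneg fun a _ => mul_nonneg (hm a) (sq_nonneg _)))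

theorem arC {n J : ℕ} {D Λ Λ' : ℝ} (h : Λ ≤ Λ') (h1 : ArC n J D Λ) : ArC n J D Λ' := by
  intro t0 H s N c g1 g2 g3 g4 g5 g6
  obtain ⟨S, s1, s2, s3, s4⟩ := h1 t0 H s N c g1 g2 g3 g4 g5 g6
  exact ⟨S, s1, s2, fun m tc e u1 u2 u3 => up (fun a => (u1 a).1) h (s3 m tc e u1 u2 u3), s4⟩

theorem arE {n J : ℕ} {D Λ Λ' : ℝ} (h : Λ ≤ Λ') (h1 : ArE n J D Λ) : ArE n J D Λ' := by
  intro t0 H0 Hs ε s N c Q P0 f0 g1 g2 g3 g4 g5 g6 g7 g8 g9 g10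
  obtain ⟨S, S0, f, P1, s1, s2, s3, s4, s5, s6⟩ :=
    h1 t0 H0 Hs ε s N c Q P0 f0 g1 g2 g3 g4 g5 g6 g7 g8 g9 g10
  exact ⟨S, S0, f, P1, s1, s2, s3, s4, fun m tc e u1 u2 u3 =>
    ⟨up (fun a => (u1 a).1) h (s5 m tc e u1 u2 u3).1,
      up (fun a => (u1 a).1) h (s5 m tc e u1 u2 u3).2⟩, s6⟩

theorem pig (H : Finset ℤ) (g : ℤ → ℕ) (M0 : ℕ) (L ρ : ℝ) (hρ : 0 < ρ) (hg : ∀ a ∈ H, g a ≤ M0)
    (h : ρ / 4 * L ≤ H.card) :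
    ∃ i ≤ M0, L ≤ 4 * (M0 + 1) / ρ * (H.filter fun a => g a = i).card := by
  have h0 : (0 : ℝ) < 4 * (M0 + 1) / ρ := by positivity
  obtain ⟨i, hi, h1⟩ := exists_le_card_fiber_of_nsmul_le_card_of_maps_to (s := H)
    (t := range (M0 + 1)) (f := g) (b := L / (4 * (M0 + 1) / ρ))
    (fun a ha => mem_range.2 (Nat.lt_succ_of_le (hg a ha))) ⟨0, by simp⟩ (by
      rw [card_range, nsmul_eq_mul]
      refine le_trans (le_of_eq ?_) h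
      push_cast
      field_simp)
  exact ⟨i, Nat.le_of_lt_succ (mem_range.1 hi), (div_le_iff₀' h0).1 h1⟩

end GXCore

open GXCore Classical in
theorem xCore : GV.OfCore := by
  rintro ⟨AF, hAF⟩ hTop hCls hMain hCv hLv hW hScl hPw hSp hEta hAr hArG n r _ G hG p0 m1 G1 hp hm1
    hG1 hpr
  obtain ⟨N, M0, M1, a0, d0, hN, hd0, hM⟩ := hMain n r G hG
  obtain ⟨m0, hq⟩ := hG.arq
  obtain ⟨u, hu⟩ : ∃ u, u = m0 + ∑ i, G.T.e i + 5 := ⟨_, rfl⟩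
  obtain ⟨m, hm⟩ : ∃ m, m = N * (u * m1) := ⟨_, rfl⟩
  have um : u ≤ m := by
    rw [hm]
    exact (Nat.le_mul_of_pos_right u hm1).trans (Nat.le_mul_of_pos_left _ hN)
  have five : ∀ i, G.T.e i + 5 ≤ m := fun i => by
    have := single_le_sum (f := G.T.e) (fun _ _ => Nat.zero_le _) (mem_univ i)
    omega
  have n0 : 0 < n := Nat.pos_of_ne_zero (NeZero.ne n)
  obtain ⟨p1, p2⟩ := (hPw n).1 _ G.T.M G1 u N hG.tb.rng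
  obtain ⟨p3, -⟩ := (hPw n).1 _ G.T.M G1 u u hG.tb.rng
  have hG2 := ((hPw n).2 G.T m1 G1 u hG.tb hG1).1
  have hpr2 : ∀ q : ℕ, q.Prime → (q : ℤ) ∣ (G.T.N (pwr G.T.M G1 u)).eval G.t1 → q = p0 := by
    intro q hq1 hq2
    rw [Tb.N, p3, eval_pow] at hq2
    exact hpr q hq1 (Int.Prime.dvd_pow' hq1 hq2)
  refine ⟨u * N, Nat.mul_pos (by omega) hN, fun J ψ c φ cθ hId => ?_⟩
  obtain ⟨εs, hεs, hSp'⟩ := hSp n r G.T G.B G.t1 m hG.tb hG.br (by omega)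
  obtain ⟨s, v, hv1, hq⟩ := hq m (by omega) εs hεs
  obtain ⟨ρ0, ρ1⟩ := hG.br.rho
  obtain ⟨Λ3, hΛ3⟩ : ∃ Λ3 : ℝ, Λ3 = 4 * (M0 + 1) / G.B.ρ := ⟨_, rfl⟩
  have L3 : 1 ≤ Λ3 := by
    have : (0 : ℝ) ≤ M0 := M0.cast_nonneg
    rw [hΛ3, le_div_iff₀ ρ0]
    linarith
  obtain ⟨k1, Cb1, hCb1, hM⟩ := hM (84 * m + 703 + a0)
  obtain ⟨Ja, Λa, hΛa, hA⟩ := hAr (n * m) (4 * Λ3)
  obtain ⟨Jb, Λb, hΛb, hB⟩ := hArG (n * m) (4 * Λ3)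
  obtain ⟨Jr, Λr, hΛr, hR⟩ := hq (4 * Λ3)
  obtain ⟨Cb, hCb⟩ : ∃ Cb : ℝ, Cb = Cb1 + 2 * (M0 : ℝ) ^ 3 + 4 * Λ3 + 100 + |G.P.K|
    + (n : ℝ) ^ 2 * m + (Λa + Λb) + Λr * s := ⟨_, rfl⟩
  have c1 : (0 : ℝ) ≤ 2 * (M0 : ℝ) ^ 3 := by positivity
  have c2 : (0 : ℝ) ≤ (n : ℝ) ^ 2 * m := by positivity
  have c3 : (0 : ℝ) ≤ Λr * s := by positivity
  have c4 := abs_nonneg G.P.K
  have c5 := le_abs_self G.P.K
  have C1 : 1 ≤ Cb := by linarith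
  obtain ⟨κ0, hκ0⟩ : ∃ κ0, κ0 = n * (28 * m + 510 + a0) + (k1 + 10002) := ⟨_, rfl⟩
  obtain ⟨d, l, hd, hd1, hl⟩ := levels (LvOk Cb (AF + 1) N κ0 (Ja + Jb + Jr) 1 0 k1) d0 hd0
    fun x h0 h1 => by
      obtain ⟨l, h⟩ := hLv Cb (AF + 1) N κ0 (Ja + Jb + Jr) 1 0 k1 x C1 hN one_pos h0 h1
      exact ⟨l, h, h.nxt.1, h.nxt.2.1⟩
  obtain ⟨ε0, he0, he1, he2⟩ := lb M0 (fun i => (l i).e0) 10 (by norm_num)
    fun i => (hl i).2.2.1.e0.1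
  obtain ⟨kM, hkM⟩ := ubN M0 fun i => (l i).κ
  have hΛ : ∀ i, Cb ≤ (l i).Λ := fun i => by
    have h := (hl i).2.2.1
    have k0 : 1 ≤ (l i).κ := le_trans (by omega) h.len.2.1
    have k1 : (1 : ℝ) ≤ (l i).κ := by exact_mod_cast k0
    exact le_trans (by nlinarith) h.len.2.2
  obtain ⟨w1, Yc, hc⟩ := hCv n r G hG
  have hE : ∀ i, ∃ (w0 : ℕ) (q0 Y1 : ℝ), ∀ (W k0 : ℕ) (Y : ℝ), Y1 ≤ Y → Sc W k0 Y →
      (∀ l : ℕ, l.Prime → l ≤ w0 → l ∣ W) →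
      EtaG G.B.t0 W k0 Y ((l i).θ ^ 2 / (2 * Λ3)) (Cb * (l i).Λ) q0 M1 8 (3 * n) := by
    intro i
    have t1 := (hl i).2.2.1.th.1
    have k2 := hΛ i
    obtain ⟨w0, q0, Y1, h'⟩ := hEta ((l i).θ ^ 2 / (2 * Λ3)) (Cb * (l i).Λ) M1 (3 * n) 8
      (by positivity) (by nlinarith)
    exact ⟨w0, q0, Y1, fun W k0 Y h1 h2 h3 a1 b1 T S g1 g2 g3 g4 g5 g6 g7 =>
      (h' G.B.t0 W k0 Y h1 h2 h3 a1 b1 T S g1 g2 g3 g4 g5 g6 g7).2⟩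
  choose w q0 Ye hE using hE
  obtain ⟨w2, hw2⟩ := ubN M0 w
  obtain ⟨W, hW1, hW2, hWw⟩ := hW n N (G.W0 * p0) (w1 + w2) hN (Nat.mul_pos hG.w0 hp.pos)
  have W5 : 5 ≤ W := hW1.1
  have W2 : 2 ∣ W := hW1.2.1 2 Nat.prime_two (by omega)
  obtain ⟨Y1, hM⟩ := hM d kM ε0 hd (fun i => (hl i).1) hd1 he0
  have hVS : ∀ vs ∈ insert oneX (Set.range v), Sp G.T G.B vs := by
    rintro vs (rfl | ⟨k, rfl⟩)
    · exact hSp' _ fun j => by simpa using hεs.le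
    · exact hSp' _ (hv1 k)
  have hT : ∀ i, ∃ Yl : ℝ, i ≤ M0 → ∀ (k0 : ℕ) (Y Ym : ℝ) (o : ℤ → MO) (H2 : Finset ℤ), Yl ≤ Ym →
      Scl W G.Nx k0 Y Ym → H2 ⊆ HH0 G.B.t0 W k0 → Lc W k0 ≤ Λ3 * H2.card →
      (∀ a ∈ H2, G.Adm a k0 ∧
        MOk G W k0 Y N M0 M1 a0 (84 * m + 703 + a0) k1 kM Cb1 ε0 d a (o a) ∧ (o a).i = i) →
      ∃ v A : Fin n → ℤ[X],
        (∀ i, A i = pwr G.T.M G1 (u * N) i + C ((p0 : ℤ) ^ J) * (X - C G.t1) * v i) ∧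
        G.T.Mon (u * N * m1) A ∧ ∀ t : ℝ, ug (G.T.N A) (cθ A) t = 0 := by
    intro i
    by_cases hi : i ≤ M0
    swap
    · exact ⟨0, fun h => absurd h hi⟩
    obtain ⟨Yl, h⟩ := hTop n r m G p0 (u * m1) J (pwr G.T.M G1 u) ψ c φ cθ
      (insert oneX (Set.range v)) AF N M0 M1 a0 k1 kM W κ0 (Ja + Jb + Jr) Cb1 Cb Λ3 (Λa + Λb) ε0
      (d i) (l i) hG hp ((Dvd.intro_left _ rfl).trans hW2) hG2 hm five hpr2 hId
      ((Set.finite_range v).insert _) hVS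
      { w := hW1
        cb := ⟨hCb1, by linarith, by linarith, L3, by linarith, by linarith, by linarith,
          by linarith, by linarith⟩
        len := ⟨by omega, by omega, hkM i hi⟩
        lv := (hl i).2.2.1
        d := ⟨(hl i).1, (hl i).2.1, he0, he2 i hi, he1⟩
        ar := fun J hJ => ⟨arC (by linarith)
            fun t0 H s N c => hA J t0 H s N c (by omega), arE (by linarith) (hB J (by omega))⟩
        eta := ⟨q0 i, Ye i, fun k0 Y h1 h2 => hE i W k0 Y h1 h2 fun l hl hl' =>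
          hWw l hl (by have := hw2 i hi; omega)⟩ }
    refine ⟨Yl, fun _ k0 Y Ym o H2 g1 g2 g3 g4 g5 => ?_⟩
    obtain ⟨D, e1, e2, e3, e4, e5, e6, e7, e8, e9⟩ :=
      h k0 Y Ym d i o H2 g1 g2 rfl (hl i).2.2.2 g3 g4 g5
    obtain ⟨f0, hraw⟩ := e9 oneX (Set.mem_insert _ _)
    have hRq : Rq G.T G.B G.t1 G.C0 v (D.J1 + 1) (2 * D.Λ1) Λr := by
      rw [e4, e5, show 2 * (2 * Λ3) = 4 * Λ3 by ring]
      exact hR _ (le_trans (by omega) (hl i).2.2.1.cel.2.2.2.2.1)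
    obtain ⟨x, x1, x2⟩ := hCls AF hAF n r m G (D.re oneX f0) hraw s v Λr
      (fun k => e9 (v k) (Set.mem_insert_of_mem _ ⟨k, rfl⟩)) e7 e8 hRq hΛr
      (show Λr * s ≤ D.Λ by rw [e6]; linarith [hΛ i])
    refine ⟨fun j => C (W : ℤ) * vP x j, (D.re oneX f0).Γ.gA x, fun j => ?_, ?_, fun t => ?_⟩
    · show D.As j + C (D.W' : ℤ) * (X - C G.t1) * vP x j = _
      rw [e1, e2, p2, Nat.cast_mul, Nat.cast_pow, C_mul]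
      ring
    · rw [show u * N * m1 = m by rw [hm]; ring]
      exact x2
    · rw [← e3]
      exact x1 t
  choose Yl hT using hT
  obtain ⟨Y3, hY3⟩ := ub M0 Yl
  obtain ⟨k0, Y, Ym, big, sc⟩ := hScl W G.Nx (max Y1 (max Y3 Yc)) (by omega) W2 hG.nx
  simp only [max_le_iff] at big
  obtain ⟨b1, b2, b3⟩ := big
  have m3 := sc.le.2.2.1
  have g1 := hc W k0 Y (b3.trans m3) sc.sc (fun l hl hl' => hWw l hl (by omega))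
    ((Dvd.intro _ rfl).trans hW2) W2 sc.nx
  have ho : ∀ a, ∃ o : MO, G.Cv W k0 Y a →
      MOk G W k0 Y N M0 M1 a0 (84 * m + 703 + a0) k1 kM Cb1 ε0 d a o := by
    intro a
    by_cases ha : G.Cv W k0 Y a
    swap
    · exact ⟨⟨0, fun _ => True, ∅, 1⟩, fun h => absurd h ha⟩
    obtain ⟨o, h⟩ := hM W k0 Y a (b1.trans m3) hW1 sc.sc ha
    exact ⟨o, fun _ => h⟩
  choose o ho using ho
  obtain ⟨i, hi, u1⟩ := pig _ (fun a => (o a).i) M0 _ _ ρ0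
    (fun a ha => (ho a (mem_filter.1 ha).2).lev) g1
  refine hT i hi k0 Y Ym o _ ((hY3 i hi).trans b2) sc
    ((filter_subset _ _).trans (filter_subset _ _)) (by rw [hΛ3]; exact u1) fun a ha => ?_
  obtain ⟨h1, h2⟩ := mem_filter.1 ha
  exact ⟨(mem_filter.1 h1).2.adm, ho a (mem_filter.1 h1).2, h2⟩

end Pool.Agent.MP_f3836a_nt.GV
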