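import Pool.Agent.MP_f3836a_nt.GV.SpecE2

/-! Many small curves are good. -/

set_option autoImplicit false

namespace Pool.Agent.MP_f3836a_nt.GV

open Polynomial Finset VE

namespace GXCv

theorem many (t0 : ℤ) {W k : ℕ} {ρ : ℝ} (hW : 2 ≤ W) (d : W ∣ k) (k0 : 0 < k) (r0 : 0 < ρ)
    (r1 : ρ ≤ 1) : ∃ S ⊆ HH0 t0 W k, ρ * Lc W k - 1 ≤ S.card ∧
      ∀ a ∈ S, (a : ℝ) / (k : ℝ) ^ 2 ∈ Set.Icc (t0 : ℝ) (t0 + ρ) := by
  have W2 : (2 : ℝ) ≤ W := by exact_mod_cast hW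
  have kk : (0 : ℝ) < (k : ℝ) ^ 2 := by positivity
  have L0 : 0 ≤ ρ * Lc W k := by unfold Lc; positivity
  have key : ∀ j ∈ range ⌊ρ * Lc W k⌋₊, (1 : ℝ) + W * j < ρ * (k : ℝ) ^ 2 := fun j hj => by
    have h1 : ((j + 1 : ℕ) : ℝ) ≤ ρ * Lc W k := (Nat.le_floor_iff L0).1 (mem_range.1 hj)
    rw [Lc, ← mul_div_assoc, le_div_iff₀ (by linarith)] at h1
    push_cast at h1
    linarith
  refine ⟨(range ⌊ρ * Lc W k⌋₊).image fun j : ℕ => t0 * (k : ℤ) ^ 2 + 1 + W * j, fun a ha => ?_, ?_,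
    fun a ha => ?_⟩
  · obtain ⟨j, hj, rfl⟩ := mem_image.1 ha
    have h1 : (1 : ℝ) + W * j < (k : ℝ) ^ 2 := (key j hj).trans_le (by nlinarith)
    have h2 : (1 : ℤ) + W * j < (k : ℤ) ^ 2 := by exact_mod_cast h1
    have h3 : (0 : ℤ) ≤ W * j := by positivity
    refine mem_filter.2 ⟨mem_Ico.2 ⟨by linarith, by linarith⟩, ?_⟩
    rw [show t0 * (k : ℤ) ^ 2 + 1 + W * j - 1 = t0 * k * k + W * j by ring]
    exact dvd_add ((Int.natCast_dvd_natCast.2 d).mul_left _) (dvd_mul_right _ _)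
  · rw [card_image_of_injective _ fun i j e => ?_, card_range]
    · exact (Nat.sub_one_lt_floor _).le
    · have : (W : ℤ) * i = W * j := by simpa using e
      exact_mod_cast mul_left_cancel₀ (by omega : (W : ℤ) ≠ 0) this
  · obtain ⟨j, hj, rfl⟩ := mem_image.1 ha
    have h1 := key j hj
    have h3 : (0 : ℝ) ≤ W * j := by positivity
    rw [Set.mem_Icc, le_div_iff₀ kk, div_le_iff₀ kk]
    push_cast
    constructor <;> linarith

end GXCv

open GXCv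

theorem rCv : OfCv := by
  classical
  intro hS hSig hG n r _ G ok
  obtain ⟨r0, r1⟩ := ok.br.rho
  obtain ⟨w0, Ya, ha⟩ := hSig (disc G.T.M) ((disc G.T.M).natDegree + 2 * ∑ i, G.T.e i) G.B.t0
    (G.B.ρ / 8) ok.tb.sep (Nat.le_add_right _ _) (by linarith)
  obtain ⟨Yb, hb⟩ := hG n G.T G.t1 G.P ok.alg ok.win 1 (G.B.ρ / 8) one_pos (by linarith)
  refine ⟨w0, max (max Ya Yb) (2 / G.B.ρ), fun W k Y hY sc hw d0 d2 nx => ?_⟩
  rw [max_le_iff, max_le_iff] at hY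
  obtain ⟨Y2, k0, L1, -⟩ := hS W k Y sc
  obtain ⟨S, s1, s2, s3⟩ := many G.B.t0 sc.two sc.dvd k0 r0 r1
  have b1 := ha W k Y hY.1.1 sc hw
  have b2 := hb G.B.t0 W k Y ⌈Y⌉₊ hY.1.2 sc (Nat.le_ceil _)
  have L2 : 2 ≤ G.B.ρ * Lc W k := by
    have h1 := (div_le_iff₀ r0).1 hY.2
    have h2 : Y ≤ Y ^ 19 := le_self_pow₀ (by linarith) (by norm_num)
    nlinarith
  have c : S.card ≤ ((HH0 G.B.t0 W k).filter (G.Cv W k Y)).card +
      (((HH0 G.B.t0 W k).filter fun a => 1 < sig W (hv (disc G.T.M)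
        ((disc G.T.M).natDegree + 2 * ∑ i, G.T.e i) a ((k : ℤ) ^ 2))).card +
      ((HH0 G.B.t0 W k).filter fun a => ¬G.P.Eqd k Y ⌈Y⌉₊ 1 (G.B.ρ / 8) a).card) := by
    refine le_trans (card_le_card fun a h => ?_)
      ((card_union_le _ _).trans (Nat.add_le_add_left (card_union_le _ _) _))
    have m := s1 h
    have w : (W : ℤ) ∣ a - 1 := (mem_filter.1 m).2
    simp only [mem_union, mem_filter, m, true_and]
    by_contra u
    push Not at u
    refine u.1 ⟨⟨k0, ?_, s3 a h, ok.fld a k ?_ k0 (d2.trans sc.dvd) nx, d0.trans sc.dvd,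
      (Int.natCast_dvd_natCast.2 d0).trans w⟩, u.2.1, u.2.2.1.trans (by linarith)⟩
    · rw [Int.isCoprime_iff_nat_coprime, Int.natAbs_natCast]
      refine Nat.coprime_of_dvd fun l hl h1 h2 => hl.not_dvd_one ?_
      have h3 := (Int.natCast_dvd_natCast.2 (sc.rad l hl h2)).trans w
      have h4 := dvd_sub (Int.natCast_dvd.2 h1) h3
      rw [sub_sub_cancel] at h4
      exact_mod_cast h4
    · obtain ⟨c, e⟩ := (Int.natCast_dvd_natCast.2 d2).trans w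
      exact ⟨c, by push_cast at e; linarith⟩
  have c' := (Nat.cast_le (α := ℝ)).2 c
  push_cast at c'
  linarith

end Pool.Agent.MP_f3836a_nt.GV
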