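import Pool.Agent.MP_f3836a_nt.GV.SpecE2
import Pool.Agent.MP_f3836a_nt.VE.XDel

/-! Part E: deletion in the concrete family. -/

set_option autoImplicit false

namespace Pool.Agent.MP_f3836a_nt.GV

open Polynomial Finset VE

namespace GXDel

theorem eqd_mono {n : ℕ} {P : Ps n} {k : ℕ} {Y : ℝ} {U K' : ℕ} {δ δ' : ℝ} {a : ℤ}
    (h : δ ≤ δ') (hE : P.Eqd k Y U K' δ a) : P.Eqd k Y U K' δ' a :=
  ⟨hE.1.trans h, hE.2.trans h⟩

end GXDel

open GXDel Classical in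
theorem xDel : GV.OfXDel := by
  intro hPt hSc hCel hLsv hMass hGood hNorm hA hB n _ T t1 P hal hwin Km K J e Λ3 hKm hK hJ he he1
    hΛ hΛe
  obtain ⟨Ya, hYa⟩ := hGood n T t1 P hal hwin Km e hKm he
  obtain ⟨Yb, hYb⟩ := hMass n T t1 P hal hwin K e hK he
  refine ⟨max (max Ya Yb) (max 10 (320 * (J + 4) * P.K ^ 2 / e ^ 4)), ?_⟩
  intro t0 W k0 U Y G H2 hsc hY hU hH2 hL hmis
  have hY1 : Ya ≤ Y := (le_max_left _ _).trans ((le_max_left _ _).trans hY)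
  have hY2 : Yb ≤ Y := (le_max_right _ _).trans ((le_max_left _ _).trans hY)
  have hY3 : 10 ≤ Y := (le_max_left _ _).trans ((le_max_right _ _).trans hY)
  have hY4 : 320 * ((J : ℝ) + 4) * P.K ^ 2 / e ^ 4 ≤ Y :=
    (le_max_right _ _).trans ((le_max_right _ _).trans hY)
  obtain ⟨-, -, hL19, -⟩ := hSc W k0 Y hsc
  have hY0 : 0 < Y := by linarith
  have hL0 : 0 < Lc W k0 := lt_of_lt_of_le (by positivity) hL19
  have hW : 0 < W := by have := hsc.two; omega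
  obtain ⟨hpw, hcj⟩ := hPt.1 n T t1 P Y hal hwin (by linarith)
  have hn : ∀ z ∈ P.pts Y (Y ^ 2), 0 ≤ P.nu Y z := fun z hz => (hpw.pt z hz).2.2.2.2.1.le
  have hs : ∀ z ∈ P.pts Y (Y ^ 2), 0 ≤ P.nu Y z / z.p := fun z hz =>
    div_nonneg (hn z hz) (Nat.cast_nonneg _)
  obtain ⟨hcz, htot, hcell⟩ := hYb Y U hY2 hU
  have hbad := hYa t0 W k0 Y U hY1 hsc hU
  obtain ⟨H3, hH3⟩ : ∃ H3, H3 = H2.filter (P.Eqd k0 Y U Km e) := ⟨_, rfl⟩
  have hsub3 : H3 ⊆ H2 := hH3 ▸ filter_subset _ _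
  have hmis' : ∀ a ∈ H2, ∑ z ∈ (P.pts Y (Y ^ 2)).filter fun z =>
      On a ((k0 : ℤ) ^ 2) z ∧ ¬G a z.p, P.nu Y z ≤ e ^ 3 / 8 := by
    intro a ha
    have := hmis a ha
    unfold Ps.pon at this
    rw [filter_filter] at this
    exact this
  have hD : DelH (P.pts Y (Y ^ 2)) (HH0 t0 W k0) H3 ((k0 : ℤ) ^ 2) (P.nu Y)
      (fun a z => G a z.p) (cellOf t0 k0 J) J (Lc W k0) (40 * P.K ^ 2 / Y) e (e ^ 3 / 8) := by
    refine ⟨(hLsv _ _ _ t0 W k0 Y hpw hsc hY3).1, hsub3.trans hH2,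
      ⟨hL0, he, he1, by positivity, le_rfl, ?_⟩, fun z hz => ⟨(hpw.pt z hz).1.pos, hn z hz⟩,
      htot, fun z hz => ⟨(hcj z hz).1, fun a => ⟨Iff.rfl, Iff.rfl⟩⟩, fun a ha => ?_,
      fun a ha => hmis' a (hsub3 ha)⟩
    · have he4 : 0 < e ^ 4 := by positivity
      rw [div_le_iff₀ he4] at hY4
      rw [← mul_div_assoc, div_le_iff₀ hY0]
      linarith
    · exact ((hCel t0 W k0 J hW hsc.dvd hJ).2 a (hH2 (hsub3 ha))).1
  obtain ⟨HH, P1, hM, hsat⟩ := hA _ _ _ _ _ _ _ _ _ _ _ _ hD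
  have hC := hB _ _ _ _ _ _ _ _ _ _ _ _ _ _ hD hM
  refine ⟨HH, P1, ⟨hM.subH.trans hsub3, ?_⟩, ⟨hM.subP, hsat, ?_⟩, hC, fun z hz => ?_, ?_,
    fun a ha => ?_⟩
  · have h1 : H2.card ≤ HH.card + (H3 \ HH).card
        + ((HH0 t0 W k0).filter fun a => ¬P.Eqd k0 Y U Km e a).card := by
      refine le_trans (card_le_card (t := HH ∪ (H3 \ HH) ∪
        (HH0 t0 W k0).filter fun a => ¬P.Eqd k0 Y U Km e a) ?_)
        ((card_union_le _ _).trans (Nat.add_le_add_right (card_union_le _ _) _))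
      intro a ha
      have := hH2 ha
      simp only [hH3, mem_union, mem_sdiff, mem_filter]
      tauto
    have h2 : (H2.card : ℝ) ≤ HH.card + (H3 \ HH).card
        + ((HH0 t0 W k0).filter fun a => ¬P.Eqd k0 Y U Km e a).card := by exact_mod_cast h1
    have h3 := hM.card
    have h4 : (H2.card : ℝ) ≤ HH.card + 3 / 2 * (e * Lc W k0) := by linarith
    have h6 := mul_le_mul_of_nonneg_left h4 hΛ.le
    have h7 := mul_le_mul_of_nonneg_right hΛe hL0.le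
    nlinarith
  · exact (sum_le_sum_of_subset_of_nonneg hM.subP fun z hz _ => hs z hz).trans htot
  · refine le_trans (mul_le_mul_of_nonneg_left ?_ (Nat.cast_nonneg _)) (hM.shG z hz)
    exact_mod_cast card_le_card (filter_subset_filter _ hM.subH)
  · have := (hNorm (P.pts Y (Y ^ 2)) P1 (fun z => P.nu Y z / z.p) (cz Y U K) K e e hM.subP
      (fun z hz => ⟨hs z hz, (hcz z hz).2⟩) hM.mass hcell hK).1
    linarith
  · have hE : P.Eqd k0 Y U Km e a := (mem_filter.1 (hH3 ▸ hM.subH ha)).2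
    have he3 : e ^ 3 ≤ e := by
      have : e ^ 3 ≤ e ^ 1 := pow_le_pow_of_le_one he.le he1 (by norm_num)
      simpa using this
    have h1 : ∑ z ∈ P.pon Y k0 a \
        P1.filter fun z => On a ((k0 : ℤ) ^ 2) z ∧ G a z.p, P.nu Y z ≤ 2 * e := by
      have h2 := XDel.miss (P.pts Y (Y ^ 2)) P1 (P.nu Y) (On a ((k0 : ℤ) ^ 2))
        (fun z => G a z.p) hn
      have h3 := hmis' a (hsub3 (hM.subH ha))
      have h4 := hM.lose a ha
      have h5 : ∑ z ∈ P.pon Y k0 a \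
          P1.filter fun z => On a ((k0 : ℤ) ^ 2) z ∧ G a z.p, P.nu Y z ≤ e ^ 3 / 8 + e :=
        h2.trans (add_le_add h3 h4)
      linarith
    have hZ : P1.filter (fun z => On a ((k0 : ℤ) ^ 2) z ∧ G a z.p) ⊆ P.pon Y k0 a := by
      intro z hz
      rw [mem_filter] at hz
      unfold Ps.pon
      rw [mem_filter]
      exact ⟨hM.subP hz.1, hz.2.1⟩
    have h0 : 0 ≤ ∑ z ∈ P.pon Y k0 a \
        P1.filter fun z => On a ((k0 : ℤ) ^ 2) z ∧ G a z.p, P.nu Y z := by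
      refine sum_nonneg fun z hz => hn z ?_
      have := (mem_sdiff.1 hz).1
      unfold Ps.pon at this
      exact (mem_filter.1 this).1
    have h6 := sum_sdiff (f := P.nu Y) hZ
    have h7 := abs_le.1 hE.1
    refine ⟨eqd_mono (by linarith) hE, h1, abs_le.2 ⟨?_, ?_⟩, ?_⟩ <;> linarith [h7.1, h7.2]

end Pool.Agent.MP_f3836a_nt.GV
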