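import Pool.Agent.MP_f3836a_nt.GV.SpecE2
import Pool.Agent.MP_f3836a_nt.VE.XFam

/-! The concrete family satisfies the hypotheses of the equidistribution theorem. -/

set_option autoImplicit false

namespace Pool.Agent.MP_f3836a_nt.GV

open Finset VE

namespace GXFam

variable {n r m : ℕ} [NeZero n] {G : Geo n r} {D : Dat G m}

theorem low (hL : FuLS) (h : D.Pre) {j t : ℕ} (h1 : D.k ≤ j) (h2 : j ≤ D.k + 2)
    (ht : t ≤ 2 * (D.K * D.s)) : 1 / D.Λ ≤ Fu (D.K * D.s) j (D.v - t) := by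
  obtain ⟨f1, f2, f3, f4, f5, f6⟩ := h.fu
  have hj : 1 ≤ j := by omega
  have g1 : (D.k : ℝ) ≤ j := by exact_mod_cast h1
  have g2 : (j : ℝ) ≤ D.k + 2 := by exact_mod_cast h2
  have g3 : (1 : ℝ) ≤ j := by exact_mod_cast hj
  refine le_trans ?_ (hL _ j 4 _ f1 (f2.mul_left _) (h2.trans f4) (by positivity) ?_ ?_)
  · refine one_div_le_one_div_of_le (by positivity) ?_
    have : √(j : ℝ) ≤ j := Real.sqrt_le_iff.2 ⟨by positivity, by nlinarith⟩
    linarith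
  · have : ((10000 : ℕ) : ℝ) ≤ j := by exact_mod_cast f3.trans h1
    push_cast at this
    linarith
  · have g4 : (t : ℝ) ≤ 2 * (D.K * D.s : ℕ) := by exact_mod_cast ht
    generalize D.K * D.s = U at *
    have g5 : (0 : ℝ) ≤ U := U.cast_nonneg
    have g6 : (0 : ℝ) ≤ t := t.cast_nonneg
    have g7 := mul_le_mul_of_nonneg_right g1 g5
    have g8 := mul_le_mul_of_nonneg_right g2 g5
    rw [abs_le] at f6 ⊢
    push_cast at f6 ⊢
    constructor <;> nlinarith [f6.1, f6.2]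

theorem memZ (h : D.Pre) {a : ℤ} {z : Pt} (hz : z ∈ D.Z a) :
    z ∈ G.P.pts D.Y (D.Y ^ 2) ∧ On a ((D.k0 : ℤ) ^ 2) z ∧ D.Gd a z.p := by
  classical
  obtain ⟨h1, h2⟩ := mem_filter.1 hz
  exact ⟨h.p1 h1, h2⟩

theorem dec {Z : Finset Pt} {k j : ℕ} {T : Multiset Pt} (hT : adG Z k T j) :
    (∀ z ∈ T, z ∈ Z) ∧ T.card ≤ 2 ∧ k ≤ j ∧ j ≤ k + 2 := by
  rcases hT with (⟨h1, rfl⟩ | ⟨x, hx, x', hx', rfl, -, rfl⟩) | ⟨rfl, rfl⟩
  · obtain ⟨z, hz, rfl⟩ := XFam.mem_sing h1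
    exact ⟨by simpa using hz, by simp, by omega, by omega⟩
  · obtain ⟨z, hz, rfl⟩ := XFam.mem_sing hx
    obtain ⟨z', hz', rfl⟩ := XFam.mem_sing hx'
    refine ⟨fun w hw => ?_, by simp, le_rfl, by omega⟩
    rcases Multiset.mem_add.1 hw with hw | hw <;> rwa [Multiset.mem_singleton.1 hw]
  · exact ⟨by simp, by simp, by omega, le_rfl⟩

theorem fml (hL : FuLS) (h : D.Pre) {a : ℤ} {T : Multiset Pt} {j : ℕ}
    (hT : adG (D.Z a) D.k T j) : 1 / D.Λ ≤ D.fm T j := by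
  obtain ⟨d1, d2, d3, d4⟩ := dec hT
  have hY : 1 < D.Y := by linarith [h.num.2.2.2.1]
  refine low hL h d3 d4 ?_
  have b1 := XFam.tot_hi hY (D.K * D.s) T fun z hz => (G.P.mem_pts.1 (memZ h (d1 z hz)).1).2
  exact b1.trans (Nat.mul_le_mul_right _ d2)

end GXFam

open GXFam in
theorem xFam : GV.OfXFam := by
  intro hU hL hP hS n r m _ G D h
  obtain ⟨n1, n2, n3, n4, n5, n6, n7⟩ := h.num
  have hY : 1 < D.Y := by linarith
  have pw := (hP.1 n G.T G.t1 G.P D.Y h.geo.alg h.geo.win hY).1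
  have hl := Real.log_pos hY
  refine ⟨⟨fun a => ⟨(hS n r m G D h a a.2).1, (h.adm a a.2).2.1⟩, Subtype.val_injective,
    fun a s hs => ?_, fun a => (h.gd a a.2).2.1, fun a => (h.gd a a.2).2.2, fun a T j hT => ?_,
    fun a => h.sfe a a.2 fun T j hT => fml hL h hT, fun a => (hS n r m G D h a a.2).2,
    ⟨?_, n1, n2, n3, n4, one_le_pow₀ hY.le, by positivity, by nlinarith, n7⟩, ?_, ?_⟩,
    fun t ht => low hL h le_rfl (by omega) ht.le⟩
  · obtain ⟨w, hw, rfl⟩ := XFam.mem_sing hs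
    obtain ⟨p1, -, p2, -, p3, -⟩ := pw.pt w (memZ h hw).1
    refine ⟨div_nonneg ?_ (mul_nonneg hl.le (sum_nonneg fun z hz =>
      (pw.pt z (memZ h hz).1).2.2.2.2.1.le)), fun z hz => ?_⟩
    · have e : nT {w} = w.p := by simp [nT]
      rw [e]
      have : (0 : ℝ) < w.p * Real.log D.Y := mul_pos (by linarith) hl
      exact ((div_pos_iff_of_pos_right this).1 p3).le
    · rw [Multiset.mem_singleton.1 hz]
      exact ⟨p1, p2⟩
  · obtain ⟨d1, d2, d3, d4⟩ := dec hT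
    have hj : 1 ≤ j := by have := h.fu.2.2.1; omega
    refine ⟨fun z hz => ⟨(memZ h (d1 z hz)).2.1, (h.gd a a.2).1 _ (memZ h (d1 z hz)).2.2⟩,
      fml hL h hT, ((hU _ j _ 0 h.fu.1).2.1 hj).trans n2, fun x =>
      (div_le_iff₀ (h.gd a a.2).2.1).2 (h.rw a a.2 T j _ d4 fun z hz => ?_)⟩
    obtain ⟨b1, b2, -⟩ := memZ h (d1 z hz)
    obtain ⟨b3, b4, -⟩ := G.P.mem_pts.1 b1
    refine ⟨⟨b3, fun hd => ?_⟩, b2⟩
    have : (z.p : ℝ) ≤ D.W := by exact_mod_cast Nat.le_of_dvd h.gok.pos.1 hd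
    linarith [h.sc.big]
  · exact le_trans (by linarith) (le_self_pow₀ hY.le (by norm_num))
  · refine le_trans (le_of_eq ?_) h.deg
    push_cast
    ring
  · refine le_trans (le_of_eq ?_) h.bdy
    push_cast
    ring

end Pool.Agent.MP_f3836a_nt.GV
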