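import Pool.Agent.MP_f3836a_nt.GV.SpecE2
import Pool.Agent.MP_f3836a_nt.VE.XH

/-! Part E: the size of the box. -/

set_option autoImplicit false

namespace Pool.Agent.MP_f3836a_nt.GV

namespace GXH

open Real

theorem cen {l X κ U : ℝ} (hl : 0 < l) (hU : l ≤ U) (U1 : 1 ≤ U) (h1 : 3 / 2 * κ * l ≤ X)
    (h2 : X ≤ 3 / 2 * κ * l + l) :
    ∃ v : ℤ, |l / U * v - (X - κ * l)| ≤ 1 ∧ |(v : ℝ) - κ * U / 2| ≤ U := by
  have U0 : 0 < U := hl.trans_le hU
  obtain ⟨y, hy⟩ : ∃ y : ℝ, X - κ * l = l / U * y := ⟨(X - κ * l) * U / l, by field_simp⟩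
  have y1 := Int.floor_le y
  have y2 := (Int.lt_floor_add_one y).le
  have q0 : 0 < l / U := by positivity
  have q1 : l / U ≤ 1 := (div_le_one U0).2 hU
  have e : l / U * (κ * U / 2) = κ * l / 2 := by field_simp
  have e' : l / U * (κ * U / 2 + U) = κ * l / 2 + l := by field_simp
  have y3 : κ * U / 2 ≤ y := le_of_mul_le_mul_left (by rw [e, ← hy]; linarith) q0
  have y4 : y ≤ κ * U / 2 + U := le_of_mul_le_mul_left (by rw [e', ← hy]; linarith) q0
  refine ⟨⌊y⌋, ?_, abs_le.2 ⟨by linarith, by linarith⟩⟩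
  rw [hy, ← mul_sub, abs_mul, abs_of_pos q0]
  exact mul_le_one₀ q1 (abs_nonneg _) (abs_le.2 ⟨by linarith, by linarith⟩)

end GXH

open GXH VE.XH Real in
theorem xH : GV.XHS := by
  intro n m W a0 κ cp Cn Cq hn hW hc hκ
  refine ⟨2 + |Cn| + 4 * |Cq| + (W * exp cp) ^ 2 + exp (cp + n), fun Y U hY hU => ?_⟩
  have W1 : (1 : ℝ) ≤ W := by exact_mod_cast hW
  have n1 : (1 : ℝ) ≤ n := by exact_mod_cast hn
  have n0 : (0 : ℝ) < n := by linarith
  have p1 := abs_nonneg Cn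
  have p2 := abs_nonneg Cq
  have p3 : 0 ≤ ((W : ℝ) * exp cp) ^ 2 := by positivity
  have p4 := (exp_pos (cp + n)).le
  have Y2 : 2 ≤ Y := by linarith
  have Y1 : 1 ≤ Y := by linarith
  have Yp : 0 < Y := by linarith
  have hw : ((W : ℝ) * exp cp) ^ 2 ≤ Y := by linarith
  have hl : cp + n ≤ log Y := (le_log_iff_exp_le Yp).2 (by linarith)
  have l0 : 0 < log Y := by linarith
  have k1 : (28 * m + 510 + a0 : ℝ) ≤ κ / n := by
    rw [le_div_iff₀' n0]
    exact_mod_cast hκ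
  have k2 := mul_le_mul_of_nonneg_right k1 l0.le
  have al : 0 ≤ a0 * log Y := by positivity
  have e1 : 1 ≤ exp cp := one_le_exp hc
  have W2 : (W : ℝ) ≤ W * exp cp := le_mul_of_one_le_right (by positivity) e1
  have WY : (W : ℝ) ≤ Y := (W2.trans (le_self_pow₀ (W1.trans W2) two_ne_zero)).trans hw
  have hR : W * Y ^ (22 * m + 750 + a0) ≤
      exp (3 / 2 * (κ / n * log Y) - 20 * m * log Y - cp) := by
    calc _ ≤ Y * Y ^ (22 * m + 750 + a0) := by gcongr
      _ = exp ((22 * m + 751 + a0 : ℕ) * log Y) := by rw [exp_nat_mul, exp_log Yp]; ring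
      _ ≤ _ := exp_le_exp.2 (by push_cast; linarith)
  have P2 : 2 ≤ Y ^ (22 * m + 750 + a0) := Y2.trans (le_self_pow₀ Y1 (by omega))
  obtain ⟨H, H1, H2, H3⟩ := side (R := exp (3 / 2 * (κ / n * log Y) - 20 * m * log Y - cp))
    (W := W) (by linarith) (le_trans (by rw [mul_comm]; gcongr) hR)
  rw [log_exp] at H2 H3
  have hH : Y ^ (22 * m + 750 + a0) ≤ H := le_of_mul_le_mul_left (hR.trans H1) (by linarith)
  have H0 : (0 : ℝ) < H := by linarith
  have HY : Y ≤ H := (le_self_pow₀ Y1 (by omega)).trans hH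
  have WH : (0 : ℝ) < W * H := by positivity
  have YU : Y ≤ U := (le_self_pow₀ Y1 (by omega)).trans hU
  have lU : log Y ≤ U := by linarith [log_le_sub_one_of_pos Yp]
  have e2 : n * (3 / 2 * (κ / n * log Y)) = 3 / 2 * κ * log Y := by field_simp
  obtain ⟨v, d4, d5⟩ := cen (l := log Y) (X := n * (20 * m * log Y + log (W * H) + cp)) (κ := κ)
    l0 lU (Y1.trans YU) (by rw [← e2]; gcongr; linarith) (by
      rw [← e2]
      calc _ ≤ n * (3 / 2 * (κ / n * log Y) + 1) :=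
            mul_le_mul_of_nonneg_left (by linarith) n0.le
        _ ≤ _ := by linarith)
  have f1 : (⌊H / Y⌋₊ : ℝ) ≤ H / Y := Nat.floor_le (by positivity)
  have e3 : exp (n * (20 * m * log Y + log (W * H) + cp) / n) =
      Y ^ (20 * m) * (W * H * exp cp) := by
    rw [mul_div_cancel_left₀ _ n0.ne', exp_add, exp_add, exp_log WH, mul_assoc,
      show 20 * m * log Y = (20 * m : ℕ) * log Y by push_cast; ring, exp_nat_mul, exp_log Yp]
  refine ⟨H, ⌊H / Y⌋₊, v, H / Y ^ (22 * m + 350), _,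
    ⟨Nat.cast_pos.1 H0, Nat.floor_pos.2 ((one_le_div Yp).2 HY), ?_⟩, rfl, ⟨d4, d5⟩,
    ⟨?_, ?_, ?_⟩, bdy m Y2 (by linarith) ((pow_le_pow_right₀ Y1 (by omega)).trans hH)
      (Nat.lt_floor_add_one _).le⟩
  · calc _ ≤ Y * (⌊H / Y⌋₊ : ℝ) := by gcongr; linarith [le_abs_self Cn]
      _ ≤ _ := (le_div_iff₀' Yp).1 f1
  · rw [le_div_iff₀ (by positivity), ← pow_add]
    exact (pow_le_pow_right₀ Y1 (by omega)).trans hH
  · rw [e3]
    calc _ ≤ H / Y * Y := by gcongr; exact le_self_pow₀ Y1 (by omega)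
      _ = 1 * (1 * H * 1) := by field_simp
      _ ≤ _ := by gcongr; exact one_le_pow₀ Y1
  · have h := vol (W := W) (c := exp cp) (H := H) (U := U / Y ^ a0) m _ le_rfl Y1 hw
      (by rwa [le_div_iff₀ (by positivity), ← pow_add])
    rw [mul_div_assoc, two_mul, exp_add, e3, ← sq, ← le_div_iff₀ (by positivity), mul_div_assoc]
    exact (le_mul_of_one_le_right (by positivity) Y1).trans h

end Pool.Agent.MP_f3836a_nt.GV
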