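import Pool.Agent.MP_f3836a_nt.GV.SpecE2
import Pool.Agent.MP_f3836a_nt.VE.XMainC

/-! Parts B and C for a small curve. -/

set_option autoImplicit false

namespace Pool.Agent.MP_f3836a_nt.GV

open Polynomial Finset VE VE.XMainC

namespace GXMainC

variable {n : ℕ}

theorem rw_congr {M : Tab ℤ n} {ss : Pt → Fin n → ℤ} {St : Finset (Multiset Pt)}
    {w w' : Multiset Pt → ℝ} (h : ∀ x ∈ St, w x = w' x) : RwG M ss St w = RwG M ss St w' := by
  funext T j β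
  unfold RwG
  refine sum_congr rfl fun s _ => ?_
  congr 1
  exact prod_congr rfl fun i _ => h _ (s i).2

theorem sf_congr {M : Tab ℤ n} {ss : Pt → Fin n → ℤ} {W : ℕ} {St : Finset (Multiset Pt)}
    {w w' : Multiset Pt → ℝ} (h : ∀ x ∈ St, w x = w' x) {ρ : ℝ} {LL : Finset ℕ}
    {ad : Multiset Pt → ℕ → Prop} {fm : Multiset Pt → ℕ → ℝ} {Sh : (Fin n → ℤ) → Prop}
    {Qm V ε K : ℝ} (H : SFG M ss W St w ρ LL ad fm Sh Qm V ε K) :
    SFG M ss W St w' ρ LL ad fm Sh Qm V ε K := by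
  unfold SFG at H ⊢
  rwa [← rw_congr h]

theorem mu_one (P : Ps n) (Y : ℝ) (S : Finset Pt) (z : Pt) :
    P.mu Y S {z} = P.nu Y z / ∑ z' ∈ S, P.nu Y z' := by
  simp only [Ps.mu, Ps.wG, PT, nT_one]
  generalize ∑ z' ∈ S, P.nu Y z' = s
  rw [Ps.nu]
  ring

theorem nz_one (P : Ps n) (Y : ℝ) {S : Finset Pt} (Z : Finset Pt) (h : ∑ z ∈ S, P.nu Y z ≠ 0)
    (z : Pt) : nzG (sing Z) (P.mu Y S) {z} = P.nu Y z / ∑ z' ∈ Z, P.nu Y z' := by
  rw [nzG, sum_sing]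
  simp only [mu_one, ← sum_div]
  rw [div_div_div_cancel_right₀ h]

theorem nz_mul (P : Ps n) (Y : ℝ) {S : Finset Pt} (Z : Finset Pt) (h : ∑ z ∈ S, P.nu Y z ≠ 0)
    {z : Pt} (hz : (z.p : ℝ) ≠ 0) :
    nzG (sing Z) (P.mu Y S) {z} * nT {z} = P.wG Y Z {z} := by
  rw [nz_one P Y Z h, Ps.wG, nT_one]
  generalize ∑ z' ∈ Z, P.nu Y z' = s
  rw [Ps.nu, div_mul_eq_mul_div, div_mul_eq_mul_div, mul_comm (P.lw z.p), mul_div_mul_left _ _ hz,
    div_div]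

theorem cmp {s t : ℝ} (h : |s - 1| ≤ 1 / 2) (h0 : 0 ≤ t) : t ≤ 2 * (t / s) ∧ t / s ≤ 2 * t := by
  obtain ⟨h1, h2⟩ := abs_le.1 h
  have hs : 0 < s := by linarith
  rw [← mul_div_assoc, le_div_iff₀ hs, div_le_iff₀ hs]
  constructor <;> nlinarith

theorem ad_shape {Z : Finset Pt} {k j : ℕ} {T : Multiset Pt} (h : adG Z k T j) :
    Nd T ∧ (∀ z ∈ T, z ∈ Z) ∧ T.card ≤ 2 ∧ T.card + j = k + 2 := by
  rcases h with (⟨h, rfl⟩ | ⟨x, hx, x', hx', rfl, h, rfl⟩) | ⟨rfl, rfl⟩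
  · obtain ⟨z, hz, rfl⟩ := mem_sing.1 h
    refine ⟨by simp [Nd], by simpa using hz, by simp, ?_⟩
    rw [Multiset.card_singleton]
    omega
  · obtain ⟨z, hz, rfl⟩ := mem_sing.1 hx
    obtain ⟨z', hz', rfl⟩ := mem_sing.1 hx'
    refine ⟨h, fun y hy => ?_, by simp, ?_⟩
    · rcases Multiset.mem_add.1 hy with e | e <;> rw [Multiset.mem_singleton.1 e] <;> assumption
    · rw [Multiset.card_add, Multiset.card_singleton, Multiset.card_singleton]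
      omega
  · simp [Nd]

/-- the shift of the argument is small -/
theorem shift {Y X τ κ : ℝ} {U j : ℕ} {v v' : ℤ} {xs : Multiset Pt} (hY : 1 < Y) (hU : 0 < U)
    (h1 : ∀ z ∈ xs, Y ≤ z.p) (h3 : xs.card ≤ 2) (h5 : (xs.card : ℝ) + j = κ)
    (hv : |Real.log Y / U * v - (X - κ * Real.log Y)| ≤ 1)
    (hv' : |Real.log Y / U * v' - (X - Real.log (nT xs) - j * Real.log Y)| ≤ τ) :
    |(v' : ℝ) - ((v - tot Y U xs : ℤ) : ℝ)| / U ≤ (τ + 1) / Real.log Y + 2 / U := by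
  have hL := Real.log_pos hY
  have hU' : (0 : ℝ) < U := by exact_mod_cast hU
  have hη : 0 < Real.log Y / U := by positivity
  obtain ⟨-, a2⟩ := tot_le (Y := Y) (U := U) (L := Real.log Y) (η := Real.log Y / U) xs
    fun z hz => ⟨by have := h1 z hz; rintro e; rw [e] at this; norm_num at this; linarith, by
      rw [ut, if_pos (h1 z hz)]
      exact pos_le hη (Real.log_le_log (by linarith) (h1 z hz))⟩
  rw [← h5] at hv
  push_cast
  have c1 : (xs.card : ℝ) * (Real.log Y / U) ≤ 2 * (Real.log Y / U) := by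
    gcongr
    exact_mod_cast h3
  have key : Real.log Y / U * |(v' : ℝ) - (v - tot Y U xs)| ≤ τ + 1 + 2 * (Real.log Y / U) := by
    rw [← abs_of_pos hη, ← abs_mul, abs_of_pos hη]
    rw [abs_le] at *
    constructor <;> linarith [hv.1, hv.2, hv'.1, hv'.2, a2.1, a2.2]
  calc _ = Real.log Y / U * |(v' : ℝ) - (v - tot Y U xs)| / Real.log Y := by field_simp
    _ ≤ (τ + 1 + 2 * (Real.log Y / U)) / Real.log Y := by gcongr
    _ = _ := by field_simp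

end GXMainC

set_option maxHeartbeats 1000000 in
open GXMainC in
theorem xMainC : GV.OfMainC := by
  intro hC hB hH hN hF n r _ G hG
  obtain ⟨Ya, hH⟩ := hH n r G hG
  obtain ⟨N, M0, M1, a0, d0, hN0, hd0, hC⟩ :=
    hC n r (200 + 41 * ∑ i, G.T.e i) (2 * G.P.K) (by omega)
  refine ⟨N, M0, M1, a0, min d0 1, hN0, lt_min hd0 one_pos, fun E => ?_⟩
  obtain ⟨k', J0, C, c, hk', hC1, hc0, hc1, hC⟩ := hC E
  obtain ⟨J1, k2, cb, C', hb0, hb1, -, hJ1, -, -, hB⟩ := hB k' C hk' hC1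
  have p1 : 0 < 1 / c := by positivity
  have p2 : 0 < 1 / cb := by positivity
  obtain ⟨Cb, q1, q2, q3, q4⟩ : ∃ Cb : ℝ, 240 ≤ Cb ∧ 8 * C ≤ Cb ∧ 1 / Cb ≤ c ∧ 1 / Cb ≤ cb :=
    ⟨240 + 8 * C + 1 / c + 1 / cb, by linarith, by linarith,
      (one_div_le (by linarith) hc0).2 (by linarith), (one_div_le (by linarith) hb0).2 (by linarith)⟩
  refine ⟨2 * k' + 4, Cb, by linarith, fun d kM ε0 hd hd' hdd hε0 => ?_⟩
  obtain ⟨J, hJ0, hJ⟩ : ∃ J, J0 ≤ J ∧ J1 ≤ J := ⟨max J0 J1, le_max_left _ _, le_max_right _ _⟩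
  obtain ⟨Yb, hC⟩ := hC d J kM ε0 hd hd' (hdd.trans (min_le_left _ _)) hJ0 hε0
  refine ⟨max (max (max (max Ya 3) Yb) (max J (1 / ε0))) (max (4 * M1 * G.P.K ^ 2 / ε0)
    (max (Real.exp (4 * (n + 2) / ε0 ^ 2)) (4 * (60 * kM * (J + 1 / ε0) + 0 + 2) / ε0 ^ 2))),
    fun W k0 Y a hY hW hSc hCv => ?_⟩
  simp only [max_le_iff] at hY
  obtain ⟨⟨⟨⟨y1, hY2⟩, y2⟩, y3, y4⟩, y5, y6, y7⟩ := hY
  obtain ⟨hW', hBH, hn0, hsm⟩ := hH N W k0 Y a y1 hW hSc hCv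
  have hZm := hCv.tot
  obtain ⟨i, St1, LL, ρ, hi, hSt, hcl, hm, hLL, hLL', hρ, hC⟩ :=
    hC Y _ _ _ _ _ _ _ y2 hW' hBH
  generalize hP : G.P.pon Y k0 a = P at *
  have hPt : ∀ z ∈ P, Y ≤ z.p := fun z hz => by
    classical
    rw [← hP, Ps.pon] at hz
    exact (G.P.mem_pts.1 (mem_filter.1 hz).1).2.1
  have hL : 0 < Real.log Y := Real.log_pos (by linarith)
  have hZP : ∑ z ∈ P, G.P.nu Y z ≠ 0 := fun e => by
    have := (abs_le.1 hZm).1
    rw [e] at this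
    linarith
  have hcm : ∀ z ∈ P, G.P.nu Y z ≤ 2 * G.P.mu Y P {z} ∧ G.P.mu Y P {z} ≤ 2 * G.P.nu Y z :=
    fun z hz => by
      rw [mu_one]
      exact GXMainC.cmp hZm (hn0 z hz).le
  have hdi : d i ≤ 1 := (hd (Nat.zero_le i)).trans (hdd.trans (min_le_right _ _))
  refine ⟨⟨i, fun p => (∃ x ∈ St1, nT x = p) ∧ p ∉ LL, LL, ρ⟩, hi, fun p hp => hp.2, ?_,
    ⟨hLL, hLL'⟩, hρ, ?_⟩
  · rw [hP]
    refine (mis (LL := LL) (s := 2 * (G.P.K ^ 2 / Y)) hBH.pos hBH.tot hSt hm (fun p => ?_)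
      (fun z h h' => h ⟨⟨_, h'.1, nT_one z⟩, h'.2⟩) fun z hz => (hcm z hz).1).trans ?_
    · refine le_trans ?_ (mul_le_mul_of_nonneg_left (hsm p) zero_le_two)
      rw [sum_filter, sum_sing, sum_filter, mul_sum]
      refine sum_le_sum fun z hz => ?_
      by_cases e : z.p = p
      · simpa [e] using (hcm z hz).2
      · simp [e, Ne.symm e]
    have h4 : (LL.card : ℝ) * (2 * (G.P.K ^ 2 / Y)) ≤ ε0 / 2 := by
      have : (LL.card : ℝ) ≤ M1 := by exact_mod_cast hLL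
      rw [div_le_iff₀ hε0] at y5
      have hY0 : 0 < Y := by linarith
      calc _ ≤ (M1 : ℝ) * (2 * (G.P.K ^ 2 / Y)) := by gcongr
        _ = 4 * M1 * G.P.K ^ 2 / (2 * Y) := by field_simp; ring
        _ ≤ _ := by
          rw [div_le_iff₀ (by linarith)]
          linarith
    linarith
  intro Z U Km δ hZ hδ hE h32 hYU hUE hKm hKε
  rw [hP] at hZ hδ
  obtain ⟨hE0, hE⟩ := hE
  rw [hP] at hE
  have hδ0 : 0 ≤ δ := (abs_nonneg _).trans hE0
  have hZP' : Z ⊆ P := fun z hz => (hZ z hz).1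
  have hz1 : ∀ z ∈ Z, {z} ∈ St1 := fun z hz => by
    obtain ⟨x, hx, e⟩ := (hZ z hz).2.1
    exact hcl x hx _ (mem_sing.2 ⟨z, hZP' hz, rfl⟩) (by rw [nT_one, e])
  have hs1 : sing Z ⊆ St1 := fun x hx => by
    obtain ⟨z, hz, rfl⟩ := mem_sing.1 hx
    exact hz1 z hz
  have hs2 : 1 - d i / 8 ≤ ∑ x ∈ sing Z, G.P.mu Y P x := by
    have h1 := hBH.tot
    rw [sum_sing, ← sum_sdiff hZP'] at h1
    have h2 : ∑ z ∈ P \ Z, G.P.mu Y P {z} ≤ ∑ z ∈ P \ Z, 2 * G.P.nu Y z :=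
      sum_le_sum fun z hz => (hcm z (mem_sdiff.1 hz).1).2
    rw [← mul_sum] at h2
    rw [sum_sing]
    change 32 * δ ≤ d i at h32
    linarith
  obtain ⟨hR, hC⟩ := hC (sing Z) hs1 hs2
  have hw : ∀ x ∈ sing Z, nzG (sing Z) (G.P.mu Y P) x * nT x = G.P.wG Y Z x := fun x hx => by
    obtain ⟨z, hz, rfl⟩ := mem_sing.1 hx
    exact nz_mul _ _ _ hZP (by have := hPt z (hZP' hz); exact (by linarith : (0 : ℝ) < z.p).ne')
  rw [rw_congr hw] at hR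
  refine ⟨hR, fun k v X V Qm ε Λ ε' K hNm hNκ hκ hκ' hdec hdel hcen hshp => ?_⟩
  obtain ⟨hu, hcv, hC⟩ := hC U hYU hUE
  obtain ⟨⟨n1, n2, n3, n4⟩, ⟨n5, n6, n7, n8⟩, n9, n10⟩ := hNm
  have hU2 : 2 ≤ U := by exact_mod_cast (by linarith : (2 : ℝ) ≤ U)
  have hKU : Km ≤ U := by
    have : (Km : ℝ) ≤ 1 / ε0 := by rwa [le_div_iff₀ hε0]
    exact_mod_cast this.trans (y4.trans hYU)
  have hcz : ∀ z, Km * uG Y U {z} / U = cz Y U Km z := fun z => by rw [uG, nT_one, cz]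
  have hco := (hN P Z (G.P.nu Y) (cz Y U Km) Km δ δ hZP' (fun z hz => ⟨(hn0 z hz).le, by
    rw [← hcz]
    exact Nat.div_lt_of_lt_mul (by
      rw [mul_comm U]; exact Nat.mul_lt_mul_of_pos_left (hu _ (mem_sing.2 ⟨z, hz, rfl⟩)) hKm)⟩)
    hδ hE hKm).2.2 (by change 32 * δ ≤ d i at h32; linarith)
  have hsum : 0 < ∑ x ∈ sing Z, G.P.mu Y P x := by linarith
  refine sf_congr hw (hC _ _ X V Qm ε Λ ε' K n1 n2 n3 n4
    (n5.trans (pow_le_pow_right₀ (by linarith) (by omega))) n6 n7 n8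
    (le_trans (mul_le_mul_of_nonneg_right (by linarith) (by linarith)) n9)
    (le_trans (mul_le_mul_of_nonneg_right (by linarith) (by linarith)) n10) fun T j hT => ?_)
  have s3 := hshp T j hT
  obtain ⟨s1, s6, s7, s8⟩ := ad_shape hT
  have hdc := fun {c : ℝ} (h : c ≤ 1) (h' : 1 / Cb ≤ c) => decay (a := k + 2 - (2 * k' + 4))
    (b := j - 2 * k') h (hd' i) hdi h' (by linarith) (by omega)
  have hθ : 0 ≤ (1 - c * d i ^ 2) ^ (j - 2 * k') := pow_nonneg (by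
    have : d i ^ 2 ≤ 1 := pow_le_one₀ (hd' i).le hdi
    nlinarith) _
  refine ⟨s1, by omega, by omega, s3, le_trans ?_ hdec, fun z hz => hz1 z (s6 z hz),
    s8 ▸ hNκ, fun v' hv' => ?_⟩
  · exact mul_le_mul (le_mul_of_one_le_left (by linarith) (by linarith)) (hdc hc1 q3).1 hθ
      (by positivity)
  have b1 := (hB _ (sing Z) (nzG (sing Z) (G.P.mu Y P)) (uG Y U) U J j hJ
    (by exact_mod_cast y3.trans hYU) hU2
    (fun x hx => ⟨div_nonneg (hBH.pos x (hSt (hs1 hx))) hsum.le, hu x (hSt (hs1 hx))⟩)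
    (by simp only [nzG, ← sum_div]; exact div_self hsum.ne') hcv (by omega)).2.2.2 Km _ hKm hKU
    (le_of_eq_of_le (sum_congr rfl fun r _ => by
      rw [sum_filter, sum_sing, sum_filter]
      simp only [hcz, nz_one G.P Y Z hZP]) hco) v'
  have b2 := ((hF U j v' (v - tot Y U T) (by omega)).2.2.1 (by omega)).trans
    (GXMainC.shift (by linarith) (by omega) (fun z hz => hPt z (hZP' (s6 z hz))) s7
      (by exact_mod_cast s8) hcen hv')
  have hn2 : (0 : ℝ) < n + 2 := by positivity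
  have e1 : ((n : ℝ) + 1 + 1) / Real.log Y + 2 / U
      = 4 / (4 * Real.log Y / (n + 2)) + (0 + 2) / U := by
    field_simp
    ring
  rw [e1] at b2
  refine (abs_sub_le _ _ _).trans ((add_le_add b1 b2).trans ?_)
  refine num (κ := (k : ℝ) + 2) (Nat.cast_nonneg j) (by exact_mod_cast (by omega : j ≤ k + 2))
    (by exact_mod_cast hκ) (Nat.cast_nonneg J) le_rfl hδ0 (by exact_mod_cast hKm) hKε
    (by linarith) hYU (by positivity) q1 q2 (pow_nonneg (by linarith) _) (hdc hb1 q4).2 hdec hdel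
    s3 hε0 n1 n3 n4 ?_ y7
  have y8 := (Real.le_log_iff_exp_le (by linarith)).2 y6
  rw [le_div_iff₀ hn2]
  calc 16 / ε0 ^ 2 * (n + 2) = 4 * (4 * (n + 2) / ε0 ^ 2) := by ring
    _ ≤ _ := by linarith

end Pool.Agent.MP_f3836a_nt.GV
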