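import Pool.Agent.MP_f3836a_nt.GV.SpecE2
import Pool.Agent.MP_f3836a_nt.VE.DApi

/-! The values of the big curves have the right shape. -/

set_option autoImplicit false

namespace Pool.Agent.MP_f3836a_nt.GV

open Polynomial Finset VE

theorem rSh : OfSh := by
  intro hA hE hN hC n r m _ G D R a ha
  obtain ⟨adm, -, ne⟩ := R.adm a ha
  obtain ⟨m1, p0, G1, c1, c2, c3, c4, c5, c6⟩ := R.cg
  have cg := hC n D.Γ D.N m1 p0 G1 R.gok R.sc.dvd c1 c2 c3 c4 c5 c6 a adm.cop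
  obtain ⟨-, -, mon, -, nm, -⟩ := hA n D.Γ R.gok
  obtain ⟨⟨H0, p1, p2⟩, p3, p4⟩ := hN n r G.T G.B G.t1 m D.vs R.geo.two R.geo.br.far R.sp
  obtain ⟨nr, hH, he⟩ := R.nr
  have hY : 0 < D.Y := by linarith [R.num.2.2.2.1]
  have hk : (0 : ℝ) < D.k0 := by exact_mod_cast adm.pos
  have hn : (1 : ℝ) ≤ n := by exact_mod_cast NeZero.one_le
  have hs : (1 : ℝ) ≤ (D.W' : ℝ) * D.H := by
    exact_mod_cast Nat.mul_pos R.gok.pos.2.1 hH
  have far : (G.B.t0 : ℝ) + 1 + 2 * n ≤ G.t1 := by exact_mod_cast R.geo.br.far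
  have mem := adm.mem
  have em := ((hE n r G.T G.B G.t1 R.geo.tb R.geo.br).1 D.k0 a adm.pos mem).2
  have ht : (a : ℝ) = (((D.k0 : ℤ) ^ 2 : ℤ) : ℝ) * ((a : ℝ) / (D.k0 : ℝ) ^ 2) := by
    push_cast
    field_simp
  generalize (a : ℝ) / (D.k0 : ℝ) ^ 2 = t at mem em ht
  have mem' : t ∈ Set.Icc (G.B.t0 : ℝ) (G.B.t0 + 1) :=
    ⟨mem.1, mem.2.trans (by linarith [R.geo.br.rho.2])⟩
  refine ⟨⟨adm.cop, ne, fun x => (cg x).1⟩, fun x hx => ⟨⟨(cg x).2, fun w => ?_⟩, ?_⟩⟩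
  · have e1 := abs_le.1 ((nr x hx).2 w t mem)
    have e2 := abs_le.1 (p4 w t mem)
    obtain ⟨e3, e4⟩ := p3 t mem'
    have e5 := abs_le.1 e4
    have e6 : G.B.ev (D.Γ.gA x) w t ≠ 0 := fun h => by
      rw [h, norm_zero, Real.log_zero] at e1
      have : Real.log 2 ≤ Real.log ((D.W' : ℝ) * D.H * (G.t1 - t)) :=
        Real.log_le_log two_pos (by nlinarith [mem'.2])
      linarith [Real.log_two_gt_d9]
    have e7 : emb (G.B.Ph G.T D.k0 a w) (fun i => D.Γ.gam a x i)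
        = ((D.k0 : ℂ) ^ 2) ^ m * G.B.ev (D.Γ.gA x) w t := em m _ (mon x) w
    rw [Real.log_mul (by linarith) e3.ne'] at e1
    rw [e7, R.x, mul_div_cancel_left₀ _ (by linarith), norm_mul, norm_pow, norm_pow,
      Complex.norm_natCast, Real.log_mul (by positivity) (norm_ne_zero_iff.2 e6), ← R.sc.pow,
      Real.log_pow, Real.log_pow, Real.log_pow, abs_le]
    push_cast
    constructor <;> linarith
  · have e1 := abs_le.1 ((nr x hx).1 t mem')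
    have e2 : 0 < ((D.W' : ℝ) * D.H) ^ n * (N0 G.T G.t1 D.vs).eval t :=
      mul_pos (by positivity) (p1.trans_le (p2 t mem').1)
    have e3 : (0 : ℝ) < aeval t (G.T.N (D.Γ.gA x)) := by nlinarith
    have e4 := VE.DApi.hv_cast (G.T.N (D.Γ.gA x)) (n * m) a ((D.k0 : ℤ) ^ 2) t
      (R.geo.tb.det m _ (mon x)).2.le ht
    have e5 : (0 : ℝ) < ((hv (G.T.N (D.Γ.gA x)) (n * m) a ((D.k0 : ℤ) ^ 2) : ℤ) : ℝ) := by
      rw [e4]
      push_cast
      positivity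
    rw [nm]
    exact_mod_cast e5

end Pool.Agent.MP_f3836a_nt.GV
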