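import Pool.Agent.MP_f3836a_nt.GV.SpecE2
import Pool.Agent.MP_f3836a_nt.VE.XTopL

/-! The construction of the system at one level. -/

set_option autoImplicit false

namespace Pool.Agent.MP_f3836a_nt.GV

open Polynomial Finset VE

namespace GXTopA

theorem arE_mono {n J : ℕ} {D Λ Λ' : ℝ} (h : ArE n J D Λ) (h1 : Λ ≤ Λ') : ArE n J D Λ' := by
  intro t0 H0 Hs ε s N c Q P0 f0 a1 a2 a3 a4 a5 a6 a7 a8 a9 a10
  obtain ⟨S, S0, f, P1, b1, b2, b3, b4, b5, b6⟩ :=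
    h t0 H0 Hs ε s N c Q P0 f0 a1 a2 a3 a4 a5 a6 a7 a8 a9 a10
  refine ⟨S, S0, f, P1, b1, b2, b3, b4, fun m tc e c1 c2 c3 => ?_, b6⟩
  obtain ⟨d1, d2⟩ := b5 m tc e c1 c2 c3
  exact ⟨d1.trans (mul_le_mul_of_nonneg_right h1
      (sum_nonneg fun a _ => mul_nonneg (c1 a).1 (sq_nonneg _))),
    d2.trans (mul_le_mul_of_nonneg_right h1
      (sum_nonneg fun a _ => mul_nonneg (c1 a).1 (sq_nonneg _)))⟩

theorem deg {A θ Y Ym Λ : ℝ} (hθ : 0 < θ) (h0 : A * 40 / θ ^ 2 ≤ Ym) (h1 : 1 < Ym)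
    (h2 : Ym ^ 10 = Y) (h3 : Real.log (2 * Y ^ 21) ≤ Ym) (h4 : 0 ≤ Λ) (h5 : Λ ≤ Ym) :
    A * Real.log (2 * Y ^ 21) * (Ym * Λ) ^ 3 ≤ θ ^ 2 / 40 * Y := by
  have hθ0 : 0 < θ ^ 2 := pow_pos hθ 2
  have hYm : 0 ≤ Ym := by linarith
  have hY : 1 ≤ Y := h2 ▸ one_le_pow₀ h1.le
  have e1 : A ≤ θ ^ 2 / 40 * Ym := by
    rw [div_le_iff₀ hθ0] at h0
    linarith
  have e2 : 0 ≤ Real.log (2 * Y ^ 21) :=
    Real.log_nonneg (by linarith only [one_le_pow₀ (n := 21) hY])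
  calc _ ≤ θ ^ 2 / 40 * Ym * Ym * (Ym * Ym) ^ 3 := by gcongr
    _ = θ ^ 2 / 40 * Ym ^ 8 := by ring
    _ ≤ θ ^ 2 / 40 * Ym ^ 10 := mul_le_mul_of_nonneg_left
        (pow_le_pow_right₀ h1.le (by norm_num)) (div_nonneg hθ0.le (by norm_num))
    _ = _ := by rw [h2]

theorem bdy {A W θ Y Ym Λ V Z1 Z2 H : ℝ} (hθ : 0 < θ) (hA : 0 ≤ A) (hW : 0 ≤ W) (h1 : 1 < Ym)
    (h2 : Ym ^ 10 = Y) (h4 : 0 ≤ Λ) (h5 : Λ ≤ Ym) (hV : 0 ≤ V) (hZ1 : 0 ≤ Z1) (hZ2 : 0 ≤ Z2)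
    (h : A * W * 40 / θ ^ 2 * Y * (V + 1) * Z1 * Z2 ≤ H) :
    A * (Ym * Λ) ^ 3 * W * (V + 1) * Z1 * Z2 ≤ θ ^ 2 / 40 * H := by
  have hθ0 : 0 < θ ^ 2 := pow_pos hθ 2
  have hYm : 0 ≤ Ym := by linarith
  have e1 : (Ym * Λ) ^ 3 ≤ Y :=
    calc (Ym * Λ) ^ 3 ≤ (Ym * Ym) ^ 3 := by gcongr
      _ = Ym ^ 6 := by ring
      _ ≤ Ym ^ 10 := pow_le_pow_right₀ h1.le (by norm_num)
      _ = Y := h2
  calc _ ≤ A * Y * W * (V + 1) * Z1 * Z2 := by gcongr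
    _ = θ ^ 2 / 40 * (A * W * 40 / θ ^ 2 * Y * (V + 1) * Z1 * Z2) := by field_simp
    _ ≤ _ := mul_le_mul_of_nonneg_left h (div_nonneg hθ0.le (by norm_num))

theorem win {θ Y Ym Λ : ℝ} (hθ : 0 < θ) (h0 : Λ / θ ^ 2 ≤ Ym) (h1 : 1 < Ym)
    (h2 : Ym ^ 10 = Y) : Λ * Ym ^ 3 ≤ θ ^ 2 * Y := by
  have hθ0 : 0 < θ ^ 2 := pow_pos hθ 2
  rw [div_le_iff₀ hθ0] at h0
  calc Λ * Ym ^ 3 ≤ Ym * θ ^ 2 * Ym ^ 3 :=
        mul_le_mul_of_nonneg_right h0 (pow_nonneg (by linarith) _)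
    _ = θ ^ 2 * Ym ^ 4 := by ring
    _ ≤ θ ^ 2 * Ym ^ 10 :=
        mul_le_mul_of_nonneg_left (pow_le_pow_right₀ h1.le (by norm_num)) hθ0.le
    _ = _ := by rw [h2]

theorem box (hBox : BoxS) {n r m : ℕ} [NeZero n] {G : Geo n r} (hG : G.Ok)
    {VS : Set (Ix G.T.e m → ℝ)} (hVS : VS.Finite) (hSp : ∀ vs ∈ VS, Sp G.T G.B vs)
    (As : Fin n → ℤ[X]) {ε : ℝ} (hε : 0 < ε) : ∃ Cn : ℝ, ∀ vs ∈ VS, ∀ W W' k H H1 : ℕ, 0 < W' →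
      0 < H1 → Cn * H1 ≤ H → Nr ⟨G.T, G.P, G.t1, m, W, W', k, As, fun j => ⌊(H : ℝ) * vs j⌋, H1⟩
        G.B vs ((W' : ℝ) * H) ε := by
  choose! Cn hCn using fun vs (hvs : vs ∈ VS) =>
    hBox n r G.T G.B G.t1 m As vs ε hG.two hG.tb hG.br (hSp vs hvs) hε
  obtain ⟨B, hB⟩ := (hVS.image Cn).bddAbove
  exact ⟨B, fun vs hvs W W' k H H1 h1 h2 h3 => hCn vs hvs G.P W W' k H H1 h1 h2
    ((mul_le_mul_of_nonneg_right (hB (Set.mem_image_of_mem Cn hvs)) (Nat.cast_nonneg _)).trans h3)⟩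

end GXTopA

open XTopL GXTopA in
theorem xTopA : OfTopA := by
  classical
  intro hDel hH hFam hBox hPrj hPw hHt hSc hMert n r m _ G p0 m1 J G1 ψ c φ cθ VS
    AF N M0 M1 a0 k1 kM W κ0 J0 Cb1 Cb Λ3 Λa ε0 di l hG hp hpW hG1 hm h5 hrad hId hVS hSp ct
  obtain ⟨⟨w1, w2, -⟩, ⟨b1, b2, b5, b6, b7, hCb, b9, b10, b11⟩, ⟨l1, l2, l4⟩, lv,
    ⟨d1, d2, d3, d4, d5⟩, har, q0, Ye, hEta⟩ := ct
  obtain ⟨⟨v1, v2, v3⟩, ⟨c1, c2, c3, c4, c5, c6, c7⟩, ⟨t1, t2, t3⟩, ⟨e1, e2, e3⟩, ⟨x1, -⟩,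
    ⟨g1, g2, g3, g4, g5⟩, ⟨y1, y2, y3⟩, ⟨z1, z2, z3, z4, z5⟩⟩ := lv
  obtain ⟨k, hκ⟩ : ∃ k, l.κ = k + 2 := ⟨l.κ - 2, by omega⟩
  have hk1 : 10000 ≤ k := by omega
  have hk2 : k1 ≤ k + 2 := by omega
  rw [hκ] at v1 v2 v3 l4 x1
  have hk0 : (0 : ℝ) ≤ k := Nat.cast_nonneg _
  have v4 : Cb * ((k : ℝ) + 2) ≤ l.Λ := by exact_mod_cast v3
  have hΛ : 2 * Cb ≤ l.Λ := by nlinarith only [hCb, hk0, v4]
  have hkΛ : 10 * ((k : ℝ) + 2) ≤ l.Λ := by nlinarith only [hCb, hk0, v4]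
  have hK : 0 < l.K := by
    rcases Nat.eq_zero_or_pos l.K with h | h
    · rw [h] at c3; norm_num at c3
    · exact h
  have hn : 0 < n := Nat.pos_of_ne_zero (NeZero.ne n)
  have hm0 : 0 < m := by have := h5 0; omega
  have hW : 0 < W := by omega
  have hW' : 0 < p0 ^ J * W := Nat.mul_pos (pow_pos hp.pos _) hW
  have hθ2 : l.θ ^ 2 ≤ 1 := pow_le_one₀ t1.le (by linarith only [t2])
  have hJ : (0 : ℝ) ≤ l.J1 := Nat.cast_nonneg _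
  have hCe : 80 * Cb * l.e ≤ l.θ ^ 2 := by
    refine le_trans ?_ g5
    have : 0 ≤ Cb * l.e := mul_nonneg (by linarith only [hCb]) g1.le
    linarith only [mul_nonneg this hJ, this]
  have hΛ0 : 0 ≤ l.Λ := by linarith only [hΛ, hCb]
  have hΛ1 : 1 ≤ l.Λ := by linarith only [hΛ, hCb]
  have hCΛ : 2 ≤ Cb * l.Λ := by nlinarith only [hCb, hΛ]
  have hε1 : Cb1 * l.ε ≤ l.θ ^ 2 / 40 := (mul_le_mul_of_nonneg_right b2 e1.le).trans e3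
  have hK1 : Cb1 * l.Λ ≤ Cb * l.Λ := mul_le_mul_of_nonneg_right b2 hΛ0
  have hdi : di ^ 2 ≤ 1 := pow_le_one₀ d1.le d2
  have h2e : 2 * l.e ≤ l.θ ^ 2 := by nlinarith only [hCe, hCb, g1]
  have hmis : 2 * (M0 : ℝ) ^ 3 * l.d' + ε0 ≤ l.e ^ 3 / 8 := by
    have := mul_le_mul_of_nonneg_right b5 y1.le
    linarith only [this, y3, d4, z2]
  have hη1 : 2 * l.η * l.Λ ^ AF ≤ 1 := by
    refine le_trans ?_ c2
    have := mul_le_mul_of_nonneg_left (show 2 ≤ l.Λ by linarith only [hΛ, hCb])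
      (mul_nonneg c1.le (pow_nonneg hΛ0 AF))
    rw [pow_succ]
    linarith only [this]
  have hη2 : l.θ * l.M ^ 3 * l.Λ ^ AF ≤ (2 * l.η) ^ 2 := by
    have h1 : l.θ * l.M ^ 3 * l.Λ ^ AF ≤ l.θ * l.M ^ 3 * l.Λ ^ (AF + 1) :=
      mul_le_mul_of_nonneg_left (pow_le_pow_right₀ hΛ1 (Nat.le_succ _))
        (mul_nonneg t1.le (pow_nonneg (by linarith only [hJ, c7]) _))
    nlinarith only [h1, t3, sq_nonneg l.η]
  have hεb : 0 < min (l.η / 2) (1 / 4) := lt_min (half_pos c1) (by norm_num)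
  have hη3 : 2 * min (l.η / 2) (1 / 4) + 1 / ((l.J1 : ℝ) + 1) ≤ 2 * l.η := by
    have h1 : 1 / ((l.J1 : ℝ) + 1) ≤ l.η := by
      rw [div_le_iff₀ (by linarith only [hJ])]; exact c4
    linarith only [h1, min_le_left (l.η / 2) (1 / 4)]
  have hcp : 0 ≤ Real.log ((G.t1 : ℝ) - G.B.t0) := by
    have h1 : ((G.B.t0 + 1 + 2 * n : ℤ) : ℝ) ≤ G.t1 := Int.cast_le.2 hG.br.far
    push_cast at h1
    exact Real.log_nonneg (by linarith only [h1, (Nat.cast_nonneg n : (0 : ℝ) ≤ n)])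
  have hAs : G.T.Mon m (pwr G.T.M G1 N) := by
    rw [hm]; exact ((hPw n).2 G.T m1 G1 N hG.tb hG1).1
  obtain ⟨Cn, hCn⟩ := GXTopA.box hBox hG hVS hSp (pwr G.T.M G1 N) hεb
  obtain ⟨Yt, hHt⟩ := hHt n r G hG
  obtain ⟨Ym1, hmer⟩ := mer hMert
  obtain ⟨Yd, hDel⟩ := hDel n G.T G.t1 G.P hG.alg hG.win l.Km l.K (l.J1 + 1) l.e Λ3 g2 hK
    (Nat.succ_pos _) g1 (by linarith only [h2e, hθ2, g1]) (by linarith only [b6])
    (by linarith only [mul_le_mul_of_nonneg_right b7 g1.le, hCe, hθ2,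
      mul_nonneg (zero_le_one.trans (b1.trans b2)) g1.le])
  obtain ⟨Yh, hH⟩ := hH n m (p0 ^ J * W) a0 (k + 2) (Real.log ((G.t1 : ℝ) - G.B.t0)) Cn
    (81000 * n ^ 2 * m * W * 40 / l.θ ^ 2) hn hW' hcp (l1.trans v2)
  obtain ⟨B, hB⟩ := exl [Yd, Yh, Ye, Ym1, q0, Yt, (W : ℝ) * (p0 ^ J * W : ℕ), l.Λ,
    4 * (l.K : ℝ), (l.J1 : ℝ) + 1, 5, (kM : ℝ), 900 * (n : ℝ) * 40 / l.θ ^ 2, l.Λ / l.θ ^ 2]
  simp only [List.forall_mem_cons, List.not_mem_nil, false_imp_iff, implies_true, and_true] at hB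
  obtain ⟨B1, B2, B3, B4, B5, B6, B8, B9, B10, B11, B15, B16, B17, B18⟩ := hB
  refine ⟨B, ?_⟩
  intro k0 Y Ym d i o H2 hYm ⟨sc, _, ⟨s0, s1, s3, s4⟩, s5, hr⟩ hd1 hd2 hH2 hL hMO
  have hY : B ≤ Y := hYm.trans s3
  have hY5 : 5 ≤ Y := B15.trans hY
  have hY2 : 2 ≤ Y := by linarith only [hY5]
  have hY1 : 1 ≤ Y := one_le_two.trans hY2
  have hY0 : 0 ≤ Y := zero_le_one.trans hY1
  obtain ⟨s, r1, r2, r3, r4⟩ := hr l.K (84 * m + 702 + a0) hK (by omega) (B10.trans hY)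
  rw [show 84 * m + 702 + a0 + 1 = 84 * m + 703 + a0 by ring] at r4
  have hYU : Y ≤ (l.K * s : ℕ) := (le_self_pow₀ hY1 (by omega)).trans r3
  obtain ⟨HH, P1, hF⟩ := hDel G.B.t0 W k0 (l.K * s) Y (fun a => (o a).G) H2 sc (B1.trans hY)
    hYU hH2 hL fun a ha => by
      have := (hMO a ha).2.1.mis
      rw [(hMO a ha).2.2, hd2] at this
      exact this.trans hmis
  have hHH : HH ⊆ HH0 G.B.t0 W k0 := hF.hh.1.trans hH2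
  obtain ⟨H, H1, v, V, X, ⟨a1, a2, a3⟩, a4, ⟨a8, a9⟩, a10, a15⟩ :=
    hH Y (l.K * s) (B2.trans hY) r3
  have hV : 0 ≤ V := le_trans (pow_nonneg hY0 _) a10.1
  have hQ := qm (W := W) (W' := (p0 ^ J * W : ℕ)) (Y := Y) hY2 (B8.trans hY)
  have hΛε : l.Λ * ε0 ≤ 1 := le_trans (mul_le_mul_of_nonneg_left d4 hΛ0) z4
  let D : Dat G m := ⟨W, p0 ^ J * W, k0, pwr G.T.M G1 N, H, H1, 0, 0, ψ, c, φ, cθ, Y, HH, P1,
    fun a => (o a).G, fun a => (o a).ρ, fun a => (o a).LL, k, l.K, s, l.J1, M1, N, v, X, l.Λ,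
    2 * Λ3, l.M, Ym, l.θ, 2 * l.η, min (l.η / 2) (1 / 4), Cb * l.Λ, V, l.e⟩
  have hmain : ∀ a ∈ HH, _ := fun a ha => (hMO a (hF.hh.1 ha)).2.1.main (D.Z a) (l.K * s) l.Km
    (2 * l.e) (fun z hz => by
      unfold Dat.Z at hz
      unfold Ps.pon
      rw [mem_filter] at hz ⊢
      exact ⟨⟨hF.p1.1 hz.1, hz.2.1⟩, hz.2.2⟩) (hF.cur a ha).2.1 (hF.cur a ha).1
    (by rw [(hMO a (hF.hh.1 ha)).2.2, hd1]; linarith only [g4]) hYU r4 g2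
    (le_trans (mul_le_mul_of_nonneg_left d4 (Nat.cast_nonneg _)) z5)
  refine ⟨D, rfl, rfl, rfl, rfl, rfl, rfl, hη1, hη2, fun vs hvs => ?_⟩
  obtain ⟨f0, hf0⟩ := hPrj n m G.B.t0 G.t1 (NR G.T (vP vs)) (Nat.mul_pos hn hm0) HH D.t
    (D.re vs 0).d0
  have gok : (D.re vs f0).Γ.Ok := by
    refine ⟨hG.tb, hG.alg, h5, hAs, ⟨hW, hW', (hSc W k0 Y sc).2.1, a2⟩, fun q hq h => ?_⟩
    rcases h with h | h | h
    · rcases (Nat.Prime.dvd_mul hq).1 h with h | h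
      · exact ((Nat.prime_dvd_prime_iff_eq hq hp).1 (hq.dvd_of_dvd_pow h)).symm ▸ hpW
      · exact h
    · exact sc.rad q hq h
    · exact w2 q hq h
  have ngr : Nr (D.re vs f0).Γ G.B vs (((p0 ^ J * W : ℕ) : ℝ) * H) (min (l.η / 2) (1 / 4)) :=
    hCn vs hvs W (p0 ^ J * W) k0 H H1 hW' a2 a3
  have pre : (D.re vs f0).Pre := by
    refine ⟨hG, gok, sc, hSp vs hvs, ⟨ngr, a1, min_le_right _ _⟩, fun a ha => ?_,
      ⟨m1, p0, G1, Dvd.intro_left _ rfl, hpW, hG1, hm, rfl, hrad⟩, hF.p1.1,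
      fun a ha => ⟨(hMO a (hF.hh.1 ha)).2.1.gd, (hMO a (hF.hh.1 ha)).2.1.rho,
        (hMO a (hF.hh.1 ha)).2.1.ll.2⟩, fun a ha T j β hj hT => ?_,
      ⟨Nat.mul_pos hK (two_pos.trans_le r1), r2, hk1, ?_, hkΛ, a9⟩, fun a ha had => ?_, a4,
      ⟨hV, hΛ1, s1.le, hY5, t1, t2, hCΛ⟩, deg t1 (B17.trans hYm) s1 s0 s4 hΛ0 (B9.trans hYm),
      bdy t1 (by positivity) (Nat.cast_nonneg _) s1 s0 hΛ0 (B9.trans hYm) hV
        (pow_nonneg (pow_nonneg hY0 _) _)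
        (pow_nonneg (mul_nonneg zero_le_two (pow_nonneg hY0 _)) _) a15⟩
    · have h1 := (hMO a (hF.hh.1 ha)).1
      obtain ⟨h2, h3, h4, h6⟩ := hHt W k0 Y a (B6.trans hY) sc h1.mem
      exact ⟨h1, ⟨h2, h3, h4⟩, h6⟩
    · exact ((hmain a ha).1 T j β (le_trans hj l4) hT).trans
        (mul_le_mul_of_nonneg_right (s5 ε0 d5) (hMO a (hF.hh.1 ha)).2.1.rho.le)
    · have : ((k + 2 : ℕ) : ℝ) ≤ (l.K * s : ℕ) := by
        have : ((k + 2 : ℕ) : ℝ) ≤ kM := by exact_mod_cast l4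
        exact this.trans (B16.trans (hY.trans hYU))
      exact_mod_cast this
    · refine (hmain a ha).2 k v X V _ l.ε l.Λ _ _ ⟨⟨d4.trans z3, e2, hΛε, hΛ1⟩,
        ⟨hQ, a10⟩, ⟨hε1, hK1⟩⟩ v1 l4 hk2 ?_ ?_ ?_ had
      · rw [(hMO a (hF.hh.1 ha)).2.2, hd1]
        exact (dec b1 b2 (sq_nonneg _) hdi hΛ0 le_rfl).trans (x1 (k + 2) (by omega))
      · refine le_trans ?_ g3
        have : (k : ℝ) + 2 ≤ l.Λ := by linarith only [hkΛ, hk0]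
        have h0 : 0 ≤ 2 * l.e + 1 / (l.Km : ℝ) :=
          add_nonneg (mul_nonneg zero_le_two g1.le) (div_nonneg zero_le_one (Nat.cast_nonneg _))
        exact mul_le_mul_of_nonneg_right (mul_le_mul hK1 this (by linarith only [hk0])
          (zero_le_two.trans hCΛ)) h0
      · rwa [Nat.cast_add, Nat.cast_ofNat] at a8
  obtain ⟨fam, mdl⟩ := hFam n r m G _ pre
  refine ⟨f0, hG, gok, sc, hSp vs hvs, ngr, hId, fun a ha => (hMO a (hF.hh.1 ha)).1, hf0, fam,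
    ⟨by show 100 ≤ l.Λ; linarith only [hΛ, hCb], B9.trans hYm, t1,
      by show l.θ ≤ 1; linarith only [t2], by show 0 < 2 * l.η; linarith only [c1],
      by show 1 ≤ 2 * Λ3; linarith only [b6],
      by show 2 * (2 * Λ3) ≤ l.Λ; linarith only [b7, hΛ, hCb],
      by show 2 * G.P.K ≤ l.Λ; linarith only [b9, hΛ],
      by show 2 * (n : ℝ) ^ 2 * m ≤ l.Λ; linarith only [b10, hΛ]⟩,
    ⟨le_trans (by norm_num) hk1, by show (k : ℝ) + 2 ≤ l.Λ; linarith only [hkΛ, hk0]⟩,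
    ⟨r1, by show 2 ≤ 2 * l.η * l.K; linarith only [c3], c6, c7, B11.trans hY⟩,
    ⟨a1, hεb.le, min_le_right _ _, hη3⟩, win t1 (B18.trans hYm) s1 s0, ⟨hHH, hF.hh.2⟩, hF.p1,
    fun a ha => (hF.cur a ha).2.2, ⟨g1.le, ?_⟩, hF.del, hF.shg, hF.r0.trans h2e, mdl,
    fun a ha => (hMO a (hF.hh.1 ha)).2.1.ll.1, ?_, ?_, hmer Y (B4.trans hY)⟩
  · refine le_trans ?_ g5
    show 2 * Λ3 * (2 * ((l.J1 : ℝ) + 1) + 80) * l.e ≤ _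
    exact mul_le_mul_of_nonneg_right (mul_le_mul_of_nonneg_right (by linarith only [b6, b7])
      (by linarith only [hJ])) g1.le
  · intro a1 b1 T S h1 h2 h3 h4
    exact hEta k0 Y (B3.trans hY) sc a1 b1 T S h1 h2 h3 fun z hz =>
      ⟨(h4 z hz).1, (h4 z hz).2.1, (B5.trans hY).trans (h4 z hz).2.2⟩
  · have hΛa : Λa ≤ l.Λ := by linarith only [b11, hΛ, hCb]
    have h1 := arC_mono (har (l.J1 + 1) c5).1 hΛa
    have h2 := arE_mono (har (l.J1 + 1) c5).2 hΛa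
    rw [show 4 * Λ3 = 2 * (2 * Λ3) by ring] at h1 h2
    exact ⟨h1, h2⟩

end Pool.Agent.MP_f3836a_nt.GV
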