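import Pool.Agent.MP_f3836a_nt.VE.BAll
import Pool.Agent.MP_f3836a_nt.VE.EDelB
import Pool.Agent.MP_f3836a_nt.VE.EEasy
import Pool.Agent.MP_f3836a_nt.VE.EEta
import Pool.Agent.MP_f3836a_nt.VE.EFuL
import Pool.Agent.MP_f3836a_nt.VE.EFuU
import Pool.Agent.MP_f3836a_nt.VE.EMert
import Pool.Agent.MP_f3836a_nt.VE.EMom
import Pool.Agent.MP_f3836a_nt.VE.XLv
import Pool.Agent.MP_f3836a_nt.GV.GEAr
import Pool.Agent.MP_f3836a_nt.GV.GEBox
import Pool.Agent.MP_f3836a_nt.GV.GEDelA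
import Pool.Agent.MP_f3836a_nt.GV.GEEm
import Pool.Agent.MP_f3836a_nt.GV.GEMass
import Pool.Agent.MP_f3836a_nt.GV.GEPrj
import Pool.Agent.MP_f3836a_nt.GV.GEPw
import Pool.Agent.MP_f3836a_nt.GV.GERng
import Pool.Agent.MP_f3836a_nt.GV.GEScl
import Pool.Agent.MP_f3836a_nt.GV.GESig
import Pool.Agent.MP_f3836a_nt.GV.GSAll
import Pool.Agent.MP_f3836a_nt.GV.GXBH
import Pool.Agent.MP_f3836a_nt.GV.GXCg
import Pool.Agent.MP_f3836a_nt.GV.GXCls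
import Pool.Agent.MP_f3836a_nt.GV.GXCore
import Pool.Agent.MP_f3836a_nt.GV.GXCv
import Pool.Agent.MP_f3836a_nt.GV.GXDel
import Pool.Agent.MP_f3836a_nt.GV.GXFam
import Pool.Agent.MP_f3836a_nt.GV.GXH
import Pool.Agent.MP_f3836a_nt.GV.GXMainC
import Pool.Agent.MP_f3836a_nt.GV.GXSh
import Pool.Agent.MP_f3836a_nt.GV.GXTopA

/-! Parts B, D, E, F assembled. -/

set_option autoImplicit false

namespace Pool.Agent.MP_f3836a_nt.GV

theorem goodG : GoodG := rGood ptG lsvG (rMass rFy)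

theorem topA : TopA :=
  xTopA (xDel ptG VE.rSc VE.rCel lsvG (rMass rFy) goodG VE.rNorm (rDelA VE.rFix) VE.rDelB) xH
    (xFam VE.rFuU (VE.rFuL VE.rFuU) ptG
      (rSh api (rEm rTb) rN0 (rCg rTb (rRng rTb) (rPw rTb))))
    rBox rPrj (rPw rTb) rHtG VE.rSc VE.rMert

theorem coreOf (h : CMain) : Core :=
  xCore rigC topA (xCls api bas)
    (xMainC h VE.BC.bMain (rBH api (rRng rTb) (rEm rTb) ptG VE.rSc rHtG) VE.rNorm VE.rFuU)
    (rCv VE.rSc (rSig VE.rCnt VE.rSc) goodG) VE.xLv rW rScl (rPw rTb) (rSp rTb)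
    (VE.rEta VE.rCnt VE.rSc lkS (VE.rPrec VE.rMert) (VE.rMom VE.rCnt)) VE.BC.arS
    (rArG VE.BC.rArD VE.BC.rArL)

end Pool.Agent.MP_f3836a_nt.GV
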