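import Pool.Agent.MP_f3836a_nt.GV.AAll
import Pool.Agent.MP_f3836a_nt.GV.GCore
import Pool.Agent.MP_f3836a_nt.GV.GCMain

/-! The final theorems. -/

set_option autoImplicit false

namespace Pool.Agent.MP_f3836a_nt.GV

theorem engS : GP.EngS := A.eng_of (coreOf C.cMain)

theorem finalV : GP.FinalV := GP.finalV_of engS

theorem finalG : GP.FinalG := GP.finalG_of engS

end Pool.Agent.MP_f3836a_nt.GV
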