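import Pool.Agent.MP_f3836a_nt.GV.SpecL

/-! Elements which kill the differentials make ideals invertible. -/

set_option autoImplicit false

namespace Pool.Agent.MP_f3836a_nt.GV.A

open Polynomial NumberField IsDedekindDomain TensorProduct

namespace ACas

variable {Λ B : Type} [CommRing Λ] [CommRing B] [Algebra Λ B]

theorem sep [Module.Finite Λ B] {s : B} (h : Kd (Set.range (algebraMap Λ B)) s) :
    ∃ (j : ℕ) (t : B ⊗[Λ] B), Algebra.TensorProduct.lmul' Λ t = s ^ j ∧
      ∀ b : B, (1 ⊗ₜ b) * t = (b ⊗ₜ 1) * t := by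
  set I := KaehlerDifferential.ideal Λ B
  have h1 : ∀ ω : Ω[B⁄Λ], s • ω = 0 := fun ω => by
    have : ω ∈ Submodule.span B (Set.range (KaehlerDifferential.D Λ B)) :=
      KaehlerDifferential.span_range_derivation Λ B ▸ Submodule.mem_top
    induction this using Submodule.span_induction with
    | mem x hx =>
      obtain ⟨b, rfl⟩ := hx
      exact h _ (KaehlerDifferential.D Λ B).toLinearMap.toAddMonoidHom
        (KaehlerDifferential.D Λ B).leibniz
        (by rintro _ ⟨z, rfl⟩; exact (KaehlerDifferential.D Λ B).map_algebraMap z) b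
    | zero => exact smul_zero _
    | add x y _ _ hx hy => rw [smul_add, hx, hy, add_zero]
    | smul c x _ hx => rw [smul_comm, hx, smul_zero]
  have : Module.Finite (B ⊗[Λ] B) I := Module.Finite.iff_fg.2 (KaehlerDifferential.ideal_fg Λ B)
  obtain ⟨p, hp, -, hc, h0⟩ :=
    LinearMap.exists_monic_and_natDegree_eq_and_coeff_mem_pow_and_aeval_eq_zero (B ⊗[Λ] B)
      (algebraMap _ (Module.End (B ⊗[Λ] B) I) (algebraMap B _ s)) I (by
    rintro _ ⟨x, rfl⟩
    rw [Submodule.mem_smul_top_iff, smul_eq_mul, ← sq, ← Ideal.toCotangent_eq_zero,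
      Module.algebraMap_end_apply]
    exact (map_smul (KaehlerDifferential.fromIdeal Λ B) _ x).trans
      ((algebraMap_smul _ s _).trans (h1 _)))
  refine ⟨p.natDegree, p.eval (algebraMap B _ s), ?_, fun b => ?_⟩
  · rw [eval_eq_sum_range, map_sum, Finset.sum_range_succ, hp.coeff_natDegree,
      Finset.sum_eq_zero fun k hk => ?_]
    · simp
    · have : p.coeff k ∈ I := Ideal.pow_le_self (by simp at hk; omega) (hc k)
      rw [map_mul, RingHom.mem_ker.1 this, zero_mul]
  · rw [aeval_algebraMap_apply_eq_algebraMap_eval] at h0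
    have := congrArg Subtype.val (LinearMap.congr_fun h0
      ⟨_, KaehlerDifferential.one_smul_sub_smul_one_mem_ideal Λ b⟩)
    rw [← sub_eq_zero, ← sub_mul, mul_comm]
    exact this

/-- contraction with a linear form -/
noncomputable def ct {M : Ideal B} (π : M →ₗ[Λ] Λ) (m : M) : B ⊗[Λ] B →ₗ[Λ] B :=
  (TensorProduct.rid Λ B).toLinearMap ∘ₗ
    LinearMap.lTensor B (π ∘ₗ (LinearMap.toSpanSingleton B M m).restrictScalars Λ)

theorem ct_tmul {M : Ideal B} (π : M →ₗ[Λ] Λ) (m : M) (u v : B) :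
    ct π m (u ⊗ₜ v) = π (v • m) • u := by simp [ct]

theorem ct_smul {M : Ideal B} (π : M →ₗ[Λ] Λ) (m : M) (b : B) (τ : B ⊗[Λ] B) :
    ct π (b • m) τ = ct π m ((1 ⊗ₜ b) * τ) ∧ b * ct π m τ = ct π m ((b ⊗ₜ 1) * τ) := by
  induction τ with
  | zero => simp
  | tmul u v => simp [ct_tmul, smul_smul, mul_comm]
  | add x y hx hy => simp [mul_add, hx.1, hy.1, hx.2, hy.2]

end ACas

open ACas in
theorem aCas : CasS := by
  intro Λ B _ _ _ _ s hs
  obtain ⟨j, t, h1, h2⟩ := sep hs
  refine ⟨j, fun M _ _ f hf => ?_⟩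
  obtain ⟨n, F, G, -, -, e⟩ := Module.Finite.exists_comp_eq_id_of_projective Λ M
  have lin : ∀ (π : M →ₗ[Λ] Λ) m b, ct π (b • m) t = b * ct π m t := fun π m b => by
    rw [(ct_smul π m b t).1, (ct_smul π m b t).2, h2]
  have sum : ∀ (m : M) (τ : B ⊗[Λ] B), Algebra.TensorProduct.lmul' Λ τ * m =
      ∑ i, (F (Pi.single i 1) : B) * ct (LinearMap.proj i ∘ₗ G) m τ := fun m τ => by
    induction τ with
    | zero => simp
    | tmul u v =>
      have h3 := congrArg Subtype.val (LinearMap.congr_fun e (v • m))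
      rw [LinearMap.comp_apply, ← Finset.univ_sum_single (G (v • m)), map_sum] at h3
      simp only [ct_tmul, Algebra.TensorProduct.lmul'_apply_tmul, mul_smul_comm, ← smul_mul_assoc,
        ← Finset.sum_mul]
      rw [mul_assoc, mul_comm]
      refine congrArg (· * u) (h3.symm.trans ?_)
      rw [Submodule.coe_sum]
      refine Finset.sum_congr rfl fun i _ => ?_
      rw [← Submodule.coe_smul_of_tower, ← map_smul, ← Pi.single_smul', smul_eq_mul, mul_one]
      rfl
    | add x y hx hy => simp only [map_add, add_mul, hx, hy, mul_add, Finset.sum_add_distrib]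
  rw [← h1, sum ⟨f, hf⟩ t]
  refine Submodule.sum_mem _ fun i _ => Ideal.mul_mem_mul (Subtype.prop _) (mem_Cn.2 fun m hm => ?_)
  refine ⟨ct (LinearMap.proj i ∘ₗ G) ⟨m, hm⟩ t, ?_⟩
  rw [mul_comm, ← lin, ← lin]
  exact congrArg (ct _ · t) (Subtype.ext (mul_comm m f))

theorem aTrc : OfTrc := by
  intro hA hS hC O B _ _ _ _ _ S μ δ hμ hδ
  let T : Ideal B :=
    { carrier := {d | Trc O d}
      add_mem' := fun ha hb M h1 h2 f hf => add_mul _ _ f ▸ add_mem (ha M h1 h2 f hf) (hb M h1 h2 f hf)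
      zero_mem' := fun M _ _ f _ => by simp
      smul_mem' := fun c a ha M h1 h2 f hf => by
        rw [smul_eq_mul, mul_assoc]
        exact Ideal.mul_mem_left _ c (ha M h1 h2 f hf) }
  refine (Ideal.span_le.2 ?_ : _ ≤ T.radical) hδ
  rintro s ⟨y, d, hd, hy, hk⟩
  let _ : Algebra O[X] B := (aeval y).toRingHom.toAlgebra
  have : IsScalarTower O O[X] B := .of_algebraMap_eq fun a => (aeval_C y a).symm
  have : NeZero d := ⟨hd.ne'⟩
  have e : algebraMap O[X] B X = y := aeval_X y
  obtain ⟨η, -⟩ := hA O B S μ d hμ (e ▸ hy)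
  have := Module.Finite.of_basis η
  obtain ⟨j, hj⟩ := hC O[X] B s fun N _ _ D h1 h2 => hk N D h1 fun z hz => h2 z (by
    rcases hz with rfl | ⟨a, rfl⟩
    exacts [⟨X, e⟩, ⟨C a, aeval_C y a⟩])
  exact ⟨j, fun M h1 h2 =>
    have ⟨a, b⟩ := hS O B (Module.Free.of_basis η) this M h1 h2
    hj M a b⟩

end Pool.Agent.MP_f3836a_nt.GV.A
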