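import Pool.Agent.MP_f3836a_nt.GV.SpecA

/-! Perturbation of one factor, and a consequence of the theorem of Dirichlet. -/

set_option autoImplicit false

namespace Pool.Agent.MP_f3836a_nt.GV.A

open Polynomial NumberField IsDedekindDomain VE VE.A

namespace ACr

variable {R : Type} [CommRing R]

theorem bez (T : Subring R) {m n : ℕ} (h : m.Coprime n) {x : R} (h1 : (m : R) * x ∈ T)
    (h2 : (n : R) * x ∈ T) : x ∈ T := by
  obtain ⟨u, v, e⟩ := Nat.isCoprime_iff_coprime.2 h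
  have e' : (u : R) * m + v * n = 1 := by simpa using congrArg (Int.cast : ℤ → R) e
  have : x = u * (m * x) + v * (n * x) := by linear_combination (-x) * e'
  rw [this]
  exact add_mem (mul_mem (intCast_mem T u) h1) (mul_mem (intCast_mem T v) h2)

theorem ord [Module.Finite ℤ R] {n : ℕ} (hn : n ≠ 0) {x : R} (h : IsCoprime x n) :
    ∃ E, 0 < E ∧ (n : R) ∣ x ^ E - 1 := by
  have h0 : Ideal.Quotient.mk (Ideal.span {(n : R)}) n = 0 :=
    Ideal.Quotient.eq_zero_iff_mem.2 (Ideal.mem_span_singleton_self _)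
  have : Finite (R ⧸ Ideal.span {(n : R)}) := Module.finite_of_fg_torsion _ fun y =>
    ⟨⟨n, mem_nonZeroDivisors_of_ne_zero (Nat.cast_ne_zero.2 hn)⟩, by
      rw [map_natCast] at h0
      simp [Submonoid.smul_def, h0]⟩
  have hu : IsUnit (Ideal.Quotient.mk (Ideal.span {(n : R)}) x) := by
    have := h.map (Ideal.Quotient.mk (Ideal.span {(n : R)}))
    rwa [h0, isCoprime_zero_right] at this
  obtain ⟨E, hE, e⟩ := isOfFinOrder_iff_pow_eq_one.1 (isOfFinOrder_of_finite hu.unit)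
  refine ⟨E, hE, Ideal.mem_span_singleton.1 (Ideal.Quotient.eq.1 ?_)⟩
  simpa using congrArg Units.val e

end ACr

theorem aCr : CrS := by
  intro R _ _ T c p h J δ γ β hc hp hh hT hδ e hβ hγ
  obtain ⟨a, c', hc', rfl⟩ := Nat.exists_eq_pow_mul_and_not_dvd hc p hp.ne_one
  have cp : c'.Coprime p := ((Nat.Prime.coprime_iff_not_dvd hp).2 hc').symm
  obtain ⟨E1, p1, d1⟩ := ACr.ord (n := p ^ (J + a)) (pow_ne_zero _ hp.ne_zero) (x := β)
    (by rw [Nat.cast_pow]; exact hβ.pow_right)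
  obtain ⟨E2, p2, d2⟩ := ACr.ord (right_ne_zero_of_mul hc) (hγ c' cp)
  obtain ⟨y, hy⟩ : ((p ^ (J + a) : ℕ) : R) ∣ β ^ (E1 * E2) - 1 := by
    rw [pow_mul]; exact d1.trans (sub_one_dvd_pow_sub_one _ _)
  obtain ⟨y', hy'⟩ : (c' : R) ∣ γ ^ (E1 * E2) - 1 := by
    rw [pow_mul']; exact d2.trans (sub_one_dvd_pow_sub_one _ _)
  refine ⟨E1 * E2, Nat.mul_pos p1 p2, fun J' => ?_⟩
  obtain ⟨k, hk⟩ : ∃ k, h * (E1 * E2) = k + 1 :=
    Nat.exists_eq_succ_of_ne_zero (Nat.mul_pos hh (Nat.mul_pos p1 p2)).ne'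
  have e1 : δ ^ k * δ = γ ^ (E1 * E2) * β ^ (E1 * E2) := by
    rw [← pow_succ, ← hk, pow_mul, e, mul_pow]
  generalize E1 * E2 = E at *
  obtain ⟨u, v, huv⟩ : IsCoprime (β ^ E * c') ((p : R) ^ J') :=
    (hβ.pow_left.mul_left (Nat.Coprime.cast cp)).pow_right
  have ht := hT (-(δ * y * u))
  have key : γ ^ E = δ ^ k * (δ + (p : R) ^ J * ((p ^ a * c' : ℕ) * -(δ * y * u))) +
      (p : R) ^ J' * -(γ ^ E * p ^ (J + a) * y * v) := by
    push_cast at hy ⊢
    linear_combination (-1 + p ^ (J + a) * c' * y * u) * e1 - γ ^ E * hy +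
      γ ^ E * p ^ (J + a) * y * huv
  rw [hk, Nat.add_sub_cancel]
  refine ⟨_, ht, _, ACr.bez T (cp.pow_right (J' + a)) ?_ ?_, key⟩
  · convert hT (-(γ ^ E * p ^ J * y * v)) using 1
    push_cast; ring
  · have h1 := mul_mem (pow_mem hδ k) (add_mem hδ (mul_mem (pow_mem (natCast_mem T p) J) ht))
    have h2 := pow_mem (natCast_mem T p) a
    convert sub_mem (add_mem h2 (hT y')) (mul_mem h2 h1) using 1
    push_cast at key ⊢
    linear_combination (p : R) ^ a * hy' - (p : R) ^ a * key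

open Units Units.dirichletUnitTheorem InfinitePlace in
theorem aDir : DirS := by
  intro K _ _ r σ c h0 h
  classical
  obtain ⟨d, hd⟩ : ∃ d : InfinitePlace K → ℝ, ∀ v,
      d v = ∑ w ∈ Finset.univ.filter fun w => InfinitePlace.mk (σ w) = v, c w := ⟨_, fun _ => rfl⟩
  have h1 : ∑ v, d v = 0 := by
    simp only [hd]
    exact (Finset.sum_fiberwise Finset.univ (fun w => InfinitePlace.mk (σ w)) c).trans h0
  have h2 : ∀ u : (𝓞 K)ˣ, ∑ v, d v * Real.log (v ((u : 𝓞 K) : K)) = 0 := fun u => by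
    rw [← h u, ← Finset.sum_fiberwise Finset.univ fun w => InfinitePlace.mk (σ w)]
    refine Finset.sum_congr rfl fun v _ => ?_
    rw [hd, Finset.sum_mul]
    exact Finset.sum_congr rfl fun w hw => by rw [← (Finset.mem_filter.1 hw).2, apply]
  have m0 : ∀ v : InfinitePlace K, (mult v : ℝ) ≠ 0 := fun v => Nat.cast_ne_zero.2 mult_ne_zero
  obtain ⟨t, ht⟩ : ∃ t : ℝ, d w₀ = t * mult (w₀ : InfinitePlace K) :=
    ⟨_, (div_mul_cancel₀ _ (m0 _)).symm⟩
  let L : logSpace K →ₗ[ℝ] ℝ := ∑ v : {w : InfinitePlace K // w ≠ w₀},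
    (d v / mult v.1 - t) • LinearMap.proj v
  have hL : ∀ x, L x = ∑ v : {w : InfinitePlace K // w ≠ w₀}, (d v / mult v.1 - t) * x v :=
    fun x => by simp [L]
  have h3 : L = 0 := by
    refine LinearMap.ext_on (unitLattice_span_eq_top K) ?_
    rintro _ ⟨u, -, rfl⟩
    have e1 := h2 u.toMul
    have e2 := sum_logEmbedding_component u.toMul
    rw [Fintype.sum_eq_add_sum_subtype_ne _ w₀, ht] at e1
    change L (logEmbedding K (Additive.ofMul u.toMul)) = 0
    have e3 : ∀ v : {w : InfinitePlace K // w ≠ w₀},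
        d v / mult v.1 * logEmbedding K (Additive.ofMul u.toMul) v =
          d v * Real.log (v.1 ((u.toMul : 𝓞 K) : K)) := fun v => by
      rw [logEmbedding_component, ← mul_assoc, div_mul_cancel₀ _ (m0 _)]
    simp only [hL, sub_mul, Finset.sum_sub_distrib, ← Finset.mul_sum, e2, e3]
    linear_combination e1
  have h4 : ∀ v, d v = t * mult v := fun v => by
    by_cases hv : v = w₀
    · rw [hv, ht]
    · have := hL (Pi.single ⟨v, hv⟩ 1)
      simp only [h3, LinearMap.zero_apply, Pi.single_apply, mul_ite, mul_one, mul_zero,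
        Finset.sum_ite_eq', Finset.mem_univ, if_true] at this
      rw [← div_eq_iff (m0 v)]
      linarith
  have hm : (∑ w : InfinitePlace K, (mult w : ℝ)) ≠ 0 := by
    rw [← Nat.cast_sum, sum_mult_eq]
    exact Nat.cast_ne_zero.2 Module.finrank_pos.ne'
  simp only [h4, ← Finset.mul_sum] at h1
  intro v
  have := h4 v
  rw [(mul_eq_zero.1 h1).resolve_right hm, zero_mul, hd] at this
  convert this

end Pool.Agent.MP_f3836a_nt.GV.A
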