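import Pool.Agent.MP_f3836a_nt.GV.SpecL

/-! Away from the integers the differentials are generated by those of monic elements. -/

set_option autoImplicit false

namespace Pool.Agent.MP_f3836a_nt.GV.A

open Polynomial NumberField IsDedekindDomain

namespace ADif

variable {B : Type} [CommRing B]

theorem td [Nontrivial B] (h1 : Algebra.trdeg ℤ B ≤ 1) : VE.Z.Td B := fun a b => by
  by_contra! h
  have h2 : AlgebraicIndependent ℤ fun o : Option Unit => o.elim a fun _ => b := by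
    refine AlgebraicIndependent.option_iff.2 ⟨algebraicIndependent_unique_type_iff.2
      fun ⟨Q, q, e⟩ => h (C Q) (C_ne_zero.2 q) (by rw [eval₂_C]; exact e), fun ⟨Q, q, e⟩ => ?_⟩
    let s : ℤ[X] →+* Algebra.adjoin ℤ (Set.range fun _ : Unit => b) :=
      (aeval b : ℤ[X] →ₐ[ℤ] B).toRingHom.codRestrict _ fun A => by
        rw [Set.range_const]; exact aeval_mem_adjoin_singleton ℤ b
    obtain ⟨P, rfl⟩ := map_surjective s (fun ⟨w, hw⟩ => by
      rw [Set.range_const, Algebra.adjoin_singleton_eq_range_aeval] at hw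
      exact hw.imp fun _ e => Subtype.ext e) Q
    refine h P (fun k => q (by rw [k, Polynomial.map_zero])) ?_
    rw [aeval_def, eval₂_map] at e
    exact e
  have h3 := h2.cardinalMk_le_trdeg.trans h1
  simp at h3

theorem kd {s t y u : B} (h : GP.Cy1 s t)
    (e : s • KaehlerDifferential.D ℤ B y = u • KaehlerDifferential.D ℤ B t) :
    Kd (insert y ∅) (s * u) := fun N _ _ D hD hy b => by
  let D' : Derivation ℤ B N := Derivation.mk' D.toIntLinearMap hD
  have k : ∀ {b c : B}, s • KaehlerDifferential.D ℤ B b = c • KaehlerDifferential.D ℤ B t →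
      s • D b = c • D t := fun e => by
    have := congrArg D'.liftKaehlerDifferential e
    rwa [map_smul, map_smul, D'.liftKaehlerDifferential_comp_D,
      D'.liftKaehlerDifferential_comp_D] at this
  obtain ⟨c, hc⟩ := h b
  rw [mul_comm, mul_smul, k hc, smul_comm, ← k e, hy y (Set.mem_insert _ _), smul_zero, smul_zero]

end ADif

open ADif in
theorem aDif : OfDif := by
  intro hF hA hG K 𝒜 _ _ _ _ S μ fm reg
  have f := hF _ _ S μ fm
  obtain ⟨c, hc⟩ := fm.cof
  have mx := f.bas ⟨c + 1, hc _ c.le_succ⟩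
  generalize μ ⟨c + 1, hc _ c.le_succ⟩ = x at mx
  let _ : Algebra (𝓞 K)[X] 𝒜 := (aeval x : (𝓞 K)[X] →ₐ[𝓞 K] 𝒜).toRingHom.toAlgebra
  have : IsScalarTower (𝓞 K) (𝓞 K)[X] 𝒜 := .of_algebraMap_eq fun a => (aeval_C x a).symm
  obtain ⟨η, -⟩ := hA _ _ S μ (c + 1) fm (by
    change Mo μ _ (aeval x (X : (𝓞 K)[X]))
    rwa [aeval_X])
  have := f.dom inferInstance
  have := Module.Finite.of_basis η
  have := Module.Free.of_basis η
  have inj := FaithfulSMul.algebraMap_injective (𝓞 K)[X] 𝒜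
  have tx : Transcendental (𝓞 K) x := transcendental_iff_injective.2 inj
  have : CharZero 𝒜 := charZero_of_injective_algebraMap inj
  have : Algebra.FiniteType ℤ 𝒜 := .trans (S := (𝓞 K)[X]) (.trans (S := 𝓞 K) inferInstance
    inferInstance) inferInstance
  obtain ⟨M, M0, hM⟩ := hG 𝒜 (td (by
    rw [← trdeg_add_eq ℤ (𝓞 K)[X], trdeg_eq_zero (R := (𝓞 K)[X]), add_zero, ← trdeg_add_eq ℤ (𝓞 K),
      trdeg_eq_zero, zero_add, Polynomial.trdeg_of_isDomain]))
    ⟨x, tx.restrictScalars (FaithfulSMul.algebraMap_injective ℤ _)⟩ reg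
  by_contra! h
  obtain ⟨q, hq, h1, h2⟩ := (Ideal.span (Df μ ∅)).exists_le_prime_disjoint
    ((nonZeroDivisors ℕ).map (Nat.castRingHom 𝒜)) (Set.disjoint_right.2 (by
      rintro _ ⟨n, hn, rfl⟩
      exact h n (nonZeroDivisors.ne_zero hn)))
  refine Set.disjoint_right.1 h2 ⟨M, mem_nonZeroDivisors_of_ne_zero M0, rfl⟩
    (Ideal.span_le.2 ?_ hM)
  rintro s ⟨t, ht⟩
  by_contra hs
  obtain ⟨l, hl⟩ := ht x
  obtain ⟨d, hd⟩ := f.bdd t
  have a1 := (hq.mem_or_mem (h1 (Ideal.subset_span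
    ⟨x, _, c.succ_pos, mx, kd ht hl⟩))).resolve_left hs
  have a2 := (hq.mem_or_mem (h1 (Ideal.subset_span ⟨x ^ (d + 1) + t, _, by positivity,
    f.add _ _ _ (f.pow _ _ (d + 1) mx) fun e he => hd e (le_trans (by simp only; nlinarith) he),
    kd (u := ((d + 1 : ℕ) * x ^ d) * l + s) ht (by
      rw [map_add, Derivation.leibniz_pow, Nat.add_sub_cancel, ← Nat.cast_smul_eq_nsmul 𝒜,
        ← mul_smul _ (x ^ d), smul_add, smul_comm, hl, ← mul_smul, ← add_smul])⟩))).resolve_left hs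
  exact hs (by simpa using sub_mem a2 (q.mul_mem_left ((d + 1 : ℕ) * x ^ d) a1))

end Pool.Agent.MP_f3836a_nt.GV.A
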