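import Pool.Agent.MP_f3836a_nt.GV.SpecA

/-! Block A: the complex embeddings of a fibre. -/

set_option autoImplicit false

namespace Pool.Agent.MP_f3836a_nt.GV.A

open Polynomial NumberField IsDedekindDomain VE VE.A

namespace AEmb

variable {n r : ℕ} {κ : Type} [Field κ] [NumberField κ] {z : Module.Basis (Fin n) ℚ κ}

theorem fib_cast (T : Tb n) (t : ℚ) (R : Type) [Field R] [CharZero R] (i l j : Fin n) :
    T.fib (t : R) i l j = (aeval t (T.M i l j) : ℚ) :=
  aeval_algebraMap_apply R t (T.M i l j)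

theorem ex_hom [NeZero n] {T : Tb n} {t : ℚ} {s : Fin n → ℂ} (h : Hm (T.fib (t : κ)) z)
    (h' : Hm (fun i => (T.fib (t : ℝ) i).map Complex.ofReal) s) :
    ∃ τ : κ →+* ℂ, ∀ i, τ (z i) = s i := by
  refine ⟨(AlgHom.ofLinearMap (z.constr ℚ s) (by rw [← h.1, z.constr_basis, h'.1])
    ((LinearMap.map_mul_iff _).2 (z.ext fun i => z.ext fun j => ?_))).toRingHom,
    z.constr_basis ℚ s⟩
  change z.constr ℚ s (z i * z j) = z.constr ℚ s (z i) * z.constr ℚ s (z j)
  simp only [h.2, h'.2, map_sum, fib_cast, Matrix.map_apply, z.constr_basis, Complex.ofReal_ratCast,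
    ← Rat.smul_def, map_smul]

theorem surj {τ : Fin r → κ →+* ℂ}
    (h : ∀ β : Fin n → ℝ, (∀ w, emb (fun i => τ w (z i)) β = 0) → β = 0) (v : InfinitePlace κ) :
    ∃ w, InfinitePlace.mk (τ w) = v := by
  by_contra hv
  let L : (Fin n → ℂ) →ₗ[ℂ] κ → ℂ := LinearMap.pi fun x => ∑ i, z.repr x i • LinearMap.proj i
  have hL : ∀ σ : κ →+* ℂ, L (fun i => σ (z i)) = σ.toMonoidHom := fun σ => funext fun x => by
    conv_rhs => rw [← z.sum_repr x]
    simp [L, Rat.smul_def]
  obtain ⟨f, f1, f2⟩ := Submodule.exists_le_ker_of_notMem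
    ((linearIndependent_monoidHom κ ℂ).notMem_span_image (x := v.embedding.toMonoidHom)
      (s := {σ | ∃ σ' : κ →+* ℂ, σ'.toMonoidHom = σ ∧ InfinitePlace.mk σ' ≠ v}) fun ⟨σ, a, b⟩ =>
        b (by rw [RingHom.coe_monoidHom_injective a, v.mk_embedding]))
  obtain ⟨β, hβ⟩ : ∃ β : Fin n → ℂ, ∀ σ : κ →+* ℂ, f σ.toMonoidHom = ∑ i, σ (z i) * β i :=
    ⟨_, fun σ => by rw [← hL]; exact (f ∘ₗ L).pi_apply_eq_sum_univ _⟩
  have k : ∀ σ : κ →+* ℂ, InfinitePlace.mk σ ≠ v → ∑ i, σ (z i) * β i = 0 := fun σ e =>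
    (hβ σ).symm.trans (f2 (Submodule.subset_span ⟨_, ⟨σ, rfl, e⟩, rfl⟩))
  have k1 := fun w => k (τ w) fun e => hv ⟨w, e⟩
  have k2 : ∀ w, ∑ i, τ w (z i) * (starRingEnd ℂ) (β i) = 0 := fun w => by
    simpa using congrArg (starRingEnd ℂ) (k (ComplexEmbedding.conjugate (τ w)) fun e =>
      hv ⟨w, (InfinitePlace.mk_conjugate_eq _).symm.trans e⟩)
  have a := h (fun i => (β i).re) fun w => by
    simp only [emb, Complex.re_eq_add_conj, ← mul_div_assoc, mul_add, ← Finset.sum_div,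
      Finset.sum_add_distrib, mul_comm _ (τ w _), k1, k2, add_zero, zero_div]
  have b := h (fun i => (β i).im) fun w => by
    simp only [emb, Complex.im_eq_sub_conj, ← mul_div_assoc, mul_sub, ← Finset.sum_div,
      Finset.sum_sub_distrib, mul_comm _ (τ w _), k1, k2, sub_zero, zero_div]
  refine f1 ((hβ _).trans (Finset.sum_eq_zero fun i _ => ?_))
  rw [show β i = 0 from Complex.ext (congrFun a i) (congrFun b i), mul_zero]

end AEmb

open AEmb in
theorem aEmb : OfEmb := by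
  intro ha hb n r _ κ _ _ T t z Φ l _ hz hE hl
  choose τ hτ using fun w => ex_hom hz (hE.hom w)
  choose s hs using surj (z := z) (τ := τ) fun β h => hE.inj β (by simpa only [hτ] using h)
  obtain ⟨c, c0, hc⟩ := ha κ l hl
  have key : ∀ g : Fin r → ℝ, ∑ w, (∑ v with s v = w, c v) * g w = ∑ v, c v * g (s v) := fun g => by
    rw [← Finset.sum_fiberwise Finset.univ s]
    refine Finset.sum_congr rfl fun w _ => ?_
    rw [Finset.sum_mul]
    exact Finset.sum_congr rfl fun v hv => by rw [(Finset.mem_filter.1 hv).2]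
  obtain ⟨φ, hφ⟩ := hb κ (fun u => l u - ∑ w, (∑ v with s v = w, c v) * Real.log ‖τ w u‖)
    (fun u u' h h' => by
      have k := RingOfIntegers.coe_ne_zero_iff.2 h
      have k' := RingOfIntegers.coe_ne_zero_iff.2 h'
      have e : ∀ w, Real.log ‖τ w (u * u' : 𝓞 κ)‖ = Real.log ‖τ w u‖ + Real.log ‖τ w u'‖ :=
        fun w => by
          rw [← Real.log_mul (by simpa using h) (by simpa using h'), ← norm_mul, ← map_mul]
          rfl
      simp only [e, mul_add, Finset.sum_add_distrib]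
      rw [show ((u * u' : 𝓞 κ) : κ) = u * u' from rfl, hl _ _ k k']
      ring)
    fun u => by simp only [key, hc, ← InfinitePlace.apply, hs, sub_self]
  exact ⟨τ, _, φ, hτ, by simpa [c0] using key 1, hφ⟩

end Pool.Agent.MP_f3836a_nt.GV.A
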