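import Pool.Agent.MP_f3836a_nt.GV.SpecL

/-! The completion of the ring of integers at a prime. -/

set_option autoImplicit false

namespace Pool.Agent.MP_f3836a_nt.GV.A

open Polynomial NumberField IsDedekindDomain

namespace AExo

open IsLocalRing HeightOneSpectrum WithZero

section
variable {L : Type} [Field L] [Valued L (WithZero (Multiplicative ℤ))] {p : L}

theorem vp (h : Valued.v p = exp (-1 : ℤ)) (t : ℕ) : Valued.v (p ^ t) = exp (-(t : ℤ)) := by
  rw [map_pow, h, ← exp_nsmul]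
  simp

theorem clo (h : Valued.v p = exp (-1 : ℤ)) (t : ℕ) (b : L) :
    IsClopen {x : L | Valued.v (b - x) ≤ exp (-(t : ℤ))} := by
  have := (Valued.isClopen_closedBall L (r := Valued.v.restrict (p ^ t))
    (by simpa using fun e : p = 0 => absurd h.symm (by simp [e]))).preimage
    (f := fun x => b - x) (by fun_prop)
  simpa only [Set.preimage_ofPred_eq, Valuation.restrict_le_iff, vp h] using this

theorem lim [CompleteSpace L] (h : Valued.v p = exp (-1 : ℤ)) (f : ℕ → L)
    (hf : ∀ m n, m ≤ n → Valued.v (f m - f n) ≤ exp (-(m : ℤ))) :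
    ∃ x, ∀ m, Valued.v (f m - x) ≤ exp (-(m : ℤ)) := by
  obtain ⟨x, hx⟩ := cauchySeq_tendsto_of_complete (u := f)
    ((Valued.hasBasis_uniformity L _).cauchySeq_iff'.2 fun γ _ => by
      have g0 : MonoidWithZeroHom.ValueGroup₀.embedding γ.1 ≠ 0 := by simp
      refine ⟨(log (MonoidWithZeroHom.ValueGroup₀.embedding γ.1)).natAbs + 1, fun n hn =>
        Valued.v.restrict_lt_iff_lt_embedding.2 ((hf _ n hn).trans_lt ?_)⟩
      conv_rhs => rw [← exp_log g0]
      rw [exp_lt_exp]
      omega)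
  exact ⟨x, fun m => (clo h m (f m)).1.mem_of_tendsto hx (Filter.eventually_atTop.2 ⟨m, hf m⟩)⟩

end

variable {K : Type} [Field K] [NumberField K] {q : HeightOneSpectrum (𝓞 K)}
  {ϖ : q.adicCompletionIntegers K}

theorem val (a : 𝓞 K) : Valued.v (algebraMap (𝓞 K) (q.adicCompletionIntegers K) a :
    q.adicCompletion K) = q.intValuation a :=
  (valuedAdicCompletion_eq_valuation q a).trans (valuation_of_algebraMap q a)

theorem dv (h : Valued.v (ϖ : q.adicCompletion K) = exp (-1 : ℤ)) (t : ℕ)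
    (b : q.adicCompletionIntegers K) :
    ϖ ^ t ∣ b ↔ Valued.v (b : q.adicCompletion K) ≤ exp (-(t : ℤ)) := by
  rw [(adicCompletionIntegers.integers K q).dvd_iff_le, map_pow, ← vp h]
  rfl

theorem mx (h : Valued.v (ϖ : q.adicCompletion K) = exp (-1 : ℤ)) :
    maximalIdeal (q.adicCompletionIntegers K) = Ideal.span {ϖ} := by
  ext b
  rw [mem_maximalIdeal, mem_nonunits_iff, adicCompletionIntegers.isUnit_iff_valued_eq_one,
    Ideal.mem_span_singleton, ← pow_one ϖ, dv h, ← ne_eq, ne_iff_lt_iff_le.2 b.2, ← exp_zero]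
  by_cases e : Valued.v (b : q.adicCompletion K) = 0
  · simp [e]
  · rw [← exp_log e, exp_lt_exp, exp_le_exp]
    omega

theorem cpl (h : Valued.v (ϖ : q.adicCompletion K) = exp (-1 : ℤ)) :
    IsAdicComplete (maximalIdeal (q.adicCompletionIntegers K)) (q.adicCompletionIntegers K) where
  prec' f hf := by
    simp only [SModEq.sub_mem, smul_eq_mul, Ideal.mul_top, mx h, Ideal.span_singleton_pow,
      Ideal.mem_span_singleton, dv h] at hf ⊢
    obtain ⟨x, hx⟩ := lim h (fun n => f n) fun m n e => hf e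
    refine ⟨⟨x, ?_⟩, hx⟩
    rw [mem_adicCompletionIntegers, ← sub_sub_cancel (f 0).1 x]
    exact Valuation.map_sub_le _ (f 0).2 (hx 0)

theorem den (h : Valued.v (ϖ : q.adicCompletion K) = exp (-1 : ℤ))
    (b : q.adicCompletionIntegers K) (t : ℕ) : ∃ a : 𝓞 K, ϖ ^ t ∣ b - algebraMap _ _ a := by
  obtain ⟨k, hk⟩ := (denseRange_algebraMap K q).exists_mem_open (clo h t b.1).2 ⟨b.1, by simp⟩
  have vk : ∀ x, Valued.v (algebraMap K (q.adicCompletion K) x) = q.valuation K x :=
    valuedAdicCompletion_eq_valuation' q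
  have k1 : q.valuation K k ≤ 1 := by
    rw [← vk, ← sub_sub_cancel b.1 (algebraMap K _ k)]
    refine Valuation.map_sub_le _ b.2 (le_trans hk ?_)
    rw [← exp_zero, exp_le_exp]
    omega
  obtain ⟨a, ha⟩ := q.exists_valuation_sub_lt_of_integer k1 (Units.mk0 (exp (-(t : ℤ))) exp_ne_zero)
  refine ⟨a, (dv h t _).2 ?_⟩
  rw [← vk, map_sub] at ha
  have := Valuation.map_add_le _ hk ((Valuation.map_sub_swap _ _ _).trans_le ha.le)
  rwa [sub_add_sub_cancel] at this

end AExo

open AExo

theorem aExo : ExoS := by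
  intro K _ _ q
  obtain ⟨π, hπ⟩ := q.intValuation_exists_uniformizer
  have h := (val π).trans hπ
  have := cpl h
  have hm : ∀ (a : 𝓞 K) t, algebraMap (𝓞 K) (q.adicCompletionIntegers K) π ^ t ∣ algebraMap _ _ a ↔
      a ∈ q.asIdeal ^ t := fun a t => by rw [dv h, val, q.intValuation_le_pow_iff_mem]
  refine ⟨q.adicCompletionIntegers K, inferInstance, inferInstance, inferInstance,
    ⟨fun f a b c d => HenselianRing.is_henselian f a b c (d.map _)⟩, inferInstance, _,
    (IsDiscreteValuationRing.irreducible_iff_uniformizer _).2 (mx h),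
    FaithfulSMul.algebraMap_injective _ _, hm, den h, fun t => ?_⟩
  have : Finite (𝓞 K ⧸ q.asIdeal ^ t) :=
    Ideal.finiteQuotientOfFreeOfNeBot _ (pow_ne_zero t q.ne_bot)
  refine Finite.of_surjective (Ideal.quotientMap (I := q.asIdeal ^ t) (Ideal.span {_ ^ t})
    (algebraMap _ _) fun a ha => Ideal.mem_comap.2
      (Ideal.mem_span_singleton.2 ((hm a t).2 ha))) fun x => ?_
  obtain ⟨b, rfl⟩ := Ideal.Quotient.mk_surjective x
  obtain ⟨a, ha⟩ := den h b t
  exact ⟨Ideal.Quotient.mk _ a, (Ideal.Quotient.eq.2 (Ideal.mem_span_singleton.2 ha)).symm⟩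

end Pool.Agent.MP_f3836a_nt.GV.A
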