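import Pool.Agent.MP_f3836a_nt.GV.SpecA

/-! Fibres which are fields, and reduction at a point. -/

set_option autoImplicit false

namespace Pool.Agent.MP_f3836a_nt.GV.A

open Polynomial NumberField IsDedekindDomain VE VE.A

namespace AFb

variable {n : ℕ}

theorem nm_map {R S : Type} [CommRing R] [CommRing S] (f : R →+* S) (M : Tab R n) (β : Fin n → R) :
    Nm (fun i => (M i).map f) (fun i => f (β i)) = f (Nm M β) := by
  rw [Nm, Nm, RingHom.map_det]
  congr 1
  ext i j
  simp [Mx, Matrix.sum_apply]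

variable [NeZero n] {T : Tb n} {a b : ℤ} {R : Type} [CommRing R] {t : R} {s : Fin n → R}

theorem hm (hT : TbS) (h : T.Ok) (ht : (a : R) = b * t) (hs : Hm (T.fib t) s) :
    Hm (fun i => (T.Mh a b i).map (Int.cast : ℤ → R)) fun i => (b : R) ^ T.e i * s i := by
  obtain ⟨h1, h2⟩ := hs
  have h3 := ((hT n T a b h).1 _ _ ht).1
  simp only [Hm, Matrix.map_apply]
  refine ⟨by rw [h.e0, h1, pow_zero, mul_one], fun i j => ?_⟩
  simp only [← mul_assoc, h3]
  simp only [mul_assoc, ← Finset.mul_sum, ← h2]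
  ring

theorem vl (hT : TbS) (h : T.Ok) (ht : (a : R) = b * t) {m : ℕ} {A : Fin n → ℤ[X]}
    (hA : T.Mon m A) (s : Fin n → R) :
    ∑ i, (T.val m A a b i : R) * ((b : R) ^ T.e i * s i) =
      (b : R) ^ m * ∑ i, aeval t (A i) * s i := by
  have e := (((hT n T a b h).1 _ _ ht).2 _ _ hA).1
  rw [Finset.mul_sum]
  refine Finset.sum_congr rfl fun i _ => ?_
  rw [e]
  by_cases hi : T.e i ≤ m
  · rw [← Nat.sub_add_cancel hi, Nat.add_sub_cancel]
    ring
  · have h0 : i ≠ 0 := by
      rintro rfl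
      exact hi (h.e0.le.trans (Nat.zero_le _))
    have : A i = 0 := Polynomial.ext fun d => hA.2.2 i h0 d (by omega)
    simp [this]

end AFb

open AFb

theorem aRp : OfRp := by
  intro hT n _ T P t1 a b z h hA hz ho hb
  obtain ⟨hp, -, -, -⟩ := hA.bas _ _ hz.1
  have := Fact.mk hp
  have hb' : (b : ZMod z.p) ≠ 0 := fun e => hb ((ZMod.intCast_zmod_eq_zero_iff_dvd _ _).1 e)
  have ht : (a : ZMod z.p) = b * (z.t : ZMod z.p) := by
    have := (ZMod.intCast_zmod_eq_zero_iff_dvd _ _).2 ho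
    push_cast at this
    exact (sub_eq_zero.1 this).symm
  refine ⟨?_, fun m A hm hZ => ?_, fun β hβ i => ?_⟩
  · simpa only [Int.cast_mul, Int.cast_pow] using hm hT h ht (hA.hom _ hz)
  · have e := vl hT h ht hm fun i => (P.sv z i : ZMod z.p)
    have k : ∀ Q : ℤ[X], aeval (z.t : ZMod z.p) Q = ((Q.eval (z.t : ℤ) : ℤ) : ZMod z.p) := fun Q => by
      simpa using aeval_algebraMap_apply_eq_algebraMap_eval (A := ZMod z.p) (z.t : ℤ) Q
    have hZ' := (ZMod.intCast_zmod_eq_zero_iff_dvd _ _).2 hZ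
    rw [InG, ← ZMod.intCast_zmod_eq_zero_iff_dvd]
    simp only [Int.cast_sum, Int.cast_mul, Int.cast_pow] at hZ' ⊢
    rw [e]
    simp only [k, hZ', mul_zero]
  · have := hA.inj _ _ hz.1 (fun i => β i * b ^ T.e i)
      (fun y hy => by simpa only [InG, mul_assoc] using hβ y hy) i
    rw [← ZMod.intCast_zmod_eq_zero_iff_dvd] at this ⊢
    rw [Int.cast_mul, Int.cast_pow] at this
    exact (mul_eq_zero.1 this).resolve_right (pow_ne_zero _ hb')

theorem aFb : OfFb := by
  intro hT hS hM K 𝒜 _ _ _ _ _ S μ n _ T y N r h κ _ _ ev a b hsur hb hF hev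
  obtain ⟨-, -, -, -, -, -, -, k⟩ := hM K 𝒜 S μ n T y N r h
  obtain ⟨k1, k2, -⟩ := k κ ev
  have hb' : (b : κ) ≠ 0 := Int.cast_ne_zero.2 hb
  have hbq : (b : ℚ) ≠ 0 := Int.cast_ne_zero.2 hb
  have ht : (a : κ) = b * ev (algebraMap ℤ[X] 𝒜 X) := by
    rw [map_sub, map_mul, map_intCast, map_intCast] at hev
    exact (sub_eq_zero.1 hev).symm
  have et : ev (algebraMap ℤ[X] 𝒜 X) = (((a : ℚ) / b : ℚ) : κ) := by
    push_cast
    rw [ht, mul_div_cancel_left₀ _ hb']
  have ea : ∀ Q : ℤ[X], aeval (ev (algebraMap ℤ[X] 𝒜 X)) Q = ((aeval ((a : ℚ) / b) Q : ℚ) : κ) :=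
    fun Q => by
      rw [et]
      simpa using aeval_algebraMap_apply κ ((a : ℚ) / b) Q
  have H := hm hT h.ok ht k1
  have li : LinearIndependent ℚ fun i => (b : κ) ^ T.e i * ev (y i) := by
    rw [← LinearIndependent.iff_fractionRing ℤ ℚ, Fintype.linearIndependent_iff]
    intro g hg
    by_contra hn
    refine hF g (fun e => hn fun i => congrFun e i) ?_
    have k := (hS n κ fun i => (T.Mh a b i).map (Int.castRingHom κ)).1 _
      (fun i => Int.castRingHom κ (g i)) H (by simpa using hg)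
    rw [nm_map] at k
    exact Int.cast_eq_zero.1 k
  have li0 : LinearIndependent ℚ fun i => ev (y i) := by
    rw [Fintype.linearIndependent_iff] at li ⊢
    intro g hg i
    have := li (fun i => g i / (b : ℚ) ^ T.e i) (by
      rw [← hg]
      refine Finset.sum_congr rfl fun i _ => ?_
      rw [Rat.smul_def, Rat.smul_def]
      push_cast
      field_simp) i
    exact (div_eq_zero_iff.1 this).resolve_right (pow_ne_zero _ hbq)
  have sp : ⊤ ≤ Submodule.span ℚ (Set.range fun i => ev (y i)) := by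
    intro w _
    obtain ⟨u, d, hd, hu⟩ := hsur w
    have hd' : (d : κ) ≠ 0 := Nat.cast_ne_zero.2 hd
    have : w = ∑ i, ((d : ℚ)⁻¹ * aeval ((a : ℚ) / b) (y.repr u i)) • ev (y i) := by
      refine mul_left_cancel₀ hd' ?_
      rw [← hu, k2 u, Finset.mul_sum]
      refine Finset.sum_congr rfl fun i _ => ?_
      rw [ea, Rat.smul_def, Rat.cast_mul, Rat.cast_inv, Rat.cast_natCast, mul_assoc,
        mul_inv_cancel_left₀ hd']
    rw [this]
    exact Submodule.sum_mem _ fun i _ => Submodule.smul_mem _ _ (Submodule.subset_span ⟨i, rfl⟩)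
  have e0 : ∀ i, Module.Basis.mk li0 sp i = ev (y i) := fun i => Module.Basis.mk_apply _ _ i
  have e1 : ∀ i, (Module.Basis.mk li0 sp).unitsSMul
      (fun i => Units.mk0 ((b : ℚ) ^ T.e i) (pow_ne_zero _ hbq)) i = (b : κ) ^ T.e i * ev (y i) :=
    fun i => by
      rw [Module.Basis.unitsSMul_apply, e0, Units.smul_def, Units.val_mk0, Rat.smul_def]
      push_cast
      rfl
  refine ⟨_, _, e0, e1, ?_, ?_, fun u => ?_, fun m g hg => ?_⟩
  · rw [funext e0, ← et]
    exact k1
  · rw [funext e1]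
    exact H
  · simp only [e0, ← ea]
    exact k2 u
  · simp only [e1]
    rw [vl hT h.ok ht ((h.mon m g).1 hg), ← k2]

end Pool.Agent.MP_f3836a_nt.GV.A
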