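import Pool.Agent.MP_f3836a_nt.GV.SpecA

/-! Block A, global part: one small curve. -/

set_option autoImplicit false

namespace Pool.Agent.MP_f3836a_nt.GV.A

open Polynomial NumberField IsDedekindDomain VE VE.A

namespace AHsG

variable {κ : Type} [Field κ] [NumberField κ]

theorem ind {n : ℕ} (z : Module.Basis (Fin n) ℚ κ) {c : Fin n → ℚ}
    (h : ∑ i, (c i : κ) * z i = 0) (i : Fin n) : c i = 0 :=
  Fintype.linearIndependent_iff.1 z.linearIndependent c (by simpa [Rat.smul_def] using h) i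

theorem unit {A : Type} [CommRing A] [Algebra.IsIntegral ℤ A] (f : A →+* κ) (u : Aˣ) :
    ∃ U : 𝓞 κ, (U : κ) = f u ∧ U ≠ 0 ∧ ∀ q, od q U = 0 := by
  have k : ∀ a, ∃ U : 𝓞 κ, (U : κ) = f a := fun a =>
    ⟨⟨f a, map_isIntegral_int f (Algebra.IsIntegral.isIntegral a)⟩, rfl⟩
  obtain ⟨U, h⟩ := k u
  obtain ⟨U', h'⟩ := k u⁻¹.1
  have e : IsUnit U := IsUnit.of_mul_eq_one U' (RingOfIntegers.ext (by
    change (U : κ) * U' = 1
    rw [h, h', ← map_mul, u.mul_inv, map_one]))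
  refine ⟨U, h, e.ne_zero, fun q => ?_⟩
  rw [od, HeightOneSpectrum.intValuation_eq_one_iff.2 fun m =>
    q.isPrime.ne_top (Ideal.eq_top_of_isUnit_mem _ m e)]
  simp

omit [NumberField κ] in
theorem adr {r : ℕ} {l : κ → ℝ} (h : GP.Adr l) (τ : Fin r → κ →+* ℂ) (c : Fin r → ℝ) :
    GP.Adr fun u => l u - ∑ w, c w * Real.log ‖τ w u‖ := fun u u' h1 h2 => by
  have : ∀ w, Real.log ‖τ w (u * u')‖ = Real.log ‖τ w u‖ + Real.log ‖τ w u'‖ := fun w => by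
    rw [map_mul, norm_mul, Real.log_mul (by simpa using h1) (by simpa using h2)]
  simp only [h u u' h1 h2, this, mul_add, Finset.sum_add_distrib]
  ring

end AHsG

open AHsG in
theorem aHsG : OfHsG := by
  intro hT hF hM hB hR hE hK hD K 𝒜 _ _ _ _ _ S μ n r _ y G σ ι κ _ _ D gx ok a k adm
  classical
  obtain ⟨dom, -, -, -, -, mo, -, ev⟩ := hM K 𝒜 S μ n G.T y G.Nx r gx.md
  have fld := adm.fld
  have mem := adm.mem
  have k0 : (k : ℤ) ^ 2 ≠ 0 := pow_ne_zero 2 (Nat.cast_ne_zero.2 adm.pos.ne')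
  have kp : ∀ p : ℕ, p.Prime → ¬p ∣ k → ¬(p : ℤ) ∣ (k : ℤ) ^ 2 := fun p hp h e =>
    h (hp.dvd_of_dvd_pow (by exact_mod_cast e))
  have ht : (a : ℝ) / (k : ℝ) ^ 2 = (((a : ℚ) / ((k : ℤ) ^ 2 : ℤ) : ℚ) : ℝ) := by simp
  rw [ht] at mem ⊢
  generalize (k : ℤ) ^ 2 = b at fld mem k0 kp ⊢
  obtain ⟨h, hh⟩ : ∃ h : 𝒜, h = b * algebraMap ℤ[X] 𝒜 X - a := ⟨_, rfl⟩
  have h0 : h ≠ 0 := fun e => by
    have := y.algebraMap_injective (a₁ := C b * X - C a) (a₂ := 0) (by simpa [hh] using e)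
    have := congrArg (coeff · 1) this
    simp only [coeff_sub, coeff_C_mul_X, coeff_C_succ, if_true, sub_zero, coeff_zero] at this
    exact k0 this
  have sp : Ideal.span {h, algebraMap ℤ[X] 𝒜 X, (G.W0 : 𝒜)} = ⊤ := by
    obtain ⟨c, e⟩ := adm.w0.2
    have e' : (a : 𝒜) - 1 = G.W0 * c := by exact_mod_cast congrArg (Int.cast : ℤ → 𝒜) e
    rw [Ideal.eq_top_iff_one, show (1 : 𝒜) = b * algebraMap ℤ[X] 𝒜 X - h - c * G.W0 by
      rw [hh]; linear_combination -e']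
    exact sub_mem (sub_mem (Ideal.mul_mem_left _ _ (Ideal.subset_span (by simp)))
      (Ideal.subset_span (by simp))) (Ideal.mul_mem_left _ _ (Ideal.subset_span (by simp)))
  rw [← hh]
  by_cases hz : ∀ v, D.ev v h ≠ 0
  · refine ⟨fun _ => 0, 0, by simp, by simp [gx.c0, Cz], fun m g T hg _ _ _ => ?_⟩
    rw [ok.sym g h (mo m g hg).1 h0 (fun v _ => hz v) sp, ok.L_zero h0 hz]
    simp
  obtain ⟨v, hv⟩ : ∃ v, D.ev v h = 0 := by simpa using hz
  have fb := fun v hv => hB K 𝒜 S μ n G.T y G.Nx r gx.md (κ v) (D.ev v) a b (ok.sur v) k0 fld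
    (hh ▸ hv : D.ev v (b * algebraMap ℤ[X] 𝒜 X - a) = 0)
  obtain ⟨z0, z, -, -, m0, m1, f1, f2⟩ := fb v hv
  have uq : ∀ v', D.ev v' h = 0 → v' = v := fun v' hv' => by
    by_contra ne
    obtain ⟨u, u1, u2⟩ := ok.sep v' v ne
    obtain ⟨z', -, -, -, -, -, f, -⟩ := fb v' hv'
    exact u2 (by simp [f1 u, ind z' ((f u).symm.trans u1)])
  obtain ⟨l, al, hl⟩ : ∃ l : κ v → ℝ, GP.Adr l ∧ ∀ u, D.L h u = l (D.ev v u) :=
    ⟨fun w => D.ord v h * D.lam v w, fun u u' h1 h2 => by simp only [ok.add v u u' h1 h2, mul_add],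
      fun u => finsum_eq_single _ v fun v' ne => by
        simp [(ok.ord0 v' h h0).2 fun e => ne (uq v' e)]⟩
  have l0 : ∀ ρ : 𝓞 K, ρ ≠ 0 → l (D.ev v (algebraMap _ 𝒜 ρ)) = 0 := fun ρ hρ => by
    have n0 := fun v => (ev (κ v) (D.ev v)).2.2 inferInstance ρ hρ
    have n1 : algebraMap _ 𝒜 ρ ≠ 0 := fun e => n0 v (by rw [e, map_zero])
    rw [← hl, ← ok.sym _ h n1 h0 (fun v e => absurd e (n0 v)) sp, ok.L_zero n1 n0]
  obtain ⟨τ, c, φ, t1, c0, hφ⟩ := hE n r (κ v) G.T _ z0 _ l gx.ok.two m0 (gx.ok.br.em _ mem) al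
  have t2 : ∀ w u, τ w (D.ev v u) = G.B.ev (y.repr u) w (((a : ℚ) / b : ℚ) : ℝ) := fun w u => by
    rw [f1 u, map_sum]
    refine Finset.sum_congr rfl fun i _ => ?_
    rw [map_mul, map_ratCast, t1]
    exact congrArg (· * _) ((Complex.ofReal_ratCast _).symm.trans (congrArg _
      (aeval_algebraMap_apply ℝ ((a : ℚ) / b) (y.repr u i)).symm))
  have a2 := adr al τ c
  have l1 : ∀ N : ℤ, N ≠ 0 → l N - ∑ w, c w * Real.log ‖τ w N‖ = 0 := fun N hN => by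
    have := l0 N (Int.cast_ne_zero.2 hN)
    simp only [map_intCast] at this ⊢
    rw [this, ← Finset.sum_mul, c0]
    simp
  obtain ⟨ψ, H1, H2⟩ := hK n (κ v) (G.T.Mh a b) z
    (fun u => l u - ∑ w, c w * Real.log ‖τ w u‖) φ m1 hφ
  have rp := fun w => hR n G.T G.P G.t1 a b w gx.ok.tb gx.ok.alg
  refine ⟨fun w => ψ w.p fun i => b ^ G.T.e i * G.P.sv w i, c, fun p t hp h1 h2 => ?_, ?_,
    fun m g T hg nd hw e => ?_⟩
  · obtain ⟨p1, -, p2, -⟩ := gx.ok.alg.bas p t hp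
    have cd := (hF _ p p2).1.trans gx.ok.alg.two.symm
    obtain ⟨y0, hy⟩ := Finset.card_pos.1 (cd ▸ NeZero.pos n)
    rw [← H2 p _ _ p1 cd (fun y hy => (rp ⟨p, t, y⟩ ⟨hp, hy⟩ h1 (kp p p1 h2)).1)
      (rp ⟨p, t, y0⟩ ⟨hp, hy⟩ h1 (kp p p1 h2)).2.2]
    simpa using l1 p (Nat.cast_ne_zero.2 p1.ne_zero)
  · rw [gx.c0]
    refine hD K r σ c c0 fun u => ?_
    obtain ⟨U, u1, u2, u3⟩ := unit ((D.ev v).comp (algebraMap (𝓞 K) 𝒜)) u
    have := hφ U u2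
    simp only [u1, u3, RingHom.comp_apply, l0 _ u.ne_zero, t2, gx.con _ _ mem, mul_zero,
      finsum_zero, zero_sub, neg_eq_zero] at this
    exact this
  · have mn := (gx.md.mon m g).1 hg
    have pr := fun w hw' => (gx.ok.alg.bas _ _ (hw w hw').1.1).1
    have rq := fun w hw' => rp w (hw w hw').1 (hw w hw').2.1 (kp _ (pr w hw') (hw w hw').2.2.2)
    have e' := e.trans ((hT n G.T a b gx.ok.tb).2.2.2 k0 m _ mn).symm
    have H := H1 (fun w i => b ^ G.T.e i * G.P.sv w i) _ T (fun w hw' => ⟨pr w hw', (rq w hw').1⟩)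
      ⟨nd, fun w hw' => (rq w hw').2.1 m _ mn (hw w hw').2.2.1, e'⟩
    have g0 : D.ev v g ≠ 0 := fun e0 => by
      have h1 : G.T.val m (y.repr g) a b = 0 := funext fun i => by
        exact_mod_cast ind z (c := fun i => G.T.val m (y.repr g) a b i)
          (by simpa [e0] using f2 m g hg) i
      rw [h1] at e'
      obtain ⟨w, w1, w2⟩ := Multiset.mem_map.1 (Multiset.prod_eq_zero_iff.1
        (show nT T = 0 by simpa [Nm, Mx] using e'))
      exact (pr w w1).ne_zero w2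
    have H' := a2 _ _ (Int.cast_ne_zero.2 (pow_ne_zero m k0)) g0
    beta_reduce at H H'
    rw [l1 _ (pow_ne_zero m k0), Int.cast_pow, ← f2 m g hg, H] at H'
    rw [ok.sym g h (mo m g hg).1 h0 (fun v' e1 e2 => g0 (uq v' e2 ▸ e1)) sp, hl, H']
    simp [t2]

end Pool.Agent.MP_f3836a_nt.GV.A
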