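import Pool.Agent.MP_f3836a_nt.GV.SpecA

/-! Block A: the identities on events, and the data of the core. -/

set_option autoImplicit false

namespace Pool.Agent.MP_f3836a_nt.GV.A

open Polynomial NumberField IsDedekindDomain VE VE.A

namespace AId

theorem cz_sum {r : ℕ} {ι : Type} [Fintype ι] {cls : Fin r → ι} {c : Fin r → ℝ}
    (h : c ∈ Cz cls) : ∑ w, c w = 0 := by
  classical
  rw [← Finset.sum_fiberwise Finset.univ cls c]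
  exact Finset.sum_eq_zero fun v _ => by convert h v

end AId

theorem aGe : OfGe := by
  intro Tab Pts Brx Cst Ar Mds K 𝒜 _ _ _ _ _ S μ N W h1 h2 h3 h4 h5 hW
  obtain ⟨n, r, hn, T, y, hM⟩ := Tab K 𝒜 S μ N h1 h2 h3 h4 h5
  obtain ⟨P, hP, hP'⟩ := Pts n r T 0 hM.two hM.ok (Mds K 𝒜 S μ n T y N r hM).2.2.2.2.2.2.1
  obtain ⟨B, hB⟩ := Brx n r T 0 hM.two hM.ok hM.nre
  obtain ⟨σ, s1, s2⟩ := Cst n r T 0 B K 𝒜 S μ y hM.two hM.fm hM.y0 hM.tab hB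
  exact ⟨n, r, hn, y, ⟨T, P, B, 0, W, N, Cz fun w => InfinitePlace.mk (σ w)⟩, σ,
    ⟨hM, ⟨hM.two, hM.ok, hP, hP', hB, hW, hM.nx, hM.fld, fun _ => AId.cz_sum,
      Ar n r T 0 B _ _ hM.two hM.ok hB s2⟩, rfl, rfl, s1⟩, rfl, rfl⟩

theorem aIdG : OfIdG := by
  intro Phi Mds Gs Hs K 𝒜 _ _ _ _ _ S μ n r _ y G σ ι κ _ _ D hG hD
  have nrm := (Mds K 𝒜 S μ n G.T y G.Nx r hG.md).2.2.2.1
  have hψ : ∀ (a : ℤ) (k : ℕ), ∃ (ψ : Pt → ℝ) (c : Fin r → ℝ), G.Adm a k → _ := fun a k => by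
    by_cases h : G.Adm a k
    · obtain ⟨ψ, c, h'⟩ := Hs K 𝒜 S μ n r y G σ ι κ D hG hD a k h
      exact ⟨ψ, c, fun _ => h'⟩
    · exact ⟨0, 0, fun h' => absurd h' h⟩
  have hφ : ∀ g : 𝒜, ∃ (φ : Pt → ℝ) (c : ℂ → ℝ), ∀ m, Mo μ (G.Nx * m) g →
      (∃ Φ, Dec (Algebra.norm ℤ[X] g) (n * m) (fun a b => D.L g (b * algebraMap ℤ[X] 𝒜 X - a))
        (fun p => D.L g p) Φ c) ∧
      ∀ (a b : ℤ) (T : Multiset Pt), 0 < b → Nd T →
        (∀ z ∈ T, z.p.Prime ∧ On a b z ∧ ¬(z.p : ℤ) ∣ b) →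
        (nT T : ℤ) = hv (Algebra.norm ℤ[X] g) (n * m) a b →
        D.L g (b * algebraMap ℤ[X] 𝒜 X - a) =
          (T.map φ).sum + ug (Algebra.norm ℤ[X] g) c ((a : ℝ) / b) := fun g => by
    by_cases h : ∃ m, Mo μ (G.Nx * m) g
    · obtain ⟨m, hm⟩ := h
      obtain ⟨Φ, c, h1⟩ := Gs K 𝒜 S μ n G.T y G.Nx r hG.md ι κ D G.W0 hD m g hm
      obtain ⟨φ, h2, -⟩ := Phi _ _ _ _ Φ c h1
      refine ⟨φ, c, fun m' hm' => ?_⟩
      obtain rfl : m = m' := ((hG.md.mon m g).1 hm).2.1.symm.trans ((hG.md.mon m' g).1 hm').2.1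
      exact ⟨⟨Φ, h1⟩, h2⟩
    · exact ⟨0, 0, fun m hm => absurd ⟨m, hm⟩ h⟩
  choose ψ c hψ using hψ
  choose φ cθ hφ using hφ
  have e : ∀ g : 𝒜, y.equivFun.symm (y.repr g) = g := y.equivFun.symm_apply_apply
  refine ⟨ψ, c, fun A => φ (y.equivFun.symm A), fun A => cθ (y.equivFun.symm A),
    ⟨fun a k p τ h1 h2 => (hψ a k h2).1 p τ h1, fun a k h => (hψ a k h).2.1, fun m A h => ?_,
      fun m A a k T h hk hN hT hn => ?_⟩, fun m g h => ?_⟩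
  · obtain ⟨g, rfl⟩ : ∃ g, A = y.repr g := ⟨_, (y.equivFun.apply_symm_apply A).symm⟩
    obtain ⟨Φ, h1⟩ := (hφ g m ((hG.md.mon m g).2 h)).1
    rw [nrm, e]
    exact h1.sum
  · obtain ⟨g, rfl⟩ : ∃ g, A = y.repr g := ⟨_, (y.equivFun.apply_symm_apply A).symm⟩
    have hm := (hG.md.mon m g).2 h
    have q1 := (hψ a k hk).2.2 m g T hm hN hT hn
    have pr : ∀ z ∈ T, z.p.Prime := fun z hz => (hG.ok.alg.bas z.p z.t (hT z hz).1.1).1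
    have k0 := hk.pos
    rw [nrm] at hn
    have q2 := (hφ g m hm).2 a ((k : ℤ) ^ 2) T (by positivity) hN (fun z hz => ⟨pr z hz,
      (hT z hz).2.1, fun h => (hT z hz).2.2.2 (Int.natCast_dvd_natCast.1
        ((Nat.prime_iff_prime_int.1 (pr z hz)).dvd_of_dvd_pow h))⟩) hn
    rw [nrm, e, ← q1, q2, Int.cast_pow, Int.cast_natCast]
  · simpa only [e] using (hφ g m h).1

end Pool.Agent.MP_f3836a_nt.GV.A
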