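import Pool.Agent.MP_f3836a_nt.GV.SpecA

/-! Block A: the pairing kills functions with a single slope. -/

set_option autoImplicit false

namespace Pool.Agent.MP_f3836a_nt.GV.A

open Polynomial NumberField IsDedekindDomain VE VE.A

namespace AKi

theorem hv0 (P : ℤ[X]) (d : ℕ) : hv P d 0 1 = P.eval 0 := by
  rw [hv, Finset.sum_eq_single 0 (fun i _ h => by simp [h]) (by simp), ← coeff_zero_eq_eval_zero]
  simp

theorem top {B : Type} [CommRing B] {I : Ideal B} {a : ℤ} {W : ℕ} (h : a.natAbs.Coprime W)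
    (ha : (a : B) ∈ I) (hW : (W : B) ∈ I) : I = ⊤ := by
  obtain ⟨u, v, e⟩ := Int.isCoprime_iff_gcd_eq_one.2 (show a.gcd W = 1 from h)
  have e' : (u : B) * a + v * W = 1 := by exact_mod_cast congrArg (Int.cast : ℤ → B) e
  exact (Ideal.eq_top_iff_one I).2 (e' ▸ add_mem (I.mul_mem_left _ ha) (I.mul_mem_left _ hW))

end AKi

open AKi

theorem aKi : OfKi := by
  intro hC hN hM hS hI K 𝒜 _ _ _ _ _ S μ n r _ y G σ' ι κ _ _ D hG hD p σ m G1 hp hW hm hg hl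
  obtain ⟨dom, x0, -, nN, pw, mon, -⟩ := hM K 𝒜 S μ n G.T y G.Nx r hG.md
  have sg := hS K 𝒜 S μ n G.T y G.Nx r hG.md p σ
  obtain ⟨nc, nd, -⟩ := hN ℤ[X] 𝒜 (Fin n) y
  obtain ⟨ψ, c, φ, cθ, id, dec⟩ := hI K 𝒜 S μ n r y G σ' ι κ D hG hD
  obtain ⟨N, N0, h⟩ := hC n r G hG.ok p m (y.repr G1) hp hm ((hG.md.mon m G1).1 hg.1)
    (by rwa [nN, hG.t1])
  obtain ⟨v, A, hA, mo, ar⟩ := h (n * (m * N) * σ + 1) ψ c φ cθ id
  obtain ⟨g, rfl⟩ : ∃ g, ⇑(y.repr g) = A := ⟨_, y.equivFun.apply_symm_apply A⟩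
  obtain ⟨w, rfl⟩ : ∃ w, ⇑(y.repr w) = v := ⟨_, y.equivFun.apply_symm_apply v⟩
  set x := algebraMap ℤ[X] 𝒜 X with hx
  have eg : g - G1 ^ N = x * ((p : 𝒜) ^ (n * (m * N) * σ + 1) * w) := by
    have : g = G1 ^ N + (C ((p : ℤ) ^ (n * (m * N) * σ + 1)) * X) • w :=
      y.repr.injective (Finsupp.ext fun i => by simpa [pw, hG.t1, mul_assoc] using hA i)
    rw [this, Algebra.smul_def]
    simp only [map_pow, map_natCast, map_mul, ← hx]
    ring
  have mg : Mo μ (G.Nx * (m * N)) g := (hG.md.mon _ g).2 (mul_comm N m ▸ mo)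
  have s1 := ((sg _ _ hp).1 (((sg m G1 hp).1 hg).2.2.1 N)).2.2.2 _ g mg
    (dvd_sub_comm.1 (eg ▸ (dvd_mul_right _ w).mul_left x)) (Nat.lt_succ_self _)
  have n0 := ((sg _ g hp).1 s1).1
  have g0 := (mon _ g mg).1
  have pl : ∀ l : ℕ, l.Prime → l ∣ ((Algebra.norm ℤ[X] g).eval 0).natAbs → l = p := fun l a b => by
    have := nc (Ideal.span {X}) g (G1 ^ N) (by
      rw [eg, Ideal.map_span, Set.image_singleton]
      exact Ideal.mem_span_singleton.2 (dvd_mul_right _ _))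
    rw [Ideal.mem_span_singleton, X_dvd_iff, coeff_zero_eq_eval_zero, eval_sub, sub_eq_zero,
      map_pow, eval_pow] at this
    rw [this, Int.natAbs_pow] at b
    exact hl l a (Int.natCast_dvd.2 (a.dvd_of_dvd_pow b))
  have : Module.Free ℤ[X] 𝒜 := .of_basis y
  have : CharZero 𝒜 := charZero_of_injective_algebraMap (FaithfulSMul.algebraMap_injective ℤ[X] 𝒜)
  have p0 : (p : 𝒜) ≠ 0 := Nat.cast_ne_zero.2 hp.ne_zero
  have p1 : ∀ v, D.ev v p ≠ 0 := fun v => by simpa using hp.ne_zero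
  have lp : D.L g p = 0 := (hD.sym g p g0 p0 (fun v _ => p1 v)
    (top (a := p) (hp.coprime_iff_not_dvd.2 hW) (Ideal.subset_span (by simp))
      (Ideal.subset_span (by simp)))).trans (hD.L_zero p0 p1 g)
  have lx : D.L g x = 0 := by
    obtain ⟨Φ, d⟩ := dec _ g mg
    have := d.val 0 1 one_pos (by rwa [hv0])
    rw [hv0, Finset.sum_eq_zero fun l hl' => by
      rw [pl l (Nat.prime_of_mem_primeFactors hl') (Nat.dvd_of_mem_primeFactors hl'),
        d.slo 0 p σ hp s1.2, lp, mul_zero], ← nN, ar] at this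
    simpa using this
  obtain ⟨a, ha⟩ := nd g
  have e0 : (((Algebra.norm ℤ[X] g).eval 0 : ℤ) : 𝒜) =
      g * a - x * algebraMap ℤ[X] 𝒜 (Algebra.norm ℤ[X] g).divX := by
    rw [← ha, ← map_mul, ← map_sub, ← coeff_zero_eq_eval_zero,
      ← eq_sub_of_add_eq' (X_mul_divX_add _), eq_intCast, map_intCast]
  have nz : ∀ v, D.ev v x = 0 → D.ev v g ≠ 0 := fun v h1 h2 => n0 (by
    simpa [h1, h2] using congrArg (D.ev v) e0)
  have := hD.sym x g x0 g0 nz (top (Nat.coprime_of_dvd fun l a b => pl l a b ▸ hW)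
    (e0 ▸ sub_mem (Ideal.mul_mem_right _ _ (Ideal.subset_span (by simp)))
      (Ideal.mul_mem_right _ _ (Ideal.subset_span (by simp)))) (Ideal.subset_span (by simp)))
  rw [lx, hD.L_congr x0 ⟨_, eg⟩, hD.L_pow x0 fun v h1 h2 => nz v h1 (by
    simpa [h1, h2, N0.ne'] using congrArg (D.ev v) eg)] at this
  exact (mul_eq_zero.1 this).resolve_left (Nat.cast_ne_zero.2 N0.ne')

end Pool.Agent.MP_f3836a_nt.GV.A
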