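import Pool.Agent.MP_f3836a_nt.GV.SpecA

/-! The part over one prime is killed. -/

set_option autoImplicit false

namespace Pool.Agent.MP_f3836a_nt.GV.A

open Polynomial NumberField IsDedekindDomain VE VE.A

namespace AKlT

theorem cop_pi {Z : Type} {R : Z → Type} [∀ i, CommRing (R i)] {a b : ∀ i, R i}
    (h : ∀ i, IsCoprime (a i) (b i)) : IsCoprime a b := by
  choose u v h using h
  exact ⟨u, v, funext h⟩

theorem not_mem {R : Type} [CommRing R] {q : Ideal R} (hq : q ≠ ⊤) {a b : ℕ} (h : a.Coprime b)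
    (ha : (a : R) ∈ q) (hb : (b : R) ∈ q) : False := by
  obtain ⟨u, v, e⟩ : IsCoprime (a : R) b := Nat.Coprime.cast h
  exact hq ((Ideal.eq_top_iff_one q).2 (e ▸ add_mem (q.mul_mem_left _ ha) (q.mul_mem_left _ hb)))

theorem cop_nat {k : Type} [Field k] [NumberField k] {γ : 𝓞 k} {p n : ℕ} (h0 : γ ≠ 0)
    (h : ∀ q : HeightOneSpectrum (𝓞 k), γ ∈ q.asIdeal → (p : 𝓞 k) ∈ q.asIdeal)
    (hn : n.Coprime p) : IsCoprime γ n := by
  rw [← Ideal.isCoprime_span_singleton_iff, Ideal.isCoprime_iff_sup_eq]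
  by_contra c
  obtain ⟨M, hM, le⟩ := Ideal.exists_le_maximal _ c
  have h1 : γ ∈ M := le (Ideal.mem_sup_left (Ideal.mem_span_singleton_self _))
  exact not_mem hM.ne_top hn (le (Ideal.mem_sup_right (Ideal.mem_span_singleton_self _)))
    (h ⟨M, hM.isPrime, fun z => h0 (by simpa [z] using h1)⟩ h1)

theorem l_pow {R : Type} [CommRing R] [IsDomain R] {l : R → ℝ}
    (h : ∀ u u', u ≠ 0 → u' ≠ 0 → l (u * u') = l u + l u') {u : R} (hu : u ≠ 0) (E : ℕ) :
    l (u ^ E) = E * l u := by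
  induction E with
  | zero =>
    have := h 1 1 one_ne_zero one_ne_zero
    simp only [mul_one, pow_zero, Nat.cast_zero, zero_mul] at this ⊢
    linarith
  | succ E ih => rw [pow_succ, h _ _ (pow_ne_zero _ hu) hu, ih]; push_cast; ring

end AKlT

open AKlT in
theorem aKlT : OfKlT := by
  intro hF hR hS hN hP hC K 𝒜 _ _ _ _ _ S μ n _ T y N r hM Z _ k _ _ e l hL W φ hK hl
  obtain ⟨d, hd⟩ := (hR _ _ S μ hM.fm).2.2.2.2 N _ hM.mo
  have sg := hS K 𝒜 S μ n T y N r hM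
  have nr := hN K 𝒜 S μ n T y N r hM Z k e l hL
  refine ⟨d + 1, fun p σ m G hp hW hm hG => ?_⟩
  have pert : ∀ m' g, m ≤ m' → Sg μ N n p σ m' g → ∀ t ∈ (RingHom.pi e).range, ∃ g',
      Sg μ N n p σ m' g' ∧ ∀ i, e i g' = e i g + (p : 𝓞 (k i)) ^ (n * m' * σ + 1) * t i := by
    rintro m' g h1 h2 _ ⟨a0, rfl⟩
    obtain ⟨a, ⟨z, hz⟩, ha⟩ := hd a0
    refine ⟨g + (p : 𝒜) ^ (n * m' * σ + 1) * a, ((sg p σ m' g hp).1 h2).2.2.2 (n * m' * σ + 1) _
      ((hF _ _ S μ hM.fm).add _ _ _ h2.1 fun s hs => ?_) (by simp) (Nat.lt_succ_self _),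
      fun i => ?_⟩
    · rw [← Nat.cast_pow, ← nsmul_eq_mul, map_nsmul, Finsupp.smul_apply]
      refine nsmul_mem (ha s (le_trans ?_ hs)) _
      have := hM.nx
      nlinarith
    · have := congrArg (e i) hz
      rw [map_sub, map_mul, hL.ex, zero_mul, sub_eq_zero] at this
      simp [this]
  choose h0 hp0 hsp using fun i => hP (k i)
  have d0 := (nr G).1 ((sg p σ m G hp).1 hG).1
  have hh : 0 < ∏ i, h0 i := Finset.prod_pos fun i _ => hp0 i
  choose γ β g1 g2 g3 g4 using fun i => hsp i (∏ i, h0 i) p (φ i) (e i G)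
    (Finset.dvd_prod_of_mem _ (Finset.mem_univ i)) hp (d0 i)
  generalize ∏ i, h0 i = h at hh g1 g4
  have γ0 : ∀ i, γ i ≠ 0 := fun i => left_ne_zero_of_mul (g1 i ▸ pow_ne_zero h (d0 i))
  obtain ⟨c, c0, hc⟩ := hL.cond
  obtain ⟨E, E0, hE⟩ := hC (∀ i, 𝓞 (k i)) (RingHom.pi e).range c p h (n * m * σ + 1)
    (RingHom.pi e G) γ β c0 hp hh (fun b => (hc b).imp fun a ha => funext ha) ⟨G, rfl⟩
    (funext g1) (cop_pi g2) fun n' hn => cop_pi fun i => cop_nat (γ0 i) (g3 i) hn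
  obtain ⟨t, ht, t', ht', hE⟩ := hE (n * (m * (h * E - 1) + m) * σ + 1)
  obtain ⟨G3, s3, e3⟩ := pert m G le_rfl hG t ht
  obtain ⟨G1, s1, e1⟩ := pert _ _ (Nat.le_add_left _ _)
    (((sg p σ _ _ hp).1 (((sg p σ m G hp).1 hG).2.2.1 (h * E - 1))).2.1 m G3 s3) t' ht'
  have e2 : ∀ i, e i G1 = γ i ^ E := fun i => by
    rw [e1, map_mul, map_pow, e3]
    exact (congrFun hE i).symm
  have key := hK p σ _ G1 hp hW (by omega) s1 fun r' hr h1 => by
    obtain ⟨i, q, h2, h3⟩ := (nr G1).2 r' hr h1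
    by_contra c
    exact not_mem q.isPrime.ne_top ((Nat.coprime_primes hr hp).2 c) h2
      (g3 i q (q.isPrime.mem_of_pow_mem E (e2 i ▸ h3)))
  simp only [e2, fun i => l_pow (hL.add i) (γ0 i) E, fun i => hl i _ (γ0 i), g4,
    ← Finset.mul_sum] at key
  simpa [E0.ne', hh.ne'] using key

end Pool.Agent.MP_f3836a_nt.GV.A
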