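import Pool.Agent.MP_f3836a_nt.GV.SpecA

/-! Block A: the fibre over zero and the decomposition for one big curve. -/

set_option autoImplicit false

namespace Pool.Agent.MP_f3836a_nt.GV.A

open Polynomial NumberField IsDedekindDomain VE VE.A

namespace ALv

/-- restriction to the ring of integers -/
noncomputable def rs {R k : Type} [CommRing R] [Field k] (f : R →+* k)
    (h : ∀ a, IsIntegral ℤ (f a)) : R →+* 𝓞 k := f.codRestrict (integralClosure ℤ k) h

theorem intg {R k : Type} [CommRing R] [Field k] [Algebra ℤ[X] R] [Module.Finite ℤ[X] R]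
    (f : R →+* k) (h : f (algebraMap ℤ[X] R X) = 0) (a : R) : IsIntegral ℤ (f a) :=
  IsIntegral.map_of_comp_eq (evalRingHom 0) f (Polynomial.ringHom_ext (by simp) (by simp [h]))
    (Algebra.IsIntegral.isIntegral (R := ℤ[X]) a)

theorem common {M : Type} [AddCommGroup M] [Module.Finite ℤ M] (N : AddSubgroup M)
    (h : ∀ b, ∃ n : ℕ, n ≠ 0 ∧ n • b ∈ N) : ∃ c : ℕ, c ≠ 0 ∧ ∀ b, c • b ∈ N := by
  have key : ∀ T : Submodule ℤ M, T.FG → ∃ c : ℕ, c ≠ 0 ∧ ∀ b ∈ T, c • b ∈ N := by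
    intro T hT
    induction T, hT using Submodule.fg_induction with
    | singleton x =>
      obtain ⟨n, h0, h1⟩ := h x
      refine ⟨n, h0, fun b hb => ?_⟩
      obtain ⟨r, rfl⟩ := Submodule.mem_span_singleton.1 hb
      rw [smul_comm]; exact N.zsmul_mem h1 r
    | sup A B _ _ hA hB =>
      obtain ⟨n, h0, h1⟩ := hA
      obtain ⟨m, h2, h3⟩ := hB
      refine ⟨n * m, mul_ne_zero h0 h2, fun b hb => ?_⟩
      obtain ⟨u, hu, v, hv, rfl⟩ := Submodule.mem_sup.1 hb
      rw [smul_add]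
      refine add_mem ?_ ?_
      · rw [mul_comm, mul_smul]; exact N.nsmul_mem (h1 u hu) m
      · rw [mul_smul]; exact N.nsmul_mem (h3 v hv) n
  obtain ⟨c, h0, h1⟩ := key ⊤ Module.Finite.fg_top
  exact ⟨c, h0, fun b => h1 b trivial⟩

theorem cond {R Z : Type} [CommRing R] [Fintype Z] {k : Z → Type} [∀ i, Field (k i)]
    [∀ i, NumberField (k i)] (e : ∀ i, R →+* 𝓞 (k i))
    (sur : ∀ i (z : k i), ∃ (a : R) (n : ℕ), n ≠ 0 ∧ (e i a : k i) = n * z)
    (sep : ∀ i j, i ≠ j → ∃ u, e i u = 0 ∧ e j u ≠ 0) :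
    ∃ c : ℕ, c ≠ 0 ∧ ∀ b : ∀ i, 𝓞 (k i), ∃ a, ∀ i, e i a = c * b i := by
  classical
  obtain ⟨c, h0, h1⟩ := common (RingHom.pi e).toAddMonoidHom.range fun b => by
    induction b using Pi.single_induction with
    | zero => exact ⟨1, one_ne_zero, by simp⟩
    | add f g hf hg =>
      obtain ⟨n, h0, h1⟩ := hf
      obtain ⟨m, h2, h3⟩ := hg
      refine ⟨n * m, mul_ne_zero h0 h2, ?_⟩
      rw [smul_add]
      refine add_mem ?_ ?_
      · rw [mul_comm, mul_smul]; exact nsmul_mem h1 m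
      · rw [mul_smul]; exact nsmul_mem h3 n
    | single j z =>
      choose! u h1 h2 using fun i => sep i j
      have h3 : ((e j (∏ i ∈ Finset.univ.erase j, u i) : 𝓞 (k j)) : k j) ≠ 0 := by
        rw [map_prod]
        exact RingOfIntegers.coe_ne_zero_iff.2 (Finset.prod_ne_zero_iff.2 fun i hi =>
          h2 i (Finset.ne_of_mem_erase hi))
      obtain ⟨a, n, h4, h5⟩ := sur j (z / e j (∏ i ∈ Finset.univ.erase j, u i))
      refine ⟨n, h4, a * ∏ i ∈ Finset.univ.erase j, u i, funext fun i => ?_⟩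
      change e i _ = n • Pi.single (M := fun i => 𝓞 (k i)) j z i
      rw [map_mul]
      by_cases hi : i = j
      · subst hi
        apply RingOfIntegers.coe_injective
        rw [Pi.single_eq_same, nsmul_eq_mul, map_mul, map_mul, map_natCast]
        exact (congrArg (· * _) h5).trans (by rw [mul_assoc, div_mul_cancel₀ _ h3])
      · rw [Pi.single_eq_of_ne hi, smul_zero, map_prod,
          Finset.prod_eq_zero (Finset.mem_erase.2 ⟨hi, Finset.mem_univ i⟩) (h1 i hi), mul_zero]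
  refine ⟨c, h0, fun b => ?_⟩
  obtain ⟨a, ha⟩ := h1 b
  exact ⟨a, fun i => (congrFun ha i).trans (nsmul_eq_mul c (b i))⟩

theorem surj {K k : Type} [Field K] [NumberField K] [Field k] [NumberField k] (φ : 𝓞 K →+* 𝓞 k)
    (hφ : Function.Injective φ) (h : ∀ z, ∃ (a : 𝓞 K) (n : ℕ), n ≠ 0 ∧ φ a = n * z) :
    Function.Surjective φ := by
  intro z
  obtain ⟨a, n, h0, h1⟩ := h z
  have hi : Function.Injective ((algebraMap (𝓞 k) k).comp φ) :=
    RingOfIntegers.coe_injective.comp hφ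
  have e : IsFractionRing.lift (K := K) hi (algebraMap (𝓞 K) K a / n) = algebraMap (𝓞 k) k z := by
    have : (n : k) ≠ 0 := Nat.cast_ne_zero.2 h0
    rw [map_div₀, IsFractionRing.lift_algebraMap, map_natCast, RingHom.comp_apply, h1, map_mul,
      map_natCast, mul_div_cancel_left₀ _ this]
  have hw : IsIntegral ℤ (algebraMap (𝓞 K) K a / n) :=
    (isIntegral_algHom_iff (IsFractionRing.lift (K := K) hi).toIntAlgHom
      (IsFractionRing.lift (K := K) hi).injective).1 (by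
        rw [RingHom.toIntAlgHom_apply, e]; exact z.isIntegral_coe)
  refine ⟨⟨_, hw⟩, RingOfIntegers.coe_injective ?_⟩
  rw [← e]
  exact (IsFractionRing.lift_algebraMap hi _).symm

end ALv

open ALv

theorem aLv : OfLv := by
  intro hM K 𝒜 _ _ _ _ _ S μ n _ T y N r md ι κ _ _ D W ok v0 e0 θ c sz h0
  obtain ⟨-, hx, -, -, -, -, -, hκ⟩ := hM K 𝒜 S μ n T y N r md
  have := Module.Finite.of_basis y
  set x := algebraMap ℤ[X] 𝒜 X
  have hinj : ∀ a : 𝓞 K, D.ev v0 (algebraMap (𝓞 K) 𝒜 a) = 0 → a = 0 := fun a ha =>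
    by_contra fun hn => (hκ (κ v0) (D.ev v0)).2.2 inferInstance a hn ha
  have hv0 : D.ev v0 x = 0 := by rw [h0, sz.ex, map_zero, map_zero]
  let _ : Fintype {v // D.ev v x = 0} := (ok.fin x hx).fintype
  let e : ∀ i : {v // D.ev v x = 0}, 𝒜 →+* 𝓞 (κ i.1) := fun i => rs (D.ev i.1) (intg _ i.2)
  have he : ∀ i a, (e i a : κ i.1) = D.ev i.1 a := fun _ _ => rfl
  have hz : ∀ i a, e i a = 0 ↔ D.ev i.1 a = 0 := fun i a => by
    rw [← he, RingOfIntegers.coe_eq_zero_iff]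
  have hi : Function.Injective ((e ⟨v0, hv0⟩).comp (algebraMap (𝓞 K) 𝒜)) :=
    (injective_iff_map_eq_zero _).2 fun a ha => hinj a ((hz _ _).1 ha)
  refine ⟨_, inferInstance, fun i : {v // D.ev v x = 0} => κ i.1, inferInstance, inferInstance, e,
    fun i u => (D.ord i.1 x : ℝ) * D.lam i.1 u, ⟨v0, hv0⟩,
    ⟨fun i => (hz i x).2 i.2, cond e (fun i => ok.sur i.1) fun i j hij => ?_,
      fun g hg => ok.rad g fun v hv => (hz ⟨v, hv⟩ g).1 (hg _), fun i u u' hu hu' => ?_⟩,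
    ⟨⟨hi, surj _ hi fun z => ?_⟩, fun a => RingOfIntegers.ext (h0 a), fun i hi => ?_⟩,
    fun u => ?_, fun u hu => ?_⟩
  · obtain ⟨u, h1, h2⟩ := ok.sep i.1 j.1 fun h => hij (Subtype.ext h)
    exact ⟨u, (hz i u).2 h1, fun h => h2 ((hz j u).1 h)⟩
  · rw [← mul_add, ← ok.add i.1 _ _ (RingOfIntegers.coe_ne_zero_iff.2 hu)
      (RingOfIntegers.coe_ne_zero_iff.2 hu'), ← map_mul]
  · obtain ⟨a, m, h1, h2⟩ := ok.sur v0 z
    refine ⟨e0 a, m, h1, RingOfIntegers.ext ?_⟩
    push_cast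
    exact (h0 a).symm.trans h2
  · obtain ⟨u, h1, h2⟩ := ok.sep v0 i.1 fun h => hi (Subtype.ext h.symm)
    obtain ⟨w, hw⟩ := sz.dv u
    rw [hinj (e0 u) ((h0 u).symm.trans h1), map_zero, sub_zero] at hw
    have h3 := congrArg (D.ev i.1) hw
    rw [map_mul, map_mul, i.2, zero_mul] at h3
    exact (hz i θ).2 ((mul_eq_zero.1 h3).resolve_left h2)
  · rw [ok.L_eq hx]
    exact Finset.sum_subtype _ (by simp) fun v => (D.ord v x : ℝ) * D.lam v (D.ev v u)
  · exact (mul_eq_zero.1 hu).resolve_left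
      (Nat.cast_ne_zero.2 fun h => (ok.ord0 v0 x hx).1 h hv0)

theorem aGsG : OfGsG := by
  intro hG hN hM K 𝒜 _ _ _ _ _ S μ n _ T y N r md ι κ _ _ D W ok m g hm
  obtain ⟨-, -, ha, -, -, hmo, -⟩ := hM K 𝒜 S μ n T y N r md
  obtain ⟨hg, hn⟩ := hmo m g hm
  obtain ⟨w, hw⟩ := (hN ℤ[X] 𝒜 (Fin n) y).2.1 g
  set x := algebraMap ℤ[X] 𝒜 X
  have key : ∀ v : ι, ∃ Φ c, D.ev v g = 0 → Dec (Algebra.norm ℤ[X] g) (n * m)
      (fun a b => D.lam v (D.ev v (b * x - a))) (fun p => D.lam v (D.ev v p)) Φ c := fun v => by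
    by_cases hv : D.ev v g = 0
    · obtain ⟨Φ, c, h⟩ := hG (κ v) (D.lam v) (D.ev v x) _ _ (ok.add v) hn.monic hn.natDegree_eq
        ((aeval_algHom_apply (D.ev v).toIntAlgHom x _).trans (by
          rw [← ha, hw, map_mul, RingHom.toIntAlgHom_apply, hv, zero_mul]))
      exact ⟨Φ, c, fun _ => by simpa only [map_sub, map_mul, map_intCast, map_natCast] using h⟩
    · exact ⟨0, 0, fun h => absurd h hv⟩
  choose Φ c h using key
  have h' : ∀ v ∈ (ok.fin g hg).toFinset, _ := fun v hv => h v (by simpa using hv)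
  refine ⟨fun p a b => ∑ v ∈ (ok.fin g hg).toFinset, (D.ord v g : ℝ) * Φ v p a b,
    fun θ => ∑ v ∈ (ok.fin g hg).toFinset, (D.ord v g : ℝ) * c v θ, ?_,
    fun a b hb hab => ?_, fun p a b a' b' hs => ?_, fun t0 p σ hp hs => ?_⟩
  · rw [Finset.sum_comm]
    exact Finset.sum_eq_zero fun v hv => by rw [← Finset.mul_sum, (h' v hv).sum, mul_zero]
  · rw [ok.L_eq hg, Finset.sum_comm]
    unfold ug
    simp only [Finset.sum_mul]
    rw [Finset.sum_comm (s := rts _), ← Finset.sum_add_distrib]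
    refine Finset.sum_congr rfl fun v hv => ?_
    have := (h' v hv).val a b hb hab
    simp only [ug] at this
    rw [this, mul_add, Finset.mul_sum, Finset.mul_sum]
    simp only [mul_assoc]
  · exact Finset.sum_congr rfl fun v hv => by rw [(h' v hv).sim p a b a' b' hs]
  · rw [ok.L_eq hg, Finset.mul_sum]
    exact Finset.sum_congr rfl fun v hv => by rw [(h' v hv).slo t0 p σ hp hs]; ring

end Pool.Agent.MP_f3836a_nt.GV.A
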