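import Pool.Agent.MP_f3836a_nt.GV.SpecA

/-! The distinguished zero and level zero. -/

set_option autoImplicit false

namespace Pool.Agent.MP_f3836a_nt.GV.A

open Polynomial NumberField IsDedekindDomain VE VE.A

namespace ALz

theorem ex_prime {k : Type} [Field k] [NumberField k] (q : HeightOneSpectrum (𝓞 k)) :
    ∃ p : ℕ, p.Prime ∧ (p : 𝓞 k) ∈ q.asIdeal := by
  have := q.isPrime
  have h := Ideal.absNorm_mem q.asIdeal
  rw [← Nat.prod_factorization_pow_eq_self (mt Ideal.absNorm_eq_zero_iff.1 q.ne_bot), Finsupp.prod,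
    Nat.cast_prod, Ideal.IsPrime.prod_mem_iff] at h
  obtain ⟨p, hp, h⟩ := h
  exact ⟨p, Nat.prime_of_mem_primeFactors hp, this.mem_of_pow_mem _ (by simpa using h)⟩

theorem mem_map {A B R : Type} [CommRing A] [CommRing B] [CommRing R] [Algebra A B] (e : B →+* R)
    {I : Ideal A} {z : B} (h : z ∈ I.map (algebraMap A B)) :
    e z ∈ I.map (e.comp (algebraMap A B)) := by
  rw [← Ideal.map_map]
  exact Ideal.mem_map_of_mem e h

end ALz

open ALz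

theorem aLz : OfLz := by
  intro hNf hMd hSg hSt hNr hUn hKl hPa hOd hEn K 𝒜 _ _ _ _ _ S μ n _ T y N r md Z _ k _ _ e l lv W
    e0 θ c i0 hW reg sz dz kil hc ρ r0 rW
  choose φ hφ using fun i =>
    hNf (k i) (l i) (lv.add i) (hUn K 𝒜 S μ n T y N r md Z k e l lv W hW kil i)
  have ne : ∀ i (a : 𝓞 K), a ≠ 0 → e i (algebraMap (𝓞 K) 𝒜 a) ≠ 0 := fun i a h z =>
    ((hMd K 𝒜 S μ n T y N r md).2.2.2.2.2.2.2 (k i)
      ((algebraMap (𝓞 (k i)) (k i)).comp (e i))).2.2 inferInstance a h (by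
        rw [RingHom.comp_apply, z, map_zero])
  obtain ⟨mK, hK⟩ := hKl K 𝒜 S μ n T y N r md Z k e l lv W φ kil hφ
  have N0 : 0 < N := by linarith [md.nx]
  rw [hφ i0 _ (ne i0 ρ r0)]
  refine finsum_eq_zero_of_forall_eq_zero fun q => ?_
  by_cases hq : e i0 (algebraMap (𝓞 K) 𝒜 ρ) ∈ q.asIdeal
  swap
  · rw [((hOd (k i0)).1 q _ 0 0).2.1 hq, mul_zero]
  obtain ⟨p, hp, pq⟩ := ex_prime q
  have pW : ¬p ∣ W := fun d => q.isPrime.ne_top (by
    obtain ⟨a, b, h⟩ := rW.map ((e i0).comp (algebraMap (𝓞 K) 𝒜))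
    rw [Ideal.eq_top_iff_one, ← h, map_natCast]
    exact add_mem (Ideal.mul_mem_left _ _ hq)
      (Ideal.mul_mem_left _ _ (Ideal.mem_of_dvd _ (Nat.cast_dvd_cast d) pq)))
  have := q.isPrime
  obtain ⟨c1, σ0, H⟩ := hPa K 𝒜 S μ N e0 _ θ c p
    (q.asIdeal.comap ((e i0).comp (algebraMap (𝓞 K) 𝒜))) md.fm N0 md.mo reg sz hp inferInstance
    (by rwa [Ideal.mem_comap, map_natCast])
  rw [hEn K Z k (fun i => (e i).comp (algebraMap (𝓞 K) 𝒜)) φ p W hp pW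
    (fun i => (injective_iff_map_eq_zero _).2 fun a h => by_contra fun z => ne i a z h)
    (fun a a0 aW => by
      rw [← hc a a0 aW]
      exact Finset.sum_congr rfl fun i _ => (hφ i _ (ne i a a0)).symm)
    i0 q c N c1 σ0 dz.bij.2 pq sz.ne N0 fun σ hσ m0 => ?_, zero_mul]
  obtain ⟨m, hm, H⟩ := H σ hσ (max m0 (max mK 1))
  simp only [max_le_iff] at hm
  refine ⟨m, hm.1, fun J => ?_⟩
  obtain ⟨G, g1, ⟨M, M1, M2, M3⟩, g2, g3, g4⟩ := H J
  have sg := hSt K 𝒜 S μ n T y N r md p σ m G M hp g1 M1 M2 M3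
  refine ⟨fun i => e i G, (hNr K 𝒜 S μ n T y N r md Z k e l lv G).1
    ((hSg K 𝒜 S μ n T y N r md p σ m G hp).1 sg).1, hK p σ m G hp pW hm.2.1 sg, ?_,
    fun i hi => ?_, fun i q' h1 h2 h3 => ?_⟩
  · have := Ideal.mem_map_of_mem ((e i0).comp (algebraMap (𝓞 K) 𝒜)) g2
    rw [Ideal.map_pow, map_mul, map_pow] at this
    beta_reduce
    rw [dz.eq G]
    exact Ideal.pow_right_mono Ideal.map_comap_le _ this
  · obtain ⟨a, ha, b, hb, h⟩ := Submodule.mem_sup.1 g3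
    rw [RingHom.comp_apply, ← h, map_add]
    refine add_mem (Ideal.mem_sup_left ?_) (Ideal.mem_sup_right (mem_map _ hb))
    refine (Ideal.span_le (I := (Ideal.span {e i G}).comap (e i))).2 ?_ ha
    rintro z (rfl | rfl | rfl)
    · exact Ideal.mem_span_singleton_self _
    · simp [lv.ex i]
    · simp [dz.oth i hi]
  · have := mem_map (e i) (g4 q' h1 h2 h3)
    rwa [map_sub, map_add, map_pow, lv.ex i, zero_pow (by omega), zero_add, map_pow, map_pow,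
      map_natCast] at this

theorem aLev : OfLev := by
  intro hMd hGe hKi hLv hLz K 𝒜 _ _ _ _ S μ N W x θ ι κ _ _ D v0 e0 c fm mo hN deg hi hW ok reg sz
    hev ρ r0 rW
  obtain ⟨_, rfl⟩ : ∃ _ : Algebra ℤ[X] 𝒜, x = algebraMap ℤ[X] 𝒜 X :=
    ⟨(aeval x).toRingHom.toAlgebra, (aeval_X x).symm⟩
  obtain ⟨n, r, _, y, G, σ, gx, rfl, rfl⟩ := hGe K 𝒜 S μ N W fm mo hN deg hi hW
  obtain ⟨-, x0, -, -, -, -, -, md⟩ := hMd K 𝒜 S μ n G.T y G.Nx r gx.md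
  obtain ⟨Z, _, k, _, _, e, l, i0, lv, dz, hL, hl⟩ :=
    hLv K 𝒜 S μ n G.T y G.Nx r gx.md ι κ D _ ok v0 e0 θ c sz hev
  refine hl _ (hLz K 𝒜 S μ n G.T y G.Nx r gx.md Z k e l lv _ e0 θ c i0 hW reg sz dz
    (funext hL ▸ hKi K 𝒜 S μ n r y G σ ι κ D gx ok) (fun a a0 aW => ?_) ρ r0 rW)
  have ne : ∀ v, D.ev v (algebraMap (𝓞 K) 𝒜 a) ≠ 0 := fun v =>
    (md (κ v) (D.ev v)).2.2 inferInstance a a0
  have n0 : algebraMap (𝓞 K) 𝒜 a ≠ 0 := fun z => ne v0 (by rw [z, map_zero])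
  rw [← hL, ok.sym _ _ x0 n0 (fun v _ => ne v) ?_, ok.L_zero n0 ne]
  obtain ⟨s, t, h⟩ := aW.map (algebraMap (𝓞 K) 𝒜)
  rw [Ideal.eq_top_iff_one, ← h, map_natCast]
  exact add_mem (Ideal.mul_mem_left _ _ (Ideal.subset_span (by simp)))
    (Ideal.mul_mem_left _ _ (Ideal.subset_span (by simp)))

end Pool.Agent.MP_f3836a_nt.GV.A
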