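import Pool.Agent.MP_f3836a_nt.GV.SpecA

/-! Block A: elementary facts on a model and on functions with a single slope. -/

set_option autoImplicit false

namespace Pool.Agent.MP_f3836a_nt.GV.A

open Polynomial NumberField IsDedekindDomain VE VE.A

namespace AMd

theorem mx_eq {R B : Type} [CommRing R] [CommRing B] [Algebra R B] {n : ℕ}
    (y : Module.Basis (Fin n) R B) {M : Tab R n} (h : ∀ i, M i = Algebra.leftMulMatrix y (y i))
    (g : B) : Mx M (y.repr g) = Algebra.leftMulMatrix y g := by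
  conv_rhs => rw [← y.sum_repr g]
  simp only [Mx, h, map_sum, map_smul]

theorem mo_ne {A B : Type} [CommRing A] [Nontrivial A] [CommRing B] [Algebra A B]
    {S : AddSubmonoid ℕ} {μ : Module.Basis S A B} {d : ℕ} {g : B} (h : Mo μ d g) : g ≠ 0 := by
  rintro rfl
  obtain ⟨⟨_, h⟩, -⟩ := h
  simp at h

theorem ss_eval {Q : ℤ[X]} {p d σ : ℕ} (hp : p.Prime) (h : SS Q 0 p d σ) : Q.eval 0 ≠ 0 := by
  obtain ⟨M, -, h2, h3⟩ := h
  have h4 := congrArg (eval 0) h3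
  simp only [eval_comp, eval_add, eval_mul, eval_C, eval_X, mul_zero, add_zero] at h4
  rw [h4, ← coeff_zero_eq_eval_zero]
  exact mul_ne_zero (pow_ne_zero _ (Int.natCast_ne_zero.2 hp.ne_zero)) fun e => h2 (e ▸ dvd_zero _)

theorem ss_mul {Q Q' : ℤ[X]} {p d d' σ : ℕ} (hp : p.Prime) (h : SS Q 0 p d σ)
    (h' : SS Q' 0 p d' σ) : SS (Q * Q') 0 p (d + d') σ := by
  obtain ⟨M, h1, h2, h3⟩ := h
  obtain ⟨M', h4, h5, h6⟩ := h'
  refine ⟨M * M', h1.mul h4, fun k => ?_, ?_⟩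
  · rw [mul_coeff_zero] at k
    exact ((Nat.prime_iff_prime_int.1 hp).dvd_or_dvd k).elim h2 h5
  · rw [mul_comp, h3, h6, add_mul, pow_add, C_mul, mul_mul_mul_comm]

theorem ss_pow {Q : ℤ[X]} {p d σ : ℕ} (hp : p.Prime) (h : SS Q 0 p d σ) (k : ℕ) :
    SS (Q ^ k) 0 p (d * k) σ := by
  induction k with
  | zero => exact ⟨1, monic_one, by
      rw [coeff_one_zero]; exact (Nat.prime_iff_prime_int.1 hp).not_dvd_one, by simp⟩
  | succ k ih => rw [pow_succ, mul_add_one]; exact ss_mul hp ih h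

theorem ss_near {Q Q' E : ℤ[X]} {p d σ J : ℕ} (hp : p.Prime) (h : SS Q 0 p d σ)
    (hQ : Q'.IsMonicOfDegree d) (e : E * C ((p : ℤ) ^ J) = Q - Q') (hJ : d * σ < J) :
    SS Q' 0 p d σ := by
  obtain ⟨M, -, h2, h3⟩ := h
  obtain ⟨j, rfl⟩ := Nat.exists_eq_add_of_lt hJ
  have hp0 : (p : ℤ) ≠ 0 := Int.natCast_ne_zero.2 hp.ne_zero
  have h4 : Q'.comp (C 0 + C ((p : ℤ) ^ σ) * X) = C ((p : ℤ) ^ (d * σ)) *
      (M - C (p : ℤ) * (C ((p : ℤ) ^ j) * E.comp (C 0 + C ((p : ℤ) ^ σ) * X))) := by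
    rw [show Q' = Q - E * C ((p : ℤ) ^ (d * σ + j + 1)) by rw [e]; ring, sub_comp, mul_comp, C_comp,
      h3, pow_succ, pow_add, C_mul, C_mul]
    ring
  refine ⟨_, ?_, fun k => h2 ?_, h4⟩
  · have h5 := congrArg leadingCoeff h4
    rw [C_0, zero_add, leadingCoeff_comp (by
      rw [natDegree_C_mul_X _ (pow_ne_zero _ hp0)]; exact one_ne_zero), hQ.leadingCoeff_eq,
      hQ.natDegree_eq, leadingCoeff_C_mul_X, leadingCoeff_mul, leadingCoeff_C, one_mul, ← pow_mul,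
      mul_comm σ] at h5
    rw [C_0, zero_add]
    exact mul_left_cancel₀ (pow_ne_zero _ hp0) (h5.symm.trans (mul_one _).symm)
  · rw [coeff_sub, coeff_C_mul] at k
    exact (dvd_sub_left (dvd_mul_right _ _)).1 k

end AMd

open AMd in
theorem aMd : OfMd := by
  intro hF K 𝒜 _ _ _ _ _ S μ n _ T y N r md
  have dom : IsDomain 𝒜 := (hF _ _ S μ md.fm).dom inferInstance
  have h3 : ∀ q : ℤ[X], algebraMap ℤ[X] 𝒜 q = aeval (algebraMap ℤ[X] 𝒜 X) q := fun q =>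
    RingHom.congr_fun (ringHom_ext' (f := algebraMap ℤ[X] 𝒜)
      (g := (aeval (algebraMap ℤ[X] 𝒜 X) : ℤ[X] →ₐ[ℤ] 𝒜)) (RingHom.ext_int _ _) (by simp)) q
  have h4 : ∀ g, T.N (y.repr g) = Algebra.norm ℤ[X] g := fun g => by
    rw [Tb.N, Nm, mx_eq y md.tab, Algebra.norm_eq_matrix_det y]
  refine ⟨dom, mo_ne md.mo, h3, h4, fun g k => ?_, fun m g h => ⟨mo_ne h, ?_⟩, fun A hA => ?_,
    fun κ _ ev => ?_⟩
  · have e : (Pi.single 0 1 : Fin n → ℤ[X]) = y.repr 1 := by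
      rw [← md.y0, y.repr_self, Finsupp.single_eq_pi_single]
    rw [pwr, mx_eq y md.tab, ← map_pow, e, Algebra.leftMulMatrix_mulVec_repr, mul_one]
  · have := md.ok.det m _ ((md.mon m g).1 h)
    rw [h4] at this
    exact ⟨this.2, this.1⟩
  · obtain ⟨g, rfl⟩ := y.equivFun.surjective A
    rw [y.equivFun_apply, h4, Algebra.norm_ne_zero_iff_of_basis y]
    rintro rfl
    exact hA (map_zero _)
  · have h5 : ∀ g, ev g = ∑ i, aeval (ev (algebraMap ℤ[X] 𝒜 X)) (y.repr g i) * ev (y i) := fun g => by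
      conv_lhs => rw [← y.sum_repr g, map_sum]
      refine Finset.sum_congr rfl fun i _ => ?_
      rw [Algebra.smul_def, map_mul, h3]
      exact congrArg (· * _) (aeval_algHom_apply ev.toIntAlgHom _ _).symm
    refine ⟨⟨by simp only [md.y0, map_one], fun i j => ?_⟩, h5, fun _ a ha e => ?_⟩
    · rw [← map_mul, h5]
      simp only [Tb.fib, Matrix.map_apply, md.tab, Algebra.leftMulMatrix_eq_repr_mul]
    · obtain ⟨b, hb⟩ := Ideal.mem_span_singleton.1 (Ideal.absNorm_mem (Ideal.span {a}))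
      have h6 := congrArg (fun u => ev (algebraMap (𝓞 K) 𝒜 u)) hb
      simp only [map_natCast, map_mul, e, zero_mul, Nat.cast_eq_zero, Ideal.absNorm_eq_zero_iff,
        Ideal.span_singleton_eq_bot] at h6
      exact ha h6

open AMd in
theorem aSg : OfSg := by
  intro hF hN hM K 𝒜 _ _ _ _ _ S μ n _ T y N r md p σ m g hp
  have fm := hF _ _ S μ md.fm
  obtain ⟨-, -, -, -, -, h6, -⟩ := hM K 𝒜 S μ n T y N r md
  refine ⟨fun h => ⟨ss_eval hp h.2, fun m' g' h' => ⟨?_, ?_⟩, fun k => ⟨?_, ?_⟩,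
    fun J g' h' ⟨c, hc⟩ hJ => ⟨h', ?_⟩⟩, fun h h' => ⟨h, _, (h6 m g h).2.monic, ?_, by simp⟩⟩
  · rw [mul_add]; exact fm.mul _ _ _ _ h.1 h'.1
  · rw [map_mul, mul_add]; exact ss_mul hp h.2 h'.2
  · rw [← mul_assoc]; exact fm.pow _ _ _ h.1
  · rw [map_pow, ← mul_assoc]; exact ss_pow hp h.2 k
  · obtain ⟨E, hE⟩ := Ideal.mem_span_singleton'.1
      ((hN ℤ[X] 𝒜 (Fin n) y).1 (Ideal.span {C ((p : ℤ) ^ J)}) g g' (by
        rw [Ideal.map_span, Set.image_singleton, Ideal.mem_span_singleton, hc]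
        simp))
    exact ss_near hp h.2 (h6 m g' h').2 hE hJ
  · rwa [coeff_zero_eq_eval_zero]

end Pool.Agent.MP_f3836a_nt.GV.A
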