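import Pool.Agent.MP_f3836a_nt.GV.SpecL

/-! The filtration by the order of vanishing at a simple zero. -/

set_option autoImplicit false

namespace Pool.Agent.MP_f3836a_nt.GV.A

open Polynomial NumberField IsDedekindDomain

namespace AMk

variable {O B : Type} [CommRing O] [IsDomain O] [CommRing B] [Algebra O B] {l : B →ₐ[O] O}
  {s w a : B} {k : ℕ}

theorem pow (k : ℕ) : s ^ k ∈ Mk l s k := ⟨1, by simp, by simp⟩

theorem zero (h : l s = 0) (ha : a ∈ Mk l s (k + 1)) : l a = 0 := by
  obtain ⟨t, ht, c, e⟩ := ha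
  have := congrArg l e
  rw [map_mul, map_mul, map_pow, h, zero_pow k.succ_ne_zero, zero_mul] at this
  exact (mul_eq_zero.1 this).resolve_left ht

omit [IsDomain O] in
theorem dv (h : Sz l s w (l w)) (ha : l a = 0) : s ∣ a * w := by simpa [ha] using h.dv a

variable [IsDomain B]

theorem can (hs : s ≠ 0) (k d : ℕ) (z : B) (h : s ^ k * z ∈ Mk l s (k + d)) : z ∈ Mk l s d := by
  obtain ⟨t, ht, e⟩ := h
  rw [pow_add, mul_left_comm] at e
  exact ⟨t, ht, (mul_dvd_mul_iff_left (pow_ne_zero k hs)).1 e⟩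

theorem can1 (hs : s ≠ 0) {z : B} (h : s * z ∈ Mk l s (k + 1)) : z ∈ Mk l s k :=
  can hs 1 k z (by rwa [pow_one, add_comm])

theorem div (hs : s ≠ 0) (h : Sz l s w (l w)) (k : ℕ) : ∀ a ∈ Mk l s k, s ^ k ∣ w ^ k * a := by
  induction k with
  | zero => simp
  | succ k ih =>
    intro a ha
    obtain ⟨b, e⟩ := dv h (zero h.ex ha)
    rw [pow_succ, pow_succ, mul_assoc, mul_comm w, e, mul_left_comm, mul_comm _ s]
    exact mul_dvd_mul_left s (ih b (can1 hs (e ▸ Ideal.mul_mem_right w _ ha)))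

end AMk

open AMk in
theorem aMk : MkS := by
  intro O B _ _ _ _ _ l x w ξ hs h
  have lx : l x = ξ := by simpa [sub_eq_zero] using h.ex
  have ae : aeval x (X - C ξ) = x - algebraMap O B ξ := by simp
  set s := x - algebraMap O B ξ
  have gen : ∀ k a, ∃ (D : O) (q : O[X]), D ≠ 0 ∧ algebraMap O B D * a - aeval x q ∈ Mk l s k := by
    intro k a
    induction k with
    | zero => exact ⟨1, 0, one_ne_zero, 1, by simp, by simp⟩
    | succ k ih =>
      obtain ⟨D, q, hD, hq⟩ := ih
      obtain ⟨b, e⟩ := div hs h k _ hq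
      obtain ⟨c, e'⟩ := dv (a := algebraMap O B (l w ^ k) * b - algebraMap O B (l b) * w ^ k) h
        (by simp [mul_comm])
      refine ⟨l w ^ k * D, C (l w ^ k) * q + C (l b) * (X - C ξ) ^ k,
        mul_ne_zero (pow_ne_zero k h.ne) hD, w ^ (k + 1),
        by rw [map_pow]; exact pow_ne_zero _ h.ne, c, ?_⟩
      rw [map_add, map_mul, map_mul, map_mul, map_pow (aeval x), ae, aeval_C, aeval_C]
      linear_combination algebraMap O B (l w ^ k) * w * e + s ^ k * e'
  refine ⟨fun k o a ho ⟨t, ht, e⟩ => ⟨t * algebraMap O B o, by simpa using ⟨ht, ho⟩, ?_⟩,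
    fun j k hjk a ⟨t, ht, e⟩ => ⟨t, ht, (pow_dvd_pow s hjk).trans e⟩, pow,
    fun j k a ⟨t, ht, e⟩ b ⟨t', ht', e'⟩ => ⟨t * t', by simpa using ⟨ht, ht'⟩, ?_⟩,
    fun a k ha => ⟨w ^ k, by rw [map_pow]; exact pow_ne_zero _ h.ne, ?_⟩, div hs h, can hs,
    gen, fun k => ?_, fun k a => ?_⟩
  · rwa [mul_assoc]
  · rw [pow_add, mul_mul_mul_comm]
    exact mul_dvd_mul e e'
  · rw [← mul_pow, mul_comm]
    exact pow_dvd_pow_of_dvd (dv h ha) k
  · induction k with
    | zero => simp
    | succ k ih =>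
      intro q hq
      have := zero h.ex hq
      rw [← aeval_algHom_apply, lx, coe_aeval_eq_eval] at this
      obtain ⟨q, rfl⟩ := dvd_iff_isRoot.2 this
      rw [map_mul, ae] at hq
      rw [pow_succ']
      exact mul_dvd_mul_left _ (ih q (can1 hs hq))
  · choose D q hD hq using fun i => gen k (a i)
    have m : ((X - C ξ) ^ k).Monic := (monic_X_sub_C ξ).pow k
    let v : Fin (k + 1) → degreeLT O k := fun i => ⟨q i %ₘ (X - C ξ) ^ k, mem_degreeLT.2 (by
      simpa [degree_pow] using degree_modByMonic_lt (q i) m)⟩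
    obtain ⟨g, e, i, hi⟩ := Fintype.not_linearIndependent_iff.1 fun c : LinearIndependent O v => by
      have := c.fintype_card_le_finrank
      rw [Module.finrank_eq_card_basis (degreeLT.basis O k)] at this
      simp at this
    refine ⟨fun i => g i * D i, fun c => mul_ne_zero hi (hD i) (congrFun c i), ?_⟩
    have e1 := congrArg (fun p : degreeLT O k => aeval x (p : O[X])) e
    simp only [AddSubmonoidClass.coe_finsetSum, SetLike.val_smul, map_sum, map_smul,
      ZeroMemClass.coe_zero, map_zero] at e1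
    rw [← sub_zero (∑ i, _), ← e1, ← Finset.sum_sub_distrib]
    refine sum_mem fun i _ => ?_
    have e2 := congrArg (aeval x) (modByMonic_add_div (q i) ((X - C ξ) ^ k))
    rw [map_add, map_mul, map_pow, ae] at e2
    convert Ideal.mul_mem_left _ (algebraMap O B (g i)) (add_mem (hq i)
      (Ideal.mul_mem_right (aeval x (q i /ₘ (X - C ξ) ^ k)) _ (pow k))) using 1
    rw [Algebra.smul_def, Algebra.smul_def, map_mul, ← e2]
    ring

end Pool.Agent.MP_f3836a_nt.GV.A
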