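import Pool.Agent.MP_f3836a_nt.GV.SpecL

/-! Norms modulo ideals, and polynomials close to a power. -/

set_option autoImplicit false

namespace Pool.Agent.MP_f3836a_nt.GV.A

open Polynomial NumberField IsDedekindDomain

namespace ANc

theorem repr_mem {Λ B ι : Type} [CommRing Λ] [CommRing B] [Algebra Λ B] (b : Module.Basis ι Λ B)
    {I : Ideal Λ} {x : B} (hx : x ∈ I.map (algebraMap Λ B)) (y : B) (i : ι) :
    b.repr (x * y) i ∈ I := by
  induction hx using Submodule.span_induction generalizing y with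
  | mem x h =>
    obtain ⟨r, hr, rfl⟩ := h
    rw [← Algebra.smul_def, map_smul]
    exact I.mul_mem_right _ hr
  | zero => simp
  | add x x' _ _ h h' =>
    rw [add_mul, map_add]
    exact I.add_mem (h y) (h' y)
  | smul c x _ h =>
    rw [smul_eq_mul, mul_comm c, mul_assoc]
    exact h _

theorem pw {O : Type} [CommRing O] [IsDomain O] (ξ : O) (n : ℕ) :
    ((X - C 1) ^ n : O[X]).IsMonicOfDegree n ∧ IsUnit (((X - C 1) ^ n : O[X]).coeff 0) ∧
      ((X - C 1) ^ n : O[X]).scaleRoots ξ = (X - C ξ) ^ n :=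
  ⟨by simpa using (isMonicOfDegree_X_sub_one (1 : O)).pow n,
    by simpa [coeff_zero_eq_eval_zero] using isUnit_neg_one.pow n,
    by rw [pow_scaleRoots_of_isReduced, X_sub_C_scaleRoots, one_mul]⟩

theorem key {O : Type} [CommRing O] [IsDomain O] [IsLocalRing O] {ξ ϖ : O} {c : ℕ} {W : O[X]}
    (hϖ : ¬IsUnit ϖ) (hW : W.IsMonicOfDegree c) (h : C (ϖ * ξ ^ c) ∣ W - (X - C ξ) ^ c) :
    ∃ W' : O[X], W'.IsMonicOfDegree c ∧ IsUnit (W'.coeff 0) ∧ W = W'.scaleRoots ξ := by
  rcases eq_or_ne c 0 with rfl | c0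
  · exact ⟨1, by simp, by simp, by simpa using hW⟩
  have d := hW.natDegree_sub_lt c0 (by simpa using (isMonicOfDegree_X_sub_one ξ).pow c)
  obtain ⟨E, e, hE⟩ : ∃ E, W - (X - C ξ) ^ c = C (ϖ * ξ ^ c) * E ∧ E.natDegree < c := by
    obtain ⟨E, e⟩ := h
    by_cases k : ϖ * ξ ^ c = 0
    · exact ⟨0, by rw [e, k, C_0, zero_mul, zero_mul], c0.bot_lt⟩
    · exact ⟨E, e, by rwa [e, natDegree_C_mul k] at d⟩
  obtain ⟨p1, p2, p3⟩ := pw ξ c
  have m : ((X - C 1) ^ c + C ϖ * E.comp (C ξ * X)).IsMonicOfDegree c :=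
    p1.add_right (((natDegree_C_mul_le _ _).trans (natDegree_comp_le.trans
      (mul_le_of_le_one_right' ((natDegree_C_mul_le _ _).trans natDegree_X_le)))).trans_lt hE)
  refine ⟨_, m, ?_, Polynomial.ext fun i => ?_⟩
  · rw [coeff_add, coeff_C_mul]
    exact (IsLocalRing.isUnit_or_isUnit_of_isUnit_add (b := -(ϖ * _))
      (by rwa [add_neg_cancel_right])).resolve_right fun k =>
        hϖ (isUnit_of_mul_isUnit_left ((IsUnit.neg_iff _).1 k))
  · rw [eq_add_of_sub_eq' e, ← p3, coeff_add, coeff_scaleRoots, coeff_scaleRoots, coeff_add,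
      m.natDegree_eq, p1.natDegree_eq, add_mul, coeff_C_mul, coeff_C_mul, comp_C_mul_X_coeff]
    rcases le_or_gt i c with k | k
    · obtain ⟨n, rfl⟩ := Nat.exists_eq_add_of_le k
      rw [Nat.add_sub_cancel_left]
      ring
    · simp [coeff_eq_zero_of_natDegree_lt (hE.trans k)]

end ANc

open ANc

theorem aNc : NcS := by
  classical
  intro Λ B ι _ _ _ _ b
  have h1 : ∀ (I : Ideal Λ) (g g' : B), g - g' ∈ I.map (algebraMap Λ B) →
      Algebra.norm Λ g - Algebra.norm Λ g' ∈ I := fun I g g' h => by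
    rw [← Ideal.Quotient.eq, Algebra.norm_eq_matrix_det b, Algebra.norm_eq_matrix_det b,
      RingHom.map_det, RingHom.map_det]
    refine congrArg _ (Matrix.ext fun i j => Ideal.Quotient.eq.2 ?_)
    have := repr_mem b h (b j) i
    rwa [← Algebra.leftMulMatrix_eq_repr_mul, map_sub] at this
  have h2 : ∀ g : B, g ∣ algebraMap Λ B (Algebra.norm Λ g) := fun g => by
    refine ⟨b.equivFun.symm ((Algebra.leftMulMatrix b g).adjugate.mulVec (b.repr 1)),
      b.equivFun.injective ?_⟩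
    rw [b.equivFun_apply, b.equivFun_apply, ← Algebra.leftMulMatrix_mulVec_repr,
      ← b.equivFun_apply (b.equivFun.symm _), LinearEquiv.apply_symm_apply, Matrix.mulVec_mulVec,
      Matrix.mul_adjugate, Algebra.norm_eq_matrix_det b, Algebra.algebraMap_eq_smul_one, map_smul,
      Matrix.smul_mulVec, Matrix.one_mulVec, Finsupp.coe_smul]
  refine ⟨h1, h2, fun I g => ?_, Algebra.norm_algebraMap_of_basis b⟩
  rw [Ideal.eq_top_iff_one, Ideal.eq_top_iff_one, Ideal.mem_span_singleton_sup,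
    Ideal.mem_span_singleton_sup]
  constructor
  · rintro ⟨a, i, hi, e⟩
    have := h1 I 1 (a * g) (by rwa [← e, add_sub_cancel_left])
    rw [map_one, map_mul] at this
    exact ⟨_, _, this, add_sub_cancel _ _⟩
  · rintro ⟨a, i, hi, e⟩
    obtain ⟨c, hc⟩ := h2 g
    refine ⟨algebraMap Λ B a * c, _, Ideal.mem_map_of_mem _ hi, ?_⟩
    rw [mul_assoc, mul_comm c, ← hc, ← map_mul, ← map_add, e, map_one]

theorem aSc : ScS := by
  intro O _ _ _ ξ ϖ b j c W hϖ hb hW h
  have e : ∀ p : O[X], C b ∣ p ↔ p.map (Ideal.Quotient.mk (Ideal.span {b})) = 0 := fun p => by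
    simp [C_dvd_iff_dvd_coeff, Polynomial.ext_iff, Ideal.Quotient.eq_zero_iff_dvd]
  rw [pow_add, ← mul_sub, e, Polynomial.map_mul,
    (((monic_X_sub_C ξ).pow j).map _).mul_right_eq_zero_iff, ← e] at h
  obtain ⟨W', w1, w2, rfl⟩ := key hϖ hW ((map_dvd C hb).trans h)
  obtain ⟨p1, p2, p3⟩ := pw ξ j
  refine ⟨?_, _, p1.mul w1, ?_, ?_⟩
  · rw [coeff_scaleRoots, w1.natDegree_eq, Nat.sub_zero]
    exact w2.mul_left_dvd.2 dvd_rfl
  · rw [mul_coeff_zero]
    exact p2.mul w2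
  · rw [mul_scaleRoots_of_noZeroDivisors, p3]

end Pool.Agent.MP_f3836a_nt.GV.A
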