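import Pool.Agent.MP_f3836a_nt.GV.SpecA

/-! Block A: primes of the norm at zero, and units. -/

set_option autoImplicit false

namespace Pool.Agent.MP_f3836a_nt.GV.A

open Polynomial NumberField IsDedekindDomain VE VE.A

namespace ANr

theorem ev0 {B O : Type} [CommRing B] [CommRing O] [Algebra ℤ[X] B] (e : B →+* O)
    (h : e (algebraMap ℤ[X] B X) = 0) (Q : ℤ[X]) :
    e (algebraMap ℤ[X] B Q) = ((Q.eval 0 : ℤ) : O) :=
  RingHom.congr_fun (Polynomial.ringHom_ext' (f := e.comp (algebraMap ℤ[X] B))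
    (g := (Int.castRingHom O).comp (evalRingHom 0)) (RingHom.ext_int _ _) (by simpa using h)) Q

theorem lyo {B O : Type} [CommRing B] [CommRing O] [Algebra.IsIntegral ℤ O] (e : B →+* O)
    (m : Ideal B) [m.IsPrime] (h : RingHom.ker e ≤ m) :
    ∃ q : Ideal O, q.IsPrime ∧ q.comap e = m := by
  let _ := e.toAlgebra
  have : Algebra.IsIntegral B O := Algebra.IsIntegral.tower_top ℤ
  obtain ⟨q, -, h1, h2⟩ := Ideal.exists_ideal_over_prime_of_isIntegral (S := O) m ⊥ h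
  exact ⟨q, h1, h2⟩

theorem pw {k : Type} [Field k] [NumberField k] (c : ℕ) (hc : c ≠ 0) (u : (𝓞 k)ˣ) :
    ∃ (E : ℕ) (γ : 𝓞 k), 0 < E ∧ (u : 𝓞 k) ^ E = 1 + c * γ := by
  have : Finite (𝓞 k ⧸ Ideal.span {(c : 𝓞 k)}) :=
    Ideal.finiteQuotientOfFreeOfNeBot _ (by simpa using hc)
  obtain ⟨E, h0, h⟩ := (isOfFinOrder_of_finite (Units.map
    (Ideal.Quotient.mk (Ideal.span {(c : 𝓞 k)})).toMonoidHom u)).exists_pow_eq_one
  have h1 : Ideal.Quotient.mk (Ideal.span {(c : 𝓞 k)}) ((u : 𝓞 k) ^ E) =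
      Ideal.Quotient.mk _ 1 := by simpa using congrArg Units.val h
  obtain ⟨γ, hγ⟩ := Ideal.mem_span_singleton.1 (Ideal.Quotient.eq.1 h1)
  exact ⟨E, γ, h0, by rw [← hγ]; ring⟩

theorem lpow {O : Type} [CommRing O] [IsDomain O] (l : O → ℝ)
    (h : ∀ u u', u ≠ 0 → u' ≠ 0 → l (u * u') = l u + l u') (u : O) (hu : u ≠ 0) (E : ℕ) :
    l (u ^ E) = E * l u := by
  induction E with
  | zero =>
    have := h 1 1 one_ne_zero one_ne_zero
    simp only [mul_one, pow_zero, Nat.cast_zero, zero_mul] at this ⊢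
    linarith
  | succ E ih =>
    rw [pow_succ, h _ _ (pow_ne_zero _ hu) hu, ih]
    push_cast
    ring

end ANr

open ANr in
theorem aNr : OfNr := by
  intro hNc _ K 𝒜 _ _ _ _ _ S μ n _ T y N r0 _ Z _ k _ _ e l hL G
  obtain ⟨-, h2, h3, -⟩ := hNc ℤ[X] 𝒜 (Fin n) y
  refine ⟨fun h i hi => h ?_, fun r hr hd => ?_⟩
  · have := map_dvd (e i) (h2 G)
    rwa [hi, ev0 _ (hL.ex i), zero_dvd_iff, Int.cast_eq_zero] at this
  have : Fact r.Prime := ⟨hr⟩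
  set I : Ideal ℤ[X] := RingHom.ker ((Int.castRingHom (ZMod r)).comp (evalRingHom 0)) with hI
  have mI : ∀ Q, Q ∈ I ↔ (r : ℤ) ∣ Q.eval 0 := fun Q => ZMod.intCast_zmod_eq_zero_iff_dvd _ _
  have h4 : Ideal.span {G} ⊔ I.map (algebraMap ℤ[X] 𝒜) ≠ ⊤ := fun h => RingHom.ker_ne_top _
    (by rwa [h3, sup_eq_right.2 ((Ideal.span_singleton_le_iff_mem _).2 ((mI _).2 hd))] at h)
  obtain ⟨m, hm, h5⟩ := Ideal.exists_le_maximal _ h4
  have hp := hm.isPrime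
  have h6 : ∀ Q ∈ I, algebraMap ℤ[X] 𝒜 Q ∈ m := fun Q hQ =>
    h5 (Ideal.mem_sup_right (Ideal.mem_map_of_mem _ hQ))
  obtain ⟨i, hi⟩ : ∃ i, RingHom.ker (e i) ≤ m := by
    by_contra hn
    choose g g1 g2 using fun i => SetLike.not_le_iff_exists.1 (not_exists.1 hn i)
    obtain ⟨j, hj⟩ := hL.rad (∏ i, g i) fun i => by
      rw [map_prod]
      exact Finset.prod_eq_zero (Finset.mem_univ i) (g1 i)
    obtain ⟨i, -, hi⟩ := Ideal.IsPrime.prod_mem_iff.1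
      (hp.mem_of_pow_mem j (m.mem_of_dvd hj (h6 X ((mI _).2 (by simp)))))
    exact g2 i hi
  obtain ⟨q, q1, q2⟩ := lyo (e i) m hi
  have h7 : (r : 𝓞 (k i)) ∈ q := by
    have := h6 r ((mI _).2 (by simp))
    rwa [← q2, Ideal.mem_comap, map_natCast, map_natCast] at this
  refine ⟨i, ⟨q, q1, fun h => hr.ne_zero ?_⟩, h7, ?_⟩
  · rwa [h, Ideal.mem_bot, Nat.cast_eq_zero] at h7
  · exact Ideal.mem_comap.1 (q2 ▸ h5 (Ideal.mem_sup_left (Ideal.mem_span_singleton_self G)))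

open ANr in
theorem aUn : OfUn := by
  intro hFm hSg hNr K 𝒜 _ _ _ _ _ S μ n _ T y N r0 hM Z _ k _ _ e l hL W hW hK i u
  classical
  have hA := hFm _ _ S μ hM.fm
  obtain ⟨c, hc, h1⟩ := hL.cond
  obtain ⟨E, γ, hE, h2⟩ := pw c hc u
  obtain ⟨a, ha⟩ := h1 (Pi.single i γ)
  obtain ⟨d, hd⟩ := hA.bdd (1 + a)
  obtain ⟨p, hp1, hp⟩ := Nat.exists_infinite_primes (W + 1)
  have h3 : Mo μ (N * (d + 1)) (algebraMap ℤ[X] 𝒜 X ^ (d + 1) + (1 + a)) :=
    hA.add _ _ _ (hA.pow _ _ _ hM.mo) fun t ht => hd t (le_trans (by nlinarith [hM.nx]) ht)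
  set G := algebraMap ℤ[X] 𝒜 X ^ (d + 1) + (1 + a) with hG
  have h4 : e i G = u ^ E := by simp [hG, hL.ex, ha, h2]
  have h5 : ∀ j, j ≠ i → e j G = 1 := fun j hj => by simp [hG, hL.ex, ha, hj]
  have h6 : ∀ r : ℕ, r.Prime → ¬(r : ℤ) ∣ (Algebra.norm ℤ[X] G).eval 0 := fun r hr h => by
    obtain ⟨j, q, -, hq⟩ := (hNr K 𝒜 S μ n T y N r0 hM Z k e l hL G).2 r hr h
    refine q.isPrime.ne_top (Ideal.eq_top_of_isUnit_mem _ hq ?_)
    by_cases hj : j = i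
    · subst hj
      exact h4 ▸ u.isUnit.pow E
    · exact h5 j hj ▸ isUnit_one
  have h7 := hK p 0 (d + 1) G hp (Nat.not_dvd_of_pos_of_lt hW hp1) (by omega)
    ((hSg K 𝒜 S μ n T y N r0 hM p 0 (d + 1) G hp).2 h3 (h6 p hp))
    fun r hr h => absurd h (h6 r hr)
  beta_reduce at h7
  rw [Finset.sum_eq_single i (fun j _ hj => by
    simpa [h5 j hj] using lpow (l j) (hL.add j) 1 one_ne_zero 0) (by simp), h4,
    lpow (l i) (hL.add i) _ u.ne_zero] at h7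
  exact (mul_eq_zero.1 h7).resolve_left (by positivity)

end Pool.Agent.MP_f3836a_nt.GV.A
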