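import Pool.Agent.MP_f3836a_nt.GV.SpecL

/-! Block A: norms of elements of the filtration. -/

set_option autoImplicit false

namespace Pool.Agent.MP_f3836a_nt.GV.A

open Polynomial NumberField IsDedekindDomain Matrix

namespace ANrm

/-- the determinant of a matrix with columns in an ideal lies in the ideal -/
theorem det_mem {Λ B : Type} [CommRing Λ] [CommRing B] [Algebra Λ B] {N : ℕ}
    (η : Module.Basis (Fin N) Λ B) (M : Ideal B) (A : Matrix (Fin N) (Fin N) Λ)
    (h : ∀ j, η.equivFun.symm (fun i => A i j) ∈ M) : algebraMap Λ B A.det ∈ M := by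
  have e : A *ᵥ cramer A (η.equivFun 1) = ∑ j, cramer A (η.equivFun 1) j • fun i => A i j := by
    ext i
    simp [mulVec, dotProduct, mul_comm]
  rw [Algebra.algebraMap_eq_smul_one, ← η.equivFun.symm_apply_apply (A.det • 1), map_smul,
    ← mulVec_cramer, e, map_sum]
  exact sum_mem fun j _ => by
    rw [map_smul, Algebra.smul_def]
    exact M.mul_mem_left _ (h j)

end ANrm

theorem aNrm : NrmS := by
  intro O B _ _ _ _ _ _ _ N _ η M l w ξ _ H k g hg
  have pol : ∀ q : O[X], algebraMap O[X] B q ∈ M k → (X - C ξ) ^ k ∣ q := fun q hq =>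
    H.pol k q (by rwa [aeval_algebraMap_apply, aeval_X_left_apply])
  have col : ∀ j, η.equivFun.symm (fun i => Algebra.leftMulMatrix η g i j) ∈ M k := fun j => by
    have : (fun i => Algebra.leftMulMatrix η g i j) = η.equivFun (g * η j) :=
      funext fun i => Algebra.leftMulMatrix_eq_repr_mul η g i j
    rw [this, η.equivFun.symm_apply_apply]
    exact (M k).mul_mem_right _ hg
  obtain ⟨V, hV⟩ := pol _ (ANrm.det_mem η _ _ col)
  refine ⟨V, (Algebra.norm_eq_matrix_det η g).trans hV, mem_Cn.2 fun m hm => ?_⟩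
  choose z hz using fun i => pol (cramer (Algebra.leftMulMatrix η g) (η.equivFun m) i)
    (ANrm.det_mem η _ _ fun j => by
      by_cases c : j = i
      · simpa [c, updateCol_apply] using hm
      · simpa only [updateCol_ne c] using col j)
  refine ⟨η.equivFun.symm z, η.equivFun.injective (funext fun i => ?_)⟩
  have e := congrFun (mulVec_cramer (Algebra.leftMulMatrix η g) (η.equivFun m)) i
  rw [show cramer (Algebra.leftMulMatrix η g) (η.equivFun m) = (X - C ξ) ^ k • z from funext hz,
    mulVec_smul, hV, Pi.smul_apply, Pi.smul_apply, smul_eq_mul, smul_eq_mul, mul_assoc,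
    mul_right_inj' (pow_ne_zero _ (X_sub_C_ne_zero ξ))] at e
  rw [← Algebra.smul_def, map_smul, Pi.smul_apply, smul_eq_mul, ← e,
    ← η.equivFun.apply_symm_apply z, η.equivFun.symm_apply_apply]
  exact congrFun (Algebra.leftMulMatrix_mulVec_repr η g _) i

end Pool.Agent.MP_f3836a_nt.GV.A
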