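import Pool.Agent.MP_f3836a_nt.GV.SpecA
import Pool.Agent.MP_f3836a_nt.VE.ANfb

/-! Orders at the primes of a number field, and the part of a power over a prime number. -/

set_option autoImplicit false

namespace Pool.Agent.MP_f3836a_nt.GV.A

open Polynomial NumberField IsDedekindDomain VE VE.A

namespace AOd

variable {k : Type} [Field k] [NumberField k] (q : HeightOneSpectrum (𝓞 k))

/-- the order as a natural number -/
noncomputable def ct (u : 𝓞 k) : ℕ :=
  (Associates.mk q.asIdeal).count (Associates.mk (Ideal.span {u})).factors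

variable {q} {u b : 𝓞 k}

theorem od_eq (hu : u ≠ 0) : od q u = ct q u := by
  simp only [od, ct, HeightOneSpectrum.intValuation_if_neg _ hu, WithZero.log_exp, neg_neg,
    Int.cast_natCast]

theorem key (hu : u ≠ 0) (J : ℕ) : u ∈ q.asIdeal ^ J ↔ (J : ℝ) ≤ od q u := by
  rw [← HeightOneSpectrum.intValuation_le_pow_iff_mem, od_eq hu,
    HeightOneSpectrum.intValuation_if_neg _ hu, WithZero.exp_le_exp, neg_le_neg_iff, Nat.cast_le,
    Nat.cast_le, ct]

theorem od_mul (hu : u ≠ 0) (hb : b ≠ 0) : od q (u * b) = od q u + od q b := by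
  rw [od, od, od, map_mul, WithZero.log_mul (q.intValuation_ne_zero _ hu)
    (q.intValuation_ne_zero _ hb)]
  push_cast
  ring

theorem od_pow (J : ℕ) : od q (u ^ J) = J * od q u := by
  rw [od, od, map_pow, WithZero.log_pow, nsmul_eq_mul]
  push_cast
  ring

theorem od_zero (h : u ∉ q.asIdeal) : od q u = 0 := by
  simp [od, HeightOneSpectrum.intValuation_eq_one_iff.2 h]

theorem not_mem (hu : u ≠ 0) (h : od q u ≤ 0) : u ∉ q.asIdeal := fun a => by
  have := (key (q := q) hu 1).1 (by rwa [pow_one])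
  rw [Nat.cast_one] at this
  linarith

theorem od_le {J : ℕ} (hu : u ≠ 0) (hb : b ≠ 0) (h : b ∈ Ideal.span {u} ⊔ q.asIdeal ^ J)
    (hJ : od q b < J) : od q u ≤ od q b := by
  by_contra c
  rw [not_le, od_eq hu, od_eq hb, Nat.cast_lt] at c
  rw [od_eq hb, Nat.cast_lt] at hJ
  have h1 : u ∈ q.asIdeal ^ (ct q b + 1) := (key hu _).2 (by rw [od_eq hu]; exact Nat.cast_le.2 c)
  have h2 := (key hb _).1 (sup_le ((Ideal.span_singleton_le_iff_mem _).2 h1)
    (Ideal.pow_le_pow_right hJ) h)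
  rw [od_eq hb, Nat.cast_le] at h2
  omega

theorem fin (hu : u ≠ 0) : {q : HeightOneSpectrum (𝓞 k) | u ∈ q.asIdeal}.Finite :=
  (Ideal.finite_factors (I := Ideal.span {u}) (by simpa using hu)).subset fun _ a =>
    Ideal.dvd_span_singleton.2 a

theorem gen {h : ℕ} {π : 𝓞 k} (e : Ideal.span {π} = q.asIdeal ^ h) : π ≠ 0 ∧ od q π = h ∧
    ∀ q' : Ideal (𝓞 k), q'.IsPrime → π ∈ q' → q' = q.asIdeal := by
  have h0 : π ≠ 0 := fun a => pow_ne_zero h q.ne_bot (by rw [← e, a]; simp)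
  refine ⟨h0, le_antisymm ?_ ((key h0 h).1 (e ▸ Ideal.mem_span_singleton_self π)),
    fun q' hq a => ?_⟩
  · by_contra c
    rw [not_le, od_eq h0, Nat.cast_lt] at c
    have h1 : π ∈ q.asIdeal ^ (h + 1) := (key h0 _).2 (by rw [od_eq h0]; exact Nat.cast_le.2 c)
    have := q.isPrime
    exact (Ideal.pow_succ_lt_pow q.ne_bot h).not_ge
      (e ▸ (Ideal.span_singleton_le_iff_mem _).2 h1)
  · exact (q.isMaximal.eq_of_le hq.ne_top (Ideal.IsPrime.le_of_pow_le (n := h)
      (e ▸ (Ideal.span_singleton_le_iff_mem _).2 a))).symm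

theorem dvd {h : ℕ} {π : 𝓞 k} (e : Ideal.span {π} = q.asIdeal ^ h) (hu : u ≠ 0) (t : ℕ) :
    π ^ (t * ct q u) ∣ u ^ (h * t) := by
  rw [← Ideal.mem_span_singleton, ← Ideal.span_singleton_pow, e, ← pow_mul,
    key (pow_ne_zero _ hu), od_pow, od_eq hu]
  push_cast
  exact (mul_assoc _ _ _).ge

end AOd

open AOd

theorem aOd : OdS := by
  intro k _ _
  refine ⟨fun q u b J => ⟨?_, od_zero, od_mul, od_pow J, fun hu => key hu J, od_le,
    fun hb h hJ => ?_⟩, fun u => fin, fun p q hp hq hpq => ?_⟩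
  · by_cases hu : u = 0
    · simp [od, hu]
    · rw [od_eq hu]
      positivity
  · have hu : u ≠ 0 := fun a => by
      rw [a, zero_sub, neg_mem_iff, key hb] at h
      linarith
    have h1 : od q u ≤ od q b := od_le hu hb (by
      simpa using sub_mem (Ideal.mem_sup_left (Ideal.mem_span_singleton_self u))
        (Ideal.mem_sup_right h)) hJ
    refine ⟨hu, le_antisymm h1 (od_le hb hu ?_ (h1.trans_lt hJ))⟩
    simpa using add_mem (Ideal.mem_sup_left (Ideal.mem_span_singleton_self b))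
      (Ideal.mem_sup_right h)
  · have p0 : (p : 𝓞 k) ≠ 0 := Nat.cast_ne_zero.2 hp.ne_zero
    obtain ⟨h, h0, hg⟩ := nfb_gen k
    let Q : HeightOneSpectrum (𝓞 k) := ⟨q, hq, fun a => p0 (by simpa [a] using hpq)⟩
    obtain ⟨π, e⟩ := hg q
    have e : Ideal.span {π} = Q.asIdeal ^ h := e Q.ne_bot
    obtain ⟨g0, g1, g2⟩ := gen e
    obtain ⟨b, hb⟩ := dvd e p0 1
    rw [mul_one, one_mul] at hb
    have b0 : b ≠ 0 := right_ne_zero_of_mul (hb ▸ pow_ne_zero h p0)
    refine ⟨h, _, b, Nat.pos_of_ne_zero h0, hb, not_mem (q := Q) b0 ?_,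
      fun q' hq' a => g2 q' hq' (hq'.mem_of_pow_mem _ a)⟩
    have := congrArg (od Q) hb
    rw [od_mul (pow_ne_zero _ g0) b0, od_pow, od_pow, g1, od_eq p0] at this
    linarith

theorem aSp : OfSp := by
  classical
  intro _ k _ _
  obtain ⟨h, h0, hg⟩ := nfb_gen k
  refine ⟨h, Nat.pos_of_ne_zero h0, ?_⟩
  rintro _ p φ u ⟨t, rfl⟩ hp hu
  have p0 : (p : 𝓞 k) ≠ 0 := Nat.cast_ne_zero.2 hp.ne_zero
  choose g hg using fun q : HeightOneSpectrum (𝓞 k) => hg q.asIdeal
  have hg := fun q => hg q q.ne_bot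
  have g0 := fun q => (gen (hg q)).1
  set S := (fin p0).toFinset
  have hS : ∀ q, q ∈ S ↔ (p : 𝓞 k) ∈ q.asIdeal := fun q => (fin p0).mem_toFinset
  obtain ⟨β, hβ⟩ : ∏ q ∈ S, g q ^ (t * ct q u) ∣ u ^ (h * t) := by
    refine Finset.prod_dvd_of_coprime (fun q _ q' _ a => ?_) fun q _ => dvd (hg q) hu t
    refine IsCoprime.pow ((Ideal.isCoprime_span_singleton_iff _ _).1 ?_)
    rw [hg, hg]
    exact HeightOneSpectrum.isCoprime_pow_of_ne _ _ a _ _
  have n0 := hβ ▸ pow_ne_zero (h * t) hu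
  have b0 := right_ne_zero_of_mul n0
  have c0 := left_ne_zero_of_mul n0
  have oγ : ∀ q, od q (∏ q ∈ S, g q ^ (t * ct q u)) =
      if (p : 𝓞 k) ∈ q.asIdeal then (h * t : ℕ) * od q u else 0 := fun q => by
    have z : ∀ q', q' ≠ q → od q (g q') * (t * ct q' u : ℕ) = 0 := fun q' a => by
      rw [od_zero fun c => a (HeightOneSpectrum.ext ((gen (hg q')).2.2 _ q.isPrime c).symm),
        zero_mul]
    rw [nfb_pow (l := od q) (fun _ _ => od_mul) S g _ g0]
    split_ifs with a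
    · rw [Finset.sum_eq_single_of_mem q ((hS q).2 a) fun q' _ => z q', (gen (hg q)).2.1, od_eq hu]
      push_cast
      ring
    · exact Finset.sum_eq_zero fun q' c => z q' fun e => a ((hS q).1 (e ▸ c))
  refine ⟨_, β, hβ, ?_, fun q a => by_contra fun c => not_mem c0 (by rw [oγ, if_neg c]) a, ?_⟩
  · rw [← Ideal.isCoprime_span_singleton_iff, Ideal.isCoprime_iff_sup_eq]
    by_contra c
    obtain ⟨m, hm, le⟩ := Ideal.exists_le_maximal _ c
    have a : (p : 𝓞 k) ∈ m := le (Ideal.mem_sup_right (Ideal.mem_span_singleton_self _))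
    let Q : HeightOneSpectrum (𝓞 k) := ⟨m, hm.isPrime, fun e => p0 (by simpa [e] using a)⟩
    refine not_mem (q := Q) b0 ?_ (le (Ideal.mem_sup_left (Ideal.mem_span_singleton_self _)))
    have := congrArg (od Q) hβ
    rw [od_mul c0 b0, od_pow, oγ, if_pos a] at this
    linarith
  · rw [Fp, mul_finsum]
    refine finsum_congr fun q => ?_
    rw [oγ]
    split_ifs <;> ring

end Pool.Agent.MP_f3836a_nt.GV.A
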