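import Pool.Agent.MP_f3836a_nt.GV.SpecA

/-! The primes over `p`: the other primes, and the end of the argument. -/

set_option autoImplicit false

namespace Pool.Agent.MP_f3836a_nt.GV.A

open Polynomial NumberField IsDedekindDomain VE VE.A

namespace AOth

theorem one {ι : Type} {A : Finset ι} {V B : ι → ℝ} {t : ℝ} {a0 : ι} (h0 : a0 ∈ A)
    (h : ∑ a ∈ A, V a = 0) (hB : ∀ a, 0 ≤ B a) (ht : 0 ≤ t)
    (hV : ∀ a ∈ A, a ≠ a0 → |V a| ≤ B a * t) : |V a0| ≤ (∑ a ∈ A, B a) * t := by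
  classical
  rw [← Finset.add_sum_erase A V h0, add_eq_zero_iff_eq_neg] at h
  rw [h, abs_neg, Finset.sum_mul]
  refine (Finset.abs_sum_le_sum_abs _ _).trans ((Finset.sum_le_sum fun a ha =>
    hV a (Finset.mem_erase.1 ha).2 (Finset.mem_erase.1 ha).1).trans ?_)
  exact Finset.sum_le_sum_of_subset_of_nonneg (Finset.erase_subset _ _) fun a _ _ =>
    mul_nonneg (hB a) ht

theorem real {f C C' : ℝ} {N c1 σ0 : ℕ} (hN : 0 < N)
    (h : ∀ σ, σ0 ≤ σ → ∀ m0 : ℕ, ∃ m, m0 ≤ m ∧ ∃ x : ℝ,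
      ((σ * (N * m - c1) : ℕ) : ℝ) ≤ (N * (N * m) : ℕ) * C + x ∧
      |f| * x ≤ C' * (σ * c1 + N * m)) : f = 0 := by
  by_contra hf
  have f0 := abs_pos.2 hf
  generalize |f| = F at h f0
  obtain ⟨σ1, h1⟩ := exists_nat_ge (N * N * C + (C' * N + 1) / F)
  obtain ⟨m0, h2⟩ := exists_nat_gt ((F + C') * (σ0 + σ1 : ℕ) * c1)
  obtain ⟨m, h3, x, h4, h5⟩ := h (σ0 + σ1) (Nat.le_add_right _ _) m0
  have h6 : (σ1 : ℝ) ≤ (σ0 + σ1 : ℕ) := Nat.cast_le.2 (Nat.le_add_left _ _)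
  generalize σ0 + σ1 = σ at h2 h4 h5 h6
  have h7 : (N : ℝ) * m - c1 ≤ (N * m - c1 : ℕ) := by
    rw [sub_le_iff_le_add]
    exact_mod_cast le_tsub_add
  have h8 : (1 : ℝ) ≤ N := by exact_mod_cast hN
  have h9 : (m0 : ℝ) ≤ m := by exact_mod_cast h3
  have s0 : (0 : ℝ) ≤ σ := σ.cast_nonneg
  have a1 : F * (N * N * C) + (C' * N + 1) ≤ F * (σ * N) := by
    have := mul_le_mul_of_nonneg_left (h1.trans (h6.trans (le_mul_of_one_le_right s0 h8))) f0.le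
    rwa [mul_add, mul_div_cancel₀ _ f0.ne'] at this
  rw [Nat.cast_mul σ] at h4
  push_cast at h4
  have a2 := mul_le_mul_of_nonneg_left ((mul_le_mul_of_nonneg_left h7 s0).trans h4) f0.le
  have a3 := mul_le_mul_of_nonneg_right a1 (m.cast_nonneg (α := ℝ))
  nlinarith

theorem pw_le {R T : Type} [CommRing R] [CommRing T] (j : R →+* T) (q : Ideal T) (J : ℕ) :
    (q.comap j ^ J).map j ≤ q ^ J := by
  rw [Ideal.map_pow]
  exact Ideal.pow_right_mono Ideal.map_comap_le J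

end AOth

open AOth

theorem aOth : OfOth := by
  classical
  intro hO K Z _ _ _ k _ _ j φ p W hp hW hj hρ 𝔭 h1 h2
  obtain ⟨h, a, b, h0, e, hb, ha⟩ := (hO K).2.2 p 𝔭 hp h1 h2
  have b0 : b ≠ 0 := fun e => hb (e ▸ zero_mem _)
  have h3 := hρ b b0 ((((hp.coprime_iff_not_dvd.2 hW).cast (R := 𝓞 K)).pow_left
    (m := h)).of_isCoprime_of_dvd_left ⟨a, by rw [e, mul_comm]⟩)
  refine mul_left_cancel₀ (Nat.cast_ne_zero.2 h0.ne' : (h : ℝ) ≠ 0)
    (Eq.trans ?_ (h3.trans (mul_zero _).symm))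
  rw [Finset.mul_sum]
  refine Finset.sum_congr rfl fun i _ => ?_
  rw [mul_finsum]
  refine finsum_congr fun q => ?_
  have e' : (p : 𝓞 (k i)) ^ h = j i a * j i b := by rw [← map_mul, ← e, map_pow, map_natCast]
  have H := (hO (k i)).1 q
  split_ifs with c
  · have a1 : j i a ∉ q.asIdeal := fun m => c.2 (ha _ (q.isPrime.comap _) m)
    rw [mul_left_comm, ← (H p 1 h).2.2.2.1, e', (H _ _ 0).2.2.1 (ne_of_mem_of_not_mem (zero_mem _) a1).symm
      ((map_ne_zero_iff _ (hj i)).2 b0), (H _ 1 0).2.1 a1, zero_add]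
  · rw [(H _ 1 0).2.1 fun m => c ⟨q.isPrime.mem_of_pow_mem h (e' ▸ q.asIdeal.mul_mem_left _ m),
      fun e => hb (e ▸ m)⟩, mul_zero, mul_zero]

theorem aEn : OfEn := by
  classical
  intro hO hT K Z _ _ _ k _ _ j φ p W hp hW hj hρ i0 q0 c N c1 σ0 hs hq hc hN h
  have p0 : ∀ i, (p : 𝓞 (k i)) ≠ 0 := fun i => Nat.cast_ne_zero.2 hp.ne_zero
  have c0 : ∀ i, j i c ≠ 0 := fun i => (map_ne_zero_iff _ (hj i)).2 hc
  let s := fun i => ((hO (k i)).2.1 p (p0 i)).toFinset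
  have ms : ∀ i q, q ∈ s i ↔ (p : 𝓞 (k i)) ∈ q.asIdeal := fun i q => Set.Finite.mem_toFinset _
  have mc : ∀ i (q : HeightOneSpectrum (𝓞 (k i))), (p : 𝓞 (k i)) ∈ q.asIdeal →
      (p : 𝓞 K) ∈ q.asIdeal.comap (j i) := fun i q m => by rwa [Ideal.mem_comap, map_natCast]
  have H := fun i => (hO (k i)).1
  have nn := fun i q u => (H i q u 1 0).1
  have pw := fun i q u J => (H i q u 1 J).2.2.2.1
  have hU := hT K Z k j φ p W hp hW hj hρ _ (q0.isPrime.comap (j i0)) (mc i0 q0 hq)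
  generalize hP : q0.asIdeal.comap (j i0) = P at h hU
  rw [Finset.sum_congr rfl fun i _ => finsum_eq_sum_of_support_subset _ (s := s i) fun q m =>
    (ms i q).2 (by_contra fun c => m (if_neg fun e => c e.1)), Finset.sum_sigma'] at hU
  refine real (C := od q0 (j i0 c)) (C' := ∑ a ∈ Finset.univ.sigma s,
    |φ a.1 a.2| * (od a.2 p + od a.2 (j a.1 c))) (c1 := c1) (σ0 := σ0) hN fun σ hσ m0 => ?_
  obtain ⟨m, hm, h⟩ := h σ hσ m0
  obtain ⟨J, hJ⟩ := exists_nat_gt (∑ a ∈ Finset.univ.sigma s, (od a.2 (((p : 𝓞 (k a.1)) ^ σ) ^ m) +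
    od a.2 (j a.1 (((p : 𝓞 K) ^ σ) ^ c1 * c ^ (N * m)))))
  obtain ⟨g, g0, g1, g2, g3, g4⟩ := h J
  refine ⟨m, hm, od q0 (g i0), ?_, ?_⟩
  · rwa [(H i0 q0 _ 1 _).2.2.2.2.1 (mul_ne_zero (pow_ne_zero _ (c0 i0)) (g0 i0)),
      (H i0 q0 _ _ 0).2.2.1 (pow_ne_zero _ (c0 i0)) (g0 i0), pw] at g2
  unfold Fp at g1
  rw [Finset.sum_congr rfl fun i _ => finsum_eq_sum_of_support_subset _ (s := s i) fun q m =>
    (ms i q).2 (by_contra fun c => m (if_neg c)), Finset.sum_sigma'] at g1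
  have k1 := congrArg₂ (fun x y : ℝ => x - m * σ * y) g1 hU
  simp only [Finset.mul_sum, ← Finset.sum_sub_distrib, mul_zero, sub_zero] at k1
  have a0 : (⟨i0, q0⟩ : Σ i, HeightOneSpectrum (𝓞 (k i))) ∈ Finset.univ.sigma s :=
    Finset.mem_sigma.2 ⟨Finset.mem_univ _, (ms i0 q0).2 hq⟩
  refine le_trans (le_of_eq ?_) (one a0 k1 (fun a => mul_nonneg (abs_nonneg _)
    (add_nonneg (nn a.1 a.2 p) (nn a.1 a.2 (j a.1 c)))) (by positivity) ?_)
  · rw [if_pos hq, if_neg fun e => e.2 hP, mul_zero, sub_zero, abs_mul, abs_of_nonneg (nn i0 q0 _)]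
  rintro ⟨i, q⟩ ha hne
  have m1 := (ms i q).1 (Finset.mem_sigma.1 ha).2
  have l1 := (Finset.single_le_sum (f := fun a : Σ i, HeightOneSpectrum (𝓞 (k i)) =>
    od a.2 (((p : 𝓞 (k a.1)) ^ σ) ^ m) + od a.2 (j a.1 (((p : 𝓞 K) ^ σ) ^ c1 * c ^ (N * m))))
    (fun a _ => add_nonneg (nn _ _ _) (nn _ _ _)) ha).trans_lt hJ
  have n1 := nn i q p
  have n2 := nn i q (j i c)
  dsimp only at l1 ⊢
  rw [if_pos m1]
  by_cases e : q.asIdeal.comap (j i) = P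
  · have i1 : i ≠ i0 := by
      rintro rfl
      exact hne (congrArg _ (HeightOneSpectrum.ext
        (Ideal.comap_injective_of_surjective _ hs (e.trans hP.symm))))
    have b0 : j i (((p : 𝓞 K) ^ σ) ^ c1 * c ^ (N * m)) = (p ^ σ) ^ c1 * j i c ^ (N * m) := by simp
    have b1 := pow_ne_zero c1 (pow_ne_zero σ (p0 i))
    have b2 := pow_ne_zero (N * m) (c0 i)
    have l2 := (H i q (g i) _ J).2.2.2.2.2.1 (g0 i) (b0 ▸ mul_ne_zero b1 b2)
      (sup_le_sup_left (pw_le (j i) _ J) _ (e ▸ g3 i i1)) (by linarith [nn i q ((p ^ σ) ^ m)])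
    rw [b0, (H i q _ _ 0).2.2.1 b1 b2, pw, pw, pw, Nat.cast_mul] at l2
    rw [if_neg fun e' => e'.2 e, mul_zero, sub_zero, abs_mul, abs_of_nonneg (nn _ _ _), mul_assoc]
    refine mul_le_mul_of_nonneg_left (l2.trans ?_) (abs_nonneg _)
    have : 0 ≤ od q p * (N * m) + od q (j i c) * (σ * c1) := by positivity
    linarith
  · have l2 := ((H i q (g i) _ J).2.2.2.2.2.2 (pow_ne_zero m (pow_ne_zero σ (p0 i)))
      (pw_le (j i) _ J (g4 i _ (q.isPrime.comap _) (mc i q m1) e))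
      (by linarith [nn i q (j i (((p : 𝓞 K) ^ σ) ^ c1 * c ^ (N * m)))])).2
    rw [if_pos ⟨m1, e⟩, l2, pw, pw, show φ i q * (m * (σ * od q p)) - m * σ * (φ i q * od q p) = 0 by
      ring, abs_zero]
    positivity

end Pool.Agent.MP_f3836a_nt.GV.A
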