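import Pool.Agent.MP_f3836a_nt.GV.SpecL

/-! Approximation at one prime: descent from the completion. -/

set_option autoImplicit false

namespace Pool.Agent.MP_f3836a_nt.GV.A

open Polynomial NumberField IsDedekindDomain

namespace APaG

theorem sl {A O : Type} [CommRing A] [CommRing O] [Algebra A O] {q : Ideal A} {ϖ : O}
    (hL : Lcl q ϖ) {π : A} {d J : ℕ} {Q : A[X]} {M : O[X]} (m1 : M.natDegree = d)
    (m2 : IsUnit (M.coeff 0))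
    (h : C (ϖ ^ J) ∣ M.scaleRoots (algebraMap A O π) - Q.map (algebraMap A O)) : Sl q π d J Q := by
  have k : ∀ i, ∃ a, ϖ ∣ M.coeff i - algebraMap A O a ∧ Q.coeff i - a * π ^ (d - i) ∈ q ^ J := by
    intro i
    obtain ⟨a, ha⟩ := hL.den (M.coeff i) (J + 1)
    refine ⟨a, (dvd_pow_self ϖ J.succ_ne_zero).trans ha, (hL.mem _ _).1 ?_⟩
    have h1 := (C_dvd_iff_dvd_coeff _ _).1 h i
    rw [coeff_sub, coeff_scaleRoots, coeff_map, m1] at h1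
    have h2 := ((pow_dvd_pow ϖ J.le_succ).trans ha).mul_right (algebraMap A O π ^ (d - i))
    convert dvd_sub h2 h1 using 1
    simp only [map_sub, map_mul, map_pow]
    ring
  refine ⟨fun i _ => ?_, ?_⟩
  · obtain ⟨a, -, ha⟩ := k i
    rw [← add_sub_cancel (a * π ^ (d - i)) (Q.coeff i)]
    exact Submodule.add_mem_sup (Ideal.mul_mem_left _ _ (Ideal.mem_span_singleton_self _)) ha
  · obtain ⟨a, h1, ha⟩ := k 0
    refine ⟨a, fun h2 => hL.irr.not_isUnit (isUnit_of_dvd_unit ?_ m2), ha⟩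
    have h3 := (hL.mem a 1).2 (by rwa [pow_one])
    rw [pow_one] at h3
    simpa using dvd_add h1 h3

end APaG

theorem aPaG : OfPaG := by
  rintro hApe hNc hDif hTrc hExo hBcB hBcT hPaL K 𝒜 _ _ _ _ S μ N e x θ c p q fm hN hx hReg hSz
    hp hq hpq _ _ rfl
  have hp0 : (p : 𝓞 K) ≠ 0 := Nat.cast_ne_zero.2 hp.ne_zero
  obtain ⟨O, _, _, _, hH, _, ϖ, hL⟩ := hExo K ⟨q, hq, fun h => hp0 (by simpa [h] using hpq)⟩
  obtain ⟨B, _, _, _, _, ν, φ, e', bc⟩ := hBcB (𝓞 K) O 𝒜 S μ N e fm hN hx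
  obtain ⟨t1, t2, t3, t4, t5, t6⟩ := hBcT _ O 𝒜 B S μ ν φ e e' q ϖ fm bc hL
  obtain ⟨c0, hc0, hd⟩ := hDif K 𝒜 S μ fm hReg
  obtain ⟨j, hj⟩ := hTrc O B S ν (φ c0) bc.fm (t3 _ hd)
  have nz : ∀ a : 𝓞 K, a ≠ 0 → algebraMap (𝓞 K) O a ≠ 0 := fun a => (map_ne_zero_iff _ hL.inj).2
  have hX : Mo ν N (algebraMap O[X] B X) := bc.var ▸ t1 _ _ hx
  obtain ⟨c1, h⟩ := hPaL O B hH S ν N e' (φ θ) (algebraMap _ O c) ϖ
    (algebraMap (𝓞 K) O (c0 ^ j)) bc.fm hN hX (bc.var ▸ t2 _ _ _ hSz) hL.irr hL.fin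
    (nz _ (pow_ne_zero _ (Nat.cast_ne_zero.2 hc0))) (by simpa using hj)
  obtain ⟨v, hv⟩ := IsDiscreteValuationRing.associated_pow_irreducible (nz c hSz.ne) hL.irr
  refine ⟨c1, v * N + 1, fun σ hσ m0 => ?_⟩
  have hP : ϖ ^ σ ∣ algebraMap (𝓞 K) O (p ^ σ) := (hL.mem _ _).2 (Ideal.pow_mem_pow hpq σ)
  obtain ⟨m, hm, Gt, g1, ⟨M, m1, m2, m3⟩, g3, g4⟩ := h _ (nz _ (pow_ne_zero σ hp0))
    (((mul_dvd_mul_left ϖ (pow_dvd_pow_of_dvd hv.dvd N)).trans (by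
      rw [← pow_mul, ← pow_succ']
      exact pow_dvd_pow ϖ hσ)).trans hP) m0
  refine ⟨m, hm, fun J => ?_⟩
  obtain ⟨G, G1, hb⟩ := t5 (J + σ * (N * m - c1)) _ Gt g1
  have hJ : algebraMap O B (ϖ ^ J) ∣ Gt - φ G :=
    (_root_.map_dvd _ (pow_dvd_pow ϖ (Nat.le_add_right _ _))).trans hb
  refine ⟨G, G1, ?_, (hL.mem _ _).1 ?_, ?_⟩
  · have : NeZero N := ⟨hN.ne'⟩
    obtain ⟨η, -⟩ := hApe O B S ν N bc.fm hX
    refine APaG.sl hL m1.natDegree_eq m2 ?_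
    rw [← m3, ← bc.nrm, ← Ideal.mem_span_singleton]
    refine (hNc O[X] B _ η).1 _ _ _ ?_
    rw [Ideal.map_span, Set.image_singleton, Ideal.mem_span_singleton]
    rwa [IsScalarTower.algebraMap_apply O O[X] B] at hJ
  · have h1 := (_root_.map_dvd e' ((_root_.map_dvd _ (pow_dvd_pow ϖ (Nat.le_add_left _ _))).trans
      hb)).mul_left (algebraMap (𝓞 K) O c ^ (N * (N * m)))
    have h2 := (pow_dvd_pow_of_dvd hP (N * m - c1)).trans g3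
    rw [AlgHom.commutes, Algebra.algebraMap_self_apply, map_sub, bc.ev] at h1
    rw [← pow_mul] at h2
    convert dvd_sub h2 h1 using 1
    simp only [map_mul, map_pow]
    ring
  · obtain ⟨α, z, hz, g5⟩ := Ideal.mem_span_insert.1 g4
    obtain ⟨β, γ, rfl⟩ := Ideal.mem_span_pair.1 hz
    obtain ⟨a1, h1⟩ := t4 J α
    obtain ⟨a2, h2⟩ := t4 J β
    obtain ⟨a3, h3⟩ := t4 J γ
    rw [← add_sub_cancel (a1 * G + (a2 * algebraMap (𝓞 K)[X] 𝒜 X + a3 * θ)) (algebraMap (𝓞 K) 𝒜 _)]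
    refine Submodule.add_mem_sup (Ideal.mem_span_insert.2 ⟨a1, _, Ideal.mem_span_pair.2
      ⟨a2, a3, rfl⟩, rfl⟩) (t6 J _ ?_)
    convert dvd_add (dvd_add (h1.mul_right Gt) (hJ.mul_left (φ a1)))
      (dvd_add (h2.mul_right (algebraMap O[X] B X)) (h3.mul_right (φ θ))) using 1
    rw [map_sub, bc.con, map_mul (algebraMap (𝓞 K) O), map_pow (algebraMap (𝓞 K) O) _ c1,
      map_pow (algebraMap (𝓞 K) O) c, g5]
    simp only [map_add, map_mul, bc.var]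
    ring

end Pool.Agent.MP_f3836a_nt.GV.A
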