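import Pool.Agent.MP_f3836a_nt.GV.SpecL

/-! The local theorem. -/

set_option autoImplicit false

namespace Pool.Agent.MP_f3836a_nt.GV.A

open Polynomial NumberField IsDedekindDomain

theorem aPaL : OfPaL := by
  intro hF hA hN hR hMk hMon hNrm hPt hLo hSc O B _ _ _ _ _ _ _ hH S μ N e θ c ϖ c0 fm hN0 mo sz irr
    fin c0ne trc
  have : NeZero N := ⟨hN0.ne'⟩
  have fa := hF O B S μ fm
  have := fa.dom inferInstance
  obtain ⟨cS, hcS⟩ := fm.cof
  refine ⟨2 * cS, fun ξ hξ hdv m0 => ?_⟩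
  obtain ⟨η, η0, hη⟩ := hA O B S μ N fm mo
  obtain ⟨l, w, szl, ew, lθ⟩ := hPt O B hH N η e θ c ξ ϖ sz irr.not_isUnit hdv
  have aC : ∀ a : O, algebraMap O[X] B (C a) = algebraMap O B a := fun a =>
    (IsScalarTower.algebraMap_apply O O[X] B a).symm
  have ms : Mo μ N (algebraMap O[X] B X - algebraMap O B ξ) := by
    rw [sub_eq_add_neg]
    refine fa.add _ _ _ mo fun d hd => ?_
    have : d ≠ 0 := fun h => by rw [h] at hd; exact absurd hd (by simpa using hN0.ne')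
    rw [Algebra.algebraMap_eq_smul_one, ← fm.one]
    simp [Finsupp.single_eq_of_ne this]
  have ne : algebraMap O[X] B X - algebraMap O B ξ ≠ 0 := fun h => by
    obtain ⟨⟨_, h1⟩, -⟩ := ms
    simp [h] at h1
  have mk := hMk O B l _ w ξ ne szl
  generalize Mk l (algebraMap O[X] B X - algebraMap O B ξ) = M at mk
  obtain ⟨J, hJ⟩ := IsDiscreteValuationRing.associated_pow_irreducible
    (mul_ne_zero irr.ne_zero (pow_ne_zero (2 * cS) hξ)) irr
  obtain ⟨m, hm, G0, G0M, ap, dv⟩ := hLo O B S μ N M l w ξ ϖ c0 fm hN0 mo mk irr fin c0ne trc J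
    (max m0 (2 * cS))
  obtain ⟨j, hj⟩ : ∃ j, N * m = j + 2 * cS :=
    ⟨N * m - 2 * cS, by have := Nat.le_mul_of_pos_left m hN0; omega⟩
  obtain ⟨G, h1, moG, h2⟩ := (hR O B S μ fm).2.2.2.1 (M j) _ (N * m) (fun d hd =>
    hMon O B S μ (M j) cS j fm hcS (mk.sat j) ⟨_, _, mk.pow j, fa.pow _ _ j ms⟩ (mk.rel j) d
      (hj ▸ hd)) G0 ap
  have GM : G ∈ M j := by
    simpa using (M j).sub_mem (mk.anti (by omega) G0M) h1
  obtain ⟨V, hV, cn⟩ := hNrm O B N η M l w ξ η0 mk j G GM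
  have Vm : V.IsMonicOfDegree (2 * cS) := by
    have h := hη m G moG
    rw [← Algebra.norm_eq_matrix_det, hV, hj] at h
    exact ((by simpa using (isMonicOfDegree_X_sub_one ξ).pow j : ((X - C ξ) ^ j).IsMonicOfDegree j)
      ).of_mul_left h
  have h3 : C (ϖ ^ J) ∣ Algebra.norm O[X] G0 - Algebra.norm O[X] G :=
    Ideal.mem_span_singleton.1 ((hN O[X] B _ η).1 _ _ _ (by
      rw [Ideal.map_span, Set.image_singleton, Ideal.mem_span_singleton, aC]
      exact ((hR O B S μ fm).2.1 _ _).1 h2))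
  obtain ⟨v0, M', k1, k2, k3⟩ := hSc O ξ ϖ (ϖ ^ J) j (2 * cS) V irr.not_isUnit hJ.dvd Vm (by
    rw [← hV, ← hj]
    simpa using dv.sub h3)
  refine ⟨m, le_of_max_le_left hm, G, moG, ⟨M', hj ▸ k1, k2, hV ▸ k3⟩, ?_, ?_⟩
  · have h := map_dvd e (mk.div j G GM)
    rw [map_pow, map_mul, map_pow, map_sub, sz.ex, e.commutes, zero_sub, neg_pow] at h
    rw [show N * m - 2 * cS = j by omega]
    refine (dvd_of_mul_left_dvd h).trans (mul_dvd_mul_right ((pow_dvd_pow_of_dvd ew j).trans ?_) _)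
    rw [← pow_mul]
    exact pow_dvd_pow _ (Nat.mul_le_mul_left _ (by omega))
  · have h := mem_Cn.1 cn _ (mk.ker (θ - algebraMap O B (l θ)) j (by simp))
    rw [← Ideal.Quotient.eq_zero_iff_mem]
    set π := Ideal.Quotient.mk (Ideal.span {G, algebraMap O[X] B X, θ})
    have z : ∀ a ∈ ({G, algebraMap O[X] B X, θ} : Set B), π a = 0 := fun a ha =>
      Ideal.Quotient.eq_zero_iff_mem.2 (Ideal.subset_span ha)
    have h4 := map_dvd π h
    rw [z G (by simp), zero_dvd_iff, ← divX_mul_X_add V] at h4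
    simp only [map_mul, map_add, map_pow, map_sub, z (algebraMap O[X] B X) (by simp), z θ (by simp),
      mul_zero, zero_add, zero_sub, aC] at h4
    obtain ⟨a, ha⟩ := v0
    obtain ⟨b, hb⟩ := (pow_dvd_pow_of_dvd lθ j).trans (pow_dvd_pow c (show j ≤ N * m by omega))
    rw [ha, hb]
    simp only [map_mul, map_pow]
    rw [neg_pow, mul_left_comm, (isUnit_one.neg.pow j).mul_right_eq_zero] at h4
    linear_combination π (algebraMap O B a) * π (algebraMap O B b) * h4

end Pool.Agent.MP_f3836a_nt.GV.A
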