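import Pool.Agent.MP_f3836a_nt.GV.SpecA
import Pool.Agent.MP_f3836a_nt.GP.TFin

/-! Centres of the places on the affine model. -/

set_option autoImplicit false

namespace Pool.Agent.MP_f3836a_nt.GV.A

open Polynomial NumberField IsDedekindDomain VE VE.A PK VE.Z GP IntermediateField

namespace APg

variable {F : Type} [Field F]

section
variable {S : Type} [CommRing S] [IsDedekindDomain S] [Algebra S F] [IsFractionRing S F]

variable (F) in
/-- the valuation ring of a prime -/
noncomputable def lc (v : HeightOneSpectrum S) : Subring F := (v.valuationSubringAtPrime F).toSubring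

variable {v : HeightOneSpectrum S} {z : F}

theorem mem : z ∈ lc F v ↔ v.valuation F z ≤ 1 := by
  rw [lc, HeightOneSpectrum.valuationSubringAtPrime_eq_valuationSubring]; rfl

theorem nu : Nu (lc F v) z ↔ v.valuation F z < 1 := by
  rcases eq_or_ne z 0 with rfl | h
  · simp [Nu]
  · have := (v.valuation F).pos_iff.2 h
    simp only [Nu, mem, h, false_or, map_inv₀, _root_.not_le, one_lt_inv₀ this]
    exact ⟨fun k => k.2, fun k => ⟨k.le, k⟩⟩

theorem ut (h : v.valuation F z = 1) : Ut (lc F v) z :=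
  ⟨fun c => by simp [c] at h, mem.2 h.le, mem.2 (by simp [h])⟩

theorem nat [Algebra ℚ S] {n : ℕ} (h : n ≠ 0) : v.valuation F n = 1 := by
  rw [← map_natCast (algebraMap S F), HeightOneSpectrum.valuation_eq_one_iff_notMem]
  refine fun c => v.isPrime.ne_top (Ideal.eq_top_of_isUnit_mem _ c ?_)
  rw [← map_natCast (algebraMap ℚ S)]
  exact (Nat.cast_ne_zero.2 h).isUnit.map _

end

theorem int {W : Subring F} (hW : Vr W) {A : Type} [CommRing A] [Algebra A F]
    (e : ∀ a, algebraMap A F a ∈ W) {z : F} (hz : IsIntegral A z) : z ∈ W := by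
  let V : ValuationSubring F := ⟨W, hW⟩
  let := ((algebraMap A F).codRestrict V e).toAlgebra
  have : IsScalarTower A V F := .of_algebraMap_eq fun _ => rfl
  obtain ⟨y, hy⟩ := (IsIntegrallyClosed.isIntegral_iff (R := V)).1 (IsIntegral.tower_top hz)
  exact Set.mem_of_eq_of_mem hy.symm y.2

open scoped algebraAdjoinAdjoin in
theorem chart [CharZero F] {t : F} (ht : Transcendental ℤ t) (hf : FiniteDimensional ℚ⟮t⟯ F) :
    ∃ (S : Type) (_ : CommRing S) (_ : IsDedekindDomain S) (_ : Algebra S F)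
      (_ : IsFractionRing S F) (_ : Algebra ℚ S), (∃ s, algebraMap S F s = t) ∧
      ∀ W : Subring F, Vr W → W ≠ ⊤ → Ho W → t ∈ W → ∃ v : HeightOneSpectrum S, lc F v = W := by
  let A := Algebra.adjoin ℚ {t}
  have : IsPrincipalIdealRing A := .of_surjective
    (algEquivOfTranscendental ℚ t (TFin.tr ht)).toRingHom
    (algEquivOfTranscendental ℚ t (TFin.tr ht)).surjective
  have := integralClosure.isDedekindDomain A ℚ⟮t⟯ F
  have := integralClosure.isFractionRing_of_finite_extension (A := A) ℚ⟮t⟯ F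
  refine ⟨integralClosure A F, _, ‹_›, _, ‹_›, inferInstance,
    ⟨algebraMap A _ ⟨t, Algebra.self_mem_adjoin_singleton ℚ t⟩, rfl⟩,
    fun W hW h0 h ht => TFin.cen hW h0 fun s => ?_⟩
  have e : A ≤ ⟨W.toSubsemiring, TFin.rat h⟩ := Algebra.adjoin_le (Set.singleton_subset_iff.2 ht)
  exact int hW (fun a => e a.2) s.2

end APg

open APg in
theorem aPg : OfPg := by
  intro hFf hFin _ _ K F _ _ _ _ _ O O' 𝒜 S0 μ x N fg fx
  have fi := hFin F fg
  have o' := fx.rat'.1
  have tr : Transcendental ℤ (x : F) := fun h => fx.inf (int (dvA o'.1).val (TFin.rat o'.2)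
    ((IsFractionRing.isAlgebraic_iff ℤ ℚ F).1 h).isIntegral)
  obtain ⟨S, _, _, _, _, _, ⟨x0, hx0⟩, ch⟩ := chart tr (((hFf F).2.1 fg).1 _ tr)
  have all : ∀ a : 𝒜, ∀ P, Pl P → P ≠ O' → (a : F) ∈ P := fun a =>
    (fx.mem a).2 ⟨1, one_ne_zero, by simp⟩
  have pl : ∀ P, Pl P → P ≠ O' → ∃ v : HeightOneSpectrum S, lc F v = P := fun P h h' =>
    ch P (dvA h.1).val (dvA h.1).ne h.2 (all x P h h')
  have up : ∀ r : S, ∃ (a : 𝒜) (n : ℕ), n ≠ 0 ∧ (a : F) = n * algebraMap S F r := fun r => by
    obtain ⟨n, h, k⟩ := (fx.mem (algebraMap S F r)).1 fun P h h' => by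
      obtain ⟨v, rfl⟩ := pl P h h'
      exact mem.2 (v.valuation_le_one r)
    exact ⟨⟨_, k⟩, n, h, rfl⟩
  have dn : ∀ a : 𝒜, ∃ r, algebraMap S F r = a := fun a =>
    HeightOneSpectrum.mem_integers_of_valuation_le_one F (a : F) fun v => by
      have ho : Ho (lc F v) := fun n h => (ut (nat h)).2.2
      obtain ⟨π, hπ⟩ := v.valuation_exists_uniformizer F
      refine mem.1 (all a _ ⟨fi.dvr _ (v.valuationSubringAtPrime F).mem_or_inv_mem (fun e => ?_) ho,
        ho⟩ fun e => fx.inf (e ▸ hx0 ▸ mem.2 (v.valuation_le_one x0)))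
      have := mem.1 (e.ge (Subring.mem_top π⁻¹))
      rw [map_inv₀, hπ, ← WithZero.exp_neg, neg_neg, ← WithZero.exp_zero, WithZero.exp_le_exp] at this
      omega
  refine ⟨fun P h h' z hz => ?_, fun P P' h h' k k' ne => ?_, fun q hq q0 qn => ?_⟩
  · obtain ⟨v, rfl⟩ := pl P h h'
    obtain ⟨r, hr⟩ := v.exists_valuation_sub_lt_of_integer (mem.1 hz) 1
    obtain ⟨a, n, n0, ha⟩ := up r
    refine ⟨a, n, n0, nu.2 ?_⟩
    rwa [ha, ← mul_sub, map_mul, nat n0, one_mul]
  · obtain ⟨v, rfl⟩ := pl P h h'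
    obtain ⟨v', rfl⟩ := pl P' k k'
    obtain ⟨c, c1, c2⟩ := SetLike.not_le_iff_exists.1 fun le : v.asIdeal ≤ v'.asIdeal =>
      ne (congrArg (lc F) (HeightOneSpectrum.ext (v.isMaximal.eq_of_le v'.isPrime.ne_top le)))
    obtain ⟨a, n, n0, ha⟩ := up c
    refine ⟨a, nu.2 ?_, ut ?_⟩ <;> rw [ha, map_mul, nat n0, one_mul]
    exacts [(v.valuation_lt_one_iff_mem c).2 c1, v'.valuation_eq_one_iff_notMem.2 c2]
  · have qn' : ∀ (n : ℕ) (a : 𝒜), n ≠ 0 → n * a ∈ q → a ∈ q := fun n a n0 h =>
      (hq.mem_or_mem h).resolve_left fun c => n0 (by exact_mod_cast qn n (by simpa using c))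
    let m : Ideal S :=
      { carrier := {r | ∀ (a : 𝒜) (n : ℕ), (a : F) = n * algebraMap S F r → a ∈ q}
        zero_mem' := fun a n h => by
          rw [map_zero, mul_zero] at h
          exact (Subtype.ext h : a = 0) ▸ q.zero_mem
        add_mem' := fun {r s} hr hs a n h => by
          obtain ⟨b, k, k0, hb⟩ := up r
          refine qn' k a k0 ?_
          have := q.add_mem (q.mul_mem_left n (hr b k hb)) (hs (k * a - n * b) (k * n) (by
            push_cast
            rw [h, hb, map_add]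
            ring))
          simpa using this
        smul_mem' := fun c r hr a n h => by
          obtain ⟨b, k, k0, hb⟩ := up r
          obtain ⟨d, l, l0, hd⟩ := up c
          refine qn' (k * l) a (mul_ne_zero k0 l0) ?_
          convert q.mul_mem_left (n * d) (hr b k hb) using 1
          ext
          push_cast
          rw [h, hb, hd, smul_eq_mul, map_mul]
          ring }
    have hm : ∀ (r : S) (a : 𝒜) (n : ℕ), n ≠ 0 → (a : F) = n * algebraMap S F r → a ∈ q → r ∈ m :=
      fun r a n n0 h ha b k hb => qn' n b n0 (by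
        convert q.mul_mem_left k ha using 1
        ext
        push_cast
        rw [h, hb]
        ring)
    have pm : m.IsPrime := ⟨fun e => hq.ne_top ((Ideal.eq_top_iff_one _).2
      ((e.ge Submodule.mem_top : (1 : S) ∈ m) 1 1 (by simp))), fun {r s} h => by
        obtain ⟨b, k, k0, hb⟩ := up r
        obtain ⟨d, l, l0, hd⟩ := up s
        exact (hq.mem_or_mem (h (b * d) (k * l) (by
          rw [map_mul]
          push_cast
          rw [hb, hd]
          ring))).imp (hm r b k k0 hb) (hm s d l l0 hd)⟩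
    have lift : ∀ a ∈ q, ∃ r ∈ m, algebraMap S F r = a := fun a ha => by
      obtain ⟨r, hr⟩ := dn a
      exact ⟨r, hm r a 1 one_ne_zero (by simp [hr]) ha, hr⟩
    let v : HeightOneSpectrum S := ⟨m, pm, fun e => q0 (eq_bot_iff.2 fun a ha => by
      obtain ⟨r, h1, h2⟩ := lift a ha
      rw [e, Ideal.mem_bot] at h1
      exact Subtype.ext (by rw [← h2, h1, map_zero]; rfl))⟩
    obtain ⟨π, hπ⟩ := v.intValuation_exists_uniformizer
    obtain ⟨p, n, n0, hp⟩ := up π
    have πm : π ∈ m := Ideal.pow_le_self one_ne_zero ((v.intValuation_le_pow_iff_mem π 1).1 hπ.le)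
    refine ⟨p, πm p n hp, fun a ha => ?_⟩
    obtain ⟨r, h1, h2⟩ := lift a ha
    have vp : v.valuation F p = WithZero.exp (-1 : ℤ) := by
      rw [hp, map_mul, nat n0, one_mul, v.valuation_of_algebraMap, hπ]
    have p0 : (p : F) ≠ 0 := fun c => WithZero.exp_ne_zero (by rw [← vp, c, map_zero])
    obtain ⟨b, s, hs⟩ := v.exists_primeCompl_mul_eq_of_integer (a / p : F) (by
      rw [map_div₀, vp, ← h2, v.valuation_of_algebraMap]
      exact div_le_one_of_le₀ ((v.intValuation_le_pow_iff_mem r 1).2 (by simpa using h1)) zero_le)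
    obtain ⟨b', k, k0, hb⟩ := up b
    obtain ⟨s', l, l0, hs'⟩ := up s
    refine ⟨k * s', fun c => s.2 (hm s s' l l0 hs' (qn' k s' k0 c)), l * b', Subtype.ext ?_⟩
    push_cast
    rw [hb, hs', ← hs]
    field_simp

end Pool.Agent.MP_f3836a_nt.GV.A
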