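import Pool.Agent.MP_f3836a_nt.GV.SpecA

/-! The zeros of the function `x` on the model. -/

set_option autoImplicit false

namespace Pool.Agent.MP_f3836a_nt.GV.A

open Polynomial NumberField IsDedekindDomain VE VE.A PK VE.Z GP IsLocalRing

namespace APh

theorem key {A 𝒜 R κ : Type} [CommRing A] [Algebra.IsIntegral ℤ A] [CommRing 𝒜] [Algebra A 𝒜]
    [CommRing R] [CommRing κ] [Algebra R κ] {x a : 𝒜}
    (h : (aeval x : A[X] →ₐ[A] 𝒜).toRingHom.IsIntegralElem a) (ρ : 𝒜 →+* κ)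
    (hx : IsIntegral R (ρ x)) : IsIntegral R (ρ a) := by
  have m : ∀ p : A[X], ρ.comp (aeval x : A[X] →ₐ[A] 𝒜).toRingHom p ∈ integralClosure R κ := by
    intro p
    induction p using Polynomial.induction_on' with
    | add p q hp hq => exact map_add (ρ.comp _) p q ▸ add_mem hp hq
    | monomial n c =>
      have : IsIntegral R (ρ (algebraMap A 𝒜 c)) := ((Algebra.IsIntegral.isIntegral (R := ℤ) c).map
        (ρ.comp (algebraMap A 𝒜)).toIntAlgHom).tower_top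
      simpa [aeval_monomial, mem_integralClosure_iff] using this.mul (hx.pow n)
  obtain ⟨p, hp, e⟩ := h
  refine isIntegral_trans (A := integralClosure R κ) _ ⟨p.map ((ρ.comp _).codRestrict _ m),
    hp.map _, ?_⟩
  rw [eval₂_map]
  exact (hom_eval₂ p _ ρ a).symm.trans (by rw [e, map_zero])

variable {F : Type} [Field F]

theorem res0 {V : Subring F} [IsLocalRing V] (z : V) : residue V z = 0 ↔ Nu V z := by
  rw [residue_eq_zero_iff, mem_maximalIdeal, mem_nonunits_iff, nu_iff]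

theorem ord_pow {V : Subring F} (h : Dvr V) {u : F} (u0 : u ≠ 0) (hu : Nu V u) (j : ℕ) :
    (j : ℤ) ≤ ordR V (u ^ j) := by
  rw [← zpow_natCast, (dvA h).zpow u j u0]
  exact le_mul_of_one_le_right (Int.natCast_nonneg j) ((((dvA h).nu u).1 hu).resolve_left u0)

end APh

open APh in
theorem aPh : OfPh := by
  intro hFin hNb hFm hApe hRed hPg K F _ _ _ _ _ O O' 𝒜 S μ x N fg fx
  have fi := hFin F fg
  have nb := hNb K F (fun c => (IsFractionRing.isAlgebraic_iff ℤ ℚ K).2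
    (Algebra.IsAlgebraic.isAlgebraic c)) fi
  have pg := hPg K F O O' 𝒜 S μ x N fg fx
  have hI : ∀ a : 𝒜, (aeval x : (𝓞 K)[X] →ₐ[𝓞 K] 𝒜).toRingHom.IsIntegralElem a := by
    let _ : Algebra (𝓞 K)[X] 𝒜 := (aeval x : (𝓞 K)[X] →ₐ[𝓞 K] 𝒜).toRingHom.toAlgebra
    have : IsScalarTower (𝓞 K) (𝓞 K)[X] 𝒜 :=
      .of_algebraMap_eq fun c => ((aeval x).commutes c).symm
    have : NeZero N := ⟨fx.pos.ne'⟩
    obtain ⟨η, -⟩ := hApe (𝓞 K) 𝒜 S μ N fx.fm (by
      convert fx.mo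
      exact aeval_X x)
    have := Module.Finite.of_basis η
    exact fun a => IsIntegral.of_finite (𝓞 K)[X] a
  have m1 : ∀ V : Subring F, Dvr V → (x : F) ∈ V → ∀ a : 𝒜, (a : F) ∈ V := fun V hV hx a =>
    let ⟨q, h1, h2⟩ := key (hI a) 𝒜.val.toRingHom (isIntegral_algebraMap (x := (⟨x, hx⟩ : V)))
    (dvA hV).int a q h1 h2
  have m2 : ∀ P, Pl P → P ≠ O' → ∀ a : 𝒜, (a : F) ∈ P := fun P h1 h2 a =>
    (fx.mem a).2 ⟨1, one_ne_zero, by simp⟩ P h1 h2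
  have x0 : (x : F) ≠ 0 := fun e => fx.inf (e ▸ O'.zero_mem)
  have dv : ∀ g : 𝒜, ((g : F) ≠ 0 → ∀ P, Pl P → P ≠ O' → Nu P x → ordR P (x : F) ≤ ordR P g) →
      x ∣ g := fun g h => by
    by_cases g0 : (g : F) = 0
    · rw [show g = 0 from Subtype.ext g0]
      exact dvd_zero x
    obtain ⟨n, hn, k⟩ := (fx.mem (g * (x : F) ^ (-1 : ℤ))).1 fun P h1 h2 => by
      have D := dvA h1.1
      rw [D.mem _ (mul_ne_zero g0 (zpow_ne_zero _ x0)), D.mul _ _ g0 (zpow_ne_zero _ x0),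
        D.zpow _ _ x0]
      rcases nu_or (m2 P h1 h2 x) with e | e
      · linarith [h g0 P h1 h2 e]
      · linarith [(D.mem _ g0).1 (m2 P h1 h2 g), ((D.ut _).1 e).2]
    have e : x * ⟨_, k⟩ = algebraMap (𝓞 K) 𝒜 n * g := Subtype.ext (by
      simp
      field_simp)
    have r := (hRed _ 𝒜 S μ fx.fm).2.1 (n : 𝓞 K)
    obtain ⟨b, hb⟩ := (r _).1 ((hFm _ 𝒜 S μ fx.fm).can _ N 0 x ⟨_, k⟩ fx.mo fun d _ =>
      (r _).2 (e ▸ dvd_mul_right _ g) d d.1.zero_le)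
    refine ⟨b, mul_left_cancel₀ (a := algebraMap (𝓞 K) 𝒜 n) (by simpa using hn) ?_⟩
    rw [← e, hb]
    ring
  obtain ⟨j, hj⟩ := ((fi.fin x).image fun P => (ordR P (x : F)).toNat).bddAbove
  have pw : ∀ P : Subring F, Pl P → Nu P x → ∀ u : F, u ≠ 0 → Nu P u →
      ordR P (x : F) ≤ ordR P (u ^ j) := fun P h1 h2 u u0 hu => by
    have := hj ⟨P, ⟨h1, ((((dvA h1.1).nu _).1 h2).resolve_left x0).ne'⟩, rfl⟩
    exact (Int.toNat_le.1 this).trans (ord_pow h1.1 u0 hu j)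
  refine ⟨fun V hV hx a => ⟨m1 V hV hx.1 a, ?_⟩, fun g h => ?_, ?_⟩
  · have := (dvA hV).loc
    let ρ : 𝒜 →+* V := 𝒜.val.toRingHom.codRestrict V (m1 V hV hx.1)
    obtain ⟨q, h1, h2⟩ := key (R := ℤ) (hI a) ((residue V).comp ρ) (by
      rw [RingHom.comp_apply, (res0 (ρ x)).2 hx]
      exact isIntegral_zero)
    refine ⟨q, h1, ?_⟩
    have h3 := aeval_algHom_apply ((residue V).comp ρ).toIntAlgHom a q
    have h4 := aeval_algHom_apply 𝒜.val.toRingHom.toIntAlgHom a q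
    exact h4 ▸ (res0 (ρ (aeval a q))).1 (h3.symm.trans h2)
  · by_cases g0 : (g : F) = 0
    · exact ⟨1, by simp [show g = 0 from Subtype.ext g0]⟩
    · exact ⟨j, dv _ fun _ P h1 h2 h3 => pw P h1 h3 g g0 (h P h1 h2 h3)⟩
  · have := (dvA fx.rat.1.1).loc
    have xO : Nu O x := ((dvA fx.rat.1.1).nu _).2 (.inr (by rw [fx.ord]; exact one_pos))
    let ρ : 𝒜 →+* O := 𝒜.val.toRingHom.codRestrict O (m2 O fx.rat.1 fx.ne)
    let ε := RingEquiv.ofBijective (GP.emb K O (nb.mem O fx.rat.1))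
      ⟨RingHom.injective _, fun z => by
      obtain ⟨z, rfl⟩ := residue_surjective z
      obtain ⟨c, hc⟩ := fx.rat.2 z z.2
      refine ⟨c, (sub_eq_zero.1 ?_).symm⟩
      exact (map_sub (residue O) _ _).symm.trans ((res0 _).2 hc)⟩
    let e0 : 𝒜 →+* K := ε.symm.toRingHom.comp ((residue O).comp ρ)
    have ex : e0 x = 0 := by simp [e0, (res0 (ρ x)).2 xO]
    have hi : ∀ a, e0 a ∈ integralClosure ℤ K := fun a => key (hI a) e0 (ex ▸ isIntegral_zero)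
    let e : 𝒜 →ₐ[𝓞 K] 𝓞 K := ⟨e0.codRestrict _ hi, fun c => Subtype.ext (ε.symm_apply_eq.2 rfl)⟩
    have he : ∀ a : 𝒜, Nu O (a - algebraMap (𝓞 K) F (e a)) := fun a => by
      have h : residue O (ρ a - ⟨_, nb.mem O fx.rat.1 (e0 a)⟩) = 0 :=
        (map_sub _ _ _).trans (sub_eq_zero.2 (ε.apply_symm_apply _).symm)
      exact (res0 _).1 h
    have sp : ∀ s : Set (Subring F), s.Finite → (∀ P ∈ s, Pl P ∧ P ≠ O' ∧ P ≠ O) →
        ∃ θ : 𝒜, Ut O θ ∧ ∀ P ∈ s, Nu P θ := fun s hs => by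
      induction s, hs using Set.Finite.induction_on with
      | empty => exact fun _ => ⟨1, ut_one, by simp⟩
      | @insert P s _ _ ih =>
        intro h
        obtain ⟨hP, hs⟩ := Set.forall_mem_insert.1 h
        obtain ⟨θ, t1, t2⟩ := ih hs
        obtain ⟨u, u1, u2⟩ := pg.sep P O hP.1 hP.2.1 fx.rat.1 fx.ne hP.2.2
        exact ⟨θ * u, t1.mul u2, Set.forall_mem_insert.2 ⟨u1.mul (m2 P hP.1 hP.2.1 θ), fun Q hQ =>
          mul_comm u θ ▸ (t2 Q hQ).mul (m2 Q (hs Q hQ).1 (hs Q hQ).2.1 u)⟩⟩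
    obtain ⟨θ, t1, t2⟩ := sp {P | (Pl P ∧ ordR P (x : F) ≠ 0) ∧ P ≠ O' ∧ P ≠ O}
      ((fi.fin x).subset fun _ h => h.1) fun _ h => ⟨h.1.1, h.2⟩
    refine ⟨e, θ ^ j, _, ⟨Subtype.ext ex, rfl, fun h => ?_, fun a => dv _ fun g0 P h1 h2 h3 => ?_⟩,
      he⟩
    · have := he (θ ^ j)
      rw [h, map_zero, sub_zero] at this
      exact this.not (t1.pow j)
    · have D := dvA h1.1
      obtain ⟨b0, θ0⟩ := mul_ne_zero_iff.1 g0
      refine le_of_le_of_eq ?_ (D.mul _ _ b0 θ0).symm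
      by_cases q : P = O
      · subst q
        exact fx.ord.trans_le (le_add_of_le_of_nonneg (((D.nu _).1 (he a)).resolve_left b0)
          ((D.mem _ θ0).1 (m2 P h1 h2 _)))
      · exact le_add_of_nonneg_of_le ((D.mem _ b0).1 (m2 P h1 h2 _)) (pw P h1 h3 θ t1.1
          (t2 P ⟨⟨h1, (((D.nu _).1 h3).resolve_left x0).ne'⟩, h2, q⟩))

end Pool.Agent.MP_f3836a_nt.GV.A
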