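import Pool.Agent.MP_f3836a_nt.GV.SpecL

/-! Block A: the pigeonhole principle and the lemma of Schanuel. -/

set_option autoImplicit false

namespace Pool.Agent.MP_f3836a_nt.GV.A

open Polynomial NumberField IsDedekindDomain

namespace APig

theorem tors {O R M : Type} [CommRing O] [CommRing R] [Algebra O R] [AddCommGroup M] [Module O M]
    [Module R M] [IsScalarTower O R M] [Module.Finite R M] (b : R) (h : ∀ m : M, b • m = 0) :
    (Module.Finite O (R ⧸ Ideal.span {b}) → Module.Finite O M) ∧
      (Finite (R ⧸ Ideal.span {b}) → Finite M) := by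
  have h' : Module.IsTorsionBySet R M (Ideal.span {b}) :=
    (Module.isTorsionBySet_span_singleton_iff b).2 fun m => h m
  let _ := h'.module
  have : IsScalarTower R (R ⧸ Ideal.span {b}) M := h'.isScalarTower
  have : IsScalarTower O (R ⧸ Ideal.span {b}) M := h'.isScalarTower
  have := Module.Finite.of_restrictScalars_finite R (R ⧸ Ideal.span {b}) M
  exact ⟨fun _ => Module.Finite.trans (R ⧸ Ideal.span {b}) M,
    fun _ => Module.finite_of_finite (R ⧸ Ideal.span {b})⟩

theorem fin_quot {O B : Type} [CommRing O] [CommRing B] [Algebra O[X] B] [Module.Finite O[X] B]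
    {b : O} {P : O[X]} (hb : Finite (O ⧸ Ideal.span {b})) (hP : P.Monic) (J : Ideal B)
    (h1 : algebraMap O[X] B (C b) ∈ J) (h2 : algebraMap O[X] B P ∈ J) : Finite (B ⧸ J) := by
  have k : ∀ p : O[X], algebraMap O[X] B p ∈ J → ∀ m : B ⧸ J, p • m = 0 := fun p h m => by
    rw [Algebra.smul_def, IsScalarTower.algebraMap_apply O[X] B, Ideal.Quotient.algebraMap_eq,
      Ideal.Quotient.eq_zero_iff_mem.2 h, zero_mul]
  let _ : Module O (B ⧸ J) := Module.compHom _ (algebraMap O O[X])
  have : IsScalarTower O O[X] (B ⧸ J) := .of_algebraMap_smul fun _ _ => rfl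
  have : Module.Finite O (B ⧸ J) := (tors P (k P h2)).1 hP.finite_quotient
  exact (tors (O := O) b (k (C b) h1)).2 hb

theorem sch {R B P Q : Type} [CommRing R] [AddCommGroup B] [Module R B] [AddCommGroup P]
    [Module R P] [AddCommGroup Q] [Module R Q] [Module.Projective R B] [Module.Projective R P]
    (π : B →ₗ[R] Q) (ρ : P →ₗ[R] Q) (h : Function.Surjective π) (h' : Function.Surjective ρ)
    [Module.Projective R (LinearMap.ker ρ)] : Module.Projective R (LinearMap.ker π) := by
  obtain ⟨σ, hσ⟩ := Module.projective_lifting_property ρ π h'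
  obtain ⟨τ, hτ⟩ := Module.projective_lifting_property π ρ h
  have a : ∀ b, ρ (σ b) = π b := LinearMap.congr_fun hσ
  have c : ∀ p, π (τ p) = ρ p := LinearMap.congr_fun hτ
  refine Module.Projective.of_split (M := B × LinearMap.ker ρ)
    ((LinearMap.ker π).subtype.prod (σ.restrict fun b hb => (a b).trans hb))
    (((LinearMap.id - τ ∘ₗ σ).codRestrict _ fun b => by simp [a, c]).coprod
      (τ.restrict fun p hp => (c p).trans hp)) ?_
  ext m
  simp

theorem res {O Q ι : Type} [CommRing O] [IsDomain O] [AddCommGroup Q] [Module O Q] [Module O[X] Q]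
    [IsScalarTower O O[X] Q] [Fintype ι] (q : Module.Basis ι O Q) :
    ∃ ρ : (ι → O[X]) →ₗ[O[X]] Q, Function.Surjective ρ ∧
      Module.Projective O[X] (LinearMap.ker ρ) := by
  classical
  let Y := LinearMap.toMatrix q q (LinearMap.lsmul O[X] Q X |>.restrictScalars O)
  let ψ := Y.charmatrix.mulVecLin
  let ρ := Fintype.linearCombination O[X] q
  let r : Q →+ ι → O[X] := AddMonoidHom.pi fun s => (C : O →+* O[X]).toAddMonoidHom.comp
    (q.coord s).toAddMonoidHom
  have r0 : ∀ z s, r z s = C (q.repr z s) := fun _ _ => rfl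
  have cs : ∀ (a : O) (z : Q), (C a : O[X]) • z = a • z := fun a z => algebraMap_smul O[X] a z
  have h1 : ∀ z, ρ (r z) = z := fun z => by
    simp only [ρ, Fintype.linearCombination_apply, r0, cs, q.sum_repr]
  have h2 : ∀ z, ψ (r z) = (X : O[X]) • r z - r ((X : O[X]) • z) := fun z => by
    have e := LinearMap.toMatrix_mulVec_repr q q (LinearMap.lsmul O[X] Q X |>.restrictScalars O) z
    ext1 s
    rw [Pi.sub_apply, r0, show q.repr ((X : O[X]) • z) s = _ from (congrFun e s).symm,
      RingHom.map_mulVec]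
    simp only [ψ, Matrix.mulVecLin_apply, Matrix.charmatrix, Matrix.sub_mulVec, Pi.sub_apply]
    congr 1
    simp [Matrix.mulVec_diagonal]
  have h3 : ∀ (p : O[X]) z, p • r z - r (p • z) ∈ LinearMap.range ψ := fun p z => by
    induction p using Polynomial.induction_on with
    | C a =>
      have : (C a : O[X]) • r z = r ((C a : O[X]) • z) := funext fun s => by simp [r0, cs]
      rw [this, sub_self]
      exact zero_mem _
    | add p p' a b =>
      rw [add_smul, add_smul, map_add, add_sub_add_comm]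
      exact add_mem a b
    | monomial n a b =>
      rw [pow_succ, ← mul_assoc, mul_comm _ X, mul_smul X, mul_smul X,
        ← sub_add_sub_cancel _ ((X : O[X]) • r ((C a * X ^ n : O[X]) • z)), ← smul_sub, ← h2]
      exact add_mem (Submodule.smul_mem _ _ b) ⟨_, rfl⟩
  have h4 : ∀ g : ι → O[X], g = ∑ s, g s • r (q s) := fun g => funext fun t => by
    simp [r0, Finsupp.single_apply, apply_ite C]
  have e : LinearMap.range ψ = LinearMap.ker ρ := le_antisymm (by
    rintro _ ⟨g, rfl⟩
    rw [h4 g, LinearMap.mem_ker]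
    simp [h1, h2]) fun g hg => by
    have a := sum_mem fun s (_ : s ∈ Finset.univ) => h3 (g s) (q s)
    rwa [Finset.sum_sub_distrib, ← h4, ← map_sum, ← Fintype.linearCombination_apply,
      LinearMap.mem_ker.1 hg, map_zero, sub_zero] at a
  have i : Function.Injective ψ := (injective_iff_map_eq_zero ψ).2 fun g hg =>
    Matrix.eq_zero_of_mulVec_eq_zero Y.charpoly_monic.ne_zero hg
  exact ⟨ρ, fun z => ⟨_, h1 z⟩, e ▸ Module.Projective.of_equiv' (LinearEquiv.ofInjective ψ i)⟩

end APig

open APig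

theorem aPig : PigS := by
  intro O B _ _ _ _ b c V I hb h
  let f : ℕ → Fin (c + 1) → O ⧸ Ideal.span {b} := fun t i => Ideal.Quotient.mk _ ((V t).coeff i)
  have hf : ∀ t t', f t = f t' → C b ∣ V t - V t' := fun t t' e =>
    (C_dvd_iff_dvd_coeff _ _).2 fun i => by
      rw [coeff_sub]
      by_cases hi : i < c + 1
      · exact Ideal.mem_span_singleton.1 (Ideal.Quotient.eq.1 (congrFun e ⟨i, hi⟩))
      · rw [coeff_eq_zero_of_natDegree_lt, coeff_eq_zero_of_natDegree_lt, sub_zero]
        · exact dvd_zero b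
        all_goals rw [(h _).1.natDegree_eq]; omega
  have := Fintype.ofFinite (Fin (c + 1) → O ⧸ Ideal.span {b})
  let P := ∏ w, V (Function.invFun f w)
  let K := fun t => I t ⊔ Ideal.span {algebraMap O[X] B (C b)}
  let J : Ideal B := ⨅ t, K t
  have hb' : ∀ t, algebraMap O[X] B (C b) ∈ K t := fun t =>
    Ideal.mem_sup_right (Ideal.mem_span_singleton_self _)
  have : Finite (B ⧸ J) := fin_quot (P := P) hb (monic_prod_of_monic _ _ fun w _ => (h _).1.monic) J
    (Ideal.mem_iInf.2 hb') (Ideal.mem_iInf.2 fun t => by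
      obtain ⟨u, hu⟩ := hf _ t (Function.invFun_eq ⟨t, rfl⟩)
      refine (K t).mem_of_dvd (map_dvd _ (Finset.dvd_prod_of_mem _ (Finset.mem_univ (f t)))) ?_
      rw [eq_add_of_sub_eq hu, map_add, map_mul]
      exact add_mem (Ideal.mul_mem_right _ _ (hb' t)) (Ideal.mem_sup_left (h t).2))
  have key : ∀ t t', (f t, Ideal.Quotient.mk J '' K t) = (f t', Ideal.Quotient.mk J '' K t') →
      C b ∣ V t - V t' ∧ I t' ≤ K t := fun t t' e => ⟨hf t t' (congrArg Prod.fst e), fun x hx => by
    obtain ⟨y, hy, a⟩ := (congrArg Prod.snd e).ge ⟨x, Ideal.mem_sup_left hx, rfl⟩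
    simpa using sub_mem hy (Ideal.mem_iInf.1 (Ideal.Quotient.eq.1 a) t)⟩
  obtain ⟨t, t', ne, e⟩ := Finite.exists_ne_map_eq_of_infinite
    fun t => (f t, Ideal.Quotient.mk J '' K t)
  rcases ne.lt_or_gt with a | a
  · exact ⟨t, t', a, key t t' e⟩
  · exact ⟨t', t, a, key t' t e.symm⟩

theorem aSch : SchS := by
  intro O B _ _ _ _ _ _ _ h1 h2 M hM hf
  refine ⟨?_, Module.Finite.of_injective (M.subtype.restrictScalars O[X]) Subtype.val_injective⟩
  have : Module.IsTorsionFree O (B ⧸ M) := .of_smul_eq_zero fun o a e => by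
    obtain ⟨a, rfl⟩ := Ideal.Quotient.mk_surjective a
    refine or_iff_not_imp_left.2 fun ho => Ideal.Quotient.eq_zero_iff_mem.2 (hM o a ho ?_)
    rw [← Ideal.Quotient.eq_zero_iff_mem, ← e, ← Algebra.smul_def]
    rfl
  obtain ⟨ρ, a, b⟩ := res (Module.Free.chooseBasis O (B ⧸ M))
  have c := sch (M.mkQ.restrictScalars O[X]) ρ M.mkQ_surjective a
  rw [LinearMap.ker_restrictScalars, Submodule.ker_mkQ] at c
  exact c

end Pool.Agent.MP_f3836a_nt.GV.A
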