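import Pool.Agent.MP_f3836a_nt.GV.SpecA

/-! Rows `Pr` and `HsK`: the primes of the points. -/

set_option autoImplicit false

namespace Pool.Agent.MP_f3836a_nt.GV.A

open Polynomial NumberField IsDedekindDomain VE VE.A

namespace APr

section
variable {n : ℕ} [NeZero n] {M : Tab ℤ n} {R R' : Type} [CommRing R] [CommRing R'] {s : Fin n → R}
  {s' : Fin n → R'}

theorem mulX (h : Hm (fun i => (M i).map (Int.cast : ℤ → R)) s) (β : Fin n → ℤ) (j : Fin n) :
    (∑ i, β i * s i) * s j = ∑ l, ((∑ i, β i * M i l j : ℤ) : R) * s l := by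
  simp only [Finset.sum_mul, mul_assoc, h.2, Finset.mul_sum, Matrix.map_apply, Int.cast_sum,
    Int.cast_mul]
  exact Finset.sum_comm

theorem con (h : s 0 = 1) (a : ℤ) : ∑ i, ((Pi.single 0 a : Fin n → ℤ) i : R) * s i = a := by
  rw [Finset.sum_eq_single 0 (fun i _ hi => by simp [hi]) (by simp)]
  simp [h]

theorem red (h : Hm (fun i => (M i).map (Int.cast : ℤ → R)) s)
    (h' : Hm (fun i => (M i).map (Int.cast : ℤ → R')) s') (P : MvPolynomial (Fin n) ℤ) :
    ∃ β : Fin n → ℤ, MvPolynomial.aeval s P = ∑ i, β i * s i ∧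
      MvPolynomial.aeval s' P = ∑ i, β i * s' i := by
  induction P using MvPolynomial.induction_on with
  | C a => exact ⟨Pi.single 0 a, by simp [con h.1], by simp [con h'.1]⟩
  | add P Q hP hQ =>
    obtain ⟨β, a, b⟩ := hP
    obtain ⟨γ, c, d⟩ := hQ
    exact ⟨β + γ, by simp [a, c, add_mul, Finset.sum_add_distrib],
      by simp [b, d, add_mul, Finset.sum_add_distrib]⟩
  | mul_X P j hP =>
    obtain ⟨β, a, b⟩ := hP
    exact ⟨_, by rw [map_mul, a, MvPolynomial.aeval_X, mulX h],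
      by rw [map_mul, b, MvPolynomial.aeval_X, mulX h']⟩

end

theorem key (hO : OdS) {k ι : Type} [Field k] [NumberField k] (φ : HeightOneSpectrum (𝓞 k) → ℝ)
    (u : 𝓞 k) (t : Finset ι) (q : ι → HeightOneSpectrum (𝓞 k)) (p : ι → ℕ)
    (hi : Set.InjOn q t) (h : ∀ a ∈ t, u ∈ (q a).asIdeal ∧ (p a).Prime ∧ (p a : 𝓞 k) ∈ (q a).asIdeal)
    (hn : Ideal.absNorm (Ideal.span {u}) = ∏ a ∈ t, p a) :
    u ≠ 0 ∧ ∑ᶠ v, φ v * od v u = ∑ a ∈ t, φ (q a) := by
  classical
  have h0 : ∏ a ∈ t, p a ≠ 0 := Finset.prod_ne_zero_iff.2 fun a ha => (h a ha).2.1.ne_zero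
  have hu : u ≠ 0 := fun e => h0 (by simpa [e] using hn.symm)
  obtain ⟨I, hI⟩ : ∏ a ∈ t, (q a).asIdeal ∣ Ideal.span {u} := Finset.prod_dvd_of_coprime
    (fun a ha b hb e => (q a).isCoprime_of_ne _ fun e' => e (hi ha hb e'))
    fun a ha => Ideal.dvd_span_singleton.2 (h a ha).1
  obtain ⟨c, hc⟩ : ∏ a ∈ t, p a ∣ ∏ a ∈ t, Ideal.absNorm (q a).asIdeal :=
    Finset.prod_dvd_prod_of_dvd _ _ fun a ha => by
      have h1 := Ideal.absNorm_dvd_absNorm_of_le ((Ideal.span_singleton_le_iff_mem _).2 (h a ha).2.2)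
      rw [Ideal.absNorm_span_natCast, Nat.dvd_prime_pow (h a ha).2.1] at h1
      obtain ⟨m, -, h2⟩ := h1
      rw [h2]
      refine dvd_pow_self _ fun e => (q a).isPrime.ne_top (Ideal.absNorm_eq_one_iff.1 ?_)
      rw [h2, e, pow_zero]
  rw [hI, map_mul, map_prod, hc, mul_assoc, mul_eq_left₀ h0, mul_eq_one,
    Ideal.absNorm_eq_one_iff] at hn
  rw [hn.2, Ideal.mul_top] at hI
  have hd : ∀ (v : HeightOneSpectrum (𝓞 k)) (t' : Finset ι),
      v.asIdeal ∣ ∏ a ∈ t', (q a).asIdeal → ∃ a ∈ t', q a = v := fun v t' e => by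
    obtain ⟨a, ha, e⟩ := (v.prime.dvd_finsetProd_iff _).1 e
    exact ⟨a, ha, HeightOneSpectrum.ext
      ((q a).isMaximal.eq_of_le v.isPrime.ne_top (Ideal.le_of_dvd e))⟩
  refine ⟨hu, ?_⟩
  rw [finsum_eq_sum_of_support_subset (s := t.image q), Finset.sum_image hi]
  · refine Finset.sum_congr rfl fun a ha => ?_
    have h1 := (((hO k).1 (q a) u u 1).2.2.2.2.1 hu).1 (by simpa using (h a ha).1)
    have h2 := mt (((hO k).1 (q a) u u 2).2.2.2.2.1 hu).2 fun e => by
      rw [← Ideal.dvd_span_singleton, hI, ← Finset.mul_prod_erase _ _ ha, pow_two,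
        mul_dvd_mul_iff_left (q a).ne_bot] at e
      obtain ⟨b, hb, e⟩ := hd _ _ e
      exact (Finset.mem_erase.1 hb).1 (hi (Finset.mem_of_mem_erase hb) ha e)
    have h3 : od (q a) u = 1 := by
      unfold od at h1 h2 ⊢
      norm_cast at h1 h2 ⊢
      omega
    rw [h3, mul_one]
  · intro v hv
    have h1 : u ∈ v.asIdeal := by_contra fun e => hv (by simp [((hO k).1 v u u 0).2.1 e])
    rw [← Ideal.dvd_span_singleton, hI] at h1
    simpa using hd _ _ h1

end APr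

open APr in
theorem aPr : PrS := by
  intro n _ κ _ _ M z hz
  have hint : ∀ j, IsIntegral ℤ (z j) := fun j => by
    refine isIntegral_of_smul_mem_submodule (Submodule.span ℤ (Set.range z))
      ((Submodule.ne_bot_iff _).2 ⟨_, Submodule.subset_span ⟨0, rfl⟩, z.ne_zero 0⟩)
      (Submodule.fg_span (Set.finite_range _)) _ fun x hx => ?_
    obtain ⟨β, rfl⟩ := (Submodule.mem_span_range_iff_exists_fun ℤ).1 hx
    simp only [smul_eq_mul, zsmul_eq_mul]
    rw [mul_comm, mulX hz]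
    exact (Submodule.mem_span_range_iff_exists_fun ℤ).2 ⟨_, by simp only [zsmul_eq_mul]; rfl⟩
  let ζ : Fin n → 𝓞 κ := fun j => ⟨z j, hint j⟩
  have hc : ∀ β : Fin n → ℤ, ((∑ i, β i * ζ i : 𝓞 κ) : κ) = ∑ i, β i * z i := fun β => by
    simp [ζ]
  have hr : ∀ (β : Fin n → ℤ) l, z.repr (∑ i, β i * z i) l = β l := fun β l => by
    have := z.repr_sum_self fun i => (β i : ℚ)
    simp only [Algebra.smul_def, map_intCast] at this
    rw [this]
  have hζ : Hm (fun i => (M i).map (Int.cast : ℤ → 𝓞 κ)) ζ :=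
    ⟨RingOfIntegers.ext hz.1, fun i j => RingOfIntegers.ext ((hz.2 i j).trans (hc _).symm)⟩
  refine ⟨fun β => ⟨_, hc β, Int.cast_injective (α := ℚ) ?_⟩, ?_⟩
  · rw [Algebra.coe_norm_int, hc, Algebra.norm_eq_matrix_det z, Nm, Int.cast_det]
    congr 1
    ext l j
    rw [Algebra.leftMulMatrix_eq_repr_mul, mulX hz, hr]
    simp only [Mx, Matrix.map_apply, Matrix.sum_apply, Matrix.smul_apply, smul_eq_mul]
  obtain ⟨q0, h0, h1⟩ := Ring.not_isField_iff_exists_prime.1 (RingOfIntegers.not_isField κ)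
  suffices h : ∀ (p : ℕ) (s : Fin n → ℤ), ∃ J : HeightOneSpectrum (𝓞 κ), p.Prime →
      Hm (fun i => (M i).map (Int.cast : ℤ → ZMod p)) (fun i => (s i : ZMod p)) →
      ∀ (β : Fin n → ℤ) (u : 𝓞 κ), (u : κ) = ∑ i, β i * z i →
        (u ∈ J.asIdeal ↔ (p : ℤ) ∣ ∑ i, β i * s i) by
    choose J hJ using h
    exact ⟨J, hJ⟩
  intro p s
  by_cases h : p.Prime ∧ Hm (fun i => (M i).map (Int.cast : ℤ → ZMod p)) fun i => (s i : ZMod p)
  swap
  · exact ⟨⟨q0, h1, h0⟩, fun a b => absurd ⟨a, b⟩ h⟩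
  have := Fact.mk h.1
  let _ := (MvPolynomial.aeval (R := ℤ) ζ).toRingHom.toAlgebra
  have : Algebra.IsIntegral (MvPolynomial (Fin n) ℤ) (𝓞 κ) := Algebra.IsIntegral.tower_top ℤ
  let G := MvPolynomial.aeval (R := ℤ) fun i => (s i : ZMod p)
  have := RingHom.ker_isPrime G
  obtain ⟨Q, hQ, e⟩ := Ideal.exists_ideal_over_prime_of_isIntegral_of_isDomain (S := 𝓞 κ)
    (RingHom.ker G) fun P hP => by
      obtain ⟨β, a, b⟩ := red hζ h.2 P
      have h2 : ∀ l, β l = 0 := fun l => by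
        have := hr β l
        rw [← hc, ← a, show MvPolynomial.aeval ζ P = 0 from hP] at this
        simpa using this.symm
      rw [RingHom.mem_ker, b]
      simp [h2]
  have hm : ∀ P, MvPolynomial.aeval ζ P ∈ Q ↔ G P = 0 := fun P => by
    rw [← RingHom.mem_ker, ← e]
    rfl
  refine ⟨⟨Q, hQ, fun e => h.1.ne_zero ?_⟩, fun _ _ β u hu => ?_⟩
  · simpa [e] using hm p
  · have := hm (∑ i, (β i : MvPolynomial (Fin n) ℤ) * MvPolynomial.X i)
    rw [← ZMod.intCast_zmod_eq_zero_iff_dvd, RingOfIntegers.ext (hu.trans (hc β).symm)]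
    simpa [G] using this

open APr in
theorem aHsK : OfHsK := by
  intro hO hP n _ κ _ _ M z l φ hz hl
  obtain ⟨hN, J, hJ⟩ := hP n κ M z hz
  have hp : ∀ (p : ℕ) (s : Fin n → ℤ), p.Prime →
      Hm (fun i => (M i).map (Int.cast : ℤ → ZMod p)) (fun i => (s i : ZMod p)) →
      (p : 𝓞 κ) ∈ (J p s).asIdeal := fun p s h h' => by
    refine (hJ p s h h' (Pi.single 0 p) p (by simp [con hz.1])).2 ?_
    rw [Finset.sum_eq_single 0 (fun i _ hi => by simp [hi]) (by simp)]
    simp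
  refine ⟨fun p s => φ (J p s), fun ss β T hT hE => ?_, fun p Y s h hY hs hβ => ?_⟩
  · obtain ⟨u, hu, hn⟩ := hN β
    obtain ⟨a, b⟩ := key hO φ u ⟨T, hE.1.of_map _⟩ (fun w => J w.p (ss w)) Pt.p
      (fun w hw w' hw' e => Multiset.inj_on_of_nodup_map hE.1 w hw w' hw' (by
        by_contra e'
        obtain ⟨a, b, c⟩ : IsCoprime (w.p : 𝓞 κ) w'.p :=
          ((Nat.coprime_primes (hT w hw).1 (hT w' hw').1).2 e').cast
        refine (J w.p (ss w)).isPrime.ne_top ((Ideal.eq_top_iff_one _).2 (c ▸ add_mem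
          (Ideal.mul_mem_left _ _ (hp _ _ (hT w hw).1 (hT w hw).2)) (Ideal.mul_mem_left _ _ ?_)))
        exact (show J w.p (ss w) = _ from e) ▸ hp _ _ (hT w' hw').1 (hT w' hw').2))
      (fun w hw => ⟨(hJ _ _ (hT w hw).1 (hT w hw).2 β u hu).2 (hE.2.1 w hw), (hT w hw).1,
        hp _ _ (hT w hw).1 (hT w hw).2⟩)
      (by rw [Ideal.absNorm_span_singleton, hn.trans hE.2.2.symm, Int.natAbs_natCast]; rfl)
    rw [← hu, hl u a, b]
    rfl
  · classical
    have := Fact.mk h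
    let A := (Matrix.of fun (y : Y) i => (s y i : ZMod p)).mulVecLin
    have hA : ∀ (β : Fin n → ℤ) y, A (fun i => β i) y = 0 ↔ (p : ℤ) ∣ ∑ i, β i * s y i :=
      fun β y => by
        rw [← ZMod.intCast_zmod_eq_zero_iff_dvd]
        simp [A, Matrix.mulVec, dotProduct, mul_comm]
    have hl' : ∀ b : Fin n → ZMod p, ∃ β : Fin n → ℤ, b = fun i => (β i : ZMod p) := fun b => by
      choose β h using fun i => ZMod.intCast_surjective (b i)
      exact ⟨β, (funext h).symm⟩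
    have hs' : Function.Surjective A := by
      refine (LinearMap.injective_iff_surjective_of_finrank_eq_finrank (by simp [hY])).1
        ((injective_iff_map_eq_zero A).2 fun b hb => ?_)
      obtain ⟨β, rfl⟩ := hl' b
      exact funext fun i => (ZMod.intCast_zmod_eq_zero_iff_dvd _ _).2
        (hβ β (fun y hy => (hA β ⟨y, hy⟩).1 (congrFun hb _)) i)
    obtain ⟨a, b⟩ := key hO φ p Y (fun y => J p (s y)) (fun _ => p) (fun y hy y' hy' e => by
        by_contra e'
        obtain ⟨b, hb⟩ := hs' (Pi.single ⟨y', hy'⟩ 1)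
        obtain ⟨β, rfl⟩ := hl' b
        obtain ⟨u, hu, -⟩ := hN β
        have h1 := (hJ p _ h (hs y hy) β u hu).2 ((hA β ⟨y, hy⟩).1 (by simp [hb, e']))
        rw [show J p (s y) = _ from e, hJ p _ h (hs y' hy') β u hu, ← hA β ⟨y', hy'⟩, hb] at h1
        simp at h1)
      (fun y hy => ⟨hp p _ h (hs y hy), h, hp p _ h (hs y hy)⟩) (by
        rw [Ideal.absNorm_span_natCast, RingOfIntegers.rank, Module.finrank_eq_card_basis z]
        simp [hY])
    simpa [b] using hl p a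

end Pool.Agent.MP_f3836a_nt.GV.A
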