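import Pool.Agent.MP_f3836a_nt.GV.SpecL

/-! Row `APt`: a point near a simple zero. -/

set_option autoImplicit false

namespace Pool.Agent.MP_f3836a_nt.GV.A

open Polynomial NumberField IsDedekindDomain

namespace APt

open Matrix

variable {O n : Type} [CommRing O] [IsDomain O] [Fintype n] [DecidableEq n]

theorem minor (M : Matrix n n O) (z : O) (κ : O[X]) (h : M.charpoly = (X - C z) * κ)
    (hz : κ.eval z ≠ 0) (v v' : n → O) (hv : M *ᵥ v = z • v) (hv' : M *ᵥ v' = z • v') (i j : n) :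
    v i * v' j = v j * v' i := by
  let f := algebraMap O (FractionRing O)
  have hf : Function.Injective f := IsFractionRing.injective _ _
  have h1 := LinearMap.finrank_eigenspace_le (M.map f).toLin' (f z)
  have h2 : (M.map f).toLin'.charpoly.rootMultiplicity (f z) ≤ 1 := by
    rw [rootMultiplicity_le_iff (LinearMap.charpoly_monic _).ne_zero, charpoly_toLin', charpoly_map,
      h, Polynomial.map_mul, Polynomial.map_sub, map_X, map_C, pow_two,
      mul_dvd_mul_iff_left (X_sub_C_ne_zero _), dvd_iff_isRoot, IsRoot, eval_map, eval₂_at_apply]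
    exact fun h0 => hz (hf (by rw [h0, map_zero]))
  obtain ⟨u, hu⟩ := finrank_le_one_iff.1 (h1.trans h2)
  have key : ∀ v : n → O, M *ᵥ v = z • v → ∃ c, ∀ i, f (v i) = c * u.1 i := fun v hv => by
    obtain ⟨c, hc⟩ := hu ⟨f ∘ v, Module.End.mem_eigenspace_iff.2 (by
      funext i
      rw [toLin'_apply, ← RingHom.map_mulVec, hv]
      simp)⟩
    exact ⟨c, fun i => (congrFun (congrArg Subtype.val hc) i).symm⟩
  obtain ⟨c, hc⟩ := key v hv
  obtain ⟨c', hc'⟩ := key v' hv'
  apply hf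
  simp only [map_mul, hc, hc']
  ring

theorem gen [IsDiscreteValuationRing O] (M : Matrix n n O) (z : O) (h : M.charpoly.eval z = 0) :
    ∃ (v : n → O) (i : n), v i = 1 ∧ M *ᵥ v = z • v := by
  rw [eval_charpoly] at h
  obtain ⟨v, h0, hv⟩ := exists_mulVec_eq_zero_iff.2 h
  obtain ⟨j, hj⟩ := Function.ne_iff.1 h0
  obtain ⟨i, -, hi⟩ := Finset.univ.exists_min_image
    (fun i => IsDiscreteValuationRing.addVal O (v i)) ⟨j, Finset.mem_univ j⟩
  choose u hu using fun l =>
    IsDiscreteValuationRing.addVal_le_iff_dvd.1 (hi l (Finset.mem_univ l))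
  have hi0 : v i ≠ 0 := fun h1 => hj (by rw [hu j, h1, zero_mul]; rfl)
  have e : v = v i • u := funext hu
  refine ⟨u, i, mul_left_cancel₀ hi0 (by rw [← hu i, mul_one]), ?_⟩
  rw [e, mulVec_smul, smul_eq_zero, sub_mulVec, sub_eq_zero] at hv
  rw [← hv.resolve_left hi0]
  funext l
  simp [mulVec_diagonal]

theorem chr [IsDiscreteValuationRing O] {B : Type} [CommRing B] [Algebra O B]
    (m : B →ₐ[O] Matrix n n O) (θ : B) (z : O) (κ : O[X])
    (h : (m θ).charpoly = (X - C z) * κ) (hz : κ.eval z ≠ 0) :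
    ∃ l : B →ₐ[O] O, l θ = z ∧ (∀ a ξ, m a = algebraMap O _ ξ → l a = ξ) ∧
      ∀ v, m θ *ᵥ v = z • v → ∀ a, m a *ᵥ v = l a • v := by
  obtain ⟨u, i, hi, hu⟩ := gen (m θ) z (by simp [h])
  have h1 : ∀ v, m θ *ᵥ v = z • v → v = v i • u := fun v hv => funext fun j => by
    have := minor _ z κ h hz v u hv hu j i
    rwa [hi, mul_one] at this
  have h2 : ∀ a, m a *ᵥ u = (m a *ᵥ u) i • u := fun a => h1 _ (by
    rw [mulVec_mulVec, ← map_mul, mul_comm, map_mul, ← mulVec_mulVec, hu, mulVec_smul])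
  have h3 : ∀ a ξ, m a = algebraMap O _ ξ → (m a *ᵥ u) i = ξ := fun a ξ ha => by
    rw [ha, Algebra.algebraMap_eq_smul_one, smul_mulVec, one_mulVec, Pi.smul_apply, hi,
      smul_eq_mul, mul_one]
  refine ⟨{ toFun := fun a => (m a *ᵥ u) i
            map_one' := h3 1 1 (by simp)
            map_mul' := fun a b => ?_
            map_zero' := by simp
            map_add' := fun a b => by simp [add_mulVec]
            commutes' := fun o => h3 _ o (m.commutes o) }, ?_, h3, fun v hv a => ?_⟩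
  · rw [map_mul, ← mulVec_mulVec, h2 b, mulVec_smul, Pi.smul_apply, Pi.smul_apply, hi,
      smul_eq_mul, smul_eq_mul, mul_one, mul_comm]
  · change (m θ *ᵥ u) i = z
    rw [hu, Pi.smul_apply, hi, smul_eq_mul, mul_one]
  · change m a *ᵥ v = (m a *ᵥ u) i • v
    rw [h1 v hv, mulVec_smul, smul_comm, ← h2]

end APt

open Matrix in
theorem aPt : OfPt := by
  intro hA O B _ _ _ _ _ _ _ hH N _ η e θ c ξ ϖ hS hϖ hξ
  obtain ⟨z, κ, h, hz, hc, hκ⟩ := hA O B hH N η e θ c ξ ϖ hS hϖ hξ
  let m : B →ₐ[O] Matrix (Fin N) (Fin N) O :=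
    (AlgHom.mapMatrix (aeval ξ : O[X] →ₐ[O] O)).comp ((Algebra.leftMulMatrix η).restrictScalars O)
  have hm : ∀ a, m a = (Algebra.leftMulMatrix η a).map (evalRingHom ξ) := fun a => by
    ext i j
    simp [m]
  let π : B → Fin N → O := fun b => evalRingHom ξ ∘ η.repr b
  have hπ : ∀ a b, π (a * b) = m a *ᵥ π b := fun a b => funext fun i => by
    rw [hm, ← RingHom.map_mulVec, Algebra.leftMulMatrix_mulVec_repr]
    rfl
  replace h : (m θ).charpoly = (X - C z) * κ := by
    rw [hm]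
    exact h
  obtain ⟨l, h1, h2, h3⟩ := APt.chr m θ z κ h hκ
  have h4 : ∀ (a : B) (o : O) v, m (a - algebraMap O B o) *ᵥ v = m a *ᵥ v - o • v := fun a o v => by
    rw [map_sub, sub_mulVec, m.commutes, Algebra.algebraMap_eq_smul_one, smul_mulVec, one_mulVec]
  have h5 : m θ *ᵥ π (aeval θ κ) = z • π (aeval θ κ) := by
    rw [← sub_eq_zero, ← h4, ← hπ, ← mul_one (_ * _), hπ]
    have : (θ - algebraMap O B z) * aeval θ κ = aeval θ (m θ).charpoly := by simp [h]
    rw [this, ← aeval_algHom_apply, Matrix.aeval_self_charpoly, zero_mulVec]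
  refine ⟨l, aeval θ κ, ⟨?_, rfl, ?_, fun a => ?_⟩, ?_, h1 ▸ hz⟩
  · rw [map_sub, l.commutes, h2 _ ξ, Algebra.algebraMap_self, RingHom.id_apply, sub_self]
    simp only [hm, AlgHom.commutes]
    ext i j
    by_cases hij : i = j <;> simp [algebraMap_matrix_apply, hij]
  · rwa [← aeval_algHom_apply, h1, coe_aeval_eq_eval]
  · have h6 : π ((a - algebraMap O B (l a)) * aeval θ κ) = 0 := by
      rw [hπ, h4, h3 _ h5, sub_self]
    generalize (a - algebraMap O B (l a)) * aeval θ κ = b at h6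
    rw [← η.sum_repr b]
    refine Finset.dvd_sum fun i _ => ?_
    obtain ⟨p, hp⟩ := dvd_iff_isRoot.2 (congrFun h6 i)
    rw [hp, Algebra.smul_def, map_mul, map_sub, mul_assoc, IsScalarTower.algebraMap_apply O O[X] B]
    exact dvd_mul_right _ _
  · rw [← aeval_algHom_apply, hS.et, coe_aeval_eq_eval]
    exact hc.trans (pow_dvd_pow c (Nat.sub_le N 1))

end Pool.Agent.MP_f3836a_nt.GV.A
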