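import Pool.Agent.MP_f3836a_nt.GV.SpecL

/-! Row PtA: the eigenvalue. -/

set_option autoImplicit false

namespace Pool.Agent.MP_f3836a_nt.GV.A

open Polynomial NumberField IsDedekindDomain

namespace APtA

open IsLocalRing

theorem key {O : Type} [CommRing O] [IsDomain O] [HenselianLocalRing O] {n : ℕ} {f g : O[X]}
    {c ϖ : O} (hc : c ≠ 0) (hϖ : ¬IsUnit ϖ) (hf : f.Monic) (hd : f.natDegree = n + 1)
    (e : f = X ^ (n + 1) - c • X ^ n + C (ϖ * c ^ (n + 1)) * g) :
    ∃ (z : O) (κ : O[X]), f = (X - C z) * κ ∧ z ∣ c ∧ κ.eval c ∣ c ^ n ∧ κ.eval z ≠ 0 := by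
  obtain ⟨p, hp⟩ : ∃ p, p = (X - 1) * X ^ n + C ϖ * g.comp (C c * X) := ⟨_, rfl⟩
  have h1 : f.comp (C c * X) = C c ^ (n + 1) * p := by
    simp only [e, hp, smul_eq_C_mul, add_comp, sub_comp, mul_comp, pow_comp, X_comp, C_comp,
      map_mul, map_pow]
    ring
  have h2 : p.Monic := by
    have := congrArg leadingCoeff h1
    rw [leadingCoeff_comp (by rw [natDegree_C_mul_X c hc]; exact one_ne_zero), hf.leadingCoeff, hd,
      leadingCoeff_C_mul_X, leadingCoeff_mul, leadingCoeff_pow, leadingCoeff_C, mul_comm] at this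
    exact (mul_left_cancel₀ (pow_ne_zero _ hc) this).symm
  have h3 : p.map (residue O) = (X - 1) * X ^ n := by
    simp [hp, (residue_eq_zero_iff ϖ).2 ((mem_maximalIdeal ϖ).2 hϖ)]
  have h4 : ∀ (q : O[X]) (a : O), residue O a = 1 →
      residue O (q.eval a) = (q.map (residue O)).eval 1 := fun q a h => by
    rw [← h, eval_map, eval₂_hom]
  obtain ⟨z, hz, hz'⟩ := HenselianLocalRing.is_henselian p h2 1
    ((residue_eq_zero_iff _).1 (by simp [h4 p 1 (map_one _), h3]))
    ((residue_ne_zero_iff_isUnit _).1 (by simp [h4 _ 1 (map_one _), ← derivative_map, h3]))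
  have h5 : residue O z = 1 := by
    rwa [← residue_eq_zero_iff, map_sub, map_one, sub_eq_zero] at hz'
  obtain ⟨k, hk⟩ := dvd_iff_isRoot.2 hz
  have h6 : k.map (residue O) = X ^ n := by
    rw [hk, Polynomial.map_mul, Polynomial.map_sub, map_X, map_C, h5] at h3
    exact mul_left_cancel₀ (X_sub_C_ne_zero 1) h3
  have h7 : ∀ a, residue O a = 1 → IsUnit (k.eval a) := fun a h =>
    (residue_ne_zero_iff_isUnit _).1 (by simp [h4 k a h, h6])
  obtain ⟨κ, hκ⟩ := dvd_iff_isRoot.2 (show f.IsRoot (c * z) by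
    simpa [eval_comp, hz.eq_zero] using congrArg (eval z) h1)
  have h8 : κ.comp (C c * X) = C c ^ n * k := by
    rw [hκ, hk, mul_comp, sub_comp, X_comp, C_comp, map_mul] at h1
    refine mul_left_cancel₀ (mul_ne_zero (C_ne_zero.2 hc) (X_sub_C_ne_zero z)) ?_
    linear_combination h1
  have h9 : ∀ a, κ.eval (c * a) = c ^ n * k.eval a := fun a => by
    simpa [eval_comp] using congrArg (eval a) h8
  refine ⟨c * z, κ, hκ, ?_, ?_, ?_⟩
  · exact ((residue_ne_zero_iff_isUnit z).1 (h5 ▸ one_ne_zero)).mul_right_dvd.2 dvd_rfl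
  · rw [← mul_one c, h9, mul_one]
    exact (h7 1 (map_one _)).mul_right_dvd.2 dvd_rfl
  · rw [h9]
    exact mul_ne_zero (pow_ne_zero _ hc) (h7 z h5).ne_zero

end APtA

theorem aPtA : PtA := by
  intro O B _ _ _ _ _ _ _ hO N _ η e θ c ξ ϖ h hϖ ⟨ξ', hξ⟩
  obtain ⟨n, rfl⟩ := Nat.exists_eq_succ_of_ne_zero (NeZero.ne N)
  have h1 : ∀ q : O[X], e (algebraMap O[X] B q) = q.eval 0 := fun q =>
    (DFunLike.congr_fun (algHom_ext (f := e.comp (IsScalarTower.toAlgHom O O[X] B))
      (g := aeval (0 : O)) (h.ex.trans (aeval_X _).symm)) q).trans (coe_aeval_eq_eval (0 : O) ▸ rfl)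
  have h2 : (Algebra.leftMulMatrix η θ).map (evalRingHom 0) =
      Matrix.vecMulVec (fun i => (η.repr θ i).eval 0) fun j => e (η j) := by
    ext i j
    obtain ⟨b, hb⟩ := h.dv (η j)
    have : θ * η j = C (e (η j)) • θ + (X : O[X]) • b := by
      rw [Algebra.smul_def, Algebra.smul_def, ← hb, ← algebraMap_eq,
        ← IsScalarTower.algebraMap_apply]
      ring
    simp [Algebra.leftMulMatrix_eq_repr_mul, this, Matrix.vecMulVec_apply, mul_comm]
  have h3 : (fun i => (η.repr θ i).eval 0) ⬝ᵥ (fun j => e (η j)) = c := by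
    rw [← h.et]
    conv_rhs => rw [← η.sum_repr θ]
    simp only [map_sum, Algebra.smul_def, map_mul, h1, dotProduct]
  have h4 := Matrix.charpoly_map (Algebra.leftMulMatrix η θ) (evalRingHom 0)
  rw [h2, Matrix.charpoly_vecMulVec, h3, Fintype.card_fin] at h4
  obtain ⟨g, hg⟩ : C ξ ∣ (Algebra.leftMulMatrix η θ).charpoly.map (evalRingHom ξ) -
      (Algebra.leftMulMatrix η θ).charpoly.map (evalRingHom 0) :=
    (C_dvd_iff_dvd_coeff _ _).2 fun i => by simpa using sub_dvd_eval_sub ξ 0 _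
  rw [← h4, ← Matrix.charpoly_map, sub_eq_iff_eq_add'] at hg
  exact APtA.key (g := C ξ' * g) h.ne hϖ (Matrix.charpoly_monic _)
    ((Matrix.charpoly_natDegree_eq_dim _).trans (Fintype.card_fin _))
    (hg.trans (by rw [hξ, map_mul C _ ξ', mul_assoc]; rfl))

end Pool.Agent.MP_f3836a_nt.GV.A
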