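import Pool.Agent.MP_f3836a_nt.GV.SpecA
import Pool.Agent.MP_f3836a_nt.GP.TNb

/-! Block A, rows `Pv` and `Eng`: the pairing on the places of a model, and the engine. -/

set_option autoImplicit false

namespace Pool.Agent.MP_f3836a_nt.GV.A

open Polynomial NumberField IsDedekindDomain VE VE.A PK VE.Z GP IsLocalRing

namespace APv

variable {K F : Type} [Field K] [Field F] [Algebra K F] {P : Subring F}

theorem res [IsLocalRing P] {l : F → ℝ} (h : Fn P l) :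
    ∃ l' : ResidueField P → ℝ, Adr l' ∧ ∀ u : P, Ut P u → l' (residue P u) = l u := by
  choose s hs using residue_surjective (R := P)
  have h1 : ∀ u : P, Ut P u → l (s (residue P u)) = l u := fun u hu =>
    have e := (TNb.nu_sub (s (residue P u)).2 u.2).2 (hs _)
    h.cg _ _ (ut_of_nu hu e) hu e
  have h2 : ∀ z, z ≠ 0 → Ut P (s z) := fun z hz =>
    (nu_or (s z).2).resolve_left fun e => hz ((hs z).symm.trans ((TNb.nu_res _).1 e))
  refine ⟨fun z => l (s z), fun a b ha hb => ?_, h1⟩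
  have := h1 (s a * s b) ((h2 a ha).mul (h2 b hb))
  rw [map_mul, hs, hs] at this
  exact this.trans (h.mul _ _ (h2 a ha) (h2 b hb))

theorem fn (hN : Nb K F) {μ : K → ℝ} (hμ : Adr μ) (hP : Pl P) : Fn P fun u => μ (nmK K P u) :=
  ⟨fun u u' a b => by rw [hN.mul P u u' hP a b, hμ _ _ (hN.ne P u hP a) (hN.ne P u' hP b)],
    fun u u' a b c => by rw [hN.cg P u u' hP a b c]⟩

theorem adr (hN : Nb K F) {l : F → ℝ} (h : Fn P l) (hP : Pl P) :
    Adr fun c => l (algebraMap K F c) := fun a b ha hb => by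
  simp only [map_mul]
  exact h.mul _ _ ((hN.con P hP).2 a ha).1 ((hN.con P hP).2 b hb).1

theorem tm {l : F → ℝ} (h : Fn P l) (hP : Dvr P) {g u : F} (hg : g ∈ P) (hu : u ∈ P) (g0 : g ≠ 0)
    (u0 : u ≠ 0) (e : Nu P g → Ut P u) :
    l (tameE P g u) = (ordR P u).toNat * l g - (ordR P g).toNat * l u := by
  have c : ∀ z ∈ P, z ≠ 0 → ((ordR P z).toNat : ℝ) = ordR P z := fun z hz z0 => by
    exact_mod_cast Int.toNat_of_nonneg (((dvA hP).mem z z0).1 hz)
  rw [c g hg g0, c u hu u0]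
  rcases nu_or hg with k | k
  · have k' := (((dvA hP).ut u).1 (e k)).2
    rw [tame_r k', h.zpow (e k), k']
    simp
  · have k' := (((dvA hP).ut g).1 k).2
    rw [tame_l k', h.zpow k, k']
    simp

theorem al (K : Type) [Field K] [NumberField K] : Al K := fun c =>
  (IsFractionRing.isAlgebraic_iff ℤ ℚ K).2 (Algebra.IsAlgebraic.isAlgebraic c)

end APv

open APv in
theorem aPv : OfPv := by
  intro hFin hNb hVal hW hPg hPh K F _ _ _ _ _ O O' 𝒜 S μ x N hF hx M VV lam hK hV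
  classical
  have hI := hFin F hF
  have hN := hNb K F (al K) hI
  have G := hPg K F O O' 𝒜 S μ x N hF hx
  have H := hPh K F O O' 𝒜 S μ x N hF hx
  let ι := {P : Subring F // Pl P ∧ P ≠ O'}
  have loc : ∀ v : ι, IsLocalRing v.1 := fun v => (dvA v.2.1.1).loc
  have mem : ∀ (v : ι) (a : 𝒜), (a : F) ∈ v.1 := fun v a =>
    (hx.mem a).2 ⟨1, one_ne_zero, by simp⟩ v.1 v.2.1 v.2.2
  have hμ := adr hN (hK.fn O' (.inl hx.rat'.1)) hx.rat'.1
  set μ0 : K → ℝ := fun c => lam O' (algebraMap K F c)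
  let l2 : Subring F → F → ℝ := fun P u => lam P u - μ0 (nmK K P u)
  have f2 : ∀ P, Pl P → Fn P (l2 P) := fun P hP => (hK.fn P (.inl hP)).sub (fn hN hμ hP)
  choose l' a' e' using fun v : ι => res (f2 v.1 v.2.1)
  let D : Pv 𝒜 ι fun v => ResidueField v.1 :=
    ⟨fun v => (residue v.1).comp (𝒜.val.toRingHom.codRestrict v.1 (mem v)),
      fun v g => (ordR v.1 (g : F)).toNat, l'⟩
  have nu : ∀ v (a : 𝒜), D.ev v a = 0 ↔ Nu v.1 a := fun v a =>
    (TNb.nu_res (O := v.1) ⟨a, mem v a⟩).symm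
  have ut : ∀ v (a : 𝒜), D.ev v a ≠ 0 ↔ Ut v.1 a := fun v a => by
    rw [Ne, nu, nu_iff_not (mem v a), not_not]
  have val : ∀ (v : ι) (a : 𝒜), Ut v.1 a → D.lam v (D.ev v a) = l2 v.1 a := fun v a h =>
    e' v ⟨a, mem v a⟩ h
  have ne : ∀ {g : 𝒜}, g ≠ 0 → (g : F) ≠ 0 := fun h e => h (Subtype.ext e)
  have o0 : ∀ v g, g ≠ 0 → (D.ord v g = 0 ↔ D.ev v g ≠ 0) := fun v g hg => by
    have := ((dvA v.2.1.1).mem _ (ne hg)).1 (mem v g)
    rw [ut, (dvA v.2.1.1).ut, and_iff_right (ne hg)]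
    exact Int.toNat_eq_zero.trans ⟨fun h => h.antisymm this, Eq.le⟩
  have Leq : ∀ (g u : 𝒜) (T : Finset (Subring F)), g ≠ 0 → (∀ v, D.ev v g = 0 → D.ev v u ≠ 0) →
      (∀ P ∈ T, Pl P) → (∀ P, Pl P → ordR P (g : F) ≠ 0 → P ∈ T) →
      D.L g u = ∑ P ∈ T.erase O', ((ordR P (g : F)).toNat : ℝ) * l2 P u := fun g u T hg h t1 t2 => by
    rw [← finsum_cond_eq_sum_of_cond_iff (p := fun P => Pl P ∧ P ≠ O') _ fun {P} k =>
      ⟨fun a => Finset.mem_erase.2 ⟨a.2, t2 P a.1 fun e => k (by simp [e])⟩,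
        fun a => ⟨t1 P (Finset.mem_of_mem_erase a), Finset.ne_of_mem_erase a⟩⟩,
      ← finsum_subtype_eq_finsum_cond]
    refine finsum_congr fun v => ?_
    by_cases k : D.ev v g = 0
    · rw [val v u ((ut v u).1 (h v k))]
    · have : (ordR v.1 (g : F)).toNat = 0 := (o0 v g hg).2 k
      rw [this, (o0 v g hg).2 k, Nat.cast_zero, zero_mul, zero_mul]
  refine ⟨ι, _, inferInstance, fun v => ?_, D, ⟨O, hx.rat.1, hx.ne⟩, ⟨fun g hg => ?_, o0, a',
    fun v z => ?_, fun v v' h => ?_, fun g h => H.rad g fun P a b c => ?_, fun g u hg hu h ht => ?_⟩,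
    fun a h => (nu _ a).2 h, fun ρ h => ?_⟩
  · have : CharZero (ResidueField v.1) :=
      charZero_of_injective_ringHom (GP.emb K v.1 (hN.mem _ v.2.1)).injective
    exact { to_finiteDimensional := hI.fd v.1 v.2.1 }
  · refine ((hI.fin g).preimage Subtype.val_injective.injOn).subset fun v hv => ⟨v.2.1, ?_⟩
    exact ((((dvA v.2.1.1).nu _).1 ((nu v g).1 hv)).resolve_left (ne hg)).ne'
  · obtain ⟨z, rfl⟩ := residue_surjective z
    obtain ⟨a, n, hn, e⟩ := G.sur v.1 v.2.1 v.2.2 z z.2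
    refine ⟨a, n, hn, ?_⟩
    rw [← map_natCast (residue v.1), ← map_mul]
    exact (TNb.nu_sub (mem v a) (n * z : v.1).2).1 e
  · obtain ⟨u, a, b⟩ := G.sep v.1 v'.1 v.2.1 v.2.2 v'.2.1 v'.2.2 fun e => h (Subtype.ext e)
    exact ⟨u, (nu v u).2 a, (ut v' u).2 b⟩
  · exact (nu ⟨P, a, b⟩ g).1 (h _ ((nu ⟨P, a, b⟩ x).2 c))
  · let T := ((hI.fin g).union (hI.fin u)).toFinset
    have t1 : ∀ P ∈ T, Pl P := fun P k => ((Set.Finite.mem_toFinset _).1 k).elim (·.1) (·.1)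
    have t2 : ∀ P, Pl P → ordR P (g : F) ≠ 0 → P ∈ T := fun P a b =>
      (Set.Finite.mem_toFinset _).2 (.inl ⟨a, b⟩)
    have t3 : ∀ P, Pl P → ordR P (u : F) ≠ 0 → P ∈ T := fun P a b =>
      (Set.Finite.mem_toFinset _).2 (.inr ⟨a, b⟩)
    have t4 : ∀ P (l : F → ℝ), Pl P → Fn P l → l (tameE P g u) ≠ 0 → P ∈ T := fun P l a b c =>
      by_contra fun k => c (by
        rw [tame_l (by_contra fun e => k (t2 P a e)), (by_contra fun e => k (t3 P a e) :
          ordR P (u : F) = 0), zpow_zero, b.one])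
    have vv : ∀ V ∈ VV, lam V (tameE V g u) = 0 := fun V k => by
      obtain ⟨d, m⟩ := hK.dv V k
      have := (dvA d).loc
      have i := H.int V d (hV V k)
      have uu : Ut V u := (nu_or (i u).1).resolve_left fun e => by
        obtain ⟨a, z, hz, e1⟩ := Ideal.mem_span_insert.1 ((Ideal.eq_top_iff_one _).1 ht)
        obtain ⟨b, c, rfl⟩ := Ideal.mem_span_pair.1 hz
        have e2 : (1 : F) = a * u + (b * x + c * M) := by exact_mod_cast congrArg Subtype.val e1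
        exact (e2 ▸ (e.mul (i a).1).add (((hV V k).mul (i b).1).add (m.mul (i c).1))).not ut_one
      obtain ⟨p, hp, e⟩ := ex_nu fun ho => m.not (ho_ut ho hK.ne)
      rw [tame_r (((dvA d).ut _).1 uu).2, (hK.fn V (.inr k)).zpow uu,
        (hK.fn V (.inr k)).tor uu ((hVal F V d).2.2.2 p u hp e uu (i u).2), mul_zero]
    have b1 := hK.bd g u (ne hg) (ne hu)
    have b2 := hW K F hF μ0 g u hμ (ne hg) (ne hu)
    rw [finsum_cond_eq_sum_of_cond_iff (t := T) _ fun {P} k => ⟨fun a => a.elim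
      (fun a => t4 P _ a (hK.fn P (.inl a)) k) fun a => absurd (vv P a) k, fun a => .inl (t1 P a)⟩]
      at b1
    rw [GP.bt, finsum_cond_eq_sum_of_cond_iff (t := T) _ fun {P} k =>
      ⟨fun a => t4 P _ a (fn hN hμ a) k, t1 P⟩] at b2
    have b3 : ∑ P ∈ T, l2 P (tameE P g u) = 0 := by rw [Finset.sum_sub_distrib, b1, b2, sub_zero]
    have b4 : l2 O' (tameE O' g u) = 0 := by
      have k := tame_ut hx.rat'.1.1 (ne hg) (ne hu)
      exact sub_eq_zero.2 ((hK.fn O' (.inl hx.rat'.1)).cg _ _ k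
        ((hN.con O' hx.rat'.1).2 _ (hN.ne O' _ hx.rat'.1 k)).1 ((hN.rat O' hx.rat').2 _ k))
    rw [← Finset.sum_erase (f := fun P => l2 P (tameE P g u)) (a := O') _ b4] at b3
    rw [Leq g u T hg h t1 t2, Leq u g T hu (fun v a b => h v b a) t1 t3, eq_comm, ← sub_eq_zero,
      ← Finset.sum_sub_distrib, ← b3]
    refine Finset.sum_congr rfl fun P k => ?_
    let v : ι := ⟨P, t1 P (Finset.mem_of_mem_erase k), Finset.ne_of_mem_erase k⟩
    exact (tm (f2 P v.2.1) v.2.1.1 (mem v g) (mem v u) (ne hg) (ne hu)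
      fun e => (ut v u).1 (h v ((nu v g).2 e))).symm
  · have k := (hN.con O hx.rat.1).2 ρ (RingOfIntegers.coe_ne_zero_iff.2 h)
    refine (val _ _ k.1).trans ?_
    change lam O (algebraMap K F ρ) - μ0 (nmK K O (algebraMap K F ρ)) = _
    rw [k.2, (hN.rat O hx.rat).1, pow_one]

open APv in
theorem aEng : OfEng := by
  intro hFin hNb hX hPg hPh hPv hL K F _ _ _ _ _ M VV lam O O' hF hC hi hK hO hO' c hc hU
  by_cases ne : O = O'
  · rw [ne]
  have hN := hNb K F (al K) (hFin F hF)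
  obtain ⟨𝒜, S, μ, x, N, h1, h2, h3, h4, h5, h6, h7, h8⟩ :=
    hX K F O O' VV M (2 * Module.finrank ℚ K) hF hC hO hO' ne hK.fin hK.dv hK.ne
  have hx : Fx O O' 𝒜 μ x N := ⟨hO, hO', ne, h1, h2, h3.pos, h5, h7, h8⟩
  obtain ⟨ι, κ, _, _, D, v0, d1, d2, d3⟩ := hPv K F O O' 𝒜 S μ x N hF hx M VV lam hK h6
  obtain ⟨e, θ, c0, s1, s2⟩ := (hPh K F O O' 𝒜 S μ x N hF hx).sz
  have key : ∀ ρ : 𝓞 K, ρ ≠ 0 → IsCoprime ρ M →
      lam O (algebraMap K F ρ) - lam O' (algebraMap K F ρ) = 0 := fun ρ r0 r1 =>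
    (d3 ρ r0).symm.trans (hL K 𝒜 S μ N M x θ ι κ D v0 e c0 h1 h2 h3 h4 hi
      (Nat.pos_of_ne_zero hK.ne) d1 (hPg K F O O' 𝒜 S μ x N hF hx).reg s1 (fun a => by
        rw [← sub_eq_zero, ← map_sub]
        exact d2 _ (s2 a)) ρ r0 r1)
  obtain ⟨n, n0, n1, i1, i2⟩ := hU
  have n2 : (n : K) ≠ 0 := Nat.cast_ne_zero.2 n0
  have c1 : IsCoprime (n : 𝓞 K) M := by
    simpa using (Nat.isCoprime_iff_coprime.2 n1).map (Int.castRingHom (𝓞 K))
  have c2 : (⟨_, i1⟩ * ⟨_, i2⟩ : 𝓞 K) = n * n := RingOfIntegers.ext (by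
    change n * c * (n * c⁻¹) = ((n * n : 𝓞 K) : K)
    push_cast
    field_simp)
  have k1 := key n (Nat.cast_ne_zero.2 n0) c1
  have k2 := key ⟨_, i1⟩ (fun e => mul_ne_zero n2 hc (congrArg Subtype.val e))
    (c2 ▸ c1.mul_left c1 : IsCoprime (⟨_, i1⟩ * ⟨_, i2⟩ : 𝓞 K) M).of_mul_left_left
  have k3 := adr hN (hK.fn O (.inl hO.1)) hO.1 n c n2 hc
  have k4 := adr hN (hK.fn O' (.inl hO'.1)) hO'.1 n c n2 hc
  change lam O (algebraMap K F (n * c)) - lam O' (algebraMap K F (n * c)) = 0 at k2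
  change lam O (algebraMap K F n) - lam O' (algebraMap K F n) = 0 at k1
  beta_reduce at k3 k4
  linarith

end Pool.Agent.MP_f3836a_nt.GV.A
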