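import Pool.Agent.MP_f3836a_nt.GV.SpecL

/-! Reduction of the degree and monic elements of an ideal. -/

set_option autoImplicit false

namespace Pool.Agent.MP_f3836a_nt.GV.A

open Polynomial NumberField IsDedekindDomain

namespace ARed

variable {A B : Type} [CommRing A] [CommRing B] [Algebra A B] {S : AddSubmonoid ℕ}
  {μ : Module.Basis S A B}

theorem lo_map (I : Ideal A) (g : B) : Lo μ I 0 g ↔ g ∈ I.map (algebraMap A B) := by
  have e : g ∈ I.map (algebraMap A B) ↔ g ∈ I • (⊤ : Submodule A B) := by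
    rw [Ideal.smul_top_eq_map]; rfl
  rw [e]
  refine ⟨fun h => ?_, fun h d _ => ?_⟩
  · rw [← μ.linearCombination_repr g, Finsupp.linearCombination_apply]
    exact Submodule.sum_mem _ fun d _ => Submodule.smul_mem_smul (h d (Nat.zero_le _)) trivial
  · refine Submodule.smul_induction_on h (fun r hr b _ => ?_) fun a b ha hb => ?_
    · rw [map_smul, Finsupp.smul_apply, smul_eq_mul]
      exact I.mul_mem_right _ hr
    · rw [map_add, Finsupp.add_apply]
      exact I.add_mem ha hb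

theorem smul_mem {M : Ideal B} (c : A) {f : B} (hf : f ∈ M) : c • f ∈ M := by
  rw [Algebra.smul_def]
  exact M.mul_mem_left _ hf

theorem red0 (M : Ideal B) (I : Ideal A) (D : ℕ) (hM : ∀ d, D ≤ d → ∃ f ∈ M, Mo μ d f) (n : ℕ) :
    ∀ g, Lo μ ⊥ (D + n) g → Lo μ I D g → ∃ g', g - g' ∈ M ∧ Lo μ ⊥ D g' ∧ Lo μ I 0 (g - g') := by
  induction n with
  | zero => exact fun g h _ => ⟨g, by simp, h, fun e _ => by simp⟩
  | succ n ih =>
    intro g h1 h2
    obtain ⟨f, hf, ⟨h, f1⟩, f2⟩ := hM (D + n) (Nat.le_add_right _ _)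
    have hc : μ.repr g ⟨D + n, h⟩ ∈ I := h2 _ (Nat.le_add_right _ _)
    obtain ⟨g', k1, k2, k3⟩ := ih (g - μ.repr g ⟨D + n, h⟩ • f) (fun e he => by
      rw [map_sub, map_smul, Finsupp.sub_apply, Finsupp.smul_apply, smul_eq_mul, Ideal.mem_bot]
      rcases he.eq_or_lt with he | he
      · obtain rfl : e = ⟨D + n, h⟩ := Subtype.ext he.symm
        rw [f1, mul_one, sub_self]
      · rw [f2 e he, Ideal.mem_bot.1 (h1 e he), mul_zero, sub_self]) (fun e he => by
      rw [map_sub, map_smul, Finsupp.sub_apply, Finsupp.smul_apply, smul_eq_mul]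
      exact I.sub_mem (h2 e he) (I.mul_mem_right _ hc))
    have e0 : g - g' = g - μ.repr g ⟨D + n, h⟩ • f - g' + μ.repr g ⟨D + n, h⟩ • f := by ring
    refine ⟨g', e0 ▸ M.add_mem k1 (smul_mem _ hf), k2, fun e he => ?_⟩
    rw [e0, map_add, map_smul, Finsupp.add_apply, Finsupp.smul_apply, smul_eq_mul]
    exact I.add_mem (k3 e he) (I.mul_mem_right _ hc)

theorem red (hF : FmA μ) (M : Ideal B) (I : Ideal A) (D : ℕ)
    (hM : ∀ d, D ≤ d → ∃ f ∈ M, Mo μ d f) (g : B) (hg : Lo μ I D g) :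
    ∃ g', g - g' ∈ M ∧ Lo μ ⊥ D g' ∧ Lo μ I 0 (g - g') := by
  obtain ⟨n, hn⟩ := hF.bdd g
  exact red0 M I D hM n g (fun e he => hn e (by omega)) hg

theorem mo_mul (hF : FmA μ) {c N : ℕ} (hc : ∀ d, c ≤ d → d ∈ S) {x : B} (hx : Mo μ N x) (d : ℕ)
    (hd : N + c ≤ d) : ∃ y, Mo μ d (x * y) := by
  have h := hF.mul _ _ _ _ hx (hF.bas ⟨d - N, hc _ (by omega)⟩)
  rw [show N + ((⟨d - N, hc _ (by omega)⟩ : S) : ℕ) = d by simp; omega] at h
  exact ⟨_, h⟩

theorem deg (I : Ideal A) (f : B) (n : ℕ) (h1 : Lo μ I (n + 1) f) (h2 : ¬Lo μ I 0 f) :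
    ∃ t : S, (t : ℕ) ≤ n ∧ Lo μ I (t + 1) f ∧ μ.repr f t ∉ I := by
  by_contra h
  push Not at h
  have h3 : ∀ j, j ≤ n + 1 → Lo μ I (n + 1 - j) f := fun j => by
    induction j with
    | zero => exact fun _ => h1
    | succ j ih =>
      intro hj e he
      by_cases h4 : n + 1 - j ≤ e
      · exact ih (by omega) e h4
      · exact h e (by omega) fun e' he' => ih (by omega) e' (by omega)
  exact h2 (by simpa using h3 (n + 1) le_rfl)

end ARed

open ARed

theorem aRed : OfRed := by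
  intro hS A B _ _ _ S μ hμ
  have hF := hS A B S μ hμ
  refine ⟨lo_map, fun b g => ?_, fun M I D hM g hg => red hF M I (D + 1) hM g hg,
    fun M I D hM g hg => ?_, fun N x hx => ?_⟩
  · rw [lo_map, Ideal.map_span, Set.image_singleton, Ideal.mem_span_singleton]
  · obtain ⟨f, hf, hm⟩ := hM D le_rfl
    obtain ⟨h1, h, h2⟩ := hg
    obtain ⟨g', k1, k2, k3⟩ := red hF M I D hM (g - f) fun e he => by
      rw [map_sub, Finsupp.sub_apply]
      rcases he.eq_or_lt with he | he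
      · obtain rfl : e = ⟨D, h⟩ := Subtype.ext he.symm
        rw [hm.1.2]
        exact h2
      · rw [hm.2 e he, sub_zero]
        exact h1 e he
    rw [sub_sub] at k1 k3
    exact ⟨f + g', k1, hF.add _ _ _ hm k2, k3⟩
  · obtain ⟨c, hc⟩ := hμ.cof
    refine ⟨N + c, fun a => ?_⟩
    obtain ⟨a', k1, k2, -⟩ := red hF (Ideal.span {x}) ⊤ (N + c) (fun d hd => by
      obtain ⟨y, hy⟩ := mo_mul hF hc hx d hd
      exact ⟨_, Ideal.mem_span_singleton.2 (dvd_mul_right _ _), hy⟩) a fun _ _ => trivial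
    exact ⟨a', Ideal.mem_span_singleton.1 k1, k2⟩

theorem aMon : OfMon := by
  intro hS hR O B _ _ _ _ _ S μ M c k hμ hc hs ⟨d0, f0, hf0, hm0⟩ hrel
  have hF := hS O B S μ hμ
  let s : Fin (k + 1) → S := fun i => ⟨c + i, hc _ (Nat.le_add_right _ _)⟩
  have hi : Function.Injective s := fun i j h => Fin.ext (by simpa [s] using h)
  obtain ⟨α, h0, hα⟩ := hrel fun i => μ (s i)
  obtain ⟨i0, hi0⟩ := Finite.exists_min fun i => IsDiscreteValuationRing.addVal O (α i)
  choose β hβ using fun i => IsDiscreteValuationRing.addVal_le_iff_dvd.1 (hi0 i)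
  have hn : α i0 ≠ 0 := fun h => h0 (funext fun i => by rw [hβ i, h, zero_mul]; rfl)
  have h1 : β i0 = 1 := mul_left_cancel₀ hn (by rw [← hβ i0, mul_one])
  have hf : ∑ i, β i • μ (s i) ∈ M := hs (α i0) _ hn (by
    rw [← Algebra.smul_def, Finset.smul_sum]
    simpa only [smul_smul, ← hβ] using hα)
  have hr : ∀ e, μ.repr (∑ i, β i • μ (s i)) e = ∑ i, if s i = e then β i else 0 := fun e => by
    simp [Finsupp.single_apply]
  obtain ⟨t, t1, t2, t3⟩ := deg (μ := μ) (IsLocalRing.maximalIdeal O) (∑ i, β i • μ (s i)) (c + k)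
    (fun e he => by
      rw [hr, Finset.sum_eq_zero fun i _ => if_neg fun h => ?_]
      · exact zero_mem _
      · have h2 := i.2
        rw [← h] at he
        simp only [s] at he
        omega)
    (fun h => by
      have h2 := h (s i0) (Nat.zero_le _)
      rw [hr] at h2
      simp [hi.eq_iff, h1] at h2)
  generalize ∑ i, β i • μ (s i) = f at hf t2 t3
  have key : ∀ n D, k + 2 * c ≤ D → d0 + c ≤ D + n → ∃ f ∈ M, Mo μ D f := fun n => by
    induction n with
    | zero =>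
      intro D _ hD
      obtain ⟨y, hy⟩ := mo_mul hF hc hm0 D hD
      exact ⟨_, M.mul_mem_right _ hf0, hy⟩
    | succ n ih =>
      intro D hD hD'
      obtain ⟨d, rfl⟩ : ∃ d, D = d + t := ⟨D - t, by omega⟩
      have hb := hF.bas ⟨d, hc _ (by omega)⟩
      obtain ⟨h, h2⟩ := hF.top _ d t _ f hb t2
      obtain ⟨g, k1, k2, k3⟩ := (hR O B S μ hμ).2.2.1 M _ (d + t)
        (fun d' hd' => ih d' (by omega) (by omega)) _
        (hF.low _ d (t + 1) _ f (fun e he => Ideal.mem_bot.2 (hb.2 e he)) t2)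
      have h3 := k3 ⟨d + t, h⟩ (Nat.zero_le _)
      rw [map_sub, Finsupp.sub_apply] at h3
      obtain ⟨u, hu⟩ : IsUnit (μ.repr g ⟨d + t, h⟩) := IsLocalRing.notMem_maximalIdeal.1 fun h4 =>
        t3 (by simpa using sub_mem (add_mem h3 h4) h2 |> neg_mem)
      refine ⟨(u⁻¹ : Oˣ).1 • g, smul_mem _ ((M.sub_mem_iff_right (M.mul_mem_left _ hf)).1 k1),
        ⟨h, ?_⟩, fun e he => ?_⟩
      · rw [map_smul, Finsupp.smul_apply, ← hu, smul_eq_mul, Units.inv_mul]
      · rw [map_smul, Finsupp.smul_apply, Ideal.mem_bot.1 (k2 e he), smul_zero]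
  exact fun d hd => key (d0 + c) d hd (by omega)

end Pool.Agent.MP_f3836a_nt.GV.A
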