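import Pool.Agent.MP_f3836a_nt.GV.SpecA

/-! Row ASgT: a criterion for a single slope. -/

set_option autoImplicit false

namespace Pool.Agent.MP_f3836a_nt.GV.A

open Polynomial NumberField IsDedekindDomain VE VE.A

namespace ASgT

theorem exH (hN : NcS) {O : Type} [CommRing O] [Module.Free ℤ O] [Module.Finite ℤ O] {M : O[X]}
    (hM : M.Monic) {p : ℕ} (hp : p.Prime) (hc : IsCoprime (M.coeff 0) p) :
    ∃ H : ℤ[X], H.Monic ∧ ¬(p : ℤ) ∣ H.coeff 0 ∧ M ∣ H.map (algebraMap ℤ O) := by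
  have := hM.free_adjoinRoot
  have := hM.finite_adjoinRoot
  have : Module.Free ℤ (AdjoinRoot M) := Module.Free.trans (S := O)
  have : Module.Finite ℤ (AdjoinRoot M) := Module.Finite.trans O _
  refine ⟨(Algebra.lmul ℤ (AdjoinRoot M) (AdjoinRoot.root M)).charpoly,
    LinearMap.charpoly_monic _, fun h => ?_, ?_⟩
  · obtain ⟨-, -, h3, -⟩ := hN ℤ (AdjoinRoot M) _ (Module.Free.chooseBasis ℤ (AdjoinRoot M))
    have h1 : AdjoinRoot.root M ∣ algebraMap O (AdjoinRoot M) (M.coeff 0) := by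
      have e := congrArg (aeval (AdjoinRoot.root M)) (X_mul_divX_add M)
      rw [map_add, map_mul, aeval_X, aeval_C, AdjoinRoot.aeval_eq M, AdjoinRoot.mk_self] at e
      exact ⟨_, by rw [mul_neg]; exact eq_neg_of_add_eq_zero_right e⟩
    have h2 : IsCoprime (AdjoinRoot.root M) (p : AdjoinRoot M) := by
      have := hc.map (algebraMap O (AdjoinRoot M))
      rw [map_natCast] at this
      exact this.of_isCoprime_of_dvd_left h1
    have h4 := (h3 (Ideal.span {(p : ℤ)}) (AdjoinRoot.root M)).1 (by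
      rw [Ideal.map_span, Set.image_singleton, map_natCast]
      exact Ideal.sup_eq_top_iff_isCoprime _ _ |>.2 h2)
    rw [Ideal.sup_eq_top_iff_isCoprime, Algebra.norm_apply, LinearMap.det_eq_sign_charpoly_coeff]
      at h4
    have h5 := (h4.of_isCoprime_of_dvd_left (h.mul_left _)).isUnit_of_dvd' dvd_rfl dvd_rfl
    exact (Nat.prime_iff_prime_int.1 hp).not_isUnit h5
  · rw [← AdjoinRoot.mk_eq_zero, ← AdjoinRoot.aeval_eq, aeval_map_algebraMap]
    exact Algebra.aeval_self_charpoly_lmul _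

theorem gauss {Q H : ℤ[X]} {π : ℤ} (hπ : π ≠ 0) (hQ : Q.Monic) (hH : H.Monic)
    (h : Q ∣ H.scaleRoots π) : ∃ Q2 : ℤ[X], Q2.Monic ∧ Q2 ∣ H ∧ Q = Q2.scaleRoots π := by
  have hi : Function.Injective (algebraMap ℤ ℚ) := (algebraMap ℤ ℚ).injective_int
  have h0 : algebraMap ℤ ℚ π ≠ 0 := (map_ne_zero_iff _ hi).2 hπ
  have h1 : (Q.map (algebraMap ℤ ℚ)).scaleRoots (algebraMap ℤ ℚ π)⁻¹ ∣ H.map (algebraMap ℤ ℚ) := by
    have := scaleRoots_dvd _ _ (r := (algebraMap ℤ ℚ π)⁻¹) (map_dvd (algebraMap ℤ ℚ) h)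
    rwa [map_scaleRoots _ _ _ (by simp [hH.leadingCoeff]), ← scaleRoots_mul, mul_inv_cancel₀ h0,
      scaleRoots_one] at this
  have h2 := (monic_scaleRoots_iff (algebraMap ℤ ℚ π)⁻¹).2 (hQ.map (algebraMap ℤ ℚ))
  obtain ⟨Q2, e⟩ := IsIntegrallyClosed.eq_map_mul_C_of_dvd ℚ hH h1
  rw [h2.leadingCoeff, C_1, mul_one] at e
  have h3 : Q2.Monic := monic_of_injective hi (e ▸ h2)
  refine ⟨Q2, h3, (map_dvd_map _ hi h3).1 (e ▸ h1), map_injective _ hi ?_⟩
  rw [map_scaleRoots _ _ _ (by simp [h3.leadingCoeff]), e, ← scaleRoots_mul, inv_mul_cancel₀ h0,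
    scaleRoots_one]

end ASgT

open ASgT in
theorem aSgT : OfSgT := by
  intro hN hM K 𝒜 _ _ _ _ _ S μ n _ T y N r hd p σ m g M hp hg hm hc hdv
  obtain ⟨-, -, e1, -, -, e2, -⟩ := hM K 𝒜 S μ n T y N r hd
  obtain ⟨H, h1, h2, h3⟩ := exH hN hm hp hc
  have h4 : g ∣ algebraMap ℤ[X] 𝒜 (H.scaleRoots ((p : ℤ) ^ σ)) := by
    rw [e1, ← aeval_map_algebraMap (𝓞 K), map_scaleRoots _ _ _ (by simp [h1.leadingCoeff]),
      map_pow, map_natCast]
    exact hdv.trans (_root_.map_dvd _ (scaleRoots_dvd _ _ h3))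
  have h5 := _root_.map_dvd (Algebra.norm ℤ[X]) h4
  rw [(hN ℤ[X] 𝒜 _ y).2.2.2, ← pow_scaleRoots_of_isReduced] at h5
  have hq := (e2 m g hg).2
  obtain ⟨Q2, q1, q2, q3⟩ := gauss (pow_ne_zero _ (Nat.cast_ne_zero.2 hp.ne_zero)) hq.monic
    (h1.pow _) h5
  refine ⟨hg, Q2, q1, fun h => h2 ((Nat.prime_iff_prime_int.1 hp).dvd_of_dvd_pow (n := n) ?_), ?_⟩
  · have := eval_dvd (x := 0) q2
    rw [eval_pow, ← coeff_zero_eq_eval_zero, ← coeff_zero_eq_eval_zero, Fintype.card_fin] at this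
    exact h.trans this
  · have hd : Q2.natDegree = n * m := by
      rw [← hq.natDegree_eq, q3, natDegree_scaleRoots]
    rw [q3, C_0, zero_add, comp, scaleRoots_eval₂_mul, eval₂_C_X, hd, ← C_pow, ← pow_mul,
      mul_comm σ]

end Pool.Agent.MP_f3836a_nt.GV.A
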