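import Pool.Agent.MP_f3836a_nt.GV.SpecP

/-! Generators over the polynomial ring in one monic element. -/

set_option autoImplicit false

namespace Pool.Agent.MP_f3836a_nt.GV.P

open Polynomial Finset

namespace PAp

variable {A 𝒜 : Type} [CommRing A] [CommRing 𝒜] [Algebra A 𝒜]

/-- combinations with polynomial coefficients -/
def Sp {N : ℕ} (ξ : 𝒜) (η : Fin N → 𝒜) : Submodule A 𝒜 where
  carrier := {a | ∃ g : Fin N → A[X], a = ∑ i, aeval ξ (g i) * η i}
  add_mem' := by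
    rintro _ _ ⟨g, rfl⟩ ⟨g', rfl⟩
    exact ⟨g + g', by simp [add_mul, sum_add_distrib]⟩
  zero_mem' := ⟨0, by simp⟩
  smul_mem' := by
    rintro c _ ⟨g, rfl⟩
    exact ⟨c • g, by simp [smul_sum]⟩

theorem mul_mem {N : ℕ} {ξ a : 𝒜} {η : Fin N → 𝒜} (h : a ∈ Sp (A := A) ξ η) :
    ξ * a ∈ Sp (A := A) ξ η := by
  obtain ⟨g, rfl⟩ := h
  exact ⟨fun i => X * g i, by simp [mul_sum, mul_assoc]⟩

theorem gen_mem {N : ℕ} (ξ : 𝒜) (η : Fin N → 𝒜) (i : Fin N) : η i ∈ Sp (A := A) ξ η :=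
  ⟨Pi.single i 1, by
    rw [sum_eq_single i (fun j _ hj => by simp [Pi.single_eq_of_ne hj]) (by simp)]
    simp⟩

theorem mem_of {S : AddSubmonoid ℕ} (μ : Module.Basis S A 𝒜) (P : Submodule A 𝒜) (a : 𝒜)
    (h : ∀ e : S, μ.repr a e ≠ 0 → μ e ∈ P) : a ∈ P := by
  rw [← μ.linearCombination_repr a, Finsupp.linearCombination_apply]
  exact P.sum_mem fun e he => P.smul_mem _ (h e (Finsupp.mem_support_iff.1 he))

end PAp

theorem apX : ApX := by
  classical
  intro A 𝒜 _ _ _ S μ hμ N hN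
  obtain ⟨c, hc⟩ := hμ.cof
  have ex : ∀ r : Fin N, ∃ d, d ∈ S ∧ d % N = r := fun r =>
    ⟨r + N * c, hc _ (by nlinarith), by rw [Nat.add_mul_mod_self_left, Nat.mod_eq_of_lt r.2]⟩
  let η : Fin N → 𝒜 := fun r => μ ⟨Nat.find (ex r), (Nat.find_spec (ex r)).1⟩
  have key : ∀ (d : ℕ) (h : d ∈ S), μ ⟨d, h⟩ ∈ PAp.Sp (A := A) (μ N) η := by
    intro d
    induction d using Nat.strong_induction_on with
    | _ d ih =>
    intro h
    let r : Fin N := ⟨d % N, Nat.mod_lt _ hN⟩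
    have h1 := Nat.find_spec (ex r)
    have h2 : Nat.find (ex r) ≤ d := Nat.find_min' (ex r) ⟨h, rfl⟩
    rcases h2.eq_or_lt with e | l
    · have := PAp.gen_mem (A := A) (μ N) η r
      simp only [η, e] at this
      exact this
    obtain ⟨k, hk⟩ := (Nat.modEq_iff_exists_eq_add h2).1 h1.2
    obtain ⟨k, rfl⟩ : ∃ k', k = k' + 1 := ⟨k - 1, by
      rcases k with _ | k
      · omega
      · rfl⟩
    have h3 : Nat.find (ex r) + N * k ∈ S := S.add_mem h1.1 (by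
      have := S.nsmul_mem N.2 k
      rwa [smul_eq_mul, mul_comm] at this)
    have h4 : (N : ℕ) + (Nat.find (ex r) + N * k) = d := by rw [hk]; ring
    have h5 : N + ⟨_, h3⟩ = (⟨d, h⟩ : S) := Subtype.ext h4
    have h6 := PAp.mul_mem (ih _ (by omega) h3)
    have h7 : μ N * μ ⟨_, h3⟩ - μ ⟨d, h⟩ ∈ PAp.Sp (A := A) (μ N) η := by
      refine PAp.mem_of μ _ _ fun e he => ih e ?_ e.2
      by_contra hl
      apply he
      rw [map_sub, Finsupp.sub_apply, μ.repr_self]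
      rcases (not_lt.1 hl).eq_or_lt with e1 | e1
      · have e2 : e = ⟨d, h⟩ := Subtype.ext e1.symm
        rw [e2, Finsupp.single_eq_same, ← h5, hμ.top, sub_self]
      · rw [hμ.low _ _ _ (h4 ▸ e1), Finsupp.single_eq_of_ne, sub_zero]
        exact fun e2 => e1.ne' (congrArg Subtype.val e2)
    simpa using Submodule.sub_mem _ h6 h7
  exact ⟨η, fun a => PAp.mem_of μ (PAp.Sp (μ N) η) a fun e _ => key e e.2⟩

end Pool.Agent.MP_f3836a_nt.GV.P
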