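import Pool.Agent.MP_f3836a_nt.GV.SpecP

/-! The auxiliary polynomial of Stepanov. -/

set_option autoImplicit false

namespace Pool.Agent.MP_f3836a_nt.GV.P

open Polynomial Finset

namespace PAux

variable {F : Type} [Field F] {N m : ℕ}

theorem top_sum {ι : Type} [Fintype ι] (a b : ι → ℕ)
    (inj : Function.Injective fun α => a α * N + b α * m) (c : ι → F) (hc : ∃ α, c α ≠ 0) :
    ∃ α, Top N m (a α * N + b α * m) (∑ β, c β • monomial (b β) (monomial (a β) (1 : F))) := by
  classical
  obtain ⟨α, hα, hm⟩ := exists_max_image (univ.filter fun α => c α ≠ 0)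
    (fun α => a α * N + b α * m) (by simpa [Finset.Nonempty] using hc)
  simp only [mem_filter, mem_univ, true_and] at hα hm
  simp only [smul_monomial, smul_eq_mul, mul_one]
  refine ⟨α, Wt.sum fun β _ => ?_, ?_⟩
  · by_cases h : c β = 0
    · simpa [h] using Wt.zero
    · exact (Wt.mon _ _ _).mono (by have := hm β h; omega)
  · rw [map_sum, finsetSum_coeff, sum_eq_single α]
    · simpa [Tm_mon] using hα
    · intro β _ h
      rw [Tm_mon, coeff_monomial, if_neg fun e => h (inj e)]
    · simp

theorem dep {ι σ W : Type} [Fintype ι] [Fintype σ] [AddCommGroup W] [Module F W] {V : Submodule F W}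
    [FiniteDimensional F V] (g : ι → σ → W) (hg : ∀ α s, g α s ∈ V)
    (h : Fintype.card σ * Module.finrank F V < Fintype.card ι) :
    ∃ c : ι → F, (∀ s, ∑ α, c α • g α s = 0) ∧ ∃ α, c α ≠ 0 := by
  have li : ¬LinearIndependent F (fun α s => (⟨g α s, hg α s⟩ : V)) := fun li => by
    have h1 := li.fintype_card_le_finrank
    rw [Module.finrank_pi_fintype, sum_const, card_univ, smul_eq_mul] at h1
    omega
  obtain ⟨c, hc, ne⟩ := Fintype.not_linearIndependent_iff.1 li
  exact ⟨c, fun s => by simpa using congrArg Subtype.val (congrFun hc s), ne⟩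

theorem coeff_it (f : F[X][X]) (n : ℕ) : ∀ i, (divX^[n] f).coeff i = f.coeff (i + n) := by
  induction n with
  | zero => simp
  | succ n ih => intro i; rw [Function.iterate_succ_apply', coeff_divX, ih]; congr 1; omega

theorem tel (f : F[X][X]) (x y z : F) (n : ℕ) :
    (∑ i ∈ range n, (divX^[i + 1] f).evalEval x y * z ^ i) * (z - y) =
      (divX^[n] f).evalEval x y * z ^ n - f.evalEval x y
        + ∑ i ∈ range n, (f.coeff i).eval x * z ^ i := by
  induction n with
  | zero => simp
  | succ n ih =>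
    have h := congrArg (evalEval x y) (divX_mul_X_add (divX^[n] f))
    rw [evalEval_add, evalEval_mul, evalEval_X, evalEval_C, coeff_it, zero_add,
      ← Function.iterate_succ_apply' divX] at h
    rw [sum_range_succ, sum_range_succ, add_mul, ih, ← h]
    simp only [Nat.succ_eq_add_one]
    ring

/-- the cofactor of a root vanishes at the other roots -/
theorem cof {χ : F[X][X]} (h : χ.Monic) (hd : χ.natDegree = N + 1) {x y z : F}
    (hy : χ.evalEval x y = 0) (hz : χ.evalEval x z = 0) (ne : z ≠ y) :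
    ∑ i ∈ range N, (divX^[i + 1] χ).evalEval x y * z ^ i = -z ^ N := by
  have lc : χ.coeff (N + 1) = 1 := hd ▸ h.coeff_natDegree
  have one : divX^[N + 1] χ = 1 := by
    ext i : 1
    rw [coeff_it, coeff_one]
    split_ifs with c
    · rw [c, zero_add, lc]
    · exact coeff_eq_zero_of_natDegree_lt (by omega)
  have t := tel χ x y z (N + 1)
  have e : χ.evalEval x z = ∑ i ∈ range (N + 1 + 1), (χ.coeff i).eval x * z ^ i := by
    rw [evalEval, eval_eq_sum_range (p := χ), hd, eval_finsetSum]
    simp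
  rw [hz, sum_range_succ, lc, eval_one] at e
  rw [sum_range_succ, one, hy, evalEval_one] at t
  have : (∑ i ∈ range N, (divX^[i + 1] χ).evalEval x y * z ^ i + 1 * z ^ N) * (z - y) = 0 := by
    linear_combination t - e
  linear_combination (mul_eq_zero.1 this).resolve_right (sub_ne_zero.2 ne)

variable (D : Derivation F F[X][X] F[X][X])

theorem it_mul (p : ℕ) [CharP F p] (f b : F[X][X]) (k : ℕ) :
    D^[k] (f * b ^ p) = D^[k] f * b ^ p := by
  induction k with
  | zero => rfl
  | succ k ih =>
    rw [Function.iterate_succ_apply', Function.iterate_succ_apply', ih, D.leibniz, D.leibniz_pow,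
      nsmul_eq_mul, CharP.cast_eq_zero]
    simp [mul_comm]

theorem it_sum {ι : Type} [Fintype ι] (c : ι → F) (f : ι → F[X][X]) (k : ℕ) :
    D^[k] (∑ α, c α • f α) = ∑ α, c α • D^[k] (f α) := by
  induction k with
  | zero => rfl
  | succ k ih => simp only [Function.iterate_succ_apply', ih, map_sum, D.map_smul]

theorem it_wt (hD : ∀ d f, Wt N m d f → Wt N m (d + N * m) (D f)) {d : ℕ} {f : F[X][X]}
    (h : Wt N m d f) (k : ℕ) : Wt N m (d + k * (N * m)) (D^[k] f) := by
  induction k with
  | zero => simpa using h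
  | succ k ih =>
    rw [Function.iterate_succ_apply']
    exact (hD _ _ ih).mono (le_of_eq (by ring))

theorem wt_it {d : ℕ} {f : F[X][X]} (h : Wt N m d f) (k : ℕ) : Wt N m d (divX^[k] f) := by
  induction k with
  | zero => exact h
  | succ k ih => rw [Function.iterate_succ_apply']; exact ih.divX

end PAux

open PAux in
theorem auxX : KitA → KitB → AuxX := by
  intro kA kB N m hN hm cop
  obtain ⟨N, rfl⟩ : ∃ N', N = N' + 1 := ⟨N - 1, by omega⟩
  set c0 := (N + 1) * m with hc0
  set M := 4 * (N + 1) * m with hM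
  set J := N * (4 * m) + 1 with hJ
  set K := c0 + M * c0 + J * (N + 1) with hK
  refine ⟨c0 + M * N * (c0 + K) + 1, fun F _ p _ χ D hp h0 hχ hD => ?_⟩
  classical
  obtain ⟨q, rfl⟩ : ∃ q, p = c0 + q := ⟨p - c0, by omega⟩
  have rep : ∀ w : ℕ, ∃ a b, a * (N + 1) + b * m = c0 + w := fun w =>
    Nat.exists_add_mul_eq_of_gcd_dvd_of_mul_pred_le (N + 1) m _ (by rw [cop]; exact one_dvd _)
      ((Nat.mul_le_mul (Nat.pred_le _) (Nat.pred_le _)).trans (by omega))
  choose a b hab using rep
  obtain ⟨mon, hd⟩ := hχ.monic hN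
  obtain ⟨fd, fr⟩ := (kA F _ m hN hm cop).2.2 (c0 + q + K)
  let ι := Fin J × Fin (N + 1) × Fin q
  let t : ι → ℕ → F[X][X] := fun α k =>
    monomial 0 (monomial α.1 1) * D^[k] (monomial (b α.2.2) (monomial (a α.2.2) 1))
  let g : ι → ℕ → ℕ → F[X][X] := fun α k i => (if (α.2.1 : ℕ) = i then t α k else 0)
    - divX^[i + 1] χ * if (α.2.1 : ℕ) = N then t α k else 0
  have ht : ∀ α, ∀ k < M, Wt (N + 1) m (c0 + q + M * c0 + J * (N + 1)) (t α k) := by
    intro α k hk
    refine ((Wt.mon _ _ _).mul (it_wt D hD (Wt.mon _ _ _) k)).mono ?_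
    have h1 := Nat.mul_le_mul_right (N + 1) α.1.2.le
    have h2 := Nat.mul_le_mul_right c0 hk.le
    have h3 := α.2.2.2
    rw [hab, ← hc0]
    omega
  have hg : ∀ α, ∀ k < M, ∀ i, g α k i %ₘ χ ∈ Vr F (N + 1) m (c0 + q + K) := by
    intro α k hk i
    refine ⟨(degree_modByMonic_lt _ mon).trans_le (degree_le_natDegree.trans (by rw [hd])), ?_⟩
    obtain ⟨e, he⟩ : ∃ e, c0 + q + K = e + 1 := ⟨c0 + q + K - 1, by have := hp.pos; omega⟩
    rw [he]
    refine (kB F _ m e χ _ hN hm cop hχ ?_).1
    rw [← he]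
    have z : ∀ (P : Prop) [Decidable P], Wt (N + 1) m (c0 + q + M * c0 + J * (N + 1))
        (if P then t α k else 0) := fun P _ => by
      split_ifs
      exacts [ht α k hk, Wt.zero]
    exact ((z _).mono (by omega)).sub (((wt_it hχ.wt _).mul (z _)).mono (by omega))
  obtain ⟨c, hc, ne⟩ := dep (fun (α : ι) (s : Fin M × Fin N) => g α s.1 s.2 %ₘ χ)
    (fun α s => hg α s.1 s.1.2 s.2) ((Nat.mul_le_mul_left _ fr).trans_lt (by
      simp only [ι, Fintype.card_prod, Fintype.card_fin]
      have h3 : J * ((N + 1) * q) = M * N * q + (N + 1) * q := by rw [hJ, hM]; ring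
      have h4 : M * N * (c0 + q + K) = M * N * q + M * N * (c0 + K) := by ring
      have h5 : q ≤ (N + 1) * q := Nat.le_mul_of_pos_left _ hN
      omega))
  have wt : ∀ α : ι, (a α.2.2 + α.1 * (c0 + q)) * (N + 1) + (b α.2.2 + α.2.1 * (c0 + q)) * m
      = c0 + α.2.2 + (c0 + q) * (α.1 * (N + 1) + α.2.1 * m) := fun α => by rw [← hab α.2.2]; ring
  obtain ⟨α0, top⟩ := top_sum (N := N + 1) (m := m) (fun α : ι => a α.2.2 + α.1 * (c0 + q))
    (fun α : ι => b α.2.2 + α.2.1 * (c0 + q)) (fun α β e => by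
      simp only [wt] at e
      have e1 := congrArg (· % (c0 + q)) e
      simp only [Nat.add_mul_mod_self_left] at e1
      rw [Nat.mod_eq_of_lt (by have := α.2.2.2; omega),
        Nat.mod_eq_of_lt (by have := β.2.2.2; omega)] at e1
      rw [e1, add_right_inj, Nat.mul_right_inj hp.ne_zero] at e
      have e2 : α.2.1 * m ≡ β.2.1 * m [MOD (N + 1)] := by
        have := congrArg (· % (N + 1)) e
        simpa only [Nat.mul_add_mod_self_right, Nat.ModEq] using this
      have e3 := (e2.cancel_right_of_coprime cop).eq_of_lt_of_lt α.2.1.2 β.2.1.2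
      rw [e3, add_left_inj, Nat.mul_left_inj hN.ne'] at e
      exact Prod.ext (Fin.ext e) (Prod.ext (Fin.ext e3) (Fin.ext (by omega)))) c ne
  refine ⟨_, _, top, ?_, fun x y hy hx hz nz k hk => ?_⟩
  · rw [wt]
    have h1 : α0.1 * (N + 1) + α0.2.1 * m + 1 ≤ (N + 1 - 1) * M + c0 := by
      have i1 := Nat.mul_le_mul_right (N + 1) (Nat.le_of_lt_succ α0.1.2)
      have i2 := Nat.mul_le_mul_right m (Nat.le_of_lt_succ α0.2.1.2)
      have i3 : (N + 1 - 1) * M + c0 = N * (4 * m) * (N + 1) + N * m + m := by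
        rw [hM, hc0, Nat.add_sub_cancel]; ring
      omega
    have h2 := Nat.mul_le_mul_left (c0 + q) h1
    have := α0.2.2.2
    rw [mul_add _ _ 1] at h2
    omega
  · have e : ∀ α : ι, (monomial (b α.2.2 + α.2.1 * (c0 + q))
        (monomial (a α.2.2 + α.1 * (c0 + q)) (1 : F)) : F[X][X]) =
        monomial (b α.2.2) (monomial (a α.2.2) 1) * monomial α.2.1 (monomial α.1 1) ^ (c0 + q) := by
      intro α
      simp only [monomial_pow, monomial_mul_monomial, one_pow, mul_one]
    have z : ∀ i ∈ range N, ∑ α, c α * (g α k i).evalEval x y = 0 := fun i hi => by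
      have h2 := congrArg (evalEval x y) (hc (⟨k, hk⟩, ⟨i, mem_range.1 hi⟩))
      rw [evalEval_finsetSum, evalEval_zero] at h2
      refine (sum_congr rfl fun α _ => ?_).trans h2
      rw [evalEval_smul, smul_eq_mul, modByMonic_eq_sub_mul_div, evalEval_sub x y _ (χ * _),
        evalEval_mul x y χ, hy, zero_mul, sub_zero]
    have s : ∀ α : ι, ∑ i ∈ range N, (g α k i).evalEval x y * (y ^ (c0 + q)) ^ i
        = (t α k).evalEval x y * (y ^ (c0 + q)) ^ (α.2.1 : ℕ) := fun α => by
      simp only [g, evalEval_sub, evalEval_mul, sub_mul, sum_sub_distrib,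
        apply_ite (evalEval x y), evalEval_zero, ite_mul, zero_mul, sum_ite_eq, mul_right_comm _ (ite _ _ _),
        ← sum_mul, cof mon hd hy hz nz, mem_range]
      have := α.2.1.2
      split_ifs with c1 c2 c2
      · omega
      · ring
      · rw [c2]; ring
      · omega
    calc _ = ∑ α, c α * ((t α k).evalEval x y * (y ^ (c0 + q)) ^ (α.2.1 : ℕ)) := by
          rw [it_sum, evalEval_finsetSum]
          refine sum_congr rfl fun α _ => ?_
          rw [e, it_mul, evalEval_smul, smul_eq_mul]
          simp only [t, evalEval_mul, evalEval_pow, ← C_mul_X_pow_eq_monomial, evalEval_C, evalEval_X,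
            eval_mul, eval_C, eval_pow, eval_X, one_mul, pow_zero, mul_one, mul_pow]
          rw [pow_right_comm x, hx, pow_right_comm y]
          ring
      _ = ∑ i ∈ range N, (∑ α, c α * (g α k i).evalEval x y) * (y ^ (c0 + q)) ^ i := by
          simp only [← s, mul_sum, sum_mul, mul_assoc]
          exact sum_comm
      _ = 0 := sum_eq_zero fun i hi => by rw [z i hi, zero_mul]

end Pool.Agent.MP_f3836a_nt.GV.P
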