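import Pool.Agent.MP_f3836a_nt.GV.SpecP

/-! Row PCab: a plane model of a curve with one point at infinity. -/

set_option autoImplicit false

namespace Pool.Agent.MP_f3836a_nt.GV.P

open Polynomial Finset

namespace PCab

theorem nd_lt {B : Type} [CommRing B] {N : ℕ} (hN : 0 < N) {f : B[X]} (h : f.degree < N) :
    f.natDegree < N := by
  by_cases h0 : f = 0
  · simpa [h0] using hN
  · exact (natDegree_lt_iff_degree_lt h0).2 h

theorem chi {B 𝒜 : Type} [CommRing B] [Nontrivial B] [CommRing 𝒜] [Algebra B 𝒜] {N : ℕ}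
    (η : Fin N → 𝒜) (hη : Submodule.span B (Set.range η) = ⊤) (θ : 𝒜) :
    ∃ χ : B[X], χ.Monic ∧ χ.natDegree = N ∧ aeval θ χ = 0 := by
  classical
  obtain ⟨M, hM⟩ := Matrix.isRepresentation.toEnd_surjective B η hη (Algebra.lmul B 𝒜 θ)
  refine ⟨M.1.charpoly, M.1.charpoly_monic, by simp, ?_⟩
  have h1 : aeval (Algebra.lmul B 𝒜 θ) M.1.charpoly = 0 := by
    rw [← hM, Polynomial.aeval_algHom_apply,
      ← map_zero (Matrix.isRepresentation.toEnd B η hη)]
    congr 1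
    ext1
    rw [Polynomial.aeval_subalgebra_coe, Matrix.aeval_self_charpoly, Subalgebra.coe_zero]
  rw [Polynomial.aeval_algHom_apply] at h1
  have h2 := congrArg (fun φ : Module.End B 𝒜 => φ 1) h1
  simpa using h2

theorem ratio {B 𝒜 : Type} [CommRing B] [IsDomain B] [CommRing 𝒜] [Algebra B 𝒜] {N : ℕ}
    (hN : 0 < N) (η : Fin N → 𝒜) (hη : Submodule.span B (Set.range η) = ⊤) (θ : 𝒜)
    (ind : ∀ f : B[X], f.natDegree < N → aeval θ f = 0 → f = 0) (a : 𝒜) :
    ∃ f g : B[X], aeval θ g ≠ 0 ∧ a * aeval θ g = aeval θ f := by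
  classical
  have hdep : ¬LinearIndependent B
      (Fin.cons a (fun i : Fin N => θ ^ (i : ℕ)) : Fin (N + 1) → 𝒜) := by
    intro h
    have h1 := linearIndependent_le_span_aux' _ h (Set.range η) (by rw [hη]; exact le_top)
    have h2 := Fintype.card_range_le η
    simp only [Fintype.card_fin] at h1 h2
    omega
  obtain ⟨g, hg, i, hi⟩ := Fintype.not_linearIndependent_iff.1 hdep
  rw [Fin.sum_univ_succ] at hg
  simp only [Fin.cons_zero, Fin.cons_succ] at hg
  obtain ⟨f, hf⟩ : ∃ f : B[X], f = ∑ i : Fin N, C (g i.succ) * X ^ (i : ℕ) := ⟨_, rfl⟩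
  have hd : f.natDegree < N := nd_lt hN (hf ▸ degree_sum_fin_lt _)
  have he : aeval θ f = ∑ i : Fin N, g i.succ • θ ^ (i : ℕ) := by
    simp [hf, map_sum, Algebra.smul_def]
  have h0 : g 0 ≠ 0 := by
    intro h0
    rw [h0, zero_smul, zero_add, ← he] at hg
    have hf0 := ind f hd hg
    refine hi (Fin.cases h0 (fun k => ?_) i)
    have := congrArg (fun p : B[X] => p.coeff k) (hf.symm.trans hf0)
    simpa [finsetSum_coeff, coeff_C_mul, coeff_X_pow, Fin.val_inj] using this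
  refine ⟨-f, C (g 0), fun h => h0 ?_, ?_⟩
  · simpa using ind (C (g 0)) (by simpa using hN) h
  · rw [map_neg, he, aeval_C, mul_comm, ← Algebra.smul_def]
    exact eq_neg_of_add_eq_zero_left hg

end PCab

theorem cabX : ApX → LtX → CabX := by
  intro hAp hLt A 𝒜 _ _ _ _ S μ hμ
  obtain ⟨c, hc⟩ := hμ.cof
  obtain ⟨N, hN⟩ : ∃ N : S, (N : ℕ) = c + 1 := ⟨⟨c + 1, hc _ (by omega)⟩, rfl⟩
  obtain ⟨m, hm⟩ : ∃ m : S, (m : ℕ) = c + 1 + 1 := ⟨⟨c + 1 + 1, hc _ (by omega)⟩, rfl⟩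
  have hN0 : 0 < (N : ℕ) := by omega
  have hm0 : 0 < (m : ℕ) := by omega
  have hco : (N : ℕ).Coprime m := by
    rw [hN, hm]
    exact (Nat.coprime_self_add_right).2 (Nat.coprime_one_right _)
  obtain ⟨η, hη⟩ := hAp A 𝒜 S μ hμ N hN0
  obtain ⟨L1, L2⟩ := hLt A 𝒜 S μ hμ N m hN0 hm0 hco
  let _ : Algebra A[X] 𝒜 := (aeval (μ N) : A[X] →ₐ[A] 𝒜).toRingHom.toAlgebra
  have ha : ∀ g : A[X], algebraMap A[X] 𝒜 g = aeval (μ N) g := fun _ => rfl
  have he : ∀ f : A[X][X], aevalAeval (μ N) (μ m) f = aeval (μ m) f := by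
    intro f
    induction f using Polynomial.induction_on' with
    | add f g hf hg => rw [map_add, map_add, hf, hg]
    | monomial i a =>
      rw [← C_mul_X_pow_eq_monomial, map_mul, map_mul, map_pow, map_pow, aevalAeval_C,
        aevalAeval_Y, aeval_C, aeval_X, ha]
  have hsp : Submodule.span A[X] (Set.range η) = ⊤ := by
    refine eq_top_iff.2 fun a _ => ?_
    obtain ⟨g, rfl⟩ := hη a
    refine Submodule.sum_mem _ fun i _ => ?_
    rw [← ha, ← Algebra.smul_def]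
    exact Submodule.smul_mem _ _ (Submodule.subset_span ⟨i, rfl⟩)
  have ind : ∀ f : A[X][X], f.natDegree < N → aeval (μ m) f = 0 → f = 0 := fun f hf h =>
    (L2 f 0 hf fun s _ => by rw [he, h]; simp).eq_zero
  obtain ⟨χ, hmo, hdeg, hχ⟩ := PCab.chi η hsp (μ m)
  refine ⟨N, m, χ, (aeval (μ m) : A[X][X] →ₐ[A[X]] 𝒜).toRingHom, hN0, hm0, hco, ?_, hχ, ind,
    PCab.ratio hN0 η hsp (μ m) ind⟩
  refine L2 _ _ (PCab.nd_lt hN0 ?_) fun s hs => ?_
  · refine (degree_add_le _ _).trans_lt (max_lt ?_ (degree_C_le.trans_lt (by exact_mod_cast hN0)))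
    have h1 : χ.degree = (X ^ (N : ℕ) : A[X][X]).degree := by
      rw [degree_X_pow, degree_eq_natDegree hmo.ne_zero, hdeg]
    have h2 := degree_sub_lt_left h1 hmo.ne_zero (by rw [hmo.leadingCoeff, leadingCoeff_X_pow])
    rwa [h1, degree_X_pow] at h2
  · rw [← L1 s hs, he]
    congr 2
    rw [map_add, map_sub, hχ, map_pow, aeval_X, aeval_C, ha, map_pow, aeval_X]
    ring

end Pool.Agent.MP_f3836a_nt.GV.P
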