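import Pool.Agent.MP_f3836a_nt.GV.SpecP

/-! Block P: clearing denominators and specialising. -/

set_option autoImplicit false

namespace Pool.Agent.MP_f3836a_nt.GV.P

open Polynomial Finset

namespace PClr

variable {R Ω k : Type} [CommRing R] [Field Ω] [Field k]

theorem fr (e : R →+* Ω) (z : Ω) :
    z ∈ Subfield.closure (Set.range e) ↔ ∃ a b, e b ≠ 0 ∧ z * e b = e a := by
  refine ⟨fun h => ?_, fun ⟨a, b, h, k⟩ => eq_div_of_mul_eq h k ▸
    div_mem (Subfield.subset_closure ⟨a, rfl⟩) (Subfield.subset_closure ⟨b, rfl⟩)⟩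
  rw [Subfield.mem_closure_iff, ← RingHom.coe_range, Subring.closure_eq] at h
  obtain ⟨_, ⟨a, rfl⟩, _, ⟨b, rfl⟩, rfl⟩ := h
  by_cases h : e b = 0
  · exact ⟨0, 1, by simp, by simp [h]⟩
  · exact ⟨a, b, h, div_mul_cancel₀ _ h⟩

/-- the graph of the specialisation -/
def Gr (e : R →+* Ω) (φ : R →+* k) : Subring (Ω × k) where
  carrier := {z | ∃ a d, φ d ≠ 0 ∧ z.1 * e d = e a ∧ z.2 * φ d = φ a}
  mul_mem' := fun ⟨a, d, h, h1, h2⟩ ⟨a', d', h', h1', h2'⟩ => ⟨a * a', d * d',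
    by rw [map_mul]; exact mul_ne_zero h h',
    by rw [map_mul, map_mul, ← h1, ← h1', Prod.fst_mul]; ring,
    by rw [map_mul, map_mul, ← h2, ← h2', Prod.snd_mul]; ring⟩
  add_mem' := fun ⟨a, d, h, h1, h2⟩ ⟨a', d', h', h1', h2'⟩ => ⟨a * d' + a' * d, d * d',
    by rw [map_mul]; exact mul_ne_zero h h',
    by rw [map_add, map_mul, map_mul, map_mul, ← h1, ← h1', Prod.fst_add]; ring,
    by rw [map_add, map_mul, map_mul, map_mul, ← h2, ← h2', Prod.snd_add]; ring⟩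
  one_mem' := ⟨1, 1, by simp⟩
  zero_mem' := ⟨0, 1, by simp⟩
  neg_mem' := fun ⟨a, d, h, h1, h2⟩ => ⟨-a, d, h, by simp [← h1], by simp [← h2]⟩

theorem fib {n : ℕ} (T : Tb n) {A C : Type} [CommRing A] [CommRing C] (g : A →+* C) (x : A)
    (i l j : Fin n) : g (T.fib x i l j) = T.fib (g x) i l j :=
  (aeval_algHom_apply g.toIntAlgHom x _).symm

theorem key {n : ℕ} [NeZero n] (T : Tb n) (t1 : ℤ) {A : Type} [CommRing A] (g : A →+* Ω)
    (ψ : A →+* k) (hg : Function.Injective g) (x y D : A) (s : Fin n → Fin n → A)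
    (h : ∀ σ, Hm (T.fib (g x)) fun i => g (s σ i)) (hy : (g x - t1) * g y = 1)
    (hD : (Matrix.of fun σ i => g (s σ i)).det * g D = 1) : ψ x ≠ t1 ∧ Spl (T.fib (ψ x)) := by
  have h1 : (x - t1) * y = 1 := hg (by simpa using hy)
  have h2 : (Matrix.of s).det * D = 1 := hg (by rw [map_mul, RingHom.map_det, map_one]; exact hD)
  refine ⟨fun e => ?_, fun σ i => ψ (s σ i), fun σ => ⟨?_, fun i j => ?_⟩, fun e => ?_⟩
  · simpa [e] using congrArg ψ h1
  · exact (congrArg ψ (hg ((h σ).1.trans (map_one g).symm))).trans (map_one ψ)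
  · have : s σ i * s σ j = ∑ l, T.fib x i l j * s σ l :=
      hg (by simpa only [map_mul, map_sum, fib] using (h σ).2 i j)
    simpa only [map_mul, map_sum, fib] using congrArg ψ this
  · have := congrArg ψ h2
    rw [map_mul, RingHom.map_det, map_one] at this
    exact left_ne_zero_of_mul_eq_one this e

end PClr

open PClr in
theorem clrX : ClrX := by
  intro n _ T t1 R Ω _ _ e x s hx hs hm hd ht
  obtain ⟨a1, b1, n1, e1⟩ := (fr e _).1 (inv_mem (sub_mem ((fr e x).2 hx) (intCast_mem _ t1)))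
  obtain ⟨a2, b2, n2, e2⟩ := (fr e (Matrix.of s).det⁻¹).1 (inv_mem (by
    rw [Matrix.det_apply']
    exact sum_mem fun _ _ => mul_mem (intCast_mem _ _) (prod_mem fun i _ => (fr e _).2 (hs _ i))))
  obtain ⟨u, w, w0, hw⟩ := hx
  choose a b b0 hb using hs
  refine ⟨u, w, w * b1 * b2 * ∏ σ, ∏ i, b σ i, w0, by simp [prod_eq_zero_iff, *], hw,
    fun k _ φ hφ h τ hτ => ?_⟩
  simp only [map_mul, map_prod, ne_eq, mul_eq_zero, prod_eq_zero_iff, mem_univ, true_and, not_or,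
    not_exists] at h
  obtain ⟨⟨⟨h1, h2⟩, h3⟩, h4⟩ := h
  refine key T t1 ((RingHom.fst Ω k).comp (Gr e φ).subtype) ((RingHom.snd Ω k).comp (Gr e φ).subtype)
    ((injective_iff_map_eq_zero _).2 ?_) ⟨(x, τ), u, w, h1, hw, hτ.symm⟩
    ⟨(_, _), a1, b1, h2, e1, div_mul_cancel₀ _ h2⟩ ⟨(_, _), a2, b2, h3, e2, div_mul_cancel₀ _ h3⟩
    (fun σ i => ⟨(_, _), a σ i, b σ i, h4 σ i, hb σ i, div_mul_cancel₀ _ (h4 σ i)⟩) hm
    (mul_inv_cancel₀ (sub_ne_zero.2 ht)) (mul_inv_cancel₀ hd)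
  rintro ⟨⟨z, c⟩, p, d, d0, p1, p2⟩ (rfl : z = 0)
  rw [hφ p (by simpa using p1.symm)] at p2
  exact Subtype.ext (Prod.ext rfl ((mul_eq_zero.1 p2).resolve_right d0))

end Pool.Agent.MP_f3836a_nt.GV.P
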