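import Pool.Agent.MP_f3836a_nt.GV.SpecP

/-! Many values of a nonconstant function modulo `p`. -/

set_option autoImplicit false

namespace Pool.Agent.MP_f3836a_nt.GV.P

open Polynomial Finset NumberField

namespace PCnt

variable {K : Type} [Field K] [NumberField K]

theorem ne0 {a : 𝓞 K} (ha : a ≠ 0) :
    ∃ p0 : ℕ, ∀ p : ℕ, p0 ≤ p → ∀ κ : 𝓞 K →+* ZMod p, κ a ≠ 0 := by
  have h2 : Ideal.absNorm (Ideal.span {a}) ≠ 0 := by
    rw [Ne, Ideal.absNorm_eq_zero_iff, Ideal.span_singleton_eq_bot]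
    exact ha
  refine ⟨Ideal.absNorm (Ideal.span {a}) + 1, fun p hl κ h => ?_⟩
  obtain ⟨c, hc⟩ := Ideal.mem_span_singleton.1 (Ideal.absNorm_mem (Ideal.span {a}))
  have h3 : (Ideal.absNorm (Ideal.span {a}) : ZMod p) = 0 := by
    rw [← map_natCast κ, hc, map_mul, h, zero_mul]
  exact absurd (Nat.le_of_dvd (Nat.pos_of_ne_zero h2) ((ZMod.natCast_eq_zero_iff _ _).1 h3))
    (by omega)

theorem ne1 {f : (𝓞 K)[X][X]} (hf : f ≠ 0) :
    ∃ p0 : ℕ, ∀ p : ℕ, p0 ≤ p → ∀ κ : 𝓞 K →+* ZMod p, f.map (mapRingHom κ) ≠ 0 := by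
  obtain ⟨p0, h⟩ := ne0 (leadingCoeff_ne_zero.2 (leadingCoeff_ne_zero.2 hf))
  refine ⟨p0, fun p hl κ e => h p hl κ ?_⟩
  simpa using congrArg (fun g => (g.coeff f.natDegree).coeff f.leadingCoeff.natDegree) e

end PCnt

open PCnt in
theorem cntX : StepX → ZerX → CntX := by
  classical
  intro hS hZ K _ _ N m χ u w b hN hm hc hχ hu hw hb w0 b0 hne
  obtain ⟨p1, h1⟩ := hS N m hN hm hc
  obtain ⟨p2, h2⟩ := ne1 w0
  obtain ⟨p3, h3⟩ := ne1 b0
  obtain ⟨p4, h4⟩ := ne1 (sub_ne_zero.2 (hne w.leadingCoeff.leadingCoeff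
    ((u.coeff w.natDegree).coeff w.leadingCoeff.natDegree)
    (leadingCoeff_ne_zero.2 (leadingCoeff_ne_zero.2 w0))))
  obtain ⟨du, hdu⟩ := exists_wt N m u
  obtain ⟨dw, hdw⟩ := exists_wt N m w
  obtain ⟨db, hdb⟩ := exists_wt N m b
  obtain ⟨D, hD⟩ : ∃ D, D = du + dw + db + N * m := ⟨_, rfl⟩
  refine ⟨4 * D, p1 + p2 + p3 + p4 + 8 * D, fun p hp hl ⟨κ⟩ => ?_⟩
  have := Fact.mk hp
  obtain ⟨Z, z1, z2⟩ := h1 p hp (by omega) _ (hχ.map κ)
  have key : ∀ f : (ZMod p)[X][X], f ≠ 0 → f.natDegree < N → Wt N m (du + dw + db) f →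
      ∀ Y ⊆ Z, (∀ z ∈ Y, f.evalEval z.1 z.2 = 0) → Y.card ≤ D := fun f h0 hn hf Y hY hz =>
    hD ▸ hZ (ZMod p) N m _ _ f Y hN hm hc (hχ.map κ) h0 hn hf fun z h => ⟨z2 z (hY h), hz z h⟩
  let E : (𝓞 K)[X][X] → ZMod p × ZMod p → ZMod p := fun f z =>
    (f.map (mapRingHom κ)).evalEval z.1 z.2
  let Y := Z.filter fun z => E b z ≠ 0 ∧ E w z ≠ 0
  have wu := (hdu.map κ).mono (show du ≤ du + dw + db by omega)
  have ww := (hdw.map κ).mono (show dw ≤ du + dw + db by omega)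
  refine ⟨Y.image fun z => E u z / E w z, ?_, fun τ hτ => ?_⟩
  · have a1 := key _ (h3 p (by omega) κ) (natDegree_map_le.trans_lt hb)
      ((hdb.map κ).mono (by omega)) _ (filter_subset (fun z => E b z = 0) Z)
      fun z h => (mem_filter.1 h).2
    have a2 := key _ (h2 p (by omega) κ) (natDegree_map_le.trans_lt hw) ww _
      (filter_subset (fun z => E w z = 0) Z) fun z h => (mem_filter.1 h).2
    have a3 : Z ⊆ Y ∪ (Z.filter (fun z => E b z = 0) ∪ Z.filter fun z => E w z = 0) :=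
      fun z h => by
        simp only [Y, mem_union, mem_filter]
        tauto
    have a4 := (card_le_card a3).trans ((card_union_le _ _).trans
      (Nat.add_le_add_left (card_union_le _ _) _))
    have a5 := card_le_mul_card_image (f := fun z => E u z / E w z) Y D fun τ _ => by
      refine key (u.map (mapRingHom κ) - τ • w.map (mapRingHom κ)) (fun e => ?_)
        ((natDegree_sub_le _ _).trans_lt (max_lt (natDegree_map_le.trans_lt hu)
          (((natDegree_smul_le _ _).trans natDegree_map_le).trans_lt hw)))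
        (wu.sub (ww.smul τ)) _ ((filter_subset _ _).trans (filter_subset _ _)) fun z h => ?_
      · rw [sub_eq_zero] at e
        have e1 := congrArg (fun g => (g.coeff w.natDegree).coeff w.leadingCoeff.natDegree) e
        simp only [coeff_map, coe_mapRingHom, coeff_smul, coeff_natDegree, smul_eq_mul] at e1
        refine h4 p (by omega) κ ?_
        simp only [Polynomial.map_sub, Polynomial.map_mul, map_C, coe_mapRingHom, e, e1, map_mul]
        rw [Algebra.smul_def, Polynomial.algebraMap_apply, algebraMap_eq]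
        ring
      · obtain ⟨h5, rfl⟩ := mem_filter.1 h
        rw [evalEval_sub, evalEval_smul, smul_eq_mul, sub_eq_zero]
        exact (div_mul_cancel₀ _ (mem_filter.1 h5).2.2).symm
    rw [mul_assoc]
    omega
  · obtain ⟨z, hz, rfl⟩ := mem_image.1 hτ
    obtain ⟨h5, h6, h7⟩ := mem_filter.1 hz
    exact ⟨(evalEvalRingHom z.1 z.2).comp (mapRingHom (mapRingHom κ)), z2 z h5, h6,
      (div_mul_cancel₀ _ h7).symm⟩

end Pool.Agent.MP_f3836a_nt.GV.P
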