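import Pool.Agent.MP_f3836a_nt.GV.SpecP

/-! The derivation along a plane curve. -/

set_option autoImplicit false

namespace Pool.Agent.MP_f3836a_nt.GV.P

open Polynomial

namespace PDer

variable {F : Type} [Field F]

/-- the derivative in the inner variable -/
noncomputable def dX : Derivation F F[X][X] F[X][X] :=
  PolynomialModule.equivPolynomialSelf.compDer (Polynomial.derivative' (R := F)).mapCoeffs

/-- the derivative in the outer variable -/
noncomputable def dY : Derivation F F[X][X] F[X][X] :=
  (Polynomial.derivative' (R := F[X])).restrictScalars F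

theorem coeff_dX (f : F[X][X]) (i : ℕ) : (dX f).coeff i = derivative (f.coeff i) := rfl

theorem dY_apply (f : F[X][X]) : dY f = derivative f := rfl

theorem dX_C : dX (C X : F[X][X]) = 1 := by
  ext1 i
  rw [coeff_dX, coeff_C, coeff_one]
  split_ifs <;> simp

theorem wt_dX {N m d : ℕ} {f : F[X][X]} (h : Wt N m d f) : Wt N m d (dX f) := fun i j hij => by
  rw [coeff_dX, coeff_derivative, h i (j + 1) (by nlinarith), zero_mul]

end PDer

open PDer in
theorem derX : DerX := by
  intro F _ N m χ h
  refine ⟨derivative χ • dX - dX χ • dY, ?_, ?_, fun d f hf => ?_⟩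
  · simp [dY_apply, mul_comm]
  · simp [dY_apply, dX_C]
  · rw [add_comm]
    exact (h.deriv.mul (wt_dX hf)).sub ((wt_dX h).mul hf.deriv)

end Pool.Agent.MP_f3836a_nt.GV.P
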