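import Pool.Agent.MP_f3836a_nt.GV.SpecP

/-! Block P: labels and weights of the points. -/

set_option autoImplicit false

namespace Pool.Agent.MP_f3836a_nt.GV.P

open Polynomial Finset

namespace PFin

theorem lab (n r p : ℕ) [NeZero n] (hn : n = 2 * r) :
    ∃ l : ℕ → Fin n, 2 * r < p → ∀ σ, ∃ y ∈ Fy r p, l y = σ := by
  classical
  by_cases h : 2 * r < p
  · have c : (Fy r p).card = n := by
      rw [Fy, card_union_of_disjoint, Nat.card_Icc, Nat.card_Ico]
      · omega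
      · rw [disjoint_left]
        intro y h1 h2
        rw [mem_Icc] at h1
        rw [mem_Ico] at h2
        omega
    let e := (Fy r p).equivFinOfCardEq c
    exact ⟨fun y => if h : y ∈ Fy r p then e ⟨y, h⟩ else 0, fun _ σ =>
      ⟨e.symm σ, (e.symm σ).2, by simp⟩⟩
  · exact ⟨0, fun a => (h a).elim⟩

theorem wt {n k p c d ρ L : ℝ} (hn : 1 ≤ n) (k0 : 0 < k) (kp : k ≤ p) (pk : p ≤ c * k) (r1 : 1 ≤ ρ)
    (rd : ρ ≤ d) (hL : 0 ≤ L) : L ≤ (n + d * c) * (ρ * L * p / (n * k)) ∧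
      ρ * L * p / (n * k) ≤ (n + d * c) * L := by
  have c0 : 0 ≤ c := by nlinarith
  have d0 : 0 ≤ d := by linarith
  have dc : 0 ≤ d * c := mul_nonneg d0 c0
  have nk : 0 < n * k := by positivity
  have p0 : 0 ≤ p := by linarith
  constructor
  · rw [← mul_div_assoc, le_div_iff₀ nk]
    calc L * (n * k) = n * (1 * L * k) := by ring
      _ ≤ (n + d * c) * (ρ * L * p) := by gcongr; linarith
  · rw [div_le_iff₀ nk]
    calc ρ * L * p ≤ d * L * (c * k) := by gcongr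
      _ = d * c * L * (1 * k) := by ring
      _ ≤ (n + d * c) * L * (n * k) := by gcongr; linarith

end PFin

open PFin

theorem finX : FinX := by
  intro n r _ T t1 ρ d c0 p0 hn hρ hM H
  classical
  let ok : ℕ → Prop := fun p => p.Prime ∧ p0 ≤ p ∧ ρ p ≠ 0 ∧ 2 * r < p
  have : ∀ p, ∃ G : Finset (ZMod p), (ok p → p ≤ c0 * G.card) ∧
      ∀ τ ∈ G, ok p ∧ τ ≠ (t1 : ZMod p) ∧ Spl (T.fib τ) := fun p => by
    by_cases h : ok p
    · exact (H p h.1 h.2.1 h.2.2.1).imp fun G a => ⟨fun _ => a.1, fun τ b => ⟨h, a.2 τ b⟩⟩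
    · exact ⟨∅, fun a => (h a).elim, by simp⟩
  choose G g1 g2 using this
  have : ∀ p (τ : ZMod p), ∃ s : Fin n → Fin n → ZMod p, τ ∈ G p →
      (∀ σ, Hm (T.fib τ) (s σ)) ∧ (Matrix.of s).det ≠ 0 := fun p τ => by
    by_cases h : τ ∈ G p
    · exact (g2 p τ h).2.2.imp fun s a _ => a
    · exact ⟨0, fun a => (h a).elim⟩
  choose s hs using this
  choose l hl using fun p => lab n r p hn
  let sp : ℕ → Finset ℕ := fun p => (G p).image ZMod.val
  have mem : ∀ p, ∀ τ ∈ sp p, ok p ∧ τ < p ∧ (τ : ZMod p) ∈ G p := fun p τ h => by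
    obtain ⟨a, ha, rfl⟩ := mem_image.1 h
    have o := (g2 p a ha).1
    have : NeZero p := ⟨o.1.ne_zero⟩
    exact ⟨o, ZMod.val_lt a, by rwa [ZMod.natCast_zmod_val]⟩
  have cd : ∀ p, ok p → 0 < (sp p).card ∧ (sp p).card ≤ p ∧ p ≤ c0 * (sp p).card := fun p o => by
    have : NeZero p := ⟨o.1.ne_zero⟩
    have a := g1 p o
    rw [← card_image_of_injective _ (ZMod.val_injective p)] at a
    refine ⟨Nat.pos_of_ne_zero fun b => ?_, (card_le_card fun τ h =>
      mem_range.2 (mem p τ h).2.1).trans_eq (card_range p), a⟩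
    rw [show ((G p).image ZMod.val).card = 0 from b] at a
    exact o.1.ne_zero (by omega)
  have n1 : (1 : ℝ) ≤ n := by exact_mod_cast NeZero.one_le
  refine ⟨⟨r, sp, fun z i => ((s z.p z.t (l z.p z.y) i).val : ℤ),
    fun p => ρ p * Real.log p * p / (n * (sp p).card), n + d * c0⟩,
    ⟨hn, fun p τ h => ?_, fun z h => ?_, fun p τ h β hβ i => ?_⟩,
    ⟨le_add_of_le_of_nonneg n1 (by positivity), fun p ⟨τ, h⟩ => ?_, fun δ hδ => ?_⟩⟩
  · obtain ⟨o, a, b⟩ := mem p τ h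
    refine ⟨o.1, a, o.2.2.2, fun e => (g2 p _ b).2.1 ?_⟩
    simpa [sub_eq_zero] using (ZMod.intCast_zmod_eq_zero_iff_dvd _ _).2 e
  · obtain ⟨o, -, b⟩ := mem _ _ h.1
    have : NeZero z.p := ⟨o.1.ne_zero⟩
    simpa only [Int.cast_natCast, ZMod.natCast_zmod_val] using (hs _ _ b).1 (l z.p z.y)
  · obtain ⟨o, -, b⟩ := mem p τ h
    have : Fact p.Prime := ⟨o.1⟩
    refine (ZMod.intCast_zmod_eq_zero_iff_dvd _ _).1 (congrFun
      (Matrix.eq_zero_of_mulVec_eq_zero (hs _ _ b).2 (v := fun i => (β i : ZMod p))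
        (funext fun σ => ?_)) i)
    obtain ⟨y, hy, rfl⟩ := hl p o.2.2.2 σ
    have e := (ZMod.intCast_zmod_eq_zero_iff_dvd _ _).2 (hβ y hy)
    simpa [Matrix.mulVec, dotProduct, mul_comm] using e
  · have o := (mem p τ h).1
    obtain ⟨a, b, c⟩ := cd p o
    exact wt n1 (by exact_mod_cast a) (by exact_mod_cast b) (by exact_mod_cast c)
      (by exact_mod_cast Nat.one_le_iff_ne_zero.2 o.2.2.1) (by exact_mod_cast hρ p o.1)
      (Real.log_natCast_nonneg p)
  obtain ⟨Y, hY⟩ := hM (δ / 2) (half_pos hδ)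
  refine ⟨max Y (p0 + 2 * r + 1 : ℕ), fun lo hi h1 h2 => ?_⟩
  obtain ⟨a1, a2⟩ := max_le_iff.1 h1
  have a3 : 1 ≤ lo := le_trans (by exact_mod_cast Nat.le_add_left 1 _) a2
  have e : (range ⌈hi⌉₊).filter (fun p : ℕ => lo ≤ p) = Ico ⌈lo⌉₊ ⌈hi⌉₊ := by
    ext p
    simp [Nat.ceil_le, and_comm]
  have b1 := abs_le.1 (hY hi (a1.trans h2))
  have b2 := abs_le.1 (hY lo a1)
  have b3 := mul_le_mul_of_nonneg_left (Real.log_le_log (by linarith) h2) hδ.le
  rw [sum_filter] at b1 b2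
  rw [e, sum_congr rfl (g := fun p => if p.Prime then (ρ p : ℝ) * Real.log p / p else 0)
    fun p hp => ?_, sum_Ico_eq_sub _ (Nat.ceil_mono h2), abs_le]
  · constructor <;> linarith [b1.1, b1.2, b2.1, b2.2]
  have b4 : p0 + 2 * r + 1 ≤ p := by
    exact_mod_cast a2.trans (Nat.ceil_le.1 (mem_Ico.1 hp).1)
  by_cases o : ok p
  · have k : ((sp p).card : ℝ) ≠ 0 := by exact_mod_cast (cd p o).1.ne'
    have k' : (p : ℝ) ≠ 0 := by exact_mod_cast o.1.ne_zero
    simp only [if_pos o.1]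
    field_simp
  · have k : sp p = ∅ := eq_empty_of_forall_notMem fun τ h => o (mem p τ h).1
    simp only [k, card_empty, Nat.cast_zero, mul_zero, zero_mul, zero_div]
    split_ifs with h
    · rw [show ρ p = 0 from by_contra fun a => o ⟨h, by omega, a, by omega⟩]
      simp
    · rfl

end Pool.Agent.MP_f3836a_nt.GV.P
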