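import Pool.Agent.MP_f3836a_nt.GV.SpecR

/-! Basic facts on tables, homomorphisms and embeddings. -/

set_option autoImplicit false

namespace Pool.Agent.MP_f3836a_nt.GV

open Polynomial Finset
open scoped ComplexConjugate Matrix

section Tab

variable {R C : Type} [CommRing R] [CommRing C] {n : ℕ} {M : Tab R n}

theorem Mx_map (φ : R →+* C) (M : Tab R n) (β : Fin n → R) :
    (Mx M β).map φ = Mx (fun i => (M i).map φ) fun i => φ (β i) := by
  ext l j
  simp [Mx, Matrix.sum_apply]

theorem Nm_map (φ : R →+* C) (M : Tab R n) (β : Fin n → R) :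
    φ (Nm M β) = Nm (fun i => (M i).map φ) fun i => φ (β i) := by
  rw [Nm, Nm, RingHom.map_det, ← Mx_map]; rfl

theorem disc_map (φ : R →+* C) (M : Tab R n) : φ (disc M) = disc fun i => (M i).map φ := by
  rw [disc, disc, RingHom.map_det]
  congr 1
  ext i j
  simp [← Matrix.map_mul, Matrix.trace, map_sum]

variable [NeZero n] {s : Fin n → R}

theorem Rng.map (h : Rng M) (φ : R →+* C) : Rng fun i => (M i).map φ := by
  obtain ⟨A, _, _, y, h0, hM⟩ := h
  let _ := φ.toAlgebra
  refine ⟨TensorProduct R C A, inferInstance, inferInstance, Algebra.TensorProduct.basis C y,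
    by rw [Algebra.TensorProduct.basis_apply, h0]; rfl, fun i => ?_⟩
  ext l j
  simp only [Matrix.map_apply, hM, Algebra.leftMulMatrix_eq_repr_mul,
    Algebra.TensorProduct.basis_apply, Algebra.TensorProduct.tmul_mul_tmul, mul_one,
    Algebra.TensorProduct.basis_repr_tmul, one_smul, Finsupp.mapRange_apply]
  rfl

theorem Rng.col0 (h : Rng M) (i l : Fin n) : M i l 0 = if l = i then 1 else 0 := by
  obtain ⟨A, _, _, y, h0, hM⟩ := h
  rw [hM, Algebra.leftMulMatrix_eq_repr_mul, h0, mul_one, y.repr_self, Finsupp.single_apply]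
  simp only [eq_comm]

theorem Rng.comm (h : Rng M) (i j : Fin n) : M i * M j = M j * M i := by
  obtain ⟨A, _, _, y, -, hM⟩ := h
  rw [hM, hM, ← map_mul, mul_comm, map_mul]

theorem Rng.mul (h : Rng M) (i j : Fin n) : M i * M j = Mx M fun l => M i l j := by
  obtain ⟨A, _, _, y, -, hM⟩ := h
  have e : y i * y j = ∑ l, M i l j • y l := by
    conv_lhs => rw [← y.sum_repr (y i * y j)]
    simp only [hM, Algebra.leftMulMatrix_eq_repr_mul]
  conv_lhs => rw [hM, hM, ← map_mul, e, map_sum]
  simp only [map_smul, ← hM, Mx]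

theorem Rng.comm_Mx (h : Rng M) (i : Fin n) (β : Fin n → R) : M i * Mx M β = Mx M β * M i := by
  simp only [Mx, Finset.mul_sum, Finset.sum_mul, Matrix.mul_smul, Matrix.smul_mul, h.comm i]

theorem Hm.row (h : Hm M s) (i : Fin n) : s ᵥ* M i = s i • s := by
  ext j
  simp only [Matrix.vecMul, dotProduct, Pi.smul_apply, smul_eq_mul, h.2 i j, mul_comm]

theorem Hm.vecMul (h : Hm M s) (β : Fin n → R) : s ᵥ* Mx M β = (∑ i, β i * s i) • s := by
  rw [Mx, Matrix.vecMul_sum, Finset.sum_smul]
  exact Finset.sum_congr rfl fun i _ => by rw [Matrix.vecMul_smul, h.row, mul_smul]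

theorem Hm.map (h : Hm M s) (φ : R →+* C) : Hm (fun i => (M i).map φ) fun i => φ (s i) :=
  ⟨by simp only [h.1, map_one], fun i j => by
    rw [← map_mul, h.2, map_sum]; simp only [map_mul, Matrix.map_apply]⟩

theorem hm_of_eig (h : Rng M) (h0 : s 0 = 1) (he : ∀ i, ∃ a : R, s ᵥ* M i = a • s) : Hm M s := by
  refine ⟨h0, fun i j => ?_⟩
  obtain ⟨a, e⟩ := he i
  have e0 := congrFun e 0
  have ej := congrFun e j
  simp only [Matrix.vecMul, dotProduct, h.col0, mul_ite, mul_one, mul_zero, Finset.sum_ite_eq',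
    Finset.mem_univ, if_true, Pi.smul_apply, smul_eq_mul, h0] at e0 ej
  rw [e0, ← ej]
  exact Finset.sum_congr rfl fun l _ => mul_comm _ _

theorem exists_hom {A : Type} [CommRing A] [Algebra R A] (y : Module.Basis (Fin n) R A)
    (h0 : y 0 = 1) (ψ : R →+* C) {u : Fin n → C}
    (h : Hm (fun i => (Algebra.leftMulMatrix y (y i)).map ψ) u) :
    ∃ Ψ : A →+* C, ∀ a, Ψ a = ∑ i, ψ (y.repr a i) * u i := by
  let _ := ψ.toAlgebra
  let L : A →ₗ[R] C := y.constr R u
  have hL : ∀ a, L a = ∑ i, ψ (y.repr a i) * u i := fun a => by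
    rw [Module.Basis.constr_apply_fintype]; rfl
  have hy : ∀ i, L (y i) = u i := y.constr_basis R u
  have hm : ∀ a b, L (a * b) = L a * L b := by
    have : (LinearMap.mul R A).compr₂ L = (LinearMap.mul R C).compl₁₂ L L :=
      y.ext fun i => y.ext fun j => by
        simp only [LinearMap.compr₂_apply, LinearMap.mul_apply', LinearMap.compl₁₂_apply, hy]
        rw [hL, h.2]
        simp only [Matrix.map_apply, Algebra.leftMulMatrix_eq_repr_mul]
    exact fun a b => LinearMap.congr_fun₂ this a b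
  exact ⟨(AlgHom.ofLinearMap L (by rw [← h0, hy, h.1]) hm).toRingHom, hL⟩

end Tab

section Eig

variable {k κ : Type} [Field k] [Fintype κ] {n : ℕ} {P : κ → Fin n → k}

/-- a basis of left eigenvectors gives the determinant and the trace -/
theorem eig_basis (hκ : Fintype.card κ = n)
    (hP : ∀ β : Fin n → k, (∀ x, ∑ i, β i * P x i = 0) → β = 0) {A : Matrix (Fin n) (Fin n) k}
    {lam : κ → k} (h : ∀ x, P x ᵥ* A = lam x • P x) :
    A.det = ∏ x, lam x ∧ A.trace = ∑ x, lam x := by
  let e : Fin n ≃ κ := (Fintype.equivFinOfCardEq hκ).symm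
  let Q : Matrix (Fin n) (Fin n) k := Matrix.of fun i => P (e i)
  have hQ : Q.det ≠ 0 := fun h0 => by
    obtain ⟨v, hv, e0⟩ := Matrix.exists_mulVec_eq_zero_iff.2 h0
    refine hv (hP v fun x => ?_)
    have := congrFun e0 (e.symm x)
    simpa [Q, Matrix.mulVec, dotProduct, mul_comm] using this
  have e1 : Q * A = Matrix.diagonal (fun i => lam (e i)) * Q := by
    ext i j
    rw [Matrix.diagonal_mul]
    exact congrFun (h (e i)) j
  have hu : IsUnit Q.det := hQ.isUnit
  constructor
  · have := congrArg Matrix.det e1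
    rw [Matrix.det_mul, Matrix.det_mul, Matrix.det_diagonal, mul_comm] at this
    rw [mul_right_cancel₀ hQ this, e.prod_comp]
  · have e2 : A = Q⁻¹ * (Matrix.diagonal (fun i => lam (e i)) * Q) := by
      rw [← e1, Matrix.nonsing_inv_mul_cancel_left _ _ hu]
    rw [e2, Matrix.trace_mul_comm, Matrix.mul_nonsing_inv_cancel_right _ _ hu,
      Matrix.trace_diagonal, e.sum_comp]

/-- the rows span -/
theorem eig_span (hκ : Fintype.card κ = n)
    (hP : ∀ β : Fin n → k, (∀ x, ∑ i, β i * P x i = 0) → β = 0) (v : Fin n → k) :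
    ∃ a : κ → k, v = ∑ x, a x • P x := by
  let e : Fin n ≃ κ := (Fintype.equivFinOfCardEq hκ).symm
  let Q : Matrix (Fin n) (Fin n) k := Matrix.of fun i => P (e i)
  have hQ : Q.det ≠ 0 := fun h0 => by
    obtain ⟨v, hv, e0⟩ := Matrix.exists_mulVec_eq_zero_iff.2 h0
    refine hv (hP v fun x => ?_)
    have := congrFun e0 (e.symm x)
    simpa [Q, Matrix.mulVec, dotProduct, mul_comm] using this
  refine ⟨fun x => (v ᵥ* Q⁻¹) (e.symm x), ?_⟩
  rw [← e.sum_comp]
  ext j
  have := congrFun (show (v ᵥ* Q⁻¹) ᵥ* Q = v by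
    rw [Matrix.vecMul_vecMul, Matrix.nonsing_inv_mul _ hQ.isUnit, Matrix.vecMul_one]) j
  rw [← this]
  simp [Matrix.vecMul, dotProduct, Q, Finset.sum_apply]

end Eig

section Em

variable {n r : ℕ}

/-- the embeddings and their conjugates -/
def both (Φ : Fin r → Fin n → ℂ) : Fin r ⊕ Fin r → Fin n → ℂ :=
  Sum.elim Φ fun w i => conj (Φ w i)

theorem conj_emb (s : Fin n → ℂ) (β : Fin n → ℝ) :
    conj (emb s β) = emb (fun i => conj (s i)) β := by simp [emb, map_sum]

theorem both_inj {Φ : Fin r → Fin n → ℂ} (h : ∀ β, (∀ w, emb (Φ w) β = 0) → β = 0)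
    (β : Fin n → ℂ) (h0 : ∀ x, ∑ i, β i * both Φ x i = 0) : β = 0 := by
  have h1 : ∀ w, emb (Φ w) (fun i => (β i).re) + Complex.I * emb (Φ w) (fun i => (β i).im) = 0 :=
    fun w => by
      rw [← h0 (.inl w), emb, emb, Finset.mul_sum, ← Finset.sum_add_distrib]
      refine Finset.sum_congr rfl fun i _ => ?_
      conv_rhs => rw [← Complex.re_add_im (β i)]
      simp only [both, Sum.elim_inl]; ring
  have h2 : ∀ w, emb (Φ w) (fun i => (β i).re) - Complex.I * emb (Φ w) (fun i => (β i).im) = 0 :=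
    fun w => by
      have := congrArg conj (h0 (.inr w))
      rw [map_zero, map_sum] at this
      rw [← this, emb, emb, Finset.mul_sum, ← Finset.sum_sub_distrib]
      refine Finset.sum_congr rfl fun i _ => ?_
      conv_rhs => rw [← Complex.re_add_im (β i)]
      simp only [both, Sum.elim_inr, map_mul, map_add, Complex.conj_conj, Complex.conj_ofReal,
        Complex.conj_I]
      ring
  have a := h _ fun w => by linear_combination (h1 w + h2 w) / 2
  have b := h (fun i => (β i).im) fun w => by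
    linear_combination (-Complex.I / 2) * (h1 w - h2 w) +
      emb (Φ w) (fun i => (β i).im) * Complex.I_mul_I
  exact funext fun i => Complex.ext (congrFun a i) (congrFun b i)

variable [NeZero n] {M : Tab ℝ n} {Φ : Fin r → Fin n → ℂ}

theorem hm_conj {s : Fin n → ℂ} (h : Hm (fun i => (M i).map Complex.ofReal) s) :
    Hm (fun i => (M i).map Complex.ofReal) fun i => conj (s i) := by
  have := h.map (starRingEnd ℂ)
  simpa only [Matrix.map_map, Function.comp_def, Complex.conj_ofReal] using this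

theorem Em.both (h : Em M Φ) (x : Fin r ⊕ Fin r) :
    Hm (fun i => (M i).map Complex.ofReal) (both Φ x) := by
  rcases x with w | w
  exacts [h.hom w, hm_conj (h.hom w)]

theorem Em.surj (h : Em M Φ) (hn : n = 2 * r) (z : Fin r → ℂ) : ∃ β, ∀ w, emb (Φ w) β = z w := by
  let L : (Fin n → ℝ) →ₗ[ℝ] Fin r → ℂ :=
    { toFun := fun β w => emb (Φ w) β
      map_add' := fun a b => funext fun w => by simp [emb, add_mul, Finset.sum_add_distrib]
      map_smul' := fun c a => funext fun w => by simp [emb, Finset.mul_sum, mul_assoc] }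
  have hi : Function.Injective L := (injective_iff_map_eq_zero L).2 fun β e => h.inj β (congrFun e)
  obtain ⟨β, e⟩ := (LinearMap.injective_iff_surjective_of_finrank_eq_finrank
    (by simp [Module.finrank_pi_fintype, hn, mul_comm])).1 hi z
  exact ⟨β, congrFun e⟩

theorem Em.trace (h : Em M Φ) (hn : n = 2 * r) (β : Fin n → ℝ) :
    (Mx M β).trace = ∑ w, 2 * (emb (Φ w) β).re := by
  have := (eig_basis (by simp [hn, two_mul]) (both_inj h.inj)
    fun x => (h.both x).vecMul fun i => (β i : ℂ)).2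
  have e := Mx_map Complex.ofRealHom M β
  simp only [Complex.ofRealHom_eq_coe] at e
  apply Complex.ofReal_injective
  rw [Fintype.sum_sum_type, ← Finset.sum_add_distrib] at this
  refine Eq.trans ?_ (this.trans ?_)
  · exact (AddMonoidHom.map_trace Complex.ofRealHom _).trans (congrArg Matrix.trace e)
  · rw [Complex.ofReal_sum]
    refine Finset.sum_congr rfl fun w _ => ?_
    rw [← Complex.add_conj, conj_emb]; rfl

theorem Em.emb_mul (h : Em M Φ) (w : Fin r) (i j : Fin n) :
    emb (Φ w) (fun l => M i l j) = Φ w i * Φ w j := ((h.hom w).2 i j).symm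

end Em

theorem Tb.fib_eq {n : ℕ} (T : Tb n) {R : Type} [CommRing R] (τ : R) :
    T.fib τ = fun i => (T.M i).map (aeval τ : ℤ[X] →ₐ[ℤ] R).toRingHom := rfl

end Pool.Agent.MP_f3836a_nt.GV
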