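import Pool.Agent.MP_f3836a_nt.GV.SpecP
import Pool.Agent.MP_f3836a_nt.GV.RApi

/-! Separable tables split over an algebraically closed field; the splitting function field. -/

set_option autoImplicit false

namespace Pool.Agent.MP_f3836a_nt.GV.P

open Finset Module Polynomial

namespace PFld

section
variable {n : ℕ} {E A : Type} [Field E] [CommRing A] [Algebra E A] (y : Basis (Fin n) E A)

theorem ker [IsAlgClosed E] (h : Algebra.discr E y ≠ 0) {x : A}
    (hx : ∀ φ : A →ₐ[E] E, φ x = 0) : x = 0 := by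
  have := Module.Finite.of_basis y
  have := Module.Free.of_basis y
  have := IsArtinianRing.of_finite E A
  have h1 : x ∈ Ideal.jacobson (⊥ : Ideal A) := Ideal.mem_sInf.2 fun {m} hm => by
    have := hm.2
    let := Ideal.Quotient.field m
    let e := AlgEquiv.ofBijective (Algebra.ofId E (A ⧸ m))
      (IsAlgClosed.algebraMap_bijective_of_isIntegral (k := E) (K := A ⧸ m))
    exact Ideal.Quotient.eq_zero_iff_mem.1 (e.symm.map_eq_zero_iff.1
      (hx (e.symm.toAlgHom.comp (Ideal.Quotient.mkₐ E m))))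
  obtain ⟨k, hk⟩ := IsArtinianRing.isNilpotent_jacobson_bot (R := A)
  have h2 : IsNilpotent x := ⟨k, (hk.le (Ideal.pow_mem_pow h1 k) :)⟩
  refine y.equivFun.map_eq_zero_iff.1 (Matrix.eq_zero_of_mulVec_eq_zero h ?_)
  rw [Algebra.traceMatrix_of_basis_mulVec y x]
  exact funext fun i => (Algebra.isNilpotent_trace_of_isNilpotent
    ((Commute.all _ _).isNilpotent_mul_right h2)).eq_zero

theorem mul (L : A →ₗ[E] E) (i j : Fin n) :
    L (y i * y j) = ∑ l, Algebra.leftMulMatrix y (y i) l j * L (y l) := by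
  conv_lhs => rw [← y.sum_repr (y i * y j), map_sum]
  simp only [map_smul, smul_eq_mul, Algebra.leftMulMatrix_eq_repr_mul]

end

theorem fib_map {n : ℕ} (T : Tb n) {R C : Type} [CommRing R] [CommRing C] (φ : R →+* C) (x : R) :
    (fun i => (T.fib x i).map φ) = T.fib (φ x) := by
  funext i
  ext l j
  simp only [Tb.fib_eq, Matrix.map_apply, AlgHom.toRingHom_eq_coe, RingHom.coe_coe]
  exact (aeval_algHom_apply φ.toIntAlgHom x _).symm

theorem desc {n : ℕ} [NeZero n] {R C : Type} [CommRing R] [CommRing C] (φ : R →+* C)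
    (hφ : Function.Injective φ) {M : Tab R n} {s : Fin n → Fin n → R}
    (h : ∀ σ, Hm (fun i => (M i).map φ) fun i => φ (s σ i))
    (hd : (Matrix.of fun σ i => φ (s σ i)).det ≠ 0) : Spl M := by
  refine ⟨s, fun σ => ⟨hφ ?_, fun i j => hφ ?_⟩, fun h0 => hd ?_⟩
  · rw [map_one]; exact (h σ).1
  · rw [map_mul, map_sum]
    simpa only [map_mul, Matrix.map_apply] using (h σ).2 i j
  · have := congrArg φ h0
    rw [RingHom.map_det, map_zero] at this
    exact this

theorem fin (F : Type) [Field F] [Algebra ℚ F] [Algebra (RatFunc ℚ) F]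
    [FiniteDimensional (RatFunc ℚ) F] :
    FiniteDimensional (IntermediateField.adjoin ℚ {algebraMap (RatFunc ℚ) F RatFunc.X}) F := by
  set K := IntermediateField.adjoin ℚ {algebraMap (RatFunc ℚ) F RatFunc.X}
  have hp : ∀ p : ℚ[X], algebraMap (RatFunc ℚ) F (algebraMap ℚ[X] (RatFunc ℚ) p) ∈ K := by
    intro p
    induction p using Polynomial.induction_on' with
    | add p q hp hq => rw [map_add, map_add]; exact K.add_mem hp hq
    | monomial k c =>
      rw [← C_mul_X_pow_eq_monomial, map_mul, map_mul, map_pow, map_pow, RatFunc.algebraMap_X]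
      refine K.mul_mem ?_ (pow_mem (IntermediateField.mem_adjoin_simple_self _ _) k)
      have : algebraMap (RatFunc ℚ) F (algebraMap ℚ[X] (RatFunc ℚ) (C c)) = algebraMap ℚ F c :=
        RingHom.congr_fun (Subsingleton.elim (((algebraMap (RatFunc ℚ) F).comp
          (algebraMap ℚ[X] (RatFunc ℚ))).comp C) (algebraMap ℚ F)) c
      rw [this]
      exact K.algebraMap_mem c
  have hr : ∀ r, algebraMap (RatFunc ℚ) F r ∈ K := fun r => by
    rw [← RatFunc.num_div_denom r, map_div₀]
    exact K.div_mem (hp _) (hp _)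
  let _ : Algebra (RatFunc ℚ) K :=
    ((algebraMap (RatFunc ℚ) F).codRestrict K.toSubfield hr).toAlgebra
  have : IsScalarTower (RatFunc ℚ) K F := IsScalarTower.of_algebraMap_eq fun _ => rfl
  exact Module.Finite.of_restrictScalars_finite (RatFunc ℚ) K F

theorem tr (F : Type) [Field F] [Algebra ℚ F] [Algebra (RatFunc ℚ) F] :
    Transcendental ℚ (algebraMap (RatFunc ℚ) F RatFunc.X) := by
  have h : (aeval (algebraMap (RatFunc ℚ) F RatFunc.X) : ℚ[X] →ₐ[ℚ] F).toRingHom =
      (algebraMap (RatFunc ℚ) F).comp (algebraMap ℚ[X] (RatFunc ℚ)) :=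
    Polynomial.ringHom_ext' (Subsingleton.elim _ _) (by simp)
  refine transcendental_iff_injective.2 ?_
  change Function.Injective (aeval (algebraMap (RatFunc ℚ) F RatFunc.X) : ℚ[X] →ₐ[ℚ] F).toRingHom
  rw [h]
  exact (algebraMap (RatFunc ℚ) F).injective.comp (RatFunc.algebraMap_injective ℚ)

theorem inj {F : Type} [Field F] [Algebra ℚ F] {x : F} (hx : Transcendental ℚ x) (p : ℤ[X])
    (h : (aeval x : ℤ[X] →ₐ[ℤ] F).toRingHom p = 0) : p = 0 := by
  have e : (aeval x : ℤ[X] →ₐ[ℤ] F).toRingHom =
      (aeval x : ℚ[X] →ₐ[ℚ] F).toRingHom.comp (mapRingHom (Int.castRingHom ℚ)) :=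
    Polynomial.ringHom_ext' (RingHom.ext_int _ _) (by simp)
  rw [e] at h
  exact Polynomial.map_injective _ (Int.castRingHom ℚ).injective_int
    (transcendental_iff_injective.1 hx (h.trans (by simp)))

end PFld

theorem splitX : SplitX := by
  rintro E _ _ n _ M ⟨A, _, _, y, y0, hM⟩ hd
  obtain rfl := funext hM
  have := Module.Finite.of_basis y
  have := Module.Free.of_basis y
  have h : Algebra.discr E y ≠ 0 := by
    refine ne_of_eq_of_ne (congrArg Matrix.det (Matrix.ext fun i j => ?_)) hd
    rw [Algebra.traceMatrix_apply, Algebra.traceForm_apply, Algebra.trace_eq_matrix_trace y, map_mul,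
      Matrix.of_apply]
  have := Fintype.ofFinite (A →ₐ[E] E)
  have c : Fintype.card (A →ₐ[E] E) = n := by
    have c1 := card_algHom_le_finrank E A E
    have c2 := LinearMap.finrank_le_finrank_of_injective
      (f := LinearMap.pi fun φ : A →ₐ[E] E => φ.toLinearMap)
      ((injective_iff_map_eq_zero _).2 fun x hx => PFld.ker y h (congrFun hx))
    rw [finrank_fintype_fun_eq_card] at c2
    rw [finrank_eq_card_basis y, Fintype.card_fin] at c1 c2
    exact le_antisymm (Nat.card_eq_fintype_card.ge.trans c1) c2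
  let e := (Fintype.equivFinOfCardEq c).symm
  refine ⟨fun k i => e k (y i), fun k => ⟨by simp only [y0, map_one], fun i j => ?_⟩, fun h0 => ?_⟩
  · exact (map_mul _ _ _).symm.trans (PFld.mul y (e k).toLinearMap i j)
  · obtain ⟨β, hv, e0⟩ := Matrix.exists_mulVec_eq_zero_iff.2 h0
    refine hv (funext (Fintype.linearIndependent_iff.1 y.linearIndependent β
      (PFld.ker y h fun φ => ?_)))
    obtain ⟨k, rfl⟩ := e.surjective φ
    have := congrFun e0 k
    simpa [Matrix.mulVec, dotProduct, mul_comm] using this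

theorem fldX : FldX := by
  intro n _ T hR hd
  let E := AlgebraicClosure (RatFunc ℚ)
  let x0 : E := algebraMap (RatFunc ℚ) E RatFunc.X
  have hx : Transcendental ℚ x0 := PFld.tr E
  obtain ⟨s, hs, hdet⟩ := splitX E n (T.fib x0) (hR.map _) (by
    rw [Tb.fib_eq, ← disc_map]
    exact fun h => hd (PFld.inj hx _ h))
  let S : Set E := Set.range fun p : Fin n × Fin n => s p.1 p.2
  let F := IntermediateField.adjoin (RatFunc ℚ) S
  have : FiniteDimensional (RatFunc ℚ) F :=
    IntermediateField.finiteDimensional_adjoin fun x _ => Algebra.IsIntegral.isIntegral x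
  have : CharZero F := charZero_of_injective_ringHom (algebraMap (RatFunc ℚ) F).injective
  refine ⟨F, inferInstance, DivisionRing.toRatAlgebra, algebraMap (RatFunc ℚ) F RatFunc.X,
    @PFld.tr F _ DivisionRing.toRatAlgebra _, @PFld.fin F _ DivisionRing.toRatAlgebra _ _, ?_⟩
  refine PFld.desc (algebraMap F E) (algebraMap F E).injective
    (s := fun σ i => ⟨s σ i, IntermediateField.subset_adjoin _ _ ⟨(σ, i), rfl⟩⟩) (fun σ => ?_) hdet
  rw [PFld.fib_map]
  exact hs σ

end Pool.Agent.MP_f3836a_nt.GV.P
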