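import Pool.Agent.MP_f3836a_nt.GV.SpecP

/-! Weights and the substitution. -/

set_option autoImplicit false

namespace Pool.Agent.MP_f3836a_nt.GV.P

open Polynomial Finset

namespace PKitA

variable {F : Type} [Field F] {N m : ℕ}

theorem coeff_Tm (N m : ℕ) (f : F[X][X]) (w : ℕ) : (Tm N m f).coeff w =
    ∑ i ∈ f.support, ∑ j ∈ (f.coeff i).support,
      if j * N + i * m = w then (f.coeff i).coeff j else 0 := by
  conv_lhs => rw [f.as_sum_support]
  rw [map_sum, finsetSum_coeff]
  refine sum_congr rfl fun i _ => ?_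
  conv_lhs => rw [(f.coeff i).as_sum_support]
  rw [map_sum, map_sum, finsetSum_coeff]
  refine sum_congr rfl fun j _ => ?_
  rw [Tm_mon, coeff_monomial]

theorem uniq (hc : N.Coprime m) {i i' j j' : ℕ} (hi : i < N) (hi' : i' < N)
    (h : j' * N + i' * m = j * N + i * m) : i' = i ∧ j' = j := by
  have h1 : i' * m ≡ i * m [MOD N] := by
    have := congrArg (· % N) h
    simpa [Nat.ModEq, Nat.add_mod] using this
  have h2 : i' = i := Nat.ModEq.eq_of_lt_of_lt (Nat.ModEq.cancel_right_of_coprime hc h1) hi' hi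
  subst h2
  exact ⟨rfl, Nat.eq_of_mul_eq_mul_right (by omega) (Nat.add_right_cancel h)⟩

theorem coeff_red (hc : N.Coprime m) {g : F[X][X]} (hg : g.degree < N) {i : ℕ} (hi : i < N)
    (j : ℕ) : (Tm N m g).coeff (j * N + i * m) = (g.coeff i).coeff j := by
  have hl : ∀ i' ∈ g.support, i' < N := fun i' h => by
    exact_mod_cast (le_degree_of_ne_zero (mem_support_iff.1 h)).trans_lt hg
  rw [coeff_Tm, sum_eq_single i, sum_eq_single j]
  · simp
  · intro j' _ hj
    rw [if_neg fun e => hj (uniq hc hi hi e).2]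
  · intro h
    simp [notMem_support_iff.1 h]
  · intro i' h hne
    exact sum_eq_zero fun j' _ => if_neg fun e => hne (uniq hc hi (hl i' h) e).1
  · intro h
    simp [notMem_support_iff.1 h]

theorem deg_lt (d : ℕ) (f : F[X][X]) (h : Wt N m d f) : (Tm N m f).degree < d := by
  refine (degree_lt_iff_coeff_zero _ _).2 fun w hw => ?_
  rw [coeff_Tm]
  refine sum_eq_zero fun i _ => sum_eq_zero fun j _ => ?_
  split_ifs with e
  · exact h i j (e ▸ hw)
  · rfl

theorem zero_of_ge {g : F[X][X]} (hg : g.degree < N) {i : ℕ} (hi : N ≤ i) : g.coeff i = 0 :=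
  coeff_eq_zero_of_degree_lt (hg.trans_le (by exact_mod_cast hi))

theorem Tm_smul (c : F) (g : F[X][X]) : Tm N m (c • g) = c • Tm N m g := by
  have e : c • g = C (C c) * g := by
    ext i j
    simp
  rw [e, map_mul, smul_eq_C_mul]
  simp [Tm]

/-- the low coefficients after substitution -/
noncomputable def lo (N m e : ℕ) : Vr F N m e →ₗ[F] Fin e → F where
  toFun g w := (Tm N m g.1).coeff w
  map_add' g g' := by
    funext w
    simp
  map_smul' c g := by
    funext w
    simp [Tm_smul]

theorem lo_inj (hc : N.Coprime m) (e : ℕ) : Function.Injective (lo (F := F) N m e) := by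
  refine (injective_iff_map_eq_zero _).2 fun g h => Subtype.ext ?_
  ext i j
  rcases lt_or_ge i N with hi | hi
  · rcases lt_or_ge (j * N + i * m) e with hw | hw
    · rw [← coeff_red hc g.2.1 hi]
      simpa [lo] using congrFun h ⟨_, hw⟩
    · simpa using g.2.2 i j hw
  · simp [zero_of_ge g.2.1 hi]

end PKitA

open PKitA in
theorem kitA : KitA := by
  intro F _ N m _ _ hc
  refine ⟨deg_lt, fun d g hg h h0 i j hij => ?_, fun e =>
    ⟨FiniteDimensional.of_injective _ (lo_inj hc e), ?_⟩⟩
  · rcases hij.eq_or_lt with e | e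
    · rcases lt_or_ge i N with hi | hi
      · rw [← coeff_red hc hg hi, ← e, h0]
      · simp [zero_of_ge hg hi]
    · exact h i j e
  · simpa using LinearMap.finrank_le_finrank_of_injective (lo_inj (F := F) hc e)

end Pool.Agent.MP_f3836a_nt.GV.P
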