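import Pool.Agent.MP_f3836a_nt.GV.SpecP

/-! Reduction modulo the curve keeps the weight and the top coefficient. -/

set_option autoImplicit false

namespace Pool.Agent.MP_f3836a_nt.GV.P

open Polynomial

theorem kitB : KitA → KitB := by
  intro hA F _ N m d χ f hN hm hc h
  obtain ⟨mo, dg⟩ := h.monic hN
  obtain ⟨n, hn⟩ : ∃ n : ℕ, f.degree < (N + n : ℕ) :=
    ⟨f.natDegree, degree_le_natDegree.trans_lt (Nat.cast_lt.2 (by omega))⟩
  induction n generalizing f with
  | zero =>
    intro hf
    rw [(modByMonic_eq_self_iff mo).2 (by rwa [degree_eq_natDegree mo.ne_zero, dg])]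
    exact ⟨hf, rfl⟩
  | succ n ih =>
    intro hf
    have key : Wt N m (d + 1) (monomial n (f.coeff (N + n)) * χ) ∧
        (Tm N m (monomial n (f.coeff (N + n)) * χ)).coeff d = 0 := by
      rcases lt_or_ge d (N * m) with hd | hd
      · rw [show f.coeff (N + n) = 0 from ext fun j => hf _ j (by nlinarith), map_zero, zero_mul]
        exact ⟨Wt.zero, by simp⟩
      · obtain ⟨c, rfl⟩ := Nat.exists_eq_add_of_le' hd
        have hq : Wt N m (c + 1) (monomial n (f.coeff (N + n))) := fun i j e => by
          rw [coeff_monomial]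
          split_ifs with e'
          exacts [hf _ j (by subst e'; nlinarith), coeff_zero j]
        refine ⟨hq.mul h.wt, ?_⟩
        have e : Tm N m χ = Tm N m (χ - X ^ N + C (X ^ m)) := by
          simp [Tm, eval₂_pow, ← pow_mul, mul_comm]
        rw [map_mul, e, ← map_mul]
        exact coeff_eq_zero_of_degree_lt ((hA F N m hN hm hc).1 _ _ (hq.mul h))
    have h1 := ih (f - monomial n (f.coeff (N + n)) * χ) ((degree_lt_iff_coeff_zero _ _).2
      fun i hi => by
        obtain ⟨k, rfl⟩ := Nat.exists_eq_add_of_le' ((Nat.le_add_left n N).trans hi)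
        rw [coeff_sub, coeff_monomial_mul]
        rcases (Nat.le_of_add_le_add_right hi).eq_or_lt with rfl | hk
        · rw [show χ.coeff N = 1 from dg ▸ mo.coeff_natDegree, mul_one, sub_self]
        · rw [coeff_eq_zero_of_natDegree_lt (dg.trans_lt hk), mul_zero, sub_zero]
          exact (degree_lt_iff_coeff_zero _ _).1 hn _ (by omega)) (hf.sub key.1)
    rwa [sub_modByMonic, (modByMonic_eq_zero_iff_dvd mo).2 (dvd_mul_left _ _), sub_zero, map_sub,
      coeff_sub, key.2, sub_zero] at h1

end Pool.Agent.MP_f3836a_nt.GV.P
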