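import Pool.Agent.MP_f3836a_nt.GV.SpecP

/-! Block P: the analytic part of the first theorem of Mertens. -/

set_option autoImplicit false

namespace Pool.Agent.MP_f3836a_nt.GV.P

open Finset Filter Topology

namespace PMerA

variable {A L : ℝ → ℝ} {ρ : ℕ → ℕ} {d : ℕ} {κ C : ℝ}

/-- the sum up to `x` -/
noncomputable def S (ρ : ℕ → ℕ) (x : ℝ) : ℝ :=
  ∑ p ∈ (range (⌊x⌋₊ + 1)).filter Nat.Prime, (ρ p : ℝ) * Real.log p / p

theorem approx (H : MerH A L ρ d κ C) {η : ℝ} (hη : 0 < η) :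
    ∃ B, 0 ≤ B ∧ ∀ y, 0 ≤ y → |A y - κ * y| ≤ η * y + B := by
  obtain ⟨y0, h⟩ := eventually_atTop.1
    ((Metric.tendsto_nhds.1 H.lim η hη).and (eventually_ge_atTop 1))
  have h1 := (h y0 le_rfl).2
  have hκ := H.pos
  have h0 := H.nn y0
  refine ⟨A y0 + κ * y0, by positivity, fun y hy => ?_⟩
  rcases le_total y0 y with c | c
  · have h2 := (h y c).1
    have hy' : 0 < y := by linarith
    rw [Real.dist_eq] at h2
    have e : A y - κ * y = (A y / y - κ) * y := by field_simp
    rw [e, abs_mul, abs_of_pos hy']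
    have : 0 ≤ κ * y0 := by positivity
    nlinarith
  · have := H.mono c
    have := H.nn y
    have : κ * y ≤ κ * y0 := by gcongr
    have : 0 ≤ κ * y := by positivity
    have : 0 ≤ η * y := by positivity
    rw [abs_le]
    constructor <;> linarith

theorem theta (x : ℝ) (hx : 0 ≤ x) :
    ∑ p ∈ (range (⌊x⌋₊ + 1)).filter Nat.Prime, Real.log p ≤ Real.log 4 * x := by
  have := Chebyshev.theta_le_log4_mul_x hx
  rwa [Chebyshev.theta_eq_sum_Icc, ← Nat.range_succ_eq_Icc_zero] at this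

theorem conv (H : MerH A L ρ d κ C) {η B : ℝ} (hB : 0 ≤ B)
    (h : ∀ y, 0 ≤ y → |A y - κ * y| ≤ η * y + B) (x : ℝ) (hx : 1 ≤ x) :
    |L x - κ * x * S ρ x| ≤ η * x * S ρ x + (C + B * d * Real.log 4) * x := by
  have h1 : |∑ p ∈ (range (⌊x⌋₊ + 1)).filter Nat.Prime, (ρ p : ℝ) * Real.log p * A (x / p) -
      κ * x * S ρ x| ≤ η * x * S ρ x + B * d * (Real.log 4 * x) := by
    refine le_trans ?_ (add_le_add le_rfl
      (mul_le_mul_of_nonneg_left (theta x (by linarith)) (by positivity)))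
    simp only [S, mul_sum]
    rw [← sum_sub_distrib, ← sum_add_distrib]
    refine (abs_sum_le_sum_abs _ _).trans (sum_le_sum fun p hp => ?_)
    have hp' := (mem_filter.1 hp).2
    have l : 0 ≤ Real.log p := Real.log_natCast_nonneg p
    have r : (ρ p : ℝ) ≤ d := by exact_mod_cast H.le p hp'
    have e : (ρ p : ℝ) * Real.log p * A (x / p) - κ * x * (ρ p * Real.log p / p) =
        (ρ p * Real.log p) * (A (x / p) - κ * (x / p)) := by ring
    rw [e, abs_mul, abs_of_nonneg (by positivity)]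
    calc _ ≤ (ρ p * Real.log p) * (η * (x / p) + B) := by
          gcongr
          exact h _ (by positivity)
      _ = η * x * (ρ p * Real.log p / p) + B * ρ p * Real.log p := by ring
      _ ≤ _ := by gcongr
  have h2 := H.conv x hx
  rw [abs_le] at h1 h2 ⊢
  constructor <;> linarith [h1.1, h1.2, h2.1, h2.2]

theorem key (H : MerH A L ρ d κ C) {ε : ℝ} (h0 : 0 < ε) (h1 : ε ≤ 1 / 8) :
    ∀ᶠ x in atTop, (1 - ε) * S ρ x ≤ (1 + 2 * ε) * Real.log x ∧
      (1 - 5 * ε) * Real.log x ≤ (1 + ε) * S ρ x := by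
  have hκ := H.pos
  obtain ⟨B, hB, h⟩ := approx H (mul_pos hκ h0)
  set E := C + B * d * Real.log 4
  have lε : Real.log ε ≤ 0 := Real.log_nonpos h0.le (by linarith)
  filter_upwards [eventually_ge_atTop 1, eventually_ge_atTop (1 / ε),
    eventually_ge_atTop (2 * B / (κ * ε) * 2),
    Real.tendsto_log_atTop.eventually_ge_atTop ((|E| - κ * Real.log ε) / (κ * ε) * 2)]
    with x x1 x2 x3 x4
  have x0 : 0 < x := by linarith
  have lx : 0 ≤ Real.log x := Real.log_nonneg x1
  rw [div_le_iff₀ h0] at x2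
  rw [div_mul_eq_mul_div, div_le_iff₀ (mul_pos hκ h0)] at x3 x4
  have c := abs_le.1 (conv H hB h x x1)
  have a1 := abs_le.1 (h x x0.le)
  have a2 := abs_le.1 (h (ε * x) (by positivity))
  have hE := le_abs_self E
  have hκε : 0 ≤ -(κ * Real.log ε) := by nlinarith
  constructor
  · have u : L x ≤ (κ * (1 + 3 / 2 * ε) * x) * Real.log x :=
      (H.up x x1).trans (mul_le_mul_of_nonneg_right (by nlinarith) lx)
    have v : E * x ≤ (κ * ε / 2 * Real.log x) * x :=
      mul_le_mul_of_nonneg_right (by nlinarith) x0.le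
    refine le_of_mul_le_mul_left ?_ (mul_pos hκ x0)
    nlinarith
  · have l := H.lo x (ε * x) (by linarith) (by nlinarith)
    have le : 0 ≤ Real.log (ε * x) := Real.log_nonneg (by linarith)
    have hx : 0 < κ * ε * x := by positivity
    have u : (κ * (1 - 4 * ε) * x) * Real.log (ε * x) ≤ L x :=
      (mul_le_mul_of_nonneg_right (by nlinarith) le).trans l
    rw [Real.log_mul h0.ne' x0.ne'] at u
    have w : κ * Real.log ε ≤ κ * (1 - 4 * ε) * Real.log ε := by nlinarith
    have v : (E - κ * (1 - 4 * ε) * Real.log ε) * x ≤ (κ * ε * Real.log x) * x :=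
      mul_le_mul_of_nonneg_right (by nlinarith [abs_nonneg E]) x0.le
    refine le_of_mul_le_mul_left ?_ (mul_pos hκ x0)
    nlinarith

theorem cut (H : MerH A L ρ d κ C) (y : ℝ) :
    ∑ p ∈ (range ⌈y⌉₊).filter Nat.Prime, (ρ p : ℝ) * Real.log p / p ≤ S ρ y ∧
      S ρ y ≤ ∑ p ∈ (range ⌈y⌉₊).filter Nat.Prime, (ρ p : ℝ) * Real.log p / p + d := by
  have nn : ∀ p : ℕ, 0 ≤ (ρ p : ℝ) * Real.log p / p := fun p => by
    have := Real.log_natCast_nonneg p
    positivity
  refine ⟨sum_le_sum_of_subset_of_nonneg (filter_subset_filter _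
    (range_mono (Nat.ceil_le_floor_add_one y))) fun p _ _ => nn p, ?_⟩
  refine (sum_le_sum_of_subset_of_nonneg (filter_subset_filter _
    (range_mono (Nat.succ_le_succ (Nat.floor_le_ceil y)))) fun p _ _ => nn p).trans ?_
  rw [sum_filter, sum_filter, sum_range_succ]
  gcongr
  split_ifs with hp
  · have p0 : (0 : ℝ) < ⌈y⌉₊ := by exact_mod_cast hp.pos
    rw [div_le_iff₀ p0]
    exact mul_le_mul (by exact_mod_cast H.le _ hp)
      ((Real.log_le_sub_one_of_pos p0).trans (by linarith)) (Real.log_natCast_nonneg _)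
      (Nat.cast_nonneg _)
  · exact Nat.cast_nonneg _

end PMerA

theorem merA : MerA := by
  intro A L ρ d κ C H δ hδ
  have h0 : 0 < min (δ / 7) (1 / 8) := lt_min (by linarith) (by norm_num)
  have h1 := min_le_right (δ / 7) (1 / 8)
  have h2 := min_le_left (δ / 7) (1 / 8)
  generalize min (δ / 7) (1 / 8) = ε at h0 h1 h2
  refine eventually_atTop.1 ?_
  filter_upwards [PMerA.key H h0 h1, eventually_ge_atTop 1,
    Real.tendsto_log_atTop.eventually_ge_atTop (d / ε)] with y h y1 y2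
  have l : 0 ≤ Real.log y := Real.log_nonneg y1
  rw [div_le_iff₀ h0] at y2
  obtain ⟨c1, c2⟩ := PMerA.cut H y
  have hl : 0 ≤ ε * Real.log y := by positivity
  have u : PMerA.S ρ y ≤ (1 + 4 * ε) * Real.log y :=
    le_of_mul_le_mul_left (h.1.trans (by nlinarith)) (by linarith : 0 < 1 - ε)
  have v : (1 - 6 * ε) * Real.log y ≤ PMerA.S ρ y :=
    le_of_mul_le_mul_left (le_trans (by nlinarith) h.2) (by linarith : 0 < 1 + ε)
  have w : 7 * ε * Real.log y ≤ δ * Real.log y := by gcongr; linarith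
  rw [abs_le]
  constructor <;> nlinarith

end Pool.Agent.MP_f3836a_nt.GV.P
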