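import Pool.Agent.MP_f3836a_nt.GV.SpecP
import Pool.Agent.MP_c5bf7b_nt.H98.MRoot

/-! The arithmetic part of the first theorem of Mertens in a number field. -/

set_option autoImplicit false

namespace Pool.Agent.MP_f3836a_nt.GV.P

open Finset Filter Topology NumberField Pool.Agent.MP_c5bf7b_nt.H98

namespace PMerB

variable (K : Type) [Field K] [NumberField K]

open Classical in
/-- the nonzero ideals of bounded norm -/
noncomputable def Fs (y : ℝ) : Finset (Ideal (𝓞 K)) :=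
  (Ideal.finite_setOfPred_absNorm_le (S := 𝓞 K) ⌊y⌋₊).toFinset.filter (· ≠ ⊥)

/-- their number -/
noncomputable def A (y : ℝ) : ℝ := (Fs K y).card

variable {K}

theorem ne0 {I : Ideal (𝓞 K)} (h : I ≠ ⊥) : Ideal.absNorm I ≠ 0 :=
  mt Ideal.absNorm_eq_zero_iff.1 h

theorem one_le {I : Ideal (𝓞 K)} (h : I ≠ ⊥) : (1 : ℝ) ≤ Ideal.absNorm I :=
  Nat.one_le_cast.2 (Nat.pos_of_ne_zero (ne0 h))

theorem mem_Fs {y : ℝ} {I : Ideal (𝓞 K)} : I ∈ Fs K y ↔ I ≠ ⊥ ∧ (Ideal.absNorm I : ℝ) ≤ y := by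
  simp only [Fs, mem_filter, Set.Finite.mem_toFinset, Set.mem_ofPred_eq]
  exact ⟨fun h => ⟨h.2, (Nat.le_floor_iff' (ne0 h.2)).1 h.1⟩,
    fun h => ⟨(Nat.le_floor_iff' (ne0 h.1)).2 h.2, h.1⟩⟩

theorem Fs_mono {x y : ℝ} (h : y ≤ x) : Fs K y ⊆ Fs K x := fun _ hI =>
  mem_Fs.2 ⟨(mem_Fs.1 hI).1, (mem_Fs.1 hI).2.trans h⟩

theorem of_dvd {x : ℝ} {I J : Ideal (𝓞 K)} (hI : I ∈ Fs K x) (h : J ∣ I) : J ∈ Fs K x :=
  mem_Fs.2 ⟨ne_zero_of_dvd_ne_zero (mem_Fs.1 hI).1 h, le_trans (Nat.cast_le.2 (Nat.le_of_dvd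
    (Nat.pos_of_ne_zero (ne0 (mem_Fs.1 hI).1)) (map_dvd Ideal.absNorm h))) (mem_Fs.1 hI).2⟩

variable (K)

theorem A_mono : Monotone (A K) := fun _ _ h => Nat.cast_le.2 (card_le_card (Fs_mono h))

theorem lim : Tendsto (fun y => A K y / y) atTop (𝓝 (dedekindZeta_residue K)) := by
  refine (NumberField.Ideal.tendsto_norm_le_div_atTop₀ K).congr fun y => ?_
  rw [A, ← Nat.card_eq_finsetCard]
  congr 2
  refine Nat.card_congr ((Equiv.subtypeSubtypeEquivSubtypeInter (· ∈ nonZeroDivisors _)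
    fun I : Ideal (𝓞 K) => (Ideal.absNorm I : ℝ) ≤ y).trans (Equiv.subtypeEquivRight fun I => ?_))
  rw [mem_Fs, mem_nonZeroDivisors_iff_ne_zero]
  rfl

theorem lin : ∃ C0 : ℝ, 0 ≤ C0 ∧ ∀ y, 0 ≤ y → A K y ≤ C0 * y := by
  obtain ⟨Y, hY⟩ := eventually_atTop.1 ((lim K).eventually (gt_mem_nhds (lt_add_one _)))
  have k0 := dedekindZeta_residue_pos K
  have a0 : 0 ≤ A K Y := Nat.cast_nonneg _
  refine ⟨dedekindZeta_residue K + 1 + A K Y, by positivity, fun y hy => ?_⟩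
  rcases lt_or_ge y 1 with h1 | h1
  · rw [A, eq_empty_of_forall_notMem fun I hI =>
      ((one_le (mem_Fs.1 hI).1).trans (mem_Fs.1 hI).2).not_gt h1, card_empty, Nat.cast_zero]
    positivity
  · rcases le_total Y y with h2 | h2
    · have := (div_lt_iff₀ (by linarith)).1 (hY y h2)
      nlinarith
    · have := A_mono K h2
      nlinarith

variable {K}

open Classical in
theorem cnt (x : ℝ) {Q : Ideal (𝓞 K)} (hQ : Q ≠ ⊥) :
    (((Fs K x).filter (Q ∣ ·)).card : ℝ) = A K (x / Ideal.absNorm Q) := by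
  have q0 : (0 : ℝ) < Ideal.absNorm Q := zero_lt_one.trans_le (one_le hQ)
  rw [A, ← card_image_of_injective (Fs K (x / _)) (mul_right_injective₀ hQ)]
  congr 2
  ext I
  simp only [mem_filter, mem_image, mem_Fs, le_div_iff₀' q0, ← Nat.cast_mul, ← map_mul]
  constructor
  · rintro ⟨h, J, rfl⟩
    exact ⟨J, ⟨right_ne_zero_of_mul h.1, h.2⟩, rfl⟩
  · rintro ⟨J, h, rfl⟩
    exact ⟨⟨mul_ne_zero hQ h.1, h.2⟩, dvd_mul_right _ _⟩

open Classical in
theorem swap (x : ℝ) (S : Finset (Ideal (𝓞 K))) (g : Ideal (𝓞 K) → ℝ)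
    (Q : Ideal (𝓞 K) → Ideal (𝓞 K)) (hQ : ∀ P ∈ S, Q P ≠ ⊥) :
    ∑ I ∈ Fs K x, ∑ P ∈ S with Q P ∣ I, g P = ∑ P ∈ S, g P * A K (x / Ideal.absNorm (Q P)) := by
  simp only [sum_filter]
  rw [sum_comm]
  refine sum_congr rfl fun P hP => ?_
  rw [← sum_filter, sum_const, nsmul_eq_mul, cnt x (hQ P hP), mul_comm]

theorem log_prod (S : Finset (Ideal (𝓞 K))) (hS : ∀ P ∈ S, P ≠ ⊥) :
    Real.log (Ideal.absNorm (∏ P ∈ S, P)) = ∑ P ∈ S, Real.log (Ideal.absNorm P) := by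
  rw [map_prod, Nat.cast_prod, Real.log_prod fun P hP => Nat.cast_ne_zero.2 (ne0 (hS P hP))]

theorem nb {P : Ideal (𝓞 K)} (h : P.IsMaximal) : P ≠ ⊥ :=
  Ring.ne_bot_of_isMaximal_of_not_isField h (RingOfIntegers.not_isField K)

theorem low {I : Ideal (𝓞 K)} (hI : I ≠ ⊥) (S : Finset (Ideal (𝓞 K)))
    (hS : ∀ P ∈ S, P.IsMaximal ∧ P ∣ I) :
    ∑ P ∈ S, Real.log (Ideal.absNorm P) ≤ Real.log (Ideal.absNorm I) := by
  have h1 : ∏ P ∈ S, P ∣ I := prod_primes_dvd _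
    (fun P hP => Ideal.prime_of_isPrime (nb (hS P hP).1) (hS P hP).1.isPrime) fun P hP => (hS P hP).2
  rw [← log_prod S fun P hP => nb (hS P hP).1]
  exact Real.log_le_log (zero_lt_one.trans_le (one_le (ne_zero_of_dvd_ne_zero hI h1)))
    (Nat.cast_le.2 (Nat.le_of_dvd (Nat.pos_of_ne_zero (ne0 hI)) (map_dvd Ideal.absNorm h1)))

open Classical in
theorem upp {x : ℝ} {I : Ideal (𝓞 K)} (hI : I ∈ Fs K x) : Real.log (Ideal.absNorm I) ≤
    ∑ P ∈ ((Fs K x).filter fun P => P.IsMaximal ∧ (Ideal.absNorm P).Prime) with P ∣ I,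
      Real.log (Ideal.absNorm P) +
    ∑ P ∈ ((Fs K x).filter fun P => P.IsMaximal ∧ ¬(Ideal.absNorm P).Prime) with P ∣ I,
      Real.log (Ideal.absNorm P) +
    ∑ B ∈ Fs K x with B ^ 2 ∣ I, 2 * Real.log (Ideal.absNorm B) := by
  obtain ⟨T, B, hT, hB, e⟩ := MR.DensK.dec K I (mem_Fs.1 hI).1
  have hd : ∀ P ∈ T, P ∣ I := fun P hP => e ▸ (dvd_prod_of_mem _ hP).mul_right _
  have hB2 : B ^ 2 ∣ I := e ▸ dvd_mul_left _ _
  have e1 : Real.log (Ideal.absNorm I) =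
      ∑ P ∈ T, Real.log (Ideal.absNorm P) + 2 * Real.log (Ideal.absNorm B) := by
    rw [← log_prod T fun P hP => nb (hT P hP), e, map_mul, map_pow, Nat.cast_mul, Nat.cast_pow,
      Real.log_mul (Nat.cast_ne_zero.2 (ne0 (prod_ne_zero_iff.2 fun P hP => nb (hT P hP))))
        (pow_ne_zero _ (Nat.cast_ne_zero.2 (ne0 hB))), Real.log_pow, Nat.cast_ofNat]
  rw [e1, ← sum_filter_add_sum_filter_not T fun P => (Ideal.absNorm P).Prime]
  refine add_le_add (add_le_add ?_ ?_) (single_le_sum (f := fun B : Ideal (𝓞 K) =>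
    2 * Real.log (Ideal.absNorm B)) (fun B _ => mul_nonneg zero_le_two (Real.log_natCast_nonneg _))
    (mem_filter.2 ⟨of_dvd hI ((dvd_pow_self B two_ne_zero).trans hB2), hB2⟩))
  all_goals
    refine sum_le_sum_of_subset_of_nonneg (fun P hP => ?_) fun _ _ _ => Real.log_natCast_nonneg _
    obtain ⟨h1, h2⟩ := mem_filter.1 hP
    exact mem_filter.2 ⟨mem_filter.2 ⟨of_dvd hI (hd P h1), hT P h1, h2⟩, hd P h1⟩

open Classical in
theorem fib {x : ℝ} (hx : 1 ≤ x) (g : ℕ → ℝ) :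
    ∑ P ∈ (Fs K x).filter fun P => P.IsMaximal ∧ (Ideal.absNorm P).Prime, g (Ideal.absNorm P) =
      ∑ p ∈ (range (⌊x⌋₊ + 1)).filter Nat.Prime, ((MR.T K p).card : ℝ) * g p := by
  rw [← sum_fiberwise_of_maps_to (t := (range (⌊x⌋₊ + 1)).filter Nat.Prime)
    (g := fun P => Ideal.absNorm P) fun P hP => mem_filter.2 ⟨mem_range.2 (Nat.lt_succ_of_le
      (Nat.le_floor (mem_Fs.1 (mem_filter.1 hP).1).2)), (mem_filter.1 hP).2.2⟩]
  refine sum_congr rfl fun p hp => ?_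
  obtain ⟨h1, h2⟩ := mem_filter.1 hp
  rw [sum_congr rfl (g := fun _ => g p) fun P hP => by rw [(mem_filter.1 hP).2], sum_const,
    nsmul_eq_mul]
  congr 3
  ext P
  simp only [mem_filter, MR.mem_T, mem_Fs]
  refine ⟨fun h => ⟨h.2, h.1.2.1⟩, fun h => ⟨⟨⟨nb h.2, ?_⟩, h.2, h.1 ▸ h2⟩, h.1⟩⟩
  rw [h.1]
  exact (Nat.le_floor_iff (by linarith)).1 (Nat.lt_succ_iff.1 (mem_range.1 h1))

end PMerB

open PMerB in
theorem merB : MerC → MerB := by
  intro hC K _ _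
  classical
  obtain ⟨C, c1, c2⟩ := hC K
  obtain ⟨C0, k0, hA⟩ := lin K
  refine ⟨A K, fun x => ∑ I ∈ Fs K x, Real.log (Ideal.absNorm I), fun p => (MR.T K p).card,
    Module.finrank ℤ (𝓞 K), dedekindZeta_residue K, 3 * C0 * C,
    ⟨dedekindZeta_residue_pos K, fun p hp => MR.T_le K hp, lim K, A_mono K,
      fun _ => Nat.cast_nonneg _, fun x y h1 h2 => ?_, fun x hx => ?_, fun x hx => ?_⟩,
    fun p hp h => ?_⟩
  · rw [A, A, ← Nat.cast_sub (card_le_card (Fs_mono h2)), ← card_sdiff_of_subset (Fs_mono h2),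
      ← nsmul_eq_mul]
    refine (card_nsmul_le_sum _ (fun I : Ideal (𝓞 K) => Real.log (Ideal.absNorm I)) _
      fun I hI => ?_).trans
      (sum_le_sum_of_subset_of_nonneg sdiff_subset fun _ _ _ => Real.log_natCast_nonneg _)
    obtain ⟨h3, h4⟩ := mem_sdiff.1 hI
    exact Real.log_le_log (by linarith)
      (not_le.1 fun c => h4 (mem_Fs.2 ⟨(mem_Fs.1 h3).1, c⟩)).le
  · rw [A, ← nsmul_eq_mul]
    exact sum_le_card_nsmul _ _ _ fun I hI =>
      Real.log_le_log (zero_lt_one.trans_le (one_le (mem_Fs.1 hI).1)) (mem_Fs.1 hI).2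
  · have e0 := fib (K := K) hx fun p => Real.log p * A K (x / p)
    have e1 := swap x ((Fs K x).filter fun P => P.IsMaximal ∧ (Ideal.absNorm P).Prime)
      (fun P => Real.log (Ideal.absNorm P)) id fun P hP => nb (mem_filter.1 hP).2.1
    have e2 := swap x ((Fs K x).filter fun P => P.IsMaximal ∧ ¬(Ideal.absNorm P).Prime)
      (fun P => Real.log (Ideal.absNorm P)) id fun P hP => nb (mem_filter.1 hP).2.1
    have e3 := swap x (Fs K x) (fun B => 2 * Real.log (Ideal.absNorm B)) (· ^ 2)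
      fun P hP => pow_ne_zero _ (mem_Fs.1 hP).1
    have u := sum_le_sum fun I (hI : I ∈ Fs K x) => upp hI
    have l := sum_le_sum fun I (hI : I ∈ Fs K x) => low (mem_Fs.1 hI).1
      (((Fs K x).filter fun P => P.IsMaximal ∧ (Ideal.absNorm P).Prime).filter (· ∣ I))
      fun P hP => ⟨(mem_filter.1 (mem_filter.1 hP).1).2.1, (mem_filter.1 hP).2⟩
    have x0 : 0 ≤ C0 * x := mul_nonneg k0 (by linarith)
    have b2 := mul_le_mul_of_nonneg_left (c2 ((Fs K x).filter fun P =>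
      P.IsMaximal ∧ ¬(Ideal.absNorm P).Prime) fun P hP => (mem_filter.1 hP).2) x0
    have b3 := mul_le_mul_of_nonneg_left (c1 (Fs K x) fun P hP => (mem_Fs.1 hP).1) x0
    have C1 := mul_le_mul_of_nonneg_left (c1 ∅ (by simp)) x0
    have d2 : ∑ P ∈ (Fs K x).filter fun P => P.IsMaximal ∧ ¬(Ideal.absNorm P).Prime,
        Real.log (Ideal.absNorm P) * A K (x / Ideal.absNorm P) ≤ C0 * x * C := by
      refine le_trans ?_ b2
      rw [mul_sum]
      refine sum_le_sum fun P _ => (mul_le_mul_of_nonneg_left (hA _ (div_nonneg (by linarith)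
        (Nat.cast_nonneg _))) (Real.log_natCast_nonneg _)).trans_eq ?_
      ring
    have d3 : ∑ B ∈ Fs K x, 2 * Real.log (Ideal.absNorm B) * A K (x / Ideal.absNorm (B ^ 2)) ≤
        2 * (C0 * x * C) := by
      refine le_trans ?_ (mul_le_mul_of_nonneg_left b3 zero_le_two)
      rw [mul_sum, mul_sum]
      refine sum_le_sum fun P _ => (mul_le_mul_of_nonneg_left (hA _ (div_nonneg (by linarith)
        (Nat.cast_nonneg _))) (mul_nonneg zero_le_two (Real.log_natCast_nonneg _))).trans_eq ?_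
      rw [map_pow, Nat.cast_pow]
      ring
    simp only [id] at e1 e2
    simp only [mul_assoc]
    rw [sum_add_distrib, sum_add_distrib, e1, e2, e3, e0] at u
    rw [e1, e0] at l
    rw [sum_empty, mul_zero] at C1
    rw [abs_le]
    constructor <;> linarith
  · obtain ⟨P, hP⟩ := card_ne_zero.1 h
    have hc : Nat.card (𝓞 K ⧸ P) = p := by
      rw [← ((MR.mem_T K).1 hP).1, Ideal.absNorm_apply, Submodule.cardQuot_apply]
    have : Finite (𝓞 K ⧸ P) := Nat.finite_of_card_ne_zero (hc ▸ hp.ne_zero)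
    have := Fintype.ofFinite (𝓞 K ⧸ P)
    exact ⟨(ZMod.ringEquivOfPrime _ hp (Nat.card_eq_fintype_card.symm.trans hc)).symm.toRingHom.comp
      (Ideal.Quotient.mk P)⟩

end Pool.Agent.MP_f3836a_nt.GV.P
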