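import Pool.Agent.MP_f3836a_nt.GV.SpecP
import Pool.Agent.MP_c5bf7b_nt.H98.MRootA

/-! Block P: two convergent sums over ideals. -/

set_option autoImplicit false

namespace Pool.Agent.MP_f3836a_nt.GV.P

open NumberField Filter Topology Pool.Agent.MP_c5bf7b_nt.H98.MR

namespace PMerC

theorem log_div {t a : ℝ} (ht : 0 < t) (ha : 0 < a) (n : ℕ) :
    Real.log t / t ^ n ≤ a⁻¹ * t ^ (a - n) := by
  rw [Real.rpow_sub ht, Real.rpow_natCast, ← mul_div_assoc, inv_mul_eq_div]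
  exact div_le_div_of_nonneg_right (Real.log_le_rpow_div ht.le ha) (by positivity)

variable (K : Type) [Field K] [NumberField K]

theorem fst : ∃ C : ℝ, ∀ S : Finset (Ideal (𝓞 K)), (∀ B ∈ S, B ≠ ⊥) →
    ∑ B ∈ S, Real.log (Ideal.absNorm B) / (Ideal.absNorm B : ℝ) ^ 2 ≤ C := by
  obtain ⟨R, -, hR⟩ := DensU.ev_le K
  obtain ⟨x, h0, h1⟩ := (hR.and (Ioc_mem_nhdsGT (show (1 : ℝ) < 3 / 2 by norm_num))).exists
  refine ⟨2 * (R / (x - 1)), fun S hS => ?_⟩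
  refine le_trans ?_ (mul_le_mul_of_nonneg_left (h0 S hS) zero_le_two)
  rw [Finset.mul_sum]
  refine Finset.sum_le_sum fun B hB => ?_
  have n1 : (1 : ℝ) ≤ Ideal.absNorm B :=
    Nat.one_le_cast.2 (Nat.pos_of_ne_zero (mt Ideal.absNorm_eq_zero_iff.1 (hS B hB)))
  refine (log_div (a := 2⁻¹) (by linarith) (by norm_num) 2).trans ?_
  rw [inv_inv]
  refine mul_le_mul_of_nonneg_left (Real.rpow_le_rpow_of_exponent_le n1 ?_) zero_le_two
  push_cast
  linarith [h1.2]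

theorem snd : ∃ C : ℝ, ∀ S : Finset (Ideal (𝓞 K)),
    (∀ P ∈ S, P.IsMaximal ∧ ¬(Ideal.absNorm P).Prime) →
    ∑ P ∈ S, Real.log (Ideal.absNorm P) / (Ideal.absNorm P : ℝ) ≤ C := by
  classical
  have hs : Summable fun n : ℕ => 4 * (n : ℝ) ^ (-(3 / 2) : ℝ) :=
    (Real.summable_nat_rpow.2 (by norm_num)).mul_left 4
  refine ⟨Module.finrank ℤ (𝓞 K) * ∑' n : ℕ, 4 * (n : ℝ) ^ (-(3 / 2) : ℝ), fun S hS => ?_⟩
  have h1 : ∀ P : Ideal (𝓞 K), P ∈ S → ∃ p : ℕ, p.Prime ∧ (p : 𝓞 K) ∈ P ∧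
      p ^ 2 ≤ Ideal.absNorm P := fun P hP => by
    have := (hS P hP).1
    obtain ⟨p, n, n0, h2, h3, h4⟩ := Ideal.exists_prime_and_absNorm_eq_pow P
    refine ⟨p, h3, h2, h4 ▸ Nat.pow_le_pow_right h3.pos ?_⟩
    by_contra c
    obtain rfl : n = 1 := by omega
    exact (hS P hP).2 (by rwa [h4, pow_one])
  choose! π h2 h3 h4 using h1
  rw [← Finset.sum_fiberwise_of_maps_to (g := π) (fun I hI => Finset.mem_image_of_mem _ hI)]
  refine le_trans (Finset.sum_le_sum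
    (g := fun p : ℕ => Module.finrank ℤ (𝓞 K) * (4 * (p : ℝ) ^ (-(3 / 2) : ℝ))) fun p hp => ?_) ?_
  · obtain ⟨Q, hQ, rfl⟩ := Finset.mem_image.1 hp
    have q0 : (0 : ℝ) < π Q := Nat.cast_pos.2 (h2 Q hQ).pos
    refine (Finset.sum_le_card_nsmul _ _ (4 * (π Q : ℝ) ^ (-(3 / 2) : ℝ)) fun P hP => ?_).trans ?_
    · obtain ⟨hP, e⟩ := Finset.mem_filter.1 hP
      have h5 : (π Q : ℝ) ^ 2 ≤ Ideal.absNorm P := by exact_mod_cast e ▸ h4 P hP
      have h6 : (0 : ℝ) < (π Q : ℝ) ^ 2 := by positivity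
      have h7 := log_div (a := 4⁻¹) (h6.trans_le h5) (by norm_num) 1
      rw [pow_one, inv_inv] at h7
      refine h7.trans (mul_le_mul_of_nonneg_left ?_ (by norm_num))
      refine (Real.rpow_le_rpow_of_nonpos h6 h5 (by norm_num)).trans (le_of_eq ?_)
      rw [← Real.rpow_natCast, ← Real.rpow_mul q0.le]
      norm_num
    · rw [nsmul_eq_mul]
      refine mul_le_mul_of_nonneg_right (Nat.cast_le.2 (DensK.card_le K (h2 Q hQ) _
        fun P hP => ?_)) (by positivity)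
      obtain ⟨hP, e⟩ := Finset.mem_filter.1 hP
      exact ⟨(hS P hP).1, e ▸ h3 P hP, e ▸ (Nat.le_self_pow two_ne_zero _).trans (h4 P hP)⟩
  · rw [← Finset.mul_sum]
    exact mul_le_mul_of_nonneg_left (hs.sum_le_tsum _ fun _ _ => by positivity) (by positivity)

end PMerC

theorem merC : MerC := fun K _ _ =>
  let ⟨C, h⟩ := PMerC.fst K
  let ⟨C', h'⟩ := PMerC.snd K
  ⟨max C C', fun S hS => (h S hS).trans (le_max_left _ _),
    fun S hS => (h' S hS).trans (le_max_right _ _)⟩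

end Pool.Agent.MP_f3836a_nt.GV.P
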