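import Pool.Agent.MP_f3836a_nt.GV.SpecP

/-! Row PMz: zeros with multiplicity. -/

set_option autoImplicit false

namespace Pool.Agent.MP_f3836a_nt.GV.P

open Finset

namespace PMz

variable {F P : Type} [Field F] [CommRing P] [Algebra F P] (D : Derivation F P P) (φ : P →ₐ[F] F)

/-- the value of the `k`-th derivative -/
noncomputable def lam (k : ℕ) : P →ₗ[F] F := φ.toLinearMap ∘ₗ (D.toLinearMap ^ k : Module.End F P)

theorem lam_eq (k : ℕ) (f : P) : lam D φ k f = φ (D^[k] f) :=
  congrArg φ (Module.End.pow_apply _ k f)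

theorem lam_succ (k : ℕ) (f : P) : lam D φ (k + 1) f = lam D φ k (D f) := by
  rw [lam_eq, lam_eq, Function.iterate_succ_apply]

variable {D φ}

theorem mul {j : ℕ} {f : P} (h : ∀ k < j, lam D φ k f = 0) (g : P) :
    ∀ k < j, lam D φ k (f * g) = 0 := by
  induction j generalizing f g with
  | zero => simp
  | succ j ih =>
    intro k hk
    cases k with
    | zero =>
      have := h 0 hk
      rw [lam_eq, Function.iterate_zero_apply] at this ⊢
      rw [map_mul, this, zero_mul]
    | succ k =>
      rw [lam_succ, Derivation.leibniz, map_add, smul_eq_mul, smul_eq_mul, mul_comm g,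
        ih (fun i hi => h i (by omega)) _ k (by omega),
        ih (fun i hi => lam_succ D φ i f ▸ h (i + 1) (by omega)) _ k (by omega), add_zero]

theorem pow {s : P} (h : φ s = 0) (j : ℕ) : ∀ k < j, lam D φ k (s ^ j) = 0 := by
  induction j with
  | zero => simp
  | succ j ih =>
    intro k hk
    cases k with
    | zero => simp [lam_eq, h]
    | succ k =>
      rw [lam_succ, Derivation.leibniz_pow, Nat.add_sub_cancel, map_nsmul, smul_eq_mul,
        mul ih _ k (by omega), smul_zero]

theorem top {s : P} (h : φ s = 0) (k : ℕ) (g : P) :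
    lam D φ k (s ^ k * g) = k.factorial * φ (D s) ^ k * φ g := by
  induction k generalizing g with
  | zero => simp [lam_eq]
  | succ k ih =>
    rw [lam_succ, Derivation.leibniz, map_add, smul_eq_mul, mul (pow h _) _ k k.lt_succ_self,
      Derivation.leibniz_pow, Nat.add_sub_cancel, smul_comm, map_nsmul, smul_eq_mul, smul_eq_mul,
      mul_left_comm, ih, map_mul, Nat.factorial_succ]
    push_cast
    ring

end PMz

open PMz in
theorem mzX : MzX := by
  intro F P ι _ _ _ D ξ χ Φ V Z φ M hV hχ hg hi hZ
  classical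
  have h1 : ∀ z : Z, ∃ u, φ z u ≠ 0 ∧ ∀ z' : Z, z' ≠ z → φ z' u = 0 := fun z => by
    have : ∀ z' : Z, ∃ a, z' ≠ z → φ z a ≠ 0 ∧ φ z' a = 0 := fun z' => by
      by_cases e : z' = z
      · exact ⟨0, fun h => absurd e h⟩
      · obtain ⟨t, ht⟩ := DFunLike.ne_iff.1 fun h => e (Subtype.ext (hi z'.2 z.2 h))
        exact ⟨t - algebraMap F P (φ z' t), fun _ => by simpa [sub_eq_zero] using ht.symm⟩
    choose a ha using this
    refine ⟨∏ z' ∈ univ.erase z, a z', ?_, fun z' h => ?_⟩
    · rw [map_prod]
      exact prod_ne_zero_iff.2 fun z' h => (ha z' (ne_of_mem_erase h)).1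
    · rw [map_prod]
      exact prod_eq_zero (mem_erase.2 ⟨h, mem_univ _⟩) (ha z' h).2
  choose u hu hu' using h1
  choose g hgV hg using fun i : Z × Fin M =>
    hg ((ξ - algebraMap F P (φ i.1 ξ)) ^ (i.2 : ℕ) * u i.1 ^ M)
  have hs : ∀ z : Z, φ z (ξ - algebraMap F P (φ z ξ)) = 0 := fun z => by simp
  have h2 : ∀ (z : Z) (k : Fin M) i, lam D (φ z) k (g i) =
      lam D (φ z) k ((ξ - algebraMap F P (φ i.1 ξ)) ^ (i.2 : ℕ) * u i.1 ^ M) := fun z k i => by
    obtain ⟨a, b, e⟩ := hg i
    rw [e, map_add, map_add, mul_comm a, mul_comm b,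
      mul (j := M) (fun k _ => ?_) a k k.2,
      mul (fun k hk => (lam_eq ..).trans ((hZ z z.2).2 k hk).2) b k k.2, add_zero, add_zero]
    cases k with
    | zero => exact (hZ z z.2).1
    | succ k => rw [lam_succ, hχ, map_zero]
  have h3 : LinearIndependent F fun i => (⟨g i, hgV i⟩ : V) := by
    refine LinearIndependent.of_comp V.subtype (Fintype.linearIndependent_iff.2 fun c hc => ?_)
    rintro ⟨z, k⟩
    induction k using WellFoundedLT.induction with
    | ind k ih =>
      have e := congrArg (lam D (φ z) k) hc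
      simp only [map_sum, map_smul, map_zero, Function.comp_apply, Submodule.subtype_apply, h2,
        smul_eq_mul] at e
      rw [sum_eq_single (z, k) ?_ (by simp), top (hs z), map_sub, Derivation.map_algebraMap,
        sub_zero, map_pow] at e
      · exact (mul_eq_zero.1 e).resolve_right
          (mul_ne_zero ((hZ z z.2).2 k k.2).1 (pow_ne_zero _ (hu z)))
      rintro ⟨z', k'⟩ - h
      by_cases e1 : z = z'
      · subst e1
        rcases lt_trichotomy k' k with e2 | rfl | e2
        · rw [ih k' e2, zero_mul]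
        · exact absurd rfl h
        · rw [mul (pow (hs z) _) _ k e2, mul_zero]
      · rw [mul_comm (_ ^ _), mul (pow (hu' z' z e1) _) _ k k.2, mul_zero]
  simpa [mul_comm] using h3.fintype_card_le_finrank

end Pool.Agent.MP_f3836a_nt.GV.P
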