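import Pool.Agent.MP_f3836a_nt.GV.SpecP

/-! Block P: the quotient by the curve and a function, and the count of zeros. -/

set_option autoImplicit false

namespace Pool.Agent.MP_f3836a_nt.GV.P

open Polynomial

theorem quoX (hA : KitA) (hB : KitB) : QuoX := by
  intro F _ N m d χ Φ hN hm hc hχ hΦ
  obtain ⟨-, h2, h3⟩ := hA F N m hN hm hc
  refine ⟨Vr F N m (d + N * m), (h3 _).1, (h3 _).2, fun f => ?_⟩
  obtain ⟨w, hw⟩ := exists_wt N m f
  have hm1 := hχ.monic hN
  have hdeg : ∀ g : F[X][X], (g %ₘ χ).degree < N := fun g => by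
    have := degree_modByMonic_lt g hm1.1
    rwa [degree_eq_natDegree hm1.1.ne_zero, hm1.2] at this
  induction w generalizing f with
  | zero => exact ⟨0, zero_mem _, 0, 0, by simp [hw.eq_zero]⟩
  | succ w ih =>
    by_cases hle : w + 1 ≤ d + N * m
    · refine ⟨f %ₘ χ, ⟨hdeg f, (hB F N m w χ f hN hm hc hχ hw).1.mono hle⟩, f /ₘ χ, 0, ?_⟩
      have := modByMonic_add_div f χ
      linear_combination -this
    · obtain ⟨j, i, hji⟩ := Nat.exists_add_mul_eq_of_gcd_dvd_of_mul_pred_le N m (w - d)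
        (by simp [hc.gcd_eq_one])
        ((Nat.mul_le_mul (Nat.pred_le N) (Nat.pred_le m)).trans (by omega))
      have hw' : w = d + (j * N + i * m) := by omega
      set c := (Tm N m f).coeff w / (Tm N m Φ).coeff d with hc0
      set q : F[X][X] := monomial i (monomial j c) with hq0
      have hq : Wt N m (w + 1) (q * Φ) := by
        have := (Wt.mon (N := N) (m := m) i j c).mul hΦ.1
        rwa [show j * N + i * m + (d + 1) = w + 1 by omega] at this
      have hf1 : Wt N m (w + 1) (f - q * Φ) := hw.sub hq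
      have ht : (Tm N m (f - q * Φ)).coeff w = 0 := by
        rw [map_sub, map_mul, hq0, Tm_mon, coeff_sub]
        conv_lhs => rw [hw', coeff_monomial_mul, ← hw']
        rw [hc0, div_mul_cancel₀ _ hΦ.2, sub_self]
      obtain ⟨k1, k2⟩ := hB F N m w χ _ hN hm hc hχ hf1
      obtain ⟨g, hg, u, v, e⟩ := ih _ (h2 w _ (hdeg _) k1 (k2.trans ht))
      refine ⟨g, hg, u + (f - q * Φ) /ₘ χ, v + q, ?_⟩
      have := modByMonic_add_div (f - q * Φ) χ
      linear_combination e - this

theorem zerX (hA : KitA) (hQ : QuoX) (hM : MzX) : ZerX := by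
  classical
  intro F _ N m d χ b Z hN hm hc hχ hb hbN hw hZ
  obtain ⟨-, h2, -⟩ := hA F N m hN hm hc
  have hex : ∃ e, Wt N m (e + 1) b := ⟨d, hw.mono (Nat.le_succ d)⟩
  have hle : Nat.find hex ≤ d := Nat.find_min' hex (hw.mono (Nat.le_succ d))
  have htop : Top N m (Nat.find hex) b := by
    refine ⟨Nat.find_spec hex, fun h0 => ?_⟩
    have h := h2 _ b (by rw [degree_eq_natDegree hb]; exact_mod_cast hbN) (Nat.find_spec hex) h0
    rcases hk : Nat.find hex with _ | k
    · rw [hk] at h
      exact hb h.eq_zero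
    · rw [hk] at h
      exact Nat.find_min hex (by omega : k < Nat.find hex) h
  obtain ⟨V, hV, hr, hq⟩ := hQ F N m _ χ b hN hm hc hχ htop
  have key := hM F F[X][X] (F × F) 0 0 χ b V Z (fun z => aevalAeval z.1 z.2) 1 hV (by simp) hq
    (fun z _ z' _ h => by
      have h1 := congrArg (fun φ : F[X][X] →ₐ[F] F => φ (C X)) h
      have h2 := congrArg (fun φ : F[X][X] →ₐ[F] F => φ X) h
      simp only [aevalAeval_X, aevalAeval_Y] at h1 h2
      exact Prod.ext h1 h2)
    (fun z hz => by
      simp only [coe_aevalAeval_eq_evalEval]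
      refine ⟨(hZ z hz).1, fun k hk => ?_⟩
      obtain rfl : k = 0 := by omega
      exact ⟨by simp, (hZ z hz).2⟩)
  omega

end Pool.Agent.MP_f3836a_nt.GV.P
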