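import Pool.Agent.MP_f3836a_nt.GV.SpecP

/-! Many rational points on a plane curve over a prime field. -/

set_option autoImplicit false

namespace Pool.Agent.MP_f3836a_nt.GV.P

open Polynomial Finset

namespace PStep

variable {F : Type} [Field F]

theorem fib [DecidableEq F] [IsAlgClosed F] {q : F[X]} (hm : q.Monic)
    (h : ∀ y, q.eval y = 0 → (derivative q).eval y ≠ 0) : q.roots.toFinset.card = q.natDegree := by
  rw [Multiset.toFinset_card_of_nodup, IsAlgClosed.card_roots_eq_natDegree]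
  refine Multiset.nodup_iff_count_le_one.2 fun y => not_lt.1 fun e => ?_
  rw [count_roots, one_lt_rootMultiplicity_iff_isRoot hm.ne_zero] at e
  exact h y e.1 e.2

theorem good [IsAlgClosed F] {χ : F[X][X]} (hm : χ.Monic) (T : Finset F) (B : ℕ)
    (hB : ∀ Z : Finset (F × F), (∀ z ∈ Z, χ.evalEval z.1 z.2 = 0 ∧
      (derivative χ).evalEval z.1 z.2 = 0) → Z.card ≤ B) :
    ∃ G : Finset (F × F), χ.natDegree * T.card ≤ G.card + χ.natDegree * B ∧
      ∀ z ∈ G, z.1 ∈ T ∧ χ.evalEval z.1 z.2 = 0 ∧ (derivative χ).evalEval z.1 z.2 ≠ 0 := by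
  classical
  have hr : ∀ τ y, y ∈ (χ.map (evalRingHom τ)).roots.toFinset ↔ χ.evalEval τ y = 0 := fun τ y => by
    rw [Multiset.mem_toFinset, mem_roots (hm.map _).ne_zero, IsRoot, map_evalRingHom_eval]
  obtain ⟨Pt, hP⟩ : ∃ Pt : Finset (F × F), ∀ z, z ∈ Pt ↔ z.1 ∈ T ∧ χ.evalEval z.1 z.2 = 0 :=
    ⟨(T ×ˢ T.biUnion fun τ => (χ.map (evalRingHom τ)).roots.toFinset).filter
      fun z => χ.evalEval z.1 z.2 = 0, fun z => by
        rw [mem_filter, mem_product, mem_biUnion]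
        exact ⟨fun h => ⟨h.1.1, h.2⟩, fun h => ⟨⟨h.1, z.1, h.1, (hr _ _).2 h.2⟩, h.2⟩⟩⟩
  let Bad := (Pt.filter fun z => (derivative χ).evalEval z.1 z.2 = 0).image Prod.fst
  have h1 : Bad.card ≤ B := card_image_le.trans (hB _ fun z hz =>
    ⟨((hP z).1 (mem_filter.1 hz).1).2, (mem_filter.1 hz).2⟩)
  have h2 : ∀ τ ∈ T \ Bad, ∀ y, χ.evalEval τ y = 0 → (derivative χ).evalEval τ y ≠ 0 :=
    fun τ h y a b => (mem_sdiff.1 h).2 (mem_image.2
      ⟨(τ, y), mem_filter.2 ⟨(hP _).2 ⟨(mem_sdiff.1 h).1, a⟩, b⟩, rfl⟩)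
  refine ⟨Pt.filter fun z => z.1 ∈ T \ Bad, ?_, fun z hz => ?_⟩
  · have h3 := mul_card_image_le_card_of_maps_to (s := Pt.filter fun z => z.1 ∈ T \ Bad)
      (f := Prod.fst) (fun z hz => (mem_filter.1 hz).2) χ.natDegree fun τ h => by
        rw [← hm.natDegree_map (evalRingHom τ), ← fib (hm.map _) fun y a => by
          rw [derivative_map, map_evalRingHom_eval]
          exact h2 τ h y (by rwa [map_evalRingHom_eval] at a)]
        exact card_le_card_of_injOn (fun y => (τ, y)) (fun y hy => mem_filter.2 ⟨mem_filter.2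
          ⟨(hP _).2 ⟨(mem_sdiff.1 h).1, (hr _ _).1 hy⟩, h⟩, rfl⟩) fun _ _ _ _ e => congrArg Prod.snd e
    have h4 : T.card ≤ (T \ Bad).card + B := (card_le_card_sdiff_add_card (t := Bad)).trans (by omega)
    exact (Nat.mul_le_mul_left _ h4).trans (by rw [mul_add]; omega)
  · have := (hP z).1 (mem_filter.1 hz).1
    exact ⟨this.1, this.2, h2 _ (mem_filter.1 hz).2 _ this.2⟩

end PStep

open PStep

theorem stepX : AuxX → DerX → QuoX → MzX → ZerX → StepX := by
  classical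
  intro hA hD hQ hM hZ N m hN hm hc
  obtain ⟨p0, hp0⟩ := hA N m hN hm hc
  refine ⟨p0 + 4 * (N * (N * m + 1 + N * m)) + 4 * N * m + N + 2, fun p hp hle χ₀ c₀ => ?_⟩
  have := Fact.mk hp
  let F := AlgebraicClosure (ZMod p)
  let a := algebraMap (ZMod p) F
  have ha : ∀ x, a x ^ p = a x := fun x => by rw [← map_pow, ZMod.pow_card]
  have hb : ∀ y : F, y ^ p = y → ∃ x, a x = y := fun y e => by
    obtain ⟨n, rfl⟩ := (mem_bot_iff_intCast p F).1 ((Subfield.mem_bot_iff_pow_eq_self F p).2 e)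
    exact ⟨n, map_intCast a n⟩
  have hn : ∀ n : ℕ, 0 < n → n < p → (n : F) ≠ 0 := fun n n0 h e =>
    (Nat.le_of_dvd n0 ((CharP.cast_eq_zero_iff F p n).1 e)).not_gt h
  obtain ⟨χ, hχ⟩ : ∃ χ, χ = χ₀.map (mapRingHom a) := ⟨_, rfl⟩
  have c : Cab N m χ := hχ ▸ c₀.map a
  obtain ⟨c1, c2⟩ := c.monic hN
  have d0 : derivative χ ≠ 0 := fun e => by
    have := coeff_derivative χ (N - 1)
    rw [e, ← Nat.cast_succ, Nat.succ_eq_add_one, Nat.sub_add_cancel hN, ← c2, c1.coeff_natDegree,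
      c2, one_mul, coeff_zero, ← C_eq_natCast, eq_comm, C_eq_zero] at this
    exact hn N hN (by omega) this
  obtain ⟨G, g1, g2⟩ := good c1 (univ.image a) _ fun Z h => hZ F N m _ χ _ Z hN hm hc c d0
    (c2 ▸ natDegree_derivative_lt (by omega)) c.wt.deriv h
  rw [card_image_of_injective _ a.injective, card_univ, ZMod.card, c2] at g1
  have g3 : ∀ z ∈ G, z.1 ^ p = z.1 := fun z hz => by
    obtain ⟨x, -, e⟩ := mem_image.1 (g2 z hz).1
    rw [← e, ha]
  obtain ⟨D, D1, D2, D3⟩ := hD F N m χ c.wt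
  obtain ⟨Φ, d, t1, t2, t3⟩ := hp0 F p χ D hp (by omega) c D3
  obtain ⟨V, v1, v2, v3⟩ := hQ F N m d χ Φ hN hm hc c t1
  have hf : χ.map (mapRingHom (frobenius F p)) = χ := by
    rw [hχ, Polynomial.map_map, mapRingHom_comp, RingHom.ext_zmod ((frobenius F p).comp a) a]
  have m2 := hM F _ _ D (C X) χ Φ V (G.filter fun z => ¬z.2 ^ p = z.2)
    (fun z => aevalAeval z.1 z.2) (4 * N * m) v1 D1 v3
    (fun z _ w _ e => Prod.ext (by simpa using DFunLike.congr_fun e (C X))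
      (by simpa using DFunLike.congr_fun e X)) fun z hz => by
      obtain ⟨z1, z2⟩ := mem_filter.1 hz
      rw [coe_aevalAeval_eq_evalEval, D2]
      refine ⟨(g2 z z1).2.1, fun k hk => ⟨mul_ne_zero (fun e => ?_) (pow_ne_zero _ (g2 z z1).2.2),
        t3 _ _ (g2 z z1).2.1 (g3 z z1) ?_ z2 k hk⟩⟩
      · have := hp.dvd_factorial.1 ((CharP.cast_eq_zero_iff F p _).1 e)
        omega
      · have := map_mapRingHom_evalEval (frobenius F p) χ z.1 z.2
        rwa [hf, (g2 z z1).2.1, map_zero, frobenius_def, frobenius_def, g3 z z1] at this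
  refine ⟨univ.filter fun z => χ₀.evalEval z.1 z.2 = 0, ?_, fun z hz => (mem_filter.1 hz).2⟩
  have m1 : (G.filter fun z => z.2 ^ p = z.2).card ≤
      (univ.filter fun z : ZMod p × ZMod p => χ₀.evalEval z.1 z.2 = 0).card := by
    refine (card_le_card fun z hz => ?_).trans (card_image_le (f := Prod.map a a))
    obtain ⟨z1, z2⟩ := mem_filter.1 hz
    obtain ⟨x, e⟩ := hb _ (g3 z z1)
    obtain ⟨y, e'⟩ := hb _ z2
    refine mem_image.2 ⟨(x, y), mem_filter.2 ⟨mem_univ _, a.injective ?_⟩, Prod.ext e e'⟩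
    rw [← map_mapRingHom_evalEval, ← hχ, e, e', (g2 z z1).2.1, map_zero]
  have m3 := card_filter_add_card_filter_not (s := G) fun z => z.2 ^ p = z.2
  obtain ⟨n, rfl⟩ := Nat.exists_eq_add_one_of_ne_zero hN.ne'
  have m4 : (n + 1) * m * (4 * (G.filter fun z => ¬z.2 ^ p = z.2).card) ≤
      (n + 1) * m * (4 * (n * p) + p + 1) := by
    rw [Nat.add_sub_cancel] at t2
    linarith
  have m5 := Nat.le_of_mul_le_mul_left m4 (by positivity)
  rw [add_one_mul] at g1
  omega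

end Pool.Agent.MP_f3836a_nt.GV.P
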