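import Pool.Agent.MP_f3836a_nt.GV.RApi
import Pool.Agent.MP_f3836a_nt.GV.PAp
import Pool.Agent.MP_f3836a_nt.GV.PAux
import Pool.Agent.MP_f3836a_nt.GV.PCab
import Pool.Agent.MP_f3836a_nt.GV.PClr
import Pool.Agent.MP_f3836a_nt.GV.PCnt
import Pool.Agent.MP_f3836a_nt.GV.PDer
import Pool.Agent.MP_f3836a_nt.GV.PFin
import Pool.Agent.MP_f3836a_nt.GV.PFld
import Pool.Agent.MP_f3836a_nt.GV.PKitA
import Pool.Agent.MP_f3836a_nt.GV.PKitB
import Pool.Agent.MP_f3836a_nt.GV.PLt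
import Pool.Agent.MP_f3836a_nt.GV.PMerA
import Pool.Agent.MP_f3836a_nt.GV.PMerB
import Pool.Agent.MP_f3836a_nt.GV.PMerC
import Pool.Agent.MP_f3836a_nt.GV.PMz
import Pool.Agent.MP_f3836a_nt.GV.PQuo
import Pool.Agent.MP_f3836a_nt.GV.PStep

/-! Block P: supply of totally split fibres. -/

set_option autoImplicit false

namespace Pool.Agent.MP_f3836a_nt.GV

open Polynomial NumberField P

namespace P

theorem zer : ZerX := zerX kitA (quoX kitA (kitB kitA)) mzX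

/-- a plane curve with one point at infinity has at least `p / 2` points modulo `p` -/
theorem step : StepX := stepX (auxX kitA (kitB kitA)) derX (quoX kitA (kitB kitA)) mzX zer

theorem mod_eq {A R : Type} [CommRing A] [CommRing R] {χ : A[X]} (φ : A[X] →+* R) (h : φ χ = 0)
    (f : A[X]) : φ (f %ₘ χ) = φ f := by
  rw [modByMonic_eq_sub_mul_div, map_sub, map_mul, h, zero_mul, sub_zero]

end P

theorem ptsX : ModP → PtsX := by
  intro hM n r _ T t1 hn ok _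
  obtain ⟨F, _, _, x, tr, fd, s, hs, hdet⟩ := fldX n T ok.rng ok.sep
  obtain ⟨K, _, _, 𝒜, _, _, S, μ, Ω, _, ι, j, fm, jinj, rat⟩ := hM F x tr fd
  obtain ⟨N, m, χ, e0, hN, hm, cop, cab, z0, ind, rat0⟩ := cabX apX ltX (𝓞 K) 𝒜 S μ fm
  let e := j.comp e0
  have ez : ∀ f, e f = 0 ↔ e0 f = 0 := fun f => map_eq_zero_iff j jinj
  have rat' : ∀ f : F, ∃ a b, e b ≠ 0 ∧ ι f * e b = e a := fun f => by
    obtain ⟨a, b, hb, h⟩ := rat f
    obtain ⟨f1, g1, n1, h1⟩ := rat0 a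
    obtain ⟨f2, g2, n2, h2⟩ := rat0 b
    have k1 : j a * e g1 = e f1 := (map_mul j _ _).symm.trans (congrArg j h1)
    have k2 : j b * e g2 = e f2 := (map_mul j _ _).symm.trans (congrArg j h2)
    refine ⟨f1 * g2, f2 * g1, ?_, ?_⟩
    · rw [map_mul, ← k2]
      exact mul_ne_zero (mul_ne_zero hb (mt (ez _).1 n2)) (mt (ez _).1 n1)
    · rw [map_mul, map_mul, ← k1, ← k2, ← h]
      ring
  have tz : ¬IsAlgebraic ℤ (ι x) := fun h => tr
    (((isAlgebraic_algHom_iff ι.toIntAlgHom ι.injective).1 h).extendScalars (RingHom.injective_int _))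
  obtain ⟨u, w, b, nw, nb, hx, clr⟩ := clrX n T t1 _ Ω e (ι x) (fun σ i => ι (s σ i)) (rat' x)
    (fun σ i => rat' _)
    (fun σ => by
      convert (hs σ).map ι using 2 with i
      ext l k
      exact aeval_algHom_apply ι.toIntAlgHom x _)
    (by
      have := (map_ne_zero ι).2 hdet
      rwa [RingHom.map_det] at this)
    (fun h => tz (h ▸ isAlgebraic_algebraMap (R := ℤ) (A := Ω) t1))
  obtain ⟨mon, hd⟩ := cab.monic hN
  have lt : ∀ f, (f %ₘ χ).natDegree < N := fun f => hd ▸ natDegree_modByMonic_lt f mon (by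
    rintro rfl
    simp at hd
    omega)
  have eχ : e χ = 0 := (ez _).2 z0
  have ne : ∀ f, e f ≠ 0 → f %ₘ χ ≠ 0 := fun f h c => h (by rw [← mod_eq e eχ, c, map_zero])
  have int : ∀ α : 𝓞 K, IsAlgebraic ℤ (e (C (C α))) := fun α =>
    ((Algebra.IsIntegral.isIntegral (R := ℤ) α).map
      ((e.comp C).comp C).toIntAlgHom).isAlgebraic
  obtain ⟨c0, p0, cnt⟩ := cntX step zer K N m χ (u %ₘ χ) (w %ₘ χ) (b %ₘ χ) hN hm cop cab (lt _)
    (lt _) (lt _) (ne _ nw) (ne _ nb) fun α β hα h => by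
      have h1 := congrArg e h
      rw [map_mul, map_mul, mod_eq e eχ, mod_eq e eχ, ← hx, ← mul_assoc] at h1
      have h2 : e (C (C α)) ≠ 0 := fun c =>
        hα (by simpa using ind _ (by simpa using hN) ((ez _).1 c))
      exact tz (IsAlgebraic.of_mul (mem_nonZeroDivisors_of_ne_zero h2) (int α)
        (mul_right_cancel₀ nw h1 ▸ int β))
  obtain ⟨A, L, ρ, d, κ, C, H, hom⟩ := merB merC K
  refine finX n r T t1 ρ d c0 p0 hn H.le (merA _ _ _ _ _ _ H) fun p hp h0 hρ => ?_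
  obtain ⟨G, hG, pts⟩ := cnt p hp h0 (hom p hp hρ)
  refine ⟨G, hG, fun τ hτ => ?_⟩
  obtain ⟨φ, zφ, h1, h2⟩ := pts τ hτ
  rw [mod_eq φ zφ] at h1 h2
  rw [mod_eq φ zφ] at h2
  have := Fact.mk hp
  refine clr (ZMod p) φ (fun f hf => ?_) h1 τ h2
  rw [← mod_eq φ zφ, ind _ (lt f) ((ez _).1 ((mod_eq e eχ f).trans hf)), map_zero]

end Pool.Agent.MP_f3836a_nt.GV
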