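import Pool.Agent.MP_f3836a_nt.GV.SpecR

/-! The quantitative form of rigidity for finitely many shapes. -/

set_option autoImplicit false

namespace Pool.Agent.MP_f3836a_nt.GV.R

open Finset
open scoped Matrix

namespace RAbs

variable {a b : ℝ} {ι κ : Type} [Fintype ι] [Fintype κ]

/-- evaluation at a point -/
noncomputable def ev (t : Set.Icc a b) : CI a b →+* ℝ := ContinuousMap.evalAlgHom ℝ ℝ t

theorem exists_left [DecidableEq κ] {𝒜 : Subalgebra ℝ (CI a b)} (h𝒜 : QA 𝒜)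
    (L : Matrix ι κ (CI a b)) (hL : ∀ k w, L k w ∈ 𝒜)
    (hi : ∀ t c, L.map (ev t) *ᵥ c = 0 → c = 0) :
    ∃ G : Matrix κ ι (CI a b), (∀ w k, G w k ∈ 𝒜) ∧ G * L = 1 := by
  let L' : Matrix ι κ 𝒜 := .of fun k w => ⟨L k w, hL k w⟩
  obtain ⟨g, hg, e⟩ := h𝒜.inv _ (L'ᵀ * L').det.2 fun t ht => by
    have h1 := ((ev t).comp 𝒜.val.toRingHom).map_det (L'ᵀ * L')
    rw [RingHom.mapMatrix_apply, Matrix.map_mul] at h1
    obtain ⟨c, hc, h2⟩ := Matrix.exists_mulVec_eq_zero_iff.2 (h1.symm.trans ht)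
    exact hc (hi t c ((Matrix.ker_mulVecLin_transpose_mul_self (L.map (ev t))).le h2))
  have h3 := Matrix.nonsing_inv_mul (L'ᵀ * L') (.of_mul_eq_one ⟨g, hg⟩ (Subtype.ext e))
  refine ⟨((L'ᵀ * L')⁻¹ * L'ᵀ).map 𝒜.val, fun w k => SetLike.coe_mem _, ?_⟩
  rw [show L = L'.map 𝒜.val from rfl, ← Matrix.map_mul, Matrix.mul_assoc, h3,
    Matrix.map_one _ (map_zero _) (map_one _)]

theorem bound (N : Matrix ι κ (CI a b)) : ∃ B : ℝ, 0 ≤ B ∧ ∀ t x,
    ∑ j, (N.map (ev t) *ᵥ x) j ^ 2 ≤ B * ∑ k, x k ^ 2 := by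
  refine ⟨∑ j, ∑ k, ‖N j k‖ ^ 2, by positivity, fun t x => ?_⟩
  rw [sum_mul]
  refine sum_le_sum fun j _ => (sum_mul_sq_le_sq_mul_sq _ _ _).trans ?_
  refine mul_le_mul_of_nonneg_right (sum_le_sum fun k _ => ?_) (by positivity)
  have := abs_le.1 ((N j k).norm_coe_le_norm t)
  exact sq_le_sq' this.1 this.2

omit [Fintype ι] in
theorem mem_vec {𝒜 : Subalgebra ℝ (CI a b)} {N : Matrix ι κ (CI a b)} {x : κ → CI a b}
    (hN : ∀ j k, N j k ∈ 𝒜) (hx : ∀ k, x k ∈ 𝒜) (j : ι) : (N *ᵥ x) j ∈ 𝒜 :=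
  𝒜.sum_mem fun k _ => mul_mem (hN j k) (hx k)

end RAbs

open RAbs in
theorem sAbs : SAbs := by
  intro hQu a b 𝒜 r s Q l F h𝒜 hS D
  have := hS.fd
  let L : Matrix (Fin s) (Fin r) (CI a b) := .of l
  have hL : ∀ t c k, (L.map (ev t) *ᵥ c) k = ∑ w, c w * l k w t := fun t c k =>
    dotProduct_comm _ c
  obtain ⟨G, hG, hGL⟩ := exists_left h𝒜 L hS.ml fun t c h =>
    hS.inj t c fun k => (hL t c k).symm.trans (congrFun h k)
  let Q' := Q.map (algebraMap ℝ (CI a b))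
  have hQ : ∀ t, Q'.map (ev t) = Q := fun t => by
    ext i j
    simp [Q', ev]
  let M := Matrix.fromRows (L * G - 1) (Q' * G)
  have hM : ∀ j k, M j k ∈ 𝒜 := by
    rintro (j | j) k
    · refine sub_mem (mem_vec (N := L) hS.ml (hG · k) j) ?_
      rw [Matrix.one_apply]
      split_ifs
      exacts [one_mem _, zero_mem _]
    · exact mem_vec (N := Q') (fun _ _ => 𝒜.algebraMap_mem _) (hG · k) j
  let R : Fin s ⊕ Fin r → (∀ k, F k) →ₗ[ℝ] CI a b := fun j =>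
    ∑ k, LinearMap.mulLeft ℝ (M j k) ∘ₗ (F k).subtype ∘ₗ .proj k
  have hR : ∀ j f, R j f = (M *ᵥ fun k => (f k : CI a b)) j := fun j f =>
    LinearMap.sum_apply _ _ _
  obtain ⟨J0, Λ, hΛ, H1⟩ := hQu a b _ _ R (fun f hf => by
    by_contra! h
    have h0 : (M *ᵥ fun k => (f k : CI a b)) = 0 := funext fun j => by
      rw [← hR]
      by_contra h1
      refine h j (h𝒜.fin _ ?_ h1)
      rw [hR]
      exact mem_vec hM (fun k => hS.mF k _ (f k).2) j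
    rw [Matrix.fromRows_mulVec, ← Sum.elim_zero_zero, Sum.elim_eq_iff, Matrix.sub_mulVec,
      Matrix.one_mulVec, sub_eq_zero, ← Matrix.mulVec_mulVec, ← Matrix.mulVec_mulVec] at h0
    have h2 := hS.rig (G *ᵥ fun k => (f k : CI a b))
      (mem_vec hG fun k => hS.mF k _ (f k).2)
      (fun t => funext fun w => by
        rw [← hQ t]
        exact ((ev t).map_mulVec _ _ w).symm.trans (by rw [h0.2]; rfl))
      fun k => by
        rw [show ∑ w, _ * l k w = f k from (dotProduct_comm _ (l k)).trans (congrFun h0.1 k)]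
        exact (f k).2
    rw [h2, Matrix.mulVec_zero] at h0
    exact hf (funext fun k => Subtype.ext (congrFun h0.1 k).symm)) D
  obtain ⟨B, hB, H2⟩ := bound M
  obtain ⟨C, hC, H3⟩ := bound G
  refine ⟨J0, 2 * C * (s * Λ * B + 1) + 1, by positivity, fun J hJ H _ σ t c f hσ hc hf => ?_⟩
  have H4 := H1 J hJ H σ t hσ fun k => ⟨f k, hf k⟩
  obtain ⟨n, hn⟩ : ∃ n, ‖(fun k => ⟨f k, hf k⟩ : ∀ k, F k)‖ = n := ⟨_, rfl⟩
  have h1 : ∀ k x, f k x ^ 2 ≤ n ^ 2 := fun k x => by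
    rw [← hn, ← sq_abs]
    exact pow_le_pow_left₀ (abs_nonneg _) (((f k).norm_coe_le_norm x).trans
      (norm_le_pi_norm (fun k => ⟨f k, hf k⟩ : ∀ k, F k) k)) 2
  let e : H → Fin s → ℝ := fun h k => ∑ w, c h w * l k w (t h) - f k (t h)
  have he : ∀ h, L.map (ev (t h)) *ᵥ c h = (fun k => f k (t h)) + e h := fun h =>
    funext fun k => (hL _ _ k).trans (add_sub_cancel _ _).symm
  have h2 : ∀ h, ∑ j, R j (fun k => ⟨f k, hf k⟩) (t h) ^ 2 ≤ B * ∑ k, e h k ^ 2 := fun h => by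
    have k1 : M * L = Matrix.fromRows 0 Q' := by
      rw [Matrix.fromRows_mul, Matrix.sub_mul, Matrix.mul_assoc, Matrix.mul_assoc, hGL,
        Matrix.mul_one, Matrix.mul_one, Matrix.one_mul, sub_self]
    have k2 : M.map (ev (t h)) *ᵥ (L.map (ev (t h)) *ᵥ c h) = 0 := by
      rw [Matrix.mulVec_mulVec, ← Matrix.map_mul, k1, Matrix.fromRows_map, Matrix.fromRows_mulVec,
        hQ, hc, Matrix.map_zero _ (map_zero _), Matrix.zero_mulVec, Sum.elim_zero_zero]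
    rw [he, Matrix.mulVec_add, add_eq_zero_iff_eq_neg] at k2
    refine le_of_eq_of_le (sum_congr rfl fun j _ => ?_) (H2 (t h) (e h))
    rw [hR, ← neg_sq (_ *ᵥ e h <| j)]
    exact congrArg (· ^ 2) (((ev (t h)).map_mulVec _ _ j).trans (congrFun k2 j))
  have h3 : ∀ h, ∑ w, c h w ^ 2 ≤ 2 * C * (s * n ^ 2 + ∑ k, e h k ^ 2) := fun h => by
    have k1 := H3 (t h) (L.map (ev (t h)) *ᵥ c h)
    rw [Matrix.mulVec_mulVec, ← Matrix.map_mul, hGL, Matrix.map_one _ (map_zero _) (map_one _),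
      Matrix.one_mulVec, he] at k1
    rw [mul_comm 2 C, mul_assoc]
    refine k1.trans (mul_le_mul_of_nonneg_left ?_ hC)
    rw [show s * n ^ 2 = ∑ _ : Fin s, n ^ 2 by simp, ← sum_add_distrib, mul_sum]
    exact sum_le_sum fun k _ => by
      rw [Pi.add_apply]
      nlinarith [h1 k (t h), sq_nonneg (f k (t h) - e h k)]
  have h4 : ∑ k, ∑ h, σ h * e h k ^ 2 = ∑ h, σ h * ∑ k, e h k ^ 2 := by
    simp only [mul_sum]
    exact sum_comm
  have h5 : 0 ≤ ∑ h, σ h * ∑ k, e h k ^ 2 := sum_nonneg fun h _ => mul_nonneg (hσ.1 h) (by positivity)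
  have h6 : n ^ 2 ≤ Λ * (B * ∑ h, σ h * ∑ k, e h k ^ 2) := by
    refine (hn ▸ H4).trans (mul_le_mul_of_nonneg_left ?_ hΛ.le)
    rw [mul_sum]
    exact sum_le_sum fun h _ => mul_left_comm B _ _ ▸ mul_le_mul_of_nonneg_left (h2 h) (hσ.1 h)
  have h7 : ∑ h, σ h * ∑ w, c h w ^ 2 ≤ 2 * C * (s * n ^ 2 + ∑ h, σ h * ∑ k, e h k ^ 2) := by
    refine (sum_le_sum fun h _ => mul_le_mul_of_nonneg_left (h3 h) (hσ.1 h)).trans_eq ?_
    simp only [mul_left_comm (σ _) (2 * C), mul_add (σ _), ← mul_sum, sum_add_distrib, ← sum_mul,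
      hσ.2.1, one_mul]
  rw [h4]
  nlinarith [mul_le_mul_of_nonneg_left h6 (by positivity : 0 ≤ 2 * C * s)]

end Pool.Agent.MP_f3836a_nt.GV.R
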