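import Pool.Agent.MP_f3836a_nt.GV.SpecR

/-! Analytic functions on an interval, primitives of rational functions. -/

set_option autoImplicit false

namespace Pool.Agent.MP_f3836a_nt.GV.R

open Polynomial Filter Topology

theorem sAn : SAn := fun a b => ⟨fun g ⟨G, h, e⟩ g0 => by
  have k : AnalyticOnNhd ℝ (fun t => (G t)⁻¹) (Set.Icc a b) :=
    h.inv fun t ht => e ⟨t, ht⟩ ▸ g0 ⟨t, ht⟩
  refine ⟨⟨_, k.continuousOn.domRestrict⟩, ⟨_, k, fun _ => rfl⟩, ContinuousMap.ext fun t => ?_⟩
  change g t * (G t)⁻¹ = 1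
  rw [← e, mul_inv_cancel₀ (g0 t)], fun g ⟨G, h, e⟩ g0 => by
  obtain k | k := h.eqOn_zero_or_eventually_ne_zero_of_preconnected isPreconnected_Icc
  · exact absurd (ContinuousMap.ext fun t => (e t).trans (k t.2)) g0
  · exact ((isCompact_Icc.finite_sdiff_of_mem_codiscreteWithin k).preimage
      Subtype.val_injective.injOn).subset fun t ht => ⟨t.2, fun c => c ((e t).symm.trans ht)⟩⟩

theorem sPrim : SPrim := fun a b P Q hQ => by
  have ev : ∀ (R : ℝ[X]) (t : ℝ), aeval (t : ℂ) R = ((R.eval t : ℝ) : ℂ) := fun R t =>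
    aeval_algebraMap_apply_eq_algebraMap_eval (A := ℂ) t R
  have hd : ∀ R : ℝ[X], Differentiable ℂ fun z : ℂ => aeval z R := fun R => R.differentiable_aeval
  obtain ⟨δ, d0, hs⟩ := (isCompact_Icc.image Complex.continuous_ofReal).exists_thickening_subset_open
    (isOpen_ne_fun (hd Q).continuous continuous_zero) (by
      rintro _ ⟨t, ht, rfl⟩
      change aeval (t : ℂ) Q ≠ 0
      rw [ev]
      exact Complex.ofReal_ne_zero.2 (hQ t ht))
  have cv : Convex ℝ (Complex.ofReal '' Set.Icc a b) :=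
    (convex_Icc a b).linear_image Complex.ofRealCLM.toLinearMap
  obtain ⟨g, hg⟩ := (cv.thickening δ).exists_forall_hasDerivWithinAt
    (f := fun z : ℂ => aeval z P / aeval z Q)
    ((hd P).differentiableOn.div (hd Q).differentiableOn fun z hz => hs hz)
  have sb := Metric.self_subset_thickening d0 (Complex.ofReal '' Set.Icc a b)
  refine ⟨fun t => (g t).re, AnalyticOnNhd.re_ofReal ((DifferentiableOn.analyticOnNhd
    (fun z hz => (hg z hz).differentiableWithinAt) Metric.isOpen_thickening).mono sb),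
    fun t ht => ?_⟩
  have m := sb ⟨t, ht, rfl⟩
  have := ((hg t m).hasDerivAt (Metric.isOpen_thickening.mem_nhds m)).real_of_complex
  rwa [ev, ev, ← Complex.ofReal_div, Complex.ofReal_re] at this

end Pool.Agent.MP_f3836a_nt.GV.R
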