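import Pool.Agent.MP_f3836a_nt.GV.SpecR

/-! Archimedean rigidity from the abstract statement. -/

set_option autoImplicit false

namespace Pool.Agent.MP_f3836a_nt.GV.R

open Finset
open scoped Matrix

theorem sArx : SArx := by
  intro hA hF hB hD hS n r _ T t1 B ι cls h2 hT hO hC
  refine ⟨univ.sup T.e + 3, fun m hm ε0 hε => ?_⟩
  obtain ⟨l, F, hd⟩ := hD n r T t1 B m ε0 (by omega) hO
  obtain ⟨s, v, hs⟩ := hF _ _ _ _ _ _ l F (hS n r T t1 B ι cls m ε0 l F h2 hT hO hC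
    (fun i => (Nat.add_le_add_right (le_sup (mem_univ i)) 3).trans hm) hε hd)
  refine ⟨s, fun k => (v k).1, fun k => (v k).2.1, fun D => ?_⟩
  obtain ⟨J0, Λ, hΛ, h⟩ := hB _ _ _ _ _ _ _ _ (hA _ _) hs D
  refine ⟨J0, Λ, hΛ, fun J hJ H _ σ t c f h3 h4 h5 h6 => ?_⟩
  choose g h7 h8 using fun k => hd.nc (v k) (f k) (h6 k)
  simpa only [hd.val, h8] using h J hJ H σ (fun h => ⟨t h, (h3 h).2.1⟩) c g
    ⟨fun h => (h3 h).1, h4, h5⟩ (fun h => funext fun w => by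
      simpa [Qm, Matrix.mulVec, dotProduct, sum_filter] using (h3 h).2.2 (cls w)) h7

end Pool.Agent.MP_f3836a_nt.GV.R
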