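import Pool.Agent.MP_f3836a_nt.GV.RApi

/-! Existence of analytic branches. -/

set_option autoImplicit false

namespace Pool.Agent.MP_f3836a_nt.GV.R

open Polynomial Finset Filter Topology
open scoped ComplexConjugate Matrix

namespace RBr

variable {κ : Type} [Fintype κ] {n r : ℕ} {P : κ → Fin n → ℂ}

theorem li (hκ : Fintype.card κ = n)
    (hP : ∀ β : Fin n → ℂ, (∀ x, ∑ i, β i * P x i = 0) → β = 0) : LinearIndependent ℂ P :=
  linearIndependent_of_top_le_span_of_card_eq_finrank (fun v _ => by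
    obtain ⟨a, e⟩ := eig_span hκ hP v
    exact (Submodule.mem_span_range_iff_exists_fun ℂ).2 ⟨a, e.symm⟩) (by simp [hκ])

theorem eig (hκ : Fintype.card κ = n)
    (hP : ∀ β : Fin n → ℂ, (∀ x, ∑ i, β i * P x i = 0) → β = 0) {A : Matrix (Fin n) (Fin n) ℂ}
    {lam : κ → ℂ} (h : ∀ x, P x ᵥ* A = lam x • P x) (hl : lam.Injective) {x : κ} {v : Fin n → ℂ}
    {b : ℂ} (hv : v ᵥ* A = b • P x + lam x • v) : ∃ a : ℂ, v = a • P x := by
  classical
  obtain ⟨a, rfl⟩ := eig_span hκ hP v
  have h1 := Fintype.linearIndependent_iff.1 (li hκ hP)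
    (fun y => a y * lam y - lam x * a y - if y = x then b else 0) (by
      simp only [Matrix.sum_vecMul, Matrix.smul_vecMul, h, smul_sum] at hv
      simp [sub_smul, mul_smul, hv])
  refine ⟨a x, sum_eq_single x (fun y _ e => ?_) (by simp)⟩
  have := h1 y
  rw [if_neg e, sub_zero, mul_comm, ← sub_mul, mul_eq_zero, sub_eq_zero] at this
  rw [this.resolve_left (hl.ne e), zero_smul]

omit [Fintype κ] in
theorem cols : (∀ β : Fin n → ℂ, (∀ x, ∑ i, β i * P x i = 0) → β = 0) ↔
    LinearIndependent ℂ fun i x => P x i := by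
  simp [Fintype.linearIndependent_iff, funext_iff, Finset.sum_apply]

variable [NeZero n] {M : Tab ℝ n} {Φ : Fin r → Fin n → ℂ}

theorem em (hn : n = 2 * r) (h : ∀ w, Hm (fun i => (M i).map Complex.ofReal) (Φ w))
    (hP : ∀ β : Fin n → ℂ, (∀ x, ∑ i, β i * both Φ x i = 0) → β = 0) : Em M Φ := by
  refine ⟨h, fun β => Complex.ofReal_injective ?_, fun β e => funext fun i =>
    Complex.ofReal_eq_zero.1 (congrFun (hP (fun i => β i) ?_) i)⟩
  · refine (Nm_map Complex.ofRealHom M β).trans ((eig_basis (by simp [hn, two_mul]) hP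
      (lam := fun x => emb (both Φ x) β) ?_).1.trans ?_)
    · rintro (w | w)
      exacts [(h w).vecMul _, (hm_conj (h w)).vecMul _]
    · rw [Fintype.prod_sum_type, ← prod_mul_distrib, Complex.ofReal_prod]
      refine prod_congr rfl fun w _ => ?_
      rw [Complex.ofReal_pow, ← Complex.mul_conj', conj_emb]
      rfl
  · rintro (w | w)
    exacts [e w, (conj_emb _ β).symm.trans (by rw [e w, map_zero])]

theorem pair (hn : n = 2 * r) (hH : SHoms) (h : Rng fun i => (M i).map Complex.ofReal)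
    (hd : disc (fun i => (M i).map Complex.ofReal) ≠ 0) (h0 : ∀ s, ¬Hm M s) :
    ∃ Φ : Fin r → Fin n → ℂ, (∀ w, Hm (fun i => (M i).map Complex.ofReal) (Φ w)) ∧
      ∀ β : Fin n → ℂ, (∀ x, ∑ i, β i * both Φ x i = 0) → β = 0 := by
  obtain ⟨P, p1, p2, p3⟩ := hH n _ h hd
  choose τ hτ using fun k => p3 _ (hm_conj (p1 k))
  have t1 : ∀ k, τ (τ k) = k := fun k => (li (by simp) p2).injective (by
    rw [← hτ, ← hτ]; simp)
  have t2 : ∀ k, τ k ≠ k := fun k e => by
    have e' : ∀ i, ((P k i).re : ℂ) = P k i := fun i =>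
      Complex.conj_eq_iff_re.1 ((congrFun (hτ k) i).trans (by rw [e]))
    refine h0 (fun i => (P k i).re) ⟨by simp [(p1 k).1], fun i j => Complex.ofReal_injective ?_⟩
    push_cast
    simpa only [e', Matrix.map_apply] using (p1 k).2 i j
  have t3 : ∀ k, ¬k < τ k → τ k < τ (τ k) := fun k e =>
    (t1 k).symm ▸ lt_of_le_of_ne (not_lt.1 e) (t2 k)
  have hc : (univ.filter fun k => k < τ k).card = r := by
    have h1 := card_filter_add_card_filter_not (s := univ) fun k => k < τ k
    have h2 : (univ.filter fun k => k < τ k).card = (univ.filter fun k => ¬k < τ k).card :=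
      card_nbij' τ τ (fun k e => by simpa [t1] using le_of_lt (by simpa using e))
        (fun k e => by simpa using t3 k (by simpa using e)) (fun k _ => t1 k) fun k _ => t1 k
    rw [card_univ, Fintype.card_fin] at h1
    omega
  let e := orderIsoOfFin _ hc
  refine ⟨fun w => P (e w), fun w => p1 _, fun β hβ => p2 β fun k => ?_⟩
  by_cases hk : k < τ k
  · simpa [both] using hβ (.inl (e.symm ⟨k, by simpa using hk⟩))
  · simpa [both, ← hτ] using hβ (.inr (e.symm ⟨τ k, by simpa using t3 k hk⟩))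

end RBr

theorem sBr : SBr := by
  intro hH hB n r _ T t1 hn ok h0
  obtain ⟨t0, h1, h2⟩ := (Set.Iic_infinite (t1 - 1 - 2 * n)).exists_notMem_finite
    (finite_setOfPred_isRoot ok.sep)
  have rng : ∀ t : ℝ, Rng fun i => (T.fib t i).map Complex.ofReal := fun t =>
    (ok.rng.map (aeval t : ℤ[X] →ₐ[ℤ] ℝ).toRingHom).map Complex.ofRealHom
  obtain ⟨Φ, f1, f2⟩ := RBr.pair hn hH (rng t0) (by
    refine (disc_map Complex.ofRealHom _).symm.trans_ne (Complex.ofReal_ne_zero.2
      ((disc_map (aeval (t0 : ℝ) : ℤ[X] →ₐ[ℤ] ℝ).toRingHom T.M).symm.trans_ne ?_))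
    exact (aeval_algebraMap_apply_eq_algebraMap_eval t0 _).trans_ne (Int.cast_ne_zero.2 h2)) (h0 t0)
  have E := RBr.em hn f1 f2
  obtain ⟨c, hc⟩ := E.surj hn fun w => ((w + 1 : ℝ) : ℂ) * Complex.I
  have hκ : Fintype.card (Fin r ⊕ Fin r) = n := by simp [hn, two_mul]
  have l0 : ∀ x : Fin r ⊕ Fin r, (emb (both Φ x) c).im =
      (x.elim (fun w : Fin r => (w + 1 : ℤ)) fun w : Fin r => -(w + 1 : ℤ) : ℤ) := by
    rintro (w | w)
    · exact (congrArg _ (hc w)).trans (by simp)
    · exact (congrArg _ (conj_emb _ c)).symm.trans (by simp [hc])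
  have l1 : Function.Injective fun x => emb (both Φ x) c := fun x y e => by
    have := Int.cast_injective ((l0 x).symm.trans ((congrArg _ e).trans (l0 y)))
    rcases x with w | w <;> rcases y with w' | w' <;> simp at this ⊢ <;> omega
  have l2 : ∀ x, emb (both Φ x) c ≠ 0 := fun x e => by
    have := Int.cast_eq_zero.1 ((l0 x).symm.trans (congrArg _ e))
    rcases x with w | w <;> simp at this <;> omega
  have hΘ : ∀ t : ℝ, (Mx (fun i => (T.M i).map (map (algebraMap ℤ ℂ))) fun i => C (c i : ℂ)).map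
      (eval (t : ℂ)) = Mx (fun i => (T.fib t i).map Complex.ofReal) fun i => c i := fun t => by
    refine (Mx_map (evalRingHom (t : ℂ)) _ _).trans ?_
    congr 1
    · ext i l j
      exact (eval_map_algebraMap _ _).trans (aeval_algebraMap_apply ℂ t _)
    · ext i
      exact eval_C
  have key := fun w => hB n _ (fun i => c i) (Φ w) t0 ((hΘ t0).symm ▸ (f1 w).vecMul _) fun v hv => by
    rw [hΘ] at hv
    obtain ⟨a, rfl⟩ := RBr.eig hκ f2 (fun x => (E.both x).vecMul _) l1 (x := .inl w) hv
    have e : (∑ i, (c i : ℂ) * (a • both Φ (.inl w)) i) = emb (both Φ (.inl w)) c * a := by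
      simp [emb, mul_sum, mul_left_comm, mul_comm]
    rw [Matrix.smul_vecMul, (E.both _).vecMul, smul_comm, e, mul_smul] at hv
    exact (smul_eq_zero.1 (right_eq_add.1 hv)).resolve_left (l2 (.inl w))
  choose Y y0 y1 y2 using key
  obtain rfl : Φ = fun w => Y w t0 := funext fun w => (y0 w).symm
  have ct : ∀ x i, ContinuousAt (fun t => both (fun w => Y w t) x i) t0 := by
    rintro (w | w) i
    exacts [continuousAt_pi.1 (y1 w).continuousAt i,
      Complex.continuous_conj.continuousAt.comp (continuousAt_pi.1 (y1 w).continuousAt i)]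
  have ce : ∀ x, ContinuousAt (fun t => emb (both (fun w => Y w t) x) c) t0 := fun x =>
    tendsto_finsetSum _ fun i _ => (ct x i).const_mul _
  have ev : ∀ᶠ t : ℝ in 𝓝 t0, Em (T.fib t) (fun w => Y w t) ∧ ∀ w, AnalyticAt ℝ (Y w) t := by
    filter_upwards [eventually_all.2 y2, eventually_all.2 fun w => (y1 w).eventually_analyticAt,
      eventually_all.2 fun x => (ce x).eventually_ne (l2 x),
      eventually_all.2 fun x => eventually_all.2 fun y => eventually_imp_distrib_left.2
        fun e : x ≠ y => ((ce x).sub (ce y)).eventually_ne (sub_ne_zero.2 (l1.ne e)),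
      (continuousAt_pi.2 fun i => continuousAt_pi.2 fun x => ct x i).eventually
        (RBr.cols.1 f2).eventually] with t a1 a2 a3 a4 a5
    rw [hΘ] at a1
    have b1 : ∀ x, both (fun w => Y w t) x ᵥ* Mx (fun i => (T.fib t i).map Complex.ofReal)
        (fun i => c i) = emb (both (fun w => Y w t) x) c • both (fun w => Y w t) x := by
      rintro (w | w)
      · exact a1 w
      · ext j
        simpa [Matrix.vecMul, dotProduct, Mx, Matrix.sum_apply, both, emb] using
          congrArg conj (congrFun (a1 w) j)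
    refine ⟨RBr.em hn (fun w => hm_of_eig (rng t) ?_ fun i => RBr.eig hκ (RBr.cols.2 a5) b1
      (fun x y e => by_contra fun e' => a4 x y e' (sub_eq_zero.2 e)) (x := .inl w) (b := 0) ?_)
      (RBr.cols.2 a5), a2⟩
    · refine mul_left_cancel₀ (a3 (.inl w)) ((congrFun (a1 w) 0).symm.trans ?_)
      have := (rng t).col0
      simp only [Matrix.map_apply] at this
      simp [Matrix.vecMul, dotProduct, Mx, Matrix.sum_apply, both, emb, this, mul_comm]
    · rw [Matrix.vecMul_vecMul, (rng t).comm_Mx, ← Matrix.vecMul_vecMul, a1, Matrix.smul_vecMul,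
        zero_smul, zero_add]
      rfl
  obtain ⟨ε, e0, e1⟩ := Metric.eventually_nhds_iff_ball.1 ev
  have hI : ∀ t ∈ Set.Icc (t0 : ℝ) (t0 + min (ε / 2) 1), t ∈ Metric.ball (t0 : ℝ) ε := fun t h => by
    rw [Real.ball_eq_Ioo]
    constructor <;> linarith [h.1, h.2, min_le_left (ε / 2) 1]
  exact ⟨⟨t0, min (ε / 2) 1, Y⟩, ⟨by positivity, min_le_right _ _⟩, by simp at h1 ⊢; omega,
    fun t h => (e1 t (hI t h)).1, fun w i t h => analyticAt_pi_iff.1 ((e1 t (hI t h)).2 w) i⟩

end Pool.Agent.MP_f3836a_nt.GV.R
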