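import Pool.Agent.MP_f3836a_nt.GV.SpecR

/-! A simple normalised eigenvector moves analytically. -/

set_option autoImplicit false

namespace Pool.Agent.MP_f3836a_nt.GV.R

open Polynomial Finset Filter Topology
open scoped Matrix ContDiff

theorem sBrn : SBrn := by
  intro n Θ c s0 t0 h0 h1
  let f : ℂ × (Fin n → ℂ) → Fin n → ℂ := fun p =>
    p.2 ᵥ* Θ.map (eval p.1) - (∑ i, c i * p.2 i) • p.2
  have hf : ContDiffAt ℂ ω f ((t0 : ℂ), s0) := by
    refine ContDiff.contDiffAt (ContDiff.sub (contDiff_pi.2 fun j => ?_) (by fun_prop))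
    simp only [Matrix.vecMul, dotProduct, Matrix.map_apply]
    exact ContDiff.sum fun i _ => ContDiff.mul (by fun_prop)
      ((contDiff_aeval (𝕜 := ℂ) (Θ i j) ω).comp contDiff_fst)
  let A : (Fin n → ℂ) →L[ℂ] Fin n → ℂ :=
    LinearMap.toContinuousLinearMap (Θ.map (eval (t0 : ℂ))).vecMulLinear
  let l : (Fin n → ℂ) →L[ℂ] ℂ := ∑ i, c i • ContinuousLinearMap.proj i
  have hl : ∀ v, l v = ∑ i, c i * v i := fun v => by simp [l]
  have d1 := A.hasFDerivAt.sub (l.hasFDerivAt.smul (hasFDerivAt_id s0))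
  have d2 := (hf.differentiableAt (by simp)).hasFDerivAt.comp s0
    (hasFDerivAt_prodMk_right (t0 : ℂ) s0)
  have e := d2.unique (d1.congr_of_eventuallyEq (.of_forall fun v => by simp [f, A, hl]))
  have hi : Function.Injective (fderiv ℂ f ((t0 : ℂ), s0) ∘L .inr ℂ ℂ (Fin n → ℂ)).toLinearMap := by
    rw [e, injective_iff_map_eq_zero]
    intro v hv
    refine h1 v (sub_eq_zero.1 ?_)
    simpa [A, hl, add_comm] using hv
  have hI : (fderiv ℂ f ((t0 : ℂ), s0) ∘L .inr ℂ ℂ (Fin n → ℂ)).IsInvertible :=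
    ⟨(LinearEquiv.ofInjectiveEndo _ hi).toContinuousLinearEquiv, rfl⟩
  refine ⟨fun t => hf.implicitFunction (by simp) hI t, hf.implicitFunction_apply_self _ hI, ?_, ?_⟩
  · exact ((hf.contDiffAt_implicitFunction _ hI).analyticAt.restrictScalars (𝕜 := ℝ)).comp_of_eq
      (Complex.ofRealCLM.analyticAt t0) rfl
  · filter_upwards [(Complex.continuous_ofReal.tendsto t0).eventually
      (hf.eventually_apply_implicitFunction (by simp) hI)] with t ht
    exact sub_eq_zero.1 (ht.trans (sub_eq_zero.2 h0))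

end Pool.Agent.MP_f3836a_nt.GV.R
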