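import Pool.Agent.MP_f3836a_nt.GV.RApi

/-! Geometric irreducibility on the branches. -/

set_option autoImplicit false

namespace Pool.Agent.MP_f3836a_nt.GV.R

open Polynomial Finset NumberField
open scoped ComplexConjugate TensorProduct nonZeroDivisors

namespace RCst

theorem dom {A 𝒜 : Type} [CommRing A] [IsDomain A] [CommRing 𝒜] [Algebra A 𝒜]
    {S : AddSubmonoid ℕ} {μ : Module.Basis S A 𝒜} (h : FM μ) : IsDomain 𝒜 := by
  have : Nontrivial 𝒜 := nontrivial_of_ne _ _ (μ.ne_zero 0)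
  have : NoZeroDivisors 𝒜 := ⟨fun {a b} hab => by
    by_contra hc
    rw [not_or, ← μ.repr.map_eq_zero_iff, ← μ.repr.map_eq_zero_iff, ← Ne, ← Ne,
      ← Finsupp.support_nonempty_iff, ← Finsupp.support_nonempty_iff] at hc
    obtain ⟨d, hd, md⟩ := exists_max_image _ (fun d : S => (d : ℕ)) hc.1
    obtain ⟨d', hd', md'⟩ := exists_max_image _ (fun d : S => (d : ℕ)) hc.2
    have e : μ.repr (a * b) (d + d') = ∑ e ∈ (μ.repr a).support, ∑ e' ∈ (μ.repr b).support,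
        μ.repr a e * μ.repr b e' * μ.repr (μ e * μ e') (d + d') := by
      conv_lhs => rw [← μ.linearCombination_repr a, ← μ.linearCombination_repr b]
      simp only [Finsupp.linearCombination_apply, Finsupp.sum, sum_mul_sum, smul_mul_smul_comm,
        map_sum, map_smul, Finsupp.finset_sum_apply, Finsupp.smul_apply, smul_eq_mul]
    rw [sum_eq_single_of_mem d hd, sum_eq_single_of_mem d' hd', h.top, hab, map_zero] at e
    · exact mul_ne_zero (Finsupp.mem_support_iff.1 hd) (Finsupp.mem_support_iff.1 hd')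
        (by simpa using e.symm)
    · intro e' he' hne
      have := (md' e' he').lt_of_ne (Subtype.coe_ne_coe.2 hne)
      rw [h.low _ _ _ (by push_cast; omega), mul_zero]
    · intro e he hne
      have := (md e he).lt_of_ne (Subtype.coe_ne_coe.2 hne)
      refine sum_eq_zero fun e' he' => ?_
      have := md' e' he'
      rw [h.low _ _ _ (by push_cast; omega), mul_zero]⟩
  exact NoZeroDivisors.to_isDomain 𝒜

theorem hom {R A C : Type} [CommRing R] [CommRing A] [CommRing C] [Algebra R A] {n : ℕ} [NeZero n]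
    (y : Module.Basis (Fin n) R A) (h0 : y 0 = 1) (ψ : R →+* C) {u : Fin n → C}
    (h : Hm (fun i => (Algebra.leftMulMatrix y (y i)).map ψ) u) :
    ∃ Ψ : A →+* C, (∀ a, Ψ a = ∑ i, ψ (y.repr a i) * u i) ∧ (∀ i, Ψ (y i) = u i) ∧
      ∀ p, Ψ (algebraMap R A p) = ψ p := by
  obtain ⟨Ψ, e⟩ := exists_hom y h0 ψ h
  refine ⟨Ψ, e, fun i => ?_, fun p => ?_⟩
  · rw [e, sum_eq_single i] <;> simp +contextual [Finsupp.single_apply, eq_comm]
  · rw [e, Algebra.algebraMap_eq_smul_one, ← h0, sum_eq_single 0] <;>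
      simp +contextual [Finsupp.single_apply, eq_comm, h.1]

theorem prd {R : Type} [CommRing R] {n r : ℕ} [NeZero n] {M : Tab R n} (hM : Rng M)
    (Γ : Fin n → R) (q : Fin r → R) : ∃ ε : Fin n → R, ∀ (C : Type) [CommRing C] (ψ : R →+* C)
      (u : Fin n → C), Hm (fun i => (M i).map ψ) u →
      ∏ w, (∑ i, ψ (Γ i) * u i - ψ (q w)) = ∑ i, ψ (ε i) * u i := by
  obtain ⟨A, _, _, y, h0, hy⟩ := hM
  refine ⟨y.repr (∏ w, (∑ i, Γ i • y i - algebraMap R A (q w))), fun C _ ψ u h => ?_⟩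
  obtain ⟨Ψ, e, e1, e2⟩ := hom y h0 ψ (u := u) (by simpa only [hy] using h)
  rw [← e, map_prod]
  simp only [map_sub, map_sum, Algebra.smul_def, map_mul, e1, e2]

theorem key {O 𝒜 : Type} [CommRing O] [CommRing 𝒜] [Algebra O 𝒜] [Algebra ℤ[X] 𝒜]
    {S : AddSubmonoid ℕ} {μ : Module.Basis S O 𝒜} (h : FM μ) {n r : ℕ} [NeZero n]
    (y : Module.Basis (Fin n) ℤ[X] 𝒜) (h0 : y 0 = 1) (τ : O →+* ℂ) (Γ : Fin n → ℝ[X])
    (q : Fin r → ℝ[X]) (H : ∀ (C : Type) [CommRing C] (ψ : ℝ[X] →+* C) (u : Fin n → C),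
      Hm (fun i => ((Algebra.leftMulMatrix y (y i)).map (mapRingHom (Int.castRingHom ℝ))).map ψ) u →
      ∏ w, (∑ i, ψ (Γ i) * u i - ψ (q w)) = 0) :
    ∃ w, ∀ (φ : 𝒜 →+* ℂ) (t : ℝ), (∀ κ, φ (algebraMap O 𝒜 κ) = τ κ) →
      φ (algebraMap ℤ[X] 𝒜 X) = t → ∑ i, ((Γ i).eval t : ℝ) * φ (y i) = ((q w).eval t : ℝ) := by
  let _ := τ.toAlgebra
  have : IsDomain (ℂ ⊗[O] 𝒜) := dom (μ := Algebra.TensorProduct.basis ℂ μ)
    ⟨h.cof, by rw [Algebra.TensorProduct.basis_apply, h.one]; rfl, fun d d' => by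
      simp [Algebra.TensorProduct.basis_apply, Algebra.TensorProduct.basis_repr_tmul, h.top],
      fun d d' e he => by simp [Algebra.TensorProduct.basis_apply,
        Algebra.TensorProduct.basis_repr_tmul, h.low _ _ _ he]⟩
  let j : 𝒜 →+* ℂ ⊗[O] 𝒜 := (Algebra.TensorProduct.includeRight (R := O) (A := ℂ)).toRingHom
  let ψ : ℝ[X] →+* ℂ ⊗[O] 𝒜 := eval₂RingHom ((algebraMap ℂ _).comp Complex.ofRealHom)
    (j (algebraMap ℤ[X] 𝒜 X))
  have e : ψ.comp (mapRingHom (Int.castRingHom ℝ)) = j.comp (algebraMap ℤ[X] 𝒜) :=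
    Polynomial.ringHom_ext' (RingHom.ext_int _ _) (by simp [ψ])
  have ht : Hm (fun i => (Algebra.leftMulMatrix y (y i)).map (algebraMap ℤ[X] 𝒜)) y :=
    ⟨h0, fun a b => by
      conv_lhs => rw [← y.sum_repr (y a * y b)]
      simp only [Matrix.map_apply, Algebra.leftMulMatrix_eq_repr_mul, Algebra.smul_def]⟩
  obtain ⟨w, -, hw⟩ := prod_eq_zero_iff.1 (H _ ψ (fun i => j (y i)) (by
    have := ht.map j
    simpa only [Matrix.map_map, ← RingHom.coe_comp, e] using this))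
  refine ⟨w, fun φ t hφ hx => ?_⟩
  let Θ := (Algebra.TensorProduct.lift (AlgHom.id ℂ ℂ) (⟨φ, hφ⟩ : 𝒜 →ₐ[O] ℂ)
    fun _ _ => Commute.all _ _).toRingHom
  have h1 : ∀ a, Θ (j a) = φ a := fun a => by simp [Θ, j]
  have h2 : Θ.comp ψ = Complex.ofRealHom.comp (evalRingHom t) :=
    Polynomial.ringHom_ext (fun a => by simp [Θ, ψ]) (by simp [ψ, h1, hx])
  have h3 : ∀ p, Θ (ψ p) = (p.eval t : ℝ) := fun p => RingHom.congr_fun h2 p
  have := congrArg Θ (sub_eq_zero.1 hw)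
  simpa only [map_sum, map_mul, h1, h3] using this

theorem ext {K : Type} [Field K] [NumberField K] (f : 𝓞 K →+* ℂ) :
    ∃ σ : K →+* ℂ, ∀ κ : 𝓞 K, σ κ = f κ :=
  ⟨IsLocalization.lift (M := Algebra.algebraMapSubmonoid (𝓞 K) ℤ⁰) (g := f) (by
    rintro ⟨_, z, hz, rfl⟩
    simpa using nonZeroDivisors.ne_zero hz), fun κ => IsLocalization.lift_eq _ κ⟩

end RCst

open RCst in
theorem cstX : CstX := by
  intro n r _ T t1 B K _ _ 𝒜 _ _ _ S μ y _ hμ h0 hM hB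
  have hI : (B.t0 : ℝ) < B.t0 + B.ρ := by linarith [hB.rho.1]
  have h00 : (B.t0 : ℝ) ∈ B.I := ⟨le_rfl, hI.le⟩
  have hz : ∀ p : ℝ[X], (∀ t ∈ B.I, p.eval t = 0) → p = 0 := fun p hp =>
    eq_zero_of_infinite_isRoot p ((Set.Icc_infinite hI).mono hp)
  choose φ φ1 φ2 φ3 using fun (w : Fin r) (t : B.I) => hom y h0
    (Complex.ofRealHom.comp (aeval t.1 : ℤ[X] →ₐ[ℤ] ℝ).toRingHom) (u := B.Y w t) (by
      simp only [← hM]; exact (hB.em t t.2).hom w)
  choose s hs using fun w t => ext ((φ w t).comp (algebraMap (𝓞 K) 𝒜))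
  have hσ : ∀ w, ∀ t ∈ B.I, ∀ κ : 𝓞 K,
      B.ev (y.repr (algebraMap (𝓞 K) 𝒜 κ)) w t = s w ⟨_, h00⟩ κ := fun w t ht κ => by
    rw [hs]
    refine (isPreconnected_Icc.constant_of_mapsTo
      (Set.finite_range fun σ : K →+* ℂ => σ κ).isDiscrete ?_
      (fun t ht => ⟨s w ⟨t, ht⟩, (hs w _ κ).trans (φ1 w _ _)⟩) ht h00).trans (φ1 w ⟨_, h00⟩ _).symm
    unfold Br.ev emb
    exact continuousOn_finset_sum _ fun i _ => (Complex.continuous_ofReal.comp
      (Polynomial.continuous_aeval _)).continuousOn.mul (hB.ana w i).continuousOn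
  refine ⟨fun w => s w ⟨_, h00⟩, hσ, fun Γ D γ hD hΓ w w' hc => ?_⟩
  obtain ⟨ε, hε⟩ := prd (Rng.map ⟨𝒜, _, _, y, h0, fun _ => rfl⟩ (mapRingHom (Int.castRingHom ℝ)))
    Γ fun w => D * C (γ w)
  have e0 : ε = 0 := funext fun i => hz _ fun t ht => by
    refine congrFun ((hB.em t ht).inj (fun i => (ε i).eval t) fun w => ?_) i
    refine (hε ℂ (Complex.ofRealHom.comp (evalRingHom t)) _ ?_).symm.trans
      (prod_eq_zero (mem_univ w) ?_)
    · convert (hB.em t ht).hom w using 2 with i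
      ext l j
      simp only [Tb.fib, hM, Matrix.map_apply, RingHom.comp_apply, coe_evalRingHom, coe_mapRingHom,
        eval_map, aeval_def]
      rfl
    · simpa [sub_eq_zero, Br.ev, emb] using hΓ w t ht
  obtain ⟨v, hv⟩ := key hμ y h0 ((s w ⟨_, h00⟩).comp (algebraMap (𝓞 K) K)) Γ
    (fun w => D * C (γ w)) fun C _ ψ u h => by rw [hε C ψ u h, e0]; simp
  obtain ⟨t, ht, hDt⟩ : ∃ t ∈ B.I, D.eval t ≠ 0 := by
    by_contra hc
    exact hD (hz D (by simpa using hc))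
  have a1 : ∀ w κ, φ w ⟨t, ht⟩ (algebraMap (𝓞 K) 𝒜 κ) = s w ⟨_, h00⟩ κ := fun w κ =>
    (φ1 _ _ _).trans (hσ w t ht κ)
  have a2 : ∀ w, φ w ⟨t, ht⟩ (algebraMap ℤ[X] 𝒜 X) = t := fun w => by simp [φ3]
  have a3 : ∀ w, ∑ i, ((Γ i).eval t : ℝ) * φ w ⟨t, ht⟩ (y i) = (D.eval t * γ w : ℝ) := fun w => by
    simpa [φ2, Br.ev, emb] using hΓ w t ht
  have a4 : ∀ x, ((D.eval t * γ x : ℝ) : ℂ) = ((D * C (γ v)).eval t : ℝ) → γ x = γ v := fun x hx =>
    mul_left_cancel₀ hDt (by simpa only [Complex.ofReal_inj, eval_mul, eval_C] using hx)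
  rw [a4 w ((a3 w).symm.trans (hv _ t (a1 w) (a2 w)))]
  refine (a4 w' ?_).symm
  beta_reduce at hc
  rcases InfinitePlace.mk_eq_iff.1 hc with e | e
  · exact (a3 w').symm.trans (hv _ t (fun κ => by rw [a1, ← e]; rfl) (a2 w'))
  · refine Eq.trans ?_ (hv ((starRingEnd ℂ).comp (φ w' ⟨t, ht⟩)) t (fun κ => ?_) (by simp [a2]))
    · rw [← Complex.conj_ofReal, ← a3 w', map_sum]
      simp
    · rw [RingHom.comp_apply, a1, ← e, ComplexEmbedding.conjugate_coe_eq, Complex.conj_conj]; rfl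

end Pool.Agent.MP_f3836a_nt.GV.R
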