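import Pool.Agent.MP_f3836a_nt.GV.SpecR

/-! The data of the abstract statement on the branches. -/

set_option autoImplicit false

namespace Pool.Agent.MP_f3836a_nt.GV.R

open Polynomial Finset

namespace RDat

/-- the restriction of an analytic function -/
def rs {a b : ℝ} (G : ℝ → ℝ) (h : AnalyticOnNhd ℝ G (Set.Icc a b)) : CI a b :=
  ⟨fun t => G t, h.continuousOn.restrict⟩

/-- restrictions of analytic primitives of `P / Q` -/
def Pr {a b : ℝ} (Q : ℝ[X]) (d : ℕ) (g : CI a b) : Prop := ∃ P : ℝ[X], P.natDegree < d ∧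
  ∃ G : ℝ → ℝ, AnalyticOnNhd ℝ G (Set.Icc a b) ∧ (∀ t : Set.Icc a b, g t = G t) ∧
    ∀ t ∈ Set.Icc a b, HasDerivAt G (P.eval t / Q.eval t) t

theorem fam (hP : SPrim) {a b : ℝ} (Q : ℝ[X]) (hQ : ∀ t ∈ Set.Icc a b, Q.eval t ≠ 0) {d : ℕ}
    (hd : 0 < d) : ∃ F : Submodule ℝ (CI a b), FiniteDimensional ℝ F ∧ (∀ g ∈ F, Pr Q d g) ∧
      ∀ (f : ℝ → ℝ) (P : ℝ[X]), P.natDegree < d →
        (∀ t ∈ Set.Icc a b, HasDerivAt f (P.eval t / Q.eval t) t) → ∃ g ∈ F, ∀ t, g t = f t := by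
  choose G hG hG' using fun j : ℕ => hP a b (X ^ j) Q hQ
  refine ⟨Submodule.span ℝ (insert 1 ((fun j => rs (G j) (hG j)) '' Set.Iio d)),
    FiniteDimensional.span_of_finite ℝ (((Set.finite_Iio d).image _).insert _), ?_, ?_⟩
  · intro g hg
    induction hg using Submodule.span_induction with
    | mem x hx =>
      rcases hx with rfl | ⟨j, hj, rfl⟩
      · exact ⟨0, by simpa using hd, fun _ => 1, analyticOnNhd_const, fun _ => rfl,
          fun t _ => by simpa using hasDerivAt_const t (1 : ℝ)⟩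
      · exact ⟨X ^ j, by simpa using hj, G j, hG j, fun _ => rfl, hG' j⟩
    | zero =>
      exact ⟨0, by simpa using hd, fun _ => 0, analyticOnNhd_const, fun _ => rfl,
        fun t _ => by simpa using hasDerivAt_const t (0 : ℝ)⟩
    | add x y _ _ hx hy =>
      obtain ⟨P, h, U, u1, u2, u3⟩ := hx
      obtain ⟨P', h', V, v1, v2, v3⟩ := hy
      refine ⟨P + P', (natDegree_add_le _ _).trans_lt (max_lt h h'), fun t => U t + V t,
        u1.add v1, fun t => by rw [ContinuousMap.add_apply, u2, v2], fun t ht => ?_⟩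
      rw [eval_add, add_div]
      exact (u3 t ht).add (v3 t ht)
    | smul c x _ hx =>
      obtain ⟨P, h, U, u1, u2, u3⟩ := hx
      refine ⟨c • P, (natDegree_smul_le _ _).trans_lt h, fun t => c * U t,
        analyticOnNhd_const.mul u1, fun t => by rw [ContinuousMap.smul_apply, u2, smul_eq_mul],
        fun t ht => ?_⟩
      rw [eval_smul, smul_eq_mul, mul_div_assoc]
      exact (u3 t ht).const_mul c
  · intro f P h hf
    have hd0 : ∀ t ∈ Set.Icc a b,
        HasDerivAt (fun t => f t - ∑ j ∈ range d, P.coeff j * G j t) 0 t := fun t ht => by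
      refine ((hf t ht).fun_sub (HasDerivAt.fun_sum fun j (_ : j ∈ range d) =>
        (hG' j t ht).const_mul (P.coeff j))).congr_deriv ?_
      rw [eval_eq_sum_range' h, sum_div, sub_eq_zero]
      exact sum_congr rfl fun j _ => by simp [mul_div_assoc]
    have hc := constant_of_has_deriv_right_zero
      (fun t ht => (hd0 t ht).continuousAt.continuousWithinAt)
      fun t ht => (hd0 t (Set.Ico_subset_Icc_self ht)).hasDerivWithinAt
    refine ⟨(f a - ∑ j ∈ range d, P.coeff j * G j a) • (1 : CI a b) +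
      ∑ j ∈ range d, P.coeff j • rs (G j) (hG j), Submodule.add_mem _
        (Submodule.smul_mem _ _ (Submodule.subset_span (Set.mem_insert _ _)))
        (Submodule.sum_mem _ fun j hj => Submodule.smul_mem _ _ (Submodule.subset_span
          (Set.mem_insert_of_mem _ ⟨j, mem_range.1 hj, rfl⟩))), fun t => ?_⟩
    rw [← hc t t.2]
    simp [rs]

theorem nr_eval {n r : ℕ} [NeZero n] {T : Tb n} {t1 : ℤ} {B : Br n r} (hB : B.Ok T t1)
    (A : Fin n → ℝ[X]) {t : ℝ} (ht : t ∈ B.I) : (NR T A).eval t = ∏ w, ‖B.ev A w t‖ ^ 2 := by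
  refine Eq.trans ?_ ((hB.em t ht).nrm fun i => aeval t (A i))
  unfold NR Nm
  rw [← coe_evalRingHom, RingHom.map_det]
  congr 1
  ext l j
  simp [Mx, Tb.fib, Matrix.sum_apply, eval_finset_sum, eval_map, aeval_def]

theorem ana_log {z : ℝ → ℂ} {t : ℝ} (h : AnalyticAt ℝ z t) (h0 : z t ≠ 0) :
    AnalyticAt ℝ (fun t => Real.log ‖z t‖) t := by
  have hr : AnalyticAt ℝ (fun t => (z t).re) t := (Complex.reCLM.analyticAt _).comp h
  have hi : AnalyticAt ℝ (fun t => (z t).im) t := (Complex.imCLM.analyticAt _).comp h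
  have e : (fun t => Real.log ‖z t‖) =
      fun t => 2⁻¹ * Real.log ((z t).re * (z t).re + (z t).im * (z t).im) := by
    funext t
    rw [← Complex.normSq_apply, Complex.normSq_eq_norm_sq, Real.log_pow]
    push_cast; ring
  rw [e]
  refine analyticAt_const.mul (AnalyticAt.log ((hr.mul hr).add (hi.mul hi)) ?_)
  exact Complex.normSq_pos.2 h0

theorem ana_ev {n r : ℕ} [NeZero n] {T : Tb n} {t1 : ℤ} {B : Br n r} (hB : B.Ok T t1)
    (A : Fin n → ℝ[X]) (w : Fin r) {t : ℝ} (ht : t ∈ B.I) : AnalyticAt ℝ (B.ev A w) t := by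
  unfold Br.ev emb
  exact Finset.analyticAt_fun_sum _ fun i _ => ((Complex.ofRealCLM.analyticAt _).comp
    (analyticAt_id.aeval_polynomial (A i))).mul (hB.ana w i t ht)

end RDat

open RDat in
theorem sDat : SDat := by
  intro hP n r _ T t1 B m ε0 hm hB
  have hn : 0 < n := Nat.pos_of_ne_zero (NeZero.ne n)
  have hfar : ((B.t0 : ℝ) + 1 + 2 * n) ≤ t1 := by exact_mod_cast hB.far
  have hn' : (0 : ℝ) < n := by exact_mod_cast hn
  have he : ∀ (v : Sh T B m ε0), ∀ t ∈ B.I, ((X - C (t1 : ℝ)) ^ n * NR T (vP v.1)).eval t =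
      (t - t1) ^ n * ∏ w, ‖B.ev (vP v.1) w t‖ ^ 2 := fun v t ht => by
    simp [nr_eval hB _ ht]
  have hQ : ∀ (v : Sh T B m ε0), ∀ t ∈ Set.Icc (B.t0 : ℝ) (B.t0 + B.ρ),
      ((X - C (t1 : ℝ)) ^ n * NR T (vP v.1)).eval t ≠ 0 := fun v t ht => by
    rw [he v t ht]
    refine mul_ne_zero (pow_ne_zero _ ?_) (prod_ne_zero_iff.2 fun w _ =>
      pow_ne_zero _ (norm_ne_zero_iff.2 (v.2.2 w t ht)))
    have := ht.2
    have := hB.rho.2
    exact ne_of_lt (by linarith)
  choose F h1 h2 h3 using fun v => fam hP _ (hQ v) (Nat.mul_pos hn hm)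
  have hl : ∀ (v : Sh T B m ε0) (w : Fin r), AnalyticOnNhd ℝ
      (fun t => Real.log ‖B.ev (vP v.1) w t‖) (Set.Icc (B.t0 : ℝ) (B.t0 + B.ρ)) :=
    fun v w t ht => ana_log (ana_ev hB _ w ht) (v.2.2 w t ht)
  refine ⟨fun v w => rs _ (hl v w), F, fun _ _ _ => rfl, fun v w => ⟨_, hl v w, fun _ => rfl⟩,
    fun v g hg => ?_, h1, fun v f ⟨P, h, hf⟩ => h3 v f P h fun t ht => ?_, fun v g hg => ?_⟩
  · obtain ⟨_, _, G, g1, g2, _⟩ := h2 v g hg
    exact ⟨G, g1, g2⟩
  · simpa using hf t ⟨ht.1, ht.2.trans (by linarith [hB.rho.2])⟩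
  · obtain ⟨P, h, G0, _, g2, g3⟩ := h2 v g hg
    refine ⟨P, h, fun G hG t ht hd => ?_⟩
    have e : ∀ s ∈ Set.Icc (B.t0 : ℝ) (B.t0 + B.ρ), G s = G0 s := fun s hs =>
      (hG ⟨s, hs⟩).symm.trans (g2 ⟨s, hs⟩)
    rw [(uniqueDiffOn_Icc (by linarith [hB.rho.1]) t ht).eq_deriv _
      hd.hasDerivAt.hasDerivWithinAt ((g3 t ht).hasDerivWithinAt.congr e (e t ht)), ← he v t ht,
      mul_div_cancel₀ _ (hQ v t ht)]

end Pool.Agent.MP_f3836a_nt.GV.R
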