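import Pool.Agent.MP_f3836a_nt.GV.SpecR

/-! Finitely many shapes are enough. -/

set_option autoImplicit false

namespace Pool.Agent.MP_f3836a_nt.GV.R

open Finset
open scoped Matrix

namespace RFin

variable {a b : ℝ} {𝒜 : Subalgebra ℝ (CI a b)} {r : ℕ} {Q : Matrix (Fin r) (Fin r) ℝ} {V : Type}
  {l : V → Fin r → CI a b} {F : V → Submodule ℝ (CI a b)}

theorem inj0 (h : Sep 𝒜 Q l F) : ∃ S : Finset V, ∀ (t : Set.Icc a b) (c : Fin r → ℝ),
    (∀ v ∈ S, ∑ w, c w * l v w t = 0) → c = 0 := by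
  obtain ⟨S, hS⟩ := (isCompact_univ.prod (isCompact_sphere (0 : Fin r → ℝ) 1)).elim_finite_subcover
    (fun v => {p : Set.Icc a b × (Fin r → ℝ) | ∑ w, p.2 w * l v w p.1 ≠ 0})
    (fun v => isOpen_ne_fun (by fun_prop) continuous_const) fun p hp => by
      by_contra e
      simp only [Set.mem_iUnion, Set.mem_ofPred_eq, not_exists, not_not] at e
      simpa [h.inj p.1 p.2 e] using hp.2
  refine ⟨S, fun t c hc => by_contra fun c0 => ?_⟩
  have n0 : ‖c‖ ≠ 0 := norm_ne_zero_iff.2 c0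
  obtain ⟨v, hv, e⟩ := Set.mem_iUnion₂.1 (hS (a := (t, ‖c‖⁻¹ • c)) ⟨trivial, by
    simp [norm_smul, n0]⟩)
  refine e ?_
  simp only [Pi.smul_apply, smul_eq_mul, mul_assoc, ← mul_sum, hc v hv, mul_zero]

/-- the combination with the shape `v` -/
noncomputable def L (l : V → Fin r → CI a b) (v : V) : (Fin r → CI a b) →ₗ[ℝ] CI a b where
  toFun c := ∑ w, c w * l v w
  map_add' c c' := by simp only [Pi.add_apply, add_mul, sum_add_distrib]
  map_smul' x c := by simp only [Pi.smul_apply, smul_mul_assoc, RingHom.id_apply, smul_sum]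

/-- the coefficient families that pass the tests in `S` -/
def C (𝒜 : Subalgebra ℝ (CI a b)) (Q : Matrix (Fin r) (Fin r) ℝ) (l : V → Fin r → CI a b)
    (F : V → Submodule ℝ (CI a b)) (S : Finset V) : Submodule ℝ (Fin r → CI a b) where
  carrier := {c | (∀ w, c w ∈ 𝒜) ∧ (∀ t, (Q *ᵥ fun w => c w t) = 0) ∧ ∀ v ∈ S, L l v c ∈ F v}
  add_mem' {c c'} h h' := ⟨fun w => add_mem (h.1 w) (h'.1 w), fun t =>
    (Q.mulVec_add (fun w => c w t) fun w => c' w t).trans (by rw [h.2.1, h'.2.1, add_zero]),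
    fun v hv => map_add (L l v) c c' ▸ add_mem (h.2.2 v hv) (h'.2.2 v hv)⟩
  zero_mem' := ⟨fun _ => zero_mem _, fun _ => Q.mulVec_zero, fun v _ =>
    (map_zero (L l v)).symm ▸ zero_mem _⟩
  smul_mem' x c h := ⟨fun w => 𝒜.smul_mem (h.1 w) x, fun t =>
    (Q.mulVec_smul x fun w => c w t).trans (by rw [h.2.1, smul_zero]),
    fun v hv => (map_smul (L l v) x c).symm ▸ (F v).smul_mem x (h.2.2 v hv)⟩

end RFin

open RFin

theorem sFin : SFin := by
  classical
  intro a b 𝒜 r Q V l F h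
  obtain ⟨S₀, h0⟩ := inj0 h
  obtain ⟨S, hS, hm⟩ := (InvImage.wf (fun S => Module.finrank ℝ (C 𝒜 Q l F S))
    wellFounded_lt).has_min {S | S₀ ⊆ S} ⟨S₀, Subset.refl S₀⟩
  have := h.fd
  have fd : FiniteDimensional ℝ (C 𝒜 Q l F S) := by
    refine FiniteDimensional.of_injective (LinearMap.pi fun v : S =>
      ((L l v.1).domRestrict (C 𝒜 Q l F S)).codRestrict (F v.1) fun c => c.2.2.2 v.1 v.2)
      ((injective_iff_map_eq_zero _).2 fun c e => Subtype.ext ?_)
    ext w t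
    refine congrFun (h0 t (fun w => c.1 w t) fun v hv => ?_) w
    have := DFunLike.congr_fun (congrArg Subtype.val (congrFun e ⟨v, hS hv⟩)) t
    simpa [L] using this
  refine ⟨_, fun k => (S.equivFin.symm k).1, fun _ => h.ml _, fun _ => h.mF _, fun _ => h.fd _,
    fun t c e => h0 t c fun v hv => by simpa using e (S.equivFin ⟨v, hS hv⟩),
    fun c c1 c2 c3 => h.rig c c1 c2 fun v => by_contra fun hv => ?_⟩
  have k1 : c ∈ C 𝒜 Q l F S :=
    ⟨c1, c2, fun u hu => by simpa [L] using c3 (S.equivFin ⟨u, hu⟩)⟩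
  have k2 : c ∉ C 𝒜 Q l F (insert v S) := fun k => hv (k.2.2 v (mem_insert_self v S))
  have k3 : C 𝒜 Q l F (insert v S) ≤ C 𝒜 Q l F S :=
    fun x hx => ⟨hx.1, hx.2.1, fun u hu => hx.2.2 u (mem_insert_of_mem hu)⟩
  exact hm (insert v S) (hS.trans (subset_insert v S))
    (Submodule.finrank_lt_finrank_of_lt (k3.lt_of_ne fun e => k2 (e ▸ k1)))

end Pool.Agent.MP_f3836a_nt.GV.R
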