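import Pool.Agent.MP_f3836a_nt.GV.SpecR

/-! Independence of real logarithms. -/

set_option autoImplicit false

namespace Pool.Agent.MP_f3836a_nt.GV.R

open Polynomial Finset VE Filter Topology
open scoped ComplexConjugate

namespace RLi

theorem log_add {w : ℂ} (h : w ∈ Complex.slitPlane) :
    Complex.log w + Complex.log (conj w) = 2 * (Real.log ‖w‖ : ℝ) := by
  rw [Complex.log_conj w (Complex.slitPlane_arg_ne_pi h), Complex.add_conj, Complex.log_re]
  push_cast
  rfl

theorem ev_map (p : ℝ[X]) (e : ℝ) : (p.map (algebraMap ℝ ℂ)).eval (e : ℂ) = (p.eval e : ℝ) :=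
  (eval_map_algebraMap p _).trans (aeval_algebraMap_apply_eq_algebraMap_eval e p)

end RLi

theorem sLi : SLi := by
  intro hC α _ z p q hz h i
  have h0 : ∀ i, z i ≠ 0 := fun i e => hz.2 i i (by rw [e, map_zero])
  have h1 : ∀ᶠ e : ℝ in 𝓝 0, ∀ i, 1 + e * z i ∈ Complex.slitPlane := eventually_all.2 fun i =>
    (by fun_prop : Continuous fun e : ℝ => 1 + e * z i).continuousAt.eventually
      (Complex.isOpen_slitPlane.mem_nhds (by simp))
  have := hC (α ⊕ α) (Sum.elim z fun i => conj (z i))
    (Sum.elim (fun i => (p i).map (algebraMap ℝ ℂ)) fun i => (p i).map (algebraMap ℝ ℂ))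
    (2 * q.map (algebraMap ℝ ℂ)) (by
      rintro (a | a) (b | b) e
      · exact congrArg _ (hz.1 e)
      · exact absurd e (hz.2 a b)
      · exact absurd e.symm (hz.2 b a)
      · exact congrArg _ (hz.1 ((starRingEnd ℂ).injective e)))
    (by
      rintro (a | a)
      · exact h0 a
      · exact (_root_.map_ne_zero _).2 (h0 a))
    (by
      filter_upwards [h, h1] with e a b
      rw [Fintype.sum_sum_type, ← sum_add_distrib, eval_mul, eval_ofNat, RLi.ev_map, ← a,
        Complex.ofReal_sum, mul_sum]
      refine sum_congr rfl fun j _ => ?_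
      have := RLi.log_add (b j)
      rw [map_add, map_one, map_mul, Complex.conj_ofReal] at this
      simp only [Sum.elim_inl, Sum.elim_inr, RLi.ev_map]
      rw [← mul_add, this, Complex.ofReal_mul, mul_left_comm]) (.inl i)
  exact (Polynomial.map_eq_zero _).1 this

end Pool.Agent.MP_f3836a_nt.GV.R
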