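import Pool.Agent.MP_f3836a_nt.GV.SpecR

/-! Independence of complex logarithms over polynomials. -/

set_option autoImplicit false

namespace Pool.Agent.MP_f3836a_nt.GV.R

open Polynomial Finset Filter Topology

namespace RLiC

/-- the linear factor -/
noncomputable def lf (ζ : ℂ) : ℂ[X] := 1 + X * C ζ

theorem ev (ζ z : ℂ) : (lf ζ).eval z = 1 + z * ζ := by simp [lf, mul_comm z]

theorem der (ζ : ℂ) : derivative (lf ζ) = C ζ := by simp [lf]

theorem root {ζ : ℂ} (h : ζ ≠ 0) : (lf ζ).eval (-ζ⁻¹) = 0 := by simp [ev, h]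

/-- the derivative of a rational function has no residue -/
theorem res {ζ : ℂ} (h : ζ ≠ 0) {V E T : ℂ[X]} (hV : V.eval (-ζ⁻¹) ≠ 0) (k : ℕ) : ∀ q : ℂ[X],
    derivative q * (lf ζ * V) - (C (k : ℂ) * (C ζ * V) + lf ζ * E) * q = lf ζ ^ k * T →
    T.eval (-ζ⁻¹) = 0 := by
  induction k with
  | zero =>
    intro q e
    simpa [root h] using (congrArg (eval (-ζ⁻¹)) e).symm
  | succ k ih =>
    intro q e
    have h1 : q.eval (-ζ⁻¹) = 0 := by
      simpa [root h, h, hV, Nat.cast_add_one_ne_zero] using congrArg (eval (-ζ⁻¹)) e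
    obtain ⟨q0, rfl⟩ : lf ζ ∣ q := by
      refine Dvd.dvd.trans ⟨C ζ⁻¹, ?_⟩ (dvd_iff_isRoot.2 h1)
      rw [lf, add_mul, mul_assoc, ← C_mul, mul_inv_cancel₀ h]
      simp [add_comm]
    have h2 : lf ζ ≠ 0 := fun h0 => by simpa [ev] using congrArg (eval 0) h0
    refine ih q0 (mul_left_cancel₀ h2 ?_)
    rw [derivative_mul, der, Nat.cast_succ, C_add, C_1] at e
    linear_combination e

theorem zero_of {q : ℂ[X]} (h : ∀ᶠ e : ℝ in 𝓝 0, q.eval (e : ℂ) = 0) : q = 0 :=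
  eq_zero_of_infinite_isRoot q (((infinite_of_mem_nhds 0 h).image
    Complex.ofReal_injective.injOn).mono (by rintro _ ⟨e, he, rfl⟩; exact he))

variable {α : Type} [Fintype α] [DecidableEq α] {ζ : α → ℂ}

theorem step (m : ℕ) (p : α → ℂ[X]) (q : ℂ[X])
    (h : ∀ᶠ e : ℝ in 𝓝 0, ((∏ j, lf (ζ j)) ^ (m + 1)).eval (e : ℂ) *
      ∑ i, (p i).eval (e : ℂ) * Complex.log (1 + e * ζ i) = q.eval (e : ℂ)) :
    ∀ᶠ e : ℝ in 𝓝 0, ((∏ j, lf (ζ j)) ^ (m + 1 + 1)).eval (e : ℂ) *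
      ∑ i, (derivative (p i)).eval (e : ℂ) * Complex.log (1 + e * ζ i) =
      (derivative q * ∏ j, lf (ζ j) - C ((m + 1 : ℕ) : ℂ) * derivative (∏ j, lf (ζ j)) * q -
        (∏ j, lf (ζ j)) ^ (m + 1) * ∑ i, p i * C (ζ i) * ∏ j ∈ univ.erase i, lf (ζ j)).eval
        (e : ℂ) := by
  have hs : ∀ᶠ e : ℝ in 𝓝 0, ∀ i, 1 + e * ζ i ∈ Complex.slitPlane := eventually_all.2 fun i =>
    (by fun_prop : Continuous fun e : ℝ => 1 + e * ζ i).continuousAt.eventually_mem
      (Complex.isOpen_slitPlane.mem_nhds (by simp))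
  filter_upwards [h.eventually_nhds, hs] with e h1 h2
  have d1 : HasDerivAt (fun z : ℂ => ∑ i, (p i).eval z * Complex.log (1 + z * ζ i)) _ e :=
    HasDerivAt.fun_sum fun i _ => ((p i).hasDerivAt (e : ℂ)).mul
      ((((hasDerivAt_id' (e : ℂ)).mul_const (ζ i)).const_add 1).clog (h2 i))
  have d2 := ((((∏ j, lf (ζ j)) ^ (m + 1)).hasDerivAt (e : ℂ)).mul d1).comp_ofReal.unique
    ((q.hasDerivAt (e : ℂ)).comp_ofReal.congr_of_eventuallyEq h1)
  have d3 : (∏ j, lf (ζ j)).eval (e : ℂ) * ∑ i, (p i).eval (e : ℂ) * (1 * ζ i / (1 + e * ζ i)) =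
      (∑ i, p i * C (ζ i) * ∏ j ∈ univ.erase i, lf (ζ j)).eval (e : ℂ) := by
    rw [mul_sum, eval_finsetSum]
    refine sum_congr rfl fun i _ => ?_
    have := Complex.slitPlane_ne_zero (h2 i)
    rw [← mul_prod_erase _ _ (mem_univ i), eval_mul, eval_mul, eval_mul, ev, eval_C]
    field_simp
  have d4 := h1.self_of_nhds
  generalize ∏ j, lf (ζ j) = W at d2 d3 d4 ⊢
  rw [sum_add_distrib, derivative_pow_succ] at d2
  simp only [eval_mul, eval_sub, eval_pow, eval_C, Nat.cast_succ] at d2 d4 ⊢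
  linear_combination W.eval (e : ℂ) * d2 - (m + 1) * (derivative W).eval (e : ℂ) * d4 -
    W.eval (e : ℂ) ^ (m + 1) * d3

theorem main (hi : Function.Injective ζ) (h0 : ∀ i, ζ i ≠ 0) (N : ℕ) :
    ∀ (m : ℕ) (p : α → ℂ[X]) (q : ℂ[X]), (∀ i, derivative^[N] (p i) = 0) →
    (∀ᶠ e : ℝ in 𝓝 0, ((∏ j, lf (ζ j)) ^ (m + 1)).eval (e : ℂ) *
      ∑ i, (p i).eval (e : ℂ) * Complex.log (1 + e * ζ i) = q.eval (e : ℂ)) → ∀ i, p i = 0 := by
  induction N with
  | zero => exact fun _ _ _ h _ => h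
  | succ N ih =>
    intro m p q hp h i
    have h1 := step m p q h
    have h2 := ih _ _ _ hp h1
    have h3 := zero_of (h1.mono fun e he => he.symm.trans (by simp [h2]))
    have hV : (∏ j ∈ univ.erase i, lf (ζ j)).eval (-(ζ i)⁻¹) ≠ 0 := by
      rw [eval_prod]
      refine prod_ne_zero_iff.2 fun j hj h4 => ne_of_mem_erase hj (hi ?_)
      have := h0 i
      rw [ev] at h4
      field_simp at h4
      linear_combination -h4
    rw [← mul_prod_erase _ _ (mem_univ i), derivative_mul, der] at h3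
    have h4 := res (h0 i) hV (m + 1) q
      (E := C ((m + 1 : ℕ) : ℂ) * derivative (∏ j ∈ univ.erase i, lf (ζ j)))
      (T := (∏ j ∈ univ.erase i, lf (ζ j)) ^ (m + 1) *
        ∑ i, p i * C (ζ i) * ∏ j ∈ univ.erase i, lf (ζ j)) (by linear_combination h3)
    rw [eval_mul, eval_pow, eval_finsetSum, sum_eq_single i (fun j _ hj => by
      rw [eval_mul, eval_prod, prod_eq_zero (mem_erase.2 ⟨hj.symm, mem_univ i⟩) (root (h0 i)),
        mul_zero]) (by simp), eq_C_of_derivative_eq_zero (h2 i)] at h4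
    rw [eq_C_of_derivative_eq_zero (h2 i)]
    simpa [hV, h0 i] using h4

end RLiC

open RLiC in
theorem liC : LiC := by
  classical
  intro α _ ζ p q hi h0 h
  refine main hi h0 (univ.sup (fun i => (p i).natDegree) + 1) 0 p ((∏ j, lf (ζ j)) ^ (0 + 1) * q)
    (fun i => iterate_derivative_eq_zero (Nat.lt_succ_of_le
      (le_sup (f := fun i => (p i).natDegree) (mem_univ i)))) (h.mono fun e he => ?_)
  rw [he, eval_mul]

end Pool.Agent.MP_f3836a_nt.GV.R
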