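import Pool.Agent.MP_f3836a_nt.GV.SpecR

/-! Quantitative uniqueness. -/

set_option autoImplicit false

namespace Pool.Agent.MP_f3836a_nt.GV.R

open Finset VE Filter Topology

namespace RQu

theorem ind0 (p : Prop) : 0 ≤ ind p := by by_cases h : p <;> simp [ind, h]

theorem one_le {ι : Type} {s : Finset ι} {p : ι → Prop} {i : ι} (hi : i ∈ s) (h : p i) :
    1 ≤ ∑ i ∈ s, ind (p i) :=
  le_trans (by simp [ind, h]) (single_le_sum (f := fun i => ind (p i)) (fun _ _ => ind0 _) hi)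

variable {a b D : ℝ} {H : Type} [Fintype H] {σ : H → ℝ} {t : H → Set.Icc a b} {J : ℕ}

theorem near (h : Spr σ t J D) (hD : 0 ≤ D) (hJ : (0 : ℝ) < J) (z : ℝ) {η : ℝ} (hη : 0 ≤ η) :
    ∑ x, σ x * ind (|(t x : ℝ) - z| < η) ≤ 2 * η * D + 2 * (D / J) := by
  have e : ∀ x, ind (|(t x : ℝ) - z| < η) ≤ ∑ k ∈ Icc ⌊J * (z - η - a)⌋₊
      (⌊J * (z - η - a)⌋₊ + ⌈2 * η * J⌉₊), ind (⌊(J : ℝ) * ((t x : ℝ) - a)⌋₊ = k) := fun x => by
    by_cases c : |(t x : ℝ) - z| < η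
    · obtain ⟨c1, c2⟩ := abs_lt.1 c
      refine le_trans (by simp [ind, c]) (one_le (mem_Icc.2 ⟨Nat.floor_mono (by nlinarith),
        Nat.lt_succ_iff.1 ((Nat.floor_lt' (Nat.succ_ne_zero _)).2 ?_)⟩) rfl)
      push_cast
      nlinarith [Nat.lt_floor_add_one (J * (z - η - a)), Nat.le_ceil (2 * η * J)]
    · exact le_trans (by simp [ind, c]) (sum_nonneg fun _ _ => ind0 _)
  refine (sum_le_sum fun x _ => mul_le_mul_of_nonneg_left (e x) (h.1 x)).trans ?_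
  simp only [mul_sum]
  rw [sum_comm]
  refine (sum_le_card_nsmul _ _ _ fun k _ => h.2.2 k).trans ?_
  rw [Nat.card_Icc, add_assoc, Nat.add_sub_cancel_left, nsmul_eq_mul]
  push_cast
  have := mul_le_mul_of_nonneg_right (Nat.ceil_lt_add_one (a := 2 * η * J) (by positivity)).le
    (div_nonneg hD hJ.le)
  have e2 : 2 * η * J * (D / J) = 2 * η * D := by field_simp
  linarith

theorem loc (g0 : CI a b) (hz : {t | g0 t = 0}.Finite) (hD : 0 < D) : ∃ (J0 : ℕ) (c : ℝ), 0 < c ∧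
    ∀ g : CI a b, dist g g0 ≤ c → ∀ J, J0 ≤ J → ∀ (H : Type) [Fintype H] (σ : H → ℝ)
      (t : H → Set.Icc a b), Spr σ t J D → c ^ 2 / 2 ≤ ∑ h, σ h * g (t h) ^ 2 := by
  obtain ⟨Z, hZ⟩ := hz.exists_finset_coe
  obtain ⟨N, hN⟩ : ∃ N : ℝ, N = 8 * (Z.card + 1) * D := ⟨_, rfl⟩
  have N0 : 0 < N := by rw [hN]; positivity
  have hK : IsClosed {t : Set.Icc a b | ∀ z ∈ Z, N⁻¹ ≤ |(t : ℝ) - z|} := by
    simp only [Set.ofPred_forall]
    exact isClosed_iInter fun z => isClosed_iInter fun _ => isClosed_le (by fun_prop) (by fun_prop)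
  obtain ⟨c, hc, h⟩ := hK.isCompact.exists_forall_le' (f := fun t => |g0 t| / 2) (a := 0)
    (by fun_prop) fun t ht => half_pos (abs_pos.2 fun e => by
      simpa [N0.not_ge] using ht t (mem_coe.1 (hZ ▸ e)))
  refine ⟨⌈N⌉₊, c, hc, fun g hg J hJ H _ σ t hs => ?_⟩
  have J1 : N ≤ J := Nat.ceil_le.1 hJ
  have e : ∀ x, c ^ 2 * (1 - ∑ z ∈ Z, ind (|(t x : ℝ) - z| < N⁻¹)) ≤ g (t x) ^ 2 := fun x => by
    by_cases d : ∀ z ∈ Z, N⁻¹ ≤ |(t x : ℝ) - z|
    · have a1 := h _ d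
      have a2 := (g.dist_apply_le_dist (g := g0) (t x)).trans hg
      have a3 := abs_sub_abs_le_abs_sub (g0 (t x)) (g (t x))
      rw [dist_comm, Real.dist_eq] at a2
      have a4 : c ^ 2 ≤ |g (t x)| ^ 2 := pow_le_pow_left₀ hc.le (by linarith) 2
      rw [sq_abs] at a4
      exact (mul_le_of_le_one_right (sq_nonneg c) (sub_le_self _ (sum_nonneg fun _ _ =>
        ind0 _))).trans a4
    · push Not at d
      obtain ⟨z, hz, d⟩ := d
      exact (mul_nonpos_of_nonneg_of_nonpos (sq_nonneg c) (sub_nonpos.2 (one_le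
        (p := fun z : Set.Icc a b => |(t x : ℝ) - z| < N⁻¹) hz d))).trans (sq_nonneg _)
  refine le_trans ?_ (sum_le_sum fun x _ => mul_le_mul_of_nonneg_left (e x) (hs.1 x))
  have a1 := sum_le_card_nsmul Z _ _ fun z _ =>
    near hs hD.le (N0.trans_le J1) z (inv_nonneg.2 N0.le)
  have a2 : D / J ≤ N⁻¹ * D := by rw [inv_mul_eq_div]; gcongr
  have a3 : (Z.card + 1) * (N⁻¹ * D) = 1 / 8 := by rw [hN]; field_simp
  have a4 : 0 ≤ N⁻¹ * D := by positivity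
  rw [sum_comm, nsmul_eq_mul] at a1
  simp only [mul_left_comm _ (c ^ 2), ← mul_sum] at a1 ⊢
  refine (div_eq_mul_one_div _ _).trans_le (mul_le_mul_of_nonneg_left ?_ (sq_nonneg c))
  simp only [mul_sub, mul_one, sum_sub_distrib, hs.2.1]
  linarith [mul_le_mul_of_nonneg_left a2 (Nat.cast_nonneg (α := ℝ) Z.card)]

end RQu

theorem sQu : SQu := by
  intro a b W _ _ _ ι _ R hR D
  have := FiniteDimensional.proper_real W
  obtain ⟨J0, c, hc, h⟩ : ∃ (J0 : ℕ) (c : ℝ), 0 < c ∧ ∀ f ∈ Metric.sphere (0 : W) 1, ∀ J, J0 ≤ J →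
      ∀ (H : Type) [Fintype H] (σ : H → ℝ) (t : H → Set.Icc a b), Spr σ t J (max D 1) →
        c ≤ ∑ h, σ h * ∑ j, R j f (t h) ^ 2 := by
    refine (isCompact_sphere (0 : W) 1).induction_on (p := fun s => ∃ (J0 : ℕ) (c : ℝ), 0 < c ∧
      ∀ f ∈ s, ∀ J, J0 ≤ J → ∀ (H : Type) [Fintype H] (σ : H → ℝ) (t : H → Set.Icc a b),
        Spr σ t J (max D 1) → c ≤ ∑ h, σ h * ∑ j, R j f (t h) ^ 2) ⟨0, 1, one_pos, by simp⟩
      (fun s s' i ⟨J, c, hc, h⟩ => ⟨J, c, hc, fun f hf => h f (i hf)⟩)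
      (fun s s' ⟨J, c, hc, h⟩ ⟨J', c', hc', h'⟩ => ⟨max J J', min c c', lt_min hc hc',
        fun f hf K hK H _ σ t hs => hf.elim
          (fun i => (min_le_left _ _).trans (h f i K (le_of_max_le_left hK) H σ t hs))
          fun i => (min_le_right _ _).trans (h' f i K (le_of_max_le_right hK) H σ t hs)⟩)
      fun f0 hf => ?_
    obtain ⟨j, hj⟩ := hR f0 (ne_zero_of_mem_unit_sphere ⟨f0, hf⟩)
    obtain ⟨J0, c, hc, h⟩ := RQu.loc _ hj (lt_max_of_lt_right one_pos : 0 < max D 1)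
    exact ⟨_, nhdsWithin_le_nhds ((R j).continuous_of_finiteDimensional.continuousAt
      (Metric.closedBall_mem_nhds _ hc)), J0, c ^ 2 / 2, by positivity,
      fun f hf J hJ H _ σ t hs => (h _ hf J hJ H σ t hs).trans (sum_le_sum fun x _ =>
        mul_le_mul_of_nonneg_left (single_le_sum (f := fun j => R j f (t x) ^ 2)
          (fun _ _ => sq_nonneg _) (mem_univ j)) (hs.1 x))⟩
  refine ⟨J0, c⁻¹, inv_pos.2 hc, fun J hJ H _ σ t hs f => ?_⟩
  rcases eq_or_ne f 0 with rfl | hf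
  · simp
  have n0 := norm_pos_iff.2 hf
  have e := h (‖f‖⁻¹ • f) (by simp [norm_smul, hf]) J hJ H σ t ⟨hs.1, hs.2.1, fun k =>
    (hs.2.2 k).trans (div_le_div_of_nonneg_right (le_max_left _ _) (Nat.cast_nonneg _))⟩
  simp only [map_smul, ContinuousMap.smul_apply, smul_eq_mul, mul_pow, ← mul_sum,
    mul_left_comm _ (‖f‖⁻¹ ^ 2)] at e
  rwa [le_inv_mul_iff₀ hc, mul_comm, ← le_inv_mul_iff₀ (by positivity), ← inv_pow]

end Pool.Agent.MP_f3836a_nt.GV.R
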