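import Pool.Agent.MP_f3836a_nt.GV.RApi

/-! Rigidity on the branches. -/

set_option autoImplicit false

namespace Pool.Agent.MP_f3836a_nt.GV.R

open Polynomial Finset VE Filter Topology
open scoped ComplexConjugate Matrix

namespace RRig

variable {n r : ℕ} (B : Br n r)

/-- the value of a shape of degree one -/
noncomputable def Z (u v : Fin n → ℝ) (w : Fin r) (t : ℝ) : ℂ :=
  ∑ i, ((u i + v i * t : ℝ) : ℂ) * B.Y w t i

theorem vP_coeff {e : Fin n → ℕ} {m : ℕ} (A : Fin n → ℝ[X]) (i : Fin n)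
    (h : (A i).natDegree < m - max (e i) 1) : vP (fun j : Ix e m => (A j.1).coeff j.2) i = A i := by
  conv_rhs => rw [as_sum_range' _ _ h, Finset.sum_range]
  rfl

theorem exists_vP {e : Fin n → ℕ} {m : ℕ} (hm : ∀ i, e i + 3 ≤ m) (u v : Fin n → ℝ) :
    ∃ x : Ix e m → ℝ, B.ev (vP x) = Z B u v := by
  refine ⟨fun j => (C (v j.1) * X + C (u j.1)).coeff j.2, funext₂ fun w t => ?_⟩
  rw [Br.ev, emb, Z]
  refine sum_congr rfl fun i _ => ?_
  rw [vP_coeff (fun i => C (v i) * X + C (u i)) i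
    (natDegree_linear_le.trans_lt (by have := hm i; omega))]
  simp [add_comm]

variable {B} {t : ℝ} {w : Fin r}

theorem ana (h : ∀ i, AnalyticAt ℝ (fun t => B.Y w t i) t) (u v : Fin n → ℝ) :
    AnalyticAt ℝ (Z B u v w) t :=
  Finset.analyticAt_fun_sum _ fun i _ => ((Complex.ofRealCLM.analyticAt _).comp
    (f := fun t => u i + v i * t) (by fun_prop)).mul (h i)

theorem der (h : ∀ i, AnalyticAt ℝ (fun t => B.Y w t i) t) (u v : Fin n → ℝ) :
    deriv (Z B u v w) t = ∑ i, v i * B.Y w t i +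
      ∑ i, ((u i + v i * t : ℝ) : ℂ) * deriv (fun t => B.Y w t i) t := by
  rw [← sum_add_distrib]
  refine (HasDerivAt.fun_sum fun i _ => ?_).deriv
  simpa only [mul_one] using (((hasDerivAt_id' t).const_mul (v i)).const_add (u i)).ofReal_comp.fun_mul
    (h i).differentiableAt.hasDerivAt

end RRig

open RRig in
theorem sRig : SRig := by
  intro h1 h2 h3 n r _ T t1 B ι cls m d c hn hT hB hC hm hc hQ hR
  have hab : (B.t0 : ℝ) < B.t0 + B.ρ := lt_add_of_pos_right _ hB.rho.1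
  have ha : (B.t0 : ℝ) ∈ B.I := Set.left_mem_Icc.2 hab.le
  have hY : ∀ w, ∀ t ∈ B.I, ∀ i, AnalyticAt ℝ (fun t => B.Y w t i) t :=
    fun w t ht i => hB.ana w i t ht
  have hR' : ∀ u v, Rel B.t0 (B.t0 + B.ρ) d (fun t => (t - t1) ^ n) c (Z B u v) := fun u v => by
    obtain ⟨x, e⟩ := exists_vP B hm u v
    exact e ▸ hR x
  have k1 : ∀ w, ∀ t ∈ B.I, c w t = c w B.t0 := by
    obtain ⟨θ, hθ⟩ := (hB.em _ ha).surj hn fun w => ((w + 1 : ℝ) : ℂ) * Complex.I
    obtain ⟨K, hK⟩ := (Set.finite_range fun w =>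
      -(∑ i, (θ i : ℂ) * deriv (fun t => B.Y w t i) B.t0).re).exists_notMem
    have e : ∀ i, θ i - Pi.single (M := fun _ => ℝ) 0 K i * B.t0 +
        Pi.single (M := fun _ => ℝ) 0 K i * B.t0 = θ i := fun i => sub_add_cancel _ _
    refine h1 r d _ _ _ c _ hab (fun t ht => pow_ne_zero _ (sub_ne_zero.2 (ne_of_lt ?_))) hc
      (fun w t ht => ana (hY w t ht) _ _) ?_ (fun w h => hK ⟨w, ?_⟩)
      (hR' (fun i => θ i - Pi.single (M := fun _ => ℝ) 0 K i * B.t0) (Pi.single 0 K))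
    · have h4 : (B.t0 : ℝ) + 1 + 2 * n ≤ t1 := by exact_mod_cast hB.far
      have h5 : (0 : ℝ) < n := Nat.cast_pos.2 (NeZero.pos n)
      linarith [ht.2, hB.rho.2]
    · simp only [Z, e]
      refine ⟨fun w w' h => ?_, fun w w' h => ?_⟩
      · have := congrArg Complex.im ((hθ w).symm.trans (h.trans (hθ w')))
        exact Fin.ext (by simpa using this)
      · have := congrArg Complex.im ((hθ w).symm.trans (h.trans (congrArg conj (hθ w'))))
        simp only [Complex.conj_im, Complex.mul_I_im, Complex.ofReal_re] at this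
        linarith [Nat.cast_nonneg (α := ℝ) w, Nat.cast_nonneg (α := ℝ) w']
    · rw [der (hY w _ ha), sum_eq_single 0 (fun i _ hi => by simp [hi]) (by simp),
        ((hB.em _ ha).hom w).1] at h
      simp only [e, Pi.single_eq_same, mul_one, Complex.add_re, Complex.ofReal_re] at h
      exact neg_eq_of_add_eq_zero_left h
  have k2 : ∀ w, ∀ t ∈ B.I, ∀ᶠ τ in 𝓝 t, c w τ = c w B.t0 := fun w t ht =>
    ((hc w t ht).frequently_eq_iff_eventually_eq analyticAt_const).1
      ((accPt_iff_frequently_nhdsNE.1 (isPreconnected_Icc.preperfect_of_nontrivial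
        ⟨_, ha, _, Set.right_mem_Icc.2 hab.le, hab.ne⟩ t ht)).mono (k1 w))
  have k3 : ∀ u v, ∃ P : ℝ[X], ∀ t ∈ B.I,
      (t - t1) ^ n * ∑ w, c w B.t0 * (deriv (Z B u v w) t).re = P.eval t := fun u v =>
    h2 r d _ _ _ _ _ hab (fun w t ht => (ana (hY w t ht) u v).differentiableAt)
      ((hR' u v).mono fun e ⟨P, p1, p2⟩ => ⟨P, p1, fun t ht => by
        rw [← p2 t ht]
        refine congrArg _ (EventuallyEq.deriv_eq ?_)
        filter_upwards [eventually_all.2 fun w => k2 w t ht] with τ hτ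
        simp only [hτ]⟩)
  have k4 := h3 n r T t1 B ι cls (fun w => c w B.t0) hn hT hB hC fun i => by
    obtain ⟨P, hP⟩ := k3 (Pi.single i 1) 0
    obtain ⟨P', hP'⟩ := k3 0 (Pi.single i 1)
    refine ⟨P' - X * P, fun t ht => ?_⟩
    rw [eval_sub, eval_mul, eval_X, ← hP t ht, ← hP' t ht, mul_left_comm, ← mul_sub, mul_sum _ _ t,
      ← sum_sub_distrib]
    refine congrArg _ (sum_congr rfl fun w _ => ?_)
    rw [der (hY w t ht), der (hY w t ht)]
    simp [Pi.single_apply, apply_ite, ite_mul]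
    ring
  intro w t ht
  have k5 := congrFun (hQ _ ha) w
  rw [Matrix.mulVec, dotProduct, sum_congr rfl (g := fun w' => Qm cls w w' * c w B.t0) fun w' _ => by
    by_cases h : cls w' = cls w
    · rw [k4 w' w h]
    · simp [Qm, h], ← sum_mul] at k5
  refine (k1 w t ht).trans ((mul_eq_zero.1 k5).resolve_left (ne_of_gt (sum_pos' (fun w' _ => ?_)
    ⟨w, mem_univ w, by simp [Qm]⟩)))
  rw [Qm, Matrix.of_apply]
  split_ifs <;> norm_num

end Pool.Agent.MP_f3836a_nt.GV.R
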