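import Pool.Agent.MP_f3836a_nt.GV.SpecR

/-! At points with different values the derivatives of the coefficients vanish. -/

set_option autoImplicit false

namespace Pool.Agent.MP_f3836a_nt.GV.R

open Polynomial Finset Filter Topology

namespace RRig0

theorem der {z : ℝ → ℂ} {t : ℝ} (h : DifferentiableAt ℝ z t) :
    ∀ᶠ e : ℝ in 𝓝 0, 1 + e * z t ≠ 0 ∧ HasDerivAt (fun τ => Real.log ‖1 + e * z τ‖)
      (e * (deriv z t / (1 + e * z t)).re) t := by
  have c : ContinuousAt (fun e : ℝ => 1 + (e : ℂ) * z t) 0 := by fun_prop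
  filter_upwards [c.eventually (Complex.isOpen_slitPlane.mem_nhds (by simp))] with e he
  have h1 := ((h.hasDerivAt.const_mul (e : ℂ)).const_add 1).clog_real he
  have h2 := Complex.reCLM.hasFDerivAt.comp_hasDerivAt t h1
  rw [Complex.reCLM_apply, mul_div_assoc, Complex.re_ofReal_mul] at h2
  exact ⟨Complex.slitPlane_ne_zero he,
    h2.congr_of_eventuallyEq (.of_forall fun τ => (Complex.log_re _).symm)⟩

/-- the squared norm of `1 + e z` as a polynomial in `e` -/
noncomputable def nq (z : ℂ) : ℝ[X] := 1 + C (2 * z.re) * X + C (z.re ^ 2 + z.im ^ 2) * X ^ 2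

/-- the numerator of the logarithmic derivative -/
noncomputable def dq (z y : ℂ) : ℝ[X] := C y.re * X + C (y.re * z.re + y.im * z.im) * X ^ 2

theorem nq_eval (z : ℂ) (e : ℝ) : (nq z).eval e = ‖1 + e * z‖ ^ 2 := by
  rw [Complex.sq_norm, Complex.normSq_apply]
  simp [nq]
  ring

theorem dq_eval (z y : ℂ) (e : ℝ) (h : 1 + e * z ≠ 0) :
    (dq z y).eval e = ‖1 + e * z‖ ^ 2 * (e * (y / (1 + e * z)).re) := by
  have h0 : Complex.normSq (1 + e * z) ≠ 0 := by simpa using h
  rw [Complex.sq_norm, Complex.div_re]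
  field_simp
  simp [dq]
  ring

theorem lag {d : ℕ} {t : Fin (d + 1) → ℝ} (ht : Function.Injective t) {P : ℝ[X]}
    (hP : P.natDegree < d) : ∑ j, P.eval (t j) / ∏ k ∈ univ.erase j, (t j - t k) = 0 := by
  rw [← Lagrange.coeff_eq_sum ht.injOn
    (degree_le_natDegree.trans_lt (by simp only [card_univ, Fintype.card_fin]; norm_cast; omega))]
  exact coeff_eq_zero_of_natDegree_lt (by simpa using hP)

end RRig0

open RRig0 in
theorem sRig0 : SRig0 := by
  classical
  intro hL r d a b g c z t ht hd hi hD hR w j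
  let D : Fin (d + 1) → ℝ := fun j => ∏ k ∈ univ.erase j, (t j - t k)
  have h := hL _ _
    (fun x => C (g (t x.1) * deriv (c x.2) (t x.1) / D x.1) * ∏ v, nq (z v (t x.1)))
    (-∑ i, ∑ v, C (g (t i) * c v (t i) / D i) * (∏ u ∈ univ.erase v, nq (z u (t i))) *
      dq (z v (t i)) (deriv (z v) (t i))) hD ?_ (j, w)
  · have h1 := congrArg (eval 0) h
    have h2 : D j ≠ 0 := prod_ne_zero_iff.2 fun k hk =>
      sub_ne_zero.2 fun e => (mem_erase.1 hk).1 (hi e).symm
    simpa [eval_prod, nq, h2, (ht j).2] using h1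
  filter_upwards [hR, eventually_all.2 fun i => eventually_all.2 fun v => der (hd v i).2]
    with e ⟨P, h1, h2⟩ h3
  rw [eval_neg, eq_neg_iff_add_eq_zero, Fintype.sum_prod_type, eval_finsetSum,
    ← sum_add_distrib, ← lag hi h1]
  refine sum_congr rfl fun i _ => ?_
  rw [← h2 _ (ht i).1,
    (HasDerivAt.fun_sum fun v _ => (hd v i).1.hasDerivAt.fun_mul (h3 i v).2).deriv, mul_sum, sum_div,
    eval_finsetSum, ← sum_add_distrib]
  refine sum_congr rfl fun v _ => ?_
  simp only [eval_mul, eval_C, eval_prod, nq_eval, dq_eval _ _ _ (h3 i v).1]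
  rw [← mul_prod_erase univ _ (mem_univ v)]
  ring

end Pool.Agent.MP_f3836a_nt.GV.R
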