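import Pool.Agent.MP_f3836a_nt.GV.SpecR

/-! The first order term of the relation for constant coefficients. -/

set_option autoImplicit false

namespace Pool.Agent.MP_f3836a_nt.GV.R

open Polynomial Finset Filter Topology

namespace RRig2

theorem der {z : ℝ → ℂ} {t : ℝ} (h : DifferentiableAt ℝ z t) :
    ∀ᶠ e : ℝ in 𝓝 0, HasDerivAt (fun τ => Real.log ‖1 + e * z τ‖)
      (e * (deriv z t / (1 + e * z t)).re) t := by
  have c : ContinuousAt (fun e : ℝ => 1 + (e : ℂ) * z t) 0 := by fun_prop
  filter_upwards [c.eventually (Complex.isOpen_slitPlane.mem_nhds (by simp))] with e he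
  have h1 := ((h.hasDerivAt.const_mul (e : ℂ)).const_add 1).clog_real he
  have h2 := Complex.reCLM.hasFDerivAt.comp_hasDerivAt t h1
  rw [Complex.reCLM_apply, mul_div_assoc, Complex.re_ofReal_mul] at h2
  exact h2.congr_of_eventuallyEq (.of_forall fun τ => (Complex.log_re _).symm)

end RRig2

theorem rig2 : Rig2 := by
  classical
  intro r d a b g c z hab hz hR
  obtain ⟨s, hs, hd⟩ := (Set.Icc_infinite hab).exists_subset_card_eq d
  let χ : ℝ → ℝ → ℝ := fun t e => g t * (∏ w, ‖1 + e * z w t‖ ^ 2) *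
    ∑ w, c w * (deriv (z w) t / (1 + e * z w t)).re
  have hc : ∀ t, ContinuousAt (χ t) 0 := fun t => by
    refine (continuousAt_const.mul (by fun_prop)).mul
      (tendsto_finsetSum _ fun w _ => ContinuousAt.mul continuousAt_const ?_)
    exact Complex.continuous_re.continuousAt.comp
      (continuousAt_const.div (by fun_prop) (by simp))
  have he : ∀ t ∈ Set.Icc a b, ∀ᶠ e : ℝ in 𝓝 0, g t * (∏ w, ‖1 + e * z w t‖ ^ 2) *
      deriv (fun τ => ∑ w, c w * Real.log ‖1 + e * z w τ‖) t = e * χ t e := fun t ht => by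
    filter_upwards [eventually_all.2 fun w => RRig2.der (hz w t ht)] with e h
    rw [(HasDerivAt.fun_sum fun w _ => (h w).const_mul (c w)).deriv]
    simp only [χ, mul_left_comm (c _) e, ← Finset.mul_sum]
    ring
  refine ⟨Lagrange.interpolate s id fun j => χ j 0, fun t ht => ?_⟩
  have h0 : χ t 0 = g t * ∑ w, c w * (deriv (z w) t).re := by simp [χ]
  have h1 : ContinuousAt (fun e => ∑ j ∈ s, χ j e * (Lagrange.basis s id j).eval t) 0 :=
    tendsto_finsetSum _ fun j _ => (hc j).mul continuousAt_const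
  rw [← h0, Lagrange.interpolate_apply, eval_finsetSum]
  simp only [eval_mul, eval_C]
  refine tendsto_nhds_unique_of_eventuallyEq (l := 𝓝[≠] 0) (hc t).continuousWithinAt
    h1.continuousWithinAt ?_
  filter_upwards [self_mem_nhdsWithin, nhdsWithin_le_nhds hR, nhdsWithin_le_nhds (he t ht),
    nhdsWithin_le_nhds ((eventually_all_finset s).2 fun j hj => he j (hs hj))] with e e0 ⟨P, h2, h3⟩
    h4 h5
  refine mul_left_cancel₀ e0 ?_
  rw [← h4, h3 t ht, Lagrange.eq_interpolate (s := s) (v := id) (f := P) (Set.injOn_id _)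
    (degree_le_natDegree.trans_lt (by exact_mod_cast hd ▸ h2)), Lagrange.interpolate_apply,
    eval_finsetSum, Finset.mul_sum]
  refine Finset.sum_congr rfl fun j hj => ?_
  rw [eval_mul, eval_C, id, ← h3 j (hs hj), h5 j hj, mul_assoc]

end Pool.Agent.MP_f3836a_nt.GV.R
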