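import Pool.Agent.MP_f3836a_nt.GV.RApi

/-! A rational trace forces constancy on classes. -/

set_option autoImplicit false

namespace Pool.Agent.MP_f3836a_nt.GV.R

open Polynomial Finset
open scoped Matrix

namespace RRig3

theorem gram {n r : ℕ} [NeZero n] {M : Tab ℝ n} {Φ : Fin r → Fin n → ℂ} (hM : Rng M)
    (h : Em M Φ) (hn : n = 2 * r) {β : Fin n → ℝ} {c : Fin r → ℝ} (hβ : ∀ w, emb (Φ w) β = c w)
    (i : Fin n) : ∑ j, (M i * M j).trace * β j = 2 * ∑ w, c w * (Φ w i).re := by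
  simp only [hM.mul, h.trace hn, h.emb_mul, sum_mul, mul_sum]
  rw [sum_comm]
  refine sum_congr rfl fun w _ => ?_
  rw [← Complex.re_ofReal_mul, ← hβ w, emb, sum_mul, Complex.re_sum, mul_sum]
  refine sum_congr rfl fun j _ => ?_
  rw [mul_assoc (β j : ℂ), Complex.re_ofReal_mul, mul_comm (Φ w j)]
  ring

end RRig3

theorem rig3 : Rig3 := by
  intro n r _ T t1 B ι cls c hn hT hB hC hP
  choose P hP using hP
  let φ : ℤ[X] →+* ℝ[X] := mapRingHom (Int.castRingHom ℝ)
  let G : Matrix (Fin n) (Fin n) ℝ[X] := φ.mapMatrix (Matrix.of fun i j => (T.M i * T.M j).trace)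
  have hG : G.det ≠ 0 := by
    rw [← RingHom.map_det]
    exact fun e => hT.sep (map_injective _ (Int.castRingHom ℝ).injective_int
      (e.trans (Polynomial.map_zero _).symm))
  refine hC (G.adjugate *ᵥ fun i => 2 * P i) ((X - C (t1 : ℝ)) ^ n * G.det) c
    (mul_ne_zero (pow_ne_zero _ (X_sub_C_ne_zero _)) hG) fun w t ht => ?_
  obtain ⟨β, hβ⟩ := (hB.em t ht).surj hn fun w => c w
  have h1 : ∀ i j, (evalRingHom t).mapMatrix G i j = (T.fib t i * T.fib t j).trace := fun i j => by
    rw [T.fib_eq, ← Matrix.map_mul]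
    exact (eval_map_algebraMap _ t).trans
      (AddMonoidHom.map_trace (aeval t : ℤ[X] →ₐ[ℤ] ℝ).toRingHom (T.M i * T.M j))
  have h2 : (fun i => evalRingHom t (2 * P i)) =
      (t - t1) ^ n • ((evalRingHom t).mapMatrix G *ᵥ β) := funext fun i => by
    have := RRig3.gram (hT.rng.map _) (hB.em t ht) hn hβ i
    simp only [Pi.smul_apply, smul_eq_mul, Matrix.mulVec, dotProduct, h1]
    rw [show ∑ j, (T.fib t i * T.fib t j).trace * β j = _ from this, mul_left_comm, hP i t ht]
    simp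
  have h3 : (fun i => aeval t ((G.adjugate *ᵥ fun i => 2 * P i) i)) =
      ((X - C (t1 : ℝ)) ^ n * G.det).eval t • β := funext fun i => by
    rw [coe_aeval_eq_eval, ← coe_evalRingHom, RingHom.map_mulVec, ← RingHom.mapMatrix_apply,
      RingHom.map_adjugate, Function.comp_def, h2, Matrix.mulVec_smul, Matrix.mulVec_mulVec,
      Matrix.adjugate_mul, ← RingHom.map_det, Matrix.smul_mulVec, Matrix.one_mulVec, smul_smul]
    simp
  rw [Br.ev, h3, Complex.ofReal_mul, ← hβ w, emb, emb, mul_sum]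
  exact sum_congr rfl fun i _ => by rw [Pi.smul_apply, smul_eq_mul, Complex.ofReal_mul, mul_assoc]

end Pool.Agent.MP_f3836a_nt.GV.R
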