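import Pool.Agent.MP_f3836a_nt.GV.RApi

/-! The shapes separate points and are rigid. -/

set_option autoImplicit false

namespace Pool.Agent.MP_f3836a_nt.GV.R

open Polynomial Finset VE Filter Topology
open scoped Matrix

namespace RSepB

variable {n r m : ℕ} {T : Tb n} {B : Br n r} {t1 : ℤ}

theorem ev_eq (x : Ix T.e m → ℝ) (w : Fin r) (t : ℝ) :
    B.ev (vP x) w t = ∑ i, ∑ j, (x ⟨i, j⟩ : ℂ) * ((t : ℂ) ^ (j : ℕ) * B.Y w t i) := by
  simp [Br.ev, emb, vP, sum_mul, mul_assoc]

theorem ev_const (h : ∀ i, T.e i + 3 ≤ m) (β : Fin n → ℝ) (w : Fin r) (t : ℝ) :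
    B.ev (vP fun j : Ix T.e m => if (j.2 : ℕ) = 0 then β j.1 else 0) w t = emb (B.Y w t) β := by
  rw [ev_eq]
  refine sum_congr rfl fun i _ => ?_
  have := h i
  rw [sum_eq_single (⟨0, by omega⟩ : Fin (m - max (T.e i) 1))
    (fun j _ hj => by rw [if_neg fun e => hj (Fin.ext e), Complex.ofReal_zero, zero_mul])
    fun k => absurd (mem_univ _) k]
  simp

variable [NeZero n]

theorem ana (hB : B.Ok T t1) (x : Ix T.e m → ℝ) (w : Fin r) :
    AnalyticOnNhd ℝ (B.ev (vP x) w) B.I := fun t ht => by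
  rw [funext (ev_eq x w)]
  exact Finset.analyticAt_fun_sum _ fun i _ => Finset.analyticAt_fun_sum _ fun j _ =>
    analyticAt_const.mul (((Complex.ofRealCLM.analyticAt t).pow j).mul (hB.ana w i t ht))

theorem shape (hB : B.Ok T t1) (h : ∀ i, T.e i + 3 ≤ m) {ε0 : ℝ} (h0 : 0 < ε0)
    (x : Ix T.e m → ℝ) : ∀ᶠ e : ℝ in 𝓝 0, ∃ v : Sh T B m ε0, ∀ w, ∀ t ∈ B.I,
      B.ev (vP v.1) w t = 1 + e * B.ev (vP x) w t := by
  choose C hC using fun w => isCompact_Icc.exists_bound_of_continuousOn (ana hB x w).continuousOn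
  have k : ∀ {a c : ℝ}, 0 < c → ∀ᶠ e : ℝ in 𝓝 0, |e| * a < c := fun {a c} hc =>
    (continuous_abs.mul continuous_const).continuousAt.eventually_lt continuousAt_const
      (by simpa using hc)
  filter_upwards [eventually_all.2 fun j => k (a := |x j|) h0,
    eventually_all.2 fun w => k (a := C w) one_pos] with e h1 h2
  have k1 : ∀ w, ∀ t ∈ B.I, B.ev (vP fun j => oneX j + e * x j) w t = 1 + e * B.ev (vP x) w t :=
    fun w t ht => by
      have a := ev_const (B := B) h (fun i => if (i : ℕ) = 0 then 1 else 0) w t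
      have b : emb (B.Y w t) (fun i => if (i : ℕ) = 0 then 1 else 0) = 1 := by
        rw [emb, sum_eq_single 0 (fun j _ hj => by simp [hj]) fun k => absurd (mem_univ _) k]
        simp [((hB.em t ht).hom w).1]
      rw [← b, ← a]
      simp only [ev_eq, oneX, mul_sum, ← sum_add_distrib, ← ite_and, and_comm]
      refine sum_congr rfl fun i _ => sum_congr rfl fun j _ => ?_
      push_cast
      ring
  refine ⟨⟨fun j => oneX j + e * x j, fun j => ?_, fun w t ht e0 => ?_⟩, k1⟩
  · rw [add_sub_cancel_left, abs_mul]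
    exact (h1 j).le
  · rw [k1 w t ht, add_eq_zero_iff_eq_neg] at e0
    have := congrArg norm e0
    rw [norm_one, norm_neg, norm_mul, Complex.norm_real, Real.norm_eq_abs] at this
    linarith [h2 w, mul_le_mul_of_nonneg_left (hC w t ht) (abs_nonneg e)]

end RSepB

open RSepB in
theorem sSepB : SSepB := by
  intro hR n r _ T t1 B ι cls m ε0 l F hn hT hB hC h3 h0 D
  refine ⟨D.ml, D.mF, D.fd, fun t c h => ?_, fun c hc hq h => ?_⟩
  · obtain ⟨β, hβ⟩ := (hB.em t t.2).surj hn fun w => c w
    have e1 : (fun e : ℝ => ∑ w, c w * Real.log (1 + e * c w)) =ᶠ[𝓝 0] fun _ => 0 := by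
      filter_upwards [shape hB h3 h0 fun j => if (j.2 : ℕ) = 0 then β j.1 else 0] with e ⟨v, hv⟩
      rw [← h v]
      refine sum_congr rfl fun w _ => ?_
      rw [D.val, hv w t t.2, ev_const h3, hβ, ← Real.log_abs, ← Real.norm_eq_abs,
        ← Complex.norm_real]
      push_cast
      rfl
    have e2 := (HasDerivAt.fun_sum fun w (_ : w ∈ univ) =>
      ((((hasDerivAt_mul_const (x := (0 : ℝ)) (c w)).const_add 1).log (by simp)).const_mul
        (c w))).unique ((hasDerivAt_const _ _).congr_of_eventuallyEq e1)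
    simp only [zero_mul, add_zero, div_one] at e2
    exact funext fun w => mul_self_eq_zero.1
      ((sum_eq_zero_iff_of_nonneg fun w _ => mul_self_nonneg (c w)).1 e2 w (mem_univ w))
  · choose C a e using hc
    have := hR n r T t1 B ι cls m (n * m) C hn hT hB hC h3 a
      (fun t ht => by simpa only [e] using hq ⟨t, ht⟩) fun x => ?_
    · exact funext fun w => ContinuousMap.ext fun t => (e w t).trans (this w t t.2)
    filter_upwards [shape hB h3 h0 x] with s ⟨v, hv⟩
    obtain ⟨P, hP, k⟩ := D.der v _ (h v)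
    refine ⟨P, hP, fun t ht => ?_⟩
    rw [← k (fun τ => ∑ w, C w τ * Real.log ‖1 + s * B.ev (vP x) w τ‖) (fun τ => ?_) t ht
      (DifferentiableAt.fun_sum fun w _ => (a w t ht).differentiableAt.mul ?_)]
    · simp only [hv _ t ht]
    · simp only [ContinuousMap.sum_apply, ContinuousMap.mul_apply, e, D.val, hv _ _ τ.2]
    · have := hv w t ht ▸ v.2.2 w t ht
      exact ((((ana hB x w t ht).differentiableAt.const_mul _).const_add 1).norm ℝ this).log
        (norm_ne_zero_iff.2 this)

end Pool.Agent.MP_f3836a_nt.GV.R
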