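import Pool.Agent.MP_f3836a_nt.GV.RHoms
import Pool.Agent.MP_f3836a_nt.GV.RBrn
import Pool.Agent.MP_f3836a_nt.GV.RBr
import Pool.Agent.MP_f3836a_nt.GV.RCst
import Pool.Agent.MP_f3836a_nt.GV.RAn
import Pool.Agent.MP_f3836a_nt.GV.RQu
import Pool.Agent.MP_f3836a_nt.GV.RFin
import Pool.Agent.MP_f3836a_nt.GV.RAbs
import Pool.Agent.MP_f3836a_nt.GV.RLiC
import Pool.Agent.MP_f3836a_nt.GV.RLi
import Pool.Agent.MP_f3836a_nt.GV.RRig0
import Pool.Agent.MP_f3836a_nt.GV.RRig1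
import Pool.Agent.MP_f3836a_nt.GV.RRig2
import Pool.Agent.MP_f3836a_nt.GV.RRig3
import Pool.Agent.MP_f3836a_nt.GV.RRig
import Pool.Agent.MP_f3836a_nt.GV.RDat
import Pool.Agent.MP_f3836a_nt.GV.RSepB
import Pool.Agent.MP_f3836a_nt.GV.RArx

/-! Branches and archimedean rigidity: the exports. -/

set_option autoImplicit false

namespace Pool.Agent.MP_f3836a_nt.GV.R

theorem brX : BrX := sBr sHoms sBrn

theorem arX : ARX :=
  sArx sAn sFin (sAbs sQu) (sDat sPrim) (sSepB (sRig (sRig1 (sRig0 (sLi liC))) rig2 rig3))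

end Pool.Agent.MP_f3836a_nt.GV.R
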