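import Pool.Agent.MP_f3836a_nt.GV.ABc
import Pool.Agent.MP_f3836a_nt.GV.ACas
import Pool.Agent.MP_f3836a_nt.GV.ACr
import Pool.Agent.MP_f3836a_nt.GV.ADif
import Pool.Agent.MP_f3836a_nt.GV.AEmb
import Pool.Agent.MP_f3836a_nt.GV.AExo
import Pool.Agent.MP_f3836a_nt.GV.AFb
import Pool.Agent.MP_f3836a_nt.GV.AHsG
import Pool.Agent.MP_f3836a_nt.GV.AId
import Pool.Agent.MP_f3836a_nt.GV.AKi
import Pool.Agent.MP_f3836a_nt.GV.AKlT
import Pool.Agent.MP_f3836a_nt.GV.ALoA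
import Pool.Agent.MP_f3836a_nt.GV.ALv
import Pool.Agent.MP_f3836a_nt.GV.ALz
import Pool.Agent.MP_f3836a_nt.GV.AMd
import Pool.Agent.MP_f3836a_nt.GV.AMk
import Pool.Agent.MP_f3836a_nt.GV.ANc
import Pool.Agent.MP_f3836a_nt.GV.ANr
import Pool.Agent.MP_f3836a_nt.GV.ANrm
import Pool.Agent.MP_f3836a_nt.GV.AOd
import Pool.Agent.MP_f3836a_nt.GV.AOth
import Pool.Agent.MP_f3836a_nt.GV.APaG
import Pool.Agent.MP_f3836a_nt.GV.APaL
import Pool.Agent.MP_f3836a_nt.GV.APaX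
import Pool.Agent.MP_f3836a_nt.GV.APg
import Pool.Agent.MP_f3836a_nt.GV.APh
import Pool.Agent.MP_f3836a_nt.GV.APig
import Pool.Agent.MP_f3836a_nt.GV.APr
import Pool.Agent.MP_f3836a_nt.GV.APt
import Pool.Agent.MP_f3836a_nt.GV.APtA
import Pool.Agent.MP_f3836a_nt.GV.APv
import Pool.Agent.MP_f3836a_nt.GV.ARed
import Pool.Agent.MP_f3836a_nt.GV.ASgT
import Pool.Agent.MP_f3836a_nt.GV.GDTb
import Pool.Agent.MP_f3836a_nt.GV.GDSpl
import Pool.Agent.MP_f3836a_nt.GV.GMAll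
import Pool.Agent.MP_f3836a_nt.GV.PMain
import Pool.Agent.MP_f3836a_nt.GV.RAll
import Pool.Agent.MP_f3836a_nt.GP.All
import Pool.Agent.MP_f3836a_nt.VE.AGsa
import Pool.Agent.MP_f3836a_nt.VE.AGsk
import Pool.Agent.MP_f3836a_nt.VE.ANfa
import Pool.Agent.MP_f3836a_nt.VE.ANfb
import Pool.Agent.MP_f3836a_nt.VE.WGs

/-! The engine from the analytic core. -/

set_option autoImplicit false

namespace Pool.Agent.MP_f3836a_nt.GV.A

open VE VE.A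

theorem redS : RedS := aRed fmS

theorem paL : PaL := aPaL fmS apeS aNc redS aMk (aMon fmS redS) aNrm (aPt aPtA)
  (aLoA fmS apeS aNc redS (aMon fmS redS) aNrm aPig) aSc

theorem paX : PaX := aPaX fmS apeS aNc redS aSl (aPaG apeS aNc (aDif fmS apeS GP.gdA)
  (aTrc apeS aSch aCas) aExo (aBcB apeT) (aBcT redS) paL)

theorem mdS : MdS := aMd fmS

theorem sgS : SgS := aSg fmS aNc mdS

theorem nrG : NrG := aNr aNc mdS

theorem lzS : LzS := aLz aNfb mdS sgS (aSgT aNc mdS) nrG (aUn fmS sgS nrG)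
  (aKlT fmS redS sgS nrG (aSp aOd) aCr) paX aOd (aEn aOd (aOth aOd))

theorem idG : IdG := aIdG W.wPhi mdS (aGsG (aGsk aNfa aNfb aGsa) aNc mdS)
  (aHsG rTb rFy mdS (aFb rTb rSpl mdS) (aRp rTb) (aEmb aNfa aNfb) (aHsK aOd aPr) aDir)

theorem lev_of (h : GV.Core) : Lev := aLev mdS (aGe tabS (ptsX modP) R.brX R.cstX R.arX mdS)
  (aKi h aNc mdS sgS idG) (aLv mdS) lzS

theorem pgS : PgS := aPg GP.tFf GP.tFin GP.tNb apeS

theorem phS : PhS := aPh GP.tFin GP.tNb fmS apeS redS pgS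

theorem eng_of (h : GV.Core) : GP.EngS := aEng GP.tFin GP.tNb fmX pgS phS
  (aPv GP.tFin GP.tNb GP.gVal GP.weilS pgS phS) (lev_of h)

end Pool.Agent.MP_f3836a_nt.GV.A
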