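import Pool.Agent.MP_f3836a_nt.GV.SpecL

/-! Block A, rows `BcB` and `BcT`: base change of an algebra with a basis of monic elements. -/

set_option autoImplicit false

namespace Pool.Agent.MP_f3836a_nt.GV.A

open Polynomial NumberField IsDedekindDomain TensorProduct

namespace ABc

variable {A O 𝒜 B : Type} [CommRing A] [CommRing O] [CommRing 𝒜] [CommRing B] [Algebra A O]
  [Algebra A 𝒜] [Algebra A[X] 𝒜] [Algebra O B] [Algebra O[X] B] {S : AddSubmonoid ℕ}
  {μ : Module.Basis S A 𝒜} {ν : Module.Basis S O B} {φ : 𝒜 →+* B}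

theorem nrm [IsScalarTower A A[X] 𝒜] [IsScalarTower O O[X] B] {N : ℕ}
    (η : Module.Basis (Fin N) A[X] 𝒜) (η' : Module.Basis (Fin N) O[X] B) (h : ∀ j, η' j = φ (η j))
    (hc : ∀ a, φ (algebraMap A 𝒜 a) = algebraMap O B (algebraMap A O a))
    (hv : φ (algebraMap A[X] 𝒜 X) = algebraMap O[X] B X) (g : 𝒜) :
    Algebra.norm O[X] (φ g) = (Algebra.norm A[X] g).map (algebraMap A O) := by
  have h1 : φ.comp (algebraMap A[X] 𝒜) =
      (algebraMap O[X] B).comp (mapRingHom (algebraMap A O)) := by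
    refine Polynomial.ringHom_ext (fun a => ?_) (by simpa using hv)
    simp only [RingHom.comp_apply, coe_mapRingHom, map_C]
    rw [← Polynomial.algebraMap_eq, ← Polynomial.algebraMap_eq, ← IsScalarTower.algebraMap_apply,
      ← IsScalarTower.algebraMap_apply, hc]
  have h2 : ∀ z i, η'.repr (φ z) i = (η.repr z i).map (algebraMap A O) := fun z i => by
    have : φ z = ∑ j, (η.repr z j).map (algebraMap A O) • η' j := by
      conv_lhs => rw [← η.sum_repr z, map_sum]
      refine Finset.sum_congr rfl fun j _ => ?_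
      rw [Algebra.smul_def, Algebra.smul_def, map_mul, h]
      exact congrArg (· * _) (RingHom.congr_fun h1 _)
    rw [this, η'.repr_sum_self]
  rw [Algebra.norm_eq_matrix_det η', Algebra.norm_eq_matrix_det η, ← coe_mapRingHom,
    RingHom.map_det]
  congr 1
  ext1 i j
  rw [Algebra.leftMulMatrix_eq_repr_mul, h, ← map_mul, h2, RingHom.mapMatrix_apply,
    Matrix.map_apply, Algebra.leftMulMatrix_eq_repr_mul, coe_mapRingHom]

omit [Algebra A[X] 𝒜] [Algebra O[X] B] in
theorem mo (h : ∀ g d, ν.repr (φ g) d = algebraMap A O (μ.repr g d)) {d : ℕ} {g : 𝒜}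
    (hg : Mo μ d g) : Mo ν d (φ g) :=
  ⟨hg.1.imp fun _ k => by rw [h, k, map_one], fun e he => by rw [h, hg.2 e he, map_zero]⟩

omit [Algebra A O] [Algebra A[X] 𝒜] [Algebra O[X] B] in
theorem ind (h : ∀ d, ν d = φ (μ d)) (P : B → Prop) (h0 : ∀ a, P (φ a))
    (h1 : ∀ a b, P a → P b → P (a + b)) (h2 : ∀ o b, P b → P (algebraMap O B o * b)) (b : B) :
    P b := by
  refine Submodule.span_induction (p := fun b _ => P b) ?_ (map_zero φ ▸ h0 0)
    (fun a b _ _ => h1 a b) (fun o b _ k => Algebra.smul_def o b ▸ h2 o b k) (ν.mem_span b)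
  rintro _ ⟨d, rfl⟩
  exact h d ▸ h0 _

end ABc

theorem aBcB : OfBcB := by
  intro hT A O 𝒜 _ _ _ _ _ _ _ _ _ S μ N e hμ hN hx
  have : NeZero N := ⟨hN.ne'⟩
  let φ : 𝒜 →+* O ⊗[A] 𝒜 := (Algebra.TensorProduct.includeRight : 𝒜 →ₐ[A] O ⊗[A] 𝒜).toRingHom
  let ν := Algebra.TensorProduct.basis O μ
  let _ : Algebra O[X] (O ⊗[A] 𝒜) := (aeval (φ (algebraMap A[X] 𝒜 X))).toRingHom.toAlgebra
  have hv : φ (algebraMap A[X] 𝒜 X) = algebraMap O[X] (O ⊗[A] 𝒜) X := (aeval_X _).symm
  have : IsScalarTower O O[X] (O ⊗[A] 𝒜) :=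
    IsScalarTower.of_algebraMap_eq fun o => (aeval_C _ o).symm
  have hb : ∀ d, ν d = φ (μ d) := fun d => Algebra.TensorProduct.basis_apply μ d
  have hr : ∀ g d, ν.repr (φ g) d = algebraMap A O (μ.repr g d) := fun g d => by
    change ν.repr (1 ⊗ₜ g) d = _
    rw [Algebra.TensorProduct.basis_repr_tmul, one_smul, Finsupp.mapRange_apply]
  have hc : ∀ a, φ (algebraMap A 𝒜 a) = algebraMap O _ (algebraMap A O a) := fun a => by
    rw [← IsScalarTower.algebraMap_apply]
    exact AlgHom.commutes _ a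
  have hν : FM ν := ⟨hμ.cof, by rw [hb, hμ.one, map_one],
    fun d d' => by rw [hb, hb, ← map_mul, hr, hμ.top, map_one],
    fun d d' c h => by rw [hb, hb, ← map_mul, hr, hμ.low d d' c h, map_zero]⟩
  obtain ⟨a, -, ha⟩ := hT S N hμ.cof
  obtain ⟨η, h1, -⟩ := ha A 𝒜 μ hμ hx
  obtain ⟨η', h2, -⟩ := ha O (O ⊗[A] 𝒜) ν hν (hv ▸ ABc.mo hr hx)
  refine ⟨O ⊗[A] 𝒜, inferInstance, inferInstance, inferInstance, inferInstance, ν, φ,
    Algebra.TensorProduct.lift (AlgHom.id O O) ((Algebra.ofId A O).comp e)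
      fun _ _ => Commute.all _ _, hν, hb, hc, hv, hr, fun g => ?_,
    ABc.nrm η η' (fun j => by rw [h1, h2, hb]) hc hv⟩
  change Algebra.TensorProduct.lift _ _ _ (1 ⊗ₜ g) = _
  rw [Algebra.TensorProduct.lift_tmul, map_one, one_mul]
  rfl

theorem aBcT : OfBcT := by
  intro hR A O 𝒜 B _ _ _ _ _ _ _ _ _ S μ ν φ e e' q ϖ hμ h hq
  classical
  have h10 : (1 : O) ≠ 0 := fun k => hq.irr.not_isUnit
    (@isUnit_of_subsingleton _ _ (subsingleton_of_zero_eq_one k.symm) _)
  have ap : ∀ J b, ∃ a, algebraMap O B (ϖ ^ J) ∣ b - φ a ∧ ∀ d, Mo ν d b → Mo μ d a := fun J b => by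
    choose f hf using fun o => hq.den o J
    let f' : O → A := fun o => if o = 0 then 0 else if o = 1 then 1 else f o
    have f0 : f' 0 = 0 := if_pos rfl
    have f1 : f' 1 = 1 := (if_neg h10).trans (if_pos rfl)
    refine ⟨μ.repr.symm ((ν.repr b).mapRange f' f0), ((hR O B S ν h.fm).2.1 _ _).1 fun d _ => ?_,
      fun d hd => ⟨hd.1.imp fun _ k => ?_, fun c hc => ?_⟩⟩
    · rw [map_sub, Finsupp.sub_apply, h.rep, LinearEquiv.apply_symm_apply, Finsupp.mapRange_apply,
        Ideal.mem_span_singleton]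
      by_cases k : ν.repr b d = 0
      · rw [k, f0, map_zero, sub_self]
        exact dvd_zero _
      by_cases k' : ν.repr b d = 1
      · rw [k', f1, map_one, sub_self]
        exact dvd_zero _
      · simpa only [f', if_neg k, if_neg k'] using hf _
    · rw [LinearEquiv.apply_symm_apply, Finsupp.mapRange_apply, k, f1]
    · rw [LinearEquiv.apply_symm_apply, Finsupp.mapRange_apply, hd.2 c hc, f0]
  refine ⟨fun d g => ABc.mo h.rep, fun x θ c k => ⟨by rw [h.ev, k.ex, map_zero], by rw [h.ev, k.et],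
    fun c0 => k.ne (hq.inj (c0.trans (map_zero _).symm)), ?_⟩, fun s hs => ?_,
    fun J b => (ap J b).imp fun _ k => k.1, fun J d b hb => (ap J b).imp fun _ k => ⟨k.2 d hb, k.1⟩,
    fun J a ha => ((hR A 𝒜 S μ hμ).1 _ _).1 fun d hd => (hq.mem _ _).1 ?_⟩
  · refine ABc.ind h.bas _ (fun a => ?_) (fun a b ha hb => ?_) fun o b hb => ?_
    · rw [h.ev, ← h.con, ← map_sub, ← map_mul]
      exact map_dvd φ (k.dv a)
    · convert dvd_add ha hb using 1
      rw [map_add, map_add]
      ring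
    · convert hb.mul_left (algebraMap O B o) using 1
      rw [map_mul, AlgHom.commutes, map_mul]
      simp only [Algebra.algebraMap_self, RingHom.id_apply]
      ring
  · have := Ideal.mem_map_of_mem φ hs
    rw [Ideal.map_span] at this
    refine Ideal.span_mono ?_ this
    rintro _ ⟨s, ⟨y, d, hd, hy, k⟩, rfl⟩
    refine ⟨φ y, d, hd, ABc.mo h.rep hy, fun N _ _ D hD hZ => ?_⟩
    let _ : Module 𝒜 N := Module.compHom N φ
    refine ABc.ind h.bas _ (k N (D.comp φ.toAddMonoidHom) (fun a b => ?_) fun z hz => ?_)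
      (fun a b ha hb => by rw [map_add, smul_add, ha, hb, add_zero]) fun o b hb => ?_
    · exact (congrArg D (map_mul φ a b)).trans (hD _ _)
    · rw [Set.mem_insert_iff, Set.mem_empty_iff_false, or_false] at hz
      exact hZ _ (hz ▸ Set.mem_insert _ _)
    · rw [hD, hZ _ (Set.mem_insert_of_mem _ ⟨o, rfl⟩), smul_zero, add_zero, smul_comm, hb,
        smul_zero]
  · have := ((hR O B S ν h.fm).2.1 _ _).2 ha d hd
    rwa [h.rep, Ideal.mem_span_singleton] at this

end Pool.Agent.MP_f3836a_nt.GV.A
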