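import Pool.Agent.MP_f3836a_nt.GV.SpecL

/-! An approximate function with all zeros at one point. -/

set_option autoImplicit false

namespace Pool.Agent.MP_f3836a_nt.GV.A

open Polynomial NumberField IsDedekindDomain

namespace ALoA

theorem cancel {O : Type} [CommRing O] {a : O} {P Q : O[X]} (hP : P.Monic) (h : C a ∣ P * Q) :
    C a ∣ Q := by
  have e : ∀ R : O[X], C a ∣ R ↔ R.map (Ideal.Quotient.mk (Ideal.span {a})) = 0 := fun R => by
    simp [C_dvd_iff_dvd_coeff, Polynomial.ext_iff, Ideal.Quotient.eq_zero_iff_mem,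
      Ideal.mem_span_singleton]
  rwa [e, Polynomial.map_mul, (hP.map _).mul_right_eq_zero_iff, ← e] at h

theorem fin {O B : Type} [CommRing O] [CommRing B] [Algebra O B] {S : AddSubmonoid ℕ}
    (μ : Module.Basis S O B) (M : Ideal B) (D : ℕ) (h : ∀ g, ∃ g', g - g' ∈ M ∧ Lo μ ⊥ D g') :
    Module.Finite O (B ⧸ M) := by
  have hf : {e : S | (e : ℕ) < D}.Finite :=
    (Set.finite_Iio D).preimage Subtype.val_injective.injOn
  have := Module.Finite.span_of_finite O (hf.image μ)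
  refine Module.Finite.of_surjective ((Ideal.Quotient.mkₐ O M).toLinearMap.comp
    (Submodule.span O (μ '' {e : S | (e : ℕ) < D})).subtype) fun y => ?_
  obtain ⟨g, rfl⟩ := Ideal.Quotient.mk_surjective y
  obtain ⟨g', h1, h2⟩ := h g
  exact ⟨⟨g', μ.mem_span_image.2 fun e he => lt_of_not_ge fun c =>
    Finsupp.mem_support_iff.1 he (h2 e c)⟩, (Ideal.Quotient.eq.2 h1).symm⟩

end ALoA

open ALoA in
theorem aLoA : OfLoA := by
  intro hF hA hN hR hM hNr hP O B _ _ _ _ _ _ _ S μ N M l w ξ ϖ c hμ N0 hx mk hϖ hfin hc hT J m0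
  have : NeZero N := ⟨N0.ne'⟩
  have A := hF O B S μ hμ
  have := A.dom inferInstance
  obtain ⟨-, R2, R3, -⟩ := hR O B S μ hμ
  obtain ⟨η, η0, hη⟩ := hA O B S μ N hμ hx
  have := Module.Finite.of_basis η
  obtain ⟨cS, hcS⟩ := hμ.cof
  have hal : ∀ a, algebraMap O B a = a • μ 0 := fun a => by
    rw [hμ.one, Algebra.algebraMap_eq_smul_one]
  have hC : ∀ a, algebraMap O[X] B (C a) = algebraMap O B a := fun a =>
    (IsScalarTower.algebraMap_apply O O[X] B a).symm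
  have hs : Mo μ N (algebraMap O[X] B X - algebraMap O B ξ) := by
    rw [sub_eq_add_neg]
    refine A.add _ _ _ hx fun e he => ?_
    have : e ≠ 0 := fun h => by rw [h] at he; exact N0.not_ge he
    simp [hal, Finsupp.single_eq_of_ne this]
  have mon := fun k => hM O B S μ (M k) cS k hμ hcS (mk.sat k) ⟨_, _, mk.pow k, A.pow _ _ k hs⟩
    (mk.rel k)
  choose f f1 f2 using fun t => mon (N * ((m0 + 1) * t)) (N * ((m0 + 1) * t + 2 * cS))
    (by rw [mul_add]; exact Nat.add_le_add_left (Nat.le_mul_of_pos_left _ N0) _)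
  choose V V1 V2 using fun t => hNr O B N η M l w ξ η0 mk _ _ (f1 t)
  have V3 : ∀ t, (V t).IsMonicOfDegree (N * (2 * cS)) := fun t => by
    have := hη _ _ (f2 t)
    rw [← Algebra.norm_eq_matrix_det, V1, mul_add] at this
    exact IsMonicOfDegree.of_mul_left (by simpa using (isMonicOfDegree_X_sub_one ξ).pow _) this
  obtain ⟨v, c', hv⟩ : ∃ v, c ∣ ϖ ^ v :=
    (IsDiscreteValuationRing.associated_pow_irreducible hc hϖ).imp fun _ h => h.dvd
  obtain ⟨t, t', ht, hV, hI⟩ := hP O B (ϖ ^ (J + v)) _ V (fun t => Cn (f t) (M _)) (hfin _)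
    fun t => ⟨V3 t, V2 t⟩
  obtain ⟨u, rfl⟩ := Nat.exists_eq_add_of_lt ht
  have k1 : N * ((m0 + 1) * (t + u + 1)) = N * ((m0 + 1) * t) + N * ((m0 + 1) * (u + 1)) := by ring
  have f0 : f t ≠ 0 := fun h => by
    obtain ⟨_, e⟩ := (f2 t).1
    simp [h] at e
  have c0 : algebraMap O B c ≠ 0 := fun h => hc (by simpa [hal] using congrArg (μ.repr · 0) h)
  have h1 := hT _ (mk.sat _) (fin μ _ _ fun g => (R3 _ ⊤ _ (fun d hd => mon _ d hd.le) g
    fun _ _ => trivial).imp fun _ h => ⟨h.1, h.2.1⟩) _ (f1 (t + u + 1))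
  have h2 : M (N * ((m0 + 1) * (t + u + 1))) * Cn (f t) (M (N * ((m0 + 1) * t))) ≤
      Ideal.span {f t} * M (N * ((m0 + 1) * (u + 1))) := Ideal.mul_le.2 fun m hm a ha => by
    obtain ⟨z, hz⟩ := mem_Cn.1 ha m (mk.anti (by omega) hm)
    obtain ⟨b, hb⟩ := mem_Cn.1 ha _ (mk.pow _)
    refine Ideal.mem_span_singleton_mul.2 ⟨z, mk.can (N * ((m0 + 1) * t)) _ z ?_, by rw [← hz, mul_comm]⟩
    rw [← k1, mul_left_cancel₀ f0 (show f t * (_ * z) = f t * (b * m) by
      linear_combination m * hb - (algebraMap O[X] B X - algebraMap O B ξ) ^ (N * ((m0 + 1) * t)) * hz)]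
    exact Ideal.mul_mem_left _ _ hm
  obtain ⟨_, h3, _, h4, h5⟩ := Submodule.mem_sup.1 (((Ideal.mul_mono_right hI).trans
    ((Ideal.mul_sup _ _ _).le.trans (sup_le_sup h2 Ideal.mul_le_right))) h1)
  obtain ⟨G', g1, rfl⟩ := Ideal.mem_span_singleton_mul.1 h3
  obtain ⟨b, rfl⟩ := Ideal.mem_span_singleton.1 h4
  rw [hC, pow_add, hv, map_mul, map_mul] at h5
  obtain ⟨G, rfl⟩ := (R2 c G').1 (A.can _ _ 0 _ _ (f2 t) fun e _ => (R2 c _).2
    ⟨f (t + u + 1) - algebraMap O B (ϖ ^ J) * (algebraMap O B c' * b), by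
      linear_combination h5⟩ e (Nat.zero_le _))
  have h6 : f t * G = f (t + u + 1) - algebraMap O B (ϖ ^ J) * (algebraMap O B c' * b) :=
    mul_left_cancel₀ c0 (by linear_combination h5)
  have h7 := fun e : S => (R2 (ϖ ^ J) _).2 (dvd_mul_right _ (algebraMap O B c' * b)) e (Nat.zero_le _)
  have k2 : N * ((m0 + 1) * (t + u + 1) + 2 * cS) =
      N * ((m0 + 1) * t + 2 * cS) + N * ((m0 + 1) * (u + 1)) := by ring
  have f3 := k2 ▸ f2 (t + u + 1)
  have h8 : Lo μ (Ideal.span {ϖ ^ J}) (N * ((m0 + 1) * (u + 1)) + 1) G :=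
    A.can _ _ _ _ _ (f2 t) fun e he => by
      rw [h6, map_sub, Finsupp.sub_apply, f3.2 e (by omega), zero_sub]
      exact neg_mem (h7 e)
  refine ⟨(m0 + 1) * (u + 1), by nlinarith, G, mk.sat _ c G hc g1, ⟨h8, ?_⟩, ?_⟩
  · obtain ⟨hd, -⟩ := (A.pow _ _ ((m0 + 1) * (u + 1)) hs).1
    obtain ⟨_, h9⟩ := A.top _ _ ⟨_, hd⟩ _ _ (f2 t) h8
    obtain ⟨he, e⟩ := f3.1
    rw [h6, map_sub, Finsupp.sub_apply, e] at h9
    exact ⟨hd, by convert neg_mem (add_mem h9 (h7 ⟨_, he⟩)) using 1; ring⟩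
  · have h9 := Ideal.mem_span_singleton.1 ((hN O[X] B _ η).1 (Ideal.span {C (ϖ ^ J)}) (f t * G)
      (f (t + u + 1)) (by
        rw [h6, sub_sub_cancel_left, ← hC]
        exact neg_mem (Ideal.mul_mem_right _ _
          (Ideal.mem_map_of_mem _ (Ideal.mem_span_singleton_self _)))))
    rw [map_mul, V1, V1, k1] at h9
    refine cancel (((monic_X_sub_C ξ).pow (N * ((m0 + 1) * t))).mul (V3 t).monic) ?_
    convert dvd_sub h9 (((map_dvd C (pow_dvd_pow ϖ (Nat.le_add_right J v))).trans hV).mul_left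
      ((X - C ξ) ^ (N * ((m0 + 1) * t) + N * ((m0 + 1) * (u + 1))))) using 1
    rw [pow_add]
    ring

end Pool.Agent.MP_f3836a_nt.GV.A
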