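import Pool.Agent.MP_f3836a_nt.GV.SpecL

/-! Block A, local part: from one prime to all primes over `p`. -/

set_option autoImplicit false

namespace Pool.Agent.MP_f3836a_nt.GV.A

open Polynomial NumberField IsDedekindDomain

namespace APaX

section
variable {A : Type} [CommRing A]

theorem loc [IsDedekindDomain A] {b : A} (hb : b ≠ 0) : ∀ᶠ J in Filter.atTop,
    (∀ q : Ideal A, q.IsMaximal → b ∉ q ^ J) ∧
    ∀ a, (∀ q : Ideal A, q.IsMaximal → b ∈ q → a ∈ Ideal.span {b} ⊔ q ^ J) → b ∣ a := by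
  classical
  have h0 : Ideal.span {b} ≠ ⊥ := by simpa using hb
  filter_upwards [Filter.eventually_gt_atTop
    (UniqueFactorizationMonoid.normalizedFactors (Ideal.span {b})).card] with J hJ
  have key : ∀ q : Ideal A, q.IsMaximal → ∃ k I, k < J ∧ ¬I ≤ q ∧ Ideal.span {b} = q ^ k * I :=
    fun q hq => by
      obtain ⟨I, h1, h2⟩ := Ideal.eq_prime_pow_mul_coprime h0 q
      exact ⟨_, I, (Multiset.count_le_card _ _).trans_lt hJ,
        fun h => hq.ne_top (by rwa [sup_eq_left.2 h] at h1), h2⟩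
  refine ⟨fun q hq h => ?_, fun a h => ?_⟩
  · obtain ⟨k, I, k1, k2, k3⟩ := key q hq
    have h1 : q ^ k * q ∣ q ^ k * I := by
      rw [← k3, ← pow_succ]
      exact (pow_dvd_pow q k1).trans (Ideal.dvd_span_singleton.2 h)
    refine k2 (Ideal.le_of_dvd ((mul_dvd_mul_iff_left fun e => h0 ?_).1 h1))
    rw [k3, e, zero_mul, Ideal.zero_eq_bot]
  · by_contra hn
    have h1 : (Ideal.span {b}).colon {a} ≠ ⊤ := fun e => hn (by
      simpa [Ideal.mem_span_singleton] using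
        Submodule.mem_colon_singleton.1 (e.ge (trivial : (1 : A) ∈ ⊤)))
    obtain ⟨q, hq, l⟩ := Ideal.exists_le_maximal _ h1
    obtain ⟨k, I, k1, k2, k3⟩ := key q hq
    have h2 : a ∈ q ^ k := sup_le (k3.le.trans Ideal.mul_le_left) (Ideal.pow_le_pow_right k1.le)
      (h q hq (l (Submodule.mem_colon_singleton.2
        (Ideal.mul_mem_right _ _ (Ideal.mem_span_singleton_self b)))))
    refine k2 fun s hs => l (Submodule.mem_colon_singleton.2 ?_)
    rw [k3, smul_eq_mul, mul_comm s]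
    exact Ideal.mul_mem_mul h2 hs

theorem sl_congr {q : Ideal A} {π : A} {d J : ℕ} {Q Q' : A[X]} (h : Sl q π d J Q)
    (e : Q' - Q ∈ (q ^ J).map C) : Sl q π d J Q' := by
  have e := Ideal.mem_map_C_iff.1 e
  obtain ⟨h1, u, h2, h3⟩ := h
  refine ⟨fun i hi => ?_, u, h2, ?_⟩
  · simpa using add_mem (h1 i hi) (Ideal.mem_sup_right (e i))
  · convert add_mem (e 0) h3 using 1
    rw [coeff_sub]; ring

theorem sl_pow [IsDomain A] {q : Ideal A} (hq : q ≠ ⊤) (π : A) {m : ℕ} (N J : ℕ) (hm : m ≠ 0) :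
    Sl q π (N * m) J ((X ^ m + C (π ^ m)) ^ N) := by
  have d : (X ^ m + C 1 : A[X]).natDegree = m := natDegree_X_pow_add_C
  have e : X ^ m + C (π ^ m) = (X ^ m + C 1 : A[X]).scaleRoots π := by
    ext i
    rw [coeff_scaleRoots, d]
    simp only [coeff_add, coeff_X_pow, coeff_C]
    split_ifs <;> simp_all
  rw [e, ← pow_scaleRoots_of_isReduced]
  refine ⟨fun i _ => Ideal.mem_sup_left ?_, 1, (Ideal.ne_top_iff_one q).1 hq, ?_⟩
  · rw [coeff_scaleRoots, natDegree_pow, d]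
    exact Ideal.mul_mem_left _ _ (Ideal.mem_span_singleton_self _)
  · rw [coeff_scaleRoots, natDegree_pow, d, coeff_zero_eq_eval_zero]
    simp [hm]

theorem eps [IsDedekindDomain A] {p : A} (hp : p ≠ 0) (q : Ideal A) [hq : q.IsMaximal] (J : ℕ) :
    ∃ ε : A, 1 - ε ∈ q ^ J ∧ ∀ q' : Ideal A, q'.IsPrime → p ∈ q' → q' ≠ q → ε ∈ q' ^ J := by
  classical
  obtain ⟨I, h1, h2⟩ := Ideal.eq_prime_pow_mul_coprime (I := Ideal.span {p}) (by simpa using hp) q
  obtain ⟨a, ha, ε, hε, e⟩ := Submodule.mem_sup.1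
    ((Ideal.pow_sup_pow_eq_top (m := J) (n := J) h1).ge (trivial : (1 : A) ∈ ⊤))
  refine ⟨ε, by rw [← e, add_sub_cancel_right]; exact ha, fun q' hq' h ne => ?_⟩
  refine Ideal.pow_right_mono ((hq'.mul_le.1 (h2.ge.trans
    ((Ideal.span_singleton_le_iff_mem _).2 h))).resolve_left fun l => ?_) J hε
  exact ne (hq.eq_of_le hq'.ne_top (Ideal.IsPrime.le_of_pow_le l)).symm

variable {B : Type} [CommRing B] [Algebra A B]

theorem mix {S : AddSubmonoid ℕ} {μ : Module.Basis S A B} {d : ℕ} {g g' : B} (h : Mo μ d g)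
    (h' : Mo μ d g') (ε : A) : Mo μ d (ε • g + (1 - ε) • g') := by
  obtain ⟨⟨a, h1⟩, h2⟩ := h
  obtain ⟨⟨_, h3⟩, h4⟩ := h'
  exact ⟨⟨a, by simp [h1, h3]⟩, fun e he => by simp [h2 e he, h4 e he]⟩

theorem smul_mem {I : Ideal A} {a : A} (h : a ∈ I) (g : B) : a • g ∈ I.map (algebraMap A B) := by
  rw [Algebra.smul_def]
  exact Ideal.mul_mem_right _ _ (Ideal.mem_map_of_mem _ h)

end

end APaX

open APaX in
theorem aSl : SlS := by
  intro A _ _ p σ d hp
  obtain ⟨J0, h0⟩ := Filter.eventually_atTop.1 ((Finset.range (d + 1)).eventually_all.2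
    fun i _ => loc (pow_ne_zero i (pow_ne_zero σ hp)))
  refine ⟨J0, fun J hJ Q hQ h => ?_⟩
  have h1 : ∀ i, ∃ c, i ≤ d → Q.coeff i = c * (p ^ σ) ^ (d - i) := fun i => by
    by_cases hi : i ≤ d
    · obtain ⟨c, e⟩ := (h0 J hJ (d - i) (by simp)).2 (Q.coeff i) fun q hq m =>
        (h q hq.isPrime (hq.isPrime.mem_of_pow_mem _ (hq.isPrime.mem_of_pow_mem _ m))).1 i hi
      exact ⟨c, fun _ => e.trans (mul_comm _ _)⟩
    · exact ⟨0, fun e => absurd e hi⟩
  choose c hc using h1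
  have h2 : ∀ i, (∑ j ∈ Finset.range (d + 1), monomial j (c j)).coeff i =
      if i ≤ d then c i else 0 := fun i => by
    simp [finsetSum_coeff, coeff_monomial]
  generalize ∑ j ∈ Finset.range (d + 1), monomial j (c j) = M at h2
  have h3 : M.IsMonicOfDegree d := (isMonicOfDegree_iff _ _).2
    ⟨natDegree_le_iff_coeff_eq_zero.2 fun i hi => by rw [h2, if_neg hi.not_ge], by
      rw [h2, if_pos le_rfl, ← ((isMonicOfDegree_iff _ _).1 hQ).2, hc d le_rfl]; simp⟩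
  refine ⟨M, h3.monic, ?_, ?_⟩
  · rw [← Ideal.isCoprime_span_singleton_iff, Ideal.isCoprime_iff_sup_eq]
    by_contra hn
    obtain ⟨q, hq, l⟩ := Ideal.exists_le_maximal _ hn
    obtain ⟨u, h4, h5⟩ := (h q hq.isPrime (l (Ideal.mem_sup_right
      (Ideal.mem_span_singleton_self p)))).2
    have h6 := l (Ideal.mem_sup_left (Ideal.mem_span_singleton_self _))
    rw [h2, if_pos d.zero_le] at h6
    rw [hc 0 d.zero_le, Nat.sub_zero, ← sub_mul] at h5
    rcases Ideal.IsPrime.mul_mem_pow q h5 with k | k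
    · exact h4 (by simpa using sub_mem h6 k)
    · exact (h0 J hJ d (by simp)).1 q hq k
  · ext i
    rw [coeff_scaleRoots, h3.natDegree_eq, h2]
    split_ifs with hi
    · exact hc i hi
    · rw [zero_mul, coeff_eq_zero_of_natDegree_lt (hQ.natDegree_eq ▸ not_le.1 hi)]

open APaX in
theorem aPaX : OfPaX := by
  intro hF hA hN _ hS hG K 𝒜 _ _ _ _ S μ N e x θ c p q fm N0 mo reg sz hp hq pq
  let : Algebra (𝓞 K)[X] 𝒜 := (aeval x).toRingHom.toAlgebra
  have al : ∀ f : (𝓞 K)[X], algebraMap (𝓞 K)[X] 𝒜 f = aeval x f := fun _ => rfl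
  have : IsScalarTower (𝓞 K) (𝓞 K)[X] 𝒜 := IsScalarTower.of_algebraMap_eq fun a => by simp [al]
  have hx : x = algebraMap (𝓞 K)[X] 𝒜 X := by simp [al]
  have : NeZero N := ⟨N0.ne'⟩
  have p0 : (p : 𝓞 K) ≠ 0 := Nat.cast_ne_zero.2 hp.ne_zero
  have : q.IsMaximal := hq.isMaximal fun h => p0 (by simpa [h] using pq)
  have F := hF _ _ S μ fm
  obtain ⟨η, -, hη⟩ := hA _ _ S μ N fm (hx ▸ mo)
  obtain ⟨n1, n2, -, n4⟩ := hN _ _ _ η
  obtain ⟨c1, σ0, h⟩ := hG K 𝒜 S μ N e x θ c p q fm N0 mo reg sz hp hq pq hx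
  refine ⟨c1, σ0, fun σ hσ m0 => ?_⟩
  obtain ⟨m, hm, h⟩ := h σ hσ (m0 + 1)
  refine ⟨m, by omega, fun J => ?_⟩
  obtain ⟨J0, h0⟩ := hS (𝓞 K) p σ (N * m) p0
  obtain ⟨J', j1, j2, j3⟩ : ∃ J', J ≤ J' ∧ J0 ≤ J' ∧ σ * (N * m - c1) ≤ J' :=
    ⟨J + J0 + σ * (N * m - c1), by omega, by omega, by omega⟩
  obtain ⟨G, g1, g2, g3, g4⟩ := h J'
  obtain ⟨ε, e1, e2⟩ := eps p0 q J'
  obtain ⟨H, hH⟩ : ∃ H, H = x ^ m + ((p : 𝒜) ^ σ) ^ m := ⟨_, rfl⟩
  have h1 : Mo μ (N * m) H := hH ▸ F.add _ _ _ (F.pow _ _ m mo) fun t ht => by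
    have t0 : (0 : S) ≠ t := fun k => by
      have : 0 < N * m := Nat.mul_pos N0 (by omega)
      rw [← k] at ht
      exact this.not_ge ht
    rw [show ((p : 𝒜) ^ σ) ^ m = (((p : 𝓞 K) ^ σ) ^ m) • μ 0 by simp [fm.one, Algebra.smul_def]]
    simp [Finsupp.single_eq_of_ne' t0]
  have h2 : H = algebraMap (𝓞 K)[X] 𝒜 (X ^ m + C (((p : 𝓞 K) ^ σ) ^ m)) := by simp [hH, al]
  have d1 : ε • G + (1 - ε) • H - G = (1 - ε) • (H - G) := by module
  have d2 : ε • G + (1 - ε) • H - H = ε • (G - H) := by module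
  have mm : ∀ I : Ideal (𝓞 K), (I.map C).map (algebraMap (𝓞 K)[X] 𝒜) = I.map (algebraMap _ 𝒜) :=
    fun I => by rw [Ideal.map_map, IsScalarTower.algebraMap_eq (𝓞 K) (𝓞 K)[X] 𝒜]; rfl
  have mn : ∀ I : Ideal (𝓞 K), (I ^ J').map (algebraMap _ 𝒜) ≤ (I ^ J).map (algebraMap _ 𝒜) :=
    fun I => Ideal.map_mono (Ideal.pow_le_pow_right j1)
  have h3 := mix g1 h1 ε
  generalize ε • G + (1 - ε) • H = G' at d1 d2 h3
  obtain ⟨M, m1, m2, m3⟩ := h0 J' j2 (Algebra.norm (𝓞 K)[X] G')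
    (Algebra.norm_eq_matrix_det η G' ▸ hη m G' h3) fun q' hq' h => by
      by_cases k : q' = q
      · exact k ▸ sl_congr g2 (n1 _ _ _ (by rw [mm, d1]; exact smul_mem e1 _))
      · refine sl_congr (sl_pow hq'.ne_top _ N J' (by omega)) ?_
        have := n1 ((q' ^ J').map C) G' H (by rw [mm, d2]; exact smul_mem (e2 q' hq' h k) _)
        rwa [h2, n4, Fintype.card_fin] at this
  refine ⟨G', h3, ⟨M, m1, m2, m3 ▸ n2 G'⟩, ?_, ?_, fun q' hq' h k => ?_⟩
  · rw [eq_add_of_sub_eq d1, map_add, map_smul, mul_add, smul_eq_mul]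
    exact add_mem (Ideal.mul_mem_left _ _ (Ideal.mul_mem_right _ _
      (Ideal.pow_le_pow_right j3 e1))) g3
  · refine sup_le (Ideal.span_le.2 ?_) ((mn q).trans le_sup_right) g4
    rintro z (rfl | hz)
    · rw [← sub_sub_cancel G' z, d1]
      exact sub_mem (Ideal.mem_sup_left (Ideal.subset_span (by simp)))
        (Ideal.mem_sup_right (mn q (smul_mem e1 _)))
    · exact Ideal.mem_sup_left (Ideal.subset_span (.inr hz))
  · rw [← hH, d2]
    exact mn q' (smul_mem (e2 q' hq' h k) _)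

end Pool.Agent.MP_f3836a_nt.GV.A
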