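import Pool.Agent.MP_f3836a_nt.VE.SpecE2

/-! Shared definitions for the torsion of `V(C)`: tables, points, branches, block exports. -/

set_option autoImplicit false

namespace Pool.Agent.MP_f3836a_nt.GV

open Polynomial Finset VE

/-! ### multiplication tables -/

/-- the matrices of multiplication by the basis vectors -/
abbrev Tab (R : Type) (n : ℕ) := Fin n → Matrix (Fin n) (Fin n) R

section
variable {R : Type} [CommRing R] {n : ℕ}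

/-- the matrix of multiplication by the element with coordinates `β` -/
def Mx (M : Tab R n) (β : Fin n → R) : Matrix (Fin n) (Fin n) R := ∑ i, β i • M i

/-- the norm -/
def Nm (M : Tab R n) (β : Fin n → R) : R := (Mx M β).det

/-- the discriminant -/
def disc (M : Tab R n) : R := (Matrix.of fun i j => (M i * M j).trace).det

variable [NeZero n]

/-- the coordinates of a power -/
def pwr (M : Tab R n) (β : Fin n → R) (N : ℕ) : Fin n → R := (Mx M β ^ N).mulVec (Pi.single 0 1)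

/-- the values of the basis vectors under a ring homomorphism -/
def Hm (M : Tab R n) (s : Fin n → R) : Prop := s 0 = 1 ∧ ∀ i j, s i * s j = ∑ l, M i l j * s l

/-- the table comes from a commutative ring -/
def Rng (M : Tab R n) : Prop := ∃ (A : Type) (_ : CommRing A) (_ : Algebra R A)
  (y : Module.Basis (Fin n) R A), y 0 = 1 ∧ ∀ i, M i = Algebra.leftMulMatrix y (y i)

end

/-- a table over `ℤ[X]` with weights -/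
structure Tb (n : ℕ) where
  M : Tab ℤ[X] n
  e : Fin n → ℕ

namespace Tb

variable {n : ℕ} (T : Tb n)

/-- the norm polynomial -/
noncomputable def N (A : Fin n → ℤ[X]) : ℤ[X] := Nm T.M A

/-- the table of the fibre over `τ` -/
noncomputable def fib {R : Type} [CommRing R] (τ : R) : Tab R n := fun i => (T.M i).map (aeval τ)

/-- the table of the order spanned by the `b ^ e i * y i` in the fibre over `a / b` -/
def Mh (a b : ℤ) : Tab ℤ n := fun i => Matrix.of fun l j => hv (T.M i l j) (T.e i + T.e j - T.e l) a b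

/-- the coordinates of `b ^ m` times the value at `a / b` -/
def val (m : ℕ) (A : Fin n → ℤ[X]) (a b : ℤ) : Fin n → ℤ := fun i => hv (A i) (m - T.e i) a b

/-- the fibre over `a / b` is a field -/
def Fld (a b : ℤ) : Prop := ∀ β, β ≠ 0 → Nm (T.Mh a b) β ≠ 0

variable [NeZero n]

/-- monic of order `m` -/
def Mon (m : ℕ) (A : Fin n → ℤ[X]) : Prop :=
  (A 0).Monic ∧ (A 0).natDegree = m ∧ ∀ i, i ≠ 0 → ∀ d, m < d + T.e i → (A i).coeff d = 0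

structure Ok : Prop where
  rng : Rng T.M
  e0 : T.e 0 = 0
  epos : ∀ i, i ≠ 0 → 1 ≤ T.e i
  deg : ∀ i l j d, T.e i + T.e j < d + T.e l → (T.M i l j).coeff d = 0
  deg0 : ∀ i j, i ≠ 0 → j ≠ 0 → (T.M i 0 j).coeff (T.e i + T.e j) = 0
  det : ∀ m A, T.Mon m A → (T.N A).Monic ∧ (T.N A).natDegree = n * m
  sep : disc T.M ≠ 0

end Tb

/-! ### points over totally split fibres -/

/-- the labels of the points of a fibre -/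
def Fy (r p : ℕ) : Finset ℕ := Icc 1 r ∪ Ico (p - r) p

/-- split residues, values of the basis at the points, weights -/
structure Ps (n : ℕ) where
  r : ℕ
  sp : ℕ → Finset ℕ
  sv : Pt → Fin n → ℤ
  lw : ℕ → ℝ
  C : ℝ

/-- the element with coordinates `β` lies in the prime of the point -/
def InG {n : ℕ} (ss : Pt → Fin n → ℤ) (β : Fin n → ℤ) (z : Pt) : Prop :=
  (z.p : ℤ) ∣ ∑ i, β i * ss z i

namespace Ps

variable {n : ℕ} (P : Ps n)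

/-- a point -/
def Is (z : Pt) : Prop := z.t ∈ P.sp z.p ∧ z.y ∈ Fy P.r z.p

/-- the function vanishes at the point -/
def Zr (A : Fin n → ℤ[X]) (z : Pt) : Prop := InG P.sv (fun i => (A i).eval (z.t : ℤ)) z

variable [NeZero n]

structure Alg (T : Tb n) (t1 : ℤ) : Prop where
  two : n = 2 * P.r
  bas : ∀ p, ∀ τ ∈ P.sp p, p.Prime ∧ τ < p ∧ 2 * P.r < p ∧ ¬(p : ℤ) ∣ τ - t1
  hom : ∀ z, P.Is z → Hm (T.fib (z.t : ZMod z.p)) fun i => (P.sv z i : ZMod z.p)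
  inj : ∀ p, ∀ τ ∈ P.sp p, ∀ β : Fin n → ℤ, (∀ y ∈ Fy P.r p, InG P.sv β ⟨p, τ, y⟩) →
    ∀ i, (p : ℤ) ∣ β i

structure Win : Prop where
  one : 1 ≤ P.C
  lw : ∀ p, (P.sp p).Nonempty → Real.log p ≤ P.C * P.lw p ∧ P.lw p ≤ P.C * Real.log p
  win : ∀ δ : ℝ, 0 < δ → ∃ Y1 : ℝ, ∀ lo hi : ℝ, Y1 ≤ lo → lo ≤ hi →
    |∑ p ∈ (range ⌈hi⌉₊).filter fun p : ℕ => lo ≤ p, n * (P.sp p).card * P.lw p / (p : ℝ) ^ 2
      - (Real.log hi - Real.log lo)| ≤ δ * Real.log hi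

end Ps

/-! ### complex branches over a real interval -/

structure Br (n r : ℕ) where
  t0 : ℤ
  ρ : ℝ
  Y : Fin r → ℝ → Fin n → ℂ

/-- the value under an embedding -/
noncomputable def emb {n : ℕ} (s : Fin n → ℂ) (β : Fin n → ℝ) : ℂ := ∑ i, (β i : ℂ) * s i

namespace Br

variable {n r : ℕ} (B : Br n r)

def I : Set ℝ := Set.Icc B.t0 (B.t0 + B.ρ)

/-- the value of a function on a branch -/
noncomputable def ev {R : Type} [CommRing R] [Algebra R ℝ] (A : Fin n → R[X]) (w : Fin r) (t : ℝ) :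
    ℂ := emb (B.Y w t) fun i => aeval t (A i)

/-- a function which is a constant multiple of `D` on each branch is constant on classes -/
def Cst {ι : Type} (cls : Fin r → ι) : Prop := ∀ (Γ : Fin n → ℝ[X]) (D : ℝ[X]) (γ : Fin r → ℝ),
  D ≠ 0 → (∀ w, ∀ t ∈ B.I, B.ev Γ w t = (D.eval t * γ w : ℝ)) → ∀ w w', cls w = cls w' → γ w = γ w'

end Br

/-- `r` pairs of complex embeddings of a real table -/
structure Em {n r : ℕ} [NeZero n] (M : Tab ℝ n) (Φ : Fin r → Fin n → ℂ) : Prop where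
  hom : ∀ w, Hm (fun i => (M i).map Complex.ofReal) (Φ w)
  nrm : ∀ β, Nm M β = ∏ w, ‖emb (Φ w) β‖ ^ 2
  inj : ∀ β, (∀ w, emb (Φ w) β = 0) → β = 0

structure Br.Ok {n r : ℕ} [NeZero n] (B : Br n r) (T : Tb n) (t1 : ℤ) : Prop where
  rho : 0 < B.ρ ∧ B.ρ ≤ 1
  far : B.t0 + 1 + 2 * n ≤ t1
  em : ∀ t ∈ B.I, Em (T.fib t) fun w => B.Y w t
  ana : ∀ w i, AnalyticOnNhd ℝ (fun t => B.Y w t i) B.I

/-! ### the family of big curves -/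

/-- the free coefficients -/
abbrev Ix {n : ℕ} (e : Fin n → ℕ) (m : ℕ) : Type := Σ i : Fin n, Fin (m - max (e i) 1)

/-- the polynomials with given coefficients -/
noncomputable def vP {R : Type} [CommRing R] {n : ℕ} {e : Fin n → ℕ} {m : ℕ} (x : Ix e m → R)
    (i : Fin n) : R[X] := ∑ j : Fin (m - max (e i) 1), monomial j (x ⟨i, j⟩)

/-- the coefficients of the constant one -/
def oneX {n : ℕ} {e : Fin n → ℕ} {m : ℕ} (j : Ix e m) : ℝ :=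
  if (j.1 : ℕ) = 0 ∧ (j.2 : ℕ) = 0 then 1 else 0

/-- the norm polynomial of a real shape -/
noncomputable def NR {n : ℕ} (T : Tb n) (A : Fin n → ℝ[X]) : ℝ[X] :=
  Nm (fun i => (T.M i).map (Polynomial.map (Int.castRingHom ℝ))) A

/-- primitives of `P / ((t - t1) ^ n N)` -/
def Nc (n m : ℕ) (t0 t1 : ℝ) (N : ℝ[X]) (f : ℝ → ℝ) : Prop := ∃ P : ℝ[X], P.natDegree < n * m ∧
  ∀ t ∈ Set.Icc t0 (t0 + 1), HasDerivAt f (P.eval t / ((t - t1) ^ n * N.eval t)) t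

/-- quantitative rigidity for the shapes `v` -/
def Rq {n r m s : ℕ} (T : Tb n) (B : Br n r) (t1 : ℤ) (C0 : Set (Fin r → ℝ))
    (v : Fin s → Ix T.e m → ℝ) (J : ℕ) (D Λ : ℝ) : Prop :=
  ∀ (H : Type) [Fintype H] (σ t : H → ℝ) (c : H → Fin r → ℝ) (f : Fin s → ℝ → ℝ),
    (∀ h, 0 ≤ σ h ∧ t h ∈ B.I ∧ c h ∈ C0) → ∑ h, σ h = 1 →
    (∀ a : ℕ, ∑ h, σ h * ind (⌊(J : ℝ) * (t h - B.t0)⌋₊ = a) ≤ D / J) →
    (∀ k, Nc n m B.t0 t1 (NR T (vP (v k))) (f k)) →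
    ∑ h, σ h * ∑ w, c h w ^ 2 ≤ Λ * ∑ k, ∑ h, σ h *
      (∑ w, c h w * Real.log ‖B.ev (vP (v k)) w (t h)‖ - f k (t h)) ^ 2

/-- archimedean rigidity -/
def ARQ {n r : ℕ} (T : Tb n) (B : Br n r) (t1 : ℤ) (C0 : Set (Fin r → ℝ)) : Prop :=
  ∃ m0 : ℕ, ∀ m, m0 ≤ m → ∀ ε0 : ℝ, 0 < ε0 → ∃ (s : ℕ) (v : Fin s → Ix T.e m → ℝ),
    (∀ k j, |v k j - oneX j| ≤ ε0) ∧ ∀ D : ℝ, ∃ (J0 : ℕ) (Λ : ℝ), 0 < Λ ∧
      ∀ J, J0 ≤ J → Rq T B t1 C0 v J D Λ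

/-! ### the analytic core -/

/-- all data on the curve -/
structure Geo (n r : ℕ) where
  T : Tb n
  P : Ps n
  B : Br n r
  t1 : ℤ
  W0 : ℕ
  Nx : ℕ
  C0 : Set (Fin r → ℝ)

namespace Geo

variable {n r : ℕ} [NeZero n] (G : Geo n r)

structure Ok : Prop where
  two : n = 2 * r
  tb : G.T.Ok
  alg : G.P.Alg G.T G.t1
  win : G.P.Win
  br : G.B.Ok G.T G.t1
  w0 : 0 < G.W0
  nx : 2 ≤ G.Nx
  fld : ∀ (a : ℤ) (k : ℕ), Odd a → 0 < k → 2 ∣ k → ¬G.Nx ∣ k.factorization 2 →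
    G.T.Fld a ((k : ℤ) ^ 2)
  sum : ∀ c ∈ G.C0, ∑ w, c w = 0
  arq : ARQ G.T G.B G.t1 G.C0

/-- an admissible small curve `k² x - a` -/
structure Adm (a : ℤ) (k : ℕ) : Prop where
  pos : 0 < k
  cop : IsCoprime a (k : ℤ)
  mem : (a : ℝ) / (k : ℝ) ^ 2 ∈ G.B.I
  fld : G.T.Fld a ((k : ℤ) ^ 2)
  w0 : G.W0 ∣ k ∧ (G.W0 : ℤ) ∣ a - 1

/-- the identities on events -/
structure Ids (ψ : ℤ → ℕ → Pt → ℝ) (c : ℤ → ℕ → Fin r → ℝ) (φ : (Fin n → ℤ[X]) → Pt → ℝ)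
    (cθ : (Fin n → ℤ[X]) → ℂ → ℝ) : Prop where
  fz : ∀ a k p, ∀ τ ∈ G.P.sp p, G.Adm a k → (p : ℤ) ∣ (k : ℤ) ^ 2 * τ - a → ¬p ∣ k →
    ∑ y ∈ Fy G.P.r p, ψ a k ⟨p, τ, y⟩ = 0
  c0 : ∀ a k, G.Adm a k → c a k ∈ G.C0
  sum : ∀ m A, G.T.Mon m A → ∑ θ ∈ rts (G.T.N A), cθ A θ = 0
  idh : ∀ m A a k (T : Multiset Pt), G.T.Mon m A → G.Adm a k → Nd T →
    (∀ z ∈ T, G.P.Is z ∧ On a ((k : ℤ) ^ 2) z ∧ G.P.Zr A z ∧ ¬z.p ∣ k) →
    (nT T : ℤ) = hv (G.T.N A) (n * m) a ((k : ℤ) ^ 2) →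
    (T.map (ψ a k)).sum + ∑ w, c a k w * Real.log ‖G.B.ev A w ((a : ℝ) / (k : ℝ) ^ 2)‖
      = (T.map (φ A)).sum + ug (G.T.N A) (cθ A) ((a : ℝ) / (k : ℝ) ^ 2)

end Geo

/-- **the analytic core** (blocks C, D, E, F) -/
def Core : Prop := ∀ (n r : ℕ) [NeZero n] (G : Geo n r), G.Ok →
  ∀ (p0 m1 : ℕ) (G1 : Fin n → ℤ[X]), p0.Prime → 1 ≤ m1 → G.T.Mon m1 G1 →
  (∀ l : ℕ, l.Prime → (l : ℤ) ∣ (G.T.N G1).eval G.t1 → l = p0) →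
  ∃ N : ℕ, 0 < N ∧ ∀ (J : ℕ) ψ c φ cθ, G.Ids ψ c φ cθ → ∃ v A : Fin n → ℤ[X],
    (∀ i, A i = pwr G.T.M G1 N i + C ((p0 : ℤ) ^ J) * (X - C G.t1) * v i) ∧
    G.T.Mon (N * m1) A ∧ ∀ t : ℝ, ug (G.T.N A) (cθ A) t = 0

/-! ### curves with one point at infinity -/

/-- a basis of monic elements indexed by a cofinite semigroup -/
structure FM {A 𝒜 : Type} [CommRing A] [CommRing 𝒜] [Algebra A 𝒜] {S : AddSubmonoid ℕ}
    (μ : Module.Basis S A 𝒜) : Prop where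
  cof : ∃ c, ∀ d, c ≤ d → d ∈ S
  one : μ 0 = 1
  top : ∀ d d' : S, μ.repr (μ d * μ d') (d + d') = 1
  low : ∀ d d' e : S, (d : ℕ) + d' < e → μ.repr (μ d * μ d') e = 0

open NumberField in
/-- every function field embeds in the fraction field of such a curve (block Mod) -/
def ModP : Prop := ∀ (F : Type) [Field F] [Algebra ℚ F] (x : F), Transcendental ℚ x →
  FiniteDimensional (IntermediateField.adjoin ℚ {x}) F →
  ∃ (K : Type) (_ : Field K) (_ : NumberField K) (𝒜 : Type) (_ : CommRing 𝒜) (_ : Algebra (𝓞 K) 𝒜)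
    (S : AddSubmonoid ℕ) (μ : Module.Basis S (𝓞 K) 𝒜) (Ω : Type) (_ : Field Ω) (ι : F →+* Ω)
    (j : 𝒜 →+* Ω), FM μ ∧ Function.Injective j ∧ ∀ f, ∃ a b, j b ≠ 0 ∧ ι f * j b = j a

/-- **supply of points** (block P) -/
def PtsX : Prop := ∀ (n r : ℕ) [NeZero n] (T : Tb n) (t1 : ℤ), n = 2 * r → T.Ok →
  (∀ A, A ≠ 0 → T.N A ≠ 0) → ∃ P : Ps n, P.Alg T t1 ∧ P.Win

/-- **existence of branches** (block AR) -/
def BrX : Prop := ∀ (n r : ℕ) [NeZero n] (T : Tb n) (t1 : ℤ), n = 2 * r → T.Ok →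
  (∀ (t : ℝ) (s : Fin n → ℝ), ¬Hm (T.fib t) s) → ∃ B : Br n r, B.Ok T t1

open NumberField in
/-- **geometric irreducibility on branches** (block AR) -/
def CstX : Prop := ∀ (n r : ℕ) [NeZero n] (T : Tb n) (t1 : ℤ) (B : Br n r) (K : Type) [Field K]
  [NumberField K] (𝒜 : Type) [CommRing 𝒜] [Algebra (𝓞 K) 𝒜] [Algebra ℤ[X] 𝒜] (S : AddSubmonoid ℕ)
  (μ : Module.Basis S (𝓞 K) 𝒜) (y : Module.Basis (Fin n) ℤ[X] 𝒜), n = 2 * r → FM μ → y 0 = 1 →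
  (∀ i, T.M i = Algebra.leftMulMatrix y (y i)) → B.Ok T t1 → ∃ σ : Fin r → K →+* ℂ,
    (∀ w, ∀ t ∈ B.I, ∀ κ : 𝓞 K, B.ev (y.repr (algebraMap (𝓞 K) 𝒜 κ)) w t = σ w κ) ∧
    B.Cst fun w => InfinitePlace.mk (σ w)

open Classical in
/-- **archimedean rigidity** (block AR) -/
def ARX : Prop := ∀ (n r : ℕ) [NeZero n] (T : Tb n) (t1 : ℤ) (B : Br n r) (ι : Type)
  (cls : Fin r → ι), n = 2 * r → T.Ok → B.Ok T t1 → B.Cst cls →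
  ARQ T B t1 {c | ∀ v, ∑ w ∈ univ.filter fun w => cls w = v, c w = 0}

/-! ### one order -/

section
variable {n : ℕ}

/-- `β` generates the product of the primes of `T` -/
def EvG (M : Tab ℤ n) (ss : Pt → Fin n → ℤ) (β : Fin n → ℤ) (T : Multiset Pt) : Prop :=
  Nd T ∧ (∀ z ∈ T, InG ss β z) ∧ (nT T : ℤ) = Nm M β

/-- weighted number of decompositions into `T` and `j` steps -/
noncomputable def RwG (M : Tab ℤ n) (ss : Pt → Fin n → ℤ) (St : Finset (Multiset Pt))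
    (w : Multiset Pt → ℝ) (T : Multiset Pt) (j : ℕ) (β : Fin n → ℤ) : ℝ :=
  ∑ s : Fin j → St, (∏ i, w (s i)) * ind (EvG M ss β (T + ∑ i, (s i).1))

/-- density of the zeros of the norm form -/
noncomputable def nuG (M : Tab ℤ n) (l : ℕ) : ℝ :=
  (((Fintype.piFinset fun _ : Fin n => Ico (0 : ℤ) l).filter fun v => (l : ℤ) ∣ Nm M v).card : ℝ)
    / (l : ℝ) ^ n

/-- the unit correction -/
noncomputable def ratG (M : Tab ℤ n) (W Q : ℕ) : ℝ :=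
  ∏ l ∈ Q.primeFactors.filter fun l => ¬l ∣ W, (1 - nuG M l)⁻¹

/-- equidistribution in one order: averages over short shifts -/
def SFG (M : Tab ℤ n) (ss : Pt → Fin n → ℤ) (W : ℕ) (St : Finset (Multiset Pt))
    (w : Multiset Pt → ℝ) (ρ : ℝ) (LL : Finset ℕ) (ad : Multiset Pt → ℕ → Prop)
    (fm : Multiset Pt → ℕ → ℝ) (Sh : (Fin n → ℤ) → Prop) (Qm V ε K : ℝ) : Prop :=
  ∀ Q : ℕ, W ∣ Q → 0 < Q → (Q : ℝ) ≤ Qm →
    ∃ (Vs : Finset (Fin n → ℤ)) (ω : (Fin n → ℤ) → ℝ), (∀ v, 0 ≤ ω v) ∧ ∑ v ∈ Vs, ω v = 1 ∧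
    (∀ v ∈ Vs, ∀ i, |(v i : ℝ)| ≤ V) ∧
    ∀ (T : Multiset Pt) (j : ℕ) (β : Fin n → ℤ) (n' : ℕ), ad T j → nT T ^ 2 ∣ Q → Sh β →
      (∀ z ∈ T, InG ss β z) → Nm M β = (nT T * n' : ℕ) → n'.Coprime Q →
      ∑ v ∈ Vs, ω v * RwG M ss St w T j (β + (Q : ℤ) • v) ≤ K * (ρ * fm T j * ratG M W Q) ∧
      ((∀ l ∈ LL, ¬l ∣ Q) → |∑ v ∈ Vs, ω v * RwG M ss St w T j (β + (Q : ℤ) • v)
        - ρ * fm T j * ratG M W Q| ≤ ε * (ρ * fm T j * ratG M W Q))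

variable [NeZero n] {r : ℕ}

/-- `β` is an `N`-th power modulo `W` and all its conjugates have the same size -/
def Shp (M : Tab ℤ n) (Φ : Fin r → Fin n → ℂ) (W N : ℕ) (X : ℝ) (β : Fin n → ℤ) : Prop :=
  (∃ γ, (Nm M γ).natAbs.Coprime W ∧ ∀ i, (W : ℤ) ∣ β i - pwr M γ N i) ∧
  ∀ w, |Real.log ‖emb (Φ w) fun i => β i‖ - X / n| ≤ 1

/-- the level is divisible enough -/
def HWn (n N W : ℕ) : Prop := 5 ≤ W ∧ (∀ l : ℕ, l.Prime → l ≤ 2 * n → l ∣ W) ∧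
  ∃ W1 : ℕ, W = N ^ 2 * W1 ∧ ∀ l : ℕ, l.Prime → l ∣ W → l ∣ W1

/-- the base hypotheses on an order, its points and the steps -/
structure BHG (M : Tab ℤ n) (Φ : Fin r → Fin n → ℂ) (ss : Pt → Fin n → ℤ) (Val : Pt → Prop)
    (St : Finset (Multiset Pt)) (μ : Multiset Pt → ℝ) (W E0 : ℕ) (C1 Y : ℝ) : Prop where
  two : n = 2 * r
  rng : Rng M
  fld : ∀ β, β ≠ 0 → Nm M β ≠ 0
  em : Em (fun i => (M i).map (Int.cast : ℤ → ℝ)) Φ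
  size : (∀ w i, ‖Φ w i‖ ≤ Y ^ E0) ∧ |((disc M : ℤ) : ℝ)| ≤ Y ^ E0 ∧ (W : ℝ) ≤ Y ^ E0
  sig : sig W (disc M) ≤ C1
  val : ∀ z, Val z → z.p.Prime ∧ ¬(z.p : ℤ) ∣ disc M * W ∧
    Hm (fun i => (M i).map (Int.cast : ℤ → ZMod z.p)) fun i => (ss z i : ZMod z.p)
  few : ∀ (p : ℕ) (S : Finset Pt), (∀ z ∈ S, Val z ∧ z.p = p) → S.card ≤ n
  stp : ∀ x ∈ St, ∃ z, x = {z} ∧ Val z ∧ Y ≤ z.p ∧ (z.p : ℝ) < Y ^ 2
  pos : ∀ x ∈ St, 0 ≤ μ x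
  tot : ∑ x ∈ St, μ x = 1
  sym : ∀ x ∈ St, ∀ x' ∈ St, nT x = nT x' → μ x = μ x'
  wt : ∀ x ∈ St, μ x * nT x ≤ C1

end

/-- the cell of a step -/
noncomputable def uG (Y : ℝ) (U : ℕ) (x : Multiset Pt) : ℕ := pos (Real.log Y) (Real.log Y / U) (nT x)

/-- the renormalised weights -/
noncomputable def nzG (S : Finset (Multiset Pt)) (μ : Multiset Pt → ℝ) (x : Multiset Pt) : ℝ :=
  μ x / ∑ y ∈ S, μ y

/-- **equidistribution in one order** (block C) -/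
def CMain : Prop := ∀ (n r E0 : ℕ) [NeZero n] (C1 : ℝ), 1 ≤ E0 →
  ∃ (N M0 M1 a : ℕ) (d0 : ℝ), 0 < N ∧ 0 < d0 ∧ ∀ E : ℕ,
  ∃ (k' J0 : ℕ) (C c : ℝ), 1 ≤ k' ∧ 1 ≤ C ∧ 0 < c ∧ c ≤ 1 ∧
  ∀ (d : ℕ → ℝ) (J k : ℕ) (ε0 : ℝ), Antitone d → (∀ i, 0 < d i) → d 0 ≤ d0 → J0 ≤ J → 0 < ε0 →
  ∃ Y00 : ℝ, ∀ (Y : ℝ) (W : ℕ) (M : Tab ℤ n) (Φ : Fin r → Fin n → ℂ) (ss : Pt → Fin n → ℤ)
    (Val : Pt → Prop) (St : Finset (Multiset Pt)) (μ : Multiset Pt → ℝ), Y00 ≤ Y → HWn n N W →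
    BHG M Φ ss Val St μ W E0 C1 Y →
  ∃ (i : ℕ) (St1 : Finset (Multiset Pt)) (LL : Finset ℕ) (ρ : ℝ), i ≤ M0 ∧ St1 ⊆ St ∧
    (∀ x ∈ St1, ∀ x' ∈ St, nT x' = nT x → x' ∈ St1) ∧
    1 - (M0 : ℝ) ^ 3 * d (i + 1) ≤ ∑ x ∈ St1, μ x ∧ LL.card ≤ M1 ∧
    (∀ l ∈ LL, l.Prime ∧ ¬l ∣ W) ∧ 0 < ρ ∧
    ∀ St2 ⊆ St1, 1 - d i / 8 ≤ ∑ x ∈ St2, μ x →
      (∀ T j β, j ≤ k → (∀ z ∈ T, Val z) → RwG M ss St2 (fun x => nzG St2 μ x * nT x) T j β ≤ Y ^ ε0 * ρ) ∧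
      ∀ U : ℕ, Y ≤ U → (U : ℝ) ≤ Y ^ E → (∀ x ∈ St, uG Y U x < U) ∧
      (∀ v, cv St2 (nzG St2 μ) (uG Y U) J k' v ≤ C / U) ∧
      ∀ (ad : Multiset Pt → ℕ → Prop) (fm : Multiset Pt → ℕ → ℝ) (X V Qm ε Λ ε' K : ℝ),
        ε0 ≤ ε → ε ≤ 1 → Λ * ε0 ≤ 1 → 1 ≤ Λ → Qm ≤ Y ^ E0 → Y ^ a ≤ V →
        V * Y ≤ Real.exp (X / n) → Real.exp (2 * X / n) * Y ^ a ≤ V ^ 2 * U → C * ε ≤ ε' →
        C * Λ ≤ K →
        (∀ T j, ad T j → Nd T ∧ 2 * k' + 2 ≤ j ∧ j ≤ k ∧ 1 / Λ ≤ fm T j ∧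
          Λ * (1 - c * d i ^ 2) ^ (j - 2 * k') ≤ ε ∧ (∀ z ∈ T, {z} ∈ St1) ∧ N ∣ T.card + j ∧
          ∀ v : ℤ, |Real.log Y / U * v - (X - Real.log (nT T) - j * Real.log Y)| ≤ n + 1 →
            |U * cv St2 (nzG St2 μ) (uG Y U) J j v - fm T j| ≤ ε * fm T j) →
        SFG M ss W St2 (fun x => nzG St2 μ x * nT x) ρ LL ad fm (Shp M Φ W N X) Qm V ε' K

end Pool.Agent.MP_f3836a_nt.GV
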