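import Pool.Agent.MP_f3836a_nt.GV.SpecC1
import Pool.Agent.MP_f3836a_nt.VE.BCls

/-! The analytic core. -/

set_option autoImplicit false

namespace Pool.Agent.MP_f3836a_nt.GV.C

open Finset VE
open VE.BC (tm law sm su TupS)

namespace GCAn

theorem conv (hT : TupS) {ι G T : Type} [Fintype ι] [AddCommGroup G] [AddCommGroup T] (μ : ι → ℝ)
    (u : ι → ℕ) (J : ℕ) (th : ι → T) (x : ι → G) (j : ℕ) (g : G) (f : ℤ × T → ℝ)
    (S : Finset (ℤ × T)) (hS : ∀ p, f p ≠ 0 → p ∈ S) :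
    (tm (sm μ J) j fun s => ind (∑ i, x (s i).1 = g) * f (∑ i, su u J (s i), ∑ i, th (s i).1)) =
    ∑ p ∈ S, law (sm μ J) (tri u J th x) j (p.1, p.2, g) * f p := by
  have e := ((hT _ (sm μ J)).2.2.2.2.2 _ (tri u J th x)).2.1 j
    (S.map ⟨fun p => (p.1, p.2, g), fun p q h => by
      simp only [Prod.mk.injEq] at h
      exact Prod.ext h.1 h.2.1⟩)
    (fun y => ind (y.2.2 = g) * f (y.1, y.2.1)) fun s hs => by
      generalize ∑ i, tri u J th x (s i) = y at hs ⊢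
      have h1 : y.2.2 = g := by
        by_contra hn
        exact hs (by simp [ind, hn])
      exact mem_map.2 ⟨(y.1, y.2.1), hS _ (right_ne_zero_of_mul hs), by simp [← h1]⟩
  have h : ∀ s : Fin j → ι × Fin J, ∑ i, tri u J th x (s i) =
      (∑ i, su u J (s i), ∑ i, th (s i).1, ∑ i, x (s i).1) := fun s => by
    ext <;> simp [tri, Prod.fst_sum, Prod.snd_sum]
  simp only [h, sum_map] at e
  simpa [ind] using e

theorem vb3 (r : ℕ) (δ : ℝ) : vb r (3 * δ) = (9 * Real.pi) ^ r * δ ^ (2 * r) := by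
  rw [vb, pow_mul, ← mul_pow]
  congr 1
  ring

theorem num {a b b' C C2 cp J k δ ε θ κ κ' : ℝ} (ha : 0 ≤ a) (hb : 0 ≤ b) (hC : 0 ≤ C)
    (hC2 : 0 ≤ C2) (hcp : 0 ≤ cp) (hJ : 1 ≤ J) (hk : 0 ≤ k) (hδ : 0 ≤ δ) (hε : 0 ≤ ε) (hθ : 0 ≤ θ)
    (h1 : κ ≤ cp * δ) (h2 : κ' ≤ k * (cp + J) * δ) (h3 : 17 * (cp * δ) ≤ 1) (e : b' = k * J * δ) :
    17 * C * a * κ' + ((θ * C2 + b * ε) * (1 + 17 * κ) + b * (17 * κ)) * a ≤
      (1 + C2 + 17 * (cp + 1) * C * a + 2 * C2 * a + (2 + 17 * cp) * a) *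
        (b * (ε + δ) + θ + b') := by
  have n1 : 0 ≤ 17 * (cp + 1) * C * a := by positivity
  have n2 : 0 ≤ 2 * C2 * a := by positivity
  have n3 : 0 ≤ (2 + 17 * cp) * a := by positivity
  have p1 : 0 ≤ b' := by rw [e]; positivity
  have p2 : k * (cp + J) * δ ≤ (cp + 1) * b' := by
    rw [e]
    linarith [mul_nonneg (mul_nonneg (mul_nonneg hk hδ) hcp) (sub_nonneg.2 hJ)]
  have q1 := mul_le_mul_of_nonneg_left (h2.trans p2) (show 0 ≤ 17 * C * a by positivity)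
  have q2 : (θ * C2 + b * ε) * (1 + 17 * κ) ≤ (θ * C2 + b * ε) * 2 :=
    mul_le_mul_of_nonneg_left (by linarith) (by positivity)
  have q4 : (θ * C2 + b * ε) * (1 + 17 * κ) + b * (17 * κ) ≤
      2 * C2 * θ + (2 + 17 * cp) * (b * (ε + δ)) := by
    linarith [mul_nonneg hb hδ, mul_nonneg hcp (mul_nonneg hb hε), mul_le_mul_of_nonneg_left h1 hb]
  have q5 := mul_le_mul_of_nonneg_right q4 ha
  have p3 : 0 ≤ b * (ε + δ) := by positivity
  generalize b * (ε + δ) = b'' at p3 q5 ⊢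
  obtain ⟨C', hC'⟩ : ∃ C', C' = 1 + C2 + 17 * (cp + 1) * C * a + 2 * C2 * a + (2 + 17 * cp) * a :=
    ⟨_, rfl⟩
  rw [← hC']
  have s1 := mul_le_mul_of_nonneg_right (show (2 + 17 * cp) * a ≤ C' by linarith) p3
  have s2 := mul_le_mul_of_nonneg_right (show 2 * C2 * a ≤ C' by linarith) hθ
  have s3 := mul_le_mul_of_nonneg_right (show 17 * (cp + 1) * C * a ≤ C' by linarith) p1
  linarith

theorem tri1 {U t g b fm ε θ C P Q : ℝ} (hU : 0 < U) (ht : 0 < t) (hg : 0 < g) (hb : 0 ≤ b)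
    (h1 : |P - b / (t * g) * Q| ≤ θ * (C / (U * t * g))) (h2 : |U * Q - fm| ≤ ε * fm) :
    |P - b * fm / (U * t * g)| ≤ (θ * C + b * fm * ε) / (U * t * g) := by
  refine (abs_sub_le _ (b / (t * g) * Q) _).trans ?_
  rw [add_div, show b / (t * g) * Q - b * fm / (U * t * g) = b / (U * t * g) * (U * Q - fm) by
    field_simp, abs_mul, abs_of_nonneg (a := b / _) (by positivity), mul_div_assoc]
  exact add_le_add h1 ((mul_le_mul_of_nonneg_left h2 (by positivity)).trans_eq (by ring))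

theorem tri2 {U t g R η δ b e a z I S S' C κ κ' M : ℝ} (hU : 0 < U) (ht : 0 < t) (hg : 0 < g)
    (hR : 0 < R) (hη : 0 < η) (hz : 0 ≤ z)
    (h1 : |S - S'| ≤ 17 / δ * κ' * (C / (g * R * (U * η)) * (a * z)))
    (h2 : |S' - b / (U * t * g) * (t / (η * R)) * I| ≤ (e / (U * t * g) * (1 + 17 / δ * κ) +
      b / (U * t * g) * (17 / δ * κ)) * (t / (η * R) * (a * z)))
    (h3 : 17 * C * a * (κ' / δ) + (e * (1 + 17 * (κ / δ)) + b * (17 * (κ / δ))) * a ≤ M) :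
    |S - b * I / (g * R * (U * η))| ≤ M * (z / (g * R * (U * η))) := by
  rw [show b * I / (g * R * (U * η)) = b / (U * t * g) * (t / (η * R)) * I by field_simp]
  refine ((abs_sub_le _ _ _).trans (add_le_add h1 h2)).trans
    (le_of_eq_of_le ?_ (mul_le_mul_of_nonneg_right h3 (by positivity)))
  field_simp

end GCAn

open GCAn

theorem rAn : OfAn := fun hT _ _ hGr hL hC hA hB r k' C hr hk' hC0 => by
  obtain ⟨C2, hC2⟩ : ∃ C2 : ℝ, C2 = C * ((3 * k' + 1) ^ (2 * r) * 4 ^ r) := ⟨_, rfl⟩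
  obtain ⟨J0, c, hc0, hc1, hL⟩ := hL k' C2 hk'
  obtain ⟨p, hp0, hp⟩ := Nat.exists_infinite_primes (J0 + 1)
  have hC20 : 0 ≤ C2 := by rw [hC2]; positivity
  obtain ⟨cp, hcp⟩ : ∃ cp : ℝ, cp = 2 * r ^ 2 * p + 1 := ⟨_, rfl⟩
  obtain ⟨a, ha⟩ : ∃ a : ℝ, a = (9 * Real.pi) ^ r := ⟨_, rfl⟩
  have hcp0 : 0 < cp := by rw [hcp]; positivity
  have ha0 : 0 < a := by rw [ha]; positivity
  have n1 : 0 ≤ 17 * (cp + 1) * C * a := by positivity
  have n2 : 0 ≤ 2 * C2 * a := by positivity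
  have n3 : 0 ≤ (2 + 17 * cp) * a := by positivity
  refine ⟨J0 + 1, c, 1 + C2 + 17 * (cp + 1) * C * a + 2 * C2 * a + (2 + 17 * cp) * a, by omega,
    hc0, hc1, by linarith only [hC20, n1, n2, n3], fun J k hJ => ?_⟩
  have hJ1 : (1 : ℝ) ≤ J := by exact_mod_cast (show 1 ≤ J by omega)
  have hr1 : (1 : ℝ) ≤ r := by exact_mod_cast hr
  have hM : (0 : ℝ) < 6 + 2 * r + 17 * cp + k * (cp + J) := by positivity
  refine ⟨1 / (6 + 2 * r + 17 * cp + k * (cp + J)), by positivity,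
    fun ι G _ _ _ μ x lam u U L η R Λ hμ hJU hu hη hη1 hΛ hcel hD => ?_⟩
  have key : ∀ y : ℝ, 0 < y → y ≤ 1 / (6 + 2 * r + 17 * cp + k * (cp + J)) →
      y ≤ 1 / 6 ∧ 2 * r * y ≤ 1 ∧ 17 * (cp * y) ≤ 1 ∧ k * (cp + J) * y ≤ 1 := fun y h0 h => by
    rw [le_div_iff₀ hM] at h
    have a1 : 0 ≤ r * y := by positivity
    have a2 : 0 ≤ cp * y := by positivity
    have a3 : 0 ≤ k * (cp + J) * y := by positivity
    refine ⟨?_, ?_, ?_, ?_⟩ <;> linarith only [h, h0, a1, a2, a3]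
  obtain ⟨T, _, _, pt, F, hG, q, hq⟩ := hGr r p Λ R η hr hp hη
    (by linarith only [(key η hη hη1).1]) hΛ
  have he : 2 * r ^ 2 * p * η + η = cp * η := by rw [hcp]; ring
  have hU0 : (0 : ℝ) < U := by exact_mod_cast (show 0 < U by omega)
  have hG0 : (0 : ℝ) < Nat.card G := by exact_mod_cast Nat.card_pos
  have hT0 : (0 : ℝ) < Nat.card T := by exact_mod_cast Nat.card_pos
  have hR0 := hG.pos.1
  have hN : NoS T J0 := fun j h1 h2 =>
    hq ▸ (Nat.coprime_of_lt_prime (by omega) (by omega) hp : p.Coprime j).pow_left q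
  obtain ⟨th, hRp, hlaw⟩ := hC r ι G T μ x lam u Λ pt F k' J L η _ _ hr hμ (by omega) hη hG hcel hD
  have hlaw' : ∀ y, law (sm μ J) (tri u J th x) k' y ≤ C2 / (U * Nat.card T * Nat.card G) :=
    fun y => (hlaw y).trans_eq (by rw [hC2]; field_simp)
  refine ⟨fun v => (BC.BCls.marg hT (sm μ J) (su u J) (fun p => (th p.1, x p.1)) k' _
    hlaw' v).trans ?_, fun B cc j g ζ Φ d δ fm ε hd0 hd1 hB1 hB2 hj hjk hg hδ0 hδ1 hηδ hΦ hΦ1 hfm
      hε hv => ?_⟩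
  · rw [Nat.card_prod, Nat.cast_mul, show (Nat.card T : ℝ) * Nat.card G *
      (C2 / (U * Nat.card T * Nat.card G)) = C2 / U by field_simp]
    exact div_le_div_of_nonneg_right (by linarith only [n1, n2, n3]) hU0.le
  obtain ⟨f1, f2, f3, f4⟩ := key δ hδ0 hδ1
  have hjk' : (j : ℝ) ≤ k := by exact_mod_cast hjk
  have g1 : η ≤ δ := hηδ.trans (pow_le_of_le_one hδ0.le (by linarith only [f1]) two_ne_zero)
  have g2 : cp * η / δ ≤ cp * δ := by
    rw [div_le_iff₀ hδ0, mul_assoc, ← sq]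
    exact mul_le_mul_of_nonneg_left hηδ hcp0.le
  have g3 : j * (cp * η + J * η) / δ ≤ k * (cp + J) * δ := by
    rw [div_le_iff₀ hδ0, ← add_mul, ← mul_assoc, mul_assoc _ δ, ← sq]
    exact mul_le_mul (mul_le_mul_of_nonneg_right hjk' (by positivity)) hηδ hη.le (by positivity)
  rw [he] at hRp
  have r1 := hA r ι G T μ x lam u th Λ pt k' j J L η _ _ _ _ δ g ζ Φ hr hμ (by omega) hη
    (by positivity) hΛ.sep hG.add hRp hD (by omega) hΦ
    ((div_le_self hη.le (by linarith only [hr1])).trans g1) ((div_le_one hδ0).1 (g3.trans f4)) f1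
  obtain ⟨S, hS, r2⟩ := hB r T Λ pt F η _ _ δ (ζ - (j * L) • e0 r) Φ hr hη hΛ.ker hG hΦ hΦ1
    (by linarith only [f1]) f2 (he ▸ (div_le_one hδ0).1 (g2.trans
      (by linarith only [f3, mul_pos hcp0 hδ0])))
  obtain ⟨θ, hθ⟩ : ∃ θ, θ = (1 - c * d ^ 2) ^ (j - 2 * k') := ⟨_, rfl⟩
  have hθ0 : 0 ≤ θ := hθ ▸
    pow_nonneg (sub_nonneg.2 (mul_le_one₀ hc1 (sq_nonneg d) (pow_le_one₀ hd0.le hd1))) _
  have hb : 0 ≤ B.card * fm := mul_nonneg (Nat.cast_nonneg _) hfm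
  have hd := (mul_pos (mul_pos hU0 hT0) hG0).le
  have r3 := r2 (fun p => law (sm μ J) (tri u J th x) j (p.1, p.2, g)) _ _ (div_nonneg hb hd)
    (div_nonneg (add_nonneg (mul_nonneg hθ0 hC20) (mul_nonneg hb hε)) hd) fun p hp =>
      tri1 hU0 hT0 hG0 (Nat.cast_nonneg _) (hθ ▸ hL ι G T μ u th x U J d (by omega) hJU hN hμ hu
        hlaw' hd0 hd1 B cc j g hB1 hB2 hj hg p.1 p.2)
        (hv p.1 (by rwa [Lg_sub, Lg_smul, Lg_e0 hr, mul_one] at hp))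
  rw [← conv hT μ u J th x j g _ S hS, he, vb3, ← ha] at r3
  rw [vb3, ← ha] at r1
  exact hθ ▸ tri2 hU0 hT0 hG0 hR0 hη (pow_nonneg hδ0.le _) r1 r3 (num ha0.le hb hC0 hC20 hcp0.le hJ1
    k.cast_nonneg hδ0.le hε hθ0 g2 g3 f3 rfl)

end Pool.Agent.MP_f3836a_nt.GV.C
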