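import Pool.Agent.MP_f3836a_nt.GV.SpecC2
import Pool.Agent.MP_f3836a_nt.GV.RApi

/-! Coordinates are bounded by the embeddings. -/

set_option autoImplicit false

namespace Pool.Agent.MP_f3836a_nt.GV.C

open Finset NumberField VE

namespace GCCoo

variable {n r : ℕ} [NeZero n] {o : Od n r}

theorem tr (hB : BaaS) (h : o.Ok) (a : o.A) :
    |((Algebra.leftMulMatrix o.y a).trace : ℤ)| ≤ (n : ℝ) * ‖o.em a‖ := by
  obtain ⟨β, rfl⟩ := o.co.surjective a
  have e : Algebra.leftMulMatrix o.y (o.co β) = Mx o.M β := by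
    simp [Od.co, Mx, Od.M, map_sum]
  have e1 : ((Mx o.M β).trace : ℝ) = ∑ w, 2 * (o.em (o.co β) w).re := by
    have e2 := Mx_map (Int.castRingHom ℝ) o.M β
    have e3 := h.emb.trace h.two fun i => (β i : ℝ)
    simp only [(hB n r o h).2.2.2.2.2.2.2.2.2.2.1 β]
    rw [← e3]
    exact (AddMonoidHom.map_trace (Int.castRingHom ℝ) _).trans (congrArg Matrix.trace e2)
  rw [e, Int.cast_abs, e1]
  refine (abs_sum_le_sum_abs _ _).trans ((sum_le_card_nsmul _ _ (2 * ‖o.em (o.co β)‖)
    fun w _ => ?_).trans ?_)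
  · rw [abs_mul, abs_two]
    exact mul_le_mul_of_nonneg_left ((Complex.abs_re_le_norm _).trans (norm_le_pi_norm _ w))
      zero_le_two
  · have e4 : (n : ℝ) = 2 * r := by exact_mod_cast h.two
    rw [card_univ, Fintype.card_fin, nsmul_eq_mul, e4]
    exact le_of_eq (by ring)

end GCCoo

open GCCoo in
theorem rCoo : OfCoo := by
  intro hB n E0
  refine ⟨E0 * (2 * n + 1) + 1, n.factorial * n ^ (n + 2), fun r _ o Y hY h hS v i => ?_⟩
  have hn : (1 : ℝ) ≤ n := by exact_mod_cast Nat.pos_of_ne_zero (NeZero.ne n)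
  have hf : (1 : ℝ) ≤ n.factorial := by exact_mod_cast n.factorial_pos
  have hY1 : 1 ≤ Y := le_trans (one_le_mul_of_one_le_of_one_le hf (one_le_pow₀ hn)) hY
  set B := Y ^ E0 with hBd
  have hB1 : 1 ≤ B := one_le_pow₀ hY1
  have hy : ∀ j, ‖o.em (o.y j)‖ ≤ B := fun j =>
    (pi_norm_le_iff_of_nonneg (by linarith)).2 fun w => hS w j
  let G : Matrix (Fin n) (Fin n) ℤ := Matrix.of fun i j => (o.M i * o.M j).trace
  let G' : Matrix (Fin n) (Fin n) ℝ := G.map (Int.castRingHom ℝ)
  have hx : 1 ≤ (n : ℝ) * (B * B) :=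
    one_le_mul_of_one_le_of_one_le hn (one_le_mul_of_one_le_of_one_le hB1 hB1)
  have g1 : ∀ j l, |G' j l| ≤ n * (B * B) := fun j l => by
    have := tr hB h (o.y j * o.y l)
    rw [map_mul, map_mul, Int.cast_abs] at this
    refine this.trans (mul_le_mul_of_nonneg_left ((norm_mul_le _ _).trans ?_) (by linarith))
    exact mul_le_mul (hy j) (hy l) (norm_nonneg _) (by linarith)
  have g2 : ∀ j, |(G'.mulVec fun l => (v l : ℝ)) j| ≤ n * (B * ‖o.em (o.co v)‖) := fun j => by
    have := tr hB h (o.y j * o.co v)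
    have e : (G'.mulVec fun l => (v l : ℝ)) j =
        ((Algebra.leftMulMatrix o.y (o.y j * o.co v)).trace : ℤ) := by
      have e0 : o.co v = ∑ l, v l • o.y l := o.y.equivFun_symm_apply v
      simp only [e0, mul_sum, mul_smul_comm, map_sum, map_zsmul, map_mul, Matrix.trace_sum,
        Matrix.trace_smul]
      simp [G', G, Od.M, Matrix.mulVec, dotProduct, mul_comm]
    rw [Int.cast_abs, ← e, map_mul] at this
    refine this.trans (mul_le_mul_of_nonneg_left ((norm_mul_le _ _).trans ?_) (by linarith))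
    exact mul_le_mul_of_nonneg_right (hy j) (norm_nonneg _)
  have g3 : ∀ j l, |G'.adjugate j l| ≤ n.factorial * (n * (B * B)) ^ n := fun j l => by
    have := Matrix.det_le (A := G'.updateRow l (Pi.single j 1)) (abv := AbsoluteValue.abs)
      (x := n * (B * B)) fun a b => by
        rw [AbsoluteValue.abs_apply, Matrix.updateRow_apply]
        split_ifs
        · rw [Pi.single_apply]
          split_ifs
          · rwa [abs_one]
          · rw [abs_zero]; linarith
        · exact g1 a b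
    rwa [AbsoluteValue.abs_apply, Fintype.card_fin, nsmul_eq_mul, ← Matrix.adjugate_apply] at this
  have g4 : 1 ≤ |G'.det| := by
    have e : G'.det = (G.det : ℤ) := ((Int.castRingHom ℝ).map_det G).symm
    rw [e, ← Int.cast_abs]
    exact_mod_cast Int.one_le_abs (Int.natAbs_ne_zero.1 h.dne)
  have g5 : G'.det * v i = ∑ j, G'.adjugate i j * (G'.mulVec fun l => (v l : ℝ)) j := by
    have := congrFun (Matrix.mulVec_mulVec (fun l => (v l : ℝ)) G'.adjugate G') i
    rw [Matrix.adjugate_mul, Matrix.smul_mulVec, Matrix.one_mulVec] at this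
    exact this.symm
  have g6 : |G'.det * v i| ≤ n * (n.factorial * (n * (B * B)) ^ n * (n * (B * ‖o.em (o.co v)‖))) := by
    rw [g5]
    refine (abs_sum_le_sum_abs _ _).trans ((sum_le_card_nsmul _ _ _ fun j _ => ?_).trans
      (by rw [card_univ, Fintype.card_fin, nsmul_eq_mul]))
    rw [abs_mul]
    exact mul_le_mul (g3 i j) (g2 j) (abs_nonneg _) (by positivity)
  calc |(v i : ℝ)| ≤ |G'.det * v i| := by
        rw [abs_mul]; exact le_mul_of_one_le_left (abs_nonneg _) g4
    _ ≤ _ := g6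
    _ = B ^ (2 * n + 1) * (n.factorial * n ^ (n + 2)) * ‖o.em (o.co v)‖ := by ring
    _ ≤ B ^ (2 * n + 1) * Y * ‖o.em (o.co v)‖ := by gcongr
    _ = _ := by rw [hBd, ← pow_mul, pow_succ]

end Pool.Agent.MP_f3836a_nt.GV.C
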