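import Pool.Agent.MP_f3836a_nt.GV.SpecC2
import Pool.Agent.MP_f3836a_nt.VE.CGc

/-! Small facts for the assembly of block C. -/

set_option autoImplicit false

namespace Pool.Agent.MP_f3836a_nt.GV.C.CG

open Finset NumberField VE
open VE.BC (tm law Sb ex cop)
open VE.BC.CG (ind_nonneg ind_pos ind_neg nT_add nT_sum tm_le Sh nd_sum)

/-- the facts on the steps -/
structure Sp {n r : ℕ} [NeZero n] (o : Od n r) (ss : Pt → Fin n → ℤ) (Val : Pt → Prop)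
    (St : Finset (Multiset Pt)) (μ : Multiset Pt → ℝ) (W E0 : ℕ) (C1 Y : ℝ) : Prop where
  bh : BHG o.M o.Φ ss Val St μ W E0 C1 Y
  val : ∀ z, Val z → o.Gd ss z ∧ z.p.Coprime W
  pos : 0 < C1
  stp : ∀ x ∈ St, Nd x ∧ (∀ z ∈ x, Val z) ∧ (nT x).Prime ∧ (nT x).Coprime W ∧ Y ≤ nT x ∧
    Real.log Y ≤ Real.log (nT x) ∧ Real.log (nT x) < 2 * Real.log Y
  one : ∀ p : ℕ, ∑ x ∈ St.filter fun x => nT x = p, μ x ≤ n * C1 / Y
  rem : ∀ (Q a : ℕ) (S : Finset (Multiset Pt)), 0 < Q → (Q : ℝ) ≤ Y ^ a → S ⊆ St →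
    ∑ x ∈ S \ cop S Q, μ x ≤ a * (n * C1) / Y

variable {n r : ℕ} [NeZero n] {o : Od n r} {ss : Pt → Fin n → ℤ} {Val : Pt → Prop}
  {St : Finset (Multiset Pt)} {μ : Multiset Pt → ℝ} {W E0 : ℕ} {C1 Y : ℝ}

theorem sp_of (hS : StpS) (hY : 1 < Y) (h : BHG o.M o.Φ ss Val St μ W E0 C1 Y) :
    Sp o ss Val St μ W E0 C1 Y :=
  have ⟨a, b, c, d, e⟩ := hS n r o ss Val St μ W E0 C1 Y hY h
  ⟨h, a, b, c, d, e⟩

theorem Sp.gd (h : Sp o ss Val St μ W E0 C1 Y) {x : Multiset Pt} (hx : x ∈ St) {z : Pt}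
    (hz : z ∈ x) : o.Gd ss z := (h.val z ((h.stp x hx).2.1 z hz)).1

theorem nz_le {S : Finset (Multiset Pt)} (hm : 1 / 2 ≤ ∑ x ∈ S, μ x) {x : Multiset Pt}
    (hx : 0 ≤ μ x) : 0 ≤ nzG S μ x ∧ nzG S μ x ≤ 2 * μ x := VE.BC.CG.nz_le hm hx

theorem nz_sum {S : Finset (Multiset Pt)} (hm : 1 / 2 ≤ ∑ x ∈ S, μ x) : ∑ x ∈ S, nzG S μ x = 1 :=
  VE.BC.CG.nz_sum hm

theorem sb_cop (h : Sp o ss Val St μ W E0 C1 Y) {S S' : Finset (Multiset Pt)} (hS : S ⊆ St)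
    (hS' : S' ⊆ S) (hm : 1 / 2 ≤ ∑ x ∈ S, μ x) : Sb fun x : S' => nzG S μ x := by
  refine ⟨fun x => (nz_le hm (h.bh.pos _ (hS (hS' x.2)))).1, ?_⟩
  rw [sum_coe_sort S' (nzG S μ), ← nz_sum hm]
  exact sum_le_sum_of_subset_of_nonneg hS' fun x hx _ => (nz_le hm (h.bh.pos _ (hS hx))).1

theorem sh_eq (h : Sp o ss Val St μ W E0 C1 Y) {x x' : Multiset Pt} (hx : x ∈ St) (hx' : x' ∈ St)
    (c : Sh x x') : nT x' = nT x := by
  obtain ⟨z, rfl, -⟩ := h.bh.stp x hx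
  obtain ⟨z', rfl, -⟩ := h.bh.stp x' hx'
  obtain ⟨p, h1, h2⟩ := c
  simp only [Multiset.map_singleton, Multiset.mem_singleton] at h1 h2
  simp [nT, ← h1, ← h2]

theorem sh_le (h : Sp o ss Val St μ W E0 C1 Y) {S S' : Finset (Multiset Pt)} (hS : S ⊆ St)
    (hS' : S' ⊆ S) (hm : 1 / 2 ≤ ∑ x ∈ S, μ x) (x : S') :
    ∑ x' : S', nzG S μ x' * ind (Sh x x') ≤ 2 * (n * C1 / Y) := by
  rw [sum_coe_sort S' fun x' => nzG S μ x' * ind (Sh x x')]
  refine le_trans ?_ (mul_le_mul_of_nonneg_left (h.one (nT x)) zero_le_two)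
  rw [sum_filter, mul_sum]
  refine le_trans (sum_le_sum fun x' hx' => ?_) (sum_le_sum_of_subset_of_nonneg (hS'.trans hS)
    fun x' hx' _ => by split_ifs <;> linarith [h.bh.pos _ hx'])
  have h0 := h.bh.pos _ (hS (hS' hx'))
  by_cases c : Sh x x'
  · rw [ind_pos c, mul_one, if_pos (sh_eq h (hS (hS' x.2)) (hS (hS' hx')) c)]
    exact (nz_le hm h0).2
  · rw [ind_neg c, mul_zero]
    split_ifs <;> linarith

theorem dh_scale {ι G : Type} [Fintype ι] [AddCommGroup G] {μ μ' : ι → ℝ} {x : ι → G}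
    {lam : ι → E r} {Λ : AddSubgroup (E r)} {k : ℕ} {δ0 δ1 D : ℝ} (h0 : ∀ i, 0 ≤ μ' i)
    (h : ∀ i, μ' i ≤ 2 * μ i) (hδ : δ0 ≤ δ1) (H : DH μ x lam Λ k δ0 D) :
    DH μ' x lam Λ k δ1 (2 ^ k * D) := by
  refine ⟨mul_nonneg (by positivity) H.1, fun g A K hK => ?_⟩
  refine (tm_le h0 h k fun s => ind_nonneg _).trans ?_
  rw [mul_assoc]
  exact mul_le_mul_of_nonneg_left (H.2 g A K ⟨hK.1, hK.2.1, fun a ha =>
    (Metric.closedBall_subset_closedBall hδ).trans (hK.2.2 a ha)⟩) (by positivity)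

theorem uu_spec (h : Sp o ss Val St μ W E0 C1 Y) (hY : 1 < Y) {U : ℕ} (hU : 0 < U)
    {x : Multiset Pt} (hx : x ∈ St) : uG Y U x < U ∧
    Real.log Y / U * uG Y U x ≤ Real.log (nT x) - Real.log Y ∧
    Real.log (nT x) - Real.log Y ≤ Real.log Y / U * (uG Y U x + 1) := by
  obtain ⟨-, -, -, -, -, h1, h2⟩ := h.stp x hx
  have hU' : (0 : ℝ) < U := by exact_mod_cast hU
  have h3 : 0 < Real.log Y / U := div_pos (Real.log_pos hY) hU'
  have h4 : 0 ≤ (Real.log (nT x) - Real.log Y) / (Real.log Y / U) := div_nonneg (by linarith) h3.le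
  refine ⟨(Nat.floor_lt h4).2 ((div_lt_iff₀ h3).2 ?_), ?_, ?_⟩
  · rw [mul_div_cancel₀ _ hU'.ne']; linarith
  · rw [mul_comm, ← le_div_iff₀ h3]; exact Nat.floor_le h4
  · rw [mul_comm (_ / _), ← div_le_iff₀ h3]; exact (Nat.lt_floor_add_one _).le

theorem cel (hP : PtS) (ok : o.Ok) (h : Sp o ss Val St μ W E0 C1 Y) (hY : 1 < Y) {U Q : ℕ}
    (hU : 0 < U) {lam : Ideal (𝓞 o.L) → E r} (hl : o.Lam Q lam) {S : Finset (Multiset Pt)}
    (hS : S ⊆ St) : Cel (fun x : cop S Q => lam (o.IM ss x)) (fun x : cop S Q => uG Y U x)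
      (Real.log Y) (Real.log Y / U) := fun x => by
  obtain ⟨h1, h2⟩ := mem_filter.1 x.2
  obtain ⟨h3, -, h5, -⟩ := (hP n r o ss ok).2 x fun z hz => h.gd (hS h1) hz
  simp only [hl.nrm _ (h5 Q h2).1, h3]
  exact (uu_spec h hY hU (hS h1)).2

theorem rw_le (hM : MulS) (h : Sp o ss Val St μ W E0 C1 Y) {S : Finset (Multiset Pt)}
    (hS : S ⊆ St) (hm : 1 / 2 ≤ ∑ x ∈ S, μ x) {T : Multiset Pt} (hT : ∀ z ∈ T, Val z) (j : ℕ)
    (β : Fin n → ℤ) :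
    RwG o.M ss S (fun x => nzG S μ x * nT x) T j β ≤ (j * n * |2 * C1|) ^ j := by
  have hT0 : 0 < nT T := Multiset.prod_pos fun p hp => by
    obtain ⟨z, hz, rfl⟩ := Multiset.mem_map.1 hp
    exact (h.val z (hT z hz)).1.1.pos
  refine le_trans ?_ (hM Val S (nzG S μ) n j ((Nm o.M β).natAbs / nT T) (2 * C1) h.bh.few
    fun x hx => ?_)
  · rw [RwG, tm, mul_sum]
    refine sum_le_sum fun s _ => ?_
    have h0 : 0 ≤ ∏ i, nzG S μ (s i) :=
      prod_nonneg fun i _ => (nz_le hm (h.bh.pos _ (hS (s i).2))).1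
    by_cases c : EvG o.M ss β (T + ∑ i, (s i).1)
    · have e : nT (∑ i, (s i).1) = (Nm o.M β).natAbs / nT T := by
        rw [← c.2.2, Int.natAbs_natCast, nT_add, Nat.mul_div_cancel_left _ hT0]
      rw [ind_pos c, ind_pos e, ← e, nT_sum]
      simp only [prod_mul_distrib, Nat.cast_prod]
      exact le_of_eq (by ring)
    · rw [ind_neg c, mul_zero]
      exact mul_nonneg (by positivity) (mul_nonneg h0 (ind_nonneg _))
  · obtain ⟨z, h1, h2, -⟩ := h.bh.stp x (hS hx)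
    obtain ⟨h4, h5⟩ := nz_le hm (h.bh.pos x (hS hx))
    refine ⟨⟨z, h1, h2, (h.val z h2).1.1⟩, h4, ?_⟩
    have := mul_le_mul_of_nonneg_right h5 (Nat.cast_nonneg (α := ℝ) (nT x))
    linarith [h.bh.wt x (hS hx)]

open Classical in
/-- saturation loses at most the factor `n` -/
theorem sat_le (h : Sp o ss Val St μ W E0 C1 Y) (p : Multiset Pt → Prop) :
    ∑ x ∈ St.filter fun x => ¬∀ x' ∈ St, nT x' = nT x → p x', μ x
      ≤ n * ∑ x ∈ St.filter fun x => ¬p x, μ x := by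
  calc _ ≤ ∑ x ∈ St, ∑ x' ∈ St.filter fun x => ¬p x, if nT x = nT x' then μ x' else 0 := by
        rw [sum_filter]
        refine sum_le_sum fun x hx => ?_
        have h0 : ∀ x' ∈ St.filter fun x => ¬p x, 0 ≤ if nT x = nT x' then μ x' else 0 :=
          fun x' hx' => by split_ifs; exacts [h.bh.pos _ (mem_filter.1 hx').1, le_rfl]
        split_ifs with c
        · exact sum_nonneg h0
        · push Not at c
          obtain ⟨x', h1, h2, h3⟩ := c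
          refine le_trans (le_of_eq ?_) (single_le_sum h0 (mem_filter.2 ⟨h1, h3⟩))
          rw [if_pos h2.symm, h.bh.sym x hx x' h1 h2.symm]
    _ ≤ _ := by
        rw [sum_comm, mul_sum]
        refine sum_le_sum fun x' hx' => ?_
        rw [← sum_filter, sum_const, nsmul_eq_mul]
        refine mul_le_mul_of_nonneg_right ?_ (h.bh.pos _ (mem_filter.1 hx').1)
        have : Nonempty Pt := ⟨⟨0, 0, 0⟩⟩
        choose! f f1 f2 using h.bh.stp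
        rw [← card_image_of_injOn (f := f) fun x hx y hy e => by
          rw [f1 x (mem_filter.1 hx).1, f1 y (mem_filter.1 hy).1, e]]
        refine Nat.cast_le.2 (h.bh.few (nT x') _ fun z hz => ?_)
        obtain ⟨x, hx, rfl⟩ := mem_image.1 hz
        obtain ⟨h1, h2⟩ := mem_filter.1 hx
        exact ⟨(f2 x h1).1, by simpa [nT] using (congrArg nT (f1 x h1)).symm.trans h2⟩

theorem pi_cM (hP : PtS) (ok : o.Ok) {Q : ℕ} {π : o.RC Q →+ o.RC W} (hπ : o.IsPr W Q π)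
    (hWQ : W ∣ Q) {x : Multiset Pt} (hx : ∀ z ∈ x, o.Gd ss z) (hc : (nT x).Coprime Q) :
    π (o.cM Q ss x) = o.cM W ss x := by
  obtain ⟨h1, h2⟩ := ((hP n r o ss ok).2 x hx).2.2.1 Q hc
  rw [h2, hπ.cl _ h1, (((hP n r o ss ok).2 x hx).2.2.1 W (hc.coprime_dvd_right hWQ)).2]

theorem io_pow (hB : BabS) (ok : o.Ok) (hW : 0 < W) {c : o.A} (hc : o.Cp W c) (N : ℕ) :
    o.Cp W (c ^ N) ∧ o.io W (c ^ N) = N • o.io W c := by
  induction N with
  | zero =>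
    obtain ⟨h1, h2⟩ := (hB n r o W ok hW).2.1 1 (o.pm_one W)
    rw [pow_zero, zero_smul, h2, o.pr_one, o.cI_one]
    exact ⟨h1, rfl⟩
  | succ N ih =>
    obtain ⟨h1, h2⟩ := (hB n r o W ok hW).2.2.2.1 _ _ ih.1 hc
    rw [pow_succ, h2, ih.2, succ_nsmul]
    exact ⟨h1, rfl⟩

theorem ch_shp (hA : BaaS) (hB : BabS) (ok : o.Ok) (hW : 0 < W) {N : ℕ} {X : ℝ} {β : Fin n → ℤ}
    (h : Shp o.M o.Φ W N X β) (χ : AddChar (o.RC W) ℂ) (hχ : ∀ g, χ g ^ N = 1) :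
    χ (o.io W (o.co β)) = 1 := by
  obtain ⟨⟨γ, h1, h2⟩, -⟩ := h
  obtain ⟨-, -, -, -, -, -, -, -, -, b1, -, b2, -⟩ := hA n r o ok
  rw [← ok.nmM, Int.natAbs_natCast] at h1
  obtain ⟨h3, h4⟩ := io_pow hB ok hW h1 N
  rw [((hB n r o W ok hW).2.2.1 _ (o.co β) h3 (by
    rw [← b2, ← map_sub]; exact (b1 _ _).2 h2)).2, h4, AddChar.map_nsmul_eq_pow, hχ]

theorem ch_target {G : Type} [AddCommGroup G] (χ : AddChar G ℂ) {g t e : G} {c : ℂ} {N a j : ℕ}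
    (h : g + t = e) (he : χ e = 1) (ht : χ t = c ^ a) (hc : c ^ N = 1) (hN : N ∣ a + j) :
    χ g = c ^ j := by
  obtain ⟨m, hm⟩ := hN
  have h1 : χ g * c ^ a = 1 := by rw [← ht, ← AddChar.map_add_eq_mul, h, he]
  have h2 : c ^ a * c ^ j = 1 := by rw [← pow_add, hm, pow_mul, hc, one_pow]
  rw [← mul_one (χ g), ← h2, ← mul_assoc, h1, one_mul]

end Pool.Agent.MP_f3836a_nt.GV.C.CG
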