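import Pool.Agent.MP_f3836a_nt.GV.GCGa

/-! The average over short shifts at one level. -/

set_option autoImplicit false

namespace Pool.Agent.MP_f3836a_nt.GV.C.CG

open Finset NumberField VE
open VE.BC (tm law Sb ex cop)
open VE.BC.CG (Sh nd_sum)

variable {n r : ℕ} [NeZero n] {o : Od n r} {ss : Pt → Fin n → ℤ} {Val : Pt → Prop}
  {St : Finset (Multiset Pt)} {μ : Multiset Pt → ℝ} {W E0 : ℕ} {C1 Y : ℝ}

theorem loc_sum (hPar : ParS) (hSum : SumS) (hLoc : LocS) (ok : o.Ok)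
    (h : Sp o ss Val St μ W E0 C1 Y) (hY : 0 < Y) {S : Finset (Multiset Pt)} (hS : S ⊆ St)
    (hm : 1 / 2 ≤ ∑ x ∈ S, μ x) {Q n' k' j : ℕ} {lam : Ideal (𝓞 o.L) → E r}
    {π : o.RC Q →+ o.RC W} {T : Multiset Pt} {β : Fin n → ℤ} {Vs : Finset (Fin n → ℤ)}
    {R δ δ0 D a : ℝ} {Ψ Φ : E r → ℝ} (hW : 2 ≤ W) (hWQ : W ∣ Q) (hQ : 0 < Q) (hl : o.Lam Q lam)
    (hπ : o.IsPr W Q π) (hT : Nd T) (hT' : ∀ z ∈ T, Val z ∧ InG ss β z) (h1 : nT T ^ 2 ∣ Q)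
    (h3 : o.nm (o.co β) = nT T * n') (h4 : n'.Coprime Q) (h5 : o.co β ≠ 0)
    (hVs : ∀ v, tn (R⁻¹ • o.em (Q * o.co v)) ≠ 0 → v ∈ Vs)
    (hsep : ∀ y ∈ o.LQ Q, y ≠ 0 → 1 ≤ ‖y‖)
    (hD : DH (fun x : cop S Q => nzG S μ x) (fun x : cop S Q => o.cM Q ss x)
      (fun x : cop S Q => lam (o.IM ss x)) (o.LQ Q) k' δ0 D) (d0 : 0 ≤ δ) (d1 : δ0 ≤ δ)
    (d2 : δ ≤ 1 / 3) (hj : k' + 2 ≤ j)
    (hΨ : ∀ ξ, 0 ≤ Ψ ξ ∧ Ψ ξ ≤ 2 ∧ (Ψ ξ ≠ 0 → ‖ξ‖ ≤ δ) ∧ |Ψ ξ - Φ ξ| ≤ a)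
    (hΦ : ∀ ξ, Φ ξ ≠ 0 → ‖ξ‖ ≤ δ)
    (hlin : ∀ x : E r, (∀ w, x w ≠ 0) → tn (R⁻¹ • (x - o.em (o.co β))) * ∏ w, ‖x w‖ ^ 2
      = Ψ (lq x (o.em (o.co β))) * ∏ w, ‖o.em (o.co β) w‖ ^ 2) :
    ∑ v ∈ Vs, tn (R⁻¹ • o.em (Q * o.co v)) *
      RwG o.M ss S (fun x => nzG S μ x * nT x) T j (β + (Q : ℤ) • v)
        ≤ o.nm (o.co β) * (2 * (D * vb r (2 * δ))) ∧
    ∀ m e : ℝ, (∀ (g : o.RC Q) (κ : E r), Lg κ = Real.log (o.nm (o.co β)) - Real.log (nT T) →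
      π g + o.cM W ss T = o.io W (o.co β) →
      |Sl (fun x : cop S Q => nzG S μ x) (fun x : cop S Q => o.cM Q ss x)
        (fun x : cop S Q => lam (o.IM ss x)) (o.LQ Q) j g Φ κ - m| ≤ e) →
      |∑ v ∈ Vs, tn (R⁻¹ • o.em (Q * o.co v)) *
        RwG o.M ss S (fun x => nzG S μ x * nT x) T j (β + (Q : ℤ) • v) - o.nm (o.co β) * m|
        ≤ o.nm (o.co β) * (e + (a + 2 * j ^ 2 * (2 * (n * C1 / Y))) * (D * vb r (2 * δ))) := by
  have hn0 : nT T ≠ 0 := fun c => by rw [c] at h1; simp at h1; omega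
  have hc : (nT T).Coprime W := Nat.Coprime.symm (Nat.coprime_multiset_prod_right_iff.2 fun p hp => by
    obtain ⟨z, hz, rfl⟩ := Multiset.mem_map.1 hp
    exact (h.val z (hT' z hz).1).2.symm)
  obtain ⟨K, g, κ, hK, hκ, hP⟩ := hPar n r o W Q n' ss lam π T β ok hW hWQ hQ hl hπ hT
    (fun z hz => ⟨(h.val z (hT' z hz).1).1, (hT' z hz).2⟩) hc h1 h3 h4
  have e := hSum n r o Q j ss lam S (nzG S μ) T β K g κ Vs R Ψ ok hl
    (fun x hx z hz => h.gd (hS hx) hz) h5 hn0 hP (fun ξ c => ((hΨ ξ).2.2.1 c).trans d2) hlin hVs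
  have hn : (0 : ℝ) < nT T := by exact_mod_cast Nat.pos_of_ne_zero hn0
  have hC := h.pos
  have hL := fun u => hLoc r _ _ (fun x : cop S Q => nzG S μ x) (fun x : cop S Q => o.cM Q ss x)
    (fun x : cop S Q => lam (o.IM ss x)) (o.LQ Q) k' j δ0 D δ a (2 * (n * C1 / Y)) (g u) (κ u) Ψ Φ
    (fun x x' => Sh x x') (fun s => Nd (∑ i, (s i).1)) (sb_cop h hS (filter_subset _ _) hm) hD hsep
    d0 d1 d2 hj (by positivity) hΨ hΦ (sh_le h hS (filter_subset _ _) hm) (fun s hs => by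
      by_contra c
      exact hs (nd_sum _ _ (fun i => (h.stp _ (hS (filter_subset _ _ (s i).2))).1)
        fun a b hab c' => c ⟨a, b, hab, c'⟩)) _ rfl
  have b0 : (0 : ℝ) ≤ o.nm (o.co β) := Nat.cast_nonneg _
  refine ⟨le_of_mul_le_mul_left ?_ hn, fun m e' hE => le_of_mul_le_mul_left ?_ hn⟩
  · rw [e, mul_left_comm, ← hK, ← nsmul_eq_mul K.card]
    exact mul_le_mul_of_nonneg_left (sum_le_card_nsmul _ _ _ fun u _ => (hL u).1) b0
  · rw [← abs_of_pos hn, ← abs_mul, abs_of_pos hn, mul_sub, e, mul_left_comm, ← mul_sub, abs_mul,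
      abs_of_nonneg b0, mul_left_comm]
    refine mul_le_mul_of_nonneg_left ?_ b0
    rw [← hK, ← nsmul_eq_mul, ← nsmul_eq_mul, ← sum_const, ← sum_sub_distrib]
    refine (abs_sum_le_sum_abs _ _).trans (sum_le_card_nsmul _ _ _ fun u hu => ?_)
    exact (abs_sub_le _ _ _).trans ((add_le_add (hL u).2 (hE _ _ (hκ u hu).1 (hκ u hu).2)).trans
      (add_comm _ _).le)

theorem arith {S Z P R b f c ε A C' e Λ ρ : ℝ} (hP : 0 < P) (hR : 0 < R) (hb : 1 ≤ b) (hc : 0 < c)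
    (hε : 0 < ε) (hε1 : ε ≤ 1) (hΛ : 1 ≤ Λ) (hf : 1 / Λ ≤ f) (hA : 0 ≤ A) (hC' : 0 ≤ C')
    (hZ : |P * Z - c| ≤ c * ε / 2) (hρ : ρ = b * (P * R)) :
    0 < Z ∧ (S ≤ A * R → S / Z ≤ 2 * A / c * Λ * (ρ * f)) ∧
    (|S - b * f * c * R| ≤ e * R → e ≤ C' * (b * f * ε) →
      |S / Z - ρ * f| ≤ (1 + 2 * C' / c) * ε * (ρ * f)) := by
  obtain ⟨h1, h2⟩ := abs_le.1 hZ
  have h3 : c / 2 ≤ P * Z := by nlinarith
  have hZ0 : 0 < Z := (mul_pos_iff_of_pos_left hP).1 (by linarith)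
  have hf1 : 1 ≤ Λ * f := by rwa [div_le_iff₀' (by linarith)] at hf
  have hf0 : 0 < f := lt_of_lt_of_le (by positivity) hf
  have hbf : 0 < b * f := by positivity
  refine ⟨hZ0, fun h => ?_, fun h h' => ?_⟩
  · rw [div_le_iff₀ hZ0, hρ]
    refine h.trans ?_
    have e : 2 * A / c * Λ * (b * (P * R) * f) * Z
        = A * R * (b * (Λ * f) * (P * Z / (c / 2))) := by field_simp
    rw [e]
    exact le_mul_of_one_le_right (by positivity) (one_le_mul_of_one_le_of_one_le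
      (one_le_mul_of_one_le_of_one_le hb hf1) ((one_le_div (by positivity)).2 h3))
  · have e : S / Z - ρ * f = ((S - b * f * c * R) - b * f * R * (P * Z - c)) / Z := by
      rw [hρ]; field_simp; ring
    rw [e, abs_div, abs_of_pos hZ0, div_le_iff₀ hZ0]
    refine (abs_sub _ _).trans ?_
    rw [abs_mul, abs_of_pos (by positivity : 0 < b * f * R)]
    have h4 := mul_le_mul_of_nonneg_left hZ (by positivity : 0 ≤ b * f * R)
    have h5 := mul_le_mul_of_nonneg_right h' hR.le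
    have e2 : (1 + 2 * C' / c) * ε * (ρ * f) * Z
        = (1 + 2 * C' / c) * ε * (b * f * R) * (P * Z) := by rw [hρ]; ring
    have h6 := mul_le_mul_of_nonneg_left h3
      (by positivity : 0 ≤ (1 + 2 * C' / c) * ε * (b * f * R))
    have e3 : (1 + 2 * C' / c) * ε * (b * f * R) * (c / 2)
        = b * f * R * (c * ε / 2) + C' * (b * f * ε) * R := by field_simp
    linarith

omit [NeZero n] in
/-- the sizes of the radius -/
theorem sizes {X V U : ℝ} {a1 : ℕ} (hY : 1 ≤ Y) (hU : 0 < U)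
    (h0 : Y ^ (2 * a1 + 2 * E0 + 1) ≤ V) (h1 : V * Y ≤ Real.exp (X / n))
    (h2 : Real.exp (2 * X / n) * Y ^ (2 * a1 + 2 * E0 + 1) ≤ V ^ 2 * U) :
    6 * (V / Y ^ a1) / Real.exp (X / n) ≤ 6 / Y ∧
    Real.log Y / U ≤ (6 * (V / Y ^ a1) / Real.exp (X / n)) ^ 2 ∧
    Y ^ E0 * Y ^ E0 * Y ≤ V / Y ^ a1 := by
  have hY0 : 0 < Y := by linarith
  have hV : 0 < V := lt_of_lt_of_le (by positivity) h0
  have hx := Real.exp_pos (X / n)
  have h3 : 1 ≤ Y ^ a1 := one_le_pow₀ hY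
  have h4 : 1 ≤ Y ^ (2 * E0) := one_le_pow₀ hY
  refine ⟨?_, ?_, ?_⟩
  · rw [div_le_div_iff₀ hx hY0]
    have := mul_le_mul_of_nonneg_right (div_le_self hV.le h3) hY0.le
    linarith
  · have e : Real.exp (2 * X / n) = Real.exp (X / n) ^ 2 := by
      rw [← Real.exp_nat_mul]; congr 1; push_cast; ring
    rw [div_pow, mul_pow, div_pow, div_le_div_iff₀ hU (by positivity), mul_assoc, div_mul_eq_mul_div,
      ← mul_div_assoc, le_div_iff₀ (by positivity), ← e]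
    have h5 : Real.log Y ≤ Y := (Real.log_le_sub_one_of_pos hY0).trans (by linarith)
    have h6 : 0 ≤ V ^ 2 * U := by positivity
    calc _ ≤ Y * Real.exp (2 * X / n) * (Y ^ a1) ^ 2 * Y ^ (2 * E0) := by
          refine le_trans ?_ (le_mul_of_one_le_right (by positivity) h4)
          gcongr
      _ = Real.exp (2 * X / n) * Y ^ (2 * a1 + 2 * E0 + 1) := by ring
      _ ≤ _ := by linarith
  · rw [le_div_iff₀ (by positivity)]
    refine le_trans ?_ h0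
    calc _ ≤ Y ^ E0 * Y ^ E0 * Y * Y ^ a1 * Y ^ a1 := le_mul_of_one_le_right (by positivity) h3
      _ = _ := by ring

end Pool.Agent.MP_f3836a_nt.GV.C.CG
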