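import Pool.Agent.MP_f3836a_nt.GV.GCGb

/-! Equidistribution in one order from the analytic core. -/

set_option autoImplicit false

namespace Pool.Agent.MP_f3836a_nt.GV.C.CG

open Finset NumberField VE
open VE.BC (tm law Sb ex cop MgS cv_eq)
open VE.BC.CG (small near total)

theorem vb_mul (r : ℕ) (a δ : ℝ) : vb r (a * δ) = vb r a * δ ^ (2 * r) := by
  rw [vb, vb, pow_mul, ← mul_pow]; congr 1; ring

theorem vb_nonneg (r : ℕ) (a : ℝ) : 0 ≤ vb r a := by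
  have := Real.pi_pos
  unfold vb; positivity

theorem log_prod {r : ℕ} {y : E r} {X : ℝ} (h : ∀ w, y w ≠ 0 ∧ |Real.log ‖y w‖ - X| ≤ 1) :
    |Real.log (∏ w, ‖y w‖ ^ 2) - 2 * r * X| ≤ 2 * r := by
  rw [Real.log_prod fun w _ => pow_ne_zero _ (norm_ne_zero_iff.2 (h w).1),
    show 2 * r * X = ∑ _w : Fin r, 2 * X by simp; ring, ← sum_sub_distrib]
  refine (abs_sum_le_sum_abs _ _).trans ((sum_le_card_nsmul _ _ 2 fun w _ => ?_).trans
    (by simp [mul_comm]))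
  rw [Real.log_pow, Nat.cast_ofNat, ← mul_sub, abs_mul, abs_two]
  linarith [(h w).2]

variable {n r : ℕ} [NeZero n] {o : Od n r} {ss : Pt → Fin n → ℤ} {Val : Pt → Prop}
  {St : Finset (Multiset Pt)} {μ : Multiset Pt → ℝ} {W E0 : ℕ} {C1 Y : ℝ}

theorem sfe_all (hBa : BaaS) (hPt : PtS) (hPar : ParS) (hSum : SumS) (hLoc : LocS) (hOm : OmS)
    (hMg : MgS) (hPi : PiS) (hCard : CardS) (hLam : LamS) (hUn : UnS) (hLin : LinS)
    {Cd c C' δ1 d X V Qm ε ε0 Λ : ℝ} {k' J k U a1 N : ℕ} (hc : 0 < cτ r) (hCd : 0 ≤ Cd)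
    (hC' : 1 ≤ C') (hAn : AnI r k' Cd c C' J k δ1) (ok : o.Ok) (h : Sp o ss Val St μ W E0 C1 Y)
    {S : Finset (Multiset Pt)} (hS : S ⊆ St) (hm : 1 / 2 ≤ ∑ x ∈ S, μ x) (hW : 2 ≤ W) (hJ : 1 ≤ J)
    (hJU : J ≤ U) (hη : Real.log Y / U ≤ δ1) (hV0 : 0 < o.V0)
    (hco : ∀ (v : Fin n → ℤ) (i : Fin n), |(v i : ℝ)| ≤ Y ^ a1 * ‖o.em (o.co v)‖)
    (hDH : ∀ (Q : ℕ) (lam : Ideal (𝓞 o.L) → E r), W ∣ Q → 0 < Q → (Q : ℝ) ≤ Y ^ E0 → o.Lam Q lam →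
      DH (fun x : cop S Q => nzG S μ x) (fun x : cop S Q => o.cM Q ss x)
        (fun x : cop S Q => lam (o.IM ss x)) (o.LQ Q) k' (Real.log Y / U / (4 * r))
        (Cd / (Nat.card (o.RC Q) * Rg (o.LQ Q) * (U * (Real.log Y / U)))))
    (hcv : ∀ v, cv S (nzG S μ) (uG Y U) J k' v ≤ C' / U)
    {B : Finset (AddChar (o.RC W) ℂ)} {cc : AddChar (o.RC W) ℂ → ℂ} {LL : Finset ℕ}
    (hB1 : 1 ≤ B.card) (hd : 0 < d) (hd1 : d ≤ 1)
    (hDi : ∀ (Q : ℕ) (π : o.RC Q →+ o.RC W), W ∣ Q → 0 < Q → (Q : ℝ) ≤ Y ^ E0 → o.IsPr W Q π →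
      (∀ l ∈ LL, ¬l ∣ Q) → ∃ BQ : Finset (AddChar (o.RC Q) ℂ), BQ.card = B.card ∧
      (∀ χ ∈ BQ, ∃ χ' ∈ B, ∀ g, χ g = χ' (π g)) ∧ ∀ χ ∉ BQ, ‖o.mch Q ss S (nzG S μ) χ‖ ≤ 1 - d)
    (hcc : ∀ χ ∈ B, ∀ x ∈ S, χ (o.cM W ss x) = cc χ)
    {ad : Multiset Pt → ℕ → Prop} {fm : Multiset Pt → ℕ → ℝ}
    (had : ∀ T j, ad T j → Nd T ∧ (∀ z ∈ T, Val z) ∧ 2 * k' + 2 ≤ j ∧ j ≤ k ∧ 1 / Λ ≤ fm T j ∧
      Λ * (1 - c * d ^ 2) ^ (j - 2 * k') ≤ ε ∧ (∀ χ ∈ B, ∀ β, Shp o.M o.Φ W N X β →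
        ∀ g, g + o.cM W ss T = o.io W (o.co β) → χ g = cc χ ^ j) ∧
      ∀ v : ℤ, |Real.log Y / U * v - (X - Real.log (nT T) - j * Real.log Y)| ≤ n + 1 →
        |U * cv S (nzG S μ) (uG Y U) J j v - fm T j| ≤ ε * fm T j)
    (h0 : 0 < ε0) (h1 : ε0 ≤ ε) (h2 : ε ≤ 1) (h3 : Λ * ε0 ≤ 1) (h4 : 1 ≤ Λ) (h5 : Qm ≤ Y ^ E0)
    (h6 : Y ^ (2 * a1 + 2 * E0 + 1) ≤ V) (h7 : V * Y ≤ Real.exp (X / n))
    (h8 : Real.exp (2 * X / n) * Y ^ (2 * a1 + 2 * E0 + 1) ≤ V ^ 2 * U)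
    (n1 : 24 * r ≤ Y) (n2 : 6 ≤ δ1 * Y)
    (n5 : 6 + k * J * 6 + ((17 + 4 * r) * 6 + 4 * k ^ 2 * (n * C1)) + k * (2 * E0 * (n * C1)) * C'
      ≤ ε0 ^ 2 * Y) (n6 : 2 * (vb r 3 * n) ≤ cτ r * ε0 * Y) :
    SFG o.M ss W S (fun x => nzG S μ x * nT x) (B.card * (W ^ n * o.V0) / (o.hR W * Real.log Y))
      LL ad fm (Shp o.M o.Φ W N X) Qm V
      ((1 + 2 * (17 ^ (2 * r) * (5 * C' + vb r 2 * Cd)) / cτ r) * ε)
      (2 * (17 ^ (2 * r) * (2 * (vb r 2 * Cd))) / cτ r * Λ) := by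
  intro Q hWQ hQ hQm
  obtain ⟨r1, -, b1, b0, -, -, -, -, -, -, b2, -⟩ := hBa n r o ok
  have r1' : (1 : ℝ) ≤ r := by exact_mod_cast r1
  have en : (n : ℝ) = 2 * r := by exact_mod_cast ok.two
  have hY : 1 < Y := by linarith
  have hY0 : 0 < Y := by linarith
  have hl0 := Real.log_pos hY
  have hQ' := hQm.trans h5
  have hQ2 : 2 ≤ Q := hW.trans (Nat.le_of_dvd hQ hWQ)
  have hU : 0 < U := by omega
  have hU' : (0 : ℝ) < U := by exact_mod_cast hU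
  have hη0 : 0 < Real.log Y / U := by positivity
  have hV : 0 < V := lt_of_lt_of_le (by positivity) h6
  have hQ0 : (0 : ℝ) < Q := by exact_mod_cast hQ
  obtain ⟨z1, z2, z3⟩ := sizes (n := n) hY.le hU' h6 h7 h8
  set R := V / Y ^ a1 with hR
  set δ := 6 * R / Real.exp (X / n) with hδ
  have R0 : 0 < R := by positivity
  have z0 : 0 < δ := by positivity
  have z4 : 4 * r * δ ≤ 1 := (mul_le_mul_of_nonneg_left z1 (by positivity)).trans (by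
    rw [← mul_div_assoc, div_le_one hY0]; linarith)
  have z5 : δ ≤ 1 / 3 := by linarith only [z4, z0, mul_le_mul_of_nonneg_right r1' z0.le]
  have s1 : Q * (n * Y ^ E0) * Y ≤ n * R := by
    have := mul_le_mul_of_nonneg_left z3 (Nat.cast_nonneg (α := ℝ) n)
    refine le_trans ?_ this
    calc _ ≤ Y ^ E0 * (n * Y ^ E0) * Y := by gcongr
      _ = _ := by ring
  obtain ⟨Vs, v1, v2, v3⟩ := hOm n r o (Y ^ E0) R Q ok h.bh.size.1 hQ R0
    (le_of_mul_le_mul_right (s1.trans (by rw [mul_comm]; gcongr; linarith)) hY0)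
  obtain ⟨lam, hl⟩ := hLam n r o Q ok hQ
  obtain ⟨π, hπ⟩ := hPi n r o W Q ok hWQ hQ
  obtain ⟨R1, hul⟩ := hUn n r o Q ok hQ2
  obtain ⟨f1, -, g1, -, f2⟩ := hCard n r o W Q ok hW hWQ hQ
  have g2 := (hCard n r o W W ok hW dvd_rfl (by omega)).2.2.1
  have hW0 : (0 : ℝ) < W := by exact_mod_cast (by omega : 0 < W)
  have ea : Nat.card (o.RC Q) * Rg (o.LQ Q) * (U * (Real.log Y / U)) = o.hR Q * Real.log Y := by
    rw [mul_div_cancel₀ _ hU'.ne']; rfl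
  set Z := ∑ v ∈ Vs, tn (R⁻¹ • o.em (Q * o.co v)) with hZ
  have p0 := vb_nonneg r 2
  have v4 : |Q ^ n * o.V0 / R ^ n * Z - cτ r| ≤ cτ r * ε / 2 := by
    refine v3.trans ((mul_le_mul_of_nonneg_left (show _ ≤ n / Y by
      rw [div_le_div_iff₀ R0 hY0]; exact s1) (vb_nonneg r 3)).trans ?_)
    rw [← mul_div_assoc, div_le_iff₀ hY0]
    linarith only [n6, mul_le_mul_of_nonneg_left h1 (mul_pos hc hY0).le]
  have hb : (1 : ℝ) ≤ B.card := by exact_mod_cast hB1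
  have ar := fun (Sg f e : ℝ) (hf : 1 / Λ ≤ f) => arith (S := Sg) (f := f) (e := e)
    (R := R ^ n / (o.hR Q * Real.log Y)) (C' := 17 ^ (2 * r) * (5 * C' + vb r 2 * Cd))
    (A := 17 ^ (2 * r) * (2 * (vb r 2 * Cd)))
    (ρ := B.card * (W ^ n * o.V0) / (o.hR W * Real.log Y) * ratG o.M W Q) (by positivity)
    (by positivity) hb hc (by linarith) h2 h4 hf (by positivity) (by positivity) v4 (by
      field_simp
      linear_combination f2)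
  have hZ0 := (ar 0 _ 0 le_rfl).1
  refine ⟨Vs, fun v => tn (R⁻¹ • o.em (Q * o.co v)) / Z, fun v => div_nonneg (le_max_left _ _) hZ0.le,
    by rw [← sum_div, div_self hZ0.ne'], fun v hv i => (hco v i).trans ?_,
    fun T j β n' hT t1 t2 t3 t4 t5 => ?_⟩
  · rw [← le_div_iff₀' (by positivity)]; exact v2 v hv
  obtain ⟨a1, a2, a3, a4, a5, a6, a7, a8⟩ := had T j hT
  have t6 : o.nm (o.co β) = nT T * n' := by exact_mod_cast (ok.nmM β).trans t4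
  have t7 : o.co β ≠ 0 := fun c => by
    rw [c, b0, eq_comm, mul_eq_zero] at t6
    rcases t6 with c | c
    · rw [c] at t1; simp at t1; omega
    · rw [c, Nat.coprime_zero_left] at t5; omega
  have t8 : ∀ w, o.em (o.co β) w ≠ 0 ∧ |Real.log ‖o.em (o.co β) w‖ - X / n| ≤ 1 := fun w =>
    ⟨(b1 _ t7).2 w, by rw [b2]; exact t2.2 w⟩
  obtain ⟨l0, Ψ, Φ, u1, u2, u3, u4, u5⟩ := hLin r _ (X / n) R δ r1 R0 rfl z4 t8
  have t9 := log_prod t8
  rw [← ok.nrm] at l0 u3 t9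
  rw [← en, mul_div_cancel₀ _ (by linarith)] at t9
  rw [← ok.two] at l0 u3
  have hβ : (0 : ℝ) < o.nm (o.co β) := by exact_mod_cast Nat.pos_of_ne_zero (b1 _ t7).1
  obtain ⟨l1, l2⟩ := loc_sum hPar hSum hLoc ok h hY0 hS hm hW hWQ hQ hl hπ a1
    (fun z hz => ⟨a2 z hz, t3 z hz⟩) t1 t6 t5 t7 (fun v => (v1 v).2) hul.sep
    (hDH Q lam hWQ hQ hQ' hl) z0.le ((div_le_self hη0.le (by linarith)).trans (z2.trans
      (pow_le_of_le_one z0.le (by linarith) two_ne_zero))) z5 (show k' + 2 ≤ j by omega) u4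
    (fun ξ c => by simpa using u1.sup ξ c) u5
  rw [ea, vb_mul, ← ok.two] at l1 l2
  have l4 : o.nm (o.co β) * (δ ^ n / (o.hR Q * Real.log Y))
      ≤ 17 ^ (2 * r) * (R ^ n / (o.hR Q * Real.log Y)) := by
    rw [← mul_div_assoc, ← mul_div_assoc, ← ok.two, mul_comm _ (δ ^ n)]
    exact div_le_div_of_nonneg_right l0 (by positivity)
  simp only [div_mul_eq_mul_div, ← sum_div]
  refine ⟨((ar _ _ 0 a5).2.1 (l1.trans ?_)).trans (le_of_eq (by ring)), fun hLL => ?_⟩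
  · refine le_trans (le_of_eq (by ring)) ((mul_le_mul_of_nonneg_left l4
      (by positivity : 0 ≤ 2 * (vb r 2 * Cd))).trans (le_of_eq (by ring)))
  obtain ⟨BQ, q1, q2, q3⟩ := hDi Q π hWQ hQ hQ' hπ hLL
  choose! χ' q4 q5 using q2
  have hf0 : 0 < fm T j := lt_of_lt_of_le (by positivity) a5
  have hk : (j : ℝ) ≤ k := by exact_mod_cast a4
  have hC1 := h.pos
  have p1 : (0 : ℝ) ≤ k * J * 6 := by positivity
  have p2 : (0 : ℝ) ≤ (17 + 4 * r) * 6 + 4 * k ^ 2 * (n * C1) := by positivity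
  have p3 : (0 : ℝ) ≤ k * (2 * E0 * (n * C1)) * C' := by positivity
  have m1 := small (a := k * (2 * E0 * (n * C1)) * C') hY0 (by linarith only [n5, p1, p2])
    h0 h1 h3 h4 a5
  have m2 := small (a := k * J * 6) hY0 (by linarith only [n5, p3, p2]) h0 h1 h3 h4 a5
  have m3 := small (a := (17 + 4 * r) * 6 + 4 * k ^ 2 * (n * C1)) hY0
    (by linarith only [n5, p1, p3]) h0 h1 h3 h4 a5
  have m4 := small (a := 6) (f := 1) hY0 (by linarith only [n5, p1, p2, p3]) h0 h1 h3 h4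
    ((div_le_one (by linarith only [h4])).2 h4)
  have l3 := l2 _ _ fun g κ k1 k2 => (hAn _ _ _ _ _ _ U _ _ R1 _ (sb_cop h hS (filter_subset _ _) hm)
    hJU (fun x => (uu_spec h hY hU (hS (filter_subset _ _ x.2))).1) hη0 hη hul
    (cel hPt ok h hY hU hl hS) (hDH Q lam hWQ hQ hQ' hl)).2 BQ (fun χ => cc (χ' χ)) j g κ Φ d δ
    (fm T j) (2 * ε) hd hd1 (fun χ hχ x => by
      obtain ⟨x1, x2⟩ := mem_filter.1 x.2
      rw [q5 χ hχ, pi_cM hPt ok hπ hWQ (fun z hz => h.gd (hS x1) hz) x2, hcc _ (q4 χ hχ) _ x1])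
    q3 (by omega) a4 (fun χ hχ => by rw [q5 χ hχ, a7 _ (q4 χ hχ) β t2 _ k2]) z0
    (z1.trans ((div_le_iff₀ hY0).2 n2)) z2 u1 u2 hf0.le (by linarith) (fun v hv => by
      rw [← cv_eq]
      rw [k1] at hv
      have w1 := a8 v (by
        rw [abs_le] at hv t9 ⊢
        constructor <;> linarith only [hv.1, hv.2, t9.1, t9.2])
      obtain ⟨w2, w3⟩ := hMg _ S (cop S Q) (nzG S μ) (uG Y U) J k' j _ (2 * (E0 * (n * C1) / Y))
        (filter_subset _ _) (fun x hx => (nz_le hm (h.bh.pos x (hS hx))).1) (nz_sum hm).le (by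
          refine le_trans (sum_le_sum fun x hx =>
            (nz_le hm (h.bh.pos x (hS (sdiff_subset hx)))).2) ?_
          rw [← mul_sum]
          exact mul_le_mul_of_nonneg_left (h.rem Q E0 S hQ hQ' hS) zero_le_two) hJ hcv (by omega) v
      refine near w1 (mul_le_mul_of_nonneg_left w2 hU'.le) (mul_le_mul_of_nonneg_left w3 hU'.le)
        (le_trans ?_ m1)
      rw [show U * (j * (2 * (E0 * (n * C1) / Y)) * (C' / U)) = j * (2 * E0 * (n * C1)) * C' / Y by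
        field_simp]
      gcongr)
  rw [q1, ea, ← ok.two] at l3
  have tt := total (a := k * J * δ) (t := (17 + 4 * r) * δ + 2 * j ^ 2 * (2 * (n * C1 / Y))) hb hf0
    (h0.trans_le h1) (z1.trans (m4.trans (one_mul _).le)) h4 a5 a6 (le_trans (by
      rw [mul_div_assoc]; gcongr) m2) (le_trans (by
      rw [show ((17 + 4 * r) * 6 + 4 * k ^ 2 * (n * C1)) / Y
        = (17 + 4 * r) * (6 / Y) + 2 * k ^ 2 * (2 * (n * C1 / Y)) by ring]
      gcongr) m3) (mul_nonneg p0 hCd) hC'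
  refine le_trans (le_of_eq (by congr 1; ring)) (((ar _ _ _ a5).2.2
    (le_trans (le_of_eq ?_) (l3.trans ?_)) le_rfl).trans (le_of_eq (by ring)))
  · congr 2
    rw [← mul_div_assoc, ← mul_div_assoc, mul_assoc _ (cτ r), ← u3]
    ring
  · refine le_trans (le_of_eq ?_) ((mul_le_mul tt l4 (by positivity)
      (mul_nonneg (by positivity) (by positivity [h0.trans_le h1]))).trans (le_of_eq (by ring)))
    ring

end Pool.Agent.MP_f3836a_nt.GV.C.CG
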