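import Pool.Agent.MP_f3836a_nt.GV.SpecC2

/-! Many ideals of norm at most `3 X`. -/

set_option autoImplicit false

namespace Pool.Agent.MP_f3836a_nt.GV.C

open Finset NumberField VE

namespace GCHbl

theorem card_le {n r : ℕ} (o : Od n r) (Q : ℕ) (Z : ℝ) (U : Finset (Ideal (𝓞 o.L)))
    (h : ∀ I ∈ U, I ∈ o.MQ Q ∧ (Ideal.absNorm I : ℝ) ≤ Z) :
    (U.card : ℝ) ≤ ∑ m ∈ Icc 1 ⌊Z⌋₊, (o.rr Q m : ℝ) := by
  classical
  have h1 : U.card = ∑ m ∈ Icc 1 ⌊Z⌋₊, (U.filter fun I => Ideal.absNorm I = m).card :=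
    card_eq_sum_card_fiberwise fun I hI => mem_coe.2 (mem_Icc.2
      ⟨Nat.one_le_iff_ne_zero.2 (h I hI).1.1, Nat.le_floor (h I hI).2⟩)
  rw [h1]; push_cast
  refine sum_le_sum fun m _ => Nat.cast_le.2 ?_
  rcases (U.filter fun I => Ideal.absNorm I = m).eq_empty_or_nonempty with e | ⟨I, hI⟩
  · simp [e]
  · rw [mem_filter] at hI
    rw [Od.rr, if_pos (hI.2 ▸ (h I hI.1).1.2), ← Set.ncard_coe_finset]
    exact (Set.ncard_le_ncard (fun J hJ => (mem_filter.1 hJ).2)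
      (Ideal.finite_setOfPred_absNorm_eq (S := 𝓞 o.L) m)).trans
      (Nat.card_coe_set_eq _).ge

theorem root_le {n : ℕ} (hn : n ≠ 0) {a X : ℝ} (hX : 0 < X) (h : a ^ n ≤ X) :
    a ≤ Real.exp (Real.log X / n) := by
  refine le_of_pow_le_pow_left₀ hn (Real.exp_pos _).le (h.trans (le_of_eq ?_))
  have : (n : ℝ) ≠ 0 := Nat.cast_ne_zero.2 hn
  rw [← Real.exp_nat_mul, mul_div_cancel₀ _ this, Real.exp_log hX]

end GCHbl

theorem rHbl : OfHbl := by
  intro hGrid hFin hUn hLam hHbb n r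
  classical
  obtain ⟨η, hη⟩ : ∃ η : ℝ, η = 1 / (2 * r) := ⟨_, rfl⟩
  have η0 : 0 ≤ η := by rw [hη]; positivity
  have v0 : 0 ≤ vb r (2 * r ^ 2 * (2 : ℕ) * η + η) := by unfold vb; positivity
  obtain ⟨v, hv⟩ : ∃ v, v = vb r (2 * r ^ 2 * (2 : ℕ) * η + η) := ⟨_, rfl⟩
  rw [← hv] at v0
  refine ⟨300 * n ^ 2 / η + v / η / (η / 3 / 16) ^ n, by positivity, ?_⟩
  intro _ o Q B X ok sz hQ hD hX hC
  have hn : n ≠ 0 := NeZero.ne n
  have hr : 1 ≤ r := by have := ok.two; omega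
  have hr' : (1 : ℝ) ≤ r := by exact_mod_cast hr
  have η1 : 0 < η := by rw [hη]; positivity
  have η2 : 2 * r * η = 1 := by rw [hη]; field_simp
  have η3 : η ≤ 1 / 2 := by nlinarith
  obtain ⟨R, hR⟩ := hUn n r o Q ok hQ
  obtain ⟨lam, hl⟩ := hLam n r o Q ok (by omega)
  obtain ⟨T, _, _, pt, F, hG, -⟩ := hGrid r 2 _ R η hr Nat.prime_two η1 (by linarith) hR
  have := hFin n r o Q ok (by omega)
  have hζ : ∀ t, Lg (Real.log X • e0 r + pt t) = Real.log X := fun t => by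
    rw [Lg_add, Lg_smul, Lg_e0 hr, hG.ker, mul_one, add_zero]
  have hb : Q * (100 * n ^ 2 * B ^ 2) ≤ η / 3 * Real.exp (Real.log X / n) := by
    have h1 := GCHbl.root_le hn hX hC
    have h2 : 0 ≤ v / η / (η / 3 / 16) ^ n * Q * B ^ 2 := by positivity
    have h3 : 300 * n ^ 2 / η * Q * B ^ 2 ≤ Real.exp (Real.log X / n) := by linarith
    refine le_trans (le_of_eq ?_) (mul_le_mul_of_nonneg_left h3 (by positivity))
    field_simp; ring
  choose S hS1 hS2 using fun p : o.RC Q × T => hHbb n r o Q lam p.1 (Real.log X • e0 r + pt p.2)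
    B (η / 3) ok sz hQ hD hl (by positivity) (by linarith) (by rw [hζ]; exact hb)
  simp only [hζ, Real.exp_log hX] at hS1
  have := Fintype.ofFinite (o.RC Q × T)
  have hd : ((univ : Finset (o.RC Q × T)) : Set (o.RC Q × T)).PairwiseDisjoint S := by
    intro p _ p' _ hp
    refine disjoint_left.2 fun I h1 h2 => hp ?_
    obtain ⟨-, e1, y, hy, h3⟩ := hS2 p I h1
    obtain ⟨-, e2, y', hy', h4⟩ := hS2 p' I h2
    refine Prod.ext (e1.symm.trans e2) (hG.sep _ _ _ (sub_mem hy' hy) ?_)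
    have e : pt p.2 - pt p'.2 - (y' - y) = (lam I - (Real.log X • e0 r + pt p'.2) - y') -
        (lam I - (Real.log X • e0 r + pt p.2) - y) := by abel
    rw [e]
    linarith [norm_sub_le (lam I - (Real.log X • e0 r + pt p'.2) - y')
      (lam I - (Real.log X • e0 r + pt p.2) - y)]
  have h1 := GCHbl.card_le o Q (3 * X) (univ.biUnion S) fun I hI => by
    obtain ⟨p, -, hp⟩ := mem_biUnion.1 hI
    obtain ⟨hm, -, y, hy, h3⟩ := hS2 p I hp
    refine ⟨hm, ?_⟩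
    have h4 := (le_abs_self _).trans (abs_Lg (lam I - (Real.log X • e0 r + pt p.2) - y))
    rw [Lg_sub, Lg_sub, hζ, hR.ker y hy, hl.nrm I hm] at h4
    have h5 : Real.log (Ideal.absNorm I) ≤ 1 + Real.log X := by
      nlinarith [mul_le_mul_of_nonneg_left h3 (show 0 ≤ 2 * (r : ℝ) by positivity)]
    have h6 : (0 : ℝ) < Ideal.absNorm I := Nat.cast_pos.2 (Nat.pos_of_ne_zero hm.1)
    rw [Real.log_le_iff_le_exp h6, Real.exp_add, Real.exp_log hX] at h5
    nlinarith [Real.exp_one_lt_d9]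
  rw [card_biUnion hd] at h1
  push_cast at h1
  have V0 : 0 ≤ (Q : ℝ) ^ n * o.V0 := mul_nonneg (by positivity) ENNReal.toReal_nonneg
  have h2 : Nat.card (o.RC Q) * Nat.card T * ((η / 3 / 16) ^ n * X) ≤
      Q ^ n * o.V0 * ∑ m ∈ Icc 1 ⌊3 * X⌋₊, (o.rr Q m : ℝ) := by
    refine le_trans ?_ (mul_le_mul_of_nonneg_left h1 V0)
    rw [mul_sum]
    refine le_trans (le_of_eq ?_) (sum_le_sum fun p _ => hS1 p)
    rw [sum_const, card_univ, nsmul_eq_mul, ← Nat.card_eq_fintype_card, Nat.card_prod,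
      Nat.cast_mul]
  have h3 : Rg (o.LQ Q) ≤ Nat.card T * (v / η) := by
    rw [← mul_div_assoc, le_div_iff₀ η1, mul_comm, hv]; exact hG.low
  have h4 : 0 ≤ Q ^ n * o.V0 * ∑ m ∈ Icc 1 ⌊3 * X⌋₊, (o.rr Q m : ℝ) := by positivity
  have h5 : 0 < (η / 3 / 16) ^ n := by positivity
  rw [mul_assoc _ (Q ^ n * o.V0), add_mul]
  refine le_trans ?_ (le_add_of_nonneg_left (by positivity))
  refine le_trans ?_ (mul_le_mul_of_nonneg_left h2 (by positivity))
  refine (mul_le_mul_of_nonneg_right (mul_le_mul_of_nonneg_left h3 (Nat.cast_nonneg _))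
    hX.le).trans (le_of_eq ?_)
  field_simp

end Pool.Agent.MP_f3836a_nt.GV.C
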