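import Pool.Agent.MP_f3836a_nt.GV.SpecC1

/-! The local sum without repetitions. -/

set_option autoImplicit false

namespace Pool.Agent.MP_f3836a_nt.GV.C

open Finset MeasureTheory Metric VE
open VE.BC (tm)

namespace GCLoc

theorem tm_lin {ι : Type} [Fintype ι] (μ : ι → ℝ) (j : ℕ) (a b : ℝ) (F G : (Fin j → ι) → ℝ) :
    tm μ j (fun s => a * F s + b * G s) = a * tm μ j F + b * tm μ j G := by
  simp only [tm, mul_sum, ← sum_add_distrib]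
  exact sum_congr rfl fun s _ => by ring

theorem tm_mul {ι : Type} [Fintype ι] (μ : ι → ℝ) (j : ℕ) (a : ℝ) (F : (Fin j → ι) → ℝ) :
    tm μ j (fun s => a * F s) = a * tm μ j F := by
  simp only [tm, mul_sum]
  exact sum_congr rfl fun s _ => by ring

theorem ind_nn (p : Prop) : 0 ≤ ind p := by
  unfold ind
  split_ifs <;> norm_num

theorem pt {r : ℕ} {Λ : AddSubgroup (E r)} {δ a : ℝ} {Ψ Φ : E r → ℝ}
    (hΛ : ∀ y ∈ Λ, y ≠ 0 → 1 ≤ ‖y‖) (hδ : δ ≤ 1 / 3)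
    (hΨ : ∀ ξ, 0 ≤ Ψ ξ ∧ Ψ ξ ≤ 2 ∧ (Ψ ξ ≠ 0 → ‖ξ‖ ≤ δ) ∧ |Ψ ξ - Φ ξ| ≤ a)
    (hΦ : ∀ ξ, Φ ξ ≠ 0 → ‖ξ‖ ≤ δ) (z ζ : E r) (p n bd : Prop) (hn : ¬n → bd) :
    ind n * (ind p * per Λ Ψ (z - ζ)) ≤ 2 * ind (p ∧ ∃ y ∈ Λ, z - y ∈ closedBall ζ δ) ∧
    |ind n * (ind p * per Λ Ψ (z - ζ)) - ind p * per Λ Φ (z - ζ)| ≤
      a * ind (p ∧ ∃ y ∈ Λ, z - y ∈ closedBall ζ δ) +
        2 * ind (bd ∧ p ∧ ∃ y ∈ Λ, z - y ∈ closedBall ζ δ) := by
  have a0 : 0 ≤ a := (abs_nonneg _).trans (hΨ 0).2.2.2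
  have h1 := ind_nn (p ∧ ∃ y ∈ Λ, z - y ∈ closedBall ζ δ)
  have h2 := ind_nn (bd ∧ p ∧ ∃ y ∈ Λ, z - y ∈ closedBall ζ δ)
  have m : ∀ y, z - y ∈ closedBall ζ δ ↔ ‖z - ζ - y‖ ≤ δ := fun y => by
    rw [mem_closedBall, dist_eq_norm, sub_right_comm]
  by_cases h : p ∧ ∃ y ∈ Λ, z - y ∈ closedBall ζ δ
  · have a1 : ind (p ∧ ∃ y ∈ Λ, z - y ∈ closedBall ζ δ) = 1 := if_pos h
    have a2 : ind p = 1 := if_pos h.1
    obtain ⟨y, hy, c⟩ := h.2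
    have c' : ‖z - ζ - y‖ < 2 / 3 := by linarith [(m y).1 c]
    rw [a1, a2, one_mul, one_mul, per_eq hΛ (fun x e => ((hΨ x).2.2.1 e).trans hδ) hy c',
      per_eq hΛ (fun x e => (hΦ x e).trans hδ) hy c']
    obtain ⟨b0, b1, -, b2⟩ := hΨ (z - ζ - y)
    by_cases hN : n
    · rw [show ind n = 1 from if_pos hN, one_mul]
      exact ⟨by linarith, by linarith⟩
    · rw [show ind n = 0 from if_neg hN, zero_mul, show ind (bd ∧ p ∧ ∃ y ∈ Λ, z - y ∈ closedBall ζ δ)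
        = 1 from if_pos ⟨hn hN, h⟩]
      have := abs_le.1 b2
      exact ⟨by norm_num, abs_le.2 ⟨by linarith, by linarith⟩⟩
  · have e : ∀ Θ : E r → ℝ, (∀ ξ, Θ ξ ≠ 0 → ‖ξ‖ ≤ δ) → ind p * per Λ Θ (z - ζ) = 0 := fun Θ k => by
      by_cases hp : p
      · refine mul_eq_zero_of_right _ (by_contra fun c => ?_)
        obtain ⟨y, hy, c⟩ := per_ne c
        exact h ⟨hp, y, hy, (m y).2 (k _ c)⟩
      · rw [show ind p = 0 from if_neg hp, zero_mul]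
    rw [e Ψ fun ξ => (hΨ ξ).2.2.1, e Φ hΦ, mul_zero, sub_zero, abs_zero]
    exact ⟨by positivity, by positivity⟩

end GCLoc

open GCLoc in
theorem rLoc : OfLoc := by
  intro hT hU r ι G _ _ μ x lam Λ k j δ0 D δ a t g ζ Ψ Φ Bd N hS hD hΛ d0 d1 d2 hj ht hΨ hΦ hB hN
    S e
  obtain ⟨u1, u2⟩ := hU r ι G μ x lam Λ k j δ0 D hS hD
  have nb : Nb (closedBall ζ δ) (closedBall ζ (2 * δ)) δ0 :=
    ⟨measurableSet_closedBall, measure_closedBall_lt_top.ne, fun b hb =>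
      closedBall_subset_closedBall' (by linarith [mem_closedBall.1 hb])⟩
  replace u1 := (u1 (by omega)).2 g _ _ nb
  replace u2 := (u2 g _ _ t nb ht).2 Bd hj hB
  rw [vol_ball ζ (by linarith)] at u1 u2
  have a0 : 0 ≤ a := (abs_nonneg _).trans (hΨ 0).2.2.2
  have mono := (hT ι μ).2.2.2.2.1 hS.1 j
  have hp := fun s => pt hΛ d2 hΨ hΦ (∑ i, lam (s i)) ζ (∑ i, x (s i) = g) (N s) _ (hN s)
  have e' : S - Sl μ x lam Λ j g Φ ζ = tm μ j fun s =>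
      ind (N s) * (ind (∑ i, x (s i) = g) * per Λ Ψ (∑ i, lam (s i) - ζ)) -
        ind (∑ i, x (s i) = g) * per Λ Φ (∑ i, lam (s i) - ζ) := by
    rw [e, Sl, tm, tm, tm, ← sum_sub_distrib]
    exact sum_congr rfl fun s _ => by ring
  have v1 := mul_le_mul_of_nonneg_left u1 zero_le_two
  have v2 := add_le_add (mul_le_mul_of_nonneg_left u1 a0) (mul_le_mul_of_nonneg_left u2 zero_le_two)
  rw [← tm_mul] at v1
  rw [← tm_lin] at v2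
  replace v2 := v2.trans_eq (show _ = (a + 2 * j ^ 2 * t) * (D * vb r (2 * δ)) by ring)
  refine ⟨e ▸ (mono _ _ fun s => (hp s).1).trans v1, abs_le.2 ⟨?_, ?_⟩⟩
  · have := mul_le_mul_of_nonpos_left v2 (by norm_num : (-1 : ℝ) ≤ 0)
    rw [← tm_mul, neg_one_mul] at this
    rw [e']
    exact this.trans (mono _ _ fun s => by
      have := (abs_le.1 (hp s).2).1
      unfold Ev
      linarith)
  · rw [e']
    exact (mono _ _ fun s => (abs_le.1 (hp s).2).2).trans v2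

end Pool.Agent.MP_f3836a_nt.GV.C
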