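import Pool.Agent.MP_f3836a_nt.GV.SpecC2

/-! The projection of ray class groups to a lower level. -/

set_option autoImplicit false

namespace Pool.Agent.MP_f3836a_nt.GV.C

open Finset NumberField VE

namespace GCPi

variable {n r : ℕ} (o : Od n r)

theorem wd {W Q : ℕ} (h : W ∣ Q) {I J : Ideal (𝓞 o.L)} (hI : I ∈ o.MQ Q) (hJ : J ∈ o.MQ Q)
    (e : o.cI Q I = o.cI Q J) : o.cI W I = o.cI W J := by
  obtain ⟨a, b, h1, h2, h3, h4, h5⟩ := (o.cI_eq hI hJ).1 e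
  exact (o.cI_eq (o.MQ_anti h hI) (o.MQ_anti h hJ)).2 ⟨a, b, o.MQ_anti h h1, o.MQ_anti h h2,
    (Nat.cast_dvd_cast h).trans h3, (Nat.cast_dvd_cast h).trans h4, h5⟩

theorem exists_pi {W Q : ℕ} (h : W ∣ Q) :
    ∃ π : o.RC Q →+ o.RC W, ∀ I ∈ o.MQ Q, π (o.cI Q I) = o.cI W I := by
  choose ρ hr hr' using fun g : o.RC Q => o.cI_surj g
  refine ⟨AddMonoidHom.mk' (fun g => o.cI W (ρ g)) fun g g' => ?_, fun I hI => ?_⟩
  · rw [← o.cI_mul (o.MQ_anti h (hr g)) (o.MQ_anti h (hr g'))]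
    exact wd o h (hr _) (mul_mem (hr g) (hr g')) (by rw [o.cI_mul (hr g) (hr g'), hr', hr', hr'])
  · exact wd o h (hr _) hI (hr' _)

/-- an element of `I` which is `1` modulo `k` and whose cofactor is prime to `k Q` -/
theorem elt {S : Type} [CommRing S] [IsDedekindDomain S] [Module.Free ℤ S] [Module.Finite ℤ S]
    [CharZero S] {k Q : ℕ} {I : Ideal S} (hQ : Q ≠ 0) (h0 : Ideal.absNorm I ≠ 0)
    (hn : (Ideal.absNorm I).Coprime k) :
    ∃ (x : S) (J : Ideal S), Ideal.span {1 + k * x} = I * J ∧ (Ideal.absNorm J).Coprime (k * Q) := by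
  classical
  obtain ⟨Q', h1, h2, h3⟩ : ∃ Q' : ℕ, Q' ≠ 0 ∧ Q'.Coprime k ∧
      ∀ p : ℕ, p.Prime → p ∣ Q → ¬p ∣ k → p ∣ Q' :=
    ⟨∏ p ∈ Q.primeFactors.filter fun p => ¬p ∣ k, p,
      prod_ne_zero_iff.2 fun p hp => (Nat.prime_of_mem_primeFactors (mem_filter.1 hp).1).ne_zero,
      Nat.Coprime.prod_left fun p hp => (Nat.Prime.coprime_iff_not_dvd
        (Nat.prime_of_mem_primeFactors (mem_filter.1 hp).1)).2 (mem_filter.1 hp).2,
      fun p hp hd hk => dvd_prod_of_mem _ (mem_filter.2 ⟨Nat.mem_primeFactors.2 ⟨hp, hd, hQ⟩, hk⟩)⟩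
  have hI : I ≠ 0 := fun e => h0 (Ideal.absNorm_eq_zero_iff.2 e)
  obtain ⟨a, ha⟩ := IsDedekindDomain.exists_sup_span_eq (I := I * Ideal.span {(Q' : S)}) (J := I)
    Ideal.mul_le_left (mul_ne_zero hI (by simpa using h1))
  have haI : a ∈ I := (Ideal.span_singleton_le_iff_mem I).1 (le_sup_right.trans ha.le)
  obtain ⟨s, t, hst⟩ := Nat.isCoprime_iff_coprime.2 (Nat.Coprime.mul_left hn h2)
  have hst' : (s : S) * (Ideal.absNorm I * Q') + t * k = 1 := by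
    exact_mod_cast congrArg (Int.cast : ℤ → S) hst
  have hm := Ideal.absNorm_mem I
  have e1 : 1 + k * (t * (a - 1)) = s * Q' * (Ideal.absNorm I : S) + t * k * a := by
    linear_combination -hst'
  have e2 : a = s * (a - 1) * (Ideal.absNorm I * Q') + (1 + k * (t * (a - 1))) := by
    linear_combination (1 - a) * hst'
  generalize hβ : 1 + k * (t * (a - 1)) = β at e1 e2
  have hb : β ∈ I := e1 ▸ add_mem (I.mul_mem_left _ hm) (I.mul_mem_left _ haI)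
  obtain ⟨J, hJ⟩ := Ideal.dvd_iff_le.2 ((Ideal.span_singleton_le_iff_mem I).2 hb)
  have hβJ : β ∈ I * J := hJ ▸ Ideal.mem_span_singleton_self β
  have h4 : Ideal.span {(Q' : S)} ⊔ J = 1 := by
    refine mul_left_cancel₀ hI (le_antisymm (Ideal.mul_le_left.trans (mul_one I).ge) ?_)
    rw [mul_one, Ideal.mul_sup]
    refine ha.ge.trans (sup_le le_sup_left ((Ideal.span_singleton_le_iff_mem _).2 ?_))
    rw [e2]
    exact add_mem (Ideal.mem_sup_left (Ideal.mul_mem_left _ _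
      (Ideal.mul_mem_mul hm (Ideal.mem_span_singleton_self _)))) (Ideal.mem_sup_right hβJ)
  refine ⟨t * (a - 1), J, hβ ▸ hJ, Nat.coprime_of_dvd fun p hp hd hd' => ?_⟩
  obtain ⟨P, hP, h5, h6⟩ := Ideal.exists_isMaximal_dvd_of_dvd_absNorm' hp J hd
  have h7 : (p : S) ∈ P := by
    have : (p : ℤ) ∈ P.under ℤ := h5 ▸ Ideal.mem_span_singleton_self _
    simpa [Ideal.mem_under] using this
  have h8 : ∀ m : ℕ, p ∣ m → (m : S) ∈ P := by
    rintro _ ⟨c, rfl⟩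
    rw [Nat.cast_mul]; exact P.mul_mem_right _ h7
  have h9 := Ideal.dvd_iff_le.1 h6
  refine hP.ne_top ((Ideal.eq_top_iff_one P).2 ?_)
  by_cases hk : p ∣ k
  · have := sub_mem (h9 (Ideal.mul_le_right hβJ)) (P.mul_mem_right (t * (a - 1)) (h8 k hk))
    rwa [← hβ, add_sub_cancel_right] at this
  · have := sup_le ((Ideal.span_singleton_le_iff_mem P).2
      (h8 Q' (h3 p hp (((Nat.Prime.dvd_mul hp).1 hd').resolve_left hk) hk))) h9
    rw [h4] at this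
    exact this (by simp)

end GCPi

open GCPi in
theorem rPi : OfPi := by
  intro hA hB n r _ o W Q ho hWQ hQ
  obtain ⟨π, hπ⟩ := exists_pi o hWQ
  obtain ⟨-, q2, q3, -⟩ := hB n r o Q ho hQ
  obtain ⟨-, w2, w3, -, w5, -⟩ := hB n r o W ho (Nat.pos_of_dvd_of_pos hWQ hQ)
  obtain ⟨-, -, -, -, -, -, -, -, a9, -⟩ := hA n r o ho
  obtain ⟨c1, i1⟩ := w2 1 (o.pm_one W)
  rw [o.pr_one, o.cI_one] at i1
  have key : ∀ c, o.Pm W c → (W : o.A) ∣ c - 1 → o.cI W (o.pr c) = 0 := fun c hc hd =>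
    (w2 c hc).2.symm.trans ((w3 1 c c1 hd).2.trans i1)
  refine ⟨π, fun g => ?_, hπ, fun g => ⟨fun hg => ?_, ?_⟩⟩
  · obtain ⟨I, hI, rfl⟩ := o.cI_surj g
    obtain ⟨x, J, e, hJ⟩ := elt (Q := 2 * Q) (by omega) hI.1 hI.2
    obtain ⟨a, ha⟩ := ho.cond x
    have hJQ : J ∈ o.MQ Q := ⟨fun h0 => by
        rw [h0, Nat.coprime_zero_left, mul_eq_one, mul_eq_one (a := 2)] at hJ
        omega,
      hJ.coprime_dvd_right (mul_dvd_mul (dvd_mul_right _ _) (dvd_mul_left _ _))⟩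
    have e' : o.pr (1 + W * a) = I * J := by
      rw [← e, Od.pr, map_add, map_one, map_mul, map_natCast, ha, Nat.cast_mul, mul_left_comm,
        mul_assoc]
    refine ⟨-o.cI Q J, ?_⟩
    rw [map_neg, hπ J hJQ, neg_eq_iff_add_eq_zero, add_comm, ← o.cI_mul hI (o.MQ_anti hWQ hJQ),
      ← e']
    exact key _ (by rw [Od.Pm, e']; exact mul_mem hI (o.MQ_anti hWQ hJQ)) ⟨a, by ring⟩
  · obtain ⟨I, hI, rfl⟩ := o.cI_surj g
    rw [hπ I hI, ← i1] at hg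
    obtain ⟨β, hβ, rfl⟩ := (w5 I (o.MQ_anti hWQ hI) 1 c1).1 hg
    exact ⟨β, hβ, (q2 β hI).1, (q2 β hI).2.symm⟩
  · rintro ⟨c, h1, h2, rfl⟩
    obtain ⟨c', h3, h4⟩ := a9 Q c hQ h2
    rw [← (q3 c c' h2 h3).2, (q2 c' h4).2, hπ _ h4]
    refine key c' (o.MQ_anti hWQ h4) ?_
    simpa using ((Nat.cast_dvd_cast hWQ).trans h3).add h1

end Pool.Agent.MP_f3836a_nt.GV.C
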