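import Pool.Agent.MP_f3836a_nt.GV.SpecC2

/-! Row GCSum: bookkeeping for the average of the weighted number of decompositions. -/

set_option autoImplicit false

namespace Pool.Agent.MP_f3836a_nt.GV.C

open Finset NumberField VE
open VE.BC (tm cop)

namespace GCSum

theorem restrict {α : Type} {S S' : Finset α} (h : S' ⊆ S) {j : ℕ} (F : (Fin j → α) → ℝ)
    (h0 : ∀ s : Fin j → α, ∀ i, s i ∈ S → s i ∉ S' → F s = 0) :
    ∑ s : Fin j → S, F (fun i => s i) = ∑ s : Fin j → S', F fun i => s i := by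
  classical
  refine (Fintype.sum_of_injective (fun (s : Fin j → S') i => (⟨s i, h (s i).2⟩ : S))
    (fun s s' e => funext fun i => Subtype.ext (Subtype.mk.inj (congrFun e i))) _ _
    (fun s hs => ?_) fun _ => rfl).symm
  by_contra hF
  have h1 : ∀ i, (s i).1 ∈ S' := fun i => by
    by_contra hi
    exact hF (h0 _ i (s i).2 hi)
  exact hs ⟨fun i => ⟨s i, h1 i⟩, rfl⟩

theorem nT_add (T M : Multiset Pt) : nT (T + M) = nT T * nT M := by
  rw [nT, Multiset.map_add, Multiset.prod_add]; rfl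

theorem nT_sum {ι : Type} (t : Finset ι) (M : ι → Multiset Pt) :
    nT (∑ i ∈ t, M i) = ∏ i ∈ t, nT (M i) := by
  classical
  induction t using Finset.induction_on with
  | empty => simp [nT]
  | insert a t ha ih => rw [sum_insert ha, prod_insert ha, ← ih, nT_add]

theorem nT_ne {M : Multiset Pt} (h : ∀ z ∈ M, z.p.Prime) : nT M ≠ 0 := by
  refine Multiset.prod_ne_zero fun c => ?_
  obtain ⟨z, hz, e⟩ := Multiset.mem_map.1 c
  exact (h z hz).ne_zero e

end GCSum

open GCSum in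
theorem rSum : OfSum := by
  intro hB hLs n r _ o Q j ss lam S μ T β K g κ Vs R Ψ ok hL hS hβ hT H hΨ hx hV
  obtain ⟨-, -, hne, h00, -⟩ := hB n r o ok
  have e0 : ∀ v : Fin n → ℤ, o.em (o.co (β + (Q : ℤ) • v)) - o.em (o.co β)
      = o.em (Q * o.co v) := fun v => by
    rw [map_add, map_add, add_sub_cancel_left, map_zsmul, natCast_zsmul, nsmul_eq_mul]
  have e2 : ∀ v : Fin n → ℤ, o.co (β + (Q : ℤ) • v) ≠ 0 →
      tn (R⁻¹ • o.em (Q * o.co v)) * o.nm (o.co (β + (Q : ℤ) • v))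
        = Ψ (lq (o.em (o.co (β + (Q : ℤ) • v))) (o.em (o.co β))) * o.nm (o.co β) := fun v hv => by
    rw [ok.nrm, ok.nrm, ← e0]
    exact hx _ (hne _ hv).2
  have hG : ∀ s : Fin j → Multiset Pt, (∀ i, s i ∈ S) → ∀ z ∈ ∑ i, s i, o.Gd ss z :=
    fun s hs z hz => by
      obtain ⟨i, -, hi⟩ := Multiset.mem_sum.1 hz
      exact hS _ (hs i) z hi
  let F : (Fin j → Multiset Pt) → ℝ := fun s => (o.nm (o.co β) * ∏ i, μ (s i)) *
    (ind (Nd (∑ i, s i) ∧ (nT (∑ i, s i)).Coprime Q) * ∑ u ∈ K, ind (o.cM Q ss (∑ i, s i) = g u) *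
      per (o.LQ Q) Ψ (lam (o.IM ss (∑ i, s i)) - κ u))
  have e1 : nT T * ∑ v ∈ Vs, tn (R⁻¹ • o.em (Q * o.co v)) *
      RwG o.M ss S (fun x => μ x * nT x) T j (β + (Q : ℤ) • v) =
      ∑ s : Fin j → S, F fun i => s i := by
    simp only [RwG, mul_sum]
    rw [sum_comm]
    refine sum_congr rfl fun s _ => ?_
    have h0 := hG _ fun i => (s i).2
    have h1 := H (∑ i, (s i).1) Vs Ψ h0 hΨ fun v hv hv' => hV v fun c => by
      have := e2 v hv
      rw [c, zero_mul] at this
      exact mul_ne_zero hv' (Nat.cast_ne_zero.2 (hne _ hβ).1) this.symm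
    simp only [F]
    rw [← h1, mul_sum]
    refine sum_congr rfl fun v _ => ?_
    by_cases hE : EvG o.M ss (β + (Q : ℤ) • v) (T + ∑ i, (s i).1)
    · have h2 : nT T * nT (∑ i, (s i).1) = o.nm (o.co (β + (Q : ℤ) • v)) := by
        have := hE.2.2
        rw [← ok.nmM, nT_add] at this
        exact_mod_cast this
      have h3 : o.co (β + (Q : ℤ) • v) ≠ 0 := fun c => by
        rw [c, h00] at h2
        exact mul_ne_zero hT (nT_ne fun z hz => (h0 z hz).1) h2
      have h4 := e2 v h3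
      rw [← h2, nT_sum, Nat.cast_mul, Nat.cast_prod] at h4
      rw [prod_mul_distrib]
      linear_combination (∏ i, μ (s i)) * ind (EvG o.M ss (β + (Q : ℤ) • v) (T + ∑ i, (s i).1)) * h4
    · rw [ind, if_neg hE]
      ring
  rw [e1, restrict (filter_subset (fun x => (nT x).Coprime Q) S) F fun s i h1 h2 => ?_]
  · simp only [tm, mul_sum]
    rw [sum_comm]
    refine sum_congr rfl fun s _ => ?_
    have h1 := fun i => mem_filter.1 (s i).2
    obtain ⟨-, -, t1, -, t2, t3⟩ := hLs n r o ss Q j lam (fun i => (s i).1) ok hL fun i =>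
      ⟨hS _ (h1 i).1, (h1 i).2⟩
    have t5 : (nT (∑ i, (s i).1)).Coprime Q := by
      rw [t1]
      exact Nat.Coprime.prod_left fun i _ => (h1 i).2
    simp only [F]
    rw [and_iff_left t5, t2, mul_sum, mul_sum]
    refine sum_congr rfl fun u _ => ?_
    rw [per_congr Ψ (x' := ∑ i, lam (o.IM ss (s i)) - κ u) (by rwa [sub_sub_sub_cancel_right])]
    ring
  · have h3 : ¬(Nd (∑ i, s i) ∧ (nT (∑ i, s i)).Coprime Q) := fun h => h2 (mem_filter.2 ⟨h1,
      h.2.coprime_dvd_left (by rw [nT_sum]; exact dvd_prod_of_mem _ (mem_univ i))⟩)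
    simp only [F]
    rw [ind, if_neg h3, zero_mul, mul_zero]

end Pool.Agent.MP_f3836a_nt.GV.C
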