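import Pool.Agent.MP_f3836a_nt.GV.SpecC1

/-! The off diagonal bound for the sieve weight. -/

set_option autoImplicit false

namespace Pool.Agent.MP_f3836a_nt.GV.C

open Finset Pool.Agent.MP_c481b3_nt.H63

namespace GCSwo

variable {n : ℕ} {P : Finset ℕ} {Z : ℕ → (Fin n → ℤ) → Prop} {ν : ℕ → ℝ} {B Y : ℝ}

theorem pd_of {α : Type} {l M : ℕ} {f : (Fin n → ℤ) → α} (h : Pd l f) (e : l ∣ M) : Pd M f := by
  obtain ⟨c, rfl⟩ := e
  intro x y
  rw [Nat.cast_mul, mul_smul, h]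

theorem ph_le (h : Sv P Z ν B Y) {D : Finset ℕ} (hD : D ⊆ P) (x : Fin n → ℤ) :
    |∏ l ∈ D, ph Z ν l x| ≤ 1 := by
  rw [abs_prod]
  refine prod_le_one (fun _ _ => abs_nonneg _) fun l hl => ?_
  obtain ⟨-, -, h1, h2, -⟩ := h.pr l (hD hl)
  rw [ph]
  split_ifs
  · simp
  · rw [abs_of_nonneg (div_nonneg h1 (by linarith)), div_le_one (by linarith)]
    linarith

theorem ph_cg {D : Finset ℕ} {x y : Fin n → ℤ} (h : ∀ l ∈ D, (Z l x ↔ Z l y)) :
    ∏ l ∈ D, ph Z ν l x = ∏ l ∈ D, ph Z ν l y :=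
  prod_congr rfl fun l hl => by rw [ph, ph, propext (h l hl)]

end GCSwo

open GCSwo in
theorem rSwo : OfSwo := by
  intro hR hT hC hQ n r q P Z ν B Y ψ g V ρ R c S hY hS
    ⟨hq, hper, hle, t, C, C', m, w, m1, m2, hm, hw, hc⟩ hL R0 hρ hs
  have hp : ∀ l ∈ P, l.Prime := fun l hl => (hS.pr l hl).1
  have ρ0 := (hR r _ g V ρ hL).2.1
  have hz1 : 1 ≤ ⌊√Y⌋₊ := Nat.le_floor (by rw [Nat.cast_one, Real.one_le_sqrt]; linarith)
  have hz2 : (⌊√Y⌋₊ : ℝ) * ⌊√Y⌋₊ ≤ Y :=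
    (mul_self_le_mul_self (by positivity) (Nat.floor_le (Real.sqrt_nonneg Y))).trans
      (Real.mul_self_sqrt (by linarith)).le
  unfold Lw
  generalize ⌊√Y⌋₊ = z at hz1 hz2
  have hG := one_le_Gs (g := fun l => ν l / (1 - ν l)) (P := P)
    (fun l hl => div_nonneg (hS.pr l hl).2.2.1 (by linarith [(hS.pr l hl).2.2.2.1])) hz1
  have hco : ∀ D ⊆ P, m.Coprime (∏ l ∈ D, l) := fun D hD => Nat.Coprime.prod_right fun l hl =>
    (((hp l (hD hl)).coprime_iff_not_dvd).2 (m2 l (hD hl))).symm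
  have v0 : 0 ≤ vb r (3 * R) := by unfold vb; positivity
  have key : ∀ D ∈ Ds P z, ∀ D' ∈ Ds P z, ‖V * ∑ x ∈ S, (tn (R⁻¹ • (g x - c)) : ℂ) *
      ((((∏ l ∈ D, ph Z ν l x) * ∏ l ∈ D', ph Z ν l x : ℝ) : ℂ) * ψ x)‖
      ≤ q * Y * (ρ / R) * vb r (3 * R) := by
    intro D hD D' hE
    obtain ⟨d1, d2⟩ := mem_Ds.1 hD
    obtain ⟨e1, e2⟩ := mem_Ds.1 hE
    have hM : 0 < q * ((∏ l ∈ D, l) * ∏ l ∈ D', l) := Nat.mul_pos hq (Nat.mul_pos
      (prod_pos fun l hl => (hp l (d1 hl)).pos) (prod_pos fun l hl => (hp l (e1 hl)).pos))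
    let F : (Fin n → ℤ) → ℂ := fun x =>
      (((∏ l ∈ D, ph Z ν l x) * ∏ l ∈ D', ph Z ν l x : ℝ) : ℂ) * ψ x
    have hF : Pd (q * ((∏ l ∈ D, l) * ∏ l ∈ D', l)) F := fun x y => by
      simp only [F]
      rw [ph_cg fun l hl => (pd_of (hS.per l (d1 hl))
          (((dvd_prod_of_mem _ hl).mul_right _).mul_left q) x y).to_iff,
        ph_cg fun l hl => (pd_of (hS.per l (e1 hl))
          (((dvd_prod_of_mem _ hl).mul_left _).mul_left q) x y).to_iff,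
        pd_of hper (dvd_mul_right _ _)]
    have h1 := (hC n).2.2 _ m F t C C' hM hF (m1.mul_right ((hco D d1).mul_right (hco D' e1))) hm
    have h2 : (fun x => F (t + C x)) = fun x => w * F x := funext fun x => by
      simp only [F]
      rw [ph_cg fun l hl => (hc x).2 l (d1 hl), ph_cg fun l hl => (hc x).2 l (e1 hl), (hc x).1,
        mul_left_comm]
    rw [h2, mean, ← mul_sum, mul_div_assoc, ← mean] at h1
    have h3 := hQ n r _ g V ρ _ R c _ F S hL hM hF (fun x => by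
      rw [norm_mul, Complex.norm_real, Real.norm_eq_abs, abs_mul]
      exact mul_le_one₀ (mul_le_one₀ (ph_le hS d1 x) (abs_nonneg _) (ph_le hS e1 x))
        (norm_nonneg _) (hle x)) ((hT r).2.2.2 R c R0).1 hs
    rw [(mul_left_eq_self₀.1 h1).resolve_left hw, zero_mul, sub_zero] at h3
    have h4 : ((q * ((∏ l ∈ D, l) * ∏ l ∈ D', l) : ℕ) : ℝ) * ρ ≤ q * Y * ρ :=
      mul_le_mul_of_nonneg_right (le_trans (by
        exact_mod_cast Nat.mul_le_mul_left q (Nat.mul_le_mul d2 e2))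
        (mul_le_mul_of_nonneg_left hz2 q.cast_nonneg)) ρ0
    refine h3.trans (mul_le_mul ((mul_le_mul_of_nonneg_left h4 (by positivity)).trans_eq (by ring))
      ?_ (by unfold vb; positivity) (by positivity))
    unfold vb
    gcongr
    linarith
  have e : (V : ℂ) * ∑ x ∈ S, (tn (R⁻¹ • (g x - c)) * ((∑ D ∈ Ds P z, ∏ l ∈ D, ph Z ν l x) /
      Gs (fun l => ν l / (1 - ν l)) P z) ^ 2 : ℝ) * ψ x = (∑ D ∈ Ds P z, ∑ D' ∈ Ds P z,
      V * ∑ x ∈ S, (tn (R⁻¹ • (g x - c)) : ℂ) *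
      ((((∏ l ∈ D, ph Z ν l x) * ∏ l ∈ D', ph Z ν l x : ℝ) : ℂ) * ψ x))
        / (Gs (fun l => ν l / (1 - ν l)) P z ^ 2 : ℝ) := by
    simp only [← mul_sum, sum_comm (t := S)]
    rw [mul_div_assoc, sum_div]
    refine congrArg _ (sum_congr rfl fun v _ => ?_)
    rw [div_pow, sq (∑ D ∈ Ds P z, _), sum_mul_sum, Complex.ofReal_mul, Complex.ofReal_div,
      mul_assoc, div_mul_eq_mul_div, mul_div_assoc (tn _ : ℂ)]
    simp only [Complex.ofReal_sum, sum_mul]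
  have hcd : ((Ds P z).card : ℝ) ≤ z := by exact_mod_cast card_Ds hp z
  rw [e, norm_div, Complex.norm_real, Real.norm_of_nonneg (sq_nonneg _)]
  refine (div_le_self (norm_nonneg _) (one_le_pow₀ hG)).trans ((norm_sum_le_of_le _ fun D hD =>
    norm_sum_le_of_le _ fun D' hE => key D hD D' hE).trans ?_)
  simp only [sum_const, nsmul_eq_mul]
  calc _ ≤ (z : ℝ) * (z * (q * Y * (ρ / R) * vb r (3 * R))) := by gcongr
    _ ≤ Y * (q * Y * (ρ / R) * vb r (3 * R)) := by rw [← mul_assoc]; gcongr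
    _ = _ := by ring

end Pool.Agent.MP_f3836a_nt.GV.C
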