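import Pool.Agent.MP_f3836a_nt.GV.SpecE0
import Pool.Agent.MP_f3836a_nt.VE.EDelA

/-! Deletion which keeps whole fibres. -/

set_option autoImplicit false

namespace Pool.Agent.MP_f3836a_nt.GV

open Finset VE

theorem rDelA : GV.OfDelA := by
  classical
  intro hF P H0 H2 b n G cell J L γ e δm h
  obtain ⟨HH, P1, d⟩ := VE.rDelA hF _ _ _ _ _ _ _ _ _ _ _ _ h
  have sb : P \ P.filter (fun z' => ∃ z ∈ P1, z.p = z'.p ∧ z.t = z'.t) ⊆ P \ P1 :=
    sdiff_subset_sdiff subset_rfl fun z hz => mem_filter.2 ⟨d.subP hz, z, hz, rfl, rfl⟩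
  refine ⟨HH, P.filter fun z' => ∃ z ∈ P1, z.p = z'.p ∧ z.t = z'.t, ⟨d.subH, filter_subset _ _,
    fun z hz => mem_filter.2 ⟨(h.cj z (mem_filter.1 hz).1).1, (mem_filter.1 hz).2⟩, d.card,
    fun a ha => (sum_le_sum_of_subset_of_nonneg (filter_subset_filter _ sb) fun z hz _ =>
      (h.pos z (mem_sdiff.1 (mem_filter.1 hz).1).1).2).trans (d.lose a ha),
    (sum_le_sum_of_subset_of_nonneg sb fun z hz _ =>
      div_nonneg (h.pos z (mem_sdiff.1 hz).1).2 (Nat.cast_nonneg _)).trans d.mass,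
    fun z hz => ?_, fun z hz => ?_, fun z hz => ?_⟩, fun z hz z' hz' e1 e2 =>
      mem_filter.2 ⟨hz', e1 ▸ e2 ▸ (mem_filter.1 hz).2⟩⟩ <;>
    obtain ⟨w, hw, e1, e2⟩ := (mem_filter.1 hz).2
  · simpa only [EDelA.lk_one, On, e1, e2] using d.shD w hw
  · simpa only [On, e1, e2] using d.shG w hw
  · simpa only [EDelA.lk_one, On, e1, e2] using d.shC w hw

end Pool.Agent.MP_f3836a_nt.GV
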