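import Pool.Agent.MP_f3836a_nt.GV.SpecM2

/-! The basis of least elements in the residue classes. -/

set_option autoImplicit false

namespace Pool.Agent.MP_f3836a_nt.GV.M

open Polynomial NumberField PK VE.Z GP IntermediateField

namespace GMApb

theorem ex {S : AddSubmonoid ℕ} {N : ℕ} [NeZero N] (h : ∃ c, ∀ d, c ≤ d → d ∈ S) :
    ∃ a : Fin N → S, a 0 = 0 ∧ (∀ j, (a j : ℕ) % N = j) ∧
      ∀ e ∈ S, ∃ j k, e = N * k + a j := by
  classical
  obtain ⟨c, hc⟩ := h
  have hN := NeZero.pos N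
  have h1 : ∀ j : Fin N, ∃ e, e ∈ S ∧ e % N = j := fun j =>
    ⟨N * c + j, hc _ (by nlinarith), by rw [Nat.mul_add_mod, Nat.mod_eq_of_lt j.2]⟩
  refine ⟨fun j => ⟨Nat.find (h1 j), (Nat.find_spec (h1 j)).1⟩,
    Subtype.ext ((Nat.find_eq_zero _).2 ⟨zero_mem _, by simp⟩), fun j => (Nat.find_spec (h1 j)).2,
    fun e he => ?_⟩
  let j : Fin N := ⟨e % N, Nat.mod_lt _ hN⟩
  have h2 : Nat.find (h1 j) ≤ e := Nat.find_min' _ ⟨he, rfl⟩
  obtain ⟨k, hk⟩ := (Nat.modEq_iff_dvd' h2).1 (Nat.find_spec (h1 j)).2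
  exact ⟨j, k, by simp only [← hk]; omega⟩

end GMApb

theorem mApb : OfApb := by
  intro hF hC S N _ hS
  obtain ⟨a, a0, md, sp⟩ := GMApb.ex (N := N) hS
  refine ⟨a, a0, fun A 𝒜 _ _ _ _ _ μ hμ hx => ?_⟩
  have fa := hF A 𝒜 S μ hμ
  obtain ⟨hN, -⟩ := id hx.1
  have mem : ∀ j k, N * k + (a j : ℕ) ∈ S := fun j k =>
    add_mem (by simpa [mul_comm] using nsmul_mem hN k) (a j).2
  have inj : ∀ j k j' k', N * k + (a j : ℕ) = N * k' + a j' → j = j' ∧ k = k' := by
    intro j k j' k' h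
    have h1 := congrArg (· % N) h
    simp only [Nat.mul_add_mod, md] at h1
    obtain rfl : j = j' := Fin.ext h1
    exact ⟨rfl, Nat.eq_of_mul_eq_mul_left (NeZero.pos N) (by omega)⟩
  choose J K hJ using fun e : S => sp e e.2
  have hJK : ∀ j k h, J ⟨N * k + a j, h⟩ = j ∧ K ⟨N * k + a j, h⟩ = k := fun j k h =>
    inj _ _ _ _ (hJ ⟨_, h⟩).symm
  have z : J 0 = 0 ∧ K 0 = 0 := inj _ _ _ _ (by rw [← hJ 0, a0]; simp)
  obtain ⟨ν, e1, hν, lo, top⟩ := hC A 𝒜 S μ (fun e => algebraMap A[X] 𝒜 X ^ K e * μ (a (J e))) hμ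
    (by simp only [z.1, z.2, a0, hμ.one, pow_zero, mul_one])
    fun e => by
      rw [hJ e]
      exact fa.mul _ _ _ _ (fa.pow _ _ _ hx) (fa.bas _)
  have e2 : ∀ j k h, ν ⟨N * k + a j, h⟩ = algebraMap A[X] 𝒜 X ^ k * μ (a j) := fun j k h => by
    rw [e1, (hJK j k h).1, (hJK j k h).2]
  have k1 : ∀ (p : A[X]) j j' k h, ν.repr (p • μ (a j)) ⟨N * k + a j', h⟩ =
      if j = j' then p.coeff k else 0 := fun p j j' k h => by
    induction p using Polynomial.induction_on' with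
    | add p q hp hq =>
      rw [add_smul, map_add, Finsupp.add_apply, hp, hq, coeff_add]
      split_ifs <;> simp
    | monomial n c =>
      rw [← smul_X_eq_monomial, smul_assoc, Algebra.smul_def (X ^ n), map_pow, ← e2 j n (mem j n),
        map_smul, ν.repr_self, Finsupp.smul_apply, Finsupp.single_apply, coeff_smul, coeff_X_pow]
      by_cases e : j = j' ∧ n = k
      · obtain ⟨rfl, rfl⟩ := e
        simp
      · rw [if_neg fun h => e (inj _ _ _ _ (congrArg Subtype.val h))]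
        split_ifs with h1 h2
        · exact absurd ⟨h1, h2.symm⟩ e
        all_goals simp
  let Φ := Fintype.linearCombination A[X] fun j => μ (a j)
  have k2 : ∀ q j k h, ν.repr (Φ q) ⟨N * k + a j, h⟩ = (q j).coeff k := fun q j k h => by
    simp [Φ, Fintype.linearCombination_apply, k1]
  have bij : Function.Bijective Φ := by
    refine ⟨fun q q' h => funext fun j => Polynomial.ext fun k => ?_, ?_⟩
    · rw [← k2 q j k (mem j k), h, k2]
    · have : (LinearMap.range Φ).restrictScalars A = ⊤ :=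
        (Submodule.eq_top_iff_forall_basis_mem ν).2 fun e =>
          ⟨Pi.single (J e) (X ^ K e), by
            rw [e1, Fintype.linearCombination_apply_single, Algebra.smul_def, map_pow]⟩
      exact fun g => (this.ge Submodule.mem_top : g ∈ LinearMap.range Φ)
  let η := Module.Basis.ofEquivFun (LinearEquiv.ofBijective Φ bij).symm
  have e3 : ∀ j, η j = μ (a j) := fun j => by
    simp [η, Φ, Module.Basis.coe_ofEquivFun, Fintype.linearCombination_apply_single]
  have k3 : ∀ g j k h, ν.repr g ⟨N * k + a j, h⟩ = (η.repr g j).coeff k := fun g j k h => by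
    rw [Module.Basis.ofEquivFun_repr_apply, ← k2 _ j k h]
    exact congrArg (fun y => ν.repr y _) ((LinearEquiv.ofBijective Φ bij).apply_symm_apply g).symm
  refine ⟨η, e3, by rw [a0]; rfl, md, fun e => ⟨sp e, fun ⟨j, k, h⟩ => h ▸ mem j k⟩,
    by rw [e3, a0, hμ.one], fun j => e3 j ▸ fa.bas _, fun I D g => (lo I D g).trans
      ⟨fun h j k hD => k3 g j k (mem j k) ▸ h _ hD, fun h e hD => ?_⟩,
    fun j k g h hl => (top ⟨_, h⟩ g hl).trans (k3 g j k h),
    ν, hν, fun j k h => ⟨e3 j ▸ e2 j k h, fun g => k3 g j k h⟩⟩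
  obtain ⟨e, he⟩ := e
  obtain ⟨j, k, rfl⟩ := sp e he
  exact k3 g j k he ▸ h j k hD

end Pool.Agent.MP_f3836a_nt.GV.M
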