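import Pool.Agent.MP_f3836a_nt.GV.SpecM2

/-! A basis of monic elements from a degree function. -/

set_option autoImplicit false

namespace Pool.Agent.MP_f3836a_nt.GV.M

open Polynomial NumberField PK VE.Z GP IntermediateField

namespace GMBaA

variable {K R : Type} [Field K] [CommRing R] [Algebra K R] {L : ℕ → R → K → Prop}
  {S : AddSubmonoid ℕ} {f : S → R}

theorem up (h : Ld L) {d D : ℕ} {g : R} {c : K} (a : L d g c) (e : d < D) : L D g 0 := by
  induction D, e using Nat.le_induction with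
  | base => exact h.up _ _ _ a
  | succ D _ ih => exact h.up _ _ _ ih

theorem zero (h : Ld L) (d : ℕ) : L d 0 0 := by
  have : L 0 0 0 := by simpa using h.smul _ _ _ 0 h.one
  rcases d with _ | d
  exacts [this, up h this d.succ_pos]

theorem key (h : Ld L) (hf : ∀ e : S, L e (f e) 1) (l : S →₀ K) (d : S)
    (k : ∀ e : S, (d : ℕ) < e → l e = 0) : L d (Finsupp.linearCombination K f l) (l d) := by
  classical
  have e : l d = ∑ e ∈ l.support, if e = d then l e else 0 := by simp [eq_comm (a := l d)]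
  rw [e, Finsupp.linearCombination_apply, Finsupp.sum]
  induction l.support using Finset.induction_on with
  | empty => exact zero h d
  | insert a s ha ih =>
    rw [Finset.sum_insert ha, Finset.sum_insert ha]
    refine h.add _ _ _ _ _ ?_ ih
    rcases lt_trichotomy (a : ℕ) d with b | b | b
    · rw [if_neg fun e => b.ne (congrArg _ e)]
      exact up h (h.smul _ _ _ _ (hf a)) b
    · simpa [Subtype.ext b] using h.smul _ _ _ (l d) (hf d)
    · simpa [k a b] using zero h d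

theorem span (h : Ld L) (hS : ∀ d g, L d g 1 → d ∈ S) (hf : ∀ e : S, L e (f e) 1) (d : ℕ) :
    ∀ g, L d g 0 → ∃ l : S →₀ K, Finsupp.linearCombination K f l = g ∧
      ∀ e : S, d ≤ e → l e = 0 := by
  induction d with
  | zero => exact fun g a => ⟨0, by rw [h.base g a, map_zero], fun _ _ => rfl⟩
  | succ d ih =>
    intro g a
    obtain ⟨c, a⟩ := h.down d g a
    by_cases hc : c = 0
    · exact (ih g (hc ▸ a)).imp fun l k => ⟨k.1, fun e he => k.2 e (by omega)⟩
    have m : d ∈ S := hS d _ (inv_mul_cancel₀ hc ▸ h.smul _ _ _ c⁻¹ a)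
    obtain ⟨l, k1, k2⟩ := ih (g + (-c) • f ⟨d, m⟩)
      (by simpa using h.add _ _ _ _ _ a (h.smul _ _ _ (-c) (hf ⟨d, m⟩)))
    refine ⟨l + Finsupp.single ⟨d, m⟩ c, by simp [k1], fun e he => ?_⟩
    rw [Finsupp.add_apply, k2 e (by omega), Finsupp.single_eq_of_ne, add_zero]
    rintro rfl
    exact absurd he (Nat.not_succ_le_self d)

theorem top {l : S →₀ K} (h : l ≠ 0) : ∃ d : S, l d ≠ 0 ∧ ∀ e : S, (d : ℕ) < e → l e = 0 := by
  obtain ⟨d, a, b⟩ := l.support.exists_max_image Subtype.val (Finsupp.support_nonempty_iff.2 h)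
  exact ⟨d, Finsupp.mem_support_iff.1 a, fun e he =>
    by_contra fun k => (b e (Finsupp.mem_support_iff.2 k)).not_gt he⟩

end GMBaA

open GMBaA in
theorem mBaA : BaA := by
  intro K R _ _ _ L h
  let S : AddSubmonoid ℕ :=
    { carrier := {d | ∃ g, L d g 1}
      zero_mem' := ⟨1, h.one⟩
      add_mem' := fun ⟨g, a⟩ ⟨g', b⟩ => ⟨g * g', by simpa using h.mul _ _ _ _ _ _ a b⟩ }
  have : ∀ d : S, ∃ g, L d g 1 ∧ (d = 0 → g = 1) := fun d => by
    by_cases e : d = 0
    · exact ⟨1, e ▸ h.one, fun _ => rfl⟩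
    · exact d.2.imp fun g a => ⟨a, fun k => absurd k e⟩
  choose f hf f0 using this
  have sp := span (S := S) h (fun d g a => ⟨g, a⟩) hf
  obtain ⟨μ, hμ⟩ : ∃ μ : Module.Basis S K R, ⇑μ = f := by
    refine ⟨.mk (v := f) (linearIndependent_iff.2 fun l e => by_contra fun k => ?_) fun g _ => ?_,
      Module.Basis.coe_mk _ _⟩
    · obtain ⟨d, a, b⟩ := top k
      exact a (h.uniq _ _ _ _ (e ▸ key h hf l d b) (zero h d))
    · obtain ⟨d, c, a⟩ := h.ex g
      obtain ⟨l, rfl, -⟩ := sp _ g (h.up _ _ _ a)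
      rw [← Finsupp.range_linearCombination]
      exact ⟨l, rfl⟩
  subst hμ
  have rev : ∀ g (d : S), (∀ e : S, (d : ℕ) < e → μ.repr g e = 0) → L d g (μ.repr g d) :=
    fun g d k => by simpa using key h hf (μ.repr g) d k
  have low : ∀ d g c, L d g c → ∀ e : S, d < e → μ.repr g e = 0 := fun d g c a => by
    obtain ⟨l, rfl, k⟩ := sp _ g (h.up _ _ _ a)
    rwa [μ.repr_linearCombination]
  have hm := fun d d' : S => h.mul _ _ _ _ _ _ (hf d) (hf d')
  refine ⟨S, μ, ⟨?_, f0 0 rfl, fun d d' => (h.uniq _ _ _ _ (rev _ (d + d') (low _ _ _ (hm d d')))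
    (hm d d')).trans (mul_one 1), fun d d' => low _ _ _ (hm d d')⟩,
    fun d g ⟨⟨m, e⟩, k⟩ => e ▸ rev g ⟨d, m⟩ k, fun g hg => ?_⟩
  · obtain ⟨d, g, g', a, b⟩ := h.cof
    refine ⟨d.pred * d, fun e he => ?_⟩
    obtain ⟨u, v, rfl⟩ := Nat.exists_add_mul_eq_of_gcd_dvd_of_mul_pred_le d (d + 1) e (by simp) he
    exact S.add_mem (S.nsmul_mem ⟨g, a⟩ u) (S.nsmul_mem ⟨g', b⟩ v)
  · obtain ⟨d, a, b⟩ := top (μ.repr.map_ne_zero_iff.2 hg)
    exact ⟨d, (μ.repr g d)⁻¹, inv_ne_zero a, ⟨d.2, by simp [a]⟩, fun e he => by simp [b e he]⟩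

end Pool.Agent.MP_f3836a_nt.GV.M
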