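import Pool.Agent.MP_f3836a_nt.GV.SpecM2

/-! Leading coefficients at a rational place. -/

set_option autoImplicit false

namespace Pool.Agent.MP_f3836a_nt.GV.M

open Polynomial NumberField PK VE.Z GP IntermediateField

theorem mBb : BaB := by
  intro K F _ _ _ _ O' fi N hC hO hfr
  have D := dvA hO.1.1
  have := D.loc
  obtain ⟨π, π0, π1⟩ := D.uni
  have πn : Nu O' π := (D.nu _).2 (.inr (by rw [π1]; exact one_pos))
  have cm := N.mem O' hO.1
  let R : Subalgebra K F :=
    { carrier := {z | Ro O' z}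
      mul_mem' := fun a b P o e => P.mul_mem (a P o e) (b P o e)
      add_mem' := fun a b P o e => P.add_mem (a P o e) (b P o e)
      algebraMap_mem' := fun c P o _ => N.mem P o c }
  have z0 : ∀ c : K, Nu O' (algebraMap K F c) → c = 0 := fun c h =>
    by_contra fun e => h.not ((N.con O' hO.1).2 c e).1
  have op : ∀ (g : F) (d : ℕ), g ≠ 0 → ordR O' (g * π ^ d) = ordR O' g + d := fun g d g0 => by
    rw [D.mul _ _ g0 (pow_ne_zero _ π0), ← zpow_natCast, D.zpow _ _ π0, π1, mul_one]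
  have mem : ∀ (z : F) (c : K), Nu O' (z - algebraMap K F c) → z ∈ O' := fun z c h => by
    simpa using O'.add_mem h.1 (cm c)
  have cg : ∀ {a b : F}, Nu O' a → b = a → Nu O' b := fun h e => e ▸ h
  have base : ∀ g : F, Ro O' g → Nu O' g → g = 0 := fun g h k => by
    have a : IsAlgebraic ℤ g := by_contra fun t => by
      obtain ⟨P, o, e⟩ := fi.ex g t
      exact e ((eq_or_ne P O').elim (fun q => q ▸ k.1) (h P o))
    obtain ⟨c, rfl⟩ := hC.cl g a
    rw [z0 c k, map_zero]
  refine ⟨R, fun d g c => Nu O' (g * π ^ d - algebraMap K F c), fun _ => Iff.rfl,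
    ⟨fun d g g' c c' h h' => ?_, fun d g c a h => ?_, fun d d' g g' c c' h h' => ?_,
      fun d g c h => ?_, fun d g h => ?_, fun d g c c' h h' => ?_, fun g h => ?_, fun g => ?_,
      by simpa using nu_zero, ?_⟩, fun d g h => ?_⟩
  · exact cg (h.add h') (by rw [map_add, Subalgebra.coe_add]; ring)
  · exact cg (h.mul (cm a)) (by rw [map_mul, Subalgebra.coe_smul, Algebra.smul_def]; ring)
  · exact cg ((h.mul (mem _ _ h')).add (h'.mul (cm c))) (by rw [map_mul, Subalgebra.coe_mul]; ring)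
  · have := πn.mul (mem _ _ h)
    rw [map_zero, sub_zero, pow_succ, ← mul_assoc]
    exact this
  · rw [map_zero, sub_zero] at h
    refine hO.2 _ ?_
    by_cases g0 : (g : F) = 0
    · simp [g0]
    have h1 := ((D.nu _).1 h).resolve_left (mul_ne_zero g0 (pow_ne_zero _ π0))
    rw [op _ _ g0] at h1
    rw [D.mem _ (mul_ne_zero g0 (pow_ne_zero _ π0)), op _ _ g0]
    push_cast at h1
    omega
  · exact sub_eq_zero.1 (z0 _ (cg (h'.sub h) (by rw [map_sub]; ring)))
  · exact Subtype.ext (base g g.2 (by simpa using h))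
  · refine ⟨(-ordR O' (g : F)).toNat, hO.2 _ ?_⟩
    by_cases g0 : (g : F) = 0
    · simp [g0]
    rw [D.mem _ (mul_ne_zero g0 (pow_ne_zero _ π0)), op _ _ g0]
    omega
  · obtain ⟨b, b0, b1, b2⟩ := hfr π⁻¹
    have h0 : ordR O' b ≤ 0 := not_lt.1 fun h => b0 (base b b1 ((D.nu _).2 (.inr h)))
    have u : Ut O' (b * π ^ (-ordR O' b).toNat) :=
      (D.ut _).2 ⟨mul_ne_zero b0 (pow_ne_zero _ π0), by rw [op _ _ b0]; omega⟩
    obtain ⟨c, hc⟩ := hO.2 _ u.2.1
    have c0 : c ≠ 0 := fun e => (by simpa [e] using hc : Nu O' _).not u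
    have k := hc.mul (cm c⁻¹)
    have e : algebraMap K F c⁻¹ * algebraMap K F c = 1 := by
      rw [← map_mul, inv_mul_cancel₀ c0, map_one]
    rw [mul_sub, e] at k
    refine ⟨(-ordR O' b).toNat, c⁻¹ • ⟨b, b1⟩, c⁻¹ • ⟨_, b2⟩, ?_, ?_⟩
    · rw [map_one, Subalgebra.coe_smul, Algebra.smul_def, mul_assoc]
      exact k
    · rw [map_one, Subalgebra.coe_smul, Algebra.smul_def, mul_assoc]
      have : π⁻¹ * b * π ^ ((-ordR O' b).toNat + 1) = b * π ^ (-ordR O' b).toNat := by
        field_simp; ring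
      exact this ▸ k
  · have u := ut_of_nu ut_one (cg h (by rw [map_one]))
    have g0 : (g : F) ≠ 0 := left_ne_zero_of_mul u.1
    have := ((D.ut _).1 u).2
    rw [op _ _ g0] at this
    exact ⟨g0, by omega⟩

end Pool.Agent.MP_f3836a_nt.GV.M
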