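import Pool.Agent.MP_f3836a_nt.GV.SpecM2

/-! Block Mod: change of the basis. -/

set_option autoImplicit false

namespace Pool.Agent.MP_f3836a_nt.GV.M

open Polynomial NumberField PK VE.Z GP IntermediateField

namespace GMChg

variable {A 𝒜 : Type} [CommRing A] [CommRing 𝒜] [Algebra A 𝒜] {S : AddSubmonoid ℕ}
  {μ : Module.Basis S A 𝒜} {f : S → 𝒜} {I : Ideal A} {c : S →₀ A}

theorem top (hf : ∀ e : S, Mo μ e (f e)) {t : S} (h : ∀ e : S, (t : ℕ) < e → c e ∈ I) :
    μ.repr (Finsupp.linearCombination A f c) t - c t ∈ I := by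
  classical
  have e : c t = c.sum fun e a => if e = t then a else 0 := by
    rw [Finsupp.sum_ite_eq']
    split_ifs with k
    · rfl
    · exact Finsupp.notMem_support_iff.1 k
  rw [e, Finsupp.linearCombination_apply, Finsupp.sum, Finsupp.sum, map_sum,
    Finsupp.finsetSum_apply, ← Finset.sum_sub_distrib]
  refine I.sum_mem fun e _ => ?_
  rw [map_smul, Finsupp.smul_apply, smul_eq_mul]
  split_ifs with k
  · obtain ⟨_, a⟩ := (hf t).1
    rw [k, a, mul_one, sub_self]
    exact I.zero_mem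
  · rw [sub_zero]
    rcases lt_or_gt_of_ne (Subtype.coe_ne_coe.2 k) with k | k
    · rw [(hf e).2 t k, mul_zero]
      exact I.zero_mem
    · exact I.mul_mem_right _ (h e k)

theorem lo (hf : ∀ e : S, Mo μ e (f e)) {D : ℕ} :
    Lo μ I D (Finsupp.linearCombination A f c) ↔ ∀ e : S, D ≤ e → c e ∈ I := by
  classical
  refine ⟨fun h e he => by_contra fun k => ?_, fun h e he => ?_⟩
  · obtain ⟨t, ht, m⟩ := (c.support.filter fun e => c e ∉ I).exists_max_image (fun e => (e : ℕ))
      ⟨e, Finset.mem_filter.2 ⟨Finsupp.mem_support_iff.2 fun z => k (z ▸ I.zero_mem), k⟩⟩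
    have m' : ∀ e, c e ∉ I → (e : ℕ) ≤ t := fun e k =>
      m e (Finset.mem_filter.2 ⟨Finsupp.mem_support_iff.2 fun z => k (z ▸ I.zero_mem), k⟩)
    have := I.sub_mem (h t (he.trans (m' e k)))
      (top hf (t := t) fun e a => by_contra fun b => a.not_ge (m' e b))
    exact (Finset.mem_filter.1 ht).2 (by simpa using this)
  · simpa using I.add_mem (top hf (t := e) fun e' a => h e' (he.trans a.le)) (h e he)

theorem span (hf : ∀ e : S, Mo μ e (f e)) (D : ℕ) (g : 𝒜) (h : Lo μ ⊥ D g) :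
    g ∈ Submodule.span A (Set.range f) := by
  induction D generalizing g with
  | zero =>
    obtain rfl : g = 0 := μ.repr.map_eq_zero_iff.1 (Finsupp.ext fun e => h e (Nat.zero_le _))
    exact zero_mem _
  | succ D ih =>
    by_cases k : D ∈ S
    · have := ih (g - μ.repr g ⟨D, k⟩ • f ⟨D, k⟩) fun e he => by
        rw [map_sub, map_smul, Finsupp.sub_apply, Finsupp.smul_apply, smul_eq_mul, Ideal.mem_bot]
        rcases he.eq_or_lt with a | a
        · obtain rfl : ⟨D, k⟩ = e := Subtype.ext a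
          obtain ⟨_, b⟩ := (hf ⟨D, k⟩).1
          rw [b, mul_one, sub_self]
        · rw [(hf ⟨D, k⟩).2 e a, mul_zero, sub_zero]
          exact h e a
      simpa using add_mem this (Submodule.smul_mem _ (μ.repr g ⟨D, k⟩)
        (Submodule.subset_span (Set.mem_range_self ⟨D, k⟩)))
    · exact ih g fun e he => h e (he.lt_of_ne fun a => k (a ▸ e.2))

end GMChg

open GMChg

theorem mChg : OfChg := by
  intro hF A 𝒜 _ _ _ S μ f hμ h0 hf
  have F := hF A 𝒜 S μ hμ
  obtain ⟨ν, rfl⟩ : ∃ ν : Module.Basis S A 𝒜, ν = f := ⟨.mk (linearIndependent_iff.2 fun c hc =>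
    Finsupp.ext fun e => (lo hf (I := ⊥) (D := 0)).1 (fun e _ => by simp [hc]) e (Nat.zero_le _))
    fun g _ => (F.bdd g).elim fun D => span hf D g, Module.Basis.coe_mk _ _⟩
  have a : ∀ I D g, Lo μ I D g ↔ Lo ν I D g := fun I D g => by
    conv_lhs => rw [← ν.linearCombination_repr g]
    exact lo hf
  have b : ∀ (D : S) g, Lo μ ⊥ (D + 1) g → μ.repr g D = ν.repr g D := fun D g h => by
    have := top hf (t := D) ((a _ _ _).1 h)
    rwa [ν.linearCombination_repr, Ideal.mem_bot, sub_eq_zero] at this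
  have m := fun d d' : S => F.mul _ _ _ _ (hf d) (hf d')
  exact ⟨ν, fun _ => rfl, ⟨hμ.cof, h0, fun d d' => (b (d + d') _ (m d d').2).symm.trans
    (m d d').1.choose_spec, fun d d' => (a ⊥ (d + d' + 1) _).1 (m d d').2⟩, a, b⟩

end Pool.Agent.MP_f3836a_nt.GV.M
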