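import Pool.Agent.MP_f3836a_nt.GV.SpecM2

/-! Block Mod: clearing poles. -/

set_option autoImplicit false

namespace Pool.Agent.MP_f3836a_nt.GV.M

open Polynomial NumberField PK VE.Z GP IntermediateField

namespace GMClr

variable {K F : Type} [Field K] [Field F] [Algebra K F] {P : Subring F} {q w : F}

theorem mem_aeval (h : q ∈ P) (p : ℤ[X]) : aeval q p ∈ P := by
  rw [aeval_eq_sum_range]
  exact P.sum_mem fun i _ => zsmul_mem (P.pow_mem h i) _

theorem one (hN : Nb K F) (hP : Pl P) (hq : q ∈ P) (h : Nu P q → w ∈ P) :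
    ∃ p : ℤ[X], p.coeff 0 ≠ 0 ∧ aeval q p * w ∈ P := by
  by_cases hw : w ∈ P
  · exact ⟨1, by simp, by simpa using hw⟩
  have hu := (nu_or hq).resolve_left fun e => hw (h e)
  have A := dvA hP.1
  obtain ⟨n, n0, Q, q1, q2⟩ := hN.alg P q hP hq
  obtain ⟨k, p, e, hp⟩ := za_ex (Q := Q.comp (C (n : ℤ) * X)) not_isUnit_X
    (mt (comp_C_mul_X_eq_zero_iff (mem_nonZeroDivisors_of_ne_zero (Int.natCast_ne_zero.2 n0))).1
      q1.ne_zero)
  have e1 : aeval ((n : F) * q) Q = q ^ k * aeval q p := by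
    simpa [aeval_comp] using congrArg (aeval q) e
  have h1 := (e1 ▸ q2).mul (hu.pow k).2.2
  rw [inv_mul_cancel_left₀ (hu.pow k).1] at h1
  have w0 : w ≠ 0 := fun e => hw (e ▸ P.zero_mem)
  refine ⟨p ^ ((-ordR P w).toNat + 1), ?_, ?_⟩
  · rw [coeff_zero_eq_eval_zero, eval_pow, ← coeff_zero_eq_eval_zero]
    exact pow_ne_zero _ (mt X_dvd_iff.2 hp)
  · rw [map_pow]
    by_cases a0 : aeval q p = 0
    · simp [a0]
    have h2 := ((A.nu _).1 h1).resolve_left a0
    rw [A.mem _ (mul_ne_zero (pow_ne_zero _ a0) w0), A.mul _ _ (pow_ne_zero _ a0) w0,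
      ← zpow_natCast, A.zpow _ _ a0]
    have h3 := Int.self_le_toNat (-ordR P w)
    push_cast
    nlinarith [Int.natCast_nonneg (-ordR P w).toNat]

end GMClr

theorem mClr : ClrS := by
  intro K F _ _ _ _ O' q w hF hN hq h
  classical
  have h1 : ∀ P : Subring F, ∃ p : ℤ[X], p.coeff 0 ≠ 0 ∧ (Pl P → P ≠ O' → aeval q p * w ∈ P) :=
    fun P => by
      by_cases hP : Pl P ∧ P ≠ O'
      · exact (GMClr.one hN hP.1 (hq P hP.1 hP.2) (h P hP.1 hP.2)).imp fun _ e => ⟨e.1, fun _ _ => e.2⟩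
      · exact ⟨1, by simp, fun a b => absurd ⟨a, b⟩ hP⟩
  choose p p0 p1 using h1
  refine ⟨∏ P ∈ (hF.fin w).toFinset, p P, ?_, fun P a b => ?_⟩
  · rw [coeff_zero_prod]
    exact Finset.prod_ne_zero_iff.2 fun P _ => p0 P
  · by_cases hP : P ∈ (hF.fin w).toFinset
    · rw [← Finset.prod_erase_mul _ _ hP, map_mul, mul_assoc]
      exact P.mul_mem (GMClr.mem_aeval (hq P a b) _) (p1 P a b)
    · refine P.mul_mem (GMClr.mem_aeval (hq P a b) _) ?_
      by_cases w0 : w = 0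
      · exact w0 ▸ P.zero_mem
      · exact ((dvA a.1).mem w w0).2 (not_not.1 fun e =>
          hP ((hF.fin w).mem_toFinset.2 ⟨a, fun e' => e e'.ge⟩))

end Pool.Agent.MP_f3836a_nt.GV.M
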