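import Pool.Agent.MP_f3836a_nt.GV.SpecM2

/-! The number of conditions which remove a pole. -/

set_option autoImplicit false

namespace Pool.Agent.MP_f3836a_nt.GV.M

open Polynomial NumberField PK VE.Z GP IntermediateField IsLocalRing

namespace GMDim

theorem step (k F : Type) [Field k] [Field F] [Algebra k F] (P : Subring F) (c : F)
    (V : Submodule k F) (hN : Nb k F) (hP : Pl P) [FiniteDimensional k V]
    (h : ∀ z ∈ V, c * z ∈ P) : ∃ W : Submodule k F, W ≤ V ∧ (∀ z ∈ W, Nu P (c * z)) ∧
      Module.finrank k V ≤ Module.finrank k W + dgK k P := by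
  haveI := (dvA hP.1).loc
  have hm := hN.mem P hP
  letI : Algebra k (ResidueField P) := (GP.emb k P hm).toAlgebra
  have hd : dgK k P = Module.finrank k (ResidueField P) := dgK_eq k P hm
  haveI : Module.Finite k (ResidueField P) :=
    Module.finite_of_finrank_pos (hd ▸ (hN.con P hP).1)
  let φ : V →ₗ[k] ResidueField P :=
    { toFun := fun z => residue P ⟨c * z, h z z.2⟩
      map_add' := fun z z' => by
        rw [← map_add]
        exact congrArg _ (Subtype.ext (by simp [mul_add]))
      map_smul' := fun a z => by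
        have e : (⟨c * (a • z : V), h _ (a • z).2⟩ : P) =
            ⟨algebraMap k F a, hm a⟩ * ⟨c * z, h z z.2⟩ :=
          Subtype.ext (by simp [Algebra.smul_def, mul_left_comm])
        rw [e, map_mul, Algebra.smul_def]
        rfl }
  refine ⟨(LinearMap.ker φ).map V.subtype, Submodule.map_subtype_le _ _, ?_, ?_⟩
  · rintro _ ⟨z, hz, rfl⟩
    have e : residue P ⟨c * z, h z z.2⟩ = 0 := hz
    rw [residue_eq_zero_iff] at e
    exact (nu_iff (⟨c * z, h z z.2⟩ : P)).2 e
  · rw [Submodule.finrank_map_subtype_eq, hd, ← LinearMap.finrank_range_add_finrank_ker φ]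
    have := Submodule.finrank_le (LinearMap.range φ)
    omega

end GMDim

theorem mDim : DimS := by
  intro k F _ _ _ P π a V hN hP hπ
  have A := dvA hP.1
  have π0 : π ≠ 0 := by
    rintro rfl
    have h2 : ordR P (0 : F) = 0 := by simp [ordR]
    omega
  induction a generalizing V with
  | zero => exact fun _ h => ⟨V, le_rfl, fun z hz => by simpa using h z hz, by simp⟩
  | succ a ih =>
    intro hV h
    obtain ⟨W, w1, w2, w3⟩ := GMDim.step k F P (π ^ (a + 1)) V hN hP h
    obtain ⟨U, u1, u2, u3⟩ := ih W (Submodule.finiteDimensional_of_le w1) fun z hz => by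
      by_cases z0 : π ^ a * z = 0
      · rw [z0]; exact P.zero_mem
      have e : π ^ (a + 1) * z = π * (π ^ a * z) := by ring
      have h1 := ((A.nu _).1 (w2 z hz)).resolve_left (by rw [e]; exact mul_ne_zero π0 z0)
      rw [e, A.mul _ _ π0 z0, hπ] at h1
      exact (A.mem _ z0).2 (by omega)
    refine ⟨U, u1.trans w1, u2, ?_⟩
    rw [add_mul, one_mul]
    omega

end Pool.Agent.MP_f3836a_nt.GV.M
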