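import Pool.Agent.MP_f3836a_nt.GV.SpecM2

/-! Block Mod: bounded denominators of the structure constants. -/

set_option autoImplicit false

namespace Pool.Agent.MP_f3836a_nt.GV.M

open Polynomial NumberField PK VE.Z GP IntermediateField

theorem mFc : OfFc := by
  intro hA K R _ _ _ _ S μ N x hμ hN hx
  classical
  let _ : Algebra K[X] R := (aeval x).toRingHom.toAlgebra
  have hX : algebraMap K[X] R X = x := aeval_X x
  have : IsScalarTower K K[X] R := .of_algebraMap_eq fun a => ((aeval x).commutes a).symm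
  have : NeZero (N : ℕ) := ⟨hN.ne'⟩
  obtain ⟨d, η, h⟩ := hA.get hμ (hX ▸ hx)
  obtain ⟨ν, a, b⟩ := h.nu
  obtain ⟨D, D0, hD⟩ := exists_integral_multiples ℤ ℚ
    (Finset.univ.biUnion fun p : Fin N × Fin N × Fin N => (η.repr (η p.1 * η p.2.1) p.2.2).coeffs)
  have key : ∀ j j' l k, IsIntegral ℤ ((D.natAbs : K) * (η.repr (η j * η j') l).coeff k) :=
    fun j j' l k => by
      by_cases c : (η.repr (η j * η j') l).coeff k = 0
      · rw [c, mul_zero]
        exact isIntegral_zero
      have e := hD _ (Finset.mem_biUnion.2 ⟨(j, j', l), Finset.mem_univ _, coeff_mem_coeffs c⟩)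
      rw [zsmul_eq_mul] at e
      rw [← Int.cast_natCast, Int.natCast_natAbs]
      rcases abs_choice D with c | c <;> rw [c]
      · exact e
      · rw [Int.cast_neg, neg_mul]
        exact e.neg
  refine ⟨ν, D.natAbs, a, ?_, Int.natAbs_ne_zero.2 D0, fun ⟨e, he⟩ ⟨e', he'⟩ ⟨f, hf⟩ => ?_⟩
  · have e : (N : ℕ) * 1 + d 0 = N := by rw [h.d0, mul_one, add_zero]
    have c := (b 0 1 (e.symm ▸ N.2)).1
    rw [h.one, hX, pow_one, mul_one x] at c
    exact (congrArg ν (Subtype.ext e.symm)).trans c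
  obtain ⟨j, k, rfl⟩ := (h.mem e).1 he
  obtain ⟨j', k', rfl⟩ := (h.mem e').1 he'
  obtain ⟨l, m, rfl⟩ := (h.mem f).1 hf
  rw [(b j k he).1, (b j' k' he').1, (b l m hf).2, mul_mul_mul_comm, ← pow_add, ← map_pow,
    ← Algebra.smul_def, map_smul, Finsupp.smul_apply, smul_eq_mul, coeff_X_pow_mul']
  split_ifs
  · exact key _ _ _ _
  · rw [mul_zero]
    exact isIntegral_zero

end Pool.Agent.MP_f3836a_nt.GV.M
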