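import Pool.Agent.MP_f3836a_nt.GV.SpecM2

/-! Block Mod: elementary facts on bases of monic elements. -/

set_option autoImplicit false

namespace Pool.Agent.MP_f3836a_nt.GV.M

open Polynomial NumberField PK VE.Z GP IntermediateField

namespace GMFm

variable {A 𝒜 : Type} [CommRing A] [CommRing 𝒜] [Algebra A 𝒜] {S : AddSubmonoid ℕ}
  {μ : Module.Basis S A 𝒜} {I : Ideal A} {d d' : ℕ} {f g g' : 𝒜}

theorem bas (d : S) : Mo μ d (μ d) := ⟨⟨d.2, by simp⟩, fun e h => by
  rw [μ.repr_self, Finsupp.single_eq_of_ne fun k => h.ne' (congrArg _ k)]⟩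

theorem lo (h : Mo μ d g) : Lo μ ⊥ (d + 1) g := h.2

theorem low (hμ : FM μ) (h : Lo μ ⊥ (d + 1) g) (h' : Lo μ I d' g') : Lo μ I (d + d') (g * g') := by
  intro t ht
  rw [← μ.linearCombination_repr g, ← μ.linearCombination_repr g', Finsupp.linearCombination_apply,
    Finsupp.linearCombination_apply, Finsupp.sum, Finsupp.sum, Finset.sum_mul_sum]
  simp only [map_sum, smul_mul_smul_comm, map_smul, Finsupp.finsetSum_apply, Finsupp.smul_apply,
    smul_eq_mul]
  refine sum_mem fun e he => sum_mem fun e' _ => ?_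
  by_cases c : d' ≤ e'
  · exact I.mul_mem_right _ (I.mul_mem_left _ (h' e' c))
  · have : ¬d + 1 ≤ e := fun k => Finsupp.mem_support_iff.1 he (h e k)
    rw [hμ.low e e' t (by omega), mul_zero]
    exact zero_mem I

theorem strip {t : S} (h : Lo μ I (t + 1) g) : Lo μ I t (g - μ.repr g t • μ t) := fun e he => by
  rw [map_sub, map_smul, μ.repr_self, Finsupp.sub_apply, Finsupp.smul_apply, Finsupp.single_apply]
  split_ifs with c
  · simp [c]
  · simpa using h e (lt_of_le_of_ne he fun k => c (Subtype.ext k))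

theorem top (hμ : FM μ) {d t : S} (h : Lo μ ⊥ (d + 1) f) (h' : Lo μ I (t + 1) g) :
    μ.repr (f * g) (d + t) - μ.repr f d * μ.repr g t ∈ I := by
  have e : f * g = f * (g - μ.repr g t • μ t) + μ.repr g t • (μ t * (f - μ.repr f d • μ d)) +
      (μ.repr f d * μ.repr g t) • (μ d * μ t) := by
    simp only [Algebra.smul_def, map_mul]
    ring
  have k : μ.repr _ (d + t) = 0 := low hμ (lo (bas t)) (strip h) (d + t) (add_comm _ _).le
  rw [e, map_add μ.repr, map_add μ.repr, map_smul, map_smul, Finsupp.add_apply, Finsupp.add_apply,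
    Finsupp.smul_apply, Finsupp.smul_apply, k, hμ.top, smul_zero, add_zero, smul_eq_mul, mul_one,
    add_sub_cancel_right]
  exact low hμ h (strip h') _ le_rfl

theorem top' (hμ : FM μ) {t : S} (h : Mo μ d f) (h' : Lo μ I (t + 1) g) :
    ∃ h : d + t ∈ S, μ.repr (f * g) ⟨d + t, h⟩ - μ.repr g t ∈ I := by
  obtain ⟨hd, e⟩ := h.1
  have := top hμ (d := ⟨d, hd⟩) (lo h) h'
  rw [e, one_mul] at this
  exact ⟨add_mem hd t.2, this⟩

theorem mul (hμ : FM μ) (h : Mo μ d g) (h' : Mo μ d' g') : Mo μ (d + d') (g * g') := by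
  obtain ⟨hd, e⟩ := h'.1
  obtain ⟨k, e'⟩ := top' hμ (t := ⟨d', hd⟩) h (lo h')
  exact ⟨⟨k, (sub_eq_zero.1 e').trans e⟩, low hμ (lo h) (lo h')⟩

theorem bdd (g : 𝒜) : ∃ d, Lo μ ⊥ d g :=
  ⟨(μ.repr g).support.sup Subtype.val + 1, fun _ h => by_contra fun k =>
    (Finset.le_sup (f := ((↑) : S → ℕ)) (Finsupp.mem_support_iff.2 k)).not_gt h⟩

theorem lead (h : g ≠ 0) : ∃ d : S, μ.repr g d ≠ 0 ∧ Lo μ ⊥ (d + 1) g := by
  obtain ⟨d, h1, h2⟩ := (μ.repr g).support.exists_max_image ((↑) : S → ℕ)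
    (Finsupp.support_nonempty_iff.2 (by simpa using h))
  exact ⟨d, Finsupp.mem_support_iff.1 h1, fun e h => by_contra fun k =>
    (h2 e (Finsupp.mem_support_iff.2 k)).not_gt h⟩

end GMFm

open GMFm in
theorem mFm : FmS := by
  intro A 𝒜 _ _ _ S μ hμ
  refine ⟨bas, fun _ _ _ _ => mul hμ, fun d g k h => ?_, fun d g g' h h' => ?_,
    fun _ _ _ _ _ => low hμ, fun _ _ _ _ _ => top' hμ, fun I d t f g h h' => ?_, bdd, fun _ => ?_⟩
  · induction k with
    | zero => rw [pow_zero, ← hμ.one]; exact bas 0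
    | succ k ih => rw [pow_succ]; exact mul hμ ih h
  · obtain ⟨⟨hd, e⟩, e'⟩ := h
    exact ⟨⟨hd, by rw [map_add, Finsupp.add_apply, e, show μ.repr g' ⟨d, hd⟩ = 0 from
      h' _ le_rfl, add_zero]⟩, fun t ht => by
        rw [map_add, Finsupp.add_apply, e' t ht, show μ.repr g' t = 0 from h' _ ht.le, add_zero]⟩
  · obtain ⟨n, hn⟩ := bdd (μ := μ) g
    have k : Lo μ I (t + n) g := fun e he => (hn e (by omega)).symm ▸ zero_mem I
    clear hn
    induction n with
    | zero => exact k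
    | succ n ih =>
      refine ih fun e he => ?_
      by_cases c : t + n = e
      · obtain ⟨m, c'⟩ := top' hμ (t := e) h fun s hs => k s (by omega)
        simpa using sub_mem (h' ⟨_, m⟩ (by simp; omega)) c'
      · exact k e (by omega)
  · have : Nontrivial 𝒜 := ⟨_, _, μ.ne_zero 0⟩
    have : NoZeroDivisors 𝒜 := ⟨fun {g g'} e => by
      by_contra! k
      obtain ⟨d, h1, h2⟩ := lead (μ := μ) k.1
      obtain ⟨d', h1', h2'⟩ := lead (μ := μ) k.2
      simpa [e, h1, h1'] using top hμ h2 h2'⟩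
    exact NoZeroDivisors.to_isDomain 𝒜

end Pool.Agent.MP_f3836a_nt.GV.M
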