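import Pool.Agent.MP_f3836a_nt.GV.SpecM2

/-! Block Mod: a totally ramified fibre has no zero divisors. -/

set_option autoImplicit false

namespace Pool.Agent.MP_f3836a_nt.GV.M

open Polynomial NumberField PK VE.Z GP IntermediateField

namespace GMNw

variable {A K : Type} [CommRing A] [Field K] [Algebra A K]
  {v : Valuation K (WithZero (Multiplicative ℤ))} {t : K}

theorem term (h : ∀ a : A, v (algebraMap A K a) ≤ 1) (a : A) (k : ℕ) :
    v (algebraMap A K a * t ^ k) ≤ v t ^ k := by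
  rw [map_mul, map_pow]
  exact mul_le_of_le_one_left' (h a)

theorem ev_le (h : ∀ a : A, v (algebraMap A K a) ≤ 1) (ht : 1 < v t) (p : A[X]) :
    v (aeval t p) ≤ v t ^ p.natDegree := by
  rw [aeval_def, eval₂_eq_sum, sum_def]
  exact v.map_sum_le fun k hk =>
    (term h _ k).trans (pow_le_pow_right₀ ht.le (le_natDegree_of_mem_supp k hk))

theorem ev_eq (h : ∀ a : A, v (algebraMap A K a) ≤ 1) (ht : 1 < v t) {p : A[X]} {m : ℕ}
    (h1 : p.coeff m = 1) (h0 : ∀ k, m < k → p.coeff k = 0) : v (aeval t p) = v t ^ m := by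
  rw [← add_sub_cancel (X ^ m) p, map_add, aeval_X_pow, ← map_pow]
  refine v.map_add_eq_of_lt_left ?_
  rw [map_pow, aeval_def, eval₂_eq_sum, sum_def]
  refine v.map_sum_lt (pow_ne_zero _ (zero_lt_one.trans ht).ne') fun k hk =>
    (term h _ k).trans_lt (pow_lt_pow_right₀ ht (lt_of_not_ge fun e => mem_support_iff.1 hk ?_))
  rw [coeff_sub, coeff_X_pow]
  rcases e.eq_or_lt with rfl | e
  · simp [h1]
  · simp [h0 k e, e.ne']

theorem mx {N c : ℕ} {d : Fin N → ℕ} (hd : ∀ j, d j % N = j) (ht : v t = WithZero.exp (c : ℤ))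
    (hc : c.Coprime N) {b : Fin N → K} (hb : b ≠ 0) : ∃ j₀, v (b j₀) ≠ 0 ∧
      ∀ j, v (b j) ^ N * v t ^ d j ≤ v (b j₀) ^ N * v t ^ d j₀ ∧
        (j ≠ j₀ → v (b j) ^ N * v t ^ d j < v (b j₀) ^ N * v t ^ d j₀) := by
  obtain ⟨i, hi⟩ := Function.ne_iff.1 hb
  obtain ⟨j₀, -, h⟩ := Finset.exists_max_image Finset.univ (fun j => v (b j) ^ N * v t ^ d j)
    ⟨i, Finset.mem_univ i⟩
  have t0 : v t ≠ 0 := ht ▸ WithZero.exp_ne_zero
  have z : ∀ j, v (b j) ^ N * v t ^ d j ≠ 0 ↔ v (b j) ≠ 0 := fun j => by simp [t0, i.pos.ne']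
  have h0 : v (b j₀) ≠ 0 := (z _).1 (lt_of_lt_of_le (zero_lt_iff.2 ((z i).2
    (v.ne_zero_iff.2 hi))) (h i (Finset.mem_univ i))).ne'
  refine ⟨j₀, h0, fun j => ⟨h j (Finset.mem_univ j), fun n =>
    (h j (Finset.mem_univ j)).lt_of_ne fun e => n (Fin.ext ?_)⟩⟩
  have h1 : v (b j) ≠ 0 := (z _).1 (e ▸ (z _).2 h0)
  rw [← WithZero.exp_log h0, ← WithZero.exp_log h1, ht] at e
  simp only [← WithZero.exp_nsmul, ← WithZero.exp_add, WithZero.exp_inj, nsmul_eq_mul] at e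
  rw [← hd, ← hd]
  refine Nat.modEq_iff_dvd.2 ((Nat.isCoprime_iff_coprime.2 hc.symm).dvd_of_dvd_mul_right
    ⟨WithZero.log (v (b j)) - WithZero.log (v (b j₀)), ?_⟩)
  linear_combination -e

end GMNw

open GMNw

theorem mNw : OfNw := by
  intro hF A K 𝒜 _ _ _ _ _ _ _ S μ N _ d η v t c hμ P inj h ht c0 hc b b' hb hb'
  have nz : ∀ x : Fin N → A, x ≠ 0 → (fun j => algebraMap A K (x j)) ≠ 0 := fun x hx e =>
    hx (funext fun j => inj ((congrFun e j).trans (map_zero _).symm))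
  obtain ⟨j₀, a0, a⟩ := mx P.md ht hc (nz b hb)
  obtain ⟨j₁, a1, a'⟩ := mx P.md ht hc (nz b' hb')
  have t1 : 1 < v t := by
    rw [ht, ← WithZero.exp_zero, WithZero.exp_lt_exp]
    exact_mod_cast c0
  have t0 : v t ≠ 0 := (zero_lt_one.trans t1).ne'
  have mo : ∀ j j', Mo μ (d j + d j') (η j * η j') := fun j j' =>
    (hF A 𝒜 S μ hμ).mul _ _ _ _ (P.mo j) (P.mo j')
  have lo : ∀ j j', Lo μ ⊥ (d j + d j' + 1) (η j * η j') := fun j j' e he => (mo j j').2 e he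
  obtain ⟨l, m, e⟩ := (P.mem _).1 (mo j₀ j₁).1.1
  have z : ∀ j j' k, d j + d j' < N * k + d l → (η.repr (η j * η j') l).coeff k = 0 :=
    fun j j' k hk => (P.lo ⊥ _ _).1 (lo j j') l k hk
  let T : Fin N × Fin N → K := fun p => algebraMap A K (b p.1) * algebraMap A K (b' p.2) *
    aeval t (η.repr (η p.1 * η p.2) l)
  have q0 : v (aeval t (η.repr (η j₀ * η j₁) l)) = v t ^ m := ev_eq h t1 (by
    obtain ⟨x, y⟩ := (e ▸ mo j₀ j₁ : Mo μ (N * m + d l) _).1
    exact (P.top l m _ x (e ▸ lo j₀ j₁)).symm.trans y) fun k hk => z _ _ k (by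
      rw [e]
      exact Nat.add_lt_add_right (Nat.mul_lt_mul_of_pos_left hk (Nat.pos_of_neZero N)) _)
  have q1 : ∀ j j', v (aeval t (η.repr (η j * η j') l)) ^ N * v t ^ d l ≤
      v t ^ d j * v t ^ d j' := fun j j' => by
    by_cases e0 : η.repr (η j * η j') l = 0
    · simp [e0, NeZero.ne N]
    refine (mul_le_mul_left (pow_le_pow_left' (ev_le h t1 _) N) _).trans ?_
    rw [← pow_mul, ← pow_add, ← pow_add, mul_comm]
    exact pow_le_pow_right₀ t1.le (le_of_not_gt fun k => leadingCoeff_ne_zero.2 e0 (z _ _ _ k))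
  have w0 : v (T (j₀, j₁)) ^ N * v t ^ d l = v (algebraMap A K (b j₀)) ^ N * v t ^ d j₀ *
      (v (algebraMap A K (b' j₁)) ^ N * v t ^ d j₁) := by
    simp only [T, map_mul, mul_pow, q0]
    rw [mul_mul_mul_comm, ← pow_add, e, pow_add, mul_comm N, pow_mul, mul_assoc]
  have w1 : ∀ p, p ≠ (j₀, j₁) → v (T p) < v (T (j₀, j₁)) := fun p n => by
    refine lt_of_pow_lt_pow_left' N (lt_of_mul_lt_mul_right' (a := v t ^ d l) ?_)
    rw [w0]
    refine lt_of_le_of_lt (b := v (algebraMap A K (b p.1)) ^ N * v t ^ d p.1 *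
      (v (algebraMap A K (b' p.2)) ^ N * v t ^ d p.2)) ?_ ?_
    · simp only [T, map_mul, mul_pow]
      rw [mul_mul_mul_comm, mul_assoc]
      exact mul_le_mul_right (q1 _ _) _
    · by_cases e1 : p.1 = j₀
      · rw [e1]
        exact mul_lt_mul_of_pos_left ((a' _).2 fun e2 => n (Prod.ext e1 e2))
          (zero_lt_iff.2 (mul_ne_zero (pow_ne_zero _ a0) (pow_ne_zero _ t0)))
      · exact (mul_le_mul_right (a' _).1 _).trans_lt (mul_lt_mul_of_pos_right ((a _).2 e1)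
          (zero_lt_iff.2 (mul_ne_zero (pow_ne_zero _ a1) (pow_ne_zero _ t0))))
  have s : aeval t (η.repr ((∑ j, b j • η j) * ∑ j, b' j • η j) l) = ∑ p, T p := by
    rw [Finset.sum_mul_sum, ← Finset.sum_product', Finset.univ_product_univ, map_sum,
      Finsupp.finsetSum_apply, map_sum]
    refine Finset.sum_congr rfl fun p _ => ?_
    rw [smul_mul_smul_comm, ← algebraMap_smul A[X], map_smul, Finsupp.smul_apply, smul_eq_mul,
      map_mul, AlgHom.commutes, map_mul]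
  refine ⟨l, v.ne_zero_iff.1 ?_⟩
  rw [s, v.map_sum_eq_of_lt (Finset.mem_univ (j₀, j₁)) fun p hp => w1 p (by simpa using hp)]
  simp only [T, map_mul, q0]
  exact mul_ne_zero (mul_ne_zero a0 a1) (pow_ne_zero _ t0)

end Pool.Agent.MP_f3836a_nt.GV.M
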