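import Pool.Agent.MP_f3836a_nt.GV.SpecM2
import Pool.Agent.MP_f3836a_nt.GP.TNb

/-! Block Mod, row `Pole`: the degree of the divisor of poles. -/

set_option autoImplicit false

namespace Pool.Agent.MP_f3836a_nt.GV.M

open Polynomial NumberField PK VE.Z GP IntermediateField

namespace GMPole

theorem al : Al ℚ := fun c => IsLocalization.isAlgebraic ℚ (nonZeroDivisors ℤ) |>.isAlgebraic c

theorem ab {E F : Type} [Field E] [Field F] [Algebra E F] (hE : Fi E) {x : E} {O : Subring E}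
    (hO : Pl O) (hx : ∀ O', Pl O' → (x ∉ O' ↔ O' = O)) (P : Subring F) :
    Ab O P ↔ Pl P ∧ algebraMap E F x ∉ P := by
  constructor
  · rintro ⟨h1, rfl⟩
    refine ⟨⟨h1, fun n hn => ?_⟩, (hx _ hO).2 rfl⟩
    have := hO.2 n hn
    rwa [Subring.mem_comap, map_inv₀, map_natCast] at this
  · rintro ⟨h1, h2⟩
    have ho : Ho (P.comap (algebraMap E F)) := fun n hn => by
      rw [Subring.mem_comap, map_inv₀, map_natCast]
      exact h1.2 n hn
    refine ⟨h1.1, (hx _ ⟨hE.dvr _ (fun z => ?_) (fun e => h2 ?_) ho, ho⟩).1 h2⟩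
    · simpa only [Subring.mem_comap, map_inv₀] using (dvA h1.1).val (algebraMap E F z)
    · exact Subring.mem_comap.1 (e ▸ Subring.mem_top x)

theorem main (hFf : FfS) (hFin : GP.FinS) (hEf : EfS) (hP0 : P0S) (k F : Type) [Field k]
    [NumberField k] [Field F] [CharZero F] [Algebra k F] (t : F) (ha : Al k) (hF : GP.FG F)
    (h1 : Transcendental k t) [FiniteDimensional k⟮t⟯ F] :
    ∃ Z : Finset (Subring F), (∀ P, P ∈ Z ↔ Pl P ∧ t ∉ P) ∧
      ∑ P ∈ Z, -ordR P t * (dgK k P : ℤ) = Module.finrank k⟮t⟯ F := by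
  classical
  have h3 : Transcendental k (AdjoinSimple.gen k t) := fun h => h1 (isAlgebraic_iff.1 h)
  have h4 : k⟮AdjoinSimple.gen k t⟯ = ⊤ := lift_injective _ (by
    rw [lift_adjoin_simple, lift_top, AdjoinSimple.coe_gen])
  have h5 : GP.FG k⟮t⟯ := (hFf _).2.2 k _ inferInstance h3 (.of_surjective (Algebra.linearMap _ _)
    fun z => ⟨⟨z, h4 ▸ mem_top⟩, rfl⟩)
  have hE := hFin _ h5
  have hI := hFin F hF
  obtain ⟨O, hO, hx, ho⟩ := (hP0 k _ _ ha hE h3 h4).2.2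
  have t0 : t ≠ 0 := fun e => h1 (e ▸ isAlgebraic_zero)
  have x0 : AdjoinSimple.gen k t ≠ 0 := fun e => h3 (e ▸ isAlgebraic_zero)
  have h6 : ordR O (AdjoinSimple.gen k t)⁻¹ = 1 := by
    have := (ho X monic_X).1
    rw [aeval_X, natDegree_X] at this
    rw [← zpow_neg_one, (dvA hO.1.1).zpow _ _ x0, this]
    norm_num
  have hfin : {P | Pl P ∧ t ∉ P}.Finite := (hI.fin t).subset fun P hP =>
    ⟨hP.1, fun e => hP.2 (((dvA hP.1.1).mem t t0).2 e.ge)⟩
  have h7 := hEf k k⟮t⟯ F ha hE hI O _ hO.1 h6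
  rw [((tNb k _ ha hE).rat O hO).1, Nat.cast_one, mul_one] at h7
  refine ⟨hfin.toFinset, fun P => hfin.mem_toFinset, ?_⟩
  rw [← h7, finsum_cond_eq_sum_of_cond_iff (t := hfin.toFinset) _ fun _ => by
    rw [ab hE hO.1 hx, hfin.mem_toFinset]; rfl]
  refine Finset.sum_congr rfl fun P hP => ?_
  rw [map_inv₀, ← zpow_neg_one, AdjoinSimple.algebraMap_gen,
    (dvA (hfin.mem_toFinset.1 hP).1.1).zpow _ _ t0, neg_one_mul]

end GMPole

theorem mPole : OfPole := by
  intro hFf hFin hEf hP0 F _ _ t hF ht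
  have : Algebra.IsAlgebraic ℤ ℚ := ⟨GMPole.al⟩
  have := ((hFf F).2.1 hF).1 t ht
  exact GMPole.main hFf hFin hEf hP0 ℚ F t GMPole.al hF (ht.extendScalars ℚ)

end Pool.Agent.MP_f3836a_nt.GV.M
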