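import Pool.Agent.MP_f3836a_nt.GV.SpecM2
import Pool.Agent.MP_f3836a_nt.GP.TKer
import Pool.Agent.MP_f3836a_nt.GP.TNm

/-! Block Mod: a rational place after an extension of the constants. -/

set_option autoImplicit false

namespace Pool.Agent.MP_f3836a_nt.GV.M

open Polynomial NumberField PK VE.Z GP IntermediateField

theorem mRat : OfRat := by
  intro hF hI hN hB hS F _ _ G
  have I := hI F G
  obtain ⟨t, ht, -⟩ := id G
  obtain ⟨O, o, -⟩ := I.ex t ht
  let k := algebraicClosure ℚ F
  have al : ∀ z : F, IsAlgebraic ℤ z ↔ z ∈ k := fun z =>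
    (IsFractionRing.isAlgebraic_iff ℤ ℚ F).trans mem_algebraicClosure_iff.symm
  have := (dvA o.1).loc
  let e := GP.emb k O fun c => TNm.cmem o ((al _).2 c.2)
  let := (e.comp (algebraMap ℚ k)).toAlgebra
  have := I.fd O o
  have : NumberField k :=
    { to_finiteDimensional := FiniteDimensional.of_injective e.toRatAlgHom.toLinearMap e.injective }
  have hC : Cl k F :=
    ⟨fun c => (IsFractionRing.isAlgebraic_iff ℤ ℚ k).2 (Algebra.IsAlgebraic.isAlgebraic c),
      fun z hz => ⟨⟨z, (al z).1 hz⟩, rfl⟩⟩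
  obtain ⟨q, -, hq⟩ := TKer.ex_sp (hN k F hC.al I) o
  have := NumberField.of_module_finite k q.SplittingField
  obtain ⟨F', _, _, _, _, _, _, _, b1, b2, hC'⟩ := hB k q.SplittingField F hC
  have := charZero_of_injective_algebraMap (algebraMap F F').injective
  have G' := ((hF F).2.1 G).2 F' ‹_›
  obtain ⟨⟨O', o'⟩, r, -⟩ := hS k F F' hC.al I (hI F' G') _ O b1 b2 o (hq _ (SplittingField.splits q))
  exact ⟨q.SplittingField, F', _, ‹_›, _, ‹_›, ‹_›, algebraMap F F', O', G', hC', (r O' o').1⟩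

end Pool.Agent.MP_f3836a_nt.GV.M
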