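import Pool.Agent.MP_f3836a_nt.GV.SpecM2

/-! Block Mod: a function with exactly one pole. -/

set_option autoImplicit false

namespace Pool.Agent.MP_f3836a_nt.GV.M

open Polynomial NumberField PK VE.Z GP IntermediateField

namespace GMRie

variable {F : Type} [Field F]

theorem pow_mem {P : Subring F} (h : Dvr P) {π z : F} (π0 : π ≠ 0) (hπ : ordR P π = 1) {m : ℕ}
    (hm : (-ordR P z).toNat ≤ m) : π ^ m * z ∈ P := by
  by_cases z0 : z = 0
  · rw [z0, mul_zero]; exact P.zero_mem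
  have A := dvA h
  have e := A.zpow π m π0
  rw [zpow_natCast, hπ] at e
  rw [A.mem _ (mul_ne_zero (pow_ne_zero m π0) z0), A.mul _ _ (pow_ne_zero m π0) z0, e]
  omega

variable [CharZero F]

theorem span_mem (N : Nb ℚ F) {P : Subring F} (h : Pl P) {w : F} {s : Set F}
    (hs : ∀ z ∈ s, w * z ∈ P) : ∀ z ∈ Submodule.span ℚ s, w * z ∈ P := fun z hz => by
  induction hz using Submodule.span_induction with
  | mem z hz => exact hs z hz
  | zero => rw [mul_zero]; exact P.zero_mem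
  | add x y _ _ hx hy => rw [mul_add]; exact P.add_mem hx hy
  | smul c x _ hx =>
    rw [Algebra.smul_def, mul_left_comm]
    exact P.mul_mem (N.mem P h c) hx

theorem cut (hD : DimS) (N : Nb ℚ F) (π : Subring F → F) (a : Subring F → ℕ) (V : Submodule ℚ F)
    [FiniteDimensional ℚ V] (s : Finset (Subring F))
    (hs : ∀ P ∈ s, Pl P ∧ ordR P (π P) = 1 ∧ ∀ z ∈ V, π P ^ a P * z ∈ P) :
    ∃ W : Submodule ℚ F, W ≤ V ∧ (∀ P ∈ s, ∀ z ∈ W, z ∈ P) ∧
      Module.finrank ℚ V ≤ Module.finrank ℚ W + ∑ P ∈ s, a P * dgK ℚ P := by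
  classical
  induction s using Finset.induction_on with
  | empty => exact ⟨V, le_rfl, by simp, by simp⟩
  | insert P s hP ih =>
    obtain ⟨W, w1, w2, w3⟩ := ih fun Q hQ => hs Q (Finset.mem_insert_of_mem hQ)
    obtain ⟨p1, p2, p3⟩ := hs P (Finset.mem_insert_self _ _)
    obtain ⟨W', v1, v2, v3⟩ := hD ℚ F P (π P) (a P) W N p1 p2
      (Submodule.finiteDimensional_of_le w1) fun z hz => p3 z (w1 hz)
    refine ⟨W', v1.trans w1, fun Q hQ z hz => ?_, ?_⟩
    · rcases Finset.mem_insert.1 hQ with rfl | hQ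
      exacts [v2 z hz, w2 Q hQ z (v1 hz)]
    · rw [Finset.sum_insert hP]
      omega

theorem indep {t : F} (ht : Transcendental ℤ t) {ι : Type} {b : ι → F}
    (hb : LinearIndependent ℚ⟮t⟯ b) (r : ℕ) :
    LinearIndependent ℚ fun p : Fin (r + 1) × ι => t ^ (p.1 : ℕ) * b p.2 := by
  have h1 : Transcendental ℚ t := fun h => ht ((IsFractionRing.isAlgebraic_iff ℤ ℚ F).2 h)
  have h2 := ((basisMonomials ℚ).linearIndependent.map' (aeval t).toLinearMap
    (LinearMap.ker_eq_bot.2 (transcendental_iff_injective.1 h1))).comp (fun k : Fin (r + 1) => (k : ℕ))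
    Fin.val_injective
  have h3 : LinearIndependent ℚ fun k : Fin (r + 1) => AdjoinSimple.gen ℚ t ^ (k : ℕ) := by
    refine LinearIndependent.of_comp (ℚ⟮t⟯).val.toLinearMap ?_
    refine (congrArg (fun v : Fin (r + 1) → F => LinearIndependent ℚ v) ?_).mp h2
    funext k
    simp
  have e : (fun p : Fin (r + 1) × ι => t ^ (p.1 : ℕ) * b p.2) =
      fun p => AdjoinSimple.gen ℚ t ^ (p.1 : ℕ) • b p.2 := funext fun p => by simp [Algebra.smul_def]
  rw [e]
  exact linearIndependent_smul h3 hb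

end GMRie

open GMRie in
theorem mRie : OfRie := by
  intro hF hFi hN hP hD K F _ _ _ _ _ O' fg cl pl
  classical
  have fi := hFi F fg
  have NK := hN K F cl.al fi
  have NQ := hN ℚ F (fun c => (IsFractionRing.isAlgebraic_iff ℤ ℚ ℚ).2 (isAlgebraic_algebraMap c)) fi
  have hπ : ∀ P : Subring F, ∃ π : F, Pl P → π ≠ 0 ∧ ordR P π = 1 := fun P => by
    by_cases h : Pl P
    · exact (dvA h.1).uni.imp fun _ e _ => e
    · exact ⟨1, fun e => absurd e h⟩
  choose π hπ using hπ
  obtain ⟨t, t0, t1⟩ : ∃ t : F, t ≠ 0 ∧ ordR O' t = -1 := ⟨π O' ^ (-1 : ℤ),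
    zpow_ne_zero _ (hπ _ pl).1, by rw [(dvA pl.1).zpow _ _ (hπ _ pl).1, (hπ _ pl).2, mul_one]⟩
  have t2 : t ∉ O' := fun h => by
    have := ((dvA pl.1).mem t t0).1 h
    omega
  have tr : Transcendental ℤ t := fun h => by
    obtain ⟨c, e⟩ := cl.cl t h
    exact t2 (e ▸ NK.mem O' pl c)
  have := ((hF F).2.1 fg).1 t tr
  obtain ⟨Z, z1, z2⟩ := hP F t fg tr
  set n := Module.finrank ℚ⟮t⟯ F
  let b := Module.finBasis ℚ⟮t⟯ F
  let Y : Finset (Subring F) := Finset.univ.biUnion fun i => (fi.fin (b i)).toFinset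
  let e : Subring F → ℕ := fun P => (-ordR P t).toNat
  let c : Subring F → ℕ := fun P => ∑ i, (-ordR P (b i)).toNat
  have y1 : ∀ P ∈ Z ∪ Y, Pl P := fun P h => by
    rcases Finset.mem_union.1 h with h | h
    · exact ((z1 P).1 h).1
    · obtain ⟨i, -, h⟩ := Finset.mem_biUnion.1 h
      exact ((fi.fin (b i)).mem_toFinset.1 h).1
  have s1 : ∑ P ∈ Z, e P * dgK ℚ P = n := by
    have : ((∑ P ∈ Z, e P * dgK ℚ P : ℕ) : ℤ) = n := by
      rw [← z2, Nat.cast_sum]
      refine Finset.sum_congr rfl fun P h => ?_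
      have h1 := mt ((dvA ((z1 P).1 h).1.1).mem t t0).2 ((z1 P).1 h).2
      rw [Nat.cast_mul, Int.toNat_of_nonneg (by omega)]
    exact_mod_cast this
  have s2 : ∑ P ∈ (Z ∪ Y).erase O', e P * dgK ℚ P + 1 ≤ n := by
    have h1 := Finset.sum_erase_add (Z ∪ Y) (fun P => e P * dgK ℚ P)
      (Finset.mem_union_left _ ((z1 O').2 ⟨pl, t2⟩))
    rw [← Finset.sum_subset (f := fun P => e P * dgK ℚ P) Finset.subset_union_left fun P h h' => by
      have h1 := ((dvA (y1 P h).1).mem t t0).1 (by_contra fun k => h' ((z1 P).2 ⟨y1 P h, k⟩))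
      rw [show e P = 0 from Int.toNat_of_nonpos (by omega), zero_mul], s1] at h1
    have h2 : e O' = 1 := by simp [e, t1]
    have h3 := (NQ.con O' pl).1
    rw [h2, one_mul] at h1
    omega
  set c0 := ∑ P ∈ (Z ∪ Y).erase O', c P * dgK ℚ P
  set r := c0 + Module.finrank ℚ K
  have li := indep tr b.linearIndependent r
  have fd := FiniteDimensional.span_of_finite ℚ
    (Set.finite_range fun p : Fin (r + 1) × Fin n => t ^ (p.1 : ℕ) * b p.2)
  have key : ∀ P, Pl P → ∀ z ∈ Submodule.span ℚ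
      (Set.range fun p : Fin (r + 1) × Fin n => t ^ (p.1 : ℕ) * b p.2),
      π P ^ (r * e P + c P) * z ∈ P := fun P h => span_mem NQ h (by
    rintro _ ⟨⟨k, i⟩, rfl⟩
    obtain ⟨m, hm⟩ : ∃ m, r = k + m := Nat.exists_eq_add_of_le (Nat.lt_succ_iff.1 k.2)
    have a1 := pow_mem h.1 (hπ P h).1 (hπ P h).2 (le_refl (e P))
    have a2 := pow_mem h.1 (hπ P h).1 (hπ P h).2 (z := b i) (m := c P)
      (Finset.single_le_sum (f := fun i => (-ordR P (b i)).toNat) (fun _ _ => Nat.zero_le _)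
        (Finset.mem_univ i))
    have a3 : π P ∈ P := ((dvA h.1).mem _ (hπ P h).1).2 (by rw [(hπ P h).2]; exact zero_le_one)
    convert P.mul_mem (P.mul_mem (P.pow_mem a1 k) a2) (P.pow_mem a3 (m * e P)) using 1
    rw [show r * e P = k * e P + m * e P by rw [← add_mul, ← hm]]
    ring)
  obtain ⟨W, w1, w2, w3⟩ := cut hD NQ π (fun P => r * e P + c P) _ ((Z ∪ Y).erase O') fun P h =>
    have k := y1 P (Finset.mem_of_mem_erase h)
    ⟨k, (hπ P k).2, key P k⟩
  have ro : ∀ z ∈ W, Ro O' z := fun z hz P h ne => by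
    by_cases m : P ∈ Z ∪ Y
    · exact w2 P (Finset.mem_erase.2 ⟨ne, m⟩) z hz
    rw [Finset.mem_union, not_or] at m
    have a1 := ((dvA h.1).mem t t0).1 (by_contra fun k => m.1 ((z1 P).2 ⟨h, k⟩))
    have a2 : c P = 0 := Finset.sum_eq_zero fun i _ => by
      have : ordR P (b i) = 0 := by_contra fun k =>
        m.2 (Finset.mem_biUnion.2 ⟨i, Finset.mem_univ _, (fi.fin (b i)).mem_toFinset.2 ⟨h, k⟩⟩)
      simp [this]
    simpa [a2, show e P = 0 from Int.toNat_of_nonpos (by omega)] using key P h z (w1 hz)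
  by_contra hn
  have le : W ≤ LinearMap.range (algebraMap K F).toRatAlgHom.toLinearMap := fun z hz => by
    refine cl.cl z (by_contra fun k => ?_)
    obtain ⟨P, h, k⟩ := fi.ex z k
    by_cases e : P = O'
    · exact hn ⟨z, ro z hz, e ▸ k⟩
    · exact k (ro z hz P h e)
  have l1 := (Submodule.finrank_mono le).trans (LinearMap.finrank_range_le _)
  rw [finrank_span_eq_card li, Fintype.card_prod, Fintype.card_fin, Fintype.card_fin] at w3
  simp only [add_mul, Finset.sum_add_distrib, mul_assoc, ← Finset.mul_sum] at w3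
  have := Nat.mul_le_mul_left r s2
  change r * n + 1 * n ≤ _ + (_ + c0) at w3
  have r0 : r = c0 + Module.finrank ℚ K := rfl
  rw [mul_add] at this
  omega

end Pool.Agent.MP_f3836a_nt.GV.M
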