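import Pool.Agent.MP_f3836a_nt.GV.SpecM2

/-! Row Scl: the integral model. -/

set_option autoImplicit false

namespace Pool.Agent.MP_f3836a_nt.GV.M

open Polynomial NumberField PK VE.Z GP IntermediateField

namespace GMScl

theorem model {K F : Type} [Field K] [NumberField K] [Field F] [Algebra K F] {R : Subalgebra K F}
    {S : AddSubmonoid ℕ} (b : Module.Basis S K R) (h : FM b)
    (hi : ∀ e e' e'', IsIntegral ℤ (b.repr (b e * b e') e'')) :
    ∃ (𝒜 : Subalgebra (𝓞 K) F) (μ : Module.Basis S (𝓞 K) 𝒜), FM μ ∧ (∀ e, (μ e : F) = b e) ∧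
      (∀ z ∈ 𝒜, z ∈ R) ∧ ∀ z ∈ R, ∃ n : ℕ, n ≠ 0 ∧ (n : F) * z ∈ 𝒜 := by
  classical
  let φ := Finsupp.linearCombination (𝓞 K) fun e => (b e : F)
  have lc : ∀ c, φ c = b.repr.symm (c.mapRange (algebraMap (𝓞 K) K) (map_zero _)) := fun c => by
    induction c using Finsupp.induction_linear with
    | zero => simp
    | add c c' a a' => rw [map_add, a, a', Finsupp.mapRange_add (map_add _), map_add]; rfl
    | single e c => simp [φ]; rfl
  have inj : Function.Injective φ := fun c c' e => by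
    rw [lc, lc] at e
    exact Finsupp.mapRange_injective _ _ (FaithfulSMul.algebraMap_injective _ _)
      (b.repr.symm.injective (Subtype.ext e))
  have mem : ∀ g : R, (∀ e, IsIntegral ℤ (b.repr g e)) → (g : F) ∈ LinearMap.range φ := fun g hg =>
    ⟨Finsupp.onFinset (b.repr g).support (fun e => ⟨_, hg e⟩) fun e he =>
      Finsupp.mem_support_iff.2 fun e' => he (Subtype.ext e'), by
      rw [lc, Subtype.coe_inj, LinearEquiv.symm_apply_eq]; ext e; rfl⟩
  have one : φ (Finsupp.single 0 1) = 1 := by simp [φ, h.one]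
  have mul : ∀ x y, x ∈ LinearMap.range φ → y ∈ LinearMap.range φ → x * y ∈ LinearMap.range φ :=
    fun x y hx hy => by
      rw [Finsupp.range_linearCombination] at hx hy
      have := Submodule.mul_mem_mul hx hy
      rw [Submodule.span_mul_span] at this
      refine Submodule.span_le.2 ?_ this
      rintro _ ⟨_, ⟨e, rfl⟩, _, ⟨e', rfl⟩, rfl⟩
      exact mem (b e * b e') (hi e e')
  let 𝒜 := (LinearMap.range φ).toSubalgebra ⟨_, one⟩ mul
  let μ : Module.Basis S (𝓞 K) 𝒜 := .ofRepr (LinearEquiv.ofInjective φ inj).symm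
  have h1 : ∀ e, (μ e : F) = b e := fun e =>
    show φ (Finsupp.single e 1) = _ by simp [φ]
  have h2 : ∀ d d' e, algebraMap _ K (μ.repr (μ d * μ d') e) = b.repr (b d * b d') e := by
    intro d d' e
    have k : φ (μ.repr (μ d * μ d')) = (b d * b d' : R) := by
      rw [Subalgebra.coe_mul, ← h1, ← h1]
      exact congrArg Subtype.val ((LinearEquiv.ofInjective φ inj).apply_symm_apply (μ d * μ d'))
    rw [lc, Subtype.coe_inj, LinearEquiv.symm_apply_eq] at k
    rw [← k]; rfl
  have ia := FaithfulSMul.algebraMap_injective (𝓞 K) K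
  refine ⟨𝒜, μ, ⟨h.cof, Subtype.ext one, fun d d' => ia ?_, fun d d' e k => ia ?_⟩, h1, ?_,
    fun z hz => ?_⟩
  · rw [h2, h.top, map_one]
  · rw [h2, h.low _ _ _ k, map_zero]
  · rintro _ ⟨c, rfl⟩
    exact lc c ▸ SetLike.coe_mem _
  · obtain ⟨y, y0, hy⟩ := exists_integral_multiples ℤ ℚ
      ((b.repr ⟨z, hz⟩).support.image (b.repr ⟨z, hz⟩))
    refine ⟨y.natAbs * y.natAbs, by simpa using y0, ?_⟩
    have := mem (y • y • ⟨z, hz⟩) fun e => by
      rw [map_zsmul, map_zsmul]
      by_cases k : e ∈ (b.repr ⟨z, hz⟩).support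
      · exact (hy _ (Finset.mem_image_of_mem _ k)).smul y
      · simpa [Finsupp.notMem_support_iff.1 k] using isIntegral_zero
    rw [← Int.cast_natCast, Int.natAbs_mul_self]
    simpa [mul_assoc, 𝒜] using this

end GMScl

theorem mScl : SclS := by
  intro K F _ _ _ _ R S ν D h D0 hi
  have hD : (D : K) ≠ 0 := Nat.cast_ne_zero.2 D0
  let b := ν.unitsSMul fun e => Units.mk0 (D : K) hD ^ (e : ℕ)
  have h1 : ∀ e, b e = (D : K) ^ (e : ℕ) • ν e := fun e => by
    simp [b, Module.Basis.unitsSMul_apply, Units.smul_def]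
  have h2 : ∀ d d' e : S, b.repr (b d * b d') e =
      (D : K) ^ ((d : ℕ) + d') / D ^ (e : ℕ) * ν.repr (ν d * ν d') e := fun d d' e => by
    rw [h1, h1]
    simp [b, Module.Basis.repr_unitsSMul, Units.smul_def]
    ring
  have hb : FM b := ⟨h.cof, by simp [h1, h.one], fun d d' => by simp [h2, h.top, hD],
    fun d d' e k => by rw [h2, h.low _ _ _ k, mul_zero]⟩
  obtain ⟨𝒜, μ, a1, a2, a3⟩ := GMScl.model b hb fun d d' e => by
    rcases lt_trichotomy ((d : ℕ) + d') e with k | k | k
    · rw [hb.low _ _ _ k]; exact isIntegral_zero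
    · rw [show e = d + d' from Subtype.ext k.symm, hb.top]; exact isIntegral_one
    · obtain ⟨m, e'⟩ := Nat.exists_eq_add_of_lt k
      have := (hi d d' e).nsmul (D ^ m)
      rw [h2, e']
      convert this using 1
      simp [pow_add]
      field_simp
  exact ⟨𝒜, μ, a1, fun e => by simp [a2, h1, Algebra.smul_def], a3⟩

end Pool.Agent.MP_f3836a_nt.GV.M
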