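import Pool.Agent.MP_f3836a_nt.GV.SpecM2

/-! Block Mod: the trace form of a domain, and fibres without real points. -/

set_option autoImplicit false

namespace Pool.Agent.MP_f3836a_nt.GV.M

open Polynomial NumberField PK VE.Z GP IntermediateField

theorem mSep : SepS := by
  intro R 𝒜 _ _ _ _ _ _ n y h
  obtain ⟨c, hc, e⟩ := Matrix.exists_vecMul_eq_zero_iff.2 h
  have hg : ∑ i, c i • y i ≠ 0 := fun h0 =>
    hc (funext (Fintype.linearIndependent_iff.1 y.linearIndependent c h0))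
  have := Module.Finite.of_basis y
  obtain ⟨g, d, hd, k⟩ := Algebra.IsAlgebraic.exists_smul_eq_mul R (1 : 𝒜) hg
  have z : Algebra.trace R 𝒜 ∘ₗ LinearMap.mul R 𝒜 (∑ i, c i • y i) = 0 := y.ext fun j => by
    simpa [Matrix.vecMul, dotProduct, Finset.sum_mul, Algebra.trace_eq_matrix_trace y]
      using congrFun e j
  have w := LinearMap.congr_fun z g
  rw [LinearMap.comp_apply, LinearMap.mul_apply', ← k, ← Algebra.algebraMap_eq_smul_one,
    Algebra.trace_algebraMap_of_basis y, LinearMap.zero_apply, nsmul_eq_mul] at w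
  have := y.index_nonempty
  exact mul_ne_zero (Nat.cast_ne_zero.2 Fintype.card_ne_zero) hd w

theorem mNre : NreS := by
  rintro 𝒜 _ _ n _ T y y0 hT ⟨ι, hι⟩ t s ⟨s0, hs⟩
  let _ : Algebra ℤ[X] ℝ := (aeval t : ℤ[X] →ₐ[ℤ] ℝ).toRingHom.toAlgebra
  let φ : 𝒜 →ₗ[ℤ[X]] ℝ := y.constr ℤ[X] s
  have m : ∀ a b, φ (a * b) = φ a * φ b := (LinearMap.map_mul_iff φ).2
    (y.ext fun i => y.ext fun j => by
      have : φ (y i * y j) = s i * s j := by
        rw [hs, y.constr_apply_fintype ℤ[X]]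
        refine Finset.sum_congr rfl fun l _ => ?_
        rw [Tb.fib, Matrix.map_apply, hT, Algebra.leftMulMatrix_eq_repr_mul]
        rfl
      simpa [φ] using this)
  have o : φ 1 = 1 := by rw [← y0, y.constr_basis, s0]
  have := m ι ι
  rw [← sq, hι, map_neg, o] at this
  nlinarith [mul_self_nonneg (φ ι)]

end Pool.Agent.MP_f3836a_nt.GV.M
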