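import Pool.Agent.MP_f3836a_nt.GV.SpecM2

/-! Block Mod: the table of a model. -/

set_option autoImplicit false

namespace Pool.Agent.MP_f3836a_nt.GV.M

open Polynomial NumberField PK VE.Z GP IntermediateField

theorem mTab : OfTab := by
  intro hA hY hO hK hF hN hV hR K 𝒜 _ _ _ _ _ S μ N hμ hx hp hN2 hi
  have : NeZero N := ⟨hp.ne_zero⟩
  let _ : Algebra (𝓞 K)[X] 𝒜 := (aeval (algebraMap ℤ[X] 𝒜 X)).toRingHom.toAlgebra
  have : IsScalarTower (𝓞 K) (𝓞 K)[X] 𝒜 :=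
    IsScalarTower.of_algebraMap_eq fun a => (aeval_C _ a).symm
  have ex : algebraMap ℤ[X] 𝒜 X = algebraMap (𝓞 K)[X] 𝒜 X := (aeval_X _).symm
  obtain ⟨d, η, P⟩ := hA.get hμ (ex ▸ hx)
  obtain ⟨⟨s, ω, ω0, hs⟩, h2⟩ := hO K
  obtain ⟨⟨r, hr⟩, i, hi⟩ := h2 hi
  let ε : Fin ((s + 1) * N) ≃ Fin (s + 1) × Fin N := finProdFinEquiv.symm
  have ε0 : ε 0 = (0, 0) := (Equiv.symm_apply_eq _).2 (Fin.ext (by simp))
  obtain ⟨y, y1, y2, y3⟩ := hY _ 𝒜 (s + 1) N _ ω η ε ex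
  have y0 : y 0 = 1 := by rw [y1, ε0, ω0, one_smul, P.one]
  obtain ⟨T, t1, t2, t3⟩ := hK _ 𝒜 S μ N _ y (fun i => d (ε i).2) hμ hp.pos hx y0
    (by rw [ε0]; exact P.d0) fun E g => (P.lo ⊥ E g).trans ⟨fun h i k e => by
      rw [y2, Ideal.mem_bot.1 (h _ k e), map_zero, Finsupp.zero_apply], fun h j k e =>
      Ideal.mem_bot.2 (ω.ext_elem fun a => by
        simpa [y2] using h (ε.symm (a, j)) k (by simpa using e))⟩
  refine ⟨_, r * N, inferInstance, T, y, hμ, hx, by rw [hs, hr]; ring, hp.two_le, y0, t1, t2, t3,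
    fun a k ha hk h2 hn => ?_,
    hR 𝒜 _ T y y0 t1 ⟨algebraMap _ _ i, by rw [← map_pow, hi, map_neg, map_one]⟩⟩
  have k0 : (k : K) ≠ 0 := Nat.cast_ne_zero.2 hk.ne'
  refine hF 𝒜 K _ T y a _ (a / (k : K) ^ 2) t2 t1 (by positivity)
    (by push_cast; field_simp) fun β γ hβ hγ => ?_
  obtain ⟨v, e, e0, e1, v1, v2⟩ := hV K
  let b : (Fin ((s + 1) * N) → ℤ) → Fin N → 𝓞 K := fun β j => ∑ a, β (ε.symm (a, j)) • ω a
  have b1 : ∀ β, ∑ i, β i • y i = ∑ j, b β j • η j := fun β => by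
    rw [← ε.symm.sum_comp, Fintype.sum_prod_type_right]
    simp only [b, y1, Finset.sum_smul, smul_assoc, Equiv.apply_symm_apply]
  have b0 : ∀ β, β ≠ 0 → b β ≠ 0 := fun β h h' => h (funext fun i => by
    simpa using Fintype.linearIndependent_iff.1 ω.linearIndependent _ (congrFun h' (ε i).2) (ε i).1)
  obtain ⟨l, hl⟩ := hN _ K 𝒜 S μ N d η v _ _ hμ P (RingOfIntegers.coe_injective) v1 (v2 a k ha hk)
    (mul_pos (by omega) (Nat.prime_two.factorization_pos_of_dvd hk.ne' h2))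
    ((hp.coprime_iff_not_dvd.2 fun h => (hp.dvd_mul.1 h).elim
      (fun h => by have := Nat.le_of_dvd (by omega) h; omega) hn).symm) _ _ (b0 β hβ) (b0 γ hγ)
  by_contra c
  push Not at c
  refine hl ?_
  rw [← b1, ← b1, y3, map_sum]
  refine Finset.sum_eq_zero fun a _ => ?_
  rw [map_mul, ← algebraMap_int_eq, aeval_map_algebraMap, c, mul_zero]

end Pool.Agent.MP_f3836a_nt.GV.M
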