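import Pool.Agent.MP_f3836a_nt.GV.SpecM2

/-! Block Mod: the fibre is a field. -/

set_option autoImplicit false

namespace Pool.Agent.MP_f3836a_nt.GV.M

open Polynomial NumberField PK VE.Z GP IntermediateField

namespace GMTfl

theorem ne {n : ℕ} {b : ℤ} (hb : b ≠ 0) (e : Fin n → ℕ) {β : Fin n → ℤ} (h : β ≠ 0) :
    (fun i => b ^ e i * β i) ≠ 0 := fun c => h (funext fun i =>
  (mul_eq_zero.1 (congrFun c i)).resolve_left (pow_ne_zero _ hb))

end GMTfl

theorem mTfl : OfTfl := by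
  intro hT 𝒜 R _ _ _ _ n _ T y a b t hok hM hb hab h β hβ h0
  obtain ⟨γ, hγ, hv⟩ := Matrix.exists_mulVec_eq_zero_iff.2 h0
  obtain ⟨l, hl⟩ := h _ _ (GMTfl.ne hb T.e hβ) (GMTfl.ne hb T.e hγ)
  have h1 := ((hT n T a b hok).1 R t hab).1
  have h2 : ∑ i, ∑ j, (β i : R) * (T.Mh a b i l j : R) * γ j = 0 := by
    have := congrArg (Int.cast : ℤ → R) (congrFun hv l)
    simp only [Mx, Matrix.mulVec, dotProduct, Matrix.sum_apply, Matrix.smul_apply, smul_eq_mul,
      Finset.sum_mul, Pi.zero_apply] at this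
    push_cast at this
    rw [Finset.sum_comm]
    exact this
  have h3 : ∀ i j, aeval t (y.repr (y i * y j) l) = T.fib t i l j := fun i j => by
    rw [Tb.fib, hM, Matrix.map_apply, Algebra.leftMulMatrix_eq_repr_mul]
  apply hl
  rw [← mul_zero ((b : R) ^ T.e l), ← h2]
  simp only [Finset.sum_mul, Finset.mul_sum, smul_mul_smul_comm, map_sum, map_zsmul,
    Finsupp.finsetSum_apply, Finsupp.smul_apply, h3]
  rw [Finset.sum_comm]
  refine Finset.sum_congr rfl fun i _ => Finset.sum_congr rfl fun j _ => ?_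
  rw [zsmul_eq_mul]
  push_cast
  linear_combination (-(β i : R) * γ j) * h1 i l j

end Pool.Agent.MP_f3836a_nt.GV.M
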