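import Pool.Agent.MP_f3836a_nt.GV.SpecM2

/-! The table of a basis with given pole orders. -/

set_option autoImplicit false

namespace Pool.Agent.MP_f3836a_nt.GV.M

open Polynomial NumberField PK VE.Z GP IntermediateField

namespace GMTok

theorem mo_iff {A 𝒜 : Type} [CommRing A] [CommRing 𝒜] [Algebra A 𝒜] {S : AddSubmonoid ℕ}
    {μ : Module.Basis S A 𝒜} (h : FmA μ) {d : ℕ} {f : 𝒜} (hf : Mo μ d f) (g : 𝒜) :
    Mo μ d g ↔ Lo μ ⊥ d (g - f) := by
  refine ⟨fun hg e he => ?_, fun hg => by simpa using h.add _ _ _ hf hg⟩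
  rw [map_sub, Finsupp.sub_apply, Ideal.mem_bot, sub_eq_zero]
  rcases he.eq_or_lt with he | he
  · obtain ⟨e, _⟩ := e
    obtain rfl : d = e := he
    exact hg.1.2.trans hf.1.2.symm
  · exact (hg.2 e he).trans (hf.2 e he).symm

theorem monic_iff (P : ℤ[X]) (m : ℕ) :
    (∀ k, m ≤ k → (P - X ^ m).coeff k = 0) ↔ P.Monic ∧ P.natDegree = m := by
  simp only [coeff_sub, coeff_X_pow, sub_eq_zero]
  constructor
  · intro h
    have := (isMonicOfDegree_iff P m).2 ⟨natDegree_le_iff_coeff_eq_zero.2 fun k hk => by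
      rw [h k hk.le, if_neg hk.ne'], by rw [h m le_rfl, if_pos rfl]⟩
    exact ⟨this.monic, this.natDegree_eq⟩
  · rintro ⟨h1, rfl⟩ k hk
    split_ifs with c
    · rw [c, h1.coeff_natDegree]
    · exact coeff_eq_zero_of_natDegree_lt (lt_of_le_of_ne hk (Ne.symm c))

theorem single {n : ℕ} (i l : Fin n) {k : ℕ} (h : i = l → k ≠ 0) :
    ((Finsupp.single i (1 : ℤ[X])) l).coeff k = 0 := by
  rw [Finsupp.single_apply]
  split_ifs with c
  · rw [coeff_one, if_neg (h c)]
  · rfl

end GMTok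

open GMTok in
theorem mTok : OfTok := by
  intro hF hW hS A 𝒜 _ _ _ _ _ S μ N n _ y D hμ hN hx y0 D0 hd
  have fa := hF A 𝒜 S μ hμ
  have := fa.dom ‹_›
  obtain ⟨e, he⟩ : ∃ e : Fin n → ℕ, e = fun i => if i = 0 then 0 else D i / N + 1 := ⟨_, rfl⟩
  have e0 : e 0 = 0 := by simp [he]
  have e1 : ∀ i, i ≠ 0 → e i = D i / N + 1 := fun i hi => by simp [he, hi]
  have e2 : ∀ i, i ≠ 0 → D i + 1 ≤ N * e i := fun i hi => by
    rw [e1 i hi]
    exact Nat.lt_mul_div_succ _ hN
  have e3 : ∀ i, N * e i ≤ D i + N := fun i => by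
    by_cases hi : i = 0
    · rw [hi, e0]
      exact Nat.zero_le _
    · rw [e1 i hi, mul_add, mul_one]
      exact Nat.add_le_add_right (Nat.mul_div_le _ _) _
  have l1 : ∀ i, Lo μ ⊥ (D i + 1) (y i) := fun i => (hd _ _).2 fun l k hk => by
    rw [y.repr_self]
    refine single i l ?_
    rintro rfl rfl
    omega
  have l2 : ∀ i j l k, D i + (D j + 1) ≤ N * k + D l →
      (Algebra.leftMulMatrix y (y i) l j).coeff k = 0 := fun i j l k hk => by
    rw [Algebra.leftMulMatrix_eq_repr_mul]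
    exact (hd _ _).1 (fa.low _ _ _ _ _ (l1 i) (l1 j)) l k hk
  have xm : ∀ m j l, y.repr (algebraMap ℤ[X] 𝒜 X ^ m * y j) l = if j = l then X ^ m else 0 :=
    fun m j l => by
      rw [← map_pow, ← Algebra.smul_def, map_smul, y.repr_self, Finsupp.smul_apply,
        Finsupp.single_apply, smul_eq_mul, mul_ite, mul_one, mul_zero]
  have mon : ∀ m g, Mo μ (N * m) g ↔
      (⟨fun i => Algebra.leftMulMatrix y (y i), e⟩ : Tb n).Mon m (y.repr g) := fun m g => by
    have x0 := xm m 0
    rw [y0, mul_one] at x0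
    rw [mo_iff fa (fa.pow _ _ m hx), hd, Tb.Mon, ← and_assoc, ← monic_iff]
    simp only [map_sub, Finsupp.sub_apply, x0]
    have k1 : ∀ i k, i ≠ 0 → (N * m ≤ N * k + D i ↔ m < k + e i) := fun i k hi => by
      rw [e1 i hi, ← add_assoc, Nat.lt_succ_iff, ← Nat.mul_add_div hN, Nat.le_div_iff_mul_le hN,
        mul_comm]
    constructor
    · refine fun h => ⟨fun k hk => ?_, fun i hi k hk => ?_⟩
      · simpa using h 0 k ((Nat.mul_le_mul_left N hk).trans (Nat.le_add_right _ _))
      · simpa [hi.symm] using h i k ((k1 i k hi).2 hk)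
    · intro h i k hk
      by_cases hi : i = 0
      · subst hi
        rw [D0, add_zero] at hk
        simpa using h.1 k (Nat.le_of_mul_le_mul_left hk hN)
      · simpa [Ne.symm hi] using h.2 i hi k ((k1 i k hi).1 hk)
  refine ⟨⟨fun i => Algebra.leftMulMatrix y (y i), e⟩, fun _ => rfl,
    ⟨⟨𝒜, _, _, y, y0, fun _ => rfl⟩, e0, fun i hi => ?_, fun i l j d h => ?_, fun i j hi hj => ?_,
      fun m B hB => ?_, hS _ 𝒜 n y⟩, mon⟩
  · exact (e1 i hi).ge.trans' (Nat.le_add_left _ _)
  · change e i + e j < d + e l at h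
    change (Algebra.leftMulMatrix y (y i) l j).coeff d = 0
    by_cases hi : i = 0
    · rw [Algebra.leftMulMatrix_eq_repr_mul, hi, y0, one_mul, y.repr_self]
      refine single j l ?_
      rintro rfl
      omega
    by_cases hj : j = 0
    · rw [Algebra.leftMulMatrix_eq_repr_mul, hj, y0, mul_one, y.repr_self]
      refine single i l ?_
      rintro rfl
      omega
    refine l2 i j l d ?_
    have h1 := Nat.mul_le_mul_left N (Nat.succ_le_of_lt h)
    have h2 := e2 i hi
    have h3 := e2 j hj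
    have h4 := e3 l
    rw [Nat.mul_succ, mul_add, mul_add] at h1
    omega
  · refine l2 i j 0 (e i + e j) ?_
    have h2 := e2 i hi
    have h3 := e2 j hj
    rw [mul_add]
    omega
  · have hg : Lo μ ⊥ (N * m) (∑ i, B i • y i - algebraMap ℤ[X] 𝒜 X ^ m) :=
      (mo_iff fa (fa.pow _ _ m hx) _).1 ((mon m _).2 (by rwa [y.repr_sum_self]))
    have hm : Mx (fun i => Algebra.leftMulMatrix y (y i)) B =
        Algebra.leftMulMatrix y (∑ i, B i • y i) := by
      simp only [Mx, map_sum, map_smul]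
    have := hW ℤ n N m D (Algebra.leftMulMatrix y (∑ i, B i • y i)) hN fun l j k hk => by
      have h1 := (hd _ _).1 (fa.low _ _ _ _ _ (l1 j) hg) l k (by omega)
      rw [mul_comm, sub_mul, map_sub, Finsupp.sub_apply, coeff_sub, sub_eq_zero, xm] at h1
      rw [Algebra.leftMulMatrix_eq_repr_mul, h1]
      by_cases c : j = l
      · simp [c, coeff_X_pow]
      · simp [c, Ne.symm c]
    rw [← hm] at this
    exact ⟨this.monic, this.natDegree_eq⟩

end Pool.Agent.MP_f3836a_nt.GV.M
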