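import Pool.Agent.MP_f3836a_nt.GV.SpecM2

/-! Block Mod, row Ty: the basis over the integer polynomials. -/

set_option autoImplicit false

namespace Pool.Agent.MP_f3836a_nt.GV.M

open Polynomial NumberField PK VE.Z GP IntermediateField

namespace GMTy

theorem co {A : Type} [CommRing A] {s : ℕ} (ω : Module.Basis (Fin s) ℤ A) (r : Fin s → ℤ[X])
    (k : ℕ) (a : Fin s) :
    ω.repr ((∑ b, C (ω b) * (r b).map (Int.castRingHom A)).coeff k) a = (r a).coeff k := by
  have : (∑ b, C (ω b) * (r b).map (Int.castRingHom A)).coeff k = ∑ b, (r b).coeff k • ω b := by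
    rw [finsetSum_coeff]
    refine Finset.sum_congr rfl fun b _ => ?_
    rw [coeff_C_mul, coeff_map, zsmul_eq_mul, mul_comm]
    rfl
  rw [this, ω.repr_sum_self]

theorem ex {A : Type} [CommRing A] {s : ℕ} (ω : Module.Basis (Fin s) ℤ A) (p : A[X]) (a : Fin s) :
    ∃ q : ℤ[X], ∀ k, q.coeff k = ω.repr (p.coeff k) a := by
  refine ⟨∑ k ∈ p.support, monomial k (ω.repr (p.coeff k) a), fun k => ?_⟩
  rw [finsetSum_coeff]
  simp only [coeff_monomial, Finset.sum_ite_eq']
  split_ifs with h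
  · rfl
  · rw [notMem_support_iff.1 h]; simp

theorem rep {A 𝒜 : Type} [CommRing A] [CommRing 𝒜] [Algebra A 𝒜] [Algebra A[X] 𝒜]
    [IsScalarTower A A[X] 𝒜] [Algebra ℤ[X] 𝒜] {s N n : ℕ} (ω : Module.Basis (Fin s) ℤ A)
    (η : Module.Basis (Fin N) A[X] 𝒜) (ε : Fin n ≃ Fin s × Fin N)
    (h : algebraMap ℤ[X] 𝒜 X = algebraMap A[X] 𝒜 X) (q : Fin n → ℤ[X]) (j : Fin N) :
    η.repr (∑ i, q i • (ω (ε i).1 • η (ε i).2)) j =
      ∑ a, C (ω a) * (q (ε.symm (a, j))).map (Int.castRingHom A) := by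
  have h1 : algebraMap ℤ[X] 𝒜 = (algebraMap A[X] 𝒜).comp (mapRingHom (Int.castRingHom A)) := by
    refine Polynomial.ringHom_ext (fun a => ?_) (by simpa using h)
    simp
  have h2 : ∀ i, q i • (ω (ε i).1 • η (ε i).2) =
      (C (ω (ε i).1) * (q i).map (Int.castRingHom A)) • η (ε i).2 := fun i => by
    rw [mul_comm, mul_smul, Algebra.smul_def (q i), h1, Algebra.smul_def ((q i).map _),
      ← algebraMap_eq, algebraMap_smul]
    rfl
  simp only [h2]
  rw [← ε.symm.sum_comp, Fintype.sum_prod_type_right]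
  simp only [Equiv.apply_symm_apply, ← Finset.sum_smul]
  rw [η.repr_sum_self]

end GMTy

theorem mTy : TyS := by
  intro A 𝒜 _ _ _ _ _ _ s N n ω η ε h
  have li : LinearIndependent ℤ[X] fun i => ω (ε i).1 • η (ε i).2 := by
    refine Fintype.linearIndependent_iff.2 fun q hq i => ?_
    ext k
    have h1 := GMTy.rep ω η ε h q (ε i).2
    have h2 := GMTy.co ω (fun a => q (ε.symm (a, (ε i).2))) k (ε i).1
    rw [← h1, hq] at h2
    simpa using h2.symm
  have sp : ⊤ ≤ Submodule.span ℤ[X] (Set.range fun i => ω (ε i).1 • η (ε i).2) := by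
    intro g _
    choose q hq using fun i => GMTy.ex ω (η.repr g (ε i).2) (ε i).1
    refine (Submodule.mem_span_range_iff_exists_fun _).2 ⟨q, η.ext_elem fun j => ?_⟩
    rw [GMTy.rep ω η ε h]
    ext k
    refine ω.ext_elem fun a => ?_
    rw [GMTy.co ω (fun a => q (ε.symm (a, j))), hq]
    simp
  have key : ∀ g j, η.repr g j = ∑ a, C (ω a) *
      ((Module.Basis.mk li sp).repr g (ε.symm (a, j))).map (Int.castRingHom A) := fun g j => by
    rw [← GMTy.rep ω η ε h (fun i => (Module.Basis.mk li sp).repr g i) j]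
    have := (Module.Basis.mk li sp).sum_repr g
    simp only [Module.Basis.mk_apply] at this
    rw [this]
  refine ⟨Module.Basis.mk li sp, fun i => Module.Basis.mk_apply _ _ _, fun g i k => ?_, key⟩
  rw [key, GMTy.co ω (fun a => (Module.Basis.mk li sp).repr g (ε.symm (a, (ε i).2)))]
  simp

end Pool.Agent.MP_f3836a_nt.GV.M
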