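import Pool.Agent.MP_f3836a_nt.GV.SpecM2

/-! A prime over two and an integral basis which starts with one. -/

set_option autoImplicit false

namespace Pool.Agent.MP_f3836a_nt.GV.M

open Polynomial NumberField PK VE.Z GP IntermediateField

theorem mVl : VlS := by
  intro K _ _
  have hn : (Ideal.span {((2 : ℕ) : 𝓞 K)}).absNorm = 2 ^ Module.finrank ℚ K := by
    rw [Ideal.absNorm_span_natCast, RingOfIntegers.rank]
  obtain ⟨I, hI, h1⟩ := Ideal.exists_le_maximal (Ideal.span {((2 : ℕ) : 𝓞 K)}) fun e => by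
    rw [e, Ideal.absNorm_top] at hn
    exact (Nat.one_lt_two_pow Module.finrank_pos.ne').ne hn
  have h2 := h1 (Ideal.mem_span_singleton_self _)
  have h0 : ((2 : ℕ) : 𝓞 K) ≠ 0 := Nat.cast_ne_zero.2 two_ne_zero
  let p : IsDedekindDomain.HeightOneSpectrum (𝓞 K) :=
    ⟨I, hI.isPrime, fun e => h0 (Ideal.mem_bot.1 (e ▸ h2))⟩
  have h3 : p.valuation K 2 < 1 := (p.valuation_lt_one_iff_mem (K := K) _).2 h2
  have h4 := WithZero.exp_log ((p.valuation K).ne_zero_iff.2 (two_ne_zero' K))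
  obtain ⟨e, he⟩ := Int.eq_ofNat_of_zero_le (a := -WithZero.log (p.valuation K 2))
    (neg_nonneg.2 (WithZero.exp_lt_exp.1 (h4.trans_lt h3)).le)
  rw [neg_eq_iff_eq_neg.1 he] at h4
  have h5 : ∀ a : ℤ, Odd a → p.valuation K a = 1 := by
    rintro _ ⟨b, rfl⟩
    rw [add_comm, Int.cast_add, Int.cast_one, Int.cast_mul, Int.cast_two]
    refine Valuation.map_one_add_of_lt _ ?_
    rw [map_mul]
    exact (mul_le_of_le_one_right' (p.valuation_le_one (K := K) (b : 𝓞 K))).trans_lt h3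
  refine ⟨p.valuation K, e, ?_, ?_, p.valuation_le_one, fun a k ha hk => ?_⟩
  · simpa using WithZero.exp_lt_exp.1 (h4.trans_lt h3)
  · have h6 := map_dvd Ideal.absNorm ((p.intValuation_le_pow_iff_dvd _ e).1
      ((p.valuation_of_algebraMap (K := K) ((2 : ℕ) : 𝓞 K)).symm.trans h4.symm).le)
    rw [hn, map_pow] at h6
    exact (Nat.pow_le_pow_iff_right one_lt_two).1 ((Nat.pow_le_pow_left
      ((Nat.two_le_iff _).2 ⟨mt Ideal.absNorm_eq_zero_iff.1 p.ne_bot,
        mt Ideal.absNorm_eq_one_iff.1 hI.ne_top⟩) e).trans (Nat.le_of_dvd (by positivity) h6))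
  · obtain ⟨j, m, hm, rfl⟩ := Nat.exists_eq_two_pow_mul_odd hk.ne'
    have h6 := h5 m hm.natCast
    rw [Int.cast_natCast] at h6
    rw [Nat.factorization_mul (by positivity) hm.pos.ne', Nat.prime_two.factorization_pow,
      Finsupp.add_apply, Finsupp.single_eq_same,
      Nat.factorization_eq_zero_of_not_dvd hm.not_two_dvd_nat, map_div₀, h5 a ha, map_pow,
      Nat.cast_mul, map_mul, h6, mul_one, Nat.cast_pow, map_pow, Nat.cast_two, ← h4,
      ← WithZero.exp_nsmul, ← WithZero.exp_nsmul, one_div, ← WithZero.exp_neg]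
    congr 1
    simp [mul_comm, mul_left_comm, mul_assoc]

theorem mOm : OmS := by
  intro K _ _
  refine ⟨?_, fun ⟨i, hi⟩ => ⟨?_, ⟨i, IsIntegral.of_pow two_pos (hi ▸ isIntegral_one.neg)⟩,
    Subtype.ext hi⟩⟩
  · let b := RingOfIntegers.basis K
    obtain ⟨d, hd⟩ := (IsPrincipalIdealRing.principal
      (LinearMap.range (Module.Dual.eval ℤ (𝓞 K) 1))).principal
    choose u hu using fun i => Ideal.mem_span_singleton'.1 (hd.le ⟨b.coord i, rfl⟩)
    have h1 : IsUnit d := (isUnit_map_iff (algebraMap ℤ (𝓞 K)) d).1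
      (.of_mul_eq_one (∑ i, u i • b i) (by
        rw [← Algebra.smul_def, Finset.smul_sum, ← b.sum_repr 1]
        exact Finset.sum_congr rfl fun i _ => by rw [smul_smul, mul_comm, hu]; rfl))
    obtain ⟨ρ, h2⟩ := hd.ge ((Ideal.eq_top_iff_one _).1 (Ideal.span_singleton_eq_top.2 h1))
    replace h2 : ∀ z : ℤ, ρ (z • 1) = z := fun z => by
      rw [map_smul, show ρ 1 = 1 from h2, smul_eq_mul, mul_one]
    obtain ⟨s, c⟩ := (LinearMap.ker ρ).basisOfPid b
    let ω := Module.Basis.mkFinCons 1 c (fun z x hx e => by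
      rw [← h2 z, eq_neg_of_add_eq_zero_left e, map_neg, LinearMap.mem_ker.1 hx, neg_zero])
      fun z => ⟨-ρ z, by rw [LinearMap.mem_ker, map_add, h2, add_neg_cancel]⟩
    exact ⟨s, ω, by rw [Module.Basis.coe_mkFinCons]; rfl, by
      rw [← RingOfIntegers.rank, Module.finrank_eq_card_basis ω, Fintype.card_fin]⟩
  · have h := congrArg (Algebra.norm ℚ) hi
    rw [map_pow, ← map_one (algebraMap ℚ K), ← map_neg, Algebra.norm_algebraMap] at h
    exact (Nat.even_or_odd _).resolve_right fun e => by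
      rw [e.neg_one_pow] at h
      linarith [sq_nonneg (Algebra.norm ℚ i)]

end Pool.Agent.MP_f3836a_nt.GV.M
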