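import Pool.Agent.MP_f3836a_nt.GV.SpecM2

/-! Block Mod: determinants with weights. -/

set_option autoImplicit false

namespace Pool.Agent.MP_f3836a_nt.GV.M

open Polynomial NumberField PK VE.Z GP IntermediateField

theorem mWd : WdS := by
  intro R _ _ n N m D M hN h
  have a : ∀ j, (M j j).IsMonicOfDegree m := fun j => (isMonicOfDegree_iff _ _).2
    ⟨natDegree_le_iff_coeff_eq_zero.2 fun k hk => (h j j k (by gcongr)).trans
      (if_neg fun e => hk.ne' e.2), (h j j m le_rfl).trans (if_pos ⟨rfl, rfl⟩)⟩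
  have b : ∀ l j, l ≠ j → M l j ≠ 0 → N * (M l j).natDegree + D l < N * m + D j :=
    fun l j e k => lt_of_not_ge fun c =>
      leadingCoeff_ne_zero.2 k ((h l j _ c).trans (if_neg fun d => e d.1))
  have c : (∏ j, M j j).IsMonicOfDegree (n * m) := ⟨by
    simp [natDegree_prod_of_monic _ _ fun j _ => (a j).monic, (a _).natDegree_eq],
    monic_prod_of_monic _ _ fun j _ => (a j).monic⟩
  have d : ∀ k, n * m ≤ k → M.det.coeff k = (∏ j, M j j).coeff k := fun k hk => by
    rw [Matrix.det_apply, finsetSum_coeff, Finset.sum_eq_single 1 (fun σ _ s => ?_) (by simp)]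
    · simp
    rw [coeff_smul]
    by_cases z : ∀ j, M (σ j) j ≠ 0
    · obtain ⟨i, hi⟩ := not_forall.1 (mt Equiv.ext s)
      have e : ∑ j, (N * (M (σ j) j).natDegree + D (σ j)) < ∑ j, (N * m + D j) := by
        refine Finset.sum_lt_sum (fun j _ => ?_) ⟨i, Finset.mem_univ i, b _ _ hi (z i)⟩
        by_cases t : σ j = j
        · rw [t, (a j).natDegree_eq]
        · exact (b _ _ t (z j)).le
      rw [Finset.sum_add_distrib, Finset.sum_add_distrib, Equiv.sum_comp σ D, ← Finset.mul_sum,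
        ← Finset.mul_sum, add_lt_add_iff_right, Finset.sum_const, Finset.card_fin, smul_eq_mul] at e
      rw [coeff_eq_zero_of_natDegree_lt ((natDegree_prod_le _ _).trans_lt
        ((lt_of_mul_lt_mul_left e N.zero_le).trans_le hk)), smul_zero]
    · obtain ⟨j, hj⟩ := not_forall.1 z
      rw [Finset.prod_eq_zero (f := fun i => M (σ i) i) (Finset.mem_univ j) (not_not.1 hj),
        coeff_zero, smul_zero]
  exact (isMonicOfDegree_iff _ _).2 ⟨natDegree_le_iff_coeff_eq_zero.2 fun k hk => (d k hk.le).trans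
    (coeff_eq_zero_of_natDegree_lt (c.natDegree_eq ▸ hk)),
    (d _ le_rfl).trans ((isMonicOfDegree_iff _ _).1 c).2⟩

theorem mApe : OfApe := by
  intro hF hA hW
  have t : ApeT := fun S N _ hc => by
    obtain ⟨a, a0, h⟩ := hA S N hc
    refine ⟨a, a0, fun A 𝒜 _ _ _ _ _ _ μ hμ hx => ?_⟩
    obtain ⟨η, e, p⟩ := h A 𝒜 μ hμ hx
    refine ⟨η, e, fun m g hg => hW A N N m (fun j => a j) _ (NeZero.pos N) fun l j k hk => ?_⟩
    obtain ⟨⟨b, c⟩, d⟩ := (hF A 𝒜 S μ hμ).mul _ _ _ _ hg (p.mo j)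
    have lo : Lo μ ⊥ (N * m + a j + 1) (g * η j) := fun e he => d e he
    rw [Algebra.leftMulMatrix_eq_repr_mul]
    rcases hk.eq_or_lt with q | q
    · obtain rfl : l = j := Fin.ext (by
        rw [← p.md l, ← p.md j, ← Nat.mul_add_mod N k, ← q, Nat.mul_add_mod])
      obtain rfl : m = k := Nat.eq_of_mul_eq_mul_left (NeZero.pos N) (Nat.add_right_cancel q)
      rw [if_pos ⟨rfl, rfl⟩, ← p.top l m _ b lo, c]
    · rw [if_neg fun e => q.ne (by rw [e.1, e.2])]
      exact (p.lo _ _ _).1 lo l k q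
  refine ⟨t, fun A 𝒜 _ _ _ _ _ _ S μ N _ hμ hx => ?_⟩
  obtain ⟨a, a0, h⟩ := t S N hμ.cof
  obtain ⟨η, e, p⟩ := h A 𝒜 μ hμ hx
  exact ⟨η, by rw [e, a0, hμ.one], p⟩

end Pool.Agent.MP_f3836a_nt.GV.M
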