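import Pool.Agent.MP_f3836a_nt.GV.GMFmX
import Pool.Agent.MP_f3836a_nt.GV.GMRie
import Pool.Agent.MP_f3836a_nt.GV.GMScl
import Pool.Agent.MP_f3836a_nt.GV.GMBaA
import Pool.Agent.MP_f3836a_nt.GV.GMApb
import Pool.Agent.MP_f3836a_nt.GV.GMTok
import Pool.Agent.MP_f3836a_nt.GV.GMNw
import Pool.Agent.MP_f3836a_nt.GV.GMBb
import Pool.Agent.MP_f3836a_nt.GV.GMFm
import Pool.Agent.MP_f3836a_nt.GV.GMChg
import Pool.Agent.MP_f3836a_nt.GV.GMTy
import Pool.Agent.MP_f3836a_nt.GV.GMFr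
import Pool.Agent.MP_f3836a_nt.GV.GMClr
import Pool.Agent.MP_f3836a_nt.GV.GMDim
import Pool.Agent.MP_f3836a_nt.GV.GMPole
import Pool.Agent.MP_f3836a_nt.GV.GMRat
import Pool.Agent.MP_f3836a_nt.GV.GMFc
import Pool.Agent.MP_f3836a_nt.GV.GMWd
import Pool.Agent.MP_f3836a_nt.GV.GMSep
import Pool.Agent.MP_f3836a_nt.GV.GMVl
import Pool.Agent.MP_f3836a_nt.GV.GMTfl
import Pool.Agent.MP_f3836a_nt.GV.GMTab
import Pool.Agent.MP_f3836a_nt.GV.GDTb
import Pool.Agent.MP_f3836a_nt.GP.TAp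
import Pool.Agent.MP_f3836a_nt.GP.TBc
import Pool.Agent.MP_f3836a_nt.GP.TEf
import Pool.Agent.MP_f3836a_nt.GP.TFf
import Pool.Agent.MP_f3836a_nt.GP.TFin
import Pool.Agent.MP_f3836a_nt.GP.TNb
import Pool.Agent.MP_f3836a_nt.GP.TP0
import Pool.Agent.MP_f3836a_nt.GP.TSpl

/-! Block Mod: all exports. -/

set_option autoImplicit false

namespace Pool.Agent.MP_f3836a_nt.GV

open GP M

theorem fmS : FmS := mFm

theorem apbS : ApbS := mApb fmS (mChg fmS)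

theorem apeT : ApeT := (mApe fmS apbS mWd).1

theorem apeS : ApeS := (mApe fmS apbS mWd).2

theorem tabS : TabS :=
  mTab apbS mTy mOm (mTok fmS mWd mSep) (mTfl rTb) (mNw fmS) mVl mNre

theorem rieS : RieS := mRie tFf tFin tNb (mPole tFf tFin (tEf tNb) (tP0 tNb)) mDim

theorem fmX : FmX := mFmX fmS tFin tNb rieS (mFr tAp mClr) mBaA mBb (mFc apbS) mScl

theorem modP : ModP :=
  mModP fmS tFin tNb (mRat tFf tFin tNb tBc (tSpl tNb tFe (tEf tNb))) rieS (mFr tAp mClr) mBaA mBb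
    (mFc apbS) mScl

end Pool.Agent.MP_f3836a_nt.GV
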