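import Pool.Agent.MP_f3836a_nt.GV.SpecM2

/-! Block Mod: leading coefficients at a rational place. -/

set_option autoImplicit false

namespace Pool.Agent.MP_f3836a_nt.GV.M

open Polynomial NumberField PK VE.Z GP IntermediateField

theorem mBaB : BaB := by
  classical
  intro K F _ _ _ _ O' hF hN hC hR hb
  have A := dvA hR.1.1
  have := A.loc
  obtain ⟨π, π0, π1⟩ := A.uni
  have πn : Nu O' π := (A.nu π).2 (.inr (by omega))
  have op : ∀ (g : F) (d : ℕ), g ≠ 0 → ordR O' (g * π ^ d) = ordR O' g + d := fun g d g0 => by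
    rw [A.mul _ _ g0 (pow_ne_zero d π0), ← zpow_natCast, A.zpow _ _ π0, π1, mul_one]
  have cu : ∀ c : K, Nu O' (algebraMap K F c) → c = 0 := fun c h =>
    by_contra fun c0 => h.not ((hN.con O' hR.1).2 c c0).1
  have mem : ∀ {z : F} {c : K}, Nu O' (z - algebraMap K F c) → z ∈ O' := fun {_ c} h => by
    simpa using O'.add_mem h.1 (hN.mem O' hR.1 c)
  have base : ∀ g, Ro O' g → Nu O' g → g = 0 := fun g h h' => by
    obtain ⟨c, rfl⟩ := hC.cl g (by_contra fun t => by
      obtain ⟨P, p1, p2⟩ := hF.ex g t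
      exact p2 (if e : P = O' then e ▸ h'.1 else h P p1 e))
    rw [cu c h', map_zero]
  let R : Subalgebra K F :=
    { carrier := {z | Ro O' z}
      mul_mem' := fun a b P p e => P.mul_mem (a P p e) (b P p e)
      add_mem' := fun a b P p e => P.add_mem (a P p e) (b P p e)
      algebraMap_mem' := fun c P p _ => hN.mem P p c }
  have sm : ∀ (d : ℕ) (g : R) (c a : K), Nu O' (g * π ^ d - algebraMap K F c) →
      Nu O' ((a • g : R) * π ^ d - algebraMap K F (a * c)) := fun d g c a h => by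
    convert h.mul (hN.mem O' hR.1 a) using 1
    rw [Subalgebra.coe_smul, Algebra.smul_def, map_mul]
    ring
  refine ⟨R, fun d g c => Nu O' (g * π ^ d - algebraMap K F c), fun _ => Iff.rfl,
    ⟨fun d g g' c c' h h' => ?_, sm, fun d d' g g' c c' h h' => ?_, fun d g c h => ?_,
      fun d g h => hR.2 _ ?_, fun d g c c' h h' => sub_eq_zero.1 (cu _ ?_),
      fun g h => Subtype.ext (base _ g.2 (by simpa using h)), fun g => ?_, by simpa using nu_zero,
      ?_⟩, fun d g h => ?_⟩
  · convert h.add h' using 1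
    rw [Subalgebra.coe_add, map_add]
    ring
  · convert (h.mul (mem h')).add (h'.mul (hN.mem O' hR.1 c)) using 1
    rw [Subalgebra.coe_mul, map_mul]
    ring
  · convert πn.mul (mem h) using 1
    rw [map_zero]
    ring
  · by_cases g0 : (g : F) = 0
    · simp [g0]
    have n := fun d : ℕ => mul_ne_zero g0 (pow_ne_zero d π0)
    rw [map_zero, sub_zero, A.nu, op _ _ g0] at h
    have := h.resolve_left (n _)
    rw [A.mem _ (n _), op _ _ g0]
    omega
  · convert h'.sub h using 1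
    rw [map_sub]
    ring
  · by_cases g0 : (g : F) = 0
    · exact ⟨0, 0, by simpa [g0] using nu_zero⟩
    refine ⟨(-ordR O' (g : F)).toNat, hR.2 _ ?_⟩
    rw [A.mem _ (mul_ne_zero g0 (pow_ne_zero _ π0)), op _ _ g0]
    omega
  · obtain ⟨b, b0, b1, b2⟩ := hb π⁻¹
    have o : ordR O' b ≤ 0 := not_lt.1 fun h => b0 (base b b1 ((A.nu b).2 (.inr h)))
    have u : Ut O' (b * π ^ (-ordR O' b).toNat) :=
      (A.ut _).2 ⟨mul_ne_zero b0 (pow_ne_zero _ π0), by rw [op _ _ b0]; omega⟩
    obtain ⟨c, hc⟩ := hR.2 _ u.2.1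
    have c0 : c ≠ 0 := by
      rintro rfl
      rw [map_zero, sub_zero] at hc
      exact hc.not u
    refine ⟨(-ordR O' b).toNat, c⁻¹ • ⟨b, b1⟩, c⁻¹ • ⟨_, b2⟩,
      inv_mul_cancel₀ c0 ▸ sm _ ⟨b, b1⟩ c _ hc, inv_mul_cancel₀ c0 ▸ sm _ ⟨_, b2⟩ c _ ?_⟩
    convert hc using 2
    change π⁻¹ * b * _ = _
    field_simp
    ring
  · have u : Ut O' (g * π ^ d) := ut_of_nu ut_one (map_one (algebraMap K F) ▸ h)
    have g0 := left_ne_zero_of_mul u.1
    have := ((A.ut _).1 u).2
    rw [op _ _ g0] at this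
    exact ⟨g0, by omega⟩

end Pool.Agent.MP_f3836a_nt.GV.M
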