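import Pool.Agent.MP_f3836a_nt.GV.SpecM2

/-! The model with a given rational place at infinity. -/

set_option autoImplicit false

namespace Pool.Agent.MP_f3836a_nt.GV.M

open Polynomial NumberField PK VE.Z GP IntermediateField

namespace GMFmX

theorem core (hFin : FinS) (hNb : NbS) (hRie : RieS) (hFr : FrS) (hA : BaA) (hB : BaB)
    {K F : Type} [Field K] [NumberField K] [Field F] [CharZero F] [Algebra K F] {O' : Subring F}
    (hG : FG F) (hC : Cl K F) (hO : Rat K O') :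
    ∃ (R : Subalgebra K F) (S : AddSubmonoid ℕ) (μ : Module.Basis S K R),
      (∀ z, z ∈ R ↔ Ro O' z) ∧ FM μ ∧
      (∀ d (g : R), Mo μ d g → (g : F) ≠ 0 ∧ ordR O' (g : F) = -(d : ℤ)) ∧
      (∀ g, g ≠ 0 → ∃ (d : ℕ) (c : K), c ≠ 0 ∧ Mo μ d (c • g)) ∧
      (∀ z : F, ∃ b, b ≠ 0 ∧ Ro O' b ∧ Ro O' (z * b)) ∧
      ∀ O, Pl O → O ≠ O' → ∃ π, Ro O' π ∧ ordR O π = 1 := by
  have fi := hFin F hG
  have N := hNb K F hC.al fi
  obtain ⟨f, f1, f2⟩ := hRie K F O' hG hC hO.1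
  obtain ⟨h1, h2⟩ := hFr K F O' f fi N hO.1 f1 f2
  obtain ⟨R, L, hR, hL, ho⟩ := hB K F O' fi N hC hO h1
  obtain ⟨S, μ, hμ, a, b⟩ := hA K R L hL
  exact ⟨R, S, μ, hR, hμ, fun d g h => ho d g (a d g h), b, h1, h2⟩

theorem ex_pow {F : Type} [Field F] [CharZero F] {VV : Set (Subring F)} {M : ℕ} (hV : VV.Finite)
    (h : ∀ V ∈ VV, Dvr V ∧ Nu V M) (hM : M ≠ 0) {x : F} (hx : x ≠ 0) :
    ∃ j : ℕ, ∀ V ∈ VV, Nu V ((M : F) ^ j * x) := by
  obtain ⟨j, hj⟩ := (hV.image fun V => (-ordR V x).toNat + 1).bddAbove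
  refine ⟨j, fun V o => ?_⟩
  have D := dvA (h V o).1
  have m0 : (M : F) ≠ 0 := Nat.cast_ne_zero.2 hM
  have h1 := ((D.nu _).1 (h V o).2).resolve_left m0
  have h2 : (-ordR V x).toNat + 1 ≤ j := hj ⟨V, o, rfl⟩
  refine (D.nu _).2 (.inr ?_)
  rw [D.mul _ _ (pow_ne_zero _ m0) hx, ← zpow_natCast, D.zpow _ _ m0]
  have h3 : (j : ℤ) * 1 ≤ j * ordR V (M : F) := mul_le_mul_of_nonneg_left h1 (by positivity)
  omega

end GMFmX

open GMFmX in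
theorem mFmX : OfFmX := by
  intro hFm hFin hNb hRie hFr hA hB hFc hScl K F _ _ _ _ _ O O' VV M N0 hG hC hO hO' hne hV hVV hM
  obtain ⟨R, S, μ, hR, hμ, hord, hmon, -, hπ⟩ := core hFin hNb hRie hFr hA hB hG hC hO'
  have N := hNb K F hC.al (hFin F hG)
  have A := hFm K R S μ hμ
  have D := dvA hO.1.1
  have := D.loc
  obtain ⟨π, π1, π2⟩ := hπ O hO.1 hne
  have π0 : π ≠ 0 := fun e => by simp [e, ordR] at π2
  obtain ⟨δ, c, c0, hδ⟩ := hmon ⟨π, (hR π).2 π1⟩ fun e => π0 (congrArg Subtype.val e)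
  set p : R := c • ⟨π, (hR π).2 π1⟩ with hp
  have cu := ((N.con O hO.1).2 c c0).1
  have pe : (p : F) = algebraMap K F c * π := Algebra.smul_def c π
  have p0 : (p : F) ≠ 0 := (hord _ _ hδ).1
  have p1 : ordR O (p : F) = 1 := by
    rw [pe, D.mul _ _ cu.1 π0, ((D.ut _).1 cu).2, π2, zero_add]
  obtain ⟨c1, hc1⟩ := hμ.cof
  obtain ⟨n, hn, hpr⟩ := Nat.exists_infinite_primes (N0 + 2 * δ + c1 + 1)
  let e : S := ⟨n - 2 * δ, hc1 _ (by omega)⟩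
  have hx0 : Mo μ n (p * p * μ e + p) := by
    have h1 := A.mul _ _ _ _ (A.mul _ _ _ _ hδ hδ) (A.bas e)
    have h2 : δ + δ + (e : ℕ) = n := by change δ + δ + (n - 2 * δ) = n; omega
    rw [h2] at h1
    exact A.add _ _ _ h1 fun t ht => hδ.2 t (by omega)
  set x0 : R := p * p * μ e + p with hx
  have x00 : (x0 : F) ≠ 0 := (hord _ _ hx0).1
  have x01 : ordR O (x0 : F) = 1 := by
    have u : Ut O (1 + (μ e : F) * p) := ut_one.add
      (((D.nu _).2 (.inr (by rw [p1]; exact one_pos))).mul ((hR _).1 (μ e).2 O hO.1 hne))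
    have : (x0 : F) = (1 + (μ e : F) * p) * p := by rw [hx]; push_cast; ring
    rw [this, D.mul _ _ u.1 p0, ((D.ut _).1 u).2, p1, zero_add]
  obtain ⟨j, hj⟩ := ex_pow hV hVV hM x00
  obtain ⟨ν, D1, hν, hνx, D0, hD⟩ := hFc K R S μ ⟨n, hx0.1.1⟩ x0 hμ hpr.pos hx0
  have d0 : D1 * M ^ j ≠ 0 := mul_ne_zero D0 (pow_ne_zero _ hM)
  obtain ⟨𝒜, μ', hμ', he, hle, hden⟩ := hScl K F R S ν (D1 * M ^ j) hν d0 fun a b d => by
    rw [mul_comm D1, Nat.cast_mul, mul_assoc]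
    exact (isIntegral_natCast _).mul (hD a b d)
  have hxe := he ⟨n, hx0.1.1⟩
  rw [hνx] at hxe
  have dF : ((D1 * M ^ j : ℕ) : F) ≠ 0 := Nat.cast_ne_zero.2 d0
  have od : ∀ P, Pl P → ordR P (μ' ⟨n, hx0.1.1⟩ : F) = ordR P (x0 : F) := fun P o => by
    have u := (ho_ut o.2 d0).pow n
    rw [hxe, (dvA o.1).mul _ _ u.1 x00, (((dvA o.1).ut _).1 u).2, zero_add]
  refine ⟨𝒜, S, μ', μ' ⟨n, hx0.1.1⟩, n, hμ', (hFm _ _ S μ' hμ').bas ⟨n, hx0.1.1⟩, hpr, by omega,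
    (od O hO.1).trans x01, fun V o => ?_, fun h => ?_, fun z => ⟨fun h => hden z ((hR z).2 h), ?_⟩⟩
  · obtain ⟨m, hm⟩ := Nat.exists_eq_succ_of_ne_zero hpr.ne_zero
    have : (μ' ⟨n, hx0.1.1⟩ : F) = (((D1 * M ^ j) ^ m * D1 : ℕ) : F) * ((M : F) ^ j * x0) := by
      rw [hxe]
      change ((D1 * M ^ j : ℕ) : F) ^ n * _ = _
      rw [hm, pow_succ]; push_cast; ring
    rw [this]
    exact (hj V o).mul (natCast_mem V _)
  · have h0 : (μ' ⟨n, hx0.1.1⟩ : F) ≠ 0 := hxe ▸ mul_ne_zero (pow_ne_zero _ dF) x00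
    have h1 := ((dvA hO'.1.1).mem _ h0).1 h
    rw [od O' hO'.1, (hord _ _ hx0).2] at h1
    have := hpr.pos
    omega
  · rintro ⟨m, m0, hm⟩ P o ne
    have u := ho_ut o.2 m0
    have := P.mul_mem u.2.2 ((hR _).1 (hle _ hm) P o ne)
    rwa [inv_mul_cancel_left₀ u.1] at this

open GMFmX in
theorem mModP : OfModP := by
  intro hFm hFin hNb hRat hRie hFr hA hB hFc hScl F _ inst x hx hd
  have : CharZero F := algebraRat.charZero F
  obtain rfl : inst = DivisionRing.toRatAlgebra := Subsingleton.elim _ _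
  have hG : FG F := ⟨x, fun h => hx (h.extendScalars (algebraMap ℤ ℚ).injective_int), hd⟩
  obtain ⟨K, F', _, _, _, _, _, ι, O', hG', hC, hO⟩ := hRat F hG
  obtain ⟨R, S, μ, hR, hμ, -, -, hfr, -⟩ := core hFin hNb hRie hFr hA hB hG' hC hO
  obtain ⟨c, hc⟩ := hμ.cof
  let e : S := ⟨c + 1, hc _ (Nat.le_succ c)⟩
  obtain ⟨ν, D, hν, -, D0, hD⟩ := hFc K R S μ e (μ e) hμ (Nat.succ_pos c) ((hFm K R S μ hμ).bas e)
  obtain ⟨𝒜, μ', hμ', -, -, hden⟩ := hScl K F' R S ν D hν D0 hD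
  refine ⟨K, inferInstance, inferInstance, 𝒜, inferInstance, inferInstance, S, μ', F', inferInstance,
    ι, 𝒜.val.toRingHom, hμ', Subtype.val_injective, fun f => ?_⟩
  obtain ⟨b, b0, b1, b2⟩ := hfr (ι f)
  obtain ⟨n, n0, hn⟩ := hden b ((hR b).2 b1)
  obtain ⟨m, m0, hm⟩ := hden _ ((hR _).2 b2)
  refine ⟨n * ⟨_, hm⟩, m * ⟨_, hn⟩, ?_, ?_⟩
  · simp [n0, m0, b0]
  · simp; ring

end Pool.Agent.MP_f3836a_nt.GV.M
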