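import Pool.Agent.MP_f3836a_nt.GV.SpecM2
import Pool.Agent.MP_f3836a_nt.GP.GPw

/-! Row Fr: denominators and uniformisers. -/

set_option autoImplicit false

namespace Pool.Agent.MP_f3836a_nt.GV.M

open Polynomial NumberField PK VE.Z GP IntermediateField

namespace GMFr

variable {F : Type} [Field F] {O : Subring F} {u : F}

theorem aev (h : u ∈ O) (p : ℤ[X]) : aeval u p ∈ O :=
  Algebra.adjoin_le (S := subalgebraOfSubring O) (Set.singleton_subset_iff.2 h)
    (aeval_mem_adjoin_singleton ℤ u)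

theorem int_ut [CharZero F] (h : Ho O) {y : ℤ} (hy : y ≠ 0) : Ut O y := by
  have a := ho_ut h (Int.natAbs_ne_zero.2 hy)
  rcases Int.natAbs_eq y with k | k <;> rw [k]
  · rwa [Int.cast_natCast]
  · rw [Int.cast_neg, Int.cast_natCast]
    exact ⟨neg_ne_zero.2 a.1, O.neg_mem a.2.1, inv_neg (a := (y.natAbs : F)) ▸ O.neg_mem a.2.2⟩

theorem cmem [CharZero F] (h : Pl O) (hc : IsAlgebraic ℤ u) : u ∈ O := by
  obtain ⟨y, y0, e⟩ := hc.exists_integral_multiple
  have := O.mul_mem (int_ut h.2 y0).2.2 (int_mem h.1 e)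
  rwa [zsmul_eq_mul, inv_mul_cancel_left₀ (Int.cast_ne_zero.2 y0)] at this

end GMFr

open GMFr in
theorem mFr : OfFr := by
  intro hA hC K F _ _ _ _ O' f hF hN hO hf hf'
  classical
  have f0 : f ≠ 0 := fun e => hf' (e ▸ O'.zero_mem)
  refine ⟨fun z => ?_, fun O o ne => ?_⟩
  · by_cases z0 : z = 0
    · exact ⟨1, one_ne_zero, fun P _ _ => P.one_mem, fun P _ _ => by simp [z0]⟩
    obtain ⟨B, hB⟩ := ((hF.fin z).image fun P => -ordR P z).bddAbove
    obtain ⟨p, p0, hp⟩ := hC K F O' f (f ^ B.toNat * z) hF hN hf fun P h _ k => by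
      have A := dvA h.1
      have h1 := ((A.nu f).1 k).resolve_left f0
      have h2 : -ordR P z ≤ B.toNat := by
        by_cases e : ordR P z = 0
        · omega
        · exact (hB ⟨P, ⟨h, e⟩, rfl⟩).trans (Int.self_le_toNat B)
      rw [A.mem _ (mul_ne_zero (pow_ne_zero _ f0) z0), A.mul _ _ (pow_ne_zero _ f0) z0,
        ← zpow_natCast, A.zpow _ _ f0]
      nlinarith [Int.natCast_nonneg B.toNat]
    refine ⟨aeval f p * f ^ B.toNat, mul_ne_zero (fun e => hf' (cmem hO ⟨p, ?_, e⟩))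
      (pow_ne_zero _ f0), fun P h k => P.mul_mem (aev (hf P h k) p) (P.pow_mem (hf P h k) _), ?_⟩
    · rintro rfl
      exact p0 rfl
    · rwa [mul_comm z, mul_assoc]
  · obtain ⟨n, n0, Q, hQ, hq⟩ := hN.alg O f o (hf O o ne)
    have q0 : aeval (n * f) Q ≠ 0 := fun e => hf' (by
      have := O'.mul_mem (ho_ut hO.2 n0).2.2 (int_mem hO.1 ⟨Q, hQ, e⟩)
      rwa [inv_mul_cancel_left₀ (Nat.cast_ne_zero.2 n0)] at this)
    have hr : Ro O' (aeval (n * f) Q) := fun P h k =>
      aev (P.mul_mem (natCast_mem P n) (hf P h k)) Q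
    generalize aeval (n * f) Q = q at hq q0 hr
    have hZ : ∀ P, Pl P → Nu P q → P ∈ (hF.fin q).toFinset := fun P h k =>
      (Set.Finite.mem_toFinset _).2 ⟨h, ((((dvA h.1).nu q).1 k).resolve_left q0).ne'⟩
    have A := dvA o.1
    have := A.loc
    obtain ⟨π, π0, π1⟩ := A.uni
    obtain ⟨w, hw⟩ := hA F (hF.fin q).toFinset
      (fun P h => ((Set.Finite.mem_toFinset _).1 h).1.1) (fun P => if P = O then π else 1) 2
      fun P _ => by
        split_ifs with h
        exacts [h ▸ (A.mem π π0).2 (by omega), P.one_mem]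
    obtain ⟨w0, w1⟩ := GPw.ord o.1 π0 π1 (w := w) (by simpa using (hw O (hZ O o hq)).2)
    obtain ⟨p, p0, hp⟩ := hC K F O' q w hF hN hr fun P h _ k => (hw P (hZ P h k)).1
    have h1 : Ut O (aeval q p) := by
      rw [← p.divX_mul_X_add, map_add, map_mul, aeval_X, aeval_C, add_comm]
      exact (int_ut o.2 p0).add (hq.mul (aev hq.1 _))
    exact ⟨_, hp, by rw [A.mul _ _ h1.1 w0, ((A.ut _).1 h1).2, w1, zero_add]⟩

end Pool.Agent.MP_f3836a_nt.GV.M
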