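import Pool.Agent.MP_f3836a_nt.GV.SpecE1
import Pool.Agent.MP_f3836a_nt.VE.SEq

/-! Row SEq: equidistribution for the concrete system in rank `n`. -/

set_option autoImplicit false

namespace Pool.Agent.MP_f3836a_nt.GV

open Polynomial Finset VE

namespace GSEq

section lists

variable {H β : Type}

/-- the genuine curves of a list -/
def fl (l : List (Option H × β)) : List (H × β) :=
  l.filterMap fun a => a.1.map fun h => (h, a.2)

theorem mem_fl {l : List (Option H × β)} {b : H × β} (h : b ∈ fl l) : (some b.1, b.2) ∈ l := by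
  obtain ⟨⟨c, x⟩, h1, h2⟩ := List.mem_filterMap.1 h
  rcases c with _ | c
  · simp at h2
  · simp only [Option.map_some, Option.some.injEq] at h2
    subst h2
    exact h1

theorem prod_fl (l : List (Option H × β)) (F : Option H × β → ℝ)
    (hF : ∀ a ∈ l, a.1 = none → F a = 1) :
    (l.map F).prod = ((fl l).map fun b => F (some b.1, b.2)).prod := by
  induction l with
  | nil => rfl
  | cons a l ih =>
    have ih' := ih fun a' h => hF a' (List.mem_cons_of_mem _ h)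
    obtain ⟨c, x⟩ := a
    rcases c with _ | c
    · rw [List.map_cons, List.prod_cons, hF _ List.mem_cons_self rfl, one_mul, ih']
      rfl
    · rw [List.map_cons, List.prod_cons, ih']
      rfl

theorem fst_fl (l : List (Option H × β)) :
    (fl l).map Prod.fst = (l.map Prod.fst).filterMap id := by
  induction l with
  | nil => rfl
  | cons a l ih =>
    obtain ⟨c, x⟩ := a
    rcases c with _ | c
    · exact ih
    · exact congrArg (List.cons c) ih

theorem prod_id (L : List (Option H)) (F : Option H → ℝ) (hF : F none = 1) :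
    (L.map F).prod = ((L.filterMap id).map fun h => F (some h)).prod := by
  induction L with
  | nil => rfl
  | cons c L ih =>
    rcases c with _ | c
    · rw [List.map_cons, List.prod_cons, hF, one_mul, ih]
      rfl
    · rw [List.map_cons, List.prod_cons, ih]
      rfl

theorem pp_fl (η : H → H → ℝ) (L : List (Option H)) :
    pp (fun c c' : Option H => c.elim 0 fun h => c'.elim 0 fun h' => η h h') L
      = pp η (L.filterMap id) := by
  induction L with
  | nil => rfl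
  | cons c L ih =>
    rcases c with _ | c
    · rw [pp, ih]
      simp
    · rw [pp, ih, prod_id L _ (by simp)]
      rfl

end lists

theorem eta_nonneg {n : ℕ} {C : Type} (Φ : Fam n C) (Γ : Gf n) (K : ℝ) (hK : 1 ≤ K) (c c' : C) :
    0 ≤ Φ.eta Γ K c c' := by
  unfold Fam.eta et1
  have h1 : 1 ≤ Real.exp (4 * sig Γ.W (Γ.res (Φ.cu c) (Φ.cu c'))) := by
    refine Real.one_le_exp (mul_nonneg (by norm_num) ?_)
    unfold sig
    exact sum_nonneg fun l _ => by positivity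
  refine sub_nonneg.2 (one_le_pow₀ ?_)
  split_ifs <;> nlinarith

variable {n r m : ℕ} [NeZero n] {G : Geo n r} (D : Dat G m)

theorem size (T : Multiset Pt) (hT : D.sys.Sm 8 T) : (nT T : ℝ) ≤ D.Y ^ 16 := by
  have h : (nT T : ℝ) ≤ (D.Y ^ 2) ^ 8 := hT.2.1
  rwa [← pow_mul] at h

theorem Y_none (j : ℕ) (g : D.Γ.I) : D.sys.Y none 0 j g = 1 := by
  show (∑ s : Fin j → ({0} : Finset (Multiset Pt)), (∏ _i : Fin j, (1 : ℝ)) *
    ind ((0 : Multiset Pt) + ∑ i, (s i).1 = 0)) / 1 = 1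
  have e : ∀ s : Fin j → ({0} : Finset (Multiset Pt)),
      (∏ _i : Fin j, (1 : ℝ)) * ind ((0 : Multiset Pt) + ∑ i, (s i).1 = 0) = 1 := fun s => by
    have h : (0 : Multiset Pt) + ∑ i, (s i).1 = 0 := by
      rw [zero_add]
      exact sum_eq_zero fun i _ => mem_singleton.1 (s i).2
    simp only [ind, h, if_true, prod_const_one, mul_one]
  simp only [e]
  simp

end GSEq

open GSEq in
theorem sEq : GV.SEq := by
  intro hEq hPc hBas n r m _ G D h
  have hf := h.fam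
  obtain ⟨-, -, -, -, -, -, -, hPW, hpt, -⟩ := hBas n r m G D h
  have vp : ∀ z ∈ G.P.pts D.Y (D.Y ^ 2), D.Γ.Vp z ∧ D.Y ≤ z.p := fun z hz =>
    ⟨(hpt z hz).1, (hPW.pt z hz).2.2.1⟩
  obtain ⟨hB, hV, hΛ, hYm, -, hPm, hε, hε1, hK⟩ := hf.num
  have heta : ∀ c c', 0 ≤ D.Φ.eta D.Γ D.Kx c c' := eta_nonneg D.Φ D.Γ D.Kx (by linarith)
  refine ⟨fun l T hl hn hd hT hc => ?_, fun T hn hcnt hT => ?_, fun c T j ha => ?_, ?_⟩
  · have hc' : ∀ a ∈ fl l, D.Φ.ad a.1 a.2.1 a.2.2 ∧ a.2.1 ≤ T ∧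
        ∀ z ∈ T, z ∈ a.2.1 ∨ ¬D.Γ.on (D.Φ.cu a.1) z := fun a ha => hc _ (mem_fl ha)
    have hn' : ((fl l).map Prod.fst).Nodup := by
      rw [fst_fl]
      exact hn.filterMap fun a a' b h1 h2 => (Option.mem_def.1 h1).trans (Option.mem_def.1 h2).symm
    have key := hEq n D.Φ D.Γ _ _ _ _ _ _ _ _ _ (fl l) T h.gok hf
      ⟨(List.length_filterMap_le _ _).trans hl, hn', hd, hT.1, size D T hT,
        fun z hz => vp z (hT.2.2 z hz), hc'⟩
    have hM : 0 ≤ D.Φ.MY (fl l) T := by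
      refine mul_nonneg (by unfold PT; positivity) (List.prod_nonneg fun x hx => ?_)
      obtain ⟨a, ha, rfl⟩ := List.mem_map.mp hx
      exact le_trans (by positivity) (hf.ad _ _ _ (hc' a ha).1).2.1
    have hθ : D.θ ^ 2 ≤ 1 := pow_le_one₀ h.num.2.2.1.le h.num.2.2.2.1
    have h20 : (1 + D.θ ^ 2 / 40) ^ 20 ≤ 1 + D.θ ^ 2 := by
      have := SEq.pow_le (D.θ ^ 2 / 40) hε.le 20 (by push_cast; linarith)
      push_cast at this
      linarith
    have e1 : ∀ g, (l.map fun a => D.sys.Y a.1 a.2.1 a.2.2 g).prod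
        = ((fl l).map fun a => D.Φ.Y D.Γ a.1 a.2.1 a.2.2 g).prod := fun g =>
      prod_fl l (fun a => D.sys.Y a.1 a.2.1 a.2.2 g) fun a ha h0 => by
        have h1 := (hc a ha).1
        rw [h0] at h1 ⊢
        have h2 : a.2.1 = 0 := h1
        rw [h2]
        exact Y_none D _ g
    have e2 : (l.map fun a => D.sys.fm a.1 a.2.1 a.2.2).prod
        = ((fl l).map fun a => D.Φ.fm a.1 a.2.1 a.2.2).prod :=
      prod_fl l (fun a => D.sys.fm a.1 a.2.1 a.2.2) fun a _ h0 => by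
        rw [h0]
        rfl
    have e3 : pp D.sys.et (l.map Prod.fst) = pp (D.Φ.eta D.Γ D.Kx) ((fl l).map Prod.fst) := by
      rw [fst_fl]
      exact pp_fl _ _
    simp only [e1]
    rw [e2, e3]
    show |D.Φ.EY D.Γ (fl l) T - D.Φ.MY (fl l) T| ≤
      ((1 + D.θ ^ 2) * pp (D.Φ.eta D.Γ D.Kx) ((fl l).map Prod.fst) - 1) * D.Φ.MY (fl l) T
    refine key.trans (mul_le_mul_of_nonneg_right ?_ hM)
    have := mul_le_mul_of_nonneg_right h20 (SEq.pp_nonneg _ heta ((fl l).map Prod.fst))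
    linarith
  · have key := hPc n D.Γ T h.gok hn (fun z hz => (vp z (hT.2.2 z hz)).1) hcnt
    show D.Γ.E (fun x => ind (∀ z ∈ T, D.Γ.zr x z)) ≤ 2 * PT T
    have hpos : 0 < nT T := by
      unfold nT
      refine Multiset.prod_pos fun p hp => ?_
      obtain ⟨z, hz, rfl⟩ := Multiset.mem_map.mp hp
      exact (hPW.pt z (hT.2.2 z hz)).1.pos
    have hn0 : (0 : ℝ) < nT T := by exact_mod_cast hpos
    have hH : (0 : ℝ) < D.Γ.H1 := by exact_mod_cast h.gok.pos.2.2.2
    have hW : (1 : ℝ) ≤ D.Γ.W := by exact_mod_cast h.gok.pos.1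
    have hm : (0 : ℝ) ≤ D.Γ.m := Nat.cast_nonneg _
    have hn1 : (n : ℝ) ≤ (n : ℝ) ^ 2 := by exact_mod_cast Nat.le_self_pow two_ne_zero n
    have hc : (T.card : ℝ) ≤ (((8 : ℕ) : ℝ) + 1) ^ 2 := by
      have h0 : T.card ≤ 8 := hT.1
      have h1 : (T.card : ℝ) ≤ 8 := by exact_mod_cast h0
      push_cast
      linarith
    have hs : (nT T : ℝ) ^ 3 ≤ (D.Y ^ 16) ^ 5 :=
      (pow_le_pow_left₀ hn0.le (size D T hT) 3).trans (pow_le_pow_right₀ hPm (by norm_num))
    have h1 : (1 : ℝ) ≤ (D.Ym * D.Λ) ^ 3 := one_le_pow₀ (one_le_mul_of_one_le_of_one_le hYm hΛ)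
    have h2 : (1 : ℝ) ≤ (2 * D.Y ^ 21) ^ (D.Γ.m + 12) := one_le_pow₀ (by linarith)
    have h3 : 4 * (n : ℝ) * (D.Γ.m : ℝ) * T.card * (nT T : ℝ) ^ 3 ≤ D.Γ.H1 := by
      calc 4 * (n : ℝ) * (D.Γ.m : ℝ) * T.card * (nT T : ℝ) ^ 3
          = 4 * n * D.Γ.m * T.card * 1 * 1 * 1 * (nT T : ℝ) ^ 3 * 1 := by ring
        _ ≤ 1000 * (n : ℝ) ^ 2 * D.Γ.m * (((8 : ℕ) : ℝ) + 1) ^ 2 * (D.Ym * D.Λ) ^ 3 * D.Γ.W *
            (D.V + 1) * (D.Y ^ 16) ^ 5 * (2 * D.Y ^ 21) ^ (D.Γ.m + 12) := by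
          gcongr
          · norm_num
          · linarith
        _ ≤ D.θ ^ 2 / 40 * D.Γ.H1 := hf.bdy
        _ ≤ D.Γ.H1 := by nlinarith
    have h4 : 4 * (n : ℝ) * (D.Γ.m : ℝ) * T.card * (nT T : ℝ) ^ 2 / D.Γ.H1 ≤ PT T := by
      unfold PT
      rw [div_le_div_iff₀ hH hn0]
      linarith
    linarith
  · rcases c with _ | c
    · have h2 : T = 0 := ha
      subst h2
      refine ⟨fun z hz => absurd hz (Multiset.notMem_zero z), ?_, hΛ, fun g _ => ?_⟩
      · show 1 / D.Λ ≤ 1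
        rw [div_le_one (by linarith)]
        exact hΛ
      · rw [Y_none]
        exact hYm
    · obtain ⟨h1, h2, h3, h4⟩ := hf.ad c T j ha
      exact ⟨fun z hz => (h1 z hz).1, h2, h3, fun g _ => h4 g⟩
  · rintro (_ | c) (_ | c')
    · exact le_rfl
    · exact le_rfl
    · exact le_rfl
    · exact heta c c'

end Pool.Agent.MP_f3836a_nt.GV
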