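import Pool.Agent.MP_f3836a_nt.GV.SpecE2

/-! The conclusion at one level. -/

set_option autoImplicit false

namespace Pool.Agent.MP_f3836a_nt.GV

open Finset VE

theorem xCls : OfCls := by
  intro hA hB AF hR n r m _ G D hD s v Λr hv h1 h2 hq Λ0 hΛ
  choose f0 hf using hv
  obtain ⟨-, -, -, -, c0, -, -, -, -, hc, -, -, hm⟩ := hB n r m G D hD
  have Λ1 : 0 < D.Λ := by linarith [hD.num.1]
  have e : ∀ F : ℤ → ℝ, ∑ h : D.HH, 1 / (D.HH.card : ℝ) * F h = (∑ a ∈ D.HH, F a) / D.HH.card :=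
    fun F => by rw [← mul_sum, sum_coe_sort D.HH F]; ring
  have key := hq D.HH (fun _ => 1 / (D.HH.card : ℝ)) (fun h => D.t h) (fun h => D.c h D.k0) f0
    (fun h => ⟨by positivity, (hD.adm h h.2).mem, hD.ids.c0 _ _ (hD.adm h h.2)⟩)
    (by simp [c0.ne']) (fun a => by
      have e1 := e fun b => ind (cellOf G.B.t0 D.k0 (D.J1 + 1) b = a)
      refine le_of_eq_of_le e1 ?_
      by_cases c : a < D.J1 + 1
      · refine le_of_eq_of_le ?_ (hm ⟨a, c⟩).2
        change _ = ((D.HH.filter fun b => D.cell b = ⟨a, c⟩).card : ℝ) / D.HH.card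
        congr 1
        rw [card_filter, Nat.cast_sum]
        refine sum_congr rfl fun b hb => ?_
        rw [← hc b hb]
        simp [ind, Fin.ext_iff]
      · rw [sum_eq_zero, zero_div]
        · have := hD.num.2.2.2.2.2.1
          positivity
        · intro b hb
          rw [← hc b hb, ind, if_neg]
          have := (D.cell b).2
          omega) (fun k => (hf k).prj.1)
  have k2 : ∀ k, ∑ h : D.HH, 1 / (D.HH.card : ℝ) * (∑ w, D.c h D.k0 w *
      Real.log ‖G.B.ev (vP (v k)) w (D.t h)‖ - f0 k (D.t h)) ^ 2 ≤ D.C2 / 2 / D.Λ := fun k => by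
    rw [le_div_iff₀' Λ1]
    exact le_of_eq_of_le (congrArg _ (e fun a => (D.re (v k) (f0 k)).dp a ^ 2))
      (hR n r m G _ (hf k) h1 h2).1
  have k3 := (sum_le_card_nsmul univ _ _ fun k _ => k2 k)
  have k4 : D.C2 ≤ Λr * (s * (D.C2 / 2 / D.Λ)) := by
    refine le_of_eq_of_le (e fun a => ∑ w, D.c a D.k0 w ^ 2).symm (key.trans ?_)
    simpa using mul_le_mul_of_nonneg_left k3 Λ0.le
  have p : 0 ≤ D.C2 := by unfold Dat.C2; positivity
  have k5 : Λr * s * (D.C2 / 2 / D.Λ) ≤ D.Λ * (D.C2 / 2 / D.Λ) :=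
    mul_le_mul_of_nonneg_right hΛ (by positivity)
  rw [mul_div_cancel₀ _ Λ1.ne'] at k5
  obtain ⟨x, -, hx⟩ := (hR n r m G D hD h1 h2).2 (by linarith)
  exact ⟨x, hx, (hA n D.Γ hD.gok).2.2.1 x⟩

end Pool.Agent.MP_f3836a_nt.GV
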