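import Pool.Agent.MP_f3836a_nt.GV.SpecP

/-! The degree of a reduced polynomial in two monic elements is its weight. -/

set_option autoImplicit false

namespace Pool.Agent.MP_f3836a_nt.GV.P

open Polynomial Finset

namespace PLt

variable {A 𝒜 : Type} [CommRing A] [CommRing 𝒜] [Algebra A 𝒜] {S : AddSubmonoid ℕ}
  {μ : Module.Basis S A 𝒜}

/-- monic of degree `d` -/
def Mn (μ : Module.Basis S A 𝒜) (d : S) (g : 𝒜) : Prop :=
  μ.repr g d = 1 ∧ ∀ e : S, (d : ℕ) < e → μ.repr g e = 0

theorem Mn.mul (h : FM μ) {d : S} {g : 𝒜} (hg : Mn μ d g) (s : S) : Mn μ (d + s) (g * μ s) := by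
  have key : ∀ e : S, (d : ℕ) + s ≤ e → μ.repr (g * μ s) e = μ.repr (μ d * μ s) e := fun e he => by
    conv_lhs => rw [← μ.linearCombination_repr g, Finsupp.linearCombination_apply, Finsupp.sum,
      sum_mul, map_sum, Finsupp.finsetSum_apply]
    rw [sum_eq_single d]
    · rw [hg.1, one_smul]
    · intro a _ ha
      rcases lt_or_gt_of_ne (fun e => ha (Subtype.ext e) : (a : ℕ) ≠ d) with c | c
      · rw [smul_mul_assoc, map_smul, Finsupp.smul_apply, h.low a s e (by omega), smul_zero]
      · rw [hg.2 a c, zero_smul, zero_mul, map_zero, Finsupp.zero_apply]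
    · intro c
      rw [Finsupp.notMem_support_iff.1 c, zero_smul, zero_mul, map_zero, Finsupp.zero_apply]
  exact ⟨(key _ le_rfl).trans (h.top d s), fun e he => (key e he.le).trans (h.low d s e he)⟩

theorem Mn.pow (h : FM μ) {d : S} {g : 𝒜} (hg : Mn μ d g) (s : S) (k : ℕ) :
    Mn μ (d + k • s) (g * μ s ^ k) := by
  induction k with
  | zero => simpa using hg
  | succ k ih => rw [succ_nsmul, ← add_assoc, pow_succ, ← mul_assoc]; exact ih.mul h s

theorem mon (h : FM μ) (N m : S) (i j : ℕ) : Mn μ (j • N + i • m) (μ N ^ j * μ m ^ i) := by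
  have a : Mn μ 0 1 := by
    rw [← h.one]
    exact ⟨by simp, fun e he => by
      rw [μ.repr_self, Finsupp.single_eq_of_ne]
      rintro rfl
      exact lt_irrefl _ he⟩
  simpa using (a.pow h N j).pow h m i

theorem coe_wt (N m : S) (i j : ℕ) : ((j • N + i • m : S) : ℕ) = j * N + i * m := by simp

theorem expd (x y : 𝒜) (f : A[X][X]) : aevalAeval x y f =
    ∑ i ∈ f.support, ∑ j ∈ (f.coeff i).support, (f.coeff i).coeff j • (x ^ j * y ^ i) := by
  conv_lhs => rw [f.as_sum_support_C_mul_X_pow, map_sum]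
  refine sum_congr rfl fun i _ => ?_
  rw [map_mul, map_pow, aevalAeval_Y, aevalAeval_C, aeval_def, eval₂_eq_sum, sum, sum_mul]
  exact sum_congr rfl fun j _ => by rw [Algebra.smul_def, mul_assoc]

theorem uniq {N m i j i' j' : ℕ} (h : N.Coprime m) (a : i < N) (b : i' < N)
    (e : j' * N + i' * m = j * N + i * m) : i' = i ∧ j' = j := by
  have c : i' * m ≡ i * m [MOD N] := by
    unfold Nat.ModEq
    rw [← Nat.mul_add_mod_self_right j' N, e, Nat.mul_add_mod_self_right]
  obtain rfl := (c.cancel_right_of_coprime h).eq_of_lt_of_lt b a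
  exact ⟨rfl, Nat.eq_of_mul_eq_mul_right (by omega) (Nat.add_right_cancel e)⟩

end PLt

open PLt in
theorem ltX : LtX := by
  intro A 𝒜 _ _ _ S μ h N m hN hm hc
  refine ⟨fun s hs => ?_, fun f d hf hd => ?_⟩
  · have a := mon h N m 0 m
    have b := mon h N m N 0
    have e : ((0 : ℕ) • N + (N : ℕ) • m : S) = (m : ℕ) • N + (0 : ℕ) • m :=
      Subtype.ext (by rw [coe_wt, coe_wt]; ring)
    rw [pow_zero, mul_one] at a
    rw [pow_zero, one_mul, e] at b
    rw [map_sub, Finsupp.sub_apply, sub_eq_zero]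
    rcases hs.eq_or_lt with c | c
    · obtain rfl : s = (m : ℕ) • N + (0 : ℕ) • m := Subtype.ext (by rw [coe_wt, ← c]; ring)
      rw [a.1, b.1]
    · have c' : (((m : ℕ) • N + (0 : ℕ) • m : S) : ℕ) < s := by rw [coe_wt]; linarith
      rw [a.2 s c', b.2 s c']
  have step : ∀ e, d ≤ e → Wt N m (e + 1) f → Wt N m e f := fun e he hw i j hij => by
    rcases hij.eq_or_lt with c | c
    swap
    · exact hw i j c
    have lt : ∀ i ∈ f.support, i < N := fun i a => (le_natDegree_of_mem_supp i a).trans_lt hf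
    by_contra ne
    have hi : i ∈ f.support := mem_support_iff.2 fun z => ne (by rw [z, coeff_zero])
    have z := hd (j • N + i • m) (by rw [coe_wt]; omega)
    have oth : ∀ i' ∈ f.support, ∀ j', ¬(i' = i ∧ j' = j) →
        μ.repr ((f.coeff i').coeff j' • (μ N ^ j' * μ m ^ i')) (j • N + i • m) = 0 :=
      fun i' a j' b => by
        rcases lt_trichotomy (j' * N + i' * m) (j * N + i * m) with k | k | k
        · rw [map_smul, Finsupp.smul_apply, (mon h N m i' j').2 _ (by rwa [coe_wt, coe_wt]),
            smul_zero]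
        · exact absurd (uniq hc (lt i hi) (lt i' a) k) b
        · rw [hw i' j' (by omega), zero_smul, map_zero, Finsupp.zero_apply]
    rw [expd, map_sum, Finsupp.finsetSum_apply, sum_eq_single_of_mem i hi, map_sum,
      Finsupp.finsetSum_apply, sum_eq_single_of_mem j (mem_support_iff.2 ne), map_smul,
      Finsupp.smul_apply, (mon h N m i j).1, smul_eq_mul, mul_one] at z
    · exact ne z
    · exact fun j' _ b => oth i hi j' fun k => b k.2
    · intro i' a b
      rw [map_sum, Finsupp.finsetSum_apply]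
      exact sum_eq_zero fun j' _ => oth i' a j' fun k => b k.1
  obtain ⟨e, he⟩ := exists_wt N m f
  have : ∀ k, Wt N m (d + k) f → Wt N m d f := fun k => by
    induction k with
    | zero => exact id
    | succ k ih => exact fun a => ih (step _ (Nat.le_add_right _ _) a)
  exact this e (he.mono (Nat.le_add_left _ _))

end Pool.Agent.MP_f3836a_nt.GV.P
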