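import Pool.Agent.MP_f3836a_nt.GV.SpecR

/-! A table with nonzero discriminant has a basis of homomorphisms. -/

set_option autoImplicit false

namespace Pool.Agent.MP_f3836a_nt.GV.R

open Finset Module

namespace RHoms

variable {n : ℕ} {A : Type} [CommRing A] [Algebra ℂ A] (y : Basis (Fin n) ℂ A)

theorem ker (h : Algebra.discr ℂ y ≠ 0) {x : A} (hx : ∀ φ : A →ₐ[ℂ] ℂ, φ x = 0) : x = 0 := by
  have := Module.Finite.of_basis y
  have := Module.Free.of_basis y
  have := IsArtinianRing.of_finite ℂ A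
  have h1 : x ∈ Ideal.jacobson (⊥ : Ideal A) := Ideal.mem_sInf.2 fun {m} hm => by
    have := hm.2
    let := Ideal.Quotient.field m
    let e := AlgEquiv.ofBijective (Algebra.ofId ℂ (A ⧸ m))
      (IsAlgClosed.algebraMap_bijective_of_isIntegral (k := ℂ) (K := A ⧸ m))
    exact Ideal.Quotient.eq_zero_iff_mem.1 (e.symm.map_eq_zero_iff.1
      (hx (e.symm.toAlgHom.comp (Ideal.Quotient.mkₐ ℂ m))))
  obtain ⟨k, hk⟩ := IsArtinianRing.isNilpotent_jacobson_bot (R := A)
  have h2 : IsNilpotent x := ⟨k, (hk.le (Ideal.pow_mem_pow h1 k) :)⟩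
  refine y.equivFun.map_eq_zero_iff.1 (Matrix.eq_zero_of_mulVec_eq_zero h ?_)
  rw [Algebra.traceMatrix_of_basis_mulVec y x]
  exact funext fun i => (Algebra.isNilpotent_trace_of_isNilpotent
    ((Commute.all _ _).isNilpotent_mul_right h2)).eq_zero

theorem mul (L : A →ₗ[ℂ] ℂ) (i j : Fin n) :
    L (y i * y j) = ∑ l, Algebra.leftMulMatrix y (y i) l j * L (y l) := by
  conv_lhs => rw [← y.sum_repr (y i * y j), map_sum]
  simp only [map_smul, smul_eq_mul, Algebra.leftMulMatrix_eq_repr_mul]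

end RHoms

theorem sHoms : SHoms := by
  rintro n _ M ⟨A, _, _, y, y0, hM⟩ hd
  obtain rfl := funext hM
  have := Module.Finite.of_basis y
  have := Module.Free.of_basis y
  have h : Algebra.discr ℂ y ≠ 0 := by
    refine ne_of_eq_of_ne (congrArg Matrix.det (Matrix.ext fun i j => ?_)) hd
    rw [Algebra.traceMatrix_apply, Algebra.traceForm_apply, Algebra.trace_eq_matrix_trace y, map_mul,
      Matrix.of_apply]
  have := Fintype.ofFinite (A →ₐ[ℂ] ℂ)
  have c : Fintype.card (A →ₐ[ℂ] ℂ) = n := by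
    have c1 := card_algHom_le_finrank ℂ A ℂ
    have c2 := LinearMap.finrank_le_finrank_of_injective
      (f := LinearMap.pi fun φ : A →ₐ[ℂ] ℂ => φ.toLinearMap)
      ((injective_iff_map_eq_zero _).2 fun x hx => RHoms.ker y h (congrFun hx))
    rw [finrank_fintype_fun_eq_card] at c2
    rw [finrank_eq_card_basis y, Fintype.card_fin] at c1 c2
    exact le_antisymm (Nat.card_eq_fintype_card.ge.trans c1) c2
  let e := (Fintype.equivFinOfCardEq c).symm
  refine ⟨fun k i => e k (y i), fun k => ⟨by simp only [y0, map_one], fun i j => ?_⟩, fun β hβ => ?_,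
    fun s hs => ?_⟩
  · exact (map_mul _ _ _).symm.trans (RHoms.mul y (e k).toLinearMap i j)
  · refine funext (Fintype.linearIndependent_iff.1 y.linearIndependent β (RHoms.ker y h fun φ => ?_))
    obtain ⟨k, rfl⟩ := e.surjective φ
    simpa using hβ k
  · obtain ⟨k, hk⟩ := e.surjective (AlgHom.ofLinearMap (y.constr ℂ s)
      (by rw [← y0, Basis.constr_basis, hs.1]) ((LinearMap.map_mul_iff _).2 (y.ext fun i =>
        y.ext fun j => by simpa [RHoms.mul y (y.constr ℂ s) i j] using (hs.2 i j).symm)))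
    exact ⟨k, funext fun i => by simp [hk]⟩

end Pool.Agent.MP_f3836a_nt.GV.R
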