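import Pool.Agent.MP_f3836a_nt.GV.SpecR

/-! The coefficients are constant. -/

set_option autoImplicit false

namespace Pool.Agent.MP_f3836a_nt.GV.R

open Polynomial Finset VE Filter Topology
open scoped ComplexConjugate Matrix

namespace RRig1

theorem loc_inj (z : ℝ → ℂ) (a : ℝ) (hz : AnalyticAt ℝ z a) (h : (deriv z a).re ≠ 0) :
    ∃ U ∈ 𝓝 a, Set.InjOn z U := by
  have h1 : HasStrictDerivAt z (deriv z a) a := hz.hasStrictDerivAt
  have h2 : HasStrictDerivAt (fun t => (z t).re) (deriv z a).re a :=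
    Complex.reCLM.hasStrictFDerivAt.comp_hasStrictDerivAt a h1
  have h3 := (h2.hasStrictFDerivAt_equiv h).eventually_left_inverse
  refine ⟨_, h3, fun x hx y hy e => ?_⟩
  have hx' := hx.out
  have hy' := hy.out
  rw [← hx', ← hy', e]

theorem loc_ne (u v : ℝ → ℂ) (a : ℝ) (hu : ContinuousAt u a) (hv : ContinuousAt v a)
    (h : u a ≠ v a) : ∃ U ∈ 𝓝 a, ∀ t ∈ U, ∀ t' ∈ U, u t ≠ v t' := by
  obtain ⟨A, B, hA, hB, ha, hb, hd⟩ := t2_separation h
  refine ⟨u ⁻¹' A ∩ v ⁻¹' B, inter_mem (hu (hA.mem_nhds ha)) (hv (hB.mem_nhds hb)),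
    fun t ht t' ht' e => ?_⟩
  exact Set.disjoint_left.1 hd ht.1 (e ▸ ht'.2)

theorem loc {r : ℕ} (z : Fin r → ℝ → ℂ) (a : ℝ) (hz : ∀ w, AnalyticAt ℝ (z w) a)
    (hd : Dis fun w => z w a) (h : ∀ w, (deriv (z w) a).re ≠ 0) :
    ∃ U ∈ 𝓝 a, ∀ w w', ∀ t ∈ U, ∀ t' ∈ U,
      (z w t = z w' t' → w = w' ∧ t = t') ∧ z w t ≠ conj (z w' t') := by
  have key : ∀ p : Fin r × Fin r, ∃ U ∈ 𝓝 a, ∀ t ∈ U, ∀ t' ∈ U,
      (z p.1 t = z p.2 t' → p.1 = p.2 ∧ t = t') ∧ z p.1 t ≠ conj (z p.2 t') := by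
    rintro ⟨w, w'⟩
    obtain ⟨U, hU, h1⟩ := loc_ne (z w) (fun t => conj (z w' t)) a (hz w).continuousAt
      (Complex.continuous_conj.continuousAt.comp (hz w').continuousAt) (hd.2 w w')
    by_cases e : w = w'
    · subst e
      obtain ⟨V, hV, h2⟩ := loc_inj (z w) a (hz w) (h w)
      exact ⟨U ∩ V, inter_mem hU hV, fun t ht t' ht' =>
        ⟨fun e => ⟨rfl, h2 ht.2 ht'.2 e⟩, h1 t ht.1 t' ht'.1⟩⟩
    · obtain ⟨V, hV, h2⟩ := loc_ne (z w) (z w') a (hz w).continuousAt (hz w').continuousAt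
        fun e' => e (hd.1 e')
      exact ⟨U ∩ V, inter_mem hU hV, fun t ht t' ht' =>
        ⟨fun e => absurd e (h2 t ht.2 t' ht'.2), h1 t ht.1 t' ht'.1⟩⟩
  choose U hU h1 using key
  refine ⟨⋂ p, U p, iInter_mem.2 hU, fun w w' t ht t' ht' => ?_⟩
  exact h1 (w, w') t (Set.mem_iInter.1 ht _) t' (Set.mem_iInter.1 ht' _)

end RRig1

theorem sRig1 : SRig1 := by
  intro h0 r d a b g c z hab hg hc hz hd hre hrel w
  have ha : a ∈ Set.Icc a b := ⟨le_rfl, hab.le⟩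
  obtain ⟨U, hU, h1⟩ := RRig1.loc z a (fun w => hz w a ha) hd hre
  obtain ⟨ε, hε, hεU⟩ := Metric.mem_nhds_iff.1 (inter_mem hU (Iio_mem_nhds hab))
  have van : ∀ s ∈ Set.Ioo a (a + ε), deriv (c w) s = 0 := by
    intro s hs
    let t : Fin (d + 1) → ℝ := fun j => a + (s - a) / ((j : ℕ) + 1)
    have hsa : 0 < s - a := sub_pos.2 hs.1
    have ht : ∀ j, a < t j ∧ t j ≤ s := fun j => by
      have hj : (1 : ℝ) ≤ ((j : ℕ) : ℝ) + 1 := by linarith [Nat.cast_nonneg (α := ℝ) (j : ℕ)]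
      have h2 : 0 < (s - a) / (((j : ℕ) : ℝ) + 1) := div_pos hsa (by linarith)
      have h3 := div_le_self hsa.le hj
      constructor <;> simp only [t] <;> linarith
    have hm : ∀ j, t j ∈ U ∩ Set.Iio b := fun j => hεU (by
      rw [Real.ball_eq_Ioo]
      exact ⟨by linarith [(ht j).1], by linarith [(ht j).2, hs.2]⟩)
    have hI : ∀ j, t j ∈ Set.Icc a b := fun j => ⟨(ht j).1.le, (hm j).2.le⟩
    have hinj : Function.Injective t := fun i j e => by
      have e1 : (s - a) / (((i : ℕ) : ℝ) + 1) = (s - a) / (((j : ℕ) : ℝ) + 1) := add_left_cancel e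
      rw [div_eq_div_iff (by positivity) (by positivity)] at e1
      have e2 := add_right_cancel (mul_left_cancel₀ hsa.ne' e1)
      exact Fin.ext (by exact_mod_cast e2.symm)
    have := h0 r d a b g c z t (fun j => ⟨hI j, hg _ (hI j)⟩)
      (fun w j => ⟨(hc w _ (hI j)).differentiableAt, (hz w _ (hI j)).differentiableAt⟩) hinj
      ⟨fun x y e => by
        have := (h1 x.2 y.2 _ (hm x.1).1 _ (hm y.1).1).1 e
        exact Prod.ext (hinj this.2) this.1,
       fun x y => (h1 x.2 y.2 _ (hm x.1).1 _ (hm y.1).1).2⟩ hrel w 0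
    simpa [t] using this
  have hmid : a + ε / 2 ∈ Set.Icc a b := ⟨by linarith, le_of_lt (hεU (by
    rw [Real.ball_eq_Ioo]
    exact ⟨by linarith, by linarith⟩)).2⟩
  have hzero : Set.EqOn (deriv (c w)) 0 (Set.Icc a b) :=
    (hc w).deriv.eqOn_zero_of_preconnected_of_eventuallyEq_zero isPreconnected_Icc hmid
      (mem_of_superset (Ioo_mem_nhds (by linarith) (by linarith)) van)
  intro t ht
  refine constant_of_has_deriv_right_zero (hc w).continuousOn (fun x hx => ?_) t ht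
  have hx' : x ∈ Set.Icc a b := Set.Ico_subset_Icc_self hx
  have h2 := (hc w x hx').differentiableAt.hasDerivAt
  rw [hzero hx'] at h2
  exact h2.hasDerivWithinAt

end Pool.Agent.MP_f3836a_nt.GV.R
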