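import Pool.Agent.MP_f3836a_nt.GV.Defs

/-! Part D: equidistribution in the big curve. -/

set_option autoImplicit false

namespace Pool.Agent.MP_f3836a_nt.GV

open Polynomial Finset VE

/-- a box of coordinates -/
noncomputable def box {ι : Type} [Fintype ι] [DecidableEq ι] (lo : ι → ℤ) (H1 : ℕ) :
    Finset (ι → ℤ) := Fintype.piFinset fun j => Ico (lo j) (lo j + H1)

/-- mean over the box -/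
noncomputable def Eb {ι : Type} [Fintype ι] [DecidableEq ι] (lo : ι → ℤ) (H1 : ℕ)
    (F : (ι → ℤ) → ℝ) : ℝ := (∑ x ∈ box lo H1, F x) / (box lo H1).card

/-- the family of big curves; the small curves are `k² x - a` -/
structure Gf (n : ℕ) where
  T : Tb n
  P : Ps n
  t1 : ℤ
  m : ℕ
  W : ℕ
  W' : ℕ
  k : ℕ
  As : Fin n → ℤ[X]
  lo : Ix T.e m → ℤ
  H1 : ℕ

namespace Gf

variable {n : ℕ} (Γ : Gf n)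

abbrev I : Type := Ix Γ.T.e Γ.m → ℤ

def b : ℤ := (Γ.k : ℤ) ^ 2

noncomputable def gA (x : Γ.I) (i : Fin n) : ℤ[X] :=
  Γ.As i + C (Γ.W' : ℤ) * (X - C Γ.t1) * vP x i

/-- the point is a zero of `g` -/
def zr (x : Γ.I) (z : Pt) : Prop := Γ.P.Zr (Γ.gA x) z

noncomputable def E (F : Γ.I → ℝ) : ℝ := Eb Γ.lo Γ.H1 F

/-- the order of a small curve -/
def Mh (a : ℤ) : Tab ℤ n := Γ.T.Mh a Γ.b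

/-- the value of `g` on a small curve -/
noncomputable def gam (a : ℤ) (x : Γ.I) : Fin n → ℤ := Γ.T.val Γ.m (Γ.gA x) a Γ.b

/-- its norm -/
noncomputable def nm (a : ℤ) (x : Γ.I) : ℤ := Nm (Γ.Mh a) (Γ.gam a x)

def ss (z : Pt) (i : Fin n) : ℤ := Γ.b ^ Γ.T.e i * Γ.P.sv z i

def on (a : ℤ) (z : Pt) : Prop := On a Γ.b z

/-- the level of a small curve -/
def lev (a : ℤ) : ℕ := Γ.W * (a - Γ.t1 * Γ.b).natAbs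

/-- the resultant of two curves -/
def res (a a' : ℤ) : ℤ := a * Γ.b - a' * Γ.b

/-- a valid point -/
def Vp (z : Pt) : Prop := Γ.P.Is z ∧ ¬z.p ∣ Γ.W

/-- heights -/
def Ht (B : ℝ) (a : ℤ) : Prop :=
  |(a : ℝ)| ≤ B ∧ (Γ.b : ℝ) ≤ B ∧ |((a - Γ.t1 * Γ.b : ℤ) : ℝ)| ≤ B

/-- the modulus used to move the first curve -/
def modQ (a : ℤ) (l : List ℤ) (N : ℕ) : ℕ :=
  Γ.lev a * Γ.W' * Γ.k ^ 2 * (l.map fun a' => (Γ.res a a').natAbs).prod * N ^ 2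

structure Cu (a : ℤ) : Prop where
  cop : IsCoprime a (Γ.k : ℤ)
  ne : a - Γ.t1 * Γ.b ≠ 0
  cong : ∀ x, (Γ.nm a x).natAbs.Coprime (Γ.lev a)

structure Ok [NeZero n] : Prop where
  tb : Γ.T.Ok
  alg : Γ.P.Alg Γ.T Γ.t1
  five : ∀ i, Γ.T.e i + 5 ≤ Γ.m
  mon : Γ.T.Mon Γ.m Γ.As
  pos : 0 < Γ.W ∧ 0 < Γ.W' ∧ 0 < Γ.k ∧ 0 < Γ.H1
  rad : ∀ l : ℕ, l.Prime → l ∣ Γ.W' ∨ l ∣ Γ.k ∨ l ≤ 2 * n → l ∣ Γ.W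

end Gf

/-- homogenised tables -/
def TbS : Prop := ∀ (n : ℕ) [NeZero n] (T : Tb n) (a b : ℤ), T.Ok →
  (∀ (R : Type) [CommRing R] (t : R), (a : R) = b * t →
    (∀ i l j, (T.Mh a b i l j : R) * (b : R) ^ T.e l = (b : R) ^ (T.e i + T.e j) * T.fib t i l j) ∧
    ∀ m A, T.Mon m A → (∀ i, (T.val m A a b i : R) = (b : R) ^ (m - T.e i) * aeval t (A i)) ∧
      (hv (T.N A) (n * m) a b : R) = (b : R) ^ (n * m) * Nm (T.fib t) fun i => aeval t (A i)) ∧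
  T.Mh a b 0 = 1 ∧ T.M 0 = 1 ∧
  (b ≠ 0 → ∀ m A, T.Mon m A → Nm (T.Mh a b) (T.val m A a b) = hv (T.N A) (n * m) a b)

/-- totally split tables over a field -/
def SplS : Prop := ∀ (n : ℕ) [NeZero n] (F : Type) [Field F] (M : Tab F n),
  (∀ s β, Hm M s → ∑ i, β i * s i = 0 → Nm M β = 0) ∧
  ∀ (S : Finset ℕ) (s : ℕ → Fin n → F), S.card = n → (∀ y ∈ S, Hm M (s y)) →
    (∀ β : Fin n → F, (∀ y ∈ S, ∑ i, β i * s y i = 0) → β = 0) →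
    (∀ β, Nm M β = ∏ y ∈ S, ∑ i, β i * s y i ∧
      (Mx M β).charpoly = ∏ y ∈ S, (X - C (∑ i, β i * s y i))) ∧ disc M ≠ 0 ∧
    ∀ y0 ∈ S, ∃ β : Fin n → F, ∀ y ∈ S, ∑ i, β i * s y i = if y = y0 then 1 else 0

/-- labels of points -/
def FyS : Prop := ∀ r p : ℕ, 2 * r < p → (Fy r p).card = 2 * r ∧
  ∀ y ∈ Fy r p, 0 < y ∧ y < p ∧ p - y ∈ Fy r p

/-- dictionary between `g` and its values -/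
def ApiS : Prop := ∀ (n : ℕ) [NeZero n] (Γ : Gf n), Γ.Ok →
  Fintype.card (Ix Γ.T.e Γ.m) ≤ n * Γ.m ∧ Γ.E (fun _ => 1) = 1 ∧
  (∀ x, Γ.T.Mon Γ.m (Γ.gA x)) ∧ (∀ a, Γ.Mh a 0 = 1) ∧
  (∀ a x, Γ.nm a x = hv (Γ.T.N (Γ.gA x)) (n * Γ.m) a Γ.b) ∧
  (∀ a z, Γ.Vp z → Γ.on a z → z.p.Prime ∧ ¬z.p ∣ Γ.lev a ∧
    (∀ x, InG Γ.ss (Γ.gam a x) z ↔ Γ.zr x z) ∧
    Hm (fun i => (Γ.Mh a i).map (Int.cast : ℤ → ZMod z.p)) (fun i => (Γ.ss z i : ZMod z.p)) ∧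
    (∀ β, InG Γ.ss β z → (z.p : ℤ) ∣ Nm (Γ.Mh a) β) ∧ ¬(z.p : ℤ) ∣ disc (Γ.Mh a) ∧
    ∀ β : Fin n → ℤ, (∀ y ∈ Fy Γ.P.r z.p, InG Γ.ss β ⟨z.p, z.t, y⟩) → ∀ i, (z.p : ℤ) ∣ β i) ∧
  ∀ (a a' : ℤ) (l : ℕ) (x : Γ.I), l.Prime → ¬l ∣ Γ.W → (l : ℤ) ∣ Γ.res a a' →
    ((l : ℤ) ∣ Γ.nm a x ↔ (l : ℤ) ∣ Γ.nm a' x)

/-- averaging over short shifts -/
def ShiftS : Prop := ∀ {ι : Type} [Fintype ι] [DecidableEq ι] (lo : ι → ℤ) (H1 : ℕ)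
  (F : (ι → ℤ) → ℝ) (M s : ℝ) {κ : Type} (Vs : Finset κ) (ω : κ → ℝ) (σ : κ → ι → ℤ), 0 < H1 →
  (∀ x, |F x| ≤ M) → (∀ v, 0 ≤ ω v) → ∑ v ∈ Vs, ω v = 1 → 0 ≤ s →
  (∀ v ∈ Vs, ∀ i, |(σ v i : ℝ)| ≤ s) →
  |Eb lo H1 F - Eb lo H1 fun x => ∑ v ∈ Vs, ω v * F (x + σ v)| ≤ 2 * Fintype.card ι * M * s / H1

/-- Lagrange shifts -/
def LagS : Prop := ∀ (n : ℕ) [NeZero n] (Γ : Gf n) (a : ℤ) (l : List ℤ) (N : ℕ) (B V : ℝ), Γ.Ok →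
  Γ.Cu a → l.length ≤ 2 → (∀ a' ∈ l, Γ.Ht B a') → Γ.Ht B a → 2 ≤ B → 0 ≤ V →
  ∀ v : Fin n → ℤ, (∀ i, |(v i : ℝ)| ≤ V) → ∃ σ : Γ.I,
    (∀ j, |(σ j : ℝ)| ≤ Γ.W * (N : ℝ) ^ 2 * V * (2 * B) ^ (Γ.m + 8)) ∧ ∀ x,
      Γ.gam a (x + σ) = Γ.gam a x + (Γ.modQ a l N : ℤ) • v ∧
      ∀ a' ∈ l, Γ.gam a' (x + σ) = Γ.gam a' x

/-- removing a point which lies on no curve -/
def MvPS : Prop := ∀ (n : ℕ) [NeZero n] (Γ : Gf n) (l : List ℤ) (T : Multiset Pt) (z : Pt)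
  (B M : ℝ) (Ξ : Γ.I → ℝ), Γ.Ok → l.length ≤ 3 → (∀ a ∈ l, Γ.Ht B a ∧ ¬Γ.on a z) → 2 ≤ B →
  Nd (z ::ₘ T) → (∀ z' ∈ z ::ₘ T, Γ.Vp z') → (∀ x, |Ξ x| ≤ M) →
  (∀ x y, (∀ a ∈ l, Γ.gam a x = Γ.gam a y) → Ξ x = Ξ y) →
  |Γ.E (fun x => ind (∀ z' ∈ z ::ₘ T, Γ.zr x z') * Ξ x)
    - (1 / (z.p : ℝ)) * Γ.E fun x => ind (∀ z' ∈ T, Γ.zr x z') * Ξ x|
    ≤ 2 * n * Γ.m * M * ((nT (z ::ₘ T) : ℝ) * (2 * B) ^ 3) / Γ.H1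

/-- probability of containing a set with at most two points over each prime -/
def PcAS : Prop := ∀ (n : ℕ) [NeZero n] (Γ : Gf n) (T : Multiset Pt), Γ.Ok → T.Nodup →
  (∀ z ∈ T, Γ.Vp z) → (∀ p, (T.map Pt.p).count p ≤ 2) →
  Γ.E (fun x => ind (∀ z ∈ T, Γ.zr x z)) ≤ PT T + 4 * n * Γ.m * T.card * (nT T : ℝ) ^ 2 / Γ.H1

/-- degenerate classes -/
def PcBS : Prop := ∀ (n : ℕ) [NeZero n] (Γ : Gf n) (a : ℤ) (T : Multiset Pt), Γ.Ok → Nd T →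
  (∀ z ∈ T, Γ.Vp z) →
  (∀ l : ℕ, l.Prime → ¬l ∣ Γ.lev a → (∀ z ∈ T, z.p = l → ¬Γ.on a z) →
    Γ.E (fun x => ind ((∀ z ∈ T, Γ.zr x z) ∧ (l : ℤ) ∣ Γ.nm a x))
      ≤ 2 * n / l * PT T + 64 * n ^ 2 * Γ.m * (T.card + 1) * ((nT T : ℝ) * l) ^ 2 / Γ.H1) ∧
  ∀ z0 ∈ T, Γ.on a z0 →
    Γ.E (fun x => ind ((∀ z ∈ T, Γ.zr x z) ∧ (z0.p : ℤ) ^ 2 ∣ Γ.nm a x))
      ≤ 2 * n / z0.p * PT T + 64 * n ^ 2 * Γ.m * (T.card + 1) * (nT T : ℝ) ^ 4 / Γ.H1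

/-- bounds for the unit correction -/
def RatS : Prop := ∀ (n : ℕ) [NeZero n] (M : Tab ℤ n) (W Q : ℕ), M 0 = 1 →
  (∀ l : ℕ, l.Prime → l ≤ 2 * n → l ∣ W) →
  1 ≤ ratG M W Q ∧ ratG M W Q ≤ Real.exp (2 * n * sig W Q)

/-- the data of a family of small curves -/
structure Fam (n : ℕ) (C : Type) where
  cu : C → ℤ
  St : C → Finset (Multiset Pt)
  w : C → Multiset Pt → ℝ
  ρ : C → ℝ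
  LL : C → Finset ℕ
  ad : C → Multiset Pt → ℕ → Prop
  fm : C → Multiset Pt → ℕ → ℝ
  Sh : C → (Fin n → ℤ) → Prop

namespace Fam

variable {n : ℕ} {C : Type} (Φ : Fam n C) (Γ : Gf n)

/-- the normalised weight of decompositions -/
noncomputable def Y (h : C) (T : Multiset Pt) (j : ℕ) (x : Γ.I) : ℝ :=
  RwG (Γ.Mh (Φ.cu h)) Γ.ss (Φ.St h) (Φ.w h) T j (Γ.gam (Φ.cu h) x) / Φ.ρ h

/-- the correlation defect of an ordered pair -/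
noncomputable def eta (K : ℝ) (h h' : C) : ℝ :=
  et1 Γ.W (Φ.LL h) K (Γ.res (Φ.cu h) (Φ.cu h')) ^ n - 1

/-- hypotheses of the equidistribution theorem; `q0 ≤ p`, `n_T ≤ Pm`, `card T ≤ Tm` -/
structure Ok (B V Λ Ym q0 Pm ε K : ℝ) (Tm : ℕ) : Prop where
  cu : ∀ h, Γ.Cu (Φ.cu h) ∧ Γ.Ht B (Φ.cu h)
  inj : Function.Injective Φ.cu
  st : ∀ h, ∀ s ∈ Φ.St h, 0 ≤ Φ.w h s ∧ ∀ z ∈ s, z.p.Prime ∧ q0 ≤ z.p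
  rho : ∀ h, 0 < Φ.ρ h
  ll : ∀ h, ∀ l ∈ Φ.LL h, l.Prime ∧ ¬l ∣ Γ.lev (Φ.cu h)
  ad : ∀ h T j, Φ.ad h T j → (∀ z ∈ T, Γ.on (Φ.cu h) z ∧ z.p ∉ Φ.LL h) ∧
    1 / Λ ≤ Φ.fm h T j ∧ Φ.fm h T j ≤ Λ ∧ ∀ x, Φ.Y Γ h T j x ≤ Ym
  sfe : ∀ h, SFG (Γ.Mh (Φ.cu h)) Γ.ss (Γ.lev (Φ.cu h)) (Φ.St h) (Φ.w h) (Φ.ρ h) (Φ.LL h) (Φ.ad h)
    (Φ.fm h) (Φ.Sh h) (Γ.W * Γ.W' * (2 * B) ^ 6 * Pm ^ 2) V ε K
  sh : ∀ h, ∀ x ∈ box Γ.lo Γ.H1, Φ.Sh h (Γ.gam (Φ.cu h) x) ∧ 0 < Γ.nm (Φ.cu h) x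
  num : 2 ≤ B ∧ 0 ≤ V ∧ 1 ≤ Λ ∧ 1 ≤ Ym ∧ 5 ≤ q0 ∧ 1 ≤ Pm ∧ 0 < ε ∧ ε ≤ 1 / 100 ∧ 2 ≤ K
  deg : 100 * n * (Tm + 1) * Real.log (2 * B) * (Ym * Λ) ^ 3 ≤ ε * q0
  bdy : 1000 * n ^ 2 * Γ.m * (Tm + 1) ^ 2 * (Ym * Λ) ^ 3 * Γ.W * (V + 1) * Pm ^ 5
    * (2 * B) ^ (Γ.m + 12) ≤ ε * Γ.H1

/-- an allowed configuration -/
structure Cf (q0 Pm : ℝ) (Tm : ℕ) (l : List (C × Multiset Pt × ℕ)) (T : Multiset Pt) : Prop where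
  len : l.length ≤ 3
  nodup : (l.map Prod.fst).Nodup
  nd : Nd T
  card : T.card ≤ Tm
  size : (nT T : ℝ) ≤ Pm
  pt : ∀ z ∈ T, Γ.Vp z ∧ q0 ≤ z.p
  ad : ∀ a ∈ l, Φ.ad a.1 a.2.1 a.2.2 ∧ a.2.1 ≤ T ∧ ∀ z ∈ T, z ∈ a.2.1 ∨ ¬Γ.on (Φ.cu a.1) z

/-- the mean of a configuration -/
noncomputable def EY (l : List (C × Multiset Pt × ℕ)) (T : Multiset Pt) : ℝ :=
  Γ.E fun x => ind (∀ z ∈ T, Γ.zr x z) * (l.map fun a => Φ.Y Γ a.1 a.2.1 a.2.2 x).prod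

/-- the model value -/
noncomputable def MY (l : List (C × Multiset Pt × ℕ)) (T : Multiset Pt) : ℝ :=
  PT T * (l.map fun a => Φ.fm a.1 a.2.1 a.2.2).prod

/-- the degenerate classes for the first curve -/
def Bad (q0 : ℝ) (a : C × Multiset Pt × ℕ) (l : List (C × Multiset Pt × ℕ)) (T : Multiset Pt)
    (x : Γ.I) : Prop :=
  (∀ z ∈ T, Γ.zr x z) ∧ ((∃ z ∈ a.2.1, (z.p : ℤ) ^ 2 ∣ Γ.nm (Φ.cu a.1) x) ∨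
    ∃ b ∈ l, ∃ q : ℕ, q.Prime ∧ q0 ≤ q ∧ ¬q ∣ Γ.lev (Φ.cu a.1) ∧
      (q : ℤ) ∣ Γ.res (Φ.cu a.1) (Φ.cu b.1) ∧ (∀ z ∈ a.2.1, z.p ≠ q) ∧ (q : ℤ) ∣ Γ.nm (Φ.cu a.1) x)

end Fam

/-- the degenerate classes are rare -/
def BadS : Prop := ∀ (n : ℕ) [NeZero n] {C : Type} (Φ : Fam n C) (Γ : Gf n)
  (B V Λ Ym q0 Pm ε K : ℝ) (Tm : ℕ) (a : C × Multiset Pt × ℕ) (l : List (C × Multiset Pt × ℕ))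
  (T : Multiset Pt), Γ.Ok → Φ.Ok Γ B V Λ Ym q0 Pm ε K Tm → Φ.Cf Γ q0 Pm Tm (a :: l) T →
  Γ.E (fun x => ind (Φ.Bad Γ q0 a l T x)) * (Ym * Λ) ^ 3 ≤ ε / 2 * PT T

/-- removing the first curve when every point lies on one of the curves -/
def MvCS : Prop := ∀ (n : ℕ) [NeZero n] {C : Type} (Φ : Fam n C) (Γ : Gf n)
  (B V Λ Ym q0 Pm ε K : ℝ) (Tm : ℕ) (a : C × Multiset Pt × ℕ) (l : List (C × Multiset Pt × ℕ))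
  (T : Multiset Pt), Γ.Ok → Φ.Ok Γ B V Λ Ym q0 Pm ε K Tm → Φ.Cf Γ q0 Pm Tm (a :: l) T →
  (∀ z ∈ T, ∃ b ∈ a :: l, z ∈ b.2.1) →
  Φ.EY Γ (a :: l) T ≤ (1 + ε) ^ 2 * (l.map fun b => 1 + Φ.eta Γ K a.1 b.1).prod
      * (Φ.fm a.1 a.2.1 a.2.2 * Φ.EY Γ l T) + ε * Φ.MY (a :: l) T ∧
  ((∀ b ∈ l, ∀ q ∈ Φ.LL a.1, ¬(q : ℤ) ∣ Γ.res (Φ.cu a.1) (Φ.cu b.1)) →
    (1 - ε) * (Φ.fm a.1 a.2.1 a.2.2 * Φ.EY Γ l T) - ε * Φ.MY (a :: l) T ≤ Φ.EY Γ (a :: l) T)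

/-- equidistribution -/
def EqS : Prop := ∀ (n : ℕ) [NeZero n] {C : Type} (Φ : Fam n C) (Γ : Gf n)
  (B V Λ Ym q0 Pm ε K : ℝ) (Tm : ℕ) (l : List (C × Multiset Pt × ℕ)) (T : Multiset Pt), Γ.Ok →
  Φ.Ok Γ B V Λ Ym q0 Pm ε K Tm → Φ.Cf Γ q0 Pm Tm l T →
  |Φ.EY Γ l T - Φ.MY l T|
    ≤ ((1 + ε) ^ 20 * pp (Φ.eta Γ K) (l.map Prod.fst) - 1) * Φ.MY l T

def OfApi : Prop := TbS → SplS → FyS → ApiS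
def OfMvP : Prop := ApiS → ShiftS → MvPS
def OfPcA : Prop := ApiS → ShiftS → SplS → FyS → PcAS
def OfPcB : Prop := ApiS → ShiftS → SplS → FyS → PcAS → PcBS
def OfBad : Prop := PcBS → BadS
def OfMvC : Prop := ApiS → ShiftS → LagS → BadS → RatS → MvCS
def OfEq : Prop := ApiS → MvPS → MvCS → EqS

end Pool.Agent.MP_f3836a_nt.GV
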