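import Pool.Agent.MP_f3836a_nt.GV.SpecL
import Pool.Agent.MP_f3836a_nt.GV.SpecD

/-! Block A, global part: from the analytic core to the engine. -/

set_option autoImplicit false

namespace Pool.Agent.MP_f3836a_nt.GV.A

open Polynomial NumberField IsDedekindDomain VE VE.A

/-- places: values, orders and a real function on each residue field -/
structure Pv (𝒜 ι : Type) [CommRing 𝒜] (κ : ι → Type) [∀ v, Field (κ v)] where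
  ev : ∀ v, 𝒜 →+* κ v
  ord : ι → 𝒜 → ℕ
  lam : ∀ v, κ v → ℝ

namespace Pv

variable {𝒜 ι : Type} [CommRing 𝒜] {κ : ι → Type} [∀ v, Field (κ v)] (D : Pv 𝒜 ι κ)

/-- the pairing -/
noncomputable def L (g u : 𝒜) : ℝ := ∑ᶠ v, (D.ord v g : ℝ) * D.lam v (D.ev v u)

structure Ok (x : 𝒜) (W : ℕ) : Prop where
  fin : ∀ g, g ≠ 0 → {v | D.ev v g = 0}.Finite
  ord0 : ∀ v g, g ≠ 0 → (D.ord v g = 0 ↔ D.ev v g ≠ 0)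
  add : ∀ v, GP.Adr (D.lam v)
  sur : ∀ v z, ∃ (a : 𝒜) (n : ℕ), n ≠ 0 ∧ D.ev v a = n * z
  sep : ∀ v v', v ≠ v' → ∃ u, D.ev v u = 0 ∧ D.ev v' u ≠ 0
  rad : ∀ g, (∀ v, D.ev v x = 0 → D.ev v g = 0) → ∃ j : ℕ, x ∣ g ^ j
  sym : ∀ g u, g ≠ 0 → u ≠ 0 → (∀ v, D.ev v g = 0 → D.ev v u ≠ 0) →
    Ideal.span {u, x, (W : 𝒜)} = ⊤ → D.L g u = D.L u g

variable {D} {x g u u' : 𝒜} {W : ℕ}

theorem Ok.L_eq (h : D.Ok x W) (hg : g ≠ 0) (u : 𝒜) :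
    D.L g u = ∑ v ∈ (h.fin g hg).toFinset, (D.ord v g : ℝ) * D.lam v (D.ev v u) := by
  refine finsum_eq_sum_of_support_subset _ fun v hv => ?_
  simp only [Set.Finite.coe_toFinset, Set.mem_ofPred_eq]
  by_contra hn
  exact hv (by simp [(h.ord0 v g hg).2 hn])

theorem Ok.L_mul (h : D.Ok x W) (hg : g ≠ 0) (h1 : ∀ v, D.ev v g = 0 → D.ev v u ≠ 0)
    (h2 : ∀ v, D.ev v g = 0 → D.ev v u' ≠ 0) : D.L g (u * u') = D.L g u + D.L g u' := by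
  rw [h.L_eq hg, h.L_eq hg, h.L_eq hg, ← Finset.sum_add_distrib]
  refine Finset.sum_congr rfl fun v hv => ?_
  have hv' : D.ev v g = 0 := by simpa using hv
  rw [map_mul, h.add v _ _ (h1 v hv') (h2 v hv'), mul_add]

theorem Ok.L_congr (h : D.Ok x W) (hg : g ≠ 0) (e : g ∣ u - u') : D.L g u = D.L g u' := by
  rw [h.L_eq hg, h.L_eq hg]
  refine Finset.sum_congr rfl fun v hv => ?_
  obtain ⟨c, hc⟩ := e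
  have hv' : D.ev v g = 0 := by simpa using hv
  have := congrArg (D.ev v) hc
  rw [map_sub, map_mul, hv', zero_mul, sub_eq_zero] at this
  rw [this]

theorem Ok.L_zero (h : D.Ok x W) (hg : g ≠ 0) (k : ∀ v, D.ev v g ≠ 0) (u : 𝒜) : D.L g u = 0 := by
  rw [h.L_eq hg]
  exact Finset.sum_eq_zero fun v hv => absurd (by simpa using hv) (k v)

theorem Ok.L_pow (h : D.Ok x W) (hg : g ≠ 0) (h1 : ∀ v, D.ev v g = 0 → D.ev v u ≠ 0) (k : ℕ) :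
    D.L g (u ^ k) = k * D.L g u := by
  induction k with
  | zero =>
    have := h.L_mul (u := 1) (u' := 1) hg (by simp) (by simp)
    simp only [mul_one, pow_zero, Nat.cast_zero, zero_mul] at this ⊢
    linarith
  | succ k ih =>
    rw [pow_succ, h.L_mul hg (fun v hv => by rw [map_pow]; exact pow_ne_zero _ (h1 v hv)) h1, ih]
    push_cast; ring

end Pv

open Classical in
/-- vanishing class sums -/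
def Cz {r : ℕ} {ι : Type} (cls : Fin r → ι) : Set (Fin r → ℝ) :=
  {c | ∀ v, ∑ w ∈ Finset.univ.filter fun w => cls w = v, c w = 0}

section
variable {K 𝒜 : Type} [Field K] [NumberField K] [CommRing 𝒜] [Algebra (𝓞 K) 𝒜] [Algebra ℤ[X] 𝒜]
  {S : AddSubmonoid ℕ} (μ : Module.Basis S (𝓞 K) 𝒜)

/-- monic with a single slope -/
def Sg (N n p σ m : ℕ) (g : 𝒜) : Prop :=
  Mo μ (N * m) g ∧ SS (Algebra.norm ℤ[X] g) 0 p (n * m) σ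

/-- `F` kills the functions with a single slope whose value at zero is a power of `p` -/
def Kil (N n W : ℕ) (F : 𝒜 → ℝ) : Prop := ∀ p σ m G, p.Prime → ¬p ∣ W → 1 ≤ m →
  Sg μ N n p σ m G → (∀ l : ℕ, l.Prime → (l : ℤ) ∣ (Algebra.norm ℤ[X] G).eval 0 → l = p) → F G = 0

/-- the data of the core come from the model -/
structure Gx {n r : ℕ} [NeZero n] (y : Module.Basis (Fin n) ℤ[X] 𝒜) (G : Geo n r)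
    (σ : Fin r → K →+* ℂ) : Prop where
  md : Md μ G.T y G.Nx r
  ok : G.Ok
  t1 : G.t1 = 0
  c0 : G.C0 = Cz fun w => InfinitePlace.mk (σ w)
  con : ∀ w, ∀ t ∈ G.B.I, ∀ a : 𝓞 K, G.B.ev (y.repr (algebraMap (𝓞 K) 𝒜 a)) w t = σ w a

end

/-- the fibre over zero -/
structure Lv {𝒜 Z : Type} [CommRing 𝒜] {k : Z → Type} [∀ i, Field (k i)] (x : 𝒜)
    (e : ∀ i, 𝒜 →+* 𝓞 (k i)) (l : ∀ i, 𝓞 (k i) → ℝ) : Prop where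
  ex : ∀ i, e i x = 0
  cond : ∃ c : ℕ, c ≠ 0 ∧ ∀ b : ∀ i, 𝓞 (k i), ∃ a, ∀ i, e i a = c * b i
  rad : ∀ g, (∀ i, e i g = 0) → ∃ j : ℕ, x ∣ g ^ j
  add : ∀ i u u', u ≠ 0 → u' ≠ 0 → l i (u * u') = l i u + l i u'

/-- the distinguished zero -/
structure Dz {A 𝒜 Z : Type} [CommRing A] [CommRing 𝒜] [Algebra A 𝒜] {k : Z → Type}
    [∀ i, Field (k i)] (e : ∀ i, 𝒜 →+* 𝓞 (k i)) (e0 : 𝒜 →ₐ[A] A) (θ : 𝒜) (i0 : Z) : Prop where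
  bij : Function.Bijective ((e i0).comp (algebraMap A 𝒜))
  eq : ∀ a, e i0 a = e i0 (algebraMap A 𝒜 (e0 a))
  oth : ∀ i, i ≠ i0 → e i θ = 0

/-! ### number fields -/

def OdS : Prop := ∀ (k : Type) [Field k] [NumberField k],
  (∀ (q : HeightOneSpectrum (𝓞 k)) (u b : 𝓞 k) (J : ℕ), 0 ≤ od q u ∧
    (u ∉ q.asIdeal → od q u = 0) ∧ (u ≠ 0 → b ≠ 0 → od q (u * b) = od q u + od q b) ∧
    od q (u ^ J) = J * od q u ∧ (u ≠ 0 → (u ∈ q.asIdeal ^ J ↔ (J : ℝ) ≤ od q u)) ∧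
    (u ≠ 0 → b ≠ 0 → b ∈ Ideal.span {u} ⊔ q.asIdeal ^ J → od q b < J → od q u ≤ od q b) ∧
    (b ≠ 0 → u - b ∈ q.asIdeal ^ J → od q b < J → u ≠ 0 ∧ od q u = od q b)) ∧
  (∀ u : 𝓞 k, u ≠ 0 → {q : HeightOneSpectrum (𝓞 k) | u ∈ q.asIdeal}.Finite) ∧
  ∀ (p : ℕ) (q : Ideal (𝓞 k)), p.Prime → q.IsPrime → (p : 𝓞 k) ∈ q → ∃ (h : ℕ) (a b : 𝓞 k),
    0 < h ∧ (p : 𝓞 k) ^ h = a * b ∧ b ∉ q ∧ ∀ q' : Ideal (𝓞 k), q'.IsPrime → a ∈ q' → q' = q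

/-- the part of a power which lies over `p` -/
def SpS : Prop := ∀ (k : Type) [Field k] [NumberField k], ∃ h0 : ℕ, 0 < h0 ∧ ∀ (h p : ℕ)
  (φ : HeightOneSpectrum (𝓞 k) → ℝ) (u : 𝓞 k), h0 ∣ h → p.Prime → u ≠ 0 → ∃ γ β : 𝓞 k,
    u ^ h = γ * β ∧ IsCoprime β p ∧
    (∀ q : HeightOneSpectrum (𝓞 k), γ ∈ q.asIdeal → (p : 𝓞 k) ∈ q.asIdeal) ∧
    ∑ᶠ q, φ q * od q γ = h * Fp φ p u

/-- perturbation of one factor -/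
def CrS : Prop := ∀ (R : Type) [CommRing R] [Module.Finite ℤ R] (T : Subring R) (c p h J : ℕ)
  (δ γ β : R), c ≠ 0 → p.Prime → 0 < h → (∀ b, (c : R) * b ∈ T) → δ ∈ T → δ ^ h = γ * β →
  IsCoprime β p → (∀ n : ℕ, n.Coprime p → IsCoprime γ n) → ∃ E : ℕ, 0 < E ∧ ∀ J' : ℕ,
    ∃ t ∈ T, ∃ t' ∈ T, γ ^ E = δ ^ (h * E - 1) * (δ + (p : R) ^ J * t) + (p : R) ^ J' * t'

def DirS : Prop := ∀ (K : Type) [Field K] [NumberField K] (r : ℕ) (σ : Fin r → K →+* ℂ)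
  (c : Fin r → ℝ), ∑ w, c w = 0 →
  (∀ u : (𝓞 K)ˣ, ∑ w, c w * Real.log ‖σ w ((u : 𝓞 K) : K)‖ = 0) →
  c ∈ Cz fun w => InfinitePlace.mk (σ w)

def EmbS : Prop := ∀ (n r : ℕ) [NeZero n] (κ : Type) [Field κ] [NumberField κ] (T : Tb n) (t : ℚ)
  (z : Module.Basis (Fin n) ℚ κ) (Φ : Fin r → Fin n → ℂ) (l : κ → ℝ), n = 2 * r →
  Hm (T.fib (t : κ)) z → Em (T.fib (t : ℝ)) Φ → GP.Adr l → ∃ (τ : Fin r → κ →+* ℂ) (c : Fin r → ℝ)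
    (φ : HeightOneSpectrum (𝓞 κ) → ℝ), (∀ w i, τ w (z i) = Φ w i) ∧ ∑ w, c w = 0 ∧
    ∀ u : 𝓞 κ, u ≠ 0 → l u - ∑ w, c w * Real.log ‖τ w u‖ = ∑ᶠ q, φ q * od q u

/-- the primes of the points -/
def PrS : Prop := ∀ (n : ℕ) [NeZero n] (κ : Type) [Field κ] [NumberField κ] (M : Tab ℤ n)
  (z : Module.Basis (Fin n) ℚ κ), Hm (fun i => (M i).map (Int.cast : ℤ → κ)) z →
  (∀ β : Fin n → ℤ, ∃ u : 𝓞 κ, (u : κ) = ∑ i, β i * z i ∧ Algebra.norm ℤ u = Nm M β) ∧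
  ∃ J : ℕ → (Fin n → ℤ) → HeightOneSpectrum (𝓞 κ), ∀ (p : ℕ) (s : Fin n → ℤ), p.Prime →
    Hm (fun i => (M i).map (Int.cast : ℤ → ZMod p)) (fun i => (s i : ZMod p)) →
    ∀ (β : Fin n → ℤ) (u : 𝓞 κ), (u : κ) = ∑ i, β i * z i →
      (u ∈ (J p s).asIdeal ↔ (p : ℤ) ∣ ∑ i, β i * s i)

def HsK : Prop := ∀ (n : ℕ) [NeZero n] (κ : Type) [Field κ] [NumberField κ] (M : Tab ℤ n)
  (z : Module.Basis (Fin n) ℚ κ) (l : κ → ℝ) (φ : HeightOneSpectrum (𝓞 κ) → ℝ),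
  Hm (fun i => (M i).map (Int.cast : ℤ → κ)) z →
  (∀ u : 𝓞 κ, u ≠ 0 → l u = ∑ᶠ q, φ q * od q u) → ∃ ψ : ℕ → (Fin n → ℤ) → ℝ,
  (∀ (ss : Pt → Fin n → ℤ) (β : Fin n → ℤ) (T : Multiset Pt), (∀ w ∈ T, w.p.Prime ∧
    Hm (fun i => (M i).map (Int.cast : ℤ → ZMod w.p)) fun i => (ss w i : ZMod w.p)) →
    EvG M ss β T → l (∑ i, β i * z i) = (T.map fun w => ψ w.p (ss w)).sum) ∧
  ∀ (p : ℕ) (Y : Finset ℕ) (s : ℕ → Fin n → ℤ), p.Prime → Y.card = n →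
    (∀ y ∈ Y, Hm (fun i => (M i).map (Int.cast : ℤ → ZMod p)) fun i => (s y i : ZMod p)) →
    (∀ β : Fin n → ℤ, (∀ y ∈ Y, (p : ℤ) ∣ ∑ i, β i * s y i) → ∀ i, (p : ℤ) ∣ β i) →
    l p = ∑ y ∈ Y, ψ p (s y)

/-- the shape of the rows about the end -/
def AllE (Φ : ∀ (K Z : Type) [Field K] [NumberField K] [Fintype Z] (k : Z → Type)
    [∀ i, Field (k i)] [∀ i, NumberField (k i)] (_ : ∀ i, 𝓞 K →+* 𝓞 (k i))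
    (_ : ∀ i, HeightOneSpectrum (𝓞 (k i)) → ℝ) (_ : ℕ), Prop) : Prop :=
  ∀ (K Z : Type) [Field K] [NumberField K] [Fintype Z] (k : Z → Type) [∀ i, Field (k i)]
    [∀ i, NumberField (k i)] (j : ∀ i, 𝓞 K →+* 𝓞 (k i))
    (φ : ∀ i, HeightOneSpectrum (𝓞 (k i)) → ℝ) (p W : ℕ), p.Prime → ¬p ∣ W →
    (∀ i, Function.Injective (j i)) →
    (∀ ρ : 𝓞 K, ρ ≠ 0 → IsCoprime ρ W → ∑ i, ∑ᶠ q, φ i q * od q (j i ρ) = 0) → Φ K Z k j φ p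

open Classical in
/-- the other primes over `p` -/
def OthS : Prop := AllE fun K _ _ _ _ k _ _ j φ p => ∀ 𝔭 : Ideal (𝓞 K), 𝔭.IsPrime →
  (p : 𝓞 K) ∈ 𝔭 → ∑ i, ∑ᶠ q : HeightOneSpectrum (𝓞 (k i)),
    (if (p : 𝓞 (k i)) ∈ q.asIdeal ∧ q.asIdeal.comap (j i) ≠ 𝔭 then φ i q * od q p else 0) = 0

def EnS : Prop := AllE fun K Z _ _ _ k _ _ j φ p => ∀ (i0 : Z) (q0 : HeightOneSpectrum (𝓞 (k i0)))
  (c : 𝓞 K) (N c1 σ0 : ℕ), Function.Surjective (j i0) → (p : 𝓞 (k i0)) ∈ q0.asIdeal → c ≠ 0 →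
  0 < N → (∀ σ, σ0 ≤ σ → ∀ m0 : ℕ, ∃ m, m0 ≤ m ∧ ∀ J : ℕ, ∃ g : ∀ i, 𝓞 (k i), (∀ i, g i ≠ 0) ∧
    ∑ i, Fp (φ i) p (g i) = 0 ∧
    j i0 c ^ (N * (N * m)) * g i0 ∈ q0.asIdeal ^ (σ * (N * m - c1)) ∧
    (∀ i, i ≠ i0 → j i (((p : 𝓞 K) ^ σ) ^ c1 * c ^ (N * m)) ∈
      Ideal.span {g i} ⊔ (q0.asIdeal.comap (j i0) ^ J).map (j i)) ∧
    ∀ i (q' : Ideal (𝓞 K)), q'.IsPrime → (p : 𝓞 K) ∈ q' → q' ≠ q0.asIdeal.comap (j i0) →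
      g i - ((p : 𝓞 (k i)) ^ σ) ^ m ∈ (q' ^ J).map (j i)) → φ i0 q0 = 0

/-! ### rows about a model -/

def AllM (Φ : ∀ (K 𝒜 : Type) [Field K] [NumberField K] [CommRing 𝒜] [Algebra (𝓞 K) 𝒜]
    [Algebra ℤ[X] 𝒜] {S : AddSubmonoid ℕ} (_ : Module.Basis S (𝓞 K) 𝒜) {n : ℕ} [NeZero n] (_ : Tb n)
    (_ : Module.Basis (Fin n) ℤ[X] 𝒜) (_ : ℕ) (_ : 𝒜), Prop) : Prop :=
  ∀ (K 𝒜 : Type) [Field K] [NumberField K] [CommRing 𝒜] [Algebra (𝓞 K) 𝒜] [Algebra ℤ[X] 𝒜]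
    (S : AddSubmonoid ℕ) (μ : Module.Basis S (𝓞 K) 𝒜) (n : ℕ) [NeZero n] (T : Tb n)
    (y : Module.Basis (Fin n) ℤ[X] 𝒜) (N r : ℕ), Md μ T y N r →
    Φ K 𝒜 μ T y N (algebraMap ℤ[X] 𝒜 X)

def MdS : Prop := AllM fun K 𝒜 _ _ _ _ _ _ μ n _ T y N x => IsDomain 𝒜 ∧ x ≠ 0 ∧
  (∀ q : ℤ[X], algebraMap ℤ[X] 𝒜 q = aeval x q) ∧
  (∀ g, T.N (y.repr g) = Algebra.norm ℤ[X] g) ∧
  (∀ g k, pwr T.M (y.repr g) k = y.repr (g ^ k)) ∧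
  (∀ m g, Mo μ (N * m) g → g ≠ 0 ∧ (Algebra.norm ℤ[X] g).IsMonicOfDegree (n * m)) ∧
  (∀ A, A ≠ 0 → T.N A ≠ 0) ∧
  ∀ (κ : Type) [Field κ] (ev : 𝒜 →+* κ), Hm (T.fib (ev x)) (fun i => ev (y i)) ∧
    (∀ g, ev g = ∑ i, aeval (ev x) (y.repr g i) * ev (y i)) ∧
    (CharZero κ → ∀ a : 𝓞 K, a ≠ 0 → ev (algebraMap (𝓞 K) 𝒜 a) ≠ 0)

def SgS : Prop := AllM fun _ 𝒜 _ _ _ _ _ _ μ n _ _ _ N _ => ∀ (p σ m : ℕ) (g : 𝒜), p.Prime →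
  (Sg μ N n p σ m g → (Algebra.norm ℤ[X] g).eval 0 ≠ 0 ∧
    (∀ m' g', Sg μ N n p σ m' g' → Sg μ N n p σ (m + m') (g * g')) ∧
    (∀ k, Sg μ N n p σ (m * k) (g ^ k)) ∧
    ∀ (J : ℕ) g', Mo μ (N * m) g' → (p : 𝒜) ^ J ∣ g - g' → n * m * σ < J → Sg μ N n p σ m g') ∧
  (Mo μ (N * m) g → ¬(p : ℤ) ∣ (Algebra.norm ℤ[X] g).eval 0 → Sg μ N n p 0 m g)

def SgT : Prop := AllM fun K 𝒜 _ _ _ _ _ _ μ n _ _ _ N x => ∀ (p σ m : ℕ) (g : 𝒜)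
  (M : (𝓞 K)[X]), p.Prime → Mo μ (N * m) g → M.Monic → IsCoprime (M.coeff 0) p →
  g ∣ aeval x (M.scaleRoots ((p : 𝓞 K) ^ σ)) → Sg μ N n p σ m g

/-- a fibre which is a field -/
def FbS : Prop := AllM fun _ 𝒜 _ _ _ _ _ _ μ n _ T y N x => ∀ (κ : Type) [Field κ] [NumberField κ]
  (ev : 𝒜 →+* κ) (a b : ℤ), (∀ z, ∃ (u : 𝒜) (d : ℕ), d ≠ 0 ∧ ev u = d * z) → b ≠ 0 → T.Fld a b →
  ev (b * x - a) = 0 → ∃ z0 z : Module.Basis (Fin n) ℚ κ, (∀ i, z0 i = ev (y i)) ∧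
    (∀ i, z i = (b : κ) ^ T.e i * ev (y i)) ∧ Hm (T.fib (((a : ℚ) / b : ℚ) : κ)) z0 ∧
    Hm (fun i => (T.Mh a b i).map (Int.cast : ℤ → κ)) z ∧
    (∀ u, ev u = ∑ i, ((aeval ((a : ℚ) / b) (y.repr u i) : ℚ) : κ) * z0 i) ∧
    ∀ m g, Mo μ (N * m) g → ∑ i, (T.val m (y.repr g) a b i : κ) * z i = (b : κ) ^ m * ev g

/-- the shape of the rows about the fibre over zero -/
def AllZ (Φ : ∀ (K 𝒜 : Type) [Field K] [NumberField K] [CommRing 𝒜] [Algebra (𝓞 K) 𝒜]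
    [Algebra ℤ[X] 𝒜] {S : AddSubmonoid ℕ} (_ : Module.Basis S (𝓞 K) 𝒜) (_ _ : ℕ) (_ : 𝒜)
    (Z : Type) [Fintype Z] (k : Z → Type) [∀ i, Field (k i)] [∀ i, NumberField (k i)]
    (_ : ∀ i, 𝒜 →+* 𝓞 (k i)) (_ : ∀ i, 𝓞 (k i) → ℝ), Prop) : Prop :=
  AllM fun K 𝒜 _ _ _ _ _ _ μ n _ _ _ N x => ∀ (Z : Type) [Fintype Z] (k : Z → Type)
    [∀ i, Field (k i)] [∀ i, NumberField (k i)] (e : ∀ i, 𝒜 →+* 𝓞 (k i))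
    (l : ∀ i, 𝓞 (k i) → ℝ), Lv x e l → Φ K 𝒜 μ N n x Z k e l

def NrG : Prop := AllZ fun _ 𝒜 _ _ _ _ _ _ _ _ _ _ _ _ k _ _ e _ => ∀ G : 𝒜,
  ((Algebra.norm ℤ[X] G).eval 0 ≠ 0 → ∀ i, e i G ≠ 0) ∧
  ∀ r : ℕ, r.Prime → (r : ℤ) ∣ (Algebra.norm ℤ[X] G).eval 0 →
    ∃ (i : _) (q : HeightOneSpectrum (𝓞 (k i))), (r : 𝓞 (k i)) ∈ q.asIdeal ∧ e i G ∈ q.asIdeal

def UnS : Prop := AllZ fun _ _ _ _ _ _ _ _ μ N n _ _ _ k _ _ e l => ∀ W : ℕ, 0 < W →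
  Kil μ N n W (fun G => ∑ i, l i (e i G)) → ∀ i (u : (𝓞 (k i))ˣ), l i u = 0

def KlT : Prop := AllZ fun _ _ _ _ _ _ _ _ μ N n _ _ _ k _ _ e l => ∀ (W : ℕ)
  (φ : ∀ i, HeightOneSpectrum (𝓞 (k i)) → ℝ), Kil μ N n W (fun G => ∑ i, l i (e i G)) →
  (∀ i u, u ≠ 0 → l i u = ∑ᶠ q, φ i q * od q u) → ∃ m0 : ℕ, ∀ p σ m G, p.Prime → ¬p ∣ W →
    m0 ≤ m → Sg μ N n p σ m G → ∑ i, Fp (φ i) p (e i G) = 0

def LzS : Prop := AllZ fun K 𝒜 _ _ _ _ _ _ μ N n x Z _ _ _ _ e l => ∀ (W : ℕ)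
  (e0 : 𝒜 →ₐ[𝓞 K] 𝓞 K) (θ : 𝒜) (c : 𝓞 K) (i0 : Z), 0 < W → Reg 𝒜 → Sz e0 x θ c → Dz e e0 θ i0 →
  Kil μ N n W (fun G => ∑ i, l i (e i G)) →
  (∀ ρ : 𝓞 K, ρ ≠ 0 → IsCoprime ρ W → ∑ i, l i (e i (algebraMap (𝓞 K) 𝒜 ρ)) = 0) →
  ∀ ρ : 𝓞 K, ρ ≠ 0 → IsCoprime ρ W → l i0 (e i0 (algebraMap (𝓞 K) 𝒜 ρ)) = 0

/-- the shape of the rows about places -/
def AllP (Φ : ∀ (K 𝒜 : Type) [Field K] [NumberField K] [CommRing 𝒜] [Algebra (𝓞 K) 𝒜]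
    [Algebra ℤ[X] 𝒜] {S : AddSubmonoid ℕ} (_ : Module.Basis S (𝓞 K) 𝒜) (_ _ : ℕ) (_ : 𝒜)
    {ι : Type} {κ : ι → Type} [∀ v, Field (κ v)] (_ : Pv 𝒜 ι κ) (_ : ℕ), Prop) : Prop :=
  AllM fun K 𝒜 _ _ _ _ _ _ μ n _ _ _ N x => ∀ (ι : Type) (κ : ι → Type) [∀ v, Field (κ v)]
    [∀ v, NumberField (κ v)] (D : Pv 𝒜 ι κ) (W : ℕ), D.Ok x W → Φ K 𝒜 μ N n x D W

/-- construction of the fibre over zero -/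
def LvS : Prop := AllP fun K 𝒜 _ _ _ _ _ _ _ _ _ x ι _ _ D _ => ∀ (v0 : ι)
  (e0 : 𝒜 →ₐ[𝓞 K] 𝓞 K) (θ : 𝒜) (c : 𝓞 K), Sz e0 x θ c →
  (∀ a, D.ev v0 a = D.ev v0 (algebraMap (𝓞 K) 𝒜 (e0 a))) →
  ∃ (Z : Type) (_ : Fintype Z) (k : Z → Type) (_ : ∀ i, Field (k i)) (_ : ∀ i, NumberField (k i))
    (e : ∀ i, 𝒜 →+* 𝓞 (k i)) (l : ∀ i, 𝓞 (k i) → ℝ) (i0 : Z), Lv x e l ∧ Dz e e0 θ i0 ∧
    (∀ u, D.L x u = ∑ i, l i (e i u)) ∧ ∀ u, l i0 (e i0 u) = 0 → D.lam v0 (D.ev v0 u) = 0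

/-- one big curve -/
def GsG : Prop := AllP fun _ _ _ _ _ _ _ _ μ N n x _ _ _ D _ => ∀ m g, Mo μ (N * m) g →
  ∃ Φ c, Dec (Algebra.norm ℤ[X] g) (n * m) (fun a b => D.L g (b * x - a)) (fun p => D.L g p) Φ c

/-- the shape of the rows about the data of the core -/
def AllC (Φ : ∀ (K 𝒜 : Type) [Field K] [NumberField K] [CommRing 𝒜] [Algebra (𝓞 K) 𝒜]
    [Algebra ℤ[X] 𝒜] {S : AddSubmonoid ℕ} (_ : Module.Basis S (𝓞 K) 𝒜) {n r : ℕ} [NeZero n]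
    (_ : Module.Basis (Fin n) ℤ[X] 𝒜) (_ : Geo n r) (_ : 𝒜)
    {ι : Type} {κ : ι → Type} [∀ v, Field (κ v)] (_ : Pv 𝒜 ι κ), Prop) : Prop :=
  ∀ (K 𝒜 : Type) [Field K] [NumberField K] [CommRing 𝒜] [Algebra (𝓞 K) 𝒜] [Algebra ℤ[X] 𝒜]
    (S : AddSubmonoid ℕ) (μ : Module.Basis S (𝓞 K) 𝒜) (n r : ℕ) [NeZero n]
    (y : Module.Basis (Fin n) ℤ[X] 𝒜) (G : Geo n r) (σ : Fin r → K →+* ℂ) (ι : Type) (κ : ι → Type)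
    [∀ v, Field (κ v)] [∀ v, NumberField (κ v)] (D : Pv 𝒜 ι κ), Gx μ y G σ →
    D.Ok (algebraMap ℤ[X] 𝒜 X) G.W0 → Φ K 𝒜 μ y G (algebraMap ℤ[X] 𝒜 X) D

/-- reduction of a small curve at a point -/
def RpS : Prop := ∀ (n : ℕ) [NeZero n] (T : Tb n) (P : Ps n) (t1 a b : ℤ) (z : Pt), T.Ok →
  P.Alg T t1 → P.Is z → On a b z → ¬(z.p : ℤ) ∣ b →
  Hm (fun i => (T.Mh a b i).map (Int.cast : ℤ → ZMod z.p))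
    (fun i => ((b ^ T.e i * P.sv z i : ℤ) : ZMod z.p)) ∧
  (∀ m A, T.Mon m A → P.Zr A z → InG (fun w i => b ^ T.e i * P.sv w i) (T.val m A a b) z) ∧
  ∀ β : Fin n → ℤ, (∀ y ∈ Fy P.r z.p, (z.p : ℤ) ∣ ∑ i, β i * (b ^ T.e i * P.sv ⟨z.p, z.t, y⟩ i)) →
    ∀ i, (z.p : ℤ) ∣ β i

/-- one small curve -/
def HsG : Prop := AllC fun _ _ _ _ _ _ _ _ μ n r _ y G x _ _ _ D => ∀ a k, G.Adm a k →
  ∃ (ψ : Pt → ℝ) (c : Fin r → ℝ), (∀ p, ∀ τ ∈ G.P.sp p, (p : ℤ) ∣ (k : ℤ) ^ 2 * τ - a → ¬p ∣ k →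
    ∑ y ∈ Fy G.P.r p, ψ ⟨p, τ, y⟩ = 0) ∧ c ∈ G.C0 ∧
  ∀ m g (T : Multiset Pt), Mo μ (G.Nx * m) g → Nd T →
    (∀ z ∈ T, G.P.Is z ∧ On a ((k : ℤ) ^ 2) z ∧ G.P.Zr (y.repr g) z ∧ ¬z.p ∣ k) →
    (nT T : ℤ) = hv (G.T.N (y.repr g)) (n * m) a ((k : ℤ) ^ 2) →
    D.L g ((((k : ℤ) ^ 2 : ℤ) : _) * x - a) = (T.map ψ).sum +
      ∑ w, c w * Real.log ‖G.B.ev (y.repr g) w ((a : ℝ) / (k : ℝ) ^ 2)‖

def IdG : Prop := AllC fun _ _ _ _ _ _ _ _ μ n _ _ y G x _ _ _ D => ∃ ψ c φ cθ, G.Ids ψ c φ cθ ∧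
  ∀ m g, Mo μ (G.Nx * m) g → ∃ Φ, Dec (Algebra.norm ℤ[X] g) (n * m)
    (fun a b => D.L g (b * x - a)) (fun p => D.L g p) Φ (cθ (y.repr g))

def KiG : Prop := AllC fun _ _ _ _ _ _ _ _ μ n _ _ _ G x _ _ _ D => Kil μ G.Nx n G.W0 (D.L x)

def GeS : Prop := ∀ (K 𝒜 : Type) [Field K] [NumberField K] [CommRing 𝒜] [Algebra (𝓞 K) 𝒜]
  [Algebra ℤ[X] 𝒜] (S : AddSubmonoid ℕ) (μ : Module.Basis S (𝓞 K) 𝒜) (N W : ℕ), FM μ →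
  Mo μ N (algebraMap ℤ[X] 𝒜 X) → N.Prime → 2 * Module.finrank ℚ K < N → (∃ i : K, i ^ 2 = -1) →
  0 < W → ∃ (n r : ℕ) (_ : NeZero n) (y : Module.Basis (Fin n) ℤ[X] 𝒜) (G : Geo n r)
    (σ : Fin r → K →+* ℂ), Gx μ y G σ ∧ G.W0 = W ∧ G.Nx = N

/-- **level zero** -/
def Lev : Prop := ∀ (K 𝒜 : Type) [Field K] [NumberField K] [CommRing 𝒜] [Algebra (𝓞 K) 𝒜]
  (S : AddSubmonoid ℕ) (μ : Module.Basis S (𝓞 K) 𝒜) (N W : ℕ) (x θ : 𝒜) (ι : Type) (κ : ι → Type)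
  [∀ v, Field (κ v)] [∀ v, NumberField (κ v)] (D : Pv 𝒜 ι κ) (v0 : ι) (e0 : 𝒜 →ₐ[𝓞 K] 𝓞 K)
  (c : 𝓞 K), FM μ → Mo μ N x → N.Prime → 2 * Module.finrank ℚ K < N → (∃ i : K, i ^ 2 = -1) →
  0 < W → D.Ok x W → Reg 𝒜 → Sz e0 x θ c →
  (∀ a, D.ev v0 a = D.ev v0 (algebraMap (𝓞 K) 𝒜 (e0 a))) →
  ∀ ρ : 𝓞 K, ρ ≠ 0 → IsCoprime ρ W → D.lam v0 (D.ev v0 (algebraMap (𝓞 K) 𝒜 ρ)) = 0

/-! ### places of the function field -/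

section
open PK VE.Z GP
variable {K F : Type} [Field K] [NumberField K] [Field F] [Algebra K F] (O O' : Subring F)
  (𝒜 : Subalgebra (𝓞 K) F)

/-- a model of the complement of `O'` -/
structure Fx {S : AddSubmonoid ℕ} (μ : Module.Basis S (𝓞 K) 𝒜) (x : 𝒜) (N : ℕ) : Prop where
  rat : Rat K O
  rat' : Rat K O'
  ne : O ≠ O'
  fm : FM μ
  mo : Mo μ N x
  pos : 0 < N
  ord : ordR O (x : F) = 1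
  inf : (x : F) ∉ O'
  mem : ∀ z : F, (∀ P, Pl P → P ≠ O' → z ∈ P) ↔ ∃ n : ℕ, n ≠ 0 ∧ (n : F) * z ∈ 𝒜

/-- centres -/
structure Pg : Prop where
  sur : ∀ P, Pl P → P ≠ O' → ∀ z ∈ P, ∃ (a : 𝒜) (n : ℕ), n ≠ 0 ∧ Nu P (a - n * z)
  sep : ∀ P P', Pl P → P ≠ O' → Pl P' → P' ≠ O' → P ≠ P' → ∃ u : 𝒜, Nu P u ∧ Ut P' u
  reg : Reg 𝒜

/-- zeros of `x` -/
structure Ph (x : 𝒜) : Prop where
  int : ∀ V : Subring F, Dvr V → Nu V x → ∀ a : 𝒜, (a : F) ∈ V ∧ Itg V a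
  rad : ∀ g : 𝒜, (∀ P, Pl P → P ≠ O' → Nu P x → Nu P g) → ∃ j : ℕ, x ∣ g ^ j
  sz : ∃ (e : 𝒜 →ₐ[𝓞 K] 𝓞 K) (θ : 𝒜) (c : 𝓞 K), Sz e x θ c ∧
    ∀ a : 𝒜, Nu O (a - algebraMap (𝓞 K) F (e a))

end

open GP in
def AllF (Φ : ∀ (K F : Type) [Field K] [NumberField K] [Field F] [Algebra K F] (_ _ : Subring F)
    (𝒜 : Subalgebra (𝓞 K) F) (_ : 𝒜), Prop) : Prop :=
  ∀ (K F : Type) [Field K] [NumberField K] [Field F] [CharZero F] [Algebra K F] (O O' : Subring F)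
    (𝒜 : Subalgebra (𝓞 K) F) (S : AddSubmonoid ℕ) (μ : Module.Basis S (𝓞 K) 𝒜) (x : 𝒜) (N : ℕ),
    FG F → Fx O O' 𝒜 μ x N → Φ K F O O' 𝒜 x

def PgS : Prop := AllF fun _ _ _ _ _ _ _ O' 𝒜 _ => Pg O' 𝒜

def PhS : Prop := AllF fun _ _ _ _ _ _ O O' 𝒜 x => Ph O O' 𝒜 x

open GP VE.Z in
def PvS : Prop := AllF fun K F _ _ _ _ O O' 𝒜 x => ∀ (M : ℕ) (VV : Set (Subring F))
  (lam : Subring F → F → ℝ), Ks M VV lam → (∀ V ∈ VV, Nu V x) →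
  ∃ (ι : Type) (κ : ι → Type) (_ : ∀ v, Field (κ v)) (_ : ∀ v, NumberField (κ v))
    (D : Pv 𝒜 ι κ) (v0 : ι), D.Ok x M ∧ (∀ a : 𝒜, Nu O a → D.ev v0 a = 0) ∧
    ∀ ρ : 𝓞 K, ρ ≠ 0 → D.lam v0 (D.ev v0 (algebraMap (𝓞 K) 𝒜 ρ)) =
      lam O (algebraMap K F ρ) - lam O' (algebraMap K F ρ)

def OfSp : Prop := OdS → SpS
def OfEmb : Prop := NfaS → NfbS → EmbS
def OfHsK : Prop := OdS → PrS → HsK
def OfOth : Prop := OdS → OthS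
def OfEn : Prop := OdS → OthS → EnS
def OfMd : Prop := FmS → MdS
def OfSg : Prop := FmS → NcS → MdS → SgS
def OfSgT : Prop := NcS → MdS → SgT
def OfFb : Prop := TbS → GV.SplS → MdS → FbS
def OfNr : Prop := NcS → MdS → NrG
def OfUn : Prop := FmS → SgS → NrG → UnS
def OfKlT : Prop := FmS → RedS → SgS → NrG → SpS → CrS → KlT
def OfLz : Prop := NfbS → MdS → SgS → SgT → NrG → UnS → KlT → PaX → OdS → EnS → LzS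
def OfLv : Prop := MdS → LvS
def OfGsG : Prop := GskS → NcS → MdS → GsG
def OfRp : Prop := TbS → RpS
def OfHsG : Prop := TbS → FyS → MdS → FbS → RpS → EmbS → HsK → DirS → HsG
def OfIdG : Prop := W.PhiT → MdS → GsG → HsG → IdG
def OfKi : Prop := Core → NcS → MdS → SgS → IdG → KiG
def OfGe : Prop := TabS → PtsX → BrX → CstX → ARX → MdS → GeS
def OfLev : Prop := MdS → GeS → KiG → LvS → LzS → Lev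
def OfPg : Prop := GP.FfS → GP.FinS → GP.NbS → ApeS → PgS
def OfPh : Prop := GP.FinS → GP.NbS → FmS → ApeS → RedS → PgS → PhS
def OfPv : Prop := GP.FinS → GP.NbS → GP.ValS → GP.WeilS → PgS → PhS → PvS
def OfEng : Prop := GP.FinS → GP.NbS → FmX → PgS → PhS → PvS → Lev → GP.EngS

end Pool.Agent.MP_f3836a_nt.GV.A
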