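import Pool.Agent.MP_f3836a_nt.GV.Defs
import Pool.Agent.MP_f3836a_nt.VE.SpecC

/-! Block C, first half: lattices in `ℂ ^ r`, the sieve in `n` variables, the analytic core. -/

set_option autoImplicit false

namespace Pool.Agent.MP_f3836a_nt.GV.C

open Finset MeasureTheory Metric VE
open VE.BC (tm law Sb ex ee sm su TupS PowS BesS SmS AcS InvS CheS HtaS)
open Pool.Agent.MP_c481b3_nt.H63 (Ds Gs)

/-- the ambient space, with the supremum norm -/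
abbrev E (r : ℕ) : Type := Fin r → ℂ

section
variable {r : ℕ}

/-- the logarithm of the norm in logarithmic coordinates -/
def Lg (ξ : E r) : ℝ := 2 * ∑ w, (ξ w).re

/-- the diagonal direction -/
noncomputable def e0 (r : ℕ) : E r := fun _ => ((1 / (2 * r) : ℝ) : ℂ)

/-- the volume of a ball -/
noncomputable def vb (r : ℕ) (R : ℝ) : ℝ := (Real.pi * R ^ 2) ^ r

theorem Lg_add (x y : E r) : Lg (x + y) = Lg x + Lg y := by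
  simp [Lg, sum_add_distrib, mul_add]

theorem Lg_smul (t : ℝ) (x : E r) : Lg (t • x) = t * Lg x := by
  simp only [Lg, Pi.smul_apply, Complex.smul_re, smul_eq_mul, ← mul_sum]; ring

theorem Lg_neg (x : E r) : Lg (-x) = -Lg x := by simpa using Lg_smul (-1) x

theorem Lg_sub (x y : E r) : Lg (x - y) = Lg x - Lg y := by
  rw [sub_eq_add_neg, Lg_add, Lg_neg, sub_eq_add_neg]

theorem Lg_zero : Lg (0 : E r) = 0 := by simp [Lg]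

theorem Lg_sum {ι : Type} (s : Finset ι) (f : ι → E r) : Lg (∑ i ∈ s, f i) = ∑ i ∈ s, Lg (f i) := by
  simp only [Lg, Finset.sum_apply, Complex.re_sum, ← mul_sum]; rw [sum_comm]

theorem Lg_e0 (h : 1 ≤ r) : Lg (e0 r) = 1 := by
  have : (r : ℝ) ≠ 0 := by positivity
  simp only [Lg, e0, Complex.ofReal_re, sum_const, card_univ, Fintype.card_fin, nsmul_eq_mul]
  field_simp

theorem abs_Lg (x : E r) : |Lg x| ≤ 2 * r * ‖x‖ := by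
  rw [Lg, abs_mul, abs_two, mul_assoc]
  refine mul_le_mul_of_nonneg_left ((abs_sum_le_sum_abs _ _).trans ?_) zero_le_two
  refine (sum_le_card_nsmul _ _ ‖x‖ fun w _ => ?_).trans (by simp)
  exact (Complex.abs_re_le_norm _).trans (norm_le_pi_norm x w)

theorem norm_e0 (h : 1 ≤ r) : ‖e0 r‖ = 1 / (2 * r) := by
  have : Nonempty (Fin r) := ⟨⟨0, h⟩⟩
  unfold e0
  rw [pi_norm_const, Complex.norm_real, Real.norm_of_nonneg (by positivity)]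

theorem vol_ball (c : E r) {R : ℝ} (h : 0 ≤ R) : volume.real (closedBall c R) = vb r R := by
  rw [Measure.real, volume_pi_closedBall c h]
  simp [vb, Complex.volume_closedBall, h, mul_comm]

theorem finrank_E : Module.finrank ℝ (E r) = 2 * r := by
  simp [Module.finrank_pi_fintype, mul_comm]

/-- the covolume -/
noncomputable def cvl (Γ : AddSubgroup (E r)) : ℝ :=
  ZLattice.covolume (AddSubgroup.toIntSubmodule Γ) volume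

/-- a lattice with covolume `V` and covering radius at most `ρ` -/
structure Lt {A : Type} [AddCommGroup A] (g : A →+ E r) (V ρ : ℝ) : Prop where
  sep : ∃ a, 0 < a ∧ ∀ v, v ≠ 0 → a ≤ ‖g v‖
  cov : ∀ x, ∃ v, ‖x - g v‖ ≤ ρ
  vol : cvl g.range = V

/-- a test function -/
structure Tf (Φ : E r → ℝ) (K R : ℝ) (c : E r) : Prop where
  pos : 0 ≤ K ∧ 0 ≤ R
  lip : ∀ x y, |Φ x - Φ y| ≤ K * ‖x - y‖
  sup : ∀ x, Φ x ≠ 0 → ‖x - c‖ ≤ R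

/-- the tent function -/
noncomputable def tn (x : E r) : ℝ := max 0 (1 - ‖x‖)

/-- its integral -/
noncomputable def cτ (r : ℕ) : ℝ := ∫ x : E r, tn x

/-- a lattice in the hyperplane `Lg = 0` -/
structure UL (Λ : AddSubgroup (E r)) (a R : ℝ) : Prop where
  ker : ∀ x ∈ Λ, Lg x = 0
  sep : ∀ x ∈ Λ, x ≠ 0 → a ≤ ‖x‖
  cov : ∀ x, Lg x = 0 → ∃ y ∈ Λ, ‖x - y‖ ≤ R

/-- the lattice extended in the diagonal direction -/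
noncomputable def ext (Λ : AddSubgroup (E r)) (t : ℝ) : AddSubgroup (E r) :=
  Λ ⊔ AddSubgroup.zmultiples (t • e0 r)

/-- the regulator -/
noncomputable def Rg (Λ : AddSubgroup (E r)) : ℝ := cvl (ext Λ 1)

/-- the periodisation -/
noncomputable def per (Λ : AddSubgroup (E r)) (Φ : E r → ℝ) (x : E r) : ℝ := ∑' y : Λ, Φ (x - y)

theorem per_eq {Λ : AddSubgroup (E r)} (h : ∀ x ∈ Λ, x ≠ 0 → 1 ≤ ‖x‖) {Φ : E r → ℝ}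
    (hΦ : ∀ x, Φ x ≠ 0 → ‖x‖ ≤ 1 / 3) {x y : E r} (hy : y ∈ Λ) (hx : ‖x - y‖ < 2 / 3) :
    per Λ Φ x = Φ (x - y) := by
  refine tsum_eq_single (⟨y, hy⟩ : Λ) fun z hz => by_contra fun c => ?_
  have h1 := h _ (sub_mem z.2 hy) fun e => hz (Subtype.ext (sub_eq_zero.1 e))
  have h2 := norm_sub_le (x - y) (x - z)
  rw [sub_sub_sub_cancel_left] at h2
  linarith [hΦ _ c]

theorem per_ne {Λ : AddSubgroup (E r)} {Φ : E r → ℝ} {x : E r} (h : per Λ Φ x ≠ 0) :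
    ∃ y ∈ Λ, Φ (x - y) ≠ 0 := by
  by_contra c
  refine h ((tsum_congr fun y => ?_).trans tsum_zero)
  exact by_contra fun e => c ⟨y, y.2, e⟩

theorem per_congr {Λ : AddSubgroup (E r)} (Φ : E r → ℝ) {x x' : E r} (h : x - x' ∈ Λ) :
    per Λ Φ x = per Λ Φ x' := by
  rw [per, per, ← (Equiv.addRight (⟨_, h⟩ : Λ)).tsum_eq]
  exact tsum_congr fun y => congrArg Φ (by simp; ring)

/-- the componentwise logarithm of a quotient -/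
noncomputable def lq (x y : E r) : E r := fun w => Complex.log (x w / y w)

/-- a point of the grid -/
noncomputable def gp {T : Type} (η : ℝ) (pt : T → E r) (p : ℤ × T) : E r :=
  (η * p.1) • e0 r + pt p.2

/-- a fine grid modulo `Λ` -/
structure Gr (Λ : AddSubgroup (E r)) (η ρ : ℝ) {T : Type} [AddCommGroup T] (pt : T → E r)
    (F : Set (E r)) : Prop where
  pos : 0 < Rg Λ ∧ 0 ≤ ρ
  add : ∀ t t', pt (t + t') - pt t - pt t' ∈ Λ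
  ker : ∀ t, Lg (pt t) = 0
  sep : ∀ t t', ∀ y ∈ Λ, ‖pt t - pt t' - y‖ < η → t = t'
  cov : ∀ x, Lg x = 0 → ∃ t, ∃ y ∈ Λ, x - pt t - y ∈ F ∧ ‖x - pt t - y‖ ≤ ρ
  cvx : Convex ℝ F ∧ (∀ x ∈ F, -x ∈ F) ∧ MeasurableSet F ∧ closedBall 0 (η / (4 * r)) ⊆ F
  vol : volume F ≠ ⊤ ∧ Nat.card T * volume.real F ≤ 4 ^ r * (η * Rg Λ)
  low : η * Rg Λ ≤ Nat.card T * vb r (ρ + η)
  rs : ∀ (Φ : E r → ℝ) (K R : ℝ) (ζ : E r) (S : Finset (ℤ × T)), Tf Φ K R 0 → R ≤ 1 / 3 →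
    (∀ p, per Λ Φ (gp η pt p - ζ) ≠ 0 → p ∈ S) →
    |η * Rg Λ / Nat.card T * ∑ p ∈ S, per Λ Φ (gp η pt p - ζ) - ∫ x, Φ x|
      ≤ K * (ρ + η) * vb r (R + 2 * (ρ + η))

section
variable {ι G : Type} [AddCommGroup G]

/-- the sum of the tuple has class `g` and logarithm in `A` modulo `Λ` -/
def Ev (Λ : AddSubgroup (E r)) (x : ι → G) (lam : ι → E r) (g : G) (A : Set (E r)) {j : ℕ}
    (s : Fin j → ι) : Prop := ∑ i, x (s i) = g ∧ ∃ y ∈ Λ, ∑ i, lam (s i) - y ∈ A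

/-- `K` is a neighbourhood of `A` of finite volume -/
def Nb (A K : Set (E r)) (δ0 : ℝ) : Prop :=
  MeasurableSet K ∧ volume K ≠ ⊤ ∧ ∀ a ∈ A, closedBall a δ0 ⊆ K

/-- the cell index is correct -/
def Cel (lam : ι → E r) (u : ι → ℕ) (L η : ℝ) : Prop :=
  ∀ i, η * u i ≤ Lg (lam i) - L ∧ Lg (lam i) - L ≤ η * (u i + 1)

/-- rounding to the grid -/
def Rp (Λ : AddSubgroup (E r)) {T : Type} (pt : T → E r) (lam : ι → E r) (u : ι → ℕ) (th : ι → T)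
    (L η e : ℝ) : Prop := ∀ i, ∃ y ∈ Λ, ‖lam i - (L + η * u i) • e0 r - pt (th i) - y‖ ≤ e

/-- the smoothed position with grid point and class -/
def tri {T : Type} (u : ι → ℕ) (J : ℕ) (th : ι → T) (x : ι → G) (p : ι × Fin J) : ℤ × T × G :=
  (su u J p, th p.1, x p.1)

variable [Fintype ι]

/-- balls of radius `δ0` have small mass -/
def DB (μ : ι → ℝ) (x : ι → G) (lam : ι → E r) (Λ : AddSubgroup (E r)) (k : ℕ) (δ0 D : ℝ) : Prop :=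
  ∀ g ζ, tm μ k (fun s => ind (Ev Λ x lam g (closedBall ζ δ0) s)) ≤ D * δ0 ^ (2 * r)

/-- the density bound at all scales above `δ0` -/
def DH (μ : ι → ℝ) (x : ι → G) (lam : ι → E r) (Λ : AddSubgroup (E r)) (k : ℕ) (δ0 D : ℝ) : Prop :=
  0 ≤ D ∧ ∀ g A K, Nb A K δ0 → tm μ k (fun s => ind (Ev Λ x lam g A s)) ≤ D * volume.real K

/-- the local sum -/
noncomputable def Sl (μ : ι → ℝ) (x : ι → G) (lam : ι → E r) (Λ : AddSubgroup (E r)) (j : ℕ) (g : G)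
    (Φ : E r → ℝ) (ζ : E r) : ℝ :=
  tm μ j fun s => ind (∑ i, x (s i) = g) * per Λ Φ (∑ i, lam (s i) - ζ)

end

end

/-! ### lattice rows -/

/-- counting and Riemann sums -/
def RsS : Prop := ∀ (r : ℕ) (A : Type) [AddCommGroup A] (g : A →+ E r) (V ρ : ℝ), Lt g V ρ →
  0 < V ∧ 0 ≤ ρ ∧ V ≤ vb r ρ ∧
  (∀ (c : E r) (R : ℝ) (S : Finset A), 0 ≤ R → (∀ v ∈ S, ‖g v - c‖ ≤ R) → V * S.card ≤ vb r (R + ρ)) ∧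
  (∀ (c : E r) (R : ℝ), 0 ≤ R →
    ∃ S : Finset A, (∀ v, v ∈ S ↔ ‖g v - c‖ ≤ R + ρ) ∧ vb r R ≤ V * S.card) ∧
  ∀ (Φ : E r → ℝ) (K R : ℝ) (c : E r) (S : Finset A), Tf Φ K R c → (∀ v, Φ (g v) ≠ 0 → v ∈ S) →
    |V * ∑ v ∈ S, Φ (g v) - ∫ x, Φ x| ≤ K * ρ * vb r (R + 2 * ρ)

/-- the theorem of Minkowski -/
def MinkS : Prop := ∀ (r : ℕ) (A : Type) [AddCommGroup A] (g : A →+ E r) (V ρ : ℝ), Lt g V ρ →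
  (∀ F : Set (E r), Convex ℝ F → (∀ x ∈ F, -x ∈ F) → (∀ v, g v ∈ F → v = 0) →
    volume F ≠ ⊤ ∧ volume.real F ≤ 4 ^ r * V) ∧
  ∀ s : ℝ, 0 ≤ s → 4 ^ r * V < vb r s → ∃ v, v ≠ 0 ∧ ‖g v‖ ≤ s

/-- sublattices -/
def SubS : Prop := ∀ (r : ℕ) (A A' : Type) [AddCommGroup A] [AddCommGroup A'] (g : A →+ E r)
  (h : A' →+ A) (V ρ ρ' : ℝ), Lt g V ρ → Function.Injective h → (∀ x, ∃ v, ‖x - g (h v)‖ ≤ ρ') →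
  h.range.index ≠ 0 ∧ Lt (g.comp h) (h.range.index * V) ρ'

/-- the extended lattices -/
def ExtS : Prop := ∀ (r : ℕ) (Λ : AddSubgroup (E r)) (a R : ℝ), 1 ≤ r → 0 < a → UL Λ a R →
  0 < Rg Λ ∧ (∀ t : ℝ, 0 < t → Lt (ext Λ t).subtype (t * Rg Λ) (R + t)) ∧
  ∀ (Λ' : AddSubgroup (E r)) (a' R' : ℝ), 0 < a' → UL Λ' a' R' → Λ ≤ Λ' →
    Λ.relIndex Λ' ≠ 0 ∧ Rg Λ = Λ.relIndex Λ' * Rg Λ'

/-- a well rounded superlattice of prime power index -/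
def FineS : Prop := ∀ (r p : ℕ) (Λ : AddSubgroup (E r)) (a R η : ℝ), 1 ≤ r → p.Prime → 0 < η →
  η ≤ a → UL Λ a R → ∃ Λ', Λ ≤ Λ' ∧ UL Λ' η (2 * r * p * η) ∧ ∃ k, Λ.relIndex Λ' = p ^ k

/-- the cell of Voronoi -/
def VorS : Prop := ∀ (r : ℕ) (Λ : AddSubgroup (E r)) (η R : ℝ), 1 ≤ r → 0 < η → UL Λ η R →
  ∃ F : Set (E r), Convex ℝ F ∧ (∀ x ∈ F, -x ∈ F) ∧ MeasurableSet F ∧
    closedBall 0 (η / (4 * r)) ⊆ F ∧ (∀ x ∈ ext Λ η, x ∈ F → x = 0) ∧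
    ∀ x, Lg x = 0 → ∃ y ∈ Λ, x - y ∈ F ∧ ‖x - y‖ ≤ r * R

/-- existence of grids -/
def GridS : Prop := ∀ (r p : ℕ) (Λ : AddSubgroup (E r)) (R η : ℝ), 1 ≤ r → p.Prime → 0 < η →
  η ≤ 1 → UL Λ 1 R → ∃ (T : Type) (_ : AddCommGroup T) (_ : Finite T) (pt : T → E r)
    (F : Set (E r)), Gr Λ η (2 * r ^ 2 * p * η) pt F ∧ ∃ k, Nat.card T = p ^ k

/-- the tent function -/
def TnS : Prop := ∀ r : ℕ, 0 < cτ r ∧ cτ r ≤ vb r 1 ∧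
  (∀ y c : E r, (∀ w, y w ≠ 0) → ∫ x : E r, tn (y * (x - c)) = cτ r / ∏ w, ‖y w‖ ^ 2) ∧
  ∀ (R : ℝ) (c : E r), 0 < R → Tf (fun x => tn (R⁻¹ • (x - c))) (1 / R) R c ∧
    ∫ x : E r, tn (R⁻¹ • (x - c)) = cτ r * R ^ (2 * r)

/-- the tent function in logarithmic coordinates -/
def LinS : Prop := ∀ (r : ℕ) (y : E r) (X R δ : ℝ), 1 ≤ r → 0 < R → δ = 6 * R / Real.exp X →
  4 * r * δ ≤ 1 → (∀ w, y w ≠ 0 ∧ |Real.log ‖y w‖ - X| ≤ 1) →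
  δ ^ (2 * r) * ∏ w, ‖y w‖ ^ 2 ≤ 17 ^ (2 * r) * R ^ (2 * r) ∧
  ∃ Ψ Φ : E r → ℝ, Tf Φ (17 / δ) δ 0 ∧ (∀ ξ, 0 ≤ Φ ξ ∧ Φ ξ ≤ 1) ∧
    (∫ ξ, Φ ξ) * ∏ w, ‖y w‖ ^ 2 = cτ r * R ^ (2 * r) ∧
    (∀ ξ, 0 ≤ Ψ ξ ∧ Ψ ξ ≤ 2 ∧ (Ψ ξ ≠ 0 → ‖ξ‖ ≤ δ) ∧ |Ψ ξ - Φ ξ| ≤ (17 + 4 * r) * δ) ∧
    ∀ x : E r, (∀ w, x w ≠ 0) →
      tn (R⁻¹ • (x - y)) * ∏ w, ‖x w‖ ^ 2 = Ψ (lq x y) * ∏ w, ‖y w‖ ^ 2

/-! ### the analytic core -/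

def FubS : Prop := ∀ (r : ℕ) (ι G : Type) [Fintype ι] [AddCommGroup G] (μ : ι → ℝ) (x : ι → G)
  (lam : ι → E r) (Λ : AddSubgroup (E r)) (k : ℕ) (δ0 D : ℝ), (∀ i, 0 ≤ μ i) → 0 < δ0 →
  DB μ x lam Λ k δ0 D → DH μ x lam Λ k δ0 D

/-- upper bounds for longer tuples -/
def UpS : Prop := ∀ (r : ℕ) (ι G : Type) [Fintype ι] [AddCommGroup G] (μ : ι → ℝ) (x : ι → G)
  (lam : ι → E r) (Λ : AddSubgroup (E r)) (k j : ℕ) (δ0 D : ℝ), Sb μ → DH μ x lam Λ k δ0 D →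
  (k ≤ j → DH μ x lam Λ j δ0 D) ∧ ∀ (g : G) (A K : Set (E r)) (t : ℝ), Nb A K δ0 → 0 ≤ t →
  (∀ h : ι → ℝ, k + 1 ≤ j → (∀ i, 0 ≤ h i) → ∑ i, μ i * h i ≤ t →
    tm μ j (fun s => (∑ a, h (s a)) * ind (Ev Λ x lam g A s)) ≤ j * t * (D * volume.real K)) ∧
  ∀ Bd : ι → ι → Prop, k + 2 ≤ j → (∀ i, ∑ i', μ i' * ind (Bd i i') ≤ t) →
    tm μ j (fun s => ind ((∃ a b, a ≠ b ∧ Bd (s a) (s b)) ∧ Ev Λ x lam g A s))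
      ≤ j ^ 2 * t * (D * volume.real K)

/-- the local sum without repetitions -/
def LocS : Prop := ∀ (r : ℕ) (ι G : Type) [Fintype ι] [AddCommGroup G] (μ : ι → ℝ) (x : ι → G)
  (lam : ι → E r) (Λ : AddSubgroup (E r)) (k j : ℕ) (δ0 D δ a t : ℝ) (g : G) (ζ : E r)
  (Ψ Φ : E r → ℝ) (Bd : ι → ι → Prop) (N : (Fin j → ι) → Prop), Sb μ → DH μ x lam Λ k δ0 D →
  (∀ y ∈ Λ, y ≠ 0 → 1 ≤ ‖y‖) → 0 ≤ δ → δ0 ≤ δ → δ ≤ 1 / 3 → k + 2 ≤ j → 0 ≤ t →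
  (∀ ξ, 0 ≤ Ψ ξ ∧ Ψ ξ ≤ 2 ∧ (Ψ ξ ≠ 0 → ‖ξ‖ ≤ δ) ∧ |Ψ ξ - Φ ξ| ≤ a) → (∀ ξ, Φ ξ ≠ 0 → ‖ξ‖ ≤ δ) →
  (∀ i, ∑ i', μ i' * ind (Bd i i') ≤ t) → (∀ s, ¬N s → ∃ a b, a ≠ b ∧ Bd (s a) (s b)) →
  ∀ S : ℝ, S = tm μ j (fun s => ind (N s) *
    (ind (∑ i, x (s i) = g) * per Λ Ψ (∑ i, lam (s i) - ζ))) →
  S ≤ 2 * (D * vb r (2 * δ)) ∧
  |S - Sl μ x lam Λ j g Φ ζ| ≤ (a + 2 * j ^ 2 * t) * (D * vb r (2 * δ))

/-- the cells have small mass -/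
def CellS : Prop := ∀ (r : ℕ) (ι G T : Type) [Fintype ι] [AddCommGroup G] [AddCommGroup T] [Finite T]
  (μ : ι → ℝ) (x : ι → G) (lam : ι → E r) (u : ι → ℕ) (Λ : AddSubgroup (E r)) (pt : T → E r)
  (F : Set (E r)) (k J : ℕ) (L η ρ D : ℝ), 1 ≤ r → Sb μ → 1 ≤ J → 0 < η → Gr Λ η ρ pt F →
  Cel lam u L η → DH μ x lam Λ k (η / (4 * r)) D → ∃ th : ι → T, Rp Λ pt lam u th L η (ρ + η) ∧
    ∀ y, law (sm μ J) (tri u J th x) k y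
      ≤ D * ((3 * k + 1) ^ (2 * r) * 4 ^ r * (η * Rg Λ) / Nat.card T)

/-- discretisation -/
def RiaS : Prop := ∀ (r : ℕ) (ι G T : Type) [Fintype ι] [AddCommGroup G] [AddCommGroup T]
  (μ : ι → ℝ) (x : ι → G) (lam : ι → E r) (u : ι → ℕ) (th : ι → T) (Λ : AddSubgroup (E r))
  (pt : T → E r) (k j J : ℕ) (L η e δ0 D K δ : ℝ) (g : G) (ζ : E r) (Φ : E r → ℝ), 1 ≤ r → Sb μ →
  1 ≤ J → 0 < η → 0 ≤ e → (∀ y ∈ Λ, y ≠ 0 → 1 ≤ ‖y‖) → (∀ t t', pt (t + t') - pt t - pt t' ∈ Λ) →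
  Rp Λ pt lam u th L η e → DH μ x lam Λ k δ0 D → k ≤ j → Tf Φ K δ 0 → δ0 ≤ δ →
  j * (e + J * η) ≤ δ → δ ≤ 1 / 6 →
  |Sl μ x lam Λ j g Φ ζ - tm (sm μ J) j fun s => ind (∑ i, x (s i).1 = g) *
    per Λ Φ (gp η pt (∑ i, su u J (s i), ∑ i, th (s i).1) - (ζ - (j * L) • e0 r))|
    ≤ K * (j * (e + J * η)) * (D * vb r (3 * δ))

/-- the sum over the grid -/
def RibS : Prop := ∀ (r : ℕ) (T : Type) [AddCommGroup T] [Finite T] (Λ : AddSubgroup (E r))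
  (pt : T → E r) (F : Set (E r)) (η ρ K δ : ℝ) (ζ : E r) (Φ : E r → ℝ), 1 ≤ r → 0 < η →
  (∀ y ∈ Λ, Lg y = 0) → Gr Λ η ρ pt F → Tf Φ K δ 0 → (∀ ξ, 0 ≤ Φ ξ ∧ Φ ξ ≤ 1) → δ ≤ 1 / 3 →
  2 * r * δ ≤ 1 → ρ + η ≤ δ → ∃ S : Finset (ℤ × T), (∀ p, per Λ Φ (gp η pt p - ζ) ≠ 0 → p ∈ S) ∧
    ∀ (P : ℤ × T → ℝ) (m e : ℝ), 0 ≤ m → 0 ≤ e →
    (∀ p : ℤ × T, |η * p.1 - Lg ζ| ≤ 1 → |P p - m| ≤ e) →
    |∑ p ∈ S, P p * per Λ Φ (gp η pt p - ζ) - m * (Nat.card T / (η * Rg Λ)) * ∫ ξ, Φ ξ|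
      ≤ (e * (1 + K * (ρ + η)) + m * (K * (ρ + η))) * (Nat.card T / (η * Rg Λ) * vb r (3 * δ))

/-- the order of the group has no small factor -/
def NoS (T : Type) (J0 : ℕ) : Prop := ∀ j, 1 ≤ j → j ≤ J0 → (Nat.card T).Coprime j

/-- classification of the large characters -/
def ClsS : Prop := ∀ (k' : ℕ) (C : ℝ), 1 ≤ k' → ∃ (J0 : ℕ) (c : ℝ), 0 < c ∧ c ≤ 1 ∧
  ∀ (ι G T : Type) [Fintype ι] [AddCommGroup G] [Finite G] [AddCommGroup T] [Finite T] (μ : ι → ℝ)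
    (u : ι → ℕ) (th : ι → T) (x : ι → G) (U J : ℕ) (d : ℝ), J0 ≤ J → J ≤ U → NoS T J0 → Sb μ →
  (∀ i, u i < U) → (∀ y, law (sm μ J) (tri u J th x) k' y ≤ C / (U * Nat.card T * Nat.card G)) →
  0 < d → d ≤ 1 → ∀ (α : ℝ) (ψ : AddChar (T × G) ℂ), |α| ≤ 1 / 2 →
    1 - c * d ^ 2 < ‖ex (sm μ J) fun p => ee (α * su u J p) * ψ (th p.1, x p.1)‖ →
    ∃ χ : AddChar G ℂ, (∀ t g, ψ (t, g) = χ g) ∧ 1 - d < ‖ex μ fun i => χ (x i)‖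

/-- the local limit theorem -/
def LltS : Prop := ∀ (k' : ℕ) (C : ℝ), 1 ≤ k' → ∃ (J0 : ℕ) (c : ℝ), 0 < c ∧ c ≤ 1 ∧
  ∀ (ι G T : Type) [Fintype ι] [AddCommGroup G] [Finite G] [AddCommGroup T] [Finite T] (μ : ι → ℝ)
    (u : ι → ℕ) (th : ι → T) (x : ι → G) (U J : ℕ) (d : ℝ), J0 ≤ J → J ≤ U → NoS T J0 → Sb μ →
  (∀ i, u i < U) → (∀ y, law (sm μ J) (tri u J th x) k' y ≤ C / (U * Nat.card T * Nat.card G)) →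
  0 < d → d ≤ 1 → ∀ (B : Finset (AddChar G ℂ)) (cc : AddChar G ℂ → ℂ) (j : ℕ) (g : G),
    (∀ χ ∈ B, ∀ i, χ (x i) = cc χ) → (∀ χ ∉ B, ‖ex μ fun i => χ (x i)‖ ≤ 1 - d) → 2 * k' ≤ j →
    (∀ χ ∈ B, χ g = cc χ ^ j) → ∀ (v : ℤ) (t : T),
    |law (sm μ J) (tri u J th x) j (v, t, g)
      - B.card / (Nat.card T * Nat.card G) * law (sm μ J) (su u J) j v|
      ≤ (1 - c * d ^ 2) ^ (j - 2 * k') * (C / (U * Nat.card T * Nat.card G))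

/-- the conclusion of the analytic core -/
def AnI (r k' : ℕ) (C c C' : ℝ) (J k : ℕ) (δ1 : ℝ) : Prop :=
  ∀ (ι G : Type) [Fintype ι] [AddCommGroup G] [Finite G] (μ : ι → ℝ) (x : ι → G) (lam : ι → E r)
    (u : ι → ℕ) (U : ℕ) (L η R : ℝ) (Λ : AddSubgroup (E r)), Sb μ → J ≤ U → (∀ i, u i < U) →
  0 < η → η ≤ δ1 → UL Λ 1 R → Cel lam u L η →
  DH μ x lam Λ k' (η / (4 * r)) (C / (Nat.card G * Rg Λ * (U * η))) →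
  (∀ v, law (sm μ J) (su u J) k' v ≤ C' / U) ∧
  ∀ (B : Finset (AddChar G ℂ)) (cc : AddChar G ℂ → ℂ) (j : ℕ) (g : G) (ζ : E r) (Φ : E r → ℝ)
    (d δ fm ε : ℝ), 0 < d → d ≤ 1 → (∀ χ ∈ B, ∀ i, χ (x i) = cc χ) →
    (∀ χ ∉ B, ‖ex μ fun i => χ (x i)‖ ≤ 1 - d) → 2 * k' ≤ j → j ≤ k → (∀ χ ∈ B, χ g = cc χ ^ j) →
    0 < δ → δ ≤ δ1 → η ≤ δ ^ 2 → Tf Φ (17 / δ) δ 0 → (∀ ξ, 0 ≤ Φ ξ ∧ Φ ξ ≤ 1) → 0 ≤ fm → 0 ≤ ε →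
    (∀ v : ℤ, |η * v - (Lg ζ - j * L)| ≤ 1 → |U * law (sm μ J) (su u J) j v - fm| ≤ ε * fm) →
    |Sl μ x lam Λ j g Φ ζ - B.card * fm * (∫ ξ, Φ ξ) / (Nat.card G * Rg Λ * (U * η))|
      ≤ C' * (B.card * fm * (ε + δ) + (1 - c * d ^ 2) ^ (j - 2 * k') + k * J * δ) *
        (δ ^ (2 * r) / (Nat.card G * Rg Λ * (U * η)))

/-- the analytic core -/
def AnS : Prop := ∀ (r k' : ℕ) (C : ℝ), 1 ≤ r → 1 ≤ k' → 0 ≤ C →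
  ∃ (J0 : ℕ) (c C' : ℝ), 1 ≤ J0 ∧ 0 < c ∧ c ≤ 1 ∧ 1 ≤ C' ∧ ∀ J k : ℕ, J0 ≤ J →
    ∃ δ1 : ℝ, 0 < δ1 ∧ AnI r k' C c C' J k δ1

/-- the bound for classes from the density bound -/
def MgaS : Prop := ∀ (r : ℕ) (ι G : Type) [Fintype ι] [AddCommGroup G] (μ : ι → ℝ) (x : ι → G)
  (lam : ι → E r) (Λ : AddSubgroup (E r)) (k : ℕ) (R L H D : ℝ), 1 ≤ r → (∀ i, 0 ≤ μ i) → UL Λ 1 R →
  DH μ x lam Λ k (1 / (4 * r)) D → 0 ≤ H → (∀ i, L ≤ Lg (lam i) ∧ Lg (lam i) ≤ L + H) →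
  ∀ g, law μ x k g ≤ D * ((k * H + 2) * 64 ^ r * Rg Λ)

/-- a class and a ball of large mass -/
def PigS : Prop := ∀ r : ℕ, 1 ≤ r → ∃ C : ℝ, 0 < C ∧ ∀ (ι G : Type) [Fintype ι] [AddCommGroup G]
  [Finite G] (μ : ι → ℝ) (x : ι → G) (lam : ι → E r) (Λ : AddSubgroup (E r)) (k : ℕ) (R L H : ℝ),
  (∀ i, 0 ≤ μ i) → UL Λ 1 R → 0 ≤ H → (∀ i, L ≤ Lg (lam i) ∧ Lg (lam i) ≤ L + H) →
  ∃ g ζ, (∑ i, μ i) ^ k ≤ C * ((k * H + 1) * (Nat.card G * Rg Λ)) *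
    tm μ k fun s => ind (Ev Λ x lam g (closedBall ζ (1 / 4)) s)

/-! ### the sieve -/

section
variable {n : ℕ}

/-- the residues modulo `q` -/
noncomputable def box (n q : ℕ) : Finset (Fin n → ℤ) := Fintype.piFinset fun _ => Ico (0 : ℤ) q

/-- the mean over one period -/
noncomputable def mean (q : ℕ) (f : (Fin n → ℤ) → ℂ) : ℂ := (∑ x ∈ box n q, f x) / (q : ℂ) ^ n

/-- periodic modulo `q` -/
def Pd {α : Type} (q : ℕ) (f : (Fin n → ℤ) → α) : Prop := ∀ x y, f (x + (q : ℤ) • y) = f x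

open Classical in
/-- data for the sieve -/
structure Sv (P : Finset ℕ) (Z : ℕ → (Fin n → ℤ) → Prop) (ν : ℕ → ℝ) (B Y : ℝ) : Prop where
  pr : ∀ l ∈ P, l.Prime ∧ (l : ℝ) < Y ∧ 0 ≤ ν l ∧ ν l ≤ 1 / 2 ∧ ν l ≤ B / l
  per : ∀ l ∈ P, Pd l (Z l)
  den : ∀ l ∈ P, (((box n l).filter (Z l)).card : ℝ) = ν l * (l : ℝ) ^ n

open Classical in
/-- the local factor of the sieve weight -/
noncomputable def ph (Z : ℕ → (Fin n → ℤ) → Prop) (ν : ℕ → ℝ) (l : ℕ) (x : Fin n → ℤ) : ℝ :=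
  if Z l x then -1 else ν l / (1 - ν l)

/-- the sieve weight -/
noncomputable def Lw (P : Finset ℕ) (Z : ℕ → (Fin n → ℤ) → Prop) (ν : ℕ → ℝ) (Y : ℝ)
    (x : Fin n → ℤ) : ℝ :=
  ((∑ D ∈ Ds P ⌊√Y⌋₊, ∏ l ∈ D, ph Z ν l x) / Gs (fun l => ν l / (1 - ν l)) P ⌊√Y⌋₊) ^ 2

/-- the sieve density -/
noncomputable def sd (ν : ℕ → ℝ) (P : Finset ℕ) : ℝ := ∏ l ∈ P, (1 - ν l)

/-- a function which oscillates modulo `q` -/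
structure Osc (q : ℕ) (P : Finset ℕ) (Z : ℕ → (Fin n → ℤ) → Prop) (ψ : (Fin n → ℤ) → ℂ) : Prop where
  pos : 0 < q
  per : Pd q ψ
  le : ∀ x, ‖ψ x‖ ≤ 1
  osc : ∃ (t : Fin n → ℤ) (C C' : (Fin n → ℤ) →+ (Fin n → ℤ)) (m : ℕ) (w : ℂ), m.Coprime q ∧
    (∀ l ∈ P, ¬l ∣ m) ∧ (∀ x, C' (C x) = (m : ℤ) • x) ∧ w ≠ 1 ∧
    ∀ x, ψ (t + C x) = w * ψ x ∧ ∀ l ∈ P, (Z l (t + C x) ↔ Z l x)

end

/-- means of periodic functions -/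
def CrtS : Prop := ∀ n : ℕ,
  (∀ (a b : ℕ) (f : (Fin n → ℤ) → ℂ), 0 < a → 0 < b → Pd a f → mean (a * b) f = mean a f) ∧
  (∀ (P : Finset ℕ) (f : ℕ → (Fin n → ℤ) → ℂ), (∀ l ∈ P, l.Prime ∧ Pd l (f l)) →
    mean (∏ l ∈ P, l) (fun x => ∏ l ∈ P, f l x) = ∏ l ∈ P, mean l (f l)) ∧
  ∀ (q m : ℕ) (f : (Fin n → ℤ) → ℂ) (t : Fin n → ℤ) (C C' : (Fin n → ℤ) →+ (Fin n → ℤ)), 0 < q →
    Pd q f → m.Coprime q → (∀ x, C' (C x) = (m : ℤ) • x) → mean q (fun x => f (t + C x)) = mean q f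

/-- Riemann sums with a periodic factor -/
def RsqS : Prop := ∀ (n r q : ℕ) (g : (Fin n → ℤ) →+ E r) (V ρ K R : ℝ) (c : E r) (Φ : E r → ℝ)
  (f : (Fin n → ℤ) → ℂ) (S : Finset (Fin n → ℤ)), Lt g V ρ → 0 < q → Pd q f → (∀ x, ‖f x‖ ≤ 1) →
  Tf Φ K R c → (∀ v, Φ (g v) ≠ 0 → v ∈ S) →
  ‖V * ∑ v ∈ S, Φ (g v) * f v - mean q f * (∫ x, Φ x : ℝ)‖ ≤ K * (q * ρ) * vb r (R + 2 * (q * ρ))

/-- lower bound for the denominator of the sieve -/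
def GlS : Prop := ∀ B : ℝ, ∃ c : ℝ, 0 < c ∧ ∀ (Y : ℝ) (P : Finset ℕ) (g : ℕ → ℝ), 2 ≤ Y →
  (∀ l ∈ P, l.Prime ∧ (l : ℝ) < Y ∧ 0 ≤ g l ∧ g l ≤ B / l) →
  c * ∏ l ∈ P, (1 + g l) ≤ Gs g P ⌊√Y⌋₊

/-- diagonal bound -/
def SwdS : Prop := ∀ (r : ℕ) (B : ℝ), ∃ C : ℝ, 0 ≤ C ∧ ∀ (n : ℕ) (P : Finset ℕ)
  (Z : ℕ → (Fin n → ℤ) → Prop) (ν : ℕ → ℝ) (Y : ℝ), 2 ≤ Y → Sv P Z ν B Y →
  (∀ x, (∀ l ∈ P, ¬Z l x) → Lw P Z ν Y x = 1) ∧ 1 ≤ C * Y * sd ν P ∧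
  ∀ (g : (Fin n → ℤ) →+ E r) (V ρ R : ℝ) (c : E r) (S : Finset (Fin n → ℤ)), Lt g V ρ → 0 < R →
    Y ^ 3 * ρ ≤ R → V * ∑ x ∈ S, tn (R⁻¹ • (g x - c)) * Lw P Z ν Y x ≤ C * R ^ (2 * r) * sd ν P

/-- off diagonal bound -/
def SwoS : Prop := ∀ (n r q : ℕ) (P : Finset ℕ) (Z : ℕ → (Fin n → ℤ) → Prop) (ν : ℕ → ℝ) (B Y : ℝ)
  (ψ : (Fin n → ℤ) → ℂ) (g : (Fin n → ℤ) →+ E r) (V ρ R : ℝ) (c : E r) (S : Finset (Fin n → ℤ)),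
  2 ≤ Y → Sv P Z ν B Y → Osc q P Z ψ → Lt g V ρ → 0 < R → q * Y * ρ ≤ R →
  (∀ x, tn (R⁻¹ • (g x - c)) ≠ 0 → x ∈ S) →
  ‖V * ∑ x ∈ S, (tn (R⁻¹ • (g x - c)) * Lw P Z ν Y x : ℝ) * ψ x‖
    ≤ q * Y ^ 2 * (ρ / R) * vb r (3 * R)

/-- sifted points in a ball -/
def CntS : Prop := ∀ (r : ℕ) (B : ℝ), ∃ C : ℝ, 0 ≤ C ∧ ∀ (n : ℕ) (P : Finset ℕ)
  (Z : ℕ → (Fin n → ℤ) → Prop) (ν : ℕ → ℝ) (Y : ℝ) (g : (Fin n → ℤ) →+ E r) (V ρ R : ℝ) (c : E r)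
  (S : Finset (Fin n → ℤ)), 2 ≤ Y → Sv P Z ν B Y → Lt g V ρ → 0 < R → Y ^ 3 * ρ ≤ R →
  (∀ x ∈ S, ‖g x - c‖ ≤ R ∧ ∀ l ∈ P, ¬Z l x) → V * S.card ≤ C * R ^ (2 * r) * sd ν P

/-- large sieve for sifted points in a ball -/
def LsaS : Prop := ∀ (r : ℕ) (B : ℝ), ∃ C : ℝ, 0 ≤ C ∧ ∀ (n M : ℕ) (P : Finset ℕ)
  (Z : ℕ → (Fin n → ℤ) → Prop) (ν : ℕ → ℝ) (Y q : ℝ) (g : (Fin n → ℤ) →+ E r) (V ρ R : ℝ) (c : E r)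
  (S : Finset (Fin n → ℤ)) (ψ : Fin M → (Fin n → ℤ) → ℂ) (α : Fin M → ℂ), 2 ≤ Y → Sv P Z ν B Y →
  Lt g V ρ → 0 < R → 1 ≤ q → M * q * Y ^ 3 * ρ ≤ R → (∀ i x, ‖ψ i x‖ ≤ 1) → (∀ i, ‖α i‖ ≤ 1) →
  (∀ i j, i < j → ∃ q' : ℕ, q' ≤ q ∧ Osc q' P Z fun x => ψ i x * (starRingEnd ℂ) (ψ j x)) →
  (∀ x ∈ S, ‖g x - c‖ ≤ R ∧ ∀ l ∈ P, ¬Z l x) →
  V * ∑ x ∈ S, ‖∑ i, α i * ψ i x‖ ^ 2 ≤ C * M * R ^ (2 * r) * sd ν P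

/-- the inequality of Hall and Tenenbaum -/
def HtS : Prop := ∀ n : ℕ, ∃ C : ℝ, 0 ≤ C ∧ ∀ (f : ℕ → ℝ) (X : ℕ), 2 ≤ X → (∀ m, 0 ≤ f m) →
  (∀ a b : ℕ, a.Coprime b → f (a * b) ≤ f a * f b) →
  (∀ l j : ℕ, l.Prime → f (l ^ j) ≤ ((j : ℝ) + 1) ^ n) →
  (∑ m ∈ Icc 1 X, f m) * Real.log X ≤ C * X * ∑ m ∈ Icc 1 X, f m / m

/-- tuples with a given norm -/
def MulS : Prop := ∀ (Val : Pt → Prop) (S : Finset (Multiset Pt)) (μ : Multiset Pt → ℝ) (n j m : ℕ)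
  (C1 : ℝ), (∀ (p : ℕ) (P : Finset Pt), (∀ z ∈ P, Val z ∧ z.p = p) → P.card ≤ n) →
  (∀ x ∈ S, (∃ z, x = {z} ∧ Val z ∧ z.p.Prime) ∧ 0 ≤ μ x ∧ μ x * nT x ≤ C1) →
  m * tm (fun x : S => μ x) j (fun s => ind (nT (∑ i, (s i).1) = m)) ≤ (j * n * |C1|) ^ j

def OfExt : Prop := SubS → ExtS
def OfGrid : Prop := RsS → MinkS → ExtS → FineS → VorS → GridS
def OfLin : Prop := TnS → LinS
def OfUp : Prop := TupS → UpS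
def OfLoc : Prop := TupS → UpS → LocS
def OfCell : Prop := TupS → SmS → CellS
def OfRia : Prop := TupS → SmS → UpS → RiaS
def OfCls : Prop := TupS → PowS → BesS → SmS → AcS → ClsS
def OfLlt : Prop := TupS → SmS → InvS → ClsS → LltS
def OfAn : Prop := TupS → SmS → UpS → GridS → LltS → CellS → RiaS → RibS → AnS
def OfMga : Prop := TupS → MinkS → ExtS → VorS → MgaS
def OfPig : Prop := TupS → GridS → PigS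
def OfRsq : Prop := RsS → SubS → RsqS
def OfGl : Prop := CheS → GlS
def OfSwd : Prop := RsS → TnS → CrtS → RsqS → GlS → SwdS
def OfSwo : Prop := RsS → TnS → CrtS → RsqS → SwoS
def OfCnt : Prop := RsS → SwdS → CntS
def OfLsa : Prop := RsS → SwdS → SwoS → LsaS
def OfHt : Prop := HtaS → HtS

end Pool.Agent.MP_f3836a_nt.GV.C
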