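import Pool.Agent.MP_f3836a_nt.GV.SpecC1

/-! Block C, second half: an order in a totally complex field, ray classes, equidistribution. -/

set_option autoImplicit false

namespace Pool.Agent.MP_f3836a_nt.GV.C

open Finset NumberField VE
open VE.BC (tm law Sb ex cop TupS PowS BesS CheS HtbS dvd_mul_sub)

/-- an order with a basis in a number field with complex embeddings -/
structure Od (n r : ℕ) where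
  A : Type
  [cA : CommRing A]
  L : Type
  [fL : Field L]
  [nL : NumberField L]
  inc : A →+* 𝓞 L
  y : Module.Basis (Fin n) ℤ A
  σ : Fin r → L →+* ℂ

namespace Od

variable {n r : ℕ} (o : Od n r)

instance : CommRing o.A := o.cA
instance : Field o.L := o.fL
instance : NumberField o.L := o.nL

/-- the multiplication table -/
noncomputable def M : Tab ℤ n := fun i => Algebra.leftMulMatrix o.y (o.y i)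

/-- the absolute discriminant -/
noncomputable def D : ℕ := (disc o.M).natAbs

/-- the embedding -/
noncomputable def em : o.A →+* E r :=
  RingHom.pi fun w => (o.σ w).comp ((algebraMap (𝓞 o.L) o.L).comp o.inc)

/-- the images of the basis vectors -/
noncomputable def Φ (w : Fin r) (i : Fin n) : ℂ := o.em (o.y i) w

/-- the element with given coordinates -/
noncomputable def co : (Fin n → ℤ) ≃+ o.A := o.y.equivFun.symm.toAddEquiv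

/-- the principal ideal -/
def pr (a : o.A) : Ideal (𝓞 o.L) := Ideal.span {o.inc a}

/-- the absolute norm -/
noncomputable def nm (a : o.A) : ℕ := Ideal.absNorm (o.pr a)

/-- the covolume of the order -/
noncomputable def V0 : ℝ := cvl o.em.toAddMonoidHom.range

theorem pr_mul (a b : o.A) : o.pr (a * b) = o.pr a * o.pr b := by
  rw [pr, pr, pr, map_mul, Ideal.span_singleton_mul_span_singleton]

theorem pr_one : o.pr 1 = 1 := by simp [pr]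

theorem nm_mul (a b : o.A) : o.nm (a * b) = o.nm a * o.nm b := by rw [nm, pr_mul, map_mul]; rfl

theorem nm_one : o.nm 1 = 1 := by rw [nm, pr_one, map_one]

structure Ok0 [NeZero n] : Prop where
  two : n = 2 * r
  inj : Function.Injective o.inc
  one : o.y 0 = 1
  rank : Module.finrank ℚ o.L = n
  emb : Em (fun i => (o.M i).map (Int.cast : ℤ → ℝ)) o.Φ

structure Ok [NeZero n] : Prop extends o.Ok0 where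
  dne : o.D ≠ 0
  cond : ∀ x : 𝓞 o.L, ∃ a, o.inc a = o.D * x
  nmM : ∀ β, (o.nm (o.co β) : ℤ) = Nm o.M β
  nrm : ∀ a, (o.nm a : ℝ) = ∏ w, ‖o.em a w‖ ^ 2
  bij : Function.Bijective fun w => InfinitePlace.mk (o.σ w)
  cpx : ∀ w, ¬ComplexEmbedding.IsReal (o.σ w)

/-! ### ray classes -/

/-- ideals of norm prime to `D Q` -/
def MQ (Q : ℕ) : Submonoid (Ideal (𝓞 o.L)) where
  carrier := {I | Ideal.absNorm I ≠ 0 ∧ (Ideal.absNorm I).Coprime (o.D * Q)}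
  mul_mem' := by
    rintro I J ⟨h0, h⟩ ⟨h1, h'⟩
    exact ⟨by rw [map_mul]; exact mul_ne_zero h0 h1, by rw [map_mul]; exact h.mul_left h'⟩
  one_mem' := ⟨by simp, by simp⟩

theorem mem_MQ {Q : ℕ} {I : Ideal (𝓞 o.L)} :
    I ∈ o.MQ Q ↔ Ideal.absNorm I ≠ 0 ∧ (Ideal.absNorm I).Coprime (o.D * Q) := Iff.rfl

theorem MQ_anti {W Q : ℕ} (h : W ∣ Q) {I : Ideal (𝓞 o.L)} (hI : I ∈ o.MQ Q) : I ∈ o.MQ W :=
  ⟨hI.1, hI.2.coprime_dvd_right (Nat.mul_dvd_mul_left _ h)⟩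

/-- a nonzero element of norm prime to `D Q` -/
def Pm (Q : ℕ) (a : o.A) : Prop := o.pr a ∈ o.MQ Q

/-- the norm is prime to `Q` -/
def Cp (Q : ℕ) (a : o.A) : Prop := (o.nm a).Coprime Q

theorem Pm.mul {Q : ℕ} {a b : o.A} (h : o.Pm Q a) (h' : o.Pm Q b) : o.Pm Q (a * b) := by
  rw [Pm, pr_mul]; exact mul_mem h h'

theorem pm_one (Q : ℕ) : o.Pm Q 1 := by rw [Pm, pr_one]; exact one_mem _

theorem pm_nat {Q m : ℕ} (h0 : m ≠ 0) (h : m.Coprime (o.D * Q)) : o.Pm Q m := by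
  rw [Pm, mem_MQ, pr, map_natCast, Ideal.absNorm_span_natCast]
  exact ⟨pow_ne_zero _ h0, h.pow_left _⟩

/-- ray equivalence -/
def Eq1 (Q : ℕ) (I J : Ideal (𝓞 o.L)) : Prop := ∃ a b : o.A, o.Pm Q a ∧ o.Pm Q b ∧
  (Q : o.A) ∣ a - 1 ∧ (Q : o.A) ∣ b - 1 ∧ o.pr a * I = o.pr b * J

/-- the congruence -/
def rcon (Q : ℕ) : Con (o.MQ Q) where
  r I J := o.Eq1 Q I.1 J.1
  iseqv := ⟨fun _ => ⟨1, 1, o.pm_one Q, o.pm_one Q, by simp, by simp, rfl⟩,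
    fun ⟨a, b, h1, h2, h3, h4, h⟩ => ⟨b, a, h2, h1, h4, h3, h.symm⟩,
    fun ⟨a, b, h1, h2, h3, h4, h⟩ ⟨c, d, h5, h6, h7, h8, h'⟩ =>
      ⟨c * a, b * d, h5.mul o h1, h2.mul o h6, dvd_mul_sub h7 h3, dvd_mul_sub h4 h8, by
        rw [pr_mul, pr_mul, mul_assoc, h, mul_left_comm, h', mul_assoc]⟩⟩
  mul' := fun ⟨a, b, h1, h2, h3, h4, h⟩ ⟨c, d, h5, h6, h7, h8, h'⟩ =>
    ⟨a * c, b * d, h1.mul o h5, h2.mul o h6, dvd_mul_sub h3 h7, dvd_mul_sub h4 h8, by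
      rw [pr_mul, pr_mul, Submonoid.coe_mul, Submonoid.coe_mul, mul_mul_mul_comm, h, h',
        mul_mul_mul_comm]⟩

theorem exists_mul_eq (Q : ℕ) {I : Ideal (𝓞 o.L)} (h : I ∈ o.MQ Q) :
    ∃ J ∈ o.MQ Q, I * J = o.pr (Ideal.absNorm I) := by
  obtain ⟨J, hJ⟩ := Ideal.dvd_iff_le.2 (Ideal.span_singleton_absNorm_le I)
  have h1 := o.pm_nat h.1 h.2
  rw [Pm, pr, map_natCast, hJ, mem_MQ, map_mul] at h1
  exact ⟨J, ⟨right_ne_zero_of_mul h1.1, h1.2.coprime_mul_left⟩, by rw [pr, map_natCast, hJ]⟩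

theorem rcon_unit (Q : ℕ) (g : (o.rcon Q).Quotient) : IsUnit g := by
  obtain ⟨⟨I, hI⟩, rfl⟩ := (o.rcon Q).mk'_surjective g
  obtain ⟨J, hJ, e⟩ := o.exists_mul_eq Q hI
  have hn : (Ideal.absNorm I).Coprime Q := hI.2.coprime_mul_left_right
  obtain ⟨k, hk⟩ : ∃ k : ℕ, (Q : ℤ) ∣ (Ideal.absNorm I ^ (k + 1) : ℕ) - 1 := by
    rcases Nat.eq_zero_or_pos Q with rfl | hQ
    · exact ⟨0, by simp [(Nat.coprime_zero_right _).1 hn]⟩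
    · refine ⟨Q.totient - 1, ?_⟩
      rw [Nat.sub_add_cancel (Nat.totient_pos.2 hQ)]
      exact_mod_cast (Nat.ModEq.pow_totient hn).symm.dvd
  have hp : ∀ k, o.Pm Q (Ideal.absNorm I ^ k : ℕ) := fun k =>
    o.pm_nat (pow_ne_zero _ hI.1) (hI.2.pow_left _)
  refine IsUnit.of_mul_eq_one ((o.rcon Q).mk' ⟨_, mul_mem hJ (hp k)⟩) ?_
  refine (Con.eq _).2 ⟨1, _, o.pm_one Q, hp (k + 1), by simp, ?_, ?_⟩
  · simpa using map_dvd (Int.castRingHom o.A) hk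
  · simp only [Submonoid.coe_mul, OneMemClass.coe_one, pr_one, mul_one, one_mul]
    rw [← mul_assoc, e, ← pr_mul, pow_succ', Nat.cast_mul]

/-- the ray class group -/
def RC (Q : ℕ) : Type := Additive (o.rcon Q).Quotient

noncomputable instance (Q : ℕ) : AddCommGroup (o.RC Q) :=
  @Additive.addCommGroup _ (@commGroupOfIsUnit (o.rcon Q).Quotient _ (o.rcon_unit Q))

/-- the class of an element of the monoid -/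
def cl0 {Q : ℕ} (I : o.MQ Q) : o.RC Q := Additive.ofMul ((o.rcon Q).mk' I)

open Classical in
/-- the class of an ideal -/
noncomputable def cI (Q : ℕ) (I : Ideal (𝓞 o.L)) : o.RC Q :=
  if h : I ∈ o.MQ Q then o.cl0 ⟨I, h⟩ else 0

theorem cI_mul {Q : ℕ} {I J : Ideal (𝓞 o.L)} (h : I ∈ o.MQ Q) (h' : J ∈ o.MQ Q) :
    o.cI Q (I * J) = o.cI Q I + o.cI Q J := by
  rw [cI, cI, cI, dif_pos h, dif_pos h', dif_pos (mul_mem h h')]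
  rfl

theorem cI_one (Q : ℕ) : o.cI Q 1 = 0 := by
  rw [cI, dif_pos (one_mem _)]
  rfl

theorem cI_eq {Q : ℕ} {I J : Ideal (𝓞 o.L)} (h : I ∈ o.MQ Q) (h' : J ∈ o.MQ Q) :
    o.cI Q I = o.cI Q J ↔ o.Eq1 Q I J := by
  rw [cI, cI, dif_pos h, dif_pos h']
  exact Con.eq (c := o.rcon Q) (a := ⟨I, h⟩) (b := ⟨J, h'⟩)

theorem cI_surj {Q : ℕ} (g : o.RC Q) : ∃ I ∈ o.MQ Q, o.cI Q I = g := by
  obtain ⟨I, h⟩ := (o.rcon Q).mk'_surjective (Additive.toMul g)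
  exact ⟨I.1, I.2, by rw [cI, dif_pos I.2]; exact h⟩

open Classical in
/-- the class of a residue -/
noncomputable def io (Q : ℕ) (c : o.A) : o.RC Q :=
  if h : ∃ c', (Q : o.A) ∣ c' - c ∧ o.Pm Q c' then o.cI Q (o.pr h.choose) else 0

/-- the prime of a point -/
def Jz (ss : Pt → Fin n → ℤ) (z : Pt) : Ideal (𝓞 o.L) :=
  Ideal.span (insert (z.p : 𝓞 o.L) (Set.range fun i => o.inc (o.y i) - (ss z i : 𝓞 o.L)))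

/-- the ideal of a multiset of points -/
def IM (ss : Pt → Fin n → ℤ) (T : Multiset Pt) : Ideal (𝓞 o.L) := (T.map (o.Jz ss)).prod

/-- the class of a multiset of points -/
noncomputable def cM (Q : ℕ) (ss : Pt → Fin n → ℤ) (T : Multiset Pt) : o.RC Q :=
  (T.map fun z => o.cI Q (o.Jz ss z)).sum

theorem IM_add (ss : Pt → Fin n → ℤ) (T T' : Multiset Pt) :
    o.IM ss (T + T') = o.IM ss T * o.IM ss T' := by simp [IM]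

theorem cM_add (Q : ℕ) (ss : Pt → Fin n → ℤ) (T T' : Multiset Pt) :
    o.cM Q ss (T + T') = o.cM Q ss T + o.cM Q ss T' := by simp [cM]

/-- a point which gives a prime of degree one -/
def Gd [NeZero n] (ss : Pt → Fin n → ℤ) (z : Pt) : Prop := z.p.Prime ∧ ¬z.p ∣ o.D ∧
  Hm (fun i => (o.M i).map (Int.cast : ℤ → ZMod z.p)) fun i => (ss z i : ZMod z.p)

/-- the logarithms of the units which are `1` modulo `Q` -/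
def LQ (Q : ℕ) : AddSubgroup (E r) where
  carrier := {ξ | ∃ ε : o.Aˣ, (Q : o.A) ∣ ε - 1 ∧ ∀ w, Complex.exp (ξ w) = o.em ε w}
  add_mem' := fun ⟨a, h1, h2⟩ ⟨b, h3, h4⟩ => ⟨a * b, dvd_mul_sub h1 h3, fun w => by
    rw [Pi.add_apply, Complex.exp_add, h2, h4, Units.val_mul, map_mul, Pi.mul_apply]⟩
  zero_mem' := ⟨1, by simp, fun w => by simp⟩
  neg_mem' := fun ⟨a, h1, h2⟩ => ⟨a⁻¹, by
    have := (h1.mul_left (-(a⁻¹ : o.Aˣ) : o.A))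
    rwa [neg_mul, mul_sub, Units.inv_mul, mul_one, neg_sub] at this, fun w => by
    rw [Pi.neg_apply, Complex.exp_neg, h2]
    refine inv_eq_of_mul_eq_one_right ?_
    rw [← Pi.mul_apply, ← map_mul, Units.mul_inv, map_one, Pi.one_apply]⟩

/-- class number times regulator -/
noncomputable def hR (Q : ℕ) : ℝ := Nat.card (o.RC Q) * Rg (o.LQ Q)

/-- logarithms of ideals -/
structure Lam (Q : ℕ) (lam : Ideal (𝓞 o.L) → E r) : Prop where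
  add : ∀ I ∈ o.MQ Q, ∀ J ∈ o.MQ Q, lam (I * J) - lam I - lam J ∈ o.LQ Q
  nrm : ∀ I ∈ o.MQ Q, Lg (lam I) = Real.log (Ideal.absNorm I)
  rel : ∀ (a b : o.A) (ξ : E r), o.Pm Q a → o.Pm Q b → (Q : o.A) ∣ b - a →
    (∀ w, o.em a w * Complex.exp (ξ w) = o.em b w) → lam (o.pr b) - lam (o.pr a) - ξ ∈ o.LQ Q

open Classical in
/-- residues which are `1` modulo `W` and prime to `Q` -/
noncomputable def US (W Q : ℕ) : Finset (Fin n → ℤ) :=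
  (box n Q).filter fun v => (W : o.A) ∣ o.co v - 1 ∧ o.Cp Q (o.co v)

/-- the projection to a lower level -/
structure IsPr (W Q : ℕ) (π : o.RC Q →+ o.RC W) : Prop where
  surj : Function.Surjective π
  cl : ∀ I ∈ o.MQ Q, π (o.cI Q I) = o.cI W I
  ker : ∀ g, π g = 0 ↔ ∃ c, (W : o.A) ∣ c - 1 ∧ o.Cp Q c ∧ g = o.io Q c

/-- a basis of the part of an ideal in the order -/
structure IsB (I : Ideal (𝓞 o.L)) (b : (Fin n → ℤ) →+ o.A) : Prop where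
  inj : Function.Injective b
  mem : ∀ γ, o.inc γ ∈ I ↔ γ ∈ b.range
  idx : b.range.index = Ideal.absNorm I

/-- the lattice of `Q` times an ideal -/
noncomputable def gI (Q : ℕ) (b : (Fin n → ℤ) →+ o.A) : (Fin n → ℤ) →+ E r :=
  o.em.toAddMonoidHom.comp ((AddMonoidHom.mulLeft (Q : o.A)).comp b)

theorem gI_apply (Q : ℕ) (b : (Fin n → ℤ) →+ o.A) (x : Fin n → ℤ) :
    o.gI Q b x = o.em (Q * b x) := rfl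

/-- the conditions of the sieve on a coset -/
def Zf (b0 : o.A) (Q : ℕ) (b : (Fin n → ℤ) →+ o.A) (l : ℕ) (x : Fin n → ℤ) : Prop :=
  l ∣ o.nm (b0 + Q * b x)

/-- the sieving primes -/
noncomputable def Pr (W : ℕ) (Y : ℝ) : Finset ℕ :=
  (range ⌈Y⌉₊).filter fun l => l.Prime ∧ ¬l ∣ o.D * W

/-- the class number is not too large -/
def Hb (W : ℕ) (C Y : ℝ) : Prop :=
  o.hR W * Real.log Y * sd (nuG o.M) (o.Pr W Y) ≤ C * (W ^ n * o.V0)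

/-- the number of ideals of norm `m` prime to the level -/
noncomputable def rr (W m : ℕ) : ℕ :=
  if m.Coprime (o.D * W) then Nat.card {I : Ideal (𝓞 o.L) // Ideal.absNorm I = m} else 0

/-- the basis is small -/
def Sz (B : ℝ) : Prop := ∀ w i, ‖o.Φ w i‖ ≤ B

/-- the base hypotheses -/
structure Bs [NeZero n] (ss : Pt → Fin n → ℤ) (Val : Pt → Prop) (St : Finset (Multiset Pt))
    (μ : Multiset Pt → ℝ) (W E0 : ℕ) (C1 Ch Y : ℝ) : Prop where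
  ok : o.Ok
  bh : BHG o.M o.Φ ss Val St μ W E0 C1 Y
  five : 5 ≤ W
  small : ∀ l : ℕ, l.Prime → l ≤ 2 * n → l ∣ W
  hb : o.Hb W Ch Y

open Classical in
/-- a character on the elements of the order -/
noncomputable def chO (Q : ℕ) (χ : AddChar (o.RC Q) ℂ) (β : o.A) : ℂ :=
  if o.Cp Q β then χ (o.io Q β) else 0

/-- the mean of a character over the steps prime to the level -/
noncomputable def mch (Q : ℕ) (ss : Pt → Fin n → ℤ) (S : Finset (Multiset Pt))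
    (μ : Multiset Pt → ℝ) (χ : AddChar (o.RC Q) ℂ) : ℂ :=
  ex (fun x : cop S Q => μ x) fun x => χ (o.cM Q ss x)

/-- a large character which is not trivial on the component at `l` -/
structure Vio (ss : Pt → Fin n → ℤ) (St : Finset (Multiset Pt)) (μ : Multiset Pt → ℝ) (W : ℕ)
    (B d : ℝ) (Q l : ℕ) (χ : AddChar (o.RC Q) ℂ) : Prop where
  dvd : W ∣ Q
  pos : 0 < Q
  le : (Q : ℝ) ≤ B
  prime : l.Prime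
  nw : ¬l ∣ W
  big : 1 - d ≤ ‖o.mch Q ss St μ χ‖
  ne : ∃ c : o.A, o.Cp Q c ∧ ((ordCompl[l] Q : ℕ) : o.A) ∣ c - 1 ∧ χ (o.io Q c) ≠ 1

/-- unfolding at the ideal `I0` with complement `J` -/
structure Unf (Q : ℕ) (lam : Ideal (𝓞 o.L) → E r) (I0 J : Ideal (𝓞 o.L)) (m : ℕ) : Prop where
  nrm : m = Ideal.absNorm I0 ∧ Ideal.absNorm J = m ^ (n - 1)
  mem : J ∈ o.MQ Q ∧ (m : 𝓞 o.L) ∈ J
  fwd : ∀ I ∈ o.MQ Q, o.cI Q I = o.cI Q I0 → ∀ ξ, lam I - lam I0 - ξ ∈ o.LQ Q →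
    ∃ γ, o.inc γ ∈ J ∧ I * J = o.pr (m + Q * γ) ∧ ∀ w, m * Complex.exp (ξ w) = o.em (m + Q * γ) w
  bwd : ∀ γ, o.inc γ ∈ J → o.Pm Q (m + Q * γ) → ∃ I ∈ o.MQ Q, I * J = o.pr (m + Q * γ) ∧
    o.cI Q I = o.cI Q I0 ∧ ∀ ξ : E r, (∀ w, m * Complex.exp (ξ w) = o.em (m + Q * γ) w) →
      lam I - lam I0 - ξ ∈ o.LQ Q

/-- the parametrisation identity -/
def ParI [NeZero n] (Q : ℕ) (ss : Pt → Fin n → ℤ) (lam : Ideal (𝓞 o.L) → E r) (T : Multiset Pt)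
    (β : Fin n → ℤ) (K : Finset o.A) (g : o.A → o.RC Q) (κ : o.A → E r) : Prop :=
  ∀ (M : Multiset Pt) (Vs : Finset (Fin n → ℤ)) (Ψ : E r → ℝ), (∀ z ∈ M, o.Gd ss z) →
    (∀ ξ, Ψ ξ ≠ 0 → ‖ξ‖ ≤ 1 / 3) → (∀ v, o.co (β + (Q : ℤ) • v) ≠ 0 →
      Ψ (lq (o.em (o.co (β + (Q : ℤ) • v))) (o.em (o.co β))) ≠ 0 → v ∈ Vs) →
    ∑ v ∈ Vs, Ψ (lq (o.em (o.co (β + (Q : ℤ) • v))) (o.em (o.co β))) *
        ind (EvG o.M ss (β + (Q : ℤ) • v) (T + M))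
      = ind (Nd M ∧ (nT M).Coprime Q) *
        ∑ u ∈ K, ind (o.cM Q ss M = g u) * per (o.LQ Q) Ψ (lam (o.IM ss M) - κ u)

end Od

/-! ### algebra rows -/

def SuaS : Prop := ∀ (n r : ℕ) [NeZero n] (M : Tab ℤ n) (Φ : Fin r → Fin n → ℂ), n = 2 * r → Rng M →
  (∀ β, β ≠ 0 → Nm M β ≠ 0) → Em (fun i => (M i).map (Int.cast : ℤ → ℝ)) Φ →
  ∃ o : Od n r, o.Ok0 ∧ o.M = M ∧ o.Φ = Φ

def SubbS : Prop := ∀ (n r : ℕ) [NeZero n] (o : Od n r), o.Ok0 → o.D ≠ 0 ∧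
  (∀ x : 𝓞 o.L, ∃ a, o.inc a = o.D * x) ∧ (∀ β, (o.nm (o.co β) : ℤ) = Nm o.M β) ∧
  ∀ a, (o.nm a : ℝ) = ∏ w, ‖o.em a w‖ ^ 2

def SucS : Prop := ∀ (n r : ℕ) [NeZero n] (o : Od n r), o.Ok0 →
  (Function.Bijective fun w => InfinitePlace.mk (o.σ w)) ∧ ∀ w, ¬ComplexEmbedding.IsReal (o.σ w)

/-- facts on the ring -/
def BaaS : Prop := ∀ (n r : ℕ) [NeZero n] (o : Od n r), o.Ok → 1 ≤ r ∧ Function.Injective o.em ∧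
  (∀ a, a ≠ 0 → o.nm a ≠ 0 ∧ ∀ w, o.em a w ≠ 0) ∧ o.nm 0 = 0 ∧ (∀ m : ℕ, o.nm m = m ^ n) ∧
  (∀ a, ∃ a', a * a' = o.nm a) ∧
  (∀ (q : ℕ) (c c' : o.A), (q : o.A) ∣ c' - c → o.nm c' ≡ o.nm c [MOD q]) ∧
  (∀ (q : ℕ) (c : o.A), o.Cp q c ↔ ∃ c', (q : o.A) ∣ c * c' - 1) ∧
  (∀ (Q : ℕ) (c : o.A), 0 < Q → o.Cp Q c → ∃ c', (Q : o.A) ∣ c' - c ∧ o.Pm Q c') ∧
  (∀ (q : ℕ) (β : Fin n → ℤ), (q : o.A) ∣ o.co β ↔ ∀ i, (q : ℤ) ∣ β i) ∧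
  (∀ (β : Fin n → ℤ) (w : Fin r), o.em (o.co β) w = emb (o.Φ w) fun i => β i) ∧
  (∀ (γ : Fin n → ℤ) (N : ℕ), o.co (pwr o.M γ N) = o.co γ ^ N) ∧
  ∀ a, a ≠ 0 → Nat.card (o.A ⧸ Ideal.span {a}) = o.nm a

/-- facts on classes -/
def BabS : Prop := ∀ (n r : ℕ) [NeZero n] (o : Od n r) (Q : ℕ), o.Ok → 0 < Q →
  (∀ (x : 𝓞 o.L) (a b : o.A), o.Pm Q a → o.inc a * x = o.inc b →
    ∃ β, o.inc β = x ∧ ∀ c, (Q : o.A) ∣ b - a * c → (Q : o.A) ∣ β - c) ∧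
  (∀ c, o.Pm Q c → o.Cp Q c ∧ o.io Q c = o.cI Q (o.pr c)) ∧
  (∀ c c', o.Cp Q c → (Q : o.A) ∣ c' - c → o.Cp Q c' ∧ o.io Q c' = o.io Q c) ∧
  (∀ c c', o.Cp Q c → o.Cp Q c' → o.Cp Q (c * c') ∧ o.io Q (c * c') = o.io Q c + o.io Q c') ∧
  (∀ I ∈ o.MQ Q, ∀ c, o.Cp Q c → (o.cI Q I = o.io Q c ↔ ∃ β, (Q : o.A) ∣ β - c ∧ I = o.pr β)) ∧
  ∀ a b, o.Pm Q a → o.pr a = o.pr b → ∃ ε : o.Aˣ, b = ε * a

/-- facts on points -/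
def PtS : Prop := ∀ (n r : ℕ) [NeZero n] (o : Od n r) (ss : Pt → Fin n → ℤ), o.Ok →
  (∀ z, o.Gd ss z → Ideal.absNorm (o.Jz ss z) = z.p ∧
    ∀ β, o.inc (o.co β) ∈ o.Jz ss z ↔ InG ss β z) ∧
  ∀ T : Multiset Pt, (∀ z ∈ T, o.Gd ss z) → Ideal.absNorm (o.IM ss T) = nT T ∧ o.IM ss T ∈ o.MQ 1 ∧
    (∀ Q : ℕ, (nT T).Coprime Q → o.IM ss T ∈ o.MQ Q ∧ o.cM Q ss T = o.cI Q (o.IM ss T)) ∧
    (∀ β, EvG o.M ss β T ↔ Nd T ∧ o.pr (o.co β) = o.IM ss T) ∧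
    (Nd T → ∀ β, (∀ z ∈ T, InG ss β z) → o.inc (o.co β) ∈ o.IM ss T)

/-- sums of steps -/
def LsS : Prop := ∀ (n r : ℕ) [NeZero n] (o : Od n r) (ss : Pt → Fin n → ℤ) (Q j : ℕ)
  (lam : Ideal (𝓞 o.L) → E r) (x : Fin j → Multiset Pt), o.Ok → o.Lam Q lam →
  (∀ i, (∀ z ∈ x i, o.Gd ss z) ∧ (nT (x i)).Coprime Q) →
  o.IM ss (∑ i, x i) ∈ o.MQ Q ∧ Ideal.absNorm (o.IM ss (∑ i, x i)) = nT (∑ i, x i) ∧
  nT (∑ i, x i) = ∏ i, nT (x i) ∧ o.cI Q (o.IM ss (∑ i, x i)) = ∑ i, o.cM Q ss (x i) ∧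
  o.cM Q ss (∑ i, x i) = ∑ i, o.cM Q ss (x i) ∧
  lam (o.IM ss (∑ i, x i)) - ∑ i, lam (o.IM ss (x i)) ∈ o.LQ Q

def FinS : Prop := ∀ (n r : ℕ) [NeZero n] (o : Od n r) (Q : ℕ), o.Ok → 0 < Q → Finite (o.RC Q)

def PiS : Prop := ∀ (n r : ℕ) [NeZero n] (o : Od n r) (W Q : ℕ), o.Ok → W ∣ Q → 0 < Q →
  ∃ π, o.IsPr W Q π

def PhiS : Prop := ∀ (n r : ℕ) [NeZero n] (o : Od n r) (W Q : ℕ), o.Ok → W ∣ Q → 0 < Q →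
  ((o.US W Q).card : ℝ) * W ^ n = Q ^ n * sd (nuG o.M) (Q.primeFactors.filter fun l => ¬l ∣ W)

/-- the theorem of Dirichlet -/
def UnS : Prop := ∀ (n r : ℕ) [NeZero n] (o : Od n r) (Q : ℕ), o.Ok → 2 ≤ Q → ∃ R, UL (o.LQ Q) 1 R

def KerS : Prop := ∀ (n r : ℕ) [NeZero n] (o : Od n r) (W Q : ℕ) (π : o.RC Q →+ o.RC W), o.Ok →
  W ∣ Q → 0 < Q → o.IsPr W Q π → Nat.card π.ker * (o.LQ Q).relIndex (o.LQ W) = (o.US W Q).card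

def NuS : Prop := ∀ (n r : ℕ) [NeZero n] (o : Od n r) (l : ℕ), o.Ok → l.Prime →
  0 ≤ nuG o.M l ∧ nuG o.M l ≤ n / l ∧ 0 < 1 - nuG o.M l ∧
  (2 * n ≤ l → nuG o.M l ≤ 1 / 2 ∧ (1 - nuG o.M l)⁻¹ ≤ Real.exp (2 * n / l))

/-- change of level -/
def CardS : Prop := ∀ (n r : ℕ) [NeZero n] (o : Od n r) (W Q : ℕ), o.Ok → 2 ≤ W → W ∣ Q → 0 < Q →
  Finite (o.RC Q) ∧ 0 < Rg (o.LQ Q) ∧ 0 < o.hR Q ∧ 1 ≤ ratG o.M W Q ∧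
  o.hR Q * ratG o.M W Q * W ^ n = o.hR W * Q ^ n

def LamS : Prop := ∀ (n r : ℕ) [NeZero n] (o : Od n r) (Q : ℕ), o.Ok → 0 < Q → ∃ lam, o.Lam Q lam

def UnfS : Prop := ∀ (n r : ℕ) [NeZero n] (o : Od n r) (Q : ℕ) (lam : Ideal (𝓞 o.L) → E r)
  (I0 : Ideal (𝓞 o.L)), o.Ok → 0 < Q → o.Lam Q lam → I0 ∈ o.MQ Q →
  ∃ J, I0 * J = o.pr (Ideal.absNorm I0) ∧ o.Unf Q lam I0 J (Ideal.absNorm I0)

/-- the stabiliser of a residue -/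
def AnnS : Prop := ∀ (n r : ℕ) [NeZero n] (o : Od n r) (Q m n' : ℕ) (I : Ideal (𝓞 o.L)) (β : o.A),
  o.Ok → 0 < Q → I ∈ o.MQ 1 → Ideal.absNorm I = m → o.inc β ∈ I → m ^ 2 ∣ Q → o.nm β = m * n' →
  n'.Coprime Q → ∃ K : Finset o.A, K.card = m ∧
    (∀ u ∈ K, o.Pm Q u ∧ (Q : o.A) ∣ (u - 1) * β ∧ ((Q / m : ℕ) : o.A) ∣ u - 1) ∧
    (∀ u ∈ K, ∀ u' ∈ K, (Q : o.A) ∣ u' - u → u' = u) ∧
    ∀ s, (Q : o.A) ∣ (s - 1) * β → ∃ u ∈ K, (Q : o.A) ∣ s - u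

/-- the generators in a residue class -/
def PaaS : Prop := ∀ (n r : ℕ) [NeZero n] (o : Od n r) (W Q m n' : ℕ) (lam : Ideal (𝓞 o.L) → E r)
  (π : o.RC Q →+ o.RC W) (I : Ideal (𝓞 o.L)) (β : o.A), o.Ok → 2 ≤ W → W ∣ Q → 0 < Q →
  o.Lam Q lam → o.IsPr W Q π → I ∈ o.MQ W → Ideal.absNorm I = m → o.inc β ∈ I → m ^ 2 ∣ Q →
  o.nm β = m * n' → n'.Coprime Q →
  ∃ (K : Finset o.A) (g : o.A → o.RC Q) (κ : o.A → E r) (uu : o.A → o.A), K.card = m ∧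
    (∀ u ∈ K, Lg (κ u) = Real.log (o.nm β) - Real.log m ∧ π (g u) + o.cI W I = o.io W β) ∧
    ∀ b ∈ o.MQ 1, (∀ v, o.pr (β + Q * v) = I * b → b ∈ o.MQ Q ∧ uu v ∈ K ∧ o.cI Q b = g (uu v) ∧
      ∀ ξ : E r, (∀ w, o.em β w * Complex.exp (ξ w) = o.em (β + Q * v) w) →
        lam b - κ (uu v) - ξ ∈ o.LQ Q) ∧
    (b ∈ o.MQ Q → ∀ u ∈ K, o.cI Q b = g u → ∀ ξ, lam b - κ u - ξ ∈ o.LQ Q →
      ∃ v, o.pr (β + Q * v) = I * b ∧ uu v = u ∧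
        ∀ w, o.em β w * Complex.exp (ξ w) = o.em (β + Q * v) w)

/-- parametrisation of the events in a residue class -/
def ParS : Prop := ∀ (n r : ℕ) [NeZero n] (o : Od n r) (W Q n' : ℕ) (ss : Pt → Fin n → ℤ)
  (lam : Ideal (𝓞 o.L) → E r) (π : o.RC Q →+ o.RC W) (T : Multiset Pt) (β : Fin n → ℤ), o.Ok →
  2 ≤ W → W ∣ Q → 0 < Q → o.Lam Q lam → o.IsPr W Q π → Nd T →
  (∀ z ∈ T, o.Gd ss z ∧ InG ss β z) → (nT T).Coprime W → nT T ^ 2 ∣ Q →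
  o.nm (o.co β) = nT T * n' → n'.Coprime Q →
  ∃ (K : Finset o.A) (g : o.A → o.RC Q) (κ : o.A → E r), K.card = nT T ∧
    (∀ u ∈ K, Lg (κ u) = Real.log (o.nm (o.co β)) - Real.log (nT T) ∧
      π (g u) + o.cM W ss T = o.io W (o.co β)) ∧ o.ParI Q ss lam T β K g κ

/-- characters which come from level `W` -/
def HensS : Prop := ∀ (n r : ℕ) [NeZero n] (o : Od n r) (N W Q : ℕ) (π : o.RC Q →+ o.RC W)
  (χ : AddChar (o.RC Q) ℂ), o.Ok → HWn n N W → W ∣ Q → 0 < Q → o.IsPr W Q π → (∀ g, χ g ^ N = 1) →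
  (∀ (l : ℕ) (c : o.A), l.Prime → ¬l ∣ W → o.Cp Q c → ((ordCompl[l] Q : ℕ) : o.A) ∣ c - 1 →
    χ (o.io Q c) = 1) → ∃ χ' : AddChar (o.RC W) ℂ, ∀ g, χ g = χ' (π g)

/-! ### geometry rows -/

def IdbS : Prop := ∀ (n r : ℕ) [NeZero n] (o : Od n r) (I : Ideal (𝓞 o.L)), o.Ok → I ∈ o.MQ 1 →
  ∃ b, o.IsB I b

def OrdS : Prop := ∀ (n r : ℕ) [NeZero n] (o : Od n r) (B : ℝ), o.Ok → o.Sz B →
  Lt o.em.toAddMonoidHom o.V0 (n * B)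

/-- coordinates are bounded by the embeddings -/
def CooS : Prop := ∀ n E0 : ℕ, ∃ (a : ℕ) (Y1 : ℝ), ∀ (r : ℕ) [NeZero n] (o : Od n r) (Y : ℝ),
  Y1 ≤ Y → o.Ok → o.Sz (Y ^ E0) → ∀ (v : Fin n → ℤ) (i : Fin n),
  |(v i : ℝ)| ≤ Y ^ a * ‖o.em (o.co v)‖

/-- ideal lattices are well rounded -/
def IdgS : Prop := ∀ (n r : ℕ) [NeZero n] (o : Od n r) (B s : ℝ) (Q : ℕ) (I : Ideal (𝓞 o.L))
  (b : (Fin n → ℤ) →+ o.A), o.Ok → o.Sz B → 0 < Q → I ∈ o.MQ 1 → o.IsB I b → 0 ≤ s →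
  (Ideal.absNorm I : ℝ) ≤ s ^ n →
  Lt (o.gI Q b) (Q ^ n * Ideal.absNorm I * o.V0) (Q * (3 * n ^ 2 * B ^ 2 * s))

def SviS : Prop := ∀ (n r : ℕ) [NeZero n] (o : Od n r) (Y : ℝ) (Q : ℕ) (I : Ideal (𝓞 o.L))
  (b : (Fin n → ℤ) →+ o.A) (b0 : o.A) (P : Finset ℕ), o.Ok → o.IsB I b →
  (∀ l ∈ P, l.Prime ∧ (l : ℝ) < Y ∧ 2 * n ≤ l ∧ ¬l ∣ Q * Ideal.absNorm I) →
  Sv P (o.Zf b0 Q b) (nuG o.M) n Y

/-- rough elements of a coset in a ball -/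
def CniS : Prop := ∀ n r : ℕ, ∃ C : ℝ, 0 ≤ C ∧ ∀ [NeZero n] (o : Od n r) (Y B s R : ℝ) (Q : ℕ)
  (I : Ideal (𝓞 o.L)) (b0 : o.A) (c : E r) (P : Finset ℕ) (S : Finset o.A), 2 ≤ Y → o.Ok → o.Sz B →
  0 < Q → I ∈ o.MQ 1 → 0 ≤ s → (Ideal.absNorm I : ℝ) ≤ s ^ n → 0 < R →
  Y ^ 3 * (Q * (3 * n ^ 2 * B ^ 2 * s)) ≤ R →
  (∀ l ∈ P, l.Prime ∧ (l : ℝ) < Y ∧ 2 * n ≤ l ∧ ¬l ∣ Q * Ideal.absNorm I) →
  (∀ γ ∈ S, o.inc γ ∈ I ∧ ‖o.em (b0 + Q * γ) - c‖ ≤ R ∧ ∀ l ∈ P, ¬l ∣ o.nm (b0 + Q * γ)) →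
  Q ^ n * Ideal.absNorm I * o.V0 * S.card ≤ C * R ^ n * sd (nuG o.M) P

/-- oscillation of a product of two characters -/
def OscS : Prop := ∀ (n r : ℕ) [NeZero n] (o : Od n r) (W Q Q' l m : ℕ) (I : Ideal (𝓞 o.L))
  (b : (Fin n → ℤ) →+ o.A) (χ : AddChar (o.RC Q) ℂ) (χ' : AddChar (o.RC Q') ℂ) (c : o.A)
  (P : Finset ℕ), o.Ok → o.IsB I b → (m : 𝓞 o.L) ∈ I → 0 < Q → 0 < Q' → W ∣ Q' → l.Prime →
  ¬l ∣ Q' → o.Cp Q c → ((ordCompl[l] Q : ℕ) : o.A) ∣ c - 1 → χ (o.io Q c) ≠ 1 →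
  (∀ p ∈ P, p.Prime) → Osc (Q * Q') P (o.Zf m W b) fun x =>
    o.chO Q χ (m + W * b x) * (starRingEnd ℂ) (o.chO Q' χ' (m + W * b x))

/-- the shifts -/
def OmS : Prop := ∀ (n r : ℕ) [NeZero n] (o : Od n r) (B R : ℝ) (Q : ℕ), o.Ok → o.Sz B → 0 < Q →
  0 < R → Q * (n * B) ≤ R → ∃ Vs : Finset (Fin n → ℤ),
    (∀ v, v ∈ Vs ↔ tn (R⁻¹ • o.em (Q * o.co v)) ≠ 0) ∧ (∀ v ∈ Vs, ‖o.em (o.co v)‖ ≤ R) ∧
    |Q ^ n * o.V0 / R ^ n * ∑ v ∈ Vs, tn (R⁻¹ • o.em (Q * o.co v)) - cτ r|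
      ≤ vb r 3 * (Q * (n * B) / R)

/-! ### the class number -/

def RrS : Prop := ∀ (n r : ℕ) [NeZero n] (o : Od n r) (W : ℕ), o.Ok → o.rr W 1 = 1 ∧
  (∀ a b : ℕ, a.Coprime b → o.rr W (a * b) ≤ o.rr W a * o.rr W b) ∧
  ∀ l j : ℕ, l.Prime → o.rr W (l ^ j) ≤ (j + 1) ^ n

def RnS : Prop := ∀ (n r : ℕ) [NeZero n] (o : Od n r) (W l : ℕ), o.Ok → l.Prime →
  (1 - nuG o.M l) * (1 + o.rr W l / l) ≤ 1

/-- few ideals -/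
def HbuS : Prop := ∀ n a : ℕ, ∃ C : ℝ, 0 ≤ C ∧ ∀ (r : ℕ) [NeZero n] (o : Od n r) (W X : ℕ) (Y : ℝ),
  o.Ok → (∀ l : ℕ, l.Prime → l ≤ 2 * n → l ∣ W) → 2 ≤ Y → Y ≤ X → (X : ℝ) ≤ Y ^ a →
  (∑ m ∈ Icc 1 X, (o.rr W m : ℝ)) * Real.log Y * sd (nuG o.M) (o.Pr W Y) ≤ C * X

/-- every class has an ideal in every direction -/
def HbaS : Prop := ∀ (n r : ℕ) [NeZero n] (o : Od n r) (Q : ℕ) (lam : Ideal (𝓞 o.L) → E r)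
  (g : o.RC Q) (ζ : E r) (δ : ℝ), o.Ok → 2 ≤ Q → o.D ∣ Q → o.Lam Q lam → 0 < δ →
  ∃ I ∈ o.MQ Q, ∃ t : ℝ, o.cI Q I = g ∧ ∃ y ∈ o.LQ Q, ‖lam I - ζ - t • e0 r - y‖ ≤ δ

/-- many ideals in a class and a ball -/
def HbbS : Prop := ∀ (n r : ℕ) [NeZero n] (o : Od n r) (Q : ℕ) (lam : Ideal (𝓞 o.L) → E r)
  (g : o.RC Q) (ζ : E r) (B δ : ℝ), o.Ok → o.Sz B → 2 ≤ Q → o.D ∣ Q → o.Lam Q lam → 0 < δ →
  δ ≤ 1 / 4 → Q * (100 * n ^ 2 * B ^ 2) ≤ δ * Real.exp (Lg ζ / n) →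
  ∃ S : Finset (Ideal (𝓞 o.L)), (δ / 16) ^ n * Real.exp (Lg ζ) ≤ Q ^ n * o.V0 * S.card ∧
    ∀ I ∈ S, I ∈ o.MQ Q ∧ o.cI Q I = g ∧ ∃ y ∈ o.LQ Q, ‖lam I - ζ - y‖ ≤ δ

/-- many ideals -/
def HblS : Prop := ∀ n r : ℕ, ∃ C : ℝ, 0 ≤ C ∧ ∀ [NeZero n] (o : Od n r) (Q : ℕ) (B X : ℝ), o.Ok →
  o.Sz B → 2 ≤ Q → o.D ∣ Q → 0 < X → (C * Q * B ^ 2) ^ n ≤ X →
  o.hR Q * X ≤ C * (Q ^ n * o.V0) * ∑ m ∈ Icc 1 ⌊3 * X⌋₊, (o.rr Q m : ℝ)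

/-- the bound for the class number -/
def HbS : Prop := ∀ (n r E0 : ℕ) (C1 : ℝ), ∃ Ch Y1 : ℝ, ∀ [NeZero n] (o : Od n r) (W : ℕ) (Y : ℝ),
  Y1 ≤ Y → o.Ok → o.Sz (Y ^ E0) → (o.D : ℝ) ≤ Y ^ E0 → (W : ℝ) ≤ Y ^ E0 → 2 ≤ W →
  (∀ l : ℕ, l.Prime → l ≤ 2 * n → l ∣ W) → sig W (disc o.M) ≤ C1 → o.Hb W Ch Y

def RhoS : Prop := ∀ (n : ℕ) (C γ : ℝ), 0 < γ → ∃ Y1 : ℝ, ∀ (r : ℕ) [NeZero n] (o : Od n r) (W : ℕ)
  (Y : ℝ), Y1 ≤ Y → o.Ok → 2 ≤ W → (∀ l : ℕ, l.Prime → l ≤ 2 * n → l ∣ W) → o.Hb W C Y →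
  0 < o.V0 → o.hR W * Real.log Y ≤ Y ^ γ * (W ^ n * o.V0)

/-! ### steps -/

/-- elementary facts on the steps -/
def StpS : Prop := ∀ (n r : ℕ) [NeZero n] (o : Od n r) (ss : Pt → Fin n → ℤ) (Val : Pt → Prop)
  (St : Finset (Multiset Pt)) (μ : Multiset Pt → ℝ) (W E0 : ℕ) (C1 Y : ℝ), 1 < Y →
  BHG o.M o.Φ ss Val St μ W E0 C1 Y → (∀ z, Val z → o.Gd ss z ∧ z.p.Coprime W) ∧ 0 < C1 ∧
  (∀ x ∈ St, Nd x ∧ (∀ z ∈ x, Val z) ∧ (nT x).Prime ∧ (nT x).Coprime W ∧ Y ≤ nT x ∧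
    Real.log Y ≤ Real.log (nT x) ∧ Real.log (nT x) < 2 * Real.log Y) ∧
  (∀ p : ℕ, ∑ x ∈ St.filter fun x => nT x = p, μ x ≤ n * C1 / Y) ∧
  ∀ (Q a : ℕ) (S : Finset (Multiset Pt)), 0 < Q → (Q : ℝ) ≤ Y ^ a → S ⊆ St →
    ∑ x ∈ S \ cop S Q, μ x ≤ a * (n * C1) / Y

/-- the density bound -/
def DensS : Prop := ∀ (n r E0 E1 : ℕ) (C1 Ch : ℝ), ∃ (k' : ℕ) (C Y1 : ℝ), 1 ≤ k' ∧ 0 ≤ C ∧
  ∀ [NeZero n] (o : Od n r) (ss : Pt → Fin n → ℤ) (Val : Pt → Prop) (St S : Finset (Multiset Pt))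
    (μ : Multiset Pt → ℝ) (W Q : ℕ) (Y : ℝ) (lam : Ideal (𝓞 o.L) → E r), Y1 ≤ Y →
  o.Bs ss Val St μ W E0 C1 Ch Y → W ∣ Q → 0 < Q → (Q : ℝ) ≤ Y ^ E0 → o.Lam Q lam → S ⊆ cop St Q →
  DH (fun x : S => μ x) (fun x : S => o.cM Q ss x) (fun x : S => lam (o.IM ss x)) (o.LQ Q) k'
    (1 / Y ^ (E1 + 1)) (C / (o.hR Q * Real.log Y))

/-- the bound for classes -/
def MgzS : Prop := ∀ (n r E0 : ℕ) (C1 Ch : ℝ), ∃ (k0 : ℕ) (C0 Y1 : ℝ), 1 ≤ k0 ∧ 1 ≤ C0 ∧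
  ∀ [NeZero n] (o : Od n r) (ss : Pt → Fin n → ℤ) (Val : Pt → Prop) (St S : Finset (Multiset Pt))
    (μ : Multiset Pt → ℝ) (W Q : ℕ) (Y : ℝ), Y1 ≤ Y → o.Bs ss Val St μ W E0 C1 Ch Y → W ∣ Q →
  0 < Q → (Q : ℝ) ≤ Y ^ E0 → S ⊆ cop St Q →
  ∀ g, law (fun x : S => μ x) (fun x : S => o.cM Q ss x) k0 g ≤ C0 / Nat.card (o.RC Q)

/-- the tuples in one class and one ball -/
def LsmS : Prop := ∀ (n r E0 a : ℕ) (C1 Ch : ℝ), ∃ c C Y1 : ℝ, 0 < c ∧ 0 ≤ C ∧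
  ∀ [NeZero n] (o : Od n r) (ss : Pt → Fin n → ℤ) (Val : Pt → Prop) (St : Finset (Multiset Pt))
    (μ : Multiset Pt → ℝ) (W Qs : ℕ) (Y : ℝ), Y1 ≤ Y → o.Bs ss Val St μ W E0 C1 Ch Y → W ∣ Qs →
  1 - 1 / √Y ≤ ∑ x ∈ cop St Qs, μ x →
  ∃ (I : Ideal (𝓞 o.L)) (m : ℕ) (S : Finset o.A) (ω : o.A → ℝ), I ∈ o.MQ Qs ∧ (m : 𝓞 o.L) ∈ I ∧
    Ideal.absNorm I = m ^ (n - 1) ∧ Y ^ a ≤ m ∧ (∀ l : ℕ, l.Prime → (l : ℝ) < Y → ¬l ∣ m) ∧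
    c / (o.hR W * Real.log Y) ≤ ∑ γ ∈ S, ω γ ∧
    (∀ γ ∈ S, o.inc γ ∈ I ∧ 0 ≤ ω γ ∧ ω γ * m ≤ C ∧ ‖o.em (W * γ)‖ ≤ m ∧ o.Pm Qs (m + W * γ) ∧
      ∀ l : ℕ, l.Prime → (l : ℝ) < Y → ¬l ∣ o.nm (m + W * γ)) ∧
    ∀ (Q : ℕ) (χ : AddChar (o.RC Q) ℂ) (d : ℝ), 0 < Q → Q ∣ Qs →
      1 - d ≤ ‖ex (fun x : cop St Qs => μ x) fun x => χ (o.cM Q ss x)‖ → ∃ α : ℂ, ‖α‖ = 1 ∧
      ‖∑ γ ∈ S, (ω γ : ℂ) * (α * o.chO Q χ (m + W * γ)) - (∑ γ ∈ S, ω γ : ℝ)‖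
        ≤ C * √(2 * d) / (o.hR W * Real.log Y)

/-- few independent large characters -/
def LsbS : Prop := ∀ (n r E0 : ℕ) (C1 Ch : ℝ), ∃ (M1 : ℕ) (d4 Y1 : ℝ), 0 < d4 ∧
  ∀ [NeZero n] (o : Od n r) (ss : Pt → Fin n → ℤ) (Val : Pt → Prop) (St : Finset (Multiset Pt))
    (μ : Multiset Pt → ℝ) (W : ℕ) (Y : ℝ), Y1 ≤ Y → o.Bs ss Val St μ W E0 C1 Ch Y →
  ∀ (M : ℕ) (Q l : Fin M → ℕ) (χ : ∀ i, AddChar (o.RC (Q i)) ℂ),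
    (∀ i, o.Vio ss St μ W (Y ^ E0) d4 (Q i) (l i) (χ i)) → (∀ i j, i < j → ¬l i ∣ Q j) → M ≤ M1

/-- the exceptional primes -/
def LsgS : Prop := ∀ (n r : ℕ) (o : Od n r) (W M1 : ℕ) (ss : Pt → Fin n → ℤ)
  (St : Finset (Multiset Pt)) (μ : Multiset Pt → ℝ) (B d : ℝ),
  (∀ (M : ℕ) (Q l : Fin M → ℕ) (χ : ∀ i, AddChar (o.RC (Q i)) ℂ),
    (∀ i, o.Vio ss St μ W B d (Q i) (l i) (χ i)) → (∀ i j, i < j → ¬l i ∣ Q j) → M ≤ M1) →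
  ∃ LL : Finset ℕ, LL.card ≤ M1 ∧ (∀ l ∈ LL, l.Prime ∧ ¬l ∣ W) ∧
    ∀ (Q l : ℕ) (χ : AddChar (o.RC Q) ℂ), (∀ l' ∈ LL, ¬l' ∣ Q) → ¬o.Vio ss St μ W B d Q l χ

/-- the dichotomy at level `Q` -/
def DichS : Prop := ∀ (n r : ℕ) [NeZero n] (o : Od n r) (W Q M k0 : ℕ) (ss : Pt → Fin n → ℤ)
  (St St2 : Finset (Multiset Pt)) (μ : Multiset Pt → ℝ) (π : o.RC Q →+ o.RC W)
  (B : Finset (AddChar (o.RC W) ℂ)) (D d d4 Bq : ℝ), o.Ok → HWn n M.factorial W → W ∣ Q → 0 < Q →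
  (Q : ℝ) ≤ Bq → o.IsPr W Q π → (∀ x ∈ St, 0 ≤ μ x ∧ ∀ z ∈ x, o.Gd ss z) → ∑ x ∈ St, μ x = 1 →
  1 - d / 4 ≤ ∑ x ∈ cop St Q, μ x → 1 ≤ k0 →
  (∀ g, law (fun x : cop St Q => μ x) (fun x : cop St Q => o.cM Q ss x) k0 g ≤ D) →
  2 * k0 * Nat.card (o.RC Q) * D ≤ M → 0 < d → d ≤ 1 / (4 * k0 * (M + 1) ^ 2 : ℝ) → d ≤ d4 →
  (∀ (l : ℕ) (χ : AddChar (o.RC Q) ℂ), ¬o.Vio ss St μ W Bq d4 Q l χ) →
  (∀ χ ∉ B, ‖ex (fun x : St => μ x) fun x => χ (o.cM W ss x)‖ ≤ 1 - d) → St2 ⊆ St →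
  1 - d / 8 ≤ ∑ x ∈ St2, μ x → ∃ BQ : Finset (AddChar (o.RC Q) ℂ), BQ.card = B.card ∧
    (∀ χ ∈ BQ, ∃ χ' ∈ B, ∀ g, χ g = χ' (π g)) ∧ ∀ χ ∉ BQ, ‖o.mch Q ss St2 (nzG St2 μ) χ‖ ≤ 1 - d / 4

/-- bookkeeping -/
def SumS : Prop := ∀ (n r : ℕ) [NeZero n] (o : Od n r) (Q j : ℕ) (ss : Pt → Fin n → ℤ)
  (lam : Ideal (𝓞 o.L) → E r) (S : Finset (Multiset Pt)) (μ : Multiset Pt → ℝ) (T : Multiset Pt)
  (β : Fin n → ℤ) (K : Finset o.A) (g : o.A → o.RC Q) (κ : o.A → E r) (Vs : Finset (Fin n → ℤ))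
  (R : ℝ) (Ψ : E r → ℝ), o.Ok → o.Lam Q lam → (∀ x ∈ S, ∀ z ∈ x, o.Gd ss z) → o.co β ≠ 0 →
  nT T ≠ 0 → o.ParI Q ss lam T β K g κ → (∀ ξ, Ψ ξ ≠ 0 → ‖ξ‖ ≤ 1 / 3) →
  (∀ x : E r, (∀ w, x w ≠ 0) → tn (R⁻¹ • (x - o.em (o.co β))) * ∏ w, ‖x w‖ ^ 2
    = Ψ (lq x (o.em (o.co β))) * ∏ w, ‖o.em (o.co β) w‖ ^ 2) →
  (∀ v, tn (R⁻¹ • o.em (Q * o.co v)) ≠ 0 → v ∈ Vs) →
  nT T * ∑ v ∈ Vs, tn (R⁻¹ • o.em (Q * o.co v)) *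
      RwG o.M ss S (fun x => μ x * nT x) T j (β + (Q : ℤ) • v)
    = o.nm (o.co β) * ∑ u ∈ K, tm (fun x : cop S Q => μ x) j fun s => ind (Nd (∑ i, (s i).1)) *
      (ind (∑ i, o.cM Q ss (s i) = g u) * per (o.LQ Q) Ψ (∑ i, lam (o.IM ss (s i)) - κ u))

def OfBab : Prop := BaaS → BabS
def OfPt : Prop := BaaS → PtS
def OfLs : Prop := PtS → LsS
def OfFin : Prop := BaaS → BabS → FinS
def OfPi : Prop := BaaS → BabS → PiS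
def OfPhi : Prop := BaaS → CrtS → PhiS
def OfUn : Prop := BaaS → BabS → UnS
def OfKer : Prop := BaaS → BabS → KerS
def OfCard : Prop := ExtS → FinS → PiS → PhiS → UnS → KerS → NuS → CardS
def OfLam : Prop := BaaS → BabS → LamS
def OfUnf : Prop := BaaS → BabS → UnfS
def OfAnn : Prop := BaaS → IdbS → AnnS
def OfPaa : Prop := BaaS → BabS → AnnS → PaaS
def OfPar : Prop := BaaS → PtS → UnS → PaaS → ParS
def OfHens : Prop := BaaS → BabS → HensS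
def OfOrd : Prop := BaaS → OrdS
def OfCoo : Prop := BaaS → CooS
def OfIdg : Prop := RsS → MinkS → SubS → BaaS → OrdS → IdgS
def OfSvi : Prop := CrtS → BaaS → NuS → SviS
def OfCni : Prop := CntS → IdbS → IdgS → SviS → CniS
def OfOsc : Prop := BaaS → BabS → OscS
def OfOm : Prop := RsS → TnS → SubS → BaaS → OrdS → OmS
def OfRn : Prop := BaaS → RnS
def OfHbu : Prop := CheS → HtbS → HtS → NuS → RrS → RnS → HbuS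
def OfHba : Prop := BaaS → BabS → OrdS → HbaS
def OfHbb : Prop := RsS → BaaS → UnS → UnfS → IdbS → IdgS → HbaS → HbbS
def OfHbl : Prop := GridS → FinS → UnS → LamS → HbbS → HblS
def OfHb : Prop := RsS → OrdS → NuS → CardS → HbuS → HblS → HbS
def OfRho : Prop := CheS → NuS → CardS → RhoS
def OfDens : Prop := TupS → FubS → MulS → RsS → OrdS → NuS → CardS → LsS → UnfS → CniS → StpS → DensS
def OfMgz : Prop := MgaS → PtS → UnS → CardS → LamS → StpS → DensS → MgzS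
def OfLsm : Prop := TupS → PowS → UpS → PigS → MulS → BaaS → BabS → PtS → LsS → UnS → CardS → LamS →
  UnfS → StpS → DensS → LsmS
def OfLsb : Prop := RsS → LsaS → OrdS → CardS → IdbS → IdgS → SviS → OscS → StpS → LsmS → LsbS
def OfDich : Prop := BesS → PtS → FinS → HensS → DichS
def OfSum : Prop := BaaS → LsS → SumS

end Pool.Agent.MP_f3836a_nt.GV.C
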