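import Pool.Agent.MP_f3836a_nt.GV.SpecD

/-! Part E: tables, shapes, archimedean facts, points and the large sieve. -/

set_option autoImplicit false

namespace Pool.Agent.MP_f3836a_nt.GV

open Polynomial Finset VE

/-! ### tables -/

def RngS : Prop := ∀ (n : ℕ) [NeZero n] (T : Tb n) (a b : ℤ), T.Ok → b ≠ 0 → Rng (T.Mh a b) ∧
  disc (T.Mh a b) * b ^ (disc T.M).natDegree
    = hv (disc T.M) ((disc T.M).natDegree + 2 * ∑ i, T.e i) a b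

def PwS : Prop := ∀ (n : ℕ) [NeZero n],
  (∀ (R : Type) [CommRing R] (M : Tab R n) (β : Fin n → R) (u N : ℕ), Rng M →
    Nm M (pwr M β N) = Nm M β ^ N ∧ pwr M (pwr M β u) N = pwr M β (u * N)) ∧
  ∀ (T : Tb n) (m1 : ℕ) (G1 : Fin n → ℤ[X]) (N : ℕ), T.Ok → T.Mon m1 G1 →
    T.Mon (N * m1) (pwr T.M G1 N) ∧ ∀ a b : ℤ, b ≠ 0 →
      T.val (N * m1) (pwr T.M G1 N) a b = pwr (T.Mh a b) (T.val m1 G1 a b) N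

/-- the embeddings of the order of a small curve -/
noncomputable def Br.Ph {n r : ℕ} (B : Br n r) (T : Tb n) (k : ℕ) (a : ℤ) (w : Fin r) (i : Fin n) :
    ℂ := ((k : ℂ) ^ 2) ^ T.e i * B.Y w ((a : ℝ) / (k : ℝ) ^ 2) i

def EmS : Prop := ∀ (n r : ℕ) [NeZero n] (T : Tb n) (B : Br n r) (t1 : ℤ), T.Ok → B.Ok T t1 →
  (∀ (k : ℕ) (a : ℤ), 0 < k → (a : ℝ) / (k : ℝ) ^ 2 ∈ B.I →
    Em (fun i => (T.Mh a ((k : ℤ) ^ 2) i).map (Int.cast : ℤ → ℝ)) (B.Ph T k a) ∧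
    ∀ m A, T.Mon m A → ∀ w, emb (B.Ph T k a w) (fun i => T.val m A a ((k : ℤ) ^ 2) i)
      = ((k : ℂ) ^ 2) ^ m * B.ev A w ((a : ℝ) / (k : ℝ) ^ 2)) ∧
  ∃ Cf : ℝ, 1 ≤ Cf ∧ ∀ (k : ℕ) (a : ℤ), 0 < k → (a : ℝ) / (k : ℝ) ^ 2 ∈ B.I →
    (∀ w i, ‖B.Ph T k a w i‖ ≤ Cf * ((k : ℝ) ^ 2) ^ T.e i) ∧
    |((disc (T.Mh a ((k : ℤ) ^ 2)) : ℤ) : ℝ)| ≤ Cf * ((k : ℝ) ^ 2) ^ (2 * ∑ i, T.e i)

/-! ### shapes -/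

/-- the shape is close to the constant one -/
def Sp {n r m : ℕ} (T : Tb n) (B : Br n r) (vs : Ix T.e m → ℝ) : Prop :=
  (∀ t ∈ Set.Icc (B.t0 : ℝ) (B.t0 + 1), |(NR T (vP vs)).eval t - 1| ≤ 1 / 4) ∧
  ∀ w, ∀ t ∈ B.I, ‖B.ev (vP vs) w t - 1‖ ≤ 1 / 5

def SpS : Prop := ∀ (n r : ℕ) [NeZero n] (T : Tb n) (B : Br n r) (t1 : ℤ) (m : ℕ), T.Ok →
  B.Ok T t1 → 2 ≤ m → ∃ ε0 : ℝ, 0 < ε0 ∧ ∀ vs : Ix T.e m → ℝ, (∀ j, |vs j - oneX j| ≤ ε0) →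
    Sp T B vs

/-- the model of the norm polynomial -/
noncomputable def N0 {n m : ℕ} (T : Tb n) (t1 : ℤ) (vs : Ix T.e m → ℝ) : ℝ[X] :=
  (X - C (t1 : ℝ)) ^ n * NR T (vP vs)

/-- the big curves of the box are close to the shape -/
def Nr {n r : ℕ} (Γ : Gf n) (B : Br n r) (vs : Ix Γ.T.e Γ.m → ℝ) (Hs ε : ℝ) : Prop :=
  ∀ x ∈ box Γ.lo Γ.H1, (∀ t ∈ Set.Icc (B.t0 : ℝ) (B.t0 + 1),
    |aeval t (Γ.T.N (Γ.gA x)) - Hs ^ n * (N0 Γ.T Γ.t1 vs).eval t|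
      ≤ ε * (Hs ^ n * (N0 Γ.T Γ.t1 vs).eval t)) ∧
    ∀ w, ∀ t ∈ B.I, |Real.log ‖B.ev (Γ.gA x) w t‖ - Real.log ‖B.ev (vP vs) w t‖
      - Real.log (Hs * (Γ.t1 - t))| ≤ ε

def BoxS : Prop := ∀ (n r : ℕ) [NeZero n] (T : Tb n) (B : Br n r) (t1 : ℤ) (m : ℕ)
  (As : Fin n → ℤ[X]) (vs : Ix T.e m → ℝ) (ε : ℝ), n = 2 * r → T.Ok → B.Ok T t1 → Sp T B vs →
  0 < ε → ∃ Cn : ℝ, ∀ (P : Ps n) (W W' k H H1 : ℕ), 0 < W' → 0 < H1 → Cn * H1 ≤ H →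
    Nr ⟨T, P, t1, m, W, W', k, As, fun j => ⌊(H : ℝ) * vs j⌋, H1⟩ B vs ((W' : ℝ) * H) ε

/-- the model norm is almost constant -/
def N0S : Prop := ∀ (n r : ℕ) [NeZero n] (T : Tb n) (B : Br n r) (t1 : ℤ) (m : ℕ)
  (vs : Ix T.e m → ℝ), n = 2 * r → B.t0 + 1 + 2 * n ≤ t1 → Sp T B vs →
  (∃ H0 : ℝ, 0 < H0 ∧ ∀ t ∈ Set.Icc (B.t0 : ℝ) (B.t0 + 1),
    H0 ≤ (N0 T t1 vs).eval t ∧ (N0 T t1 vs).eval t ≤ 4 * H0) ∧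
  (∀ t ∈ Set.Icc (B.t0 : ℝ) (B.t0 + 1), 0 < t1 - t ∧
    |Real.log (t1 - t) - Real.log (t1 - B.t0)| ≤ 1 / 4) ∧
  ∀ w, ∀ t ∈ B.I, |Real.log ‖B.ev (vP vs) w t‖| ≤ 1 / 4

/-- orthogonal projection on the primitives -/
def PrjS : Prop := ∀ (n m : ℕ) (t0 t1 : ℝ) (N : ℝ[X]), 0 < n * m →
  ∀ (H : Finset ℤ) (t d : ℤ → ℝ), ∃ f0, Nc n m t0 t1 N f0 ∧
    (∀ f, Nc n m t0 t1 N f → ∑ h ∈ H, f (t h) * (d h - f0 (t h)) = 0) ∧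
    ∑ h ∈ H, (d h - f0 (t h)) = 0 ∧ ∑ h ∈ H, f0 (t h) ^ 2 ≤ ∑ h ∈ H, d h ^ 2

/-- archimedean rigidity relative to a model -/
def ArE (n J : ℕ) (D Λ : ℝ) : Prop :=
  ∀ (t0 H0 Hs ε s : ℝ) (N : ℤ[X]) (c : ℂ → ℝ) (Q P0 : ℝ[X]) (f0 : ℝ → ℝ), N.Monic →
  N.natDegree = n → 0 < n → ∑ θ ∈ rts N, c θ = 0 → 0 < H0 → 0 < Hs → 0 ≤ ε → ε ≤ 1 / 2 →
  P0.natDegree < n → (∀ t ∈ Set.Icc t0 (t0 + 1), H0 ≤ Q.eval t ∧ Q.eval t ≤ 12 * H0 ∧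
    |aeval t N - Hs * Q.eval t| ≤ ε * (Hs * Q.eval t) ∧ HasDerivAt f0 (P0.eval t / Q.eval t) t) →
  ∃ (S S0 : ℝ) (f : ℝ → ℝ) (P1 : ℝ[X]), 0 ≤ S ∧ 0 ≤ S0 ∧ P1.natDegree < n ∧
    (∀ t ∈ Set.Icc t0 (t0 + 1), HasDerivAt f (P1.eval t / Q.eval t) t ∧
      |BC.va N c s t - f0 t - f t| ≤ 2 * ε * (S + S0) ∧
      ∀ t' ∈ Set.Icc t0 (t0 + 1), |f t - f t'| ≤ S * |t - t'|) ∧
    (∀ (m tc : Fin J → ℝ) (e : ℝ), (∀ a, 0 ≤ m a ∧ m a ≤ D / J) → ∑ a, m a = 1 →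
      (∀ a : Fin J, t0 + (a : ℕ) / J ≤ tc a ∧ tc a ≤ t0 + ((a : ℕ) + 1) / J) →
      S ^ 2 ≤ Λ * ∑ a, m a * (f (tc a) - e) ^ 2 ∧ S0 ^ 2 ≤ Λ * ∑ a, m a * (f0 (tc a) - e) ^ 2) ∧
    (S = 0 → S0 = 0 → ∀ t : ℝ, ug N c t = 0)

def ArG : Prop := ∀ (n : ℕ) (D : ℝ), ∃ (J0 : ℕ) (Λ : ℝ), 0 < Λ ∧ ∀ J, J0 ≤ J → ArE n J D Λ

/-! ### points -/

namespace Ps

variable {n : ℕ} (P : Ps n)

open Classical in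
/-- points over the primes of a window -/
noncomputable def pts (lo hi : ℝ) : Finset Pt :=
  ((range ⌈hi⌉₊).biUnion fun p => (P.sp p ×ˢ Fy P.r p).image fun v => (⟨p, v.1, v.2⟩ : Pt)).filter
    fun z => lo ≤ z.p

theorem mem_pts {lo hi : ℝ} {z : Pt} : z ∈ P.pts lo hi ↔ P.Is z ∧ lo ≤ z.p ∧ (z.p : ℝ) < hi := by
  unfold pts Is
  simp only [mem_filter, mem_biUnion, mem_range, mem_image, mem_product, Nat.lt_ceil]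
  constructor
  · rintro ⟨⟨p, h1, v, h2, rfl⟩, h3⟩
    exact ⟨h2, h3, h1⟩
  · rintro ⟨h1, h2, h3⟩
    exact ⟨⟨z.p, h3, (z.t, z.y), h1, rfl⟩, h2⟩

open Classical in
/-- points of the main window on a small curve -/
noncomputable def pon (Y : ℝ) (k : ℕ) (a : ℤ) : Finset Pt :=
  (P.pts Y (Y ^ 2)).filter (On a ((k : ℤ) ^ 2))

/-- the weight of a point on a curve -/
noncomputable def nu (Y : ℝ) (z : Pt) : ℝ := P.lw z.p / (z.p * Real.log Y)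

/-- the constant of the points -/
def K : ℝ := 2 * P.C + n

/-- the points of a small curve are equidistributed in the coarse cells -/
def Eqd (k : ℕ) (Y : ℝ) (U K' : ℕ) (δ : ℝ) (a : ℤ) : Prop :=
  |∑ z ∈ P.pon Y k a, P.nu Y z - 1| ≤ δ ∧
  ∑ d ∈ range K', |∑ z ∈ (P.pon Y k a).filter fun z => cz Y U K' z = d, P.nu Y z - 1 / K'| ≤ δ

end Ps

/-- weighted points in the main window -/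
structure PW (S : Finset Pt) (ν : Pt → ℝ) (Y C : ℝ) : Prop where
  one : 1 ≤ C
  pt : ∀ z ∈ S, z.p.Prime ∧ z.t < z.p ∧ Y ≤ z.p ∧ (z.p : ℝ) < Y ^ 2 ∧ 0 < ν z ∧
    1 / (z.p : ℝ) ≤ C * ν z ∧ ν z ≤ C / z.p
  fib : ∀ p t : ℕ, ((S.filter fun z => z.p = p ∧ z.t = t).card : ℝ) ≤ C

open Classical in
def PtG : Prop :=
  (∀ (n : ℕ) [NeZero n] (T : Tb n) (t1 : ℤ) (P : Ps n) (Y : ℝ), P.Alg T t1 → P.Win → 1 < Y →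
    PW (P.pts Y (Y ^ 2)) (P.nu Y) Y P.K ∧
    ∀ z ∈ P.pts Y (Y ^ 2), z.cj ∈ P.pts Y (Y ^ 2) ∧ z.cj.cj = z) ∧
  ∀ (S : Finset Pt) (ν : Pt → ℝ) (Y C : ℝ), PW S ν Y C → ∀ p : ℕ,
    ((S.filter fun z => z.p = p).card : ℝ) ≤ C * p ∧
    ∀ a b : ℤ, ¬(p : ℤ) ∣ b → ((S.filter fun z => z.p = p ∧ On a b z).card : ℝ) ≤ C

/-- the dual form of the test of Schur -/
def SchurG : Prop := ∀ {ι κ : Type} (I : Finset ι) (N : Finset κ) (X : ι → κ → ℝ) (μ : ι → ℝ)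
  (δ : ℝ), 0 ≤ δ → (∀ i ∈ I, 0 ≤ μ i) →
  (∀ i ∈ I, ∑ i' ∈ I, μ i' * |∑ n ∈ N, X i n * X i' n| ≤ δ) →
  ∀ x : κ → ℝ, ∑ i ∈ I, μ i * (∑ n ∈ N, x n * X i n) ^ 2 ≤ δ * ∑ n ∈ N, x n ^ 2

def GramG : Prop := ∀ (S : Finset Pt) (ν : Pt → ℝ) (C : ℝ) (t0 : ℤ) (W k : ℕ) (Y : ℝ) (q : ℕ) (r : ℤ),
  PW S ν Y C → Sc W k Y → 10 ≤ Y → 0 < q → q.Coprime W → (q : ℝ) ≤ Y ^ 2 → ∀ z ∈ S, ¬z.p ∣ q →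
  ∑ z' ∈ S.filter fun z' => ¬z'.p ∣ q,
    ν z' / z'.p * |∑ a ∈ (HH0 t0 W k).filter fun a => (q : ℤ) ∣ a - r,
      Xz ((k : ℤ) ^ 2) z a * Xz ((k : ℤ) ^ 2) z' a| ≤ 20 * C ^ 2 * Lc W k / (q * Y)

def LsvG : Prop := ∀ (S : Finset Pt) (ν : Pt → ℝ) (C : ℝ) (t0 : ℤ) (W k : ℕ) (Y : ℝ),
  PW S ν Y C → Sc W k Y → 10 ≤ Y →
  Lsv S (HH0 t0 W k) ((k : ℤ) ^ 2) (fun z => ν z / z.p) (Lc W k) (40 * C ^ 2 / Y) ∧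
  (∀ c : Pt → ℝ, (∀ z ∈ S, |c z| ≤ ν z / z.p) →
    ∑ a ∈ HH0 t0 W k, (∑ z ∈ S, c z * Xz ((k : ℤ) ^ 2) z a) ^ 2
      ≤ 20 * C ^ 2 * Lc W k / Y * ∑ z ∈ S, |c z|) ∧
  ∀ x : ℤ → ℝ, ∑ z ∈ S, ν z / z.p * (∑ a ∈ HH0 t0 W k, x a * Xz ((k : ℤ) ^ 2) z a) ^ 2
    ≤ 20 * C ^ 2 * Lc W k / Y * ∑ a ∈ HH0 t0 W k, x a ^ 2

def MassG : Prop := ∀ (n : ℕ) [NeZero n] (T : Tb n) (t1 : ℤ) (P : Ps n), P.Alg T t1 → P.Win →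
  ∀ (K' : ℕ) (δ : ℝ), 0 < K' → 0 < δ → ∃ Y1 : ℝ, ∀ (Y : ℝ) (U : ℕ), Y1 ≤ Y → Y ≤ U →
    (∀ z ∈ P.pts Y (Y ^ 2), pos (Real.log Y) (Real.log Y / U) z.p < U ∧ cz Y U K' z < K') ∧
    ∑ z ∈ P.pts Y (Y ^ 2), P.nu Y z / z.p ≤ 2 ∧
    ∑ d ∈ range K', |∑ z ∈ (P.pts Y (Y ^ 2)).filter fun z => cz Y U K' z = d, P.nu Y z / z.p
      - 1 / K'| ≤ δ

open Classical in
def GoodG : Prop := ∀ (n : ℕ) [NeZero n] (T : Tb n) (t1 : ℤ) (P : Ps n), P.Alg T t1 → P.Win →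
  ∀ (K' : ℕ) (δ : ℝ), 0 < K' → 0 < δ → ∃ Y1 : ℝ, ∀ (t0 : ℤ) (W k : ℕ) (Y : ℝ) (U : ℕ), Y1 ≤ Y →
    Sc W k Y → Y ≤ U →
    (((HH0 t0 W k).filter fun a => ¬P.Eqd k Y U K' δ a).card : ℝ) ≤ δ * Lc W k

/-- few small primes divide the values of a form -/
def SigG : Prop := ∀ (Δ : ℤ[X]) (D : ℕ) (t0 : ℤ) (δ : ℝ), Δ ≠ 0 → Δ.natDegree ≤ D → 0 < δ →
  ∃ (w0 : ℕ) (Y1 : ℝ), ∀ (W k : ℕ) (Y : ℝ), Y1 ≤ Y → Sc W k Y →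
    (∀ l : ℕ, l.Prime → l ≤ w0 → l ∣ W) →
    (((HH0 t0 W k).filter fun a => 1 < sig W (hv Δ D a ((k : ℤ) ^ 2))).card : ℝ) ≤ δ * Lc W k

/-- deletion which keeps whole fibres -/
def DelAG : Prop := ∀ P H0 H2 b n (G : ℤ → ℕ → Prop) cell J L γ e δm,
  DelH P H0 H2 b n (fun a z => G a z.p) cell J L γ e δm →
  ∃ HH P1, DelM P H2 b n (fun a z => G a z.p) cell J L e HH P1 ∧
    ∀ z ∈ P1, ∀ z' ∈ P, z.p = z'.p → z.t = z'.t → z' ∈ P1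

/-- the level of the congruences -/
def WG : Prop := ∀ n N W0 w : ℕ, 0 < N → 0 < W0 → ∃ W : ℕ, HWn n N W ∧ W0 ∣ W ∧
  ∀ l : ℕ, l.Prime → l ≤ w → l ∣ W

/-- a scale -/
structure Scl (W Nx k0 : ℕ) (Y Ym : ℝ) : Prop where
  sc : Sc W k0 Y
  nx : ¬Nx ∣ k0.factorization 2
  le : Ym ^ 10 = Y ∧ 1 < Ym ∧ Ym ≤ Y ∧ Real.log (2 * Y ^ 21) ≤ Ym
  pw : ∀ ε0 : ℝ, ε0 * 10 ≤ 1 → Y ^ ε0 ≤ Ym
  r : ∀ K E : ℕ, 0 < K → 1 ≤ E → 4 * (K : ℝ) ≤ Y → ∃ r : ℕ, 2 ≤ r ∧ 2 ∣ r ∧ Y ^ E ≤ (K * r : ℕ) ∧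
    ((K * r : ℕ) : ℝ) ≤ Y ^ (E + 1)

def SclG : Prop := ∀ (W Nx : ℕ) (Y1 : ℝ), 2 ≤ W → 2 ∣ W → 2 ≤ Nx →
  ∃ (k0 : ℕ) (Y Ym : ℝ), Y1 ≤ Ym ∧ Scl W Nx k0 Y Ym

def OfRng : Prop := TbS → RngS
def OfPw : Prop := TbS → PwS
def OfEm : Prop := TbS → EmS
def OfSp : Prop := TbS → SpS
def OfArG : Prop := BC.ArDS → BC.ArLS → ArG
def OfPt : Prop := FyS → PtG
def OfGram : Prop := CntS → ScS → PtG → GramG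
def OfLsv : Prop := CntS → ScS → LkS → SchurS → SchurG → GramG → LsvG
def OfMass : Prop := FyS → MassG
def OfGood : Prop := PtG → LsvG → MassG → GoodG
def OfSig : Prop := CntS → ScS → SigG
def OfDelA : Prop := FixS → DelAG

end Pool.Agent.MP_f3836a_nt.GV
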