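import Pool.Agent.MP_f3836a_nt.VE.FBase

/-! Part F with an archimedean defect. -/

set_option autoImplicit false

namespace Pool.Agent.MP_f3836a_nt.GV.F

open Finset VE VE.F

/-- the main inequality for one big curve, with errors -/
def SgG (A : ℕ) : Prop := ∀ {Ω ι Cl : Type} [Fintype Ω] [Fintype Cl] {κ : ℕ} (m : Ω → ℝ)
  (Z : Ω → Fin κ → ι) (cl : Ω → Cl) (ZZ : Finset ι) (n f1 : ι → ℝ) (f2 : ι → ι → ℝ) (d : ι → ℕ)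
  (K : ℕ) (F1 : ℕ → ℝ) (F2 : ℕ → ℕ → ℝ) (mc : Cl → ℝ) (D : ι → ℝ) (Λ η e : ℝ)
  (b lq Sz : ι → ℝ) (Sc Sm : Cl → ℝ) (F uu la er : Ω → ℝ) (L lam M D0 : ℝ) (P : Prop),
  Gt m Z cl ZZ n f1 f2 d K F1 F2 mc D Λ η e → (K : ℝ) ≤ M → (Fintype.card Cl : ℝ) ≤ M →
  η * Λ ^ A ≤ 1 → e * M * Λ ^ A ≤ η → 0 < lam → (∀ z ∈ ZZ, |lq z - L - lam * d z| ≤ lam) →
  (∀ ω, m ω ≠ 0 → F ω = ∑ i, b (Z ω i) + uu ω ∧ la ω = ∑ i, lq (Z ω i)) →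
  (∀ s : ℝ, ∃ (S : ℝ) (U : Cl → ℝ), 0 ≤ S ∧
    (∀ ω, |uu ω + s * la ω - U (cl ω)| ≤ η * (S + er ω)) ∧
    (∀ c c', |U c - U c'| ≤ S) ∧ (∀ x, S ^ 2 ≤ Λ * ∑ c, mc c * (U c - x) ^ 2) ∧
    |∑ c, U c * Sm c| ≤ η * S * D0 ∧ (S = 0 → P)) →
  (∀ i, ∀ z ∈ ZZ, ∑ ω, m ω * ind (Z ω i = z) * F ω = Sz z) →
  (∀ c, ∑ ω, m ω * ind (cl ω = c) * F ω = Sc c + Sm c) → ∑ c, Sm c = 0 →
  ∑ ω, m ω * F ω ^ 2 ≤ Λ ^ A * (∑ z ∈ ZZ, Sz z ^ 2 / n z + M * ∑ c, Sc c ^ 2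
    + ∑ ω, m ω * ind (∃ i, e * n (Z ω i) < D (Z ω i)) * F ω ^ 2
    + η ^ 2 * (∑ ω, m ω * er ω ^ 2 + D0 ^ 2)) ∧
  ((∀ ω, m ω ≠ 0 → F ω = 0 ∧ er ω = 0) → P)

/-- the additional data -/
structure Ex (G H : Type) where
  ψ : H → Pt → ℝ
  φ : G → Pt → ℝ
  uu : G → H → ℝ
  dp : H → ℝ
  ce : H → ℝ
  Pg : G → Prop
  f0 : ℝ

section

variable {G H Cl : Type} [Fintype H] [Fintype Cl] (S : Sys G H Cl) (X : Ex G H)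

structure Ex.Ok : Prop where
  ad0 : ∀ h, S.ad (some h) 0 (S.k + 2) ∧ S.fm (some h) 0 (S.k + 2) = X.f0
  sat : ∀ h, ∀ z ∈ S.P1, ∀ z' ∈ S.P1, z.p = z'.p → z.t = z'.t → S.wz h z = S.wz h z'
  fz : ∀ h, ∀ z ∈ S.P1, S.wz h z ≠ 0 →
    ∑ z' ∈ S.P1, ind (z'.p = z.p ∧ z'.t = z.t) * X.ψ h z' = 0
  idh : ∀ g ∈ S.Gs, ∀ h M, S.Ev g (some h) M → (∀ z ∈ M, S.wz h z ≠ 0) →
    (M.map (X.ψ h)).sum + X.dp h = (M.map (X.φ g)).sum + X.uu g h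
  dz : ∑ h, X.dp h = 0
  arh : ∀ g ∈ S.Gs, ∀ s : ℝ, ∃ (R : ℝ) (U : Cl → ℝ), 0 ≤ R ∧
    (∀ h, |X.uu g h + s * S.la g h - U (S.cell h)| ≤ S.η * (R + X.ce h)) ∧
    (∀ c c', |U c - U c'| ≤ R) ∧ (∀ x, R ^ 2 ≤ S.Λ * ∑ c, S.mc c * (U c - x) ^ 2) ∧
    |S.σ * ∑ h, U (S.cell h) * X.dp h| ≤ S.η * R * (S.σ * ∑ h, |X.dp h|) ∧
    (R = 0 → (∀ h, X.ce h = 0) → X.Pg g)
  lso : ∑ z ∈ S.P1, (S.σ * ∑ h, S.wz h z * X.dp h) ^ 2 / (S.n0 z * z.p)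
    ≤ S.θ ^ 2 * (S.σ * ∑ h, X.dp h ^ 2)

/-- weighted sums against functions of the prime vanish -/
def Zs (a : H → Pt → ℝ) : Prop := ∀ (h : H) (f : ℕ → ℝ), ∑ z ∈ S.P1, S.wz h z * a h z * f z.p = 0

/-- the square norm -/
noncomputable def nrm (a : H → Pt → ℝ) : ℝ :=
  S.σ * ∑ h, (X.dp h ^ 2 + ∑ z ∈ S.P1, S.wz h z / z.p * a h z ^ 2)

noncomputable def SZ (a : H → Pt → ℝ) (g : G) (z : Pt) : ℝ :=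
  S.σ * ∑ h, S.wz h z * (a h z + X.dp h) * S.Y (some h) {z} (S.k + 1) g
    + (S.k + 1) * (S.σ * ∑ h, ∑ z' ∈ S.P1,
      S.wz h z * S.wz h z' * a h z' * S.Y (some h) (z' ::ₘ {z}) S.k g)

noncomputable def SC (a : H → Pt → ℝ) (g : G) (c : Cl) : ℝ :=
  (S.k + 2) * (S.σ * ∑ h, ∑ z ∈ S.P1,
    ind (S.cell h = c) * S.wz h z * a h z * S.Y (some h) {z} (S.k + 1) g)
  + S.σ * ∑ h, ind (S.cell h = c) * X.dp h * (S.Y (some h) 0 (S.k + 2) g - X.f0)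

noncomputable def SM (c : Cl) : ℝ := X.f0 * (S.σ * ∑ h, ind (S.cell h = c) * X.dp h)

noncomputable def Fo (a : H → Pt → ℝ) (ω : S.Om) : ℝ := ∑ i, a ω.1 (S.Zo ω i) + X.dp ω.1

/-- the defect of `ψ` -/
def aa (α : Pt → ℝ) (h : H) (z : Pt) : ℝ := X.ψ h z - α z

end

/-- **the export of part F** -/
def FMain : Prop := ∃ A : ℕ, ∀ {G H Cl : Type} [Fintype H] [Fintype Cl] (S : Sys G H Cl)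
  (X : Ex G H), S.Ok → X.Ok S → S.η * S.Λ ^ A ≤ 1 → S.θ * S.M ^ 3 * S.Λ ^ A ≤ S.η ^ 2 →
  S.σ * ∑ h, X.dp h ^ 2 ≤ S.Λ ^ A * S.η ^ 2 * (S.σ * ∑ h, X.ce h ^ 2) ∧
  ((∀ h, X.ce h = 0) → ∃ g ∈ S.Gs, X.Pg g)

/-- the centred bilinear bound -/
def BilC (A : ℕ) : Prop := ∀ {G H Cl : Type} [Fintype H] [Fintype Cl] (S : Sys G H Cl), S.Ok →
  ∀ (T : Multiset Pt) (j : ℕ) (r a : H → ℝ) (B : ℝ), Nd T → S.Sm 8 T →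
  (∀ h, 0 ≤ r h ∧ r h ≤ B) → (∀ h, r h ≠ 0 → S.ad (some h) T j) →
  S.E (fun g => (S.σ * ∑ h, r h * a h *
      (S.Y (some h) T j g - S.fm (some h) T j * S.I T g)) ^ 2)
    ≤ B * S.Λ ^ A * S.θ ^ 2 * PT T ^ 2 * (S.σ * ∑ h, r h * a h ^ 2)

def LowG (A : ℕ) : Prop := ∀ {G H Cl : Type} [Fintype H] [Fintype Cl] (S : Sys G H Cl), S.Ok →
  S.θ * S.Λ ^ A ≤ 1 → ∀ (c : Option H) (x0 : ℝ) (a : Multiset Pt → ℝ),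
  (∀ f : Multiset ℕ → ℝ, ∑ x ∈ S.St c, S.w c x * a x * f (x.map Pt.p) = 0) →
  (x0 ^ 2 + ∑ x ∈ S.St c, S.w c x * PT x * a x ^ 2) / (2 * S.Λ)
    ≤ S.E fun g => S.TY c 0 (S.kk c + 2) g fun s => (x0 + ∑ i, a (s i)) ^ 2

/-- the optimal centring -/
def AlG : Prop := ∀ {G H Cl : Type} [Fintype H] [Fintype Cl] (S : Sys G H Cl) (X : Ex G H),
  S.Ok → X.Ok S → ∃ α : Pt → ℝ, Zs S (aa X α) ∧ ∀ z ∈ S.P1, ∑ h, S.wz h z * aa X α h z = 0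

def MarG : Prop := ∀ {G H Cl : Type} [Fintype H] [Fintype Cl] (S : Sys G H Cl) (X : Ex G H),
  S.Ok → X.Ok S → ∀ g ∈ S.Gs, ∀ α : Pt → ℝ,
  (∀ i, ∀ z ∈ S.P1,
    ∑ ω, S.mo g ω * ind (S.Zo ω i = z) * Fo S X (aa X α) ω = SZ S X (aa X α) g z) ∧
  (∀ c, ∑ ω, S.mo g ω * ind (S.cell ω.1 = c) * Fo S X (aa X α) ω
    = SC S X (aa X α) g c + SM S X c) ∧
  ∀ ω, S.mo g ω ≠ 0 →
    Fo S X (aa X α) ω = ∑ i, (X.φ g (S.Zo ω i) - α (S.Zo ω i)) + X.uu g ω.1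

def LnkG (A : ℕ) : Prop := ∀ {G H Cl : Type} [Fintype H] [Fintype Cl] (S : Sys G H Cl)
  (X : Ex G H), S.Ok → X.Ok S → ∀ e, S.Par A e → ∀ g ∈ S.Gs, S.good e g → ∀ α : Pt → ℝ,
  ∑ ω, S.mo g ω * Fo S X (aa X α) ω ^ 2 ≤ S.Λ ^ A *
    (∑ z ∈ S.P1, SZ S X (aa X α) g z ^ 2 / S.n0 z + S.M * ∑ c, SC S X (aa X α) g c ^ 2
    + ∑ ω, S.mo g ω * ind (∃ i, S.b1 e g (S.Zo ω i)) * Fo S X (aa X α) ω ^ 2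
    + S.η ^ 2 * (∑ ω, S.mo g ω * X.ce ω.1 ^ 2 + S.σ * ∑ h, X.dp h ^ 2)) ∧
  ((∀ ω, S.mo g ω ≠ 0 → Fo S X (aa X α) ω = 0) → (∀ h, X.ce h = 0) → X.Pg g)

def AexG (A : ℕ) : Prop := ∀ {G H Cl : Type} [Fintype H] [Fintype Cl] (S : Sys G H Cl)
  (X : Ex G H), S.Ok → X.Ok S → ∀ a : H → Pt → ℝ, Zs S a →
  (∀ z ∈ S.P1, ∑ h, S.wz h z * a h z = 0) →
  S.E (fun g => ∑ z ∈ S.P1, SZ S X a g z ^ 2 / S.n0 z) ≤ S.Λ ^ A * S.θ ^ 2 * nrm S X a ∧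
  S.E (fun g => ∑ c, SC S X a g c ^ 2) ≤ S.Λ ^ A * S.θ ^ 2 * nrm S X a

def LrG (A : ℕ) : Prop := ∀ {G H Cl : Type} [Fintype H] [Fintype Cl] (S : Sys G H Cl)
  (X : Ex G H), S.Ok → X.Ok S → ∀ e, S.Par A e → ∀ a : H → Pt → ℝ, Zs S a →
  nrm S X a / (2 * S.Λ) ≤ S.E (fun g => ∑ ω, S.mo g ω * Fo S X a ω ^ 2) ∧
  S.E (fun g => ∑ ω, S.mo g ω * ind (∃ i, S.b1 e g (S.Zo ω i)) * Fo S X a ω ^ 2)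
    ≤ S.M * S.Λ ^ A * S.θ / e ^ 2 * nrm S X a ∧
  S.E (fun g => ∑ ω, S.mo g ω * X.ce ω.1 ^ 2) ≤ 2 * S.Λ * (S.σ * ∑ h, X.ce h ^ 2)

/-- good big curves exist -/
def GdG (A : ℕ) : Prop := ∀ {G H Cl : Type} [Fintype H] [Fintype Cl] (S : Sys G H Cl), S.Ok →
  ∀ e, S.Par A e → ∃ g ∈ S.Gs, S.good e g

def OfSg : Prop := LsqS → PruS → ∀ A, FrS A → ∃ A', SgG A'
def OfBilC : Prop := ∃ A, BilC A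
def OfLow : Prop := ∃ A, LowG A
def OfLnk : Prop := MarS → MarG → ModBS → ∀ A1 A2, ModAS A1 → SgG A2 → ∃ A', LnkG A'
def OfAex : Prop := ∀ A1 A2, BilC A1 → Bil1S A2 → ∃ A', AexG A'
def OfLr : Prop := RemS → ∀ A1 A2, LowG A1 → BadS A2 → ∃ A', LrG A'
def OfGd : Prop := ∀ A, BadS A → ∃ A', GdG A'
def OfMain : Prop := MarS → AlG → ∀ A1 A2 A3 A4, LnkG A1 → AexG A2 → LrG A3 → GdG A4 → FMain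

end Pool.Agent.MP_f3836a_nt.GV.F
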