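import Pool.Agent.MP_f3836a_nt.GV.SpecE0
import Pool.Agent.MP_f3836a_nt.GV.SpecF

/-! Part E: the concrete system. -/

set_option autoImplicit false

namespace Pool.Agent.MP_f3836a_nt.GV

open Polynomial Finset VE

/-- the rows of the correlation defect are small -/
def EtaG (t0 : ℤ) (W k : ℕ) (Y ε K q0 : ℝ) (M1 Tm e : ℕ) : Prop :=
  ∀ (a1 b1 : ℤ) (T : Multiset Pt) (S : Finset ℤ), (∀ l : ℕ, l.Prime → (l : ℤ) ∣ b1 → l ∣ W) →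
    Nd T → T.card ≤ Tm → (∀ z ∈ T, z.p.Prime ∧ ¬z.p ∣ W ∧ q0 ≤ z.p) → (nT T : ℝ) ≤ Y ^ 16 →
    S ⊆ lk (HH0 t0 W k) ((k : ℤ) ^ 2) T →
    (∀ a ∈ S, a1 * (k : ℤ) ^ 2 - a * b1 ≠ 0 ∧ |((a1 * (k : ℤ) ^ 2 - a * b1 : ℤ) : ℝ)| ≤ Y ^ 45) →
    ∀ LL : Finset ℕ, LL.card ≤ M1 → (∀ l ∈ LL, l.Prime ∧ ¬l ∣ W) →
      (∀ z ∈ T, z.p ∈ LL → ¬On a1 b1 z) →
      ∑ a ∈ S, (et1 W LL K (a1 * (k : ℤ) ^ 2 - a * b1) ^ e - 1) ≤ ε * (Lc W k * PT T)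

/-- weights of singletons -/
noncomputable def Ps.wG {n : ℕ} (P : Ps n) (Y : ℝ) (Z : Finset Pt) (x : Multiset Pt) : ℝ :=
  P.lw (nT x) / (Real.log Y * ∑ z ∈ Z, P.nu Y z)

/-- at most two steps -/
def adG (Z : Finset Pt) (κ : ℕ) (T : Multiset Pt) (j : ℕ) : Prop :=
  adS (sing Z) κ T j ∨ (T = 0 ∧ j = κ + 2)

/-- all the data at one scale -/
structure Dat {n r : ℕ} (G : Geo n r) (m : ℕ) where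
  W : ℕ
  W' : ℕ
  k0 : ℕ
  As : Fin n → ℤ[X]
  H : ℕ
  H1 : ℕ
  vs : Ix G.T.e m → ℝ
  f0 : ℝ → ℝ
  ψ : ℤ → ℕ → Pt → ℝ
  c : ℤ → ℕ → Fin r → ℝ
  φ : (Fin n → ℤ[X]) → Pt → ℝ
  cθ : (Fin n → ℤ[X]) → ℂ → ℝ
  Y : ℝ
  HH : Finset ℤ
  P1 : Finset Pt
  Gd : ℤ → ℕ → Prop
  ρ : ℤ → ℝ
  LL : ℤ → Finset ℕ
  k : ℕ
  K : ℕ
  s : ℕ
  J1 : ℕ
  M1 : ℕ
  N : ℕ
  v : ℤ
  X : ℝ
  Λ : ℝ
  Λ1 : ℝ
  M : ℝ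
  Ym : ℝ
  θ : ℝ
  η : ℝ
  εb : ℝ
  Kx : ℝ
  V : ℝ
  ed : ℝ

namespace Dat

variable {n r m : ℕ} {G : Geo n r} (D : Dat G m)

/-- the family of big curves -/
noncomputable abbrev Γ : Gf n :=
  ⟨G.T, G.P, G.t1, m, D.W, D.W', D.k0, D.As, fun j => ⌊(D.H : ℝ) * D.vs j⌋, D.H1⟩

/-- the abscissa of a small curve -/
noncomputable def t (a : ℤ) : ℝ := (a : ℝ) / (D.k0 : ℝ) ^ 2

open Classical in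
/-- the steps of a small curve -/
noncomputable def Z (a : ℤ) : Finset Pt :=
  D.P1.filter fun z => On a ((D.k0 : ℤ) ^ 2) z ∧ D.Gd a z.p

/-- the model -/
noncomputable def fm (T : Multiset Pt) (j : ℕ) : ℝ :=
  Fu (D.K * D.s) j (D.v - tot D.Y (D.K * D.s) T)

/-- the cell of a small curve -/
noncomputable def cell (a : ℤ) : Fin (D.J1 + 1) :=
  ⟨min (cellOf G.B.t0 D.k0 (D.J1 + 1) a) D.J1, Nat.lt_succ_of_le (min_le_right _ _)⟩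

/-- the archimedean term for the shape -/
noncomputable def d0 (a : ℤ) : ℝ :=
  ∑ w, D.c a D.k0 w * Real.log ‖G.B.ev (vP D.vs) w (D.t a)‖

/-- the defect -/
noncomputable def dp (a : ℤ) : ℝ := D.d0 a - D.f0 (D.t a)

/-- the mean square of the coefficients -/
noncomputable def C2 : ℝ := (∑ a ∈ D.HH, ∑ w, D.c a D.k0 w ^ 2) / D.HH.card

/-- the archimedean term of the big curve vanishes -/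
def Pg (x : D.Γ.I) : Prop := ∀ t : ℝ, ug (G.T.N (D.Γ.gA x)) (D.cθ (D.Γ.gA x)) t = 0

variable [NeZero n]

/-- the family of small curves -/
noncomputable def Φ : Fam n D.HH where
  cu h := h
  St h := sing (D.Z h)
  w h := G.P.wG D.Y (D.Z h)
  ρ h := D.ρ h
  LL h := D.LL h
  ad h := adG (D.Z h) D.k
  fm _ := D.fm
  Sh h := Shp (D.Γ.Mh h) (G.B.Ph G.T D.k0 h) (D.Γ.lev h) D.N D.X

/-- the system; the curve `none` is a dummy -/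
noncomputable def sys : VE.F.Sys D.Γ.I D.HH (Fin (D.J1 + 1)) where
  Gs := box D.Γ.lo D.H1
  σ := 1 / (D.HH.card : ℝ)
  on c z := c.elim False fun h => D.Γ.on h z
  zr := D.Γ.zr
  Ev x c M := c.elim (M = 0) fun h => EvG (D.Γ.Mh h) D.Γ.ss (D.Γ.gam h x) M
  ok z := z ∈ G.P.pts D.Y (D.Y ^ 2)
  P1 := D.P1
  St c := c.elim {0} D.Φ.St
  w c := c.elim (fun _ => 1) D.Φ.w
  ρ c := c.elim 1 D.Φ.ρ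
  adm _ _ := True
  ad c := c.elim (fun T _ => T = 0) D.Φ.ad
  fm c := c.elim (fun _ _ => 1) D.Φ.fm
  et c c' := c.elim 0 fun h => c'.elim 0 fun h' => D.Φ.eta D.Γ D.Kx h h'
  k := D.k
  k3 := 0
  N := 1
  K := D.K
  r := D.s
  v := D.v
  u z := pos (Real.log D.Y) (Real.log D.Y / (D.K * D.s : ℕ)) z.p
  n0 := G.P.nu D.Y
  cell h := D.cell h
  mc c := ((D.HH.filter fun a => D.cell a = c).card : ℝ) / D.HH.card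
  ψ _ _ := 0
  φ _ _ := 0
  ua _ _ := 0
  la x h := Real.log (D.Γ.nm h x)
  c0 := 0
  L1 := Real.log D.Y
  lam := Real.log D.Y / (D.K * D.s : ℕ)
  Λ := D.Λ
  M := D.M
  Sz := D.Y ^ 2
  Ym := D.Ym
  θ := D.θ
  η := D.η

/-- the additional data -/
noncomputable def ex : F.Ex D.Γ.I D.HH where
  ψ h := D.ψ h D.k0
  φ x := D.φ (D.Γ.gA x)
  uu x h := ug (G.T.N (D.Γ.gA x)) (D.cθ (D.Γ.gA x)) (D.t h) - D.f0 (D.t h)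
    - ∑ w, D.c h D.k0 w *
      (Real.log ‖G.B.ev (D.Γ.gA x) w (D.t h)‖ - Real.log ‖G.B.ev (vP D.vs) w (D.t h)‖)
  dp h := D.dp h
  ce h := ∑ w, |D.c h D.k0 w| + D.Λ * √D.C2
  Pg := D.Pg
  f0 := D.fm 0 (D.k + 2)

open Classical in
/-- the facts which are established by the construction -/
structure Raw : Prop where
  geo : G.Ok
  gok : D.Γ.Ok
  sc : Sc D.W D.k0 D.Y
  sp : Sp G.T G.B D.vs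
  nr : Nr D.Γ G.B D.vs ((D.W' : ℝ) * D.H) D.εb
  ids : G.Ids D.ψ D.c D.φ D.cθ
  adm : ∀ a ∈ D.HH, G.Adm a D.k0
  prj : Nc n m G.B.t0 G.t1 (NR G.T (vP D.vs)) D.f0 ∧
    (∀ f, Nc n m G.B.t0 G.t1 (NR G.T (vP D.vs)) f → ∑ a ∈ D.HH, f (D.t a) * D.dp a = 0) ∧
    ∑ a ∈ D.HH, D.dp a = 0 ∧ ∑ a ∈ D.HH, D.f0 (D.t a) ^ 2 ≤ ∑ a ∈ D.HH, D.d0 a ^ 2
  fam : D.Φ.Ok D.Γ (D.Y ^ 21) D.V D.Λ D.Ym D.Y (D.Y ^ 16) (D.θ ^ 2 / 40) D.Kx 8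
  num : 100 ≤ D.Λ ∧ D.Λ ≤ D.Ym ∧ 0 < D.θ ∧ D.θ ≤ 1 ∧ 0 < D.η ∧ 1 ≤ D.Λ1 ∧ 2 * D.Λ1 ≤ D.Λ ∧
    2 * G.P.K ≤ D.Λ ∧ 2 * (n : ℝ) ^ 2 * m ≤ D.Λ
  nat : 2 ≤ D.k ∧ (D.k : ℝ) + 2 ≤ D.Λ
  cel : 2 ≤ D.s ∧ 2 ≤ D.η * D.K ∧ (D.K : ℝ) ≤ D.M ∧ (D.J1 : ℝ) + 1 ≤ D.M ∧ (D.J1 : ℝ) + 1 ≤ D.Y
  eb : 0 < D.H ∧ 0 ≤ D.εb ∧ D.εb ≤ 1 / 4 ∧ 2 * D.εb + 1 / (D.J1 + 1) ≤ D.η
  win : D.Λ * D.Ym ^ 3 ≤ D.θ ^ 2 * D.Y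
  hh : D.HH ⊆ HH0 G.B.t0 D.W D.k0 ∧ Lc D.W D.k0 ≤ D.Λ1 * D.HH.card
  p1 : D.P1 ⊆ G.P.pts D.Y (D.Y ^ 2) ∧
    (∀ z ∈ D.P1, ∀ z' ∈ G.P.pts D.Y (D.Y ^ 2), z.p = z'.p → z.t = z'.t → z' ∈ D.P1) ∧
    ∑ z ∈ D.P1, G.P.nu D.Y z / z.p ≤ 2
  zm : ∀ a ∈ D.HH, |∑ z ∈ D.Z a, G.P.nu D.Y z - 1| ≤ 3 * D.ed ∧
    ∑ z ∈ G.P.pon D.Y D.k0 a, G.P.nu D.Y z ≤ 2
  ed : 0 ≤ D.ed ∧ D.Λ1 * (2 * (D.J1 + 1) + 80) * D.ed ≤ D.θ ^ 2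
  del : DelC ((D.k0 : ℤ) ^ 2) (G.P.nu D.Y) (fun a z => D.Gd a z.p)
    (cellOf G.B.t0 D.k0 (D.J1 + 1)) (D.J1 + 1) (Lc D.W D.k0) D.ed D.HH D.P1
  shg : ∀ z ∈ D.P1, z.p * ((D.HH.filter fun a =>
    On a ((D.k0 : ℤ) ^ 2) z ∧ ¬D.Gd a z.p).card : ℝ) ≤ D.ed * Lc D.W D.k0
  r0 : ∑ d ∈ range D.K, |∑ z ∈ D.P1.filter fun z => cz D.Y (D.K * D.s) D.K z = d,
    G.P.nu D.Y z / z.p - 1 / D.K| ≤ D.θ ^ 2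
  mdl : ∀ t : ℕ, t < 2 * (D.K * D.s) → 1 / D.Λ ≤ Fu (D.K * D.s) D.k (D.v - t)
  llc : ∀ a ∈ D.HH, (D.LL a).card ≤ D.M1
  eta : EtaG G.B.t0 D.W D.k0 D.Y (D.θ ^ 2 / D.Λ1) D.Kx D.Y D.M1 8 (3 * n)
  ar : ArC (n * m) (D.J1 + 1) (2 * D.Λ1) D.Λ ∧ ArE (n * m) (D.J1 + 1) (2 * D.Λ1) D.Λ
  mer : ∀ P : Finset ℕ, (∀ p ∈ P, p.Prime ∧ D.Y ≤ p ∧ (p : ℝ) < D.Y ^ 2) → ∑ p ∈ P, (1 : ℝ) / p ≤ 2

end Dat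

section fields

variable {G H Cl : Type} [Fintype H] [Fintype Cl] (S : VE.F.Sys G H Cl) (X : F.Ex G H)

def XId : Prop :=
  (∀ h, ∀ z ∈ S.P1, ∀ z' ∈ S.P1, z.p = z'.p → z.t = z'.t → S.wz h z = S.wz h z') ∧
  (∀ h, ∀ z ∈ S.P1, S.wz h z ≠ 0 → ∑ z' ∈ S.P1, ind (z'.p = z.p ∧ z'.t = z.t) * X.ψ h z' = 0) ∧
  ∀ g ∈ S.Gs, ∀ h M, S.Ev g (some h) M → (∀ z ∈ M, S.wz h z ≠ 0) →
    (M.map (X.ψ h)).sum + X.dp h = (M.map (X.φ g)).sum + X.uu g h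

def XAr : Prop := ∀ g ∈ S.Gs, ∀ s : ℝ, ∃ (R : ℝ) (U : Cl → ℝ), 0 ≤ R ∧
  (∀ h, |X.uu g h + s * S.la g h - U (S.cell h)| ≤ S.η * (R + X.ce h)) ∧
  (∀ c c', |U c - U c'| ≤ R) ∧ (∀ x, R ^ 2 ≤ S.Λ * ∑ c, S.mc c * (U c - x) ^ 2) ∧
  |S.σ * ∑ h, U (S.cell h) * X.dp h| ≤ S.η * R * (S.σ * ∑ h, |X.dp h|) ∧
  (R = 0 → (∀ h, X.ce h = 0) → X.Pg g)

def XLs : Prop := ∑ z ∈ S.P1, (S.σ * ∑ h, S.wz h z * X.dp h) ^ 2 / (S.n0 z * z.p)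
  ≤ S.θ ^ 2 * (S.σ * ∑ h, X.dp h ^ 2)

end fields

/-- a property of all raw data -/
def AllD (Q : ∀ (n r m : ℕ) [NeZero n] (G : Geo n r), Dat G m → Prop) : Prop :=
  ∀ (n r m : ℕ) [NeZero n] (G : Geo n r) (D : Dat G m), D.Raw → Q n r m G D

open Classical in
/-- basic facts -/
def BasS : Prop := AllD fun _ _ _ _ G D => 10 ≤ D.Y ∧ 0 < Real.log D.Y ∧ 0 < D.K ∧
  0 < Lc D.W D.k0 ∧ (0 : ℝ) < D.HH.card ∧ (D.HH.card : ℝ) ≤ Lc D.W D.k0 ∧ 80 * D.ed ≤ 1 ∧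
  PW (G.P.pts D.Y (D.Y ^ 2)) (G.P.nu D.Y) D.Y G.P.K ∧
  (∀ z ∈ G.P.pts D.Y (D.Y ^ 2), D.Γ.Vp z ∧ ¬z.p ∣ D.k0 ∧ z.cj ∈ G.P.pts D.Y (D.Y ^ 2) ∧
    z.cj.cj = z) ∧
  (∀ a ∈ D.HH, (D.cell a : ℕ) = cellOf G.B.t0 D.k0 (D.J1 + 1) a) ∧
  (∀ h : D.HH, ∀ z ∈ D.P1, D.sys.wz h z = if On h ((D.k0 : ℤ) ^ 2) z ∧ D.Gd h z.p then
    z.p * G.P.nu D.Y z / ∑ z' ∈ D.Z h, G.P.nu D.Y z' else 0) ∧
  (∀ (h : D.HH) z, D.sys.wz h z ≠ 0 → z ∈ D.Z h) ∧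
  ∀ c : Fin (D.J1 + 1), 0 ≤ D.sys.mc c ∧ D.sys.mc c ≤ 2 * D.Λ1 / (D.J1 + 1 : ℕ)

/-- zeros of `g` over one prime -/
def ZerG : Prop := ∀ (n : ℕ) [NeZero n] (T : Tb n) (t1 : ℤ) (P : Ps n) (m p : ℕ)
  (A : Fin n → ℤ[X]) (S : Finset Pt), T.Ok → P.Alg T t1 → T.Mon m A →
  (∀ z ∈ S, P.Is z ∧ z.p = p ∧ P.Zr A z) → S.card ≤ n ^ 2 * m

/-- the norm on the interval -/
def NrmS : Prop := AllD fun n _ m _ G D => ∀ x ∈ box D.Γ.lo D.H1, (G.T.N (D.Γ.gA x)).Monic ∧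
  (G.T.N (D.Γ.gA x)).natDegree = n * m ∧ 0 < n * m ∧
  (∃ H0 : ℝ, 0 < H0 ∧ ∀ t ∈ Set.Icc (G.B.t0 : ℝ) (G.B.t0 + 1),
    H0 ≤ aeval t (G.T.N (D.Γ.gA x)) ∧ aeval t (G.T.N (D.Γ.gA x)) ≤ 12 * H0) ∧
  ∀ a ∈ D.HH, D.t a ∈ Set.Icc (G.B.t0 : ℝ) (G.B.t0 + 1) ∧ Real.log (D.Γ.nm a x)
    = (n * m : ℕ) * Real.log ((D.k0 : ℝ) ^ 2) + Real.log (aeval (D.t a) (G.T.N (D.Γ.gA x)))

/-- rigidity of the concrete system -/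
def RigC (AF : ℕ) : Prop := AllD fun _ _ _ _ _ D => D.η * D.Λ ^ AF ≤ 1 →
  D.θ * D.M ^ 3 * D.Λ ^ AF ≤ D.η ^ 2 →
  D.Λ * ((∑ a ∈ D.HH, D.dp a ^ 2) / D.HH.card) ≤ D.C2 / 2 ∧
  (D.C2 = 0 → ∃ x ∈ box D.Γ.lo D.H1, D.Pg x)

def OfBas : Prop := CntS → ScS → CelS → PtG → BasS
def OfZer : Prop := TbS → SplS → FyS → ZerG
def OfNrm : Prop := ApiS → TbS → N0S → NrmS
def SEq : Prop := EqS → PcAS → BasS → AllD fun _ _ _ _ _ D => FEq D.sys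
def SLk : Prop := ScS → LkS → BasS → AllD fun _ _ _ _ _ D => FLk D.sys
def SLn : Prop := ApiS → PtG → ZerG → BasS → AllD fun _ _ _ _ _ D => FLn D.sys
def SR1 : Prop := LkS → BasS → AllD fun _ _ _ _ _ D => FR1 D.sys
def SR2 : Prop := LkS → BasS → AllD fun _ _ _ _ _ D => FR2 D.sys
def SAr : Prop := NrmS → CelS → BasS → AllD fun _ _ _ _ _ D => FAr D.sys
def SId : Prop := ApiS → BasS → AllD fun _ _ _ _ _ D => FId D.sys ∧ XId D.sys D.ex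
def SSt : Prop := BasS → AllD fun _ _ _ _ _ D => FSt D.sys
def SXAr : Prop := ApiS → NrmS → N0S → CelS → BasS → AllD fun _ _ _ _ _ D => XAr D.sys D.ex
def SXLs : Prop := LsvG → BasS → AllD fun _ _ _ _ _ D => XLs D.sys D.ex
def SOk : Prop := ScS → BasS → AllD fun _ _ _ _ _ D => FEq D.sys → FLk D.sys → FLn D.sys →
  FR1 D.sys → FR2 D.sys → FAr D.sys → FId D.sys → FSt D.sys → D.sys.Ok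
def OfRig : Prop := F.FMain → BasS → (AllD fun _ _ _ _ _ D => D.sys.Ok ∧ XId D.sys D.ex ∧
  XAr D.sys D.ex ∧ XLs D.sys D.ex) → ∃ AF, RigC AF

end Pool.Agent.MP_f3836a_nt.GV
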