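import Pool.Agent.MP_f3836a_nt.GV.SpecE1
import Pool.Agent.MP_f3836a_nt.VE.SpecE3

/-! Part E: construction of the system. -/

set_option autoImplicit false

namespace Pool.Agent.MP_f3836a_nt.GV

open Polynomial Finset VE

namespace Geo

variable {n r : ℕ} (G : Geo n r)

def ss (k : ℕ) (z : Pt) (i : Fin n) : ℤ := ((k : ℤ) ^ 2) ^ G.T.e i * G.P.sv z i

/-- the level of a small curve -/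
def lev (W k : ℕ) (a : ℤ) : ℕ := W * (a - G.t1 * (k : ℤ) ^ 2).natAbs

/-- valid points of a small curve -/
def Val (W k : ℕ) (a : ℤ) (z : Pt) : Prop := (G.P.Is z ∧ ¬z.p ∣ W) ∧ On a ((k : ℤ) ^ 2) z

/-- a good small curve -/
structure Cv (W k : ℕ) (Y : ℝ) (a : ℤ) : Prop where
  adm : G.Adm a k
  sg : sig W (hv (disc G.T.M) ((disc G.T.M).natDegree + 2 * ∑ i, G.T.e i) a ((k : ℤ) ^ 2)) ≤ 1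
  tot : |∑ z ∈ G.P.pon Y k a, G.P.nu Y z - 1| ≤ 1 / 2

end Geo

/-- weights of singletons before normalisation -/
noncomputable def Ps.mu {n : ℕ} (P : Ps n) (Y : ℝ) (S : Finset Pt) (x : Multiset Pt) : ℝ :=
  P.wG Y S x * PT x

/-- heights -/
def HtG : Prop := ∀ (n r : ℕ) [NeZero n] (G : Geo n r), G.Ok → ∃ Y1 : ℝ,
  ∀ (W k : ℕ) (Y : ℝ) (a : ℤ), Y1 ≤ Y → Sc W k Y → (a : ℝ) / (k : ℝ) ^ 2 ∈ G.B.I →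
    |(a : ℝ)| ≤ Y ^ 21 ∧ (((k : ℤ) ^ 2 : ℤ) : ℝ) ≤ Y ^ 21 ∧
    |((a - G.t1 * (k : ℤ) ^ 2 : ℤ) : ℝ)| ≤ Y ^ 21 ∧ a - G.t1 * (k : ℤ) ^ 2 ≠ 0

/-- the base hypotheses for a small curve -/
def BHS : Prop := ∀ (n r : ℕ) [NeZero n] (G : Geo n r), G.Ok → ∃ Y1 : ℝ,
  ∀ (N W k : ℕ) (Y : ℝ) (a : ℤ), Y1 ≤ Y → HWn n N W → Sc W k Y → G.Cv W k Y a →
    HWn n N (G.lev W k a) ∧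
    BHG (G.T.Mh a ((k : ℤ) ^ 2)) (G.B.Ph G.T k a) (G.ss k) (G.Val W k a) (sing (G.P.pon Y k a))
      (G.P.mu Y (G.P.pon Y k a)) (G.lev W k a) (200 + 41 * ∑ i, G.T.e i) (2 * G.P.K) Y ∧
    (∀ z ∈ G.P.pon Y k a, 0 < G.P.nu Y z) ∧
    ∀ p : ℕ, ∑ z ∈ (G.P.pon Y k a).filter fun z => z.p = p, G.P.nu Y z ≤ G.P.K ^ 2 / Y

open Classical in
/-- many small curves are good -/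
def CvS : Prop := ∀ (n r : ℕ) [NeZero n] (G : Geo n r), G.Ok → ∃ (w0 : ℕ) (Y1 : ℝ),
  ∀ (W k : ℕ) (Y : ℝ), Y1 ≤ Y → Sc W k Y → (∀ l : ℕ, l.Prime → l ≤ w0 → l ∣ W) → G.W0 ∣ W →
    2 ∣ W → ¬G.Nx ∣ k.factorization 2 →
    G.B.ρ / 4 * Lc W k ≤ ((HH0 G.B.t0 W k).filter (G.Cv W k Y)).card

/-- numerical conditions for averages over short shifts -/
structure NmG (n a U : ℕ) (Y X V Qm ε0 ε Λ ε' K Cb : ℝ) : Prop where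
  e0 : ε0 ≤ ε ∧ ε ≤ 1 ∧ Λ * ε0 ≤ 1 ∧ 1 ≤ Λ
  q : Qm ≤ Y ^ 200 ∧ Y ^ a ≤ V ∧ V * Y ≤ Real.exp (X / n) ∧
    Real.exp (2 * X / n) * Y ^ a ≤ V ^ 2 * U
  c : Cb * ε ≤ ε' ∧ Cb * Λ ≤ K

/-- the output for a small curve -/
structure MO where
  i : ℕ
  G : ℕ → Prop
  LL : Finset ℕ
  ρ : ℝ

open Classical in
structure MOk {n r : ℕ} [NeZero n] (G : Geo n r) (W k0 : ℕ) (Y : ℝ) (N M0 M1 a0 E k1 kM : ℕ)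
    (Cb ε0 : ℝ) (d : ℕ → ℝ) (a : ℤ) (o : MO) : Prop where
  lev : o.i ≤ M0
  gd : ∀ p, o.G p → p ∉ o.LL
  mis : ∑ z ∈ (G.P.pon Y k0 a).filter fun z => ¬o.G z.p, G.P.nu Y z
    ≤ 2 * (M0 : ℝ) ^ 3 * d (o.i + 1) + ε0
  ll : o.LL.card ≤ M1 ∧ ∀ l ∈ o.LL, l.Prime ∧ ¬l ∣ G.lev W k0 a
  rho : 0 < o.ρ
  main : ∀ (Z : Finset Pt) (U Km : ℕ) (δ : ℝ), (∀ z ∈ Z, z ∈ G.P.pon Y k0 a ∧ o.G z.p) →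
    ∑ z ∈ G.P.pon Y k0 a \ Z, G.P.nu Y z ≤ δ → G.P.Eqd k0 Y U Km δ a →
    32 * δ ≤ d o.i → Y ≤ U → (U : ℝ) ≤ Y ^ E → 0 < Km → Km * ε0 ≤ 1 →
    (∀ T j β, j ≤ kM → (∀ z ∈ T, G.Val W k0 a z) →
      RwG (G.T.Mh a ((k0 : ℤ) ^ 2)) (G.ss k0) (sing Z) (G.P.wG Y Z) T j β ≤ Y ^ ε0 * o.ρ) ∧
    ∀ (k : ℕ) (v : ℤ) (X V Qm ε Λ ε' K : ℝ), NmG n a0 U Y X V Qm ε0 ε Λ ε' K Cb → N ∣ k + 2 →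
      k + 2 ≤ kM → k1 ≤ k + 2 → Cb * Λ * (1 - d o.i ^ 2 / Cb) ^ (k + 2 - k1) ≤ ε →
      Cb * Λ * (k + 2) * (δ + 1 / Km) ≤ ε →
      |Real.log Y / U * v - (X - (k + 2) * Real.log Y)| ≤ 1 →
      (∀ T j, adG Z k T j → 1 / Λ ≤ Fu U j (v - tot Y U T)) →
      SFG (G.T.Mh a ((k0 : ℤ) ^ 2)) (G.ss k0) (G.lev W k0 a) (sing Z) (G.P.wG Y Z) o.ρ o.LL
        (adG Z k) (fun T j => Fu U j (v - tot Y U T))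
        (Shp (G.T.Mh a ((k0 : ℤ) ^ 2)) (G.B.Ph G.T k0 a) (G.lev W k0 a) N X) Qm V ε' K

/-- parts B and C for a small curve -/
def MainC : Prop := ∀ (n r : ℕ) [NeZero n] (G : Geo n r), G.Ok →
  ∃ (N M0 M1 a0 : ℕ) (d0 : ℝ), 0 < N ∧ 0 < d0 ∧ ∀ E : ℕ, ∃ (k1 : ℕ) (Cb : ℝ), 1 ≤ Cb ∧
  ∀ (d : ℕ → ℝ) (kM : ℕ) (ε0 : ℝ), Antitone d → (∀ i, 0 < d i) → d 0 ≤ d0 → 0 < ε0 →
    ∃ Y1 : ℝ, ∀ (W k0 : ℕ) (Y : ℝ) (a : ℤ), Y1 ≤ Y → HWn n N W → Sc W k0 Y → G.Cv W k0 Y a →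
    ∃ o : MO, MOk G W k0 Y N M0 M1 a0 E k1 kM Cb ε0 d a o

open Classical in
/-- the family after deletion -/
structure Fin1 {n : ℕ} (P : Ps n) (t0 : ℤ) (W k0 : ℕ) (Y : ℝ) (U Km K J : ℕ) (e Λ1 : ℝ)
    (Gd : ℤ → ℕ → Prop) (H2 HH : Finset ℤ) (P1 : Finset Pt) : Prop where
  hh : HH ⊆ H2 ∧ Lc W k0 ≤ Λ1 * HH.card
  p1 : P1 ⊆ P.pts Y (Y ^ 2) ∧
    (∀ z ∈ P1, ∀ z' ∈ P.pts Y (Y ^ 2), z.p = z'.p → z.t = z'.t → z' ∈ P1) ∧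
    ∑ z ∈ P1, P.nu Y z / z.p ≤ 2
  del : DelC ((k0 : ℤ) ^ 2) (P.nu Y) (fun a z => Gd a z.p) (cellOf t0 k0 J) J (Lc W k0) e HH P1
  shg : ∀ z ∈ P1, z.p * ((HH.filter fun a => On a ((k0 : ℤ) ^ 2) z ∧ ¬Gd a z.p).card : ℝ)
    ≤ e * Lc W k0
  r0 : ∑ d ∈ range K, |∑ z ∈ P1.filter fun z => cz Y U K z = d, P.nu Y z / z.p - 1 / K| ≤ 2 * e
  cur : ∀ a ∈ HH, P.Eqd k0 Y U Km (2 * e) a ∧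
    ∑ z ∈ P.pon Y k0 a \ P1.filter fun z => On a ((k0 : ℤ) ^ 2) z ∧ Gd a z.p, P.nu Y z ≤ 2 * e ∧
    |∑ z ∈ P1.filter fun z => On a ((k0 : ℤ) ^ 2) z ∧ Gd a z.p, P.nu Y z - 1| ≤ 3 * e ∧
    ∑ z ∈ P.pon Y k0 a, P.nu Y z ≤ 2

open Classical in
/-- deletion in the concrete family -/
def XDelS : Prop := ∀ (n : ℕ) [NeZero n] (T : Tb n) (t1 : ℤ) (P : Ps n), P.Alg T t1 → P.Win →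
  ∀ (Km K J : ℕ) (e Λ3 : ℝ), 0 < Km → 0 < K → 0 < J → 0 < e → e ≤ 1 → 0 < Λ3 → 4 * Λ3 * e ≤ 1 →
  ∃ Y1 : ℝ, ∀ (t0 : ℤ) (W k0 U : ℕ) (Y : ℝ) (Gd : ℤ → ℕ → Prop) (H2 : Finset ℤ), Sc W k0 Y →
    Y1 ≤ Y → Y ≤ U → H2 ⊆ HH0 t0 W k0 → Lc W k0 ≤ Λ3 * H2.card →
    (∀ a ∈ H2, ∑ z ∈ (P.pon Y k0 a).filter fun z => ¬Gd a z.p, P.nu Y z ≤ e ^ 3 / 8) →
    ∃ HH P1, Fin1 P t0 W k0 Y U Km K J e (2 * Λ3) Gd H2 HH P1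

/-- the size of the box -/
structure HOk (n m W' a0 κ U : ℕ) (cp Cn Cq Y : ℝ) (H H1 : ℕ) (v : ℤ) (V X : ℝ) : Prop where
  side : 0 < H ∧ 0 < H1 ∧ Cn * H1 ≤ H
  x : X = n * (20 * m * Real.log Y + Real.log ((W' : ℝ) * H) + cp)
  cen : |Real.log Y / U * v - (X - κ * Real.log Y)| ≤ 1 ∧ |(v : ℝ) - κ * U / 2| ≤ U
  v1 : Y ^ a0 ≤ V ∧ V * Y ≤ Real.exp (X / n) ∧ Real.exp (2 * X / n) * Y ^ a0 ≤ V ^ 2 * U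
  bdy : Cq * Y * (V + 1) * (Y ^ 16) ^ 5 * (2 * Y ^ 21) ^ (m + 12) ≤ H1

def XHS : Prop := ∀ (n m W' a0 κ : ℕ) (cp Cn Cq : ℝ), 0 < n → 0 < W' → 0 ≤ cp →
  n * (28 * m + 510 + a0) ≤ κ → ∃ Y1 : ℝ, ∀ (Y : ℝ) (U : ℕ), Y1 ≤ Y →
    Y ^ (84 * m + 702 + a0) ≤ U →
    ∃ (H H1 : ℕ) (v : ℤ) (V X : ℝ), HOk n m W' a0 κ U cp Cn Cq Y H H1 v V X

/-- the congruence conditions -/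
def CgS : Prop := ∀ (n : ℕ) [NeZero n] (Γ : Gf n) (N m1 p0 : ℕ) (G1 : Fin n → ℤ[X]), Γ.Ok →
  Γ.W ∣ Γ.k → Γ.W ∣ Γ.W' → p0 ∣ Γ.W → Γ.T.Mon m1 G1 → Γ.m = N * m1 → Γ.As = pwr Γ.T.M G1 N →
  (∀ l : ℕ, l.Prime → (l : ℤ) ∣ (Γ.T.N G1).eval Γ.t1 → l = p0) →
  ∀ a : ℤ, IsCoprime a (Γ.k : ℤ) → ∀ x, (Γ.nm a x).natAbs.Coprime (Γ.lev a) ∧
    ∃ γ, (Nm (Γ.Mh a) γ).natAbs.Coprime (Γ.lev a) ∧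
      ∀ i, (Γ.lev a : ℤ) ∣ Γ.gam a x i - pwr (Γ.Mh a) γ N i

namespace Dat

variable {n r m : ℕ} {G : Geo n r} (D : Dat G m)

/-- change the shape -/
def re (vs : Ix G.T.e m → ℝ) (f0 : ℝ → ℝ) : Dat G m := { D with vs := vs, f0 := f0 }

/-- the hypotheses of the equidistribution theorem -/
structure Pre [NeZero n] : Prop where
  geo : G.Ok
  gok : D.Γ.Ok
  sc : Sc D.W D.k0 D.Y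
  sp : Sp G.T G.B D.vs
  nr : Nr D.Γ G.B D.vs ((D.W' : ℝ) * D.H) D.εb ∧ 0 < D.H ∧ D.εb ≤ 1 / 4
  adm : ∀ a ∈ D.HH, G.Adm a D.k0 ∧ D.Γ.Ht (D.Y ^ 21) a ∧ a - G.t1 * (D.k0 : ℤ) ^ 2 ≠ 0
  cg : ∃ (m1 p0 : ℕ) (G1 : Fin n → ℤ[X]), D.W ∣ D.W' ∧ p0 ∣ D.W ∧ G.T.Mon m1 G1 ∧ m = D.N * m1 ∧
    D.As = pwr G.T.M G1 D.N ∧ ∀ l : ℕ, l.Prime → (l : ℤ) ∣ (G.T.N G1).eval G.t1 → l = p0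
  p1 : D.P1 ⊆ G.P.pts D.Y (D.Y ^ 2)
  gd : ∀ a ∈ D.HH, (∀ p, D.Gd a p → p ∉ D.LL a) ∧ 0 < D.ρ a ∧
    ∀ l ∈ D.LL a, l.Prime ∧ ¬l ∣ D.Γ.lev a
  rw : ∀ a ∈ D.HH, ∀ T j β, j ≤ D.k + 2 → (∀ z ∈ T, G.Val D.W D.k0 a z) →
    RwG (D.Γ.Mh a) D.Γ.ss (sing (D.Z a)) (G.P.wG D.Y (D.Z a)) T j β ≤ D.Ym * D.ρ a
  fu : 0 < D.K * D.s ∧ 2 ∣ D.s ∧ 10000 ≤ D.k ∧ D.k + 2 ≤ D.K * D.s ∧ 10 * ((D.k : ℝ) + 2) ≤ D.Λ ∧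
    |(D.v : ℝ) - (D.k + 2 : ℕ) * (D.K * D.s : ℕ) / 2| ≤ (D.K * D.s : ℕ)
  sfe : ∀ a ∈ D.HH, (∀ T j, adG (D.Z a) D.k T j → 1 / D.Λ ≤ D.fm T j) →
    SFG (D.Γ.Mh a) D.Γ.ss (D.Γ.lev a) (sing (D.Z a)) (G.P.wG D.Y (D.Z a)) (D.ρ a) (D.LL a)
      (adG (D.Z a) D.k) D.fm (Shp (D.Γ.Mh a) (G.B.Ph G.T D.k0 a) (D.Γ.lev a) D.N D.X)
      (D.W * D.W' * (2 * D.Y ^ 21) ^ 6 * (D.Y ^ 16) ^ 2) D.V (D.θ ^ 2 / 40) D.Kx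
  x : D.X = n * (20 * m * Real.log D.Y + Real.log ((D.W' : ℝ) * D.H)
    + Real.log ((G.t1 : ℝ) - G.B.t0))
  num : 0 ≤ D.V ∧ 1 ≤ D.Λ ∧ 1 ≤ D.Ym ∧ 5 ≤ D.Y ∧ 0 < D.θ ∧ D.θ ≤ 1 / 2 ∧ 2 ≤ D.Kx
  deg : 900 * n * Real.log (2 * D.Y ^ 21) * (D.Ym * D.Λ) ^ 3 ≤ D.θ ^ 2 / 40 * D.Y
  bdy : 81000 * n ^ 2 * m * (D.Ym * D.Λ) ^ 3 * D.W * (D.V + 1) * (D.Y ^ 16) ^ 5
    * (2 * D.Y ^ 21) ^ (m + 12) ≤ D.θ ^ 2 / 40 * D.H1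

end Dat

/-- the values of the big curves have the right shape -/
def ShS : Prop := ∀ (n r m : ℕ) [NeZero n] (G : Geo n r) (D : Dat G m), D.Pre → ∀ a ∈ D.HH,
  D.Γ.Cu a ∧ ∀ x ∈ box D.Γ.lo D.H1,
    Shp (D.Γ.Mh a) (G.B.Ph G.T D.k0 a) (D.Γ.lev a) D.N D.X (D.Γ.gam a x) ∧ 0 < D.Γ.nm a x

def XFamS : Prop := ∀ (n r m : ℕ) [NeZero n] (G : Geo n r) (D : Dat G m), D.Pre →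
  D.Φ.Ok D.Γ (D.Y ^ 21) D.V D.Λ D.Ym D.Y (D.Y ^ 16) (D.θ ^ 2 / 40) D.Kx 8 ∧
  ∀ t : ℕ, t < 2 * (D.K * D.s) → 1 / D.Λ ≤ Fu (D.K * D.s) D.k (D.v - t)

/-- the constants at one level -/
structure CtOk {n r : ℕ} [NeZero n] (G : Geo n r) (m AF N M0 M1 a0 k1 kM W κ0 J0 : ℕ)
    (Cb1 Cb Λ3 Λa ε0 di : ℝ) (l : Lv) : Prop where
  w : HWn n N W
  cb : 1 ≤ Cb1 ∧ Cb1 ≤ Cb ∧ 2 * (M0 : ℝ) ^ 3 ≤ Cb ∧ 1 ≤ Λ3 ∧ 4 * Λ3 ≤ Cb ∧ 100 ≤ Cb ∧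
    G.P.K ≤ Cb ∧ (n : ℝ) ^ 2 * m ≤ Cb ∧ Λa ≤ Cb
  len : n * (28 * m + 510 + a0) ≤ κ0 ∧ k1 + 10002 ≤ κ0 ∧ l.κ ≤ kM
  lv : LvOk Cb (AF + 1) N κ0 J0 1 0 k1 di l
  d : 0 < di ∧ di ≤ 1 ∧ 0 < ε0 ∧ ε0 ≤ l.e0 ∧ ε0 * 10 ≤ 1
  ar : ∀ J, J0 ≤ J → ArC (n * m) J (4 * Λ3) Λa ∧ ArE (n * m) J (4 * Λ3) Λa
  eta : ∃ q0 Y1 : ℝ, ∀ (k0 : ℕ) (Y : ℝ), Y1 ≤ Y → Sc W k0 Y →
    EtaG G.B.t0 W k0 Y (l.θ ^ 2 / (2 * Λ3)) (Cb * l.Λ) q0 M1 8 (3 * n)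

/-- the construction at one level -/
def TopA : Prop := ∀ (n r m : ℕ) [NeZero n] (G : Geo n r) (p0 m1 J : ℕ) (G1 : Fin n → ℤ[X])
  (ψ : ℤ → ℕ → Pt → ℝ) (c : ℤ → ℕ → Fin r → ℝ) (φ : (Fin n → ℤ[X]) → Pt → ℝ)
  (cθ : (Fin n → ℤ[X]) → ℂ → ℝ) (VS : Set (Ix G.T.e m → ℝ)) (AF N M0 M1 a0 k1 kM W κ0 J0 : ℕ)
  (Cb1 Cb Λ3 Λa ε0 di : ℝ) (l : Lv), G.Ok → p0.Prime → p0 ∣ W → G.T.Mon m1 G1 → m = N * m1 →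
  (∀ i, G.T.e i + 5 ≤ m) → (∀ q : ℕ, q.Prime → (q : ℤ) ∣ (G.T.N G1).eval G.t1 → q = p0) →
  G.Ids ψ c φ cθ → VS.Finite → (∀ vs ∈ VS, Sp G.T G.B vs) →
  CtOk G m AF N M0 M1 a0 k1 kM W κ0 J0 Cb1 Cb Λ3 Λa ε0 di l →
  ∃ Yl : ℝ, ∀ (k0 : ℕ) (Y Ym : ℝ) (d : ℕ → ℝ) (i : ℕ) (o : ℤ → MO) (H2 : Finset ℤ), Yl ≤ Ym →
    Scl W G.Nx k0 Y Ym → d i = di → d (i + 1) = l.d' → H2 ⊆ HH0 G.B.t0 W k0 →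
    Lc W k0 ≤ Λ3 * H2.card →
    (∀ a ∈ H2, G.Adm a k0 ∧ MOk G W k0 Y N M0 M1 a0 (84 * m + 703 + a0) k1 kM Cb1 ε0 d a (o a) ∧
      (o a).i = i) →
    ∃ D : Dat G m, D.W' = p0 ^ J * W ∧ D.As = pwr G.T.M G1 N ∧ D.cθ = cθ ∧ D.J1 = l.J1 ∧
      D.Λ1 = 2 * Λ3 ∧ D.Λ = l.Λ ∧ D.η * D.Λ ^ AF ≤ 1 ∧ D.θ * D.M ^ 3 * D.Λ ^ AF ≤ D.η ^ 2 ∧
      ∀ vs ∈ VS, ∃ f0, (D.re vs f0).Raw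

/-- the conclusion at one level -/
def ClsS : Prop := ∀ (AF : ℕ), RigC AF → AllD fun _ _ m _ G D =>
  ∀ (s : ℕ) (v : Fin s → Ix G.T.e m → ℝ) (Λr : ℝ), (∀ k, ∃ f0, (D.re (v k) f0).Raw) →
    D.η * D.Λ ^ AF ≤ 1 → D.θ * D.M ^ 3 * D.Λ ^ AF ≤ D.η ^ 2 →
    Rq G.T G.B G.t1 G.C0 v (D.J1 + 1) (2 * D.Λ1) Λr → 0 < Λr → Λr * s ≤ D.Λ →
    ∃ x, D.Pg x ∧ G.T.Mon m (D.Γ.gA x)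

def OfBH : Prop := ApiS → RngS → EmS → PtG → ScS → HtG → BHS
def OfCv : Prop := ScS → SigG → GoodG → CvS
def OfMainC : Prop := CMain → BC.BMain → BHS → NormS → FuUS → MainC
def OfXDel : Prop := PtG → ScS → CelS → LsvG → MassG → GoodG → NormS → DelAG → DelBS → XDelS
def OfCg : Prop := TbS → RngS → PwS → CgS
def OfSh : Prop := ApiS → EmS → N0S → CgS → ShS
def OfXFam : Prop := FuUS → FuLS → PtG → ShS → XFamS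
def OfTopA : Prop := XDelS → XHS → XFamS → BoxS → PrjS → PwS → HtG → ScS → MertS → TopA
def OfCls : Prop := ApiS → BasS → ClsS
def OfCore : Prop := (∃ AF, RigC AF) → TopA → ClsS → MainC → CvS → LvS → WG → SclG → PwS → SpS →
  EtaS → BC.ArS → ArG → Core

end Pool.Agent.MP_f3836a_nt.GV
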