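import Pool.Agent.MP_f3836a_nt.GV.SpecM

/-! Block A, local part: functions all of whose zeros are close to a given point. -/

set_option autoImplicit false

namespace Pool.Agent.MP_f3836a_nt.GV.A

open Polynomial NumberField IsDedekindDomain

section
variable {B : Type} [CommRing B]

/-- `s` kills all derivations which vanish on `Z` -/
def Kd (Z : Set B) (s : B) : Prop := ∀ (N : Type) [AddCommGroup N] [Module B N] (D : B →+ N),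
  (∀ a b, D (a * b) = a • D b + b • D a) → (∀ z ∈ Z, D z = 0) → ∀ b, s • D b = 0

/-- the quotient of `f` by an ideal -/
def Cn (f : B) (M : Ideal B) : Ideal B := (Ideal.span {f}).colon (M : Set B)

theorem mem_Cn {f a : B} {M : Ideal B} : a ∈ Cn f M ↔ ∀ m ∈ M, f ∣ a * m := by
  simp [Cn, Submodule.mem_colon, Ideal.mem_span_singleton]

variable (B) in
/-- regular away from the integers -/
def Reg : Prop := ∀ q : Ideal B, q.IsPrime → q ≠ ⊥ → (∀ n : ℤ, (n : B) ∈ q → n = 0) →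
  ∃ π ∈ q, ∀ a ∈ q, ∃ s, s ∉ q ∧ π ∣ s * a

variable (O : Type) [CommRing O] [Algebra O B]

/-- the quotient is torsion free -/
def Sat (M : Ideal B) : Prop := ∀ (o : O) a, o ≠ 0 → algebraMap O B o * a ∈ M → a ∈ M

/-- ideals are invertible up to `δ` -/
def Trc (δ : B) : Prop := ∀ M : Ideal B, Sat O M → Module.Finite O (B ⧸ M) →
  ∀ f ∈ M, δ * f ∈ M * Cn f M

variable {O}

/-- a simple zero of `x` -/
structure Sz (e : B →ₐ[O] O) (x θ : B) (c : O) : Prop where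
  ex : e x = 0
  et : e θ = c
  ne : c ≠ 0
  dv : ∀ a, x ∣ (a - algebraMap O B (e a)) * θ

/-- vanishing to order `k` -/
def Mk [IsDomain O] (l : B →ₐ[O] O) (s : B) (k : ℕ) : Ideal B where
  carrier := {a | ∃ t, l t ≠ 0 ∧ s ^ k ∣ t * a}
  add_mem' := by
    rintro a b ⟨t, ht, h⟩ ⟨t', ht', h'⟩
    refine ⟨t * t', by rw [map_mul]; exact mul_ne_zero ht ht', ?_⟩
    have : t * t' * (a + b) = t' * (t * a) + t * (t' * b) := by ring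
    exact this ▸ dvd_add (h.mul_left _) (h'.mul_left _)
  zero_mem' := ⟨1, by simp, by simp⟩
  smul_mem' := by
    rintro c a ⟨t, ht, h⟩
    exact ⟨t, ht, by rw [smul_eq_mul, mul_left_comm]; exact h.mul_left _⟩

/-- properties of the filtration -/
structure MkA (M : ℕ → Ideal B) (l : B →ₐ[O] O) (x w : B) (ξ : O) : Prop where
  sat : ∀ k, Sat O (M k)
  anti : Antitone M
  pow : ∀ k, (x - algebraMap O B ξ) ^ k ∈ M k
  mul : ∀ j k, ∀ a ∈ M j, ∀ b ∈ M k, a * b ∈ M (j + k)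
  ker : ∀ a k, l a = 0 → a ^ k ∈ M k
  div : ∀ k, ∀ a ∈ M k, (x - algebraMap O B ξ) ^ k ∣ w ^ k * a
  can : ∀ k d z, (x - algebraMap O B ξ) ^ k * z ∈ M (k + d) → z ∈ M d
  gen : ∀ k a, ∃ (D : O) (q : O[X]), D ≠ 0 ∧ algebraMap O B D * a - aeval x q ∈ M k
  pol : ∀ k (q : O[X]), aeval x q ∈ M k → (X - C ξ) ^ k ∣ q
  rel : ∀ k (a : Fin (k + 1) → B), ∃ α : Fin (k + 1) → O, α ≠ 0 ∧ ∑ i, α i • a i ∈ M k

variable {S : AddSubmonoid ℕ} (μ : Module.Basis S O B)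

/-- the elements which kill the differentials relative to a monic element -/
def Df (Z : Set B) : Set B := {s | ∃ y d, 0 < d ∧ Mo μ d y ∧ Kd (insert y Z) s}

/-- monic of degree `d` modulo `I` -/
def Ap (I : Ideal O) (d : ℕ) (g : B) : Prop :=
  Lo μ I (d + 1) g ∧ ∃ h : d ∈ S, μ.repr g ⟨d, h⟩ - 1 ∈ I

end

/-- single slope modulo a power of a prime -/
def Sl {A : Type} [CommRing A] (q : Ideal A) (π : A) (d J : ℕ) (Q : A[X]) : Prop :=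
  (∀ i ≤ d, Q.coeff i ∈ Ideal.span {π ^ (d - i)} ⊔ q ^ J) ∧
    ∃ u, u ∉ q ∧ Q.coeff 0 - u * π ^ d ∈ q ^ J

/-- the completion -/
structure Lcl {A O : Type} [CommRing A] [CommRing O] [Algebra A O] (q : Ideal A) (ϖ : O) :
    Prop where
  irr : Irreducible ϖ
  inj : Function.Injective (algebraMap A O)
  mem : ∀ a t, ϖ ^ t ∣ algebraMap A O a ↔ a ∈ q ^ t
  den : ∀ b t, ∃ a, ϖ ^ t ∣ b - algebraMap A O a
  fin : ∀ t, Finite (O ⧸ Ideal.span {ϖ ^ t})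

/-- base change -/
structure Bc {A O 𝒜 B : Type} [CommRing A] [CommRing O] [CommRing 𝒜] [CommRing B] [Algebra A O]
    [Algebra A 𝒜] [Algebra A[X] 𝒜] [Algebra O B] [Algebra O[X] B] {S : AddSubmonoid ℕ}
    (μ : Module.Basis S A 𝒜) (ν : Module.Basis S O B) (φ : 𝒜 →+* B) (e : 𝒜 →ₐ[A] A)
    (e' : B →ₐ[O] O) : Prop where
  fm : FM ν
  bas : ∀ d, ν d = φ (μ d)
  con : ∀ a, φ (algebraMap A 𝒜 a) = algebraMap O B (algebraMap A O a)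
  var : φ (algebraMap A[X] 𝒜 X) = algebraMap O[X] B X
  rep : ∀ g d, ν.repr (φ g) d = algebraMap A O (μ.repr g d)
  ev : ∀ g, e' (φ g) = algebraMap A O (e g)
  nrm : ∀ g, Algebra.norm O[X] (φ g) = (Algebra.norm A[X] g).map (algebraMap A O)

/-! ### rows -/

/-- norms -/
def NcS : Prop := ∀ (Λ B ι : Type) [CommRing Λ] [CommRing B] [Algebra Λ B] [Fintype ι]
  (_ : Module.Basis ι Λ B), (∀ (I : Ideal Λ) (g g' : B), g - g' ∈ I.map (algebraMap Λ B) →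
    Algebra.norm Λ g - Algebra.norm Λ g' ∈ I) ∧
  (∀ g : B, g ∣ algebraMap Λ B (Algebra.norm Λ g)) ∧
  (∀ (I : Ideal Λ) (g : B), Ideal.span {g} ⊔ I.map (algebraMap Λ B) = ⊤ ↔
    Ideal.span {Algebra.norm Λ g} ⊔ I = ⊤) ∧
  ∀ r : Λ, Algebra.norm Λ (algebraMap Λ B r) = r ^ Fintype.card ι

/-- reduction of the degree -/
def RedS : Prop := ∀ (A B : Type) [CommRing A] [CommRing B] [Algebra A B] (S : AddSubmonoid ℕ)
  (μ : Module.Basis S A B), FM μ →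
  (∀ (I : Ideal A) g, Lo μ I 0 g ↔ g ∈ I.map (algebraMap A B)) ∧
  (∀ (b : A) g, Lo μ (Ideal.span {b}) 0 g ↔ algebraMap A B b ∣ g) ∧
  (∀ (M : Ideal B) (I : Ideal A) (D : ℕ), (∀ d, D < d → ∃ f ∈ M, Mo μ d f) → ∀ g,
    Lo μ I (D + 1) g → ∃ g', g - g' ∈ M ∧ Lo μ ⊥ (D + 1) g' ∧ Lo μ I 0 (g - g')) ∧
  (∀ (M : Ideal B) (I : Ideal A) (D : ℕ), (∀ d, D ≤ d → ∃ f ∈ M, Mo μ d f) → ∀ g,
    Ap μ I D g → ∃ g', g - g' ∈ M ∧ Mo μ D g' ∧ Lo μ I 0 (g - g')) ∧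
  ∀ N x, Mo μ N x → ∃ d, ∀ a, ∃ a', x ∣ a - a' ∧ Lo μ ⊥ d a'

def MkS : Prop := ∀ (O B : Type) [CommRing O] [IsDomain O] [CommRing B] [IsDomain B] [Algebra O B]
  (l : B →ₐ[O] O) (x w : B) (ξ : O), x - algebraMap O B ξ ≠ 0 →
  Sz l (x - algebraMap O B ξ) w (l w) → MkA (Mk l (x - algebraMap O B ξ)) l x w ξ

/-- monic elements of an ideal of small colength -/
def MonS : Prop := ∀ (O B : Type) [CommRing O] [IsDomain O] [IsDiscreteValuationRing O] [CommRing B]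
  [Algebra O B] (S : AddSubmonoid ℕ) (μ : Module.Basis S O B) (M : Ideal B) (c k : ℕ), FM μ →
  (∀ d, c ≤ d → d ∈ S) → Sat O M → (∃ d, ∃ f ∈ M, Mo μ d f) →
  (∀ a : Fin (k + 1) → B, ∃ α : Fin (k + 1) → O, α ≠ 0 ∧ ∑ i, α i • a i ∈ M) →
  ∀ d, k + 2 * c ≤ d → ∃ f ∈ M, Mo μ d f

/-- the shape of the rows about an algebra over polynomials -/
def AllX (Φ : ∀ (O B : Type) [CommRing O] [CommRing B] [Algebra O B] [Algebra O[X] B], Prop) :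
    Prop := ∀ (O B : Type) [CommRing O] [IsDomain O] [IsDiscreteValuationRing O] [CommRing B]
  [Algebra O B] [Algebra O[X] B] [IsScalarTower O O[X] B], Φ O B

/-- norms of elements of the filtration -/
def NrmS : Prop := AllX fun O B _ _ _ _ => ∀ (N : ℕ) [NeZero N] (η : Module.Basis (Fin N) O[X] B)
  (M : ℕ → Ideal B) (l : B →ₐ[O] O) (w : B) (ξ : O), η 0 = 1 →
  MkA M l (algebraMap O[X] B X) w ξ → ∀ k, ∀ g ∈ M k, ∃ V : O[X],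
    Algebra.norm O[X] g = (X - C ξ) ^ k * V ∧ algebraMap O[X] B V ∈ Cn g (M k)

/-- the pigeonhole principle -/
def PigS : Prop := ∀ (O B : Type) [CommRing O] [CommRing B] [Algebra O[X] B] [Module.Finite O[X] B]
  (b : O) (c : ℕ) (V : ℕ → O[X]) (I : ℕ → Ideal B), Finite (O ⧸ Ideal.span {b}) →
  (∀ t, (V t).IsMonicOfDegree c ∧ algebraMap O[X] B (V t) ∈ I t) →
  ∃ t t', t < t' ∧ C b ∣ V t - V t' ∧ I t' ≤ I t ⊔ Ideal.span {algebraMap O[X] B (C b)}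

def SchS : Prop := AllX fun O B _ _ _ _ => Module.Free O[X] B → Module.Finite O[X] B →
  ∀ M : Ideal B, Sat O M → Module.Finite O (B ⧸ M) →
  Module.Projective O[X] M ∧ Module.Finite O[X] M

def CasS : Prop := ∀ (Λ B : Type) [CommRing Λ] [CommRing B] [Algebra Λ B] [Module.Finite Λ B]
  (s : B), Kd (Set.range (algebraMap Λ B)) s → ∃ j : ℕ, ∀ M : Ideal B, Module.Projective Λ M →
  Module.Finite Λ M → ∀ f ∈ M, s ^ j * f ∈ M * Cn f M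

def TrcS : Prop := ∀ (O B : Type) [CommRing O] [IsDomain O] [IsDiscreteValuationRing O] [CommRing B]
  [Algebra O B] (S : AddSubmonoid ℕ) (μ : Module.Basis S O B) (δ : B), FM μ →
  δ ∈ Ideal.span (Df μ (Set.range (algebraMap O B))) → ∃ j : ℕ, Trc O (δ ^ j)

def DifS : Prop := ∀ (K 𝒜 : Type) [Field K] [NumberField K] [CommRing 𝒜] [Algebra (𝓞 K) 𝒜]
  (S : AddSubmonoid ℕ) (μ : Module.Basis S (𝓞 K) 𝒜), FM μ → Reg 𝒜 →
  ∃ c : ℕ, c ≠ 0 ∧ (c : 𝒜) ∈ Ideal.span (Df μ ∅)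

/-- the eigenvalue -/
def PtA : Prop := AllX fun O B _ _ _ _ => HenselianLocalRing O → ∀ (N : ℕ) [NeZero N]
  (η : Module.Basis (Fin N) O[X] B) (e : B →ₐ[O] O) (θ : B) (c ξ ϖ : O),
  Sz e (algebraMap O[X] B X) θ c → ¬IsUnit ϖ → ϖ * c ^ N ∣ ξ → ∃ (z : O) (κ : O[X]),
    ((Algebra.leftMulMatrix η θ).map (eval ξ)).charpoly = (X - C z) * κ ∧ z ∣ c ∧
    κ.eval c ∣ c ^ (N - 1) ∧ κ.eval z ≠ 0

/-- a point near a simple zero -/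
def PtS : Prop := AllX fun O B _ _ _ _ => HenselianLocalRing O → ∀ (N : ℕ) [NeZero N]
  (_ : Module.Basis (Fin N) O[X] B) (e : B →ₐ[O] O) (θ : B) (c ξ ϖ : O),
  Sz e (algebraMap O[X] B X) θ c → ¬IsUnit ϖ → ϖ * c ^ N ∣ ξ → ∃ (l : B →ₐ[O] O) (w : B),
    Sz l (algebraMap O[X] B X - algebraMap O B ξ) w (l w) ∧ e w ∣ c ^ N ∧ l θ ∣ c

/-- an approximate function with all zeros at one point -/
def LoA : Prop := AllX fun O B _ _ _ _ => ∀ (S : AddSubmonoid ℕ) (μ : Module.Basis S O B) (N : ℕ)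
  (M : ℕ → Ideal B) (l : B →ₐ[O] O) (w : B) (ξ ϖ c : O), FM μ → 0 < N →
  Mo μ N (algebraMap O[X] B X) → MkA M l (algebraMap O[X] B X) w ξ → Irreducible ϖ →
  (∀ t, Finite (O ⧸ Ideal.span {ϖ ^ t})) → c ≠ 0 → Trc O (algebraMap O B c) → ∀ J m0 : ℕ,
  ∃ m, m0 ≤ m ∧ ∃ G ∈ M (N * m), Ap μ (Ideal.span {ϖ ^ J}) (N * m) G ∧
    C (ϖ ^ J) ∣ Algebra.norm O[X] G - (X - C ξ) ^ (N * m)

/-- polynomials close to a power -/
def ScS : Prop := ∀ (O : Type) [CommRing O] [IsDomain O] [IsDiscreteValuationRing O] (ξ ϖ b : O)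
  (j c : ℕ) (W : O[X]), ¬IsUnit ϖ → ϖ * ξ ^ c ∣ b → W.IsMonicOfDegree c →
  C b ∣ (X - C ξ) ^ j * W - (X - C ξ) ^ (j + c) → W.coeff 0 ∣ ξ ^ c ∧
  ∃ M : O[X], M.IsMonicOfDegree (j + c) ∧ IsUnit (M.coeff 0) ∧ (X - C ξ) ^ j * W = M.scaleRoots ξ

/-- the local theorem -/
def PaL : Prop := AllX fun O B _ _ _ _ => HenselianLocalRing O → ∀ (S : AddSubmonoid ℕ)
  (μ : Module.Basis S O B) (N : ℕ) (e : B →ₐ[O] O) (θ : B) (c ϖ c0 : O), FM μ → 0 < N →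
  Mo μ N (algebraMap O[X] B X) → Sz e (algebraMap O[X] B X) θ c → Irreducible ϖ →
  (∀ t, Finite (O ⧸ Ideal.span {ϖ ^ t})) → c0 ≠ 0 → Trc O (algebraMap O B c0) →
  ∃ c1 : ℕ, ∀ ξ : O, ξ ≠ 0 → ϖ * c ^ N ∣ ξ → ∀ m0 : ℕ, ∃ m, m0 ≤ m ∧ ∃ G, Mo μ (N * m) G ∧
    (∃ M : O[X], M.IsMonicOfDegree (N * m) ∧ IsUnit (M.coeff 0) ∧
      Algebra.norm O[X] G = M.scaleRoots ξ) ∧
    ξ ^ (N * m - c1) ∣ c ^ (N * (N * m)) * e G ∧
    algebraMap O B (ξ ^ c1 * c ^ (N * m)) ∈ Ideal.span {G, algebraMap O[X] B X, θ}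

def ExoS : Prop := ∀ (K : Type) [Field K] [NumberField K] (q : HeightOneSpectrum (𝓞 K)),
  ∃ (O : Type) (_ : CommRing O) (_ : IsDomain O) (_ : IsDiscreteValuationRing O)
    (_ : HenselianLocalRing O) (_ : Algebra (𝓞 K) O) (ϖ : O), Lcl q.asIdeal ϖ

def BcB : Prop := ∀ (A O 𝒜 : Type) [CommRing A] [Nontrivial A] [CommRing O] [Nontrivial O]
  [CommRing 𝒜] [Algebra A O] [Algebra A 𝒜] [Algebra A[X] 𝒜] [IsScalarTower A A[X] 𝒜]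
  (S : AddSubmonoid ℕ) (μ : Module.Basis S A 𝒜) (N : ℕ) (e : 𝒜 →ₐ[A] A), FM μ → 0 < N →
  Mo μ N (algebraMap A[X] 𝒜 X) → ∃ (B : Type) (_ : CommRing B) (_ : Algebra O B)
    (_ : Algebra O[X] B) (_ : IsScalarTower O O[X] B) (ν : Module.Basis S O B) (φ : 𝒜 →+* B)
    (e' : B →ₐ[O] O), Bc μ ν φ e e'

/-- transfer along the base change -/
def BcT : Prop := ∀ (A O 𝒜 B : Type) [CommRing A] [CommRing O] [CommRing 𝒜] [CommRing B]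
  [Algebra A O] [Algebra A 𝒜] [Algebra A[X] 𝒜] [Algebra O B] [Algebra O[X] B] (S : AddSubmonoid ℕ)
  (μ : Module.Basis S A 𝒜) (ν : Module.Basis S O B) (φ : 𝒜 →+* B) (e : 𝒜 →ₐ[A] A) (e' : B →ₐ[O] O)
  (q : Ideal A) (ϖ : O), FM μ → Bc μ ν φ e e' → Lcl q ϖ →
  (∀ d g, Mo μ d g → Mo ν d (φ g)) ∧
  (∀ x θ c, Sz e x θ c → Sz e' (φ x) (φ θ) (algebraMap A O c)) ∧
  (∀ s ∈ Ideal.span (Df μ ∅), φ s ∈ Ideal.span (Df ν (Set.range (algebraMap O B)))) ∧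
  (∀ J b, ∃ a, algebraMap O B (ϖ ^ J) ∣ b - φ a) ∧
  (∀ J d b, Mo ν d b → ∃ a, Mo μ d a ∧ algebraMap O B (ϖ ^ J) ∣ b - φ a) ∧
  ∀ J a, algebraMap O B (ϖ ^ J) ∣ φ a → a ∈ (q ^ J).map (algebraMap A 𝒜)

/-- the shape of the global rows -/
def AllG (Φ : ∀ (K 𝒜 : Type) [Field K] [NumberField K] [CommRing 𝒜] [Algebra (𝓞 K) 𝒜]
    {S : AddSubmonoid ℕ} (_ : Module.Basis S (𝓞 K) 𝒜) (_ : ℕ) (_ : 𝒜 →ₐ[𝓞 K] 𝓞 K) (_ _ : 𝒜)
    (_ : 𝓞 K) (_ : ℕ) (_ : Ideal (𝓞 K)), Prop) : Prop :=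
  ∀ (K 𝒜 : Type) [Field K] [NumberField K] [CommRing 𝒜] [Algebra (𝓞 K) 𝒜] (S : AddSubmonoid ℕ)
    (μ : Module.Basis S (𝓞 K) 𝒜) (N : ℕ) (e : 𝒜 →ₐ[𝓞 K] 𝓞 K) (x θ : 𝒜) (c : 𝓞 K) (p : ℕ)
    (q : Ideal (𝓞 K)), FM μ → 0 < N → Mo μ N x → Reg 𝒜 → Sz e x θ c → p.Prime → q.IsPrime →
    (p : 𝓞 K) ∈ q → Φ K 𝒜 μ N e x θ c p q

/-- approximation at one prime -/
def PaG : Prop := AllG fun K 𝒜 _ _ _ _ _ μ N e x θ c p q => ∀ [Algebra (𝓞 K)[X] 𝒜]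
  [IsScalarTower (𝓞 K) (𝓞 K)[X] 𝒜], x = algebraMap (𝓞 K)[X] 𝒜 X →
  ∃ c1 σ0 : ℕ, ∀ σ, σ0 ≤ σ → ∀ m0 : ℕ, ∃ m, m0 ≤ m ∧ ∀ J, ∃ G, Mo μ (N * m) G ∧
    Sl q ((p : 𝓞 K) ^ σ) (N * m) J (Algebra.norm (𝓞 K)[X] G) ∧
    c ^ (N * (N * m)) * e G ∈ q ^ (σ * (N * m - c1)) ∧
    algebraMap (𝓞 K) 𝒜 (((p : 𝓞 K) ^ σ) ^ c1 * c ^ (N * m)) ∈
      Ideal.span {G, x, θ} ⊔ (q ^ J).map (algebraMap (𝓞 K) 𝒜)

/-- from local to global slopes -/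
def SlS : Prop := ∀ (A : Type) [CommRing A] [IsDedekindDomain A] (p : A) (σ d : ℕ), p ≠ 0 →
  ∃ J0, ∀ J, J0 ≤ J → ∀ Q : A[X], Q.IsMonicOfDegree d →
    (∀ q : Ideal A, q.IsPrime → p ∈ q → Sl q (p ^ σ) d J Q) →
    ∃ M : A[X], M.Monic ∧ IsCoprime (M.coeff 0) p ∧ Q = M.scaleRoots (p ^ σ)

/-- **the export** -/
def PaX : Prop := AllG fun K 𝒜 _ _ _ _ _ μ N e x θ c p q =>
  ∃ c1 σ0 : ℕ, ∀ σ, σ0 ≤ σ → ∀ m0 : ℕ, ∃ m, m0 ≤ m ∧ ∀ J, ∃ G, Mo μ (N * m) G ∧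
    (∃ M : (𝓞 K)[X], M.Monic ∧ IsCoprime (M.coeff 0) p ∧
      G ∣ aeval x (M.scaleRoots ((p : 𝓞 K) ^ σ))) ∧
    c ^ (N * (N * m)) * e G ∈ q ^ (σ * (N * m - c1)) ∧
    algebraMap (𝓞 K) 𝒜 (((p : 𝓞 K) ^ σ) ^ c1 * c ^ (N * m)) ∈
      Ideal.span {G, x, θ} ⊔ (q ^ J).map (algebraMap (𝓞 K) 𝒜) ∧
    ∀ q' : Ideal (𝓞 K), q'.IsPrime → (p : 𝓞 K) ∈ q' → q' ≠ q →
      G - (x ^ m + ((p : 𝒜) ^ σ) ^ m) ∈ (q' ^ J).map (algebraMap (𝓞 K) 𝒜)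

def OfRed : Prop := FmS → RedS
def OfMon : Prop := FmS → RedS → MonS
def OfTrc : Prop := ApeS → SchS → CasS → TrcS
def OfDif : Prop := FmS → ApeS → GP.GdA → DifS
def OfPt : Prop := PtA → PtS
def OfLoA : Prop := FmS → ApeS → NcS → RedS → MonS → NrmS → PigS → LoA
def OfPaL : Prop := FmS → ApeS → NcS → RedS → MkS → MonS → NrmS → PtS → LoA → ScS → PaL
def OfBcB : Prop := ApeT → BcB
def OfBcT : Prop := RedS → BcT
def OfPaG : Prop := ApeS → NcS → DifS → TrcS → ExoS → BcB → BcT → PaL → PaG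
def OfPaX : Prop := FmS → ApeS → NcS → RedS → SlS → PaG → PaX

end Pool.Agent.MP_f3836a_nt.GV.A
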