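import Pool.Agent.MP_f3836a_nt.GV.Defs
import Pool.Agent.MP_f3836a_nt.GP.SpecT

/-! Block Mod: exports. -/

set_option autoImplicit false

namespace Pool.Agent.MP_f3836a_nt.GV

open Polynomial NumberField PK VE.Z GP

section
variable {A 𝒜 : Type} [CommRing A] [CommRing 𝒜] [Algebra A 𝒜] {S : AddSubmonoid ℕ}
  (μ : Module.Basis S A 𝒜)

/-- monic of degree `d` -/
def Mo (d : ℕ) (g : 𝒜) : Prop :=
  (∃ h : d ∈ S, μ.repr g ⟨d, h⟩ = 1) ∧ ∀ e : S, d < e → μ.repr g e = 0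

/-- all coefficients from `d` on lie in `I` -/
def Lo (I : Ideal A) (d : ℕ) (g : 𝒜) : Prop := ∀ e : S, d ≤ e → μ.repr g e ∈ I

/-- elementary facts -/
structure FmA : Prop where
  bas : ∀ d : S, Mo μ d (μ d)
  mul : ∀ d d' g g', Mo μ d g → Mo μ d' g' → Mo μ (d + d') (g * g')
  pow : ∀ d g k, Mo μ d g → Mo μ (d * k) (g ^ k)
  add : ∀ d g g', Mo μ d g → Lo μ ⊥ d g' → Mo μ d (g + g')
  low : ∀ I d d' g g', Lo μ ⊥ (d + 1) g → Lo μ I d' g' → Lo μ I (d + d') (g * g')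
  top : ∀ I d (t : S) f g, Mo μ d f → Lo μ I (t + 1) g →
    ∃ h : d + t ∈ S, μ.repr (f * g) ⟨d + t, h⟩ - μ.repr g t ∈ I
  can : ∀ I d t f g, Mo μ d f → Lo μ I (d + t) (f * g) → Lo μ I t g
  bdd : ∀ g, ∃ d, Lo μ ⊥ d g
  dom : IsDomain A → IsDomain 𝒜

end

def FmS : Prop := ∀ (A 𝒜 : Type) [CommRing A] [CommRing 𝒜] [Algebra A 𝒜] (S : AddSubmonoid ℕ)
  (μ : Module.Basis S A 𝒜), FM μ → FmA μ

/-- the algebra is free over the polynomials in a monic element -/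
def ApeS : Prop := ∀ (A 𝒜 : Type) [CommRing A] [Nontrivial A] [CommRing 𝒜] [Algebra A 𝒜] [Algebra A[X] 𝒜]
  [IsScalarTower A A[X] 𝒜] (S : AddSubmonoid ℕ) (μ : Module.Basis S A 𝒜) (N : ℕ) [NeZero N], FM μ →
  Mo μ N (algebraMap A[X] 𝒜 X) → ∃ η : Module.Basis (Fin N) A[X] 𝒜, η 0 = 1 ∧
    ∀ m g, Mo μ (N * m) g → (Algebra.leftMulMatrix η g).det.IsMonicOfDegree (N * m)

/-- the same with a basis which depends only on the semigroup -/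
def ApeT : Prop := ∀ (S : AddSubmonoid ℕ) (N : ℕ) [NeZero N], (∃ c, ∀ d, c ≤ d → d ∈ S) →
  ∃ a : Fin N → S, a 0 = 0 ∧ ∀ (A 𝒜 : Type) [CommRing A] [Nontrivial A] [CommRing 𝒜] [Algebra A 𝒜]
  [Algebra A[X] 𝒜] [IsScalarTower A A[X] 𝒜] (μ : Module.Basis S A 𝒜), FM μ →
  Mo μ N (algebraMap A[X] 𝒜 X) → ∃ η : Module.Basis (Fin N) A[X] 𝒜, (∀ j, η j = μ (a j)) ∧
    ∀ m g, Mo μ (N * m) g → (Algebra.leftMulMatrix η g).det.IsMonicOfDegree (N * m)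

/-- the table of a model -/
structure Md {K 𝒜 : Type} [Field K] [NumberField K] [CommRing 𝒜] [Algebra (𝓞 K) 𝒜]
    [Algebra ℤ[X] 𝒜] {S : AddSubmonoid ℕ} (μ : Module.Basis S (𝓞 K) 𝒜) {n : ℕ} [NeZero n] (T : Tb n)
    (y : Module.Basis (Fin n) ℤ[X] 𝒜) (N r : ℕ) : Prop where
  fm : FM μ
  mo : Mo μ N (algebraMap ℤ[X] 𝒜 X)
  two : n = 2 * r
  nx : 2 ≤ N
  y0 : y 0 = 1
  tab : ∀ i, T.M i = Algebra.leftMulMatrix y (y i)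
  ok : T.Ok
  mon : ∀ m g, Mo μ (N * m) g ↔ T.Mon m (y.repr g)
  fld : ∀ (a : ℤ) (k : ℕ), Odd a → 0 < k → 2 ∣ k → ¬N ∣ k.factorization 2 → T.Fld a ((k : ℤ) ^ 2)
  nre : ∀ (t : ℝ) (s : Fin n → ℝ), ¬Hm (T.fib t) s

def TabS : Prop := ∀ (K 𝒜 : Type) [Field K] [NumberField K] [CommRing 𝒜] [Algebra (𝓞 K) 𝒜]
  [Algebra ℤ[X] 𝒜] (S : AddSubmonoid ℕ) (μ : Module.Basis S (𝓞 K) 𝒜) (N : ℕ), FM μ →
  Mo μ N (algebraMap ℤ[X] 𝒜 X) → N.Prime → 2 * Module.finrank ℚ K < N → (∃ i : K, i ^ 2 = -1) →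
  ∃ (n r : ℕ) (_ : NeZero n) (T : Tb n) (y : Module.Basis (Fin n) ℤ[X] 𝒜), Md μ T y N r

/-- the model with a given rational place at infinity -/
def FmX : Prop := ∀ (K F : Type) [Field K] [NumberField K] [Field F] [CharZero F] [Algebra K F]
  (O O' : Subring F) (VV : Set (Subring F)) (M N0 : ℕ), FG F → Cl K F → Rat K O → Rat K O' →
  O ≠ O' → VV.Finite → (∀ V ∈ VV, Dvr V ∧ Nu V M) → M ≠ 0 →
  ∃ (𝒜 : Subalgebra (𝓞 K) F) (S : AddSubmonoid ℕ) (μ : Module.Basis S (𝓞 K) 𝒜) (x : 𝒜) (N : ℕ),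
    FM μ ∧ Mo μ N x ∧ N.Prime ∧ N0 < N ∧ ordR O (x : F) = 1 ∧ (∀ V ∈ VV, Nu V (x : F)) ∧
    (x : F) ∉ O' ∧
    ∀ z : F, (∀ P, Pl P → P ≠ O' → z ∈ P) ↔ ∃ n : ℕ, n ≠ 0 ∧ (n : F) * z ∈ 𝒜

end Pool.Agent.MP_f3836a_nt.GV
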