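import Pool.Agent.MP_f3836a_nt.GV.SpecM
import Pool.Agent.MP_f3836a_nt.GV.SpecD

/-! Block Mod: the rows. -/

set_option autoImplicit false

namespace Pool.Agent.MP_f3836a_nt.GV.M

open Polynomial NumberField PK VE.Z GP IntermediateField

/-! ### algebras with a basis of monic elements -/

/-- change of the basis -/
def ChgS : Prop := ∀ (A 𝒜 : Type) [CommRing A] [CommRing 𝒜] [Algebra A 𝒜] (S : AddSubmonoid ℕ)
  (μ : Module.Basis S A 𝒜) (f : S → 𝒜), FM μ → f 0 = 1 → (∀ e : S, Mo μ e (f e)) →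
  ∃ ν : Module.Basis S A 𝒜, (∀ e, ν e = f e) ∧ FM ν ∧ (∀ I D g, Lo μ I D g ↔ Lo ν I D g) ∧
    ∀ (D : S) g, Lo μ ⊥ (D + 1) g → μ.repr g D = ν.repr g D

/-- the basis of the least elements in the classes modulo `N` -/
structure Ap {A 𝒜 : Type} [CommRing A] [CommRing 𝒜] [Algebra A 𝒜] [Algebra A[X] 𝒜]
    {S : AddSubmonoid ℕ} (μ : Module.Basis S A 𝒜) {N : ℕ} [NeZero N] (d : Fin N → ℕ)
    (η : Module.Basis (Fin N) A[X] 𝒜) : Prop where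
  d0 : d 0 = 0
  md : ∀ j, d j % N = j
  mem : ∀ e, e ∈ S ↔ ∃ j k, e = N * k + d j
  one : η 0 = 1
  mo : ∀ j, Mo μ (d j) (η j)
  lo : ∀ I D g, Lo μ I D g ↔ ∀ j k, D ≤ N * k + d j → (η.repr g j).coeff k ∈ I
  top : ∀ j k g (h : N * k + d j ∈ S), Lo μ ⊥ (N * k + d j + 1) g →
    μ.repr g ⟨N * k + d j, h⟩ = (η.repr g j).coeff k
  nu : ∃ ν : Module.Basis S A 𝒜, FM ν ∧ ∀ j k (h : N * k + d j ∈ S),
    ν ⟨N * k + d j, h⟩ = algebraMap A[X] 𝒜 X ^ k * η j ∧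
    ∀ g, ν.repr g ⟨N * k + d j, h⟩ = (η.repr g j).coeff k

def ApbS : Prop := ∀ (S : AddSubmonoid ℕ) (N : ℕ) [NeZero N], (∃ c, ∀ d, c ≤ d → d ∈ S) →
  ∃ a : Fin N → S, a 0 = 0 ∧ ∀ (A 𝒜 : Type) [CommRing A] [CommRing 𝒜] [Algebra A 𝒜]
  [Algebra A[X] 𝒜] [IsScalarTower A A[X] 𝒜] (μ : Module.Basis S A 𝒜), FM μ →
  Mo μ N (algebraMap A[X] 𝒜 X) → ∃ η : Module.Basis (Fin N) A[X] 𝒜, (∀ j, η j = μ (a j)) ∧
    Ap μ (fun j => (a j : ℕ)) η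

theorem ApbS.get (h : ApbS) {A 𝒜 : Type} [CommRing A] [CommRing 𝒜] [Algebra A 𝒜] [Algebra A[X] 𝒜]
    [IsScalarTower A A[X] 𝒜] {S : AddSubmonoid ℕ} {μ : Module.Basis S A 𝒜} {N : ℕ} [NeZero N]
    (hμ : FM μ) (hx : Mo μ N (algebraMap A[X] 𝒜 X)) :
    ∃ (d : Fin N → ℕ) (η : Module.Basis (Fin N) A[X] 𝒜), Ap μ d η :=
  let ⟨_, _, k⟩ := h S N hμ.cof
  let ⟨η, _, e⟩ := k A 𝒜 μ hμ hx
  ⟨_, η, e⟩

/-- determinants with weights -/
def WdS : Prop := ∀ (R : Type) [CommRing R] [Nontrivial R] (n N m : ℕ) (D : Fin n → ℕ)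
  (M : Matrix (Fin n) (Fin n) R[X]), 0 < N →
  (∀ l j k, N * m + D j ≤ N * k + D l → (M l j).coeff k = if l = j ∧ k = m then 1 else 0) →
  M.det.IsMonicOfDegree (n * m)

/-- the trace form of a domain -/
def SepS : Prop := ∀ (R 𝒜 : Type) [CommRing R] [IsDomain R] [CharZero R] [CommRing 𝒜] [IsDomain 𝒜]
  [Algebra R 𝒜] (n : ℕ) (y : Module.Basis (Fin n) R 𝒜),
  disc (fun i => Algebra.leftMulMatrix y (y i)) ≠ 0

/-- no real points -/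
def NreS : Prop := ∀ (𝒜 : Type) [CommRing 𝒜] [Algebra ℤ[X] 𝒜] (n : ℕ) [NeZero n] (T : Tb n)
  (y : Module.Basis (Fin n) ℤ[X] 𝒜), y 0 = 1 → (∀ i, T.M i = Algebra.leftMulMatrix y (y i)) →
  (∃ ι : 𝒜, ι ^ 2 = -1) → ∀ (t : ℝ) (s : Fin n → ℝ), ¬Hm (T.fib t) s

/-- a totally ramified fibre has no zero divisors -/
def NwS : Prop := ∀ (A K 𝒜 : Type) [CommRing A] [Field K] [Algebra A K] [CommRing 𝒜] [Algebra A 𝒜]
  [Algebra A[X] 𝒜] [IsScalarTower A A[X] 𝒜] (S : AddSubmonoid ℕ) (μ : Module.Basis S A 𝒜) (N : ℕ)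
  [NeZero N] (d : Fin N → ℕ) (η : Module.Basis (Fin N) A[X] 𝒜)
  (v : Valuation K (WithZero (Multiplicative ℤ))) (t : K) (c : ℕ), FM μ → Ap μ d η →
  Function.Injective (algebraMap A K) → (∀ a : A, v (algebraMap A K a) ≤ 1) →
  v t = WithZero.exp (c : ℤ) → 0 < c → c.Coprime N → ∀ b b' : Fin N → A, b ≠ 0 → b' ≠ 0 →
  ∃ l, aeval t (η.repr ((∑ j, b j • η j) * ∑ j, b' j • η j) l) ≠ 0

/-- a prime over two -/
def VlS : Prop := ∀ (K : Type) [Field K] [NumberField K],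
  ∃ (v : Valuation K (WithZero (Multiplicative ℤ))) (e : ℕ), 0 < e ∧ e ≤ Module.finrank ℚ K ∧
    (∀ a : 𝓞 K, v (algebraMap (𝓞 K) K a) ≤ 1) ∧ ∀ (a : ℤ) (k : ℕ), Odd a → 0 < k →
      v ((a : K) / (k : K) ^ 2) = WithZero.exp ((2 * e * k.factorization 2 : ℕ) : ℤ)

/-- an integral basis which starts with one -/
def OmS : Prop := ∀ (K : Type) [Field K] [NumberField K],
  (∃ (s : ℕ) (ω : Module.Basis (Fin (s + 1)) ℤ (𝓞 K)), ω 0 = 1 ∧ s + 1 = Module.finrank ℚ K) ∧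
  ((∃ i : K, i ^ 2 = -1) → Even (Module.finrank ℚ K) ∧ ∃ i : 𝓞 K, i ^ 2 = -1)

/-- the basis over the integer polynomials -/
def TyS : Prop := ∀ (A 𝒜 : Type) [CommRing A] [CommRing 𝒜] [Algebra A 𝒜] [Algebra A[X] 𝒜]
  [IsScalarTower A A[X] 𝒜] [Algebra ℤ[X] 𝒜] (s N n : ℕ) (ω : Module.Basis (Fin s) ℤ A)
  (η : Module.Basis (Fin N) A[X] 𝒜) (ε : Fin n ≃ Fin s × Fin N),
  algebraMap ℤ[X] 𝒜 X = algebraMap A[X] 𝒜 X →
  ∃ y : Module.Basis (Fin n) ℤ[X] 𝒜, (∀ i, y i = ω (ε i).1 • η (ε i).2) ∧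
    (∀ g i k, (y.repr g i).coeff k = ω.repr ((η.repr g (ε i).2).coeff k) (ε i).1) ∧
    ∀ g j, η.repr g j = ∑ a, C (ω a) * (y.repr g (ε.symm (a, j))).map (Int.castRingHom A)

/-- the table of a basis with pole orders `D` -/
def TokS : Prop := ∀ (A 𝒜 : Type) [CommRing A] [IsDomain A] [CommRing 𝒜] [Algebra A 𝒜]
  [Algebra ℤ[X] 𝒜] (S : AddSubmonoid ℕ) (μ : Module.Basis S A 𝒜) (N n : ℕ) [NeZero n]
  (y : Module.Basis (Fin n) ℤ[X] 𝒜) (D : Fin n → ℕ), FM μ → 0 < N →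
  Mo μ N (algebraMap ℤ[X] 𝒜 X) → y 0 = 1 → D 0 = 0 →
  (∀ E g, Lo μ ⊥ E g ↔ ∀ i k, E ≤ N * k + D i → (y.repr g i).coeff k = 0) →
  ∃ T : Tb n, (∀ i, T.M i = Algebra.leftMulMatrix y (y i)) ∧ T.Ok ∧
    ∀ m g, Mo μ (N * m) g ↔ T.Mon m (y.repr g)

/-- the fibre is a field -/
def TflS : Prop := ∀ (𝒜 R : Type) [CommRing 𝒜] [Algebra ℤ[X] 𝒜] [Field R] [CharZero R] (n : ℕ)
  [NeZero n] (T : Tb n) (y : Module.Basis (Fin n) ℤ[X] 𝒜) (a b : ℤ) (t : R), T.Ok →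
  (∀ i, T.M i = Algebra.leftMulMatrix y (y i)) → b ≠ 0 → (a : R) = b * t →
  (∀ β γ : Fin n → ℤ, β ≠ 0 → γ ≠ 0 →
    ∃ l, aeval t (y.repr ((∑ i, β i • y i) * ∑ i, γ i • y i) l) ≠ 0) → T.Fld a b

/-! ### functions with one pole -/

/-- regular away from `O'` -/
def Ro {F : Type} [Field F] (O' : Subring F) (z : F) : Prop := ∀ P, Pl P → P ≠ O' → z ∈ P

/-- the degree of the divisor of poles -/
def PoleS : Prop := ∀ (F : Type) [Field F] [CharZero F] (t : F), FG F → Transcendental ℤ t →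
  ∃ Z : Finset (Subring F), (∀ P, P ∈ Z ↔ Pl P ∧ t ∉ P) ∧
    ∑ P ∈ Z, -ordR P t * (dgK ℚ P : ℤ) = Module.finrank ℚ⟮t⟯ F

/-- the number of conditions which remove a pole -/
def DimS : Prop := ∀ (k F : Type) [Field k] [Field F] [Algebra k F] (P : Subring F) (π : F) (a : ℕ)
  (V : Submodule k F), Nb k F → Pl P → ordR P π = 1 → FiniteDimensional k V →
  (∀ z ∈ V, π ^ a * z ∈ P) → ∃ W : Submodule k F, W ≤ V ∧ (∀ z ∈ W, z ∈ P) ∧
    Module.finrank k V ≤ Module.finrank k W + a * dgK k P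

/-- a function with exactly one pole -/
def RieS : Prop := ∀ (K F : Type) [Field K] [NumberField K] [Field F] [CharZero F] [Algebra K F]
  (O' : Subring F), FG F → Cl K F → Pl O' → ∃ f : F, Ro O' f ∧ f ∉ O'

/-- clearing poles -/
def ClrS : Prop := ∀ (K F : Type) [Field K] [Field F] [CharZero F] [Algebra K F] (O' : Subring F)
  (q w : F), Fi F → Nb K F → Ro O' q → (∀ P, Pl P → P ≠ O' → Nu P q → w ∈ P) →
  ∃ p : ℤ[X], p.coeff 0 ≠ 0 ∧ Ro O' (aeval q p * w)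

/-- denominators and uniformisers -/
def FrS : Prop := ∀ (K F : Type) [Field K] [Field F] [CharZero F] [Algebra K F] (O' : Subring F)
  (f : F), Fi F → Nb K F → Pl O' → Ro O' f → f ∉ O' →
  (∀ z : F, ∃ b, b ≠ 0 ∧ Ro O' b ∧ Ro O' (z * b)) ∧
  ∀ O, Pl O → O ≠ O' → ∃ π, Ro O' π ∧ ordR O π = 1

/-- `L d g c`: the degree of `g` is at most `d` and `c` is the coefficient in degree `d` -/
structure Ld {K R : Type} [Field K] [CommRing R] [Algebra K R] (L : ℕ → R → K → Prop) : Prop where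
  add : ∀ d g g' c c', L d g c → L d g' c' → L d (g + g') (c + c')
  smul : ∀ d g c a, L d g c → L d (a • g) (a * c)
  mul : ∀ d d' g g' c c', L d g c → L d' g' c' → L (d + d') (g * g') (c * c')
  up : ∀ d g c, L d g c → L (d + 1) g 0
  down : ∀ d g, L (d + 1) g 0 → ∃ c, L d g c
  uniq : ∀ d g c c', L d g c → L d g c' → c = c'
  base : ∀ g, L 0 g 0 → g = 0
  ex : ∀ g, ∃ d c, L d g c
  one : L 0 1 1
  cof : ∃ d g g', L d g 1 ∧ L (d + 1) g' 1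

def BaA : Prop := ∀ (K R : Type) [Field K] [CommRing R] [Algebra K R] (L : ℕ → R → K → Prop),
  Ld L → ∃ (S : AddSubmonoid ℕ) (μ : Module.Basis S K R), FM μ ∧ (∀ d g, Mo μ d g → L d g 1) ∧
    ∀ g, g ≠ 0 → ∃ (d : ℕ) (c : K), c ≠ 0 ∧ Mo μ d (c • g)

def BaB : Prop := ∀ (K F : Type) [Field K] [Field F] [CharZero F] [Algebra K F] (O' : Subring F),
  Fi F → Nb K F → Cl K F → Rat K O' → (∀ z : F, ∃ b, b ≠ 0 ∧ Ro O' b ∧ Ro O' (z * b)) →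
  ∃ (R : Subalgebra K F) (L : ℕ → R → K → Prop), (∀ z, z ∈ R ↔ Ro O' z) ∧ Ld L ∧
    ∀ d (g : R), L d g 1 → (g : F) ≠ 0 ∧ ordR O' (g : F) = -(d : ℤ)

/-- bounded denominators -/
def FcS : Prop := ∀ (K R : Type) [Field K] [NumberField K] [CommRing R] [Algebra K R]
  (S : AddSubmonoid ℕ) (μ : Module.Basis S K R) (N : S) (x : R), FM μ → 0 < (N : ℕ) → Mo μ N x →
  ∃ (ν : Module.Basis S K R) (D : ℕ), FM ν ∧ ν N = x ∧ D ≠ 0 ∧
    ∀ e e' e'' : S, IsIntegral ℤ ((D : K) * ν.repr (ν e * ν e') e'')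

/-- the integral model -/
def SclS : Prop := ∀ (K F : Type) [Field K] [NumberField K] [Field F] [Algebra K F]
  (R : Subalgebra K F) (S : AddSubmonoid ℕ) (ν : Module.Basis S K R) (D : ℕ), FM ν → D ≠ 0 →
  (∀ e e' e'' : S, IsIntegral ℤ ((D : K) * ν.repr (ν e * ν e') e'')) →
  ∃ (𝒜 : Subalgebra (𝓞 K) F) (μ : Module.Basis S (𝓞 K) 𝒜), FM μ ∧
    (∀ e : S, (μ e : F) = (D : F) ^ (e : ℕ) * (ν e : F)) ∧ (∀ z ∈ 𝒜, z ∈ R) ∧
    ∀ z ∈ R, ∃ n : ℕ, n ≠ 0 ∧ (n : F) * z ∈ 𝒜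

/-- a rational place after an extension of the constants -/
def RatX : Prop := ∀ (F : Type) [Field F] [CharZero F], FG F →
  ∃ (K F' : Type) (_ : Field K) (_ : NumberField K) (_ : Field F') (_ : CharZero F')
    (_ : Algebra K F') (_ : F →+* F') (O' : Subring F'), FG F' ∧ Cl K F' ∧ Rat K O'

def OfChg : Prop := FmS → ChgS
def OfApb : Prop := FmS → ChgS → ApbS
def OfApe : Prop := FmS → ApbS → WdS → ApeT ∧ ApeS
def OfNw : Prop := FmS → NwS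
def OfTok : Prop := FmS → WdS → SepS → TokS
def OfTfl : Prop := TbS → TflS
def OfTab : Prop := ApbS → TyS → OmS → TokS → TflS → NwS → VlS → NreS → TabS
def OfPole : Prop := FfS → FinS → EfS → P0S → PoleS
def OfRie : Prop := FfS → FinS → NbS → PoleS → DimS → RieS
def OfFr : Prop := ApS → ClrS → FrS
def OfFc : Prop := ApbS → FcS
def OfFmX : Prop := FmS → FinS → NbS → RieS → FrS → BaA → BaB → FcS → SclS → FmX
def OfRat : Prop := FfS → FinS → NbS → BcS → GP.SplS → RatX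
def OfModP : Prop := FmS → FinS → NbS → RatX → RieS → FrS → BaA → BaB → FcS → SclS → ModP

end Pool.Agent.MP_f3836a_nt.GV.M
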