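import Pool.Agent.MP_f3836a_nt.GV.Defs

/-! Block P: supply of totally split fibres. Definitions and statements. -/

set_option autoImplicit false

namespace Pool.Agent.MP_f3836a_nt.GV.P

open Polynomial Finset Filter Topology NumberField

/-! ### plane curves with one point at infinity

`A[X][X]`: the inner variable `C X` has weight `N`, the outer variable `X` has weight `m`. -/

section
variable {A : Type} [CommRing A]

/-- all monomials have weight less than `d` -/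
def Wt (N m d : ℕ) (f : A[X][X]) : Prop := ∀ i j, d ≤ j * N + i * m → (f.coeff i).coeff j = 0

/-- `Y ^ N - X ^ m` plus terms of lower weight -/
def Cab (N m : ℕ) (χ : A[X][X]) : Prop := Wt N m (N * m) (χ - X ^ N + C (X ^ m))

/-- the substitution `X = t ^ N`, `Y = t ^ m` -/
noncomputable def Tm (N m : ℕ) : A[X][X] →+* A[X] := eval₂RingHom (expand A N).toRingHom (X ^ m)

/-- weight exactly `d`, also modulo the curve -/
def Top (N m d : ℕ) (f : A[X][X]) : Prop := Wt N m (d + 1) f ∧ (Tm N m f).coeff d ≠ 0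

end

/-- a plane model of a curve with one point at infinity -/
def CabX : Prop := ∀ (A 𝒜 : Type) [CommRing A] [IsDomain A] [CommRing 𝒜] [Algebra A 𝒜]
  (S : AddSubmonoid ℕ) (μ : Module.Basis S A 𝒜), FM μ →
  ∃ (N m : ℕ) (χ : A[X][X]) (e : A[X][X] →+* 𝒜), 0 < N ∧ 0 < m ∧ N.Coprime m ∧ Cab N m χ ∧
    e χ = 0 ∧ (∀ f, f.natDegree < N → e f = 0 → f = 0) ∧ ∀ a, ∃ f g, e g ≠ 0 ∧ a * e g = e f

/-- generators over the polynomial ring in one monic element -/
def ApX : Prop := ∀ (A 𝒜 : Type) [CommRing A] [CommRing 𝒜] [Algebra A 𝒜]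
  (S : AddSubmonoid ℕ) (μ : Module.Basis S A 𝒜), FM μ → ∀ N : S, 0 < (N : ℕ) →
  ∃ η : Fin N → 𝒜, ∀ a, ∃ g : Fin N → A[X], a = ∑ i, aeval (μ N) (g i) * η i

/-- the degree of a reduced polynomial in two monic elements is its weight -/
def LtX : Prop := ∀ (A 𝒜 : Type) [CommRing A] [CommRing 𝒜] [Algebra A 𝒜]
  (S : AddSubmonoid ℕ) (μ : Module.Basis S A 𝒜), FM μ → ∀ N m : S, 0 < (N : ℕ) → 0 < (m : ℕ) →
  (N : ℕ).Coprime m →
  (∀ s : S, (N : ℕ) * m ≤ s → μ.repr (μ N ^ (m : ℕ) - μ m ^ (N : ℕ)) s = 0) ∧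
  ∀ (f : A[X][X]) (d : ℕ), f.natDegree < N →
    (∀ s : S, d ≤ s → μ.repr (aevalAeval (μ N) (μ m) f) s = 0) → Wt N m d f

/-- the quotient by the curve and a function of weight `d` is small -/
def QuoX : Prop := ∀ (F : Type) [Field F] (N m d : ℕ) (χ Φ : F[X][X]), 0 < N → 0 < m →
  N.Coprime m → Cab N m χ → Top N m d Φ → ∃ V : Submodule F F[X][X], FiniteDimensional F V ∧
    Module.finrank F V ≤ d + N * m ∧ ∀ f, ∃ g ∈ V, ∃ u v, f = g + u * χ + v * Φ

/-- zeros with multiplicity -/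
def MzX : Prop := ∀ (F P ι : Type) [Field F] [CommRing P] [Algebra F P] (D : Derivation F P P)
  (ξ χ Φ : P) (V : Submodule F P) (Z : Finset ι) (φ : ι → P →ₐ[F] F) (M : ℕ),
  FiniteDimensional F V → D χ = 0 → (∀ f, ∃ g ∈ V, ∃ u v, f = g + u * χ + v * Φ) →
  Set.InjOn φ Z → (∀ z ∈ Z, φ z χ = 0 ∧ ∀ k < M,
    (k.factorial : F) * φ z (D ξ) ^ k ≠ 0 ∧ φ z (D^[k] Φ) = 0) →
  M * Z.card ≤ Module.finrank F V

/-- the number of zeros of a reduced polynomial on the curve -/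
def ZerX : Prop := ∀ (F : Type) [Field F] (N m d : ℕ) (χ b : F[X][X]) (Z : Finset (F × F)),
  0 < N → 0 < m → N.Coprime m → Cab N m χ → b ≠ 0 → b.natDegree < N → Wt N m d b →
  (∀ z ∈ Z, χ.evalEval z.1 z.2 = 0 ∧ b.evalEval z.1 z.2 = 0) → Z.card ≤ d + N * m

/-- the derivation along the curve -/
def DerX : Prop := ∀ (F : Type) [Field F] (N m : ℕ) (χ : F[X][X]), Wt N m (N * m + 1) χ →
  ∃ D : Derivation F F[X][X] F[X][X], D χ = 0 ∧ D (C X) = derivative χ ∧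
    ∀ d f, Wt N m d f → Wt N m (d + N * m) (D f)

/-- the auxiliary polynomial of Stepanov -/
def AuxX : Prop := ∀ N m : ℕ, 0 < N → 0 < m → N.Coprime m → ∃ p0 : ℕ, ∀ (F : Type) [Field F]
  (p : ℕ) [CharP F p] (χ : F[X][X]) (D : Derivation F F[X][X] F[X][X]), p.Prime → p0 ≤ p →
  Cab N m χ → (∀ d f, Wt N m d f → Wt N m (d + N * m) (D f)) →
  ∃ (Φ : F[X][X]) (d : ℕ), Top N m d Φ ∧ d ≤ p * ((N - 1) * (4 * N * m) + N * m) ∧
    ∀ x y : F, χ.evalEval x y = 0 → x ^ p = x → χ.evalEval x (y ^ p) = 0 → y ^ p ≠ y →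
      ∀ k < 4 * N * m, (D^[k] Φ).evalEval x y = 0

/-- many rational points -/
def StepX : Prop := ∀ N m : ℕ, 0 < N → 0 < m → N.Coprime m → ∃ p0 : ℕ, ∀ p : ℕ, p.Prime → p0 ≤ p →
  ∀ χ : (ZMod p)[X][X], Cab N m χ →
  ∃ Z : Finset (ZMod p × ZMod p), p ≤ 2 * Z.card ∧ ∀ z ∈ Z, χ.evalEval z.1 z.2 = 0

/-! ### split fibres -/

/-- the table has `n` independent homomorphisms -/
def Spl {R : Type} [CommRing R] {n : ℕ} [NeZero n] (M : Tab R n) : Prop :=
  ∃ s : Fin n → Fin n → R, (∀ σ, Hm M (s σ)) ∧ (Matrix.of s).det ≠ 0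

/-- a separable table over an algebraically closed field splits -/
def SplitX : Prop := ∀ (E : Type) [Field E] [IsAlgClosed E] (n : ℕ) [NeZero n] (M : Tab E n),
  Rng M → disc M ≠ 0 → Spl M

/-- a function field over which the generic fibre splits -/
def FldX : Prop := ∀ (n : ℕ) [NeZero n] (T : Tb n), Rng T.M → disc T.M ≠ 0 →
  ∃ (F : Type) (_ : Field F) (_ : Algebra ℚ F) (x : F), Transcendental ℚ x ∧
    FiniteDimensional (IntermediateField.adjoin ℚ {x}) F ∧ Spl (T.fib x)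

/-- clearing denominators and specialising -/
def ClrX : Prop := ∀ (n : ℕ) [NeZero n] (T : Tb n) (t1 : ℤ) (R Ω : Type) [CommRing R] [Field Ω]
  (e : R →+* Ω) (x : Ω) (s : Fin n → Fin n → Ω), (∃ a b, e b ≠ 0 ∧ x * e b = e a) →
  (∀ σ i, ∃ a b, e b ≠ 0 ∧ s σ i * e b = e a) → (∀ σ, Hm (T.fib x) (s σ)) →
  (Matrix.of s).det ≠ 0 → x ≠ t1 →
  ∃ u w b : R, e w ≠ 0 ∧ e b ≠ 0 ∧ x * e w = e u ∧ ∀ (k : Type) [Field k] (φ : R →+* k),
    (∀ f, e f = 0 → φ f = 0) → φ b ≠ 0 → ∀ τ : k, φ u = τ * φ w → τ ≠ t1 ∧ Spl (T.fib τ)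

/-- many values of a nonconstant function modulo `p` -/
def CntX : Prop := ∀ (K : Type) [Field K] [NumberField K] (N m : ℕ) (χ u w b : (𝓞 K)[X][X]),
  0 < N → 0 < m → N.Coprime m → Cab N m χ → u.natDegree < N → w.natDegree < N →
  b.natDegree < N → w ≠ 0 → b ≠ 0 → (∀ α β : 𝓞 K, α ≠ 0 → C (C α) * u ≠ C (C β) * w) →
  ∃ c0 p0 : ℕ, ∀ p : ℕ, p.Prime → p0 ≤ p → Nonempty (𝓞 K →+* ZMod p) →
    ∃ G : Finset (ZMod p), p ≤ c0 * G.card ∧ ∀ τ ∈ G, ∃ φ : (𝓞 K)[X][X] →+* ZMod p,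
      φ χ = 0 ∧ φ b ≠ 0 ∧ φ u = τ * φ w

/-! ### the first theorem of Mertens in a number field -/

/-- `∑ ρ p * log p / p = log y + o(log y)` -/
def Mer (ρ : ℕ → ℕ) : Prop := ∀ δ : ℝ, 0 < δ → ∃ Y1 : ℝ, ∀ y : ℝ, Y1 ≤ y →
  |∑ p ∈ (range ⌈y⌉₊).filter Nat.Prime, (ρ p : ℝ) * Real.log p / p - Real.log y| ≤ δ * Real.log y

/-- counting function `A` of the ideals, sum `L` of the logarithms of their norms -/
structure MerH (A L : ℝ → ℝ) (ρ : ℕ → ℕ) (d : ℕ) (κ C : ℝ) : Prop where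
  pos : 0 < κ
  le : ∀ p, p.Prime → ρ p ≤ d
  lim : Tendsto (fun y => A y / y) atTop (𝓝 κ)
  mono : Monotone A
  nn : ∀ y, 0 ≤ A y
  lo : ∀ x y, 1 ≤ y → y ≤ x → (A x - A y) * Real.log y ≤ L x
  up : ∀ x, 1 ≤ x → L x ≤ A x * Real.log x
  conv : ∀ x, 1 ≤ x → |L x - ∑ p ∈ (range (⌊x⌋₊ + 1)).filter Nat.Prime,
    (ρ p : ℝ) * Real.log p * A (x / p)| ≤ C * x

/-- the analytic part -/
def MerA : Prop := ∀ (A L : ℝ → ℝ) (ρ : ℕ → ℕ) (d : ℕ) (κ C : ℝ), MerH A L ρ d κ C → Mer ρ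

/-- two convergent sums over ideals -/
def MerC : Prop := ∀ (K : Type) [Field K] [NumberField K], ∃ C : ℝ,
  (∀ S : Finset (Ideal (𝓞 K)), (∀ B ∈ S, B ≠ ⊥) →
    ∑ B ∈ S, Real.log (Ideal.absNorm B) / (Ideal.absNorm B : ℝ) ^ 2 ≤ C) ∧
  ∀ S : Finset (Ideal (𝓞 K)), (∀ P ∈ S, P.IsMaximal ∧ ¬(Ideal.absNorm P).Prime) →
    ∑ P ∈ S, Real.log (Ideal.absNorm P) / (Ideal.absNorm P : ℝ) ≤ C

/-- the arithmetic part -/
def MerB : Prop := ∀ (K : Type) [Field K] [NumberField K],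
  ∃ (A L : ℝ → ℝ) (ρ : ℕ → ℕ) (d : ℕ) (κ C : ℝ), MerH A L ρ d κ C ∧
    ∀ p, p.Prime → ρ p ≠ 0 → Nonempty (𝓞 K →+* ZMod p)

/-- labels and weights -/
def FinX : Prop := ∀ (n r : ℕ) [NeZero n] (T : Tb n) (t1 : ℤ) (ρ : ℕ → ℕ) (d c0 p0 : ℕ),
  n = 2 * r → (∀ p, p.Prime → ρ p ≤ d) → Mer ρ →
  (∀ p : ℕ, p.Prime → p0 ≤ p → ρ p ≠ 0 → ∃ G : Finset (ZMod p), p ≤ c0 * G.card ∧
    ∀ τ ∈ G, τ ≠ (t1 : ZMod p) ∧ Spl (T.fib τ)) →
  ∃ P : Ps n, P.Alg T t1 ∧ P.Win

/-! ### small facts on weights -/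

section
variable {A : Type} [CommRing A] {N m d e : ℕ} {f g χ : A[X][X]}

theorem Wt.mono (h : Wt N m d f) (hd : d ≤ e) : Wt N m e f := fun i j hij => h i j (hd.trans hij)

theorem Wt.zero : Wt N m d (0 : A[X][X]) := fun _ _ _ => by simp

theorem Wt.add (h : Wt N m d f) (h' : Wt N m d g) : Wt N m d (f + g) := fun i j hij => by
  simp [h i j hij, h' i j hij]

theorem Wt.neg (h : Wt N m d f) : Wt N m d (-f) := fun i j hij => by simp [h i j hij]

theorem Wt.sub (h : Wt N m d f) (h' : Wt N m d g) : Wt N m d (f - g) := fun i j hij => by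
  simp [h i j hij, h' i j hij]

theorem Wt.smul (h : Wt N m d f) (c : A) : Wt N m d (c • f) := fun i j hij => by
  simp [h i j hij]

theorem Wt.sum {ι : Type} {s : Finset ι} {f : ι → A[X][X]} (h : ∀ i ∈ s, Wt N m d (f i)) :
    Wt N m d (∑ i ∈ s, f i) := fun i j hij => by
  simp only [finsetSum_coeff]
  exact sum_eq_zero fun k hk => h k hk i j hij

theorem Wt.eq_zero (h : Wt N m 0 f) : f = 0 := by
  ext i j
  simpa using h i j (Nat.zero_le _)

theorem Wt.mul (h : Wt N m (d + 1) f) (h' : Wt N m e g) : Wt N m (d + e) (f * g) := by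
  intro i j hij
  simp only [coeff_mul, finsetSum_coeff]
  refine sum_eq_zero fun a ha => sum_eq_zero fun b hb => ?_
  rw [HasAntidiagonal.mem_antidiagonal] at ha hb
  rw [← ha, ← hb, add_mul, add_mul] at hij
  by_cases c : d + 1 ≤ b.1 * N + a.1 * m
  · rw [h _ _ c, zero_mul]
  · rw [h' a.2 b.2 (by omega), mul_zero]

theorem Wt.mon (i j : ℕ) (c : A) : Wt N m (j * N + i * m + 1) (monomial i (monomial j c)) := by
  intro i' j' h
  simp only [coeff_monomial]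
  split_ifs with h1
  · rw [coeff_monomial, if_neg]
    rintro rfl
    subst h1
    omega
  · simp

theorem Wt.map {B : Type} [CommRing B] (h : Wt N m d f) (φ : A →+* B) :
    Wt N m d (f.map (mapRingHom φ)) := fun i j hij => by simp [h i j hij]

theorem Wt.deriv (h : Wt N m d f) : Wt N m d (derivative f) := fun i j hij => by
  rw [coeff_derivative, ← Nat.cast_succ, coeff_mul_natCast, h (i + 1) j (by nlinarith), zero_mul]

theorem Wt.divX (h : Wt N m d f) : Wt N m d f.divX := fun i j hij => by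
  rw [coeff_divX, h (i + 1) j (by nlinarith)]

theorem exists_wt (N m : ℕ) (f : A[X][X]) : ∃ d, Wt N m d f := by
  induction f using Polynomial.induction_on' with
  | add f g hf hg =>
    obtain ⟨d, hd⟩ := hf
    obtain ⟨e, he⟩ := hg
    exact ⟨d + e, (hd.mono (by omega)).add (he.mono (by omega))⟩
  | monomial i a =>
    induction a using Polynomial.induction_on' with
    | add f g hf hg =>
      obtain ⟨d, hd⟩ := hf
      obtain ⟨e, he⟩ := hg
      exact ⟨d + e, by rw [map_add]; exact (hd.mono (by omega)).add (he.mono (by omega))⟩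
    | monomial j c => exact ⟨_, Wt.mon i j c⟩

theorem Wt.degree_lt (h : Wt N m (N * m) f) : f.degree < N := by
  refine (degree_lt_iff_coeff_zero _ _).2 fun i hi => ?_
  ext j
  simpa using h i j (by nlinarith)

theorem Cab.map {B : Type} [CommRing B] (h : Cab N m χ) (φ : A →+* B) :
    Cab N m (χ.map (mapRingHom φ)) := by
  simpa [Cab] using Wt.map h φ

theorem Cab.wt (h : Cab N m χ) : Wt N m (N * m + 1) χ := by
  have h1 := Wt.mon (N := N) (m := m) N 0 (1 : A)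
  have h2 := Wt.mon (N := N) (m := m) 0 m (1 : A)
  simp only [monomial_zero_left, C_1, zero_mul, zero_add, add_zero, mul_comm m N] at h1 h2
  simp only [monomial_one_right_eq_X_pow] at h1 h2
  convert ((Wt.mono h (Nat.le_succ _)).add h1).sub h2 using 1
  ring

theorem Cab.monic [Nontrivial A] (h : Cab N m χ) (hN : 0 < N) : χ.Monic ∧ χ.natDegree = N := by
  have h1 : (χ - X ^ N + C (X ^ m) - C (X ^ m)).degree < (X ^ N : A[X][X]).degree := by
    rw [degree_X_pow]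
    exact (degree_sub_le _ _).trans_lt (max_lt (Wt.degree_lt h)
      (degree_C_le.trans_lt (by exact_mod_cast hN)))
  have e : χ = X ^ N + (χ - X ^ N + C (X ^ m) - C (X ^ m)) := by ring
  rw [e]
  exact ⟨(monic_X_pow N).add_of_left h1, by
    rw [natDegree_add_eq_left_of_degree_lt h1, natDegree_X_pow]⟩

theorem Tm_mon (N m i j : ℕ) (c : A) :
    Tm N m (monomial i (monomial j c)) = monomial (j * N + i * m) c := by
  simp [Tm, expand_monomial, X_pow_eq_monomial, mul_comm m i, monomial_mul_monomial]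

end

/-- reduced polynomials of bounded weight -/
def Vr (F : Type) [Field F] (N m e : ℕ) : Submodule F F[X][X] where
  carrier := {g | g.degree < N ∧ Wt N m e g}
  add_mem' h h' := ⟨(degree_add_le _ _).trans_lt (max_lt h.1 h'.1), h.2.add h'.2⟩
  zero_mem' := ⟨by simp, Wt.zero⟩
  smul_mem' c _ h := ⟨(degree_smul_le _ _).trans_lt h.1, h.2.smul c⟩

/-- weights and the substitution -/
def KitA : Prop := ∀ (F : Type) [Field F] (N m : ℕ), 0 < N → 0 < m → N.Coprime m →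
  (∀ (d : ℕ) (f : F[X][X]), Wt N m d f → (Tm N m f).degree < d) ∧
  (∀ (d : ℕ) (g : F[X][X]), g.degree < N → Wt N m (d + 1) g → (Tm N m g).coeff d = 0 →
    Wt N m d g) ∧
  ∀ e, FiniteDimensional F (Vr F N m e) ∧ Module.finrank F (Vr F N m e) ≤ e

/-- reduction modulo the curve keeps the weight and the top coefficient -/
def KitB : Prop := ∀ (F : Type) [Field F] (N m d : ℕ) (χ f : F[X][X]), 0 < N → 0 < m →
  N.Coprime m → Cab N m χ → Wt N m (d + 1) f →
  Wt N m (d + 1) (f %ₘ χ) ∧ (Tm N m (f %ₘ χ)).coeff d = (Tm N m f).coeff d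

end Pool.Agent.MP_f3836a_nt.GV.P
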