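import Pool.Agent.MP_f3836a_nt.GV.Defs

/-! Branches and archimedean rigidity: the statements of the steps. -/

set_option autoImplicit false

namespace Pool.Agent.MP_f3836a_nt.GV.R

open Polynomial Finset VE Filter Topology
open scoped ComplexConjugate Matrix

/-! ### branches -/

/-- a table with nonzero discriminant has a basis of homomorphisms -/
def SHoms : Prop := ∀ (n : ℕ) [NeZero n] (M : Tab ℂ n), Rng M → disc M ≠ 0 →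
  ∃ P : Fin n → Fin n → ℂ, (∀ k, Hm M (P k)) ∧
    (∀ β : Fin n → ℂ, (∀ k, ∑ i, β i * P k i = 0) → β = 0) ∧ ∀ s, Hm M s → ∃ k, s = P k

/-- a simple normalised eigenvector moves analytically -/
def SBrn : Prop := ∀ (n : ℕ) (Θ : Matrix (Fin n) (Fin n) ℂ[X]) (c s0 : Fin n → ℂ) (t0 : ℝ),
  s0 ᵥ* Θ.map (eval (t0 : ℂ)) = (∑ i, c i * s0 i) • s0 →
  (∀ v : Fin n → ℂ, v ᵥ* Θ.map (eval (t0 : ℂ)) = (∑ i, c i * v i) • s0 + (∑ i, c i * s0 i) • v →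
    v = 0) →
  ∃ Y : ℝ → Fin n → ℂ, Y t0 = s0 ∧ AnalyticAt ℝ Y t0 ∧
    ∀ᶠ t : ℝ in 𝓝 t0, Y t ᵥ* Θ.map (eval (t : ℂ)) = (∑ i, c i * Y t i) • Y t

def SBr : Prop := SHoms → SBrn → BrX

/-! ### analytic functions on an interval -/

/-- continuous functions on an interval -/
abbrev CI (a b : ℝ) : Type := C(Set.Icc a b, ℝ)

/-- restrictions of analytic functions -/
def An (a b : ℝ) : Subalgebra ℝ (CI a b) where
  carrier := {g | ∃ G : ℝ → ℝ, AnalyticOnNhd ℝ G (Set.Icc a b) ∧ ∀ t : Set.Icc a b, g t = G t}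
  mul_mem' := fun ⟨G, h, e⟩ ⟨G', h', e'⟩ =>
    ⟨fun t => G t * G' t, h.mul h', fun t => by rw [ContinuousMap.mul_apply, e, e']⟩
  add_mem' := fun ⟨G, h, e⟩ ⟨G', h', e'⟩ =>
    ⟨fun t => G t + G' t, h.add h', fun t => by rw [ContinuousMap.add_apply, e, e']⟩
  algebraMap_mem' := fun c => ⟨fun _ => c, analyticOnNhd_const, fun _ => by simp⟩

/-- closed under inversion, and nonzero members have finitely many zeros -/
structure QA {a b : ℝ} (𝒜 : Subalgebra ℝ (CI a b)) : Prop where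
  inv : ∀ g ∈ 𝒜, (∀ t, g t ≠ 0) → ∃ g' ∈ 𝒜, g * g' = 1
  fin : ∀ g ∈ 𝒜, g ≠ 0 → {t | g t = 0}.Finite

def SAn : Prop := ∀ a b : ℝ, QA (An a b)

/-- analytic primitives of rational functions -/
def SPrim : Prop := ∀ (a b : ℝ) (P Q : ℝ[X]), (∀ t ∈ Set.Icc a b, Q.eval t ≠ 0) →
  ∃ G : ℝ → ℝ, AnalyticOnNhd ℝ G (Set.Icc a b) ∧
    ∀ t ∈ Set.Icc a b, HasDerivAt G (P.eval t / Q.eval t) t

/-- weights that are spread over the cells of length `1 / J` -/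
def Spr {a b : ℝ} {H : Type} [Fintype H] (σ : H → ℝ) (t : H → Set.Icc a b) (J : ℕ) (D : ℝ) : Prop :=
  (∀ h, 0 ≤ σ h) ∧ ∑ h, σ h = 1 ∧
    ∀ k : ℕ, ∑ h, σ h * ind (⌊(J : ℝ) * ((t h : ℝ) - a)⌋₊ = k) ≤ D / J

/-- quantitative uniqueness -/
def SQu : Prop := ∀ (a b : ℝ) (W : Type) [NormedAddCommGroup W] [NormedSpace ℝ W]
  [FiniteDimensional ℝ W] (ι : Type) [Fintype ι] (R : ι → W →ₗ[ℝ] CI a b),
  (∀ f, f ≠ 0 → ∃ j, {t | R j f t = 0}.Finite) → ∀ D : ℝ, ∃ (J0 : ℕ) (Λ : ℝ), 0 < Λ ∧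
    ∀ J, J0 ≤ J → ∀ (H : Type) [Fintype H] (σ : H → ℝ) (t : H → Set.Icc a b), Spr σ t J D →
      ∀ f, ‖f‖ ^ 2 ≤ Λ * ∑ h, σ h * ∑ j, R j f (t h) ^ 2

/-- a family of shapes that separates points and is rigid -/
structure Sep {a b : ℝ} (𝒜 : Subalgebra ℝ (CI a b)) {r : ℕ} (Q : Matrix (Fin r) (Fin r) ℝ)
    {V : Type} (l : V → Fin r → CI a b) (F : V → Submodule ℝ (CI a b)) : Prop where
  ml : ∀ v w, l v w ∈ 𝒜
  mF : ∀ v, ∀ g ∈ F v, g ∈ 𝒜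
  fd : ∀ v, FiniteDimensional ℝ (F v)
  inj : ∀ (t : Set.Icc a b) (c : Fin r → ℝ), (∀ v, ∑ w, c w * l v w t = 0) → c = 0
  rig : ∀ c : Fin r → CI a b, (∀ w, c w ∈ 𝒜) → (∀ t, (Q *ᵥ fun w => c w t) = 0) →
    (∀ v, ∑ w, c w * l v w ∈ F v) → c = 0

/-- finitely many shapes are enough -/
def SFin : Prop := ∀ (a b : ℝ) (𝒜 : Subalgebra ℝ (CI a b)) (r : ℕ) (Q : Matrix (Fin r) (Fin r) ℝ)
  (V : Type) (l : V → Fin r → CI a b) (F : V → Submodule ℝ (CI a b)), Sep 𝒜 Q l F →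
  ∃ (s : ℕ) (v : Fin s → V), Sep 𝒜 Q (fun k => l (v k)) fun k => F (v k)

/-- the quantitative form for finitely many shapes -/
def Abs : Prop := ∀ (a b : ℝ) (𝒜 : Subalgebra ℝ (CI a b)) (r s : ℕ) (Q : Matrix (Fin r) (Fin r) ℝ)
  (l : Fin s → Fin r → CI a b) (F : Fin s → Submodule ℝ (CI a b)), QA 𝒜 → Sep 𝒜 Q l F →
  ∀ D : ℝ, ∃ (J0 : ℕ) (Λ : ℝ), 0 < Λ ∧ ∀ J, J0 ≤ J →
    ∀ (H : Type) [Fintype H] (σ : H → ℝ) (t : H → Set.Icc a b) (c : H → Fin r → ℝ)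
      (f : Fin s → CI a b), Spr σ t J D → (∀ h, Q *ᵥ c h = 0) → (∀ k, f k ∈ F k) →
      ∑ h, σ h * ∑ w, c h w ^ 2 ≤
        Λ * ∑ k, ∑ h, σ h * (∑ w, c h w * l k w (t h) - f k (t h)) ^ 2

def SAbs : Prop := SQu → Abs

/-! ### rigidity -/

/-- independence of complex logarithms over polynomials -/
def LiC : Prop := ∀ (α : Type) [Fintype α] (ζ : α → ℂ) (p : α → ℂ[X]) (q : ℂ[X]),
  Function.Injective ζ → (∀ i, ζ i ≠ 0) →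
  (∀ᶠ e : ℝ in 𝓝 0, ∑ i, (p i).eval (e : ℂ) * Complex.log (1 + e * ζ i) = q.eval (e : ℂ)) →
  ∀ i, p i = 0

/-- the points and their conjugates are all different -/
def Dis {α : Type} (z : α → ℂ) : Prop := Function.Injective z ∧ ∀ i j, z i ≠ conj (z j)

/-- independence of real logarithms over polynomials -/
def Li : Prop := ∀ (α : Type) [Fintype α] (z : α → ℂ) (p : α → ℝ[X]) (q : ℝ[X]), Dis z →
  (∀ᶠ e : ℝ in 𝓝 0, ∑ i, (p i).eval e * Real.log ‖1 + e * z i‖ = q.eval e) → ∀ i, p i = 0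

def SLi : Prop := LiC → Li

/-- the relation along the shapes `1 + e z` -/
def Rel {r : ℕ} (a b : ℝ) (d : ℕ) (g : ℝ → ℝ) (c : Fin r → ℝ → ℝ) (z : Fin r → ℝ → ℂ) : Prop :=
  ∀ᶠ e : ℝ in 𝓝 0, ∃ P : ℝ[X], P.natDegree < d ∧ ∀ t ∈ Set.Icc a b,
    g t * (∏ w, ‖1 + e * z w t‖ ^ 2) *
      deriv (fun τ => ∑ w, c w τ * Real.log ‖1 + e * z w τ‖) t = P.eval t

/-- at points with different values the derivatives of the coefficients vanish -/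
def Rig0 : Prop := ∀ (r d : ℕ) (a b : ℝ) (g : ℝ → ℝ) (c : Fin r → ℝ → ℝ) (z : Fin r → ℝ → ℂ)
  (t : Fin (d + 1) → ℝ), (∀ j, t j ∈ Set.Icc a b ∧ g (t j) ≠ 0) →
  (∀ w j, DifferentiableAt ℝ (c w) (t j) ∧ DifferentiableAt ℝ (z w) (t j)) →
  Function.Injective t → Dis (fun x : Fin (d + 1) × Fin r => z x.2 (t x.1)) → Rel a b d g c z →
  ∀ w j, deriv (c w) (t j) = 0

def SRig0 : Prop := Li → Rig0

/-- the coefficients are constant -/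
def Rig1 : Prop := ∀ (r d : ℕ) (a b : ℝ) (g : ℝ → ℝ) (c : Fin r → ℝ → ℝ) (z : Fin r → ℝ → ℂ),
  a < b → (∀ t ∈ Set.Icc a b, g t ≠ 0) → (∀ w, AnalyticOnNhd ℝ (c w) (Set.Icc a b)) →
  (∀ w, AnalyticOnNhd ℝ (z w) (Set.Icc a b)) → Dis (fun w => z w a) →
  (∀ w, (deriv (z w) a).re ≠ 0) → Rel a b d g c z → ∀ w, ∀ t ∈ Set.Icc a b, c w t = c w a

def SRig1 : Prop := Rig0 → Rig1

/-- the first order term for constant coefficients -/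
def Rig2 : Prop := ∀ (r d : ℕ) (a b : ℝ) (g : ℝ → ℝ) (c : Fin r → ℝ) (z : Fin r → ℝ → ℂ),
  a < b → (∀ w, ∀ t ∈ Set.Icc a b, DifferentiableAt ℝ (z w) t) → Rel a b d g (fun w _ => c w) z →
  ∃ P : ℝ[X], ∀ t ∈ Set.Icc a b, g t * ∑ w, c w * (deriv (z w) t).re = P.eval t

/-- a rational trace forces constancy on classes -/
def Rig3 : Prop := ∀ (n r : ℕ) [NeZero n] (T : Tb n) (t1 : ℤ) (B : Br n r) (ι : Type)
  (cls : Fin r → ι) (c : Fin r → ℝ), n = 2 * r → T.Ok → B.Ok T t1 → B.Cst cls →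
  (∀ i, ∃ P : ℝ[X], ∀ t ∈ B.I, (t - t1) ^ n * ∑ w, c w * (B.Y w t i).re = P.eval t) →
  ∀ w w', cls w = cls w' → c w = c w'

open Classical in
/-- the matrix of class sums -/
noncomputable def Qm {r : ℕ} {ι : Type} (cls : Fin r → ι) : Matrix (Fin r) (Fin r) ℝ :=
  Matrix.of fun w w' => if cls w' = cls w then 1 else 0

/-- rigidity on the branches -/
def Rig : Prop := ∀ (n r : ℕ) [NeZero n] (T : Tb n) (t1 : ℤ) (B : Br n r) (ι : Type)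
  (cls : Fin r → ι) (m d : ℕ) (c : Fin r → ℝ → ℝ), n = 2 * r → T.Ok → B.Ok T t1 → B.Cst cls →
  (∀ i, T.e i + 3 ≤ m) → (∀ w, AnalyticOnNhd ℝ (c w) B.I) →
  (∀ t ∈ B.I, (Qm cls *ᵥ fun w => c w t) = 0) →
  (∀ x : Ix T.e m → ℝ, Rel B.t0 (B.t0 + B.ρ) d (fun t => (t - t1) ^ n) c (B.ev (vP x))) →
  ∀ w, ∀ t ∈ B.I, c w t = 0

def SRig : Prop := Rig1 → Rig2 → Rig3 → Rig

/-- admissible shapes -/
def Sh {n r : ℕ} (T : Tb n) (B : Br n r) (m : ℕ) (ε0 : ℝ) : Type :=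
  {v : Ix T.e m → ℝ // (∀ j, |v j - oneX j| ≤ ε0) ∧ ∀ w, ∀ t ∈ B.I, B.ev (vP v) w t ≠ 0}

/-- the data of the abstract statement on the branches -/
structure Dat {n r : ℕ} (T : Tb n) (B : Br n r) (t1 : ℤ) (m : ℕ) (ε0 : ℝ)
    (l : Sh T B m ε0 → Fin r → CI B.t0 (B.t0 + B.ρ))
    (F : Sh T B m ε0 → Submodule ℝ (CI B.t0 (B.t0 + B.ρ))) : Prop where
  val : ∀ v w t, l v w t = Real.log ‖B.ev (vP v.1) w t‖
  ml : ∀ v w, l v w ∈ An _ _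
  mF : ∀ v, ∀ g ∈ F v, g ∈ An _ _
  fd : ∀ v, FiniteDimensional ℝ (F v)
  nc : ∀ v f, Nc n m B.t0 t1 (NR T (vP v.1)) f → ∃ g ∈ F v, ∀ t, g t = f t
  der : ∀ v, ∀ g ∈ F v, ∃ P : ℝ[X], P.natDegree < n * m ∧ ∀ G : ℝ → ℝ, (∀ t, g t = G t) →
    ∀ t ∈ B.I, DifferentiableAt ℝ G t →
      (t - t1) ^ n * (∏ w, ‖B.ev (vP v.1) w t‖ ^ 2) * deriv G t = P.eval t

def ExDat : Prop := ∀ (n r : ℕ) [NeZero n] (T : Tb n) (t1 : ℤ) (B : Br n r) (m : ℕ) (ε0 : ℝ),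
  1 ≤ m → B.Ok T t1 → ∃ l F, Dat T B t1 m ε0 l F

def SDat : Prop := SPrim → ExDat

/-- the shapes separate and are rigid -/
def SepB : Prop := ∀ (n r : ℕ) [NeZero n] (T : Tb n) (t1 : ℤ) (B : Br n r) (ι : Type)
  (cls : Fin r → ι) (m : ℕ) (ε0 : ℝ) l F, n = 2 * r → T.Ok → B.Ok T t1 → B.Cst cls →
  (∀ i, T.e i + 3 ≤ m) → 0 < ε0 → Dat T B t1 m ε0 l F → Sep (An _ _) (Qm cls) l F

def SSepB : Prop := Rig → SepB

def SArx : Prop := SAn → SFin → Abs → ExDat → SepB → ARX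

end Pool.Agent.MP_f3836a_nt.GV.R
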